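import Mathlib
import Pool.Agent.Lib.MP_e52354_nt.Ultra
import Pool.Agent.Lib.MP_44a246_ntY.Y37

/-!
# Stage II of paper 667: the field of the germs of small elements

The ultrapower of an algebraically closed field is algebraically closed; a sequence of finite
extensions of `K` with bounds `T` for the degree and for the ramification; the field of the germs of
the sequences of elements of height `O (T)` and its algebraic closure in the ultrapower.
-/

namespace Pool.Agent.Lib.MP_44a246_ntSH

open Pool.Agent.Lib.MP_e52354_nt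
open Pool.Agent.Lib.MP_44a246_nt
open Pool.Agent.Lib.MP_44a246_ntL
open Pool.Agent.Lib.MP_44a246_ntY
open WithZero Module Polynomial

section Height

variable {κ L : Type*} [Field κ] [IsAlgClosed κ] [CharZero κ] [Field L] [Algebra κ L]

theorem height_one_mul_le (h : IsFF κ L) (a b : L) :
    height κ ![1, a * b] ≤ height κ ![1, a] + height κ ![1, b] := by
  rw [height_one, height_one, height_one,
    ← finsum_add_distrib (log_max_support h a) (log_max_support h b)]
  refine finsum_mono (log_max_support h _)
    (((log_max_support h a).union (log_max_support h b)).subset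
      (Function.support_add _ _)) fun w => ?_
  have hne : ∀ c : L, max 1 (w.1 c) ≠ 0 := fun c =>
    (lt_of_lt_of_le zero_lt_one (le_max_left _ _)).ne'
  rw [← log_mul (hne a) (hne b), log_le_log (hne _) (mul_ne_zero (hne a) (hne b)), map_mul]
  refine max_le ?_ (mul_le_mul' (le_max_right _ _) (le_max_right _ _))
  exact one_le_mul (le_max_left _ _) (le_max_left _ _)

theorem height_one_add_le (h : IsFF κ L) (a b : L) :
    height κ ![1, a + b] ≤ height κ ![1, a] + height κ ![1, b] := by
  rw [height_one, height_one, height_one,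
    ← finsum_add_distrib (log_max_support h a) (log_max_support h b)]
  refine finsum_mono (log_max_support h _)
    (((log_max_support h a).union (log_max_support h b)).subset
      (Function.support_add _ _)) fun w => ?_
  have hne : ∀ c : L, max 1 (w.1 c) ≠ 0 := fun c =>
    (lt_of_lt_of_le zero_lt_one (le_max_left _ _)).ne'
  rw [← log_mul (hne a) (hne b), log_le_log (hne _) (mul_ne_zero (hne a) (hne b))]
  refine max_le (one_le_mul (le_max_left _ _) (le_max_left _ _)) ?_
  refine (w.1.map_add a b).trans (max_le ?_ ?_)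
  · calc w.1 a = w.1 a * 1 := (mul_one _).symm
      _ ≤ _ := mul_le_mul' (le_max_right _ _) (le_max_left _ _)
  · calc w.1 b = 1 * w.1 b := (one_mul _).symm
      _ ≤ _ := mul_le_mul' (le_max_left _ _) (le_max_right _ _)

theorem height_one_neg (a : L) : height κ ![1, -a] = height κ ![1, a] := by
  rw [height_one, height_one]
  exact finsum_congr fun w => by rw [Valuation.map_neg]

theorem height_one_inv (h : IsFF κ L) (a : L) : height κ ![1, a⁻¹] = height κ ![1, a] := by
  by_cases ha : a = 0
  · rw [ha, inv_zero]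
  have h1 : height κ ![1, a⁻¹] = height κ ![1, a⁻¹] + ∑ᶠ w : Place κ L, log (w.1 a) := by
    rw [h.product_formula ha, add_zero]
  rw [h1, height_one, height_one,
    ← finsum_add_distrib (log_max_support h a⁻¹) (h.place_support ha)]
  refine finsum_congr fun w => ?_
  have hwa : w.1 a ≠ 0 := (Valuation.ne_zero_iff _).2 ha
  have hne : max 1 (w.1 a⁻¹) ≠ 0 := (lt_of_lt_of_le zero_lt_one (le_max_left _ _)).ne'
  rw [← log_mul hne hwa]
  congr 1
  rw [map_inv₀]
  rcases le_total (w.1 a) 1 with h2 | h2
  · have h3 : 1 ≤ (w.1 a)⁻¹ := (one_le_inv₀ (zero_lt_iff.2 hwa)).2 h2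
    rw [max_eq_right h3, max_eq_left h2, inv_mul_cancel₀ hwa]
  · have h3 : (w.1 a)⁻¹ ≤ 1 := inv_le_one_of_one_le₀ h2
    rw [max_eq_left h3, max_eq_right h2, one_mul]

theorem height_one_const (c : κ) : height κ ![1, algebraMap κ L c] = 0 := by
  rw [height_one]
  refine (finsum_congr fun w => ?_).trans finsum_zero
  by_cases hc : c = 0
  · rw [hc, map_zero, map_zero, max_eq_left zero_le, log_one]
  · rw [w.2.2 c hc, max_self, log_one]

theorem height_one_nonneg (h : IsFF κ L) (a : L) : 0 ≤ height κ ![1, a] :=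
  h.height_nonneg fun h0 => one_ne_zero (congrFun h0 0)

end Height

section Ultra

/-- the ultrapower of an algebraically closed field is algebraically closed -/
theorem isAlgClosed_UP (Ω : Type*) [Field Ω] [IsAlgClosed Ω] : IsAlgClosed (UP Ω) := by
  refine IsAlgClosed.of_exists_root _ fun p hp hirr => ?_
  obtain ⟨q, hq, hqd, hqm⟩ := lifts_and_natDegree_eq_and_monic
    ((mem_lifts _).2 (Polynomial.map_surjective _ (germHom_surjective (L := Ω)) p)) hp
  have hd : 0 < q.natDegree := by
    rw [hqd]
    exact hirr.natDegree_pos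
  have hroot : ∀ N, ∃ z : Ω, (q.map (Pi.evalRingHom (fun _ => Ω) N)).eval z = 0 := by
    intro N
    refine IsAlgClosed.exists_root _ ?_
    have h1 : (q.map (Pi.evalRingHom (fun _ => Ω) N)).natDegree = q.natDegree :=
      hqm.natDegree_map _
    intro h2
    have h3 := natDegree_eq_of_degree_eq_some h2
    rw [h1] at h3
    exact hd.ne' h3
  choose z hz using hroot
  refine ⟨germHom z, ?_⟩
  rw [← hq, eval_map_apply]
  have h2 : q.eval z = 0 := by
    funext N
    have h3 := hz N
    have h4 : z N = Pi.evalRingHom (fun _ => Ω) N z := rfl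
    rw [h4, eval_map_apply] at h3
    exact h3
  rw [h2, map_zero]

end Ultra

instance isScalarTower_sub {κ K Ω : Type*} [Field κ] [Field K] [Algebra κ K] [Field Ω]
    [Algebra K Ω] [Algebra κ Ω] [IsScalarTower κ K Ω] (F : IntermediateField K Ω) :
    IsScalarTower κ F Ω :=
  IsScalarTower.of_algebraMap_eq fun x => by
    rw [IsScalarTower.algebraMap_apply κ K F, IsScalarTower.algebraMap_apply κ K Ω]
    rfl

instance isScalarTower_sub₂ {κ K Ω : Type*} [Field κ] [Field K] [Algebra κ K] [Field Ω]
    [Algebra K Ω] [Algebra κ Ω] [IsScalarTower κ K Ω] (F : IntermediateField K Ω)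
    (E : IntermediateField F Ω) : IsScalarTower κ K E :=
  IsScalarTower.of_algebraMap_eq fun x => Subtype.ext <| by
    change algebraMap κ Ω x = algebraMap K Ω (algebraMap κ K x)
    rw [IsScalarTower.algebraMap_apply κ K Ω]

/-- A sequence of finite extensions `L N` of `K` in `Ω`, and bounds `T N` for their degrees and
ramification. -/
structure Tow (κ K Ω : Type*) [Field κ] [Field K] [Algebra κ K] [Field Ω] [Algebra K Ω]
    [Algebra κ Ω] [IsScalarTower κ K Ω] where
  L : ℕ → IntermediateField K Ω
  T : ℕ → ℕ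
  ff : IsFF κ K
  fin : ∀ N, FiniteDimensional K (L N)
  one_le : ∀ N, 1 ≤ T N
  deg : ∀ N, finrank K (L N) ≤ T N
  ram : ∀ N, ramDeg κ (L N) K ≤ T N

namespace Tow

variable {κ K Ω : Type*} [Field κ] [IsAlgClosed κ] [CharZero κ] [Field K] [Algebra κ K]
  [Field Ω] [Algebra K Ω] [Algebra κ Ω] [IsScalarTower κ K Ω] (W : Tow κ K Ω)

omit [IsAlgClosed κ] [CharZero κ] in
theorem ffL (N : ℕ) : IsFF κ (W.L N) := by
  have := W.fin N
  exact W.ff.of_finite

/-- the field of the germs of the sequences of elements of the fields `L N` of height `O (T N)` -/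
noncomputable def sm : Subfield (UP Ω) where
  carrier := {z | ∃ (f : ∀ N, W.L N) (c : ℕ), (∀ N, height κ ![1, f N] ≤ c * (W.T N : ℤ)) ∧
    germHom (fun N => (f N : Ω)) = z}
  zero_mem' := by
    refine ⟨fun _ => 0, 0, fun N => ?_, ?_⟩
    · have h := height_one_const (κ := κ) (L := W.L N) 0
      rw [map_zero] at h
      rw [h]
      simp
    · exact map_zero germHom
  one_mem' := by
    refine ⟨fun _ => 1, 0, fun N => ?_, ?_⟩
    · have h := height_one_const (κ := κ) (L := W.L N) 1
      rw [map_one] at h
      rw [h]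
      simp
    · exact map_one germHom
  add_mem' := by
    rintro _ _ ⟨f, c, hf, rfl⟩ ⟨g, d, hg, rfl⟩
    refine ⟨fun N => f N + g N, c + d, fun N => ?_, ?_⟩
    · refine (height_one_add_le (W.ffL N) _ _).trans ?_
      push_cast
      rw [add_mul]
      exact add_le_add (hf N) (hg N)
    · rw [← map_add]
      rfl
  mul_mem' := by
    rintro _ _ ⟨f, c, hf, rfl⟩ ⟨g, d, hg, rfl⟩
    refine ⟨fun N => f N * g N, c + d, fun N => ?_, ?_⟩
    · refine (height_one_mul_le (W.ffL N) _ _).trans ?_
      push_cast
      rw [add_mul]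
      exact add_le_add (hf N) (hg N)
    · rw [← map_mul]
      rfl
  neg_mem' := by
    rintro _ ⟨f, c, hf, rfl⟩
    refine ⟨fun N => - f N, c, fun N => ?_, ?_⟩
    · rw [height_one_neg]
      exact hf N
    · rw [← map_neg]
      rfl
  inv_mem' := by
    rintro _ ⟨f, c, hf, rfl⟩
    refine ⟨fun N => (f N)⁻¹, c, fun N => ?_, ?_⟩
    · rw [height_one_inv (W.ffL N)]
      exact hf N
    · by_cases h0 : germHom (fun N => (f N : Ω)) = 0
      · rw [h0, inv_zero, germHom_eq_zero_iff]
        rw [germHom_eq_zero_iff] at h0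
        filter_upwards [h0] with N hN
        have : f N = 0 := Subtype.ext hN
        rw [this, inv_zero]
        rfl
      · refine eq_inv_of_mul_eq_one_left ?_
        rw [← map_mul, ← map_one germHom, germHom_eq_iff]
        rw [germHom_eq_zero_iff] at h0
        filter_upwards [Ultrafilter.eventually_not.2 h0] with N hN
        have : f N ≠ 0 := fun h => hN (by rw [h]; rfl)
        show (((f N)⁻¹ : W.L N) : Ω) * (f N : Ω) = 1
        rw [← MulMemClass.coe_mul, inv_mul_cancel₀ this]
        rfl

theorem mem_sm {z : UP Ω} : z ∈ W.sm ↔ ∃ (f : ∀ N, W.L N) (c : ℕ),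
    (∀ N, height κ ![1, f N] ≤ c * (W.T N : ℤ)) ∧ germHom (fun N => (f N : Ω)) = z := Iff.rfl

/-- the germs of the constant sequences in `K` are small -/
theorem const_mem_sm (u : K) : constHom (algebraMap K Ω u) ∈ W.sm := by
  refine ⟨fun N => algebraMap K (W.L N) u, (height κ ![1, u]).toNat, fun N => ?_, rfl⟩
  have := W.fin N
  have hne : (![1, u] : Fin 2 → K) ≠ 0 := fun h0 => one_ne_zero (congrFun h0 0)
  have h1 : (fun i => algebraMap K (W.L N) ((![1, u] : Fin 2 → K) i)) =
      ![1, algebraMap K (W.L N) u] := by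
    funext i
    fin_cases i
    · exact map_one _
    · rfl
  have h2 := (W.ffL N).height_ext (K := K) hne
  rw [h1] at h2
  rw [h2, Int.toNat_of_nonneg (height_one_nonneg W.ff u), mul_comm]
  refine mul_le_mul_of_nonneg_left ?_ (height_one_nonneg W.ff u)
  exact_mod_cast W.deg N

/-- the germs of the small elements: the elements of the ultrapower algebraic over `sm` -/
noncomputable abbrev F0 : IntermediateField W.sm (UP Ω) := algebraicClosure W.sm (UP Ω)

theorem mem_F0 {z : UP Ω} : z ∈ W.F0 ↔ IsAlgebraic W.sm z := mem_algebraicClosure_iff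

theorem const_mem_F0 (u : K) : constHom (algebraMap K Ω u) ∈ W.F0 :=
  W.F0.algebraMap_mem ⟨_, W.const_mem_sm u⟩

/-- the elements of `K` in the field `F0` -/
noncomputable def cst (u : K) : W.F0 := ⟨constHom (algebraMap K Ω u), W.const_mem_F0 u⟩

instance isAlgClosed_F0 [IsAlgClosed Ω] : IsAlgClosed W.F0 := by
  have := isAlgClosed_UP Ω
  refine IsAlgClosed.of_exists_root _ fun p hp hirr => ?_
  obtain ⟨z, hz⟩ := IsAlgClosed.exists_aeval_eq_zero (UP Ω) p
    (degree_pos_of_irreducible hirr).ne'
  have h1 : IsAlgebraic W.F0 z := ⟨p, hirr.ne_zero, hz⟩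
  have h2 : IsAlgebraic W.sm z := h1.restrictScalars W.sm
  refine ⟨⟨z, W.mem_F0.2 h2⟩, ?_⟩
  have h3 : algebraMap W.F0 (UP Ω) (p.eval ⟨z, W.mem_F0.2 h2⟩) = 0 := by
    rw [← hz, ← aeval_algebraMap_apply_eq_algebraMap_eval]
    rfl
  exact (map_eq_zero_iff _ (algebraMap W.F0 (UP Ω)).injective).1 h3

instance charZero_F0 [CharZero Ω] : CharZero W.F0 := by
  have h1 : CharZero (UP Ω) := charZero_of_injective_ringHom (constHom (L := Ω)).injective
  exact (RingHom.charZero_iff (algebraMap W.F0 (UP Ω)).injective).2 h1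

end Tow

end Pool.Agent.Lib.MP_44a246_ntSH
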