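import Mathlib
import Pool.Agent.Lib.MP_44a246_ntSH.PJ01
import Pool.Agent.Lib.MP_44a246_nt.Over
import Pool.Agent.Lib.MP_44a246_nt.Ext

/-!
# Stage II of paper 667: an equation of an element of a finite extension
-/

namespace Pool.Agent.Lib.MP_44a246_ntSH

open Pool.Agent.Lib.MP_e52354_nt
open Pool.Agent.Lib.MP_44a246_nt
open Pool.Agent.Lib.MP_44a246_ntL
open Pool.Agent.Lib.MP_44a246_ntY
open WithZero Module Polynomial

section Red

variable {κ K : Type*} [Field κ] [Field K] [Algebra κ K]

private theorem pl_le (v : Place κ K) (c : κ) : v.1 (algebraMap κ K c) ≤ 1 := by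
  by_cases hc : c = 0
  · rw [hc, map_zero, map_zero]; exact zero_le_one
  · exact (v.2.2 c hc).le

private theorem pl_lt (v : Place κ K) {c : κ} (h : v.1 (algebraMap κ K c) < 1) : c = 0 := by
  by_contra hc
  rw [v.2.2 c hc] at h
  exact lt_irrefl _ h

variable [IsAlgClosed κ] [CharZero κ]

/-- reduction of polynomials -/
private theorem red (h : IsFF κ K) (v : Place κ K) (p : K[X]) (hp : ∀ i, v.1 (p.coeff i) ≤ 1) :
    ∃ q : κ[X], (∀ i, v.1 (p.coeff i - algebraMap κ K (q.coeff i)) < 1) ∧
      ∀ c : κ, v.1 (p.eval (algebraMap κ K c) - algebraMap κ K (q.eval c)) < 1 := by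
  choose c hc using fun i => h.place_residue v (hp i)
  let q : κ[X] := ∑ i ∈ Finset.range (p.natDegree + 1), monomial i (c i)
  have hq : ∀ i, q.coeff i = if i < p.natDegree + 1 then c i else 0 := by
    intro i
    simp only [q, finsetSum_coeff, coeff_monomial]
    rw [Finset.sum_ite_eq' (Finset.range (p.natDegree + 1)) i]
    simp only [Finset.mem_range]
  have hqd : q.natDegree ≤ p.natDegree := by
    rw [natDegree_le_iff_coeff_eq_zero]
    intro i hi
    rw [hq, if_neg (by omega)]
  have h1 : ∀ i, v.1 (p.coeff i - algebraMap κ K (q.coeff i)) < 1 := by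
    intro i
    rw [hq]
    split_ifs with hi
    · exact hc i
    · rw [coeff_eq_zero_of_natDegree_lt (by omega), map_zero, sub_zero, map_zero]
      exact zero_lt_one
  refine ⟨q, h1, ?_⟩
  intro a
  rw [eval_eq_sum_range' (show p.natDegree < p.natDegree + 1 by omega),
    eval_eq_sum_range' (show q.natDegree < p.natDegree + 1 by omega), map_sum,
    ← Finset.sum_sub_distrib]
  refine v.1.map_sum_lt one_ne_zero fun i _ => ?_
  have h2 : p.coeff i * algebraMap κ K a ^ i - algebraMap κ K (q.coeff i * a ^ i) =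
      (p.coeff i - algebraMap κ K (q.coeff i)) * algebraMap κ K (a ^ i) := by
    rw [map_mul, map_pow]
    ring
  rw [h2, map_mul]
  calc v.1 (p.coeff i - algebraMap κ K (q.coeff i)) * v.1 (algebraMap κ K (a ^ i))
      ≤ v.1 (p.coeff i - algebraMap κ K (q.coeff i)) * 1 := by
        gcongr
        exact pl_le v _
    _ < 1 := by rw [mul_one]; exact h1 i

/-- the coefficients of a polynomial are bounded by its values at the constants -/
private theorem coeff_le (h : IsFF κ K) (v : Place κ K) (f : K[X]) {a : ℤᵐ⁰}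
    (hf : ∀ c : κ, v.1 (f.eval (algebraMap κ K c)) ≤ a) (i : ℕ) : v.1 (f.coeff i) ≤ a := by
  obtain ⟨i0, hi0, hmax⟩ := Finset.exists_max_image (Finset.range (f.natDegree + 1))
    (fun i => v.1 (f.coeff i)) ⟨0, by simp⟩
  have hmax' : ∀ i, v.1 (f.coeff i) ≤ v.1 (f.coeff i0) := by
    intro i
    by_cases hi : i < f.natDegree + 1
    · exact hmax i (Finset.mem_range.2 hi)
    · rw [coeff_eq_zero_of_natDegree_lt (by omega), map_zero]
      exact zero_le
  refine (hmax' i).trans ?_
  by_contra hcon
  push Not at hcon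
  have h0 : f.coeff i0 ≠ 0 := by
    intro h1
    rw [h1, map_zero] at hcon
    exact absurd hcon (not_lt.2 zero_le)
  have hv0 : v.1 (f.coeff i0) ≠ 0 := (v.1.ne_zero_iff).2 h0
  obtain ⟨q, h1, h2⟩ := red h v (C (f.coeff i0)⁻¹ * f) (by
    intro j
    rw [coeff_C_mul, map_mul, map_inv₀]
    calc (v.1 (f.coeff i0))⁻¹ * v.1 (f.coeff j) ≤ (v.1 (f.coeff i0))⁻¹ * v.1 (f.coeff i0) := by
          gcongr
          exact hmax' j
      _ = 1 := inv_mul_cancel₀ hv0)
  have hq0 : q = 0 := by
    apply Polynomial.funext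
    intro c
    rw [eval_zero]
    apply pl_lt v
    have h3 := h2 c
    have h4 : v.1 ((C (f.coeff i0)⁻¹ * f).eval (algebraMap κ K c)) < 1 := by
      rw [eval_mul, eval_C, map_mul, map_inv₀]
      calc (v.1 (f.coeff i0))⁻¹ * v.1 (f.eval (algebraMap κ K c)) ≤ (v.1 (f.coeff i0))⁻¹ * a := by
            gcongr
            exact hf c
        _ < (v.1 (f.coeff i0))⁻¹ * v.1 (f.coeff i0) :=
            mul_lt_mul_of_pos_left hcon (inv_pos.2 (zero_lt_iff.2 hv0))
        _ = 1 := inv_mul_cancel₀ hv0
    have h5 : algebraMap κ K (q.eval c) = (C (f.coeff i0)⁻¹ * f).eval (algebraMap κ K c) -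
        ((C (f.coeff i0)⁻¹ * f).eval (algebraMap κ K c) - algebraMap κ K (q.eval c)) := by ring
    rw [h5]
    exact v.1.map_sub_lt h4 h3
  have h6 := h1 i0
  rw [hq0, coeff_zero, map_zero, sub_zero, coeff_C_mul, inv_mul_cancel₀ h0, map_one] at h6
  exact lt_irrefl _ h6

end Red

/-- an equation of an element of a finite extension whose coefficients have at most the height of
the element -/
theorem exists_poly_of_height {κ L E : Type*} [Field κ] [IsAlgClosed κ] [CharZero κ] [Field L]
    [Algebra κ L] [Field E] [Algebra κ E] [Algebra L E] [IsScalarTower κ L E]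
    [FiniteDimensional L E] (hL : IsFF κ L) (z : E) :
    ∃ p : L[X], p.Monic ∧ p.natDegree = finrank L E ∧ aeval z p = 0 ∧
      ∀ i, height κ ![1, p.coeff i] ≤ height κ ![1, z] := by
  classical
  have hE : IsFF κ E := hL.of_finite
  let b := Module.finBasis L E
  set M := Algebra.leftMulMatrix b z with hM
  have heval : ∀ c : κ, M.charpoly.eval (algebraMap κ L c) =
      Algebra.norm L (algebraMap κ E c - z) := by
    intro c
    rw [Matrix.eval_charpoly, Algebra.norm_eq_matrix_det b, map_sub,
      IsScalarTower.algebraMap_apply κ L E, AlgHom.commutes]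
    rfl
  refine ⟨M.charpoly, M.charpoly_monic, ?_, ?_, fun i => ?_⟩
  · rw [Matrix.charpoly_natDegree_eq_dim, Fintype.card_fin]
  · apply Algebra.leftMulMatrix_injective b
    rw [← Polynomial.aeval_algHom_apply, map_zero]
    exact Matrix.aeval_self_charpoly M
  refine hE.ind ?_
  intro _ _ _ _ _ _ _ _ _
  have hne : ∀ (w : Place κ E) (y : E), max 1 (w.1 y) ≠ 0 := fun w y =>
    (lt_of_lt_of_le zero_lt_one (le_max_left _ _)).ne'
  have hnn : ∀ (w : Place κ E) (y : E), 0 ≤ log (max 1 (w.1 y)) := by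
    intro w y
    rw [← log_one (M := ℤ)]
    exact (log_le_log one_ne_zero (hne w y)).2 (le_max_left _ _)
  have hloc : ∀ v : Place κ L, log (max 1 (v.1 (M.charpoly.coeff i))) ≤
      ∑ w ∈ overFin E v, log (max 1 (w.1 z)) := by
    intro v
    have hm0 : 0 ≤ ∑ w ∈ overFin E v, log (max 1 (w.1 z)) :=
      Finset.sum_nonneg fun w _ => hnn w z
    have h1 : v.1 (M.charpoly.coeff i) ≤ exp (∑ w ∈ overFin E v, log (max 1 (w.1 z))) := by
      refine coeff_le hL v M.charpoly (fun c => ?_) i
      rw [heval]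
      by_cases hy : algebraMap κ E c - z = 0
      · rw [hy, Algebra.norm_zero, map_zero]
        exact zero_le
      have h2 : v.1 (Algebra.norm L (algebraMap κ E c - z)) ≠ 0 :=
        (v.1.ne_zero_iff).2 (Algebra.norm_ne_zero_iff.2 hy)
      rw [← exp_log h2, exp_le_exp, log_norm (L := E) v hy]
      refine Finset.sum_le_sum fun w _ => ?_
      refine (log_le_log ((w.1.ne_zero_iff).2 hy) (hne w z)).2 ?_
      exact (w.1.map_sub _ _).trans (max_le_max_right _ (pl_le w c))
    have h3 : max 1 (v.1 (M.charpoly.coeff i)) ≤ exp (∑ w ∈ overFin E v, log (max 1 (w.1 z))) := by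
      have h10 : (1 : ℤᵐ⁰) = exp (0 : ℤ) := exp_zero.symm
      exact max_le (h10.le.trans (exp_le_exp.2 hm0)) h1
    have h4 : max 1 (v.1 (M.charpoly.coeff i)) ≠ 0 :=
      (lt_of_lt_of_le zero_lt_one (le_max_left _ _)).ne'
    have h5 := (log_le_log h4 exp_ne_zero).2 h3
    rwa [log_exp] at h5
  rw [height_one, height_one]
  have hfE := log_max_support hE z
  have hfL := log_max_support hL (M.charpoly.coeff i)
  set T : Finset (Place κ L) := hfE.toFinset.image (below L) ∪ hfL.toFinset with hT
  have hS : (Function.support fun w : Place κ E => log (max 1 (w.1 z))) ⊆ ↑hfE.toFinset := by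
    rw [Set.Finite.coe_toFinset]
  rw [sum_fiber (K := L) hS (T := T) (fun w hw => Finset.mem_union_left _
    (Finset.mem_image_of_mem _ hw))]
  rw [finsum_eq_sum_of_support_subset (s := T) _ (by
    intro v hv
    rw [hT, Finset.coe_union, Set.Finite.coe_toFinset]
    exact Or.inr hv)]
  exact Finset.sum_le_sum fun v _ => hloc v

end Pool.Agent.Lib.MP_44a246_ntSH
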