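import Mathlib
import Pool.Agent.Lib.MP_44a246_ntSH.PJ01
import Pool.Agent.Lib.MP_44a246_ntSH.PJ02a

/-!
# Stage II of paper 667: elements of bounded degree and small height are in the field `F0`
-/

namespace Pool.Agent.Lib.MP_44a246_ntSH

open Pool.Agent.Lib.MP_e52354_nt
open Pool.Agent.Lib.MP_44a246_nt
open Pool.Agent.Lib.MP_44a246_ntL
open Pool.Agent.Lib.MP_44a246_ntY
open WithZero Module Polynomial

namespace Tow

variable {κ K Ω : Type*} [Field κ] [IsAlgClosed κ] [CharZero κ] [Field K] [Algebra κ K]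
  [Field Ω] [Algebra K Ω] [Algebra κ Ω] [IsScalarTower κ K Ω] (W : Tow κ K Ω)

/-- the germ of a sequence of elements of bounded degree over `L N` and height `O (T N)` is in
`F0` -/
theorem germ_mem_F0 (E : ∀ N, IntermediateField (W.L N) Ω)
    [∀ N, FiniteDimensional (W.L N) (E N)] {c : ℕ} (hE : ∀ N, finrank (W.L N) (E N) ≤ c)
    (z : ∀ N, E N) (hz : ∀ᶠ N in (Filter.hyperfilter ℕ : Filter ℕ),
      height κ ![1, z N] ≤ c * (W.T N : ℤ)) :
    germHom (fun N => (z N : Ω)) ∈ W.F0 := by
  classical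
  have key : ∀ N, ∃ q : (W.L N)[X], q.Monic ∧ q.natDegree = c ∧
      (∀ i, height κ ![1, q.coeff i] ≤ c * (W.T N : ℤ)) ∧
      (height κ ![1, z N] ≤ c * (W.T N : ℤ) → aeval (z N) q = 0) := by
    intro N
    have h0 : height κ ![1, (0 : W.L N)] = 0 := by
      have h2 := height_one_const (κ := κ) (L := W.L N) 0
      rwa [map_zero] at h2
    have h1 : height κ ![1, (1 : W.L N)] = 0 := by
      have h2 := height_one_const (κ := κ) (L := W.L N) 1
      rwa [map_one] at h2
    have hnn : (0 : ℤ) ≤ c * (W.T N : ℤ) := by positivity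
    by_cases h : height κ ![1, z N] ≤ c * (W.T N : ℤ)
    · obtain ⟨p, hp, hpd, hpz, hph⟩ := exists_poly_of_height (κ := κ) (W.ffL N) (z N)
      refine ⟨p * X ^ (c - finrank (W.L N) (E N)), hp.mul (monic_X_pow _), ?_, fun i => ?_,
        fun _ => ?_⟩
      · rw [hp.natDegree_mul (monic_X_pow _), natDegree_X_pow, hpd]
        have := hE N
        omega
      · rw [coeff_mul_X_pow']
        split_ifs with hi
        · exact (hph _).trans h
        · rw [h0]
          exact hnn
      · rw [map_mul, hpz, zero_mul]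
    · refine ⟨X ^ c, monic_X_pow _, natDegree_X_pow _, fun i => ?_, fun h2 => absurd h2 h⟩
      rw [coeff_X_pow]
      split_ifs with hi
      · rw [h1]
        exact hnn
      · rw [h0]
        exact hnn
  choose q hqm hqd hqh hqz using key
  have hmem : ∀ i, germHom (fun N => (((q N).coeff i : W.L N) : Ω)) ∈ W.sm := fun i =>
    ⟨fun N => (q N).coeff i, c, fun N => hqh N i, rfl⟩
  let A : ℕ → W.sm := fun i => ⟨_, hmem i⟩
  let P : W.sm[X] := X ^ c + ∑ i ∈ Finset.range c, C (A i) * X ^ i
  have hP : P ≠ 0 := by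
    refine (monic_X_pow_add ?_).ne_zero
    refine (degree_sum_le _ _).trans_lt ?_
    rw [Finset.sup_lt_iff (WithBot.bot_lt_coe _)]
    intro i hi
    exact (degree_C_mul_X_pow_le _ _).trans_lt (Nat.cast_lt.2 (Finset.mem_range.1 hi))
  refine W.mem_F0.2 ⟨P, hP, ?_⟩
  have h3 : aeval (germHom (fun N => (z N : Ω))) P =
      germHom (fun N => (z N : Ω) ^ c +
        ∑ i ∈ Finset.range c, (((q N).coeff i : W.L N) : Ω) * (z N : Ω) ^ i) := by
    have h4 : (fun N => (z N : Ω) ^ c +
        ∑ i ∈ Finset.range c, (((q N).coeff i : W.L N) : Ω) * (z N : Ω) ^ i) =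
        (fun N => (z N : Ω)) ^ c + ∑ i ∈ Finset.range c,
          (fun N => (((q N).coeff i : W.L N) : Ω)) * (fun N => (z N : Ω)) ^ i := by
      funext N
      rw [Pi.add_apply, Pi.pow_apply, Finset.sum_apply]
      rfl
    rw [h4, map_add, map_pow, map_sum, map_add, map_pow, map_sum, aeval_X]
    congr 1
    refine Finset.sum_congr rfl fun i _ => ?_
    rw [map_mul, map_pow, aeval_X, aeval_C, map_mul, map_pow]
    rfl
  rw [h3, germHom_eq_zero_iff]
  filter_upwards [hz] with N hN
  have h5 := hqz N hN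
  rw [aeval_eq_sum_range, hqd N, Finset.sum_range_succ] at h5
  have h6 : (q N).coeff c = 1 := by
    have := hqm N
    rw [Monic, leadingCoeff, hqd N] at this
    exact this
  rw [h6, one_smul] at h5
  have h7 := congrArg (fun x : E N => (x : Ω)) h5
  rw [add_comm]
  convert h7 using 1
  · push_cast
    rfl
  · rfl

/-- sequences in `L N` -/
theorem germ_mem_F0' (z : ∀ N, W.L N) {c : ℕ} (hz : ∀ᶠ N in (Filter.hyperfilter ℕ : Filter ℕ),
      height κ ![1, z N] ≤ c * (W.T N : ℤ)) :
    germHom (fun N => (z N : Ω)) ∈ W.F0 := by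
  -- this is in `W.sm` (replace `z N` by `0` if the height is large)
  classical
  have hmem : germHom (fun N => (z N : Ω)) ∈ W.sm := by
    refine W.mem_sm.2 ⟨fun N => if height κ ![1, z N] ≤ c * (W.T N : ℤ) then z N else 0,
      c, fun N => ?_, ?_⟩
    · show height κ ![1, if height κ ![1, z N] ≤ c * (W.T N : ℤ) then z N else 0] ≤ _
      split_ifs with h
      · exact h
      · have h2 := height_one_const (κ := κ) (L := W.L N) 0
        rw [map_zero] at h2
        rw [h2]
        positivity
    · rw [germHom_eq_iff]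
      filter_upwards [hz] with N hN
      rw [if_pos hN]
  exact W.F0.algebraMap_mem ⟨_, hmem⟩

end Tow

end Pool.Agent.Lib.MP_44a246_ntSH
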