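import Mathlib
import Pool.Agent.Lib.MP_44a246_ntSH.PJ01
import Pool.Agent.Lib.MP_44a246_ntY.Y37

/-!
# Stage II of paper 667: the height of a root
-/

namespace Pool.Agent.Lib.MP_44a246_ntSH

open Pool.Agent.Lib.MP_e52354_nt
open Pool.Agent.Lib.MP_44a246_nt
open Pool.Agent.Lib.MP_44a246_ntL
open Pool.Agent.Lib.MP_44a246_ntY
open WithZero Module Polynomial

/-- the size of a root at one place -/
private theorem val_root {E : Type*} [Field E] (v : Valuation E ℤᵐ⁰) {z : E} {q : E[X]}
    (hq : q ≠ 0) (hz : q.eval z = 0) {d : ℕ} (hd : q.natDegree ≤ d) :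
    max 1 (v z) ≤ (∏ i ∈ Finset.range (d + 1), max 1 (v (q.coeff i))) *
      max 1 (v (q.leadingCoeff)⁻¹) := by
  have hP1 : 1 ≤ ∏ i ∈ Finset.range (d + 1), max 1 (v (q.coeff i)) :=
    Finset.one_le_prod' fun i _ => le_max_left _ _
  have hA1 : 1 ≤ max 1 (v (q.leadingCoeff)⁻¹) := le_max_left _ _
  refine max_le (one_le_mul hP1 hA1) ?_
  rcases le_or_gt (v z) 1 with h1 | h1
  · exact h1.trans (one_le_mul hP1 hA1)
  have hv0 : v z ≠ 0 := (zero_lt_one.trans h1).ne'
  have ha0 : v q.leadingCoeff ≠ 0 := (Valuation.ne_zero_iff _).2 (leadingCoeff_ne_zero.2 hq)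
  have hD : q.natDegree ≠ 0 := by
    intro h0
    have h2 := eq_C_of_natDegree_eq_zero h0
    rw [h2, eval_C] at hz
    rw [hz, C_0] at h2
    exact hq h2
  obtain ⟨D, hD'⟩ := Nat.exists_eq_succ_of_ne_zero hD
  have h2 : q.leadingCoeff * z ^ q.natDegree =
      - ∑ i ∈ Finset.range q.natDegree, q.coeff i * z ^ i := by
    rw [eval_eq_sum_range, Finset.sum_range_succ] at hz
    exact eq_neg_of_add_eq_zero_right hz
  have h3 : v (q.leadingCoeff * z ^ q.natDegree) ≤
      (∏ i ∈ Finset.range (d + 1), max 1 (v (q.coeff i))) * v z ^ D := by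
    rw [h2, Valuation.map_neg]
    refine v.map_sum_le fun i hi => ?_
    rw [map_mul, map_pow]
    rw [Finset.mem_range] at hi
    refine mul_le_mul' ?_ (pow_le_pow_right₀ h1.le (by omega))
    exact (le_max_right 1 _).trans (Finset.single_le_prod'
      (f := fun i => max 1 (v (q.coeff i))) (fun j _ => le_max_left _ _)
      (Finset.mem_range.2 (by omega)))
  rw [map_mul, map_pow, hD', pow_succ', ← mul_assoc] at h3
  have h4 := (mul_le_mul_iff_left₀ (zero_lt_iff.2 (pow_ne_zero D hv0))).1 h3
  calc v z = v q.leadingCoeff * v z * v (q.leadingCoeff)⁻¹ := by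
        rw [map_inv₀, mul_right_comm, mul_inv_cancel₀ ha0, one_mul]
    _ ≤ _ := mul_le_mul' h4 (le_max_right _ _)

/-- the height of a root of a polynomial with coefficients in a smaller field -/
theorem height_root_le {κ L E : Type*} [Field κ] [IsAlgClosed κ] [CharZero κ] [Field L]
    [Algebra κ L] [Field E] [Algebra κ E] [Algebra L E] [IsScalarTower κ L E]
    [FiniteDimensional L E] (hL : IsFF κ L) {z : E} {p : L[X]} (hp : p ≠ 0) (hz : aeval z p = 0)
    {d : ℕ} (hd : p.natDegree ≤ d) :
    height κ ![1, z] ≤ 2 * finrank L E * ∑ i ∈ Finset.range (d + 1), height κ ![1, p.coeff i] := by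
  -- Let `D = p.natDegree`, `a = p.coeff D ≠ 0`. At every place `w` of `E`:
  -- `log (max 1 (w z)) ≤ ∑ i ∈ range (d+1), log (max 1 (w (p_i))) + log (max 1 (w a⁻¹))`
  -- (if `w z > 1`: `w (a z ^ D) ≤ max_{i < D} w (p_i z ^ i)` and `w (z ^ i) ≤ w z ^ (D - 1)`).
  -- Sum over `w`: `height_one`, `height_one_inv` (PJ01), `IsFF.height_ext`.
  have hE : IsFF κ E := hL.of_finite
  have hinj : Function.Injective (algebraMap L E) := (algebraMap L E).injective
  have hq : p.map (algebraMap L E) ≠ 0 := (Polynomial.map_ne_zero_iff hinj).2 hp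
  have hz' : (p.map (algebraMap L E)).eval z = 0 := by rw [← hz, eval_map_algebraMap]
  have hdeg : (p.map (algebraMap L E)).natDegree = p.natDegree := natDegree_map _
  have hne : ∀ (w : Place κ E) (c : E), max 1 (w.1 c) ≠ 0 := fun w c =>
    (lt_of_lt_of_le zero_lt_one (le_max_left _ _)).ne'
  have key : height κ ![1, z] ≤ ∑ i ∈ Finset.range (d + 1),
      height κ ![1, (p.map (algebraMap L E)).coeff i] +
        height κ ![1, ((p.map (algebraMap L E)).leadingCoeff)⁻¹] := by
    rw [height_one, height_one, Finset.sum_congr rfl fun i _ => height_one (κ := κ)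
      ((p.map (algebraMap L E)).coeff i), ← finsum_sum_comm _ _ fun i _ => log_max_support hE _]
    have hs : (Function.support fun w : Place κ E => ∑ i ∈ Finset.range (d + 1),
        log (max 1 (w.1 ((p.map (algebraMap L E)).coeff i)))).Finite := by
      refine ((Finset.range (d + 1)).finite_toSet.biUnion fun i _ => log_max_support hE
        ((p.map (algebraMap L E)).coeff i)).subset fun w hw => ?_
      obtain ⟨i, hi, h0⟩ := Finset.exists_ne_zero_of_sum_ne_zero hw
      exact Set.mem_biUnion (Finset.mem_coe.2 hi) h0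
    rw [← finsum_add_distrib hs (log_max_support hE _)]
    refine finsum_mono (log_max_support hE _) ((hs.union (log_max_support hE _)).subset
      (Function.support_add _ _)) fun w => ?_
    rw [← log_prod' _ _ fun i _ => hne w _, ← log_mul (Finset.prod_ne_zero_iff.2 fun i _ =>
      hne w _) (hne w _), log_le_log (hne w _) (mul_ne_zero (Finset.prod_ne_zero_iff.2 fun i _ =>
      hne w _) (hne w _))]
    exact val_root w.1 hq hz' (hdeg ▸ hd)
  have hext : ∀ c : L, height κ ![1, algebraMap L E c] = finrank L E * height κ ![1, c] := by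
    intro c
    have hne : (![1, c] : Fin 2 → L) ≠ 0 := fun h0 => one_ne_zero (congrFun h0 0)
    have h1 : (fun i => algebraMap L E ((![1, c] : Fin 2 → L) i)) = ![1, algebraMap L E c] := by
      funext i
      fin_cases i
      · exact map_one _
      · rfl
    rw [← h1]
    exact hE.height_ext (K := L) hne
  have hlc : height κ ![1, ((p.map (algebraMap L E)).leadingCoeff)⁻¹] ≤
      ∑ i ∈ Finset.range (d + 1), height κ ![1, (p.map (algebraMap L E)).coeff i] := by
    rw [height_one_inv hE, leadingCoeff]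
    exact Finset.single_le_sum
      (f := fun i => height κ ![1, (p.map (algebraMap L E)).coeff i])
      (fun i _ => height_one_nonneg hE _) (Finset.mem_range.2 (by omega))
  have hsum : ∑ i ∈ Finset.range (d + 1), height κ ![1, (p.map (algebraMap L E)).coeff i] =
      finrank L E * ∑ i ∈ Finset.range (d + 1), height κ ![1, p.coeff i] := by
    rw [Finset.mul_sum]
    exact Finset.sum_congr rfl fun i _ => by rw [coeff_map, hext]
  rw [hsum] at key hlc
  rw [mul_assoc, two_mul]
  exact key.trans (add_le_add le_rfl hlc)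

end Pool.Agent.Lib.MP_44a246_ntSH
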