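import Mathlib
import Pool.Agent.Lib.MP_44a246_ntSH.PJ01
import Pool.Agent.Lib.MP_44a246_ntY.Y37
import Pool.Agent.Lib.MP_44a246_ntL.LTrans

/-!
# Stage II of paper 667: the ramification in a tower
-/

namespace Pool.Agent.Lib.MP_44a246_ntSH

open Pool.Agent.Lib.MP_e52354_nt
open Pool.Agent.Lib.MP_44a246_nt
open Pool.Agent.Lib.MP_44a246_ntL
open Pool.Agent.Lib.MP_44a246_ntY
open WithZero Module Polynomial

/-- the ramification in a tower -/
theorem ramDeg_tower_le {κ K L E : Type*} [Field κ] [IsAlgClosed κ] [CharZero κ] [Field K]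
    [Algebra κ K] [Field L] [Algebra κ L] [Algebra K L] [IsScalarTower κ K L]
    [FiniteDimensional K L] [Field E] [Algebra κ E] [Algebra L E] [IsScalarTower κ L E]
    [Algebra K E] [IsScalarTower K L E] [FiniteDimensional L E] (hK : IsFF κ K) :
    ramDeg κ E K ≤ finrank L E * ramDeg κ L K + ramDeg κ E L := by
  -- search the libraries MP_44a246_nt* for the tower formula of `ramDeg`
  -- (`ramIdx K w = ramIdx L w * ramIdx K (below L w)`, `∑ over = finrank * ∑`)
  have : FiniteDimensional K E := FiniteDimensional.trans K L E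
  have : IsScalarTower κ K E := IsScalarTower.of_algebraMap_eq fun x => by
    rw [IsScalarTower.algebraMap_apply κ L E, IsScalarTower.algebraMap_apply κ K L,
      ← IsScalarTower.algebraMap_apply K L E]
  rw [add_comm]
  exact ramDeg_trans hK

end Pool.Agent.Lib.MP_44a246_ntSH
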