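import Mathlib
import Pool.Agent.Lib.MP_44a246_ntSH.PJ01
import Pool.Agent.Lib.MP_44a246_ntY.Y37

/-!
# Stage II of paper 667: the elements of `F0` as germs of roots
-/

namespace Pool.Agent.Lib.MP_44a246_ntSH

open Pool.Agent.Lib.MP_e52354_nt
open Pool.Agent.Lib.MP_44a246_nt
open Pool.Agent.Lib.MP_44a246_ntL
open Pool.Agent.Lib.MP_44a246_ntY
open WithZero Module Polynomial

namespace Tow

variable {κ K Ω : Type*} [Field κ] [IsAlgClosed κ] [CharZero κ] [Field K] [Algebra κ K]
  [Field Ω] [Algebra K Ω] [Algebra κ Ω] [IsScalarTower κ K Ω] (W : Tow κ K Ω)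

/-- an element of `F0` is the germ of a sequence of roots of nonzero polynomials of bounded degree
with coefficients of height `O (T N)` -/
theorem exists_roots [IsAlgClosed Ω] {s : UP Ω} (hs : s ∈ W.F0) :
    ∃ (z : ℕ → Ω) (p : ∀ N, (W.L N)[X]) (d : ℕ), germHom z = s ∧ ∀ N, p N ≠ 0 ∧
      (p N).natDegree ≤ d ∧ aeval (z N) (p N) = 0 ∧
      ∀ i, height κ ![1, (p N).coeff i] ≤ d * (W.T N : ℤ) := by
  classical
  obtain ⟨P, hP0, hP⟩ := W.mem_F0.1 hs
  choose f c hf hfe using fun i : ℕ => W.mem_sm.1 (P.coeff i).2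
  obtain ⟨z0, hz0⟩ := germHom_surjective s
  set m := P.natDegree with hm
  let q : ∀ N, (W.L N)[X] := fun N => ∑ i ∈ Finset.range (m + 1), C (f i N) * X ^ i
  have hqc : ∀ N i, (q N).coeff i = if i < m + 1 then f i N else 0 := by
    intro N i
    simp only [q, finsetSum_coeff, coeff_C_mul, coeff_X_pow, mul_ite, mul_one, mul_zero]
    rw [Finset.sum_ite_eq]
    simp only [Finset.mem_range]
  have hqa : ∀ N, aeval (z0 N) (q N) = ∑ i ∈ Finset.range (m + 1), (f i N : Ω) * z0 N ^ i := by
    intro N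
    simp only [q, map_sum, map_mul, map_pow, aeval_C, aeval_X]
    rfl
  have h1 : ∀ᶠ N in (Filter.hyperfilter ℕ : Filter ℕ), aeval (z0 N) (q N) = 0 := by
    have h2 : germHom (fun N => aeval (z0 N) (q N)) = 0 := by
      have h3 : (fun N => aeval (z0 N) (q N)) =
          ∑ i ∈ Finset.range (m + 1), (fun N => (f i N : Ω)) * z0 ^ i := by
        funext N
        rw [hqa, Finset.sum_apply]
        rfl
      rw [h3, map_sum, ← hP, aeval_eq_sum_range]
      refine Finset.sum_congr rfl fun i _ => ?_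
      rw [map_mul, map_pow, hfe, hz0]
      rfl
    exact (germHom_eq_zero_iff _).1 h2
  have h2 : ∀ᶠ N in (Filter.hyperfilter ℕ : Filter ℕ), q N ≠ 0 := by
    have h3 : ¬ ∀ᶠ N in (Filter.hyperfilter ℕ : Filter ℕ), (f m N : Ω) = 0 := by
      intro h4
      have h5 := (germHom_eq_zero_iff (fun N => (f m N : Ω))).2 h4
      rw [hfe] at h5
      have h6 : P.coeff m = 0 := Subtype.ext h5
      exact hP0 (leadingCoeff_eq_zero.1 h6)
    filter_upwards [Ultrafilter.eventually_not.2 h3] with N hN
    intro h4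
    apply hN
    have h5 := hqc N m
    rw [h4, coeff_zero, if_pos (Nat.lt_succ_self m)] at h5
    rw [← h5]
    rfl
  have h0 : ∀ N, height κ ![1, (0 : W.L N)] = 0 := fun N => by
    have h := height_one_const (κ := κ) (L := W.L N) 0
    rwa [map_zero] at h
  have h01 : ∀ N, height κ ![1, (1 : W.L N)] = 0 := fun N => by
    have h := height_one_const (κ := κ) (L := W.L N) 1
    rwa [map_one] at h
  let d : ℕ := m + 1 + ∑ i ∈ Finset.range (m + 1), c i
  have hnn : ∀ N, 0 ≤ (d : ℤ) * (W.T N : ℤ) := fun N => by positivity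
  refine ⟨fun N => if q N ≠ 0 ∧ aeval (z0 N) (q N) = 0 then z0 N else 0,
    fun N => if q N ≠ 0 ∧ aeval (z0 N) (q N) = 0 then q N else X, d, ?_, fun N => ?_⟩
  · rw [← hz0, germHom_eq_iff]
    filter_upwards [h1, h2] with N hN1 hN2
    rw [if_pos ⟨hN2, hN1⟩]
  · by_cases hg : q N ≠ 0 ∧ aeval (z0 N) (q N) = 0
    · simp only [if_pos hg]
      refine ⟨hg.1, ?_, hg.2, fun i => ?_⟩
      · rw [natDegree_le_iff_coeff_eq_zero]
        intro i hi
        rw [hqc, if_neg]
        have : m + 1 ≤ d := Nat.le_add_right _ _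
        omega
      · rw [hqc]
        split_ifs with hi
        · refine (hf i N).trans ?_
          have h3 : c i ≤ d := by
            refine le_trans ?_ (Nat.le_add_left _ _)
            exact Finset.single_le_sum (f := c) (fun j _ => Nat.zero_le _) (Finset.mem_range.2 hi)
          exact mul_le_mul_of_nonneg_right (by exact_mod_cast h3) (by positivity)
        · rw [h0]
          exact hnn N
    · simp only [if_neg hg]
      refine ⟨X_ne_zero, ?_, ?_, fun i => ?_⟩
      · rw [natDegree_X]
        show 1 ≤ m + 1 + _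
        omega
      · rw [aeval_X]
      · rw [coeff_X]
        split_ifs
        · rw [h01]
          exact hnn N
        · rw [h0]
          exact hnn N

end Tow

end Pool.Agent.Lib.MP_44a246_ntSH
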