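import Mathlib
import Pool.Agent.Lib.MP_44a246_ntSH.PJ03a
import Pool.Agent.Lib.MP_44a246_ntSH.PJ03b
import Pool.Agent.Lib.MP_44a246_ntSH.PJ03c
import Pool.Agent.Lib.MP_44a246_ntY.Y31
import Pool.Agent.Lib.MP_44a246_ntY.Y37

/-!
# Stage II of paper 667: a finite set of elements of `F0` lives in extensions of bounded degree,
height and ramification
-/

namespace Pool.Agent.Lib.MP_44a246_ntSH

open Pool.Agent.Lib.MP_e52354_nt
open Pool.Agent.Lib.MP_44a246_nt
open Pool.Agent.Lib.MP_44a246_ntL
open Pool.Agent.Lib.MP_44a246_ntY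
open WithZero Module Polynomial

namespace Tow

/-- a finite set of generators, seen in the field which it generates -/
private theorem adjoin_top_aux {L M : Type*} [Field L] [Field M] [Algebra L M]
    (T : Finset M) (T' : Finset (IntermediateField.adjoin L (T : Set M)))
    (hT' : (Subtype.val : IntermediateField.adjoin L (T : Set M) → M) '' (T' : Set _) = T) :
    IntermediateField.adjoin L
      (T' : Set (IntermediateField.adjoin L (T : Set M))) = ⊤ := by
  apply IntermediateField.lift_injective (IntermediateField.adjoin L (T : Set M))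
  rw [IntermediateField.lift_adjoin, IntermediateField.lift_top]
  exact congrArg (IntermediateField.adjoin L) hT'

/-- one field: the field generated by finitely many roots of polynomials of bounded degree and
height -/
private theorem field_aux {κ K Ω : Type*} [Field κ] [IsAlgClosed κ] [CharZero κ] [Field K]
    [Algebra κ K] [Field Ω] [Algebra K Ω] [Algebra κ Ω] [IsScalarTower κ K Ω]
    [Algebra.IsAlgebraic K Ω] (hK : IsFF κ K) (L : IntermediateField K Ω)
    [FiniteDimensional K L] {ι : Type*} [Fintype ι] (z : ι → Ω) (p : ι → L[X]) (D t : ℕ)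
    (h0 : ∀ i, p i ≠ 0) (h1 : ∀ i, (p i).natDegree ≤ D) (h2 : ∀ i, aeval (z i) (p i) = 0)
    (h3 : ∀ i j, height κ ![1, (p i).coeff j] ≤ D * (t : ℤ)) (hram : ramDeg κ L K ≤ t) :
    ∃ (E : IntermediateField L Ω) (r : ι → E), FiniteDimensional L E ∧
      finrank L E ≤ (D + 1) ^ Fintype.card ι ∧ (∀ i, (r i : Ω) = z i) ∧
      (∀ i, height κ ![1, r i] ≤ (2 * (D + 1) ^ Fintype.card ι * (D + 1) * D : ℕ) * (t : ℤ)) ∧
      ramDeg κ E K ≤ ((D + 1) ^ Fintype.card ι + 2 * (D + 1) ^ Fintype.card ι *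
        (Fintype.card ι * (2 * (D + 1) ^ Fintype.card ι * (D + 1) * D))) * t := by
  classical
  set B : ℕ := (D + 1) ^ Fintype.card ι with hB
  set H : ℕ := 2 * B * (D + 1) * D with hH
  have halg : Algebra.IsAlgebraic L Ω := Algebra.IsAlgebraic.tower_top (K := K) L
  have hL : IsFF κ L := hK.of_finite
  set T₀ : Finset Ω := Finset.univ.image z with hT₀
  have hdeg : ∀ x ∈ T₀, (minpoly L x).natDegree ≤ D + 1 := by
    intro x hx
    obtain ⟨i, -, rfl⟩ := Finset.mem_image.1 hx
    exact (natDegree_le_of_dvd (minpoly.dvd _ _ (h2 i)) (h0 i)).trans ((h1 i).trans (Nat.le_succ _))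
  obtain ⟨hfin, hrank⟩ := finrank_adjoin_finset_le hdeg
  have hc : T₀.card ≤ Fintype.card ι := by
    refine Finset.card_image_le.trans ?_
    rw [Finset.card_univ]
  have hrank' : finrank L (IntermediateField.adjoin L (T₀ : Set Ω)) ≤ B :=
    hrank.trans (Nat.pow_le_pow_right (Nat.succ_pos _) hc)
  have hmem : ∀ i, z i ∈ IntermediateField.adjoin L (T₀ : Set Ω) := fun i =>
    IntermediateField.subset_adjoin L (T₀ : Set Ω)
      (Finset.mem_coe.2 (Finset.mem_image_of_mem _ (Finset.mem_univ i)))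
  let r : ι → IntermediateField.adjoin L (T₀ : Set Ω) := fun i => ⟨z i, hmem i⟩
  have hroot : ∀ i, aeval (r i) (p i) = 0 := by
    intro i
    apply Subtype.ext
    have h5 : ((aeval (r i) (p i) : IntermediateField.adjoin L (T₀ : Set Ω)) : Ω) =
        aeval (z i) (p i) := by
      rw [← IntermediateField.algebraMap_apply, ← aeval_algebraMap_apply]
      rfl
    rw [h5, h2 i]
    rfl
  have hE : IsFF κ (IntermediateField.adjoin L (T₀ : Set Ω)) := hL.of_finite
  have hheight : ∀ i, height κ ![1, r i] ≤ (H : ℕ) * (t : ℤ) := by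
    intro i
    refine (height_root_le hL (h0 i) (hroot i) (h1 i)).trans ?_
    have h5 : ∑ j ∈ Finset.range (D + 1), height κ ![1, (p i).coeff j] ≤
        (D + 1 : ℕ) * (D * (t : ℤ)) := by
      refine (Finset.sum_le_card_nsmul _ _ _ fun j _ => h3 i j).trans ?_
      rw [Finset.card_range, nsmul_eq_mul]
    have h6 : (0 : ℤ) ≤ ∑ j ∈ Finset.range (D + 1), height κ ![1, (p i).coeff j] :=
      Finset.sum_nonneg fun j _ => height_one_nonneg hL _
    have h7 : (finrank L (IntermediateField.adjoin L (T₀ : Set Ω)) : ℤ) ≤ B := by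
      exact_mod_cast hrank'
    calc 2 * (finrank L (IntermediateField.adjoin L (T₀ : Set Ω)) : ℤ) *
          ∑ j ∈ Finset.range (D + 1), height κ ![1, (p i).coeff j]
        ≤ 2 * (B : ℤ) * ((D + 1 : ℕ) * (D * (t : ℤ))) := by
          refine mul_le_mul ?_ h5 h6 ?_
          · linarith
          · positivity
      _ = (H : ℕ) * (t : ℤ) := by
          rw [hH]
          push_cast
          ring
  refine ⟨IntermediateField.adjoin L (T₀ : Set Ω), r, hfin, hrank', fun i => rfl, hheight, ?_⟩
  have hgen : IntermediateField.adjoin L ((Finset.univ.image r : Finset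
      (IntermediateField.adjoin L (T₀ : Set Ω))) :
      Set (IntermediateField.adjoin L (T₀ : Set Ω))) = ⊤ := by
    refine adjoin_top_aux T₀ _ ?_
    ext x
    constructor
    · rintro ⟨y, hy, rfl⟩
      obtain ⟨i, -, rfl⟩ := Finset.mem_image.1 (Finset.mem_coe.1 hy)
      exact Finset.mem_coe.2 (Finset.mem_image_of_mem _ (Finset.mem_univ i))
    · intro hx
      obtain ⟨i, -, rfl⟩ := Finset.mem_image.1 (Finset.mem_coe.1 hx)
      exact ⟨r i, Finset.mem_coe.2 (Finset.mem_image_of_mem _ (Finset.mem_univ i)), rfl⟩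
  have h5 := ram_gens hL hgen
  have h6 : ∑ x ∈ (Finset.univ.image r), height κ ![1, x] ≤
      (Fintype.card ι : ℤ) * ((H : ℕ) * (t : ℤ)) := by
    refine (Finset.sum_le_card_nsmul _ _ ((H : ℕ) * (t : ℤ)) fun x hx => ?_).trans ?_
    · obtain ⟨i, -, rfl⟩ := Finset.mem_image.1 hx
      exact hheight i
    · rw [nsmul_eq_mul]
      refine mul_le_mul_of_nonneg_right ?_ (by positivity)
      have h7 : (Finset.univ.image r).card ≤ Fintype.card ι := by
        refine Finset.card_image_le.trans ?_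
        rw [Finset.card_univ]
      exact_mod_cast h7
  have h7 : (0 : ℤ) ≤ ∑ x ∈ (Finset.univ.image r), height κ ![1, x] :=
    Finset.sum_nonneg fun x _ => height_one_nonneg hE _
  have h8 : (ramDeg κ (IntermediateField.adjoin L (T₀ : Set Ω)) L : ℤ) ≤
      ((2 * B * (Fintype.card ι * H) * t : ℕ) : ℤ) := by
    refine h5.trans ?_
    have h9 : (finrank L (IntermediateField.adjoin L (T₀ : Set Ω)) : ℤ) ≤ B := by
      exact_mod_cast hrank'
    calc 2 * (finrank L (IntermediateField.adjoin L (T₀ : Set Ω)) : ℤ) *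
          ∑ x ∈ (Finset.univ.image r), height κ ![1, x]
        ≤ 2 * (B : ℤ) * ((Fintype.card ι : ℤ) * ((H : ℕ) * (t : ℤ))) := by
          refine mul_le_mul ?_ h6 h7 ?_
          · linarith
          · positivity
      _ = ((2 * B * (Fintype.card ι * H) * t : ℕ) : ℤ) := by
          push_cast
          ring
  have h9 : ramDeg κ (IntermediateField.adjoin L (T₀ : Set Ω)) L ≤
      2 * B * (Fintype.card ι * H) * t := by exact_mod_cast h8
  have h10 := ramDeg_tower_le (κ := κ) (K := K) (L := L)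
    (E := IntermediateField.adjoin L (T₀ : Set Ω)) hK
  calc ramDeg κ (IntermediateField.adjoin L (T₀ : Set Ω)) K
      ≤ finrank L (IntermediateField.adjoin L (T₀ : Set Ω)) * ramDeg κ L K +
        ramDeg κ (IntermediateField.adjoin L (T₀ : Set Ω)) L := h10
    _ ≤ B * t + 2 * B * (Fintype.card ι * H) * t :=
        add_le_add (Nat.mul_le_mul hrank' hram) h9
    _ = (B + 2 * B * (Fintype.card ι * H)) * t := by ring

variable {κ K Ω : Type*} [Field κ] [IsAlgClosed κ] [CharZero κ] [Field K] [Algebra κ K]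
  [Field Ω] [Algebra K Ω] [Algebra κ Ω] [IsScalarTower κ K Ω] (W : Tow κ K Ω)

/-- **A finite set of elements of `F0`.** -/
theorem exists_fld [IsAlgClosed Ω] [Algebra.IsAlgebraic K Ω] (S : Finset (UP Ω))
    (hS : ∀ s ∈ S, s ∈ W.F0) :
    ∃ (c : ℕ) (E : ∀ N, IntermediateField (W.L N) Ω) (r : UP Ω → ∀ N, E N),
      (∀ N, FiniteDimensional (W.L N) (E N)) ∧ (∀ N, finrank (W.L N) (E N) ≤ c) ∧
      (∀ N, ramDeg κ (E N) K ≤ c * W.T N) ∧ (∀ s ∈ S, germHom (fun N => (r s N : Ω)) = s) ∧
      ∀ s ∈ S, ∀ N, height κ ![1, r s N] ≤ c * (W.T N : ℤ) := by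
  classical
  choose z p d hz hp using fun s : {x // x ∈ S} => W.exists_roots (hS s.1 s.2)
  set D : ℕ := ∑ s : {x // x ∈ S}, d s with hD
  have hdD : ∀ s, d s ≤ D := fun s =>
    Finset.single_le_sum (f := d) (fun _ _ => Nat.zero_le _) (Finset.mem_univ s)
  have key : ∀ N, ∃ (E : IntermediateField (W.L N) Ω) (r : {x // x ∈ S} → E),
      FiniteDimensional (W.L N) E ∧
      finrank (W.L N) E ≤ (D + 1) ^ Fintype.card {x // x ∈ S} ∧ (∀ i, (r i : Ω) = z i N) ∧
      (∀ i, height κ ![1, r i] ≤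
        (2 * (D + 1) ^ Fintype.card {x // x ∈ S} * (D + 1) * D : ℕ) * (W.T N : ℤ)) ∧
      ramDeg κ E K ≤ ((D + 1) ^ Fintype.card {x // x ∈ S} +
        2 * (D + 1) ^ Fintype.card {x // x ∈ S} * (Fintype.card {x // x ∈ S} *
        (2 * (D + 1) ^ Fintype.card {x // x ∈ S} * (D + 1) * D))) * W.T N := by
    intro N
    have := W.fin N
    refine field_aux W.ff (W.L N) (fun s => z s N) (fun s => p s N) D (W.T N)
      (fun s => (hp s N).1) (fun s => (hp s N).2.1.trans (hdD s)) (fun s => (hp s N).2.2.1)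
      (fun s j => ((hp s N).2.2.2 j).trans ?_) (W.ram N)
    refine mul_le_mul_of_nonneg_right ?_ (by positivity)
    exact_mod_cast hdD s
  choose E r hE1 hE2 hE3 hE4 hE5 using key
  set B : ℕ := (D + 1) ^ Fintype.card {x // x ∈ S} with hB
  set n : ℕ := Fintype.card {x // x ∈ S} with hn
  set H : ℕ := 2 * B * (D + 1) * D with hH
  refine ⟨B + H + 2 * B * (n * H), E, fun s N => if h : s ∈ S then r N ⟨s, h⟩ else 0, hE1,
    fun N => (hE2 N).trans ?_, fun N => (hE5 N).trans (Nat.mul_le_mul_right _ ?_), ?_, ?_⟩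
  · rw [add_assoc]
    exact Nat.le_add_right _ _
  · rw [add_assoc B H]
    exact Nat.add_le_add_left (Nat.le_add_left _ _) _
  · intro s hs
    refine Eq.trans (congrArg germHom (funext fun N => ?_)) (hz ⟨s, hs⟩)
    beta_reduce
    rw [dif_pos hs, hE3]
  · intro s hs N
    beta_reduce
    rw [dif_pos hs]
    refine (hE4 N ⟨s, hs⟩).trans (mul_le_mul_of_nonneg_right ?_ (by positivity))
    have h5 : H ≤ B + H + 2 * B * (n * H) := by
      rw [add_assoc, add_comm B, add_assoc]
      exact Nat.le_add_right _ _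
    exact_mod_cast h5

end Tow

end Pool.Agent.Lib.MP_44a246_ntSH
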