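import Mathlib
import Pool.Agent.Lib.MP_44a246_ntPC.G1
import Pool.Agent.Lib.MP_44a246_ntY.Y37a

/-!
# Stage II of paper 667: specialisation of coefficients to an algebraically closed subfield
-/

namespace Pool.Agent.Lib.MP_44a246_ntSH

open Pool.Agent.Lib.MP_e52354_nt
open Pool.Agent.Lib.MP_44a246_ntS
open Pool.Agent.Lib.MP_44a246_ntY
open Module Polynomial

variable {k₀ k : Type*} [Field k₀] [IsAlgClosed k₀] [Field k] [Algebra k₀ k]

/-- **Specialisation** of finitely many polynomials, such that finitely many nonzero elements do not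
vanish (Nullstellensatz). -/
theorem exists_spec (F : Finset k[X][X]) (T : Finset k) (hT : ∀ t ∈ T, t ≠ 0) :
    ∃ (R : Subalgebra k₀ k) (φ : R →ₐ[k₀] k₀),
      (∀ P ∈ F, ∃ P' : R[X][X], m2 (algebraMap R k) P' = P) ∧
      ∀ t ∈ T, ∃ u : R, (u : k) = t ∧ φ u ≠ 0 := by
  classical
  obtain ⟨S, hS⟩ : ∃ S : Finset k, S = (F.biUnion fun P => P.support.biUnion fun i =>
      (P.coeff i).support.image fun j => (P.coeff i).coeff j) ∪ (T ∪ T.image fun t => t⁻¹) :=
    ⟨_, rfl⟩
  obtain ⟨R, hR⟩ : ∃ R : Subalgebra k₀ k, R = Algebra.adjoin k₀ (S : Set k) := ⟨_, rfl⟩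
  have hSR : ∀ c ∈ S, c ∈ R := by
    intro c hc
    rw [hR]
    exact Algebra.subset_adjoin hc
  have hfg : R.FG := ⟨S, hR.symm⟩
  have hft : Algebra.FiniteType k₀ R := (Subalgebra.fg_iff_finiteType R).1 hfg
  obtain ⟨I, hI⟩ := Ideal.exists_maximal R
  let := Ideal.Quotient.field I
  have hfin : Module.Finite k₀ (R ⧸ I) := finite_of_finite_type_of_isJacobsonRing k₀ (R ⧸ I)
  have hbij : Function.Bijective (algebraMap k₀ (R ⧸ I)) :=
    IsAlgClosed.algebraMap_bijective_of_isIntegral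
  let e : k₀ ≃ₐ[k₀] R ⧸ I := AlgEquiv.ofBijective (Algebra.ofId k₀ (R ⧸ I)) hbij
  let φ : R →ₐ[k₀] k₀ := (e.symm : R ⧸ I →ₐ[k₀] k₀).comp (Ideal.Quotient.mkₐ k₀ I)
  refine ⟨R, φ, ?_, ?_⟩
  · intro P hP
    have hcoef : ∀ i j, (P.coeff i).coeff j ∈ R := by
      intro i j
      by_cases h1 : i ∈ P.support
      · by_cases h2 : j ∈ (P.coeff i).support
        · refine hSR _ ?_
          rw [hS]
          refine Finset.mem_union_left _ ?_
          refine Finset.mem_biUnion.2 ⟨P, hP, Finset.mem_biUnion.2 ⟨i, h1, ?_⟩⟩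
          exact Finset.mem_image.2 ⟨j, h2, rfl⟩
        · rw [notMem_support_iff.1 h2]
          exact R.zero_mem
      · rw [notMem_support_iff.1 h1, coeff_zero]
        exact R.zero_mem
    have h1 : P ∈ lifts (mapRingHom (algebraMap R k)) := by
      rw [lifts_iff_coeff_lifts]
      intro i
      have h2 : P.coeff i ∈ lifts (algebraMap R k) := by
        rw [lifts_iff_coeff_lifts]
        intro j
        exact ⟨⟨_, hcoef i j⟩, rfl⟩
      obtain ⟨q, hq⟩ := (mem_lifts _).1 h2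
      exact ⟨q, hq⟩
    obtain ⟨P', hP'⟩ := (mem_lifts _).1 h1
    exact ⟨P', hP'⟩
  · intro t ht
    have h1 : t ∈ R := hSR _ (by
      rw [hS]
      exact Finset.mem_union_right _ (Finset.mem_union_left _ ht))
    have h2 : t⁻¹ ∈ R := hSR _ (by
      rw [hS]
      exact Finset.mem_union_right _ (Finset.mem_union_right _
        (Finset.mem_image.2 ⟨t, ht, rfl⟩)))
    refine ⟨⟨t, h1⟩, rfl, fun h0 => ?_⟩
    have h3 : (⟨t, h1⟩ : R) * ⟨t⁻¹, h2⟩ = 1 := Subtype.ext (mul_inv_cancel₀ (hT t ht))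
    have h4 := congrArg φ h3
    rw [map_mul, h0, zero_mul, map_one] at h4
    exact zero_ne_one h4

end Pool.Agent.Lib.MP_44a246_ntSH
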