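import Mathlib
import Pool.Agent.Lib.MP_44a246_ntSH.PJ04a

/-!
# Stage II of paper 667: absolute irreducibility
-/

namespace Pool.Agent.Lib.MP_44a246_ntSH

open Pool.Agent.Lib.MP_e52354_nt
open Pool.Agent.Lib.MP_44a246_ntS
open Pool.Agent.Lib.MP_44a246_ntY
open Module Polynomial

variable {k₀ k : Type*} [Field k₀] [IsAlgClosed k₀] [Field k] [Algebra k₀ k]

private theorem pj04b_coeff_of_isUnit {L : Type*} [Field L] {P : L[X][X]} (hP : IsUnit P)
    {i j : ℕ} (hij : ¬ (i = 0 ∧ j = 0)) : (P.coeff i).coeff j = 0 := by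
  obtain ⟨u, hu, hu2⟩ := Polynomial.isUnit_iff.mp hP
  obtain ⟨t, _, ht2⟩ := Polynomial.isUnit_iff.mp hu
  rw [← hu2, ← ht2, coeff_C]
  split_ifs with h1
  · rw [coeff_C_of_ne_zero]
    exact fun h2 => hij ⟨h1, h2⟩
  · exact coeff_zero j

private theorem pj04b_exists_coeff {L : Type*} [Field L] {P : L[X][X]} (h0 : P ≠ 0)
    (hP : ¬ IsUnit P) : ∃ i j, ¬ (i = 0 ∧ j = 0) ∧ (P.coeff i).coeff j ≠ 0 := by
  by_contra hcon
  have h1 : ∀ i j, ¬ (i = 0 ∧ j = 0) → (P.coeff i).coeff j = 0 := by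
    intro i j hij
    by_contra h2
    exact hcon ⟨i, j, hij, h2⟩
  have h2 : P = C (C ((P.coeff 0).coeff 0)) := by
    ext i j
    rw [coeff_C]
    split_ifs with hi
    · rw [coeff_C]
      split_ifs with hj
      · rw [hi, hj]
      · exact h1 i j fun h => hj h.2
    · rw [coeff_zero]
      exact h1 i j fun h => hi h.1
  have h3 : (P.coeff 0).coeff 0 ≠ 0 := by
    intro h4
    apply h0
    rw [h2, h4, C_0, C_0]
  apply hP
  rw [h2]
  exact (isUnit_iff_ne_zero.mpr h3).map (C.comp C : L →+* L[X][X])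

/-- irreducible polynomials over an algebraically closed field are absolutely irreducible -/
theorem irreducible_ex {A : k₀[X][X]} (hA : Irreducible A) : Irreducible (ex k A) := by
  classical
  have hex1 : ex k (1 : k₀[X][X]) = 1 := Polynomial.map_one _
  have hu : ¬ IsUnit (ex k A) := by
    intro h
    have h1 : ex k A ∣ ex k (1 : k₀[X][X]) := by
      rw [hex1]
      exact isUnit_iff_dvd_one.1 h
    exact hA.not_isUnit (isUnit_iff_dvd_one.2 (dvd_of_ex h1))
  have hne : ex k A ≠ 0 := by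
    intro h
    have h1 : ex k (0 : k₀[X][X]) ∣ ex k A := by
      rw [h]
      exact dvd_zero _
    exact hA.ne_zero (zero_dvd_iff.1 (dvd_of_ex h1))
  refine ⟨hu, fun G H hGH => ?_⟩
  by_contra hcon
  have hG : ¬ IsUnit G := fun h => hcon (Or.inl h)
  have hH : ¬ IsUnit H := fun h => hcon (Or.inr h)
  have hG0 : G ≠ 0 := by
    intro h
    apply hne
    rw [hGH, h, zero_mul]
  have hH0 : H ≠ 0 := by
    intro h
    apply hne
    rw [hGH, h, mul_zero]
  obtain ⟨i, j, hij, hg⟩ := pj04b_exists_coeff hG0 hG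
  obtain ⟨i', j', hij', hh⟩ := pj04b_exists_coeff hH0 hH
  obtain ⟨R, φ, hF, hT⟩ := exists_spec (k₀ := k₀) {G, H}
    {(G.coeff i).coeff j, (H.coeff i').coeff j'} (by
      intro t ht
      rcases Finset.mem_insert.1 ht with h | h
      · rw [h]
        exact hg
      · rw [Finset.mem_singleton.1 h]
        exact hh)
  obtain ⟨G', hG'⟩ := hF G (Finset.mem_insert_self _ _)
  obtain ⟨H', hH'⟩ := hF H (Finset.mem_insert_of_mem (Finset.mem_singleton_self _))
  have hinj : Function.Injective (algebraMap R k) := Subtype.val_injective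
  have hinj2 : Function.Injective (m2 (algebraMap R k)) := by
    intro P Q hPQ
    refine Polynomial.ext fun a => Polynomial.ext fun b => ?_
    apply hinj
    rw [← m2_coeff, ← m2_coeff, hPQ]
  have h1 : G' * H' = m2 (algebraMap k₀ R) A := by
    apply hinj2
    rw [map_mul, hG', hH', ← hGH]
    ext a b
    rw [m2_coeff, m2_coeff, ← IsScalarTower.algebraMap_apply k₀ R k]
    have h2 : ex k A = m2 (algebraMap k₀ k) A := rfl
    rw [h2, m2_coeff]
  have h2 : A = m2 (φ : R →+* k₀) G' * m2 (φ : R →+* k₀) H' := by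
    rw [← map_mul, h1]
    ext a b
    rw [m2_coeff, m2_coeff]
    exact (φ.commutes _).symm
  have key : ∀ (P : k[X][X]) (P' : R[X][X]) (a b : ℕ), ¬ (a = 0 ∧ b = 0) →
      m2 (algebraMap R k) P' = P →
      (∃ u : R, (u : k) = (P.coeff a).coeff b ∧ φ u ≠ 0) → ¬ IsUnit (m2 (φ : R →+* k₀) P') := by
    intro P P' a b hab hP hu2 hunit
    obtain ⟨u, hu3, hu4⟩ := hu2
    have h3 := pj04b_coeff_of_isUnit hunit hab
    rw [m2_coeff] at h3
    have h4 : (P'.coeff a).coeff b = u := by
      apply hinj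
      rw [← m2_coeff, hP]
      exact hu3.symm
    rw [h4] at h3
    exact hu4 h3
  rcases hA.isUnit_or_isUnit h2 with h3 | h3
  · exact key G G' i j hij hG' (hT _ (Finset.mem_insert_self _ _)) h3
  · exact key H H' i' j' hij' hH'
      (hT _ (Finset.mem_insert_of_mem (Finset.mem_singleton_self _))) h3

end Pool.Agent.Lib.MP_44a246_ntSH
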