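import Mathlib
import Pool.Agent.Lib.MP_44a246_ntSH.PJ04a
import Pool.Agent.Lib.MP_44a246_ntSH.PJ04b

/-!
# Stage II of paper 667: factors of polynomials over an algebraically closed subfield
-/

namespace Pool.Agent.Lib.MP_44a246_ntSH

open Pool.Agent.Lib.MP_e52354_nt
open Pool.Agent.Lib.MP_44a246_ntS
open Pool.Agent.Lib.MP_44a246_ntY
open Module Polynomial

variable {k₀ k : Type*} [Field k₀] [IsAlgClosed k₀] [Field k] [Algebra k₀ k]

/-- a normalised irreducible factor of a polynomial over `k₀` is defined over `k₀` -/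
theorem exists_descent_factor {A : k[X][X]} {P : k₀[X][X]} (hP : P ≠ 0) (hA : Irreducible A)
    (hdvd : A ∣ ex k P) {i j : ℕ} (h1 : (A.coeff i).coeff j = 1) :
    ∃ A₀ : k₀[X][X], ex k A₀ = A ∧ Irreducible A₀ ∧ A₀ ∣ P := by
  have hmul : ∀ B D : k₀[X][X], ex k (B * D) = ex k B * ex k D := fun B D =>
    Polynomial.map_mul _
  have hp : Prime A := hA.prime
  obtain ⟨F, hF, hAF⟩ : ∃ F : k₀[X][X], Irreducible F ∧ A ∣ ex k F := by
    clear h1
    induction P using UniqueFactorizationMonoid.induction_on_prime with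
    | h₁ => exact absurd rfl hP
    | h₂ u hu =>
      refine absurd (isUnit_of_dvd_unit hdvd ?_) hA.not_isUnit
      exact hu.map (mapRingHom (mapRingHom (algebraMap k₀ k)))
    | h₃ a q ha hq ih =>
      rw [hmul] at hdvd
      rcases hp.dvd_or_dvd hdvd with h | h
      · exact ⟨q, hq.irreducible, h⟩
      · exact ih ha h
  have hirr : Irreducible (ex k F) := irreducible_ex hF
  obtain ⟨u, hu⟩ := hA.associated_of_dvd hirr hAF
  obtain ⟨v, hv, hvu⟩ := Polynomial.isUnit_iff.1 u.isUnit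
  obtain ⟨c, hc, hcv⟩ := Polynomial.isUnit_iff.1 hv
  rw [← hvu, ← hcv] at hu
  have hco : ∀ i j, (A.coeff i).coeff j * c = algebraMap k₀ k ((F.coeff i).coeff j) := by
    intro i j
    have h := congrArg (fun B : k[X][X] => (B.coeff i).coeff j) hu
    simp only [coeff_mul_C] at h
    rw [h]
    unfold ex
    rw [coeff_map, coe_mapRingHom, coeff_map]
  have hc0 : c ≠ 0 := hc.ne_zero
  have hc1 : c = algebraMap k₀ k ((F.coeff i).coeff j) := by
    rw [← hco i j, h1, one_mul]
  obtain ⟨A₀, hA₀⟩ := exists_descent (L := k₀) (M := k) (A₁ := A) (by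
    intro i' j'
    refine ⟨(F.coeff i').coeff j' * ((F.coeff i).coeff j)⁻¹, ?_⟩
    rw [map_mul, map_inv₀, ← hc1, ← hco i' j', mul_assoc, mul_inv_cancel₀ hc0, mul_one])
  refine ⟨A₀, hA₀, irreducible_of_ex (M := k) (by rw [hA₀]; exact hA), dvd_of_ex (M := k) ?_⟩
  rw [hA₀]
  exact hdvd

end Pool.Agent.Lib.MP_44a246_ntSH
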