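import Mathlib
import Pool.Agent.Lib.MP_44a246_ntSH.PJ01
import Pool.Agent.Lib.MP_44a246_ntPC.G1

/-!
# Stage II of paper 667: polynomials with given coefficients, size functions
-/

namespace Pool.Agent.Lib.MP_44a246_ntSH

open Pool.Agent.Lib.MP_e52354_nt
open Pool.Agent.Lib.MP_44a246_nt
open Pool.Agent.Lib.MP_44a246_ntL
open Pool.Agent.Lib.MP_44a246_ntS
open Pool.Agent.Lib.MP_44a246_ntY
open Pool.Agent.Lib.MP_44a246_ntPC
open WithZero Module Polynomial

private theorem pj14a_lift {R S : Type*} [Semiring R] [Semiring S] (g : R → S) (hg : g 0 = 0)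
    (p : R[X]) : ∃ q : S[X], ∀ i, q.coeff i = g (p.coeff i) := by
  refine ⟨∑ i ∈ p.support, monomial i (g (p.coeff i)), fun i => ?_⟩
  rw [finsetSum_coeff]
  simp only [coeff_monomial]
  rw [Finset.sum_ite_eq']
  split_ifs with h
  · rfl
  · rw [notMem_support_iff.1 h, hg]

/-- the polynomial with the images of the coefficients under a function which maps `0` to `0` -/
theorem exists_coeff_map {R S : Type*} [Semiring R] [Semiring S] (g : R → S) (hg : g 0 = 0)
    (P : R[X][X]) : ∃ Q : S[X][X], ∀ i j, (Q.coeff i).coeff j = g ((P.coeff i).coeff j) := by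
  -- twice `∑ i ∈ p.support, monomial i (g (p.coeff i))` (see `y37a_lift` in MP_44a246_ntY/Y37a)
  choose G hG using fun p : R[X] => pj14a_lift g hg p
  have hG0 : G 0 = 0 := by
    ext i
    rw [hG, coeff_zero, coeff_zero, hg]
  obtain ⟨Q, hQ⟩ := pj14a_lift G hG0 P
  exact ⟨Q, fun i j => by rw [hQ, hG]⟩

private theorem pj14a_abs {z : ℤᵐ⁰} (hz : z ≠ 0) :
    ((log z).natAbs : ℤ) = 2 * log (max 1 z) - log z := by
  rcases le_total z 1 with h | h
  · have h1 : log z ≤ 0 := by
      rw [← log_one, log_le_log hz one_ne_zero]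
      exact h
    rw [max_eq_left h, log_one]
    omega
  · have h1 : 0 ≤ log z := by
      rw [← log_one, log_le_log one_ne_zero hz]
      exact h
    rw [max_eq_right h]
    omega

private theorem pj14a_le {z : ℤᵐ⁰} {n : ℤ} (hn : (((log z).natAbs : ℕ) : ℤ) ≤ n) :
    z ≤ exp n := by
  by_cases hz : z = 0
  · rw [hz]
    exact zero_le
  · rw [← exp_log hz, exp_le_exp]
    omega

private theorem pj14a_ge {z : ℤᵐ⁰} (hz : z ≠ 0) {n : ℤ}
    (hn : (((log z).natAbs : ℕ) : ℤ) ≤ n) : exp (-n) ≤ z := by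
  rw [← exp_log hz, exp_le_exp]
  omega

/-- a size function for finitely many elements -/
theorem exists_size {κ E : Type*} [Field κ] [IsAlgClosed κ] [CharZero κ] [Field E] [Algebra κ E]
    (h : IsFF κ E) {σ : Type*} (S : Finset σ) (r : σ → E) :
    ∃ τ : Place κ E → ℕ, (Function.support τ).Finite ∧
      (∀ s ∈ S, ∀ w : Place κ E, w.1 (r s) ≤ exp (τ w : ℤ)) ∧
      (∀ s ∈ S, r s ≠ 0 → ∀ w : Place κ E, exp (-(τ w : ℤ)) ≤ w.1 (r s)) ∧
      ∑ᶠ w, (τ w : ℤ) ≤ 2 * ∑ s ∈ S, height κ ![1, r s] := by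
  -- `τ w = ∑ s ∈ S, (log (w (r s))).natAbs` (`log 0 = 0`). For `z ≠ 0`:
  -- `∑ |log (w z)| = 2 ∑ log (max 1 (w z)) - ∑ log (w z)`, product formula, `height_one`
  have hsup : ∀ s : σ,
      (Function.support fun w : Place κ E => (((log (w.1 (r s))).natAbs : ℕ) : ℤ)).Finite := by
    intro s
    by_cases hs : r s = 0
    · have h1 : (Function.support fun w : Place κ E =>
          (((log (w.1 (r s))).natAbs : ℕ) : ℤ)) = ∅ := by
        rw [Function.support_eq_empty_iff]
        funext w
        rw [hs, map_zero, log_zero]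
        rfl
      rw [h1]
      exact Set.finite_empty
    · refine (h.place_support hs).subset fun w hw => ?_
      rw [Function.mem_support] at hw ⊢
      intro hc
      apply hw
      rw [hc]
      rfl
  have hle : ∀ s ∈ S, ∀ w : Place κ E, (((log (w.1 (r s))).natAbs : ℕ) : ℤ) ≤
      ((∑ s ∈ S, (log (w.1 (r s))).natAbs : ℕ) : ℤ) := by
    intro s hs w
    exact_mod_cast Finset.single_le_sum (f := fun s => (log (w.1 (r s))).natAbs)
      (fun _ _ => Nat.zero_le _) hs
  refine ⟨fun w => ∑ s ∈ S, (log (w.1 (r s))).natAbs, ?_, fun s hs w => pj14a_le (hle s hs w),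
    fun s hs h0 w => pj14a_ge ((Valuation.ne_zero_iff _).2 h0) (hle s hs w), ?_⟩
  · refine (S.finite_toSet.biUnion fun s _ => hsup s).subset fun w hw => ?_
    rw [Function.mem_support] at hw
    obtain ⟨s, hs, h1⟩ := Finset.exists_ne_zero_of_sum_ne_zero hw
    refine Set.mem_biUnion (Finset.mem_coe.2 hs) ?_
    rw [Function.mem_support]
    exact_mod_cast h1
  · have h1 : ∀ w : Place κ E, ((∑ s ∈ S, (log (w.1 (r s))).natAbs : ℕ) : ℤ) =
        ∑ s ∈ S, (((log (w.1 (r s))).natAbs : ℕ) : ℤ) := fun w => Nat.cast_sum _ _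
    rw [finsum_congr h1, finsum_sum_comm _ _ fun s _ => hsup s, Finset.mul_sum]
    refine Finset.sum_le_sum fun s _ => ?_
    by_cases hs : r s = 0
    · have h2 : (∑ᶠ w : Place κ E, (((log (w.1 (r s))).natAbs : ℕ) : ℤ)) = 0 := by
        refine (finsum_congr fun w => ?_).trans finsum_zero
        rw [hs, map_zero, log_zero]
        rfl
      rw [h2]
      have h3 := height_one_nonneg h (r s)
      linarith
    · have h2 : (∑ᶠ w : Place κ E, (((log (w.1 (r s))).natAbs : ℕ) : ℤ)) =
          2 * height κ ![1, r s] := by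
        have h3 : ∀ w : Place κ E, (((log (w.1 (r s))).natAbs : ℕ) : ℤ) + log (w.1 (r s)) =
            2 * log (max 1 (w.1 (r s))) := fun w => by
          rw [pj14a_abs ((Valuation.ne_zero_iff _).2 hs)]
          ring
        have h4 := finsum_add_distrib (hsup s) (h.place_support hs)
        rw [h.product_formula hs, add_zero, finsum_congr h3] at h4
        rw [← h4, height_one, mul_finsum]
      rw [h2]

end Pool.Agent.Lib.MP_44a246_ntSH
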