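import Mathlib
import Pool.Agent.Lib.MP_44a246_ntSH.PJ02
import Pool.Agent.Lib.MP_44a246_ntSH.PJ03
import Pool.Agent.Lib.MP_44a246_ntSH.PJ04
import Pool.Agent.Lib.MP_44a246_ntSH.PJ14a

/-!
# Stage II of paper 667: from the ultrapower to the members
-/

namespace Pool.Agent.Lib.MP_44a246_ntSH

open Pool.Agent.Lib.MP_e52354_nt
open Pool.Agent.Lib.MP_44a246_nt
open Pool.Agent.Lib.MP_44a246_ntL
open Pool.Agent.Lib.MP_44a246_ntS
open Pool.Agent.Lib.MP_44a246_ntY
open Pool.Agent.Lib.MP_44a246_ntPC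
open WithZero Module Polynomial

namespace Tow

variable {κ K Ω : Type*} [Field κ] [IsAlgClosed κ] [CharZero κ] [Field K] [Algebra κ K]
  [Field Ω] [Algebra K Ω] [Algebra κ Ω] [IsScalarTower κ K Ω] (W : Tow κ K Ω)

/-- the germs of the sequences of elements of the fields `E N` -/
noncomputable def gf (E : ∀ N, IntermediateField (W.L N) Ω) : Subfield (UP Ω) where
  carrier := {z | ∃ f : ∀ N, E N, germHom (fun N => (f N : Ω)) = z}
  zero_mem' := ⟨fun _ => 0, map_zero germHom⟩
  one_mem' := ⟨fun _ => 1, map_one germHom⟩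
  add_mem' := by
    rintro _ _ ⟨f, rfl⟩ ⟨g, rfl⟩
    exact ⟨fun N => f N + g N, by rw [← map_add]; rfl⟩
  mul_mem' := by
    rintro _ _ ⟨f, rfl⟩ ⟨g, rfl⟩
    exact ⟨fun N => f N * g N, by rw [← map_mul]; rfl⟩
  neg_mem' := by
    rintro _ ⟨f, rfl⟩
    exact ⟨fun N => - f N, by rw [← map_neg]; rfl⟩
  inv_mem' := by
    rintro _ ⟨f, rfl⟩
    refine ⟨fun N => (f N)⁻¹, ?_⟩
    by_cases h0 : germHom (fun N => (f N : Ω)) = 0
    · rw [h0, inv_zero, germHom_eq_zero_iff]
      rw [germHom_eq_zero_iff] at h0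
      filter_upwards [h0] with N hN
      have : f N = 0 := Subtype.ext hN
      rw [this, inv_zero]
      rfl
    · refine eq_inv_of_mul_eq_one_left ?_
      rw [← map_mul, ← map_one germHom, germHom_eq_iff]
      rw [germHom_eq_zero_iff] at h0
      filter_upwards [Ultrafilter.eventually_not.2 h0] with N hN
      have : f N ≠ 0 := fun h => hN (by rw [h]; rfl)
      show (((f N)⁻¹ : E N) : Ω) * (f N : Ω) = 1
      rw [← MulMemClass.coe_mul, inv_mul_cancel₀ this]
      rfl

theorem mem_gf {E : ∀ N, IntermediateField (W.L N) Ω} {z : UP Ω} :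
    z ∈ W.gf E ↔ ∃ f : ∀ N, E N, germHom (fun N => (f N : Ω)) = z := Iff.rfl

/-- an element of `F0 (y₁, y)` is a germ of elements of `E N` if finitely many elements of `F0`
are -/
theorem exists_gf {y₁ y : ∀ N, W.L N} {f : UP Ω}
    (hf : f ∈ IntermediateField.adjoin W.F0 {germHom fun N => (y₁ N : Ω), germHom fun N => (y N : Ω)}) :
    ∃ S : Finset (UP Ω), (∀ s ∈ S, s ∈ W.F0) ∧
      ∀ E : ∀ N, IntermediateField (W.L N) Ω, (∀ s ∈ S, s ∈ W.gf E) → f ∈ W.gf E := by
  classical
  induction hf using IntermediateField.adjoin_induction with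
  | mem x hx =>
    refine ⟨∅, by simp, fun E _ => ?_⟩
    rcases hx with rfl | hx
    · exact ⟨fun N => algebraMap (W.L N) (E N) (y₁ N), rfl⟩
    · rw [Set.mem_singleton_iff] at hx
      subst hx
      exact ⟨fun N => algebraMap (W.L N) (E N) (y N), rfl⟩
  | algebraMap x =>
    refine ⟨{(x : UP Ω)}, ?_, fun E hE => ?_⟩
    · intro s hs
      rw [Finset.mem_singleton] at hs
      rw [hs]
      exact x.2
    · exact hE _ (Finset.mem_singleton_self _)
  | add x y _ _ ihx ihy =>
    obtain ⟨S, hS, hS'⟩ := ihx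
    obtain ⟨T, hT, hT'⟩ := ihy
    refine ⟨S ∪ T, fun s hs => ?_, fun E hE => ?_⟩
    · rcases Finset.mem_union.1 hs with h | h
      · exact hS s h
      · exact hT s h
    · exact add_mem (hS' E fun s hs => hE s (Finset.mem_union_left _ hs))
        (hT' E fun s hs => hE s (Finset.mem_union_right _ hs))
  | inv x _ ihx =>
    obtain ⟨S, hS, hS'⟩ := ihx
    exact ⟨S, hS, fun E hE => inv_mem (hS' E hE)⟩
  | mul x y _ _ ihx ihy =>
    obtain ⟨S, hS, hS'⟩ := ihx
    obtain ⟨T, hT, hT'⟩ := ihy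
    refine ⟨S ∪ T, fun s hs => ?_, fun E hE => ?_⟩
    · rcases Finset.mem_union.1 hs with h | h
      · exact hS s h
      · exact hT s h
    · exact mul_mem (hS' E fun s hs => hE s (Finset.mem_union_left _ hs))
        (hT' E fun s hs => hE s (Finset.mem_union_right _ hs))

end Tow

end Pool.Agent.Lib.MP_44a246_ntSH
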