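import Mathlib
import Pool.Agent.Lib.MP_44a246_ntSH.PJ03

/-!
# Stage II of paper 667: points with coordinates in `F0` have small height
-/

namespace Pool.Agent.Lib.MP_44a246_ntSH

open Pool.Agent.Lib.MP_e52354_nt
open Pool.Agent.Lib.MP_44a246_nt
open Pool.Agent.Lib.MP_44a246_ntL
open Pool.Agent.Lib.MP_44a246_ntY
open WithZero Module Polynomial

universe u v w

/-- the height of a vector is at most the sum of the heights of its coordinates -/
private theorem height_le_sum_one {κ L : Type*} [Field κ] [IsAlgClosed κ] [CharZero κ] [Field L]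
    [Algebra κ L] (h : IsFF κ L) {n : ℕ} {x : Fin (n + 1) → L} (hx : x ≠ 0) :
    height κ x ≤ ∑ j, height κ ![1, x j] := by
  have h1 : ∑ j, height κ ![1, x j] =
      ∑ᶠ w : Place κ L, ∑ j, log (max 1 (w.1 (x j))) := by
    rw [finsum_sum_comm Finset.univ (fun (w : Place κ L) (j : Fin (n + 1)) =>
      log (max 1 (w.1 (x j)))) fun j _ => log_max_support h (x j)]
    exact Finset.sum_congr rfl fun j _ => height_one _
  have hs : (Function.support fun w : Place κ L => ∑ j, log (max 1 (w.1 (x j)))).Finite := by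
    refine (Set.finite_iUnion fun j => log_max_support h (x j)).subset fun w hw => ?_
    by_contra hcon
    rw [Set.mem_iUnion] at hcon
    push Not at hcon
    refine hw (Finset.sum_eq_zero fun j _ => ?_)
    exact Function.notMem_support.1 (hcon j)
  rw [h1]
  unfold height
  refine finsum_mono (h.vmax_support hx) hs fun w => ?_
  obtain ⟨i, -, hi⟩ := Finset.exists_max_image (Finset.univ : Finset (Fin (n + 1)))
    (fun i => w.1 (x i)) Finset.univ_nonempty
  have h2 : vmax w.1 x = w.1 (x i) :=
    le_antisymm (vmax_le _ fun j => hi j (Finset.mem_univ j)) (le_vmax _ _ _)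
  have hnn : ∀ j, 0 ≤ log (max 1 (w.1 (x j))) := by
    intro j
    have h3 : max 1 (w.1 (x j)) ≠ 0 := (lt_of_lt_of_le zero_lt_one (le_max_left _ _)).ne'
    rw [← log_one (M := ℤ), log_le_log one_ne_zero h3]
    exact le_max_left _ _
  have h4 : log (w.1 (x i)) ≤ log (max 1 (w.1 (x i))) := by
    have h3 : max 1 (w.1 (x i)) ≠ 0 := (lt_of_lt_of_le zero_lt_one (le_max_left _ _)).ne'
    by_cases h0 : w.1 (x i) = 0
    · rw [h0, log_zero, ← h0]
      exact hnn i
    · rw [log_le_log h0 h3]
      exact le_max_right _ _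
  rw [h2]
  exact h4.trans (Finset.single_le_sum (f := fun j => log (max 1 (w.1 (x j))))
    (fun j _ => hnn j) (Finset.mem_univ i))

namespace Tow

variable {κ : Type u} {K : Type v} {Ω : Type w} [Field κ] [IsAlgClosed κ] [CharZero κ] [Field K]
  [Algebra κ K] [Field Ω] [Algebra K Ω] [Algebra κ Ω] [IsScalarTower κ K Ω] (W : Tow κ K Ω)

/-- if the first coordinate of the point of the plane curve is in `F0`, the point has small
height -/
theorem height_le_of_mem_F0 [IsAlgClosed Ω] [Algebra.IsAlgebraic K Ω] {n : ℕ}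
    {x : ∀ N, Fin (n + 1) → W.L N} (hx : ∀ N, x N ≠ 0)
    (h : ∀ j, germHom (fun N => (x N j : Ω)) ∈ W.F0) :
    ∃ C : ℕ, ∀ᶠ N in (Filter.hyperfilter ℕ : Filter ℕ), height κ (x N) ≤ C * (W.T N : ℤ) := by
  -- `exists_fld` for the germs: for almost all `N`, `x N j = r .. N` in `E N`, so
  -- `height κ ![1, x N j] ≤ c * T N` (over `E N` the height is multiplied by the degree:
  -- `IsFF.height_ext`), and `height κ (x N) ≤ ∑ j, height κ ![1, x N j]`
  classical
  obtain ⟨c, E, r, hfin, -, -, hr, hht⟩ := W.exists_fld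
    (Finset.univ.image fun j => germHom (fun N => (x N j : Ω))) (by
      intro s hs
      obtain ⟨j, -, rfl⟩ := Finset.mem_image.1 hs
      exact h j)
  have hmem : ∀ j, germHom (fun N => (x N j : Ω)) ∈
      Finset.univ.image fun j => germHom (fun N => (x N j : Ω)) := fun j =>
    Finset.mem_image_of_mem _ (Finset.mem_univ j)
  refine ⟨(n + 1) * c, ?_⟩
  have hev : ∀ j, ∀ᶠ N in (Filter.hyperfilter ℕ : Filter ℕ),
      (r (germHom (fun N => (x N j : Ω))) N : Ω) = (x N j : Ω) := fun j =>
    (germHom_eq_iff _ _).1 (hr _ (hmem j))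
  filter_upwards [Filter.eventually_all.2 hev] with N hN
  have := W.fin N
  have := hfin N
  have hL : IsFF κ (W.L N) := W.ffL N
  refine (height_le_sum_one hL (hx N)).trans ?_
  have hj : ∀ j, height κ ![1, x N j] ≤ c * (W.T N : ℤ) := by
    intro j
    refine le_trans ?_ (hht _ (hmem j) N)
    have h1 : algebraMap (W.L N) (E N) (x N j) = r (germHom (fun N => (x N j : Ω))) N := by
      apply Subtype.ext
      rw [hN j]
      rfl
    have hE : IsFF κ (E N) := hL.of_finite
    have hne : (![1, x N j] : Fin 2 → W.L N) ≠ 0 := fun h0 => one_ne_zero (congrFun h0 0)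
    have h2 : (fun i => algebraMap (W.L N) (E N) ((![1, x N j] : Fin 2 → W.L N) i)) =
        ![1, r (germHom (fun N => (x N j : Ω))) N] := by
      funext i
      fin_cases i
      · exact map_one _
      · exact h1
    have h3 := hE.height_ext (K := W.L N) hne
    rw [h2] at h3
    rw [h3]
    have h4 : (1 : ℤ) ≤ finrank (W.L N) (E N) := by
      exact_mod_cast (finrank_pos : 0 < finrank (W.L N) (E N))
    exact le_mul_of_one_le_left (height_one_nonneg hL _) h4
  calc ∑ j, height κ ![1, x N j] ≤ ∑ _j : Fin (n + 1), c * (W.T N : ℤ) :=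
        Finset.sum_le_sum fun j _ => hj j
    _ = ((n + 1) * c : ℕ) * (W.T N : ℤ) := by
        rw [Finset.sum_const, Finset.card_univ, Fintype.card_fin, nsmul_eq_mul]
        push_cast
        ring

end Tow

end Pool.Agent.Lib.MP_44a246_ntSH
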