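import Mathlib
import Pool.Agent.Lib.MP_44a246_ntR.GR9
import Pool.Agent.Lib.MP_44a246_ntR.GR6
import Pool.Agent.Lib.MP_44a246_ntE.E10

/-!
# Stage II of paper 667: restriction of places
-/

namespace Pool.Agent.Lib.MP_44a246_ntSH

open Pool.Agent.Lib.MP_e52354_nt
open Pool.Agent.Lib.MP_44a246_nt
open Pool.Agent.Lib.MP_44a246_ntL
open Pool.Agent.Lib.MP_44a246_ntR
open WithZero Polynomial Module

section

variable {K L : Type*} [Field K] [Field L] [Algebra K L]

private theorem exists_min (w : Valuation L ℤᵐ⁰)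
    (hw : ∃ g : K, g ≠ 0 ∧ w (algebraMap K L g) ≠ 1) :
    ∃ e : ℕ, 1 ≤ e ∧ (∃ s : K, w (algebraMap K L s) = exp (-(e : ℤ))) ∧
      ∀ m : ℕ, 0 < m → (∃ s : K, w (algebraMap K L s) = exp (-(m : ℤ))) → e ≤ m := by
  classical
  have hex : ∃ m : ℕ, 0 < m ∧ ∃ s : K, w (algebraMap K L s) = exp (-(m : ℤ)) := by
    obtain ⟨g, hg, hg1⟩ := hw
    have hg' : w (algebraMap K L g) ≠ 0 :=
      (Valuation.ne_zero_iff w).mpr ((_root_.map_ne_zero _).mpr hg)
    have hl : log (w (algebraMap K L g)) ≠ 0 := by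
      intro h
      apply hg1
      rw [← exp_log hg', h, exp_zero]
    rcases lt_or_gt_of_ne hl with h | h
    · refine ⟨(-log (w (algebraMap K L g))).toNat, by omega, g, ?_⟩
      rw [Int.toNat_of_nonneg (by omega), neg_neg, exp_log hg']
    · refine ⟨(log (w (algebraMap K L g))).toNat, by omega, g⁻¹, ?_⟩
      rw [Int.toNat_of_nonneg (by omega), map_inv₀, map_inv₀, exp_neg, exp_log hg']
  exact ⟨Nat.find hex, (Nat.find_spec hex).1, (Nat.find_spec hex).2,
    fun m hm h => Nat.find_min' hex ⟨hm, h⟩⟩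

private theorem min_dvd (w : Valuation L ℤᵐ⁰) {e : ℕ} (he : 1 ≤ e)
    (hs : ∃ s : K, w (algebraMap K L s) = exp (-(e : ℤ)))
    (hmin : ∀ m : ℕ, 0 < m → (∃ s : K, w (algebraMap K L s) = exp (-(m : ℤ))) → e ≤ m)
    {x : K} (hx : x ≠ 0) : (e : ℤ) ∣ log (w (algebraMap K L x)) := by
  obtain ⟨s, hs⟩ := hs
  have hs0 : s ≠ 0 := by
    rintro rfl
    rw [map_zero, map_zero] at hs
    exact exp_ne_zero hs.symm
  have hx' : algebraMap K L x ≠ 0 := (_root_.map_ne_zero _).mpr hx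
  have hs' : algebraMap K L s ≠ 0 := (_root_.map_ne_zero _).mpr hs0
  have hwx : w (algebraMap K L x) ≠ 0 := (Valuation.ne_zero_iff w).mpr hx'
  by_contra hcon
  have hr := Int.emod_nonneg (log (w (algebraMap K L x))) (b := (e : ℤ)) (by omega)
  have hr2 := Int.emod_lt_of_pos (log (w (algebraMap K L x))) (b := (e : ℤ)) (by omega)
  have hr3 : log (w (algebraMap K L x)) % (e : ℤ) ≠ 0 := fun h => hcon (Int.dvd_of_emod_eq_zero h)
  have hdm := Int.mul_ediv_add_emod (log (w (algebraMap K L x))) (e : ℤ)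
  set q := log (w (algebraMap K L x)) / (e : ℤ)
  set r := log (w (algebraMap K L x)) % (e : ℤ)
  have h1 : e ≤ r.toNat := by
    refine hmin _ (by omega) ⟨(x * s ^ q)⁻¹, ?_⟩
    rw [map_inv₀, map_inv₀, map_mul, map_mul, map_zpow₀, map_zpow₀, hs, ← exp_log hwx, ← exp_zsmul,
      ← exp_add, ← exp_neg]
    congr 1
    rw [Int.toNat_of_nonneg hr, ← hdm, smul_eq_mul]
    ring
  omega

open Classical in
private noncomputable def restr (w : Valuation L ℤᵐ⁰) (e : ℕ) (he : 1 ≤ e)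
    (hd : ∀ x : K, x ≠ 0 → (e : ℤ) ∣ log (w (algebraMap K L x))) : Valuation K ℤᵐ⁰ where
  toFun x := if x = 0 then 0 else exp (log (w (algebraMap K L x)) / (e : ℤ))
  map_zero' := if_pos rfl
  map_one' := by
    rw [if_neg one_ne_zero, map_one, map_one, log_one, Int.zero_ediv, exp_zero]
  map_mul' x y := by
    by_cases hx : x = 0
    · rw [if_pos hx, zero_mul, if_pos (by rw [hx, zero_mul])]
    by_cases hy : y = 0
    · rw [if_pos hy, mul_zero, if_pos (by rw [hy, mul_zero])]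
    have hx' : w (algebraMap K L x) ≠ 0 :=
      (Valuation.ne_zero_iff w).mpr ((_root_.map_ne_zero _).mpr hx)
    have hy' : w (algebraMap K L y) ≠ 0 :=
      (Valuation.ne_zero_iff w).mpr ((_root_.map_ne_zero _).mpr hy)
    rw [if_neg hx, if_neg hy, if_neg (mul_ne_zero hx hy), map_mul, map_mul, log_mul hx' hy',
      Int.add_ediv_of_dvd_left (hd x hx), exp_add]
  map_add_le_max' x y := by
    by_cases hx : x = 0
    · rw [hx, zero_add, if_pos rfl]; exact le_max_right _ _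
    by_cases hy : y = 0
    · rw [hy, add_zero, if_pos rfl]; exact le_max_left _ _
    by_cases hxy : x + y = 0
    · rw [if_pos hxy]; exact zero_le
    have hx' : w (algebraMap K L x) ≠ 0 :=
      (Valuation.ne_zero_iff w).mpr ((_root_.map_ne_zero _).mpr hx)
    have hy' : w (algebraMap K L y) ≠ 0 :=
      (Valuation.ne_zero_iff w).mpr ((_root_.map_ne_zero _).mpr hy)
    have hxy' : w (algebraMap K L (x + y)) ≠ 0 :=
      (Valuation.ne_zero_iff w).mpr ((_root_.map_ne_zero _).mpr hxy)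
    have he : 0 < (e : ℤ) := by omega
    rw [if_neg hx, if_neg hy, if_neg hxy]
    have h1 := w.map_add (algebraMap K L x) (algebraMap K L y)
    rw [← map_add] at h1
    rcases le_max_iff.mp h1 with h2 | h2
    · refine le_max_of_le_left ?_
      rw [exp_le_exp]
      exact Int.ediv_le_ediv he ((log_le_log hxy' hx').mpr h2)
    · refine le_max_of_le_right ?_
      rw [exp_le_exp]
      exact Int.ediv_le_ediv he ((log_le_log hxy' hy').mpr h2)

private theorem restr_pow (w : Valuation L ℤᵐ⁰) (e : ℕ) (he : 1 ≤ e)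
    (hd : ∀ x : K, x ≠ 0 → (e : ℤ) ∣ log (w (algebraMap K L x))) (x : K) :
    w (algebraMap K L x) = restr w e he hd x ^ e := by
  classical
  by_cases hx : x = 0
  · rw [hx, map_zero, map_zero, map_zero, zero_pow (by omega)]
  have hx' : w (algebraMap K L x) ≠ 0 :=
    (Valuation.ne_zero_iff w).mpr ((_root_.map_ne_zero _).mpr hx)
  have h1 : restr w e he hd x = exp (log (w (algebraMap K L x)) / (e : ℤ)) := if_neg hx
  rw [h1, ← exp_nsmul]
  conv_lhs => rw [← exp_log hx']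
  congr 1
  rw [nsmul_eq_mul, Int.mul_ediv_cancel' (hd x hx)]

private theorem restr_surjective (w : Valuation L ℤᵐ⁰) (e : ℕ) (he : 1 ≤ e)
    (hd : ∀ x : K, x ≠ 0 → (e : ℤ) ∣ log (w (algebraMap K L x)))
    (hs : ∃ s : K, w (algebraMap K L s) = exp (-(e : ℤ))) :
    Function.Surjective (restr w e he hd) := by
  obtain ⟨s, hs⟩ := hs
  rw [restr_pow w e he hd] at hs
  have h1 : restr w e he hd s = exp (-1 : ℤ) := by
    have h2 : exp (-(e : ℤ)) = exp (-1 : ℤ) ^ e := by
      rw [← exp_nsmul]; congr 1; simp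
    rw [h2] at hs
    exact (pow_left_inj₀ zero_le zero_le (by omega)).mp hs
  intro g
  by_cases hg : g = 0
  · exact ⟨0, by rw [map_zero, hg]⟩
  · refine ⟨s ^ (- log g), ?_⟩
    rw [map_zpow₀, h1, ← exp_zsmul]
    conv_rhs => rw [← exp_log hg]
    congr 1
    simp

end

variable {k₀ k M₀ M : Type*} [Field k₀] [IsAlgClosed k₀] [CharZero k₀] [Field k]
  [IsAlgClosed k] [CharZero k] [Algebra k₀ k] [Field M₀] [Algebra k₀ M₀] [Field M] [Algebra k M]
  [Algebra M₀ M] [Algebra k₀ M] [IsScalarTower k₀ k M] [IsScalarTower k₀ M₀ M]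

/-- the restriction of a place which is not trivial on the subfield -/
theorem exists_restrict (w : Place k M)
    (hw : ∃ g : M₀, g ≠ 0 ∧ w.1 (algebraMap M₀ M g) ≠ 1) :
    ∃ (w₀ : Place k₀ M₀) (r : ℕ), 1 ≤ r ∧ ∀ g : M₀, w.1 (algebraMap M₀ M g) = w₀.1 g ^ r := by
  obtain ⟨e, he, hs, hmin⟩ := exists_min w.1 hw
  have hd : ∀ x : M₀, x ≠ 0 → (e : ℤ) ∣ log (w.1 (algebraMap M₀ M x)) :=
    fun x hx => min_dvd w.1 he hs hmin hx
  refine ⟨⟨restr w.1 e he hd, restr_surjective w.1 e he hd hs, ?_⟩, e, he,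
    fun g => restr_pow w.1 e he hd g⟩
  intro c hc
  have h1 := restr_pow w.1 e he hd (algebraMap k₀ M₀ c)
  have h2 : algebraMap M₀ M (algebraMap k₀ M₀ c) = algebraMap k M (algebraMap k₀ k c) := by
    rw [← IsScalarTower.algebraMap_apply k₀ M₀ M, ← IsScalarTower.algebraMap_apply k₀ k M]
  rw [h2, w.2.2 _ ((_root_.map_ne_zero _).mpr hc)] at h1
  exact (pow_eq_one_iff.mp h1.symm).resolve_right (by omega)

end Pool.Agent.Lib.MP_44a246_ntSH
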