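import Mathlib
import Pool.Agent.Lib.MP_44a246_ntR.GR9
import Pool.Agent.Lib.MP_44a246_ntR.GR6
import Pool.Agent.Lib.MP_44a246_ntR.GR5
import Pool.Agent.Lib.MP_44a246_ntE.E10

/-!
# Stage II of paper 667: degrees of functions under extension of the constants
-/

namespace Pool.Agent.Lib.MP_44a246_ntSH

open Pool.Agent.Lib.MP_e52354_nt
open Pool.Agent.Lib.MP_44a246_nt
open Pool.Agent.Lib.MP_44a246_ntL
open Pool.Agent.Lib.MP_44a246_ntR
open WithZero Polynomial Module

/-- the degree over the field generated by a transcendental function -/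
private theorem finrank_adjoin {κ M : Type*} [Field κ] [IsAlgClosed κ] [CharZero κ] [Field M]
    [Algebra κ M] (h : IsFF κ M) {f : M} (hf : Transcendental κ f) :
    (finrank (IntermediateField.adjoin κ {f}) M : ℤ) = height κ ![1, f] := by
  have hfd : FiniteDimensional (IntermediateField.adjoin κ {f}) M := finite_over_adjoin h hf
  let F₁ := IntermediateField.adjoin κ {f}
  let E := (RatFunc.algEquivOfTranscendental f hf).toRingEquiv
  have hE : ∀ g : Polynomial κ, ((E (algebraMap _ _ g) : F₁) : M) = Polynomial.aeval f g := by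
    intro g
    show ((RatFunc.algEquivOfTranscendental f hf (algebraMap _ _ g)) : M) = _
    rw [RatFunc.algEquivOfTranscendental_algebraMap]
    exact (Polynomial.aeval_algebraMap_apply M (IntermediateField.AdjoinSimple.gen _ f) g).symm
  let iK : Algebra (RatFunc κ) M := ((algebraMap F₁ M).comp (E : RatFunc κ →+* F₁)).toAlgebra
  have t3 : IsScalarTower κ (RatFunc κ) M := IsScalarTower.of_algebraMap_eq fun u => by
    have h5 := hE (Polynomial.C u)
    rw [Polynomial.aeval_C] at h5
    exact h5.symm
  have hfin : FiniteDimensional (RatFunc κ) M :=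
    Module.Finite.of_equiv_equiv (A₁ := F₁) (B₁ := M) E.symm (RingEquiv.refl M) (by
      ext x
      show algebraMap F₁ M (E (E.symm x)) = algebraMap F₁ M x
      rw [RingEquiv.apply_symm_apply])
  have h6 : tL κ M = f := by
    have h6 := hE Polynomial.X
    rw [Polynomial.aeval_X, RatFunc.algebraMap_X] at h6
    exact h6
  have h7 : finrank (RatFunc κ) M = finrank F₁ M :=
    Algebra.finrank_eq_of_equiv_equiv E (RingEquiv.refl M) (by
      ext x
      rfl)
  have h8 := finrank_eq_height κ M
  rw [h6, h7] at h8
  exact h8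

variable {k₀ k M₀ M : Type*} [Field k₀] [IsAlgClosed k₀] [CharZero k₀] [Field k]
  [IsAlgClosed k] [CharZero k] [Algebra k₀ k] [Field M₀] [Algebra k₀ M₀] [Field M] [Algebra k M]
  [Algebra M₀ M] [Algebra k₀ M] [IsScalarTower k₀ k M] [IsScalarTower k₀ M₀ M]

/-- the degree over the field generated by a function does not increase under extension of the
field of constants -/
theorem height_le_height (hM₀ : IsFF k₀ M₀) (hM : IsFF k M)
    (hgen : IntermediateField.adjoin k (Set.range (algebraMap M₀ M)) = ⊤) {h : M₀}
    (hh : Transcendental k (algebraMap M₀ M h)) :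
    height k ![1, algebraMap M₀ M h] ≤ height k₀ ![1, h] := by
  classical
  have hh₀ : Transcendental k₀ h := by
    rintro ⟨p, hp0, hp⟩
    refine hh ⟨p.map (algebraMap k₀ k), ?_, ?_⟩
    · exact (Polynomial.map_ne_zero_iff (algebraMap k₀ k).injective).2 hp0
    · rw [aeval_map_algebraMap, aeval_algebraMap_apply, hp, map_zero]
  rw [← finrank_adjoin hM hh, ← finrank_adjoin hM₀ hh₀]
  set F₀ := IntermediateField.adjoin k₀ {h} with hF₀
  set F₁ := IntermediateField.adjoin k {algebraMap M₀ M h} with hF₁
  have hfd₀ : FiniteDimensional F₀ M₀ := finite_over_adjoin hM₀ hh₀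
  have hfd₁ : FiniteDimensional F₁ M := finite_over_adjoin hM hh
  -- the image of `F₀` is in `F₁`
  have hF : ∀ z : F₀, algebraMap M₀ M z ∈ F₁ := by
    let φ : M₀ →ₐ[k₀] M := IsScalarTower.toAlgHom k₀ M₀ M
    have h1 : F₀ ≤ (F₁.restrictScalars k₀).comap φ := by
      rw [hF₀, IntermediateField.adjoin_le_iff]
      rintro z hz
      rw [Set.mem_singleton_iff] at hz
      subst hz
      exact IntermediateField.mem_adjoin_simple_self k _
    intro z
    exact h1 z.2
  let b := Module.finBasis F₀ M₀
  set S : Submodule F₁ M := Submodule.span F₁ (Set.range fun i => algebraMap M₀ M (b i)) with hS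
  have hmem : ∀ z : M₀, algebraMap M₀ M z ∈ S := by
    intro z
    rw [← b.sum_repr z, map_sum]
    refine Submodule.sum_mem _ fun i _ => ?_
    have h2 : algebraMap M₀ M (b.repr z i • b i) =
        (⟨algebraMap M₀ M (b.repr z i : M₀), hF _⟩ : F₁) • algebraMap M₀ M (b i) := by
      rw [Algebra.smul_def, map_mul]
      rfl
    rw [h2]
    exact Submodule.smul_mem _ _ (Submodule.subset_span ⟨i, rfl⟩)
  have hclosure : (Submonoid.closure (Set.range (algebraMap M₀ M)) : Set M) =
      Set.range (algebraMap M₀ M) := by
    have : Submonoid.closure (Set.range (algebraMap M₀ M)) =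
        MonoidHom.mrange (algebraMap M₀ M : M₀ →* M) := by
      apply le_antisymm
      · rw [Submonoid.closure_le]
        rintro z ⟨y, rfl⟩
        exact ⟨y, rfl⟩
      · rintro z ⟨y, rfl⟩
        exact Submonoid.subset_closure ⟨y, rfl⟩
    rw [this]
    rfl
  have halg : ∀ x ∈ Set.range (algebraMap M₀ M), IsAlgebraic F₁ x := fun x _ =>
    Algebra.IsAlgebraic.isAlgebraic x
  have htop : IntermediateField.adjoin F₁ (Set.range (algebraMap M₀ M)) = ⊤ := by
    rw [eq_top_iff]
    intro z _
    have h3 : (⊤ : IntermediateField k M) ≤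
        (IntermediateField.adjoin F₁ (Set.range (algebraMap M₀ M))).restrictScalars k := by
      rw [← hgen, IntermediateField.adjoin_le_iff]
      exact IntermediateField.subset_adjoin _ _
    exact h3 (IntermediateField.mem_top)
  have hStop : S = ⊤ := by
    rw [eq_top_iff]
    intro z _
    have h3 : z ∈ (IntermediateField.adjoin F₁ (Set.range (algebraMap M₀ M))).toSubalgebra := by
      rw [htop]
      exact IntermediateField.mem_top
    rw [IntermediateField.adjoin_toSubalgebra_of_isAlgebraic halg] at h3
    have h4 : z ∈ Subalgebra.toSubmodule (Algebra.adjoin F₁ (Set.range (algebraMap M₀ M))) := h3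
    rw [Algebra.adjoin_eq_span, hclosure] at h4
    refine (Submodule.span_le.2 ?_) h4
    rintro y ⟨y', rfl⟩
    exact hmem y'
  have hcard : finrank F₁ M ≤ finrank F₀ M₀ := by
    have h5 : (Set.range fun i => algebraMap M₀ M (b i)).finrank F₁ = finrank F₁ M := by
      unfold Set.finrank
      rw [← hS, hStop, finrank_top]
    rw [← h5]
    refine (finrank_range_le_card (R := F₁) fun i => algebraMap M₀ M (b i)).trans ?_
    rw [Fintype.card_fin]
  exact_mod_cast hcard

end Pool.Agent.Lib.MP_44a246_ntSH
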