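import Mathlib
import Pool.Agent.Lib.MP_44a246_ntR.GR6
import Pool.Agent.Lib.MP_44a246_ntR.GR9

/-!
# Stage II of paper 667: gaps
-/

namespace Pool.Agent.Lib.MP_44a246_ntSH

open Pool.Agent.Lib.MP_e52354_nt
open Pool.Agent.Lib.MP_44a246_nt
open Pool.Agent.Lib.MP_44a246_ntL
open Pool.Agent.Lib.MP_44a246_ntR
open WithZero Module

variable {κ M : Type*} [Field κ] [IsAlgClosed κ] [CharZero κ] [Field M] [Algebra κ M]

omit [IsAlgClosed κ] [CharZero κ] in
private theorem single_le {P : Place κ M} {a b : ℤ} (h : a ≤ b) :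
    (Finsupp.single P a : Place κ M →₀ ℤ) ≤ Finsupp.single P b := by
  intro v
  classical
  rw [Finsupp.single_apply, Finsupp.single_apply]
  split_ifs
  · exact h
  · exact le_refl _

private theorem l_zero (h : IsFF κ M) (P : Place κ M) :
    finrank κ (rr (Finsupp.single P (0 : ℤ))) = 1 := by
  have h1 : rr (Finsupp.single P (0 : ℤ)) = Submodule.span κ {(1 : M)} := by
    apply le_antisymm
    · intro f hf
      have hf' : ∀ v : Place κ M, v.1 f ≤ 1 := by
        intro v
        have := hf v
        rwa [Finsupp.single_zero, Finsupp.coe_zero, Pi.zero_apply, exp_zero] at this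
      obtain ⟨c, hc⟩ := const_of_rr_zero h hf'
      rw [Submodule.mem_span_singleton]
      exact ⟨c, by rw [Algebra.smul_def, mul_one, hc]⟩
    · rw [Submodule.span_singleton_le_iff_mem]
      intro v
      rw [Finsupp.single_zero, Finsupp.coe_zero, Pi.zero_apply, exp_zero, map_one]
  rw [h1]
  exact finrank_span_singleton one_ne_zero

private theorem l_mono (h : IsFF κ M) (P : Place κ M) {a b : ℤ} (hab : a ≤ b) :
    finrank κ (rr (Finsupp.single P a)) ≤ finrank κ (rr (Finsupp.single P b)) := by
  have := finite_rr h (Finsupp.single P b)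
  exact Submodule.finrank_mono (rr_mono (single_le hab))

private theorem l_step (h : IsFF κ M) (P : Place κ M) {a b : ℤ} (hab : a ≤ b) :
    (finrank κ (rr (Finsupp.single P b)) : ℤ) ≤ finrank κ (rr (Finsupp.single P a)) + (b - a) := by
  have := finrank_rr_le h (single_le (P := P) hab)
  rwa [divDeg_single, divDeg_single] at this

/-- a non-gap is the order of a pole of a function regular elsewhere -/
private theorem nongap (h : IsFF κ M) (P : Place κ M) {a : ℤ}
    (ha : finrank κ (rr (Finsupp.single P a)) ≠ finrank κ (rr (Finsupp.single P (a - 1)))) :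
    ∃ f ∈ rr (Finsupp.single P a), P.1 f = exp a := by
  classical
  have hlt : ¬ rr (Finsupp.single P a) ≤ rr (Finsupp.single P (a - 1)) := by
    intro hle
    exact ha (congrArg (fun V : Submodule κ M => finrank κ V)
      (le_antisymm hle (rr_mono (single_le (by omega)))))
  obtain ⟨f, hf, hf'⟩ := SetLike.not_le_iff_exists.mp hlt
  refine ⟨f, hf, ?_⟩
  have h1 : P.1 f ≤ exp a := by
    have := hf P
    rwa [Finsupp.single_eq_same] at this
  refine le_antisymm h1 ?_
  by_contra h2
  apply hf'
  intro v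
  rcases eq_or_ne v P with rfl | hv
  · rw [Finsupp.single_eq_same]
    rw [not_le] at h2
    rcases eq_or_ne (v.1 f) 0 with h0 | h0
    · rw [h0]
      exact zero_le
    · rw [← exp_log h0] at h2 ⊢
      rw [exp_lt_exp] at h2
      rw [exp_le_exp]
      omega
  · have h3 := hf v
    rwa [Finsupp.single_eq_of_ne hv] at h3 ⊢

private theorem nongap_add (h : IsFF κ M) (P : Place κ M) {a b : ℤ}
    (ha : finrank κ (rr (Finsupp.single P a)) ≠ finrank κ (rr (Finsupp.single P (a - 1))))
    (hb : finrank κ (rr (Finsupp.single P b)) ≠ finrank κ (rr (Finsupp.single P (b - 1)))) :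
    finrank κ (rr (Finsupp.single P (a + b))) ≠
      finrank κ (rr (Finsupp.single P (a + b - 1))) := by
  classical
  obtain ⟨f, hf, hfP⟩ := nongap h P ha
  obtain ⟨g, hg, hgP⟩ := nongap h P hb
  intro heq
  have := finite_rr h (Finsupp.single P (a + b))
  have h1 := Submodule.eq_of_le_of_finrank_eq
    (rr_mono (single_le (P := P) (show a + b - 1 ≤ a + b by omega))) heq.symm
  have h2 : f * g ∈ rr (Finsupp.single P (a + b)) := by
    intro v
    rw [map_mul]
    rcases eq_or_ne v P with rfl | hv
    · rw [hfP, hgP, Finsupp.single_eq_same, exp_add]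
    · have h3 := hf v
      have h4 := hg v
      rw [Finsupp.single_eq_of_ne hv] at h3 h4 ⊢
      calc v.1 f * v.1 g ≤ exp 0 * exp 0 := mul_le_mul' h3 h4
        _ = exp 0 := by rw [exp_zero, one_mul]
  rw [← h1] at h2
  have h5 := h2 P
  rw [map_mul, hfP, hgP, Finsupp.single_eq_same, ← exp_add, exp_le_exp] at h5
  omega

/-- the number of gaps -/
private theorem card_gaps (h : IsFF κ M) (P : Place κ M) (n : ℕ) :
    ((Finset.Icc 1 n).filter fun a : ℕ => finrank κ (rr (Finsupp.single P (a : ℤ))) =
      finrank κ (rr (Finsupp.single P ((a : ℤ) - 1)))).card +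
      finrank κ (rr (Finsupp.single P (n : ℤ))) = n + 1 := by
  induction n with
  | zero =>
    rw [Nat.cast_zero, l_zero h P]
    simp
  | succ n ih =>
    have h1 := l_mono h P (show (n : ℤ) ≤ ((n + 1 : ℕ) : ℤ) by push_cast; omega)
    have h2 := l_step h P (show (n : ℤ) ≤ ((n + 1 : ℕ) : ℤ) by push_cast; omega)
    have h3 : (((n + 1 : ℕ) : ℤ) - 1) = n := by push_cast; omega
    rw [← Finset.insert_Icc_right_eq_Icc_add_one (show 1 ≤ n + 1 by omega),
      Finset.filter_insert, h3]
    split_ifs with hc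
    · rw [Finset.card_insert_of_notMem (by simp)]
      omega
    · push_cast at h2 hc h1 ⊢
      omega

/-- **The largest gap**: for `j ≥ 2 genus - 1` the space `rr (j P)` has the expected dimension -/
theorem finrank_rr_single (h : IsFF κ M) (P : Place κ M) {j : ℕ} (hj : 2 * genus κ M ≤ j + 1) :
    (finrank κ (rr (Finsupp.single P (j : ℤ))) : ℤ) = j + 1 - genus κ M := by
  classical
  have hspec : ∀ n : ℕ, (n : ℤ) + 1 - genus κ M ≤ finrank κ (rr (Finsupp.single P (n : ℤ))) := by
    intro n
    have := genus_spec h (Finsupp.single P (n : ℤ))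
    rwa [divDeg_single] at this
  -- no gap beyond `2 g - 1`
  have hgap : ∀ f : ℕ, 2 * genus κ M ≤ f → 1 ≤ f →
      finrank κ (rr (Finsupp.single P (f : ℤ))) ≠
        finrank κ (rr (Finsupp.single P ((f : ℤ) - 1))) := by
    intro f hf hf1 heq
    set G := (Finset.Icc 1 (f - 1)).filter fun a : ℕ =>
      finrank κ (rr (Finsupp.single P (a : ℤ))) =
        finrank κ (rr (Finsupp.single P ((a : ℤ) - 1))) with hG
    have h1 := card_gaps h P (f - 1)
    rw [← hG] at h1
    have h2 : Finset.Icc 1 (f - 1) ⊆ G ∪ G.image fun a => f - a := by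
      intro a ha
      rw [Finset.mem_Icc] at ha
      rw [Finset.mem_union, Finset.mem_image]
      by_contra hcon
      rw [not_or, not_exists] at hcon
      obtain ⟨h3, h4⟩ := hcon
      have h5 : finrank κ (rr (Finsupp.single P (a : ℤ))) ≠
          finrank κ (rr (Finsupp.single P ((a : ℤ) - 1))) := by
        intro h6
        exact h3 (Finset.mem_filter.2 ⟨Finset.mem_Icc.2 ha, h6⟩)
      have h6 : finrank κ (rr (Finsupp.single P ((f - a : ℕ) : ℤ))) ≠
          finrank κ (rr (Finsupp.single P (((f - a : ℕ) : ℤ) - 1))) := by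
        intro h7
        exact h4 (f - a) ⟨Finset.mem_filter.2 ⟨Finset.mem_Icc.2 (by omega), h7⟩, by omega⟩
      have h7 := nongap_add h P h5 h6
      have h8 : (a : ℤ) + ((f - a : ℕ) : ℤ) = f := by
        rw [Nat.cast_sub (by omega)]
        ring
      rw [h8] at h7
      exact h7 heq
    have h3 := (Finset.card_le_card h2).trans (Finset.card_union_le _ _)
    have h4 : (G.image fun a => f - a).card ≤ G.card := Finset.card_image_le
    rw [Nat.card_Icc] at h3
    have h5 : ((f - 1 : ℕ) : ℤ) = (f : ℤ) - 1 := by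
      rw [Nat.cast_sub hf1]
      rfl
    rw [h5, ← heq] at h1
    have h6 := hspec f
    omega
  have hconst : ∀ m : ℕ, finrank κ (rr (Finsupp.single P ((j + m : ℕ) : ℤ))) =
      finrank κ (rr (Finsupp.single P (j : ℤ))) + m := by
    intro m
    induction m with
    | zero => rfl
    | succ m ih =>
      have h1 := hgap (j + (m + 1)) (by omega) (by omega)
      have h0 : (((j + (m + 1) : ℕ) : ℤ) - 1) = ((j + m : ℕ) : ℤ) := by push_cast; ring
      have h2 := l_mono h P (show ((j + m : ℕ) : ℤ) ≤ ((j + (m + 1) : ℕ) : ℤ) by push_cast; omega)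
      have h3 := l_step h P (show ((j + m : ℕ) : ℤ) ≤ ((j + (m + 1) : ℕ) : ℤ) by push_cast; omega)
      have h4 : ((j + (m + 1) : ℕ) : ℤ) - ((j + m : ℕ) : ℤ) = 1 := by push_cast; ring
      rw [h0] at h1
      rw [h4] at h3
      omega
  rcases Nat.eq_zero_or_pos (genus κ M) with hg | hg
  · have h1 := card_gaps h P j
    have h2 := hspec j
    rw [hg] at h2 ⊢
    push_cast at h2 ⊢
    omega
  · have hmin : ¬ ∀ D : Place κ M →₀ ℤ,
        divDeg D + 1 - ((genus κ M - 1 : ℕ) : ℤ) ≤ Module.finrank κ (rr D) := by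
      intro hcon
      have : genus κ M ≤ genus κ M - 1 := Nat.sInf_le (s := {g : ℕ | ∀ D : Place κ M →₀ ℤ,
        divDeg D + 1 - g ≤ Module.finrank κ (rr D)}) hcon
      omega
    push Not at hmin
    obtain ⟨D, hD⟩ := hmin
    obtain ⟨m, hm⟩ : ∃ m : ℕ, divDeg D - 1 + genus κ M < ((j + m : ℕ) : ℤ) := by
      refine ⟨(divDeg D + genus κ M).toNat, ?_⟩
      push_cast
      omega
    have h1 := genus_spec h (Finsupp.single P ((j + m : ℕ) : ℤ) - D)
    have h2 : divDeg (Finsupp.single P ((j + m : ℕ) : ℤ) - D) = ((j + m : ℕ) : ℤ) - divDeg D := by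
      have h3 := divDeg_add (Finsupp.single P ((j + m : ℕ) : ℤ) - D) D
      rw [sub_add_cancel, divDeg_single] at h3
      omega
    rw [h2] at h1
    have h3 : rr (Finsupp.single P ((j + m : ℕ) : ℤ) - D) ≠ ⊥ := by
      intro h4
      rw [h4, finrank_bot] at h1
      push_cast at h1 hm
      omega
    obtain ⟨z, hz, hz0⟩ := Submodule.exists_mem_ne_zero_of_ne_bot h3
    obtain ⟨D', hD', hdeg, hfin⟩ := rr_shift h D hz0
    have h4 : D' ≤ Finsupp.single P ((j + m : ℕ) : ℤ) := by
      intro v
      have h5 := hz v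
      have h6 : v.1 z ≠ 0 := (v.1.ne_zero_iff).mpr hz0
      rw [← exp_log h6, exp_le_exp, Finsupp.coe_sub, Pi.sub_apply] at h5
      rw [hD' v]
      omega
    have h5 := finrank_rr_le h h4
    rw [divDeg_single, hdeg, hfin, hconst m] at h5
    have h6 := hspec j
    push_cast at h5 hD h6 ⊢
    rw [Nat.cast_sub (show 1 ≤ genus κ M from hg)] at hD
    push_cast at hD
    omega

end Pool.Agent.Lib.MP_44a246_ntSH
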