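import Mathlib
import Pool.Agent.Lib.MP_44a246_ntE.E04
import Pool.Agent.Lib.MP_44a246_ntSH.PJ08a

/-!
# Stage II of paper 667: the dimension of the Riemann-Roch spaces of large degree
-/

namespace Pool.Agent.Lib.MP_44a246_ntSH

open Pool.Agent.Lib.MP_e52354_nt
open Pool.Agent.Lib.MP_44a246_nt
open Pool.Agent.Lib.MP_44a246_ntL
open Pool.Agent.Lib.MP_44a246_ntR
open WithZero Module

variable {κ M : Type*} [Field κ] [IsAlgClosed κ] [CharZero κ] [Field M] [Algebra κ M]

/-- **Riemann-Roch for large degrees** -/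
theorem finrank_rr_eq (h : IsFF κ M) {D : Place κ M →₀ ℤ} (hD : 3 * (genus κ M : ℤ) ≤ divDeg D + 1) :
    (finrank κ (rr D) : ℤ) = divDeg D + 1 - genus κ M := by
  have hspec := genus_spec h D
  rcases Nat.eq_zero_or_pos (genus κ M) with hg | hg
  · rw [hg] at hD hspec ⊢
    have h1 := MP_44a246_ntE.finrank_rr_le_deg h (D := D) (by push_cast at hD; linarith)
    push_cast at hspec ⊢
    linarith
  · obtain ⟨P⟩ := exists_place h
    obtain ⟨g, hgd⟩ : ∃ g : ℕ, g = genus κ M := ⟨_, rfl⟩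
    rw [← hgd] at hD hspec hg ⊢
    have hcast : ((2 * g - 1 : ℕ) : ℤ) = 2 * g - 1 := by omega
    have hsingle := finrank_rr_single h P (j := 2 * g - 1) (by rw [← hgd]; omega)
    rw [← hgd, hcast] at hsingle
    obtain ⟨D', hD'⟩ : ∃ D' : Place κ M →₀ ℤ, D' = D + Finsupp.single P (-(2 * (g : ℤ) - 1)) :=
      ⟨_, rfl⟩
    have hdeg : divDeg D' = divDeg D - (2 * g - 1) := by
      rw [hD', divDeg_add, divDeg_single]
      ring
    have hspec' := genus_spec h D'
    rw [← hgd, hdeg] at hspec'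
    have hpos : 0 < finrank κ (rr D') := by
      have : (0 : ℤ) < finrank κ (rr D') := by linarith
      exact_mod_cast this
    obtain ⟨z, hz, hz0⟩ : ∃ z ∈ rr D', z ≠ 0 := by
      refine (Submodule.ne_bot_iff _).1 fun h0 => ?_
      rw [h0, finrank_bot] at hpos
      omega
    obtain ⟨D₁, hD₁, hdeg₁, hfr₁⟩ := rr_shift h D (inv_ne_zero hz0)
    have hle : Finsupp.single P (2 * (g : ℤ) - 1) ≤ D₁ := by
      intro v
      have h1 : v.1 z ≤ exp (D' v) := hz v
      have hvz : v.1 z ≠ 0 := (v.1.ne_zero_iff).2 hz0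
      have h2 : log (v.1 z) ≤ D' v := by
        have := (log_le_log hvz exp_ne_zero).2 h1
        rwa [log_exp] at this
      rw [hD₁ v, map_inv₀, log_inv]
      rw [hD', Finsupp.add_apply, Finsupp.single_neg, Finsupp.neg_apply] at h2
      linarith
    have hfin := finrank_rr_le h hle
    rw [divDeg_single, hfr₁, hdeg₁, hsingle] at hfin
    linarith

end Pool.Agent.Lib.MP_44a246_ntSH
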