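import Mathlib
import Pool.Agent.Lib.MP_44a246_ntSH.PJ08b

/-!
# Stage II of paper 667: functions outside finitely many subspaces
-/

namespace Pool.Agent.Lib.MP_44a246_ntSH

open Pool.Agent.Lib.MP_e52354_nt
open Pool.Agent.Lib.MP_44a246_nt
open Pool.Agent.Lib.MP_44a246_ntL
open Pool.Agent.Lib.MP_44a246_ntR
open WithZero Module

variable {κ M : Type*} [Field κ] [IsAlgClosed κ] [CharZero κ] [Field M] [Algebra κ M]

private theorem pj08_deg_sub_single (D : Place κ M →₀ ℤ) (w : Place κ M) :
    divDeg (D - Finsupp.single w 1) = divDeg D - 1 := by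
  have h := divDeg_add (D - Finsupp.single w 1) (Finsupp.single w 1)
  rw [sub_add_cancel, divDeg_single] at h
  omega

private theorem pj08_comap_ne_top (h : IsFF κ M) {D : Place κ M →₀ ℤ} {V : Submodule κ M}
    [FiniteDimensional κ V] (hV : (finrank κ V : ℤ) < finrank κ (rr D)) :
    V.comap (rr D).subtype ≠ ⊤ := by
  intro htop
  have h1 : rr D ≤ V := by
    intro x hx
    have h2 : (⟨x, hx⟩ : rr D) ∈ V.comap (rr D).subtype := by
      rw [htop]
      exact Submodule.mem_top
    exact h2
  have h2 := Submodule.finrank_mono h1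
  omega

/-- a function in `rr D` which is not in `κ + rr D'`, for finitely many smaller divisors, and has
the maximal poles at given places -/
theorem exists_rr_avoid (h : IsFF κ M) {D : Place κ M →₀ ℤ}
    (hD : 3 * (genus κ M : ℤ) + 1 ≤ divDeg D) {ι : Type*} (s : Finset ι) (v v' : ι → Place κ M)
    (T : Finset (Place κ M)) :
    ∃ x ∈ rr D, (∀ i ∈ s, ∀ c : κ, x - algebraMap κ M c ∉
      rr (D - Finsupp.single (v i) 1 - Finsupp.single (v' i) 1)) ∧
      ∀ w ∈ T, w.1 x = exp (D w) := by
  classical
  have hdim := finrank_rr_eq h (D := D) (by omega)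
  -- the first family of subspaces
  have hA : ∀ i, (Submodule.span κ {(1 : M)} ⊔
      rr (D - Finsupp.single (v i) 1 - Finsupp.single (v' i) 1)).comap (rr D).subtype ≠ ⊤ := by
    intro i
    have hfd := finite_rr h (D - Finsupp.single (v i) 1 - Finsupp.single (v' i) 1)
    refine pj08_comap_ne_top h ?_
    have h1 := finrank_rr_eq h (D := D - Finsupp.single (v i) 1 - Finsupp.single (v' i) 1)
      (by rw [pj08_deg_sub_single, pj08_deg_sub_single]; omega)
    rw [pj08_deg_sub_single, pj08_deg_sub_single] at h1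
    have h2 := Submodule.finrank_add_le_finrank_add_finrank (Submodule.span κ {(1 : M)})
      (rr (D - Finsupp.single (v i) 1 - Finsupp.single (v' i) 1))
    have h3 : finrank κ (Submodule.span κ {(1 : M)}) ≤ 1 :=
      (finrank_span_le_card {(1 : M)}).trans (by simp)
    omega
  have hB : ∀ w, (rr (D - Finsupp.single w 1)).comap (rr D).subtype ≠ ⊤ := by
    intro w
    have hfd := finite_rr h (D - Finsupp.single w 1)
    refine pj08_comap_ne_top h ?_
    have h1 := finrank_rr_eq h (D := D - Finsupp.single w 1)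
      (by rw [pj08_deg_sub_single]; omega)
    rw [pj08_deg_sub_single] at h1
    omega
  have hcov := Subspace.biUnion_ne_univ_of_top_notMem (k := κ) (E := rr D)
    (s := (s.image fun i => (Submodule.span κ {(1 : M)} ⊔
      rr (D - Finsupp.single (v i) 1 - Finsupp.single (v' i) 1)).comap (rr D).subtype) ∪
      (T.image fun w => (rr (D - Finsupp.single w 1)).comap (rr D).subtype)) (by
    intro hmem
    rw [Finset.mem_union, Finset.mem_image, Finset.mem_image] at hmem
    rcases hmem with ⟨i, -, hi⟩ | ⟨w, -, hw⟩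
    · exact hA i hi
    · exact hB w hw)
  obtain ⟨x, hx⟩ := (Set.ne_univ_iff_exists_notMem _).1 hcov
  have hx' : ∀ p ∈ (s.image fun i => (Submodule.span κ {(1 : M)} ⊔
      rr (D - Finsupp.single (v i) 1 - Finsupp.single (v' i) 1)).comap (rr D).subtype) ∪
      (T.image fun w => (rr (D - Finsupp.single w 1)).comap (rr D).subtype), x ∉ p := by
    intro p hp hxp
    exact hx (Set.mem_biUnion hp hxp)
  refine ⟨x.1, x.2, fun i hi c hc => ?_, fun w hw => ?_⟩
  · refine hx' _ (Finset.mem_union_left _ (Finset.mem_image_of_mem _ hi)) ?_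
    rw [Submodule.mem_comap, Submodule.subtype_apply]
    refine Submodule.mem_sup.2 ⟨algebraMap κ M c, ?_, _, hc, by ring⟩
    rw [Algebra.algebraMap_eq_smul_one]
    exact Submodule.smul_mem _ _ (Submodule.mem_span_singleton_self _)
  · have h1 := hx' _ (Finset.mem_union_right _ (Finset.mem_image_of_mem _ hw))
    refine le_antisymm (x.2 w) ?_
    by_contra hlt
    rw [not_le] at hlt
    refine h1 ?_
    rw [Submodule.mem_comap, Submodule.subtype_apply]
    intro u
    by_cases hu : u = w
    · rw [hu, Finsupp.sub_apply, Finsupp.single_eq_same]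
      have h2 : exp (D w - 1 + 1) = exp (D w - 1) * (exp 1 : ℤᵐ⁰) := exp_add _ _
      rw [sub_add_cancel] at h2
      rw [h2] at hlt
      exact (lt_mul_exp_iff_le exp_ne_zero).1 hlt
    · rw [Finsupp.sub_apply, Finsupp.single_eq_of_ne hu, sub_zero]
      exact x.2 u

end Pool.Agent.Lib.MP_44a246_ntSH
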