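import Mathlib
import Pool.Agent.Lib.MP_44a246_ntSH.PJ08
import Pool.Agent.Lib.MP_44a246_ntE.E10
import Pool.Agent.Lib.MP_44a246_ntY.Y09

/-!
# Stage II of paper 667: separating functions with one pole
-/

namespace Pool.Agent.Lib.MP_44a246_ntSH

open Pool.Agent.Lib.MP_e52354_nt
open Pool.Agent.Lib.MP_44a246_nt
open Pool.Agent.Lib.MP_44a246_ntL
open Pool.Agent.Lib.MP_44a246_ntR
open WithZero Module

variable {κ M : Type*} [Field κ] [IsAlgClosed κ] [CharZero κ] [Field M] [Algebra κ M]

/-- The function `x` has its only pole, of order `e`, at `P`; it is unramified at the places of `S`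
and has different values there. -/
structure SepX (P : Place κ M) (S : Finset (Place κ M)) (e : ℕ) (x : M) : Prop where
  notMem : P ∉ S
  pole : P.1 x = exp (e : ℤ)
  reg : ∀ v : Place κ M, v ≠ P → v.1 x ≤ 1
  unram : ∀ w ∈ S, ∀ c : κ, w.1 (x - algebraMap κ M c) < 1 →
    w.1 (x - algebraMap κ M c) = exp (-1 : ℤ)
  inj : ∀ w ∈ S, ∀ w' ∈ S, w ≠ w' → ∀ c : κ, w.1 (x - algebraMap κ M c) < 1 →
    ¬ w'.1 (x - algebraMap κ M c) < 1

/-- The function `y` has its only pole, of order `e - 1`, at `P`; it separates the places of `S`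
from the other places with the same value of `x`. -/
structure SepY (P : Place κ M) (S : Finset (Place κ M)) (e : ℕ) (x y : M) : Prop where
  pole : P.1 y = exp ((e : ℤ) - 1)
  reg : ∀ v : Place κ M, v ≠ P → v.1 y ≤ 1
  sep : ∀ w ∈ S, ∀ v : Place κ M, v ≠ w → ∀ a b : κ, w.1 (x - algebraMap κ M a) < 1 →
    v.1 (x - algebraMap κ M a) < 1 → w.1 (y - algebraMap κ M b) < 1 →
      ¬ v.1 (y - algebraMap κ M b) < 1

/-- the degree over the field generated by a function with one pole -/
theorem height_of_pole (h : IsFF κ M) {P : Place κ M} {x : M} {e : ℕ} (hp : P.1 x = exp (e : ℤ))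
    (hr : ∀ v : Place κ M, v ≠ P → v.1 x ≤ 1) : height κ ![1, x] = e := by
  rw [Pool.Agent.Lib.MP_44a246_ntY.height_one, finsum_eq_single _ P]
  · rw [hp, max_eq_right, log_exp]
    rw [← exp_zero, exp_le_exp]
    exact Int.natCast_nonneg e
  · intro v hv
    rw [max_eq_left (hr v hv), log_one]

end Pool.Agent.Lib.MP_44a246_ntSH
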