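import Mathlib
import Pool.Agent.Lib.MP_44a246_ntSH.PJ07a
import Pool.Agent.Lib.MP_44a246_ntSH.PJ07b
import Pool.Agent.Lib.MP_44a246_ntSH.PJ09d

/-!
# Stage II of paper 667: restriction of places to a function field over a smaller field of
constants
-/

namespace Pool.Agent.Lib.MP_44a246_ntSH

open Pool.Agent.Lib.MP_e52354_nt
open Pool.Agent.Lib.MP_44a246_nt
open Pool.Agent.Lib.MP_44a246_ntL
open Pool.Agent.Lib.MP_44a246_ntR
open WithZero Polynomial Module

/-- a function with a pole is transcendental -/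
private theorem transcendental_of_pole {κ M : Type*} [Field κ] [IsAlgClosed κ] [Field M]
    [Algebra κ M] {P : Place κ M} {f : M} (hf : 1 < P.1 f) : Transcendental κ f := by
  intro halg
  have h1 := IsAlgClosed.degree_eq_one_of_irreducible κ (minpoly.irreducible halg.isIntegral)
  obtain ⟨c, rfl⟩ := minpoly.mem_range_of_degree_eq_one κ f h1
  by_cases hc : c = 0
  · rw [hc, map_zero, map_zero] at hf
    exact absurd hf (not_lt.2 zero_le)
  · rw [P.2.2 c hc] at hf
    exact lt_irrefl _ hf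

/-- a function with a pole at one place only -/
private theorem exists_pole {κ M : Type*} [Field κ] [IsAlgClosed κ] [CharZero κ] [Field M]
    [Algebra κ M] (h : IsFF κ M) (P : Place κ M) :
    ∃ (f : M) (e : ℕ), 1 ≤ e ∧ P.1 f = exp (e : ℤ) ∧ ∀ v : Place κ M, v ≠ P → v.1 f ≤ 1 := by
  classical
  have h0 := finrank_rr_single h P (j := 2 * genus κ M) (by omega)
  have h1 := finrank_rr_single h P (j := 2 * genus κ M + 1) (by omega)
  have := finite_rr h (Finsupp.single P ((2 * genus κ M : ℕ) : ℤ))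
  have hlt : ¬ rr (κ := κ) (Finsupp.single P ((2 * genus κ M + 1 : ℕ) : ℤ)) ≤
      rr (Finsupp.single P ((2 * genus κ M : ℕ) : ℤ)) := by
    intro hle
    have h2 := Submodule.finrank_mono hle
    omega
  obtain ⟨f, hf, hf'⟩ := SetLike.not_le_iff_exists.mp hlt
  have hreg : ∀ v : Place κ M, v ≠ P → v.1 f ≤ 1 := by
    intro v hv
    have := hf v
    rwa [Finsupp.single_apply, if_neg (Ne.symm hv), exp_zero] at this
  have hP : ¬ P.1 f ≤ exp ((2 * genus κ M : ℕ) : ℤ) := by
    intro hle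
    refine hf' fun v => ?_
    by_cases hv : v = P
    · rw [hv, Finsupp.single_eq_same]
      exact hle
    · rw [Finsupp.single_apply, if_neg (Ne.symm hv), exp_zero]
      exact hreg v hv
  have hP2 : P.1 f ≤ exp ((2 * genus κ M + 1 : ℕ) : ℤ) := by
    have := hf P
    rwa [Finsupp.single_eq_same] at this
  have hne : P.1 f ≠ 0 := by
    intro h3
    rw [h3] at hP
    exact hP zero_le
  refine ⟨f, 2 * genus κ M + 1, by omega, ?_, hreg⟩
  rw [← exp_log hne] at hP hP2 ⊢
  rw [exp_le_exp] at hP hP2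
  congr 1
  push_cast at hP hP2 ⊢
  omega

variable {k₀ k M₀ M : Type*} [Field k₀] [IsAlgClosed k₀] [CharZero k₀] [Field k]
  [IsAlgClosed k] [CharZero k] [Algebra k₀ k] [Field M₀] [Algebra k₀ M₀] [Field M] [Algebra k M]
  [Algebra M₀ M] [Algebra k₀ M] [IsScalarTower k₀ k M] [IsScalarTower k₀ M₀ M]

/-- **Different places which are not trivial on the subfield have different restrictions.** -/
theorem restrict_inj (hM₀ : IsFF k₀ M₀) (hM : IsFF k M)
    (hgen : IntermediateField.adjoin k (Set.range (algebraMap M₀ M)) = ⊤)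
    {w w' : Place k M} {w₀ : Place k₀ M₀} {r r' : ℕ} (hr : 1 ≤ r) (hr' : 1 ≤ r')
    (h : ∀ g : M₀, w.1 (algebraMap M₀ M g) = w₀.1 g ^ r)
    (h' : ∀ g : M₀, w'.1 (algebraMap M₀ M g) = w₀.1 g ^ r') : w = w' := by
  classical
  by_contra hne
  obtain ⟨f, e, he, hf, hreg⟩ := exists_pole hM₀ w₀
  have hpw : w.1 (algebraMap M₀ M f) = exp ((r * e : ℕ) : ℤ) := by
    rw [h, hf, ← exp_nsmul]
    congr 1
  have hpw' : w'.1 (algebraMap M₀ M f) = exp ((r' * e : ℕ) : ℤ) := by
    rw [h', hf, ← exp_nsmul]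
    congr 1
  have htr : Transcendental k (algebraMap M₀ M f) := by
    refine transcendental_of_pole (P := w) ?_
    rw [hpw, ← exp_zero, exp_lt_exp]
    have : 0 < r * e := Nat.mul_pos (by omega) (by omega)
    exact_mod_cast this
  have h1 := height_le_height hM₀ hM hgen htr
  rw [height_of_pole hM₀ hf hreg, Pool.Agent.Lib.MP_44a246_ntY.height_one] at h1
  have hsup := Pool.Agent.Lib.MP_44a246_ntY.log_max_support hM (algebraMap M₀ M f)
  have h2 : ∀ v : Place k M, 0 ≤ log (max 1 (v.1 (algebraMap M₀ M f))) := by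
    intro v
    rw [le_log_iff_exp_le (lt_of_lt_of_le zero_lt_one (le_max_left _ _)).ne', exp_zero]
    exact le_max_left _ _
  have h3 : ∑ v ∈ ({w, w'} : Finset (Place k M)), log (max 1 (v.1 (algebraMap M₀ M f))) ≤
      ∑ᶠ v : Place k M, log (max 1 (v.1 (algebraMap M₀ M f))) := by
    rw [finsum_eq_sum_of_support_subset _ (s := hsup.toFinset ∪ {w, w'}) (by
      intro v hv
      rw [Finset.coe_union]
      exact Or.inl (hsup.mem_toFinset.2 hv))]
    exact Finset.sum_le_sum_of_subset_of_nonneg Finset.subset_union_right fun v _ _ => h2 v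
  rw [Finset.sum_pair hne, hpw, hpw'] at h3
  have h4 : ∀ m : ℕ, log (max 1 (exp (m : ℤ) : ℤᵐ⁰)) = m := by
    intro m
    rw [max_eq_right, log_exp]
    rw [← exp_zero, exp_le_exp]
    exact Int.natCast_nonneg m
  rw [h4, h4] at h3
  have h5 : ((r * e : ℕ) : ℤ) + ((r' * e : ℕ) : ℤ) ≤ e := h3.trans h1
  have h6 : r * e + r' * e ≤ e := by exact_mod_cast h5
  have h7 : 1 * e ≤ r * e := Nat.mul_le_mul_right e hr
  have h8 : 1 * e ≤ r' * e := Nat.mul_le_mul_right e hr'
  omega

end Pool.Agent.Lib.MP_44a246_ntSH
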