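import Mathlib
import Pool.Agent.Lib.MP_44a246_ntE.E01
import Pool.Agent.Lib.MP_44a246_ntS.SP4b

/-!
The derivation `d / d X` at the poles of `X`; the local estimate of the determinant of a covering
family of curves with an arbitrary bound for the derivation.

PROOF of `der_place_inf`: `der_lead` gives `θ` with `w (D y) = w y * θ` for `w y ≠ 1`, `≤` in
general; for `y = X`: `1 = w X * θ`. If `w y < 1`, then `w (D y) ≤ exp (-1) * θ`. If `w y = 1`
subtract a constant `c` with `w (y - c) < 1` (`place_residue`), `D (y - c) = D y`.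

PROOF of `log_le_ramIdx_inf`: `exists_ramIdx` gives `z` in `RatFunc κ` with
`w z = exp (ramIdx)`; at a pole of `X` one has `w z = w X ^ intDegree z` (for a polynomial `p`:
`w p = w X ^ natDegree p`, as the leading term is the largest). So `ramIdx = intDegree z * log (w X)`
with both factors positive.

PROOF of `wedge_place_gen`: copy the proof of `wedge_place` (MP_44a246_ntS/SP4b); the only change
is the bound `β` for the row `D (q k)`.
-/

namespace Pool.Agent.Lib.MP_44a246_ntSH

open Pool.Agent.Lib.MP_e52354_nt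
open Pool.Agent.Lib.MP_44a246_nt
open Pool.Agent.Lib.MP_44a246_ntL
open Pool.Agent.Lib.MP_44a246_ntS
open Pool.Agent.Lib.MP_44a246_ntE
open WithZero Polynomial

section

variable {κ M : Type*} [Field κ] [IsAlgClosed κ] [CharZero κ] [Field M] [Algebra κ M]
  [Algebra κ[X] M] [IsScalarTower κ κ[X] M]
  [Algebra (RatFunc κ) M] [IsScalarTower κ[X] (RatFunc κ) M]
  [Algebra (Rinf κ) M] [IsScalarTower (Rinf κ) (RatFunc κ) M]
  [FiniteDimensional (RatFunc κ) M]

/-- the derivation `d / d X` at a pole of `X` -/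
theorem der_place_inf (w : Place κ M) (D : Derivation ℤ M M)
    (hκ : ∀ u : κ, D (algebraMap κ M u) = 0) (hX : D (algebraMap κ[X] M X) = 1)
    (hw : 1 < w.1 (algebraMap κ[X] M X)) {y : M} (hy : w.1 y ≤ 1) :
    w.1 (D y) ≤ exp (-1 : ℤ) * (w.1 (algebraMap κ[X] M X))⁻¹ := by
  obtain ⟨θ, -, hθ1, hθ2⟩ := der_lead w D hκ hX
  have hX0 : w.1 (algebraMap κ[X] M X) ≠ 0 := by
    intro h
    rw [h] at hw
    exact not_lt_zero hw
  have hθ : θ = (w.1 (algebraMap κ[X] M X))⁻¹ := by
    have h1 := hθ1 _ hw.ne'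
    rw [hX, map_one] at h1
    exact eq_inv_of_mul_eq_one_right h1.symm
  have key : ∀ z : M, w.1 z < 1 →
      w.1 (D z) ≤ exp (-1 : ℤ) * (w.1 (algebraMap κ[X] M X))⁻¹ := by
    intro z hz
    rw [← hθ]
    refine (hθ2 z).trans (mul_le_mul' ?_ le_rfl)
    by_cases h0 : w.1 z = 0
    · rw [h0]
      exact zero_le
    · rw [← exp_log h0, exp_le_exp]
      have h1 : log (w.1 z) < log 1 := (log_lt_log h0 one_ne_zero).mpr hz
      rw [log_one] at h1
      omega
  obtain ⟨c, hc⟩ := place_residue w hy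
  have h2 := key _ hc
  rwa [map_sub, hκ, sub_zero] at h2

/-- the ramification index at a pole of `X` -/
theorem log_le_ramIdx_inf (w : Place κ M) (hw : 1 < w.1 (algebraMap κ[X] M X)) :
    log (w.1 (algebraMap κ[X] M X)) ≤ (ramIdx (RatFunc κ) w.1 : ℤ) := by
  obtain ⟨s, hs⟩ := exists_ramIdx (K := RatFunc κ) w.1 w.2.1
  have he := one_le_ramIdx (K := RatFunc κ) w.1 w.2.1
  have hs0 : s ≠ 0 := by
    rintro rfl
    rw [map_zero, map_zero] at hs
    exact exp_ne_zero hs.symm
  have hX0 : w.1 (algebraMap κ[X] M X) ≠ 0 := by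
    intro h
    rw [h] at hw
    exact not_lt_zero hw
  have hn0 : s.num ≠ 0 := RatFunc.num_ne_zero hs0
  have hd0 : s.denom ≠ 0 := RatFunc.denom_ne_zero s
  have h1 : w.1 (algebraMap (RatFunc κ) M s) =
      w.1 (algebraMap κ[X] M X) ^ s.num.natDegree / w.1 (algebraMap κ[X] M X) ^ s.denom.natDegree := by
    conv_lhs => rw [← RatFunc.num_div_denom s]
    rw [map_div₀, map_div₀, ← IsScalarTower.algebraMap_apply κ[X] (RatFunc κ) M,
      ← IsScalarTower.algebraMap_apply κ[X] (RatFunc κ) M, place_poly_gt w hw hn0,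
      place_poly_gt w hw hd0]
  have h2 := congrArg log (h1.symm.trans hs)
  rw [log_exp, log_div (pow_ne_zero _ hX0) (pow_ne_zero _ hX0), log_pow, log_pow] at h2
  have h3 : log 1 < log (w.1 (algebraMap κ[X] M X)) := (log_lt_log one_ne_zero hX0).mpr hw
  rw [log_one] at h3
  set l := log (w.1 (algebraMap κ[X] M X)) with hl
  rw [nsmul_eq_mul, nsmul_eq_mul] at h2
  have h4 : ((s.denom.natDegree : ℤ) - s.num.natDegree) * l = (ramIdx (RatFunc κ) w.1 : ℤ) := by
    linarith
  have h5 : 0 < (s.denom.natDegree : ℤ) - s.num.natDegree := by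
    by_contra h
    have : ((s.denom.natDegree : ℤ) - s.num.natDegree) * l ≤ 0 :=
      mul_nonpos_of_nonpos_of_nonneg (by omega) h3.le
    omega
  rw [← h4]
  nlinarith

/-- the local estimate of the determinant -/
theorem wedge_place_gen (w : Place κ M) {m : ℕ} (D : Derivation ℤ M M)
    (hκ : ∀ u : κ, D (algebraMap κ M u) = 0) (hX : D (algebraMap κ[X] M X) = 1)
    {β : ℤᵐ⁰} (hβ : ∀ y, w.1 y ≤ 1 → w.1 (D y) ≤ β)
    (E : Fin m → Derivation ℤ M M)
    (hEκ : ∀ i, ∀ u : κ, ∃ u' : κ, E i (algebraMap κ M u) = algebraMap κ M u')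
    (hEX : ∀ i, ∃ u : κ, E i (algebraMap κ[X] M X) = algebraMap κ M u)
    {γ : Fin (m + 3) → M} (hγ : γ ≠ 0) (j : Fin (m + 3)) :
    w.1 (consMat (Pi.single j 1)
        (Fin.cons γ (Fin.cons (fun k => D (γ k)) fun i k => E i (γ k)))).det ≤
      vmax w.1 γ ^ (m + 2) * β := by
  obtain ⟨l, hl0, hlv, hlmax⟩ := exists_vmax w.1 hγ
  obtain ⟨π, hπ⟩ := w.2.1 (exp (-1 : ℤ))
  set e : ℕ := ramIdx (RatFunc κ) w.1 - 1 with he
  have hDκ : ∀ u : κ, ∃ u' : κ, D (algebraMap κ M u) = algebraMap κ M u' := fun u =>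
    ⟨0, by rw [hκ u, map_zero]⟩
  have hDX : ∃ u : κ, D (algebraMap κ[X] M X) = algebraMap κ M u := ⟨1, by rw [hX, map_one]⟩
  have hDπ : D π ≠ 0 := der_unif_ne w D hκ hX hπ
  have hDp : ∀ y, w.1 y ≤ 1 → w.1 (D y) ≤ exp (e : ℤ) := fun y hy => der_place w D hDκ hDX hy
  have hEp : ∀ i, ∀ y, w.1 y ≤ 1 → w.1 (E i y) ≤ exp (e : ℤ) := fun i y hy =>
    der_place w (E i) (hEκ i) (hEX i) hy
  -- the corrected derivations
  set c : Fin m → M := fun i => E i π / D π with hc
  set E' : Fin m → Derivation ℤ M M := fun i => E i - c i • D with hE'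
  have hE'a : ∀ i y, E' i y = E i y - c i * D y := fun i y => rfl
  have hE'κ : ∀ i, ∀ u : κ, ∃ u' : κ, E' i (algebraMap κ M u) = algebraMap κ M u' := by
    intro i u
    obtain ⟨u', hu'⟩ := hEκ i u
    exact ⟨u', by rw [hE'a, hκ, mul_zero, sub_zero, hu']⟩
  have hE'π : ∀ i, E' i π = 0 := by
    intro i
    rw [hE'a, hc]
    simp only
    rw [div_mul_cancel₀ _ hDπ, sub_self]
  have hE'p : ∀ i, ∀ y, w.1 y ≤ 1 → w.1 (E' i y) ≤ 1 := by
    intro i y hy
    have hcle : w.1 (c i) ≤ exp (((log (w.1 (c i))).toNat : ℕ) : ℤ) := by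
      by_cases h0 : w.1 (c i) = 0
      · rw [h0]; exact zero_le
      · conv_lhs => rw [← exp_log h0]
        rw [exp_le_exp]
        exact Int.self_le_toNat _
    refine der_int w (E' i) (hE'κ i) (N := (log (w.1 (c i))).toNat + e) ?_ hπ (hE'π i) hy
    intro z hz
    rw [hE'a]
    refine (w.1.map_sub _ _).trans (max_le ?_ ?_)
    · refine (hEp i z hz).trans ?_
      rw [exp_le_exp]
      push_cast
      have : (0 : ℤ) ≤ ((log (w.1 (c i))).toNat : ℤ) := Int.natCast_nonneg _
      linarith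
    · rw [map_mul]
      refine (mul_le_mul' hcle (hDp z hz)).trans (le_of_eq ?_)
      rw [← exp_add]
      push_cast
      rfl
  -- the normalised vector
  set q : Fin (m + 3) → M := fun k => γ k / γ l with hq
  have hγq : ∀ k, γ k = γ l * q k := fun k => by
    rw [hq]
    simp only
    rw [mul_div_cancel₀ _ hl0]
  have hvl : w.1 (γ l) ≠ 0 := (Valuation.ne_zero_iff w.1).mpr hl0
  have hqv : ∀ k, w.1 (q k) ≤ 1 := by
    intro k
    rw [hq]
    simp only
    rw [map_div₀]
    exact div_le_one_of_le₀ (hlmax k) zero_le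
  -- the matrices
  set N : Matrix (Fin (m + 3)) (Fin (m + 3)) M := consMat (Pi.single j 1)
        (Fin.cons γ (Fin.cons (fun k => D (γ k)) fun i k => E i (γ k))) with hN
  set N₁ : Matrix (Fin (m + 3)) (Fin (m + 3)) M := consMat (Pi.single j 1)
        (Fin.cons q (Fin.cons (fun k => (γ l)⁻¹ * D (γ k)) fun i k => (γ l)⁻¹ * E i (γ k)))
    with hN₁
  set N₂ : Matrix (Fin (m + 3)) (Fin (m + 3)) M := consMat (Pi.single j 1)
        (Fin.cons q (Fin.cons (fun k => D (q k)) fun i k => E i (q k))) with hN₂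
  set N₃ : Matrix (Fin (m + 3)) (Fin (m + 3)) M := consMat (Pi.single j 1)
        (Fin.cons q (Fin.cons (fun k => D (q k)) fun i k => E' i (q k))) with hN₃
  have d1 : N.det = γ l ^ (m + 2) * N₁.det := by
    have h1 : N = Matrix.of fun i k =>
        (Fin.cons 1 (fun _ => γ l) : Fin (m + 3) → M) i * N₁ i k := by
      ext i k
      refine Fin.cases ?_ (fun i => Fin.cases ?_ (fun i => Fin.cases ?_ (fun i => ?_) i) i) i
      · simp [hN, hN₁, consMat]
      · simp only [hN, hN₁, consMat, Matrix.of_apply, Fin.cons_succ, Fin.cons_zero]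
        exact hγq k
      · simp only [hN, hN₁, consMat, Matrix.of_apply, Fin.cons_succ, Fin.cons_zero]
        rw [mul_inv_cancel_left₀ hl0]
      · simp only [hN, hN₁, consMat, Matrix.of_apply, Fin.cons_succ, Fin.cons_zero]
        rw [mul_inv_cancel_left₀ hl0]
    rw [h1, Matrix.det_mul_column, Fin.prod_univ_succ]
    simp
  have hder : ∀ (F : Derivation ℤ M M) (k : Fin (m + 3)),
      (γ l)⁻¹ * F (γ k) = F (q k) + (γ l)⁻¹ * F (γ l) * q k := by
    intro F k
    conv_lhs => rw [hγq k]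
    rw [Derivation.leibniz, smul_eq_mul, smul_eq_mul]
    field_simp
  have d2 : N₁.det = N₂.det := by
    refine Matrix.det_eq_of_forall_row_eq_smul_add_const
      (Fin.cons 0 (Fin.cons 0 (Fin.cons ((γ l)⁻¹ * D (γ l)) fun i => (γ l)⁻¹ * E i (γ l))) :
        Fin (m + 3) → M) (Fin.succ 0) ?_ ?_
    · simp
    · intro i k
      refine Fin.cases ?_ (fun i => Fin.cases ?_ (fun i => Fin.cases ?_ (fun i => ?_) i) i) i
      · simp [hN₁, hN₂, consMat]
      · simp [hN₁, hN₂, consMat]
      · simp only [hN₁, hN₂, consMat, Matrix.of_apply, Fin.cons_succ, Fin.cons_zero]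
        exact hder D k
      · simp only [hN₁, hN₂, consMat, Matrix.of_apply, Fin.cons_succ, Fin.cons_zero]
        exact hder (E i) k
  have d3 : N₂.det = N₃.det := by
    refine Matrix.det_eq_of_forall_row_eq_smul_add_const
      (Fin.cons 0 (Fin.cons 0 (Fin.cons 0 c)) : Fin (m + 3) → M) (Fin.succ (Fin.succ 0)) ?_ ?_
    · rw [Fin.cons_succ, Fin.cons_succ, Fin.cons_zero]
    · intro i k
      refine Fin.cases ?_ (fun i => Fin.cases ?_ (fun i => Fin.cases ?_ (fun i => ?_) i) i) i
      · simp [hN₂, hN₃, consMat]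
      · simp [hN₂, hN₃, consMat]
      · simp only [hN₂, hN₃, consMat, Matrix.of_apply, Fin.cons_succ, Fin.cons_zero, zero_mul,
          add_zero]
      · simp only [hN₂, hN₃, consMat, Matrix.of_apply, Fin.cons_succ, Fin.cons_zero]
        rw [hE'a, sub_add_cancel]
  have d4 : w.1 N₃.det ≤ β := by
    refine (det_weights w.1 N₃ (Fin.cons 1 (Fin.cons 1 (Fin.cons β fun _ => 1)) :
      Fin (m + 3) → ℤᵐ⁰) (fun _ => 1) ?_).trans (le_of_eq ?_)
    · intro i k
      rw [mul_one]
      refine Fin.cases ?_ (fun i => Fin.cases ?_ (fun i => Fin.cases ?_ (fun i => ?_) i) i) i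
      · simp only [hN₃, consMat, Matrix.of_apply, Fin.cons_zero]
        by_cases hk : k = j
        · subst hk
          rw [Pi.single_eq_same, map_one]
        · rw [Pi.single_eq_of_ne hk, map_zero]
          exact zero_le
      · simp only [hN₃, consMat, Matrix.of_apply, Fin.cons_succ, Fin.cons_zero]
        exact hqv k
      · simp only [hN₃, consMat, Matrix.of_apply, Fin.cons_succ, Fin.cons_zero]
        exact hβ _ (hqv k)
      · simp only [hN₃, consMat, Matrix.of_apply, Fin.cons_succ, Fin.cons_zero]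
        exact hE'p i _ (hqv k)
    · rw [Finset.prod_const_one, mul_one, Fin.prod_univ_succ, Fin.prod_univ_succ,
        Fin.prod_univ_succ]
      simp only [Fin.cons_succ, Fin.cons_zero, one_mul, Finset.prod_const_one, mul_one]
  rw [d1, d2, d3, map_mul, map_pow, hlv]
  exact mul_le_mul' le_rfl d4

end

end Pool.Agent.Lib.MP_44a246_ntSH
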