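import Mathlib
import Pool.Agent.Lib.MP_44a246_ntSH.CV01
import Pool.Agent.Lib.MP_44a246_ntS.SP5c
import Pool.Agent.Lib.MP_44a246_ntR.GR9

/-!
Adjunction: a curve in a hypersurface which moves in a family through the general point of the
hypersurface has a genus which is large in comparison with its degree.

PROOF of `wedge_global_inf`: as `wedge_global` (MP_44a246_ntS/SP5c, copy the proof) with the local
estimate `wedge_place_gen`: at the places with `w X ≤ 1` take `β = exp (ramIdx - 1)` (`der_place`),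
at the poles of `X` take `β = exp (-1) * (w X)⁻¹ ≤ exp ((ramIdx - 1) - 2 * log (w X))`
(`der_place_inf`, `log_le_ramIdx_inf`). So the right side of the local inequality becomes
`(m + 2) * log (vmax w γ) + (ramIdx - 1) - 2 * log (max 1 (w X))`, and the sum of
`log (max 1 (w X))` is `height κ ![1, X] = [M : κ (X)]` (`c33_height_X` in MP_44a246_ntC/C33,
or `finrank_eq_height` in MP_44a246_ntR/GR5: copy the short proof if the import is too large).

PROOF of `smooth_of_der`: if `grad d a u = 0`, `u ≠ 0`, then `Fval d a u = 0` (`grad_euler`, `d ≥ 1`)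
and `0 = W I (Fval d a u) = mon u I + grad . W I (u) = mon u I` for all `I` of degree `d`
(`D_Fval`), in particular `u j ^ d = 0`.

PROOF of `adj_genus`: `wedge_global_inf` and `ramDeg_le` (GR9):
`ramDeg ≤ 2 genus - 2 + 2 [M : κ (X)]`.
-/

namespace Pool.Agent.Lib.MP_44a246_ntSH

open Pool.Agent.Lib.MP_e52354_nt
open Pool.Agent.Lib.MP_44a246_nt
open Pool.Agent.Lib.MP_44a246_ntL
open Pool.Agent.Lib.MP_44a246_ntR
open Pool.Agent.Lib.MP_44a246_ntS
open Pool.Agent.Lib.MP_44a246_ntE
open WithZero Polynomial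

/-- a form with algebraically independent coefficients is smooth -/
theorem smooth_of_der {κ : Type*} [Field κ] [CharZero κ] {n d : ℕ} (hd : 1 ≤ d)
    {a : (Fin n →₀ ℕ) → κ} (W : (Fin n →₀ ℕ) → Derivation ℤ κ κ)
    (hW : ∀ I ∈ expo (Fin n) d, ∀ J ∈ expo (Fin n) d, W I (a J) = if I = J then 1 else 0)
    (u : Fin n → κ) (hu : u ≠ 0) : ∃ j, grad d a u j ≠ 0 := by
  by_contra hcon
  push Not at hcon
  have hd0 : (d : κ) ≠ 0 := Nat.cast_ne_zero.mpr (by omega)
  have hF : Fval d a u = 0 := by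
    have h1 := grad_euler d a u
    rw [Finset.sum_eq_zero (fun j _ => by rw [hcon j, zero_mul])] at h1
    exact (mul_eq_zero.mp h1.symm).resolve_left hd0
  have hm : ∀ I ∈ expo (Fin n) d, mon u I = 0 := by
    intro I hI
    have h1 := D_Fval d a (W I) u
    rw [hF, map_zero, Finset.sum_eq_zero (s := Finset.univ)
      (fun j _ => by rw [hcon j, zero_mul]), add_zero] at h1
    rw [Finset.sum_congr rfl fun J hJ => by rw [hW I hI J hJ]] at h1
    rw [Finset.sum_eq_single I] at h1
    · rw [if_pos rfl, one_mul] at h1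
      exact h1.symm
    · intro J _ hJ
      rw [if_neg (Ne.symm hJ), zero_mul]
    · intro h
      exact absurd hI h
  apply hu
  funext j
  have h1 := hm (Finsupp.single j d) (mem_expo.mpr (by simp))
  unfold mon at h1
  rw [Finset.prod_eq_single j] at h1
  · rw [Finsupp.single_eq_same] at h1
    exact pow_eq_zero_iff (by omega) |>.mp h1
  · intro k _ hk
    rw [Finsupp.single_eq_of_ne hk, pow_zero]
  · intro h
    exact absurd (Finset.mem_univ j) h

section

variable {κ M : Type*} [Field κ] [IsAlgClosed κ] [CharZero κ] [Field M] [Algebra κ M]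
  [Algebra κ[X] M] [IsScalarTower κ κ[X] M]
  [Algebra (RatFunc κ) M] [IsScalarTower κ[X] (RatFunc κ) M]
  [Algebra (Rinf κ) M] [IsScalarTower (Rinf κ) (RatFunc κ) M]
  [FiniteDimensional (RatFunc κ) M]

/-- **The global inequality**, with the gain at the poles of `X`. -/
theorem wedge_global_inf {m d : ℕ} (hd : 1 ≤ d) {a : (Fin (m + 3) →₀ ℕ) → κ}
    (hsm : ∀ u : Fin (m + 3) → κ, u ≠ 0 → ∃ j, grad d a u j ≠ 0) (D : Derivation ℤ M M)
    (hκ : ∀ u : κ, D (algebraMap κ M u) = 0) (hX : D (algebraMap κ[X] M X) = 1)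
    (E : Fin m → Derivation ℤ M M)
    (hEκ : ∀ i, ∀ u : κ, ∃ u' : κ, E i (algebraMap κ M u) = algebraMap κ M u')
    (hEX : ∀ i, ∃ u : κ, E i (algebraMap κ[X] M X) = algebraMap κ M u)
    (hEa : ∀ i, ∀ I ∈ expo (Fin (m + 3)) d, E i (algebraMap κ M (a I)) = 0)
    {γ : Fin (m + 3) → M} (hF : Fval d (fun I => algebraMap κ M (a I)) γ = 0)
    {r : Fin (m + 3) → M}
    (hdet : (consMat r (Fin.cons γ (Fin.cons (fun k => D (γ k)) fun i k => E i (γ k)))).det ≠ 0) :
    ((d : ℤ) - 1) * height κ γ + 2 * Module.finrank (RatFunc κ) M ≤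
      (m + 2) * height κ γ + ramDeg κ M (RatFunc κ) := by
  classical
  set aM : (Fin (m + 3) →₀ ℕ) → M := fun I => algebraMap κ M (a I) with haM
  set g : Fin (m + 3) → M := grad d aM γ with hg
  set A : Fin (m + 2) → Fin (m + 3) → M :=
    Fin.cons γ (Fin.cons (fun k => D (γ k)) fun i k => E i (γ k)) with hA
  have hγ : γ ≠ 0 := by
    rintro rfl
    apply hdet
    refine Matrix.det_eq_zero_of_row_eq_zero (1 : Fin (m + 3)) fun k => ?_
    rfl
  have htow : IsScalarTower κ (RatFunc κ) M := by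
    refine IsScalarTower.of_algebraMap_eq fun c => ?_
    rw [IsScalarTower.algebraMap_apply κ κ[X] M, IsScalarTower.algebraMap_apply κ[X] (RatFunc κ) M,
      ← IsScalarTower.algebraMap_apply κ κ[X] (RatFunc κ)]
  have hXeq : tL κ M = algebraMap κ[X] M X := by
    unfold tL
    rw [IsScalarTower.algebraMap_apply κ[X] (RatFunc κ) M, RatFunc.algebraMap_X]
  have hfin : (Module.finrank (RatFunc κ) M : ℤ) = height κ ![1, algebraMap κ[X] M X] := by
    rw [finrank_eq_height κ M, hXeq]
  rcases isEmpty_or_nonempty (Place κ M) with hemp | ⟨⟨w₀⟩⟩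
  · have h1 : height κ γ = 0 := by
      unfold height
      exact finsum_of_isEmpty _
    have h2 : height κ ![1, algebraMap κ[X] M X] = 0 := by
      unfold height
      exact finsum_of_isEmpty _
    rw [hfin, h1, h2, mul_zero, mul_zero, mul_zero, zero_add, zero_add]
    exact Int.natCast_nonneg _
  have hvg : ∀ w : Place κ M, vmax w.1 g = vmax w.1 γ ^ (d - 1) := fun w =>
    vmax_grad w (fun y hy => place_residue w hy) hd hsm hγ
  have hvγ : ∀ w : Place κ M, vmax w.1 γ ≠ 0 := fun w h => hγ ((vmax_eq_zero_iff w.1).mp h)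
  have hg0 : g ≠ 0 := by
    intro h
    have h1 := hvg w₀
    rw [(vmax_eq_zero_iff w₀.1).mpr h] at h1
    exact pow_ne_zero _ (hvγ w₀) h1.symm
  -- orthogonality
  have horth : ∀ i, ∑ k, g k * A i k = 0 := by
    intro i
    refine Fin.cases ?_ (fun i => ?_) i
    · show ∑ k, g k * γ k = 0
      rw [hg, grad_euler, hF, mul_zero]
    · refine Fin.cases ?_ (fun i => ?_) i
      · show ∑ k, g k * D (γ k) = 0
        have h1 := D_Fval d aM D γ
        rw [hF, map_zero, Finset.sum_eq_zero (fun I _ => by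
          rw [haM]; simp only; rw [hκ, zero_mul]), zero_add] at h1
        exact h1.symm
      · show ∑ k, g k * E i (γ k) = 0
        have h1 := D_Fval d aM (E i) γ
        rw [hF, map_zero, Finset.sum_eq_zero (fun I hI => by
          rw [haM]; simp only; rw [hEa i I hI, zero_mul]), zero_add] at h1
        exact h1.symm
  obtain ⟨lam, hlam⟩ := det_consMat A hg0 horth
  have hlam0 : lam ≠ 0 := by
    rintro rfl
    apply hdet
    rw [hlam, zero_mul]
  -- the local estimate
  have hloc : ∀ w : Place κ M, log (w.1 lam) + ((d : ℤ) - 1) * log (vmax w.1 γ) +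
      2 * log (vmax w.1 ![1, algebraMap κ[X] M X]) ≤
      ((m : ℤ) + 2) * log (vmax w.1 γ) + ((ramIdx (RatFunc κ) w.1 - 1 : ℕ) : ℤ) := by
    intro w
    obtain ⟨β, hβ0, hβ, hβl⟩ : ∃ β : ℤᵐ⁰, β ≠ 0 ∧ (∀ y, w.1 y ≤ 1 → w.1 (D y) ≤ β) ∧
        log β + 2 * log (vmax w.1 ![1, algebraMap κ[X] M X]) ≤
          ((ramIdx (RatFunc κ) w.1 - 1 : ℕ) : ℤ) := by
      rw [vmax_pair]
      rcases le_or_gt (w.1 (algebraMap κ[X] M X)) 1 with hw | hw
      · refine ⟨exp ((ramIdx (RatFunc κ) w.1 - 1 : ℕ) : ℤ), exp_ne_zero, fun y hy =>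
          der_place w D (fun u => ⟨0, by rw [hκ, map_zero]⟩) ⟨1, by rw [hX, map_one]⟩ hy, ?_⟩
        rw [max_eq_left hw, log_one, log_exp, mul_zero, add_zero]
      · have hX0 : w.1 (algebraMap κ[X] M X) ≠ 0 := (lt_trans zero_lt_one hw).ne'
        refine ⟨exp (-1 : ℤ) * (w.1 (algebraMap κ[X] M X))⁻¹,
          mul_ne_zero exp_ne_zero (inv_ne_zero hX0), fun y hy =>
          der_place_inf w D hκ hX hw hy, ?_⟩
        have h1 := log_le_ramIdx_inf w hw
        have h2 : 0 < log (w.1 (algebraMap κ[X] M X)) := by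
          have h3 := (log_lt_log one_ne_zero hX0).mpr hw
          rwa [log_one] at h3
        rw [max_eq_right hw.le, log_mul exp_ne_zero (inv_ne_zero hX0), log_exp, log_inv]
        have h4 : 1 ≤ ramIdx (RatFunc κ) w.1 := by
          have h5 : (0 : ℤ) < (ramIdx (RatFunc κ) w.1 : ℤ) := lt_of_lt_of_le h2 h1
          exact_mod_cast h5
        rw [Nat.cast_sub h4, Nat.cast_one]
        linarith
    obtain ⟨j, -, hj, -⟩ := exists_vmax w.1 hg0
    have h1 := wedge_place_gen w D hκ hX hβ E hEκ hEX hγ j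
    have h2 : (consMat (Pi.single j 1) A).det = lam * g j := by
      rw [hlam]
      congr 1
      rw [Finset.sum_eq_single j]
      · rw [Pi.single_eq_same, mul_one]
      · intro k _ hk
        rw [Pi.single_eq_of_ne hk, mul_zero]
      · intro h
        exact absurd (Finset.mem_univ j) h
    rw [← hA, h2, map_mul, ← hj, hvg w] at h1
    have hl : w.1 lam ≠ 0 := (Valuation.ne_zero_iff w.1).mpr hlam0
    have h3 := (log_le_log (mul_ne_zero hl (pow_ne_zero _ (hvγ w)))
      (mul_ne_zero (pow_ne_zero _ (hvγ w)) hβ0)).mpr h1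
    rw [log_mul hl (pow_ne_zero _ (hvγ w)), log_mul (pow_ne_zero _ (hvγ w)) hβ0,
      log_pow, log_pow, nsmul_eq_mul, nsmul_eq_mul, Nat.cast_sub hd] at h3
    push_cast at h3 hβl ⊢
    linarith
  -- summation
  have hX1 : (![1, algebraMap κ[X] M X] : Fin 2 → M) ≠ 0 := by
    intro h
    have h1 := congrFun h 0
    simp at h1
  let P : Finset (Place κ M) := (vmax_finite hγ).toFinset ∪ (place_finite hlam0).toFinset ∪
    (ramIdx_finite (κ := κ) (K := RatFunc κ) (L := M)).toFinset ∪ (vmax_finite hX1).toFinset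
  have hP : ∀ v ∉ P, vmax v.1 γ = 1 ∧ v.1 lam = 1 ∧ ramIdx (RatFunc κ) v.1 = 1 ∧
      vmax v.1 ![1, algebraMap κ[X] M X] = 1 := by
    intro v hv
    simp only [P, Finset.mem_union, Set.Finite.mem_toFinset, not_or, Set.mem_ofPred_eq,
      not_not] at hv
    exact ⟨hv.1.1.1, hv.1.1.2, hv.1.2, hv.2⟩
  have hsum := Finset.sum_le_sum fun v (_ : v ∈ P) => hloc v
  simp only [Finset.sum_add_distrib, ← Finset.mul_sum] at hsum
  have e1 : ∑ v ∈ P, log (v.1 lam) = 0 := by
    rw [← product_formula (κ := κ) hlam0]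
    symm
    refine finsum_eq_sum_of_support_subset _ fun v hv => ?_
    by_contra hvP
    apply hv
    simp only
    rw [(hP v hvP).2.1, log_one]
  have e2 : ∑ v ∈ P, log (vmax v.1 γ) = height κ γ := by
    symm
    refine finsum_eq_sum_of_support_subset _ fun v hv => ?_
    by_contra hvP
    apply hv
    simp only
    rw [(hP v hvP).1, log_one]
  have e3 : ∑ v ∈ P, log (vmax v.1 ![1, algebraMap κ[X] M X]) =
      height κ ![1, algebraMap κ[X] M X] := by
    symm
    refine finsum_eq_sum_of_support_subset _ fun v hv => ?_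
    by_contra hvP
    apply hv
    simp only
    rw [(hP v hvP).2.2.2, log_one]
  have e4 : ∑ v ∈ P, ((ramIdx (RatFunc κ) v.1 - 1 : ℕ) : ℤ) = (ramDeg κ M (RatFunc κ) : ℤ) := by
    rw [← Nat.cast_sum]
    congr 1
    symm
    refine finsum_eq_sum_of_support_subset _ fun v hv => ?_
    by_contra hvP
    apply hv
    simp only
    rw [(hP v hvP).2.2.1, Nat.sub_self]
  rw [e1, e2, e3, e4, zero_add] at hsum
  rw [hfin]
  exact hsum

/-- **Adjunction.** -/
theorem adj_genus {m d : ℕ} (hd : 1 ≤ d) {a : (Fin (m + 3) →₀ ℕ) → κ}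
    (hsm : ∀ u : Fin (m + 3) → κ, u ≠ 0 → ∃ j, grad d a u j ≠ 0) (D : Derivation ℤ M M)
    (hκ : ∀ u : κ, D (algebraMap κ M u) = 0) (hX : D (algebraMap κ[X] M X) = 1)
    (E : Fin m → Derivation ℤ M M)
    (hEκ : ∀ i, ∀ u : κ, ∃ u' : κ, E i (algebraMap κ M u) = algebraMap κ M u')
    (hEX : ∀ i, ∃ u : κ, E i (algebraMap κ[X] M X) = algebraMap κ M u)
    (hEa : ∀ i, ∀ I ∈ expo (Fin (m + 3)) d, E i (algebraMap κ M (a I)) = 0)
    {γ : Fin (m + 3) → M} (hF : Fval d (fun I => algebraMap κ M (a I)) γ = 0)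
    {r : Fin (m + 3) → M}
    (hdet : (consMat r (Fin.cons γ (Fin.cons (fun k => D (γ k)) fun i k => E i (γ k)))).det ≠ 0) :
    ((d : ℤ) - (m + 3)) * height κ γ + 2 ≤ 2 * genus κ M := by
  have htow : IsScalarTower κ (RatFunc κ) M := by
    refine IsScalarTower.of_algebraMap_eq fun c => ?_
    rw [IsScalarTower.algebraMap_apply κ κ[X] M, IsScalarTower.algebraMap_apply κ[X] (RatFunc κ) M,
      ← IsScalarTower.algebraMap_apply κ κ[X] (RatFunc κ)]
  have h1 := wedge_global_inf hd hsm D hκ hX E hEκ hEX hEa hF hdet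
  have h2 := ramDeg_le κ M
  have h3 : ((d : ℤ) - (m + 3)) * height κ γ =
      ((d : ℤ) - 1) * height κ γ - (m + 2) * height κ γ := by ring
  rw [h3]
  linarith

end

end Pool.Agent.Lib.MP_44a246_ntSH
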