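import Mathlib
import Pool.Agent.Lib.MP_44a246_ntSH.CV02
import Pool.Agent.Lib.MP_44a246_ntS.SP4
import Pool.Agent.Lib.MP_44a246_ntU.U07

/-!
Adjunction for curves in complete intersections: the local estimate, the gradients of several forms,
and linear algebra.
-/

namespace Pool.Agent.Lib.MP_44a246_ntSH

open Pool.Agent.Lib.MP_e52354_nt
open Pool.Agent.Lib.MP_44a246_nt
open Pool.Agent.Lib.MP_44a246_ntL
open Pool.Agent.Lib.MP_44a246_ntR
open Pool.Agent.Lib.MP_44a246_ntS
open Pool.Agent.Lib.MP_44a246_ntE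
open WithZero Polynomial

section

variable {κ M : Type*} [Field κ] [IsAlgClosed κ] [CharZero κ] [Field M] [Algebra κ M]
  [Algebra κ[X] M] [IsScalarTower κ κ[X] M]
  [Algebra (RatFunc κ) M] [IsScalarTower κ[X] (RatFunc κ) M]
  [Algebra (Rinf κ) M] [IsScalarTower (Rinf κ) (RatFunc κ) M]
  [FiniteDimensional (RatFunc κ) M]

/-- the local estimate of the determinant, with several integral rows -/
theorem wedge_place_genP (w : Place κ M) {m N p : ℕ} (D : Derivation ℤ M M)
    (hκ : ∀ u : κ, D (algebraMap κ M u) = 0) (hX : D (algebraMap κ[X] M X) = 1)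
    {β : ℤᵐ⁰} (hβ : ∀ y, w.1 y ≤ 1 → w.1 (D y) ≤ β)
    (E : Fin m → Derivation ℤ M M)
    (hEκ : ∀ i, ∀ u : κ, ∃ u' : κ, E i (algebraMap κ M u) = algebraMap κ M u')
    (hEX : ∀ i, ∃ u : κ, E i (algebraMap κ[X] M X) = algebraMap κ M u)
    {γ : Fin N → M} (hγ : γ ≠ 0) {u : Fin p → Fin N → M} (hu : ∀ i k, w.1 (u i k) ≤ 1)
    (J : Fin p ⊕ Fin (m + 2) → Fin N) :
    w.1 (Matrix.of fun i k => (Sum.elim u (Fin.cons γ (Fin.cons (fun k => D (γ k))
        fun i k => E i (γ k))) : Fin p ⊕ Fin (m + 2) → Fin N → M) i (J k)).det ≤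
      vmax w.1 γ ^ (m + 2) * β := by
  classical
  obtain ⟨l, hl0, hlv, hlmax⟩ := exists_vmax w.1 hγ
  obtain ⟨π, hπ⟩ := w.2.1 (exp (-1 : ℤ))
  set e : ℕ := ramIdx (RatFunc κ) w.1 - 1 with he
  have hDκ : ∀ u : κ, ∃ u' : κ, D (algebraMap κ M u) = algebraMap κ M u' := fun u =>
    ⟨0, by rw [hκ u, map_zero]⟩
  have hDX : ∃ u : κ, D (algebraMap κ[X] M X) = algebraMap κ M u := ⟨1, by rw [hX, map_one]⟩
  have hDπ : D π ≠ 0 := der_unif_ne w D hκ hX hπ
  have hDp : ∀ y, w.1 y ≤ 1 → w.1 (D y) ≤ exp (e : ℤ) := fun y hy => der_place w D hDκ hDX hy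
  have hEp : ∀ i, ∀ y, w.1 y ≤ 1 → w.1 (E i y) ≤ exp (e : ℤ) := fun i y hy =>
    der_place w (E i) (hEκ i) (hEX i) hy
  -- the corrected derivations
  set c : Fin m → M := fun i => E i π / D π with hc
  set E' : Fin m → Derivation ℤ M M := fun i => E i - c i • D with hE'
  have hE'a : ∀ i y, E' i y = E i y - c i * D y := fun i y => rfl
  have hE'κ : ∀ i, ∀ u : κ, ∃ u' : κ, E' i (algebraMap κ M u) = algebraMap κ M u' := by
    intro i u
    obtain ⟨u', hu'⟩ := hEκ i u
    exact ⟨u', by rw [hE'a, hκ, mul_zero, sub_zero, hu']⟩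
  have hE'π : ∀ i, E' i π = 0 := by
    intro i
    rw [hE'a, hc]
    simp only
    rw [div_mul_cancel₀ _ hDπ, sub_self]
  have hE'p : ∀ i, ∀ y, w.1 y ≤ 1 → w.1 (E' i y) ≤ 1 := by
    intro i y hy
    have hcle : w.1 (c i) ≤ exp (((log (w.1 (c i))).toNat : ℕ) : ℤ) := by
      by_cases h0 : w.1 (c i) = 0
      · rw [h0]; exact zero_le
      · conv_lhs => rw [← exp_log h0]
        rw [exp_le_exp]
        exact Int.self_le_toNat _
    refine der_int w (E' i) (hE'κ i) (N := (log (w.1 (c i))).toNat + e) ?_ hπ (hE'π i) hy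
    intro z hz
    rw [hE'a]
    refine (w.1.map_sub _ _).trans (max_le ?_ ?_)
    · refine (hEp i z hz).trans ?_
      rw [exp_le_exp]
      push_cast
      have : (0 : ℤ) ≤ ((log (w.1 (c i))).toNat : ℤ) := Int.natCast_nonneg _
      linarith
    · rw [map_mul]
      refine (mul_le_mul' hcle (hDp z hz)).trans (le_of_eq ?_)
      rw [← exp_add]
      push_cast
      rfl
  -- the normalised vector
  set q : Fin N → M := fun k => γ k / γ l with hq
  have hγq : ∀ k, γ k = γ l * q k := fun k => by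
    rw [hq]
    simp only
    rw [mul_div_cancel₀ _ hl0]
  have hvl : w.1 (γ l) ≠ 0 := (Valuation.ne_zero_iff w.1).mpr hl0
  have hqv : ∀ k, w.1 (q k) ≤ 1 := by
    intro k
    rw [hq]
    simp only
    rw [map_div₀]
    exact div_le_one_of_le₀ (hlmax k) zero_le
  -- the matrices
  set R₀ : Fin p ⊕ Fin (m + 2) → Fin N → M := Sum.elim u (Fin.cons γ (Fin.cons (fun k => D (γ k))
        fun i k => E i (γ k))) with hR₀
  set R₁ : Fin p ⊕ Fin (m + 2) → Fin N → M := Sum.elim u (Fin.cons q
    (Fin.cons (fun k => (γ l)⁻¹ * D (γ k)) fun i k => (γ l)⁻¹ * E i (γ k))) with hR₁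
  set R₂ : Fin p ⊕ Fin (m + 2) → Fin N → M := Sum.elim u (Fin.cons q
    (Fin.cons (fun k => D (q k)) fun i k => E i (q k))) with hR₂
  set R₃ : Fin p ⊕ Fin (m + 2) → Fin N → M := Sum.elim u (Fin.cons q
    (Fin.cons (fun k => D (q k)) fun i k => E' i (q k))) with hR₃
  have d1 : (Matrix.of fun i k => R₀ i (J k)).det =
      γ l ^ (m + 2) * (Matrix.of fun i k => R₁ i (J k)).det := by
    have h1 : (Matrix.of fun i k => R₀ i (J k)) = Matrix.of fun i k =>
        (Sum.elim (fun _ => 1) (fun _ => γ l) : Fin p ⊕ Fin (m + 2) → M) i *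
          (Matrix.of fun i k => R₁ i (J k)) i k := by
      ext i k
      rcases i with i | i
      · simp only [hR₀, hR₁, Matrix.of_apply, Sum.elim_inl, one_mul]
      · refine Fin.cases ?_ (fun i => Fin.cases ?_ (fun i => ?_) i) i
        · simp only [hR₀, hR₁, Matrix.of_apply, Sum.elim_inr, Fin.cons_zero]
          exact hγq (J k)
        · simp only [hR₀, hR₁, Matrix.of_apply, Sum.elim_inr, Fin.cons_succ, Fin.cons_zero]
          rw [mul_inv_cancel_left₀ hl0]
        · simp only [hR₀, hR₁, Matrix.of_apply, Sum.elim_inr, Fin.cons_succ]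
          rw [mul_inv_cancel_left₀ hl0]
    rw [h1, Matrix.det_mul_column, Fintype.prod_sum_type]
    simp
  have hder : ∀ (F : Derivation ℤ M M) (k : Fin N),
      (γ l)⁻¹ * F (γ k) = F (q k) + (γ l)⁻¹ * F (γ l) * q k := by
    intro F k
    conv_lhs => rw [hγq k]
    rw [Derivation.leibniz, smul_eq_mul, smul_eq_mul]
    field_simp
  have d2 : (Matrix.of fun i k => R₁ i (J k)).det = (Matrix.of fun i k => R₂ i (J k)).det := by
    refine Matrix.det_eq_of_forall_row_eq_smul_add_const
      (Sum.elim (fun _ => 0) (Fin.cons 0 (Fin.cons ((γ l)⁻¹ * D (γ l))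
        fun i => (γ l)⁻¹ * E i (γ l))) : Fin p ⊕ Fin (m + 2) → M) (Sum.inr 0) ?_ ?_
    · simp
    · intro i k
      rcases i with i | i
      · simp [hR₁, hR₂]
      · refine Fin.cases ?_ (fun i => Fin.cases ?_ (fun i => ?_) i) i
        · simp [hR₁, hR₂]
        · simp only [hR₁, hR₂, Matrix.of_apply, Sum.elim_inr, Fin.cons_succ, Fin.cons_zero]
          exact hder D (J k)
        · simp only [hR₁, hR₂, Matrix.of_apply, Sum.elim_inr, Fin.cons_succ, Fin.cons_zero]
          exact hder (E i) (J k)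
  have d3 : (Matrix.of fun i k => R₂ i (J k)).det = (Matrix.of fun i k => R₃ i (J k)).det := by
    refine Matrix.det_eq_of_forall_row_eq_smul_add_const
      (Sum.elim (fun _ => 0) (Fin.cons 0 (Fin.cons 0 c)) : Fin p ⊕ Fin (m + 2) → M)
        (Sum.inr (Fin.succ 0)) ?_ ?_
    · rw [Sum.elim_inr, Fin.cons_succ, Fin.cons_zero]
    · intro i k
      rcases i with i | i
      · simp [hR₂, hR₃]
      · refine Fin.cases ?_ (fun i => Fin.cases ?_ (fun i => ?_) i) i
        · simp [hR₂, hR₃]
        · simp only [hR₂, hR₃, Matrix.of_apply, Sum.elim_inr, Fin.cons_succ, Fin.cons_zero,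
            zero_mul, add_zero]
        · simp only [hR₂, hR₃, Matrix.of_apply, Sum.elim_inr, Fin.cons_succ, Fin.cons_zero]
          rw [hE'a, sub_add_cancel]
  have d4 : w.1 (Matrix.of fun i k => R₃ i (J k)).det ≤ β := by
    refine (det_weights w.1 _ (Sum.elim (fun _ => 1) (Fin.cons 1 (Fin.cons β fun _ => 1)) :
      Fin p ⊕ Fin (m + 2) → ℤᵐ⁰) (fun _ => 1) ?_).trans (le_of_eq ?_)
    · intro i k
      rw [mul_one]
      rcases i with i | i
      · exact hu i (J k)
      · refine Fin.cases ?_ (fun i => Fin.cases ?_ (fun i => ?_) i) i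
        · simp only [hR₃, Matrix.of_apply, Sum.elim_inr, Fin.cons_zero]
          exact hqv (J k)
        · simp only [hR₃, Matrix.of_apply, Sum.elim_inr, Fin.cons_succ, Fin.cons_zero]
          exact hβ _ (hqv (J k))
        · simp only [hR₃, Matrix.of_apply, Sum.elim_inr, Fin.cons_succ]
          exact hE'p i _ (hqv (J k))
    · rw [Finset.prod_const_one, mul_one, Fintype.prod_sum_type, Fin.prod_univ_succ,
        Fin.prod_univ_succ]
      simp only [Sum.elim_inl, Sum.elim_inr, Fin.cons_succ, Fin.cons_zero, one_mul,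
        Finset.prod_const_one, mul_one]
  rw [d1, d2, d3, map_mul, map_pow, hlv]
  exact mul_le_mul' le_rfl d4

end

/-- **Linear algebra.** The maximal minors of a matrix `A` whose rows are orthogonal to the rows of
`G` are proportional to the complementary minors of `G`. -/
theorem exists_lam {M : Type*} [Field M] {p m N : ℕ} (J : Fin p ⊕ Fin m ≃ Fin N)
    {G : Fin p → Fin N → M} (hG : LinearIndependent M G) {A : Fin m → Fin N → M}
    (hA : ∀ b i, ∑ k, G b k * A i k = 0) :
    ∃ lam : M, ∀ R : Fin p → Fin N → M,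
      (Matrix.of fun i k => (Sum.elim R A : Fin p ⊕ Fin m → Fin N → M) i (J k)).det =
        lam * (Matrix.of fun i b => ∑ k, R i k * G b k).det := by
  classical
  -- extension to a basis
  obtain ⟨C, hC⟩ : ∃ C : Fin m → Fin N → M, (Matrix.of fun i k =>
      (Sum.elim G C : Fin p ⊕ Fin m → Fin N → M) i (J k)).det ≠ 0 := by
    have hN : p + m = N := by
      have h1 := Fintype.card_congr J
      simpa using h1
    set W : Submodule M (Fin N → M) := Submodule.span M (Set.range G) with hW
    have hWf : Module.finrank M W = p := by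
      rw [hW, finrank_span_eq_card hG, Fintype.card_fin]
    obtain ⟨W', hW'⟩ := W.exists_isCompl
    have hWf' : Module.finrank M W' = m := by
      have h1 := Submodule.finrank_add_eq_of_isCompl hW'
      rw [Module.finrank_fin_fun, hWf] at h1
      omega
    let bW' := (Module.finBasisOfFinrankEq M W' hWf')
    refine ⟨fun i => (bW' i : Fin N → M), ?_⟩
    have hli : LinearIndependent M (Sum.elim G fun i => (bW' i : Fin N → M)) := by
      refine LinearIndependent.sum_type hG (bW'.linearIndependent.map' W'.subtype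
        (Submodule.ker_subtype _)) ?_
      refine hW'.disjoint.mono le_rfl ?_
      rw [Submodule.span_le]
      rintro _ ⟨i, rfl⟩
      exact (bW' i).2
    have h2 : LinearIndependent M (Matrix.of fun i k =>
        (Sum.elim G (fun i => (bW' i : Fin N → M)) : Fin p ⊕ Fin m → Fin N → M) i (J k)).row := by
      have h3 := hli.map' (LinearMap.funLeft M M J)
        (LinearMap.ker_eq_bot.2 (LinearMap.funLeft_injective_of_surjective M M J J.surjective))
      exact h3
    rw [Matrix.linearIndependent_rows_iff_isUnit, Matrix.isUnit_iff_isUnit_det] at h2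
    exact h2.ne_zero
  set Q : Matrix (Fin p ⊕ Fin m) (Fin p ⊕ Fin m) M := Matrix.of fun i k =>
      (Sum.elim G C : Fin p ⊕ Fin m → Fin N → M) i (J k) with hQ
  set T : Matrix (Fin m) (Fin m) M := Matrix.of fun i b => ∑ k, A i k * C b k with hT
  refine ⟨T.det / Q.det, fun R => ?_⟩
  set P : Matrix (Fin p ⊕ Fin m) (Fin p ⊕ Fin m) M := Matrix.of fun i k =>
      (Sum.elim R A : Fin p ⊕ Fin m → Fin N → M) i (J k) with hP
  have h1 : P * Q.transpose = Matrix.fromBlocks (Matrix.of fun i b => ∑ k, R i k * G b k)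
      (Matrix.of fun i b => ∑ k, R i k * C b k) 0 T := by
    ext i b
    have h2 : ∀ (f g : Fin N → M), ∑ k : Fin p ⊕ Fin m, f (J k) * g (J k) = ∑ k, f k * g k :=
      fun f g => J.sum_comp fun k => f k * g k
    rw [Matrix.mul_apply]
    simp only [Matrix.transpose_apply, hP, hQ, Matrix.of_apply]
    rw [h2]
    rcases i with i | i <;> rcases b with b | b
    · rfl
    · rfl
    · simp only [Sum.elim_inl, Sum.elim_inr, Matrix.fromBlocks_apply₂₁, Matrix.zero_apply]
      rw [← hA b i]
      exact Finset.sum_congr rfl fun k _ => mul_comm _ _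
    · rfl
  have h3 := congrArg Matrix.det h1
  rw [Matrix.det_mul, Matrix.det_transpose, Matrix.det_fromBlocks_zero₂₁] at h3
  rw [div_mul_eq_mul_div, eq_div_iff hC, h3, mul_comm]

/-- the gradients of the forms of a smooth complete intersection at a point -/
theorem exists_minor_grad {κ M : Type*} [Field κ] [Field M] [Algebra κ M] (w : Place κ M)
    (hres : ∀ y, w.1 y ≤ 1 → ∃ c : κ, w.1 (y - algebraMap κ M c) < 1) {s p : ℕ} {d : Fin p → ℕ}
    (hd : ∀ b, 1 ≤ d b) {a : Fin p → (Fin s →₀ ℕ) → κ}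
    (hsm : ∀ u : Fin s → κ, u ≠ 0 → (∀ b, Fval (d b) (a b) u = 0) →
      LinearIndependent κ fun b => grad (d b) (a b) u)
    {γ : Fin s → M} (hγ : γ ≠ 0) (hF : ∀ b, Fval (d b) (fun I => algebraMap κ M (a b I)) γ = 0) :
    ∃ J : Fin p → Fin s, w.1 (Matrix.of fun b i =>
      grad (d b) (fun I => algebraMap κ M (a b I)) γ (J i)).det =
        vmax w.1 γ ^ (∑ b, (d b - 1)) := by
  classical
  obtain ⟨l, hl0, hlv, hle⟩ := exists_vmax w.1 hγ
  have hwl : w.1 (γ l) ≠ 0 := (Valuation.ne_zero_iff w.1).mpr hl0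
  set q : Fin s → M := fun k => γ k / γ l with hq
  have hγq : γ = fun k => γ l * q k := by
    funext k
    simp only [hq]
    field_simp
  have hq1 : ∀ k, w.1 (q k) ≤ 1 := by
    intro k
    simp only [hq]
    rw [map_div₀]
    exact div_le_one_of_le₀ (hle k) zero_le
  choose u hu using fun k => hres (q k) (hq1 k)
  have hmem : ∀ k, (q k, u k) ∈ congSub w := fun k => (mem_congSub w).mpr ⟨hq1 k, hu k⟩
  have hconst : ∀ c : κ, (algebraMap κ M c, c) ∈ congSub w := by
    intro c
    rw [mem_congSub, sub_self, map_zero]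
    refine ⟨?_, zero_lt_one⟩
    by_cases h : c = 0
    · rw [h, map_zero, map_zero]; exact zero_le_one
    · exact (w.2.2 c h).le
  have hmon : ∀ I : Fin s →₀ ℕ, (mon q I, mon u I) ∈ congSub w := by
    intro I
    have h1 : (mon q I, mon u I) = ∏ j, ((q j, u j) : M × κ) ^ I j := by
      apply Prod.ext
      · rw [Prod.fst_prod]; rfl
      · rw [Prod.snd_prod]; rfl
    rw [h1]
    exact Subring.prod_mem _ fun j _ => Subring.pow_mem _ (hmem j) _
  have hgrad : ∀ b j, (grad (d b) (fun I => algebraMap κ M (a b I)) q j,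
      grad (d b) (a b) u j) ∈ congSub w := by
    intro b j
    have h1 : (grad (d b) (fun I => algebraMap κ M (a b I)) q j, grad (d b) (a b) u j) =
        ∑ I ∈ expo (Fin s) (d b), ((algebraMap κ M (a b I), a b I) : M × κ) * ((I j : ℕ) : M × κ) *
          (mon q (I - Finsupp.single j 1), mon u (I - Finsupp.single j 1)) := by
      apply Prod.ext
      · rw [Prod.fst_sum]; rfl
      · rw [Prod.snd_sum]; rfl
    rw [h1]
    exact Subring.sum_mem _ fun I _ => Subring.mul_mem _ (Subring.mul_mem _ (hconst _)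
      (natCast_mem _ _)) (hmon _)
  have hFval : ∀ b, (Fval (d b) (fun I => algebraMap κ M (a b I)) q, Fval (d b) (a b) u) ∈
      congSub w := by
    intro b
    have h1 : (Fval (d b) (fun I => algebraMap κ M (a b I)) q, Fval (d b) (a b) u) =
        ∑ I ∈ expo (Fin s) (d b), ((algebraMap κ M (a b I), a b I) : M × κ) *
          (mon q I, mon u I) := by
      apply Prod.ext
      · rw [Prod.fst_sum]; rfl
      · rw [Prod.snd_sum]; rfl
    rw [h1]
    exact Subring.sum_mem _ fun I _ => Subring.mul_mem _ (hconst _) (hmon _)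
  have hu0 : u ≠ 0 := by
    intro h
    have h1 := hu l
    rw [h, Pi.zero_apply, map_zero, sub_zero] at h1
    simp only [hq] at h1
    rw [div_self hl0, map_one] at h1
    exact lt_irrefl _ h1
  have hone : ∀ (y : M) (c : κ), (y, c) ∈ congSub w → c ≠ 0 → w.1 y = 1 := by
    intro y c hyc hc
    obtain ⟨h1, h2⟩ := (mem_congSub w).mp hyc
    refine le_antisymm h1 ?_
    by_contra hcon
    push Not at hcon
    have h3 : algebraMap κ M c = y - (y - algebraMap κ M c) := by ring
    have h4 : w.1 (algebraMap κ M c) < 1 := by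
      rw [h3]
      exact lt_of_le_of_lt (w.1.map_sub _ _) (max_lt hcon h2)
    rw [w.2.2 _ hc] at h4
    exact lt_irrefl _ h4
  have hFq : ∀ b, Fval (d b) (fun I => algebraMap κ M (a b I)) q = 0 := by
    intro b
    have h1 := hF b
    rw [hγq, Fval_smul] at h1
    exact (mul_eq_zero.1 h1).resolve_left (pow_ne_zero _ hl0)
  have hFu : ∀ b, Fval (d b) (a b) u = 0 := by
    intro b
    by_contra hcon
    have h1 := hone _ _ (hFval b) hcon
    rw [hFq, map_zero] at h1
    exact zero_ne_one h1
  obtain ⟨J, hJ⟩ := Pool.Agent.Lib.MP_44a246_ntU.exists_minor_ne (hsm u hu0 hFu)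
  refine ⟨J, ?_⟩
  have h1 : ((Matrix.of fun b i => grad (d b) (fun I => algebraMap κ M (a b I)) q (J i)).det,
      (Matrix.of fun b i => grad (d b) (a b) u (J i)).det) ∈ congSub w := by
    have h2 : ((Matrix.of fun b i => grad (d b) (fun I => algebraMap κ M (a b I)) q (J i)).det,
        (Matrix.of fun b i => grad (d b) (a b) u (J i)).det) =
        ∑ σ : Equiv.Perm (Fin p), ((Equiv.Perm.sign σ : ℤ) : M × κ) *
          ∏ i, ((grad (d (σ i)) (fun I => algebraMap κ M (a (σ i) I)) q (J i),
            grad (d (σ i)) (a (σ i)) u (J i)) : M × κ) := by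
      apply Prod.ext
      · rw [Prod.fst_sum, Matrix.det_apply']
        refine Finset.sum_congr rfl fun σ _ => ?_
        rw [Prod.fst_mul, Prod.fst_prod]
        simp
      · show (Matrix.of fun b i => grad (d b) (a b) u (J i)).det = _
        rw [Prod.snd_sum, Matrix.det_apply']
        refine Finset.sum_congr rfl fun σ _ => ?_
        rw [Prod.snd_mul, Prod.snd_prod]
        simp
    rw [h2]
    exact Subring.sum_mem _ fun σ _ => Subring.mul_mem _ (intCast_mem _ _)
      (Subring.prod_mem _ fun i _ => hgrad _ _)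
  have h3 := hone _ _ h1 hJ
  have h4 : (Matrix.of fun b i => grad (d b) (fun I => algebraMap κ M (a b I)) γ (J i)) =
      Matrix.of fun b i => γ l ^ (d b - 1) *
        (Matrix.of fun b i => grad (d b) (fun I => algebraMap κ M (a b I)) q (J i)) b i := by
    ext b i
    rw [Matrix.of_apply, Matrix.of_apply, Matrix.of_apply]
    conv_lhs => rw [hγq]
    exact grad_homog (hd b) _ _ _ _
  rw [h4, Matrix.det_mul_column, map_mul, h3, mul_one, map_prod, hlv]
  simp only [map_pow]
  exact Finset.prod_pow_eq_pow_sum _ _ _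

end Pool.Agent.Lib.MP_44a246_ntSH
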