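import Mathlib
import Pool.Agent.Lib.MP_44a246_ntSH.CP01

/-!
Adjunction for the curves of a family which covers a complete intersection.
-/

namespace Pool.Agent.Lib.MP_44a246_ntSH

open Pool.Agent.Lib.MP_e52354_nt
open Pool.Agent.Lib.MP_44a246_nt
open Pool.Agent.Lib.MP_44a246_ntL
open Pool.Agent.Lib.MP_44a246_ntR
open Pool.Agent.Lib.MP_44a246_ntS
open Pool.Agent.Lib.MP_44a246_ntE
open WithZero Polynomial

/-- forms with algebraically independent coefficients define a smooth complete intersection -/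
theorem smooth_of_derP {κ : Type*} [Field κ] {n p : ℕ} {d : Fin p → ℕ}
    {a : Fin p → (Fin n →₀ ℕ) → κ} (W : Fin p → (Fin n →₀ ℕ) → Derivation ℤ κ κ)
    (hW : ∀ b, ∀ I ∈ expo (Fin n) (d b), ∀ b', ∀ J ∈ expo (Fin n) (d b'),
      W b I (a b' J) = if (b, I) = (b', J) then 1 else 0)
    (u : Fin n → κ) (hu : u ≠ 0) (hF : ∀ b, Fval (d b) (a b) u = 0) :
    LinearIndependent κ fun b => grad (d b) (a b) u := by
  classical
  rw [Fintype.linearIndependent_iff]
  intro c hc b
  obtain ⟨l, hl⟩ : ∃ l, u l ≠ 0 := by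
    by_contra hcon
    push Not at hcon
    exact hu (funext hcon)
  have hI : Finsupp.single l (d b) ∈ expo (Fin n) (d b) := by
    rw [mem_expo, Finsupp.degree_single]
  have h1 : ∀ b', (∑ j, grad (d b') (a b') u j * W b (Finsupp.single l (d b)) (u j)) =
      - if b = b' then mon u (Finsupp.single l (d b)) else 0 := by
    intro b'
    have h2 := D_Fval (d b') (a b') (W b (Finsupp.single l (d b))) u
    rw [hF b', map_zero] at h2
    have h3 : ∑ J ∈ expo (Fin n) (d b'), W b (Finsupp.single l (d b)) (a b' J) * mon u J =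
        if b = b' then mon u (Finsupp.single l (d b)) else 0 := by
      rw [Finset.sum_congr rfl fun J hJ => by rw [hW b _ hI b' J hJ]]
      by_cases hb : b = b'
      · subst hb
        rw [if_pos rfl, Finset.sum_eq_single (Finsupp.single l (d b))]
        · rw [if_pos rfl, one_mul]
        · intro J _ hJ
          rw [if_neg, zero_mul]
          intro h
          exact hJ (congrArg Prod.snd h).symm
        · intro h
          exact absurd hI h
      · rw [if_neg hb]
        refine Finset.sum_eq_zero fun J _ => ?_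
        rw [if_neg, zero_mul]
        intro h
        exact hb (congrArg Prod.fst h)
    rw [h3] at h2
    exact eq_neg_of_add_eq_zero_right h2.symm
  have h2 : ∑ b', c b' * ∑ j, grad (d b') (a b') u j * W b (Finsupp.single l (d b)) (u j) = 0 := by
    have h3 : ∀ j, ∑ b', c b' * grad (d b') (a b') u j = 0 := by
      intro j
      have h4 := congrFun hc j
      rw [Finset.sum_apply] at h4
      simpa [Pi.smul_apply, smul_eq_mul] using h4
    calc _ = ∑ j, (∑ b', c b' * grad (d b') (a b') u j) * W b (Finsupp.single l (d b)) (u j) := by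
          simp only [Finset.mul_sum, Finset.sum_mul]
          rw [Finset.sum_comm]
          exact Finset.sum_congr rfl fun j _ => Finset.sum_congr rfl fun b' _ => by ring
      _ = 0 := Finset.sum_eq_zero fun j _ => by rw [h3, zero_mul]
  simp only [h1] at h2
  rw [Finset.sum_eq_single b] at h2
  · rw [if_pos rfl, mul_neg, neg_eq_zero] at h2
    refine (mul_eq_zero.1 h2).resolve_right ?_
    unfold mon
    rw [Finset.prod_eq_single l]
    · rw [Finsupp.single_eq_same]
      exact pow_ne_zero _ hl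
    · intro k _ hk
      rw [Finsupp.single_eq_of_ne hk, pow_zero]
    · intro h
      exact absurd (Finset.mem_univ l) h
  · intro b' _ hb'
    rw [if_neg (Ne.symm hb'), neg_zero, mul_zero]
  · intro h
    exact absurd (Finset.mem_univ b) h

section

variable {κ M : Type*} [Field κ] [IsAlgClosed κ] [CharZero κ] [Field M] [Algebra κ M]
  [Algebra κ[X] M] [IsScalarTower κ κ[X] M]
  [Algebra (RatFunc κ) M] [IsScalarTower κ[X] (RatFunc κ) M]
  [Algebra (Rinf κ) M] [IsScalarTower (Rinf κ) (RatFunc κ) M]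
  [FiniteDimensional (RatFunc κ) M]

/-- **The global inequality** for `p` forms, with the gain at the poles of `X`. -/
theorem wedge_global_infP {m N p : ℕ} (hN : p + (m + 2) = N) {d : Fin p → ℕ}
    (hd : ∀ b, 1 ≤ d b) {a : Fin p → (Fin N →₀ ℕ) → κ}
    (hsm : ∀ u : Fin N → κ, u ≠ 0 → (∀ b, Fval (d b) (a b) u = 0) →
      LinearIndependent κ fun b => grad (d b) (a b) u)
    (D : Derivation ℤ M M)
    (hκ : ∀ u : κ, D (algebraMap κ M u) = 0) (hX : D (algebraMap κ[X] M X) = 1)
    (E : Fin m → Derivation ℤ M M)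
    (hEκ : ∀ i, ∀ u : κ, ∃ u' : κ, E i (algebraMap κ M u) = algebraMap κ M u')
    (hEX : ∀ i, ∃ u : κ, E i (algebraMap κ[X] M X) = algebraMap κ M u)
    (hEa : ∀ i b, ∀ I ∈ expo (Fin N) (d b), E i (algebraMap κ M (a b I)) = 0)
    {γ : Fin N → M} (hF : ∀ b, Fval (d b) (fun I => algebraMap κ M (a b I)) γ = 0)
    (hind : LinearIndependent M (Fin.cons γ (Fin.cons (fun k => D (γ k)) fun i k => E i (γ k)) :
      Fin (m + 2) → Fin N → M)) :
    (∑ b, ((d b : ℤ) - 1)) * height κ γ + 2 * Module.finrank (RatFunc κ) M ≤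
      (m + 2) * height κ γ + ramDeg κ M (RatFunc κ) := by
  classical
  set aM : Fin p → (Fin N →₀ ℕ) → M := fun b I => algebraMap κ M (a b I) with haM
  set G : Fin p → Fin N → M := fun b => grad (d b) (aM b) γ with hG
  set A : Fin (m + 2) → Fin N → M :=
    Fin.cons γ (Fin.cons (fun k => D (γ k)) fun i k => E i (γ k)) with hA
  have hγ : γ ≠ 0 := hind.ne_zero 0
  have htow : IsScalarTower κ (RatFunc κ) M := by
    refine IsScalarTower.of_algebraMap_eq fun c => ?_
    rw [IsScalarTower.algebraMap_apply κ κ[X] M, IsScalarTower.algebraMap_apply κ[X] (RatFunc κ) M,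
      ← IsScalarTower.algebraMap_apply κ κ[X] (RatFunc κ)]
  have hXeq : tL κ M = algebraMap κ[X] M X := by
    unfold tL
    rw [IsScalarTower.algebraMap_apply κ[X] (RatFunc κ) M, RatFunc.algebraMap_X]
  have hfin : (Module.finrank (RatFunc κ) M : ℤ) = height κ ![1, algebraMap κ[X] M X] := by
    rw [finrank_eq_height κ M, hXeq]
  rcases isEmpty_or_nonempty (Place κ M) with hemp | ⟨⟨w₀⟩⟩
  · have h1 : height κ γ = 0 := by
      unfold height
      exact finsum_of_isEmpty _
    have h2 : height κ ![1, algebraMap κ[X] M X] = 0 := by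
      unfold height
      exact finsum_of_isEmpty _
    rw [hfin, h1, h2, mul_zero, mul_zero, mul_zero, zero_add, zero_add]
    exact Int.natCast_nonneg _
  have hmin : ∀ w : Place κ M, ∃ J₀ : Fin p → Fin N,
      w.1 (Matrix.of fun b i => G b (J₀ i)).det = vmax w.1 γ ^ (∑ b, (d b - 1)) := fun w =>
    exists_minor_grad w (fun y hy => place_residue w hy) hd hsm hγ hF
  have hvγ : ∀ w : Place κ M, vmax w.1 γ ≠ 0 := fun w h => hγ ((vmax_eq_zero_iff w.1).mp h)
  have hGi : LinearIndependent M G := by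
    obtain ⟨J₀, hJ₀⟩ := hmin w₀
    refine Pool.Agent.Lib.MP_44a246_ntU.indep_of_minor (J := J₀) ?_
    intro h
    rw [h, map_zero] at hJ₀
    exact pow_ne_zero _ (hvγ w₀) hJ₀.symm
  -- orthogonality
  have horth : ∀ b i, ∑ k, G b k * A i k = 0 := by
    intro b i
    refine Fin.cases ?_ (fun i => ?_) i
    · show ∑ k, G b k * γ k = 0
      rw [hG]
      simp only
      rw [grad_euler, hF, mul_zero]
    · refine Fin.cases ?_ (fun i => ?_) i
      · show ∑ k, G b k * D (γ k) = 0
        have h1 := D_Fval (d b) (aM b) D γ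
        rw [hF, map_zero, Finset.sum_eq_zero (fun I _ => by
          rw [haM]; simp only; rw [hκ, zero_mul]), zero_add] at h1
        exact h1.symm
      · show ∑ k, G b k * E i (γ k) = 0
        have h1 := D_Fval (d b) (aM b) (E i) γ
        rw [hF, map_zero, Finset.sum_eq_zero (fun I hI => by
          rw [haM]; simp only; rw [hEa i b I hI, zero_mul]), zero_add] at h1
        exact h1.symm
  obtain ⟨J⟩ : Nonempty (Fin p ⊕ Fin (m + 2) ≃ Fin N) :=
    ⟨finSumFinEquiv.trans (finCongr hN)⟩
  obtain ⟨lam, hlam⟩ := exists_lam J hGi horth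
  -- the determinant does not vanish
  have hlam0 : lam ≠ 0 := by
    obtain ⟨R, hR⟩ : ∃ R : Fin p → Fin N → M, (Matrix.of fun i k =>
        (Sum.elim R A : Fin p ⊕ Fin (m + 2) → Fin N → M) i (J k)).det ≠ 0 := by
      set W : Submodule M (Fin N → M) := Submodule.span M (Set.range A) with hW
      have hWf : Module.finrank M W = m + 2 := by
        rw [hW, finrank_span_eq_card hind, Fintype.card_fin]
      obtain ⟨W', hW'⟩ := W.exists_isCompl
      have hWf' : Module.finrank M W' = p := by
        have h1 := Submodule.finrank_add_eq_of_isCompl hW'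
        rw [Module.finrank_fin_fun, hWf] at h1
        omega
      let bW' := (Module.finBasisOfFinrankEq M W' hWf')
      refine ⟨fun i => (bW' i : Fin N → M), ?_⟩
      have hli : LinearIndependent M (Sum.elim (fun i => (bW' i : Fin N → M)) A) := by
        refine LinearIndependent.sum_type (bW'.linearIndependent.map' W'.subtype
          (Submodule.ker_subtype _)) hind ?_
        refine hW'.symm.disjoint.mono ?_ le_rfl
        rw [Submodule.span_le]
        rintro _ ⟨i, rfl⟩
        exact (bW' i).2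
      have h2 : LinearIndependent M (Matrix.of fun i k => (Sum.elim (fun i => (bW' i : Fin N → M)) A :
          Fin p ⊕ Fin (m + 2) → Fin N → M) i (J k)).row := by
        have h3 := hli.map' (LinearMap.funLeft M M J)
          (LinearMap.ker_eq_bot.2 (LinearMap.funLeft_injective_of_surjective M M J J.surjective))
        exact h3
      rw [Matrix.linearIndependent_rows_iff_isUnit, Matrix.isUnit_iff_isUnit_det] at h2
      exact h2.ne_zero
    rintro rfl
    apply hR
    rw [hlam, zero_mul]
  -- the local estimate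
  have hsd : ((∑ b, (d b - 1) : ℕ) : ℤ) = ∑ b, ((d b : ℤ) - 1) := by
    push_cast
    refine Finset.sum_congr rfl fun b _ => ?_
    rw [Nat.cast_sub (hd b), Nat.cast_one]
  have hloc : ∀ w : Place κ M, log (w.1 lam) + (∑ b, ((d b : ℤ) - 1)) * log (vmax w.1 γ) +
      2 * log (vmax w.1 ![1, algebraMap κ[X] M X]) ≤
      ((m : ℤ) + 2) * log (vmax w.1 γ) + ((ramIdx (RatFunc κ) w.1 - 1 : ℕ) : ℤ) := by
    intro w
    obtain ⟨β, hβ0, hβ, hβl⟩ : ∃ β : ℤᵐ⁰, β ≠ 0 ∧ (∀ y, w.1 y ≤ 1 → w.1 (D y) ≤ β) ∧
        log β + 2 * log (vmax w.1 ![1, algebraMap κ[X] M X]) ≤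
          ((ramIdx (RatFunc κ) w.1 - 1 : ℕ) : ℤ) := by
      rw [vmax_pair]
      rcases le_or_gt (w.1 (algebraMap κ[X] M X)) 1 with hw | hw
      · refine ⟨exp ((ramIdx (RatFunc κ) w.1 - 1 : ℕ) : ℤ), exp_ne_zero, fun y hy =>
          der_place w D (fun u => ⟨0, by rw [hκ, map_zero]⟩) ⟨1, by rw [hX, map_one]⟩ hy, ?_⟩
        rw [max_eq_left hw, log_one, log_exp, mul_zero, add_zero]
      · have hX0 : w.1 (algebraMap κ[X] M X) ≠ 0 := (lt_trans zero_lt_one hw).ne'
        refine ⟨exp (-1 : ℤ) * (w.1 (algebraMap κ[X] M X))⁻¹,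
          mul_ne_zero exp_ne_zero (inv_ne_zero hX0), fun y hy =>
          der_place_inf w D hκ hX hw hy, ?_⟩
        have h1 := log_le_ramIdx_inf w hw
        have h2 : 0 < log (w.1 (algebraMap κ[X] M X)) := by
          have h3 := (log_lt_log one_ne_zero hX0).mpr hw
          rwa [log_one] at h3
        rw [max_eq_right hw.le, log_mul exp_ne_zero (inv_ne_zero hX0), log_exp, log_inv]
        have h4 : 1 ≤ ramIdx (RatFunc κ) w.1 := by
          have h5 : (0 : ℤ) < (ramIdx (RatFunc κ) w.1 : ℤ) := lt_of_lt_of_le h2 h1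
          exact_mod_cast h5
        rw [Nat.cast_sub h4, Nat.cast_one]
        linarith
    obtain ⟨J₀, hJ₀⟩ := hmin w
    have h1 := wedge_place_genP w D hκ hX hβ E hEκ hEX hγ
      (u := fun i : Fin p => (Pi.single (J₀ i) 1 : Fin N → M)) (fun i k => by
        by_cases hk : k = J₀ i
        · subst hk
          rw [Pi.single_eq_same, map_one]
        · rw [Pi.single_eq_of_ne hk, map_zero]
          exact zero_le) J
    rw [← hA, hlam] at h1
    have h2 : (Matrix.of fun i b => ∑ k, (Pi.single (J₀ i) 1 : Fin N → M) k * G b k) =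
        (Matrix.of fun b i => G b (J₀ i)).transpose := by
      ext i b
      rw [Matrix.transpose_apply, Matrix.of_apply, Matrix.of_apply,
        Finset.sum_eq_single (J₀ i)]
      · rw [Pi.single_eq_same, one_mul]
      · intro k _ hk
        rw [Pi.single_eq_of_ne hk, zero_mul]
      · intro h
        exact absurd (Finset.mem_univ _) h
    rw [h2, Matrix.det_transpose, map_mul, hJ₀] at h1
    have hl : w.1 lam ≠ 0 := (Valuation.ne_zero_iff w.1).mpr hlam0
    have h3 := (log_le_log (mul_ne_zero hl (pow_ne_zero _ (hvγ w)))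
      (mul_ne_zero (pow_ne_zero _ (hvγ w)) hβ0)).mpr h1
    rw [log_mul hl (pow_ne_zero _ (hvγ w)), log_mul (pow_ne_zero _ (hvγ w)) hβ0,
      log_pow, log_pow, nsmul_eq_mul, nsmul_eq_mul, hsd] at h3
    push_cast at h3 hβl ⊢
    linarith
  -- summation
  have hX1 : (![1, algebraMap κ[X] M X] : Fin 2 → M) ≠ 0 := by
    intro h
    have h1 := congrFun h 0
    simp at h1
  let P : Finset (Place κ M) := (vmax_finite hγ).toFinset ∪ (place_finite hlam0).toFinset ∪
    (ramIdx_finite (κ := κ) (K := RatFunc κ) (L := M)).toFinset ∪ (vmax_finite hX1).toFinset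
  have hP : ∀ v ∉ P, vmax v.1 γ = 1 ∧ v.1 lam = 1 ∧ ramIdx (RatFunc κ) v.1 = 1 ∧
      vmax v.1 ![1, algebraMap κ[X] M X] = 1 := by
    intro v hv
    simp only [P, Finset.mem_union, Set.Finite.mem_toFinset, not_or, Set.mem_ofPred_eq,
      not_not] at hv
    exact ⟨hv.1.1.1, hv.1.1.2, hv.1.2, hv.2⟩
  have hsum := Finset.sum_le_sum fun v (_ : v ∈ P) => hloc v
  simp only [Finset.sum_add_distrib, ← Finset.mul_sum] at hsum
  have e1 : ∑ v ∈ P, log (v.1 lam) = 0 := by
    rw [← product_formula (κ := κ) hlam0]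
    symm
    refine finsum_eq_sum_of_support_subset _ fun v hv => ?_
    by_contra hvP
    apply hv
    simp only
    rw [(hP v hvP).2.1, log_one]
  have e2 : ∑ v ∈ P, log (vmax v.1 γ) = height κ γ := by
    symm
    refine finsum_eq_sum_of_support_subset _ fun v hv => ?_
    by_contra hvP
    apply hv
    simp only
    rw [(hP v hvP).1, log_one]
  have e3 : ∑ v ∈ P, log (vmax v.1 ![1, algebraMap κ[X] M X]) =
      height κ ![1, algebraMap κ[X] M X] := by
    symm
    refine finsum_eq_sum_of_support_subset _ fun v hv => ?_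
    by_contra hvP
    apply hv
    simp only
    rw [(hP v hvP).2.2.2, log_one]
  have e4 : ∑ v ∈ P, ((ramIdx (RatFunc κ) v.1 - 1 : ℕ) : ℤ) = (ramDeg κ M (RatFunc κ) : ℤ) := by
    rw [← Nat.cast_sum]
    congr 1
    symm
    refine finsum_eq_sum_of_support_subset _ fun v hv => ?_
    by_contra hvP
    apply hv
    simp only
    rw [(hP v hvP).2.2.1, Nat.sub_self]
  rw [e1, e2, e3, e4, zero_add] at hsum
  rw [hfin]
  exact hsum

/-- **Adjunction** for `p` forms. -/
theorem adj_genusP {m N p : ℕ} (hN : p + (m + 2) = N) {d : Fin p → ℕ}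
    (hd : ∀ b, 1 ≤ d b) {a : Fin p → (Fin N →₀ ℕ) → κ}
    (hsm : ∀ u : Fin N → κ, u ≠ 0 → (∀ b, Fval (d b) (a b) u = 0) →
      LinearIndependent κ fun b => grad (d b) (a b) u)
    (D : Derivation ℤ M M)
    (hκ : ∀ u : κ, D (algebraMap κ M u) = 0) (hX : D (algebraMap κ[X] M X) = 1)
    (E : Fin m → Derivation ℤ M M)
    (hEκ : ∀ i, ∀ u : κ, ∃ u' : κ, E i (algebraMap κ M u) = algebraMap κ M u')
    (hEX : ∀ i, ∃ u : κ, E i (algebraMap κ[X] M X) = algebraMap κ M u)
    (hEa : ∀ i b, ∀ I ∈ expo (Fin N) (d b), E i (algebraMap κ M (a b I)) = 0)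
    {γ : Fin N → M} (hF : ∀ b, Fval (d b) (fun I => algebraMap κ M (a b I)) γ = 0)
    (hind : LinearIndependent M (Fin.cons γ (Fin.cons (fun k => D (γ k)) fun i k => E i (γ k)) :
      Fin (m + 2) → Fin N → M)) :
    ((∑ b, (d b : ℤ)) - N) * height κ γ + 2 ≤ 2 * genus κ M := by
  have htow : IsScalarTower κ (RatFunc κ) M := by
    refine IsScalarTower.of_algebraMap_eq fun c => ?_
    rw [IsScalarTower.algebraMap_apply κ κ[X] M, IsScalarTower.algebraMap_apply κ[X] (RatFunc κ) M,
      ← IsScalarTower.algebraMap_apply κ κ[X] (RatFunc κ)]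
  have h1 := wedge_global_infP hN hd hsm D hκ hX E hEκ hEX hEa hF hind
  have h2 := ramDeg_le κ M
  have h3 : ((∑ b, (d b : ℤ)) - N) * height κ γ =
      (∑ b, ((d b : ℤ) - 1)) * height κ γ - (m + 2) * height κ γ := by
    have h4 : (N : ℤ) = p + (m + 2) := by
      rw [← hN]
      push_cast
      ring
    rw [Finset.sum_sub_distrib, h4]
    simp only [Finset.sum_const, Finset.card_univ, Fintype.card_fin, nsmul_eq_mul, mul_one]
    ring
  rw [h3]
  linarith

end

end Pool.Agent.Lib.MP_44a246_ntSH
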