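import Mathlib
import Pool.Agent.Lib.MP_44a246_ntSH.CP02

/-!
# Logarithmic adjunction (paper 667, 7.1): linear algebra and reduction at a place
-/

namespace Pool.Agent.Lib.MP_44a246_ntSH

open Pool.Agent.Lib.MP_e52354_nt
open Pool.Agent.Lib.MP_44a246_nt
open Pool.Agent.Lib.MP_44a246_ntL
open Pool.Agent.Lib.MP_44a246_ntR
open Pool.Agent.Lib.MP_44a246_ntS
open Pool.Agent.Lib.MP_44a246_ntE
open WithZero Polynomial

/-- extension of independent rows to an invertible matrix -/
theorem exists_extend_rows {K : Type*} [Field K] {ι α : Type*} [Fintype ι] [DecidableEq ι]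
    [Fintype α] [DecidableEq α] {N : ℕ} (J : ι ⊕ α ≃ Fin N) {G : ι → Fin N → K}
    (hG : LinearIndependent K G) :
    ∃ C : α → Fin N → K,
      (Matrix.of fun i k => (Sum.elim G C : ι ⊕ α → Fin N → K) i (J k)).det ≠ 0 := by
  classical
  have hN : Fintype.card ι + Fintype.card α = N := by
    have h1 := Fintype.card_congr J
    simpa using h1
  set W : Submodule K (Fin N → K) := Submodule.span K (Set.range G) with hW
  have hWf : Module.finrank K W = Fintype.card ι := by
    rw [hW, finrank_span_eq_card hG]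
  obtain ⟨W', hW'⟩ := W.exists_isCompl
  have hWf' : Module.finrank K W' = Fintype.card α := by
    have h1 := Submodule.finrank_add_eq_of_isCompl hW'
    rw [Module.finrank_fin_fun, hWf] at h1
    omega
  let bW' := (Module.finBasisOfFinrankEq K W' hWf').reindex (Fintype.equivFin α).symm
  refine ⟨fun i => (bW' i : Fin N → K), ?_⟩
  have hli : LinearIndependent K (Sum.elim G fun i => (bW' i : Fin N → K)) := by
    refine LinearIndependent.sum_type hG (bW'.linearIndependent.map' W'.subtype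
      (Submodule.ker_subtype _)) ?_
    refine hW'.disjoint.mono le_rfl ?_
    rw [Submodule.span_le]
    rintro _ ⟨i, rfl⟩
    exact (bW' i).2
  have h2 : LinearIndependent K (Matrix.of fun i k =>
      (Sum.elim G (fun i => (bW' i : Fin N → K)) : ι ⊕ α → Fin N → K) i (J k)).row := by
    have h3 := hli.map' (LinearMap.funLeft K K J)
      (LinearMap.ker_eq_bot.2 (LinearMap.funLeft_injective_of_surjective K K J J.surjective))
    exact h3
  rw [Matrix.linearIndependent_rows_iff_isUnit, Matrix.isUnit_iff_isUnit_det] at h2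
  exact h2.ne_zero

/-- **Linear algebra.** If the rows of `A` are orthogonal to the rows of `G`, then the determinants
of `A Cᵀ` are proportional to those of `[G; C]`. -/
theorem exists_lam2 {M : Type*} [Field M] {ι α : Type*} [Fintype ι] [DecidableEq ι]
    [Fintype α] [DecidableEq α] {N : ℕ} (J : ι ⊕ α ≃ Fin N)
    {G : ι → Fin N → M} (hG : LinearIndependent M G) {A : α → Fin N → M}
    (hA : ∀ b i, ∑ k, G b k * A i k = 0) :
    ∃ lam : M, ∀ C : α → Fin N → M,
      lam * (Matrix.of fun i k => (Sum.elim G C : ι ⊕ α → Fin N → M) i (J k)).det =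
        (Matrix.of fun i b => ∑ k, A i k * C b k).det := by
  classical
  have hsum : ∀ (f g : Fin N → M), ∑ k : ι ⊕ α, f (J k) * g (J k) = ∑ k, f k * g k :=
    fun f g => J.sum_comp fun k => f k * g k
  obtain ⟨C₀, hC₀⟩ := exists_extend_rows J hG
  set Q₀ : Matrix (ι ⊕ α) (ι ⊕ α) M := Matrix.of fun i k =>
      (Sum.elim G C₀ : ι ⊕ α → Fin N → M) i (J k) with hQ₀
  set P₀ : Matrix (ι ⊕ α) (ι ⊕ α) M := (Q₀.transpose)⁻¹ with hP₀
  have hPQ : P₀ * Q₀.transpose = 1 := by
    refine Matrix.nonsing_inv_mul _ ?_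
    rw [Matrix.det_transpose]
    exact hC₀.isUnit
  set R : ι → Fin N → M := fun i k => P₀ (Sum.inl i) (J.symm k) with hR
  have hRG : ∀ i b, ∑ k, R i k * G b k = if i = b then 1 else 0 := by
    intro i b
    have h1 := congrFun (congrFun hPQ (Sum.inl i)) (Sum.inl b)
    rw [Matrix.mul_apply] at h1
    rw [← hsum]
    have h2 : ∀ k : ι ⊕ α, R i (J k) * G b (J k) =
        P₀ (Sum.inl i) k * Q₀.transpose k (Sum.inl b) := by
      intro k
      rw [hR]
      simp only
      rw [J.symm_apply_apply]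
      rfl
    rw [Finset.sum_congr rfl fun k _ => h2 k, h1, Matrix.one_apply]
    simp
  set P : Matrix (ι ⊕ α) (ι ⊕ α) M := Matrix.of fun i k =>
      (Sum.elim R A : ι ⊕ α → Fin N → M) i (J k) with hP
  refine ⟨P.det, fun C => ?_⟩
  set Q : Matrix (ι ⊕ α) (ι ⊕ α) M := Matrix.of fun i k =>
      (Sum.elim G C : ι ⊕ α → Fin N → M) i (J k) with hQ
  have h1 : P * Q.transpose = Matrix.fromBlocks 1
      (Matrix.of fun i b => ∑ k, R i k * C b k) 0 (Matrix.of fun i b => ∑ k, A i k * C b k) := by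
    ext i b
    rw [Matrix.mul_apply]
    simp only [Matrix.transpose_apply, hP, hQ, Matrix.of_apply]
    rw [hsum]
    rcases i with i | i <;> rcases b with b | b
    · simp only [Sum.elim_inl, Matrix.fromBlocks_apply₁₁]
      rw [hRG, Matrix.one_apply]
    · rfl
    · simp only [Sum.elim_inl, Sum.elim_inr, Matrix.fromBlocks_apply₂₁, Matrix.zero_apply]
      rw [← hA b i]
      exact Finset.sum_congr rfl fun k _ => mul_comm _ _
    · rfl
  have h3 := congrArg Matrix.det h1
  rw [Matrix.det_mul, Matrix.det_transpose, Matrix.det_fromBlocks_zero₂₁, Matrix.det_one,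
    one_mul] at h3
  exact h3

/-- the factor does not vanish if the rows of `A` are independent -/
theorem lam2_ne_zero {M : Type*} [Field M] {ι : Type*} [Fintype ι] [DecidableEq ι]
    {m N : ℕ} (J : ι ⊕ Fin m ≃ Fin N)
    {G : ι → Fin N → M} {A : Fin m → Fin N → M} (hA : LinearIndependent M A) {lam : M}
    (h : ∀ C : Fin m → Fin N → M,
      lam * (Matrix.of fun i k => (Sum.elim G C : ι ⊕ Fin m → Fin N → M) i (J k)).det =
        (Matrix.of fun i b => ∑ k, A i k * C b k).det) : lam ≠ 0 := by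
  classical
  obtain ⟨J₀, hJ₀⟩ := Pool.Agent.Lib.MP_44a246_ntU.exists_minor_ne hA
  rintro rfl
  have h1 := h fun b => Pi.single (J₀ b) 1
  rw [zero_mul] at h1
  apply hJ₀
  rw [h1]
  congr 1
  ext i b
  rw [Matrix.of_apply, Matrix.of_apply, Finset.sum_eq_single (J₀ b)]
  · rw [Pi.single_eq_same, mul_one]
  · intro k _ hk
    rw [Pi.single_eq_of_ne hk, mul_zero]
  · intro hcon
    exact absurd (Finset.mem_univ _) hcon

/-- forms with algebraically independent coefficients: all the partial intersections are smooth -/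
theorem smooth_of_derF {κ : Type*} [Field κ] {n : ℕ} {B : Type*} [DecidableEq B] {d : B → ℕ}
    {a : B → (Fin n →₀ ℕ) → κ} (W : B → (Fin n →₀ ℕ) → Derivation ℤ κ κ)
    (hW : ∀ b, ∀ I ∈ expo (Fin n) (d b), ∀ b', ∀ J ∈ expo (Fin n) (d b'),
      W b I (a b' J) = if (b, I) = (b', J) then 1 else 0)
    (T : Finset B) (u : Fin n → κ) (hu : u ≠ 0) (hF : ∀ b ∈ T, Fval (d b) (a b) u = 0) :
    LinearIndependent κ fun b : T => grad (d b) (a b) u := by
  classical
  let σ : T ≃ Fin T.card := T.equivFin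
  have h1 := smooth_of_derP (κ := κ) (d := fun i => d (σ.symm i)) (a := fun i => a (σ.symm i))
    (fun i => W (σ.symm i)) (fun b I hI b' J hJ => by
      rw [hW _ I hI _ J hJ]
      refine if_congr ?_ rfl rfl
      rw [Prod.mk.injEq, Prod.mk.injEq]
      refine and_congr ⟨fun h => σ.symm.injective (Subtype.ext h), fun h => by rw [h]⟩ Iff.rfl)
    u hu (fun b => hF _ (σ.symm b).2)
  have h2 := h1.comp σ σ.injective
  have h3 : (fun b : T => grad (d b) (a b) u) =
      (fun i => grad (d (σ.symm i)) (a (σ.symm i)) u) ∘ σ := by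
    funext b
    show grad (d b) (a b) u = grad (d (σ.symm (σ b))) (a (σ.symm (σ b))) u
    rw [σ.symm_apply_apply]
  rw [h3]
  exact h2

/-- the reduction of a determinant -/
theorem det_mem_congSub {κ M : Type*} [Field κ] [Field M] [Algebra κ M] (w : Place κ M)
    {α : Type*} [Fintype α] [DecidableEq α] {X : Matrix α α M} {Y : Matrix α α κ}
    (h : ∀ i j, (X i j, Y i j) ∈ congSub w) : (X.det, Y.det) ∈ congSub w := by
  have h2 : (X.det, Y.det) =
      ∑ σ : Equiv.Perm α, ((Equiv.Perm.sign σ : ℤ) : M × κ) *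
        ∏ i, ((X (σ i) i, Y (σ i) i) : M × κ) := by
    apply Prod.ext
    · rw [Prod.fst_sum, Matrix.det_apply']
      refine Finset.sum_congr rfl fun σ _ => ?_
      rw [Prod.fst_mul, Prod.fst_prod]
      simp
    · show Y.det = _
      rw [Prod.snd_sum, Matrix.det_apply']
      refine Finset.sum_congr rfl fun σ _ => ?_
      rw [Prod.snd_mul, Prod.snd_prod]
      simp
  rw [h2]
  exact Subring.sum_mem _ fun σ _ => Subring.mul_mem _ (intCast_mem _ _)
    (Subring.prod_mem _ fun i _ => h _ _)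

theorem const_mem_congSub {κ M : Type*} [Field κ] [Field M] [Algebra κ M] (w : Place κ M) (c : κ) :
    (algebraMap κ M c, c) ∈ congSub w := by
  rw [mem_congSub, sub_self, map_zero]
  refine ⟨?_, zero_lt_one⟩
  by_cases h : c = 0
  · rw [h, map_zero, map_zero]; exact zero_le_one
  · exact (w.2.2 c h).le

theorem mon_mem_congSub {κ M : Type*} [Field κ] [Field M] [Algebra κ M] (w : Place κ M) {s : ℕ}
    {q : Fin s → M} {u : Fin s → κ} (h : ∀ k, (q k, u k) ∈ congSub w) (I : Fin s →₀ ℕ) :
    (mon q I, mon u I) ∈ congSub w := by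
  have h1 : (mon q I, mon u I) = ∏ j, ((q j, u j) : M × κ) ^ I j := by
    apply Prod.ext
    · rw [Prod.fst_prod]; rfl
    · rw [Prod.snd_prod]; rfl
  rw [h1]
  exact Subring.prod_mem _ fun j _ => Subring.pow_mem _ (h j) _

theorem grad_mem_congSub {κ M : Type*} [Field κ] [Field M] [Algebra κ M] (w : Place κ M) {s : ℕ}
    {q : Fin s → M} {u : Fin s → κ} (h : ∀ k, (q k, u k) ∈ congSub w) (d : ℕ)
    (a : (Fin s →₀ ℕ) → κ) (j : Fin s) :
    (grad d (fun I => algebraMap κ M (a I)) q j, grad d a u j) ∈ congSub w := by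
  have h1 : (grad d (fun I => algebraMap κ M (a I)) q j, grad d a u j) =
      ∑ I ∈ expo (Fin s) d, ((algebraMap κ M (a I), a I) : M × κ) * ((I j : ℕ) : M × κ) *
        (mon q (I - Finsupp.single j 1), mon u (I - Finsupp.single j 1)) := by
    apply Prod.ext
    · rw [Prod.fst_sum]; rfl
    · rw [Prod.snd_sum]; rfl
  rw [h1]
  exact Subring.sum_mem _ fun I _ => Subring.mul_mem _ (Subring.mul_mem _
    (const_mem_congSub w _) (natCast_mem _ _)) (mon_mem_congSub w h _)

theorem Fval_mem_congSub {κ M : Type*} [Field κ] [Field M] [Algebra κ M] (w : Place κ M) {s : ℕ}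
    {q : Fin s → M} {u : Fin s → κ} (h : ∀ k, (q k, u k) ∈ congSub w) (d : ℕ)
    (a : (Fin s →₀ ℕ) → κ) :
    (Fval d (fun I => algebraMap κ M (a I)) q, Fval d a u) ∈ congSub w := by
  have h1 : (Fval d (fun I => algebraMap κ M (a I)) q, Fval d a u) =
      ∑ I ∈ expo (Fin s) d, ((algebraMap κ M (a I), a I) : M × κ) * (mon q I, mon u I) := by
    apply Prod.ext
    · rw [Prod.fst_sum]; rfl
    · rw [Prod.snd_sum]; rfl
  rw [h1]
  exact Subring.sum_mem _ fun I _ => Subring.mul_mem _ (const_mem_congSub w _)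
    (mon_mem_congSub w h _)

theorem val_eq_one_of_congSub {κ M : Type*} [Field κ] [Field M] [Algebra κ M] (w : Place κ M)
    {y : M} {c : κ} (h : (y, c) ∈ congSub w) (hc : c ≠ 0) : w.1 y = 1 := by
  obtain ⟨h1, h2⟩ := (mem_congSub w).mp h
  refine le_antisymm h1 ?_
  by_contra hcon
  push Not at hcon
  have h3 : algebraMap κ M c = y - (y - algebraMap κ M c) := by ring
  have h4 : w.1 (algebraMap κ M c) < 1 := by
    rw [h3]
    exact lt_of_le_of_lt (w.1.map_sub _ _) (max_lt hcon h2)
  rw [w.2.2 _ hc] at h4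
  exact lt_irrefl _ h4

theorem eq_zero_of_congSub {κ M : Type*} [Field κ] [Field M] [Algebra κ M] (w : Place κ M)
    {y : M} {c : κ} (h : (y, c) ∈ congSub w) (hy : w.1 y < 1) : c = 0 := by
  by_contra hc
  rw [val_eq_one_of_congSub w h hc] at hy
  exact lt_irrefl _ hy

/-- **Constants which complete the gradients** of the forms which vanish modulo the place. -/
theorem exists_complete {κ M : Type*} [Field κ] [Field M] [Algebra κ M] (w : Place κ M)
    (hres : ∀ y, w.1 y ≤ 1 → ∃ c : κ, w.1 (y - algebraMap κ M c) < 1) {s : ℕ} {B : Type*}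
    [Fintype B] [DecidableEq B] {d : B → ℕ} {a : B → (Fin s →₀ ℕ) → κ}
    (hsm : ∀ u : Fin s → κ, u ≠ 0 → (∀ b, Fval (d b) (a b) u = 0) →
      LinearIndependent κ fun b => grad (d b) (a b) u)
    {q : Fin s → M} (hq1 : ∀ k, w.1 (q k) ≤ 1) {l : Fin s} (hl : q l = 1)
    (hF : ∀ b, w.1 (Fval (d b) (fun I => algebraMap κ M (a b I)) q) < 1)
    {α : Type*} [Fintype α] [DecidableEq α] (J : B ⊕ α ≃ Fin s) :
    ∃ C : α → Fin s → κ, w.1 (Matrix.of fun i k =>
      (Sum.elim (fun b => grad (d b) (fun I => algebraMap κ M (a b I)) q)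
        (fun i k => algebraMap κ M (C i k)) : B ⊕ α → Fin s → M) i (J k)).det = 1 := by
  choose u hu using fun k => hres (q k) (hq1 k)
  have hmem : ∀ k, (q k, u k) ∈ congSub w := fun k => (mem_congSub w).mpr ⟨hq1 k, hu k⟩
  have hu0 : u ≠ 0 := by
    intro h
    have h1 := hu l
    rw [h, Pi.zero_apply, map_zero, sub_zero, hl, map_one] at h1
    exact lt_irrefl _ h1
  obtain ⟨C, hC⟩ := exists_extend_rows J (hsm u hu0 fun b =>
    eq_zero_of_congSub w (Fval_mem_congSub w hmem _ _) (hF b))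
  refine ⟨C, val_eq_one_of_congSub w (det_mem_congSub w fun i k => ?_) hC⟩
  rcases i with i | i
  · exact grad_mem_congSub w hmem _ _ _
  · exact const_mem_congSub w _

/-- the number of the forms which vanish modulo the place -/
theorem card_le_of_red {κ M : Type*} [Field κ] [Field M] [Algebra κ M] (w : Place κ M)
    (hres : ∀ y, w.1 y ≤ 1 → ∃ c : κ, w.1 (y - algebraMap κ M c) < 1) {s : ℕ} {B : Type*}
    [Fintype B] {d : B → ℕ} {a : B → (Fin s →₀ ℕ) → κ}
    (hsm : ∀ u : Fin s → κ, u ≠ 0 → (∀ b, Fval (d b) (a b) u = 0) →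
      LinearIndependent κ fun b => grad (d b) (a b) u)
    {q : Fin s → M} (hq1 : ∀ k, w.1 (q k) ≤ 1) {l : Fin s} (hl : q l = 1)
    (hF : ∀ b, w.1 (Fval (d b) (fun I => algebraMap κ M (a b I)) q) < 1) :
    Fintype.card B ≤ s := by
  choose u hu using fun k => hres (q k) (hq1 k)
  have hmem : ∀ k, (q k, u k) ∈ congSub w := fun k => (mem_congSub w).mpr ⟨hq1 k, hu k⟩
  have hu0 : u ≠ 0 := by
    intro h
    have h1 := hu l
    rw [h, Pi.zero_apply, map_zero, sub_zero, hl, map_one] at h1
    exact lt_irrefl _ h1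
  have h1 := (hsm u hu0 fun b =>
    eq_zero_of_congSub w (Fval_mem_congSub w hmem _ _) (hF b)).fintype_card_le_finrank
  rwa [Module.finrank_fin_fun] at h1

end Pool.Agent.Lib.MP_44a246_ntSH
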