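import Mathlib
import Pool.Agent.Lib.MP_44a246_ntSH.LA01

/-!
# Logarithmic adjunction (paper 667, 7.1): the estimate at a place
-/

namespace Pool.Agent.Lib.MP_44a246_ntSH

open Pool.Agent.Lib.MP_e52354_nt
open Pool.Agent.Lib.MP_44a246_nt
open Pool.Agent.Lib.MP_44a246_ntL
open Pool.Agent.Lib.MP_44a246_ntR
open Pool.Agent.Lib.MP_44a246_ntS
open Pool.Agent.Lib.MP_44a246_ntE
open WithZero Polynomial

/-- a nonzero element of value at most `1` is a unit times a power of the uniformiser -/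
theorem exists_unif_pow {κ M : Type*} [Field κ] [Field M] [Algebra κ M] (w : Place κ M) {π : M}
    (hπ : w.1 π = exp (-1 : ℤ)) {y : M} (hy0 : y ≠ 0) (hy : w.1 y ≤ 1) :
    ∃ (v : ℕ) (u : M), y = π ^ v * u ∧ w.1 u = 1 ∧ w.1 y = exp (-(v : ℤ)) := by
  have h0 : w.1 y ≠ 0 := (Valuation.ne_zero_iff w.1).mpr hy0
  have h1 : log (w.1 y) ≤ 0 := by
    have h2 := (log_le_log h0 one_ne_zero).mpr hy
    rwa [log_one] at h2
  obtain ⟨v, hv⟩ : ∃ v : ℕ, (v : ℤ) = - log (w.1 y) :=
    ⟨(- log (w.1 y)).toNat, Int.toNat_of_nonneg (by linarith)⟩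
  have hπ0 : π ≠ 0 := by
    rintro rfl
    rw [map_zero] at hπ
    exact exp_ne_zero hπ.symm
  have hwy : w.1 y = exp (-(v : ℤ)) := by
    rw [hv, neg_neg, exp_log h0]
  have hwπ : w.1 (π ^ v) = exp (-(v : ℤ)) := by
    rw [map_pow, hπ, ← exp_nsmul]
    congr 1
    simp
  refine ⟨v, y / π ^ v, ?_, ?_, hwy⟩
  · rw [mul_div_cancel₀ _ (pow_ne_zero _ hπ0)]
  · rw [map_div₀, hwy, hwπ, div_self exp_ne_zero]

/-- the derivative of an element of small value -/
theorem der_small {κ M : Type*} [Field κ] [Field M] [Algebra κ M] (w : Place κ M)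
    {D : Derivation ℤ M M} {β : ℤᵐ⁰} (hβ : ∀ y, w.1 y ≤ 1 → w.1 (D y) ≤ β) {y : M}
    (hy : w.1 y ≤ 1) : w.1 (D y) ≤ β * exp (1 : ℤ) * w.1 y := by
  by_cases hy0 : y = 0
  · rw [hy0, map_zero, map_zero]
    exact zero_le
  obtain ⟨π, hπ⟩ := w.2.1 (exp (-1 : ℤ))
  have hπ1 : w.1 π ≤ 1 := by
    rw [hπ, ← exp_zero, exp_le_exp]
    norm_num
  obtain ⟨v, u, hyu, hu, hwy⟩ := exists_unif_pow w hπ hy0 hy
  have hπ0 : π ≠ 0 := by
    rintro rfl
    rw [map_zero] at hπ
    exact exp_ne_zero hπ.symm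
  have hwπ : w.1 (π ^ v) = exp (-(v : ℤ)) := by
    rw [map_pow, hπ, ← exp_nsmul]
    congr 1
    simp
  have hnat : ∀ t : ℕ, w.1 (t : M) ≤ 1 := fun t => natCast_mem w.1.integer t
  have h1 : D y = π ^ v * D u + u * D (π ^ v) := by
    rw [hyu, Derivation.leibniz, smul_eq_mul, smul_eq_mul]
  have h2 : β * exp (1 : ℤ) * w.1 y = β * exp (1 - (v : ℤ)) := by
    rw [hwy, mul_assoc, ← exp_add, sub_eq_add_neg]
  rw [h1, h2]
  refine (w.1.map_add _ _).trans (max_le ?_ ?_)
  · rw [map_mul, hwπ, mul_comm]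
    refine mul_le_mul' (hβ u hu.le) ?_
    rw [exp_le_exp]
    linarith
  · rw [map_mul, hu, one_mul]
    rcases Nat.eq_zero_or_pos v with hv | hv
    · rw [hv, pow_zero, Derivation.map_one_eq_zero, map_zero]
      exact zero_le
    · obtain ⟨t, rfl⟩ : ∃ t, v = t + 1 := ⟨v - 1, by omega⟩
      rw [Derivation.leibniz_pow, nsmul_eq_mul, smul_eq_mul, map_mul, map_mul, Nat.add_sub_cancel]
      have h3 : w.1 (π ^ t) = exp (-(t : ℤ)) := by
        rw [map_pow, hπ, ← exp_nsmul]
        congr 1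
        simp
      calc w.1 ((t + 1 : ℕ) : M) * (w.1 (π ^ t) * w.1 (D π)) ≤ 1 * (exp (-(t : ℤ)) * β) :=
            mul_le_mul' (hnat _) (mul_le_mul' h3.le (hβ π hπ1))
        _ = β * exp (1 - ((t + 1 : ℕ) : ℤ)) := by
            rw [one_mul, mul_comm]
            congr 2
            push_cast
            ring

/-- the derivative of an element of small value, for a derivation which kills the uniformiser -/
theorem der_small' {κ M : Type*} [Field κ] [Field M] [Algebra κ M] (w : Place κ M)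
    {D : Derivation ℤ M M} (hD : ∀ y, w.1 y ≤ 1 → w.1 (D y) ≤ 1) {π : M}
    (hπ : w.1 π = exp (-1 : ℤ)) (hDπ : D π = 0) {y : M} (hy : w.1 y ≤ 1) :
    w.1 (D y) ≤ w.1 y := by
  by_cases hy0 : y = 0
  · rw [hy0, map_zero, map_zero]
  obtain ⟨v, u, hyu, hu, hwy⟩ := exists_unif_pow w hπ hy0 hy
  have h1 : D y = π ^ v * D u := by
    rw [hyu, Derivation.leibniz, smul_eq_mul, smul_eq_mul, Derivation.leibniz_pow, hDπ, smul_zero,
      smul_zero, mul_zero, add_zero]
  have hwπ : w.1 (π ^ v) = w.1 y := by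
    rw [hwy, map_pow, hπ, ← exp_nsmul]
    congr 1
    simp
  rw [h1, map_mul, hwπ]
  calc w.1 y * w.1 (D u) ≤ w.1 y * 1 := mul_le_mul' le_rfl (hD u hu.le)
    _ = w.1 y := mul_one _

section

variable {κ M : Type*} [Field κ] [IsAlgClosed κ] [CharZero κ] [Field M] [Algebra κ M]
  [Algebra κ[X] M] [IsScalarTower κ κ[X] M]
  [Algebra (RatFunc κ) M] [IsScalarTower κ[X] (RatFunc κ) M]
  [Algebra (Rinf κ) M] [IsScalarTower (Rinf κ) (RatFunc κ) M]
  [FiniteDimensional (RatFunc κ) M]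

/-- **The local estimate** of the factor `lam`, with the gain at the boundary. -/
theorem log_wedge_place (w : Place κ M) {m N : ℕ} {ι Λ : Type*} [Fintype ι] [DecidableEq ι]
    [Fintype Λ] [DecidableEq Λ] (J : ι ⊕ Fin (m + 2) ≃ Fin N) {d : ι → ℕ} (hd : ∀ b, 1 ≤ d b)
    {a : ι → (Fin N →₀ ℕ) → κ} {d' : Λ → ℕ} {a' : Λ → (Fin N →₀ ℕ) → κ}
    (hsm : ∀ (S : Finset Λ) (u : Fin N → κ), u ≠ 0 → (∀ b, Fval (d b) (a b) u = 0) →
      (∀ c ∈ S, Fval (d' c) (a' c) u = 0) →
      LinearIndependent κ (Sum.elim (fun b => grad (d b) (a b) u)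
        (fun c : S => grad (d' c) (a' c) u)))
    (D : Derivation ℤ M M)
    (hκ : ∀ u : κ, D (algebraMap κ M u) = 0) (hX : D (algebraMap κ[X] M X) = 1)
    {β : ℤᵐ⁰} (hβ : ∀ y, w.1 y ≤ 1 → w.1 (D y) ≤ β)
    (E : Fin m → Derivation ℤ M M)
    (hEκ : ∀ i, ∀ u : κ, ∃ u' : κ, E i (algebraMap κ M u) = algebraMap κ M u')
    (hEX : ∀ i, ∃ u : κ, E i (algebraMap κ[X] M X) = algebraMap κ M u)
    (hEa' : ∀ i c, ∀ I ∈ expo (Fin N) (d' c), E i (algebraMap κ M (a' c I)) = 0)
    {γ : Fin N → M} (hγ : γ ≠ 0)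
    (hF : ∀ b, Fval (d b) (fun I => algebraMap κ M (a b I)) γ = 0)
    {lam : M} (hlam : ∀ C : Fin (m + 2) → Fin N → M,
      lam * (Matrix.of fun i k => (Sum.elim
        (fun b => grad (d b) (fun I => algebraMap κ M (a b I)) γ) C :
          ι ⊕ Fin (m + 2) → Fin N → M) i (J k)).det =
        (Matrix.of fun i b => ∑ k, (Fin.cons γ (Fin.cons (fun k => D (γ k))
          fun i k => E i (γ k)) : Fin (m + 2) → Fin N → M) i k * C b k).det)
    {ε : ℕ} (hε : ∀ c, w.1 (Fval (d' c) (fun I => algebraMap κ M (a' c I)) γ) <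
      vmax w.1 γ ^ d' c → 1 ≤ ε) :
    w.1 lam * vmax w.1 γ ^ (∑ b, (d b - 1)) * vmax w.1 γ ^ (∑ c, d' c) ≤
      vmax w.1 γ ^ (m + 2) * β * exp (ε : ℤ) *
        ∏ c, w.1 (Fval (d' c) (fun I => algebraMap κ M (a' c I)) γ) := by
  classical
  obtain ⟨l, hl0, hlv, hlmax⟩ := exists_vmax w.1 hγ
  obtain ⟨π, hπ⟩ := w.2.1 (exp (-1 : ℤ))
  set e : ℕ := ramIdx (RatFunc κ) w.1 - 1 with he
  have hDκ : ∀ u : κ, ∃ u' : κ, D (algebraMap κ M u) = algebraMap κ M u' := fun u =>
    ⟨0, by rw [hκ u, map_zero]⟩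
  have hDX : ∃ u : κ, D (algebraMap κ[X] M X) = algebraMap κ M u := ⟨1, by rw [hX, map_one]⟩
  have hDπ : D π ≠ 0 := der_unif_ne w D hκ hX hπ
  have hDp : ∀ y, w.1 y ≤ 1 → w.1 (D y) ≤ exp (e : ℤ) := fun y hy => der_place w D hDκ hDX hy
  have hEp : ∀ i, ∀ y, w.1 y ≤ 1 → w.1 (E i y) ≤ exp (e : ℤ) := fun i y hy =>
    der_place w (E i) (hEκ i) (hEX i) hy
  -- the corrected derivations
  set c : Fin m → M := fun i => E i π / D π with hc
  set E' : Fin m → Derivation ℤ M M := fun i => E i - c i • D with hE'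
  have hE'a : ∀ i y, E' i y = E i y - c i * D y := fun i y => rfl
  have hE'κ : ∀ i, ∀ u : κ, ∃ u' : κ, E' i (algebraMap κ M u) = algebraMap κ M u' := by
    intro i u
    obtain ⟨u', hu'⟩ := hEκ i u
    exact ⟨u', by rw [hE'a, hκ, mul_zero, sub_zero, hu']⟩
  have hE'π : ∀ i, E' i π = 0 := by
    intro i
    rw [hE'a, hc]
    simp only
    rw [div_mul_cancel₀ _ hDπ, sub_self]
  have hE'p : ∀ i, ∀ y, w.1 y ≤ 1 → w.1 (E' i y) ≤ 1 := by
    intro i y hy
    have hcle : w.1 (c i) ≤ exp (((log (w.1 (c i))).toNat : ℕ) : ℤ) := by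
      by_cases h0 : w.1 (c i) = 0
      · rw [h0]; exact zero_le
      · conv_lhs => rw [← exp_log h0]
        rw [exp_le_exp]
        exact Int.self_le_toNat _
    refine der_int w (E' i) (hE'κ i) (N := (log (w.1 (c i))).toNat + e) ?_ hπ (hE'π i) hy
    intro z hz
    rw [hE'a]
    refine (w.1.map_sub _ _).trans (max_le ?_ ?_)
    · refine (hEp i z hz).trans ?_
      rw [exp_le_exp]
      push_cast
      have : (0 : ℤ) ≤ ((log (w.1 (c i))).toNat : ℤ) := Int.natCast_nonneg _
      linarith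
    · rw [map_mul]
      refine (mul_le_mul' hcle (hDp z hz)).trans (le_of_eq ?_)
      rw [← exp_add]
      push_cast
      rfl
  -- the normalised vector
  set q : Fin N → M := fun k => γ k / γ l with hq
  have hγq : ∀ k, γ k = γ l * q k := fun k => by
    rw [hq]
    simp only
    rw [mul_div_cancel₀ _ hl0]
  have hγq' : γ = fun k => γ l * q k := funext hγq
  have hvl : w.1 (γ l) ≠ 0 := (Valuation.ne_zero_iff w.1).mpr hl0
  have hqv : ∀ k, w.1 (q k) ≤ 1 := by
    intro k
    rw [hq]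
    simp only
    rw [map_div₀]
    exact div_le_one_of_le₀ (hlmax k) zero_le
  have hql : q l = 1 := by
    rw [hq]
    simp only
    exact div_self hl0
  -- the forms at the normalised vector
  set aM : ι → (Fin N →₀ ℕ) → M := fun b I => algebraMap κ M (a b I) with haM
  set aM' : Λ → (Fin N →₀ ℕ) → M := fun b I => algebraMap κ M (a' b I) with haM'
  set ψ : Λ → M := fun b => Fval (d' b) (aM' b) q with hψ
  have hφψ : ∀ b, Fval (d' b) (aM' b) γ = γ l ^ d' b * ψ b := by
    intro b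
    conv_lhs => rw [hγq']
    rw [Fval_smul]
  have hψ1 : ∀ b, w.1 (ψ b) ≤ 1 := by
    intro b
    rw [hψ]
    unfold Fval
    refine Valuation.map_sum_le _ fun I _ => ?_
    rw [map_mul]
    refine mul_le_one' (place_const_le w _) ?_
    unfold mon
    rw [map_prod]
    refine Finset.prod_le_one' fun j _ => ?_
    rw [map_pow]
    exact pow_le_one' (hqv j) _
  have hFq : ∀ b, Fval (d b) (aM b) q = 0 := by
    intro b
    have h1 := hF b
    rw [hγq', Fval_smul] at h1
    exact (mul_eq_zero.1 h1).resolve_left (pow_ne_zero _ hl0)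
  set S : Finset Λ := Finset.univ.filter fun b => w.1 (ψ b) < 1 with hS
  have hSψ : ∀ b : S, w.1 (ψ b) < 1 := fun b => (Finset.mem_filter.1 b.2).2
  have hεS : ∀ b : S, 1 ≤ ε := by
    intro b
    refine hε b ?_
    rw [hφψ, map_mul, map_pow, hlv]
    calc w.1 (γ l) ^ d' b * w.1 (ψ b) < w.1 (γ l) ^ d' b * 1 :=
          mul_lt_mul_of_pos_left (hSψ b) (zero_lt_iff.2 (pow_ne_zero _ hvl))
      _ = w.1 (γ l) ^ d' b := mul_one _
  have hprodψ : ∏ b : S, w.1 (ψ b) = ∏ b, w.1 (ψ b) := by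
    rw [Finset.prod_coe_sort S (fun b => w.1 (ψ b)), hS, Finset.prod_filter]
    refine Finset.prod_congr rfl fun b _ => ?_
    split_ifs with h
    · rfl
    · exact (le_antisymm (hψ1 b) (not_lt.1 h)).symm
  -- the number of the forms which vanish at the place
  have hres : ∀ y, w.1 y ≤ 1 → ∃ u : κ, w.1 (y - algebraMap κ M u) < 1 :=
    fun y hy => place_residue w hy
  set dd : ι ⊕ S → ℕ := Sum.elim d (fun b => d' b) with hdd
  set aa : ι ⊕ S → (Fin N →₀ ℕ) → κ := Sum.elim a (fun b => a' b) with haa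
  have hsm' : ∀ u : Fin N → κ, u ≠ 0 → (∀ b, Fval (dd b) (aa b) u = 0) →
      LinearIndependent κ fun b => grad (dd b) (aa b) u := by
    intro u hu h0
    have h1 := hsm S u hu (fun b => h0 (Sum.inl b)) (fun b hb => h0 (Sum.inr ⟨b, hb⟩))
    have h2 : (fun b => grad (dd b) (aa b) u) = Sum.elim (fun b => grad (d b) (a b) u)
        (fun c : S => grad (d' c) (a' c) u) := by
      funext b
      rcases b with b | b <;> rfl
    rw [h2]
    exact h1
  have hFdd : ∀ b, w.1 (Fval (dd b) (fun I => algebraMap κ M (aa b I)) q) < 1 := by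
    intro b
    rcases b with b | b
    · have h1 : Fval (dd (Sum.inl b)) (fun I => algebraMap κ M (aa (Sum.inl b) I)) q = 0 := hFq b
      rw [h1, map_zero]
      exact zero_lt_one
    · exact hSψ b
  have hcard := card_le_of_red w hres hsm' hqv hql hFdd
  have hN : Fintype.card ι + (m + 2) = N := by
    have h1 := Fintype.card_congr J
    simpa using h1
  rw [Fintype.card_sum, Fintype.card_coe] at hcard
  obtain ⟨r, hr⟩ : ∃ r, S.card + r = m + 2 := ⟨m + 2 - S.card, by omega⟩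
  obtain ⟨σ⟩ : Nonempty (Fin (m + 2) ≃ S ⊕ Fin r) := by
    refine ⟨Fintype.equivOfCardEq ?_⟩
    rw [Fintype.card_fin, Fintype.card_sum, Fintype.card_coe, Fintype.card_fin, hr]
  set e₁ : ι ⊕ Fin (m + 2) ≃ (ι ⊕ S) ⊕ Fin r :=
    (Equiv.sumCongr (Equiv.refl ι) σ).trans (Equiv.sumAssoc ι S (Fin r)).symm with he₁
  obtain ⟨C₁, hC₁⟩ := exists_complete w hres hsm' hqv hql hFdd (e₁.symm.trans J)
  set C : Fin (m + 2) → Fin N → M := fun i =>
    (Sum.elim (fun b : S => grad (d' b) (aM' b) q)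
      (fun i k => algebraMap κ M (C₁ i k)) : S ⊕ Fin r → Fin N → M) (σ i) with hC
  -- the determinant on the left side
  have hdetL : w.1 (Matrix.of fun i k => (Sum.elim (fun b => grad (d b) (aM b) γ) C :
      ι ⊕ Fin (m + 2) → Fin N → M) i (J k)).det = vmax w.1 γ ^ (∑ b, (d b - 1)) := by
    have h1 : (Matrix.of fun i k => (Sum.elim (fun b => grad (d b) (aM b) γ) C :
        ι ⊕ Fin (m + 2) → Fin N → M) i (J k)) = Matrix.of fun i k =>
          (Sum.elim (fun b => γ l ^ (d b - 1)) (fun _ => 1) : ι ⊕ Fin (m + 2) → M) i *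
            (Matrix.of fun i k => (Sum.elim (fun b => grad (d b) (aM b) q) C :
              ι ⊕ Fin (m + 2) → Fin N → M) i (J k)) i k := by
      ext i k
      rcases i with i | i
      · simp only [Matrix.of_apply, Sum.elim_inl]
        conv_lhs => rw [hγq']
        exact grad_homog (hd i) _ _ _ _
      · simp only [Matrix.of_apply, Sum.elim_inr, one_mul]
    have h2 : (Matrix.of fun i k => (Sum.elim (fun b => grad (d b) (aM b) q) C :
        ι ⊕ Fin (m + 2) → Fin N → M) i (J k)) = (Matrix.of fun i k =>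
        (Sum.elim (fun b => grad (dd b) (fun I => algebraMap κ M (aa b I)) q)
        (fun i k => algebraMap κ M (C₁ i k)) : (ι ⊕ S) ⊕ Fin r → Fin N → M) i
          ((e₁.symm.trans J) k)).submatrix e₁ e₁ := by
      ext i k
      have hJ' : (e₁.symm.trans J) (e₁ k) = J k := by
        rw [Equiv.trans_apply, Equiv.symm_apply_apply]
      rw [Matrix.submatrix_apply, Matrix.of_apply, Matrix.of_apply, hJ']
      rcases i with i | i
      · rfl
      · show (Sum.elim (fun b : S => grad (d' b) (aM' b) q)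
          (fun i k => algebraMap κ M (C₁ i k)) : S ⊕ Fin r → Fin N → M) (σ i) (J k) = _
        have h3 : e₁ (Sum.inr i) = (Equiv.sumAssoc ι S (Fin r)).symm (Sum.inr (σ i)) := rfl
        rw [h3]
        rcases σ i with j | j
        · rfl
        · rfl
    rw [h1, Matrix.det_mul_column, h2, Matrix.det_submatrix_equiv_self, map_mul, hC₁, mul_one,
      map_prod, Fintype.prod_sum_type]
    simp only [Sum.elim_inl, Sum.elim_inr, map_one, Finset.prod_const_one, mul_one, map_pow]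
    rw [Finset.prod_pow_eq_pow_sum, hlv]
  -- the matrices on the right side
  have hder : ∀ (F : Derivation ℤ M M) (k : Fin N),
      (γ l)⁻¹ * F (γ k) = F (q k) + (γ l)⁻¹ * F (γ l) * q k := by
    intro F k
    conv_lhs => rw [hγq k]
    rw [Derivation.leibniz, smul_eq_mul, smul_eq_mul]
    field_simp
  set A₀ : Fin (m + 2) → Fin N → M := Fin.cons γ (Fin.cons (fun k => D (γ k))
    fun i k => E i (γ k)) with hA₀
  set A₁ : Fin (m + 2) → Fin N → M := Fin.cons q
    (Fin.cons (fun k => (γ l)⁻¹ * D (γ k)) fun i k => (γ l)⁻¹ * E i (γ k)) with hA₁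
  set A₂ : Fin (m + 2) → Fin N → M := Fin.cons q
    (Fin.cons (fun k => D (q k)) fun i k => E i (q k)) with hA₂
  set A₃ : Fin (m + 2) → Fin N → M := Fin.cons q
    (Fin.cons (fun k => D (q k)) fun i k => E' i (q k)) with hA₃
  have k1 : ∀ i k, A₀ i k = γ l * A₁ i k := by
    intro i k
    refine Fin.cases ?_ (fun i => Fin.cases ?_ (fun i => ?_) i) i
    · exact hγq k
    · show D (γ k) = γ l * ((γ l)⁻¹ * D (γ k))
      rw [mul_inv_cancel_left₀ hl0]
    · show E i (γ k) = γ l * ((γ l)⁻¹ * E i (γ k))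
      rw [mul_inv_cancel_left₀ hl0]
  have d1 : (Matrix.of fun i b => ∑ k, A₀ i k * C b k).det =
      γ l ^ (m + 2) * (Matrix.of fun i b => ∑ k, A₁ i k * C b k).det := by
    have h1 : (Matrix.of fun i b => ∑ k, A₀ i k * C b k) = Matrix.of fun i b =>
        (fun _ => γ l : Fin (m + 2) → M) i * (Matrix.of fun i b => ∑ k, A₁ i k * C b k) i b := by
      ext i b
      simp only [Matrix.of_apply]
      rw [Finset.mul_sum]
      refine Finset.sum_congr rfl fun k _ => ?_
      rw [k1, mul_assoc]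
    rw [h1, Matrix.det_mul_column, Finset.prod_const, Finset.card_univ, Fintype.card_fin]
  have d2 : (Matrix.of fun i b => ∑ k, A₁ i k * C b k).det =
      (Matrix.of fun i b => ∑ k, A₂ i k * C b k).det := by
    refine Matrix.det_eq_of_forall_row_eq_smul_add_const
      (Fin.cons 0 (Fin.cons ((γ l)⁻¹ * D (γ l)) fun i => (γ l)⁻¹ * E i (γ l)) :
        Fin (m + 2) → M) 0 ?_ ?_
    · simp
    · intro i b
      simp only [Matrix.of_apply]
      rw [Finset.mul_sum, ← Finset.sum_add_distrib]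
      refine Finset.sum_congr rfl fun k _ => ?_
      refine Fin.cases ?_ (fun i => Fin.cases ?_ (fun i => ?_) i) i
      · simp [hA₁, hA₂]
      · simp only [hA₁, hA₂, Fin.cons_succ, Fin.cons_zero]
        rw [hder D k]
        ring
      · simp only [hA₁, hA₂, Fin.cons_succ, Fin.cons_zero]
        rw [hder (E i) k]
        ring
  have d3 : (Matrix.of fun i b => ∑ k, A₂ i k * C b k).det =
      (Matrix.of fun i b => ∑ k, A₃ i k * C b k).det := by
    refine Matrix.det_eq_of_forall_row_eq_smul_add_const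
      (Fin.cons 0 (Fin.cons 0 c) : Fin (m + 2) → M) (Fin.succ 0) ?_ ?_
    · rw [Fin.cons_succ, Fin.cons_zero]
    · intro i b
      simp only [Matrix.of_apply]
      rw [Finset.mul_sum, ← Finset.sum_add_distrib]
      refine Finset.sum_congr rfl fun k _ => ?_
      refine Fin.cases ?_ (fun i => Fin.cases ?_ (fun i => ?_) i) i
      · simp [hA₂, hA₃]
      · simp [hA₂, hA₃]
      · simp only [hA₂, hA₃, Fin.cons_succ, Fin.cons_zero]
        rw [hE'a]
        ring
  -- the entries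
  have hconst : ∀ (R : Fin N → M) (ρ : ℤᵐ⁰) (t : Fin r), (∀ k, w.1 (R k) ≤ ρ) →
      w.1 (∑ k, R k * algebraMap κ M (C₁ t k)) ≤ ρ := by
    intro R ρ t hR
    refine Valuation.map_sum_le _ fun k _ => ?_
    rw [map_mul]
    calc w.1 (R k) * w.1 (algebraMap κ M (C₁ t k)) ≤ ρ * 1 :=
          mul_le_mul' (hR k) (place_const_le w _)
      _ = ρ := mul_one _
  have hgr : ∀ (F : Derivation ℤ M M) (b : Λ), (∀ I ∈ expo (Fin N) (d' b), F (aM' b I) = 0) →
      ∑ k, F (q k) * grad (d' b) (aM' b) q k = F (ψ b) := by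
    intro F b hFb
    have h1 := D_Fval (d' b) (aM' b) F q
    rw [Finset.sum_eq_zero (fun I hI => by rw [hFb I hI, zero_mul]), zero_add] at h1
    rw [hψ]
    simp only
    rw [h1]
    exact Finset.sum_congr rfl fun k _ => mul_comm _ _
  have hexp : (1 : ℤᵐ⁰) ≤ exp (ε : ℤ) := by
    rw [← exp_zero, exp_le_exp]
    exact Int.natCast_nonneg _
  have d4 : w.1 (Matrix.of fun i b => ∑ k, A₃ i k * C b k).det ≤
      β * exp (ε : ℤ) * ∏ b : S, w.1 (ψ b) := by
    refine (det_weights w.1 _ (Fin.cons 1 (Fin.cons (β * exp (ε : ℤ)) fun _ => 1) :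
      Fin (m + 2) → ℤᵐ⁰) (fun b => (Sum.elim (fun b : S => w.1 (ψ b)) (fun _ => 1) :
        S ⊕ Fin r → ℤᵐ⁰) (σ b)) ?_).trans (le_of_eq ?_)
    · intro i b
      rw [Matrix.of_apply]
      have hCb : C b = (Sum.elim (fun b : S => grad (d' b) (aM' b) q)
        (fun i k => algebraMap κ M (C₁ i k)) : S ⊕ Fin r → Fin N → M) (σ b) := rfl
      rw [hCb]
      rcases σ b with j | j
      · simp only [Sum.elim_inl]
        refine Fin.cases ?_ (fun i => Fin.cases ?_ (fun i => ?_) i) i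
        · simp only [hA₃, Fin.cons_zero, one_mul]
          have h1 : ∑ k, q k * grad (d' j) (aM' j) q k = (d' j : M) * ψ j := by
            rw [hψ]
            simp only
            rw [← grad_euler]
            exact Finset.sum_congr rfl fun k _ => mul_comm _ _
          rw [h1, map_mul]
          calc w.1 ((d' j : ℕ) : M) * w.1 (ψ j) ≤ 1 * w.1 (ψ j) :=
                mul_le_mul' (natCast_mem w.1.integer _) le_rfl
            _ = w.1 (ψ j) := one_mul _
        · simp only [hA₃, Fin.cons_succ, Fin.cons_zero]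
          rw [hgr D j (fun I _ => hκ _)]
          refine (der_small w hβ (hψ1 j)).trans ?_
          refine mul_le_mul' (mul_le_mul' le_rfl ?_) le_rfl
          rw [exp_le_exp]
          exact_mod_cast hεS j
        · simp only [hA₃, Fin.cons_succ, one_mul]
          rw [hgr (E' i) j (fun I hI => by
            rw [hE'a, haM']
            simp only
            rw [hEa' i j I hI, hκ, mul_zero, sub_zero])]
          exact der_small' w (hE'p i) hπ (hE'π i) (hψ1 j)
      · simp only [Sum.elim_inr, mul_one]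
        refine Fin.cases ?_ (fun i => Fin.cases ?_ (fun i => ?_) i) i
        · simp only [hA₃, Fin.cons_zero]
          exact hconst _ _ j hqv
        · simp only [hA₃, Fin.cons_succ, Fin.cons_zero]
          refine hconst _ _ j fun k => (hβ _ (hqv k)).trans ?_
          exact le_mul_of_one_le_right' hexp
        · simp only [hA₃, Fin.cons_succ]
          exact hconst _ _ j fun k => hE'p i _ (hqv k)
    · rw [Fin.prod_univ_succ, Fin.prod_univ_succ]
      simp only [Fin.cons_zero, Fin.cons_succ, Finset.prod_const_one, one_mul, mul_one]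
      congr 1
      rw [σ.prod_comp (fun x => (Sum.elim (fun b : S => w.1 (ψ b)) (fun _ => 1) :
        S ⊕ Fin r → ℤᵐ⁰) x), Fintype.prod_sum_type]
      simp
  have hmain := congrArg w.1 (hlam C)
  rw [map_mul, hdetL, d1, d2, d3, map_mul, map_pow, ← hlv] at hmain
  rw [hmain]
  have hprod : ∏ b, w.1 (Fval (d' b) (fun I => algebraMap κ M (a' b I)) γ) =
      vmax w.1 γ ^ (∑ b, d' b) * ∏ b, w.1 (ψ b) := by
    have h1 : ∀ b, w.1 (Fval (d' b) (fun I => algebraMap κ M (a' b I)) γ) =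
        vmax w.1 γ ^ d' b * w.1 (ψ b) := by
      intro b
      have h2 : Fval (d' b) (fun I => algebraMap κ M (a' b I)) γ = γ l ^ d' b * ψ b := hφψ b
      rw [h2, map_mul, map_pow, hlv]
    rw [Finset.prod_congr rfl fun b _ => h1 b, Finset.prod_mul_distrib,
      Finset.prod_pow_eq_pow_sum]
  rw [hprod, ← hprodψ]
  calc vmax w.1 γ ^ (m + 2) * w.1 (Matrix.of fun i b => ∑ k, A₃ i k * C b k).det *
        vmax w.1 γ ^ (∑ b, d' b)
      ≤ vmax w.1 γ ^ (m + 2) * (β * exp (ε : ℤ) * ∏ b : S, w.1 (ψ b)) *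
        vmax w.1 γ ^ (∑ b, d' b) := mul_le_mul' (mul_le_mul' le_rfl d4) le_rfl
    _ = vmax w.1 γ ^ (m + 2) * β * exp (ε : ℤ) *
        (vmax w.1 γ ^ (∑ b, d' b) * ∏ b : S, w.1 (ψ b)) := by
      simp only [mul_assoc]
      congr 3
      rw [mul_comm]

end

end Pool.Agent.Lib.MP_44a246_ntSH
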