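import Mathlib
import Pool.Agent.Lib.MP_44a246_ntSH.LA02

/-!
# Logarithmic adjunction (paper 667, 7.1)

For the general curve of a family which covers the complete intersection of the forms `b : ι` and
which is not contained in the hypersurfaces `c : Λ`:
`(∑ deg - N) height γ ≤ 2 genus - 2 + #(boundary places)`.
-/

namespace Pool.Agent.Lib.MP_44a246_ntSH

open Pool.Agent.Lib.MP_e52354_nt
open Pool.Agent.Lib.MP_44a246_nt
open Pool.Agent.Lib.MP_44a246_ntL
open Pool.Agent.Lib.MP_44a246_ntR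
open Pool.Agent.Lib.MP_44a246_ntS
open Pool.Agent.Lib.MP_44a246_ntE
open WithZero Polynomial

theorem log_prod_wz {α : Type*} (s : Finset α) {f : α → ℤᵐ⁰} (h : ∀ c ∈ s, f c ≠ 0) :
    log (∏ c ∈ s, f c) = ∑ c ∈ s, log (f c) := by
  classical
  induction s using Finset.induction_on with
  | empty => simp
  | insert a s ha ih =>
    rw [Finset.prod_insert ha, Finset.sum_insert ha, log_mul (h a (Finset.mem_insert_self _ _))
      (Finset.prod_ne_zero_iff.2 fun c hc => h c (Finset.mem_insert_of_mem hc)),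
      ih fun c hc => h c (Finset.mem_insert_of_mem hc)]

/-- The boundary places of the point `γ` for the forms `a' c` of degrees `d' c`. -/
def bdry {κ M : Type*} [Field κ] [Field M] [Algebra κ M] {N : ℕ} {Λ : Type*} (d' : Λ → ℕ)
    (a' : Λ → (Fin N →₀ ℕ) → κ) (γ : Fin N → M) : Set (Place κ M) :=
  {w | ∃ c, w.1 (Fval (d' c) (fun I => algebraMap κ M (a' c I)) γ) < vmax w.1 γ ^ d' c}

section

variable {κ M : Type*} [Field κ] [IsAlgClosed κ] [CharZero κ] [Field M] [Algebra κ M]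
  [Algebra κ[X] M] [IsScalarTower κ κ[X] M]
  [Algebra (RatFunc κ) M] [IsScalarTower κ[X] (RatFunc κ) M]
  [Algebra (Rinf κ) M] [IsScalarTower (Rinf κ) (RatFunc κ) M]
  [FiniteDimensional (RatFunc κ) M]

theorem bdry_finite {N : ℕ} {Λ : Type*} [Finite Λ] {d' : Λ → ℕ} {a' : Λ → (Fin N →₀ ℕ) → κ}
    {γ : Fin N → M} (hγ : γ ≠ 0)
    (hφ : ∀ c, Fval (d' c) (fun I => algebraMap κ M (a' c I)) γ ≠ 0) :
    (bdry d' a' γ).Finite := by
  have h1 : (⋃ c, {w : Place κ M | w.1 (Fval (d' c) (fun I => algebraMap κ M (a' c I)) γ) ≠ 1}).Finite :=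
    Set.finite_iUnion fun c => place_finite (hφ c)
  refine (h1.union (vmax_finite hγ)).subset ?_
  rintro w ⟨c, hc⟩
  by_contra hcon
  rw [Set.mem_union, not_or, Set.mem_iUnion, not_exists] at hcon
  have h2 : w.1 (Fval (d' c) (fun I => algebraMap κ M (a' c I)) γ) = 1 := not_not.1 (hcon.1 c)
  have h3 : vmax w.1 γ = 1 := not_not.1 hcon.2
  rw [h2, h3, one_pow] at hc
  exact lt_irrefl _ hc

/-- **The global inequality**, with the boundary. -/
theorem log_wedge_global {m N : ℕ} {ι Λ : Type*} [Fintype ι] [DecidableEq ι] [Fintype Λ]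
    [DecidableEq Λ] (hN : Fintype.card ι + (m + 2) = N) {d : ι → ℕ} (hd : ∀ b, 1 ≤ d b)
    {a : ι → (Fin N →₀ ℕ) → κ} {d' : Λ → ℕ} {a' : Λ → (Fin N →₀ ℕ) → κ}
    (hsm : ∀ (S : Finset Λ) (u : Fin N → κ), u ≠ 0 → (∀ b, Fval (d b) (a b) u = 0) →
      (∀ c ∈ S, Fval (d' c) (a' c) u = 0) →
      LinearIndependent κ (Sum.elim (fun b => grad (d b) (a b) u)
        (fun c : S => grad (d' c) (a' c) u)))
    (D : Derivation ℤ M M)
    (hκ : ∀ u : κ, D (algebraMap κ M u) = 0) (hX : D (algebraMap κ[X] M X) = 1)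
    (E : Fin m → Derivation ℤ M M)
    (hEκ : ∀ i, ∀ u : κ, ∃ u' : κ, E i (algebraMap κ M u) = algebraMap κ M u')
    (hEX : ∀ i, ∃ u : κ, E i (algebraMap κ[X] M X) = algebraMap κ M u)
    (hEa : ∀ i b, ∀ I ∈ expo (Fin N) (d b), E i (algebraMap κ M (a b I)) = 0)
    (hEa' : ∀ i c, ∀ I ∈ expo (Fin N) (d' c), E i (algebraMap κ M (a' c I)) = 0)
    {γ : Fin N → M} (hF : ∀ b, Fval (d b) (fun I => algebraMap κ M (a b I)) γ = 0)
    (hφ : ∀ c, Fval (d' c) (fun I => algebraMap κ M (a' c I)) γ ≠ 0)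
    (hind : LinearIndependent M (Fin.cons γ (Fin.cons (fun k => D (γ k)) fun i k => E i (γ k)) :
      Fin (m + 2) → Fin N → M)) :
    ((∑ b, ((d b : ℤ) - 1)) + ∑ c, (d' c : ℤ)) * height κ γ +
        2 * Module.finrank (RatFunc κ) M ≤
      (m + 2) * height κ γ + ramDeg κ M (RatFunc κ) + (bdry d' a' γ).ncard := by
  classical
  set aM : ι → (Fin N →₀ ℕ) → M := fun b I => algebraMap κ M (a b I) with haM
  set G : ι → Fin N → M := fun b => grad (d b) (aM b) γ with hG
  set A : Fin (m + 2) → Fin N → M :=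
    Fin.cons γ (Fin.cons (fun k => D (γ k)) fun i k => E i (γ k)) with hA
  have hγ : γ ≠ 0 := hind.ne_zero 0
  have htow : IsScalarTower κ (RatFunc κ) M := by
    refine IsScalarTower.of_algebraMap_eq fun c => ?_
    rw [IsScalarTower.algebraMap_apply κ κ[X] M, IsScalarTower.algebraMap_apply κ[X] (RatFunc κ) M,
      ← IsScalarTower.algebraMap_apply κ κ[X] (RatFunc κ)]
  have hXeq : tL κ M = algebraMap κ[X] M X := by
    unfold tL
    rw [IsScalarTower.algebraMap_apply κ[X] (RatFunc κ) M, RatFunc.algebraMap_X]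
  have hfin : (Module.finrank (RatFunc κ) M : ℤ) = height κ ![1, algebraMap κ[X] M X] := by
    rw [finrank_eq_height κ M, hXeq]
  rcases isEmpty_or_nonempty (Place κ M) with hemp | ⟨⟨w₀⟩⟩
  · have h1 : height κ γ = 0 := by
      unfold height
      exact finsum_of_isEmpty _
    have h2 : height κ ![1, algebraMap κ[X] M X] = 0 := by
      unfold height
      exact finsum_of_isEmpty _
    rw [hfin, h1, h2, mul_zero, mul_zero, mul_zero, zero_add, zero_add]
    positivity
  have hvγ : ∀ w : Place κ M, vmax w.1 γ ≠ 0 := fun w h => hγ ((vmax_eq_zero_iff w.1).mp h)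
  have hsm0 : ∀ u : Fin N → κ, u ≠ 0 → (∀ b, Fval (d b) (a b) u = 0) →
      LinearIndependent κ fun b => grad (d b) (a b) u := by
    intro u hu h0
    have h1 := hsm ∅ u hu h0 (fun c hc => absurd hc (Finset.notMem_empty c))
    exact h1.comp Sum.inl Sum.inl_injective
  have hGi : LinearIndependent M G := by
    let σ : ι ≃ Fin (Fintype.card ι) := Fintype.equivFin ι
    have h1 : LinearIndependent M fun i => G (σ.symm i) := by
      obtain ⟨J₀, hJ₀⟩ := exists_minor_grad w₀ (fun y hy => place_residue w₀ hy)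
        (d := fun i => d (σ.symm i)) (fun i => hd _) (a := fun i => a (σ.symm i))
        (fun u hu h0 => (hsm0 u hu fun b => by
          have h2 := h0 (σ b)
          rwa [σ.symm_apply_apply] at h2).comp σ.symm σ.symm.injective) hγ (fun i => hF _)
      refine Pool.Agent.Lib.MP_44a246_ntU.indep_of_minor (J := J₀) ?_
      intro h
      rw [show (Matrix.of fun b i => grad (d (σ.symm b))
        (fun I => algebraMap κ M (a (σ.symm b) I)) γ (J₀ i)).det = 0 from h, map_zero] at hJ₀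
      exact pow_ne_zero _ (hvγ w₀) hJ₀.symm
    have h2 := h1.comp σ σ.injective
    have h3 : (fun i => G (σ.symm i)) ∘ σ = G := by
      funext b
      rw [Function.comp_apply, σ.symm_apply_apply]
    rwa [h3] at h2
  -- orthogonality
  have horth : ∀ b i, ∑ k, G b k * A i k = 0 := by
    intro b i
    refine Fin.cases ?_ (fun i => ?_) i
    · show ∑ k, G b k * γ k = 0
      rw [hG]
      simp only
      rw [grad_euler, hF, mul_zero]
    · refine Fin.cases ?_ (fun i => ?_) i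
      · show ∑ k, G b k * D (γ k) = 0
        have h1 := D_Fval (d b) (aM b) D γ
        rw [hF, map_zero, Finset.sum_eq_zero (fun I _ => by
          rw [haM]; simp only; rw [hκ, zero_mul]), zero_add] at h1
        exact h1.symm
      · show ∑ k, G b k * E i (γ k) = 0
        have h1 := D_Fval (d b) (aM b) (E i) γ
        rw [hF, map_zero, Finset.sum_eq_zero (fun I hI => by
          rw [haM]; simp only; rw [hEa i b I hI, zero_mul]), zero_add] at h1
        exact h1.symm
  obtain ⟨J⟩ : Nonempty (ι ⊕ Fin (m + 2) ≃ Fin N) := by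
    refine ⟨Fintype.equivOfCardEq ?_⟩
    rw [Fintype.card_sum, Fintype.card_fin, Fintype.card_fin, hN]
  obtain ⟨lam, hlam⟩ := exists_lam2 J hGi horth
  have hlam0 : lam ≠ 0 := lam2_ne_zero J hind hlam
  -- the local estimate
  have hsd : ((∑ b, (d b - 1) : ℕ) : ℤ) = ∑ b, ((d b : ℤ) - 1) := by
    push_cast
    refine Finset.sum_congr rfl fun b _ => ?_
    rw [Nat.cast_sub (hd b), Nat.cast_one]
  obtain ⟨ε, hε⟩ : ∃ ε : Place κ M → ℕ, ∀ w, ε w = if w ∈ bdry d' a' γ then 1 else 0 :=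
    ⟨_, fun _ => rfl⟩
  have hloc : ∀ w : Place κ M, log (w.1 lam) +
      ((∑ b, ((d b : ℤ) - 1)) + ∑ c, (d' c : ℤ)) * log (vmax w.1 γ) +
      2 * log (vmax w.1 ![1, algebraMap κ[X] M X]) ≤
      ((m : ℤ) + 2) * log (vmax w.1 γ) + ((ramIdx (RatFunc κ) w.1 - 1 : ℕ) : ℤ) + (ε w : ℤ) +
        ∑ c, log (w.1 (Fval (d' c) (fun I => algebraMap κ M (a' c I)) γ)) := by
    intro w
    obtain ⟨β, hβ0, hβ, hβl⟩ : ∃ β : ℤᵐ⁰, β ≠ 0 ∧ (∀ y, w.1 y ≤ 1 → w.1 (D y) ≤ β) ∧
        log β + 2 * log (vmax w.1 ![1, algebraMap κ[X] M X]) ≤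
          ((ramIdx (RatFunc κ) w.1 - 1 : ℕ) : ℤ) := by
      rw [vmax_pair]
      rcases le_or_gt (w.1 (algebraMap κ[X] M X)) 1 with hw | hw
      · refine ⟨exp ((ramIdx (RatFunc κ) w.1 - 1 : ℕ) : ℤ), exp_ne_zero, fun y hy =>
          der_place w D (fun u => ⟨0, by rw [hκ, map_zero]⟩) ⟨1, by rw [hX, map_one]⟩ hy, ?_⟩
        rw [max_eq_left hw, log_one, log_exp, mul_zero, add_zero]
      · have hX0 : w.1 (algebraMap κ[X] M X) ≠ 0 := (lt_trans zero_lt_one hw).ne'
        refine ⟨exp (-1 : ℤ) * (w.1 (algebraMap κ[X] M X))⁻¹,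
          mul_ne_zero exp_ne_zero (inv_ne_zero hX0), fun y hy =>
          der_place_inf w D hκ hX hw hy, ?_⟩
        have h1 := log_le_ramIdx_inf w hw
        have h2 : 0 < log (w.1 (algebraMap κ[X] M X)) := by
          have h3 := (log_lt_log one_ne_zero hX0).mpr hw
          rwa [log_one] at h3
        rw [max_eq_right hw.le, log_mul exp_ne_zero (inv_ne_zero hX0), log_exp, log_inv]
        have h4 : 1 ≤ ramIdx (RatFunc κ) w.1 := by
          have h5 : (0 : ℤ) < (ramIdx (RatFunc κ) w.1 : ℤ) := lt_of_lt_of_le h2 h1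
          exact_mod_cast h5
        rw [Nat.cast_sub h4, Nat.cast_one]
        linarith
    have h1 := log_wedge_place w J hd hsm D hκ hX hβ E hEκ hEX hEa' hγ hF hlam (ε := ε w)
      (fun c hc => by rw [hε, if_pos (show w ∈ bdry d' a' γ from ⟨c, hc⟩)])
    have hl : w.1 lam ≠ 0 := (Valuation.ne_zero_iff w.1).mpr hlam0
    have hφw : ∀ c, w.1 (Fval (d' c) (fun I => algebraMap κ M (a' c I)) γ) ≠ 0 := fun c =>
      (Valuation.ne_zero_iff w.1).mpr (hφ c)
    have hprod0 : ∏ c, w.1 (Fval (d' c) (fun I => algebraMap κ M (a' c I)) γ) ≠ 0 :=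
      Finset.prod_ne_zero_iff.2 fun c _ => hφw c
    have h3 := (log_le_log (mul_ne_zero (mul_ne_zero hl (pow_ne_zero _ (hvγ w)))
      (pow_ne_zero _ (hvγ w))) (mul_ne_zero (mul_ne_zero (mul_ne_zero (pow_ne_zero _ (hvγ w)) hβ0)
        exp_ne_zero) hprod0)).mpr h1
    rw [log_mul (mul_ne_zero hl (pow_ne_zero _ (hvγ w))) (pow_ne_zero _ (hvγ w)),
      log_mul hl (pow_ne_zero _ (hvγ w)), log_mul (mul_ne_zero (mul_ne_zero
        (pow_ne_zero _ (hvγ w)) hβ0) exp_ne_zero) hprod0,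
      log_mul (mul_ne_zero (pow_ne_zero _ (hvγ w)) hβ0) exp_ne_zero,
      log_mul (pow_ne_zero _ (hvγ w)) hβ0,
      log_pow, log_pow, log_pow, log_exp, nsmul_eq_mul, nsmul_eq_mul, nsmul_eq_mul, hsd,
      log_prod_wz _ (fun c _ => hφw c)] at h3
    push_cast at h3 hβl ⊢
    linarith
  -- summation
  have hX1 : (![1, algebraMap κ[X] M X] : Fin 2 → M) ≠ 0 := by
    intro h
    have h1 := congrFun h 0
    simp at h1
  have hbf := bdry_finite hγ hφ
  have hφfin : (⋃ c, {w : Place κ M |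
      w.1 (Fval (d' c) (fun I => algebraMap κ M (a' c I)) γ) ≠ 1}).Finite :=
    Set.finite_iUnion fun c => place_finite (hφ c)
  let P : Finset (Place κ M) := (vmax_finite hγ).toFinset ∪ (place_finite hlam0).toFinset ∪
    (ramIdx_finite (κ := κ) (K := RatFunc κ) (L := M)).toFinset ∪ (vmax_finite hX1).toFinset ∪
    hbf.toFinset ∪ hφfin.toFinset
  have hP : ∀ v ∉ P, vmax v.1 γ = 1 ∧ v.1 lam = 1 ∧ ramIdx (RatFunc κ) v.1 = 1 ∧
      vmax v.1 ![1, algebraMap κ[X] M X] = 1 ∧ v ∉ bdry d' a' γ ∧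
      ∀ c, v.1 (Fval (d' c) (fun I => algebraMap κ M (a' c I)) γ) = 1 := by
    intro v hv
    simp only [P, Finset.mem_union, Set.Finite.mem_toFinset, not_or, Set.mem_ofPred_eq,
      not_not, Set.mem_iUnion, not_exists] at hv
    exact ⟨hv.1.1.1.1.1, hv.1.1.1.1.2, hv.1.1.1.2, hv.1.1.2, hv.1.2, hv.2⟩
  have hsum := Finset.sum_le_sum fun v (_ : v ∈ P) => hloc v
  rw [Finset.sum_add_distrib, Finset.sum_add_distrib, Finset.sum_add_distrib,
    Finset.sum_add_distrib, Finset.sum_add_distrib, ← Finset.mul_sum, ← Finset.mul_sum,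
    ← Finset.mul_sum] at hsum
  have e1 : ∑ v ∈ P, log (v.1 lam) = 0 := by
    rw [← product_formula (κ := κ) hlam0]
    symm
    refine finsum_eq_sum_of_support_subset _ fun v hv => ?_
    by_contra hvP
    apply hv
    simp only
    rw [(hP v hvP).2.1, log_one]
  have e2 : ∑ v ∈ P, log (vmax v.1 γ) = height κ γ := by
    symm
    refine finsum_eq_sum_of_support_subset _ fun v hv => ?_
    by_contra hvP
    apply hv
    simp only
    rw [(hP v hvP).1, log_one]
  have e3 : ∑ v ∈ P, log (vmax v.1 ![1, algebraMap κ[X] M X]) =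
      height κ ![1, algebraMap κ[X] M X] := by
    symm
    refine finsum_eq_sum_of_support_subset _ fun v hv => ?_
    by_contra hvP
    apply hv
    simp only
    rw [(hP v hvP).2.2.2.1, log_one]
  have e4 : ∑ v ∈ P, ((ramIdx (RatFunc κ) v.1 - 1 : ℕ) : ℤ) = (ramDeg κ M (RatFunc κ) : ℤ) := by
    rw [← Nat.cast_sum]
    congr 1
    symm
    refine finsum_eq_sum_of_support_subset _ fun v hv => ?_
    by_contra hvP
    apply hv
    simp only
    rw [(hP v hvP).2.2.1, Nat.sub_self]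
  have e5 : ∑ v ∈ P, (ε v : ℤ) = ((bdry d' a' γ).ncard : ℤ) := by
    rw [← Nat.cast_sum]
    congr 1
    rw [Finset.sum_congr rfl fun v _ => hε v, Finset.sum_boole, Nat.cast_id,
      Set.ncard_eq_toFinset_card _ hbf]
    congr 1
    ext v
    rw [Finset.mem_filter, Set.Finite.mem_toFinset]
    refine ⟨fun h => h.2, fun h => ⟨?_, h⟩⟩
    by_contra hvP
    exact (hP v hvP).2.2.2.2.1 h
  have e6 : ∑ v ∈ P, ∑ c, log (v.1 (Fval (d' c) (fun I => algebraMap κ M (a' c I)) γ)) = 0 := by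
    rw [Finset.sum_comm]
    refine Finset.sum_eq_zero fun c _ => ?_
    rw [← product_formula (κ := κ) (hφ c)]
    symm
    refine finsum_eq_sum_of_support_subset _ fun v hv => ?_
    by_contra hvP
    apply hv
    simp only
    rw [(hP v hvP).2.2.2.2.2 c, log_one]
  rw [e1, e2, e3, e4, e5, e6, zero_add, add_zero] at hsum
  rw [hfin]
  exact hsum

/-- **Logarithmic adjunction.** -/
theorem log_adj_genus {m N : ℕ} {ι Λ : Type*} [Fintype ι] [DecidableEq ι] [Fintype Λ]
    [DecidableEq Λ] (hN : Fintype.card ι + (m + 2) = N) {d : ι → ℕ} (hd : ∀ b, 1 ≤ d b)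
    {a : ι → (Fin N →₀ ℕ) → κ} {d' : Λ → ℕ} {a' : Λ → (Fin N →₀ ℕ) → κ}
    (hsm : ∀ (S : Finset Λ) (u : Fin N → κ), u ≠ 0 → (∀ b, Fval (d b) (a b) u = 0) →
      (∀ c ∈ S, Fval (d' c) (a' c) u = 0) →
      LinearIndependent κ (Sum.elim (fun b => grad (d b) (a b) u)
        (fun c : S => grad (d' c) (a' c) u)))
    (D : Derivation ℤ M M)
    (hκ : ∀ u : κ, D (algebraMap κ M u) = 0) (hX : D (algebraMap κ[X] M X) = 1)
    (E : Fin m → Derivation ℤ M M)
    (hEκ : ∀ i, ∀ u : κ, ∃ u' : κ, E i (algebraMap κ M u) = algebraMap κ M u')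
    (hEX : ∀ i, ∃ u : κ, E i (algebraMap κ[X] M X) = algebraMap κ M u)
    (hEa : ∀ i b, ∀ I ∈ expo (Fin N) (d b), E i (algebraMap κ M (a b I)) = 0)
    (hEa' : ∀ i c, ∀ I ∈ expo (Fin N) (d' c), E i (algebraMap κ M (a' c I)) = 0)
    {γ : Fin N → M} (hF : ∀ b, Fval (d b) (fun I => algebraMap κ M (a b I)) γ = 0)
    (hφ : ∀ c, Fval (d' c) (fun I => algebraMap κ M (a' c I)) γ ≠ 0)
    (hind : LinearIndependent M (Fin.cons γ (Fin.cons (fun k => D (γ k)) fun i k => E i (γ k)) :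
      Fin (m + 2) → Fin N → M)) :
    ((∑ b, (d b : ℤ)) + (∑ c, (d' c : ℤ)) - N) * height κ γ + 2 ≤
      2 * genus κ M + (bdry d' a' γ).ncard := by
  have htow : IsScalarTower κ (RatFunc κ) M := by
    refine IsScalarTower.of_algebraMap_eq fun c => ?_
    rw [IsScalarTower.algebraMap_apply κ κ[X] M, IsScalarTower.algebraMap_apply κ[X] (RatFunc κ) M,
      ← IsScalarTower.algebraMap_apply κ κ[X] (RatFunc κ)]
  have h1 := log_wedge_global hN hd hsm D hκ hX E hEκ hEX hEa hEa' hF hφ hind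
  have h2 := ramDeg_le κ M
  have h3 : ((∑ b, (d b : ℤ)) + (∑ c, (d' c : ℤ)) - N) * height κ γ =
      ((∑ b, ((d b : ℤ) - 1)) + ∑ c, (d' c : ℤ)) * height κ γ - (m + 2) * height κ γ := by
    have h4 : (N : ℤ) = Fintype.card ι + (m + 2) := by
      rw [← hN]
      push_cast
      ring
    rw [Finset.sum_sub_distrib, h4]
    simp only [Finset.sum_const, Finset.card_univ, nsmul_eq_mul, mul_one]
    ring
  rw [h3]
  linarith

end

/-- the smoothness of all partial intersections, from derivations dual to the coefficients -/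
theorem smooth_of_derL {κ : Type*} [Field κ] {n : ℕ} {ι Λ : Type*} [Fintype ι] [DecidableEq ι]
    [DecidableEq Λ] {d : ι → ℕ} {a : ι → (Fin n →₀ ℕ) → κ} {d' : Λ → ℕ}
    {a' : Λ → (Fin n →₀ ℕ) → κ} (W : ι ⊕ Λ → (Fin n →₀ ℕ) → Derivation ℤ κ κ)
    (hW : ∀ b, ∀ I ∈ expo (Fin n) (Sum.elim d d' b), ∀ b', ∀ J ∈ expo (Fin n) (Sum.elim d d' b'),
      W b I (Sum.elim a a' b' J) = if (b, I) = (b', J) then 1 else 0)
    (S : Finset Λ) (u : Fin n → κ) (hu : u ≠ 0) (hF : ∀ b, Fval (d b) (a b) u = 0)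
    (hF' : ∀ c ∈ S, Fval (d' c) (a' c) u = 0) :
    LinearIndependent κ (Sum.elim (fun b => grad (d b) (a b) u)
        (fun c : S => grad (d' c) (a' c) u)) := by
  classical
  set T : Finset (ι ⊕ Λ) := Finset.univ.disjSum S with hT
  have h1 := smooth_of_derF (d := Sum.elim d d') (a := Sum.elim a a') W hW T u hu (by
    intro b hb
    rcases b with b | b
    · exact hF b
    · refine hF' b ?_
      rw [hT, Finset.inr_mem_disjSum] at hb
      exact hb)
  have hmem : ∀ x : ι ⊕ S, (Sum.map id (fun c : S => (c : Λ)) x) ∈ T := by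
    intro x
    rcases x with x | x
    · rw [hT]
      exact Finset.inl_mem_disjSum.2 (Finset.mem_univ _)
    · rw [hT]
      exact Finset.inr_mem_disjSum.2 x.2
  have h2 := h1.comp (fun x : ι ⊕ S => (⟨_, hmem x⟩ : T)) (by
    intro x y hxy
    have h3 := congrArg Subtype.val hxy
    simp only at h3
    rcases x with x | x <;> rcases y with y | y
    · simpa using h3
    · simp at h3
    · simp at h3
    · have h4 : (x : Λ) = y := by simpa using h3
      rw [Subtype.ext h4])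
  have h3 : (Sum.elim (fun b => grad (d b) (a b) u) (fun c : S => grad (d' c) (a' c) u)) =
      (fun b : T => grad (Sum.elim d d' b) (Sum.elim a a' b) u) ∘
        (fun x : ι ⊕ S => (⟨_, hmem x⟩ : T)) := by
    funext x
    rcases x with x | x <;> rfl
  rw [h3]
  exact h2

end Pool.Agent.Lib.MP_44a246_ntSH
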