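import Mathlib
import Pool.Agent.Lib.MP_44a246_ntR.GR4
import Pool.Agent.Lib.MP_44a246_ntPC.E2
import Pool.Agent.Lib.MP_44a246_ntSH.PJ04a

/-!
# Stage II of paper 667: certificates for the dimension of a Riemann-Roch space
-/

namespace Pool.Agent.Lib.MP_44a246_ntSH

open Pool.Agent.Lib.MP_e52354_nt
open Pool.Agent.Lib.MP_44a246_nt
open Pool.Agent.Lib.MP_44a246_ntL
open Pool.Agent.Lib.MP_44a246_ntR
open Pool.Agent.Lib.MP_44a246_ntS
open Pool.Agent.Lib.MP_44a246_ntE
open Pool.Agent.Lib.MP_44a246_ntPC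
open Pool.Agent.Lib.MP_44a246_ntY
open WithZero Polynomial Module

/-- `q` independent elements `p i (X, Y) / s (X)` of the function field of the curve `A = 0`, with
poles at most those of `X ^ l`: they satisfy monic equations `e i` whose coefficients have the
expected degrees. The polynomials `p i` have the identity matrix as a block of the matrix of the
coefficients. -/
def RRcert {k : Type*} [Field k] (A : k[X][X]) (l q : ℕ) : Prop :=
  ∃ (μ : Fin q → ℕ × ℕ) (p : Fin q → k[X][X]) (s : k[X]) (e : Fin q → k[X][X]),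
    s.Monic ∧ (∀ i, (p i).natDegree < A.natDegree) ∧
    (∀ i j, ((p i).coeff (μ j).1).coeff (μ j).2 = if i = j then 1 else 0) ∧
    (∀ i, (e i).Monic) ∧
    (∀ i t, ((e i).coeff t).natDegree ≤ l * ((e i).natDegree - t)) ∧
    ∀ i, A ∣ ∑ t ∈ Finset.range ((e i).natDegree + 1),
      C ((e i).coeff t) * p i ^ t * C s ^ ((e i).natDegree - t)

end Pool.Agent.Lib.MP_44a246_ntSH
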