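import Mathlib
import Pool.Agent.Lib.MP_44a246_ntSH.PJ05d

/-!
# Stage II of paper 667: monic equations with the expected degrees
-/

namespace Pool.Agent.Lib.MP_44a246_ntSH

open Pool.Agent.Lib.MP_e52354_nt
open Pool.Agent.Lib.MP_44a246_nt
open Pool.Agent.Lib.MP_44a246_ntL
open Pool.Agent.Lib.MP_44a246_ntR
open Pool.Agent.Lib.MP_44a246_ntS
open Pool.Agent.Lib.MP_44a246_ntE
open Pool.Agent.Lib.MP_44a246_ntPC
open Pool.Agent.Lib.MP_44a246_ntY
open WithZero Polynomial Module

section

variable {κ M : Type*} [Field κ] [IsAlgClosed κ] [CharZero κ] [Field M] [Algebra κ M]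
  [Algebra κ[X] M] [IsScalarTower κ κ[X] M]
  [Algebra (RatFunc κ) M] [IsScalarTower κ[X] (RatFunc κ) M] [IsScalarTower κ (RatFunc κ) M]
  [Algebra (Rinf κ) M] [IsScalarTower (Rinf κ) (RatFunc κ) M]
  [FiniteDimensional (RatFunc κ) M]

/-- a function with poles at most those of `X ^ l` satisfies a monic equation whose coefficients
have the expected degrees -/
theorem exists_monic_eq {h : M} {l : ℕ}
    (hh : ∀ w : Place κ M, w.1 h ≤ max 1 (w.1 (algebraMap κ[X] M X)) ^ l) :
    ∃ e : κ[X][X], e.Monic ∧ aeval h e = 0 ∧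
      ∀ t, (e.coeff t).natDegree ≤ l * (e.natDegree - t) := by
  classical
  set x : M := algebraMap κ[X] M X with hx
  set a : RatFunc κ := algebraMap κ[X] (RatFunc κ) X with ha
  have hXne : (X : κ[X]) ≠ 0 := X_ne_zero
  have ha0 : a ≠ 0 := fun h => hXne (IsFractionRing.injective κ[X] (RatFunc κ)
    (h.trans (map_zero _).symm))
  have hxa : algebraMap (RatFunc κ) M a = x := by
    rw [ha, hx, IsScalarTower.algebraMap_apply κ[X] (RatFunc κ) M]
  have hx0 : x ≠ 0 := by
    rw [← hxa]
    exact fun h => ha0 ((algebraMap (RatFunc κ) M).injective (h.trans (map_zero _).symm))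
  have hf := faithful_RL κ[X] (RatFunc κ) M
  have htf : Module.IsTorsionFree κ[X] M := inferInstance
  -- integrality
  have h1 : IsIntegral κ[X] h := by
    refine isIntegral_of_places (κ := κ) (RatFunc κ) fun v hv => ?_
    have h3 := (place_poly_iff v).1 hv
    refine (hh v).trans (pow_le_one₀ zero_le (max_le le_rfl h3))
  let _ : Algebra κ (Rinf κ) := (constRinf κ).toAlgebra
  have ht : IsScalarTower κ (Rinf κ) M := by
    refine IsScalarTower.of_algebraMap_eq fun c => ?_
    rw [IsScalarTower.algebraMap_apply (Rinf κ) (RatFunc κ) M,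
      IsScalarTower.algebraMap_apply κ κ[X] M,
      IsScalarTower.algebraMap_apply κ[X] (RatFunc κ) M]
    rfl
  set b : RatFunc κ := a⁻¹ ^ l with hb
  have hb0 : b ≠ 0 := pow_ne_zero _ (inv_ne_zero ha0)
  have h2 : IsIntegral (Rinf κ) (algebraMap (RatFunc κ) M b * h) := by
    refine isIntegral_of_places (κ := κ) (RatFunc κ) fun v hv => ?_
    have h3 := (place_rinf_iff v).1 hv
    push Not at h3
    have h4 := hh v
    rw [max_eq_right h3.le] at h4
    rw [hb, map_pow, map_inv₀, hxa, map_mul, map_pow, map_inv₀]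
    have h5 : 0 < v.1 x := zero_lt_one.trans h3
    rw [mul_comm, inv_pow, ← div_eq_mul_inv]
    exact div_le_one_of_le₀ h4 (pow_pos h5 _).le
  have e1 := minpoly.isIntegrallyClosed_eq_field_fractions' (RatFunc κ) h1
  have e2 := minpoly.isIntegrallyClosed_eq_field_fractions' (RatFunc κ) h2
  set A := minpoly κ[X] h with hA
  have hAm : A.Monic := minpoly.monic h1
  have hAd : (minpoly (RatFunc κ) h).natDegree = A.natDegree := by
    rw [e1, hAm.natDegree_map]
  refine ⟨A, hAm, minpoly.aeval _ _, ?_⟩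
  -- the polynomial with the scaled roots
  set B := scaleRoots (minpoly (RatFunc κ) h) b with hB
  have hint : ∀ z : M, IsIntegral (RatFunc κ) z := fun z => IsIntegral.of_finite (RatFunc κ) z
  have hBm : B.Monic := by
    rw [hB, monic_scaleRoots_iff]
    exact minpoly.monic (hint h)
  have hB0 : aeval (algebraMap (RatFunc κ) M b * h) B = 0 :=
    scaleRoots_aeval_eq_zero (minpoly.aeval _ _)
  have hle : B.natDegree ≤ (minpoly (RatFunc κ) (algebraMap (RatFunc κ) M b * h)).natDegree := by
    have h3 : aeval (algebraMap (RatFunc κ) M b⁻¹ * (algebraMap (RatFunc κ) M b * h))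
        (scaleRoots (minpoly (RatFunc κ) (algebraMap (RatFunc κ) M b * h)) b⁻¹) = 0 :=
      scaleRoots_aeval_eq_zero (minpoly.aeval _ _)
    rw [← mul_assoc, ← map_mul, inv_mul_cancel₀ hb0, map_one, one_mul] at h3
    have h4 : (scaleRoots (minpoly (RatFunc κ) (algebraMap (RatFunc κ) M b * h)) b⁻¹).Monic := by
      rw [monic_scaleRoots_iff]
      exact minpoly.monic (hint _)
    have h5 := natDegree_le_of_dvd (minpoly.dvd _ _ h3) h4.ne_zero
    rw [natDegree_scaleRoots] at h5
    rwa [hB, natDegree_scaleRoots]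
  have hBe : minpoly (RatFunc κ) (algebraMap (RatFunc κ) M b * h) = B :=
    (eq_of_monic_of_dvd_of_natDegree_le (minpoly.monic (hint _)) hBm (minpoly.dvd _ _ hB0)
      hle).symm
  intro t
  by_cases hAi : A.coeff t = 0
  · rw [hAi, natDegree_zero]
    exact Nat.zero_le _
  have him : t ≤ A.natDegree := le_natDegree_of_ne_zero hAi
  have h3 : B.coeff t = algebraMap (Rinf κ) (RatFunc κ)
      ((minpoly (Rinf κ) (algebraMap (RatFunc κ) M b * h)).coeff t) := by
    rw [← hBe, e2, coeff_map]
  have h4 : (B.coeff t).intDegree ≤ 0 := by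
    rw [h3]
    exact (mem_Rinf κ).mp ((minpoly (Rinf κ) (algebraMap (RatFunc κ) M b * h)).coeff t).2
  rw [hB, coeff_scaleRoots, hAd, e1, coeff_map, hb, ← pow_mul] at h4
  have h5 : algebraMap κ[X] (RatFunc κ) (A.coeff t) ≠ 0 := fun h =>
    hAi (IsFractionRing.injective κ[X] (RatFunc κ) (h.trans (map_zero _).symm))
  have h6 : ∀ n : ℕ, (a⁻¹ ^ n).intDegree = -(n : ℤ) := by
    intro n
    induction n with
    | zero => simp
    | succ n ih =>
      rw [pow_succ, RatFunc.intDegree_mul (pow_ne_zero _ (inv_ne_zero ha0)) (inv_ne_zero ha0), ih,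
        RatFunc.intDegree_inv, ha, RatFunc.intDegree_polynomial, natDegree_X]
      push_cast
      ring
  rw [RatFunc.intDegree_mul h5 (pow_ne_zero _ (inv_ne_zero ha0)), h6,
    RatFunc.intDegree_polynomial] at h4
  omega

end

end Pool.Agent.Lib.MP_44a246_ntSH
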