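import Mathlib
import Pool.Agent.Lib.MP_44a246_ntSH.PJ05a

/-!
# Stage II of paper 667: from functions to certificates
-/

namespace Pool.Agent.Lib.MP_44a246_ntSH

open Pool.Agent.Lib.MP_e52354_nt
open Pool.Agent.Lib.MP_44a246_nt
open Pool.Agent.Lib.MP_44a246_ntL
open Pool.Agent.Lib.MP_44a246_ntR
open Pool.Agent.Lib.MP_44a246_ntS
open Pool.Agent.Lib.MP_44a246_ntE
open Pool.Agent.Lib.MP_44a246_ntPC
open Pool.Agent.Lib.MP_44a246_ntY
open WithZero Polynomial Module

section

/-- an independent family of `q` functions can be replaced, in its span, by one with the identity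
matrix as a block -/
theorem exists_idblock {κ V ι : Type*} [Field κ] [AddCommGroup V] [Module κ V]
    (φ : V →ₗ[κ] (ι → κ)) (hφ : Function.Injective φ) {q : ℕ} {h : Fin q → V}
    (hh : LinearIndependent κ h) :
    ∃ (μ : Fin q → ι) (g : Fin q → V), (∀ i, g i ∈ Submodule.span κ (Set.range h)) ∧
      ∀ i j, φ (g i) (μ j) = if i = j then 1 else 0 := by
  classical
  set U := Submodule.span κ (Set.range h) with hU
  have hfd : FiniteDimensional κ U := FiniteDimensional.span_of_finite κ (Set.finite_range h)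
  have hUq : finrank κ U = q := by
    rw [hU, finrank_span_eq_card hh, Fintype.card_fin]
  let ev : ι → Dual κ U := fun x => (LinearMap.proj x).comp (φ.comp U.subtype)
  have hev : Submodule.span κ (Set.range ev) = ⊤ := by
    have h1 : (Submodule.span κ (Set.range ev)).dualCoannihilator = ⊥ := by
      rw [eq_bot_iff]
      intro u hu
      rw [Submodule.mem_dualCoannihilator] at hu
      rw [Submodule.mem_bot]
      have h2 : φ (u : V) = 0 := by
        funext x
        exact hu (ev x) (Submodule.subset_span ⟨x, rfl⟩)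
      have h3 : (u : V) = 0 := hφ (h2.trans (map_zero φ).symm)
      exact Subtype.ext h3
    have h2 := Subspace.dualCoannihilator_dualAnnihilator_eq (W := Submodule.span κ (Set.range ev))
    rw [h1] at h2
    rw [← h2, Submodule.dualAnnihilator_bot]
  obtain ⟨s, hs, hsp, hli⟩ := exists_linearIndependent κ (Set.range ev)
  rw [hev] at hsp
  let b0 : Basis s κ (Dual κ U) := Basis.mk hli (by rw [Subtype.range_coe, hsp])
  have hsf : Fintype s := FiniteDimensional.fintypeBasisIndex b0
  have hc : Fintype.card s = q := by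
    rw [← finrank_eq_card_basis b0, Subspace.dual_finrank_eq, hUq]
  let e : s ≃ Fin q := Fintype.equivFinOfCardEq hc
  let b : Basis (Fin q) κ (Dual κ U) := b0.reindex e
  have hb : ∀ j, ∃ x, ev x = b j := by
    intro j
    have : b j = ((e.symm j : s) : Dual κ U) := by
      rw [Basis.reindex_apply, Basis.mk_apply]
    rw [this]
    exact hs (e.symm j).2
  choose μ hμ using hb
  refine ⟨μ, fun i => ((evalEquiv κ U).symm (b.dualBasis i) : U), fun i => Subtype.coe_prop _,
    fun i j => ?_⟩
  have h1 : φ (((evalEquiv κ U).symm (b.dualBasis i) : U) : V) (μ j) =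
      ev (μ j) ((evalEquiv κ U).symm (b.dualBasis i)) := rfl
  rw [h1, hμ j, Module.apply_evalEquiv_symm_apply, Basis.dualBasis_apply_self]
  by_cases hij : i = j
  · subst hij; simp
  · rw [if_neg hij, if_neg (fun h => hij h.symm)]

variable {κ M : Type*} [Field κ] [IsAlgClosed κ] [CharZero κ] [Field M] [Algebra κ M]
  [Algebra κ[X] M] [IsScalarTower κ κ[X] M]
  [Algebra (RatFunc κ) M] [IsScalarTower κ[X] (RatFunc κ) M] [IsScalarTower κ (RatFunc κ) M]
  [Algebra (Rinf κ) M] [IsScalarTower (Rinf κ) (RatFunc κ) M]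
  [FiniteDimensional (RatFunc κ) M]

omit [IsAlgClosed κ] [CharZero κ] [Algebra κ M] [IsScalarTower κ κ[X] M]
  [IsScalarTower κ (RatFunc κ) M] [Algebra (Rinf κ) M] [IsScalarTower (Rinf κ) (RatFunc κ) M] in
/-- every function is `p (X, Y) / s (X)` with `p` of degree less than that of `A` -/
theorem exists_num_den {A : κ[X][X]} {Y : M}
    (hgen : IntermediateField.adjoin (RatFunc κ) {Y} = ⊤)
    (hY : ∀ G : κ[X][X], aeval Y G = 0 ↔ A ∣ G) :
    0 < A.natDegree ∧ ∀ h : M, ∃ (p : κ[X][X]) (s : κ[X]), s.Monic ∧ p.natDegree < A.natDegree ∧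
      aeval Y p = algebraMap κ[X] M s * h := by
  classical
  have hint : IsIntegral (RatFunc κ) Y := IsIntegral.of_finite (RatFunc κ) Y
  have hinj : Function.Injective (algebraMap κ[X] (RatFunc κ)) := IsFractionRing.injective _ _
  have hev : ∀ G : κ[X][X], aeval Y (G.map (algebraMap κ[X] (RatFunc κ))) = aeval Y G :=
    fun G => aeval_map_algebraMap _ _ _
  -- clear denominators
  have hclear : ∀ g : (RatFunc κ)[X], ∃ (p : κ[X][X]) (s : κ[X]), s.Monic ∧
      p.natDegree ≤ g.natDegree ∧
      p.map (algebraMap κ[X] (RatFunc κ)) = C (algebraMap κ[X] (RatFunc κ) s) * g := by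
    intro g
    obtain ⟨s, hs⟩ := IsLocalization.integerNormalization_map_to_map (nonZeroDivisors κ[X]) g
    have hs0 : (s : κ[X]) ≠ 0 := nonZeroDivisors.coe_ne_zero s
    set p0 := IsLocalization.integerNormalization (nonZeroDivisors κ[X]) g with hp0
    have hl : (s : κ[X]).leadingCoeff ≠ 0 := leadingCoeff_ne_zero.2 hs0
    refine ⟨C (C (s : κ[X]).leadingCoeff⁻¹) * p0, C (s : κ[X]).leadingCoeff⁻¹ * s, ?_, ?_, ?_⟩
    · rw [mul_comm]
      exact monic_mul_leadingCoeff_inv hs0
    · have h1 : (C (C (s : κ[X]).leadingCoeff⁻¹) * p0).natDegree ≤ p0.natDegree :=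
        natDegree_C_mul_le _ _
      refine h1.trans ?_
      have h2 : (p0.map (algebraMap κ[X] (RatFunc κ))).natDegree = p0.natDegree :=
        natDegree_map_eq_of_injective hinj _
      rw [← h2, hs]
      refine (natDegree_smul_le _ _)
    · rw [Polynomial.map_mul, hs, map_C, map_mul, map_mul, mul_assoc]
      congr 1
      rw [Algebra.smul_def]
      rfl
  -- `A` is not zero
  obtain ⟨p1, s1, hs1, hp1, he1⟩ := hclear (minpoly (RatFunc κ) Y)
  have hA1 : A ∣ p1 := by
    rw [← hY, ← hev, he1, map_mul, minpoly.aeval, mul_zero]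
  have hp10 : p1 ≠ 0 := by
    intro h
    rw [h, Polynomial.map_zero] at he1
    rcases mul_eq_zero.1 he1.symm with h1 | h1
    · rw [C_eq_zero] at h1
      exact hs1.ne_zero (hinj (h1.trans (map_zero _).symm))
    · exact minpoly.ne_zero hint h1
  have hA0 : A ≠ 0 := fun h => hp10 (zero_dvd_iff.1 (h ▸ hA1))
  have hAz : aeval Y A = 0 := (hY A).2 dvd_rfl
  have hAm : minpoly (RatFunc κ) Y ∣ A.map (algebraMap κ[X] (RatFunc κ)) :=
    minpoly.dvd _ _ (by rw [hev, hAz])
  have hAd : (minpoly (RatFunc κ) Y).natDegree ≤ A.natDegree := by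
    have h1 := natDegree_le_of_dvd hAm (by rwa [Ne, Polynomial.map_eq_zero_iff hinj])
    rwa [natDegree_map_eq_of_injective hinj] at h1
  refine ⟨lt_of_lt_of_le (minpoly.natDegree_pos hint) hAd, fun h => ?_⟩
  have hmem : h ∈ Algebra.adjoin (RatFunc κ) {Y} := by
    have h1 : h ∈ IntermediateField.adjoin (RatFunc κ) {Y} := by rw [hgen]; trivial
    rw [← IntermediateField.mem_toSubalgebra,
      IntermediateField.adjoin_simple_toSubalgebra_of_isAlgebraic hint.isAlgebraic] at h1
    exact h1
  rw [Algebra.adjoin_singleton_eq_range_aeval] at hmem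
  obtain ⟨g, hg⟩ := hmem
  have hg : aeval Y g = h := hg
  set r := g %ₘ minpoly (RatFunc κ) Y with hr
  have hrY : aeval Y r = h := by
    rw [hr, aeval_modByMonic_eq_self_of_root (minpoly.aeval _ _), hg]
  have hrd : r.natDegree < (minpoly (RatFunc κ) Y).natDegree :=
    natDegree_modByMonic_lt _ (minpoly.monic hint) (minpoly.ne_one _ _)
  obtain ⟨p, s, hs, hp, he⟩ := hclear r
  refine ⟨p, s, hs, lt_of_le_of_lt hp (hrd.trans_le hAd), ?_⟩
  rw [← hev, he, map_mul, hrY, aeval_C, ← IsScalarTower.algebraMap_apply]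

/-- from functions to certificates -/
theorem rrcert_of_rr {A : κ[X][X]} {Y : M}
    (hgen : IntermediateField.adjoin (RatFunc κ) {Y} = ⊤)
    (hY : ∀ G : κ[X][X], aeval Y G = 0 ↔ A ∣ G) {P : Place κ M →₀ ℤ} (hP : IsPole P) {l q : ℕ}
    (hq : q ≤ finrank κ (rr (l • P))) : RRcert A l q := by
  classical
  obtain ⟨hApos, hnd⟩ := exists_num_den hgen hY
  obtain ⟨f, hf⟩ := exists_linearIndependent_of_le_finrank hq
  have hf' : LinearIndependent κ (fun i => (f i : M)) :=
    hf.map' (rr (l • P)).subtype (Submodule.ker_subtype _)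
  choose p0 s0 hs0 hp0 he0 using fun i => hnd (f i : M)
  -- the common denominator
  set s : κ[X] := ∏ i, s0 i with hs
  have hsm : s.Monic := monic_prod_of_monic _ _ fun i _ => hs0 i
  have hf0 := faithful_RL κ[X] (RatFunc κ) M
  have hinjM : Function.Injective (algebraMap κ[X] M) := FaithfulSMul.algebraMap_injective _ _
  have hsM : algebraMap κ[X] M s ≠ 0 := fun h =>
    hsm.ne_zero (hinjM (h.trans (map_zero _).symm))
  let p1 : Fin q → κ[X][X] := fun i => C (∏ j ∈ Finset.univ.erase i, s0 j) * p0 i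
  have hp1d : ∀ i, (p1 i).natDegree < A.natDegree := fun i =>
    lt_of_le_of_lt (natDegree_C_mul_le _ _) (hp0 i)
  have hp1e : ∀ i, aeval Y (p1 i) = algebraMap κ[X] M s * (f i : M) := by
    intro i
    rw [map_mul, aeval_C, he0, ← mul_assoc, ← map_mul, hs,
      Finset.prod_erase_mul _ _ (Finset.mem_univ i)]
  -- evaluation is linear over the constants
  let evY : κ[X][X] →ₗ[κ] M :=
    { toFun := fun G => aeval Y G
      map_add' := fun a b => map_add _ a b
      map_smul' := fun c a => by
        rw [RingHom.id_apply]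
        have h1 : c • a = C (C c) * a := by
          ext i j
          simp [coeff_C_mul]
        rw [h1, map_mul, aeval_C, Algebra.smul_def c, ← Polynomial.algebraMap_eq (R := κ),
          ← IsScalarTower.algebraMap_apply κ κ[X] M] }
  have hevY : ∀ G, evY G = aeval Y G := fun G => rfl
  have hp1li : LinearIndependent κ p1 := by
    refine LinearIndependent.of_comp evY ?_
    have h1 : (evY ∘ p1) = (LinearMap.mulLeft κ (algebraMap κ[X] M s)) ∘ (fun i => (f i : M)) := by
      funext i
      exact hp1e i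
    rw [h1]
    refine hf'.map' _ ?_
    rw [LinearMap.ker_eq_bot]
    exact mul_right_injective₀ hsM
  let φ : κ[X][X] →ₗ[κ] (ℕ × ℕ → κ) :=
    { toFun := fun G x => (G.coeff x.1).coeff x.2
      map_add' := fun a b => by funext x; simp
      map_smul' := fun c a => by funext x; simp }
  have hφ : Function.Injective φ := by
    intro a b hab
    ext i j
    exact congrFun hab (i, j)
  obtain ⟨μ, g, hg, hgμ⟩ := exists_idblock φ hφ hp1li
  -- the properties of the elements of the span
  have hprop : ∀ G ∈ Submodule.span κ (Set.range p1), G.natDegree < A.natDegree ∧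
      ∃ u ∈ rr (l • P), aeval Y G = algebraMap κ[X] M s * u := by
    intro G hG
    induction hG using Submodule.span_induction with
    | mem x hx =>
      obtain ⟨i, rfl⟩ := hx
      exact ⟨hp1d i, (f i : M), (f i).2, hp1e i⟩
    | zero =>
      refine ⟨by rwa [natDegree_zero], 0, Submodule.zero_mem _, by rw [map_zero, mul_zero]⟩
    | add x y _ _ hx hy =>
      obtain ⟨hx1, u, hu, hxu⟩ := hx
      obtain ⟨hy1, v, hv, hyv⟩ := hy
      exact ⟨lt_of_le_of_lt (natDegree_add_le _ _) (max_lt hx1 hy1), u + v,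
        Submodule.add_mem _ hu hv, by rw [map_add, hxu, hyv, mul_add]⟩
    | smul c x _ hx =>
      obtain ⟨hx1, u, hu, hxu⟩ := hx
      refine ⟨lt_of_le_of_lt (natDegree_smul_le _ _) hx1, c • u, Submodule.smul_mem _ _ hu, ?_⟩
      have := evY.map_smul c x
      rw [hevY, hevY] at this
      rw [this, hxu, mul_smul_comm]
  choose hgd u hu hgu using fun i => hprop (g i) (hg i)
  have hxt : algebraMap κ[X] M X = tL κ M := by
    rw [tL, IsScalarTower.algebraMap_apply κ[X] (RatFunc κ) M, RatFunc.algebraMap_X]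
  have hue : ∀ i, ∃ e : κ[X][X], e.Monic ∧ aeval (u i) e = 0 ∧
      ∀ t, (e.coeff t).natDegree ≤ l * (e.natDegree - t) := by
    intro i
    refine exists_monic_eq fun w => ?_
    have h1 : w.1 (u i) ≤ exp ((l • P) w) := hu i w
    refine h1.trans ?_
    rw [hxt]
    have ht0 : w.1 (tL κ M) ≠ 0 := by
      rw [w.1.ne_zero_iff]
      exact fun h => transcendental_tL (κ := κ) (L := M) (h ▸ isAlgebraic_zero)
    have h2 : exp (P w) = max 1 (w.1 (tL κ M)) := by
      rw [hP w]
      rcases le_total (w.1 (tL κ M)) 1 with h | h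
      · rw [max_eq_left h, max_eq_left, exp_zero]
        rw [log_le_iff_le_exp ht0, exp_zero]
        exact h
      · rw [max_eq_right h, max_eq_right, exp_log ht0]
        rw [le_log_iff_exp_le ht0, exp_zero]
        exact h
    rw [← h2, Finsupp.smul_apply, exp_nsmul]
  choose e hem hez hed using hue
  refine ⟨μ, g, s, e, hsm, hgd, hgμ, hem, hed, fun i => ?_⟩
  rw [← hY, map_sum]
  have h1 : ∀ t ∈ Finset.range ((e i).natDegree + 1),
      aeval Y (C ((e i).coeff t) * g i ^ t * C s ^ ((e i).natDegree - t)) =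
        algebraMap κ[X] M s ^ (e i).natDegree * (algebraMap κ[X] M ((e i).coeff t) * u i ^ t) := by
    intro t ht
    have ht' : t ≤ (e i).natDegree := Nat.lt_succ_iff.1 (Finset.mem_range.1 ht)
    rw [map_mul, map_mul, map_pow, map_pow, aeval_C, aeval_C, hgu, mul_pow]
    have h3 : algebraMap κ[X] M s ^ (e i).natDegree =
        algebraMap κ[X] M s ^ t * algebraMap κ[X] M s ^ ((e i).natDegree - t) := by
      rw [← pow_add, Nat.add_sub_cancel' ht']
    rw [h3]
    ring
  have hsum : ∑ t ∈ Finset.range ((e i).natDegree + 1),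
      algebraMap κ[X] M ((e i).coeff t) * u i ^ t = aeval (u i) (e i) := by
    rw [aeval_def, eval₂_eq_sum_range]
  rw [Finset.sum_congr rfl h1, ← Finset.mul_sum, hsum, hez, mul_zero]

end

end Pool.Agent.Lib.MP_44a246_ntSH
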