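import Mathlib
import Pool.Agent.Lib.MP_44a246_ntSH.PJ05d

/-!
# Stage II of paper 667: from certificates to functions
-/

namespace Pool.Agent.Lib.MP_44a246_ntSH

open Pool.Agent.Lib.MP_e52354_nt
open Pool.Agent.Lib.MP_44a246_nt
open Pool.Agent.Lib.MP_44a246_ntL
open Pool.Agent.Lib.MP_44a246_ntR
open Pool.Agent.Lib.MP_44a246_ntS
open Pool.Agent.Lib.MP_44a246_ntE
open Pool.Agent.Lib.MP_44a246_ntPC
open Pool.Agent.Lib.MP_44a246_ntY
open WithZero Polynomial Module

section

variable {κ M : Type*} [Field κ] [IsAlgClosed κ] [CharZero κ] [Field M] [Algebra κ M]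
  [Algebra κ[X] M] [IsScalarTower κ κ[X] M]
  [Algebra (RatFunc κ) M] [IsScalarTower κ[X] (RatFunc κ) M] [IsScalarTower κ (RatFunc κ) M]
  [Algebra (Rinf κ) M] [IsScalarTower (Rinf κ) (RatFunc κ) M]
  [FiniteDimensional (RatFunc κ) M]

omit [IsAlgClosed κ] [CharZero κ] [Algebra κ M] [IsScalarTower κ κ[X] M] [Algebra (Rinf κ) M]
  [IsScalarTower κ (RatFunc κ) M]
  [IsScalarTower (Rinf κ) (RatFunc κ) M] [FiniteDimensional (RatFunc κ) M] in
private theorem pj_algebraMap_X : algebraMap κ[X] M X = tL κ M := by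
  unfold tL
  rw [IsScalarTower.algebraMap_apply κ[X] (RatFunc κ) M, RatFunc.algebraMap_X]

omit [IsAlgClosed κ] [CharZero κ] [Algebra (Rinf κ) M]
  [IsScalarTower (Rinf κ) (RatFunc κ) M] [FiniteDimensional (RatFunc κ) M]
  [IsScalarTower κ (RatFunc κ) M] in
private theorem pj_val_poly (w : Place κ M) (c : κ[X]) :
    w.1 (algebraMap κ[X] M c) ≤ max 1 (w.1 (tL κ M)) ^ c.natDegree := by
  have h1 : algebraMap κ[X] M c = ∑ i ∈ Finset.range (c.natDegree + 1),
      algebraMap κ M (c.coeff i) * tL κ M ^ i := by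
    conv_lhs => rw [c.as_sum_range_C_mul_X_pow]
    rw [map_sum]
    refine Finset.sum_congr rfl fun i _ => ?_
    rw [map_mul, map_pow, pj_algebraMap_X]
    congr 1
    rw [IsScalarTower.algebraMap_apply κ κ[X] M]
    rfl
  rw [h1]
  refine w.1.map_sum_le fun i hi => ?_
  have hi' : i ≤ c.natDegree := by
    have := Finset.mem_range.1 hi
    omega
  rw [map_mul, map_pow]
  have h2 : w.1 (algebraMap κ M (c.coeff i)) ≤ 1 := by
    by_cases h0 : c.coeff i = 0
    · rw [h0, map_zero, map_zero]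
      exact zero_le_one
    · exact (w.2.2 _ h0).le
  calc w.1 (algebraMap κ M (c.coeff i)) * w.1 (tL κ M) ^ i
      ≤ 1 * max 1 (w.1 (tL κ M)) ^ i :=
        mul_le_mul' h2 (pow_le_pow_left' (le_max_right _ _) i)
    _ = max 1 (w.1 (tL κ M)) ^ i := one_mul _
    _ ≤ _ := pow_le_pow_right' (le_max_left _ _) hi'

omit [IsAlgClosed κ] [CharZero κ] [Algebra κ[X] M] [IsScalarTower κ κ[X] M]
  [IsScalarTower κ[X] (RatFunc κ) M] [Algebra (Rinf κ) M]
  [IsScalarTower (Rinf κ) (RatFunc κ) M] [FiniteDimensional (RatFunc κ) M] in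
private theorem pj_exp {P : Place κ M →₀ ℤ} (hP : IsPole P) (w : Place κ M) (l : ℕ) :
    exp ((l • P) w) = max 1 (w.1 (tL κ M)) ^ l := by
  have hne : w.1 (tL κ M) ≠ 0 := by
    rw [Valuation.ne_zero_iff]
    intro h
    exact transcendental_tL (κ := κ) (L := M) (h ▸ isAlgebraic_zero)
  have h1 : exp (P w) = max 1 (w.1 (tL κ M)) := by
    rw [hP w]
    rcases le_total (w.1 (tL κ M)) 1 with h | h
    · have h2 : log (w.1 (tL κ M)) ≤ 0 := by
        rw [log_le_iff_le_exp hne, exp_zero]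
        exact h
      rw [max_eq_left h2, max_eq_left h, exp_zero]
    · have h2 : 0 ≤ log (w.1 (tL κ M)) := by
        rw [le_log_iff_exp_le hne, exp_zero]
        exact h
      rw [max_eq_right h2, max_eq_right h, exp_log hne]
  rw [Finsupp.smul_apply, exp_nsmul, h1]

omit [IsAlgClosed κ] [CharZero κ] [Algebra (Rinf κ) M] [IsScalarTower κ (RatFunc κ) M]
  [IsScalarTower (Rinf κ) (RatFunc κ) M] [FiniteDimensional (RatFunc κ) M] in
private theorem pj_val_le (w : Place κ M) {e : κ[X][X]} (he : e.Monic) {l : ℕ}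
    (hd : ∀ t, (e.coeff t).natDegree ≤ l * (e.natDegree - t)) {h : M}
    (hh : ∑ t ∈ Finset.range (e.natDegree + 1), algebraMap κ[X] M (e.coeff t) * h ^ t = 0) :
    w.1 h ≤ max 1 (w.1 (tL κ M)) ^ l := by
  by_contra hlt
  rw [not_le] at hlt
  obtain ⟨b, hb⟩ : ∃ b, b = max 1 (w.1 (tL κ M)) := ⟨_, rfl⟩
  rw [← hb] at hlt
  have hb1 : 1 ≤ b := by
    rw [hb]
    exact le_max_left _ _
  have hb0 : 0 < b := zero_lt_one.trans_le hb1
  have hh0 : 0 < w.1 h := (pow_pos hb0 l).trans hlt
  rw [Finset.sum_range_succ, he.coeff_natDegree, map_one, one_mul] at hh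
  have h1 : h ^ e.natDegree =
      -∑ t ∈ Finset.range e.natDegree, algebraMap κ[X] M (e.coeff t) * h ^ t := by
    rw [eq_neg_iff_add_eq_zero, add_comm]
    exact hh
  have h2 : w.1 (h ^ e.natDegree) < w.1 h ^ e.natDegree := by
    conv_lhs => rw [h1]
    rw [Valuation.map_neg]
    refine w.1.map_sum_lt (pow_pos hh0 _).ne' fun t ht => ?_
    have ht' : t < e.natDegree := Finset.mem_range.1 ht
    obtain ⟨u, hu⟩ : ∃ u, e.natDegree = t + (u + 1) := ⟨e.natDegree - t - 1, by omega⟩
    rw [map_mul, map_pow]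
    have h3 : w.1 (algebraMap κ[X] M (e.coeff t)) ≤ (b ^ l) ^ (u + 1) := by
      refine (pj_val_poly w _).trans ?_
      rw [← hb, ← pow_mul]
      refine pow_le_pow_right' hb1 ((hd t).trans (le_of_eq ?_))
      rw [hu]
      congr 1
      omega
    have h4 : (b ^ l) ^ (u + 1) < w.1 h ^ (u + 1) :=
      pow_lt_pow_left₀ hlt zero_le (Nat.succ_ne_zero _)
    calc w.1 (algebraMap κ[X] M (e.coeff t)) * w.1 h ^ t
        ≤ (b ^ l) ^ (u + 1) * w.1 h ^ t := mul_le_mul' h3 le_rfl
      _ < w.1 h ^ (u + 1) * w.1 h ^ t := mul_lt_mul_of_pos_right h4 (pow_pos hh0 _)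
      _ = w.1 h ^ e.natDegree := by rw [← pow_add, hu, add_comm]
  rw [map_pow] at h2
  exact lt_irrefl _ h2

omit [IsAlgClosed κ] [CharZero κ] [Algebra κ M] [IsScalarTower κ κ[X] M]
  [IsScalarTower κ (RatFunc κ) M] [Algebra (Rinf κ) M] [Algebra (RatFunc κ) M]
  [IsScalarTower κ[X] (RatFunc κ) M]
  [IsScalarTower (Rinf κ) (RatFunc κ) M] [FiniteDimensional (RatFunc κ) M] in
private theorem pj_eq {A : κ[X][X]} {Y : M} (hY : ∀ G : κ[X][X], aeval Y G = 0 ↔ A ∣ G)
    {p e : κ[X][X]} {s : κ[X]} (hs : algebraMap κ[X] M s ≠ 0)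
    (h : A ∣ ∑ t ∈ Finset.range (e.natDegree + 1),
      C (e.coeff t) * p ^ t * C s ^ (e.natDegree - t)) :
    ∑ t ∈ Finset.range (e.natDegree + 1),
      algebraMap κ[X] M (e.coeff t) * (aeval Y p / algebraMap κ[X] M s) ^ t = 0 := by
  have h1 := (hY _).2 h
  rw [map_sum] at h1
  have h2 : (algebraMap κ[X] M s) ^ e.natDegree ≠ 0 := pow_ne_zero _ hs
  refine (mul_eq_zero.1 (?_ : (algebraMap κ[X] M s) ^ e.natDegree * _ = 0)).resolve_left h2
  rw [← h1, Finset.mul_sum]
  refine Finset.sum_congr rfl fun t ht => ?_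
  have ht' : t ≤ e.natDegree := by
    have := Finset.mem_range.1 ht
    omega
  obtain ⟨u, hu⟩ := Nat.exists_eq_add_of_le ht'
  rw [hu, Nat.add_sub_cancel_left, map_mul, map_mul, map_pow, map_pow, aeval_C, aeval_C, pow_add,
    div_pow]
  field_simp

/-- from certificates to functions -/
theorem RRcert.le_finrank {A : κ[X][X]} {Y : M} (hA : Irreducible A)
    (hY : ∀ G : κ[X][X], aeval Y G = 0 ↔ A ∣ G) {P : Place κ M →₀ ℤ} (hP : IsPole P) {l q : ℕ}
    (h : RRcert A l q) : q ≤ finrank κ (rr (l • P)) := by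
  -- `h i = aeval Y (p i) / s (X)`, in `rr (l • P)` by the monic equation (at a place `w`: if
  -- `w h > max 1 (w X) ^ l` then the leading term dominates); independent over `κ`: a combination
  -- of the `p i` of degree `< A.natDegree` divisible by `A` is zero, look at the coefficients `μ j`.
  -- `finite_rr` (MP_44a246_ntR/GR1)
  obtain ⟨μ, p, s, e, hs, hpd, hpμ, he, hed, hdvd⟩ := h
  have hinj : Function.Injective (algebraMap κ[X] M) := by
    rw [IsScalarTower.algebraMap_eq κ[X] (RatFunc κ) M]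
    exact (algebraMap (RatFunc κ) M).injective.comp (IsFractionRing.injective κ[X] (RatFunc κ))
  have hs0 : algebraMap κ[X] M s ≠ 0 := by
    rw [Ne, map_eq_zero_iff _ hinj]
    exact hs.ne_zero
  have hFF : IsFF κ M := isFF_of_ratFunc κ M
  have hfin : FiniteDimensional κ (rr (l • P)) := finite_rr hFF _
  have hmem : ∀ i, aeval Y (p i) / algebraMap κ[X] M s ∈ rr (l • P) := by
    intro i w
    rw [pj_exp hP]
    exact pj_val_le w (he i) (hed i) (pj_eq hY hs0 (hdvd i))
  let f : Fin q → rr (l • P) := fun i => ⟨aeval Y (p i) / algebraMap κ[X] M s, hmem i⟩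
  have hlin : LinearIndependent κ f := by
    rw [Fintype.linearIndependent_iff]
    intro a ha j
    have h1 : ∑ i, a i • (aeval Y (p i) / algebraMap κ[X] M s) = 0 := by
      have h2 := congrArg (fun z : rr (l • P) => (z : M)) ha
      simpa [f] using h2
    have h2 : aeval Y (∑ i, C (C (a i)) * p i) = 0 := by
      have h3 : aeval Y (∑ i, C (C (a i)) * p i) =
          algebraMap κ[X] M s * ∑ i, a i • (aeval Y (p i) / algebraMap κ[X] M s) := by
        rw [map_sum, Finset.mul_sum]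
        refine Finset.sum_congr rfl fun i _ => ?_
        rw [map_mul, aeval_C, Algebra.smul_def]
        have h4 : algebraMap κ[X] M (C (a i)) = algebraMap κ M (a i) := by
          rw [IsScalarTower.algebraMap_apply κ κ[X] M]
          rfl
        rw [h4]
        field_simp
      rw [h3, h1, mul_zero]
    rw [hY] at h2
    have h5 : ∑ i, C (C (a i)) * p i = 0 := by
      refine eq_zero_of_dvd_of_natDegree_lt h2 ?_
      have hA0 : 0 < A.natDegree := (Nat.zero_le _).trans_lt (hpd j)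
      have h6 : (∑ i, C (C (a i)) * p i).natDegree ≤ A.natDegree - 1 := by
        refine natDegree_sum_le_of_forall_le _ _ fun i _ => ?_
        refine (natDegree_C_mul_le _ _).trans ?_
        have := hpd i
        omega
      omega
    have h7 := congrArg (fun G : κ[X][X] => (G.coeff (μ j).1).coeff (μ j).2) h5
    simp only [finsetSum_coeff, coeff_C_mul, hpμ, coeff_zero] at h7
    simpa using h7
  have h8 := hlin.fintype_card_le_finrank
  rwa [Fintype.card_fin] at h8

end

end Pool.Agent.Lib.MP_44a246_ntSH
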