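import Mathlib
import Pool.Agent.Lib.MP_44a246_ntSH.PJ05d

/-!
# Stage II of paper 667: descent of certificates
-/

namespace Pool.Agent.Lib.MP_44a246_ntSH

open Pool.Agent.Lib.MP_e52354_nt
open Pool.Agent.Lib.MP_44a246_nt
open Pool.Agent.Lib.MP_44a246_ntL
open Pool.Agent.Lib.MP_44a246_ntR
open Pool.Agent.Lib.MP_44a246_ntS
open Pool.Agent.Lib.MP_44a246_ntE
open Pool.Agent.Lib.MP_44a246_ntPC
open Pool.Agent.Lib.MP_44a246_ntY
open WithZero Polynomial Module

/-- certificates descend to an algebraically closed subfield -/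
theorem RRcert.descend {k₀ k : Type*} [Field k₀] [IsAlgClosed k₀] [Field k] [Algebra k₀ k]
    {A : k₀[X][X]} {l q : ℕ} (h : RRcert (ex k A) l q) : RRcert A l q := by
  classical
  obtain ⟨μ, p, s, e, hs, hp, hμ, he, hdeg, hdvd⟩ := h
  choose Q hQ using hdvd
  obtain ⟨R, φ, hF, -⟩ := exists_spec (k₀ := k₀)
    (insert (C s) (Finset.univ.image p ∪ Finset.univ.image e ∪ Finset.univ.image Q)) ∅
    (fun t ht => absurd ht (Finset.notMem_empty t))
  have hinj : Function.Injective (algebraMap R k) := Subtype.val_injective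
  have hinj1 : Function.Injective (mapRingHom (algebraMap R k)) := map_injective _ hinj
  have hinj2 : Function.Injective (m2 (algebraMap R k)) := map_injective _ hinj1
  have hp1 : ∀ i, ∃ P' : R[X][X], m2 (algebraMap R k) P' = p i := fun i => hF _ (by simp)
  have he1 : ∀ i, ∃ P' : R[X][X], m2 (algebraMap R k) P' = e i := fun i => hF _ (by simp)
  have hQ1 : ∀ i, ∃ P' : R[X][X], m2 (algebraMap R k) P' = Q i := fun i => hF _ (by simp)
  choose p' hp' using hp1
  choose e' he' using he1
  choose Q' hQ' using hQ1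
  obtain ⟨S', hS'⟩ := hF (C s) (by simp)
  set s' : R[X] := S'.coeff 0 with hs'def
  have hs' : s'.map (algebraMap R k) = s := by
    have h1 := congrArg (fun P : k[X][X] => P.coeff 0) hS'
    simp only [coe_mapRingHom, coeff_map, coeff_C_zero] at h1
    exact h1
  have hs'm : s'.Monic := by
    rw [Monic, ← hinj.eq_iff, ← leadingCoeff_map_of_injective hinj, hs', map_one]
    exact hs
  have he'm : ∀ i, (e' i).Monic := by
    intro i
    rw [Monic, ← hinj1.eq_iff, ← leadingCoeff_map_of_injective hinj1, map_one]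
    have h1 := he' i
    rw [coe_mapRingHom] at h1
    rw [h1]
    exact he i
  have hed : ∀ i, (e' i).natDegree = (e i).natDegree := by
    intro i
    have h1 := he' i
    rw [coe_mapRingHom] at h1
    rw [← h1, natDegree_map_eq_of_injective hinj1]
  have hpd : ∀ i, (p' i).natDegree = (p i).natDegree := by
    intro i
    have h1 := hp' i
    rw [coe_mapRingHom] at h1
    rw [← h1, natDegree_map_eq_of_injective hinj1]
  have hAd : (ex k A).natDegree = A.natDegree := by
    unfold ex
    exact natDegree_map_eq_of_injective (map_injective _ (algebraMap k₀ k).injective) A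
  set a : R[X][X] := m2 (algebraMap k₀ R) A with ha
  have haA : m2 (algebraMap R k) a = ex k A := by
    have h0 : ex k A = m2 (algebraMap k₀ k) A := rfl
    rw [ha, h0]
    ext i j
    rw [m2_coeff, m2_coeff, m2_coeff, ← IsScalarTower.algebraMap_apply]
  have haφ : m2 (φ : R →+* k₀) a = A := by
    ext i j
    rw [ha, m2_coeff, m2_coeff]
    exact φ.commutes _
  have hmain : ∀ i, ∑ t ∈ Finset.range ((e' i).natDegree + 1),
      C ((e' i).coeff t) * p' i ^ t * C s' ^ ((e' i).natDegree - t) = a * Q' i := by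
    intro i
    apply hinj2
    rw [map_mul, haA, hQ', ← hQ i, map_sum, hed i]
    refine Finset.sum_congr rfl fun t _ => ?_
    have h1 : m2 (algebraMap R k) (C ((e' i).coeff t)) = C ((e i).coeff t) := by
      rw [← he' i]
      simp only [coe_mapRingHom, map_C, coeff_map]
    have h2 : m2 (algebraMap R k) (C s') = C s := by
      simp only [coe_mapRingHom, map_C]
      rw [hs']
    rw [map_mul, map_mul, map_pow, map_pow, hp' i, h1, h2]
  have hed2 : ∀ i, (m2 (φ : R →+* k₀) (e' i)).natDegree = (e' i).natDegree := by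
    intro i
    rw [coe_mapRingHom]
    exact (he'm i).natDegree_map _
  refine ⟨μ, fun i => m2 (φ : R →+* k₀) (p' i), s'.map (φ : R →+* k₀),
    fun i => m2 (φ : R →+* k₀) (e' i), hs'm.map _, fun i => ?_, fun i j => ?_, fun i => ?_,
    fun i t => ?_, fun i => ?_⟩
  · have h1 := hp i
    rw [hAd, ← hpd i] at h1
    refine lt_of_le_of_lt ?_ h1
    rw [coe_mapRingHom]
    exact natDegree_map_le
  · have h1 := hμ i j
    rw [← hp' i, m2_coeff] at h1
    rw [m2_coeff]
    by_cases hij : i = j
    · rw [if_pos hij] at h1 ⊢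
      have h2 : ((p' i).coeff (μ j).1).coeff (μ j).2 = 1 := hinj (by rw [h1, map_one])
      rw [h2, map_one]
    · rw [if_neg hij] at h1 ⊢
      have h2 : ((p' i).coeff (μ j).1).coeff (μ j).2 = 0 := hinj (by rw [h1, map_zero])
      rw [h2, map_zero]
  · rw [coe_mapRingHom]
    exact (he'm i).map _
  · rw [hed2, hed]
    refine le_trans ?_ (hdeg i t)
    have h1 : ((e i).coeff t).natDegree = ((e' i).coeff t).natDegree := by
      rw [← he' i, coe_mapRingHom, coeff_map, coe_mapRingHom,
        natDegree_map_eq_of_injective hinj]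
    rw [h1, coe_mapRingHom, coeff_map, coe_mapRingHom]
    exact natDegree_map_le
  · rw [hed2]
    refine ⟨m2 (φ : R →+* k₀) (Q' i), ?_⟩
    have h1 := congrArg (m2 (φ : R →+* k₀)) (hmain i)
    rw [map_mul, haφ] at h1
    rw [← h1, map_sum]
    refine Finset.sum_congr rfl fun t _ => ?_
    rw [map_mul, map_mul, map_pow, map_pow]
    simp only [coe_mapRingHom, map_C, coeff_map]

end Pool.Agent.Lib.MP_44a246_ntSH
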