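import Mathlib
import Pool.Agent.Lib.MP_44a246_ntR.GR4
import Pool.Agent.Lib.MP_44a246_ntSH.PJ05d

/-!
# Stage II of paper 667: a bound for the genus
-/

namespace Pool.Agent.Lib.MP_44a246_ntSH

open Pool.Agent.Lib.MP_e52354_nt
open Pool.Agent.Lib.MP_44a246_nt
open Pool.Agent.Lib.MP_44a246_ntL
open Pool.Agent.Lib.MP_44a246_ntR
open Pool.Agent.Lib.MP_44a246_ntS
open Pool.Agent.Lib.MP_44a246_ntE
open Pool.Agent.Lib.MP_44a246_ntPC
open Pool.Agent.Lib.MP_44a246_ntY
open WithZero Polynomial Module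

/-- the genus is bounded by the dimensions of the Riemann-Roch spaces of the multiples of the
divisor of the poles of `X` -/
theorem genus_le_of_pole {κ M : Type*} [Field κ] [IsAlgClosed κ] [CharZero κ] [Field M]
    [Algebra κ M] [Algebra (RatFunc κ) M] [IsScalarTower κ (RatFunc κ) M]
    [FiniteDimensional (RatFunc κ) M] {P : Place κ M →₀ ℤ} (hP : IsPole P) {g : ℕ}
    (h : ∀ l : ℕ, (l * finrank (RatFunc κ) M : ℤ) + 1 - g ≤ finrank κ (rr (l • P))) :
    genus κ M ≤ g := by
  have hF : IsFF κ M := isFF_of_ratFunc κ M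
  have hdeg : ∀ m : ℕ, divDeg (m • P) = m * Module.finrank (RatFunc κ) M := by
    intro m
    induction m with
    | zero => simp [divDeg]
    | succ k ih =>
      rw [succ_nsmul, divDeg_add, ih, hP.deg]
      push_cast
      ring
  refine Nat.sInf_le ?_
  intro D
  obtain ⟨p, hp, m, hm⟩ := clear_poles hP D
  obtain ⟨D', hD', hdeg', hfr⟩ := rr_shift hF D (gr4_pL_ne (L := M) hp)
  have hle : D' ≤ m • P := by
    intro v
    rw [hD' v]
    have := hm v
    simpa using this
  have h1 := finrank_rr_le hF hle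
  rw [hdeg m, hdeg', hfr] at h1
  have h2 := h m
  linarith

end Pool.Agent.Lib.MP_44a246_ntSH
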