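import Mathlib
import Pool.Agent.Lib.MP_44a246_ntE.E10
import Pool.Agent.Lib.MP_44a246_ntSH.PJ05b
import Pool.Agent.Lib.MP_44a246_ntSH.PJ05c
import Pool.Agent.Lib.MP_44a246_ntSH.PJ05e
import Pool.Agent.Lib.MP_44a246_ntSH.PJ06a

/-!
# Stage II of paper 667: the genus does not increase under descent to an algebraically closed
subfield
-/

namespace Pool.Agent.Lib.MP_44a246_ntSH

open Pool.Agent.Lib.MP_e52354_nt
open Pool.Agent.Lib.MP_44a246_nt
open Pool.Agent.Lib.MP_44a246_ntL
open Pool.Agent.Lib.MP_44a246_ntR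
open Pool.Agent.Lib.MP_44a246_ntS
open Pool.Agent.Lib.MP_44a246_ntE
open Pool.Agent.Lib.MP_44a246_ntPC
open Pool.Agent.Lib.MP_44a246_ntY
open WithZero Polynomial Module

/-- the field generated by `x, y` over `κ` is generated by `y` over `κ (x)` -/
private theorem pj06_gen {κ M : Type*} [Field κ] [Field M] [Algebra κ M] [Algebra (RatFunc κ) M]
    [IsScalarTower κ (RatFunc κ) M] {x y : M}
    (hX : tL κ M = x) (hgen : IntermediateField.adjoin κ {x, y} = ⊤) :
    IntermediateField.adjoin (RatFunc κ) {y} = ⊤ := by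
  rw [eq_top_iff]
  intro z _
  have h1 : z ∈ IntermediateField.adjoin κ {x, y} := by
    rw [hgen]
    exact IntermediateField.mem_top
  have h2 : IntermediateField.adjoin κ {x, y} ≤
      (IntermediateField.adjoin (RatFunc κ) {y}).restrictScalars κ := by
    rw [IntermediateField.adjoin_le_iff]
    rintro t (rfl | ht)
    · change _ ∈ IntermediateField.adjoin (RatFunc κ) {y}
      rw [← hX]
      exact (IntermediateField.adjoin (RatFunc κ) {y}).algebraMap_mem _
    · change t ∈ IntermediateField.adjoin (RatFunc κ) {y}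
      exact IntermediateField.subset_adjoin (RatFunc κ) {y} ht
  exact h2 h1

/-- the field of functions of a plane curve -/
private theorem pj06_isFF {κ M : Type*} [Field κ] [Field M] [Algebra κ M] {x y : M}
    (hX : Transcendental κ x) (hgen : IntermediateField.adjoin κ {x, y} = ⊤) {A : κ[X][X]}
    (hA0 : A ≠ 0) (hA : ev (algebraMap κ M) x y A = 0) : IsFF κ M := by
  refine ⟨x, hX, ?_⟩
  let F := IntermediateField.adjoin κ {x}
  let g : F := ⟨x, IntermediateField.subset_adjoin κ {x} (Set.mem_singleton x)⟩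
  let φ : κ[X] →+* F := eval₂RingHom (algebraMap κ F) g
  have hφ : ∀ p : κ[X], ((φ p : F) : M) = aeval x p := by
    intro p
    change algebraMap F M (eval₂ (algebraMap κ F) g p) = _
    rw [hom_eval₂, ← IsScalarTower.algebraMap_eq κ F M, aeval_def]
    rfl
  have hinj : Function.Injective φ := by
    rw [injective_iff_map_eq_zero]
    intro p hp
    have h1 : aeval x p = 0 := by
      rw [← hφ, hp]
      rfl
    exact (transcendental_iff.1 hX) p h1
  have halg : IsAlgebraic F y := by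
    refine ⟨A.map φ, (Polynomial.map_ne_zero_iff hinj).2 hA0, ?_⟩
    rw [aeval_def, eval₂_map]
    have h1 : (algebraMap F M).comp φ = eval₂RingHom (algebraMap κ M) x := by
      ext p
      · simp [φ]
      · simp [φ]
        rfl
    rw [h1]
    exact hA
  have hfin : FiniteDimensional F (IntermediateField.adjoin F {y}) :=
    IntermediateField.adjoin.finiteDimensional halg.isIntegral
  have htop : IntermediateField.adjoin F {y} = ⊤ := by
    rw [eq_top_iff]
    intro z _
    have h1 : z ∈ IntermediateField.adjoin κ {x, y} := by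
      rw [hgen]
      exact IntermediateField.mem_top
    have h2 : IntermediateField.adjoin κ {x, y} ≤
        (IntermediateField.adjoin F {y}).restrictScalars κ := by
      rw [IntermediateField.adjoin_le_iff]
      rintro t (rfl | ht)
      · change _ ∈ IntermediateField.adjoin F {y}
        exact (IntermediateField.adjoin F {y}).algebraMap_mem g
      · change t ∈ IntermediateField.adjoin F {y}
        exact IntermediateField.subset_adjoin F {y} ht
    exact h2 h1
  rw [htop] at hfin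
  exact LinearEquiv.finiteDimensional (IntermediateField.topEquiv (F := F) (E := M)).toLinearEquiv

private theorem pj06_fin {κ M : Type*} [Field κ] [Field M] [Algebra κ M]
    [Algebra κ[X] M] [IsScalarTower κ κ[X] M]
    [Algebra (RatFunc κ) M] [IsScalarTower κ[X] (RatFunc κ) M]
    [FiniteDimensional (RatFunc κ) M] {Y : M} {A : κ[X][X]}
    (hgen : IntermediateField.adjoin (RatFunc κ) {Y} = ⊤)
    (hA : ∀ G : κ[X][X], aeval Y G = 0 ↔ A ∣ G) :
    finrank (RatFunc κ) M = A.natDegree := by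
  obtain ⟨B, hB, hBd, hBe, _⟩ := exists_eq hgen
  have h1 : A ∣ B := (hA B).1 ((hBe B).2 (dvd_refl B))
  have h2 : B ∣ A := (hBe A).1 ((hA A).2 (dvd_refl A))
  have h3 : B ≠ 0 := hB.ne_zero
  have h4 : A ≠ 0 := by
    rintro rfl
    exact h3 (zero_dvd_iff.1 h1)
  rw [← hBd]
  exact le_antisymm (natDegree_le_of_dvd h2 h4) (natDegree_le_of_dvd h1 h3)

private theorem pj06_divDeg {κ L : Type*} [Field κ] [Field L] [Algebra κ L]
    (l : ℕ) (P : Place κ L →₀ ℤ) : divDeg (l • P) = l * divDeg P := by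
  unfold divDeg
  rw [Finsupp.sum_smul_index' (fun _ => rfl), Finsupp.sum, Finsupp.sum, Finset.mul_sum]
  exact Finset.sum_congr rfl fun v _ => by simp

/-- **The genus and descent.** -/
theorem genus_descend {k₀ k M₀ M : Type*} [Field k₀] [IsAlgClosed k₀] [CharZero k₀] [Field k]
    [IsAlgClosed k] [CharZero k] [Algebra k₀ k] [Field M₀] [Algebra k₀ M₀] [Field M] [Algebra k M]
    {A : k₀[X][X]} {X₀ Y₀ : M₀} {X₁ Y₁ : M}
    (hX₀ : Transcendental k₀ X₀) (hgen₀ : IntermediateField.adjoin k₀ {X₀, Y₀} = ⊤)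
    (hA₀ : ∀ G : k₀[X][X], ev (algebraMap k₀ M₀) X₀ Y₀ G = 0 ↔ A ∣ G)
    (hX₁ : Transcendental k X₁) (hgen₁ : IntermediateField.adjoin k {X₁, Y₁} = ⊤)
    (hA₁ : ∀ G : k[X][X], ev (algebraMap k M) X₁ Y₁ G = 0 ↔ ex k A ∣ G)
    (hA : Irreducible A) (hdeg : A.natDegree ≠ 0) :
    genus k₀ M₀ ≤ genus k M := by
  have hA0 : A ≠ 0 := hA.ne_zero
  have hinj : Function.Injective (mapRingHom (algebraMap k₀ k)) :=
    Polynomial.map_injective _ (algebraMap k₀ k).injective
  have hexA : ex k A ≠ 0 := (Polynomial.map_ne_zero_iff hinj).2 hA0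
  have hexd : (ex k A).natDegree = A.natDegree := natDegree_map_eq_of_injective hinj A
  have hM₀ : IsFF k₀ M₀ := pj06_isFF hX₀ hgen₀ hA0 ((hA₀ A).2 (dvd_refl A))
  have hM : IsFF k M := pj06_isFF hX₁ hgen₁ hexA ((hA₁ _).2 (dvd_refl _))
  refine with_sep hM₀ hX₀ ?_
  intro iA₀ t1₀ iR₀ t2₀ iI₀ t3₀ fd₀ hXf₀
  refine with_sep hM hX₁ ?_
  intro iA t1 iR t2 iI t3 fd hXf
  have htower₀ : IsScalarTower k₀ (RatFunc k₀) M₀ := tower_ratFunc
  have htower : IsScalarTower k (RatFunc k) M := tower_ratFunc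
  have htL₀ : tL k₀ M₀ = X₀ := by rw [tL_eq, hXf₀]
  have htL : tL k M = X₁ := by rw [tL_eq, hXf]
  have hg₀ := pj06_gen htL₀ hgen₀
  have hg := pj06_gen htL hgen₁
  have hY₀ : ∀ G : k₀[X][X], aeval Y₀ G = 0 ↔ A ∣ G := by
    intro G
    rw [← hA₀ G, ← hXf₀, ev_aeval]
  have hY : ∀ G : k[X][X], aeval Y₁ G = 0 ↔ ex k A ∣ G := by
    intro G
    rw [← hA₁ G, ← hXf, ev_aeval]
  have hf₀ := pj06_fin hg₀ hY₀
  have hf := pj06_fin hg hY
  rw [hexd] at hf
  obtain ⟨P₀, hP₀⟩ := exists_pole k₀ M₀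
  obtain ⟨P₁, hP₁⟩ := exists_pole k M
  refine genus_le_of_pole hP₀ fun l => ?_
  have h1 := genus_spec hM (l • P₁)
  rw [pj06_divDeg, hP₁.deg, hf] at h1
  have h2 : RRcert (ex k A) l (finrank k (rr (l • P₁))) := rrcert_of_rr hg hY hP₁ le_rfl
  have h3 : finrank k (rr (l • P₁)) ≤ finrank k₀ (rr (l • P₀)) :=
    RRcert.le_finrank hA hY₀ hP₀ h2.descend
  rw [hf₀]
  have h4 : (finrank k (rr (l • P₁)) : ℤ) ≤ finrank k₀ (rr (l • P₀)) := by exact_mod_cast h3
  exact h1.trans h4

end Pool.Agent.Lib.MP_44a246_ntSH
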