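import Mathlib
import Pool.Agent.Lib.MP_44a246_ntSH.PJ09d

/-!
# Stage II of paper 667: the first separating function
-/

namespace Pool.Agent.Lib.MP_44a246_ntSH

open Pool.Agent.Lib.MP_e52354_nt
open Pool.Agent.Lib.MP_44a246_nt
open Pool.Agent.Lib.MP_44a246_ntL
open Pool.Agent.Lib.MP_44a246_ntR
open WithZero Module

variable {κ M : Type*} [Field κ] [IsAlgClosed κ] [CharZero κ] [Field M] [Algebra κ M]

private theorem pj09a_le_of_lt {a : ℤᵐ⁰} {n : ℤ} (h : a < exp n) : a ≤ exp (n - 1) := by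
  have h2 : exp (n - 1 + 1) = exp (n - 1) * (exp 1 : ℤᵐ⁰) := exp_add _ _
  rw [sub_add_cancel] at h2
  rw [h2] at h
  exact (lt_mul_exp_iff_le exp_ne_zero).1 h

omit [IsAlgClosed κ] [CharZero κ] in
private theorem pj09a_const (v : Place κ M) (c : κ) : v.1 (algebraMap κ M c) ≤ 1 := by
  rcases eq_or_ne c 0 with h | h
  · rw [h, map_zero, map_zero]
    exact zero_le
  · exact (v.2.2 c h).le

/-- **The function `x`.** -/
theorem exists_sepX (h : IsFF κ M) {P : Place κ M} {S : Finset (Place κ M)} (hP : P ∉ S) {e : ℕ}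
    (he : 3 * genus κ M + 1 ≤ e) : ∃ x : M, SepX P S e x := by
  classical
  -- `exists_rr_avoid` for `D = e P`, the pairs `(w, w')` in `S × S` (with `w = w'` allowed) and
  -- `T = {P}`. If `w (x - c) < 1` and `w (x - c) ≠ exp (-1)` then `x - c ∈ rr (D - 2 w)`
  -- (`w (x - c) ≤ exp (-2)`).
  obtain ⟨x, hx, hav, hT⟩ := exists_rr_avoid h (D := Finsupp.single P (e : ℤ))
    (by rw [divDeg_single]; exact_mod_cast he) (S ×ˢ S) (fun i => i.1) (fun i => i.2) {P}
  have hpole : P.1 x = exp (e : ℤ) := by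
    have := hT P (Finset.mem_singleton_self P)
    rwa [Finsupp.single_eq_same] at this
  have hreg : ∀ v : Place κ M, v ≠ P → v.1 x ≤ 1 := by
    intro v hv
    have := hx v
    rwa [Finsupp.single_eq_of_ne hv, exp_zero] at this
  have hle : ∀ (v : Place κ M) (c : κ), v.1 (x - algebraMap κ M c) ≤
      exp ((Finsupp.single P (e : ℤ)) v) := by
    intro v c
    refine (v.1.map_sub x _).trans (max_le (hx v) ((pj09a_const v c).trans ?_))
    rw [← exp_zero, exp_le_exp]
    by_cases hv : v = P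
    · rw [hv, Finsupp.single_eq_same]
      exact Int.natCast_nonneg e
    · rw [Finsupp.single_eq_of_ne hv]
  have key : ∀ w ∈ S, ∀ w' ∈ S, ∀ c : κ,
      w.1 (x - algebraMap κ M c) ≤ exp ((0 : ℤ) - 1 - (if w = w' then 1 else 0)) →
      w'.1 (x - algebraMap κ M c) ≤ exp ((0 : ℤ) - 1 - (if w = w' then 1 else 0)) → False := by
    intro w hw w' hw' c h1 h2
    refine hav (w, w') (Finset.mem_product.2 ⟨hw, hw'⟩) c ?_
    have hwP : w ≠ P := fun hh => hP (hh ▸ hw)
    have hwP' : w' ≠ P := fun hh => hP (hh ▸ hw')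
    intro u
    rw [Finsupp.sub_apply, Finsupp.sub_apply]
    by_cases hu : u = w
    · subst hu
      rw [Finsupp.single_eq_of_ne hwP, Finsupp.single_eq_same]
      by_cases hu' : u = w'
      · subst hu'
        rw [Finsupp.single_eq_same]
        rwa [if_pos rfl] at h1
      · rw [Finsupp.single_eq_of_ne hu']
        rwa [if_neg hu'] at h1
    · rw [Finsupp.single_eq_of_ne hu, sub_zero]
      by_cases hu' : u = w'
      · subst hu'
        rw [Finsupp.single_eq_same, Finsupp.single_eq_of_ne hwP']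
        rwa [if_neg (fun hh => hu hh.symm), sub_zero] at h2
      · rw [Finsupp.single_eq_of_ne hu', sub_zero]
        exact hle u c
  refine ⟨x, ⟨hP, hpole, hreg, ?_, ?_⟩⟩
  · intro w hw c hc
    by_contra hne
    have h1 : w.1 (x - algebraMap κ M c) ≤ exp ((0 : ℤ) - 1) :=
      pj09a_le_of_lt (hc.trans_eq exp_zero.symm)
    have h2 : w.1 (x - algebraMap κ M c) ≤ exp ((0 : ℤ) - 1 - 1) := by
      refine pj09a_le_of_lt (lt_of_le_of_ne h1 ?_)
      rw [zero_sub]
      exact hne
    exact key w hw w hw c (by rwa [if_pos rfl]) (by rwa [if_pos rfl])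
  · intro w hw w' hw' hww c hc hc'
    refine key w hw w' hw' c ?_ ?_
    · rw [if_neg hww, sub_zero]
      exact pj09a_le_of_lt (hc.trans_eq exp_zero.symm)
    · rw [if_neg hww, sub_zero]
      exact pj09a_le_of_lt (hc'.trans_eq exp_zero.symm)

end Pool.Agent.Lib.MP_44a246_ntSH
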