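import Mathlib
import Pool.Agent.Lib.MP_44a246_ntSH.PJ09d

/-!
# Stage II of paper 667: the second separating function
-/

namespace Pool.Agent.Lib.MP_44a246_ntSH

open Pool.Agent.Lib.MP_e52354_nt
open Pool.Agent.Lib.MP_44a246_nt
open Pool.Agent.Lib.MP_44a246_ntL
open Pool.Agent.Lib.MP_44a246_ntR
open WithZero Module

variable {κ M : Type*} [Field κ] [IsAlgClosed κ] [CharZero κ] [Field M] [Algebra κ M]

private theorem pj09b_le_of_lt {a : ℤᵐ⁰} {n : ℤ} (h : a < exp n) : a ≤ exp (n - 1) := by
  have h2 : exp (n - 1 + 1) = exp (n - 1) * (exp 1 : ℤᵐ⁰) := exp_add _ _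
  rw [sub_add_cancel] at h2
  rw [h2] at h
  exact (lt_mul_exp_iff_le exp_ne_zero).1 h

omit [IsAlgClosed κ] [CharZero κ] in
private theorem pj09b_const (v : Place κ M) (c : κ) : v.1 (algebraMap κ M c) ≤ 1 := by
  rcases eq_or_ne c 0 with h | h
  · rw [h, map_zero, map_zero]
    exact zero_le
  · exact (v.2.2 c h).le

omit [IsAlgClosed κ] [CharZero κ] in
private theorem pj09b_uniq (v : Place κ M) {x : M} {a b : κ}
    (ha : v.1 (x - algebraMap κ M a) < 1) (hb : v.1 (x - algebraMap κ M b) < 1) : a = b := by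
  by_contra hab
  have h1 : v.1 (algebraMap κ M (a - b)) = 1 := v.2.2 _ (sub_ne_zero.2 hab)
  have h2 : algebraMap κ M (a - b) = (x - algebraMap κ M b) - (x - algebraMap κ M a) := by
    rw [map_sub]; ring
  have h3 := (v.1.map_sub (x - algebraMap κ M b) (x - algebraMap κ M a)).trans_lt (max_lt hb ha)
  rw [← h2, h1] at h3
  exact lt_irrefl _ h3

/-- **The function `y`.** -/
theorem exists_sepY (h : IsFF κ M) {P : Place κ M} {S : Finset (Place κ M)} {e : ℕ}
    (he : 3 * genus κ M + 2 ≤ e) (he2 : 2 ≤ e) {x : M} (hx : SepX P S e x) :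
    ∃ y : M, SepY P S e x y := by
  classical
  -- `exists_rr_avoid` for `D = (e - 1) P`, the pairs `(w, v)`, `w ∈ S` with value `a` of `x`
  -- (`place_residue'`), `v ≠ w` with `v (x - a) < 1` (finitely many: `IsFF.place_finite` for
  -- `x - a ≠ 0`), `T = {P}`; `v ≠ P` as `x` has a pole at `P`
  have hPc : ∀ c : κ, P.1 (x - algebraMap κ M c) = exp (e : ℤ) := by
    intro c
    have h1 : P.1 (algebraMap κ M c) < P.1 x := by
      refine (pj09b_const P c).trans_lt ?_
      rw [hx.pole]
      refine exp_zero.symm.trans_lt ?_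
      rw [exp_lt_exp]
      omega
    rw [← hx.pole]
    exact Valuation.map_sub_eq_of_lt_left P.1 h1
  have hne : ∀ c : κ, x - algebraMap κ M c ≠ 0 := by
    intro c h0
    have := hPc c
    rw [h0, map_zero] at this
    exact exp_ne_zero this.symm
  let F : κ → Finset (Place κ M) := fun c => (h.place_finite (hne c)).toFinset
  have hval : ∀ w ∈ S, ∃ a : κ, ∀ b : κ, w.1 (x - algebraMap κ M b) < 1 → b = a := by
    intro w hw
    by_cases hex : ∃ a : κ, w.1 (x - algebraMap κ M a) < 1
    · obtain ⟨a, ha⟩ := hex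
      exact ⟨a, fun b hb => pj09b_uniq w hb ha⟩
    · exact ⟨0, fun b hb => absurd ⟨b, hb⟩ hex⟩
  choose! A hA using hval
  obtain ⟨y, hy, hav, hT⟩ := exists_rr_avoid h (D := Finsupp.single P ((e : ℤ) - 1))
    (by rw [divDeg_single]; omega) (S ×ˢ (S.biUnion fun w => F (A w))) (fun i => i.1)
    (fun i => i.2) {P}
  have hpole : P.1 y = exp ((e : ℤ) - 1) := by
    have := hT P (Finset.mem_singleton_self P)
    rwa [Finsupp.single_eq_same] at this
  have hreg : ∀ v : Place κ M, v ≠ P → v.1 y ≤ 1 := by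
    intro v hv
    have := hy v
    rwa [Finsupp.single_eq_of_ne hv, exp_zero] at this
  refine ⟨y, ⟨hpole, hreg, ?_⟩⟩
  intro w hw v hvw a b hwa hva hwb hvb
  have hwP : w ≠ P := fun hh => hx.notMem (hh ▸ hw)
  have hvP : v ≠ P := by
    intro hh
    rw [hh, hPc a] at hva
    have h1 := hva.trans_eq exp_zero.symm
    rw [exp_lt_exp] at h1
    omega
  have haA : a = A w := hA w hw a hwa
  refine hav (w, v) (Finset.mem_product.2 ⟨hw, Finset.mem_biUnion.2 ⟨w, hw, ?_⟩⟩) b ?_
  · rw [← haA]
    exact (Set.Finite.mem_toFinset _).2 hva.ne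
  · intro u
    rw [Finsupp.sub_apply, Finsupp.sub_apply]
    by_cases hu : u = w
    · subst hu
      rw [Finsupp.single_eq_of_ne hwP, Finsupp.single_eq_same, Finsupp.single_eq_of_ne hvw.symm,
        sub_zero]
      exact pj09b_le_of_lt (hwb.trans_eq exp_zero.symm)
    · rw [Finsupp.single_eq_of_ne hu, sub_zero]
      by_cases hu' : u = v
      · subst hu'
        rw [Finsupp.single_eq_of_ne hvP, Finsupp.single_eq_same]
        exact pj09b_le_of_lt (hvb.trans_eq exp_zero.symm)
      · rw [Finsupp.single_eq_of_ne hu', sub_zero]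
        refine (u.1.map_sub y _).trans (max_le (hy u) ((pj09b_const u b).trans ?_))
        refine exp_zero.symm.trans_le ?_
        rw [exp_le_exp]
        by_cases huP : u = P
        · rw [huP, Finsupp.single_eq_same]
          omega
        · rw [Finsupp.single_eq_of_ne huP]

end Pool.Agent.Lib.MP_44a246_ntSH
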