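import Mathlib
import Pool.Agent.Lib.MP_44a246_ntSH.PJ09d
import Pool.Agent.Lib.MP_44a246_ntR.GR5

/-!
# Stage II of paper 667: the two functions generate the field
-/

namespace Pool.Agent.Lib.MP_44a246_ntSH

open Pool.Agent.Lib.MP_e52354_nt
open Pool.Agent.Lib.MP_44a246_nt
open Pool.Agent.Lib.MP_44a246_ntL
open Pool.Agent.Lib.MP_44a246_ntR
open WithZero Module

variable {κ M : Type*} [Field κ] [IsAlgClosed κ] [CharZero κ] [Field M] [Algebra κ M]

omit [CharZero κ] in
/-- a function with a pole is transcendental -/
private theorem transcendental_of_pole {P : Place κ M} {f : M} (hf : 1 < P.1 f) :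
    Transcendental κ f := by
  intro halg
  have h1 := IsAlgClosed.degree_eq_one_of_irreducible κ (minpoly.irreducible halg.isIntegral)
  obtain ⟨c, rfl⟩ := minpoly.mem_range_of_degree_eq_one κ f h1
  by_cases hc : c = 0
  · rw [hc, map_zero, map_zero] at hf
    exact absurd hf (not_lt.2 zero_le)
  · rw [P.2.2 c hc] at hf
    exact lt_irrefl _ hf

/-- the degree over the field generated by a transcendental function -/
private theorem finrank_adjoin (h : IsFF κ M) {f : M} (hf : Transcendental κ f) :
    (finrank (IntermediateField.adjoin κ {f}) M : ℤ) = height κ ![1, f] := by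
  have hfd : FiniteDimensional (IntermediateField.adjoin κ {f}) M := finite_over_adjoin h hf
  let F₁ := IntermediateField.adjoin κ {f}
  let E := (RatFunc.algEquivOfTranscendental f hf).toRingEquiv
  have hE : ∀ g : Polynomial κ, ((E (algebraMap _ _ g) : F₁) : M) = Polynomial.aeval f g := by
    intro g
    show ((RatFunc.algEquivOfTranscendental f hf (algebraMap _ _ g)) : M) = _
    rw [RatFunc.algEquivOfTranscendental_algebraMap]
    exact (Polynomial.aeval_algebraMap_apply M (IntermediateField.AdjoinSimple.gen _ f) g).symm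
  let iK : Algebra (RatFunc κ) M := ((algebraMap F₁ M).comp (E : RatFunc κ →+* F₁)).toAlgebra
  have t3 : IsScalarTower κ (RatFunc κ) M := IsScalarTower.of_algebraMap_eq fun u => by
    have h5 := hE (Polynomial.C u)
    rw [Polynomial.aeval_C] at h5
    exact h5.symm
  have hfin : FiniteDimensional (RatFunc κ) M :=
    Module.Finite.of_equiv_equiv (A₁ := F₁) (B₁ := M) E.symm (RingEquiv.refl M) (by
      ext x
      show algebraMap F₁ M (E (E.symm x)) = algebraMap F₁ M x
      rw [RingEquiv.apply_symm_apply])
  have h6 : tL κ M = f := by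
    have h6 := hE Polynomial.X
    rw [Polynomial.aeval_X, RatFunc.algebraMap_X] at h6
    exact h6
  have h7 : finrank (RatFunc κ) M = finrank F₁ M :=
    Algebra.finrank_eq_of_equiv_equiv E (RingEquiv.refl M) (by
      ext x
      rfl)
  have h8 := finrank_eq_height κ M
  rw [h6, h7] at h8
  exact h8

/-- **The two functions generate the field.** -/
theorem adjoin_eq_top (h : IsFF κ M) {P : Place κ M} {S : Finset (Place κ M)} {e : ℕ}
    (he : 2 ≤ e) {x y : M} (hx : SepX P S e x) (hy : SepY P S e x y) :
    IntermediateField.adjoin κ {x, y} = ⊤ := by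
  -- `F = κ (x, y)`; `[M : κ (x)] = e`, `[M : κ (y)] = e - 1` (`height_of_pole`,
  -- `finrank_eq_height`, `with_ratFunc`; or `IntermediateField.adjoin κ {x}`, `finite_over_adjoin`
  -- in MP_44a246_ntR/GR5), so `[M : F]` divides `e` and `e - 1`
  have hxt : Transcendental κ x := by
    refine transcendental_of_pole (P := P) ?_
    rw [hx.pole, ← exp_zero, exp_lt_exp]
    omega
  have hyp : P.1 y = exp ((e - 1 : ℕ) : ℤ) := by
    rw [hy.pole]
    congr 1
    omega
  have hyt : Transcendental κ y := by
    refine transcendental_of_pole (P := P) ?_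
    rw [hyp, ← exp_zero, exp_lt_exp]
    omega
  have h1 := finrank_adjoin h hxt
  have h2 := finrank_adjoin h hyt
  rw [height_of_pole h hx.pole hx.reg] at h1
  rw [height_of_pole h hyp hy.reg] at h2
  have h1' : finrank (IntermediateField.adjoin κ {x}) M = e := by exact_mod_cast h1
  have h2' : finrank (IntermediateField.adjoin κ {y}) M = e - 1 := by exact_mod_cast h2
  have hle1 : IntermediateField.adjoin κ {x} ≤ IntermediateField.adjoin κ {x, y} :=
    IntermediateField.adjoin.mono _ _ _ (by simp)
  have hle2 : IntermediateField.adjoin κ {y} ≤ IntermediateField.adjoin κ {x, y} :=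
    IntermediateField.adjoin.mono _ _ _ (by simp)
  have d1 := IntermediateField.finrank_dvd_of_le_left hle1
  have d2 := IntermediateField.finrank_dvd_of_le_left hle2
  rw [h1'] at d1
  rw [h2'] at d2
  have d3 : finrank (IntermediateField.adjoin κ {x, y}) M ∣ 1 := by
    have h3 : e - (e - 1) = 1 := by omega
    rw [← h3]
    exact Nat.dvd_sub d1 d2
  have d4 : finrank (IntermediateField.adjoin κ {x, y}) M = 1 := Nat.dvd_one.1 d3
  exact IntermediateField.finrank_eq_one_iff_eq_top.1 d4

end Pool.Agent.Lib.MP_44a246_ntSH
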