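import Mathlib
import Pool.Agent.Lib.MP_44a246_ntSH.PJ09d
import Pool.Agent.Lib.MP_44a246_ntO.OG0

/-!
# Stage II of paper 667: there are infinitely many places
-/

namespace Pool.Agent.Lib.MP_44a246_ntSH

open Pool.Agent.Lib.MP_e52354_nt
open Pool.Agent.Lib.MP_44a246_nt
open Pool.Agent.Lib.MP_44a246_ntL
open Pool.Agent.Lib.MP_44a246_ntR
open WithZero Module

variable {κ M : Type*} [Field κ] [IsAlgClosed κ] [CharZero κ] [Field M] [Algebra κ M]

/-- there are infinitely many places -/
theorem exists_place_notMem (h : IsFF κ M) (S : Finset (Place κ M)) : ∃ P : Place κ M, P ∉ S := by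
  have hinf := Pool.Agent.Lib.MP_44a246_ntO.infinite_place h
  exact Infinite.exists_notMem_finset S

end Pool.Agent.Lib.MP_44a246_ntSH
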