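import Mathlib
import Pool.Agent.Lib.MP_44a246_ntPC.E4
import Pool.Agent.Lib.MP_44a246_nt.Over
import Pool.Agent.Lib.MP_44a246_ntY.Y53

/-!
# Stage II of paper 667: the norm of a function with one simple zero over a point
-/

namespace Pool.Agent.Lib.MP_44a246_ntSH

open Pool.Agent.Lib.MP_e52354_nt
open Pool.Agent.Lib.MP_44a246_nt
open Pool.Agent.Lib.MP_44a246_ntL
open Pool.Agent.Lib.MP_44a246_ntR
open Pool.Agent.Lib.MP_44a246_ntS
open Pool.Agent.Lib.MP_44a246_ntE
open Pool.Agent.Lib.MP_44a246_ntPC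
open Pool.Agent.Lib.MP_44a246_ntY
open WithZero Polynomial Module

variable {κ M : Type*} [Field κ] [IsAlgClosed κ] [CharZero κ] [Field M] [Algebra κ M]
  [Algebra κ[X] M] [IsScalarTower κ κ[X] M]
  [Algebra (RatFunc κ) M] [IsScalarTower κ[X] (RatFunc κ) M]
  [Algebra (Rinf κ) M] [IsScalarTower (Rinf κ) (RatFunc κ) M]
  [FiniteDimensional (RatFunc κ) M]

private theorem ns_lt_one {a : ℤᵐ⁰} (h0 : a ≠ 0) (h : a < 1) : a ≤ exp (-1 : ℤ) := by
  have h1 : log a < log (1 : ℤᵐ⁰) := (log_lt_log h0 one_ne_zero).mpr h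
  rw [log_one] at h1
  rw [← exp_log h0, exp_le_exp]
  omega

omit [IsAlgClosed κ] [CharZero κ] in
private theorem ns_poly (v : Place κ (RatFunc κ))
    (hX : v.1 (algebraMap κ[X] (RatFunc κ) X) ≤ 1) (q : κ[X]) :
    v.1 (algebraMap κ[X] (RatFunc κ) q) ≤ 1 := by
  have hc : ∀ c : κ, v.1 (algebraMap κ[X] (RatFunc κ) (C c)) ≤ 1 := by
    intro c
    have h1 : algebraMap κ[X] (RatFunc κ) (C c) = algebraMap κ (RatFunc κ) c := by
      rw [IsScalarTower.algebraMap_apply κ κ[X] (RatFunc κ)]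
      rfl
    rw [h1]
    by_cases hc0 : c = 0
    · rw [hc0, map_zero, map_zero]; exact zero_le_one
    · exact (v.2.2 c hc0).le
  induction q using Polynomial.induction_on' with
  | add p q hp hq =>
    rw [map_add]
    exact (v.1.map_add _ _).trans (max_le hp hq)
  | monomial n a =>
    rw [← C_mul_X_pow_eq_monomial, map_mul, map_mul, map_pow, map_pow]
    exact mul_le_one' (hc a) (pow_le_one' hX n)

/-- the order of vanishing at `a` of the norm of a function which vanishes at exactly one place over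
`X = a`, which is simple -/
theorem norm_simple {p : κ[X]} {z : M}
    (hp : algebraMap κ[X] (RatFunc κ) p = Algebra.norm (RatFunc κ) z) {a : κ} {w : Place κ M}
    (hwX : w.1 (algebraMap κ[X] M X - algebraMap κ M a) < 1) (hw : w.1 z = exp (-1 : ℤ))
    (hv : ∀ v : Place κ M, v ≠ w → v.1 (algebraMap κ[X] M X - algebraMap κ M a) < 1 →
      v.1 z = 1) : ¬ (X - C a) ^ 2 ∣ p := by
  classical
  rintro ⟨q, hq⟩
  have tw : IsScalarTower κ (RatFunc κ) M := by
    refine IsScalarTower.of_algebraMap_eq fun c => ?_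
    rw [IsScalarTower.algebraMap_apply κ κ[X] (RatFunc κ),
      ← IsScalarTower.algebraMap_apply κ[X] (RatFunc κ) M,
      ← IsScalarTower.algebraMap_apply κ κ[X] M]
  have hz : z ≠ 0 := by
    rintro rfl
    rw [map_zero] at hw
    exact exp_ne_zero hw.symm
  obtain ⟨S, hS, hnorm, -⟩ := local_main (L := M) (below (RatFunc κ) w)
  set v₀ : Place κ (RatFunc κ) := below (RatFunc κ) w with hv0
  have hXa : ∀ u : Place κ M, u.1 (algebraMap κ[X] M X - algebraMap κ M a) =
      (below (RatFunc κ) u).1 (algebraMap κ[X] (RatFunc κ) (X - C a)) ^ ramIdx (RatFunc κ) u.1 := by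
    intro u
    have h1 : algebraMap κ[X] M X - algebraMap κ M a = algebraMap κ[X] M (X - C a) := by
      rw [map_sub (algebraMap κ[X] M), IsScalarTower.algebraMap_apply κ κ[X] M]
      rfl
    rw [← below_pow, ← IsScalarTower.algebraMap_apply κ[X] (RatFunc κ) M, h1]
  have hlt : v₀.1 (algebraMap κ[X] (RatFunc κ) (X - C a)) < 1 := by
    by_contra hcon
    rw [hXa w] at hwX
    exact absurd hwX (not_lt.mpr (one_le_pow₀ (not_lt.mp hcon)))
  have hsum := hnorm z hz
  have hwS : w ∈ S := (hS w).mpr rfl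
  rw [Finset.sum_eq_single_of_mem w hwS (fun u hu huw => by
    rw [hv u huw (by
      rw [hXa u, (hS u).mp hu]
      have he := one_le_ramIdx (K := RatFunc κ) u.1 u.2.1
      exact pow_lt_one' hlt (by omega)), log_one]), hw, log_exp, ← hp, hq] at hsum
  have hX1 : v₀.1 (algebraMap κ[X] (RatFunc κ) X) ≤ 1 := by
    have h1 : algebraMap κ[X] (RatFunc κ) X =
        algebraMap κ[X] (RatFunc κ) (X - C a) + algebraMap κ[X] (RatFunc κ) (C a) := by
      rw [← map_add, sub_add_cancel]
    have h2 : v₀.1 (algebraMap κ[X] (RatFunc κ) (C a)) ≤ 1 := by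
      have h3 : algebraMap κ[X] (RatFunc κ) (C a) = algebraMap κ (RatFunc κ) a := by
        rw [IsScalarTower.algebraMap_apply κ κ[X] (RatFunc κ)]
        rfl
      rw [h3]
      by_cases hc0 : a = 0
      · rw [hc0, map_zero, map_zero]; exact zero_le_one
      · exact (v₀.2.2 a hc0).le
    rw [h1]
    exact (v₀.1.map_add _ _).trans (max_le hlt.le h2)
  have hne : v₀.1 (algebraMap κ[X] (RatFunc κ) (X - C a)) ≠ 0 := by
    rw [Valuation.ne_zero_iff]
    intro h0
    have h1 : (X - C a : κ[X]) = 0 := by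
      rw [← map_zero (algebraMap κ[X] (RatFunc κ))] at h0
      exact IsFractionRing.injective κ[X] (RatFunc κ) h0
    exact X_sub_C_ne_zero a h1
  have hle := ns_lt_one hne hlt
  have hq1 := ns_poly v₀ hX1 q
  have hv2 : v₀.1 (algebraMap κ[X] (RatFunc κ) ((X - C a) ^ 2 * q)) ≤ exp (-2 : ℤ) := by
    rw [map_mul, map_mul, map_pow, map_pow]
    calc _ ≤ exp (-1 : ℤ) ^ 2 * 1 := mul_le_mul' (pow_le_pow_left' hle 2) hq1
      _ = exp (-2 : ℤ) := by rw [mul_one, ← exp_nsmul]; norm_num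
  have hn0 : v₀.1 (algebraMap κ[X] (RatFunc κ) ((X - C a) ^ 2 * q)) ≠ 0 := by
    intro h0
    rw [h0, log_zero] at hsum
    omega
  have h4 := (log_le_log hn0 exp_ne_zero).mpr hv2
  rw [log_exp] at h4
  omega

end Pool.Agent.Lib.MP_44a246_ntSH
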