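import Mathlib
import Pool.Agent.Lib.MP_44a246_ntSH.PJ10a

/-!
# Stage II of paper 667: the derivative of the equation at a separated unramified place
-/

namespace Pool.Agent.Lib.MP_44a246_ntSH

open Pool.Agent.Lib.MP_e52354_nt
open Pool.Agent.Lib.MP_44a246_nt
open Pool.Agent.Lib.MP_44a246_ntL
open Pool.Agent.Lib.MP_44a246_ntR
open Pool.Agent.Lib.MP_44a246_ntS
open Pool.Agent.Lib.MP_44a246_ntE
open Pool.Agent.Lib.MP_44a246_ntPC
open Pool.Agent.Lib.MP_44a246_ntY
open WithZero Polynomial Module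

variable {κ M : Type*} [Field κ] [IsAlgClosed κ] [CharZero κ] [Field M] [Algebra κ M]
  [Algebra κ[X] M] [IsScalarTower κ κ[X] M]
  [Algebra (RatFunc κ) M] [IsScalarTower κ[X] (RatFunc κ) M]
  [Algebra (Rinf κ) M] [IsScalarTower (Rinf κ) (RatFunc κ) M]
  [FiniteDimensional (RatFunc κ) M]

private theorem norm_sub_eq' {K L : Type*} [Field K] [Field L] [Algebra K L]
    [FiniteDimensional K L] {α : L} (hgen : Algebra.adjoin K {α} = ⊤) (c : K) :
    Algebra.norm K (algebraMap K L c - α) = (minpoly K α).eval c := by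
  classical
  have hint : IsIntegral K α := IsIntegral.of_finite K α
  let pb := PowerBasis.ofAdjoinEqTop hint hgen
  have hpb : pb.gen = α := PowerBasis.ofAdjoinEqTop_gen hint hgen
  rw [Algebra.norm_eq_matrix_det pb.basis, map_sub, AlgHom.commutes]
  have h1 := charpoly_leftMulMatrix pb
  rw [hpb] at h1
  rw [← h1, Matrix.eval_charpoly]
  rfl

omit [IsAlgClosed κ] [CharZero κ] [Algebra (RatFunc κ) M] [IsScalarTower κ[X] (RatFunc κ) M]
  [Algebra (Rinf κ) M] [IsScalarTower (Rinf κ) (RatFunc κ) M] [FiniteDimensional (RatFunc κ) M] in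
private theorem const_le (w : Place κ M) (c : κ) : w.1 (algebraMap κ M c) ≤ 1 := by
  rcases eq_or_ne c 0 with rfl | hc
  · simp
  · rw [w.2.2 c hc]

omit [IsAlgClosed κ] [CharZero κ] [Algebra (RatFunc κ) M] [IsScalarTower κ[X] (RatFunc κ) M]
  [Algebra (Rinf κ) M] [IsScalarTower (Rinf κ) (RatFunc κ) M] [FiniteDimensional (RatFunc κ) M] in
private theorem x_le {w : Place κ M} {a : κ}
    (hwX : w.1 (algebraMap κ[X] M X - algebraMap κ M a) < 1) :
    w.1 (algebraMap κ[X] M X) ≤ 1 := by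
  have h := w.1.map_add (algebraMap κ[X] M X - algebraMap κ M a) (algebraMap κ M a)
  rw [sub_add_cancel] at h
  exact h.trans (max_le hwX.le (const_le w a))

omit [IsAlgClosed κ] [CharZero κ] [Algebra (RatFunc κ) M] [IsScalarTower κ[X] (RatFunc κ) M]
  [Algebra (Rinf κ) M] [IsScalarTower (Rinf κ) (RatFunc κ) M] [FiniteDimensional (RatFunc κ) M] in
private theorem alg_lin (a : κ) :
    algebraMap κ[X] M (X - C a) = algebraMap κ[X] M X - algebraMap κ M a := by
  rw [map_sub, IsScalarTower.algebraMap_apply κ κ[X] M a]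
  rfl

omit [CharZero κ] [Algebra (RatFunc κ) M] [IsScalarTower κ[X] (RatFunc κ) M]
  [Algebra (Rinf κ) M] [IsScalarTower (Rinf κ) (RatFunc κ) M] [FiniteDimensional (RatFunc κ) M] in
private theorem lin_dvd {w : Place κ M} {a : κ}
    (hwX : w.1 (algebraMap κ[X] M X - algebraMap κ M a) < 1) {q : κ[X]}
    (hq : w.1 (algebraMap κ[X] M q) < 1) : X - C a ∣ q := by
  rw [dvd_iff_isRoot, IsRoot.def]
  by_contra hne
  obtain ⟨q1, hq1⟩ := X_sub_C_dvd_sub_C_eval (a := a) (p := q)
  have h1 : w.1 (algebraMap κ[X] M (q - C (q.eval a))) < 1 := by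
    rw [hq1, map_mul, map_mul, alg_lin]
    exact mul_lt_one_of_lt_of_le hwX (place_poly w (x_le hwX) q1)
  have h2 : algebraMap κ[X] M (C (q.eval a)) =
      algebraMap κ[X] M q - algebraMap κ[X] M (q - C (q.eval a)) := by
    rw [← map_sub]
    congr 1
    ring
  have h3 : w.1 (algebraMap κ[X] M (C (q.eval a))) < 1 := by
    rw [h2]
    exact lt_of_le_of_lt (w.1.map_sub _ _) (max_lt hq h1)
  have h4 : algebraMap κ[X] M (C (q.eval a)) = algebraMap κ M (q.eval a) := by
    rw [IsScalarTower.algebraMap_apply κ κ[X] M]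
    rfl
  rw [h4, w.2.2 _ hne] at h3
  exact lt_irrefl _ h3

omit [CharZero κ] [Algebra (RatFunc κ) M] [IsScalarTower κ[X] (RatFunc κ) M]
  [Algebra (Rinf κ) M] [IsScalarTower (Rinf κ) (RatFunc κ) M] [FiniteDimensional (RatFunc κ) M] in
private theorem eval_le {A : κ[X][X]} {Y : M} (w : Place κ M)
    (hx : w.1 (algebraMap κ[X] M X) ≤ 1) (hY : w.1 Y ≤ 1)
    (h0 : (A.map (algebraMap κ[X] M)).eval Y = 0) (t : κ[X]) :
    w.1 (algebraMap κ[X] M (A.eval t)) ≤ w.1 (algebraMap κ[X] M t - Y) := by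
  let φ : κ[X] →+* w.1.integer :=
    (algebraMap κ[X] M).codRestrict w.1.integer (fun ρ => place_poly w hx ρ)
  have hφ : ∀ ρ, ((φ ρ : w.1.integer) : M) = algebraMap κ[X] M ρ := fun ρ => rfl
  let Yo : w.1.integer := ⟨Y, hY⟩
  have hcomp : (w.1.integer.subtype).comp φ = algebraMap κ[X] M := by
    ext ρ <;> rfl
  have h1 := sub_dvd_eval_sub (φ t) Yo (A.map φ)
  have h2 : (A.map φ).eval Yo = 0 := by
    apply Subtype.ext
    have h3 := Polynomial.hom_eval₂ A φ w.1.integer.subtype Yo
    rw [hcomp] at h3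
    rw [eval_map]
    change w.1.integer.subtype (eval₂ φ Yo A) = 0
    rw [h3, ← h0, eval_map]
    rfl
  rw [h2, sub_zero, eval_map, eval₂_at_apply] at h1
  obtain ⟨k, hk⟩ := h1
  have h5 : algebraMap κ[X] M (A.eval t) = (algebraMap κ[X] M t - Y) * (k : M) := by
    rw [← hφ, hk]
    rfl
  rw [h5, map_mul]
  exact mul_le_of_le_one_right' k.2

/-- **The derivative does not vanish** at the point below a separated unramified place. -/
theorem der_ne_zero {A : κ[X][X]} (hmon : A.Monic) {Y : M}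
    (hgen : IntermediateField.adjoin (RatFunc κ) {Y} = ⊤)
    (hmin : minpoly (RatFunc κ) Y = A.map (algebraMap κ[X] (RatFunc κ)))
    {w : Place κ M} {a b : κ}
    (hX : w.1 (algebraMap κ[X] M X - algebraMap κ M a) = exp (-1 : ℤ))
    (hY : w.1 (Y - algebraMap κ M b) < 1)
    (hreg : ∀ v : Place κ M, v.1 (algebraMap κ[X] M X - algebraMap κ M a) < 1 → v.1 Y ≤ 1)
    (hsep : ∀ v : Place κ M, v ≠ w → v.1 (algebraMap κ[X] M X - algebraMap κ M a) < 1 →
      ¬ v.1 (Y - algebraMap κ M b) < 1) :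
    (derivative A).evalEval a b ≠ 0 := by
  intro hder
  have hexp : exp (-1 : ℤ) < (1 : ℤᵐ⁰) := by
    rw [← exp_zero, exp_lt_exp]
    norm_num
  set u : M := algebraMap κ[X] M X - algebraMap κ M a with hu
  set y : M := Y - algebraMap κ M b with hy
  have hwX : w.1 u < 1 := by rw [hX]; exact hexp
  have hu0 : u ≠ 0 := by
    intro h
    rw [h, map_zero] at hX
    exact (exp_ne_zero hX.symm).elim
  have hyle : w.1 y ≤ exp (-1 : ℤ) := by
    rcases eq_or_ne (w.1 y) 0 with h0 | h0
    · rw [h0]; exact zero_le'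
    · obtain ⟨n, hn⟩ : ∃ n : ℤ, w.1 y = exp n := ⟨log (w.1 y), (exp_log h0).symm⟩
      rw [hn] at hY ⊢
      rw [← exp_zero, exp_lt_exp] at hY
      rw [exp_le_exp]
      omega
  have hdiv : w.1 (y / u) ≤ 1 := by
    rw [map_div₀, hX]
    exact div_le_one_of_le₀ hyle zero_le'
  obtain ⟨c, hc⟩ := place_residue w hdiv
  have hYle : w.1 Y ≤ 1 := hreg w hwX
  have hcu : w.1 (algebraMap κ M c * u - y) < exp (-1 : ℤ) := by
    have h1 : algebraMap κ M c * u - y = -((y / u - algebraMap κ M c) * u) := by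
      field_simp
      ring
    rw [h1, Valuation.map_neg, map_mul, hX]
    calc w.1 (y / u - algebraMap κ M c) * exp (-1 : ℤ) < 1 * exp (-1 : ℤ) :=
          mul_lt_mul_of_pos_right hc (by simp)
      _ = exp (-1 : ℤ) := one_mul _
  -- the substitution
  have hC : ∀ r : κ, algebraMap κ[X] M (C r) = algebraMap κ M r := by
    intro r
    rw [IsScalarTower.algebraMap_apply κ κ[X] M]
    rfl
  set t : κ[X] := C b + C c * (X - C a) with ht
  have htM : algebraMap κ[X] M t = algebraMap κ M b + algebraMap κ M c * u := by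
    rw [ht, map_add, map_mul, hC, hC, alg_lin]
  have hroot : (A.map (algebraMap κ[X] M)).eval Y = 0 := by
    have h1 := minpoly.aeval (RatFunc κ) Y
    rw [hmin, aeval_map_algebraMap] at h1
    rwa [eval_map, ← aeval_def]
  have hqc : w.1 (algebraMap κ[X] M (A.eval t)) < exp (-1 : ℤ) := by
    refine lt_of_le_of_lt (eval_le w (x_le hwX) hYle hroot t) ?_
    have h1 : algebraMap κ[X] M t - Y = algebraMap κ M c * u - y := by
      rw [htM, hy]; ring
    rw [h1]
    exact hcu
  have hd1 : (X - C a) ^ 2 ∣ A.eval t := by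
    obtain ⟨q1, hq1⟩ := lin_dvd hwX (hqc.trans hexp)
    have h1 : w.1 (algebraMap κ[X] M q1) < 1 := by
      rw [hq1, map_mul, map_mul, alg_lin] at hqc
      change w.1 u * _ < _ at hqc
      rw [hX] at hqc
      by_contra hcon
      push Not at hcon
      exact absurd hqc (not_lt.mpr (le_mul_of_one_le_right' hcon))
    obtain ⟨q2, hq2⟩ := lin_dvd hwX h1
    exact ⟨q2, by rw [hq1, hq2]; ring⟩
  have hd2 : X - C a ∣ (derivative A).eval t := by
    have h1 : X - C a ∣ (derivative A).eval t - (derivative A).eval (C b) := by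
      refine dvd_trans ?_ (sub_dvd_eval_sub t (C b) (derivative A))
      exact ⟨C c, by rw [ht]; ring⟩
    have h2 : X - C a ∣ (derivative A).eval (C b) := by
      rw [dvd_iff_isRoot]
      exact hder
    have h3 := dvd_add h1 h2
    rwa [sub_add_cancel] at h3
  have hd3 : (X - C a) ^ 2 ∣ A.eval (t + (X - C a)) := by
    obtain ⟨k, hk⟩ := Polynomial.binomExpansion A t (X - C a)
    rw [hk]
    refine dvd_add (dvd_add hd1 ?_) (dvd_mul_left _ _)
    rw [pow_two]
    exact mul_dvd_mul_right hd2 _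
  -- the norm
  have htop : Algebra.adjoin (RatFunc κ) {Y} = ⊤ := by
    have h1 := IntermediateField.adjoin_simple_toSubalgebra_of_isAlgebraic
      (F := RatFunc κ) (α := Y) (Algebra.IsAlgebraic.isAlgebraic Y)
    rw [← h1, hgen]
    rfl
  set z : M := algebraMap κ[X] M (t + (X - C a)) - Y with hz
  have hzu : z = (algebraMap κ M c * u - y) + u := by
    rw [hz, map_add, htM, alg_lin, hy]
    ring
  have hnorm : algebraMap κ[X] (RatFunc κ) (A.eval (t + (X - C a))) =
      Algebra.norm (RatFunc κ) z := by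
    rw [hz, IsScalarTower.algebraMap_apply κ[X] (RatFunc κ) M, norm_sub_eq' htop, hmin,
      eval_map, eval₂_at_apply]
  refine norm_simple hnorm (a := a) (w := w) hwX ?_ ?_ hd3
  · rw [hzu, Valuation.map_add_eq_of_lt_right, hX]
    rw [hX]
    exact hcu
  · intro v hv hvX
    have hvy : v.1 y = 1 := by
      refine le_antisymm ?_ (not_lt.mp (hsep v hv hvX))
      rw [hy]
      exact (v.1.map_sub _ _).trans (max_le (hreg v hvX) (const_le v b))
    have h1 : z = (algebraMap κ M c * u + u) - y := by rw [hzu]; ring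
    have h2 : v.1 (algebraMap κ M c * u + u) < 1 := by
      refine lt_of_le_of_lt (v.1.map_add _ _) (max_lt ?_ hvX)
      rw [map_mul, mul_comm]
      exact mul_lt_one_of_lt_of_le hvX (const_le v c)
    rw [h1, Valuation.map_sub_swap, Valuation.map_sub_eq_of_lt_left, hvy]
    rw [hvy]
    exact h2

end Pool.Agent.Lib.MP_44a246_ntSH
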