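import Mathlib
import Pool.Agent.Lib.MP_44a246_ntPC.E4
import Pool.Agent.Lib.MP_44a246_nt.Over
import Pool.Agent.Lib.MP_44a246_ntY.Y53

/-!
# Stage II of paper 667: numerators
-/

namespace Pool.Agent.Lib.MP_44a246_ntSH

open Pool.Agent.Lib.MP_e52354_nt
open Pool.Agent.Lib.MP_44a246_nt
open Pool.Agent.Lib.MP_44a246_ntL
open Pool.Agent.Lib.MP_44a246_ntR
open Pool.Agent.Lib.MP_44a246_ntS
open Pool.Agent.Lib.MP_44a246_ntE
open Pool.Agent.Lib.MP_44a246_ntPC
open Pool.Agent.Lib.MP_44a246_ntY
open WithZero Polynomial Module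

variable {κ M : Type*} [Field κ] [IsAlgClosed κ] [CharZero κ] [Field M] [Algebra κ M]
  [Algebra κ[X] M] [IsScalarTower κ κ[X] M]
  [Algebra (RatFunc κ) M] [IsScalarTower κ[X] (RatFunc κ) M]
  [Algebra (Rinf κ) M] [IsScalarTower (Rinf κ) (RatFunc κ) M]
  [FiniteDimensional (RatFunc κ) M]

omit [IsAlgClosed κ] [CharZero κ] [Algebra κ M] [IsScalarTower κ κ[X] M]
  [Algebra (Rinf κ) M] [IsScalarTower (Rinf κ) (RatFunc κ) M] in
/-- the coefficients of the quotient of the equation by the linear factor -/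
private theorem coeff_quot' {Y : M} {A : κ[X][X]}
    (hA : minpoly (RatFunc κ) Y = A.map (algebraMap κ[X] (RatFunc κ)))
    {m : ℕ} (hm : (minpoly (RatFunc κ) Y).natDegree = m) (j : ℕ) :
    ∀ i, i + j = m → (minpolyDiv (RatFunc κ) Y).coeff i =
      aeval Y (∑ k ∈ Finset.range j, C (A.coeff (i + 1 + k)) * X ^ k : κ[X][X]) := by
  have hint : IsIntegral (RatFunc κ) Y := Algebra.IsIntegral.isIntegral Y
  induction j with
  | zero =>
    intro i hi
    rw [Finset.range_zero, Finset.sum_empty, map_zero]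
    apply coeff_eq_zero_of_natDegree_lt
    have h := natDegree_minpolyDiv_lt hint
    omega
  | succ j ih =>
    intro i hi
    rw [coeff_minpolyDiv, ih (i + 1) (by omega), Finset.sum_range_succ', map_add, hA, coeff_map,
      ← IsScalarTower.algebraMap_apply κ[X] (RatFunc κ) M, map_sum, map_sum, Finset.sum_mul,
      add_comm]
    congr 1
    · refine Finset.sum_congr rfl fun k _ => ?_
      rw [map_mul, map_mul, aeval_C, aeval_C, map_pow, map_pow, aeval_X, pow_succ, mul_assoc,
        show i + 1 + 1 + k = i + 1 + (k + 1) by ring]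
    · rw [pow_zero, mul_one, aeval_C, add_zero]

/-- **The numerator**, for functions with poles of any order at the poles of `X`. -/
theorem exists_numN {Y : M} (hgen : IntermediateField.adjoin (RatFunc κ) {Y} = ⊤)
    {A : κ[X][X]} (hmon : A.Monic)
    (hA : minpoly (RatFunc κ) Y = A.map (algebraMap κ[X] (RatFunc κ)))
    (hY : ∀ w : Place κ M, w.1 Y ≤ max 1 (w.1 (algebraMap κ[X] M X))) {y : M} {N : ℕ}
    (hy : ∀ w : Place κ M, w.1 y ≤ max 1 (w.1 (algebraMap κ[X] M X)) ^ N) :
    ∃ Q : κ[X][X], aeval Y Q = aeval Y (derivative A) * y := by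
  classical
  set m := finrank (RatFunc κ) M with hm
  have hint : IsIntegral (RatFunc κ) Y := Algebra.IsIntegral.isIntegral Y
  have htop : Algebra.adjoin (RatFunc κ) {Y} = ⊤ := by
    rw [← IntermediateField.adjoin_simple_toSubalgebra_of_isAlgebraic hint.isAlgebraic, hgen,
      IntermediateField.top_toSubalgebra]
  let pb : PowerBasis (RatFunc κ) M := PowerBasis.ofAdjoinEqTop hint htop
  have hpbg : pb.gen = Y := PowerBasis.ofAdjoinEqTop_gen hint htop
  have hpbd : pb.dim = (minpoly (RatFunc κ) Y).natDegree := PowerBasis.ofAdjoinEqTop_dim hint htop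
  have hdm : pb.dim = m := pb.finrank.symm
  have hdeg : (minpoly (RatFunc κ) Y).natDegree = m := by rw [← hpbd, hdm]
  have htr : ∀ i : ℕ, ∃ t : κ[X], t.natDegree ≤ N + i ∧
      algebraMap κ[X] (RatFunc κ) t = Algebra.trace (RatFunc κ) M (y * Y ^ i) := by
    intro i
    apply trace_deg
    intro w
    rw [map_mul, map_pow, pow_add]
    exact mul_le_mul' (hy w) (pow_le_pow_left' (hY w) i)
  choose t ht1 ht2 using htr
  let B : ℕ → κ[X][X] := fun i => ∑ k ∈ Finset.range (m - i), C (A.coeff (i + 1 + k)) * X ^ k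
  have hB : ∀ i, i < m → (minpolyDiv (RatFunc κ) Y).coeff i = aeval Y (B i) := fun i hi =>
    coeff_quot' hA hdeg (m - i) i (by omega)
  refine ⟨∑ i ∈ Finset.range m, C (t i) * B i, ?_⟩
  have hA' : aeval pb.gen (derivative (minpoly (RatFunc κ) pb.gen)) =
      aeval Y (derivative A) := by
    rw [hpbg, hA, derivative_map, aeval_map_algebraMap]
  have hA0 : aeval Y (derivative A) ≠ 0 := by
    rw [← hA']
    exact (Algebra.IsSeparable.isSeparable (RatFunc κ) pb.gen).aeval_derivative_ne_zero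
      (minpoly.aeval _ _)
  have h1 := pb.basis.traceDual.sum_repr y
  have h2 : aeval Y (derivative A) * y = ∑ i : Fin pb.dim,
      algebraMap κ[X] M (t i) * (minpolyDiv (RatFunc κ) Y).coeff i := by
    conv_lhs => rw [← h1]
    rw [Finset.mul_sum]
    refine Finset.sum_congr rfl fun i _ => ?_
    rw [Module.Basis.traceDual_repr_apply, Module.Basis.traceDual_powerBasis_eq, hA', hpbg,
      Algebra.traceForm_apply, PowerBasis.coe_basis, hpbg, ← ht2, Algebra.smul_def,
      ← IsScalarTower.algebraMap_apply κ[X] (RatFunc κ) M]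
    field_simp
  rw [h2, map_sum, Finset.sum_range, hdm]
  refine Finset.sum_congr rfl fun i _ => ?_
  rw [map_mul, aeval_C, hB i i.2]

end Pool.Agent.Lib.MP_44a246_ntSH
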