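import Mathlib
import Pool.Agent.Lib.MP_44a246_ntSH.PJ08
import Pool.Agent.Lib.MP_44a246_ntE.E10
import Pool.Agent.Lib.MP_44a246_ntL.LMain
import Pool.Agent.Lib.MP_44a246_ntL.LRoot

/-!
# Stage II of paper 667: a multiplier
-/

namespace Pool.Agent.Lib.MP_44a246_ntSH

open Pool.Agent.Lib.MP_e52354_nt
open Pool.Agent.Lib.MP_44a246_nt
open Pool.Agent.Lib.MP_44a246_ntL
open Pool.Agent.Lib.MP_44a246_ntR
open Pool.Agent.Lib.MP_44a246_ntS
open Pool.Agent.Lib.MP_44a246_ntE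
open WithZero Polynomial Module

variable {κ M : Type*} [Field κ] [IsAlgClosed κ] [CharZero κ] [Field M] [Algebra κ M]

/-- a multiplier: `q γ` has its poles only at `P`, and order exactly `0` at the places of `S` -/
theorem exists_multiplier (h : IsFF κ M) {P : Place κ M} {S : Finset (Place κ M)} (hP : P ∉ S)
    {n : ℕ} {γ : Fin (n + 1) → M} (hγ : γ ≠ 0) :
    ∃ (q : M) (N : ℕ), q ≠ 0 ∧ (∀ v : Place κ M, v ≠ P → vmax v.1 (fun j => q * γ j) ≤ 1) ∧
      vmax P.1 (fun j => q * γ j) ≤ exp (N : ℤ) ∧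
      ∀ w ∈ S, vmax w.1 (fun j => q * γ j) = 1 := by
  classical
  -- `exists_rr_avoid` (PJ08) for `D v = - log (vmax v γ)` (finite support: `IsFF.vmax_finite`)
  -- plus a large multiple of `P`, `s = ∅`, `T = S`
  have hfin : (Function.support fun v : Place κ M => -log (vmax v.1 γ)).Finite := by
    refine (h.vmax_finite hγ).subset fun v hv hv1 => hv ?_
    simp only [hv1, log_one, neg_zero]
  obtain ⟨D0, hD0⟩ : ∃ D0 : Place κ M →₀ ℤ, ∀ v, D0 v = -log (vmax v.1 γ) :=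
    ⟨Finsupp.ofSupportFinite _ hfin, fun v => rfl⟩
  obtain ⟨N, hN⟩ : ∃ N : ℕ, 3 * (genus κ M : ℤ) + 1 - divDeg D0 ≤ N :=
    ⟨(3 * (genus κ M : ℤ) + 1 - divDeg D0).toNat, Int.self_le_toNat _⟩
  obtain ⟨D, hD⟩ : ∃ D : Place κ M →₀ ℤ, D = D0 + Finsupp.single P (N : ℤ) := ⟨_, rfl⟩
  have hdeg : 3 * (genus κ M : ℤ) + 1 ≤ divDeg D := by
    rw [hD, divDeg_add, divDeg_single]
    omega
  have hDne : ∀ v : Place κ M, v ≠ P → D v = -log (vmax v.1 γ) := by
    intro v hv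
    rw [hD, Finsupp.add_apply, Finsupp.single_eq_of_ne hv, add_zero, hD0]
  have hDP : D P = N - log (vmax P.1 γ) := by
    rw [hD, Finsupp.add_apply, Finsupp.single_eq_same, hD0]
    ring
  obtain ⟨q, hq, -, hqT⟩ := exists_rr_avoid h hdeg (∅ : Finset Empty) (fun i => i.elim)
    (fun i => i.elim) (insert P S)
  have hne : ∀ v : Place κ M, vmax v.1 γ ≠ 0 := fun v => vmax_ne_zero v.1 hγ
  have hexp : ∀ v : Place κ M, exp (-log (vmax v.1 γ)) * vmax v.1 γ = 1 := by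
    intro v
    rw [exp_neg, exp_log (hne v), inv_mul_cancel₀ (hne v)]
  refine ⟨q, N, ?_, fun v hv => ?_, ?_, fun w hw => ?_⟩
  · intro h0
    have h1 := hqT P (Finset.mem_insert_self _ _)
    rw [h0, map_zero] at h1
    exact exp_ne_zero h1.symm
  · rw [vmax_smul]
    have h1 : v.1 q ≤ exp (-log (vmax v.1 γ)) := by
      have h2 := hq v
      rwa [hDne v hv] at h2
    exact (mul_le_mul' h1 le_rfl).trans_eq (hexp v)
  · rw [vmax_smul, hqT P (Finset.mem_insert_self _ _), hDP, sub_eq_add_neg, exp_add, mul_assoc,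
      hexp P, mul_one]
  · have hwP : w ≠ P := fun h0 => hP (h0 ▸ hw)
    rw [vmax_smul, hqT w (Finset.mem_insert_of_mem hw), hDne w hwP, hexp w]

end Pool.Agent.Lib.MP_44a246_ntSH
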