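import Mathlib
import Pool.Agent.Lib.MP_44a246_ntSH.PJ09a
import Pool.Agent.Lib.MP_44a246_ntSH.PJ09b
import Pool.Agent.Lib.MP_44a246_ntSH.PJ09c
import Pool.Agent.Lib.MP_44a246_ntSH.PJ09e
import Pool.Agent.Lib.MP_44a246_ntSH.PJ10
import Pool.Agent.Lib.MP_44a246_ntSH.PJ10b
import Pool.Agent.Lib.MP_44a246_ntSH.PJ11a

/-!
# Stage II of paper 667: a plane model of small degree in which given places are good points
-/

namespace Pool.Agent.Lib.MP_44a246_ntSH

open Pool.Agent.Lib.MP_e52354_nt
open Pool.Agent.Lib.MP_44a246_nt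
open Pool.Agent.Lib.MP_44a246_ntL
open Pool.Agent.Lib.MP_44a246_ntR
open Pool.Agent.Lib.MP_44a246_ntS
open Pool.Agent.Lib.MP_44a246_ntE
open Pool.Agent.Lib.MP_44a246_ntPC
open Pool.Agent.Lib.MP_44a246_ntY
open WithZero Polynomial Module

variable {κ M : Type*} [Field κ] [IsAlgClosed κ] [CharZero κ] [Field M] [Algebra κ M]

omit [CharZero κ] in
private theorem pj11_transcendental {P : Place κ M} {f : M} (hf : 1 < P.1 f) :
    Transcendental κ f := by
  intro halg
  have h1 := IsAlgClosed.degree_eq_one_of_irreducible κ (minpoly.irreducible halg.isIntegral)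
  obtain ⟨c, rfl⟩ := minpoly.mem_range_of_degree_eq_one κ f h1
  by_cases hc : c = 0
  · rw [hc, map_zero, map_zero] at hf
    exact absurd hf (not_lt.2 zero_le)
  · rw [P.2.2 c hc] at hf
    exact lt_irrefl _ hf

omit [IsAlgClosed κ] [CharZero κ] in
/-- the field generated by `X, Y` over `κ` is generated by `Y` over `κ (X)` -/
private theorem pj11_gen [Algebra (RatFunc κ) M] [IsScalarTower κ (RatFunc κ) M] {X Y : M}
    (hX : tL κ M = X) (hgen : IntermediateField.adjoin κ {X, Y} = ⊤) :
    IntermediateField.adjoin (RatFunc κ) {Y} = ⊤ := by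
  rw [eq_top_iff]
  intro x _
  have h1 : x ∈ IntermediateField.adjoin κ {X, Y} := by
    rw [hgen]
    exact IntermediateField.mem_top
  have h2 : IntermediateField.adjoin κ {X, Y} ≤
      (IntermediateField.adjoin (RatFunc κ) {Y}).restrictScalars κ := by
    rw [IntermediateField.adjoin_le_iff]
    rintro y (rfl | hy)
    · change _ ∈ IntermediateField.adjoin (RatFunc κ) {Y}
      rw [← hX]
      exact (IntermediateField.adjoin (RatFunc κ) {Y}).algebraMap_mem _
    · change y ∈ IntermediateField.adjoin (RatFunc κ) {Y}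
      exact IntermediateField.subset_adjoin (RatFunc κ) {Y} hy
  exact h2 h1

/-- **The plane model.** -/
theorem exists_model (h : IsFF κ M) {S : Finset (Place κ M)} {e : ℕ}
    (he : 3 * genus κ M + 2 ≤ e) {n : ℕ} {γ : Fin (n + 1) → M} (hγ : γ ≠ 0) :
    ∃ (x y q : M) (A : κ[X][X]) (Q : Fin (n + 1) → κ[X][X]) (ε : Place κ M → κ × κ),
      Transcendental κ x ∧ Irreducible A ∧ A.Monic ∧ A.natDegree = e ∧ Tot e A ∧
      ev (algebraMap κ M) x y A = 0 ∧ q ≠ 0 ∧
      (∀ j, ev (algebraMap κ M) x y (Q j) = q * γ j) ∧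
      Set.InjOn (fun w => (ε w).1) (S : Set (Place κ M)) ∧
      ∀ w ∈ S, w.1 (x - algebraMap κ M (ε w).1) < 1 ∧ w.1 (y - algebraMap κ M (ε w).2) < 1 ∧
        A.evalEval (ε w).1 (ε w).2 = 0 ∧ (derivative A).evalEval (ε w).1 (ε w).2 ≠ 0 ∧
        ∃ j, (Q j).evalEval (ε w).1 (ε w).2 ≠ 0 := by
  classical
  obtain ⟨P, hPS⟩ := exists_place_notMem h S
  have he2 : 2 ≤ e := by omega
  obtain ⟨x, hx⟩ := exists_sepX h hPS (e := e) (by omega)
  obtain ⟨y, hy⟩ := exists_sepY h he he2 hx
  obtain ⟨q, N, hq, hqv, hqP, hqS⟩ := exists_multiplier h hPS hγ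
  have h1e : (1 : ℤᵐ⁰) < exp (e : ℤ) := by
    rw [← exp_zero, exp_lt_exp]
    omega
  have hxt : Transcendental κ x := pj11_transcendental (P := P) (by rw [hx.pole]; exact h1e)
  have hgen := adjoin_eq_top h he2 hx hy
  refine with_sep h hxt ?_
  intro iA t1 iR t2 iI t3 fd hXf
  have htower : IsScalarTower κ (RatFunc κ) M := tower_ratFunc
  have htL : tL κ M = x := by rw [tL_eq, hXf]
  have hgen' := pj11_gen htL hgen
  have hrk : finrank (RatFunc κ) M = e := by
    have h1 := finrank_eq_height κ M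
    rw [htL, height_of_pole h hx.pole hx.reg] at h1
    exact_mod_cast h1
  have hYle : ∀ v : Place κ M, v.1 y ≤ max 1 (v.1 (algebraMap κ[X] M X)) := by
    intro v
    rw [hXf]
    by_cases hv : v = P
    · subst hv
      refine le_max_of_le_right ?_
      rw [hy.pole, hx.pole, exp_le_exp]
      omega
    · exact le_max_of_le_left (hy.reg v hv)
  obtain ⟨A, hAm, hAirr, hAdeg, hmin, hdvd, hTot⟩ := exists_eqT hgen' hYle
  rw [hrk] at hAdeg hTot
  have hyN : ∀ j, ∀ w : Place κ M, w.1 (q * γ j) ≤ max 1 (w.1 (algebraMap κ[X] M X)) ^ N := by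
    intro j w
    have h1 : w.1 (q * γ j) ≤ vmax w.1 (fun j => q * γ j) :=
      Finset.le_sup (f := fun i => w.1 (q * γ i)) (Finset.mem_univ j)
    by_cases hw : w = P
    · subst hw
      refine (h1.trans hqP).trans ?_
      rw [hXf, hx.pole, max_eq_right h1e.le, ← exp_nsmul, exp_le_exp]
      have h2 : (1 : ℤ) ≤ e := by omega
      rw [nsmul_eq_mul]
      nlinarith [Int.natCast_nonneg N]
    · exact (h1.trans (hqv w hw)).trans (one_le_pow₀ (le_max_left _ _))
  have hnum := fun j => exists_numN hgen' hAm hmin hYle (hyN j)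
  choose Q hQ using hnum
  have hA0 : ev (algebraMap κ M) x y A = 0 := by
    rw [← hXf, ev_aeval]
    exact (hdvd A).2 dvd_rfl
  have hder0 : derivative A ≠ 0 := by
    intro h0
    have h1 := derivative_eq_zero.1 h0
    omega
  have hder : aeval y (derivative A) ≠ 0 := by
    intro h0
    have h1 := natDegree_le_of_dvd ((hdvd _).1 h0) hder0
    have h2 := natDegree_derivative_lt (p := A) (by omega)
    omega
  have hne : ∀ w ∈ S, w ≠ P := fun w hw h0 => hPS (h0 ▸ hw)
  have hε : ∀ w : Place κ M, ∃ p : κ × κ, w ∈ S →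
      w.1 (x - algebraMap κ M p.1) < 1 ∧ w.1 (y - algebraMap κ M p.2) < 1 := by
    intro w
    by_cases hw : w ∈ S
    · obtain ⟨a, ha⟩ := place_residue w (hx.reg w (hne w hw))
      obtain ⟨b, hb⟩ := place_residue w (hy.reg w (hne w hw))
      exact ⟨(a, b), fun _ => ⟨ha, hb⟩⟩
    · exact ⟨0, fun h0 => absurd h0 hw⟩
  choose ε hε using hε
  refine ⟨x, y, aeval y (derivative A) * q, A, Q, ε, hxt, hAirr, hAm, hAdeg, hTot, hA0,
    mul_ne_zero hder hq, ?_, ?_, ?_⟩
  · intro j
    rw [← hXf, ev_aeval, hQ j, mul_assoc]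
  · intro w hw w' hw' hww
    by_contra hne'
    have h1 := (hε w hw).1
    have h2 := (hε w' hw').1
    have h3 : (ε w).1 = (ε w').1 := hww
    rw [← h3] at h2
    exact hx.inj w hw w' hw' hne' _ h1 h2
  · intro w hw
    obtain ⟨hwx, hwy⟩ := hε w hw
    have hd : (derivative A).evalEval (ε w).1 (ε w).2 ≠ 0 := by
      refine der_ne_zero hAm hgen' hmin (w := w) ?_ hwy ?_ ?_
      · rw [hXf]
        exact hx.unram w hw _ hwx
      · intro v hv
        rw [hXf] at hv
        refine hy.reg v ?_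
        rintro rfl
        have h1 : v.1 x = v.1 (x - algebraMap κ M (ε w).1) := by
          have h2 : v.1 x ≤ max (v.1 (x - algebraMap κ M (ε w).1))
              (v.1 (algebraMap κ M (ε w).1)) := by
            have h3 := v.1.map_add (x - algebraMap κ M (ε w).1) (algebraMap κ M (ε w).1)
            rwa [sub_add_cancel] at h3
          have h4 : v.1 (algebraMap κ M (ε w).1) ≤ 1 := by
            rcases eq_or_ne (ε w).1 0 with h0 | h0
            · rw [h0, map_zero, map_zero]
              exact zero_le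
            · rw [v.2.2 _ h0]
          have h5 : v.1 x ≤ 1 := h2.trans (max_le hv.le h4)
          rw [hx.pole] at h5
          exact absurd h5 (not_le.2 h1e)
        rw [← h1, hx.pole] at hv
        exact absurd hv (not_lt.2 h1e.le)
      · intro v hvw hv
        rw [hXf] at hv
        exact hy.sep w hw v hvw _ _ hwx hv hwy
    refine ⟨hwx, hwy, ?_, hd, ?_⟩
    · by_contra h0
      have h1 := (val_ev hwx hwy A).2.2 h0
      rw [hA0, map_zero] at h1
      exact zero_ne_one h1
    · have h1 := hqS w hw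
      obtain ⟨j, _, hj⟩ := Finset.exists_mem_eq_sup (Finset.univ : Finset (Fin (n + 1)))
        Finset.univ_nonempty (fun j => w.1 (q * γ j))
      have h2 : w.1 (q * γ j) = 1 := by
        rw [← hj]
        exact h1
      refine ⟨j, (val_ev hwx hwy (Q j)).2.1 ?_⟩
      have h3 : ev (algebraMap κ M) x y (Q j) =
          ev (algebraMap κ M) x y (derivative A) * (q * γ j) := by
        rw [← hXf, ev_aeval, ev_aeval, hQ j]
      rw [h3, map_mul, h2, (val_ev hwx hwy _).2.2 hd, one_mul]

end Pool.Agent.Lib.MP_44a246_ntSH
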