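import Mathlib
import Pool.Agent.Lib.MP_44a246_ntPC.E4
import Pool.Agent.Lib.MP_44a246_ntY.Y53
import Pool.Agent.Lib.MP_44a246_ntX.XM1

/-!
# Stage II of paper 667: boundary places give zeros of the form
-/

namespace Pool.Agent.Lib.MP_44a246_ntSH

open Pool.Agent.Lib.MP_e52354_nt
open Pool.Agent.Lib.MP_44a246_nt
open Pool.Agent.Lib.MP_44a246_ntL
open Pool.Agent.Lib.MP_44a246_ntR
open Pool.Agent.Lib.MP_44a246_ntS
open Pool.Agent.Lib.MP_44a246_ntE
open Pool.Agent.Lib.MP_44a246_ntPC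
open Pool.Agent.Lib.MP_44a246_ntY
open WithZero Polynomial Module

variable {κ M : Type*} [Field κ] [IsAlgClosed κ] [CharZero κ] [Field M] [Algebra κ M]

/-- a form which is small at the place vanishes at the point of the model -/
theorem Fval_eq_zero_of_lt {w : Place κ M} {x y q : M} {n D : ℕ} {γ : Fin (n + 1) → M}
    {Q : Fin (n + 1) → κ[X][X]} {p : κ × κ} (hq : q ≠ 0)
    (hQ : ∀ j, ev (algebraMap κ M) x y (Q j) = q * γ j)
    (hx : w.1 (x - algebraMap κ M p.1) < 1) (hy : w.1 (y - algebraMap κ M p.2) < 1)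
    (hne : ∃ j, (Q j).evalEval p.1 p.2 ≠ 0) {c : (Fin (n + 1) →₀ ℕ) → κ}
    (hlt : w.1 (Fval D (fun I => algebraMap κ M (c I)) γ) < vmax w.1 γ ^ D) :
    Fval D c (fun j => (Q j).evalEval p.1 p.2) = 0 := by
  classical
  have h1 : ev (algebraMap κ M) x y (FB D c Q) =
      q ^ D * Fval D (fun I => algebraMap κ M (c I)) γ := by
    have h2 : ev (algebraMap κ M) x y (FB D c Q) =
        Fval D (fun I => algebraMap κ M (c I)) (fun j => ev (algebraMap κ M) x y (Q j)) := by
      unfold FB Fval mon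
      rw [map_sum]
      refine Finset.sum_congr rfl fun I _ => ?_
      rw [map_mul, map_prod, ev_C_C]
      congr 1
      refine Finset.prod_congr rfl fun j _ => ?_
      rw [map_pow]
    rw [h2]
    have h3 : (fun j => ev (algebraMap κ M) x y (Q j)) = fun j => q * γ j := funext hQ
    rw [h3, Fval_smul]
  have hq0 : w.1 q ≠ 0 := (Valuation.ne_zero_iff _).2 hq
  obtain ⟨j, hj⟩ := hne
  have h4 : w.1 q * w.1 (γ j) = 1 := by
    rw [← map_mul, ← hQ j]
    exact (val_ev hx hy (Q j)).2.2 hj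
  have h5 : vmax w.1 γ = w.1 (γ j) := by
    refine le_antisymm (Finset.sup_le fun i _ => ?_) (Finset.le_sup (f := fun j => w.1 (γ j)) (Finset.mem_univ j))
    have h6 := (val_ev hx hy (Q i)).1
    rw [hQ i, map_mul] at h6
    exact (mul_le_mul_iff_right₀ (zero_lt_iff.2 hq0)).1 (h6.trans h4.ge)
  have h7 : w.1 (ev (algebraMap κ M) x y (FB D c Q)) < 1 := by
    rw [h1, map_mul, map_pow]
    have h8 : w.1 q ^ D * w.1 (γ j) ^ D = 1 := by rw [← mul_pow, h4, one_pow]
    rw [h5] at hlt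
    exact ((mul_lt_mul_iff_right₀ (pow_pos (zero_lt_iff.2 hq0) D)).2 hlt).trans_eq h8
  by_contra h0
  have h9 : (FB D c Q).evalEval p.1 p.2 ≠ 0 := by
    have h10 : (FB D c Q).evalEval p.1 p.2 =
        Fval D c (fun j => (Q j).evalEval p.1 p.2) := by
      have hh : ∀ P : κ[X][X], P.evalEval p.1 p.2 = evalEvalRingHom p.1 p.2 P := fun P => rfl
      have hC : ∀ c : κ, evalEvalRingHom p.1 p.2 (C (C c)) = c := fun c => by
        rw [← hh]; simp
      rw [hh]
      unfold FB Fval mon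
      rw [map_sum]
      refine Finset.sum_congr rfl fun I _ => ?_
      rw [map_mul, map_prod, hC]
      congr 1
      refine Finset.prod_congr rfl fun j _ => ?_
      rw [map_pow]
      rfl
    rw [h10]
    exact h0
  exact h7.ne ((val_ev hx hy (FB D c Q)).2.2 h9)

end Pool.Agent.Lib.MP_44a246_ntSH
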