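import Mathlib
import Pool.Agent.Lib.MP_44a246_ntSH.PJ09a
import Pool.Agent.Lib.MP_44a246_ntSH.PJ09e
import Pool.Agent.Lib.MP_44a246_ntSH.PJ10b
import Pool.Agent.Lib.MP_44a246_ntSH.PJ11a
import Pool.Agent.Lib.MP_44a246_ntPC.E4
import Pool.Agent.Lib.MP_44a246_ntY.Y53

/-!
# Stage II of paper 667: the model of degree one in the case of genus zero
-/

namespace Pool.Agent.Lib.MP_44a246_ntSH

open Pool.Agent.Lib.MP_e52354_nt
open Pool.Agent.Lib.MP_44a246_nt
open Pool.Agent.Lib.MP_44a246_ntL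
open Pool.Agent.Lib.MP_44a246_ntR
open Pool.Agent.Lib.MP_44a246_ntS
open Pool.Agent.Lib.MP_44a246_ntE
open Pool.Agent.Lib.MP_44a246_ntPC
open Pool.Agent.Lib.MP_44a246_ntY
open WithZero Polynomial Module

variable {κ M : Type*} [Field κ] [IsAlgClosed κ] [CharZero κ] [Field M] [Algebra κ M]

omit [CharZero κ] in
/-- a function with a pole is transcendental -/
private theorem transcendental_of_pole {P : Place κ M} {f : M} (hf : 1 < P.1 f) :
    Transcendental κ f := by
  intro halg
  have h1 := IsAlgClosed.degree_eq_one_of_irreducible κ (minpoly.irreducible halg.isIntegral)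
  obtain ⟨c, rfl⟩ := minpoly.mem_range_of_degree_eq_one κ f h1
  by_cases hc : c = 0
  · rw [hc, map_zero, map_zero] at hf
    exact absurd hf (not_lt.2 zero_le)
  · rw [P.2.2 c hc] at hf
    exact lt_irrefl _ hf

/-- **The plane model in the case of genus zero**, a line. -/
theorem exists_model_zero (h : IsFF κ M) (hg : genus κ M = 0) {S : Finset (Place κ M)} {n : ℕ}
    {γ : Fin (n + 1) → M} (hγ : γ ≠ 0) :
    ∃ (x y q : M) (A : κ[X][X]) (Q : Fin (n + 1) → κ[X][X]) (ε : Place κ M → κ × κ),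
      Transcendental κ x ∧ Irreducible A ∧ A.Monic ∧ A.natDegree = 1 ∧ Tot 1 A ∧
      ev (algebraMap κ M) x y A = 0 ∧ q ≠ 0 ∧
      (∀ j, ev (algebraMap κ M) x y (Q j) = q * γ j) ∧
      Set.InjOn (fun w => (ε w).1) (S : Set (Place κ M)) ∧
      ∀ w ∈ S, w.1 (x - algebraMap κ M (ε w).1) < 1 ∧ w.1 (y - algebraMap κ M (ε w).2) < 1 ∧
        A.evalEval (ε w).1 (ε w).2 = 0 ∧ (derivative A).evalEval (ε w).1 (ε w).2 ≠ 0 ∧
        ∃ j, (Q j).evalEval (ε w).1 (ε w).2 ≠ 0 := by
  obtain ⟨P, hP⟩ := exists_place_notMem h S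
  obtain ⟨x, hx⟩ := exists_sepX h hP (e := 1) (by rw [hg])
  obtain ⟨q, N, hq0, hq1, hq2, hq3⟩ := exists_multiplier h hP hγ
  have hxt : Transcendental κ x := transcendental_of_pole (P := P) (by
    rw [hx.pole, ← exp_zero, exp_lt_exp]
    norm_num)
  have hxreg : ∀ w ∈ S, w.1 x ≤ 1 := fun w hw => hx.reg w (fun h1 => hP (h1 ▸ hw))
  refine with_sep h hxt ?_
  intro i1 i2 i3 i4 i5 i6 i7 hX
  have i8 : IsScalarTower κ (RatFunc κ) M := IsScalarTower.of_algebraMap_eq fun u => by
    rw [IsScalarTower.algebraMap_apply κ κ[X] M, IsScalarTower.algebraMap_apply κ[X] (RatFunc κ) M,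
      ← IsScalarTower.algebraMap_apply κ κ[X] (RatFunc κ)]
  have hres : ∀ w : Place κ M, w.1 x ≤ 1 → ∃ c : κ, w.1 (x - algebraMap κ M c) < 1 :=
    fun w hw => place_residue w hw
  choose! c hc using hres
  have htL : tL κ M = x := by
    rw [← hX, IsScalarTower.algebraMap_apply κ[X] (RatFunc κ) M, RatFunc.algebraMap_X]
    rfl
  have hfin : finrank (RatFunc κ) M = 1 := by
    have h1 := finrank_eq_height κ M
    rw [htL, height_of_pole h hx.pole hx.reg] at h1
    exact_mod_cast h1
  have hgen : IntermediateField.adjoin (RatFunc κ) {(0 : M)} = ⊤ := by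
    rw [IntermediateField.adjoin_zero]
    exact IntermediateField.bot_eq_top_iff_finrank_eq_one.2 hfin
  have hmin : minpoly (RatFunc κ) (0 : M) = (X : κ[X][X]).map (algebraMap κ[X] (RatFunc κ)) := by
    rw [minpoly.zero, Polynomial.map_X]
  have hY : ∀ w : Place κ M, w.1 (0 : M) ≤ max 1 (w.1 (algebraMap κ[X] M X)) := fun w => by
    rw [map_zero]
    exact zero_le
  have hnum : ∀ j, ∃ Q : κ[X][X], aeval (0 : M) Q = aeval (0 : M) (derivative (X : κ[X][X])) *
      (q * γ j) := by
    intro j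
    refine exists_numN hgen monic_X hmin hY (N := N) fun w => ?_
    rw [hX]
    rcases eq_or_ne w P with rfl | hw
    · refine (le_vmax w.1 (fun j => q * γ j) j).trans (hq2.trans ?_)
      have h1 : exp (N : ℤ) = exp (1 : ℤ) ^ N := by
        rw [← exp_nsmul, nsmul_eq_mul, mul_one]
      rw [h1]
      refine pow_le_pow_left' ?_ N
      rw [hx.pole]
      exact le_max_right _ _
    · exact ((le_vmax w.1 (fun j => q * γ j) j).trans (hq1 w hw)).trans
        (one_le_pow_of_one_le' (le_max_left _ _) N)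
  choose Q hQ using hnum
  have hev : ∀ G : κ[X][X], ev (algebraMap κ M) x 0 G = aeval (0 : M) G := fun G => by
    rw [← hX]
    exact ev_aeval (0 : M) G
  have hQ' : ∀ j, ev (algebraMap κ M) x 0 (Q j) = q * γ j := fun j => by
    rw [hev, hQ, derivative_X, map_one, one_mul]
  have hy : ∀ w : Place κ M, w.1 ((0 : M) - algebraMap κ M 0) < 1 := fun w => by
    rw [map_zero, sub_zero, map_zero]
    exact zero_lt_one
  refine ⟨x, 0, q, X, Q, fun w => (c w, 0), hxt, irreducible_X, monic_X, natDegree_X, ?_, ?_, hq0,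
    hQ', ?_, fun w hw => ⟨hc w (hxreg w hw), hy w, ?_, ?_, ?_⟩⟩
  · intro i k hik
    rw [coeff_X] at hik
    split_ifs at hik with h1
    · rw [coeff_one] at hik
      split_ifs at hik with h2
      · omega
      · exact absurd rfl hik
    · rw [coeff_zero] at hik
      exact absurd rfl hik
  · rw [hev, aeval_X]
  · intro w hw w' hw' hww
    by_contra hne
    have h1 := hc w (hxreg w hw)
    have h2 := hc w' (hxreg w' hw')
    have h3 : c w = c w' := hww
    rw [← h3] at h2
    exact hx.inj w hw w' hw' hne (c w) h1 h2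
  · exact evalEval_X _ _
  · rw [derivative_X, evalEval_one]
    exact one_ne_zero
  · have h1 := hq3 w hw
    have hne : (fun j => q * γ j) ≠ 0 := by
      intro h0
      rw [h0] at h1
      have h2 : vmax w.1 (0 : Fin (n + 1) → M) = 0 := by
        rw [vmax_eq_zero_iff]
      rw [h2] at h1
      exact zero_ne_one h1
    obtain ⟨j, -, hj, -⟩ := exists_vmax w.1 hne
    refine ⟨j, ?_⟩
    have h3 := (val_ev (hc w (hxreg w hw)) (hy w) (Q j)).2.1
    refine h3 ?_
    rw [hQ' j]
    exact hj.symm.trans h1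

end Pool.Agent.Lib.MP_44a246_ntSH
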