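import Mathlib
import Pool.Agent.Lib.MP_44a246_ntS.SP7

/-!
# Stage II of paper 667: generic points of plane curves
-/

namespace Pool.Agent.Lib.MP_44a246_ntSH

open Pool.Agent.Lib.MP_44a246_ntS
open Polynomial

/-- a polynomial which vanishes at a generic point of an irreducible curve is divisible by the
equation of the curve -/
theorem dvd_of_generic {k₀ F : Type*} [Field k₀] [Field F] [Algebra k₀ F] {A G : k₀[X][X]}
    (hA : Irreducible A) {s t : F} (hs : Transcendental k₀ s)
    (hA0 : ev (algebraMap k₀ F) s t A = 0) (hG0 : ev (algebraMap k₀ F) s t G = 0) : A ∣ G := by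
  have hinjs : Function.Injective (eval₂RingHom (algebraMap k₀ F) s) := by
    rw [injective_iff_map_eq_zero]
    intro r hr
    by_contra hr0
    exact hs ⟨r, hr0, hr⟩
  have hev : ∀ P : k₀[X][X], ev (algebraMap k₀ F) s t P =
      eval₂ (eval₂RingHom (algebraMap k₀ F) s) t P := fun P => ev_apply _ _ _ P
  have hm : A.natDegree ≠ 0 := by
    intro h0
    obtain ⟨r, hr⟩ := natDegree_eq_zero.mp h0
    rw [hev, ← hr, eval₂_C, ← map_zero (eval₂RingHom (algebraMap k₀ F) s)] at hA0
    have h1 := hinjs hA0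
    apply hA.ne_zero
    rw [← hr, h1, C_0]
  have hprim : A.IsPrimitive := hA.isPrimitive hm
  have hirr : Irreducible (A.map (algebraMap k₀[X] (FractionRing k₀[X]))) :=
    hprim.irreducible_iff_irreducible_map_fraction_map.mp hA
  apply hprim.dvd_of_fraction_map_dvd_fraction_map (K := FractionRing k₀[X])
  by_contra hnd
  obtain ⟨U, V, hUV⟩ := (hirr.coprime_iff_not_dvd).mpr hnd
  let ψ : FractionRing k₀[X] →+* F := IsFractionRing.lift hinjs
  have hψ : ψ.comp (algebraMap k₀[X] (FractionRing k₀[X])) =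
      eval₂RingHom (algebraMap k₀ F) s := by
    refine RingHom.ext fun r => ?_
    exact IsFractionRing.lift_algebraMap hinjs r
  have hz : ∀ P : k₀[X][X], ev (algebraMap k₀ F) s t P = 0 →
      eval₂ ψ t (P.map (algebraMap k₀[X] (FractionRing k₀[X]))) = 0 := by
    intro P hP
    rw [eval₂_map, hψ, ← hev, hP]
  have h1 := congrArg (eval₂ ψ t) hUV
  rw [eval₂_add, eval₂_mul, eval₂_mul, hz A hA0, hz G hG0, mul_zero, mul_zero, add_zero,
    eval₂_one] at h1
  exact zero_ne_one h1

end Pool.Agent.Lib.MP_44a246_ntSH
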