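import Mathlib
import Pool.Agent.Lib.MP_44a246_ntSH.PJ12a

/-!
# Stage II of paper 667: homomorphisms of the function field of a plane curve
-/

namespace Pool.Agent.Lib.MP_44a246_ntSH

open Pool.Agent.Lib.MP_44a246_ntS
open Polynomial

/-- **The homomorphism given by a generic point.** -/
theorem exists_hom_point {k₀ M₀ F : Type*} [Field k₀] [Field M₀] [Algebra k₀ M₀] [Field F]
    [Algebra k₀ F] {A : k₀[X][X]} {X₀ Y₀ : M₀} (hirr : Irreducible A)
    (hgen : IntermediateField.adjoin k₀ {X₀, Y₀} = ⊤)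
    (hA : ∀ G : k₀[X][X], ev (algebraMap k₀ M₀) X₀ Y₀ G = 0 ↔ A ∣ G) {s t : F}
    (hs : Transcendental k₀ s) (h0 : ev (algebraMap k₀ F) s t A = 0) :
    ∃ σ : M₀ →ₐ[k₀] F, σ X₀ = s ∧ σ Y₀ = t := by
  set φ : k₀[X][X] →+* M₀ := ev (algebraMap k₀ M₀) X₀ Y₀ with hφ
  set ψ : k₀[X][X] →+* F := ev (algebraMap k₀ F) s t with hψ
  have hker : RingHom.ker φ.rangeRestrict ≤ RingHom.ker ψ := by
    intro p hp
    rw [RingHom.mem_ker] at hp ⊢
    have h1 : φ p = 0 := by
      have := congrArg Subtype.val hp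
      simpa using this
    obtain ⟨q, rfl⟩ := (hA p).1 h1
    rw [map_mul, h0, zero_mul]
  let g : φ.range →+* F :=
    RingHom.liftOfSurjective φ.rangeRestrict φ.rangeRestrict_surjective ⟨ψ, hker⟩
  have hg : ∀ p, g (φ.rangeRestrict p) = ψ p := fun p =>
    RingHom.liftOfRightInverse_comp_apply _ _ _ ⟨ψ, hker⟩ p
  have hginj : Function.Injective g := by
    rw [injective_iff_map_eq_zero]
    intro y hy
    obtain ⟨p, rfl⟩ := φ.rangeRestrict_surjective y
    rw [hg] at hy
    have h2 := (hA p).2 (dvd_of_generic hirr hs h0 hy)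
    exact Subtype.ext h2
  have hX : φ (C X) = X₀ := ev_C_X _ _ _
  have hY : φ X = Y₀ := ev_X _ _ _
  have hc : ∀ c : k₀, φ (C (C c)) = algebraMap k₀ M₀ c := fun c => ev_C_C _ _ _ c
  have hadj : ∀ z ∈ Algebra.adjoin k₀ {X₀, Y₀}, z ∈ φ.range := by
    intro z hz
    induction hz using Algebra.adjoin_induction with
    | mem x hx =>
      rcases hx with rfl | hx
      · exact ⟨C X, hX⟩
      · rw [Set.mem_singleton_iff] at hx
        subst hx
        exact ⟨X, hY⟩
    | algebraMap r => exact ⟨C (C r), hc r⟩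
    | add x y _ _ hx hy => exact add_mem hx hy
    | mul x y _ _ hx hy => exact mul_mem hx hy
  have : IsFractionRing φ.range M₀ := by
    apply IsFractionRing.of_field
    intro z
    have hz : z ∈ IntermediateField.adjoin k₀ {X₀, Y₀} := by rw [hgen]; trivial
    rw [IntermediateField.mem_adjoin_iff_div] at hz
    obtain ⟨r, hr, q, hq, rfl⟩ := hz
    exact ⟨⟨r, hadj r hr⟩, ⟨q, hadj q hq⟩, rfl⟩
  let σ : M₀ →+* F := IsFractionRing.lift hginj
  have hσ : ∀ p, σ (φ p) = ψ p := by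
    intro p
    have := IsFractionRing.lift_algebraMap (K := M₀) hginj (φ.rangeRestrict p)
    rw [hg] at this
    exact this
  refine ⟨⟨σ, fun c => ?_⟩, ?_, ?_⟩
  · show σ (algebraMap k₀ M₀ c) = algebraMap k₀ F c
    rw [← hc c, hσ]
    exact ev_C_C _ _ _ c
  · show σ X₀ = s
    rw [← hX, hσ]
    exact ev_C_X _ _ _
  · show σ Y₀ = t
    rw [← hY, hσ]
    exact ev_X _ _ _

end Pool.Agent.Lib.MP_44a246_ntSH
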