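import Mathlib
import Pool.Agent.Lib.MP_44a246_ntPC.M8
import Pool.Agent.Lib.MP_44a246_ntPC.E1
import Pool.Agent.Lib.MP_44a246_ntX.XM1

/-!
# Stage II of paper 667: estimates at one place
-/

namespace Pool.Agent.Lib.MP_44a246_ntSH

open Pool.Agent.Lib.MP_e52354_nt
open Pool.Agent.Lib.MP_44a246_nt
open Pool.Agent.Lib.MP_44a246_ntL
open Pool.Agent.Lib.MP_44a246_ntS
open Pool.Agent.Lib.MP_44a246_ntY
open Pool.Agent.Lib.MP_44a246_ntPC
open WithZero Polynomial Module

section Local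

variable {E : Type*} [Field E] (v : Valuation E ℤᵐ⁰)

private theorem pj13a_one_le (t : ℕ) : (1 : ℤᵐ⁰) ≤ exp (t : ℤ) := by
  rw [← WithZero.exp_zero, WithZero.exp_le_exp]
  exact Int.natCast_nonneg t

private theorem pj13a_exp_pow (t k : ℕ) : (exp (t : ℤ) : ℤᵐ⁰) ^ k = exp ((k * t : ℕ) : ℤ) := by
  rw [← WithZero.exp_nsmul]
  congr 1

private theorem pj13a_evalEval_sum {f g : E} {A : E[X][X]} {N : ℕ} (hN : A.natDegree < N) :
    A.evalEval f g = ∑ i ∈ Finset.range N, (A.coeff i).eval f * g ^ i := by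
  have h : A.evalEval f g = eval f (eval (C g) A) := rfl
  rw [h, eval_eq_sum_range' hN, eval_finsetSum]
  refine Finset.sum_congr rfl fun i _ => ?_
  rw [eval_mul, eval_pow, eval_C]

/-- the second coordinate of a point of a monic curve of total degree `e` -/
theorem snd_le_of_tot {e t : ℕ} {A : E[X][X]} (hmon : A.Monic) (hdeg : A.natDegree = e)
    (he : e ≠ 0) (hT : Tot e A) (hA : gg v A ≤ exp (t : ℤ)) {f g : E}
    (h0 : A.evalEval f g = 0) : v g ≤ exp (t : ℤ) * max 1 (v f) := by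
  -- otherwise `g ^ e` dominates the other terms `a_i (f) g ^ i`, `|a_i (f)| ≤ exp t * max 1 |f| ^ (e - i)`
  by_contra hcon
  rw [not_le] at hcon
  have hT1 : (1 : ℤᵐ⁰) ≤ exp (t : ℤ) := pj13a_one_le t
  have hm1 : (1 : ℤᵐ⁰) ≤ max 1 (v f) := le_max_left _ _
  have hfm : v f ≤ max 1 (v f) := le_max_right _ _
  generalize hm : max 1 (v f) = m at hcon hm1 hfm
  generalize exp (t : ℤ) = T at hcon hT1 hA
  have hg0 : 0 < v g := lt_of_le_of_lt zero_le hcon
  have hgne : g ≠ 0 := by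
    rintro rfl
    simp at hg0
  have hcoef : ∀ i, i < e → v ((A.coeff i).eval f) ≤ T * m ^ (e - i) := by
    intro i hi
    rw [eval_eq_sum_range]
    refine v.map_sum_le fun k _ => ?_
    rw [map_mul, map_pow]
    by_cases hk : (A.coeff i).coeff k = 0
    · rw [hk, map_zero, zero_mul]
      exact zero_le
    · have h1 := hT i k hk
      refine mul_le_mul' ((le_gg v A i k).trans hA) ?_
      calc (v f) ^ k ≤ m ^ k := pow_le_pow_left' hfm k
        _ ≤ m ^ (e - i) := pow_le_pow_right' hm1 (by omega)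
  have hsum : v (∑ i ∈ Finset.range e, (A.coeff i).eval f * g ^ i) < v (g ^ e) := by
    refine v.map_sum_lt ?_ fun i hi => ?_
    · rw [map_pow]
      exact (pow_pos hg0 e).ne'
    · have hi' : i < e := Finset.mem_range.1 hi
      rw [map_mul, map_pow, map_pow]
      have h1 : v ((A.coeff i).eval f) < (v g) ^ (e - i) := by
        refine (hcoef i hi').trans_lt ?_
        have h2 : T * m ^ (e - i) ≤ (T * m) ^ (e - i) := by
          rw [mul_pow]
          refine mul_le_mul_left (le_self_pow hT1 (by omega)) _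
        refine h2.trans_lt ?_
        exact pow_lt_pow_left₀ hcon zero_le (by omega)
      have h3 : (v g) ^ e = (v g) ^ (e - i) * (v g) ^ i := by
        rw [← pow_add]
        congr 1
        omega
      rw [h3]
      exact mul_lt_mul_of_pos_right h1 (pow_pos hg0 i)
  rw [pj13a_evalEval_sum (N := e + 1) (by omega), Finset.sum_range_succ] at h0
  have hlead : A.coeff e = 1 := by
    rw [← hdeg]
    exact hmon
  rw [hlead, eval_one, one_mul] at h0
  have h4 : ∑ i ∈ Finset.range e, (A.coeff i).eval f * g ^ i = - g ^ e := by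
    rw [eq_neg_iff_add_eq_zero]
    exact h0
  rw [h4, Valuation.map_neg] at hsum
  exact lt_irrefl _ hsum

private theorem pj13a_pow_sub_le {x y : E} {M ρ : ℤᵐ⁰} (hM : 1 ≤ M) (hx : v x ≤ M) (hy : v y ≤ M)
    (hxy : v (x - y) ≤ ρ) (k : ℕ) : v (x ^ k - y ^ k) ≤ M ^ k * ρ := by
  induction k with
  | zero =>
    rw [pow_zero, pow_zero, sub_self, map_zero]
    exact zero_le
  | succ k ih =>
    have h1 : x ^ (k + 1) - y ^ (k + 1) = x * (x ^ k - y ^ k) + (x - y) * y ^ k := by ring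
    rw [h1]
    refine (v.map_add _ _).trans (max_le ?_ ?_)
    · rw [map_mul]
      calc v x * v (x ^ k - y ^ k) ≤ M * (M ^ k * ρ) := mul_le_mul' hx ih
        _ = M ^ (k + 1) * ρ := by rw [pow_succ, ← mul_assoc, mul_comm M]
    · rw [map_mul, map_pow]
      calc v (x - y) * v y ^ k ≤ ρ * M ^ k := mul_le_mul' hxy (pow_le_pow_left' hy k)
        _ = M ^ k * ρ := mul_comm _ _
        _ ≤ M ^ (k + 1) * ρ := mul_le_mul_left (pow_le_pow_right' hM (Nat.le_succ k)) _

/-- values at near points -/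
theorem eval_sub_le {b t : ℕ} {Q : E[X][X]} (hQ : Box b Q) (hQt : gg v Q ≤ exp (t : ℤ))
    {f g a c : E} (ha : v a ≤ exp (t : ℤ)) (hc : v c ≤ exp (t : ℤ)) (hf : v (f - a) ≤ 1)
    (hg : v (g - c) ≤ 1) : v (Q.evalEval f g - Q.evalEval a c) ≤
      exp (((2 * b + 1) * t : ℕ) : ℤ) * max (v (f - a)) (v (g - c)) := by
  -- `evalEval` as a sum over the box; `f ^ i g ^ j - a ^ i c ^ j`, all of `f, g, a, c` have absolute
  -- value at most `exp t`
  have hT1 : (1 : ℤᵐ⁰) ≤ exp (t : ℤ) := pj13a_one_le t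
  rw [← pj13a_exp_pow]
  have hρf : v (f - a) ≤ max (v (f - a)) (v (g - c)) := le_max_left _ _
  have hρg : v (g - c) ≤ max (v (f - a)) (v (g - c)) := le_max_right _ _
  generalize max (v (f - a)) (v (g - c)) = ρ at hρf hρg ⊢
  generalize exp (t : ℤ) = T at hT1 hQt ha hc ⊢
  have hvf : v f ≤ T := by
    have h1 : f = (f - a) + a := by ring
    rw [h1]
    exact (v.map_add _ _).trans (max_le (hf.trans hT1) ha)
  have hvg : v g ≤ T := by
    have h1 : g = (g - c) + c := by ring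
    rw [h1]
    exact (v.map_add _ _).trans (max_le (hg.trans hT1) hc)
  have hterm : ∀ i j : ℕ, v (f ^ j * g ^ i - a ^ j * c ^ i) ≤ T ^ (i + j) * ρ := by
    intro i j
    have h1 : f ^ j * g ^ i - a ^ j * c ^ i = f ^ j * (g ^ i - c ^ i) + (f ^ j - a ^ j) * c ^ i := by
      ring
    rw [h1]
    refine (v.map_add _ _).trans (max_le ?_ ?_)
    · rw [map_mul, map_pow]
      calc v f ^ j * v (g ^ i - c ^ i) ≤ T ^ j * (T ^ i * ρ) :=
            mul_le_mul' (pow_le_pow_left' hvf j) (pj13a_pow_sub_le v hT1 hvg hc hρg i)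
        _ = T ^ (i + j) * ρ := by rw [← mul_assoc, ← pow_add, add_comm j i]
    · rw [map_mul, map_pow]
      calc v (f ^ j - a ^ j) * v c ^ i ≤ (T ^ j * ρ) * T ^ i :=
            mul_le_mul' (pj13a_pow_sub_le v hT1 hvf ha hρf j) (pow_le_pow_left' hc i)
        _ = T ^ (i + j) * ρ := by rw [mul_assoc, mul_comm ρ, ← mul_assoc, ← pow_add, add_comm j i]
  have hev : ∀ x y : E, Q.evalEval x y = ∑ i ∈ Finset.range (b + 1), ∑ j ∈ Finset.range (b + 1),
      (Q.coeff i).coeff j * (x ^ j * y ^ i) := by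
    intro x y
    rw [pj13a_evalEval_sum (N := b + 1) (Nat.lt_succ_of_le hQ.1)]
    refine Finset.sum_congr rfl fun i _ => ?_
    rw [eval_eq_sum_range' (Nat.lt_succ_of_le (hQ.2 i)), Finset.sum_mul]
    refine Finset.sum_congr rfl fun j _ => ?_
    ring
  rw [hev, hev, ← Finset.sum_sub_distrib]
  refine v.map_sum_le fun i hi => ?_
  rw [← Finset.sum_sub_distrib]
  refine v.map_sum_le fun j hj => ?_
  rw [← mul_sub, map_mul]
  have hi' : i < b + 1 := Finset.mem_range.1 hi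
  have hj' : j < b + 1 := Finset.mem_range.1 hj
  calc v ((Q.coeff i).coeff j) * v (f ^ j * g ^ i - a ^ j * c ^ i) ≤ T * (T ^ (i + j) * ρ) :=
        mul_le_mul' ((le_gg v Q i j).trans hQt) (hterm i j)
    _ = T ^ (i + j + 1) * ρ := by rw [pow_succ, ← mul_assoc, mul_comm T]
    _ ≤ T ^ (2 * b + 1) * ρ := mul_le_mul_left (pow_le_pow_right' hT1 (by omega)) _

private theorem pj13a_prod_sub_le {ι : Type*} (s : Finset ι) {a b : ι → E} {M : ι → ℤᵐ⁰} {ρ : ℤᵐ⁰}
    (ha : ∀ j ∈ s, v (a j) ≤ M j) (hb : ∀ j ∈ s, v (b j) ≤ M j)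
    (hab : ∀ j ∈ s, v (a j - b j) ≤ M j * ρ) :
    v (∏ j ∈ s, a j - ∏ j ∈ s, b j) ≤ (∏ j ∈ s, M j) * ρ := by
  classical
  induction s using Finset.induction_on with
  | empty =>
    rw [Finset.prod_empty, Finset.prod_empty, sub_self, map_zero]
    exact zero_le
  | insert i s hi ih =>
    rw [Finset.prod_insert hi, Finset.prod_insert hi, Finset.prod_insert hi]
    have h1 : a i * ∏ j ∈ s, a j - b i * ∏ j ∈ s, b j =
        a i * (∏ j ∈ s, a j - ∏ j ∈ s, b j) + (a i - b i) * ∏ j ∈ s, b j := by ring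
    rw [h1]
    have ih' := ih (fun j hj => ha j (Finset.mem_insert_of_mem hj))
      (fun j hj => hb j (Finset.mem_insert_of_mem hj))
      (fun j hj => hab j (Finset.mem_insert_of_mem hj))
    refine (v.map_add _ _).trans (max_le ?_ ?_)
    · rw [map_mul]
      calc v (a i) * v (∏ j ∈ s, a j - ∏ j ∈ s, b j) ≤ M i * ((∏ j ∈ s, M j) * ρ) :=
            mul_le_mul' (ha i (Finset.mem_insert_self i s)) ih'
        _ = M i * (∏ j ∈ s, M j) * ρ := (mul_assoc _ _ _).symm
    · rw [map_mul, map_prod]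
      calc v (a i - b i) * ∏ j ∈ s, v (b j) ≤ (M i * ρ) * ∏ j ∈ s, M j :=
            mul_le_mul' (hab i (Finset.mem_insert_self i s))
              (Finset.prod_le_prod' fun j hj => hb j (Finset.mem_insert_of_mem hj))
        _ = M i * (∏ j ∈ s, M j) * ρ := by rw [mul_assoc, mul_comm ρ, ← mul_assoc]

/-- values of a form at near vectors -/
theorem Fval_sub_le {n D t u : ℕ} {c : (Fin (n + 1) →₀ ℕ) → E}
    (hc : ∀ I ∈ expo (Fin (n + 1)) D, v (c I) ≤ exp (t : ℤ)) {x y : Fin (n + 1) → E}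
    (hx : ∀ j, v (x j) ≤ exp (u : ℤ)) (hy : ∀ j, v (y j) ≤ exp (u : ℤ)) {ρ : ℤᵐ⁰}
    (hxy : ∀ j, v (x j - y j) ≤ ρ) :
    v (Fval D c x - Fval D c y) ≤ exp ((t + D * u : ℕ) : ℤ) * ρ := by
  -- the monomials of degree `D`: a telescopic sum; each difference is at most `exp ((D - 1) u) ρ`
  have hU1 : (1 : ℤᵐ⁰) ≤ exp (u : ℤ) := pj13a_one_le u
  have hexp : (exp ((t + D * u : ℕ) : ℤ) : ℤᵐ⁰) = exp (t : ℤ) * exp (u : ℤ) ^ D := by
    rw [pj13a_exp_pow, ← WithZero.exp_add]
    congr 1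
  rw [hexp]
  generalize exp (u : ℤ) = U at hU1 hx hy ⊢
  generalize exp (t : ℤ) = T at hc ⊢
  unfold Fval
  rw [← Finset.sum_sub_distrib]
  refine v.map_sum_le fun I hI => ?_
  rw [← mul_sub, map_mul, mul_assoc]
  refine mul_le_mul' (hc I hI) ?_
  have hdeg : ∑ j, I j = D := by
    have := mem_expo.1 hI
    rwa [Finsupp.degree_eq_sum] at this
  unfold mon
  have h1 := pj13a_prod_sub_le v (Finset.univ : Finset (Fin (n + 1))) (a := fun j => x j ^ I j)
    (b := fun j => y j ^ I j) (M := fun j => U ^ I j) (ρ := ρ)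
    (fun j _ => by rw [map_pow]; exact pow_le_pow_left' (hx j) _)
    (fun j _ => by rw [map_pow]; exact pow_le_pow_left' (hy j) _)
    (fun j _ => pj13a_pow_sub_le v hU1 (hx j) (hy j) (hxy j) (I j))
  rwa [Finset.prod_pow_eq_pow_sum, hdeg] at h1

end Local

end Pool.Agent.Lib.MP_44a246_ntSH
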