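import Mathlib
import Pool.Agent.Lib.MP_44a246_ntSH.PJ13a

/-!
# Stage II of paper 667: the second main theorem for a model with many boundary points
-/

namespace Pool.Agent.Lib.MP_44a246_ntSH

open Pool.Agent.Lib.MP_e52354_nt
open Pool.Agent.Lib.MP_44a246_nt
open Pool.Agent.Lib.MP_44a246_ntL
open Pool.Agent.Lib.MP_44a246_ntS
open Pool.Agent.Lib.MP_44a246_ntY
open Pool.Agent.Lib.MP_44a246_ntPC
open WithZero Polynomial Module

universe u v w

/-- the size of a value -/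
private theorem pj13_size {E : Type*} [Field E] (v : Valuation E ℤᵐ⁰) {b t : ℕ} {Q : E[X][X]}
    (hQ : Box b Q) (hQt : gg v Q ≤ exp (t : ℤ)) {a c : E} (ha : v a ≤ exp (t : ℤ))
    (hc : v c ≤ exp (t : ℤ)) : v (Q.evalEval a c) ≤ exp (((2 * b + 1) * t : ℕ) : ℤ) := by
  have hT1 : (1 : ℤᵐ⁰) ≤ exp (t : ℤ) := by
    rw [← WithZero.exp_zero, WithZero.exp_le_exp]
    exact Int.natCast_nonneg t
  have hpow : (exp (((2 * b + 1) * t : ℕ) : ℤ) : ℤᵐ⁰) = exp (t : ℤ) ^ (2 * b + 1) := by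
    rw [← WithZero.exp_nsmul]
    congr 1
  rw [hpow]
  generalize exp (t : ℤ) = T at hT1 hQt ha hc ⊢
  have h : Q.evalEval a c = eval a (eval (C c) Q) := rfl
  rw [h, eval_eq_sum_range' (Nat.lt_succ_of_le hQ.1), eval_finsetSum]
  refine v.map_sum_le fun i hi => ?_
  rw [eval_mul, eval_pow, eval_C, eval_eq_sum_range' (Nat.lt_succ_of_le (hQ.2 i)), Finset.sum_mul]
  refine v.map_sum_le fun j hj => ?_
  have hi' : i < b + 1 := Finset.mem_range.1 hi
  have hj' : j < b + 1 := Finset.mem_range.1 hj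
  rw [map_mul, map_mul, map_pow, map_pow]
  calc v ((Q.coeff i).coeff j) * v a ^ j * v c ^ i ≤ T * T ^ j * T ^ i :=
        mul_le_mul' (mul_le_mul' ((le_gg v Q i j).trans hQt) (pow_le_pow_left' ha j))
          (pow_le_pow_left' hc i)
    _ = T ^ (j + i + 1) := by rw [pow_succ, pow_add, mul_comm (T ^ j * T ^ i), mul_assoc]
    _ ≤ T ^ (2 * b + 1) := pow_le_pow_right' hT1 (by omega)

private theorem pj13_vmax_smul {L : Type*} [Field L] (v : Valuation L ℤᵐ⁰) {n : ℕ} (c : L)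
    (x : Fin (n + 1) → L) : (vmax v fun i => c * x i) = v c * vmax v x := by
  by_cases hc : c = 0
  · subst hc
    have h1 : (fun i => (0 : L) * x i) = 0 := by
      funext i
      simp
    rw [h1, (vmax_eq_zero_iff v).mpr rfl, map_zero, zero_mul]
  · apply le_antisymm
    · refine vmax_le _ fun i => ?_
      rw [map_mul]
      exact mul_le_mul' le_rfl (le_vmax _ _ _)
    · have hvc : v c ≠ 0 := (v.ne_zero_iff).2 hc
      have h1 : vmax v x ≤ (v c)⁻¹ * vmax v (fun i => c * x i) := by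
        refine vmax_le _ fun i => ?_
        have h2 := le_vmax v (fun i => c * x i) i
        rw [map_mul] at h2
        calc v (x i) = (v c)⁻¹ * (v c * v (x i)) := by rw [inv_mul_cancel_left₀ hvc]
          _ ≤ (v c)⁻¹ * vmax v (fun i => c * x i) := mul_le_mul' le_rfl h2
      calc v c * vmax v x ≤ v c * ((v c)⁻¹ * vmax v (fun i => c * x i)) := mul_le_mul' le_rfl h1
        _ = vmax v (fun i => c * x i) := by rw [mul_inv_cancel_left₀ hvc]

/-- the local statement -/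
private theorem pj13_near {E : Type*} [Field E] (v : Valuation E ℤᵐ⁰) {n D b t : ℕ}
    {Q : Fin (n + 1) → E[X][X]} {c : (Fin (n + 1) →₀ ℕ) → E} (hQ : ∀ j, Box b (Q j))
    (hQt : ∀ j, gg v (Q j) ≤ exp (t : ℤ)) (hc : ∀ I ∈ expo (Fin (n + 1)) D, v (c I) ≤ exp (t : ℤ))
    {f g a d q : E} {x : Fin (n + 1) → E} (ha : v a ≤ exp (t : ℤ)) (hd : v d ≤ exp (t : ℤ))
    (h0 : Fval D c (fun j => (Q j).evalEval a d) = 0)
    (hj : ∃ j, exp (-(t : ℤ)) ≤ v ((Q j).evalEval a d))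
    (hx : ∀ j, (Q j).evalEval f g = q * x j) (hF : v (Fval D c x) = vmax v x ^ D) :
    exp (-(((D + 1) * (2 * b + 2) * t : ℕ) : ℤ)) ≤ max (v (f - a)) (v (g - d)) := by
  by_contra hcon
  rw [not_le] at hcon
  have hle1 : (exp (-(((D + 1) * (2 * b + 2) * t : ℕ) : ℤ)) : ℤᵐ⁰) ≤ 1 := by
    rw [← WithZero.exp_zero, WithZero.exp_le_exp]
    have := Int.natCast_nonneg ((D + 1) * (2 * b + 2) * t)
    omega
  have hfa : v (f - a) ≤ 1 := ((le_max_left _ _).trans hcon.le).trans hle1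
  have hgd : v (g - d) ≤ 1 := ((le_max_right _ _).trans hcon.le).trans hle1
  have hT1 : (1 : ℤᵐ⁰) ≤ exp (t : ℤ) := by
    rw [← WithZero.exp_zero, WithZero.exp_le_exp]
    exact Int.natCast_nonneg t
  have hvf : v f ≤ exp (t : ℤ) := by
    have h1 : f = (f - a) + a := by ring
    rw [h1]
    exact (v.map_add _ _).trans (max_le (hfa.trans hT1) ha)
  have hvg : v g ≤ exp (t : ℤ) := by
    have h1 : g = (g - d) + d := by ring
    rw [h1]
    exact (v.map_add _ _).trans (max_le (hgd.trans hT1) hd)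
  have hdiff : ∀ j, v ((Q j).evalEval f g - (Q j).evalEval a d) ≤
      exp (((2 * b + 1) * t : ℕ) : ℤ) * max (v (f - a)) (v (g - d)) := fun j =>
    eval_sub_le v (hQ j) (hQt j) ha hd hfa hgd
  generalize max (v (f - a)) (v (g - d)) = ρ at hcon hdiff
  have hFd := Fval_sub_le v (x := fun j => (Q j).evalEval f g) (y := fun j => (Q j).evalEval a d) hc
    (fun j => pj13_size v (hQ j) (hQt j) hvf hvg) (fun j => pj13_size v (hQ j) (hQt j) ha hd) hdiff
  rw [h0, sub_zero] at hFd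
  obtain ⟨j, hj⟩ := hj
  -- the value at the near point
  have hlow : exp (-(t : ℤ)) ≤ v ((Q j).evalEval f g) := by
    have h1 : v ((Q j).evalEval f g - (Q j).evalEval a d) < v ((Q j).evalEval a d) := by
      refine (hdiff j).trans_lt (lt_of_lt_of_le ?_ hj)
      refine (mul_lt_mul_of_pos_left hcon WithZero.exp_pos).trans_le ?_
      rw [← WithZero.exp_add, WithZero.exp_le_exp]
      push_cast
      have h2 : (0 : ℤ) ≤ t := Int.natCast_nonneg t
      have h3 : (0 : ℤ) ≤ D := Int.natCast_nonneg D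
      have h4 : (0 : ℤ) ≤ b := Int.natCast_nonneg b
      nlinarith [mul_nonneg h3 h2, mul_nonneg (mul_nonneg h3 h4) h2, mul_nonneg h4 h2]
    have h2 := Valuation.map_add_eq_of_lt_left v h1
    rw [add_sub_cancel] at h2
    rw [h2]
    exact hj
  have hvm : exp (-(t : ℤ)) ≤ vmax v (fun j => (Q j).evalEval f g) :=
    hlow.trans (le_vmax v (fun j => (Q j).evalEval f g) j)
  have hfun : (fun j => (Q j).evalEval f g) = fun j => q * x j := funext hx
  have hFeq : v (Fval D c (fun j => (Q j).evalEval f g)) =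
      vmax v (fun j => (Q j).evalEval f g) ^ D := by
    rw [hfun, Fval_smul, map_mul, map_pow, hF, pj13_vmax_smul, mul_pow]
  rw [hFeq] at hFd
  have h5 : (exp (-(t : ℤ)) : ℤᵐ⁰) ^ D ≤ vmax v (fun j => (Q j).evalEval f g) ^ D :=
    pow_le_pow_left' hvm D
  have h6 := h5.trans hFd
  have h7 : exp ((t + D * ((2 * b + 1) * t) : ℕ) : ℤ) * (exp (((2 * b + 1) * t : ℕ) : ℤ) * ρ) <
      exp ((t + D * ((2 * b + 1) * t) : ℕ) : ℤ) * (exp (((2 * b + 1) * t : ℕ) : ℤ) *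
        exp (-(((D + 1) * (2 * b + 2) * t : ℕ) : ℤ))) :=
    mul_lt_mul_of_pos_left (mul_lt_mul_of_pos_left hcon WithZero.exp_pos) WithZero.exp_pos
  have h8 := h6.trans_lt h7
  rw [← WithZero.exp_nsmul, ← WithZero.exp_add, ← WithZero.exp_add, WithZero.exp_lt_exp] at h8
  push_cast at h8
  rw [nsmul_eq_mul] at h8
  nlinarith

/-- **The bound.** -/
theorem near_bound {κ : Type u} {K : Type v} [Field κ] [IsAlgClosed κ] [CharZero κ] [Field K]
    [Algebra κ K] (hK : IsFF κ K) (n D e b s : ℕ) :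
    ∃ C : ℕ, ∀ (E : Type w) [Field E] [Algebra κ E] [Algebra K E] [IsScalarTower κ K E]
      [FiniteDimensional K E] (A : E[X][X]) (Q : Fin (n + 1) → E[X][X]) (S : Finset (E × E))
      (c : (Fin (n + 1) →₀ ℕ) → E) (τ : Place κ E → ℕ) (_ : (Function.support τ).Finite)
      (_ : Irreducible A) (_ : A.Monic) (_ : A.natDegree = e) (_ : e ≠ 0) (_ : Tot e A)
      (_ : ∀ j, Box b (Q j)) (_ : S.card = s) (_ : 3 * e ≤ s)
      (_ : Set.InjOn Prod.fst (S : Set (E × E)))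
      (_ : ∀ p ∈ S, A.evalEval p.1 p.2 = 0 ∧ (derivative A).evalEval p.1 p.2 ≠ 0 ∧
        Fval D c (fun j => (Q j).evalEval p.1 p.2) = 0)
      (_ : ∀ w : Place κ E, gg w.1 A ≤ exp (τ w : ℤ) ∧ (∀ j, gg w.1 (Q j) ≤ exp (τ w : ℤ)) ∧
        ∀ I ∈ expo (Fin (n + 1)) D, w.1 (c I) ≤ exp (τ w : ℤ))
      (_ : ∀ p ∈ S, ∀ w : Place κ E, w.1 p.1 ≤ exp (τ w : ℤ) ∧ w.1 p.2 ≤ exp (τ w : ℤ) ∧
        exp (-(τ w : ℤ)) ≤ w.1 ((derivative A).evalEval p.1 p.2))
      (_ : ∀ p ∈ S, ∃ j, ∀ w : Place κ E, exp (-(τ w : ℤ)) ≤ w.1 ((Q j).evalEval p.1 p.2))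
      (_ : ∀ p ∈ S, ∀ p' ∈ S, p.1 ≠ p'.1 → ∀ w : Place κ E,
        exp (-(τ w : ℤ)) ≤ w.1 (p.1 - p'.1))
      (f g q : E) (x : Fin (n + 1) → E) (P : Finset (Place κ E)) (_ : A.evalEval f g = 0)
      (_ : q ≠ 0) (_ : x ≠ 0) (_ : ∀ j, (Q j).evalEval f g = q * x j)
      (_ : ∀ w : Place κ E, w ∉ P → w.1 (Fval D c x) = vmax w.1 x ^ D),
      height κ ![1, f] ≤ C * ((P.card : ℤ) + ramDeg κ E K + finrank K E + ∑ᶠ w, (τ w : ℤ)) := by
  -- `exists_kder`, `extend_kder` as in `moving_curve_rel3` (M8); `moving_curve3` (M5) with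
  -- `τ' = c₁ * τ`, `c₁ = (2 b + 2) (D + 1) + 2`-like, `n = max e b`. `Box e A` from `Tot e A`.
  -- Near points: if `max (w (f - p.1)) (w (g - p.2)) < exp (-τ')` then by `eval_sub_le` the
  -- `Q j (f, g)` are near `Q j (p)`, one of which is at least `exp (-τ)`; so `vmax (Q (f, g))` is at
  -- least `exp (-τ)`, and `Fval D c (Q (f, g))` is at most `exp (..) * dist < exp (-D τ)`
  -- (`Fval_sub_le`); as `Q (f, g) = q x`, `w (Fval D c x) < vmax w x ^ D`, so `w ∈ P`.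
  obtain ⟨D₀, B, hD₀, hB, hpole⟩ := exists_kder hK
  obtain ⟨c₀, hc₀⟩ : ∃ c₀ : ℕ, c₀ = (∑ᶠ v, (B v : ℤ)).toNat := ⟨_, rfl⟩
  obtain ⟨c₁, hc₁⟩ : ∃ c₁ : ℕ, c₁ = (D + 1) * (2 * b + 2) := ⟨_, rfl⟩
  have hc₁1 : 1 ≤ c₁ := by
    rw [hc₁]
    exact Nat.one_le_iff_ne_zero.2 (by positivity)
  refine ⟨cF3 e s * (1 + c₀ + c₁), ?_⟩
  intro E _ _ _ _ _ A Q S c τ hτ hA hmon hdeg he hT hQ hS h3 hinj hSz hw hSw hSQ hSs f g q x P hfg
    hq hx hQx hP
  have hE : IsFF κ E := hK.of_finite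
  obtain ⟨D', B', hD', hB', hpole', hsum⟩ := extend_kder (L := E) hK D₀ hD₀ hB hpole
  have hbox : Box e A := by
    refine ⟨hdeg.le, fun i => ?_⟩
    by_cases h0 : A.coeff i = 0
    · rw [h0, natDegree_zero]
      exact Nat.zero_le _
    · exact (Nat.le_add_left _ _).trans (hT.coeff i h0)
  obtain ⟨τ', hτ'⟩ : ∃ τ' : Place κ E → ℕ, τ' = fun w => c₁ * τ w := ⟨_, rfl⟩
  have hττ : ∀ w, τ w ≤ τ' w := by
    intro w
    rw [hτ']
    exact Nat.le_mul_of_pos_left _ hc₁1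
  have hexp : ∀ w, (exp (τ w : ℤ) : ℤᵐ⁰) ≤ exp (τ' w : ℤ) := by
    intro w
    rw [exp_le_exp]
    exact_mod_cast hττ w
  have hexpn : ∀ w, (exp (-(τ' w : ℤ)) : ℤᵐ⁰) ≤ exp (-(τ w : ℤ)) := by
    intro w
    rw [exp_le_exp, neg_le_neg_iff]
    exact_mod_cast hττ w
  have hτ'f : (Function.support τ').Finite := by
    refine hτ.subset fun w hw => ?_
    rw [Function.mem_support] at hw ⊢
    intro h0
    apply hw
    rw [hτ']
    simp only [h0, mul_zero]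
  have key := moving_curve3 hE D' hD' hB' hτ'f hpole' (n := e) hA hbox (by rw [hdeg]; exact he)
    (S := S) (fun p hp => (hSz p hp).1) (fun p hp => (hSz p hp).2.1) hinj
    (by rw [hdeg, hS]; exact h3)
    (fun w => (hw w).1.trans (hexp w))
    (fun w p hp => ⟨(hSw p hp w).1.trans (hexp w), (hSw p hp w).2.1.trans (hexp w)⟩)
    (fun w p hp p' hp' hne => (hexpn w).trans (hSs p hp p' hp' hne w))
    (fun w p hp => (hexpn w).trans (hSw p hp w).2.2)
    hfg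
    (fun w => (snd_le_of_tot w.1 hmon hdeg he hT (hw w).1 hfg).trans
      (mul_le_mul' (hexp w) le_rfl))
    (P := P)
    (fun w hwP p hp => by
      have h1 := pj13_near w.1 (D := D) (t := τ w) hQ (hw w).2.1 (hw w).2.2 (hSw p hp w).1
        (hSw p hp w).2.1 (hSz p hp).2.2
        (by obtain ⟨j, hj⟩ := hSQ p hp; exact ⟨j, hj w⟩) hQx (hP w hwP)
      rw [← hc₁] at h1
      have h2 : c₁ * τ w = τ' w := by rw [hτ']
      rwa [h2] at h1)
  rw [hsum, hS] at key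
  refine key.trans ?_
  have h5 : (∑ᶠ v, (B v : ℤ)) ≤ (c₀ : ℤ) := by
    rw [hc₀]
    exact Int.self_le_toNat _
  have h6 : (finrank K E : ℤ) * ∑ᶠ v, (B v : ℤ) ≤ (c₀ : ℤ) * (finrank K E : ℤ) := by
    rw [mul_comm]
    exact mul_le_mul_of_nonneg_right h5 (Int.natCast_nonneg _)
  have h7 : ∑ᶠ w, (τ' w : ℤ) = c₁ * ∑ᶠ w, (τ w : ℤ) := by
    rw [hτ']
    have h8 := mul_finsum (fun w : Place κ E => (τ w : ℤ)) (c₁ : ℤ)
    rw [h8]
    refine finsum_congr fun w => ?_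
    push_cast
    rfl
  rw [h7]
  have hτ0 : 0 ≤ ∑ᶠ w, (τ w : ℤ) := finsum_nonneg fun w => Int.natCast_nonneg _
  generalize (∑ᶠ w, (τ w : ℤ)) = Tt at hτ0 ⊢
  generalize (∑ᶠ v, (B v : ℤ)) = Bt at h5 h6 ⊢
  generalize (ramDeg κ E K) = R
  generalize (finrank K E) = F at h6 ⊢
  generalize P.card = Pc
  push_cast
  rw [mul_assoc]
  refine mul_le_mul_of_nonneg_left ?_ (Int.natCast_nonneg _)
  have i1 : (0 : ℤ) ≤ c₀ := Int.natCast_nonneg _
  have i2 : (0 : ℤ) ≤ c₁ := Int.natCast_nonneg _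
  have i3 : (0 : ℤ) ≤ Pc := Int.natCast_nonneg _
  have i4 : (0 : ℤ) ≤ R := Int.natCast_nonneg _
  have i5 : (0 : ℤ) ≤ F := Int.natCast_nonneg _
  nlinarith [mul_nonneg i1 i3, mul_nonneg i1 i4, mul_nonneg i1 i5, mul_nonneg i1 hτ0,
    mul_nonneg i2 i3, mul_nonneg i2 i4, mul_nonneg i2 i5, mul_nonneg i2 hτ0]

end Pool.Agent.Lib.MP_44a246_ntSH
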