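import Mathlib
import Pool.Agent.Lib.MP_44a246_ntL.LFF
import Pool.Agent.Lib.MP_44a246_ntS.SP7
import Pool.Agent.Lib.MP_44a246_ntY.Y37a

/-!
# Stage II of paper 667: values of polynomials, function fields of plane curves
-/

namespace Pool.Agent.Lib.MP_44a246_ntSH

open Pool.Agent.Lib.MP_e52354_nt
open Pool.Agent.Lib.MP_44a246_nt
open Pool.Agent.Lib.MP_44a246_ntL
open Pool.Agent.Lib.MP_44a246_ntS
open Pool.Agent.Lib.MP_44a246_ntY
open Module Polynomial

theorem ev_eq_evalEval {k F : Type*} [Field k] [Field F] [Algebra k F] (s t : F) (G : k[X][X]) :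
    ev (algebraMap k F) s t G = (ex F G).evalEval s t := by
  have h : ev (algebraMap k F) s t =
      (evalEvalRingHom s t).comp (mapRingHom (mapRingHom (algebraMap k F))) := by
    refine Polynomial.ringHom_ext' (Polynomial.ringHom_ext' ?_ ?_) ?_
    · ext c
      simp [ev]
    · simp [ev]
    · simp [ev]
  exact congrArg (fun f : k[X][X] →+* F => f G) h

/-- values in a larger field -/
theorem ev_comp {k F F' : Type*} [Field k] [Field F] [Field F'] [Algebra k F] [Algebra k F']
    (σ : F →ₐ[k] F') (s t : F) (G : k[X][X]) :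
    ev (algebraMap k F') (σ s) (σ t) G = σ (ev (algebraMap k F) s t G) := by
  have h : ev (algebraMap k F') (σ s) (σ t) = (σ : F →+* F').comp (ev (algebraMap k F) s t) := by
    refine Polynomial.ringHom_ext' (Polynomial.ringHom_ext' ?_ ?_) ?_
    · ext c
      simp [ev]
    · simp [ev]
    · simp [ev]
  exact congrArg (fun f : k[X][X] →+* F' => f G) h

/-- values of polynomials over a smaller field -/
theorem ev_ex {k k' F : Type*} [Field k] [Field k'] [Field F] [Algebra k k'] [Algebra k' F]
    [Algebra k F] [IsScalarTower k k' F] (s t : F) (G : k[X][X]) :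
    ev (algebraMap k' F) s t (ex k' G) = ev (algebraMap k F) s t G := by
  have h : (ev (algebraMap k' F) s t).comp (mapRingHom (mapRingHom (algebraMap k k'))) =
      ev (algebraMap k F) s t := by
    refine Polynomial.ringHom_ext' (Polynomial.ringHom_ext' ?_ ?_) ?_
    · ext c
      simp [ev, ← IsScalarTower.algebraMap_apply]
    · simp [ev]
    · simp [ev]
  exact congrArg (fun f : k[X][X] →+* F => f G) h

/-- the function field of a plane curve is a function field -/
theorem isFF_of_curve {k M : Type*} [Field k] [Field M] [Algebra k M] {A : k[X][X]}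
    (hA : A.natDegree ≠ 0) {X₁ Y₁ : M} (hX₁ : Transcendental k X₁)
    (hgen : IntermediateField.adjoin k {X₁, Y₁} = ⊤)
    (h0 : ev (algebraMap k M) X₁ Y₁ A = 0) : IsFF k M := by
  refine ⟨X₁, hX₁, ?_⟩
  set F := IntermediateField.adjoin k {X₁} with hF
  let x : F := ⟨X₁, IntermediateField.mem_adjoin_simple_self k X₁⟩
  -- `Y₁` is algebraic over `F`
  let φ : k[X] →+* F := eval₂RingHom (algebraMap k F) x
  have hφ : Function.Injective φ := by
    rw [injective_iff_map_eq_zero]
    intro p hp
    by_contra hne
    refine hX₁ ⟨p, hne, ?_⟩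
    have h1 : algebraMap F M (φ p) = aeval X₁ p := by
      change algebraMap F M (eval₂ (algebraMap k F) x p) = _
      rw [hom_eval₂, aeval_def]
      rfl
    rw [← h1, hp, map_zero]
  have hYalg : IsAlgebraic F Y₁ := by
    refine ⟨A.map φ, ?_, ?_⟩
    · intro h
      apply hA
      rw [← natDegree_map_eq_of_injective hφ A, h, natDegree_zero]
    · rw [aeval_def, eval₂_map]
      have h1 : (algebraMap F M).comp φ = eval₂RingHom (algebraMap k M) X₁ := by
        refine Polynomial.ringHom_ext' ?_ ?_
        · ext c
          simp only [RingHom.comp_apply, φ, coe_eval₂RingHom, eval₂_C]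
          rfl
        · simp only [RingHom.comp_apply, φ, coe_eval₂RingHom, eval₂_X]
          rfl
      rw [h1]
      exact h0
  have hfin : FiniteDimensional F (IntermediateField.adjoin F {Y₁}) :=
    IntermediateField.adjoin.finiteDimensional hYalg.isIntegral
  have htop : IntermediateField.adjoin F {Y₁} = ⊤ := by
    have h1 := IntermediateField.adjoin_adjoin_left k ({X₁} : Set M) {Y₁}
    have h2 : ({X₁} ∪ {Y₁} : Set M) = {X₁, Y₁} := rfl
    rw [h2, hgen] at h1
    rw [eq_top_iff]
    intro z _
    have h3 : z ∈ (IntermediateField.adjoin F {Y₁}).restrictScalars k := by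
      rw [h1]
      exact IntermediateField.mem_top
    exact h3
  rw [htop] at hfin
  exact (IntermediateField.topEquiv (F := F) (E := M)).toLinearEquiv.finiteDimensional

end Pool.Agent.Lib.MP_44a246_ntSH
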