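import Mathlib
import Pool.Agent.Lib.MP_44a246_ntSH.PJ01
import Pool.Agent.Lib.MP_44a246_ntSH.PJ16b
import Pool.Agent.Lib.MP_44a246_ntS.SM1

/-!
# Stage II of paper 667: closure properties of `F0`, the form at the point
-/

namespace Pool.Agent.Lib.MP_44a246_ntSH

open Pool.Agent.Lib.MP_e52354_nt
open Pool.Agent.Lib.MP_44a246_nt
open Pool.Agent.Lib.MP_44a246_ntL
open Pool.Agent.Lib.MP_44a246_ntS
open Pool.Agent.Lib.MP_44a246_ntY
open WithZero Module Polynomial

theorem map_Fval {R S σ : Type*} [Field R] [Field S] [Fintype σ] [DecidableEq σ] (φ : R →+* S)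
    (D : ℕ) (a : (σ →₀ ℕ) → R) (p : σ → R) :
    φ (Fval D a p) = Fval D (fun I => φ (a I)) (fun j => φ (p j)) := by
  unfold Fval
  rw [map_sum]
  refine Finset.sum_congr rfl fun I _ => ?_
  rw [map_mul]
  unfold mon
  rw [map_prod]
  simp only [map_pow]

namespace Tow

variable {κ K Ω : Type*} [Field κ] [IsAlgClosed κ] [CharZero κ] [Field K]
  [Algebra κ K] [Field Ω] [Algebra K Ω] [Algebra κ Ω] [IsScalarTower κ K Ω] (W : Tow κ K Ω)

/-- `F0` is algebraically closed in the ultrapower -/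
theorem mem_F0_of_isAlgebraic {z : UP Ω} (h : IsAlgebraic W.F0 z) : z ∈ W.F0 :=
  W.mem_F0.2 (h.restrictScalars W.sm)

/-- the second coordinate of a point of a curve over `F0` -/
theorem mem_F0_of_curve {A : W.F0[X][X]} {s t : UP Ω} (hs : s ∈ W.F0)
    (h0 : (ex (UP Ω) A).evalEval s t = 0)
    (h1 : (derivative (ex (UP Ω) A)).evalEval s t ≠ 0) : t ∈ W.F0 := by
  let p : W.F0[X] := A.map (evalRingHom (⟨s, hs⟩ : W.F0))
  have hpe : ∀ B : W.F0[X][X], aeval t (B.map (evalRingHom (⟨s, hs⟩ : W.F0))) =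
      (ex (UP Ω) B).evalEval s t := by
    intro B
    rw [← ev_eq_evalEval, ev_apply, aeval_def, eval₂_map]
    congr 1
    refine Polynomial.ringHom_ext' ?_ ?_
    · ext c
      simp
    · simp
  refine W.mem_F0_of_isAlgebraic ⟨p, ?_, ?_⟩
  · intro hp
    apply h1
    have h2 : derivative (ex (UP Ω) A) = ex (UP Ω) (derivative A) := (ex_derivative A).symm
    rw [h2, ← hpe, ← derivative_map]
    change aeval t (derivative p) = 0
    rw [hp, derivative_zero, map_zero]
  · rw [hpe, h0]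

theorem evalEval_mem_F0 {s t : UP Ω} (hs : s ∈ W.F0) (ht : t ∈ W.F0) (G : W.F0[X][X]) :
    (ex (UP Ω) G).evalEval s t ∈ W.F0 := by
  have h := ex_evalEval (M := UP Ω) G ⟨s, hs⟩ ⟨t, ht⟩
  rw [show algebraMap W.F0 (UP Ω) ⟨s, hs⟩ = s from rfl,
    show algebraMap W.F0 (UP Ω) ⟨t, ht⟩ = t from rfl] at h
  rw [h]
  exact (G.evalEval ⟨s, hs⟩ ⟨t, ht⟩).2

/-- the value of the form at the point is not zero -/
theorem Fval_ne_zero {n D : ℕ} {c : (Fin (n + 1) →₀ ℕ) → K} {x : ∀ N, Fin (n + 1) → W.L N}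
    (hx : ∀ N, x N ≠ 0) {P : ∀ N, Finset (Place κ (W.L N))}
    (hinf : ∀ N, ∃ w : Place κ (W.L N), w ∉ P N)
    (hc : ∀ N, ∀ w : Place κ (W.L N), w ∉ P N →
      w.1 (Fval D (fun I => algebraMap K (W.L N) (c I)) (x N)) = vmax w.1 (x N) ^ D) :
    Fval D (fun I => constHom (algebraMap K Ω (c I))) (fun j => germHom fun N => (x N j : Ω)) ≠
      0 := by
  have h1 : Fval D (fun I => constHom (algebraMap K Ω (c I)))
      (fun j => germHom fun N => (x N j : Ω)) =
      germHom (fun N => ((Fval D (fun I => algebraMap K (W.L N) (c I)) (x N) : W.L N) : Ω)) := by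
    have h2 : (fun N => ((Fval D (fun I => algebraMap K (W.L N) (c I)) (x N) : W.L N) : Ω)) =
        ∑ I ∈ expo (Fin (n + 1)) D, (fun _ : ℕ => algebraMap K Ω (c I)) *
          ∏ j, (fun N => (x N j : Ω)) ^ I j := by
      funext N
      have h3 := map_Fval (algebraMap (W.L N) Ω) D (fun I => algebraMap K (W.L N) (c I)) (x N)
      refine h3.trans ?_
      rw [Finset.sum_apply]
      unfold Fval mon
      refine Finset.sum_congr rfl fun I _ => ?_
      rw [Pi.mul_apply, Finset.prod_apply]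
      rfl
    rw [h2, map_sum]
    unfold Fval mon
    refine Finset.sum_congr rfl fun I _ => ?_
    rw [map_mul, map_prod]
    simp only [map_pow]
    rfl
  rw [h1]
  intro h0
  rw [germHom_eq_zero_iff] at h0
  obtain ⟨N, hN⟩ := h0.exists
  obtain ⟨w, hw⟩ := hinf N
  have h2 := hc N w hw
  have h3 : Fval D (fun I => algebraMap K (W.L N) (c I)) (x N) = 0 := Subtype.ext hN
  rw [h3, map_zero] at h2
  exact pow_ne_zero D (vmax_ne_zero w.1 (hx N)) h2.symm

end Tow

end Pool.Agent.Lib.MP_44a246_ntSH
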