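import Mathlib
import Pool.Agent.Lib.MP_44a246_ntSH.PJ13
import Pool.Agent.Lib.MP_44a246_ntSH.PJ14a
import Pool.Agent.Lib.MP_44a246_ntSH.PJ16c
import Pool.Agent.Lib.MP_44a246_ntY.Y37

/-!
# Stage II of paper 667: the bound of PJ13 in a tower
-/

namespace Pool.Agent.Lib.MP_44a246_ntSH

open Pool.Agent.Lib.MP_e52354_nt
open Pool.Agent.Lib.MP_44a246_nt
open Pool.Agent.Lib.MP_44a246_ntL
open Pool.Agent.Lib.MP_44a246_ntS
open Pool.Agent.Lib.MP_44a246_ntY
open Pool.Agent.Lib.MP_44a246_ntPC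
open WithZero Polynomial Module

universe u v w

/-- the maximum of elements of a smaller field -/
theorem vmax_below {κ L M : Type*} [Field κ] [Field L] [Field M] [Algebra κ L] [Algebra κ M]
    [Algebra L M] [IsScalarTower κ L M] [Algebra.IsAlgebraic L M] {σ : Type*} [Fintype σ]
    (w : Place κ M) (x : σ → L) :
    vmax w.1 (fun i => algebraMap L M (x i)) = vmax (below L w).1 x ^ ramIdx L w.1 := by
  unfold vmax
  apply le_antisymm
  · refine Finset.sup_le fun i _ => ?_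
    rw [below_pow]
    exact pow_le_pow_left' (Finset.le_sup (f := fun i => (below L w).1 (x i)) (Finset.mem_univ i)) _
  · rcases isEmpty_or_nonempty σ with hσ | hσ
    · have he := one_le_ramIdx (K := L) w.1 w.2.1
      rw [Finset.univ_eq_empty, Finset.sup_empty, bot_eq_zero, zero_pow (by omega)]
      exact zero_le
    · obtain ⟨i, -, hi⟩ := Finset.exists_max_image (Finset.univ : Finset σ)
        (fun i => (below L w).1 (x i)) Finset.univ_nonempty
      have h1 : (Finset.univ.sup fun i => (below L w).1 (x i)) = (below L w).1 (x i) :=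
        le_antisymm (Finset.sup_le fun j hj => hi j hj)
          (Finset.le_sup (f := fun i => (below L w).1 (x i)) (Finset.mem_univ i))
      rw [h1, ← below_pow]
      exact Finset.le_sup (f := fun i => w.1 (algebraMap L M (x i))) (Finset.mem_univ i)

/-- the bound of `near_bound` for a model all of whose constants are in a finite set of elements of
height at most `c₁ T` -/
theorem near_level {κ : Type u} {K : Type v} [Field κ] [IsAlgClosed κ] [CharZero κ] [Field K]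
    [Algebra κ K] (hK : IsFF κ K) (n D e b s c₁ t₀ : ℕ) :
    ∃ C : ℕ, ∀ (L E : Type w) [Field L] [Algebra κ L] [Algebra K L] [IsScalarTower κ K L]
      [FiniteDimensional K L] [Field E] [Algebra κ E] [Algebra K E] [IsScalarTower κ K E]
      [Algebra L E] [IsScalarTower K L E] [IsScalarTower κ L E] [FiniteDimensional L E]
      (T : ℕ) (_ : finrank K L ≤ T) (_ : finrank L E ≤ c₁) (_ : ramDeg κ E K ≤ c₁ * T)
      (R : Finset E) (_ : R.card ≤ t₀) (_ : ∀ z ∈ R, height κ ![1, z] ≤ c₁ * (T : ℤ))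
      (A : E[X][X]) (Q : Fin (n + 1) → E[X][X]) (S : Finset (E × E))
      (c : (Fin (n + 1) →₀ ℕ) → K)
      (_ : Irreducible A) (_ : A.Monic) (_ : A.natDegree = e) (_ : e ≠ 0) (_ : Tot e A)
      (_ : ∀ j, Box b (Q j)) (_ : S.card = s) (_ : 3 * e ≤ s)
      (_ : Set.InjOn Prod.fst (S : Set (E × E)))
      (_ : ∀ p ∈ S, A.evalEval p.1 p.2 = 0 ∧ (derivative A).evalEval p.1 p.2 ≠ 0 ∧
        (∃ j, (Q j).evalEval p.1 p.2 ≠ 0) ∧
        Fval D (fun I => algebraMap K E (c I)) (fun j => (Q j).evalEval p.1 p.2) = 0)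
      (_ : ∀ i j, (A.coeff i).coeff j ≠ 0 → (A.coeff i).coeff j ∈ R)
      (_ : ∀ l i j, ((Q l).coeff i).coeff j ≠ 0 → ((Q l).coeff i).coeff j ∈ R)
      (_ : ∀ I ∈ expo (Fin (n + 1)) D, algebraMap K E (c I) ∈ R)
      (_ : ∀ p ∈ S, p.1 ∈ R ∧ p.2 ∈ R ∧ (derivative A).evalEval p.1 p.2 ∈ R ∧
        (∀ j, (Q j).evalEval p.1 p.2 ∈ R) ∧ ∀ p' ∈ S, p.1 - p'.1 ∈ R)
      (f g q : E) (x : Fin (n + 1) → L) (P : Finset (Place κ L)) (_ : P.card ≤ T)
      (_ : A.evalEval f g = 0) (_ : q ≠ 0) (_ : x ≠ 0)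
      (_ : ∀ j, (Q j).evalEval f g = q * algebraMap L E (x j))
      (_ : ∀ w : Place κ L, w ∉ P →
        w.1 (Fval D (fun I => algebraMap K L (c I)) x) = vmax w.1 x ^ D),
      height κ ![1, f] ≤ C * (T : ℤ) := by
  classical
  obtain ⟨C, hC⟩ := near_bound.{u, v, w} hK n D e b s
  refine ⟨C * (c₁ + c₁ + c₁ + 2 * (t₀ * c₁)), ?_⟩
  intro L E _ _ _ _ _ _ _ _ _ _ _ _ _ T hLT hEL hram R hR hRh A Q S c hA hmon hdeg he hT hQ hSs h3
    hinj hS hRA hRQ hRc hRS f g q x P hP hfg hq hx hQfg hc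
  have hfin : FiniteDimensional K E := FiniteDimensional.trans K L E
  have hL : IsFF κ L := hK.of_finite
  have hE : IsFF κ E := hK.of_finite
  obtain ⟨τ, hτ, hτ1, hτ2, hτ3⟩ := exists_size hE R (fun z : E => z)
  obtain ⟨P', hP', hP'c⟩ := exists_above (L := L) hE P
  have h1 := hC E A Q S (fun I => algebraMap K E (c I)) τ hτ hA hmon hdeg he hT hQ hSs h3 hinj
    (fun p hp => ⟨(hS p hp).1, (hS p hp).2.1, (hS p hp).2.2.2⟩)
    (fun w => ⟨gg_le w.1 fun i j => ?_, fun l => gg_le w.1 fun i j => ?_,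
      fun I hI => hτ1 _ (hRc I hI) w⟩)
    (fun p hp w => ⟨hτ1 _ (hRS p hp).1 w, hτ1 _ (hRS p hp).2.1 w,
      hτ2 _ (hRS p hp).2.2.1 (hS p hp).2.1 w⟩)
    (fun p hp => ?_)
    (fun p hp p' hp' hne w => hτ2 _ ((hRS p hp).2.2.2.2 p' hp') (sub_ne_zero.2 hne) w)
    f g q (fun j => algebraMap L E (x j)) P' hfg hq ?_ hQfg ?_
  · -- the bound
    refine h1.trans ?_
    have h2 : (P'.card : ℤ) ≤ c₁ * (T : ℤ) := by
      have : P'.card ≤ c₁ * T := hP'c.trans (Nat.mul_le_mul hEL hP)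
      exact_mod_cast this
    have h3' : (ramDeg κ E K : ℤ) ≤ c₁ * (T : ℤ) := by exact_mod_cast hram
    have h4 : (finrank K E : ℤ) ≤ c₁ * (T : ℤ) := by
      have : finrank K E ≤ c₁ * T := by
        rw [← finrank_mul_finrank K L E, mul_comm]
        exact Nat.mul_le_mul hEL hLT
      exact_mod_cast this
    have h5 : ∑ᶠ w, (τ w : ℤ) ≤ 2 * (t₀ * c₁) * (T : ℤ) := by
      refine hτ3.trans ?_
      have h6 : ∑ z ∈ R, height κ ![1, z] ≤ (R.card : ℤ) * (c₁ * (T : ℤ)) := by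
        refine (Finset.sum_le_card_nsmul _ _ _ hRh).trans ?_
        rw [nsmul_eq_mul]
      have h7 : (R.card : ℤ) * (c₁ * (T : ℤ)) ≤ (t₀ : ℤ) * (c₁ * (T : ℤ)) := by
        refine mul_le_mul_of_nonneg_right ?_ (by positivity)
        exact_mod_cast hR
      nlinarith
    have h8 : ((C * (c₁ + c₁ + c₁ + 2 * (t₀ * c₁)) : ℕ) : ℤ) * (T : ℤ) =
        C * (c₁ * (T : ℤ) + c₁ * (T : ℤ) + c₁ * (T : ℤ) + 2 * (t₀ * c₁) * (T : ℤ)) := by
      push_cast
      ring
    rw [h8]
    refine mul_le_mul_of_nonneg_left ?_ (by positivity)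
    linarith
  · by_cases h0 : (A.coeff i).coeff j = 0
    · rw [h0, map_zero]
      exact zero_le
    · exact hτ1 _ (hRA i j h0) w
  · by_cases h0 : ((Q l).coeff i).coeff j = 0
    · rw [h0, map_zero]
      exact zero_le
    · exact hτ1 _ (hRQ l i j h0) w
  · obtain ⟨j, hj⟩ := (hS p hp).2.2.1
    exact ⟨j, fun w => hτ2 _ ((hRS p hp).2.2.2.1 j) hj w⟩
  · intro h0
    apply hx
    funext j
    have h9 := congrFun h0 j
    exact (map_eq_zero _).1 h9
  · intro w hw
    have h9 : below L w ∉ P := fun h => hw ((hP' w).2 h)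
    have h10 : Fval D (fun I => algebraMap K E (c I)) (fun j => algebraMap L E (x j)) =
        algebraMap L E (Fval D (fun I => algebraMap K L (c I)) x) := by
      rw [map_Fval]
      congr 1
      funext I
      rw [← IsScalarTower.algebraMap_apply]
    rw [h10, below_pow, hc _ h9, vmax_below, ← pow_mul, ← pow_mul, mul_comm]

end Pool.Agent.Lib.MP_44a246_ntSH
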