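import Mathlib
import Pool.Agent.Lib.MP_44a246_ntSH.PJ14
import Pool.Agent.Lib.MP_44a246_ntSH.PJ16c

/-!
# Stage II of paper 667: the ring of the sequences of elements of the fields `E N`
-/

namespace Pool.Agent.Lib.MP_44a246_ntSH

open Pool.Agent.Lib.MP_e52354_nt
open Pool.Agent.Lib.MP_44a246_nt
open Pool.Agent.Lib.MP_44a246_ntL
open Pool.Agent.Lib.MP_44a246_ntS
open Pool.Agent.Lib.MP_44a246_ntY
open Pool.Agent.Lib.MP_44a246_ntPC
open WithZero Module Polynomial

/-- the coefficients of a polynomial form a finite set -/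
theorem exists_coefs {R : Type*} [Semiring R] (P : R[X][X]) :
    ∃ T : Finset R, ∀ i j, (P.coeff i).coeff j ≠ 0 → (P.coeff i).coeff j ∈ T := by
  classical
  refine ⟨P.support.biUnion fun i => (P.coeff i).support.image fun j => (P.coeff i).coeff j,
    fun i j h => ?_⟩
  rw [Finset.mem_biUnion]
  refine ⟨i, ?_, Finset.mem_image_of_mem _ (Polynomial.mem_support_iff.2 h)⟩
  rw [Polynomial.mem_support_iff]
  intro h0
  rw [h0, coeff_zero] at h
  exact h rfl

/-- the size of a polynomial is determined by its coefficients -/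
theorem box_of_coeff {R S : Type*} [Field R] [Field S] {P : R[X][X]} {P' : S[X][X]} {b : ℕ}
    (h : ∀ i j, (P.coeff i).coeff j = 0 → (P'.coeff i).coeff j = 0) (hP : Box b P) :
    Box b P' := by
  refine ⟨?_, fun i => ?_⟩
  · rw [natDegree_le_iff_coeff_eq_zero]
    intro i hi
    ext j
    rw [coeff_zero]
    refine h i j ?_
    rw [coeff_eq_zero_of_natDegree_lt (hP.1.trans_lt hi), coeff_zero]
  · rw [natDegree_le_iff_coeff_eq_zero]
    intro j hj
    exact h i j (coeff_eq_zero_of_natDegree_lt ((hP.2 i).trans_lt hj))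

namespace Tow

variable {κ K Ω : Type*} [Field κ] [Field K] [Algebra κ K]
  [Field Ω] [Algebra K Ω] [Algebra κ Ω] [IsScalarTower κ K Ω] {W : Tow κ K Ω}

section

variable (E : ∀ N, IntermediateField (W.L N) Ω)

/-- the inclusion of the ring of the sequences -/
noncomputable def inc : (∀ N, E N) →+* (ℕ → Ω) :=
  RingHom.pi fun N => (algebraMap (E N) Ω).comp (Pi.evalRingHom (fun N => E N) N)

theorem inc_apply (z : ∀ N, E N) (N : ℕ) : inc E z N = (z N : Ω) := rfl

/-- the germ of a sequence -/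
noncomputable def gE : (∀ N, E N) →+* UP Ω := germHom.comp (inc E)

theorem gE_apply (z : ∀ N, E N) : gE E z = germHom fun N => (z N : Ω) := rfl

theorem gE_eq_iff (z z' : ∀ N, E N) :
    gE E z = gE E z' ↔ ∀ᶠ N in (Filter.hyperfilter ℕ : Filter ℕ), z N = z' N := by
  rw [gE_apply, gE_apply, germHom_eq_iff]
  exact Filter.eventually_congr (Filter.Eventually.of_forall fun N => Subtype.coe_inj)

theorem gE_eq_zero_iff (z : ∀ N, E N) :
    gE E z = 0 ↔ ∀ᶠ N in (Filter.hyperfilter ℕ : Filter ℕ), z N = 0 := by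
  rw [← map_zero (gE E), gE_eq_iff]
  rfl

/-- values of polynomials -/
theorem gE_evalEval (P : (∀ N, E N)[X][X]) (a b : ∀ N, E N) :
    (m2 (gE E) P).evalEval (gE E a) (gE E b) =
      gE E fun N => (m2 (Pi.evalRingHom (fun N => E N) N) P).evalEval (a N) (b N) := by
  rw [m2_evalEval]
  congr 1
  funext N
  exact (m2_evalEval (Pi.evalRingHom (fun N => E N) N) P a b).symm

/-- values of forms -/
theorem gE_Fval {n : ℕ} (D : ℕ) (c : (Fin (n + 1) →₀ ℕ) → ∀ N, E N) (x : Fin (n + 1) → ∀ N, E N) :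
    Fval D (fun I => gE E (c I)) (fun j => gE E (x j)) =
      gE E fun N => Fval D (fun I => c I N) (fun j => x j N) := by
  have h2 : (fun N => Fval D (fun I => c I N) (fun j => x j N)) =
      ∑ I ∈ expo (Fin (n + 1)) D, c I * ∏ j, x j ^ I j := by
    funext N
    rw [Finset.sum_apply]
    unfold Fval mon
    refine Finset.sum_congr rfl fun I _ => ?_
    rw [Pi.mul_apply, Finset.prod_apply]
    rfl
  rw [h2, map_sum]
  unfold Fval mon
  refine Finset.sum_congr rfl fun I _ => ?_
  rw [map_mul, map_prod]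
  simp only [map_pow]

/-- the members of a polynomial over the ring of the sequences -/
theorem m2_inc (P : (∀ N, E N)[X][X]) (N : ℕ) :
    m2 (Pi.evalRingHom (fun _ => Ω) N) (m2 (inc E) P) =
      ex Ω (m2 (Pi.evalRingHom (fun N => E N) N) P) := by
  ext i j
  rw [m2_coeff, m2_coeff]
  have h : ∀ Q : (E N)[X][X], ((ex Ω Q).coeff i).coeff j = ((Q.coeff i).coeff j : Ω) := by
    intro Q
    unfold ex
    rw [coeff_map, coe_mapRingHom, coeff_map]
    rfl
  rw [h, m2_coeff]
  rfl

theorem m2_germ_inc (P : (∀ N, E N)[X][X]) : m2 germHom (m2 (inc E) P) = m2 (gE E) P := by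
  ext i j
  rw [m2_coeff, m2_coeff, m2_coeff]
  rfl

end

end Tow

end Pool.Agent.Lib.MP_44a246_ntSH
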