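import Mathlib
import Pool.Agent.Lib.MP_44a246_ntPC.E1
import Pool.Agent.Lib.MP_44a246_ntPC.G1
import Pool.Agent.Lib.MP_44a246_ntSH.PJ03
import Pool.Agent.Lib.MP_44a246_ntSH.PJ04b
import Pool.Agent.Lib.MP_44a246_ntSH.PJ15a

/-!
# Stage II of paper 667: the members of polynomials over `F0`
-/

namespace Pool.Agent.Lib.MP_44a246_ntSH

open Pool.Agent.Lib.MP_e52354_nt
open Pool.Agent.Lib.MP_44a246_nt
open Pool.Agent.Lib.MP_44a246_ntL
open Pool.Agent.Lib.MP_44a246_ntS
open Pool.Agent.Lib.MP_44a246_ntY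
open Pool.Agent.Lib.MP_44a246_ntPC
open WithZero Module Polynomial

namespace Tow

variable {κ K Ω : Type*} [Field κ] [IsAlgClosed κ] [CharZero κ] [Field K] [Algebra κ K]
  [Field Ω] [Algebra K Ω] [Algebra κ Ω] [IsScalarTower κ K Ω] (W : Tow κ K Ω)

/-- sequences with the germs in a finite set of elements of `F0` -/
theorem exists_lift [IsAlgClosed Ω] [Algebra.IsAlgebraic K Ω] (T₀ : Finset W.F0)
    (T₁ : Finset (UP Ω)) (h₁ : ∀ s ∈ T₁, s ∈ W.F0) :
    ∃ (c : ℕ) (E : ∀ N, IntermediateField (W.L N) Ω) (r : W.F0 → ∀ N, E N),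
      (∀ N, FiniteDimensional (W.L N) (E N)) ∧ (∀ N, finrank (W.L N) (E N) ≤ c) ∧
      (∀ N, ramDeg κ (E N) K ≤ c * W.T N) ∧ r 0 = 0 ∧ r 1 = 1 ∧
      (∀ s, s = 0 ∨ s ∈ T₀ → gE E (r s) = (s : UP Ω)) ∧
      (∀ s ∈ T₀, ∀ N, height κ ![1, r s N] ≤ c * (W.T N : ℤ)) ∧ ∀ s ∈ T₁, s ∈ W.gf E := by
  classical
  obtain ⟨c, E, r, hfin, hdeg, hram, hr, hh⟩ :=
    W.exists_fld (T₀.image (fun s : W.F0 => (s : UP Ω)) ∪ T₁) (by
      intro s hs
      rcases Finset.mem_union.1 hs with hs | hs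
      · obtain ⟨t, -, rfl⟩ := Finset.mem_image.1 hs
        exact t.2
      · exact h₁ s hs)
  set r' : W.F0 → ∀ N, E N :=
    fun s => if s = 0 then 0 else if s = 1 then 1 else r (s : UP Ω) with hr'
  have e0 : r' 0 = 0 := by
    rw [hr']
    exact if_pos rfl
  have e1 : r' 1 = 1 := by
    rw [hr']
    exact (if_neg one_ne_zero).trans (if_pos rfl)
  have e2 : ∀ s : W.F0, s ≠ 0 → s ≠ 1 → r' s = r (s : UP Ω) := by
    intro s h0 h1
    rw [hr']
    exact (if_neg h0).trans (if_neg h1)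
  refine ⟨c, E, r', hfin, hdeg, hram, e0, e1, ?_, ?_, ?_⟩
  · intro s hs
    by_cases h0 : s = 0
    · rw [h0, e0, map_zero]
      rfl
    by_cases h1 : s = 1
    · rw [h1, e1, map_one]
      rfl
    rw [e2 s h0 h1]
    exact hr _ (Finset.mem_union_left _
      (Finset.mem_image_of_mem (fun s : W.F0 => (s : UP Ω)) (hs.resolve_left h0)))
  · intro s hs N
    by_cases h0 : s = 0
    · have h2 := height_one_const (κ := κ) (L := E N) 0
      rw [map_zero] at h2
      rw [h0, e0, Pi.zero_apply, h2]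
      positivity
    by_cases h1 : s = 1
    · have h2 := height_one_const (κ := κ) (L := E N) 1
      rw [map_one] at h2
      rw [h1, e1, Pi.one_apply, h2]
      positivity
    rw [e2 s h0 h1]
    exact hh _ (Finset.mem_union_left _
      (Finset.mem_image_of_mem (fun s : W.F0 => (s : UP Ω)) hs)) N
  · intro s hs
    exact ⟨r s, hr s (Finset.mem_union_right _ hs)⟩

variable {W} {E : ∀ N, IntermediateField (W.L N) Ω} {r : W.F0 → ∀ N, E N}

/-- the members of a polynomial -/
noncomputable abbrev mem (P : (∀ N, E N)[X][X]) (N : ℕ) : (E N)[X][X] :=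
  m2 (Pi.evalRingHom (fun N => E N) N) P

theorem mem_coeff (P : (∀ N, E N)[X][X]) (N i j : ℕ) :
    ((mem P N).coeff i).coeff j = (P.coeff i).coeff j N := m2_coeff _ _ _ _

/-- `P'` is a lift of `P` -/
structure Lift (r : W.F0 → ∀ N, E N) (P : W.F0[X][X]) (P' : (∀ N, E N)[X][X]) : Prop where
  coeff : ∀ i j, (P'.coeff i).coeff j = r ((P.coeff i).coeff j)
  ge : m2 (gE E) P' = ex (UP Ω) P

omit [IsAlgClosed κ] [CharZero κ] in
theorem ex_coeff {k₀ k : Type*} [Field k₀] [Field k] [Algebra k₀ k] (P : k₀[X][X]) (i j : ℕ) :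
    ((ex k P).coeff i).coeff j = algebraMap k₀ k ((P.coeff i).coeff j) := by
  unfold ex
  rw [coeff_map, coe_mapRingHom, coeff_map]

theorem exists_Lift (h0 : r 0 = 0) {P : W.F0[X][X]} {T₀ : Finset W.F0}
    (hr : ∀ s, s = 0 ∨ s ∈ T₀ → gE E (r s) = (s : UP Ω))
    (hP : ∀ i j, (P.coeff i).coeff j ≠ 0 → (P.coeff i).coeff j ∈ T₀) : ∃ P', Lift r P P' := by
  obtain ⟨P', hP'⟩ := exists_coeff_map r h0 P
  refine ⟨P', hP', ?_⟩
  ext i j
  rw [m2_coeff, hP', ex_coeff]
  refine hr _ ?_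
  by_cases h : (P.coeff i).coeff j = 0
  · exact Or.inl h
  · exact Or.inr (hP i j h)

variable {P : W.F0[X][X]} {P' : (∀ N, E N)[X][X]}

theorem Lift.coeff_mem (h : Lift r P P') (N i j : ℕ) :
    ((mem P' N).coeff i).coeff j = r ((P.coeff i).coeff j) N := by
  rw [mem_coeff, h.coeff]

/-- the degree of the members in the first variable -/
theorem Lift.box (h : Lift r P P') (h0 : r 0 = 0) {b : ℕ} (hP : Box b P) (N : ℕ) :
    Box b (mem P' N) := by
  refine box_of_coeff (fun i j hij => ?_) hP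
  rw [h.coeff_mem, hij, h0]
  rfl

theorem Lift.tot (h : Lift r P P') (h0 : r 0 = 0) {b : ℕ} (hP : Tot b P) (N : ℕ) :
    Tot b (mem P' N) := by
  intro i j hij
  refine hP i j fun h1 => hij ?_
  rw [h.coeff_mem, h1, h0]
  rfl

theorem Lift.monic (h : Lift r P P') (h0 : r 0 = 0) (h1 : r 1 = 1) {e : ℕ} (hP : P.Monic)
    (he : P.natDegree = e) (N : ℕ) : (mem P' N).Monic ∧ (mem P' N).natDegree = e := by
  have hc : (mem P' N).coeff e = 1 := by
    have hPe : P.coeff e = 1 := by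
      rw [← he]
      exact hP
    ext j
    rw [h.coeff_mem, hPe, coeff_one, coeff_one]
    split_ifs
    · rw [h1]
      rfl
    · rw [h0]
      rfl
  have hd : (mem P' N).natDegree ≤ e := by
    rw [natDegree_le_iff_coeff_eq_zero]
    intro i hi
    ext j
    rw [h.coeff_mem, coeff_eq_zero_of_natDegree_lt (he.trans_lt hi), coeff_zero, coeff_zero, h0]
    rfl
  have hd2 : (mem P' N).natDegree = e := by
    refine le_antisymm hd (le_natDegree_of_ne_zero ?_)
    rw [hc]
    exact one_ne_zero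
  refine ⟨?_, hd2⟩
  rw [Monic, leadingCoeff, hd2, hc]

/-- values -/
theorem Lift.value (h : Lift r P P') {a b : ∀ N, E N} {a₀ b₀ : UP Ω} (ha : gE E a = a₀)
    (hb : gE E b = b₀) :
    gE E (fun N => (mem P' N).evalEval (a N) (b N)) = (ex (UP Ω) P).evalEval a₀ b₀ := by
  rw [← ha, ← hb, ← h.ge, gE_evalEval]

theorem Lift.value_derivative (h : Lift r P P') {a b : ∀ N, E N} {a₀ b₀ : UP Ω} (ha : gE E a = a₀)
    (hb : gE E b = b₀) :
    gE E (fun N => (derivative (mem P' N)).evalEval (a N) (b N)) =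
      (ex (UP Ω) (derivative P)).evalEval a₀ b₀ := by
  rw [← ha, ← hb, ex_derivative, ← h.ge, ← m2_derivative, gE_evalEval]
  congr 1
  funext N
  rw [m2_derivative]

/-- values at elements of `F0` -/
theorem Lift.value' (h : Lift r P P') {a b : W.F0} (ha : gE E (r a) = (a : UP Ω))
    (hb : gE E (r b) = (b : UP Ω)) (hv : gE E (r (P.evalEval a b)) = (P.evalEval a b : W.F0)) :
    ∀ᶠ N in (Filter.hyperfilter ℕ : Filter ℕ),
      (mem P' N).evalEval (r a N) (r b N) = r (P.evalEval a b) N := by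
  rw [← gE_eq_iff E (fun N => (mem P' N).evalEval (r a N) (r b N)), h.value ha hb, hv]
  exact ex_evalEval (M := UP Ω) P a b

theorem Lift.value_derivative' (h : Lift r P P') {a b : W.F0} (ha : gE E (r a) = (a : UP Ω))
    (hb : gE E (r b) = (b : UP Ω))
    (hv : gE E (r ((derivative P).evalEval a b)) = ((derivative P).evalEval a b : W.F0)) :
    ∀ᶠ N in (Filter.hyperfilter ℕ : Filter ℕ),
      (derivative (mem P' N)).evalEval (r a N) (r b N) = r ((derivative P).evalEval a b) N := by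
  rw [← gE_eq_iff E (fun N => (derivative (mem P' N)).evalEval (r a N) (r b N)),
    h.value_derivative ha hb, hv]
  exact ex_evalEval (M := UP Ω) (derivative P) a b

/-- almost all members of an irreducible polynomial are irreducible -/
theorem Lift.irreducible [IsAlgClosed Ω] (h : Lift r P P') (hP : Irreducible P) :
    ∀ᶠ N in (Filter.hyperfilter ℕ : Filter ℕ), Irreducible (mem P' N) := by
  have h1 : Irreducible (m2 germHom (m2 (inc E) P')) := by
    rw [m2_germ_inc, h.ge]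
    exact irreducible_ex hP
  filter_upwards [eventually_irreducible h1] with N hN
  rw [m2_inc] at hN
  exact irreducible_of_ex hN

end Tow

end Pool.Agent.Lib.MP_44a246_ntSH
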