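import Mathlib
import Pool.Agent.Lib.MP_44a246_ntSH.PJ02
import Pool.Agent.Lib.MP_44a246_ntSH.PJ13
import Pool.Agent.Lib.MP_44a246_ntSH.PJ14
import Pool.Agent.Lib.MP_44a246_ntSH.PJ15b
import Pool.Agent.Lib.MP_44a246_ntSH.PJ15c

/-!
# Stage II of paper 667: a model over `F0` with many boundary points has small coordinates
-/

namespace Pool.Agent.Lib.MP_44a246_ntSH

open Pool.Agent.Lib.MP_e52354_nt
open Pool.Agent.Lib.MP_44a246_nt
open Pool.Agent.Lib.MP_44a246_ntL
open Pool.Agent.Lib.MP_44a246_ntS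
open Pool.Agent.Lib.MP_44a246_ntY
open Pool.Agent.Lib.MP_44a246_ntPC
open WithZero Module Polynomial

universe u v w

namespace Tow

variable {κ : Type u} {K : Type v} {Ω : Type w} [Field κ] [IsAlgClosed κ] [CharZero κ] [Field K]
  [Algebra κ K] [Field Ω] [Algebra K Ω] [Algebra κ Ω] [IsScalarTower κ K Ω] (W : Tow κ K Ω)

/-- **The model.** -/
theorem small_of_model [IsAlgClosed Ω] [Algebra.IsAlgebraic K Ω] {n D e : ℕ}
    {c : (Fin (n + 1) →₀ ℕ) → K} {x : ∀ N, Fin (n + 1) → W.L N} (hx : ∀ N, x N ≠ 0)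
    {P : ∀ N, Finset (Place κ (W.L N))} (hP : ∀ N, (P N).card ≤ W.T N)
    (hc : ∀ N, ∀ w : Place κ (W.L N), w ∉ P N →
      w.1 (Fval D (fun I => algebraMap K (W.L N) (c I)) (x N)) = vmax w.1 (x N) ^ D)
    {y₁ y : ∀ N, W.L N} {A : W.F0[X][X]} (hA : Irreducible A) (hmon : A.Monic)
    (hdeg : A.natDegree = e) (he : e ≠ 0) (hT : Tot e A) {Q : Fin (n + 1) → W.F0[X][X]}
    {S : Finset (W.F0 × W.F0)} (hinj : Set.InjOn Prod.fst (S : Set (W.F0 × W.F0)))
    (hcard : 3 * e ≤ S.card)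
    (hS : ∀ p ∈ S, A.evalEval p.1 p.2 = 0 ∧ (derivative A).evalEval p.1 p.2 ≠ 0 ∧
      (∃ j, (Q j).evalEval p.1 p.2 ≠ 0) ∧
      Fval D (fun I => W.cst (c I)) (fun j => (Q j).evalEval p.1 p.2) = 0)
    {f g q : UP Ω}
    (hf : f ∈ IntermediateField.adjoin W.F0
      {germHom fun N => (y₁ N : Ω), germHom fun N => (y N : Ω)})
    (hg : g ∈ IntermediateField.adjoin W.F0
      {germHom fun N => (y₁ N : Ω), germHom fun N => (y N : Ω)})
    (hq : q ∈ IntermediateField.adjoin W.F0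
      {germHom fun N => (y₁ N : Ω), germHom fun N => (y N : Ω)})
    (hq0 : q ≠ 0) (hfg : (ex (UP Ω) A).evalEval f g = 0)
    (hQ : ∀ j, (ex (UP Ω) (Q j)).evalEval f g = q * germHom fun N => (x N j : Ω)) :
    f ∈ W.F0 := by
  classical
  obtain ⟨Sf, hSf0, hSf⟩ := W.exists_gf hf
  obtain ⟨Sg, hSg0, hSg⟩ := W.exists_gf hg
  obtain ⟨Sq, hSq0, hSq⟩ := W.exists_gf hq
  obtain ⟨TA, hTA⟩ := exists_coefs A
  choose TQ hTQ using fun l => exists_coefs (Q l)
  set T₁ : Finset W.F0 := Finset.univ.biUnion TQ with hT₁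
  set T₂ : Finset W.F0 := (expo (Fin (n + 1)) D).image (fun I => W.cst (c I)) with hT₂
  set T₃ : Finset W.F0 := S.image Prod.fst ∪ S.image Prod.snd ∪
    S.image (fun p => (derivative A).evalEval p.1 p.2) ∪
    (S ×ˢ (Finset.univ : Finset (Fin (n + 1)))).image (fun s => (Q s.2).evalEval s.1.1 s.1.2) ∪
    (S ×ˢ S).image (fun s => s.1.1 - s.2.1) with hT₃
  set T₀ : Finset W.F0 := TA ∪ T₁ ∪ T₂ ∪ T₃ with hT₀
  have m1 : ∀ i j, (A.coeff i).coeff j ≠ 0 → (A.coeff i).coeff j ∈ T₀ := by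
    intro i j h
    simp only [hT₀, Finset.mem_union]
    exact Or.inl (Or.inl (Or.inl (hTA i j h)))
  have m2' : ∀ l i j, ((Q l).coeff i).coeff j ≠ 0 → ((Q l).coeff i).coeff j ∈ T₀ := by
    intro l i j h
    simp only [hT₀, Finset.mem_union]
    exact Or.inl (Or.inl (Or.inr (Finset.mem_biUnion.2 ⟨l, Finset.mem_univ l, hTQ l i j h⟩)))
  have m3 : ∀ I ∈ expo (Fin (n + 1)) D, W.cst (c I) ∈ T₀ := by
    intro I hI
    simp only [hT₀, Finset.mem_union]
    exact Or.inl (Or.inr (Finset.mem_image_of_mem _ hI))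
  have m4 : ∀ z ∈ T₃, z ∈ T₀ := by
    intro z hz
    simp only [hT₀, Finset.mem_union]
    exact Or.inr hz
  have m5 : ∀ p ∈ S, p.1 ∈ T₀ := by
    intro p hp
    refine m4 _ ?_
    simp only [hT₃, Finset.mem_union]
    exact Or.inl (Or.inl (Or.inl (Or.inl (Finset.mem_image_of_mem _ hp))))
  have m6 : ∀ p ∈ S, p.2 ∈ T₀ := by
    intro p hp
    refine m4 _ ?_
    simp only [hT₃, Finset.mem_union]
    exact Or.inl (Or.inl (Or.inl (Or.inr (Finset.mem_image_of_mem _ hp))))
  have m7 : ∀ p ∈ S, (derivative A).evalEval p.1 p.2 ∈ T₀ := by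
    intro p hp
    refine m4 _ ?_
    simp only [hT₃, Finset.mem_union]
    exact Or.inl (Or.inl (Or.inr (Finset.mem_image_of_mem
      (fun p : W.F0 × W.F0 => (derivative A).evalEval p.1 p.2) hp)))
  have m8 : ∀ p ∈ S, ∀ j, (Q j).evalEval p.1 p.2 ∈ T₀ := by
    intro p hp j
    refine m4 _ ?_
    simp only [hT₃, Finset.mem_union]
    exact Or.inl (Or.inr (Finset.mem_image_of_mem
      (fun s : (W.F0 × W.F0) × Fin (n + 1) => (Q s.2).evalEval s.1.1 s.1.2)
      (Finset.mk_mem_product hp (Finset.mem_univ j))))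
  have m9 : ∀ p ∈ S, ∀ p' ∈ S, p.1 - p'.1 ∈ T₀ := by
    intro p hp p' hp'
    refine m4 _ ?_
    simp only [hT₃, Finset.mem_union]
    exact Or.inr (Finset.mem_image_of_mem
      (fun s : (W.F0 × W.F0) × (W.F0 × W.F0) => s.1.1 - s.2.1)
      (Finset.mk_mem_product hp hp'))
  clear_value T₀
  clear hT₁ hT₂ hT₃ hT₀ m4
  obtain ⟨c₁, E, r, hfin, hdegE, hram, hr0, hr1, hr, hrh, hT₁g⟩ := W.exists_lift T₀ (Sf ∪ Sg ∪ Sq)
    (by
      intro s hs
      rcases Finset.mem_union.1 hs with hs | hs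
      · rcases Finset.mem_union.1 hs with hs | hs
        · exact hSf0 s hs
        · exact hSg0 s hs
      · exact hSq0 s hs)
  have hrm : ∀ s ∈ T₀, gE E (r s) = (s : UP Ω) := fun s hs => hr s (Or.inr hs)
  obtain ⟨A', hA'⟩ := exists_Lift hr0 hr m1
  choose Q' hQ' using fun l => exists_Lift hr0 hr (m2' l)
  obtain ⟨f', hf'⟩ := hSf E fun s hs => hT₁g s
    (Finset.mem_union_left _ (Finset.mem_union_left _ hs))
  obtain ⟨g', hg'⟩ := hSg E fun s hs => hT₁g s
    (Finset.mem_union_left _ (Finset.mem_union_right _ hs))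
  obtain ⟨q', hq'⟩ := hSq E fun s hs => hT₁g s (Finset.mem_union_right _ hs)
  -- the boxes
  obtain ⟨b, hb⟩ : ∃ b, ∀ j, Box b (Q j) := by
    have h1 : ∀ j, ∃ b, Box b (Q j) := by
      intro j
      refine ⟨(Q j).natDegree + ∑ i ∈ (Q j).support, ((Q j).coeff i).natDegree,
        Nat.le_add_right _ _, fun i => ?_⟩
      by_cases hi : i ∈ (Q j).support
      · exact (Finset.single_le_sum (f := fun i => ((Q j).coeff i).natDegree)
          (fun _ _ => Nat.zero_le _) hi).trans (Nat.le_add_left _ _)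
      · rw [notMem_support_iff.1 hi, natDegree_zero]
        exact Nat.zero_le _
    choose b hb using h1
    refine ⟨∑ j, b j, fun j => ?_⟩
    have h2 : b j ≤ ∑ j, b j := Finset.single_le_sum (f := b) (fun _ _ => Nat.zero_le _)
      (Finset.mem_univ j)
    exact ⟨(hb j).1.trans h2, fun i => ((hb j).2 i).trans h2⟩
  obtain ⟨C, hC⟩ := near_level.{u, v, w} (K := K) W.ff n D e b S.card c₁ T₀.card
  -- almost all members
  have e1 := hA'.irreducible hA
  have e2 : ∀ᶠ N in (Filter.hyperfilter ℕ : Filter ℕ), ∀ p ∈ S,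
      (mem A' N).evalEval (r p.1 N) (r p.2 N) = 0 := by
    refine (Finset.eventually_all S).2 fun p hp => ?_
    have h1 := hA'.value' (a := p.1) (b := p.2) (hrm _ (m5 p hp)) (hrm _ (m6 p hp))
      (by rw [(hS p hp).1]; exact hr 0 (Or.inl rfl))
    filter_upwards [h1] with N hN
    rw [hN, (hS p hp).1, hr0]
    rfl
  have e3 : ∀ᶠ N in (Filter.hyperfilter ℕ : Filter ℕ), ∀ p ∈ S,
      (derivative (mem A' N)).evalEval (r p.1 N) (r p.2 N) =
        r ((derivative A).evalEval p.1 p.2) N := by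
    refine (Finset.eventually_all S).2 fun p hp => ?_
    exact hA'.value_derivative' (a := p.1) (b := p.2) (hrm _ (m5 p hp)) (hrm _ (m6 p hp))
      (hrm _ (m7 p hp))
  have hne : ∀ s ∈ T₀, s ≠ 0 → ∀ᶠ N in (Filter.hyperfilter ℕ : Filter ℕ), r s N ≠ 0 := by
    intro s hs h0
    rw [Ultrafilter.eventually_not]
    intro h1
    rw [← gE_eq_zero_iff, hrm s hs] at h1
    exact h0 (Subtype.ext h1)
  have e4 : ∀ᶠ N in (Filter.hyperfilter ℕ : Filter ℕ), ∀ s ∈ T₀, s ≠ 0 → r s N ≠ 0 := by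
    refine (Finset.eventually_all T₀).2 fun s hs => ?_
    by_cases h0 : s = 0
    · exact Filter.Eventually.of_forall fun N h => absurd h0 h
    · filter_upwards [hne s hs h0] with N hN _
      exact hN
  have e5 : ∀ᶠ N in (Filter.hyperfilter ℕ : Filter ℕ), ∀ p ∈ S, ∀ j,
      (mem (Q' j) N).evalEval (r p.1 N) (r p.2 N) = r ((Q j).evalEval p.1 p.2) N := by
    refine (Finset.eventually_all S).2 fun p hp => Filter.eventually_all.2 fun j => ?_
    exact (hQ' j).value' (a := p.1) (b := p.2) (hrm _ (m5 p hp)) (hrm _ (m6 p hp))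
      (hrm _ (m8 p hp j))
  have e6 : ∀ᶠ N in (Filter.hyperfilter ℕ : Filter ℕ), ∀ p ∈ S,
      Fval D (fun I => algebraMap K (E N) (c I)) (fun j => r ((Q j).evalEval p.1 p.2) N) = 0 := by
    refine (Finset.eventually_all S).2 fun p hp => ?_
    have h1 := gE_Fval E D (fun I N => algebraMap K (E N) (c I))
      (fun j => r ((Q j).evalEval p.1 p.2))
    have h2 : Fval D (fun I => gE E (fun N => algebraMap K (E N) (c I)))
        (fun j => gE E (r ((Q j).evalEval p.1 p.2))) = 0 := by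
      have h3 := congrArg (algebraMap W.F0 (UP Ω)) (hS p hp).2.2.2
      rw [map_Fval, map_zero] at h3
      rw [← h3]
      congr 1
      funext j
      exact hrm _ (m8 p hp j)
    rw [h2] at h1
    exact (gE_eq_zero_iff E _).1 h1.symm
  have e7 : ∀ᶠ N in (Filter.hyperfilter ℕ : Filter ℕ), ∀ I ∈ expo (Fin (n + 1)) D,
      r (W.cst (c I)) N = algebraMap K (E N) (c I) := by
    refine (Finset.eventually_all _).2 fun I hI => ?_
    rw [← gE_eq_iff E (r (W.cst (c I))) (fun N => algebraMap K (E N) (c I)), hrm _ (m3 I hI)]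
    rfl
  have e8 : ∀ᶠ N in (Filter.hyperfilter ℕ : Filter ℕ), ∀ p ∈ S, ∀ p' ∈ S,
      r (p.1 - p'.1) N = r p.1 N - r p'.1 N := by
    refine (Finset.eventually_all S).2 fun p hp => (Finset.eventually_all S).2 fun p' hp' => ?_
    have h1 := gE_eq_iff E (r (p.1 - p'.1)) (r p.1 - r p'.1)
    rw [map_sub, hrm _ (m9 p hp p' hp'), hrm _ (m5 p hp), hrm _ (m5 p' hp')] at h1
    exact h1.1 rfl
  have hfE : gE E f' = f := hf'
  have hgE : gE E g' = g := hg'
  have hqE : gE E q' = q := hq'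
  have e9 : ∀ᶠ N in (Filter.hyperfilter ℕ : Filter ℕ),
      (mem A' N).evalEval (f' N) (g' N) = 0 := by
    rw [← gE_eq_zero_iff E (fun N => (mem A' N).evalEval (f' N) (g' N)), hA'.value hfE hgE, hfg]
  have e10 : ∀ᶠ N in (Filter.hyperfilter ℕ : Filter ℕ), q' N ≠ 0 := by
    rw [Ultrafilter.eventually_not, ← gE_eq_zero_iff E q', hqE]
    exact hq0
  have e11 : ∀ᶠ N in (Filter.hyperfilter ℕ : Filter ℕ), ∀ j,
      (mem (Q' j) N).evalEval (f' N) (g' N) = q' N * algebraMap (W.L N) (E N) (x N j) := by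
    refine Filter.eventually_all.2 fun j => ?_
    have h1 := gE_eq_iff E (fun N => (mem (Q' j) N).evalEval (f' N) (g' N))
      (q' * fun N => algebraMap (W.L N) (E N) (x N j))
    rw [(hQ' j).value hfE hgE, hQ j, map_mul, hqE] at h1
    exact h1.1 rfl
  -- the bound
  have key : ∀ᶠ N in (Filter.hyperfilter ℕ : Filter ℕ),
      height κ ![1, f' N] ≤ C * (W.T N : ℤ) := by
    filter_upwards [e1, e2, e3, e4, e5, e6, e7, e8, e9, e10, e11] with N k1 k2 k3 k4 k5 k6 k7 k8
      k9 k10 k11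
    have := W.fin N
    have := hfin N
    have hmonN := hA'.monic hr0 hr1 hmon hdeg N
    have hsep : ∀ p ∈ S, ∀ p' ∈ S, r p.1 N = r p'.1 N → p = p' := by
      intro p hp p' hp' h
      refine hinj hp hp' ?_
      by_contra hne'
      refine k4 (p.1 - p'.1) (m9 p hp p' hp') (sub_ne_zero.2 hne') ?_
      rw [k8 p hp p' hp', h, sub_self]
    set pt : W.F0 × W.F0 → E N × E N := fun p => (r p.1 N, r p.2 N) with hpt
    have hmemS : ∀ z ∈ S.image pt, ∃ p ∈ S, z = (r p.1 N, r p.2 N) := by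
      intro z hz
      obtain ⟨p, hp, rfl⟩ := Finset.mem_image.1 hz
      exact ⟨p, hp, rfl⟩
    have hR : ∀ s ∈ T₀, r s N ∈ T₀.image (fun s => r s N) := fun s hs =>
      Finset.mem_image_of_mem (fun s => r s N) hs
    refine hC (W.L N) (E N) (W.T N) (W.deg N) (hdegE N) (hram N) (T₀.image fun s => r s N)
      Finset.card_image_le ?_ (mem A' N) (fun j => mem (Q' j) N) (S.image pt) c k1 hmonN.1
      hmonN.2 he (hA'.tot hr0 hT N) (fun j => (hQ' j).box hr0 (hb j) N) ?_ hcard ?_ ?_ ?_ ?_ ?_ ?_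
      (f' N) (g' N) (q' N) (x N) (P N) (hP N) k9 k10 (hx N) k11 (hc N)
    · intro z hz
      obtain ⟨s, hs, rfl⟩ := Finset.mem_image.1 hz
      exact hrh s hs N
    · refine Finset.card_image_of_injOn ?_
      intro p hp p' hp' h
      exact hsep p hp p' hp' (congrArg Prod.fst h)
    · intro z hz z' hz' h
      obtain ⟨p, hp, rfl⟩ := hmemS z hz
      obtain ⟨p', hp', rfl⟩ := hmemS z' hz'
      rw [hsep p hp p' hp' h]
    · intro z hz
      obtain ⟨p, hp, rfl⟩ := hmemS z hz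
      refine ⟨k2 p hp, ?_, ?_, ?_⟩
      · change (derivative (mem A' N)).evalEval (r p.1 N) (r p.2 N) ≠ 0
        rw [k3 p hp]
        exact k4 _ (m7 p hp) (hS p hp).2.1
      · obtain ⟨j, hj⟩ := (hS p hp).2.2.1
        refine ⟨j, ?_⟩
        change (mem (Q' j) N).evalEval (r p.1 N) (r p.2 N) ≠ 0
        rw [k5 p hp j]
        exact k4 _ (m8 p hp j) hj
      · have h1 : (fun j => (mem (Q' j) N).evalEval (r p.1 N) (r p.2 N)) =
            fun j => r ((Q j).evalEval p.1 p.2) N := by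
          funext j
          exact k5 p hp j
        change Fval D (fun I => algebraMap K (E N) (c I))
          (fun j => (mem (Q' j) N).evalEval (r p.1 N) (r p.2 N)) = 0
        rw [h1]
        exact k6 p hp
    · intro i j hij
      rw [hA'.coeff_mem] at hij ⊢
      refine hR _ (m1 i j fun h0 => hij ?_)
      rw [h0, hr0]
      rfl
    · intro l i j hij
      rw [(hQ' l).coeff_mem] at hij ⊢
      refine hR _ (m2' l i j fun h0 => hij ?_)
      rw [h0, hr0]
      rfl
    · intro I hI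
      rw [← k7 I hI]
      exact hR _ (m3 I hI)
    · intro z hz
      obtain ⟨p, hp, rfl⟩ := hmemS z hz
      refine ⟨hR _ (m5 p hp), hR _ (m6 p hp), ?_, fun j => ?_, fun z' hz' => ?_⟩
      · change (derivative (mem A' N)).evalEval (r p.1 N) (r p.2 N) ∈ _
        rw [k3 p hp]
        exact hR _ (m7 p hp)
      · change (mem (Q' j) N).evalEval (r p.1 N) (r p.2 N) ∈ _
        rw [k5 p hp j]
        exact hR _ (m8 p hp j)
      · obtain ⟨p', hp', rfl⟩ := hmemS z' hz'
        change r p.1 N - r p'.1 N ∈ _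
        rw [← k8 p hp p' hp']
        exact hR _ (m9 p hp p' hp')
  rw [← hf']
  refine W.germ_mem_F0 E (c := max C c₁) (fun N => (hdegE N).trans (le_max_right _ _)) f' ?_
  filter_upwards [key] with N hN
  refine hN.trans (mul_le_mul_of_nonneg_right ?_ (by positivity))
  exact_mod_cast le_max_left _ _

end Tow

end Pool.Agent.Lib.MP_44a246_ntSH
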