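import Mathlib
import Pool.Agent.Lib.MP_44a246_ntSH.PJ06
import Pool.Agent.Lib.MP_44a246_ntSH.PJ07
import Pool.Agent.Lib.MP_44a246_ntSH.PJ11
import Pool.Agent.Lib.MP_44a246_ntSH.PJ12
import Pool.Agent.Lib.MP_44a246_ntSH.PJ11b
import Pool.Agent.Lib.MP_44a246_ntSH.PJ11z
import Pool.Agent.Lib.MP_44a246_ntSH.PJ15
import Pool.Agent.Lib.MP_44a246_ntSH.PJ16a
import Pool.Agent.Lib.MP_44a246_ntSH.PJ16c
import Pool.Agent.Lib.MP_44a246_ntSH.PJ04b
import Pool.Agent.Lib.MP_44a246_ntSH.PJ09e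

/-!
# Stage II of paper 667: the limit curve has few boundary places
-/

namespace Pool.Agent.Lib.MP_44a246_ntSH

open Pool.Agent.Lib.MP_e52354_nt
open Pool.Agent.Lib.MP_44a246_nt
open Pool.Agent.Lib.MP_44a246_ntL
open Pool.Agent.Lib.MP_44a246_ntR
open Pool.Agent.Lib.MP_44a246_ntS
open Pool.Agent.Lib.MP_44a246_ntY
open Pool.Agent.Lib.MP_44a246_ntPC
open WithZero Module Polynomial

universe u v w x

namespace Tow

variable {κ : Type u} {K : Type v} {Ω : Type w} [Field κ] [IsAlgClosed κ] [CharZero κ] [Field K]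
  [Algebra κ K] [Field Ω] [Algebra K Ω] [Algebra κ Ω] [IsScalarTower κ K Ω] (W : Tow κ K Ω)

/-- **Stage II.** The limit curve has fewer than `3 e` boundary places, where `e = 1` if its genus is
zero, and `e = 3 genus + 2` otherwise. -/
theorem stage_two [IsAlgClosed Ω] [Algebra.IsAlgebraic K Ω] {n D e : ℕ}
    {c : (Fin (n + 1) →₀ ℕ) → K} {x : ∀ N, Fin (n + 1) → W.L N} (hx : ∀ N, x N ≠ 0)
    {P : ∀ N, Finset (Place κ (W.L N))} (hP : ∀ N, (P N).card ≤ W.T N)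
    (hc : ∀ N, ∀ w : Place κ (W.L N), w ∉ P N →
      w.1 (Fval D (fun I => algebraMap K (W.L N) (c I)) (x N)) = vmax w.1 (x N) ^ D)
    {y₁ y : ∀ N, W.L N} {M : Type x} [Field M] [Algebra (UP Ω) M] {X₁ Y₁ : M}
    (hX₁ : Transcendental (UP Ω) X₁) (hgen : IntermediateField.adjoin (UP Ω) {X₁, Y₁} = ⊤)
    {A R : W.F0[X][X]} {G : Fin (n + 1) → W.F0[X][X]} {γ : Fin (n + 1) → M}
    (hA : Irreducible A) (hAM : ev (algebraMap (UP Ω) M) X₁ Y₁ (ex (UP Ω) A) = 0)
    (hRM : ev (algebraMap (UP Ω) M) X₁ Y₁ (ex (UP Ω) R) ≠ 0)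
    (hG : ∀ j, ev (algebraMap (UP Ω) M) X₁ Y₁ (ex (UP Ω) R) * γ j =
      ev (algebraMap (UP Ω) M) X₁ Y₁ (ex (UP Ω) (G j)))
    (hAy : (ex (UP Ω) A).evalEval (germHom fun N => (y₁ N : Ω)) (germHom fun N => (y N : Ω)) = 0)
    (hAy' : (derivative (ex (UP Ω) A)).evalEval (germHom fun N => (y₁ N : Ω))
      (germHom fun N => (y N : Ω)) ≠ 0)
    (hRy : (ex (UP Ω) R).evalEval (germHom fun N => (y₁ N : Ω)) (germHom fun N => (y N : Ω)) ≠ 0)
    (hGy : ∀ j, (ex (UP Ω) R).evalEval (germHom fun N => (y₁ N : Ω))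
      (germHom fun N => (y N : Ω)) * germHom (fun N => (x N j : Ω)) =
        (ex (UP Ω) (G j)).evalEval (germHom fun N => (y₁ N : Ω)) (germHom fun N => (y N : Ω)))
    (he : (genus (UP Ω) M = 0 ∧ e = 1) ∨ 3 * genus (UP Ω) M + 2 ≤ e)
    {S : Finset (Place (UP Ω) M)} (hS : 3 * e ≤ S.card)
    (hSc : ∀ w ∈ S, w.1 (Fval D (fun I => algebraMap (UP Ω) M (constHom (algebraMap K Ω (c I)))) γ) <
      vmax w.1 γ ^ D) :
    ∃ C : ℕ, ∀ᶠ N in (Filter.hyperfilter ℕ : Filter ℕ), height κ (x N) ≤ C * (W.T N : ℤ) := by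
  classical
  have hUP : IsAlgClosed (UP Ω) := isAlgClosed_UP Ω
  have hcΩ : CharZero Ω := charZero_of_injective_algebraMap (algebraMap κ Ω).injective
  have hcUP : CharZero (UP Ω) := charZero_of_injective_ringHom (constHom (L := Ω)).injective
  set s : UP Ω := germHom fun N => (y₁ N : Ω) with hs
  set t : UP Ω := germHom fun N => (y N : Ω) with ht
  set xs : Fin (n + 1) → UP Ω := fun j => germHom fun N => (x N j : Ω) with hxs
  -- the case of a small coordinate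
  by_cases hsF : s ∈ W.F0
  · have htF : t ∈ W.F0 := W.mem_F0_of_curve hsF hAy hAy'
    refine W.height_le_of_mem_F0 hx fun j => ?_
    have h1 : xs j = (ex (UP Ω) (G j)).evalEval s t / (ex (UP Ω) R).evalEval s t := by
      rw [eq_div_iff hRy, mul_comm]
      exact hGy j
    change xs j ∈ W.F0
    rw [h1]
    exact div_mem (W.evalEval_mem_F0 hsF htF (G j)) (W.evalEval_mem_F0 hsF htF R)
  -- the case of a generic point
  have hstr : Transcendental W.F0 s := fun h => hsF (W.mem_F0_of_isAlgebraic h)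
  have hdegA : A.natDegree ≠ 0 := by
    intro h0
    rw [natDegree_eq_zero] at h0
    obtain ⟨a, rfl⟩ := h0
    apply hAy'
    have h2 : derivative (ex (UP Ω) (C a : W.F0[X][X])) = 0 := by
      unfold ex
      rw [map_C, derivative_C]
    rw [h2]
    simp
  have hexA : Irreducible (ex (UP Ω) A) := irreducible_ex hA
  have hdegA' : (ex (UP Ω) A).natDegree ≠ 0 := by rwa [ex_natDegree]
  -- the small function field
  have hX₁' : Transcendental W.F0 X₁ := by
    rintro ⟨p, hp0, hp⟩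
    refine hX₁ ⟨p.map (algebraMap W.F0 (UP Ω)), ?_, ?_⟩
    · exact (Polynomial.map_ne_zero_iff (algebraMap W.F0 (UP Ω)).injective).2 hp0
    · rw [aeval_map_algebraMap]
      exact hp
  set M₀ := IntermediateField.adjoin W.F0 ({X₁, Y₁} : Set M) with hM₀
  have hX₀m : X₁ ∈ M₀ := IntermediateField.subset_adjoin _ _ (Set.mem_insert _ _)
  have hY₀m : Y₁ ∈ M₀ := IntermediateField.subset_adjoin _ _
    (Set.mem_insert_of_mem _ (Set.mem_singleton _))
  set X₀ : M₀ := ⟨X₁, hX₀m⟩ with hX₀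
  set Y₀ : M₀ := ⟨Y₁, hY₀m⟩ with hY₀
  have hX₀tr : Transcendental W.F0 X₀ := by
    rintro ⟨p, hp0, hp⟩
    refine hX₁' ⟨p, hp0, ?_⟩
    have h2 := congrArg (algebraMap M₀ M) hp
    rw [← aeval_algebraMap_apply, map_zero] at h2
    exact h2
  have hgen₀ : IntermediateField.adjoin W.F0 {X₀, Y₀} = ⊤ := by
    rw [eq_top_iff]
    intro z _
    have h1 : (IntermediateField.adjoin W.F0 {X₀, Y₀}).map M₀.val = M₀ := by
      rw [IntermediateField.adjoin_map, Set.image_pair]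
      rfl
    have h2 : (z : M) ∈ (IntermediateField.adjoin W.F0 {X₀, Y₀}).map M₀.val := by
      rw [h1]
      exact z.2
    obtain ⟨z', hz', hz2⟩ := h2
    have h3 : z' = z := Subtype.ext hz2
    rw [← h3]
    exact hz'
  have hevM : ∀ B : W.F0[X][X], algebraMap M₀ M (ev (algebraMap W.F0 M₀) X₀ Y₀ B) =
      ev (algebraMap (UP Ω) M) X₁ Y₁ (ex (UP Ω) B) := by
    intro B
    rw [ev_ex X₁ Y₁ B]
    exact (ev_comp M₀.val X₀ Y₀ B).symm
  have hA₀0 : ev (algebraMap W.F0 M₀) X₀ Y₀ A = 0 := by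
    apply (algebraMap M₀ M).injective
    rw [hevM, hAM, map_zero]
  have hA₀ : ∀ B : W.F0[X][X], ev (algebraMap W.F0 M₀) X₀ Y₀ B = 0 ↔ A ∣ B := by
    intro B
    constructor
    · intro hB
      exact dvd_of_generic hA hX₀tr hA₀0 hB
    · rintro ⟨B', rfl⟩
      rw [map_mul, hA₀0, zero_mul]
  have hA₁ : ∀ B : (UP Ω)[X][X], ev (algebraMap (UP Ω) M) X₁ Y₁ B = 0 ↔ ex (UP Ω) A ∣ B := by
    intro B
    constructor
    · intro hB
      exact dvd_of_generic hexA hX₁ hAM hB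
    · rintro ⟨B', rfl⟩
      rw [map_mul, hAM, zero_mul]
  have hgenus : genus W.F0 M₀ ≤ genus (UP Ω) M :=
    genus_descend hX₀tr hgen₀ hA₀ hX₁ hgen hA₁ hA hdegA
  have hFF₀ : IsFF W.F0 M₀ := isFF_of_curve hdegA hX₀tr hgen₀ hA₀0
  have hFF₁ : IsFF (UP Ω) M := isFF_of_curve hdegA' hX₁ hgen hAM
  have hgen' : IntermediateField.adjoin (UP Ω) (Set.range (algebraMap M₀ M)) = ⊤ := by
    rw [eq_top_iff, ← hgen, IntermediateField.adjoin_le_iff]
    rintro z (rfl | hz)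
    · exact IntermediateField.subset_adjoin _ _ ⟨X₀, rfl⟩
    · rw [Set.mem_singleton_iff] at hz
      subst hz
      exact IntermediateField.subset_adjoin _ _ ⟨Y₀, rfl⟩
  -- the point of the small function field
  set r₀ : M₀ := ev (algebraMap W.F0 M₀) X₀ Y₀ R with hr₀
  have hr₀0 : r₀ ≠ 0 := by
    intro h0
    apply hRM
    rw [← hevM, ← hr₀, h0, map_zero]
  set γ₀ : Fin (n + 1) → M₀ := fun j => ev (algebraMap W.F0 M₀) X₀ Y₀ (G j) / r₀ with hγ₀
  have hγ : ∀ j, algebraMap M₀ M (γ₀ j) = γ j := by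
    intro j
    rw [hγ₀, map_div₀, div_eq_iff, hevM, hr₀, hevM, ← hG j, mul_comm]
    rw [hr₀, hevM]
    exact hRM
  -- the specialisation
  have hev0 : ev (algebraMap W.F0 (UP Ω)) s t A = 0 := by
    rw [ev_eq_evalEval]
    exact hAy
  obtain ⟨σ, hσX, hσY⟩ := exists_hom_point hA hgen₀ hA₀ hstr hev0
  have hσev : ∀ B : W.F0[X][X], σ (ev (algebraMap W.F0 M₀) X₀ Y₀ B) =
      (ex (UP Ω) B).evalEval s t := by
    intro B
    rw [← ev_comp σ X₀ Y₀ B, hσX, hσY, ev_eq_evalEval]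
  have hσγ : ∀ j, σ (γ₀ j) = xs j := by
    intro j
    rw [hγ₀, map_div₀, hr₀, hσev, hσev, div_eq_iff hRy, mul_comm]
    exact (hGy j).symm
  have hσmem : ∀ z : M₀, σ z ∈ IntermediateField.adjoin W.F0 {s, t} := by
    intro z
    have h1 : (⊤ : IntermediateField W.F0 M₀).map σ = IntermediateField.adjoin W.F0 {s, t} := by
      rw [← hgen₀, IntermediateField.adjoin_map, Set.image_pair, hσX, hσY]
    rw [← h1]
    exact ⟨z, IntermediateField.mem_top, rfl⟩
  -- the form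
  have hinf : ∀ N, ∃ w : Place κ (W.L N), w ∉ P N := fun N => exists_place_notMem (W.ffL N) (P N)
  have hFx := W.Fval_ne_zero hx hinf hc
  set c₀ : (Fin (n + 1) →₀ ℕ) → W.F0 := fun I => W.cst (c I) with hc₀
  set F₀ : M₀ := Fval D (fun I => algebraMap W.F0 M₀ (c₀ I)) γ₀ with hF₀
  have hF₀σ : σ F₀ = Fval D (fun I => constHom (algebraMap K Ω (c I))) xs := by
    have h1 := map_Fval (σ : M₀ →+* UP Ω) D (fun I => algebraMap W.F0 M₀ (c₀ I)) γ₀
    refine h1.trans ?_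
    congr 1
    · funext I
      exact σ.commutes (c₀ I)
    · funext j
      exact hσγ j
  have hF₀0 : F₀ ≠ 0 := by
    intro h0
    apply hFx
    rw [← hF₀σ, h0, map_zero]
  have hF₀M : algebraMap M₀ M F₀ =
      Fval D (fun I => algebraMap (UP Ω) M (constHom (algebraMap K Ω (c I)))) γ := by
    have h1 := map_Fval (algebraMap M₀ M) D (fun I => algebraMap W.F0 M₀ (c₀ I)) γ₀
    refine h1.trans ?_
    congr 1
    funext j
    exact hγ j
  have hγ₀0 : γ₀ ≠ 0 := by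
    intro h0
    have h1 : ∀ᶠ N in (Filter.hyperfilter ℕ : Filter ℕ), ∀ j, (x N j : Ω) = 0 := by
      rw [Filter.eventually_all]
      intro j
      have h2 : xs j = 0 := by
        rw [← hσγ j, h0, Pi.zero_apply, map_zero]
      exact (germHom_eq_zero_iff _).1 h2
    obtain ⟨N, hN⟩ := h1.exists
    exact hx N (funext fun j => Subtype.ext (hN j))
  -- the restriction of the places
  have hres : ∀ w : S, ∃ (w₀ : Place W.F0 M₀) (r : ℕ), 1 ≤ r ∧
      ∀ z : M₀, w.1.1 (algebraMap M₀ M z) = w₀.1 z ^ r := by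
    rintro ⟨w, hw⟩
    refine exists_restrict w ?_
    by_contra hcon
    push Not at hcon
    have h1 := hSc w hw
    rw [← hF₀M, hcon F₀ hF₀0] at h1
    have h2 : vmax w.1 γ ≤ 1 := by
      refine vmax_le w.1 fun j => ?_
      rw [← hγ j]
      by_cases hj : γ₀ j = 0
      · rw [hj, map_zero, map_zero]
        exact zero_le
      · exact (hcon _ hj).le
    exact absurd (h1.trans_le (pow_le_one₀ zero_le h2)) (lt_irrefl _)
  choose ρ r hr1 hr using hres
  have hρ : Function.Injective ρ := by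
    intro w w' hww
    refine Subtype.ext (restrict_inj hFF₀ hFF₁ hgen' (hr1 w) (hr1 w') (hr w) ?_)
    rw [hww]
    exact hr w'
  set S₀ : Finset (Place W.F0 M₀) := Finset.univ.image ρ with hS₀
  have hS₀c : S₀.card = S.card := by
    rw [hS₀, Finset.card_image_of_injective _ hρ, Finset.card_univ, Fintype.card_coe]
  have hbd : ∀ w ∈ S₀, w.1 F₀ < vmax w.1 γ₀ ^ D := by
    intro w₀ hw₀
    obtain ⟨w, -, rfl⟩ := Finset.mem_image.1 hw₀
    have h1 := hSc w.1 w.2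
    rw [← hF₀M, hr w] at h1
    have h2 : vmax w.1.1 γ ≤ vmax (ρ w).1 γ₀ ^ r w := by
      refine vmax_le _ fun j => ?_
      rw [← hγ j, hr w]
      exact pow_le_pow_left' (le_vmax _ _ j) _
    have h3 : (ρ w).1 F₀ ^ r w < (vmax (ρ w).1 γ₀ ^ D) ^ r w := by
      refine h1.trans_le ((pow_le_pow_left' h2 D).trans (le_of_eq ?_))
      rw [← pow_mul, ← pow_mul, mul_comm]
    exact lt_of_pow_lt_pow_left' _ h3
  -- the model
  obtain ⟨xf, yf, q, A', Q, ε, hxf, hA'irr, hA'mon, hA'deg, hA'tot, hA'0, hq0, hQ, hinj, hε⟩ :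
      ∃ (x y q : M₀) (A : W.F0[X][X]) (Q : Fin (n + 1) → W.F0[X][X])
        (ε : Place W.F0 M₀ → W.F0 × W.F0),
      Transcendental W.F0 x ∧ Irreducible A ∧ A.Monic ∧ A.natDegree = e ∧ Tot e A ∧
      ev (algebraMap W.F0 M₀) x y A = 0 ∧ q ≠ 0 ∧
      (∀ j, ev (algebraMap W.F0 M₀) x y (Q j) = q * γ₀ j) ∧
      Set.InjOn (fun w => (ε w).1) (S₀ : Set (Place W.F0 M₀)) ∧
      ∀ w ∈ S₀, w.1 (x - algebraMap W.F0 M₀ (ε w).1) < 1 ∧
        w.1 (y - algebraMap W.F0 M₀ (ε w).2) < 1 ∧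
        A.evalEval (ε w).1 (ε w).2 = 0 ∧ (derivative A).evalEval (ε w).1 (ε w).2 ≠ 0 ∧
        ∃ j, (Q j).evalEval (ε w).1 (ε w).2 ≠ 0 := by
    rcases he with ⟨he0, he1⟩ | he1
    · subst he1
      exact exists_model_zero hFF₀ (Nat.le_zero.1 (he0 ▸ hgenus)) hγ₀0
    · exact exists_model (e := e) hFF₀ (S := S₀) (by omega) hγ₀0
  set S₁ : Finset (W.F0 × W.F0) := S₀.image ε with hS₁
  have hinj' : Set.InjOn ε (S₀ : Set (Place W.F0 M₀)) := by
    intro w hw w' hw' hww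
    exact hinj hw hw' (congrArg Prod.fst hww)
  have hS₁c : S₁.card = S₀.card := Finset.card_image_of_injOn hinj'
  have hfF : σ xf ∈ W.F0 := by
    refine W.small_of_model hx hP hc (e := e) (S := S₁) hA'irr hA'mon hA'deg (by omega)
      hA'tot ?_ ?_ ?_ (hσmem xf) (hσmem yf) (hσmem q) ?_ ?_ ?_ (Q := Q) (y₁ := y₁) (y := y)
    · intro p hp p' hp' hpp
      obtain ⟨w, hw, rfl⟩ := Finset.mem_image.1 hp
      obtain ⟨w', hw', rfl⟩ := Finset.mem_image.1 hp'
      rw [hinj hw hw' hpp]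
    · rw [hS₁c, hS₀c]
      exact hS
    · intro p hp
      obtain ⟨w, hw, rfl⟩ := Finset.mem_image.1 hp
      obtain ⟨h1, h2, h3, h4, h5⟩ := hε w hw
      exact ⟨h3, h4, h5, Fval_eq_zero_of_lt hq0 hQ h1 h2 h5 (hbd w hw)⟩
    · exact (map_ne_zero σ).2 hq0
    · rw [← ev_eq_evalEval, ev_comp, hA'0, map_zero]
    · intro j
      rw [← ev_eq_evalEval, ev_comp, hQ, map_mul, hσγ]
  exfalso
  have h1 : IsAlgebraic W.F0 (σ xf) := by
    refine ⟨X - C ⟨σ xf, hfF⟩, X_sub_C_ne_zero _, ?_⟩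
    rw [map_sub, aeval_X, aeval_C]
    exact sub_self _
  exact hxf ((isAlgebraic_algHom_iff σ σ.injective).1 h1)

end Tow

end Pool.Agent.Lib.MP_44a246_ntSH
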