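import Mathlib
import Pool.Agent.Lib.MP_44a246_nt.PolyMain
import Pool.Agent.Lib.MP_44a246_ntSH.PJ16
import Pool.Agent.Lib.MP_44a246_ntSP.CN01

/-!
# Stage II of paper 667: the number of the boundary places of the limit curve, for several forms
-/

namespace Pool.Agent.Lib.MP_44a246_ntSH

open Pool.Agent.Lib.MP_e52354_nt
open Pool.Agent.Lib.MP_44a246_nt
open Pool.Agent.Lib.MP_44a246_ntL
open Pool.Agent.Lib.MP_44a246_ntR
open Pool.Agent.Lib.MP_44a246_ntS
open Pool.Agent.Lib.MP_44a246_ntY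
open Pool.Agent.Lib.MP_44a246_ntPC
open Pool.Agent.Lib.MP_44a246_ntSP (bdry_smul)
open WithZero Module Polynomial

universe u v w x

/-- the coefficients of the product of forms -/
noncomputable def prodForm {K : Type*} [Field K] {n : ℕ} {Λ : Type*} [Fintype Λ] (d : Λ → ℕ)
    (a : Λ → (Fin (n + 1) →₀ ℕ) → K) : (Fin (n + 1) →₀ ℕ) → K :=
  fun I => (∏ i, toPoly (d i) (a i)).coeff I

/-- the values of the product of forms -/
theorem Fval_prodForm {K L : Type*} [Field K] [Field L] {n : ℕ} {Λ : Type*} [Fintype Λ]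
    (d : Λ → ℕ) (a : Λ → (Fin (n + 1) →₀ ℕ) → K) (φ : K →+* L) (x : Fin (n + 1) → L) :
    Fval (∑ i, d i) (fun I => φ (prodForm d a I)) x =
      ∏ i, Fval (d i) (fun I => φ (a i I)) x := by
  classical
  let _ := φ.toAlgebra
  have hhom : (∏ i, toPoly (d i) (a i)).IsHomogeneous (∑ i, d i) :=
    MvPolynomial.IsHomogeneous.prod _ _ _ fun i _ => toPoly_homog (d i) (a i)
  have h1 := aeval_eq_Fval (L := L) (∏ i, toPoly (d i) (a i)) hhom x
  change MvPolynomial.aeval x (∏ i, toPoly (d i) (a i)) =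
    Fval (∑ i, d i) (fun I => φ (prodForm d a I)) x at h1
  rw [← h1, map_prod]
  refine Finset.prod_congr rfl fun i _ => ?_
  have h2 := aeval_eq_Fval (L := L) (toPoly (d i) (a i)) (toPoly_homog (d i) (a i)) x
  rw [h2]
  refine MP_44a246_nt.Fval_congr (fun I hI => ?_) x
  rw [toPoly_coeff _ _ hI]
  rfl

/-- products of absolute values -/
theorem prod_lt_prod_aux {Λ : Type*} [Fintype Λ] {f g : Λ → ℤᵐ⁰} (h : ∀ i, f i ≤ g i)
    (hg : ∀ i, g i ≠ 0) {j : Λ} (hj : f j < g j) : ∏ i, f i < ∏ i, g i := by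
  classical
  rw [← Finset.mul_prod_erase _ _ (Finset.mem_univ j), ← Finset.mul_prod_erase _ g
    (Finset.mem_univ j)]
  refine (mul_le_mul' le_rfl (Finset.prod_le_prod' fun i _ => h i)).trans_lt ?_
  refine mul_lt_mul_of_pos_right hj (zero_lt_iff.2 ?_)
  exact Finset.prod_ne_zero_iff.2 fun i _ => hg i

/-- a form with constant coefficients -/
theorem Fval_le_vmax {κ M : Type*} [Field κ] [Field M] [Algebra κ M] {N d : ℕ}
    (w : Place κ M) (a : (Fin N →₀ ℕ) → κ) (γ : Fin N → M) :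
    w.1 (Fval d (fun I => algebraMap κ M (a I)) γ) ≤ vmax w.1 γ ^ d := by
  unfold Fval
  refine Valuation.map_sum_le w.1 fun I hI => ?_
  rw [map_mul]
  have h1 : w.1 (algebraMap κ M (a I)) ≤ 1 := by
    by_cases h0 : a I = 0
    · rw [h0, map_zero, map_zero]
      exact zero_le
    · exact (w.2.2 _ h0).le
  have h2 : w.1 (mon γ I) ≤ vmax w.1 γ ^ d := by
    unfold mon
    have h3 : d = ∑ j, I j := by
      rw [← mem_expo.1 hI, Finsupp.degree_eq_sum]
    rw [map_prod, h3, ← Finset.prod_pow_eq_pow_sum]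
    refine Finset.prod_le_prod' fun j _ => ?_
    rw [map_pow]
    exact pow_le_pow_left' (le_vmax _ _ j) _
  calc w.1 (algebraMap κ M (a I)) * w.1 (mon γ I) ≤ 1 * vmax w.1 γ ^ d := mul_le_mul' h1 h2
    _ = _ := one_mul _

namespace Tow

variable {κ : Type u} {K : Type v} {Ω : Type w} [Field κ] [IsAlgClosed κ] [CharZero κ] [Field K]
  [Algebra κ K] [Field Ω] [Algebra K Ω] [Algebra κ Ω] [IsScalarTower κ K Ω] (W : Tow κ K Ω)

/-- **The boundary of the limit curve**, for several forms. -/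
theorem ncard_bdry_le [IsAlgClosed Ω] [Algebra.IsAlgebraic K Ω] {n : ℕ} {Λ : Type*} [Finite Λ]
    {d' : Λ → ℕ} {a : Λ → (Fin (n + 1) →₀ ℕ) → K} {x : ∀ N, Fin (n + 1) → W.L N}
    (hx : ∀ N, x N ≠ 0) {P : ∀ N, Finset (Place κ (W.L N))} (hP : ∀ N, (P N).card ≤ W.T N)
    (hc : ∀ N, ∀ w : Place κ (W.L N), w ∉ P N → ∀ l,
      w.1 (Fval (d' l) (fun I => algebraMap K (W.L N) (a l I)) (x N)) = vmax w.1 (x N) ^ d' l)
    (hbig : ∀ C : ℕ, ¬ ∀ᶠ N in (Filter.hyperfilter ℕ : Filter ℕ),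
      height κ (x N) ≤ C * (W.T N : ℤ))
    {y₁ y : ∀ N, W.L N} {A R : W.F0[X][X]} {G : Fin (n + 1) → W.F0[X][X]} (hA : Irreducible A)
    (hAy : (ex (UP Ω) A).evalEval (germHom fun N => (y₁ N : Ω)) (germHom fun N => (y N : Ω)) = 0)
    (hAy' : (derivative (ex (UP Ω) A)).evalEval (germHom fun N => (y₁ N : Ω))
      (germHom fun N => (y N : Ω)) ≠ 0)
    (hRy : (ex (UP Ω) R).evalEval (germHom fun N => (y₁ N : Ω)) (germHom fun N => (y N : Ω)) ≠ 0)
    (hGy : ∀ j, (ex (UP Ω) R).evalEval (germHom fun N => (y₁ N : Ω))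
      (germHom fun N => (y N : Ω)) * germHom (fun N => (x N j : Ω)) =
        (ex (UP Ω) (G j)).evalEval (germHom fun N => (y₁ N : Ω)) (germHom fun N => (y N : Ω)))
    {M : Type x} [Field M] [Algebra (UP Ω) M] {X₁ Y₁ : M}
    (hX₁ : Transcendental (UP Ω) X₁) (hgen : IntermediateField.adjoin (UP Ω) {X₁, Y₁} = ⊤)
    (hAM : ∀ H : (UP Ω)[X][X], ev (algebraMap (UP Ω) M) X₁ Y₁ H = 0 ↔ ex (UP Ω) A ∣ H) :
    (bdry d' (fun l I => constHom (algebraMap K Ω (a l I)))
      (fun j => ev (algebraMap (UP Ω) M) X₁ Y₁ (ex (UP Ω) (G j)))).ncard ≤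
        9 * genus (UP Ω) M + 5 ∧
    (genus (UP Ω) M = 0 → (bdry d' (fun l I => constHom (algebraMap K Ω (a l I)))
      (fun j => ev (algebraMap (UP Ω) M) X₁ Y₁ (ex (UP Ω) (G j)))).ncard ≤ 2) := by
  classical
  have := Fintype.ofFinite Λ
  -- the point of the curve
  set s : UP Ω := germHom fun N => (y₁ N : Ω) with hs
  set t : UP Ω := germHom fun N => (y N : Ω) with ht
  have hAM0 : ev (algebraMap (UP Ω) M) X₁ Y₁ (ex (UP Ω) A) = 0 := (hAM _).2 dvd_rfl
  have hRM : ev (algebraMap (UP Ω) M) X₁ Y₁ (ex (UP Ω) R) ≠ 0 := by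
    intro h0
    obtain ⟨H, hH⟩ := (hAM _).1 h0
    apply hRy
    rw [hH, evalEval_mul, hAy, zero_mul]
  set r : M := ev (algebraMap (UP Ω) M) X₁ Y₁ (ex (UP Ω) R) with hr
  set γ : Fin (n + 1) → M := fun j => r⁻¹ * ev (algebraMap (UP Ω) M) X₁ Y₁ (ex (UP Ω) (G j))
    with hγ
  have hbd : bdry d' (fun l I => constHom (algebraMap K Ω (a l I)))
      (fun j => ev (algebraMap (UP Ω) M) X₁ Y₁ (ex (UP Ω) (G j))) =
      bdry d' (fun l I => constHom (algebraMap K Ω (a l I))) γ :=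
    (bdry_smul (inv_ne_zero hRM)).symm
  rw [hbd]
  have hG : ∀ j, r * γ j = ev (algebraMap (UP Ω) M) X₁ Y₁ (ex (UP Ω) (G j)) := by
    intro j
    rw [hγ, mul_inv_cancel_left₀ hRM]
  -- the coordinates are not all zero
  have hγ0 : γ ≠ 0 := by
    intro h0
    have h1 : ∀ᶠ N in (Filter.hyperfilter ℕ : Filter ℕ), ∀ j, (x N j : Ω) = 0 := by
      rw [Filter.eventually_all]
      intro j
      have h2 : ev (algebraMap (UP Ω) M) X₁ Y₁ (ex (UP Ω) (G j)) = 0 := by
        rw [← hG j, h0, Pi.zero_apply, mul_zero]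
      obtain ⟨H, hH⟩ := (hAM _).1 h2
      have h3 := hGy j
      rw [hH, evalEval_mul, hAy, zero_mul] at h3
      exact (germHom_eq_zero_iff _).1 ((mul_eq_zero.1 h3).resolve_left hRy)
    obtain ⟨N, hN⟩ := h1.exists
    exact hx N (funext fun j => Subtype.ext (hN j))
  -- the product of the forms
  set D := ∑ l, d' l with hD
  have hcN : ∀ N, ∀ w : Place κ (W.L N), w ∉ P N →
      w.1 (Fval D (fun I => algebraMap K (W.L N) (prodForm d' a I)) (x N)) =
        vmax w.1 (x N) ^ D := by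
    intro N w hw
    rw [Fval_prodForm d' a (algebraMap K (W.L N)) (x N), map_prod, hD,
      ← Finset.prod_pow_eq_pow_sum]
    exact Finset.prod_congr rfl fun l _ => hc N w hw l
  have hSc : ∀ w ∈ bdry d' (fun l I => constHom (algebraMap K Ω (a l I))) γ,
      w.1 (Fval D (fun I => algebraMap (UP Ω) M (constHom (algebraMap K Ω (prodForm d' a I)))) γ) <
        vmax w.1 γ ^ D := by
    rintro w ⟨l, hl⟩
    have h1 := Fval_prodForm d' a ((algebraMap (UP Ω) M).comp (constHom.comp (algebraMap K Ω))) γ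
    simp only [RingHom.comp_apply] at h1
    rw [h1, map_prod, hD, ← Finset.prod_pow_eq_pow_sum]
    exact prod_lt_prod_aux (fun i => Fval_le_vmax w _ γ)
      (fun i => pow_ne_zero _ (vmax_ne_zero w.1 hγ0)) hl
  -- the bound
  have key : ∀ e : ℕ, (genus (UP Ω) M = 0 ∧ e = 1) ∨ 3 * genus (UP Ω) M + 2 ≤ e →
      (bdry d' (fun l I => constHom (algebraMap K Ω (a l I))) γ).ncard < 3 * e := by
    intro e he
    by_contra hcon
    rw [not_lt] at hcon
    have he1 : 1 ≤ e := by omega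
    have hfin : (bdry d' (fun l I => constHom (algebraMap K Ω (a l I))) γ).Finite :=
      Set.finite_of_ncard_pos (by omega)
    have hcard : 3 * e ≤ hfin.toFinset.card := by
      rw [← Set.ncard_eq_toFinset_card _ hfin]
      exact hcon
    obtain ⟨C, hC⟩ := W.stage_two (D := D) (e := e) (c := prodForm d' a) hx hP hcN hX₁ hgen hA hAM0
      hRM hG hAy hAy' hRy hGy he hcard (fun w hw => hSc w (hfin.mem_toFinset.1 hw))
    exact hbig C hC
  constructor
  · have h1 := key (3 * genus (UP Ω) M + 2) (Or.inr le_rfl)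
    omega
  · intro h0
    have h1 := key 1 (Or.inl ⟨h0, rfl⟩)
    omega

end Tow

end Pool.Agent.Lib.MP_44a246_ntSH
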