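import Mathlib

set_option autoImplicit false

/-!
# Growth of powers of a subspace of a field (linear Freiman 3/2 theorem)

`k` an infinite field, `M / k` a finite extension, `A ≤ M` a subspace which contains `1` and generates
`M`.  Then `A * A = M` or `dim (A * A) ≥ (3/2) dim A`.
-/

namespace Pool.Agent.Lib.MP_44a246_ntSH

open Module Submodule

section Rank

variable {k V W : Type*} [Field k] [Infinite k] [AddCommGroup V] [Module k V] [AddCommGroup W]
  [Module k W] [FiniteDimensional k V] [FiniteDimensional k W]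

/-- If `T` has maximal rank among all `T + c S`, then `S` maps the kernel of `T` into the range
of `T`. -/
theorem mem_range_of_max (T S : V →ₗ[k] W)
    (h : ∀ c : k, finrank k (LinearMap.range (T + c • S)) ≤ finrank k (LinearMap.range T))
    {a : V} (ha : T a = 0) : S a ∈ LinearMap.range T := by
  by_contra hS
  let b := Module.finBasis k (LinearMap.range T)
  have hb : ∀ i, ∃ e : V, T e = (b i : W) := fun i => (b i).2
  choose e he using hb
  let v : Fin (finrank k (LinearMap.range T) + 1) → W := Fin.cons (S a) fun i => (b i : W)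
  let w : Fin (finrank k (LinearMap.range T) + 1) → W := Fin.cons 0 fun i => S (e i)
  have hv : LinearIndependent k v := by
    rw [linearIndependent_finCons]
    refine ⟨b.linearIndependent.map' (LinearMap.range T).subtype
      (Submodule.ker_subtype _), fun hc => hS ?_⟩
    refine (Submodule.span_le.2 ?_) hc
    rintro _ ⟨i, rfl⟩
    exact (b i).2
  have hinj : LinearMap.ker (Fintype.linearCombination k v) = ⊥ := by
    rw [LinearMap.ker_eq_bot]
    exact hv.fintypeLinearCombination_injective
  obtain ⟨P, hP⟩ := LinearMap.exists_leftInverse_of_injective _ hinj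
  let N : Module.End k (Fin (finrank k (LinearMap.range T) + 1) → k) :=
    P ∘ₗ Fintype.linearCombination k w
  obtain ⟨μ, hμ⟩ : ∃ μ : k, μ ∉ ({μ | N.HasEigenvalue μ} ∪ {0}) := by
    have : (({μ | N.HasEigenvalue μ} ∪ {0}) : Set k).Finite :=
      (Module.End.finite_hasEigenvalue N).union (Set.finite_singleton 0)
    exact this.exists_notMem
  have hμ0 : μ ≠ 0 := fun h0 => hμ (Or.inr h0)
  have hμe : ¬ N.HasEigenvalue μ := fun h0 => hμ (Or.inl h0)
  let c : k := -μ⁻¹
  have hc0 : c ≠ 0 := neg_ne_zero.2 (inv_ne_zero hμ0)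
  let G : (Fin (finrank k (LinearMap.range T) + 1) → k) →ₗ[k] W :=
    Fintype.linearCombination k v + c • Fintype.linearCombination k w
  have hG : LinearMap.ker G = ⊥ := by
    rw [LinearMap.ker_eq_bot']
    intro x hx
    by_contra hx0
    apply hμe
    have h1 : P (G x) = 0 := by rw [hx, map_zero]
    have h2 : x + c • N x = 0 := by
      have h3 : P (Fintype.linearCombination k v x) = x := LinearMap.congr_fun hP x
      have h4 : P (G x) = P (Fintype.linearCombination k v x) +
          c • P (Fintype.linearCombination k w x) := by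
        simp only [G, LinearMap.add_apply, LinearMap.smul_apply, map_add, map_smul]
      rw [h4, h3] at h1
      exact h1
    have h5 : N x = μ • x := by
      have h6 : c • N x = -x := eq_neg_of_add_eq_zero_right h2
      have h7 : N x = c⁻¹ • (c • N x) := by rw [smul_smul, inv_mul_cancel₀ hc0, one_smul]
      rw [h7, h6]
      simp only [c, inv_neg, inv_inv, smul_neg, neg_smul, neg_neg]
    exact Module.End.hasEigenvalue_of_hasEigenvector ⟨Module.End.mem_eigenspace_iff.2 h5, hx0⟩
  have hle : LinearMap.range G ≤ LinearMap.range (T + c • S) := by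
    rintro _ ⟨x, rfl⟩
    have hx : G x = ∑ i, x i • (v i + c • w i) := by
      simp only [G, LinearMap.add_apply, LinearMap.smul_apply, Fintype.linearCombination_apply,
        Finset.smul_sum, ← Finset.sum_add_distrib, smul_add]
      refine Finset.sum_congr rfl fun i _ => ?_
      rw [smul_comm c (x i)]
    rw [hx]
    refine Submodule.sum_mem _ fun i _ => Submodule.smul_mem _ _ ?_
    refine Fin.cases ?_ (fun j => ?_) i
    · refine ⟨c⁻¹ • a, ?_⟩
      simp only [v, w, Fin.cons_zero, LinearMap.add_apply, LinearMap.smul_apply, map_smul, ha,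
        smul_zero, zero_add, add_zero]
      rw [smul_smul, inv_mul_cancel₀ hc0, one_smul]
    · refine ⟨e j, ?_⟩
      simp only [v, w, Fin.cons_succ, LinearMap.add_apply, LinearMap.smul_apply, he]
  have h1 : finrank k (LinearMap.range G) = finrank k (LinearMap.range T) + 1 := by
    rw [LinearMap.finrank_range_of_inj (LinearMap.ker_eq_bot.1 hG)]
    simp
  have h2 := Submodule.finrank_mono hle
  have h3 := h c
  omega

end Rank

section Field

variable {k M : Type*} [Field k] [Infinite k] [Field M] [Algebra k M] [FiniteDimensional k M]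

/-- `{c ∈ A | z c ∈ A}` -/
def quo (A : Submodule k M) (z : M) : Submodule k M :=
  A ⊓ A.comap (LinearMap.mulLeft k z)

omit [Infinite k] [FiniteDimensional k M] in
theorem mem_quo {A : Submodule k M} {z c : M} : c ∈ quo A z ↔ c ∈ A ∧ z * c ∈ A := Iff.rfl

omit [Infinite k] in
theorem finrank_quo {A : Submodule k M} {z a : M} (ha : a ∈ A) (ha0 : a ≠ 0) (hza : z * a ∈ A) :
    2 * finrank k A ≤ finrank k (A * A : Submodule k M) + finrank k (quo A z) := by
  -- `T (c, c') = (z a) c - a c'`
  let T : (A × A) →ₗ[k] M :=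
    (LinearMap.mulLeft k (z * a) ∘ₗ A.subtype).coprod (-(LinearMap.mulLeft k a ∘ₗ A.subtype))
  have hT : ∀ p : A × A, T p = z * a * p.1 - a * p.2 := by
    intro p
    simp [T, LinearMap.coprod_apply, sub_eq_add_neg, mul_assoc]
  have hrange : LinearMap.range T ≤ A * A := by
    rintro _ ⟨p, rfl⟩
    rw [hT]
    exact Submodule.sub_mem _ (Submodule.mul_mem_mul hza p.1.2) (Submodule.mul_mem_mul ha p.2.2)
  have hker : finrank k (LinearMap.ker T) ≤ finrank k (quo A z) := by
    let f : LinearMap.ker T →ₗ[k] quo A z :=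
      LinearMap.codRestrict (quo A z) (A.subtype ∘ₗ LinearMap.fst k A A ∘ₗ (LinearMap.ker T).subtype)
        (by
          rintro ⟨p, hp⟩
          have hp' : T p = 0 := hp
          rw [hT] at hp'
          have h1 : z * (p.1 : M) = p.2 := by
            have : a * (z * (p.1 : M)) = a * p.2 := by
              rw [← sub_eq_zero, ← hp']; ring
            exact mul_left_cancel₀ ha0 this
          refine mem_quo.2 ⟨p.1.2, ?_⟩
          show z * (p.1 : M) ∈ A
          rw [h1]
          exact p.2.2)
    refine LinearMap.finrank_le_finrank_of_injective (f := f) ?_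
    rintro ⟨p, hp⟩ ⟨p', hp'⟩ hf
    have h0 : (p.1 : M) = p'.1 := congrArg (fun c : quo A z => (c : M)) hf
    have h1 : T p = 0 := hp
    have h2 : T p' = 0 := hp'
    rw [hT] at h1 h2
    have h3 : a * (p.2 : M) = a * p'.2 := by
      rw [← sub_eq_zero.1 h1, ← sub_eq_zero.1 h2, h0]
    have h4 : (p.2 : M) = p'.2 := mul_left_cancel₀ ha0 h3
    apply Subtype.ext
    exact Prod.ext (Subtype.ext h0) (Subtype.ext h4)
  have hrn := LinearMap.finrank_range_add_finrank_ker T
  have hdom : finrank k (A × A) = 2 * finrank k A := by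
    rw [Module.finrank_prod]; ring
  have h1 := Submodule.finrank_mono hrange
  omega

omit [Infinite k] in
/-- Two large subspaces of `A` meet. -/
theorem exists_common {A : Submodule k M} {z z' : M}
    (h : finrank k A < finrank k (quo A z) + finrank k (quo A z')) :
    ∃ c : M, c ≠ 0 ∧ c ∈ A ∧ z * c ∈ A ∧ z' * c ∈ A := by
  have h1 := Submodule.finrank_sup_add_finrank_inf_eq (quo A z) (quo A z')
  have h2 : finrank k (quo A z ⊔ quo A z' : Submodule k M) ≤ finrank k A :=
    Submodule.finrank_mono (sup_le inf_le_left inf_le_left)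
  have h3 : 0 < finrank k (quo A z ⊓ quo A z' : Submodule k M) := by omega
  have h4 : (quo A z ⊓ quo A z' : Submodule k M) ≠ ⊥ := by
    intro h5
    rw [h5, finrank_bot] at h3
    exact lt_irrefl _ h3
  obtain ⟨c, hc, hc0⟩ := Submodule.exists_mem_ne_zero_of_ne_bot h4
  exact ⟨c, hc0, hc.1.1, hc.1.2, hc.2.2⟩

theorem growth (A : Submodule k M) (h1 : (1 : M) ∈ A) (hgen : Algebra.adjoin k (A : Set M) = ⊤) :
    (A * A : Submodule k M) = ⊤ ∨ 3 * finrank k A ≤ 2 * finrank k (A * A : Submodule k M) := by
  by_contra hcon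
  push Not at hcon
  obtain ⟨hne, hlt⟩ := hcon
  -- the quotients
  let Q : Set M := {z | ∃ a ∈ A, a ≠ 0 ∧ z * a ∈ A}
  have hbig : ∀ z ∈ Q, finrank k A < 2 * finrank k (quo A z) := by
    rintro z ⟨a, ha, ha0, hza⟩
    have := finrank_quo ha ha0 hza
    omega
  have hinv : ∀ z ∈ Q, z ≠ 0 → z⁻¹ ∈ Q := by
    rintro z ⟨a, ha, ha0, hza⟩ hz
    exact ⟨z * a, hza, mul_ne_zero hz ha0, by rwa [inv_mul_cancel_left₀ hz]⟩
  have hadd : ∀ z ∈ Q, ∀ z' ∈ Q, z + z' ∈ Q := by
    intro z hz z' hz'
    obtain ⟨c, hc0, hc, h3, h4⟩ := exists_common (A := A) (z := z) (z' := z')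
      (by have := hbig z hz; have := hbig z' hz'; omega)
    exact ⟨c, hc, hc0, by rw [add_mul]; exact A.add_mem h3 h4⟩
  have hmul : ∀ z ∈ Q, ∀ z' ∈ Q, z * z' ∈ Q := by
    intro z hz z' hz'
    rcases eq_or_ne z 0 with rfl | hz0
    · exact ⟨1, h1, one_ne_zero, by simp⟩
    obtain ⟨c, hc0, hc, h3, h4⟩ := exists_common (A := A) (z := z⁻¹) (z' := z')
      (by have := hbig z⁻¹ (hinv z hz hz0); have := hbig z' hz'; omega)
    refine ⟨z⁻¹ * c, h3, mul_ne_zero (inv_ne_zero hz0) hc0, ?_⟩
    have : z * z' * (z⁻¹ * c) = z' * c := by field_simp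
    rwa [this]
  have hA : ∀ z ∈ A, z ∈ Q := fun z hz => ⟨1, h1, one_ne_zero, by rwa [mul_one]⟩
  have hall : ∀ z : M, z ∈ Q := by
    let R : Subalgebra k M :=
      { carrier := Q
        mul_mem' := fun {x y} hx hy => hmul x hx y hy
        add_mem' := fun {x y} hx hy => hadd x hx y hy
        algebraMap_mem' := fun r => hA _ (by
          rw [Algebra.algebraMap_eq_smul_one]; exact A.smul_mem r h1) }
    have hR : Algebra.adjoin k (A : Set M) ≤ R := Algebra.adjoin_le fun z hz => hA z hz
    intro z
    have : z ∈ Algebra.adjoin k (A : Set M) := by rw [hgen]; trivial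
    exact hR this
  -- the maps `A → M ⧸ A`
  let T : M →ₗ[k] (A →ₗ[k] M ⧸ A) :=
    { toFun := fun z => A.mkQ ∘ₗ LinearMap.mulLeft k z ∘ₗ A.subtype
      map_add' := fun x y => by ext a; simp [add_mul]
      map_smul' := fun c x => by ext a; simp }
  have hTap : ∀ z (a : A), T z a = A.mkQ (z * a) := fun z a => rfl
  have hrank : ∀ z, finrank k (LinearMap.range (T z)) + finrank k A ≤
      finrank k (A * A : Submodule k M) := by
    intro z
    obtain ⟨a, ha, ha0, hza⟩ := hall z
    have h2 := finrank_quo ha ha0 hza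
    have h3 := LinearMap.finrank_range_add_finrank_ker (T z)
    have h4 : finrank k (quo A z) ≤ finrank k (LinearMap.ker (T z)) := by
      let f : quo A z →ₗ[k] LinearMap.ker (T z) :=
        LinearMap.codRestrict _ (LinearMap.codRestrict A (quo A z).subtype fun c => c.2.1) (by
          intro c
          rw [LinearMap.mem_ker, hTap]
          exact (Submodule.Quotient.mk_eq_zero A).2 c.2.2)
      refine LinearMap.finrank_le_finrank_of_injective (f := f) ?_
      intro c c' hc
      have h5 : ((f c : A) : M) = ((f c' : A) : M) := by rw [hc]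
      exact Subtype.ext h5
    omega
  obtain ⟨z₀, hz₀⟩ : ∃ z₀, ∀ z, finrank k (LinearMap.range (T z)) ≤
      finrank k (LinearMap.range (T z₀)) := by
    have hb : BddAbove (Set.range fun z => finrank k (LinearMap.range (T z))) :=
      ⟨finrank k (A * A : Submodule k M), by
        rintro _ ⟨z, rfl⟩
        have := hrank z
        dsimp only
        omega⟩
    obtain ⟨z₀, h0⟩ := Nat.sSup_mem (Set.range_nonempty _) hb
    refine ⟨z₀, fun z => ?_⟩
    dsimp only at h0
    rw [h0]
    exact le_csSup hb ⟨z, rfl⟩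
  obtain ⟨a, ha, ha0, hza⟩ := hall z₀
  have hsurj : LinearMap.range (T z₀) = ⊤ := by
    rw [eq_top_iff]
    intro y _
    obtain ⟨w, rfl⟩ := A.mkQ_surjective y
    have h5 := mem_range_of_max (T z₀) (T (w * a⁻¹)) (fun c => by
      rw [← map_smul, ← map_add]
      exact hz₀ _) (a := ⟨a, ha⟩) (by
        rw [hTap]
        exact (Submodule.Quotient.mk_eq_zero A).2 hza)
    rw [hTap] at h5
    simpa [mul_assoc, inv_mul_cancel₀ ha0] using h5
  have h6 := hrank z₀
  rw [hsurj, finrank_top] at h6
  have h7 := Submodule.finrank_quotient_add_finrank A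
  apply hne
  apply Submodule.eq_top_of_finrank_eq
  have h8 := Submodule.finrank_le (A * A : Submodule k M)
  omega

omit [Infinite k] [FiniteDimensional k M] in
theorem one_mem_pow {A : Submodule k M} (h1 : (1 : M) ∈ A) (n : ℕ) : (1 : M) ∈ A ^ n := by
  induction n with
  | zero => rw [pow_zero]; exact Submodule.one_le.1 le_rfl
  | succ n ih =>
    rw [pow_succ]
    simpa using Submodule.mul_mem_mul ih h1

omit [Infinite k] [FiniteDimensional k M] in
theorem pow_mono {A : Submodule k M} (h1 : (1 : M) ∈ A) {i j : ℕ} (h : i ≤ j) : A ^ i ≤ A ^ j := by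
  obtain ⟨c, rfl⟩ := Nat.exists_eq_add_of_le h
  rw [pow_add]
  intro x hx
  simpa using Submodule.mul_mem_mul hx (one_mem_pow h1 c)

theorem growth_pow (A : Submodule k M) (h1 : (1 : M) ∈ A)
    (hgen : Algebra.adjoin k (A : Set M) = ⊤) (i : ℕ) :
    A ^ (2 ^ i) = ⊤ ∨
      3 ^ i * finrank k A ≤ 2 ^ i * finrank k (A ^ (2 ^ i) : Submodule k M) := by
  induction i with
  | zero => right; rw [pow_zero, pow_zero, pow_one]
  | succ i ih =>
    have hB : A ^ (2 ^ (i + 1)) = A ^ (2 ^ i) * A ^ (2 ^ i) := by
      rw [← pow_add, pow_succ, mul_two]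
    have hB1 := one_mem_pow h1 (2 ^ i)
    have hle : A ≤ A ^ (2 ^ i) := by
      have := pow_mono h1 (Nat.one_le_two_pow (n := i))
      rwa [pow_one] at this
    have hgenB : Algebra.adjoin k ((A ^ (2 ^ i) : Submodule k M) : Set M) = ⊤ := by
      rw [eq_top_iff, ← hgen]
      exact Algebra.adjoin_mono hle
    rw [hB]
    rcases ih with ih | ih
    · left
      rw [eq_top_iff]
      intro x _
      have hx : x ∈ A ^ (2 ^ i) := by rw [ih]; trivial
      simpa using Submodule.mul_mem_mul hx hB1
    rcases growth (A ^ (2 ^ i)) hB1 hgenB with h2 | h2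
    · exact Or.inl h2
    · right
      calc 3 ^ (i + 1) * finrank k A = 3 * (3 ^ i * finrank k A) := by ring
        _ ≤ 3 * (2 ^ i * finrank k (A ^ (2 ^ i) : Submodule k M)) := by gcongr
        _ = 2 ^ i * (3 * finrank k (A ^ (2 ^ i) : Submodule k M)) := by ring
        _ ≤ 2 ^ i * (2 * finrank k (A ^ (2 ^ i) * A ^ (2 ^ i) : Submodule k M)) := by gcongr
        _ = 2 ^ (i + 1) * finrank k (A ^ (2 ^ i) * A ^ (2 ^ i) : Submodule k M) := by ring

/-- a bounded power of a large subspace is everything -/
theorem pow_eq_top (A : Submodule k M) (h1 : (1 : M) ∈ A)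
    (hgen : Algebra.adjoin k (A : Set M) = ⊤) {i : ℕ}
    (h : 2 ^ i * finrank k M ≤ 3 ^ i * finrank k A) : A ^ (2 ^ i) = ⊤ := by
  rcases growth_pow A h1 hgen i with h2 | h2
  · exact h2
  · apply Submodule.eq_top_of_finrank_eq
    have h3 := Submodule.finrank_le (A ^ (2 ^ i) : Submodule k M)
    have h4 : 2 ^ i * finrank k M ≤ 2 ^ i * finrank k (A ^ (2 ^ i) : Submodule k M) := h.trans h2
    have h5 := Nat.le_of_mul_le_mul_left h4 (by positivity)
    omega

end Field

end Pool.Agent.Lib.MP_44a246_ntSH
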