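import Mathlib
import Pool.Agent.Lib.MP_44a246_ntE.E04
import Pool.Agent.Lib.MP_44a246_ntE.E06
import Pool.Agent.Lib.MP_44a246_ntSH.Growth

/-!
The theorem of Clifford for a function field of large genus; adapted bases for a space of functions
whose dimension is not small compared with the degree.

PROOF of `clifford`: `exists_adapted` (E06) for `W = rr P` (it contains `1`, `X`, `Y`; finite
dimensional by `finite_rr`; `1 ∈ rr P` as `0 ≤ P`), `finrank (rr P) = s + 1` (`rr P` contains `1`,
so its dimension is positive). In the case `m < 2 s` one has `f i ∈ (rr P) ^ j i ≤ rr (j i • P)` and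
`∑ j i + s + 1 ≤ 2 m`, so `genus + m ≤ ∑ j i + 1 ≤ 2 m - s` (`genus_le_basis`, E04) and
`2 genus ≤ 2 m - 2 s < m`, a contradiction with `m + 2 ≤ 2 genus`. So `2 s ≤ m`.

PROOF of `exists_adapted_growth`: `V = span_{κ (X)} W`, `1 ∈ V`, it generates `M` over `κ (X)`
(`Y ∈ W`), and `finrank V ≥ s`: by `indep_over` (E05): extend `1, X` to `s + 1` independent elements
`1, X, g_1, .., g_(s-1)` of `W`; then `1, g_1, ..` are independent over `κ (X)` (see the private
lemmas of E06, `e06_extend`; copy them). By `pow_eq_top` (Growth) `V ^ (2 ^ i) = ⊤`. `V ^ N` is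
spanned over `κ (X)` by `(W : Set M) ^ N` (`Submodule.span_pow`), so one can choose a basis of `M`
over `κ (X)` in `(W : Set M) ^ N ≤ W ^ N` (`exists_linearIndependent`, the cardinality is the
dimension).
-/

namespace Pool.Agent.Lib.MP_44a246_ntSH

open Pool.Agent.Lib.MP_44a246_nt Pool.Agent.Lib.MP_44a246_ntL
open Pool.Agent.Lib.MP_44a246_ntR
open Pool.Agent.Lib.MP_44a246_ntE
open WithZero Polynomial Module
open scoped Pointwise

/-- the number of elements in a set of generators -/
private theorem cv03_extend {κ L : Type*} [Field κ] [Field L] [Algebra κ L] {W : Submodule κ L}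
    [FiniteDimensional κ W] (h1 : (1 : L) ∈ W) {x : L} (hx : x ∈ W)
    (hx1 : (1 : L) ∉ Submodule.span κ {x}) (hx0 : x ≠ 0) {s : ℕ} (hs : finrank κ W = s + 2) :
    ∃ g : Fin s → L, (∀ i, g i ∈ W) ∧
      LinearIndependent κ (Fin.cons 1 (Fin.cons x g) : Fin (s + 2) → L) := by
  classical
  have hs0 : LinearIndepOn κ id ({1, x} : Set L) := by
    refine LinearIndepOn.id_insert ?_ hx1
    rw [linearIndepOn_singleton_iff]
    exact hx0
  obtain ⟨B, hBW, hsB, hWB, hB⟩ := exists_linearIndepOn_id_extension (t := (W : Set L)) hs0 (by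
    intro y hy
    rcases hy with rfl | hy
    · exact h1
    · rw [Set.mem_singleton_iff.1 hy]
      exact hx)
  have h1B : (1 : L) ∈ B := hsB (Set.mem_insert _ _)
  have hxB : x ∈ B := hsB (Set.mem_insert_of_mem _ (Set.mem_singleton _))
  have hne : (1 : L) ≠ x := by
    rintro rfl
    exact hx1 (Submodule.mem_span_singleton_self _)
  have hspB : Submodule.span κ B = W :=
    le_antisymm (Submodule.span_le.2 hBW) hWB
  have hBf : B.Finite := by
    have h2 : LinearIndependent κ (fun y : B => (⟨(y : L), hBW y.2⟩ : W)) := by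
      apply LinearIndependent.of_comp W.subtype
      exact hB
    exact Set.finite_coe_iff.1 h2.finite
  have : Fintype B := hBf.fintype
  have hcard : B.toFinset.card = s + 2 := by
    rw [← finrank_span_set_eq_card hB, hspB, hs]
  have hcard2 : ((B.toFinset.erase 1).erase x).card = s := by
    rw [Finset.card_erase_of_mem, Finset.card_erase_of_mem, hcard]
    · rfl
    · rw [Set.mem_toFinset]
      exact h1B
    · rw [Finset.mem_erase, Set.mem_toFinset]
      exact ⟨Ne.symm hne, hxB⟩
  let e := (((B.toFinset.erase 1).erase x).equivFinOfCardEq hcard2).symm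
  have he : ∀ i, ((e i : L) ∈ B ∧ (e i : L) ≠ 1) ∧ (e i : L) ≠ x := by
    intro i
    have h2 := (e i).2
    rw [Finset.mem_erase, Finset.mem_erase, Set.mem_toFinset] at h2
    exact ⟨⟨h2.2.2, h2.2.1⟩, h2.1⟩
  refine ⟨fun i => (e i : L), fun i => hBW (he i).1.1, ?_⟩
  obtain ⟨σ, hσ⟩ : ∃ σ : Fin (s + 2) → B, σ =
      Fin.cons ⟨1, h1B⟩ (Fin.cons ⟨x, hxB⟩ (fun i => ⟨(e i : L), (he i).1.1⟩)) := ⟨_, rfl⟩
  have hσi : Function.Injective σ := by
    rw [hσ, Fin.cons_injective_iff, Fin.cons_injective_iff]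
    refine ⟨?_, ?_, ?_⟩
    · rintro ⟨i, hi⟩
      revert hi
      refine Fin.cases ?_ (fun i => ?_) i
      · intro hi
        exact hne (congrArg (fun y : B => (y : L)) hi).symm
      · intro hi
        exact (he i).1.2 (congrArg (fun y : B => (y : L)) hi)
    · rintro ⟨i, hi⟩
      exact (he i).2 (congrArg (fun y : B => (y : L)) hi)
    · intro i i' hii
      apply e.injective
      exact Subtype.ext (congrArg (fun y : B => (y : L)) hii)
  have h3 := hB.comp σ hσi
  have h4 : (Subtype.val ∘ σ : Fin (s + 2) → L) = Fin.cons 1 (Fin.cons x fun i => (e i : L)) := by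
    funext i
    rw [hσ]
    refine Fin.cases rfl (fun i => ?_) i
    exact Fin.cases rfl (fun i => rfl) i
  rw [← h4]
  exact h3

variable {κ L : Type*} [Field κ] [IsAlgClosed κ] [CharZero κ] [Field L] [Algebra κ L]
  [Algebra (RatFunc κ) L] [IsScalarTower κ (RatFunc κ) L] [FiniteDimensional (RatFunc κ) L]

omit [IsAlgClosed κ] [CharZero κ] [Algebra (RatFunc κ) L] [IsScalarTower κ (RatFunc κ) L]
  [FiniteDimensional (RatFunc κ) L] in
/-- powers of a Riemann-Roch space -/
private theorem cv03_pow {P : Place κ L →₀ ℤ} (k : ℕ) : rr P ^ k ≤ rr (k • P) := by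
  induction k with
  | zero =>
    rw [pow_zero, Submodule.one_le]
    intro v
    rw [map_one, zero_nsmul, Finsupp.zero_apply, exp_zero]
  | succ k ih =>
    rw [pow_succ, Submodule.mul_le]
    intro a ha b hb v
    have h1 := ih ha v
    have h2 := hb v
    rw [map_mul, succ_nsmul, Finsupp.add_apply, exp_add]
    exact mul_le_mul' h1 h2

/-- **Clifford.** -/
theorem clifford {P : Place κ L →₀ ℤ} (hP : IsPole P) {Y : L} (hY : Y ∈ rr P)
    (hgen : IntermediateField.adjoin (RatFunc κ) {Y} = ⊤)
    (hg : finrank (RatFunc κ) L + 2 ≤ 2 * genus κ L) :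
    2 * finrank κ (rr P) ≤ finrank (RatFunc κ) L + 2 := by
  have hF : IsFF κ L := isFF_of_ratFunc κ L
  have hfd : FiniteDimensional κ (rr P) := finite_rr hF P
  have h1 : (1 : L) ∈ rr P := by
    intro v
    rw [map_one, ← exp_zero, exp_le_exp]
    exact hP.nonneg v
  have hX : tL κ L ∈ rr P := by
    intro v
    apply gr4_le_exp
    intro _
    rw [hP v]
    exact le_max_right _ _
  have hpos : 0 < finrank κ (rr P) := by
    have : Nontrivial (rr P) := ⟨⟨⟨1, h1⟩, 0, fun h => one_ne_zero (congrArg Subtype.val h)⟩⟩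
    exact finrank_pos
  obtain ⟨s, hs⟩ : ∃ s, finrank κ (rr P) = s + 1 := ⟨finrank κ (rr P) - 1, by omega⟩
  obtain ⟨f, j, hf, hfj, -, hcase⟩ := exists_adapted hP h1 hX hY le_rfl hgen hs
  rw [hs]
  rcases hcase with ⟨h2, -⟩ | ⟨h2, h3, h4⟩
  · omega
  · exfalso
    have h5 := genus_le_basis hP hf (fun i => cv03_pow (j i) (hfj i))
    have h6 : (∑ i, (j i : ℤ)) = ((∑ i, j i : ℕ) : ℤ) := by push_cast; rfl
    rw [h6] at h5
    omega

/-- **An adapted basis.** -/
theorem exists_adapted_growth {P : Place κ L →₀ ℤ} (hP : IsPole P) {W : Submodule κ L}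
    [FiniteDimensional κ W] (h1 : (1 : L) ∈ W) (hX : tL κ L ∈ W) {Y : L} (hY : Y ∈ W)
    (hW : W ≤ rr P) (hgen : IntermediateField.adjoin (RatFunc κ) {Y} = ⊤) {s : ℕ}
    (hs : finrank κ W = s + 1) {i : ℕ}
    (hi : 2 ^ i * finrank (RatFunc κ) L ≤ 3 ^ i * s) :
    ∃ f : Fin (finrank (RatFunc κ) L) → L,
      LinearIndependent (RatFunc κ) f ∧ ∀ l, f l ∈ W ^ (2 ^ i) := by
  classical
  have hm0 : 0 < finrank (RatFunc κ) L := Module.finrank_pos
  have hs0 : s ≠ 0 := by
    rintro rfl
    have h2 : 0 < 2 ^ i * finrank (RatFunc κ) L := by positivity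
    omega
  obtain ⟨s', rfl⟩ : ∃ s', s = s' + 1 := ⟨s - 1, by omega⟩
  have htr : Transcendental κ (tL κ L) := transcendental_tL
  have ht0 : tL κ L ≠ 0 := by
    intro h
    exact htr (h ▸ isAlgebraic_zero)
  have ht1 : (1 : L) ∉ Submodule.span κ {tL κ L} := by
    intro h
    obtain ⟨c, hc⟩ := Submodule.mem_span_singleton.1 h
    have hc0 : c ≠ 0 := by
      rintro rfl
      rw [zero_smul] at hc
      exact zero_ne_one hc
    apply htr
    have h2 : tL κ L = algebraMap κ L c⁻¹ := by
      rw [Algebra.smul_def] at hc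
      rw [map_inv₀]
      exact eq_inv_of_mul_eq_one_right hc
    rw [h2]
    exact isAlgebraic_algebraMap _
  obtain ⟨g, hg, hgi⟩ := cv03_extend h1 hX ht1 ht0 (s := s') hs
  have hind := indep_over hP (fun i => hW (hg i)) hgi
  have hr : s' + 1 ≤ finrank (RatFunc κ) (Submodule.span (RatFunc κ) (W : Set L)) := by
    have h2 : LinearIndependent (RatFunc κ) (fun i : Fin (s' + 1) =>
        (⟨(Fin.cons 1 g : Fin (s' + 1) → L) i, by
          refine Submodule.subset_span ?_
          refine Fin.cases ?_ (fun i => ?_) i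
          · exact h1
          · exact hg i⟩ : Submodule.span (RatFunc κ) (W : Set L))) := by
      apply LinearIndependent.of_comp (Submodule.subtype _)
      exact hind
    have h3 := h2.fintype_card_le_finrank
    rwa [Fintype.card_fin] at h3
  have : CharZero (RatFunc κ) := charZero_of_injective_algebraMap
    (algebraMap κ (RatFunc κ)).injective
  have : Infinite (RatFunc κ) := inferInstance
  have hint : IsIntegral (RatFunc κ) Y := Algebra.IsIntegral.isIntegral Y
  have hadj : Algebra.adjoin (RatFunc κ)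
      ((Submodule.span (RatFunc κ) (W : Set L) : Submodule (RatFunc κ) L) : Set L) = ⊤ := by
    rw [eq_top_iff]
    have h2 := IntermediateField.adjoin_simple_toSubalgebra_of_isAlgebraic hint.isAlgebraic
    rw [hgen, IntermediateField.top_toSubalgebra] at h2
    rw [h2]
    exact Algebra.adjoin_mono (Set.singleton_subset_iff.2 (Submodule.subset_span hY))
  have htop := pow_eq_top (Submodule.span (RatFunc κ) (W : Set L)) (Submodule.subset_span h1) hadj
    (i := i) (hi.trans (Nat.mul_le_mul_left _ hr))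
  rw [Submodule.span_pow] at htop
  obtain ⟨b, hbT, hbsp, hb⟩ := exists_linearIndependent (RatFunc κ) ((W : Set L) ^ (2 ^ i))
  rw [htop] at hbsp
  have hbf : b.Finite := LinearIndependent.set_finite_of_isNoetherian hb
  have : Fintype b := hbf.fintype
  have hcard : Fintype.card b = finrank (RatFunc κ) L := by
    rw [← Set.toFinset_card, ← finrank_span_set_eq_card hb, hbsp, finrank_top]
  obtain ⟨e⟩ : Nonempty (Fin (finrank (RatFunc κ) L) ≃ b) :=
    ⟨(Fintype.equivFinOfCardEq hcard).symm⟩
  refine ⟨fun l => (e l : L), hb.comp e e.injective, fun l => ?_⟩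
  exact Submodule.pow_subset_pow W (hbT (e l).2)

end Pool.Agent.Lib.MP_44a246_ntSH
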