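import Mathlib
import Pool.Agent.Lib.MP_44a246_ntE.E10
import Pool.Agent.Lib.MP_44a246_ntSH.CV03
import Pool.Agent.Lib.MP_44a246_ntSH.CV04

/-!
Parameters and conditions for a curve of large genus in projective space, without a condition on the
dimension of its span (paper 619, phase 2, step 0).
-/

namespace Pool.Agent.Lib.MP_44a246_ntSH

open Pool.Agent.Lib.MP_e52354_nt
open Pool.Agent.Lib.MP_44a246_nt
open Pool.Agent.Lib.MP_44a246_ntL
open Pool.Agent.Lib.MP_44a246_ntR
open Pool.Agent.Lib.MP_44a246_ntS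
open Pool.Agent.Lib.MP_44a246_ntE
open WithZero Polynomial Module

variable {κ M : Type*} [Field κ] [IsAlgClosed κ] [CharZero κ] [Field M] [Algebra κ M]

omit [IsAlgClosed κ] [CharZero κ] in
/-- the field generated by `X, Y` over `κ` is generated by `Y` over `κ (X)` -/
private theorem e10_gen [Algebra (RatFunc κ) M] [IsScalarTower κ (RatFunc κ) M] {X Y : M}
    (hX : tL κ M = X) (hgen : IntermediateField.adjoin κ {X, Y} = ⊤) :
    IntermediateField.adjoin (RatFunc κ) {Y} = ⊤ := by
  rw [eq_top_iff]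
  intro x _
  have h1 : x ∈ IntermediateField.adjoin κ {X, Y} := by
    rw [hgen]
    exact IntermediateField.mem_top
  have h2 : IntermediateField.adjoin κ {X, Y} ≤
      (IntermediateField.adjoin (RatFunc κ) {Y}).restrictScalars κ := by
    rw [IntermediateField.adjoin_le_iff]
    rintro y (rfl | hy)
    · change _ ∈ IntermediateField.adjoin (RatFunc κ) {Y}
      rw [← hX]
      exact (IntermediateField.adjoin (RatFunc κ) {Y}).algebraMap_mem _
    · change y ∈ IntermediateField.adjoin (RatFunc κ) {Y}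
      exact IntermediateField.subset_adjoin (RatFunc κ) {Y} hy
  exact h2 h1

omit [IsAlgClosed κ] [CharZero κ] in
/-- the value of an element of the span -/
private theorem e10_vmax (v : Place κ M) {n : ℕ} {γ : Fin (n + 1) → M} {x : M}
    (hx : x ∈ Submodule.span κ (Set.range γ)) : v.1 x ≤ vmax v.1 γ := by
  induction hx using Submodule.span_induction with
  | mem x h =>
    obtain ⟨i, rfl⟩ := h
    exact Finset.le_sup (f := fun i => v.1 (γ i)) (Finset.mem_univ i)
  | zero =>
    rw [map_zero]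
    exact zero_le
  | add x y _ _ hx hy => exact (v.1.map_add x y).trans (max_le hx hy)
  | smul c x _ hx =>
    rw [Algebra.smul_def, map_mul]
    rcases eq_or_ne c 0 with h | h
    · rw [h, map_zero, map_zero, zero_mul]
      exact zero_le
    · rw [v.2.2 c h, one_mul]
      exact hx

omit [IsAlgClosed κ] [CharZero κ] in
/-- products of elements of a Riemann-Roch space -/
private theorem e10_pow_le {P : Place κ M →₀ ℤ} {W : Submodule κ M} (hW : W ≤ rr P) (k : ℕ) :
    W ^ k ≤ rr (k • P) := by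
  induction k with
  | zero =>
    rw [pow_zero, Submodule.one_le]
    intro v
    rw [map_one, zero_nsmul, Finsupp.zero_apply, exp_zero]
  | succ k ih =>
    rw [pow_succ, Submodule.mul_le]
    intro a ha b hb v
    have h1 := ih ha v
    have h2 := hW hb v
    rw [map_mul, succ_nsmul, Finsupp.add_apply, exp_add]
    exact mul_le_mul' h1 h2

omit [IsAlgClosed κ] [CharZero κ] in
/-- the dimension of the span of the products of `d` elements -/
theorem finrank_pow_ge' [Algebra (RatFunc κ) M] [IsScalarTower κ (RatFunc κ) M]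
    [FiniteDimensional (RatFunc κ) M] {W : Submodule κ M}
    [FiniteDimensional κ W] (h1 : (1 : M) ∈ W) (hX : tL κ M ∈ W)
    {f : Fin (finrank (RatFunc κ) M) → M} {j : Fin (finrank (RatFunc κ) M) → ℕ}
    (hf : LinearIndependent (RatFunc κ) f) (hfj : ∀ i, f i ∈ W ^ j i) (d : ℕ) :
    finrank (RatFunc κ) M * (d + 1) ≤ finrank κ ↥(W ^ d) + ∑ i, j i := by
  classical
  have hW1 : ∀ k, (1 : M) ∈ W ^ k := by
    intro k
    have h2 := Submodule.pow_mem_pow W h1 k
    rwa [one_pow] at h2
  have hmono : ∀ {a b : ℕ}, a ≤ b → W ^ a ≤ W ^ b := by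
    intro a b hab x hx
    obtain ⟨c, rfl⟩ := Nat.exists_eq_add_of_le hab
    rw [pow_add, ← mul_one x]
    exact Submodule.mul_mem_mul hx (hW1 c)
  have hfd : FiniteDimensional κ ↥(W ^ d) := by
    have h2 : W.FG := Module.Finite.iff_fg.1 inferInstance
    exact Module.Finite.iff_fg.2 (h2.pow d)
  have hli : LinearIndependent κ fun p : ℕ × Fin (finrank (RatFunc κ) M) =>
      (RatFunc.X : RatFunc κ) ^ p.1 • f p.2 := linearIndependent_smul gr4_pow_indep hf
  obtain ⟨τ, hτ⟩ : ∃ τ : (Σ i : Fin (finrank (RatFunc κ) M), Fin (d + 1 - j i)) →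
      ℕ × Fin (finrank (RatFunc κ) M), ∀ q, τ q = ((q.2 : ℕ), q.1) := ⟨_, fun _ => rfl⟩
  have hτi : Function.Injective τ := by
    rintro ⟨i, a⟩ ⟨i', a'⟩ h
    rw [hτ, hτ, Prod.mk.injEq] at h
    obtain ⟨h2, h3⟩ := h
    simp only at h2 h3
    subst h3
    rw [Fin.ext h2]
  have hli2 := hli.comp τ hτi
  have hmem : ∀ q : (Σ i : Fin (finrank (RatFunc κ) M), Fin (d + 1 - j i)),
      ((fun p : ℕ × Fin (finrank (RatFunc κ) M) =>
        (RatFunc.X : RatFunc κ) ^ p.1 • f p.2) ∘ τ) q ∈ W ^ d := by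
    intro q
    rw [Function.comp_apply, hτ]
    have h2 : (q.2 : ℕ) + j q.1 ≤ d := by
      have h3 := q.2.2
      omega
    refine hmono h2 ?_
    have h3 : (RatFunc.X : RatFunc κ) ^ (q.2 : ℕ) • f q.1 = tL κ M ^ (q.2 : ℕ) * f q.1 := by
      rw [Algebra.smul_def, map_pow]
      rfl
    simp only
    rw [h3, pow_add]
    exact Submodule.mul_mem_mul (Submodule.pow_mem_pow W hX _) (hfj _)
  have hli3 : LinearIndependent κ fun q => (⟨_, hmem q⟩ : ↥(W ^ d)) := by
    apply LinearIndependent.of_comp (Submodule.subtype _)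
    exact hli2
  have h2 := hli3.fintype_card_le_finrank
  rw [Fintype.card_sigma] at h2
  simp only [Fintype.card_fin] at h2
  have h3 : finrank (RatFunc κ) M * (d + 1) ≤ ∑ i, (d + 1 - j i) + ∑ i, j i := by
    rw [← Finset.sum_add_distrib]
    have h4 : ∑ _i : Fin (finrank (RatFunc κ) M), (d + 1) = finrank (RatFunc κ) M * (d + 1) := by
      rw [Finset.sum_const, Finset.card_univ, Fintype.card_fin, smul_eq_mul]
    rw [← h4]
    exact Finset.sum_le_sum fun i _ => by omega
  omega

/-- **Parameters and conditions**, for a curve of small degree: `z = (1, X, Y, ...)` are `R + 3`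
elements which span the same space as the `γ j` and generate `M`, `X` has the poles of `γ`;
`m = [M : κ (X)]`, and `m + 2 ≤ 2 genus`. -/
theorem count_ffL (hM : IsFF κ M) {n R : ℕ} {γ : Fin (n + 1) → M} {z : Fin (R + 3) → M}
    (hz : ∀ l, z l ∈ Submodule.span κ (Set.range γ))
    (hγz : ∀ j, γ j ∈ Submodule.span κ (Set.range z)) (h0 : z 0 = 1)
    (hX : Transcendental κ (z 1))
    (hmax : ∀ w : Place κ M, vmax w.1 γ ≤ max 1 (w.1 (z 1)))
    (hgen : IntermediateField.adjoin κ {z 1, z 2} = ⊤) {T : Type*} [Fintype T]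
    {D₀ : T → Derivation ℤ κ κ} {D : T → Derivation ℤ M M}
    (hD : ∀ t, ∀ u : κ, D t (algebraMap κ M u) = algebraMap κ M (D₀ t u))
    (hDX : ∀ t, D t (z 1) = 0) (hg : height κ ![1, z 1] + 2 ≤ 2 * (genus κ M : ℤ))
    :
    ∃ (S : Submodule κ (T → κ)) (m p J : ℕ), height κ ![1, z 1] = m ∧ 1 ≤ m ∧
      2 * J = m * (m - 1) ∧
      Fintype.card T ≤ finrank κ S + p ∧ (∀ c ∈ S, ∀ l, Dc D c (z l) = 0) ∧
      (∀ d, m * (d + 1) ≤ finrank κ ↥(Submodule.span κ (Set.range γ) ^ d) + J) ∧
      2 * p ≤ R * (m + 2) + 2 * m + 4 * J + 2 := by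
  classical
  refine with_sep hM hX ?_
  intro iA t1 iR t2 iI t3 fd hXf
  have htower : IsScalarTower κ (RatFunc κ) M := tower_ratFunc
  have htL : tL κ M = z 1 := by rw [tL_eq, hXf]
  have hmm : (finrank (RatFunc κ) M : ℤ) = height κ ![1, z 1] := by
    rw [finrank_eq_height κ M, htL]
  obtain ⟨P, hP⟩ := exists_pole κ M
  have hzP : ∀ l, z l ∈ rr P := by
    intro l v
    have h1 : v.1 (z l) ≤ vmax v.1 γ := e10_vmax v (hz l)
    refine (h1.trans (hmax v)).trans (max_le ?_ ?_)
    · rw [← exp_zero, exp_le_exp]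
      exact hP.nonneg v
    · refine le_exp_log.trans ?_
      rw [exp_le_exp, hP v, htL]
      exact le_max_right _ _
  have hgen' := e10_gen htL hgen
  obtain ⟨W, hW⟩ : ∃ W : Submodule κ M, W = Submodule.span κ (Set.range z) := ⟨_, rfl⟩
  have hzW : ∀ l, z l ∈ W := fun l => by
    rw [hW]
    exact Submodule.subset_span ⟨l, rfl⟩
  have hWP : W ≤ rr P := by
    rw [hW, Submodule.span_le]
    rintro _ ⟨l, rfl⟩
    exact hzP l
  have hWγ : W = Submodule.span κ (Set.range γ) := by
    refine le_antisymm ?_ ?_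
    · rw [hW, Submodule.span_le]
      rintro _ ⟨l, rfl⟩
      exact hz l
    · rw [hW, Submodule.span_le]
      rintro _ ⟨l, rfl⟩
      exact hγz l
  have hWf : FiniteDimensional κ W := by
    rw [hW]
    exact FiniteDimensional.span_of_finite _ (Set.finite_range z)
  have h1W : (1 : M) ∈ W := h0 ▸ hzW 0
  have htW : tL κ M ∈ W := by
    rw [htL]
    exact hzW 1
  obtain ⟨s, hs⟩ : ∃ s, finrank κ W = s + 1 := by
    refine ⟨finrank κ W - 1, ?_⟩
    have h2 : 0 < finrank κ W := by
      rw [Module.finrank_pos_iff_exists_ne_zero]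
      refine ⟨⟨1, h1W⟩, fun h => ?_⟩
      exact one_ne_zero (congrArg Subtype.val h)
    omega
  have hg' : finrank (RatFunc κ) M + 2 ≤ 2 * genus κ M := by
    have h1 : (finrank (RatFunc κ) M : ℤ) + 2 ≤ 2 * (genus κ M : ℤ) := by rw [hmm]; exact hg
    exact_mod_cast h1
  have hcl := clifford hP (hzW 2 |> fun h => hWP h) hgen' hg'
  have hfinP : FiniteDimensional κ (rr P) := finite_rr hM P
  have hsB : s + 1 ≤ finrank κ (rr P) := by
    rw [← hs]
    exact Submodule.finrank_mono hWP
  have hm0 : 0 < finrank (RatFunc κ) M := Module.finrank_pos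
  -- the powers of `Y`
  have hint : IsIntegral (RatFunc κ) (z 2) := Algebra.IsIntegral.isIntegral (z 2)
  have hdeg : (minpoly (RatFunc κ) (z 2)).natDegree = finrank (RatFunc κ) M := by
    rw [← IntermediateField.adjoin.finrank hint, hgen', IntermediateField.finrank_top']
  have hf := linearIndependent_pow (K := RatFunc κ) (z 2)
  rw [hdeg] at hf
  obtain ⟨J, hJ⟩ : ∃ J : ℕ, J = ∑ l : Fin (finrank (RatFunc κ) M), (l : ℕ) := ⟨_, rfl⟩
  have hJ2 : 2 * J = finrank (RatFunc κ) M * (finrank (RatFunc κ) M - 1) := by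
    rw [hJ, Fin.sum_univ_eq_sum_range (fun i => i), mul_comm, Finset.sum_range_id_mul_two]
  have hfj : ∀ l : Fin (finrank (RatFunc κ) M), z 2 ^ (l : ℕ) ∈ W ^ (l : ℕ) := fun l =>
    Submodule.pow_mem_pow W (hzW 2) _
  have hJz : ∑ l : Fin (finrank (RatFunc κ) M), ((l : ℕ) : ℤ) = J := by
    rw [hJ]
    push_cast
    rfl
  have hgb := genus_le_basis hP hf (fun l => e10_pow_le hWP (l : ℕ) (hfj l))
  rw [hJz] at hgb
  have hm2 : 2 ≤ finrank (RatFunc κ) M := by
    by_contra hcon
    have h1 : finrank (RatFunc κ) M = 1 := by omega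
    rw [h1] at hJ2 hgb hg'
    omega
  obtain ⟨S, p, hp1, hp2, hs2, hsR, hp3⟩ := exists_killB hP h0 hXf.symm hzP hgen'
    (by rw [← hW, hs]) hD (fun t => by rw [hXf]; exact hDX t) hm2
  have hram := ramDeg_le_basis hP hf (fun l => e10_pow_le hWP (l : ℕ) (hfj l))
  rw [hJz] at hram
  have hram' : ramDeg κ M (RatFunc κ) ≤ 2 * J := by exact_mod_cast hram
  refine ⟨S, finrank (RatFunc κ) M, p, J, hmm.symm, hm0, hJ2, hp1, hp2, ?_, ?_⟩
  · intro d
    have h2 := finrank_pow_ge' h1W htW (j := fun l => (l : ℕ)) hf hfj d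
    rw [hWγ] at h2
    rw [hJ]
    exact h2
  · set m := finrank (RatFunc κ) M with hm
    set B := finrank κ (rr P) with hB
    obtain ⟨u, hu⟩ : ∃ u, R + 2 = s + u := ⟨R + 2 - s, by omega⟩
    obtain ⟨v, hv⟩ : ∃ v, s = v + 2 := ⟨s - 2, by omega⟩
    have e1 : R + 2 - s = u := by omega
    have e2 : s - 2 = v := by omega
    rw [e1, e2] at hp3
    have e3 : R = u + v := by omega
    have h4 : u * (s + 1) ≤ u * B := Nat.mul_le_mul_left _ hsB
    have h5 : R * (2 * B) ≤ R * (m + 2) := Nat.mul_le_mul_left _ hcl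
    have h6 : R * (2 * B) = 2 * (u * B) + 2 * (v * B) := by rw [e3]; ring
    omega

end Pool.Agent.Lib.MP_44a246_ntSH
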