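import Mathlib
import Pool.Agent.Lib.MP_44a246_ntE.E10
import Pool.Agent.Lib.MP_44a246_ntSH.CV03
import Pool.Agent.Lib.MP_44a246_ntSH.CV04
import Pool.Agent.Lib.MP_44a246_ntSH.CW02

/-!
# Sharp pairs: the count, a curve with many functions (paper 667, section 5)

`W` is the span of the coordinates of a curve `γ` of degree `m` in a projective space of dimension
`R + 2`, `B` the dimension of the Riemann-Roch space `L (P)` of the poles of `X`. If the forms of
degrees `d j`, whose derivations kill `γ`, give a space of functions on the curve of dimension at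
most `r₁ ≤ 3 m`, and `∑ (d j + 1) ≥ R + 4 + p` (`p` the number of forms), then
`B ≥ m - C`; so the genus is at most `C + 1` and the ramification at most `2 m + 2 C`.
-/

namespace Pool.Agent.Lib.MP_44a246_ntSH

open Pool.Agent.Lib.MP_e52354_nt
open Pool.Agent.Lib.MP_44a246_nt
open Pool.Agent.Lib.MP_44a246_ntL
open Pool.Agent.Lib.MP_44a246_ntR
open Pool.Agent.Lib.MP_44a246_ntS
open Pool.Agent.Lib.MP_44a246_ntE
open WithZero Polynomial Module

section Genus

variable {κ L : Type*} [Field κ] [IsAlgClosed κ] [CharZero κ] [Field L] [Algebra κ L]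
  [Algebra (RatFunc κ) L] [IsScalarTower κ (RatFunc κ) L] [FiniteDimensional (RatFunc κ) L]

omit [IsAlgClosed κ] [CharZero κ] [Algebra (RatFunc κ) L] [IsScalarTower κ (RatFunc κ) L]
  [FiniteDimensional (RatFunc κ) L] in
/-- powers of a Riemann-Roch space -/
private theorem cb_pow {P : Place κ L →₀ ℤ} (k : ℕ) : rr P ^ k ≤ rr (k • P) := by
  induction k with
  | zero =>
    rw [pow_zero, Submodule.one_le]
    intro v
    rw [map_one, zero_nsmul, Finsupp.zero_apply, exp_zero]
  | succ k ih =>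
    rw [pow_succ, Submodule.mul_le]
    intro a ha b hb v
    have h1 := ih ha v
    have h2 := hb v
    rw [map_mul, succ_nsmul, Finsupp.add_apply, exp_add]
    exact mul_le_mul' h1 h2

/-- **(5.2)** An adapted basis of functions, if there are more than `m / 2 + 1` functions with the
poles of `X`; the genus and the ramification. -/
theorem exists_adapted_rr {P : Place κ L →₀ ℤ} (hP : IsPole P) {Y : L} (hY : Y ∈ rr P)
    (hgen : IntermediateField.adjoin (RatFunc κ) {Y} = ⊤)
    (hB : finrank (RatFunc κ) L + 2 < 2 * finrank κ (rr P)) :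
    (∃ (f : Fin (finrank (RatFunc κ) L) → L) (j : Fin (finrank (RatFunc κ) L) → ℕ),
      LinearIndependent (RatFunc κ) f ∧ (∀ i, f i ∈ rr (j i • P)) ∧
      ∑ i, j i + finrank κ (rr P) ≤ 2 * finrank (RatFunc κ) L) ∧
    genus κ L + finrank κ (rr P) ≤ finrank (RatFunc κ) L + 1 ∧
    ramDeg κ L (RatFunc κ) + 2 * finrank κ (rr P) ≤ 4 * finrank (RatFunc κ) L := by
  have hF : IsFF κ L := isFF_of_ratFunc κ L
  have hfd : FiniteDimensional κ (rr P) := finite_rr hF P
  have h1 : (1 : L) ∈ rr P := by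
    intro v
    rw [map_one, ← exp_zero, exp_le_exp]
    exact hP.nonneg v
  have hX : tL κ L ∈ rr P := by
    intro v
    apply gr4_le_exp
    intro _
    rw [hP v]
    exact le_max_right _ _
  have hpos : 0 < finrank κ (rr P) := by
    have : Nontrivial (rr P) := ⟨⟨⟨1, h1⟩, 0, fun h => one_ne_zero (congrArg Subtype.val h)⟩⟩
    exact finrank_pos
  obtain ⟨s, hs⟩ : ∃ s, finrank κ (rr P) = s + 1 := ⟨finrank κ (rr P) - 1, by omega⟩
  obtain ⟨f, j, hf, hfj, -, hcase⟩ := exists_adapted hP h1 hX hY le_rfl hgen hs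
  rcases hcase with ⟨h2, -⟩ | ⟨h2, h3, h4⟩
  · omega
  · have h6 : (∑ i, (j i : ℤ)) = ((∑ i, j i : ℕ) : ℤ) := by push_cast; rfl
    have h5 := genus_le_basis hP hf (fun i => cb_pow (j i) (hfj i))
    have h7 := ramDeg_le_basis hP hf (fun i => cb_pow (j i) (hfj i))
    rw [h6] at h5 h7
    refine ⟨⟨f, j, hf, fun i => cb_pow (j i) (hfj i), by omega⟩, by omega, by omega⟩

end Genus

section Count

variable {κ M : Type*} [Field κ] [IsAlgClosed κ] [CharZero κ] [Field M] [Algebra κ M]

/-- the combinations of the derivations which kill the elements `z l` -/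
def killS (κ : Type*) {M T ι : Type*} [Field κ] [Field M] [Algebra κ M] [Fintype T]
    (D : T → Derivation ℤ M M) (z : ι → M) : Submodule κ (T → κ) where
  carrier := {c | ∀ l, Dc D c (z l) = 0}
  add_mem' := by
    intro a b ha hb l
    have h1 := ha l
    have h2 := hb l
    rw [Dc_apply] at h1 h2 ⊢
    have h3 : ∑ t, algebraMap κ M ((a + b) t) * D t (z l) =
        ∑ t, algebraMap κ M (a t) * D t (z l) + ∑ t, algebraMap κ M (b t) * D t (z l) := by
      rw [← Finset.sum_add_distrib]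
      refine Finset.sum_congr rfl fun t _ => ?_
      rw [Pi.add_apply, map_add]
      ring
    rw [h3, h1, h2, add_zero]
  zero_mem' := by
    intro l
    rw [Dc_apply]
    refine Finset.sum_eq_zero fun t _ => ?_
    rw [Pi.zero_apply, map_zero, zero_mul]
  smul_mem' := by
    intro r a ha l
    have h1 := ha l
    rw [Dc_apply] at h1 ⊢
    have h3 : ∑ t, algebraMap κ M ((r • a) t) * D t (z l) =
        algebraMap κ M r * ∑ t, algebraMap κ M (a t) * D t (z l) := by
      rw [Finset.mul_sum]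
      refine Finset.sum_congr rfl fun t _ => ?_
      rw [Pi.smul_apply, smul_eq_mul, map_mul, mul_assoc]
    rw [h3, h1, mul_zero]

theorem mem_killS {κ M T ι : Type*} [Field κ] [Field M] [Algebra κ M] [Fintype T]
    {D : T → Derivation ℤ M M} {z : ι → M} {c : T → κ} :
    c ∈ killS κ D z ↔ ∀ l, Dc D c (z l) = 0 := Iff.rfl

omit [IsAlgClosed κ] [CharZero κ] in
/-- the field generated by `X, Y` over `κ` is generated by `Y` over `κ (X)` -/
private theorem cb_gen [Algebra (RatFunc κ) M] [IsScalarTower κ (RatFunc κ) M] {X Y : M}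
    (hX : tL κ M = X) (hgen : IntermediateField.adjoin κ {X, Y} = ⊤) :
    IntermediateField.adjoin (RatFunc κ) {Y} = ⊤ := by
  rw [eq_top_iff]
  intro x _
  have h1 : x ∈ IntermediateField.adjoin κ {X, Y} := by
    rw [hgen]
    exact IntermediateField.mem_top
  have h2 : IntermediateField.adjoin κ {X, Y} ≤
      (IntermediateField.adjoin (RatFunc κ) {Y}).restrictScalars κ := by
    rw [IntermediateField.adjoin_le_iff]
    rintro y (rfl | hy)
    · change _ ∈ IntermediateField.adjoin (RatFunc κ) {Y}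
      rw [← hX]
      exact (IntermediateField.adjoin (RatFunc κ) {Y}).algebraMap_mem _
    · change y ∈ IntermediateField.adjoin (RatFunc κ) {Y}
      exact IntermediateField.subset_adjoin (RatFunc κ) {Y} hy
  exact h2 h1

omit [IsAlgClosed κ] [CharZero κ] in
/-- the value of an element of the span -/
private theorem cb_vmax (v : Place κ M) {n : ℕ} {γ : Fin (n + 1) → M} {x : M}
    (hx : x ∈ Submodule.span κ (Set.range γ)) : v.1 x ≤ vmax v.1 γ := by
  induction hx using Submodule.span_induction with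
  | mem x h =>
    obtain ⟨i, rfl⟩ := h
    exact Finset.le_sup (f := fun i => v.1 (γ i)) (Finset.mem_univ i)
  | zero =>
    rw [map_zero]
    exact zero_le
  | add x y _ _ hx hy => exact (v.1.map_add x y).trans (max_le hx hy)
  | smul c x _ hx =>
    rw [Algebra.smul_def, map_mul]
    rcases eq_or_ne c 0 with h | h
    · rw [h, map_zero, map_zero, zero_mul]
      exact zero_le
    · rw [v.2.2 c h, one_mul]
      exact hx

omit [IsAlgClosed κ] [CharZero κ] in
/-- products of elements of a Riemann-Roch space -/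
private theorem cb_pow_le {P : Place κ M →₀ ℤ} {W : Submodule κ M} (hW : W ≤ rr P) (k : ℕ) :
    W ^ k ≤ rr (k • P) := by
  induction k with
  | zero =>
    rw [pow_zero, Submodule.one_le]
    intro v
    rw [map_one, zero_nsmul, Finsupp.zero_apply, exp_zero]
  | succ k ih =>
    rw [pow_succ, Submodule.mul_le]
    intro a ha b hb v
    have h1 := ih ha v
    have h2 := hW hb v
    rw [map_mul, succ_nsmul, Finsupp.add_apply, exp_add]
    exact mul_le_mul' h1 h2

/-- the arithmetic of (5.1) -/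
theorem num_51 {m B R p q e r₁ C u a b S : ℕ} (hm : 1 ≤ m) (hp1 : 1 ≤ q) (he : 1 ≤ e)
    (hS : m * S ≤ a + q * (e * m)) (hd : R + 4 + q ≤ S) (h1 : a ≤ p + r₁) (hr : r₁ ≤ 3 * m)
    (hpp : p ≤ R * B + (m + u + 1)) (hu : u ≤ 2 * (e * m)) (hb : m ≤ b)
    (hC : (q + 2) * e * b ≤ C * R) : m ≤ B + C := by
  by_contra hcon
  have hcon' : B + C + 1 ≤ m := by omega
  have h2 : m * (R + 4 + q) ≤ m * S := Nat.mul_le_mul_left m hd
  have h3 : (q + 2) * e * m ≤ (q + 2) * e * b := Nat.mul_le_mul_left _ hb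
  have h4 : m * (R + 4 + q) ≤ R * B + 4 * m + 1 + (q + 2) * e * m := by
    have h5 : (q + 2) * e * m = q * (e * m) + 2 * (e * m) := by ring
    rw [h5]
    omega
  have h6 : R * (B + C + 1) ≤ R * m := Nat.mul_le_mul_left R hcon'
  have h7 : m * (R + 4 + q) = R * m + 4 * m + q * m := by ring
  have h8 : m ≤ q * m := Nat.le_mul_of_pos_left m hp1
  have h9 : R * (B + C + 1) = R * B + C * R + R := by ring
  have hR : R = 0 := by omega
  subst hR
  rw [Nat.mul_zero] at hC
  have h10 : 1 ≤ (q + 2) * e * b :=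
    Nat.mul_pos (Nat.mul_pos (by omega) he) (by omega)
  omega

/-- **(5.1)**. -/
theorem le_rr_of_count (hM : IsFF κ M) {n R : ℕ} {γ : Fin (n + 1) → M} {z : Fin (R + 3) → M}
    (hz : ∀ l, z l ∈ Submodule.span κ (Set.range γ))
    (hγz : ∀ j, γ j ∈ Submodule.span κ (Set.range z)) (h0 : z 0 = 1)
    (hX : Transcendental κ (z 1))
    (hmax : ∀ w : Place κ M, vmax w.1 γ ≤ max 1 (w.1 (z 1)))
    (hgen : IntermediateField.adjoin κ {z 1, z 2} = ⊤) {T : Type*} [Fintype T]
    {D₀ : T → Derivation ℤ κ κ} {D : T → Derivation ℤ M M}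
    (hD : ∀ t, ∀ u : κ, D t (algebraMap κ M u) = algebraMap κ M (D₀ t u))
    (hDX : ∀ t, D t (z 1) = 0)
    {N i b' : ℕ} (hN : N + 1 ≤ finrank κ (Submodule.span κ (Set.range γ)))
    (hb : height κ ![1, z 1] ≤ b') (hi : 2 ^ i * b' ≤ 3 ^ i * N)
    {ι : Type*} [Fintype ι] {d : ι → ℕ} (hd : R + 4 + Fintype.card ι ≤ ∑ j, (d j + 1))
    {r₁ C : ℕ}
    (hsum : ∑ j, finrank κ ↥(Submodule.span κ (Set.range γ) ^ d j) + finrank κ (killS κ D z) ≤
      Fintype.card T + r₁)
    (hr : (r₁ : ℤ) ≤ 3 * height κ ![1, z 1])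
    (hC : (Fintype.card ι + 2) * 2 ^ i * b' ≤ C * R) :
    ∃ P : Place κ M →₀ ℤ, (∀ w : Place κ M, P w = max 0 (log (w.1 (z 1)))) ∧
      height κ ![1, z 1] ≤ finrank κ (rr P) + C ∧ (N : ℤ) ≤ height κ ![1, z 1] ∧
      (2 * C + 2 < N → genus κ M ≤ C + 1) := by
  classical
  refine with_sep hM hX ?_
  intro iA t1 iR t2 iI t3 fd hXf
  have htower : IsScalarTower κ (RatFunc κ) M := tower_ratFunc
  have htL : tL κ M = z 1 := by rw [tL_eq, hXf]
  have hmm : (finrank (RatFunc κ) M : ℤ) = height κ ![1, z 1] := by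
    rw [finrank_eq_height κ M, htL]
  obtain ⟨P, hP⟩ := exists_pole κ M
  have hzP : ∀ l, z l ∈ rr P := by
    intro l v
    have h1 : v.1 (z l) ≤ vmax v.1 γ := cb_vmax v (hz l)
    refine (h1.trans (hmax v)).trans (max_le ?_ ?_)
    · rw [← exp_zero, exp_le_exp]
      exact hP.nonneg v
    · refine le_exp_log.trans ?_
      rw [exp_le_exp, hP v, htL]
      exact le_max_right _ _
  have hgen' := cb_gen htL hgen
  obtain ⟨W, hW⟩ : ∃ W : Submodule κ M, W = Submodule.span κ (Set.range z) := ⟨_, rfl⟩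
  have hzW : ∀ l, z l ∈ W := fun l => by
    rw [hW]
    exact Submodule.subset_span ⟨l, rfl⟩
  have hWP : W ≤ rr P := by
    rw [hW, Submodule.span_le]
    rintro _ ⟨l, rfl⟩
    exact hzP l
  have hWγ : W = Submodule.span κ (Set.range γ) := by
    refine le_antisymm ?_ ?_
    · rw [hW, Submodule.span_le]
      rintro _ ⟨l, rfl⟩
      exact hz l
    · rw [hW, Submodule.span_le]
      rintro _ ⟨l, rfl⟩
      exact hγz l
  have hWf : FiniteDimensional κ W := by
    rw [hW]
    exact FiniteDimensional.span_of_finite _ (Set.finite_range z)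
  have h1W : (1 : M) ∈ W := h0 ▸ hzW 0
  have htW : tL κ M ∈ W := by
    rw [htL]
    exact hzW 1
  obtain ⟨s, hs⟩ : ∃ s, finrank κ W = s + 1 := by
    refine ⟨finrank κ W - 1, ?_⟩
    have h2 : 0 < finrank κ W := by
      rw [Module.finrank_pos_iff_exists_ne_zero]
      refine ⟨⟨1, h1W⟩, fun h => ?_⟩
      exact one_ne_zero (congrArg Subtype.val h)
    omega
  have hNs : N ≤ s := by
    rw [← hWγ, hs] at hN
    omega
  have hfinP : FiniteDimensional κ (rr P) := finite_rr hM P
  have hsB : s + 1 ≤ finrank κ (rr P) := by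
    rw [← hs]
    exact Submodule.finrank_mono hWP
  have hmb : finrank (RatFunc κ) M ≤ b' := by
    have h1 : (finrank (RatFunc κ) M : ℤ) ≤ b' := by rw [hmm]; exact hb
    exact_mod_cast h1
  have hi' : 2 ^ i * finrank (RatFunc κ) M ≤ 3 ^ i * s :=
    (Nat.mul_le_mul_left _ hmb).trans (hi.trans (Nat.mul_le_mul_left _ hNs))
  have hm0 : 0 < finrank (RatFunc κ) M := Module.finrank_pos
  have hsm : s ≤ finrank (RatFunc κ) M := by
    obtain ⟨f, j, -, -, -, h⟩ := exists_adapted hP h1W htW (hzW 2) hWP hgen' hs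
    omega
  -- the case of degree one
  have hr' : r₁ ≤ 3 * finrank (RatFunc κ) M := by
    have h1 : (r₁ : ℤ) ≤ 3 * (finrank (RatFunc κ) M : ℤ) := by rw [hmm]; exact hr
    exact_mod_cast h1
  have hq1 : 1 ≤ Fintype.card ι := by
    by_contra hcon
    have h1 : Fintype.card ι = 0 := by omega
    have h2 := Fintype.card_eq_zero_iff.1 h1
    rw [Finset.univ_eq_empty, Finset.sum_empty] at hd
    omega
  obtain ⟨f, hf, hfj⟩ := exists_adapted_growth hP h1W htW (hzW 2) hWP hgen' hs hi'
  have hram := ramDeg_le_basis hP hf (fun l => cb_pow_le hWP (2 ^ i) (hfj l))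
  have hram' : ramDeg κ M (RatFunc κ) ≤ 2 * (2 ^ i * finrank (RatFunc κ) M) := by
    rw [Finset.sum_const, Finset.card_univ, Fintype.card_fin, nsmul_eq_mul] at hram
    have h1 : (ramDeg κ M (RatFunc κ) : ℤ) ≤
        ((2 * (2 ^ i * finrank (RatFunc κ) M) : ℕ) : ℤ) := by
      push_cast
      push_cast at hram
      linarith
    exact_mod_cast h1
  have hgrow : ∀ e, finrank (RatFunc κ) M * (e + 1) ≤
      finrank κ ↥(Submodule.span κ (Set.range γ) ^ e) + 2 ^ i * finrank (RatFunc κ) M := by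
    intro e
    have h2 := finrank_pow_ge' h1W htW (j := fun _ => 2 ^ i) hf hfj e
    rw [Finset.sum_const, Finset.card_univ, Fintype.card_fin, smul_eq_mul, hWγ] at h2
    rw [mul_comm (2 ^ i) (finrank (RatFunc κ) M)]
    exact h2
  have hS : finrank (RatFunc κ) M * ∑ j, (d j + 1) ≤
      ∑ j, finrank κ ↥(Submodule.span κ (Set.range γ) ^ d j) +
        Fintype.card ι * (2 ^ i * finrank (RatFunc κ) M) := by
    rw [Finset.mul_sum]
    refine (Finset.sum_le_sum fun j _ => hgrow (d j)).trans (le_of_eq ?_)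
    rw [Finset.sum_add_distrib, Finset.sum_const, Finset.card_univ, smul_eq_mul]
  have key : finrank (RatFunc κ) M ≤ finrank κ (rr P) + C := by
    rcases Nat.lt_or_ge (finrank (RatFunc κ) M) 2 with hm1 | hm2
    · omega
    · obtain ⟨S, p, hp1, hp2, hs2, hsR, hp3⟩ := exists_killB hP h0 hXf.symm hzP hgen'
        (by rw [← hW, hs]) hD (fun t => by rw [hXf]; exact hDX t) hm2
      have hSle : finrank κ S ≤ finrank κ (killS κ D z) :=
        Submodule.finrank_mono fun c hc => mem_killS.2 (hp2 c hc)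
      set m := finrank (RatFunc κ) M with hm
      set B := finrank κ (rr P) with hB
      obtain ⟨u, hu⟩ : ∃ u, R + 2 = s + u := ⟨R + 2 - s, by omega⟩
      obtain ⟨v, hv⟩ : ∃ v, s = v + 2 := ⟨s - 2, by omega⟩
      have e1 : R + 2 - s = u := by omega
      have e2 : s - 2 = v := by omega
      rw [e1, e2] at hp3
      have e3 : R = u + v := by omega
      have h4 : u * (s + 1) ≤ u * B := Nat.mul_le_mul_left _ hsB
      have h6 : R * B = u * B + v * B := by rw [e3]; ring
      refine num_51 (p := p) (u := ramDeg κ M (RatFunc κ)) (e := 2 ^ i) (by omega) hq1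
        Nat.one_le_two_pow hS hd
        (by omega) hr' (by omega) hram' hmb hC
  refine ⟨P, fun w => by rw [hP w, htL], ?_, ?_, ?_⟩
  · rw [← hmm]
    exact_mod_cast key
  · rw [← hmm]
    exact_mod_cast hNs.trans hsm
  · intro h2C
    have h1 := (exists_adapted_rr hP (hzP 2) hgen' (by omega)).2.1
    omega

/-- **The codimension of the space of deformations which do not move the curve** (`w ≤ P` of
section 2). -/
theorem card_le_killS (hM : IsFF κ M) {n R : ℕ} {γ : Fin (n + 1) → M} {z : Fin (R + 3) → M}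
    (hz : ∀ l, z l ∈ Submodule.span κ (Set.range γ))
    (hγz : ∀ j, γ j ∈ Submodule.span κ (Set.range z)) (h0 : z 0 = 1)
    (hX : Transcendental κ (z 1))
    (hmax : ∀ w : Place κ M, vmax w.1 γ ≤ max 1 (w.1 (z 1)))
    (hgen : IntermediateField.adjoin κ {z 1, z 2} = ⊤) {T : Type*} [Fintype T]
    {D₀ : T → Derivation ℤ κ κ} {D : T → Derivation ℤ M M}
    (hD : ∀ t, ∀ u : κ, D t (algebraMap κ M u) = algebraMap κ M (D₀ t u))
    (hDX : ∀ t, D t (z 1) = 0)
    {N i b' : ℕ} (hN : N + 1 ≤ finrank κ (Submodule.span κ (Set.range γ)))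
    (hb : height κ ![1, z 1] ≤ b') (hi : 2 ^ i * b' ≤ 3 ^ i * N) (hN2 : 2 ≤ N) :
    ∃ m : ℕ, height κ ![1, z 1] = m ∧ N ≤ m ∧
      Fintype.card T ≤ finrank κ (killS κ D z) + (R * (m + 1) + (m + 2 * (2 ^ i * m) + 1)) := by
  classical
  refine with_sep hM hX ?_
  intro iA t1 iR t2 iI t3 fd hXf
  have htower : IsScalarTower κ (RatFunc κ) M := tower_ratFunc
  have htL : tL κ M = z 1 := by rw [tL_eq, hXf]
  have hmm : (finrank (RatFunc κ) M : ℤ) = height κ ![1, z 1] := by
    rw [finrank_eq_height κ M, htL]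
  obtain ⟨P, hP⟩ := exists_pole κ M
  have hzP : ∀ l, z l ∈ rr P := by
    intro l v
    have h1 : v.1 (z l) ≤ vmax v.1 γ := cb_vmax v (hz l)
    refine (h1.trans (hmax v)).trans (max_le ?_ ?_)
    · rw [← exp_zero, exp_le_exp]
      exact hP.nonneg v
    · refine le_exp_log.trans ?_
      rw [exp_le_exp, hP v, htL]
      exact le_max_right _ _
  have hgen' := cb_gen htL hgen
  obtain ⟨W, hW⟩ : ∃ W : Submodule κ M, W = Submodule.span κ (Set.range z) := ⟨_, rfl⟩
  have hzW : ∀ l, z l ∈ W := fun l => by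
    rw [hW]
    exact Submodule.subset_span ⟨l, rfl⟩
  have hWP : W ≤ rr P := by
    rw [hW, Submodule.span_le]
    rintro _ ⟨l, rfl⟩
    exact hzP l
  have hWγ : W = Submodule.span κ (Set.range γ) := by
    refine le_antisymm ?_ ?_
    · rw [hW, Submodule.span_le]
      rintro _ ⟨l, rfl⟩
      exact hz l
    · rw [hW, Submodule.span_le]
      rintro _ ⟨l, rfl⟩
      exact hγz l
  have hWf : FiniteDimensional κ W := by
    rw [hW]
    exact FiniteDimensional.span_of_finite _ (Set.finite_range z)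
  have h1W : (1 : M) ∈ W := h0 ▸ hzW 0
  have htW : tL κ M ∈ W := by
    rw [htL]
    exact hzW 1
  obtain ⟨s, hs⟩ : ∃ s, finrank κ W = s + 1 := by
    refine ⟨finrank κ W - 1, ?_⟩
    have h2 : 0 < finrank κ W := by
      rw [Module.finrank_pos_iff_exists_ne_zero]
      refine ⟨⟨1, h1W⟩, fun h => ?_⟩
      exact one_ne_zero (congrArg Subtype.val h)
    omega
  have hNs : N ≤ s := by
    rw [← hWγ, hs] at hN
    omega
  have hfinP : FiniteDimensional κ (rr P) := finite_rr hM P
  have hsB : s + 1 ≤ finrank κ (rr P) := by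
    rw [← hs]
    exact Submodule.finrank_mono hWP
  have hmb : finrank (RatFunc κ) M ≤ b' := by
    have h1 : (finrank (RatFunc κ) M : ℤ) ≤ b' := by rw [hmm]; exact hb
    exact_mod_cast h1
  have hi' : 2 ^ i * finrank (RatFunc κ) M ≤ 3 ^ i * s :=
    (Nat.mul_le_mul_left _ hmb).trans (hi.trans (Nat.mul_le_mul_left _ hNs))
  have hsm : s ≤ finrank (RatFunc κ) M := by
    obtain ⟨f, j, -, -, -, h⟩ := exists_adapted hP h1W htW (hzW 2) hWP hgen' hs
    omega
  have hBm : finrank κ (rr P) ≤ finrank (RatFunc κ) M + 1 := by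
    obtain ⟨B', hB'⟩ : ∃ B', finrank κ (rr P) = B' + 1 := ⟨finrank κ (rr P) - 1, by omega⟩
    obtain ⟨f, j, -, -, -, h⟩ := exists_adapted hP (hWP h1W) (hWP htW) (hzP 2) le_rfl hgen' hB'
    omega
  obtain ⟨f, hf, hfj⟩ := exists_adapted_growth hP h1W htW (hzW 2) hWP hgen' hs hi'
  have hram := ramDeg_le_basis hP hf (fun l => cb_pow_le hWP (2 ^ i) (hfj l))
  have hram' : ramDeg κ M (RatFunc κ) ≤ 2 * (2 ^ i * finrank (RatFunc κ) M) := by
    rw [Finset.sum_const, Finset.card_univ, Fintype.card_fin, nsmul_eq_mul] at hram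
    have h1 : (ramDeg κ M (RatFunc κ) : ℤ) ≤
        ((2 * (2 ^ i * finrank (RatFunc κ) M) : ℕ) : ℤ) := by
      push_cast
      push_cast at hram
      linarith
    exact_mod_cast h1
  obtain ⟨S, p, hp1, hp2, hs2, hsR, hp3⟩ := exists_killB hP h0 hXf.symm hzP hgen'
    (by rw [← hW, hs]) hD (fun t => by rw [hXf]; exact hDX t) (by omega)
  have hSle : finrank κ S ≤ finrank κ (killS κ D z) :=
    Submodule.finrank_mono fun c hc => mem_killS.2 (hp2 c hc)
  refine ⟨finrank (RatFunc κ) M, hmm.symm, by omega, ?_⟩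
  set m := finrank (RatFunc κ) M with hm
  set B := finrank κ (rr P) with hB
  obtain ⟨u, hu⟩ : ∃ u, R + 2 = s + u := ⟨R + 2 - s, by omega⟩
  obtain ⟨v, hv⟩ : ∃ v, s = v + 2 := ⟨s - 2, by omega⟩
  have e1 : R + 2 - s = u := by omega
  have e2 : s - 2 = v := by omega
  rw [e1, e2] at hp3
  have e3 : R = u + v := by omega
  have h4 : u * (s + 1) ≤ u * B := Nat.mul_le_mul_left _ hsB
  have h6 : R * B = u * B + v * B := by rw [e3]; ring
  have h7 : R * B ≤ R * (m + 1) := Nat.mul_le_mul_left _ hBm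
  omega

end Count

end Pool.Agent.Lib.MP_44a246_ntSH
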