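import Mathlib
import Pool.Agent.Lib.MP_44a246_ntE.E20
import Pool.Agent.Lib.MP_44a246_ntE.E30

/-!
Certificates for the points of a hypersurface which spans a large space (paper 619, (A9)).
-/

namespace Pool.Agent.Lib.MP_44a246_ntSH

open Pool.Agent.Lib.MP_e52354_nt
open Pool.Agent.Lib.MP_44a246_ntS
open Pool.Agent.Lib.MP_44a246_ntG
open Pool.Agent.Lib.MP_44a246_ntU
open Pool.Agent.Lib.MP_44a246_ntE
open Polynomial

/-- A certificate, see `CertV`, `CertW`, for the form of degree `d` with the coefficients `a`, such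
that moreover the curve `A` is irreducible and `N` of the coordinates are independent on it. -/
def CertS {L : Type*} [Field L] {n : ℕ} (d : ℕ) (a : (Fin (n + 1) →₀ ℕ) → L) (b N : ℕ)
    (x : Fin (n + 1) → L) : Prop :=
  ∃ (A : L[X][X]) (B : Fin (n + 1) → L[X][X]) (ξ₀ ξ₁ ξ₂ : Fin (n + 1) → L) (c y₁ y : L),
    Irreducible A ∧
    Box b A ∧ (∀ j, Box b (B j)) ∧ c ≠ 0 ∧
    ∑ j, ξ₀ j * (c * x j) = 1 ∧ ∑ j, ξ₁ j * (c * x j) = y₁ ∧ ∑ j, ξ₂ j * (c * x j) = y ∧
    A.evalEval y₁ y = 0 ∧ (derivative A).evalEval y₁ y ≠ 0 ∧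
    (∀ j, (derivative A).evalEval y₁ y * (c * x j) = (B j).evalEval y₁ y) ∧
    A ∣ FB d a B ∧ A ∣ ∑ j, C (C (ξ₀ j)) * B j - derivative A ∧
    A ∣ ∑ j, C (C (ξ₁ j)) * B j - C X * derivative A ∧
    A ∣ ∑ j, C (C (ξ₂ j)) * B j - X * derivative A ∧
    (∀ u : Fin 3 → Fin (n + 1) → ℕ, ∃ P : MvPolynomial (Fin 3) L, P ≠ 0 ∧
      P.IsHomogeneous (2 * b) ∧ A ∣ MvPolynomial.aeval (fun i => ∑ j, C (C (u i j : L)) * B j) P) ∧
    ∃ J : Fin N → Fin (n + 1), ∀ v : Fin N → L, v ≠ 0 → ¬ A ∣ ∑ i, C (C (v i)) * B (J i)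

/-- certificates do not depend on the scaling of the point -/
theorem certS_smul {L : Type*} [Field L] {n d b N : ℕ}
    {a : (Fin (n + 1) →₀ ℕ) → L} {x : Fin (n + 1) → L} {r : L} (hr : r ≠ 0) :
    CertS d a b N (fun j => r * x j) ↔ CertS d a b N x := by
  constructor
  · rintro ⟨A, B, ξ₀, ξ₁, ξ₂, c', y₁, y, h0, h1, h2, h3, h4⟩
    simp only [← mul_assoc c' r] at h4
    exact ⟨A, B, ξ₀, ξ₁, ξ₂, c' * r, y₁, y, h0, h1, h2, mul_ne_zero h3 hr, h4⟩
  · rintro ⟨A, B, ξ₀, ξ₁, ξ₂, c, y₁, y, h0, h1, h2, h3, h4⟩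
    have hx : ∀ j, c * x j = (c * r⁻¹) * (r * x j) := by
      intro j
      field_simp
    simp only [hx] at h4
    exact ⟨A, B, ξ₀, ξ₁, ξ₂, c * r⁻¹, y₁, y, h0, h1, h2, mul_ne_zero h3 (inv_ne_zero hr), h4⟩

/-- congruence -/
theorem certS_congr {L : Type*} [Field L] {n d b N : ℕ}
    {a a' : (Fin (n + 1) →₀ ℕ) → L} (h : ∀ I ∈ expo (Fin (n + 1)) d, a I = a' I)
    {x : Fin (n + 1) → L} (hc : CertS d a b N x) : CertS d a' b N x := by
  obtain ⟨A, B, ξ₀, ξ₁, ξ₂, c, y₁, y, h0, h1, h2, h3, h4, h5, h6, h7, h8, h9, h10, h11⟩ := hc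
  refine ⟨A, B, ξ₀, ξ₁, ξ₂, c, y₁, y, h0, h1, h2, h3, h4, h5, h6, h7, h8, h9, ?_, h11⟩
  have : FB d a' B = FB d a B := by
    unfold FB
    refine Finset.sum_congr rfl fun I hI => ?_
    rw [h I hI]
  rw [this]
  exact h10

/-- larger degrees -/
theorem certS_mono {L : Type*} [Field L] {n d b b' N : ℕ} (hb : b ≤ b')
    {a : (Fin (n + 1) →₀ ℕ) → L} {x : Fin (n + 1) → L} (h : CertS d a b N x) :
    CertS d a b' N x := by
  obtain ⟨A, B, ξ₀, ξ₁, ξ₂, c', y₁, y, h0, h1, h2, h3, h4, h5, h6, h7, h8, h9, h10, h11, h12, h13,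
    h14, h15⟩ := h
  refine ⟨A, B, ξ₀, ξ₁, ξ₂, c', y₁, y, h0, ⟨h1.1.trans hb, fun i => (h1.2 i).trans hb⟩,
    fun j => ⟨(h2 j).1.trans hb, fun i => ((h2 j).2 i).trans hb⟩, h3, h4, h5, h6, h7, h8, h9, h10,
    h11, h12, h13, fun u => ?_, h15⟩
  obtain ⟨P, hP0, hPh, hPd⟩ := h14 u
  refine ⟨MvPolynomial.X 0 ^ (2 * b' - 2 * b) * P,
    mul_ne_zero (pow_ne_zero _ (MvPolynomial.X_ne_zero _)) hP0, ?_, ?_⟩
  · have h := (MvPolynomial.isHomogeneous_X_pow (R := L) (0 : Fin 3) (2 * b' - 2 * b)).mul hPh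
    have he : 2 * b' - 2 * b + 2 * b = 2 * b' := by omega
    rwa [he] at h
  · rw [map_mul]
    exact dvd_mul_of_dvd_right hPd _

theorem CertS.toW {L : Type*} [Field L] {n d b N : ℕ}
    {a : (Fin (n + 1) →₀ ℕ) → L} {x : Fin (n + 1) → L} (h : CertS d a b N x) :
    CertW (fun _ : Unit => d) (fun _ => a) b x := by
  obtain ⟨A, B, ξ₀, ξ₁, ξ₂, c', y₁, y, h0, h1, h2, h3, h4, h5, h6, h7, h8, h9, h10, h11, h12, h13,
    h14, -⟩ := h
  exact ⟨A, B, ξ₀, ξ₁, ξ₂, c', y₁, y, h1, h2, h3, h4, h5, h6, h7, h8, h9, fun _ => h10, h11, h12,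
    h13, h14⟩

private theorem aeval_eq_FB {L : Type*} [Field L] {D : ℕ} {P : MvPolynomial (Fin 3) L}
    (hP : P.IsHomogeneous D) (g : Fin 3 → L[X][X]) :
    MvPolynomial.aeval g P = FB (n := 2) D (fun I => P.coeff I) g := by
  rw [MvPolynomial.aeval_def, MvPolynomial.eval₂_eq']
  unfold FB
  have hsub : P.support ⊆ expo (Fin 3) D := by
    intro I hI
    rw [mem_expo]
    by_contra hne
    exact (MvPolynomial.mem_support_iff.1 hI) (hP.coeff_eq_zero hne)
  rw [← Finset.sum_subset hsub]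
  · rfl
  · intro I _ hI
    have h0 : P.coeff I = 0 := MvPolynomial.notMem_support_iff.1 hI
    simp only [h0, map_zero, zero_mul]

/-- linear combinations over the ring of sequences -/
private theorem m2_lc {R S : Type*} [CommRing R] [CommRing S] (φ : R →+* S) {n : ℕ}
    (u : Fin (n + 1) → ℕ) (B : Fin (n + 1) → R[X][X]) :
    m2 φ (∑ j, C (C (u j : R)) * B j) = ∑ j, C (C (u j : S)) * m2 φ (B j) := by
  rw [map_sum]
  refine Finset.sum_congr rfl fun j _ => ?_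
  rw [map_mul, m2_CC, map_natCast φ]

private theorem FB_congr' {L : Type*} [Field L] {n D : ℕ} {a a' : (Fin (n + 1) →₀ ℕ) → L}
    (h : ∀ I ∈ expo (Fin (n + 1)) D, a I = a' I) {B B' : Fin (n + 1) → L[X][X]}
    (hB : ∀ i, B i = B' i) : FB D a B = FB D a' B' := by
  unfold FB
  refine Finset.sum_congr rfl fun I hI => ?_
  rw [h I hI]
  congr 1
  refine Finset.prod_congr rfl fun i _ => ?_
  rw [hB i]

section

variable {L F : Type*} [Field L] [Field F] [Algebra L F]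

private theorem fn_add' (φ : F →ₗ[L] L) (P Q : F[X][X]) :
    fn φ (P + Q) = fn φ P + fn φ Q := by
  ext i j
  simp only [fn_coeff, coeff_add, map_add]

private theorem fn_sum' (φ : F →ₗ[L] L) {ι : Type*} (s : Finset ι) (P : ι → F[X][X]) :
    fn φ (∑ i ∈ s, P i) = ∑ i ∈ s, fn φ (P i) := by
  ext i j
  simp only [fn_coeff, finsetSum_coeff, map_sum]

private theorem fn_C' (φ : F →ₗ[L] L) (c : F) : fn φ (C (C c)) = C (C (φ c)) := by
  ext i j
  rw [fn_coeff]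
  simp only [coeff_C]
  split_ifs with h1
  · simp only [coeff_C]
    split_ifs with h2
    · rfl
    · rw [map_zero]
  · rw [coeff_zero, map_zero, coeff_zero]

/-- independence modulo the curve over a larger field -/
theorem indep_mod_mp {A : L[X][X]} {N : ℕ} {G : Fin N → L[X][X]}
    (h : ∀ v : Fin N → L, v ≠ 0 → ¬ A ∣ ∑ i, C (C (v i)) * G i) (v : Fin N → F) (hv : v ≠ 0) :
    ¬ mp L F A ∣ ∑ i, C (C (v i)) * mp L F (G i) := by
  intro hdvd
  obtain ⟨i₀, hi₀⟩ := Function.ne_iff.mp hv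
  obtain ⟨φ, hφ⟩ : ∃ φ : Module.Dual L F, φ (v i₀) ≠ 0 := by
    by_contra hcon
    push Not at hcon
    exact hi₀ ((Module.forall_dual_apply_eq_zero_iff L (v i₀)).mp hcon)
  have h1 := dvd_fn φ hdvd
  rw [fn_sum'] at h1
  have h2 : ∀ i, fn φ (C (C (v i)) * mp L F (G i)) = C (C (φ (v i))) * G i := by
    intro i
    rw [mul_comm, fn_mul, fn_C', mul_comm]
  rw [Finset.sum_congr rfl fun i _ => h2 i] at h1
  refine h (fun i => φ (v i)) ?_ h1
  intro h3
  exact hφ (congrFun h3 i₀)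

end

/-- certificates are mapped to certificates by the homomorphisms to an algebraic closure -/
theorem certS_mp {L F : Type*} [Field L] [CharZero L] [Field F] [IsAlgClosed F] [Algebra L F]
    [Algebra.IsAlgebraic L F] {n d b N : ℕ}
    {a : (Fin (n + 1) →₀ ℕ) → L} {x : Fin (n + 1) → L} (h : CertS d a b N x) :
    CertS d (fun I => algebraMap L F (a I)) b N (fun j => algebraMap L F (x j)) := by
  obtain ⟨A, B, ξ₀, ξ₁, ξ₂, c, y₁, y, hirr, hA, hB, hc, h0, h1, h2, he, hd, hj, d1, d2, d3, d4, d5,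
    J, hJ⟩ := h
  obtain ⟨φ, hφ⟩ : ∃ φ : L →+* F, φ = algebraMap L F := ⟨_, rfl⟩
  have hmp : ∀ G : L[X][X], mp L F G = m2 φ G := fun G => by rw [hφ]; rfl
  refine ⟨m2 φ A, fun j => m2 φ (B j), fun j => φ (ξ₀ j), fun j => φ (ξ₁ j), fun j => φ (ξ₂ j),
    φ c, φ y₁, φ y, ?_, hA.m2 φ, fun j => (hB j).m2 φ, ?_, ?_, ?_, ?_, ?_, ?_, ?_, ?_, ?_, ?_, ?_,
    ?_, J, ?_⟩
  · rw [← hmp]
    exact irreducible_mp hirr he hd
  · exact (map_ne_zero φ).2 hc
  · rw [← hφ, ← map_one φ, ← h0, map_sum]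
    simp only [map_mul]
  · rw [← hφ, ← h1, map_sum]
    simp only [map_mul]
  · rw [← hφ, ← h2, map_sum]
    simp only [map_mul]
  · rw [m2_evalEval, he, map_zero]
  · rw [← m2_derivative, m2_evalEval]
    exact (map_ne_zero φ).2 hd
  · intro j
    rw [← hφ, ← m2_derivative, m2_evalEval, m2_evalEval, ← map_mul, ← map_mul, hj j]
  · rw [← hφ, ← m2_FB]
    exact map_dvd (m2 φ) d1
  · have := map_dvd (m2 φ) d2
    rw [map_sub, map_sum, m2_derivative] at this
    simpa only [map_mul, m2_CC] using this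
  · have := map_dvd (m2 φ) d3
    rw [map_sub, map_sum, map_mul, m2_derivative] at this
    have hCX : m2 φ (C X) = C X := by simp [m2]
    rw [hCX] at this
    simpa only [map_mul, m2_CC] using this
  · have := map_dvd (m2 φ) d4
    rw [map_sub, map_sum, map_mul, m2_derivative] at this
    have hX : m2 φ X = X := by simp [m2]
    rw [hX] at this
    simpa only [map_mul, m2_CC] using this
  · intro u
    obtain ⟨P, hP0, hPh, hPd⟩ := d5 u
    refine ⟨MvPolynomial.map φ P, ?_, hPh.map φ, ?_⟩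
    · intro h0
      exact hP0 (MvPolynomial.map_injective φ φ.injective (by rw [h0, map_zero]))
    · rw [aeval_eq_FB hPh] at hPd
      rw [aeval_eq_FB (hPh.map φ)]
      have := map_dvd (m2 φ) hPd
      rw [m2_FB] at this
      rw [FB_congr' (a' := fun I => φ (MvPolynomial.coeff I P))
        (B' := fun i => m2 φ (∑ j, C (C (u i j : L)) * B j))
        (fun I _ => MvPolynomial.coeff_map φ P I) (fun i => (m2_lc φ (u i) B).symm)]
      exact this
  · intro v hv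
    have h3 := indep_mod_mp (F := F) hJ v hv
    simp only [hmp] at h3
    exact h3

end Pool.Agent.Lib.MP_44a246_ntSH
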