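import Mathlib
import Pool.Agent.Lib.MP_44a246_ntS.SJ2b
import Pool.Agent.Lib.MP_44a246_ntG.G9
import Pool.Agent.Lib.MP_44a246_ntG.G3
import Pool.Agent.Lib.MP_44a246_ntG.G11

/-!
The curve spans a large space (paper 619, (A9)).

PROOF of `indep_B`. Let `λ = A.leadingCoeff` (in `L[X]`), `m = A.natDegree`,
`C j = λ * cd (X.E j) A - (cp (X.E j) λ) * A` in `L[X][X]` (with `C λ`, `C (cp ..)`): the coefficient
of `Y ^ m` vanishes, so `(C j).natDegree < m` or `C j = 0`.

(1) For `v : Fin N → L`: if `A ∣ ∑ i, C (C (v i)) * X.B A (J i)` then, multiplying by `λ`,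
`A ∣ ∑ i, C (C (v i)) * C (J i)`, which has degree `< m`, so it is `0`. So it is enough to find `J`
such that the `C (J i)` are independent over `L`.

(2) Let `q u k : Fin (n + 1) → L`, `q u k j = ((C j).coeff u).coeff k` (`u, k ≤ 2 b`), and `Q` their
span in `L ^ (n + 1)`. The rank of the matrix `(q u k j)` is `finrank Q`, and it is the dimension of
the span of the `C j` (column rank = row rank: `Matrix.rank_transpose`, or: a maximal family of
independent `C j`, `j ∈ S`, has `finrank Q` elements); so if `N ≤ finrank Q` there is `J`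
(`exists_linearIndependent` in the range, or a basis extracted from the family).

(3) `x ∈ Q`: `(C j).evalEval y₁ y = λ (y₁) * (cd (X.E j) A).evalEval y₁ y = - λ (y₁) α x j`,
`α = (derivative A).evalEval y₁ y ≠ 0` (`hA.zero`, `X.B_eval`), and
`(C j).evalEval y₁ y = ∑ q u k j * y₁ ^ k * y ^ u`. `λ (y₁) ≠ 0`: otherwise
`height κ ![1, y₁] ≤ ∑ log (gv w λ) ≤ gh κ A` (`root_gv`; `gv w λ ≤ gg w A`, `A` has a coefficient
`1`) but `height κ ![1, y₁] = height κ x > gh κ A` (`X.height_y₁`, `hpos`).

(4) `ht Q ≤ finrank Q * (3 gh A + Δ)`: `w (q u k j) ≤ gg w A ^ 3 * exp (δ w)`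
(`cd_ne_zero_le`, as in `X.B_le`; for `cp (X.E j) λ` the same bound: its coefficients are among those
of `cd (X.E j) A`), and the height of a space spanned by vectors with bounded entries (see
`ht_span_row_le` in MP_44a246_ntG/G11 for the way to do it, or the lemma which is used there:
`ht` of a span is at most the dimension times the sum of the bounds, via a basis extracted from the
generators). So `2 * ht Q ≤ 2 (n + 1) (3 gh A + Δ) ≤ height x` and `N ≤ finrank Q` by `hsl`.
-/

namespace Pool.Agent.Lib.MP_44a246_ntSH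

open Pool.Agent.Lib.MP_e52354_nt
open Pool.Agent.Lib.MP_44a246_nt
open Pool.Agent.Lib.MP_44a246_ntL
open Pool.Agent.Lib.MP_44a246_ntS
open Pool.Agent.Lib.MP_44a246_ntX
open Pool.Agent.Lib.MP_44a246_ntG
open WithZero Polynomial Module

private theorem pl_le_exp {L : Type*} [Field L] (v : Valuation L ℤᵐ⁰) {ι : Type*} [Fintype ι]
    {e : ℕ} {a : Fin e → ι → L} {g : ℤ} (h : ∀ i k, v (a i k) ≤ exp g) :
    pl v a ≤ exp ((e : ℤ) * g) := by
  have hexp : (exp ((e : ℤ) * g) : ℤᵐ⁰) = (exp g) ^ e := by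
    rw [← exp_nsmul, nsmul_eq_mul]
  unfold pl
  refine vmax_le v fun f => ?_
  rw [Matrix.det_apply]
  refine Valuation.map_sum_le v fun σ _ => ?_
  have h1 : v (∏ i, (Matrix.of fun i j => a i (f j)) (σ i) i) ≤ exp ((e : ℤ) * g) := by
    rw [map_prod, hexp]
    calc ∏ i, v ((Matrix.of fun i j => a i (f j)) (σ i) i) ≤ ∏ _i : Fin e, exp g :=
          Finset.prod_le_prod' fun i _ => h _ _
      _ = (exp g) ^ e := by rw [Finset.prod_const, Finset.card_univ, Fintype.card_fin]
  rcases Int.units_eq_one_or (Equiv.Perm.sign σ) with h2 | h2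
  · rw [h2, one_smul]
    exact h1
  · rw [h2, Units.neg_smul, one_smul, Valuation.map_neg]
    exact h1

/-- the height of a space spanned by vectors with bounded entries -/
theorem ht_span_le {κ L : Type*} [Field κ] [IsAlgClosed κ] [CharZero κ] [Field L]
    [Algebra κ L] (h : IsFF κ L) {ι γ : Type*} [Fintype ι] [Fintype γ] (c : γ → ι → L)
    {g : Place κ L → ℤ} (hg : (Function.support g).Finite)
    (hc : ∀ t k w, w.1 (c t k) ≤ exp (g w)) :
    ht κ (Submodule.span L (Set.range c)) ≤
      finrank L (Submodule.span L (Set.range c)) * ∑ᶠ w, g w := by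
  classical
  obtain ⟨τ, σ', hσ', hsp, hli⟩ := exists_linearIndependent' L c
  have : Finite τ := Finite.of_injective σ' hσ'
  have : Fintype τ := Fintype.ofFinite τ
  set e := Fintype.card τ with he
  set σ : Fin e → γ := fun i => σ' ((Fintype.equivFin τ).symm i) with hσ
  set a : Fin e → ι → L := fun i => c (σ i) with ha
  have hai : LinearIndependent L a := hli.comp _ (Fintype.equivFin τ).symm.injective
  have has : Submodule.span L (Set.range a) = Submodule.span L (Set.range c) := by
    have h1 : Set.range a = Set.range (c ∘ σ') := by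
      ext y
      constructor
      · rintro ⟨i, rfl⟩
        exact ⟨_, rfl⟩
      · rintro ⟨t, rfl⟩
        refine ⟨Fintype.equivFin τ t, ?_⟩
        simp [ha, hσ]
    rw [h1, hsp]
  have hev : finrank L (Submodule.span L (Set.range c)) = e := by
    have h1 := finrank_span_eq_card hai
    rw [has, Fintype.card_fin] at h1
    exact h1
  have hloc : ∀ w : Place κ L, log (pl w.1 a) ≤ (e : ℤ) * g w := by
    intro w
    rw [log_le_iff_le_exp (pl_ne_zero w.1 hai)]
    exact pl_le_exp w.1 fun i k => hc _ _ w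
  have s2 : (Function.support fun w : Place κ L => (e : ℤ) * g w).Finite := by
    refine hg.subset fun w hw h1 => hw ?_
    simp only at h1 ⊢
    rw [h1, mul_zero]
  have hmain := finsum_mono (pl_support h hai) s2 hloc
  have e1 : ∑ᶠ w : Place κ L, log (pl w.1 a) = ht κ (Submodule.span L (Set.range c)) := by
    rw [← ht_span h hai, has]
  have e2 : ∑ᶠ w : Place κ L, (e : ℤ) * g w = e * ∑ᶠ w, g w := (mul_finsum _ _).symm
  rw [e1, e2] at hmain
  rw [hev]
  exact hmain

/-- the reduction of the coefficient derivative modulo the polynomial -/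
private noncomputable def Cr {L : Type*} [Field L] (D : Derivation ℤ L L) (A : L[X][X]) :
    L[X][X] := C A.leadingCoeff * cd D A - C ((cd D A).coeff A.natDegree) * A

private theorem Cr_coeff {L : Type*} [Field L] (D : Derivation ℤ L L) (A : L[X][X]) {u : ℕ}
    (hu : A.natDegree ≤ u) : (Cr D A).coeff u = 0 := by
  have hcd : ∀ u, A.natDegree < u → (cd D A).coeff u = 0 := by
    intro u hu
    ext j
    rw [cd_coeff, coeff_eq_zero_of_natDegree_lt hu, coeff_zero, map_zero]
  unfold Cr
  rw [coeff_sub, coeff_C_mul, coeff_C_mul]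
  rcases hu.eq_or_lt with rfl | hu
  · rw [coeff_natDegree]
    ring
  · rw [hcd u hu, coeff_eq_zero_of_natDegree_lt hu, mul_zero, mul_zero, sub_zero]

private theorem Cr_deg {L : Type*} [Field L] (D : Derivation ℤ L L) {A : L[X][X]} (hA : A ≠ 0) :
    (Cr D A).degree < A.degree := by
  rw [degree_eq_natDegree hA, degree_lt_iff_coeff_zero]
  intro u hu
  exact Cr_coeff D A hu

private theorem Cr_coeff_natDegree {L : Type*} [Field L] (D : Derivation ℤ L L) {A : L[X][X]}
    {b : ℕ} (hA : Box b A) (u : ℕ) : ((Cr D A).coeff u).natDegree ≤ 2 * b := by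
  have h1 := (cd_box (D := D) hA).2
  unfold Cr
  rw [coeff_sub, coeff_C_mul, coeff_C_mul]
  refine (natDegree_sub_le _ _).trans (max_le ?_ ?_)
  · refine natDegree_mul_le.trans ?_
    have h2 := hA.2 A.natDegree
    have h3 := h1 u
    rw [coeff_natDegree] at h2
    omega
  · refine natDegree_mul_le.trans ?_
    have h2 := hA.2 u
    have h3 := h1 A.natDegree
    omega

private theorem evalEval_eq_sum {L : Type*} [Field L] (P : L[X][X]) (y₁ y : L) {b c : ℕ}
    (hb : ∀ u, b < u → P.coeff u = 0) (hc : ∀ u, (P.coeff u).natDegree ≤ c) :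
    P.evalEval y₁ y = ∑ t : Fin (b + 1) × Fin (c + 1),
      (P.coeff t.1).coeff t.2 * (y₁ ^ (t.2 : ℕ) * y ^ (t.1 : ℕ)) := by
  have hP : P.natDegree < b + 1 := by
    rw [Nat.lt_succ_iff, natDegree_le_iff_coeff_eq_zero]
    exact hb
  rw [evalEval, eval_eq_sum_range' hP, eval_finsetSum, Fintype.sum_prod_type,
    ← Fin.sum_univ_eq_sum_range (fun i => eval y₁ (P.coeff i * (C y) ^ i))]
  refine Finset.sum_congr rfl fun i _ => ?_
  rw [eval_mul, eval_pow, eval_C, eval_eq_sum_range' (Nat.lt_succ_of_le (hc i)), Finset.sum_mul,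
    ← Fin.sum_univ_eq_sum_range (fun j => (P.coeff i).coeff j * y₁ ^ j * y ^ (i : ℕ))]
  refine Finset.sum_congr rfl fun j _ => ?_
  ring

/-- **The curve spans a large space** (paper 619, (A9)). -/
theorem indep_B {κ L : Type*} [Field κ] [IsAlgClosed κ] [CharZero κ] [Field L] [CharZero L]
    [Algebra κ L] (h : IsFF κ L) {n d₀ : ℕ} (X : DatG κ (L := L) n d₀) {b : ℕ} {A : L[X][X]}
    (hA : CrvG X b A) (hpos : gh κ A < height κ X.x) {N : ℕ}
    (hsl : ∀ Q : Submodule L (Fin (n + 1) → L), X.x ∈ Q → 2 * ht κ Q ≤ height κ X.x →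
      N ≤ finrank L Q)
    (hlin : 2 * ((n : ℤ) + 1) * (3 * gh κ A + X.Δ) ≤ height κ X.x) :
    ∃ J : Fin N → Fin (n + 1), ∀ v : Fin N → L, v ≠ 0 →
      ¬ A ∣ ∑ i, C (C (v i)) * X.B A (J i) := by
  classical
  have hA0 : A ≠ 0 := hA.irr.ne_zero
  -- the matrix of the coefficients of the reductions
  set γ := Fin (b + 1) × Fin (2 * b + 1) with hγ
  let M : Matrix (Fin (n + 1)) γ L :=
    Matrix.of fun j t => ((Cr (X.E j) A).coeff t.1).coeff t.2
  let q : γ → Fin (n + 1) → L := fun t j => ((Cr (X.E j) A).coeff t.1).coeff t.2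
  set Q : Submodule L (Fin (n + 1) → L) := Submodule.span L (Set.range q) with hQ
  have hbz : ∀ j u, b < u → (Cr (X.E j) A).coeff u = 0 := fun j u hu =>
    Cr_coeff _ _ (hA.box.1.trans hu.le)
  -- the value of the leading coefficient
  have hlam : A.leadingCoeff.eval X.y₁ ≠ 0 := by
    intro h0
    have h1 := root_gv h (leadingCoeff_ne_zero.2 hA0) h0
    rw [X.height_y₁] at h1
    have h2 : ∑ᶠ w : Place κ L, log (gv w.1 A.leadingCoeff) ≤ gh κ A := by
      refine finsum_mono (gv_support h (leadingCoeff_ne_zero.2 hA0)) (gg_support h hA0) fun w => ?_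
      refine (log_le_log ((gv_eq_zero w.1).not.2 (leadingCoeff_ne_zero.2 hA0))
        ((gg_eq_zero w.1).not.2 hA0)).2 ?_
      exact le_gn (gv w.1) A A.natDegree
    exact absurd (h1.trans h2) (not_le.2 hpos)
  -- the point is in the space
  have hx : X.x ∈ Q := by
    have hα := hA.der
    set α := (derivative A).evalEval X.y₁ X.y with hαd
    set μ := A.leadingCoeff.eval X.y₁ with hμ
    have h1 : ∀ j, X.x j = ∑ t : γ, (-(α * μ)⁻¹ * (X.y₁ ^ (t.2 : ℕ) * X.y ^ (t.1 : ℕ))) * q t j := by
      intro j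
      have h2 : (Cr (X.E j) A).evalEval X.y₁ X.y = -(μ * (α * X.x j)) := by
        have h3 := X.B_eval hA j
        have h4 : (X.B A j).evalEval X.y₁ X.y = -(cd (X.E j) A).evalEval X.y₁ X.y := by
          simp [DatG.B, Polynomial.evalEval]
        rw [h4] at h3
        have h5 : (cd (X.E j) A).evalEval X.y₁ X.y = -(α * X.x j) := by
          rw [h3, neg_neg]
        have h6 : A.evalEval X.y₁ X.y = 0 := hA.zero
        unfold Cr
        rw [evalEval_sub, evalEval_mul, evalEval_mul, evalEval_C, evalEval_C, h5, h6]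
        ring
      have h7 := evalEval_eq_sum (Cr (X.E j) A) X.y₁ X.y (hbz j)
        (fun u => Cr_coeff_natDegree _ hA.box u)
      rw [h2] at h7
      have h8 : X.x j = -(α * μ)⁻¹ * -(μ * (α * X.x j)) := by
        field_simp
      rw [h8, h7, Finset.mul_sum]
      refine Finset.sum_congr rfl fun t _ => ?_
      simp only [q]
      ring
    have h2 : X.x = ∑ t : γ, (-(α * μ)⁻¹ * (X.y₁ ^ (t.2 : ℕ) * X.y ^ (t.1 : ℕ))) • q t := by
      funext j
      rw [Finset.sum_apply]
      simp only [Pi.smul_apply, smul_eq_mul]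
      exact h1 j
    rw [h2]
    exact Submodule.sum_mem _ fun t _ => Submodule.smul_mem _ _ (Submodule.subset_span ⟨t, rfl⟩)
  -- the height of the space
  have s0 := gg_support h hA0
  have s1 : (Function.support fun w : Place κ L => 3 * log (gg w.1 A)).Finite := by
    refine s0.subset fun w hw h1 => hw ?_
    simp only at h1 ⊢
    rw [h1, mul_zero]
  have s2 : (Function.support fun w : Place κ L => (X.δ w : ℤ)).Finite := by
    refine X.hδ.subset fun w hw h1 => hw ?_
    simp only at h1 ⊢
    rw [h1, Nat.cast_zero]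
  have hht : ht κ Q ≤ finrank L Q * (3 * gh κ A + X.Δ) := by
    have h1 := ht_span_le h q (g := fun w => 3 * log (gg w.1 A) + (X.δ w : ℤ))
      ((s1.union s2).subset (Function.support_add _ _)) (fun t j w => ?_)
    · have e1 : ∑ᶠ w : Place κ L, (3 * log (gg w.1 A) + (X.δ w : ℤ)) = 3 * gh κ A + X.Δ := by
        rw [finsum_add_distrib s1 s2, ← mul_finsum]
        rfl
      rw [e1] at h1
      exact h1
    · have ha0 : gg w.1 A ≠ 0 := (gg_eq_zero w.1).not.2 hA0
      have hexp : (exp (3 * log (gg w.1 A) + (X.δ w : ℤ)) : ℤᵐ⁰) =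
          gg w.1 A ^ 3 * exp (X.δ w : ℤ) := by
        rw [exp_add, show (3 * log (gg w.1 A) : ℤ) = (3 : ℕ) • log (gg w.1 A) by simp, exp_nsmul,
          exp_log ha0]
      rw [hexp]
      have hcd : gg w.1 (cd (X.E j) A) ≤ gg w.1 A ^ 2 * exp (X.δ w : ℤ) :=
        cd_ne_zero_le (X.hE j) hA.one w
      refine (le_gg w.1 (Cr (X.E j) A) t.1 t.2).trans ?_
      unfold Cr
      refine (Valuation.map_sub _ _ _).trans (max_le ?_ ?_)
      · rw [map_mul]
        have h2 : gg w.1 (C A.leadingCoeff) ≤ gg w.1 A :=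
          (le_of_eq (gn_C (gv w.1) A.leadingCoeff)).trans (le_gn (gv w.1) A A.natDegree)
        calc gg w.1 (C A.leadingCoeff) * gg w.1 (cd (X.E j) A) ≤
              gg w.1 A * (gg w.1 A ^ 2 * exp (X.δ w : ℤ)) := mul_le_mul' h2 hcd
          _ = gg w.1 A ^ 3 * exp (X.δ w : ℤ) := by
            rw [← mul_assoc, ← pow_succ']
      · rw [map_mul]
        have h2 : gg w.1 (C ((cd (X.E j) A).coeff A.natDegree)) ≤ gg w.1 (cd (X.E j) A) :=
          (le_of_eq (gn_C (gv w.1) _)).trans (le_gn (gv w.1) _ A.natDegree)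
        calc gg w.1 (C ((cd (X.E j) A).coeff A.natDegree)) * gg w.1 A ≤
              (gg w.1 A ^ 2 * exp (X.δ w : ℤ)) * gg w.1 A := mul_le_mul' (h2.trans hcd) le_rfl
          _ = gg w.1 A ^ 3 * exp (X.δ w : ℤ) := by
            rw [mul_right_comm, ← pow_succ]
  -- the dimension
  have hN : N ≤ finrank L Q := by
    refine hsl Q hx ?_
    have h1 : (finrank L Q : ℤ) ≤ (n : ℤ) + 1 := by
      have h2 := Submodule.finrank_le Q
      rw [Module.finrank_fin_fun] at h2
      exact_mod_cast h2
    have h2 : 0 ≤ 3 * gh κ A + X.Δ := by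
      have := gh_nonneg h hA0
      have := X.Δ_nonneg
      linarith
    have h3 := mul_le_mul_of_nonneg_right h1 h2
    linarith
  -- the rows
  have hrank : finrank L (Submodule.span L (Set.range M.row)) = finrank L Q := by
    rw [← Matrix.rank_eq_finrank_span_row, Matrix.rank_eq_finrank_span_cols]
    rfl
  obtain ⟨τ, σ', hσ', hsp, hli⟩ := exists_linearIndependent' L M.row
  have : Finite τ := Finite.of_injective σ' hσ'
  have : Fintype τ := Fintype.ofFinite τ
  have hcard : N ≤ Fintype.card τ := by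
    have h1 := finrank_span_eq_card hli
    rw [hsp, hrank] at h1
    omega
  let J : Fin N → Fin (n + 1) := fun i => σ' ((Fintype.equivFin τ).symm (Fin.castLE hcard i))
  have hJ : LinearIndependent L fun i => M.row (J i) :=
    hli.comp (fun i : Fin N => (Fintype.equivFin τ).symm (Fin.castLE hcard i))
      ((Fintype.equivFin τ).symm.injective.comp (Fin.castLE_injective hcard))
  refine ⟨J, fun v hv hdvd => hv ?_⟩
  have hd2 : A ∣ ∑ i, C (C (v i)) * Cr (X.E (J i)) A := by
    have h1 : ∑ i, C (C (v i)) * Cr (X.E (J i)) A =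
        -(C A.leadingCoeff * ∑ i, C (C (v i)) * X.B A (J i)) -
          (∑ i, C (C (v i)) * C ((cd (X.E (J i)) A).coeff A.natDegree)) * A := by
      rw [Finset.mul_sum, Finset.sum_mul, ← Finset.sum_neg_distrib, ← Finset.sum_sub_distrib]
      refine Finset.sum_congr rfl fun i _ => ?_
      unfold Cr DatG.B
      ring
    rw [h1]
    exact dvd_sub ((hdvd.mul_left _).neg_right) (dvd_mul_left _ _)
  have hz : ∑ i, C (C (v i)) * Cr (X.E (J i)) A = 0 := by
    refine eq_zero_of_dvd_of_degree_lt hd2 ?_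
    rw [degree_eq_natDegree hA0, degree_lt_iff_coeff_zero]
    intro u hu
    rw [finsetSum_coeff]
    refine Finset.sum_eq_zero fun i _ => ?_
    rw [coeff_C_mul, Cr_coeff _ _ hu, mul_zero]
  rw [Fintype.linearIndependent_iff] at hJ
  funext i
  refine hJ v ?_ i
  funext t
  rw [Finset.sum_apply]
  have h1 := congrArg (fun P : L[X][X] => (P.coeff (t.1 : ℕ)).coeff (t.2 : ℕ)) hz
  simp only [finsetSum_coeff, coeff_C_mul, coeff_zero] at h1
  exact h1

end Pool.Agent.Lib.MP_44a246_ntSH
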