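import Mathlib
import Pool.Agent.Lib.MP_44a246_ntE.E02
import Pool.Agent.Lib.MP_44a246_ntE.E10
import Pool.Agent.Lib.MP_44a246_ntS.SP1b
import Pool.Agent.Lib.MP_44a246_ntS.SL1
import Pool.Agent.Lib.MP_44a246_ntS.SR0
import Pool.Agent.Lib.MP_44a246_ntS.SJ1c
import Pool.Agent.Lib.MP_44a246_ntW.W03
import Pool.Agent.Lib.MP_e52354_nt.Local

/-!
Arithmetic Bezout on the curve (paper 619, (A8)), first part: algebra and one place.

Let `A` be a polynomial in `Y` over `L[X]`, `m = deg_Y A`, `B j = - E j A`, `G = FB d a B` (the form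
`H` evaluated at `B`), `D = dsc A` the discriminant, `R = rsl` the resultant of `A` and `G`. On the
curve `B j = A_Y γ j`, `G = A_Y ^ d H (γ)`. Let `ψ : L[X] → F` be a homomorphism to a field (an
algebra structure) such that `ψ (A)` splits with the roots `ρ`: then
`ψ R = (ψ D) ^ d * λ ^ d * ∏ H (γ (ρ))` (`λ` the leading coefficient), `γ j (ρ) = yv (E j) A ρ`. If
the derivations `E j` extend to derivations of the function field `F` which preserve the constants
and kill a nonconstant element, then by rigidity `|γ j (ρ)| ≤ max 1 |ρ|` at all places, and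
`|λ| ∏ max 1 |ρ|` is the Gauss norm of `ψ (A)`. So `|ψ R| ≤ |ψ D| ^ d |A| ^ d t ^ m`.

PROOF of `root_rigid`: `with_sep` (E10) for `ξ`, `D₀` = the restriction of `D` to `κ'` (`choose` the
function from `hDκ`; it is a derivation because `algebraMap κ' F` is injective), `D'` with
`D' κ' = 0`, `D' ξ = 1` from `exists_der_ext` (the extension is algebraic: see the private lemma
`alg_X` of E03, copy it); `D ρ = yv E A ρ` (`D_root`), `D (yv E A ρ) = 0` (`D_yv`), `rigid` (E02).

PROOF of `res_formula`: `f = A.map ψ`, `natDegree f = m` and `leadingCoeff f = ψ (A.leadingCoeff)`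
because of `hlc`; `resultant_map_map`, `resultant_eq_prod_eval` (see `res_rts` in
MP_44a246_ntW/W07) for both resultants; `(derivative A).natDegree ≤ m - 1`,
`(FB d a B).natDegree ≤ d * m` (`(B j).natDegree ≤ m`: `cd_coeff`); the factors
`aeval ρ (derivative A)` of `ψ D` are not zero, `aeval ρ (FB d a B) = Fval d _ (aeval ρ (B j))_j`,
`aeval ρ (B j) = aeval ρ (derivative A) * yv (E j) A ρ` (`cd` and `cq` are the same by `rfl`),
`Fval_smul`; `λ ^ (d m) = (λ ^ (m - 1)) ^ d * λ ^ d`.

PROOF of `local_res`: `res_formula`, `root_rigid` for all the roots,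
`w (Fval d _ (yv ..)) ≤ t * max 1 (w ρ) ^ d`, and `gn w f = w λ * ∏ max 1 (w ρ)` (`gn_root_prod`).
`local_res_lt`: the same with one factor strictly smaller: the factor of `ρ₀` is
`aeval ρ₀ (FB d a B) / (aeval ρ₀ (derivative A)) ^ d`, of value `< 1 ≤ max 1 (w ρ₀) ^ d`; none of
`w λ`, `w (ψ D)` is zero.
-/

namespace Pool.Agent.Lib.MP_44a246_ntSH

open Pool.Agent.Lib.MP_e52354_nt
open Pool.Agent.Lib.MP_44a246_nt
open Pool.Agent.Lib.MP_44a246_ntL
open Pool.Agent.Lib.MP_44a246_ntS
open Pool.Agent.Lib.MP_44a246_ntW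
open Pool.Agent.Lib.MP_44a246_ntE
open WithZero Polynomial

/-- the discriminant of `A` in `Y`, up to a factor -/
noncomputable def dsc {L : Type*} [Field L] (A : L[X][X]) : L[X] :=
  resultant A (derivative A) A.natDegree (A.natDegree - 1)

/-- the resultant of the curve and the form -/
noncomputable def rsl {L : Type*} [Field L] {n : ℕ} (A : L[X][X]) (d : ℕ)
    (a : (Fin (n + 1) →₀ ℕ) → L) (E : Fin (n + 1) → Derivation ℤ L L) : L[X] :=
  resultant A (FB d a fun j => -cd (E j) A) A.natDegree (d * A.natDegree)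

/-- the Gauss norm is the product over the roots -/
theorem gn_root_prod {F : Type*} [Field F] (v : Valuation F ℤᵐ⁰) {f : F[X]} (hf : f.Splits) :
    gn v f = v f.leadingCoeff * (f.roots.map fun ρ => max 1 (v ρ)).prod := by
  have h1 : ∀ ρ : F, gv v (X - C ρ) = max 1 (v ρ) := by
    intro ρ
    rw [gv_apply]
    refine le_antisymm (gn_le v fun i => ?_) (max_le ?_ ?_)
    · rcases i with _ | _ | i
      · rw [coeff_sub, coeff_X_zero, coeff_C_zero, zero_sub, Valuation.map_neg]
        exact le_max_right _ _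
      · rw [coeff_sub, coeff_X_one, coeff_C_succ, sub_zero, map_one]
        exact le_max_left _ _
      · rw [coeff_sub, coeff_X_of_ne_one (by omega), coeff_C_succ, sub_zero, map_zero]
        exact zero_le
    · have h2 := le_gn v (X - C ρ) 1
      rwa [coeff_sub, coeff_X_one, coeff_C_succ, sub_zero, map_one] at h2
    · have h2 := le_gn v (X - C ρ) 0
      rwa [coeff_sub, coeff_X_zero, coeff_C_zero, zero_sub, Valuation.map_neg] at h2
  have h3 := congrArg (gv v) hf.eq_prod_roots
  rw [map_mul, map_multiset_prod, Multiset.map_map, gv_apply, gv_apply, gn_C] at h3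
  rw [h3]
  congr 2
  refine Multiset.map_congr rfl fun ρ _ => ?_
  exact h1 ρ

section

variable {κ M : Type*} [Field κ] [Field M] [Algebra κ M]
  [Algebra κ[X] M] [IsScalarTower κ κ[X] M]
  [Algebra (RatFunc κ) M] [IsScalarTower κ[X] (RatFunc κ) M]
  [FiniteDimensional (RatFunc κ) M]

private theorem cv13_alg :
    Algebra.IsAlgebraic (IntermediateField.adjoin κ {algebraMap κ[X] M X}) M := by
  have hinj2 : Function.Injective (algebraMap κ[X] M) := by
    rw [IsScalarTower.algebraMap_eq κ[X] (RatFunc κ) M]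
    exact (algebraMap (RatFunc κ) M).injective.comp (IsFractionRing.injective κ[X] (RatFunc κ))
  set x : M := algebraMap κ[X] M X with hx
  refine ⟨fun z => ?_⟩
  have h1 : IsAlgebraic (RatFunc κ) z := Algebra.IsAlgebraic.isAlgebraic z
  have h2 : IsAlgebraic κ[X] z := (IsFractionRing.isAlgebraic_iff κ[X] (RatFunc κ) _).mpr h1
  obtain ⟨Q, hQ0, hQ⟩ := h2
  let F := IntermediateField.adjoin κ {x}
  let ξ : F := IntermediateField.AdjoinSimple.gen κ x
  let φ : κ[X] →+* F := (aeval ξ : κ[X] →ₐ[κ] F).toRingHom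
  have hφ : (algebraMap F M).comp φ = algebraMap κ[X] M := by
    refine RingHom.ext fun p => ?_
    have e1 : algebraMap F M (aeval ξ p) = aeval (algebraMap F M ξ) p :=
      (aeval_algebraMap_apply M ξ p).symm
    have e2 : algebraMap F M ξ = x := rfl
    have e3 : aeval x p = algebraMap κ[X] M p := by
      rw [hx, aeval_algebraMap_apply, aeval_X_left_apply]
    rw [e2, e3] at e1
    exact e1
  have hφinj : Function.Injective φ := by
    have : Function.Injective ((algebraMap F M).comp φ) := by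
      rw [hφ]; exact hinj2
    exact Function.Injective.of_comp (f := algebraMap F M) this
  refine ⟨Q.map φ, (Polynomial.map_ne_zero_iff hφinj).mpr hQ0, ?_⟩
  rw [aeval_def, eval₂_map, hφ]
  exact hQ

end

private theorem cv13_ac {M : Type*} [CommMonoid M] (a b c e : M) :
    a * b * (c * e) = a * (b * e) * c := by
  ac_rfl

/-- **Rigidity at a root.** -/
theorem root_rigid {κ' F : Type*} [Field κ'] [IsAlgClosed κ'] [CharZero κ'] [Field F]
    [Algebra κ' F] (hF : IsFF κ' F) {ξ : F} (hξ : Transcendental κ' ξ) {L : Type*} [Field L]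
    [Algebra L[X] F] {E : Derivation ℤ L L} {D : Derivation ℤ F F}
    (hD : ∀ p : L[X], D (algebraMap L[X] F p) = algebraMap L[X] F (cp E p))
    (hDκ : ∀ u : κ', ∃ u' : κ', D (algebraMap κ' F u) = algebraMap κ' F u') (hDξ : D ξ = 0)
    {A : L[X][X]} (hEE : A ∣ EE E E A) {ρ : F} (hρ : aeval ρ A = 0)
    (hρ' : aeval ρ (derivative A) ≠ 0) (w : Place κ' F) :
    w.1 (yv E A ρ) ≤ max 1 (w.1 ρ) := by
  have hinj : Function.Injective (algebraMap κ' F) := (algebraMap κ' F).injective
  choose f hf using hDκ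
  let D₀ : Derivation ℤ κ' κ' := Derivation.mk'
    (AddMonoidHom.toIntLinearMap
      { toFun := f
        map_zero' := hinj (by rw [← hf, map_zero, map_zero])
        map_add' := fun u v => hinj (by rw [← hf, map_add, map_add, map_add, hf, hf]) })
    (fun u v => hinj (by
      change algebraMap κ' F (f (u * v)) = algebraMap κ' F (u * f v + v * f u)
      rw [← hf, map_mul, Derivation.leibniz, hf, hf, map_add, map_mul, map_mul, smul_eq_mul,
        smul_eq_mul]))
  have hD₀ : ∀ u : κ', D (algebraMap κ' F u) = algebraMap κ' F (D₀ u) := hf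
  refine with_sep hF hξ ?_
  intro i1 i2 i3 i4 i5 i6 i7 hX
  have halg := cv13_alg (κ := κ') (M := F)
  rw [hX] at halg
  obtain ⟨D', hκ, hX'⟩ := exists_der_ext hξ halg (0 : Derivation ℤ κ' κ') 1
  have hDρ := D_root hD hρ hρ'
  have hDD := D_yv hD hρ hρ' hEE
  rw [← hDρ] at hDD ⊢
  exact rigid w D D' hD₀ (by rw [hX, hDξ]) (fun u => by rw [hκ]; simp) (by rw [hX, hX']) hDD

/-- the factors of the resultant -/
theorem factor_formula {L F : Type*} [Field L] [Field F] [Algebra L[X] F] {n d : ℕ} {A : L[X][X]}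
    {a : (Fin (n + 1) →₀ ℕ) → L} {E : Fin (n + 1) → Derivation ℤ L L} {ρ : F}
    (hρ' : aeval ρ (derivative A) ≠ 0) :
    aeval ρ (FB d a fun j => -cd (E j) A) = aeval ρ (derivative A) ^ d *
      Fval d (fun I => algebraMap L[X] F (C (a I))) fun j => yv (E j) A ρ := by
  have h1 : ∀ j, aeval ρ (-cd (E j) A) = aeval ρ (derivative A) * yv (E j) A ρ := by
    intro j
    unfold MP_44a246_ntW.yv
    rw [mul_div_cancel₀ _ hρ']
    rfl
  have h2 : aeval ρ (FB d a fun j => -cd (E j) A) =
      Fval d (fun I => algebraMap L[X] F (C (a I))) fun j =>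
        aeval ρ (derivative A) * yv (E j) A ρ := by
    unfold FB Fval mon
    rw [map_sum]
    refine Finset.sum_congr rfl fun I _ => ?_
    rw [map_mul, aeval_C, map_prod]
    congr 1
    refine Finset.prod_congr rfl fun j _ => ?_
    rw [map_pow, h1]
  rw [h2]
  unfold Fval
  rw [Finset.mul_sum]
  refine Finset.sum_congr rfl fun I hI => ?_
  rw [mon_smul, mem_expo.1 hI]
  ring

/-- the discriminant as a product over the roots -/
theorem dsc_formula {L F : Type*} [Field L] [Field F] [Algebra L[X] F] {A : L[X][X]}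
    (hlc : algebraMap L[X] F A.leadingCoeff ≠ 0)
    (hs : (A.map (algebraMap L[X] F)).Splits) :
    algebraMap L[X] F (dsc A) = algebraMap L[X] F A.leadingCoeff ^ (A.natDegree - 1) *
      ((A.map (algebraMap L[X] F)).roots.map fun ρ => aeval ρ (derivative A)).prod := by
  set ψ := algebraMap L[X] F with hψ
  have hnd : (A.map ψ).natDegree = A.natDegree := natDegree_map_of_leadingCoeff_ne_zero ψ hlc
  have hlcf : (A.map ψ).leadingCoeff = ψ A.leadingCoeff :=
    leadingCoeff_map_of_leadingCoeff_ne_zero ψ hlc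
  have h := resultant_eq_prod_eval (A.map ψ) ((derivative A).map ψ)
    (A.natDegree - 1) (natDegree_map_le.trans (natDegree_derivative_le A)) hs
  rw [hnd, hlcf, resultant_map_map] at h
  unfold dsc
  rw [h]
  congr 2
  refine Multiset.map_congr rfl fun ρ _ => ?_
  rw [eval_map, aeval_def]

/-- the resultant as a product over the roots -/
theorem res_formula {L F : Type*} [Field L] [Field F] [Algebra L[X] F] {n d : ℕ} {A : L[X][X]}
    (hm : A.natDegree ≠ 0) (hlc : algebraMap L[X] F A.leadingCoeff ≠ 0)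
    (hs : (A.map (algebraMap L[X] F)).Splits) {a : (Fin (n + 1) →₀ ℕ) → L}
    {E : Fin (n + 1) → Derivation ℤ L L} (hd : algebraMap L[X] F (dsc A) ≠ 0) :
    algebraMap L[X] F (rsl A d a E) =
      algebraMap L[X] F (dsc A) ^ d * algebraMap L[X] F A.leadingCoeff ^ d *
        ((A.map (algebraMap L[X] F)).roots.map fun ρ =>
          Fval d (fun I => algebraMap L[X] F (C (a I))) fun j => yv (E j) A ρ).prod := by
  set ψ := algebraMap L[X] F with hψ
  have hnd : (A.map ψ).natDegree = A.natDegree := natDegree_map_of_leadingCoeff_ne_zero ψ hlc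
  have hlcf : (A.map ψ).leadingCoeff = ψ A.leadingCoeff :=
    leadingCoeff_map_of_leadingCoeff_ne_zero ψ hlc
  have hdsc := dsc_formula hlc hs
  have hFB : (FB d a fun j => -cd (E j) A).natDegree ≤ d * A.natDegree := by
    unfold FB
    refine natDegree_sum_le_of_forall_le _ _ fun I hI => ?_
    refine (natDegree_C_mul_le _ _).trans ?_
    refine (natDegree_prod_le _ _).trans ?_
    have h1 : ∀ j : Fin (n + 1), ((-cd (E j) A) ^ I j).natDegree ≤ I j * A.natDegree := by
      intro j
      refine natDegree_pow_le.trans (Nat.mul_le_mul_left _ ?_)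
      rw [natDegree_neg]
      refine natDegree_le_iff_coeff_eq_zero.2 fun i hi => ?_
      ext k
      rw [cd_coeff, coeff_eq_zero_of_natDegree_lt hi, coeff_zero, map_zero]
    refine (Finset.sum_le_sum fun j _ => h1 j).trans (le_of_eq ?_)
    rw [← Finset.sum_mul]
    congr 1
    have h2 := mem_expo.1 hI
    rwa [Finsupp.degree_eq_sum] at h2
  have h := resultant_eq_prod_eval (A.map ψ) ((FB d a fun j => -cd (E j) A).map ψ)
    (d * A.natDegree) (natDegree_map_le.trans hFB) hs
  rw [hnd, hlcf, resultant_map_map] at h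
  unfold rsl
  rw [h, hdsc]
  have h3 : ∀ ρ ∈ (A.map ψ).roots, aeval ρ (derivative A) ≠ 0 := by
    intro ρ hρ h0
    apply hd
    rw [hdsc]
    exact mul_eq_zero_of_right _ (Multiset.prod_eq_zero (Multiset.mem_map.2 ⟨ρ, hρ, h0⟩))
  have h4 : ((A.map ψ).roots.map ((FB d a fun j => -cd (E j) A).map ψ).eval).prod =
      ((A.map ψ).roots.map fun ρ => aeval ρ (derivative A)).prod ^ d *
        ((A.map ψ).roots.map fun ρ =>
          Fval d (fun I => ψ (C (a I))) fun j => yv (E j) A ρ).prod := by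
    rw [← Multiset.prod_map_pow, ← Multiset.prod_map_mul]
    congr 1
    refine Multiset.map_congr rfl fun ρ hρ => ?_
    rw [← factor_formula (h3 ρ hρ), eval_map, aeval_def]
  rw [h4]
  obtain ⟨m, hm'⟩ := Nat.exists_eq_succ_of_ne_zero hm
  rw [hm', Nat.succ_sub_one, mul_pow, ← pow_mul]
  have h5 : d * (m + 1) = m * d + d := by ring
  rw [h5, pow_add]
  ring

/-- the roots are simple -/
theorem root_simple {L F : Type*} [Field L] [Field F] [Algebra L[X] F] {A : L[X][X]}
    (hlc : algebraMap L[X] F A.leadingCoeff ≠ 0)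
    (hs : (A.map (algebraMap L[X] F)).Splits) (hd : algebraMap L[X] F (dsc A) ≠ 0) {ρ : F}
    (hρ : aeval ρ A = 0) : aeval ρ (derivative A) ≠ 0 := by
  intro h0
  apply hd
  rw [dsc_formula hlc hs]
  have hf0 : A.map (algebraMap L[X] F) ≠ 0 := by
    intro h1
    apply hlc
    have h2 := leadingCoeff_map_of_leadingCoeff_ne_zero (algebraMap L[X] F) hlc
    rw [← h2, h1, leadingCoeff_zero]
  have h1 : ρ ∈ (A.map (algebraMap L[X] F)).roots := by
    rw [mem_roots hf0, IsRoot.def, eval_map, ← aeval_def]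
    exact hρ
  exact mul_eq_zero_of_right _ (Multiset.prod_eq_zero (Multiset.mem_map.2 ⟨ρ, h1, h0⟩))

section

/-- the value of a form at a point of bounded size -/
theorem Fval_le {F : Type*} [Field F] (v : Valuation F ℤᵐ⁰) {n d : ℕ}
    {b : (Fin (n + 1) →₀ ℕ) → F} {y : Fin (n + 1) → F} {t c : ℤᵐ⁰}
    (hb : ∀ I ∈ expo (Fin (n + 1)) d, v (b I) ≤ t) (hy : ∀ j, v (y j) ≤ c) :
    v (Fval d b y) ≤ t * c ^ d := by
  unfold Fval
  refine Valuation.map_sum_le _ fun I hI => ?_
  rw [map_mul]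
  refine mul_le_mul' (hb I hI) ?_
  unfold mon
  rw [map_prod]
  have h2 : ∑ j, I j = d := by
    rw [← Finsupp.degree_eq_sum]; exact mem_expo.1 hI
  rw [← h2, ← Finset.prod_pow_eq_pow_sum]
  refine Finset.prod_le_prod' fun i _ => ?_
  rw [map_pow]
  exact pow_le_pow_left' (hy i) _

end

section

variable {κ' F : Type*} [Field κ'] [IsAlgClosed κ'] [CharZero κ'] [Field F]
  [Algebra κ' F] (hF : IsFF κ' F) {ξ : F} (hξ : Transcendental κ' ξ) {L : Type*} [Field L]
  [Algebra L[X] F] {n d : ℕ} {E : Fin (n + 1) → Derivation ℤ L L}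
  {D : Fin (n + 1) → Derivation ℤ F F}
  (hD : ∀ j, ∀ p : L[X], D j (algebraMap L[X] F p) = algebraMap L[X] F (cp (E j) p))
  (hDκ : ∀ j, ∀ u : κ', ∃ u' : κ', D j (algebraMap κ' F u) = algebraMap κ' F u')
  (hDξ : ∀ j, D j ξ = 0) {A : L[X][X]} (hm : A.natDegree ≠ 0)
  (hlc : algebraMap L[X] F A.leadingCoeff ≠ 0) (hs : (A.map (algebraMap L[X] F)).Splits)
  (hd : algebraMap L[X] F (dsc A) ≠ 0) (hEE : ∀ j, A ∣ EE (E j) (E j) A)
  {a : (Fin (n + 1) →₀ ℕ) → L} (w : Place κ' F)

include hF hξ hD hDκ hDξ hm hlc hs hd hEE in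
/-- **The local inequality.** -/
theorem local_res {t : ℤᵐ⁰}
    (ha : ∀ I ∈ expo (Fin (n + 1)) d, w.1 (algebraMap L[X] F (C (a I))) ≤ t) :
    w.1 (algebraMap L[X] F (rsl A d a E)) ≤
      w.1 (algebraMap L[X] F (dsc A)) ^ d * gn w.1 (A.map (algebraMap L[X] F)) ^ d *
        t ^ A.natDegree := by
  rw [res_formula hm hlc hs hd, gn_root_prod w.1 hs, map_mul, map_mul, map_pow, map_pow,
    leadingCoeff_map_of_leadingCoeff_ne_zero _ hlc, mul_pow, map_multiset_prod, Multiset.map_map]
  have hroot : ∀ ρ ∈ (A.map (algebraMap L[X] F)).roots, aeval ρ A = 0 := by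
    intro ρ hρ
    have h1 := (mem_roots'.1 hρ).2
    rwa [IsRoot.def, eval_map, ← aeval_def] at h1
  have hcard : Multiset.card (A.map (algebraMap L[X] F)).roots = A.natDegree := by
    rw [← hs.natDegree_eq_card_roots, natDegree_map_of_leadingCoeff_ne_zero _ hlc]
  have key : ((A.map (algebraMap L[X] F)).roots.map (w.1 ∘ fun ρ =>
      Fval d (fun I => algebraMap L[X] F (C (a I))) fun j => yv (E j) A ρ)).prod ≤
      ((A.map (algebraMap L[X] F)).roots.map fun ρ => t * max 1 (w.1 ρ) ^ d).prod := by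
    refine Multiset.prod_map_le_prod_map₀ _ _ (fun _ _ => zero_le) fun ρ hρ => ?_
    exact Fval_le w.1 ha fun j => root_rigid hF hξ (hD j) (hDκ j) (hDξ j) (hEE j)
      (hroot ρ hρ) (root_simple hlc hs hd (hroot ρ hρ)) w
  rw [Multiset.prod_map_mul, Multiset.map_const', Multiset.prod_replicate, hcard,
    Multiset.prod_map_pow] at key
  calc _ ≤ w.1 (algebraMap L[X] F (dsc A)) ^ d * w.1 (algebraMap L[X] F A.leadingCoeff) ^ d *
        (t ^ A.natDegree * ((A.map (algebraMap L[X] F)).roots.map fun ρ =>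
          max 1 (w.1 ρ)).prod ^ d) := mul_le_mul' le_rfl key
    _ = _ := cv13_ac _ _ _ _

include hF hξ hD hDκ hDξ hm hlc hs hd hEE in
/-- **The strict local inequality.** -/
theorem local_res_lt
    (ha : ∀ I ∈ expo (Fin (n + 1)) d, w.1 (algebraMap L[X] F (C (a I))) ≤ 1) {ρ₀ : F}
    (hρ₀ : aeval ρ₀ A = 0)
    (hlt : w.1 (aeval ρ₀ (FB d a fun j => -cd (E j) A)) <
      w.1 (aeval ρ₀ (derivative A)) ^ d) :
    w.1 (algebraMap L[X] F (rsl A d a E)) <
      w.1 (algebraMap L[X] F (dsc A)) ^ d * gn w.1 (A.map (algebraMap L[X] F)) ^ d := by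
  classical
  rw [res_formula hm hlc hs hd, gn_root_prod w.1 hs, map_mul, map_mul, map_pow, map_pow,
    leadingCoeff_map_of_leadingCoeff_ne_zero _ hlc, mul_pow, map_multiset_prod, Multiset.map_map]
  have hroot : ∀ ρ ∈ (A.map (algebraMap L[X] F)).roots, aeval ρ A = 0 := by
    intro ρ hρ
    have h1 := (mem_roots'.1 hρ).2
    rwa [IsRoot.def, eval_map, ← aeval_def] at h1
  have hf0 : A.map (algebraMap L[X] F) ≠ 0 := by
    intro h1
    apply hlc
    have h2 := leadingCoeff_map_of_leadingCoeff_ne_zero (algebraMap L[X] F) hlc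
    rw [← h2, h1, leadingCoeff_zero]
  have hmem : ρ₀ ∈ (A.map (algebraMap L[X] F)).roots := by
    rw [mem_roots hf0, IsRoot.def, eval_map, ← aeval_def]
    exact hρ₀
  have hone : ∀ ρ : F, (1 : ℤᵐ⁰) ≤ max 1 (w.1 ρ) ^ d := fun ρ => one_le_pow₀ (le_max_left _ _)
  have hlt0 : w.1 (Fval d (fun I => algebraMap L[X] F (C (a I))) fun j => yv (E j) A ρ₀) <
      max 1 (w.1 ρ₀) ^ d := by
    have h1 := root_simple hlc hs hd hρ₀
    rw [factor_formula h1, map_mul, map_pow] at hlt
    refine lt_of_lt_of_le ?_ (hone ρ₀)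
    have h2 : (0 : ℤᵐ⁰) < w.1 (aeval ρ₀ (derivative A)) ^ d :=
      pow_pos (zero_lt_iff.2 ((Valuation.ne_zero_iff _).2 h1)) d
    by_contra h3
    push Not at h3
    exact absurd hlt (not_lt.2 (le_mul_of_one_le_right' h3))
  obtain ⟨s, hs'⟩ := Multiset.exists_cons_of_mem hmem
  have key : (s.map (w.1 ∘ fun ρ =>
      Fval d (fun I => algebraMap L[X] F (C (a I))) fun j => yv (E j) A ρ)).prod ≤
      (s.map fun ρ => max 1 (w.1 ρ) ^ d).prod := by
    refine Multiset.prod_map_le_prod_map₀ _ _ (fun _ _ => zero_le) fun ρ hρ => ?_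
    have hρ2 : ρ ∈ (A.map (algebraMap L[X] F)).roots := by
      rw [hs']; exact Multiset.mem_cons_of_mem hρ
    have h1 := Fval_le w.1 ha fun j => root_rigid hF hξ (hD j) (hDκ j) (hDξ j) (hEE j)
      (hroot ρ hρ2) (root_simple hlc hs hd (hroot ρ hρ2)) w
    rwa [one_mul] at h1
  have hpos : (0 : ℤᵐ⁰) < (s.map fun ρ => max 1 (w.1 ρ) ^ d).prod := by
    refine zero_lt_iff.2 fun h0 => ?_
    rw [Multiset.prod_eq_zero_iff, Multiset.mem_map] at h0
    obtain ⟨ρ, -, h1⟩ := h0
    have h2 := hone ρ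
    rw [h1] at h2
    exact absurd h2 (by simp)
  have h4 : ((A.map (algebraMap L[X] F)).roots.map (w.1 ∘ fun ρ =>
      Fval d (fun I => algebraMap L[X] F (C (a I))) fun j => yv (E j) A ρ)).prod <
      ((A.map (algebraMap L[X] F)).roots.map fun ρ => max 1 (w.1 ρ)).prod ^ d := by
    rw [← Multiset.prod_map_pow, hs', Multiset.map_cons, Multiset.map_cons, Multiset.prod_cons,
      Multiset.prod_cons]
    exact (mul_le_mul' le_rfl key).trans_lt (mul_lt_mul_of_pos_right hlt0 hpos)
  have h5 : (0 : ℤᵐ⁰) < w.1 (algebraMap L[X] F (dsc A)) ^ d *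
      w.1 (algebraMap L[X] F A.leadingCoeff) ^ d :=
    mul_pos (pow_pos (zero_lt_iff.2 ((Valuation.ne_zero_iff _).2 hd)) d)
      (pow_pos (zero_lt_iff.2 ((Valuation.ne_zero_iff _).2 hlc)) d)
  rw [← mul_assoc]
  exact mul_lt_mul_of_pos_left h4 h5

end

end Pool.Agent.Lib.MP_44a246_ntSH
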