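import Mathlib
import Pool.Agent.Lib.MP_44a246_ntSH.CV14
import Pool.Agent.Lib.MP_44a246_ntS.SJ2b
import Pool.Agent.Lib.MP_44a246_ntS.SR1
import Pool.Agent.Lib.MP_44a246_ntS.SM1
import Pool.Agent.Lib.MP_44a246_ntG.G9
import Pool.Agent.Lib.MP_44a246_ntG.G3

/-!
Arithmetic Bezout on the curve (paper 619, (A8)), last part: the local heights of the quotient, and
the divisibility.

PROOF of `local_quot`: if `N = 0` trivial. Let `N ≠ 0`. Choose a natural number `t` such that
`w (N (t)) = gv w N` and `dsc A (t) ≠ 0` and `A.leadingCoeff (t) ≠ 0` (`finite_bad` of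
MP_44a246_ntS/SR1 for the vector of the coefficients of `N`; the other two exclude finitely many
`t`). `F` = the splitting field over `L` of `A (t, Y) = A.map (evalRingHom t)`, a finite extension of
`L` (`IsFF κ F` by `hL.of_finite`, `Algebra κ F` by composition),
`Algebra L[X] F := ((algebraMap L F).comp (evalRingHom t)).toAlgebra`. The derivations `D j` of `F`
extend `E j` (`exists_extension`); `D j (algebraMap L[X] F p) = algebraMap L[X] F (cp (E j) p)`
because `E j t = 0`. `ξ` in `F`. A place `w'` of `F` over `w` (`IsFF.exists_over`), `e = ramIdx`,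
`w' u = (w u) ^ e` for `u` in `L` (`below_pow`). `local_res` for `w'` and the bound `s ^ e`:
`w' (rsl (t)) ≤ w' (dsc (t)) ^ d * gn w' (A (t, Y)) ^ d * s ^ (e m)`, and
`rsl (t) = dsc (t) ^ d * N (t)`, `gn w' (A (t, Y)) ≤ (gg w A) ^ e` (its coefficients are
`(A.coeff i) (t)`, of value at most `gg w A` as `w t ≤ 1`). So
`(w (N (t))) ^ e ≤ ((gg w A) ^ d * s ^ m) ^ e`, and one can cancel `e ≥ 1` (`pow_le_pow_left_iff` or
`lt` in the linear ordered group with zero).

PROOF of `dvd_FB`: suppose `A` does not divide `G = FB d a (X.B A)`; then `rsl A d a X.E ≠ 0`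
(`dvd_of_res'` of E03, a copy is in CV14: make it non private there, with the degree
`d * A.natDegree`), `rsl = dsc ^ d * N`
(`dsc_pow_dvd`), `N ≠ 0`, `N (y₁) = 0` (`quot_eval_zero`;
`G.evalEval y₁ y = (A_Y (y₁, y)) ^ d * Fval d a x = 0` by `X.B_eval`, see `FB_zero` in
MP_44a246_ntG/G18). `root_gv`: `height κ ![1, y₁] ≤ ∑ log (gv w N)`,
`log (gv w N) ≤ d * log (gg w A) + A.natDegree * τ w` by `local_quot`, the sum over `w` (`finsum`,
finite supports: `gg_support`, `hτ`) is at most `d * gh κ A + b * ∑ τ`, and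
`height κ ![1, X.y₁] = height κ X.x` (`X.height_y₁`): a contradiction with `hh`.
`ξ = X.y₁` is transcendental over `κ`: otherwise it is a constant (`κ` algebraically closed) and
`height κ ![1, y₁] = 0`, but the left side of `hh` is not negative. `X.E j y₁ = 0`: `X.E_y₁`.
-/

namespace Pool.Agent.Lib.MP_44a246_ntSH

open Pool.Agent.Lib.MP_e52354_nt
open Pool.Agent.Lib.MP_44a246_nt
open Pool.Agent.Lib.MP_44a246_ntL
open Pool.Agent.Lib.MP_44a246_ntS
open Pool.Agent.Lib.MP_44a246_ntW
open Pool.Agent.Lib.MP_44a246_ntG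
open Pool.Agent.Lib.MP_44a246_ntE
open WithZero Polynomial

/-- the values of natural numbers -/
private theorem cv15_nat_le {κ L : Type*} [Field κ] [Field L] [Algebra κ L] (w : Place κ L)
    (m : ℕ) : w.1 (m : L) ≤ 1 := natCast_mem w.1.integer m

/-- the value of a polynomial at a natural number -/
private theorem cv15_eval_le {κ L : Type*} [Field κ] [Field L] [Algebra κ L] (w : Place κ L)
    (p : L[X]) (t : ℕ) : w.1 (p.eval (t : L)) ≤ gv w.1 p := by
  rw [eval_eq_sum_range]
  refine Valuation.map_sum_le _ fun i _ => ?_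
  rw [map_mul, map_pow]
  calc w.1 (p.coeff i) * w.1 (t : L) ^ i ≤ gv w.1 p * 1 :=
        mul_le_mul' (le_gn w.1 p i) (pow_le_one' (cv15_nat_le w t) i)
    _ = gv w.1 p := mul_one _

/-- at one place all but finitely many natural numbers give the Gauss norm -/
private theorem cv15_finite_bad {κ L : Type*} [Field κ] [IsAlgClosed κ] [CharZero κ] [Field L]
    [Algebra κ L] (h : IsFF κ L) (w : Place κ L) {N : L[X]} (hN : N ≠ 0) :
    {t : ℕ | w.1 (N.eval (t : L)) ≠ gv w.1 N}.Finite := by
  have hx : (fun i : Fin (N.natDegree + 1) => N.coeff i) ≠ 0 := by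
    intro h0
    apply hN
    have h1 := congrFun h0 ⟨N.natDegree, Nat.lt_succ_self _⟩
    exact leadingCoeff_eq_zero.1 h1
  refine (finite_bad h hx w).subset fun t ht => ?_
  have e1 : ∑ j : Fin (N.natDegree + 1), ((t ^ (j : ℕ) : ℕ) : L) * N.coeff j =
      N.eval (t : L) := by
    rw [Fin.sum_univ_eq_sum_range (fun i => ((t ^ i : ℕ) : L) * N.coeff i), eval_eq_sum_range]
    refine Finset.sum_congr rfl fun i _ => ?_
    rw [Nat.cast_pow, mul_comm]
  have e2 : vmax w.1 (fun i : Fin (N.natDegree + 1) => N.coeff i) = gv w.1 N := by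
    refine le_antisymm (Finset.sup_le fun i _ => le_gn w.1 N i) (gn_le w.1 fun i => ?_)
    rcases Nat.lt_or_ge N.natDegree i with hi | hi
    · rw [coeff_eq_zero_of_natDegree_lt hi, map_zero]
      exact zero_le
    · exact Finset.le_sup (f := fun i : Fin (N.natDegree + 1) => w.1 (N.coeff i))
        (Finset.mem_univ ⟨i, Nat.lt_succ_of_le hi⟩)
  rw [Set.mem_ofPred_eq] at ht ⊢
  rw [e1, e2]
  exact ht

/-- a nonzero polynomial has finitely many natural roots -/
private theorem cv15_finite_roots {L : Type*} [Field L] [CharZero L] {p : L[X]} (hp : p ≠ 0) :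
    {t : ℕ | p.eval (t : L) = 0}.Finite := by
  classical
  have hfin : {c : L | p.IsRoot c}.Finite := by
    refine p.roots.toFinset.finite_toSet.subset fun c hc => ?_
    rw [Finset.mem_coe, Multiset.mem_toFinset, Polynomial.mem_roots hp]
    exact hc
  exact hfin.preimage (f := fun t : ℕ => (t : L)) (fun a _ b _ hab => Nat.cast_injective hab)

/-- **The local heights of the quotient.** -/
theorem local_quot {κ L : Type*} [Field κ] [IsAlgClosed κ] [CharZero κ] [Field L] [CharZero L]
    [Algebra κ L] (h : IsFF κ L) {A : L[X][X]} (hA : Irreducible A) (hm : A.natDegree ≠ 0)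
    {n d : ℕ} {E : Fin (n + 1) → Derivation ℤ L L}
    (hEκ : ∀ j (u : κ), ∃ u' : κ, E j (algebraMap κ L u) = algebraMap κ L u')
    {ξ : L} (hξ : Transcendental κ ξ) (hEξ : ∀ j, E j ξ = 0)
    (hEE : ∀ j, A ∣ EE (E j) (E j) A) {a : (Fin (n + 1) →₀ ℕ) → L} (w : Place κ L) {s : ℤᵐ⁰}
    (ha : ∀ I ∈ expo (Fin (n + 1)) d, w.1 (a I) ≤ s) {N : L[X]}
    (hN : rsl A d a E = dsc A ^ d * N) :
    gv w.1 N ≤ gg w.1 A ^ d * s ^ A.natDegree := by
  classical
  by_cases hN0 : N = 0
  · rw [hN0, map_zero]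
    exact zero_le
  -- the choice of the number `t`
  have hlc0 : A.leadingCoeff ≠ 0 := leadingCoeff_ne_zero.2 hA.ne_zero
  have hfin := ((cv15_finite_bad h w hN0).union
    (cv15_finite_roots (dsc_ne_zero hA hm))).union (cv15_finite_roots hlc0)
  obtain ⟨t, ht⟩ := hfin.infinite_compl.nonempty
  rw [Set.mem_compl_iff, Set.mem_union, Set.mem_union, not_or, not_or] at ht
  obtain ⟨⟨ht1, ht2⟩, ht3⟩ := ht
  have ht1' : w.1 (N.eval (t : L)) = gv w.1 N := by
    by_contra hcon
    exact ht1 hcon
  have ht2' : (dsc A).eval (t : L) ≠ 0 := ht2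
  have ht3' : A.leadingCoeff.eval (t : L) ≠ 0 := ht3
  -- the splitting field
  set f : L[X] := A.map (evalRingHom (t : L)) with hf
  let F := f.SplittingField
  let iF : Algebra L[X] F := ((algebraMap L F).comp (evalRingHom (t : L))).toAlgebra
  have hiF : ∀ p : L[X], algebraMap L[X] F p = algebraMap L F (p.eval (t : L)) := fun _ => rfl
  have hF : IsFF κ F := h.of_finite
  have hinj : Function.Injective (algebraMap L F) := (algebraMap L F).injective
  have hξF : Transcendental κ (algebraMap L F ξ) := by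
    intro hcon
    exact hξ ((isAlgebraic_algebraMap_iff hinj).mp hcon)
  choose D hD0 using fun j => exists_extension (L := F) (E j)
  have hEt : ∀ j (m : ℕ), E j ((t : L) ^ m) = 0 := by
    intro j m
    rw [← Nat.cast_pow]
    exact (E j).map_natCast _
  have hEev : ∀ j (p : L[X]), E j (p.eval (t : L)) = (cp (E j) p).eval (t : L) := by
    intro j p
    induction p using Polynomial.induction_on' with
    | add p q hp hq => rw [eval_add, map_add, hp, hq, cp_add, eval_add]
    | monomial m c =>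
      have e1 : cp (E j) (monomial m c) = monomial m (E j c) := by
        ext i
        rw [cp_coeff, coeff_monomial, coeff_monomial]
        split_ifs
        · rfl
        · exact map_zero (E j)
      rw [e1, eval_monomial, eval_monomial, Derivation.leibniz, hEt, smul_zero, zero_add,
        smul_eq_mul, mul_comm]
  have hD : ∀ j, ∀ p : L[X], D j (algebraMap L[X] F p) = algebraMap L[X] F (cp (E j) p) := by
    intro j p
    rw [hiF, hiF, hD0, hEev]
  have hDκ : ∀ j, ∀ u : κ, ∃ u' : κ, D j (algebraMap κ F u) = algebraMap κ F u' := by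
    intro j u
    obtain ⟨u', hu'⟩ := hEκ j u
    refine ⟨u', ?_⟩
    rw [IsScalarTower.algebraMap_apply κ L F, hD0, hu', ← IsScalarTower.algebraMap_apply κ L F]
  have hDξ : ∀ j, D j (algebraMap L F ξ) = 0 := by
    intro j
    rw [hD0, hEξ, map_zero]
  have hlc : algebraMap L[X] F A.leadingCoeff ≠ 0 := by
    rw [hiF]
    exact (_root_.map_ne_zero _).2 ht3'
  have hmap : A.map (algebraMap L[X] F) = f.map (algebraMap L F) :=
    (Polynomial.map_map (evalRingHom (t : L)) (algebraMap L F) A).symm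
  have hs : (A.map (algebraMap L[X] F)).Splits := by
    rw [hmap]
    exact SplittingField.splits f
  have hd : algebraMap L[X] F (dsc A) ≠ 0 := by
    rw [hiF]
    exact (_root_.map_ne_zero _).2 ht2'
  -- the place over `w`
  obtain ⟨T, ⟨w', hw'⟩, hT, -⟩ := hF.exists_over (K := L) w
  have hw'w : below L w' = w := (hT w').1 hw'
  set e := ramIdx L w'.1 with he
  have he1 : 1 ≤ e := one_le_ramIdx (K := L) w'.1 w'.2.1
  have hpow : ∀ u : L, w'.1 (algebraMap L F u) = w.1 u ^ e := by
    intro u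
    rw [below_pow (K := L) w' u, hw'w]
  have ha' : ∀ I ∈ expo (Fin (n + 1)) d, w'.1 (algebraMap L[X] F (C (a I))) ≤ s ^ e := by
    intro I hI
    rw [hiF, eval_C, hpow]
    exact pow_le_pow_left' (ha I hI) e
  have hmain := local_res hF hξF hD hDκ hDξ hm hlc hs hd hEE w' ha'
  rw [hN, map_mul, map_mul, map_pow, map_pow, mul_assoc] at hmain
  have hd' : w'.1 (algebraMap L[X] F (dsc A)) ^ d ≠ 0 :=
    pow_ne_zero _ ((Valuation.ne_zero_iff _).2 hd)
  have h1 : w'.1 (algebraMap L[X] F N) ≤
      gn w'.1 (A.map (algebraMap L[X] F)) ^ d * (s ^ e) ^ A.natDegree :=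
    (mul_le_mul_iff_right₀ (zero_lt_iff.2 hd')).1 hmain
  have h2 : w'.1 (algebraMap L[X] F N) = gv w.1 N ^ e := by
    rw [hiF, hpow, ht1']
  have h3 : gn w'.1 (A.map (algebraMap L[X] F)) ≤ gg w.1 A ^ e := by
    refine gn_le _ fun i => ?_
    rw [coeff_map, hiF, hpow]
    refine pow_le_pow_left' ?_ e
    exact (cv15_eval_le w _ t).trans (le_gn (gv w.1) A i)
  rw [h2] at h1
  have h4 : gv w.1 N ^ e ≤ (gg w.1 A ^ d * s ^ A.natDegree) ^ e := by
    calc gv w.1 N ^ e ≤ gn w'.1 (A.map (algebraMap L[X] F)) ^ d * (s ^ e) ^ A.natDegree := h1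
      _ ≤ (gg w.1 A ^ e) ^ d * (s ^ e) ^ A.natDegree :=
          mul_le_mul' (pow_le_pow_left' h3 d) le_rfl
      _ = (gg w.1 A ^ d * s ^ A.natDegree) ^ e := by
          rw [mul_pow, ← pow_mul, ← pow_mul, ← pow_mul, ← pow_mul, mul_comm e d,
            mul_comm e A.natDegree]
  exact (pow_le_pow_iff_left₀ zero_le zero_le (by omega)).1 h4

private theorem cv15_dvd_of_res {L : Type*} [Field L] {A Q : L[X][X]} (hA : Irreducible A)
    (hm : A.natDegree ≠ 0) {N : ℕ} (hQ : Q.natDegree ≤ N)
    (h : resultant A Q A.natDegree N = 0) : A ∣ Q := by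
  have hprim : A.IsPrimitive := hA.isPrimitive hm
  have hinj : Function.Injective (algebraMap L[X] (FractionRing L[X])) :=
    IsFractionRing.injective _ _
  have hirr : Irreducible (A.map (algebraMap L[X] (FractionRing L[X]))) :=
    hprim.irreducible_iff_irreducible_map_fraction_map.mp hA
  apply hprim.dvd_of_fraction_map_dvd_fraction_map (K := FractionRing L[X])
  obtain ⟨k, hk⟩ := Nat.exists_eq_add_of_le hQ
  have h1 : resultant (A.map (algebraMap L[X] (FractionRing L[X])))
      (Q.map (algebraMap L[X] (FractionRing L[X]))) A.natDegree N = 0 := by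
    rw [resultant_map_map, h, map_zero]
  rw [hk, resultant_add_right_deg _ _ _ _ _ natDegree_map_le, mul_eq_zero] at h1
  have h2 : (A.map (algebraMap L[X] (FractionRing L[X]))).coeff A.natDegree ^ k ≠ 0 := by
    apply pow_ne_zero
    rw [coeff_map]
    intro h0
    rw [map_eq_zero_iff _ hinj, coeff_natDegree, leadingCoeff_eq_zero] at h0
    exact hA.ne_zero h0
  have h3 := h1.resolve_left h2
  have e1 : (A.map (algebraMap L[X] (FractionRing L[X]))).natDegree = A.natDegree :=
    natDegree_map_eq_of_injective hinj A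
  have e2 : (Q.map (algebraMap L[X] (FractionRing L[X]))).natDegree = Q.natDegree :=
    natDegree_map_eq_of_injective hinj Q
  rw [← e1, ← e2, resultant_eq_zero_iff] at h3
  by_contra hnd
  exact h3.2 ((hirr.coprime_iff_not_dvd).mpr hnd)

/-- a form which vanishes at the point, at the parametrisation -/
private theorem cv15_FB_zero {κ L : Type*} [Field κ] [Field L] [Algebra κ L] {n d₀ : ℕ}
    (X : DatG κ (L := L) n d₀) {b : ℕ} {A : L[X][X]} (hA : CrvG X b A) {e : ℕ}
    {a : (Fin (n + 1) →₀ ℕ) → L} (hz : Fval e a X.x = 0) :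
    (FB e a (X.B A)).evalEval X.y₁ X.y = 0 := by
  rw [FB_eval]
  have h1 : (fun j => (X.B A j).evalEval X.y₁ X.y) =
      fun j => (derivative A).evalEval X.y₁ X.y * X.x j := by
    funext j
    rw [X.B_eval hA j]
  rw [h1]
  set c := (derivative A).evalEval X.y₁ X.y with hc
  have h2 : Fval e a (fun j => c * X.x j) = c ^ e * Fval e a X.x := by
    unfold Fval
    rw [Finset.mul_sum]
    refine Finset.sum_congr rfl fun I hI => ?_
    have hdeg : ∑ j, I j = e := by
      have := mem_expo.1 hI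
      rwa [Finsupp.degree_eq_sum] at this
    have h3 : mon (fun j => c * X.x j) I = c ^ e * mon X.x I := by
      unfold mon
      simp only [mul_pow]
      rw [Finset.prod_mul_distrib, Finset.prod_pow_eq_pow_sum, hdeg]
    rw [h3]
    ring
  rw [h2, hz, mul_zero]

/-- **The curve is contained in the hypersurface** (paper 619, (A8)). -/
theorem dvd_FB {κ L : Type*} [Field κ] [IsAlgClosed κ] [CharZero κ] [Field L] [CharZero L]
    [Algebra κ L] (h : IsFF κ L) {n d₀ : ℕ} (X : DatG κ (L := L) n d₀) {b : ℕ} {A : L[X][X]}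
    (hA : CrvG X b A)
    (hEκ : ∀ j (u : κ), ∃ u' : κ, X.E j (algebraMap κ L u) = algebraMap κ L u')
    (hEE : ∀ j, A ∣ EE (X.E j) (X.E j) A) {d : ℕ} {a : (Fin (n + 1) →₀ ℕ) → L}
    {τ : Place κ L → ℕ} (hτ : (Function.support τ).Finite)
    (ha : ∀ I ∈ expo (Fin (n + 1)) d, ∀ w : Place κ L, w.1 (a I) ≤ exp (τ w : ℤ))
    (hz : Fval d a X.x = 0)
    (hh : (d : ℤ) * gh κ A + b * ∑ᶠ w, (τ w : ℤ) < height κ X.x) :
    A ∣ FB d a (X.B A) := by
  classical
  by_contra hnd
  have hA0 : A ≠ 0 := hA.irr.ne_zero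
  have hgh0 : 0 ≤ gh κ A := gh_nonneg h hA0
  have hτ0 : 0 ≤ ∑ᶠ w, (τ w : ℤ) := finsum_nonneg fun w => Int.natCast_nonneg _
  have hleft : 0 ≤ (d : ℤ) * gh κ A + b * ∑ᶠ w, (τ w : ℤ) := by positivity
  -- `y₁` is transcendental
  have hξ : Transcendental κ X.y₁ := by
    intro hcon
    obtain ⟨c, hc⟩ : ∃ c : κ, algebraMap κ L c = X.y₁ := by
      have hint : IsIntegral κ X.y₁ := hcon.isIntegral
      exact minpoly.mem_range_of_degree_eq_one κ X.y₁
        (IsAlgClosed.degree_eq_one_of_irreducible κ (minpoly.irreducible hint))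
    have h0 : height κ ![1, X.y₁] = 0 := by
      unfold height
      refine (finsum_congr fun w => ?_).trans finsum_zero
      have h1 : w.1 X.y₁ ≤ 1 := by
        rw [← hc]
        by_cases hc0 : c = 0
        · rw [hc0, map_zero, map_zero]
          exact zero_le
        · rw [w.2.2 c hc0]
      rw [Pool.Agent.Lib.MP_44a246_ntL.vmax_pair, max_eq_left h1, log_one]
    rw [X.height_y₁] at h0
    omega
  -- the quotient
  have hr : rsl A d a X.E ≠ 0 := by
    intro h0
    apply hnd
    refine cv15_dvd_of_res hA.irr hA.deg (N := d * A.natDegree) ?_ h0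
    refine FB_natDegree fun j => ?_
    unfold DatG.B
    rw [natDegree_neg, natDegree_le_iff_coeff_eq_zero]
    intro i hi
    ext k
    rw [cd_coeff, coeff_eq_zero_of_natDegree_lt hi, coeff_zero, map_zero]
  obtain ⟨N, hN⟩ := dsc_pow_dvd hA.irr hA.deg hEE (d := d) (a := a)
  have hN0 : N ≠ 0 := by
    rintro rfl
    exact hr (by rw [hN, mul_zero])
  have hy : N.eval X.y₁ = 0 :=
    quot_eval_zero hA.irr hA.deg hEE hA.zero hA.der (cv15_FB_zero X hA hz) hN
  have h1 := root_gv h hN0 hy
  rw [X.height_y₁] at h1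
  -- the local bounds
  have s2 : (Function.support fun w : Place κ L => (τ w : ℤ)).Finite := by
    refine hτ.subset fun w hw h0 => hw ?_
    simp only
    rw [h0, Nat.cast_zero]
  have s3 := gg_support h hA0
  have s4 : (Function.support fun w : Place κ L => (d : ℤ) * log (gg w.1 A)).Finite := by
    refine s3.subset fun w hw h0 => hw ?_
    have h0' : log (gg w.1 A) = 0 := h0
    simp only
    rw [h0', mul_zero]
  have s5 : (Function.support fun w : Place κ L => (A.natDegree : ℤ) * (τ w : ℤ)).Finite := by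
    refine s2.subset fun w hw h0 => hw ?_
    have h0' : (τ w : ℤ) = 0 := h0
    simp only
    rw [h0', mul_zero]
  have hsum : ∑ᶠ w : Place κ L, ((d : ℤ) * log (gg w.1 A) + (A.natDegree : ℤ) * (τ w : ℤ)) =
      (d : ℤ) * gh κ A + (A.natDegree : ℤ) * ∑ᶠ w, (τ w : ℤ) := by
    rw [finsum_add_distrib s4 s5, ← mul_finsum, ← mul_finsum]
    rfl
  have h2 : ∑ᶠ w : Place κ L, log (gv w.1 N) ≤
      ∑ᶠ w : Place κ L, ((d : ℤ) * log (gg w.1 A) + (A.natDegree : ℤ) * (τ w : ℤ)) := by
    refine finsum_mono (gv_support h hN0)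
      ((s4.union s5).subset (Function.support_add _ _)) fun w => ?_
    have h3 := local_quot h hA.irr hA.deg hEκ hξ X.E_y₁ hEE w (fun I hI => ha I hI w) hN
    have hgA : gg w.1 A ≠ 0 := by
      rw [Ne, gg_eq_zero]
      exact hA0
    have hgN : gv w.1 N ≠ 0 := by
      rw [Ne, gv_eq_zero]
      exact hN0
    rw [log_le_iff_le_exp hgN]
    refine h3.trans (le_of_eq ?_)
    have e1 : gg w.1 A ^ d = exp ((d : ℤ) * log (gg w.1 A)) := by
      conv_lhs => rw [← exp_log hgA]
      rw [← exp_nsmul, nsmul_eq_mul]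
    have e2 : exp (τ w : ℤ) ^ A.natDegree = exp ((A.natDegree : ℤ) * (τ w : ℤ)) := by
      rw [← exp_nsmul, nsmul_eq_mul]
    rw [exp_add, e1, e2]
  rw [hsum] at h2
  have h4 : (A.natDegree : ℤ) * ∑ᶠ w, (τ w : ℤ) ≤ b * ∑ᶠ w, (τ w : ℤ) :=
    mul_le_mul_of_nonneg_right (by exact_mod_cast hA.box.1) hτ0
  linarith

end Pool.Agent.Lib.MP_44a246_ntSH
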