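import Mathlib
import Pool.Agent.Lib.MP_44a246_ntC.C06
import Pool.Agent.Lib.MP_44a246_ntE.E31
import Pool.Agent.Lib.MP_44a246_ntG.G14
import Pool.Agent.Lib.MP_44a246_ntSH.CV06
import Pool.Agent.Lib.MP_44a246_ntSH.CV12
import Pool.Agent.Lib.MP_44a246_ntSH.CV15
import Pool.Agent.Lib.MP_44a246_ntSH.CW01

/-!
The certificate of a point on a plane curve of small height, for several forms
(paper 619, (A7)-(A9), phase 2).
-/

namespace Pool.Agent.Lib.MP_44a246_ntSH

open Pool.Agent.Lib.MP_44a246_nt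
open Pool.Agent.Lib.MP_44a246_ntL
open Pool.Agent.Lib.MP_44a246_ntS
open Pool.Agent.Lib.MP_44a246_ntX
open Pool.Agent.Lib.MP_44a246_ntG
open Pool.Agent.Lib.MP_44a246_ntC
open Pool.Agent.Lib.MP_44a246_ntE
open Pool.Agent.Lib.MP_e52354_nt
open WithZero Module Polynomial

section

variable {κ L : Type*} [Field κ] [IsAlgClosed κ] [CharZero κ] [Field L] [CharZero L]
  [Algebra κ L] {n d₀ : ℕ} (X : DatG κ (L := L) n d₀) {b : ℕ} {A : L[X][X]} (hA : CrvG X b A)

include hA in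
private theorem lin₂_zero :
    (∑ j, C (C (algebraMap κ L (X.z j))) * X.B A j -
      Polynomial.X * derivative A).evalEval X.y₁ X.y = 0 := by
  have h1 : ∀ j, (C (C (algebraMap κ L (X.z j))) * X.B A j).evalEval X.y₁ X.y =
      (derivative A).evalEval X.y₁ X.y * (algebraMap κ L (X.z j) * X.x j) := by
    intro j
    rw [evalEval_mul, evalEval_CC, ← X.B_eval hA j]
    ring
  rw [evalEval_sub, evalEval_mul, evalEval_X, ← coe_evalEvalRingHom, map_sum]
  simp only [coe_evalEvalRingHom]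
  rw [Finset.sum_congr rfl fun j _ => h1 j, ← Finset.mul_sum]
  have h2 : ∑ j, algebraMap κ L (X.z j) * X.x j = X.y := rfl
  rw [h2]
  ring

include hA in
private theorem gh_lin₂ (h : IsFF κ L)
    (hP0 : ∑ j, C (C (algebraMap κ L (X.z j))) * X.B A j - Polynomial.X * derivative A ≠ 0) :
    gh κ (∑ j, C (C (algebraMap κ L (X.z j))) * X.B A j - Polynomial.X * derivative A) ≤
      2 * gh κ A + X.Δ := by
  have hA0 : A ≠ 0 := hA.irr.ne_zero
  have s2 : (Function.support fun w : Place κ L => (X.δ w : ℤ)).Finite := by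
    refine X.hδ.subset fun w hw h0 => hw ?_
    simp only
    rw [h0, Nat.cast_zero]
  have s3 := gg_support h hA0
  have s4 : (Function.support fun w : Place κ L => 2 * log (gg w.1 A)).Finite := by
    refine s3.subset fun w hw h0 => hw ?_
    have h0' : log (gg w.1 A) = 0 := h0
    simp only
    rw [h0', mul_zero]
  have s5 : (Function.support fun w : Place κ L => 2 * log (gg w.1 A) + (X.δ w : ℤ)).Finite :=
    (s4.union s2).subset (Function.support_add _ _)
  have hsum : ∑ᶠ w : Place κ L, (2 * log (gg w.1 A) + (X.δ w : ℤ)) = 2 * gh κ A + X.Δ := by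
    rw [finsum_add_distrib s4 s2, ← mul_finsum]
    rfl
  rw [← hsum]
  refine finsum_mono (gg_support h hP0) s5 fun w => ?_
  have h1 : gg w.1 (∑ j, C (C (algebraMap κ L (X.z j))) * X.B A j -
      Polynomial.X * derivative A) ≠ 0 := by
    rw [Ne, gg_eq_zero]
    exact hP0
  rw [log_le_iff_le_exp h1]
  have hgA : gg w.1 A ≠ 0 := by
    rw [Ne, gg_eq_zero]
    exact hA0
  have hB : ∀ j, gg w.1 (X.B A j) ≤ exp (2 * log (gg w.1 A) + (X.δ w : ℤ)) := by
    intro j
    have h2 := X.B_le hA j w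
    rw [← exp_log hgA, ← exp_nsmul, ← exp_add, nsmul_eq_mul, Nat.cast_ofNat] at h2
    exact h2
  have h2 : gg w.1 A ≤ exp (2 * log (gg w.1 A) + (X.δ w : ℤ)) := by
    have h3 : 0 ≤ log (gg w.1 A) := by
      rw [le_log_iff_exp_le hgA, exp_zero]
      exact one_le_gg hA.one w
    have h4 : gg w.1 A = exp (log (gg w.1 A)) := (exp_log hgA).symm
    conv_lhs => rw [h4]
    rw [exp_le_exp]
    have : (0 : ℤ) ≤ (X.δ w : ℤ) := Int.natCast_nonneg _
    linarith
  have h3 : gg w.1 (derivative A) ≤ exp (2 * log (gg w.1 A) + (X.δ w : ℤ)) :=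
    (gg_derivative_le w.1 A).trans h2
  refine (Valuation.map_sub _ _ _).trans (max_le ?_ ?_)
  · refine Valuation.map_sum_le _ fun j _ => ?_
    rw [map_mul, gg_CC]
    calc w.1 (algebraMap κ L (X.z j)) * gg w.1 (X.B A j)
        ≤ 1 * exp (2 * log (gg w.1 A) + (X.δ w : ℤ)) := by
          refine mul_le_mul' ?_ (hB j)
          by_cases hz : X.z j = 0
          · rw [hz, map_zero, map_zero]
            exact zero_le
          · exact (w.2.2 _ hz).le
      _ = _ := one_mul _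
  · have h4 : gg w.1 (Polynomial.X : L[X][X]) = 1 := gn_X (gv w.1)
    rw [map_mul, h4, one_mul]
    exact h3

private theorem natDegree_sum_le_box {c : Fin (n + 1) → L} {B : Fin (n + 1) → L[X][X]}
    (hB : ∀ j, (B j).natDegree ≤ b) : (∑ j, C (C (c j)) * B j).natDegree ≤ b := by
  refine natDegree_sum_le_of_forall_le _ _ fun j _ => ?_
  exact (natDegree_C_mul_le _ _).trans (hB j)

include hA in
/-- **Step C** of paper 619, for several forms. -/
theorem stepCSP (h : IsFF κ L)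
    (hEκ : ∀ j (u : κ), ∃ u' : κ, X.E j (algebraMap κ L u) = algebraMap κ L u')
    {ι : Type*} {d : ι → ℕ} {a : ι → (Fin (n + 1) →₀ ℕ) → L} {τ : Place κ L → ℕ}
    (hτ : (Function.support τ).Finite)
    (ha : ∀ i, ∀ I ∈ expo (Fin (n + 1)) (d i), ∀ w : Place κ L, w.1 (a i I) ≤ exp (τ w : ℤ))
    (hz : ∀ i, Fval (d i) (a i) X.x = 0)
    {N : ℕ} (hsl : ∀ Q : Submodule L (Fin (n + 1) → L), X.x ∈ Q → 2 * ht κ Q ≤ height κ X.x →
      N ≤ finrank L Q)
    (hspan : 9 * (b : ℤ) * gh κ A + 3 * b * X.Δ < height κ X.x)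
    (hh : ∀ i, (d i : ℤ) * gh κ A + b * ∑ᶠ w, (τ w : ℤ) < height κ X.x)
    (hlin : 2 * ((n : ℤ) + 1) * (3 * gh κ A + X.Δ) ≤ height κ X.x) :
    CertSP d a b N X.x := by
  have hgA : 0 ≤ gh κ A := gh_nonneg h hA.irr.ne_zero
  have hΔ : 0 ≤ X.Δ := X.Δ_nonneg
  have hb0 : (0 : ℤ) ≤ b := Int.natCast_nonneg b
  have hb1 : 1 ≤ b := by
    have h1 := hA.box.1
    have h2 := hA.deg
    omega
  have hb1' : (1 : ℤ) ≤ b := by exact_mod_cast hb1
  have hpos : gh κ A < height κ X.x := by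
    refine lt_of_le_of_lt ?_ hspan
    have h1 : 0 ≤ 3 * (b : ℤ) * X.Δ := by positivity
    have h2 : gh κ A ≤ (b : ℤ) * gh κ A := by nlinarith
    nlinarith
  have hlin1 : (b : ℤ) * gh κ A + b * (2 * gh κ A + X.Δ) < height κ X.x := by
    refine lt_of_le_of_lt ?_ hspan
    have h1 := mul_nonneg hb0 hgA
    have h2 := mul_nonneg hb0 hΔ
    nlinarith
  have hAd : (derivative A).natDegree ≤ b :=
    ((natDegree_derivative_le A).trans (Nat.sub_le _ _)).trans hA.box.1
  have hB : ∀ j, (X.B A j).natDegree ≤ b := fun j => (X.B_box hA j).1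
  have hlin' : ((1 : ℕ) * b : ℤ) * gh κ A + b * (2 * gh κ A + X.Δ) < height κ X.x := by
    push_cast
    rwa [one_mul]
  refine ⟨A, X.B A, fun j => (X.ξ₀ j : L), fun j => (X.ξ₁ j : L),
    fun j => algebraMap κ L (X.z j), 1, X.y₁, X.y, hA.irr, hA.box, X.B_box hA, one_ne_zero, ?_, ?_,
    ?_, hA.zero, hA.der, ?_, ?_, ?_, ?_, ?_, fun u => exists_proj_form_dat h X hA hspan u,
    indep_B h X hA hpos hsl hlin⟩
  · simpa only [one_mul] using X.h0
  · simp only [one_mul]
    rfl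
  · simp only [one_mul]
    rfl
  · intro j
    rw [one_mul]
    exact X.B_eval hA j
  · exact fun i => dvd_FB h X hA hEκ (fun j => dvd_EE X hA h hspan j j) hτ (ha i) (hz i) (hh i)
  · refine dvd_of_small X hA h (m := 1) ?_ (fun h0 => gh_lin X hA h h0 (Or.inl rfl))
      (lin₀_zero X hA) hlin'
    rw [one_mul]
    exact (natDegree_sub_le_of_le (natDegree_sum_le_box hB) hAd).trans (by rw [max_self])
  · refine dvd_of_small X hA h (m := 1) ?_ (fun h0 => gh_lin X hA h h0 (Or.inr rfl))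
      (lin₁_zero X hA) hlin'
    rw [one_mul]
    exact (natDegree_sub_le_of_le (natDegree_sum_le_box hB)
      ((natDegree_C_mul_le _ _).trans hAd)).trans (by rw [max_self])
  · refine dvd_of_small X hA h (m := 1) ?_ (gh_lin₂ X hA h) (lin₂_zero X hA) hlin'
    rw [one_mul]
    refine (natDegree_sub_le_of_le (natDegree_sum_le_box hB) ?_).trans (by rw [max_self])
    refine natDegree_mul_le.trans ?_
    rw [natDegree_X]
    have h1 := natDegree_derivative_le A
    have h2 := hA.box.1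
    have h3 := Nat.pos_of_ne_zero hA.deg
    omega

end

/-- **The certificate**, from a plane curve of small height through the projected point, for
several forms. -/
theorem certSP_of_plane {κ L : Type*} [Field κ] [IsAlgClosed κ] [CharZero κ] [Field L] [CharZero L]
    [Algebra κ L] (h : IsFF κ L) {n d₀ : ℕ} (X : DatG κ (L := L) n d₀)
    (hEκ : ∀ j (u : κ), ∃ u' : κ, X.E j (algebraMap κ L u) = algebraMap κ L u')
    {ι : Type*} {d : ι → ℕ} {a : ι → (Fin (n + 1) →₀ ℕ) → L} {τ : Place κ L → ℕ}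
    (hτ : (Function.support τ).Finite)
    (ha : ∀ i, ∀ I ∈ expo (Fin (n + 1)) (d i), ∀ w : Place κ L, w.1 (a i I) ≤ exp (τ w : ℤ))
    (hz : ∀ i, Fval (d i) (a i) X.x = 0)
    {N : ℕ} (hsl : ∀ Q : Submodule L (Fin (n + 1) → L), X.x ∈ Q → 2 * ht κ Q ≤ height κ X.x →
      N ≤ finrank L Q)
    {e b : ℕ} {P : MvPolynomial (Fin 3) L} (hP0 : P ≠ 0) (hPh : P.IsHomogeneous e) (heb : e ≤ b)
    (hPe : MvPolynomial.eval X.p P = 0)
    (hspan : 9 * (b : ℤ) * polyHeight κ P + 3 * b * X.Δ < height κ X.x)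
    (hh : ∀ i, (d i : ℤ) * polyHeight κ P + b * ∑ᶠ w, (τ w : ℤ) < height κ X.x)
    (hlin : 2 * ((n : ℤ) + 1) * (3 * polyHeight κ P + X.Δ) ≤ height κ X.x) :
    CertSP d a b N X.x := by
  have hP : 0 ≤ polyHeight κ P := polyHeight_nonneg h hP0
  have hΔ : 0 ≤ X.Δ := X.Δ_nonneg
  have hτ0 : 0 ≤ ∑ᶠ w, (τ w : ℤ) := finsum_nonneg fun w => Int.natCast_nonneg _
  have heb' : (e : ℤ) ≤ b := by exact_mod_cast heb
  obtain ⟨b', A, P', h1, h2, hA, -, -, -, -, hgh⟩ := exists_curve_hom h X hP0 hPh hPe (by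
    refine lt_of_le_of_lt ?_ hspan
    have h1 := mul_le_mul_of_nonneg_right heb' hP
    have h2 : 0 ≤ 3 * (b : ℤ) * X.Δ := by positivity
    have h3 : 0 ≤ (b : ℤ) * polyHeight κ P := by positivity
    nlinarith)
  have hb' : (b' : ℤ) ≤ b := by exact_mod_cast h2.trans heb
  have hgA : 0 ≤ gh κ A := gh_nonneg h hA.irr.ne_zero
  have k1 : (b' : ℤ) * gh κ A ≤ b * polyHeight κ P :=
    mul_le_mul hb' hgh hgA (Int.natCast_nonneg _)
  have k2 : (b' : ℤ) * X.Δ ≤ b * X.Δ := mul_le_mul_of_nonneg_right hb' hΔ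
  have k3 : (b' : ℤ) * ∑ᶠ w, (τ w : ℤ) ≤ b * ∑ᶠ w, (τ w : ℤ) :=
    mul_le_mul_of_nonneg_right hb' hτ0
  have k4 : ∀ i, (d i : ℤ) * gh κ A ≤ d i * polyHeight κ P := fun i =>
    mul_le_mul_of_nonneg_left hgh (Int.natCast_nonneg _)
  have k5 : 2 * ((n : ℤ) + 1) * (3 * gh κ A + X.Δ) ≤
      2 * ((n : ℤ) + 1) * (3 * polyHeight κ P + X.Δ) :=
    mul_le_mul_of_nonneg_left (by linarith) (by positivity)
  refine certSP_mono (h2.trans heb) (stepCSP X hA h hEκ hτ ha hz hsl ?_ (fun i => ?_)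
    (k5.trans hlin))
  · refine lt_of_le_of_lt ?_ hspan
    linarith
  · refine lt_of_le_of_lt ?_ (hh i)
    linarith [k4 i]

end Pool.Agent.Lib.MP_44a246_ntSH
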