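import Mathlib
import Pool.Agent.Lib.MP_44a246_ntF.F01

/-!
Functionals on forms in any number of variables: contraction by polynomials, in all degrees.
-/

namespace Pool.Agent.Lib.MP_44a246_ntSH

open Pool.Agent.Lib.MP_44a246_nt
open Pool.Agent.Lib.MP_44a246_ntL
open Pool.Agent.Lib.MP_44a246_ntS
open Pool.Agent.Lib.MP_44a246_ntF
open Pool.Agent.Lib.MP_e52354_nt
open WithZero Module

section

variable {L : Type*} [Field L] {n e : ℕ}

/-- the value of the functional `u` (on forms of degree `e`) on the monomial `K`; it is `0` if the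
degree of `K` is not `e` -/
noncomputable def ex (u : EX n e → L) (K : Fin n →₀ ℕ) : L :=
  if h : K ∈ expo (Fin n) e then u ⟨K, h⟩ else 0

theorem ex_of_mem (u : EX n e → L) {K : Fin n →₀ ℕ} (h : K ∈ expo (Fin n) e) :
    ex u K = u ⟨K, h⟩ := dif_pos h

theorem ex_coe (u : EX n e → L) (K : EX n e) : ex u K.1 = u K := ex_of_mem u K.2

theorem ex_of_degree (u : EX n e → L) {K : Fin n →₀ ℕ} (h : K.degree ≠ e) : ex u K = 0 :=
  dif_neg fun h1 => h (mem_expo.1 h1)

/-- the functional `u` as a functional on all polynomials -/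
noncomputable def pr (u : EX n e → L) : MvPolynomial (Fin n) L →ₗ[L] L :=
  (MvPolynomial.basisMonomials (Fin n) L).constr L (ex u)

theorem pr_monomial (u : EX n e → L) (K : Fin n →₀ ℕ) (c : L) :
    pr u (MvPolynomial.monomial K c) = c * ex u K := by
  have h1 : MvPolynomial.monomial K c = c • MvPolynomial.basisMonomials (Fin n) L K := by
    rw [MvPolynomial.coe_basisMonomials, MvPolynomial.smul_monomial, smul_eq_mul, mul_one]
  rw [h1, map_smul, pr, Basis.constr_basis, smul_eq_mul]

theorem pr_eq_sum (u : EX n e → L) (p : MvPolynomial (Fin n) L) :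
    pr u p = ∑ K ∈ p.support, p.coeff K * ex u K := by
  conv_lhs => rw [p.as_sum, map_sum]
  exact Finset.sum_congr rfl fun K _ => pr_monomial u K _

theorem pr_add (u v : EX n e → L) (p : MvPolynomial (Fin n) L) :
    pr (u + v) p = pr u p + pr v p := by
  rw [pr_eq_sum, pr_eq_sum, pr_eq_sum, ← Finset.sum_add_distrib]
  refine Finset.sum_congr rfl fun K _ => ?_
  have h1 : ex (u + v) K = ex u K + ex v K := by
    unfold ex
    split_ifs <;> simp
  rw [h1, mul_add]

theorem pr_smul (c : L) (u : EX n e → L) (p : MvPolynomial (Fin n) L) :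
    pr (c • u) p = c * pr u p := by
  rw [pr_eq_sum, pr_eq_sum, Finset.mul_sum]
  refine Finset.sum_congr rfl fun K _ => ?_
  have h1 : ex (c • u) K = c * ex u K := by
    unfold ex
    split_ifs <;> simp
  rw [h1]
  ring

/-- contraction of functionals on forms of degree `e` by a polynomial: a functional on forms of
degree `i` (useful if the polynomial is homogeneous of degree `j` with `i + j = e`) -/
noncomputable def cf (f : MvPolynomial (Fin n) L) (i : ℕ) : (EX n e → L) →ₗ[L] (EX n i → L) where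
  toFun u ψ := pr u (MvPolynomial.monomial ψ.1 1 * f)
  map_add' u v := by
    funext ψ
    exact pr_add u v _
  map_smul' c u := by
    funext ψ
    exact pr_smul c u _

theorem cf_apply (f : MvPolynomial (Fin n) L) (i : ℕ) (u : EX n e → L) (ψ : EX n i) :
    cf f i u ψ = pr u (MvPolynomial.monomial ψ.1 1 * f) := rfl

theorem cf_add (f g : MvPolynomial (Fin n) L) (i : ℕ) (u : EX n e → L) :
    cf (f + g) i u = cf f i u + cf g i u := by
  funext ψ
  rw [cf_apply, mul_add, map_add, Pi.add_apply, cf_apply, cf_apply]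

theorem cf_sub (f g : MvPolynomial (Fin n) L) (i : ℕ) (u : EX n e → L) :
    cf (f - g) i u = cf f i u - cf g i u := by
  funext ψ
  rw [cf_apply, mul_sub, map_sub, Pi.sub_apply, cf_apply, cf_apply]

theorem cf_zero (i : ℕ) (u : EX n e → L) : cf (0 : MvPolynomial (Fin n) L) i u = 0 := by
  funext ψ
  rw [cf_apply, mul_zero, map_zero, Pi.zero_apply]

theorem cf_smul (c : L) (f : MvPolynomial (Fin n) L) (i : ℕ) (u : EX n e → L) :
    cf (c • f) i u = c • cf f i u := by
  funext ψ
  rw [cf_apply, mul_smul_comm, map_smul, Pi.smul_apply, cf_apply]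

theorem cf_sum {ι : Type*} (s : Finset ι) (f : ι → MvPolynomial (Fin n) L) (i : ℕ)
    (u : EX n e → L) : cf (∑ t ∈ s, f t) i u = ∑ t ∈ s, cf (f t) i u := by
  funext ψ
  rw [cf_apply, Finset.mul_sum, map_sum, Finset.sum_apply]
  rfl

/-- a contraction, evaluated at a form of degree `i` -/
theorem pr_cf (g : MvPolynomial (Fin n) L) {i : ℕ} (u : EX n e → L) {p : MvPolynomial (Fin n) L}
    (hp : p.IsHomogeneous i) : pr (cf g i u) p = pr u (p * g) := by
  rw [pr_eq_sum]
  conv_rhs => rw [p.as_sum, Finset.sum_mul, map_sum]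
  refine Finset.sum_congr rfl fun K hK => ?_
  have h1 : K ∈ expo (Fin n) i := by
    rw [mem_expo]
    have h2 := hp (MvPolynomial.mem_support_iff.1 hK)
    rw [Finsupp.degree_eq_weight_one]
    exact h2
  rw [ex_of_mem _ h1, cf_apply]
  have h3 : (MvPolynomial.monomial K (p.coeff K) : MvPolynomial (Fin n) L) * g =
      p.coeff K • ((MvPolynomial.monomial K 1 : MvPolynomial (Fin n) L) * g) := by
    rw [← smul_mul_assoc, MvPolynomial.smul_monomial, smul_eq_mul, mul_one]
  rw [h3, map_smul, smul_eq_mul]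

/-- contraction by a product -/
theorem cf_mul {f : MvPolynomial (Fin n) L} (g : MvPolynomial (Fin n) L) {i j i' : ℕ}
    (hf : f.IsHomogeneous j) (hi : i + j = i') (u : EX n e → L) :
    cf (f * g) i u = cf f i (cf g i' u) := by
  subst hi
  funext ψ
  have h1 : ((MvPolynomial.monomial ψ.1 1 : MvPolynomial (Fin n) L) * f).IsHomogeneous (i + j) :=
    (MvPolynomial.isHomogeneous_monomial _ (mem_expo.1 ψ.2)).mul hf
  rw [cf_apply, cf_apply, pr_cf g u h1, mul_assoc]

/-- evaluation at a point -/
theorem pr_xm (x : Fin n → L) {p : MvPolynomial (Fin n) L} (hp : p.IsHomogeneous e) :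
    pr (xm e x) p = MvPolynomial.eval x p := by
  rw [pr_eq_sum, MvPolynomial.eval_eq]
  refine Finset.sum_congr rfl fun K hK => ?_
  have h1 : K ∈ expo (Fin n) e := by
    rw [mem_expo]
    have h2 := hp (MvPolynomial.mem_support_iff.1 hK)
    rw [Finsupp.degree_eq_weight_one]
    exact h2
  rw [ex_of_mem _ h1]
  unfold xm mon
  congr 1
  refine (Finset.prod_subset (Finset.subset_univ _) ?_).symm
  intro j _ hj
  rw [Finsupp.notMem_support_iff.1 hj, pow_zero]

theorem cf_xm {f : MvPolynomial (Fin n) L} {i j : ℕ} (hf : f.IsHomogeneous j) (hi : i + j = e)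
    (x : Fin n → L) : cf f i (xm e x) = MvPolynomial.eval x f • xm i x := by
  subst hi
  funext ψ
  have h1 : ((MvPolynomial.monomial ψ.1 1 : MvPolynomial (Fin n) L) * f).IsHomogeneous (i + j) :=
    (MvPolynomial.isHomogeneous_monomial _ (mem_expo.1 ψ.2)).mul hf
  rw [cf_apply, pr_xm x h1, map_mul, Pi.smul_apply, smul_eq_mul, mul_comm]
  congr 1
  have h2 := pr_xm (e := i) x (MvPolynomial.isHomogeneous_monomial (1 : L) (mem_expo.1 ψ.2))
  rw [pr_monomial, one_mul, ex_coe] at h2
  exact h2.symm

/-- the space spanned by all the contractions in degree `i` of the elements of `W` -/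
noncomputable def lam (i : ℕ) (W : Submodule L (EX n e → L)) : Submodule L (EX n i → L) :=
  ⨆ φ : EX n (e - i), W.map (cf (MvPolynomial.monomial φ.1 1) i)

theorem cf_mem_lam {i j : ℕ} (hi : i + j = e) {W : Submodule L (EX n e → L)} {u : EX n e → L}
    (hu : u ∈ W) {f : MvPolynomial (Fin n) L} (hf : f.IsHomogeneous j) : cf f i u ∈ lam i W := by
  rw [f.as_sum, cf_sum]
  refine Submodule.sum_mem _ fun K hK => ?_
  have h1 : K ∈ expo (Fin n) (e - i) := by
    rw [mem_expo]
    have h2 := hf (MvPolynomial.mem_support_iff.1 hK)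
    rw [Finsupp.degree_eq_weight_one]
    have h3 : e - i = j := by omega
    rw [h3]
    exact h2
  have h4 : (MvPolynomial.monomial K (f.coeff K) : MvPolynomial (Fin n) L) =
      f.coeff K • MvPolynomial.monomial K 1 := by
    rw [MvPolynomial.smul_monomial, smul_eq_mul, mul_one]
  rw [h4, cf_smul]
  exact Submodule.smul_mem _ _ (Submodule.mem_iSup_of_mem (⟨K, h1⟩ : EX n (e - i)) ⟨u, hu, rfl⟩)

theorem lam_le {i : ℕ} {W : Submodule L (EX n e → L)} {Λ : Submodule L (EX n i → L)}
    (h : ∀ φ : EX n (e - i), ∀ u ∈ W, cf (MvPolynomial.monomial φ.1 1) i u ∈ Λ) : lam i W ≤ Λ := by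
  refine iSup_le fun φ => ?_
  rintro _ ⟨u, hu, rfl⟩
  exact h φ u hu

theorem lam_mono {i : ℕ} {W W' : Submodule L (EX n e → L)} (h : W ≤ W') : lam i W ≤ lam i W' :=
  iSup_mono fun _ => Submodule.map_mono h

theorem cf_one (u : EX n e → L) : cf (1 : MvPolynomial (Fin n) L) e u = u := by
  funext ψ
  rw [cf_apply, mul_one, pr_monomial, one_mul, ex_coe]

theorem lam_self (W : Submodule L (EX n e → L)) : lam e W = W := by
  refine le_antisymm (lam_le fun φ u hu => ?_) fun u hu => ?_
  · have h1 : φ.1 = 0 := by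
      have h2 : φ.1.degree = 0 := by
        have h3 := mem_expo.1 φ.2
        rw [h3]; exact Nat.sub_self e
      rwa [Finsupp.degree_eq_zero_iff] at h2
    rw [h1]
    have h3 : (MvPolynomial.monomial 0 1 : MvPolynomial (Fin n) L) = 1 := rfl
    rw [h3, cf_one]
    exact hu
  · have h1 := cf_mem_lam (n := n) (add_zero e) hu
      (f := (1 : MvPolynomial (Fin n) L)) (MvPolynomial.isHomogeneous_one _ _)
    rwa [cf_one] at h1

theorem lam_lam {i i' : ℕ} (h1 : i ≤ i') (h2 : i' ≤ e) (W : Submodule L (EX n e → L)) :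
    lam i (lam i' W) = lam i W := by
  obtain ⟨j, rfl⟩ := Nat.exists_eq_add_of_le h1
  obtain ⟨k, rfl⟩ := Nat.exists_eq_add_of_le h2
  refine le_antisymm (lam_le fun φ v hv => ?_) (lam_le fun φ u hu => ?_)
  · -- contraction of a generator
    have h3 : lam (i + j) W ≤ (lam i W).comap (cf (MvPolynomial.monomial φ.1 1) i) := by
      refine lam_le fun ψ u hu => ?_
      rw [Submodule.mem_comap, ← cf_mul (j := j) _ (MvPolynomial.isHomogeneous_monomial _ (by
        have := mem_expo.1 φ.2
        rw [this]; omega)) rfl]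
      refine cf_mem_lam (j := j + k) (by omega) hu ?_
      refine MvPolynomial.IsHomogeneous.mul (MvPolynomial.isHomogeneous_monomial _ ?_)
        (MvPolynomial.isHomogeneous_monomial _ ?_)
      · have := mem_expo.1 φ.2
        rw [this]; omega
      · have := mem_expo.1 ψ.2
        rw [this]; omega
    exact h3 hv
  · -- a monomial of degree `j + k` is a product
    have h3 : φ.1.degree = j + k := by
      have := mem_expo.1 φ.2
      rw [this]; omega
    obtain ⟨a, b, hab, ha, hb⟩ : ∃ a b : Fin n →₀ ℕ, φ.1 = a + b ∧ a.degree = j ∧ b.degree = k := by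
      clear hu u
      have key : ∀ (j : ℕ) (K : Fin n →₀ ℕ), K.degree = j + k →
          ∃ a b : Fin n →₀ ℕ, K = a + b ∧ a.degree = j ∧ b.degree = k := by
        intro j
        induction j with
        | zero => exact fun K hK => ⟨0, K, by simp, by simp, by rw [hK]; omega⟩
        | succ j ih =>
          intro K hK
          obtain ⟨l, ψ, hψ⟩ := exists_up (n := n) (d := j + k) ⟨K, by
            rw [mem_expo, hK]; omega⟩
          obtain ⟨a, b, hab, ha, hb⟩ := ih ψ.1 (mem_expo.1 ψ.2)
          have h4 : K = ψ.1 + Finsupp.single l 1 := congrArg Subtype.val hψ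
          refine ⟨a + Finsupp.single l 1, b, ?_, ?_, hb⟩
          · rw [h4, hab]
            abel
          · rw [map_add, ha, Finsupp.degree_single]
      exact key j φ.1 h3
    have h4 : (MvPolynomial.monomial φ.1 1 : MvPolynomial (Fin n) L) =
        MvPolynomial.monomial a 1 * MvPolynomial.monomial b 1 := by
      rw [MvPolynomial.monomial_mul, hab, mul_one]
    rw [h4, cf_mul (j := j) (i' := i + j) _ (MvPolynomial.isHomogeneous_monomial _ ha) rfl]
    refine cf_mem_lam (j := j) rfl ?_ (MvPolynomial.isHomogeneous_monomial _ ha)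
    exact cf_mem_lam (j := k) rfl hu (MvPolynomial.isHomogeneous_monomial _ hb)

/-- the vector of the monomials is in the space of the contractions -/
theorem xm_mem_lam {i : ℕ} (hi : i ≤ e) {x : Fin n → L} (hx : x ≠ 0)
    {W : Submodule L (EX n e → L)} (hW : xm e x ∈ W) : xm i x ∈ lam i W := by
  obtain ⟨j, rfl⟩ := Nat.exists_eq_add_of_le hi
  obtain ⟨l, hl⟩ := Function.ne_iff.1 hx
  have h1 := cf_mem_lam (i := i) (j := j) rfl hW
    (f := MvPolynomial.X l ^ j) (by
      have := (MvPolynomial.isHomogeneous_X L l).pow j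
      simpa using this)
  rw [cf_xm (j := j) (by
      have := (MvPolynomial.isHomogeneous_X L l).pow j
      simpa using this) rfl, map_pow, MvPolynomial.eval_X] at h1
  have h2 := (lam i W).smul_mem (x l ^ j)⁻¹ h1
  rwa [smul_smul, inv_mul_cancel₀ (pow_ne_zero _ hl), one_smul] at h2

/-- the matrix of a contraction -/
noncomputable def Mcf (f : MvPolynomial (Fin n) L) (i e : ℕ) : Matrix (EX n i) (EX n e) L :=
  Matrix.of fun ψ I => ∑ K ∈ f.support, if ψ.1 + K = I.1 then f.coeff K else 0

theorem cf_eq_sum (f : MvPolynomial (Fin n) L) (i : ℕ) (u : EX n e → L) (ψ : EX n i) :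
    cf f i u ψ = ∑ K ∈ f.support, f.coeff K * ex u (ψ.1 + K) := by
  rw [cf_apply]
  conv_lhs => rw [f.as_sum, Finset.mul_sum, map_sum]
  refine Finset.sum_congr rfl fun K _ => ?_
  rw [MvPolynomial.monomial_mul, one_mul, pr_monomial]

theorem Mcf_mulVec (f : MvPolynomial (Fin n) L) (i : ℕ) (u : EX n e → L) :
    (Mcf f i e).mulVec u = cf f i u := by
  funext ψ
  rw [cf_eq_sum]
  unfold Matrix.mulVec dotProduct
  have h1 : ∀ I : EX n e, Mcf f i e ψ I * u I =
      ∑ K ∈ f.support, if ψ.1 + K = I.1 then f.coeff K * u I else 0 := by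
    intro I
    simp only [Mcf, Matrix.of_apply, Finset.sum_mul]
    refine Finset.sum_congr rfl fun K _ => ?_
    split_ifs <;> simp
  rw [Finset.sum_congr rfl fun I _ => h1 I, Finset.sum_comm]
  refine Finset.sum_congr rfl fun K _ => ?_
  by_cases h2 : ψ.1 + K ∈ expo (Fin n) e
  · rw [Finset.sum_eq_single ⟨ψ.1 + K, h2⟩]
    · rw [if_pos rfl, ex_of_mem u h2]
    · intro I _ hI
      rw [if_neg]
      intro h3
      exact hI (Subtype.ext h3.symm)
    · intro h3
      exact absurd (Finset.mem_univ _) h3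
  · rw [ex, dif_neg h2, mul_zero]
    refine Finset.sum_eq_zero fun I _ => ?_
    rw [if_neg]
    intro h3
    apply h2
    rw [h3]
    exact I.2

theorem Mcf_le (v : Valuation L ℤᵐ⁰) {f : MvPolynomial (Fin n) L} {B : ℤᵐ⁰}
    (hf : ∀ K, v (f.coeff K) ≤ B) (i e : ℕ) (ψ : EX n i) (I : EX n e) :
    v (Mcf f i e ψ I) ≤ B := by
  unfold Mcf
  rw [Matrix.of_apply]
  refine Valuation.map_sum_le v fun K _ => ?_
  split_ifs
  · exact hf K
  · rw [map_zero]; exact zero_le

end

end Pool.Agent.Lib.MP_44a246_ntSH
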