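import Mathlib
import Pool.Agent.Lib.MP_44a246_ntSH.H00
import Pool.Agent.Lib.MP_44a246_ntO.O05a
import Pool.Agent.Lib.MP_44a246_ntO.O05b
import Pool.Agent.Lib.MP_44a246_ntO.O06

/-!
Contraction of the spaces with large slopes by a form whose values are bounded on the space.
Paper 619, section 1.
-/

namespace Pool.Agent.Lib.MP_44a246_ntSH

open Pool.Agent.Lib.MP_44a246_nt
open Pool.Agent.Lib.MP_44a246_ntL
open Pool.Agent.Lib.MP_44a246_ntS
open Pool.Agent.Lib.MP_44a246_ntF
open Pool.Agent.Lib.MP_44a246_ntO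
open Pool.Agent.Lib.MP_e52354_nt
open WithZero Module

/-- The form `f` of degree `j` is, on the space `Λ` of functionals on the forms of degree `j`, at
the place `w` equal to a form whose coefficients are at most `exp (τ w)`. -/
def LocB (κ : Type*) {L : Type*} [Field κ] [Field L] [Algebra κ L] {n j : ℕ}
    (Λ : Submodule L (EX n j → L)) (f : MvPolynomial (Fin n) L) (τ : Place κ L → ℤ) : Prop :=
  ∀ w : Place κ L, ∃ m : MvPolynomial (Fin n) L, m.IsHomogeneous j ∧
    (∀ K, w.1 (m.coeff K) ≤ exp (τ w)) ∧ ∀ y ∈ Λ, pr y m = pr y f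

section

variable {L : Type*} [Field L] {n e : ℕ}

/-- forms of degree `j` which agree on `lam j W` have the same contractions on `W` -/
theorem cf_congr {i j : ℕ} (hi : i + j = e) {W : Submodule L (EX n e → L)}
    {f m : MvPolynomial (Fin n) L} (hf : f.IsHomogeneous j) (hmh : m.IsHomogeneous j)
    (hm : ∀ y ∈ lam j W, pr y m = pr y f) {u : EX n e → L} (hu : u ∈ W) :
    cf m i u = cf f i u := by
  funext ψ
  rw [cf_apply, cf_apply, mul_comm, mul_comm _ f, ← pr_cf _ u hmh, ← pr_cf _ u hf]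
  exact hm _ (cf_mem_lam (j := i) (by omega) hu
    (MvPolynomial.isHomogeneous_monomial _ (mem_expo.1 ψ.2)))

/-- contractions of a contraction -/
theorem lam_map_le {i j k : ℕ} (hi : i + j = e) (hk : k ≤ i) {W : Submodule L (EX n e → L)}
    {f : MvPolynomial (Fin n) L} (hf : f.IsHomogeneous j) : lam k (W.map (cf f i)) ≤ lam k W := by
  refine lam_le fun φ v hv => ?_
  obtain ⟨u, hu, rfl⟩ := hv
  rw [← cf_mul (j := i - k) _ (MvPolynomial.isHomogeneous_monomial _ (mem_expo.1 φ.2))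
    (by omega)]
  exact cf_mem_lam (j := i - k + j) (by omega) hu
    ((MvPolynomial.isHomogeneous_monomial _ (mem_expo.1 φ.2)).mul hf)

theorem coeff_mul_le (v : Valuation L ℤᵐ⁰) {f g : MvPolynomial (Fin n) L} {A B : ℤᵐ⁰}
    (hf : ∀ K, v (f.coeff K) ≤ A) (hg : ∀ K, v (g.coeff K) ≤ B) (K : Fin n →₀ ℕ) :
    v ((f * g).coeff K) ≤ A * B := by
  rw [MvPolynomial.coeff_mul]
  refine Valuation.map_sum_le v fun p _ => ?_
  rw [map_mul]
  exact mul_le_mul' (hf _) (hg _)

theorem coeff_pow_le (v : Valuation L ℤᵐ⁰) {f : MvPolynomial (Fin n) L} {A : ℤᵐ⁰}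
    (hf : ∀ K, v (f.coeff K) ≤ A) (k : ℕ) (K : Fin n →₀ ℕ) :
    v ((f ^ k).coeff K) ≤ A ^ k := by
  induction k generalizing K with
  | zero =>
    rw [pow_zero, pow_zero, MvPolynomial.coeff_one]
    split_ifs
    · rw [map_one]
    · rw [map_zero]; exact zero_le
  | succ k ih =>
    rw [pow_succ, pow_succ]
    exact coeff_mul_le v ih hf K

end

variable {κ L : Type*} [Field κ] [IsAlgClosed κ] [CharZero κ] [Field L] [Algebra κ L] {n e : ℕ}

omit [IsAlgClosed κ] [CharZero κ] in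
/-- powers of a form with local bounds -/
theorem LocB.pow {j : ℕ} {W : Submodule L (EX n e → L)} {f : MvPolynomial (Fin n) L}
    {τ : Place κ L → ℤ} (hf : f.IsHomogeneous j) (hb : LocB κ (lam j W) f τ) {i k : ℕ}
    (hi : i + k * j = e) (w : Place κ L) :
    ∃ m : MvPolynomial (Fin n) L, m.IsHomogeneous (k * j) ∧
      (∀ K, w.1 (m.coeff K) ≤ exp (k * τ w)) ∧ ∀ u ∈ W, cf m i u = cf (f ^ k) i u := by
  obtain ⟨m, hm1, hm2, hm3⟩ := hb w
  refine ⟨m ^ k, ?_, ?_, ?_⟩
  · rw [mul_comm]; exact hm1.pow k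
  · intro K
    have h1 := coeff_pow_le w.1 hm2 k K
    rwa [← exp_nsmul, nsmul_eq_mul] at h1
  · clear hm2
    induction k generalizing i with
    | zero => intro u _; rw [pow_zero, pow_zero]
    | succ k ih =>
      intro u hu
      have e1 : i + j + k * j = e := by rw [← hi]; ring
      rw [pow_succ', pow_succ', cf_mul (j := j) _ hm1 rfl, cf_mul (j := j) _ hf rfl,
        ih e1 u hu]
      have h2 : cf (f ^ k) (i + j) u ∈ W.map (cf (f ^ k) (i + j)) := ⟨u, hu, rfl⟩
      refine cf_congr rfl hf hm1 (fun y hy => hm3 y ?_) h2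
      exact lam_map_le (j := k * j) e1 (by omega) (by rw [mul_comm]; exact hf.pow k) hy

/-- The cost after a contraction by a form (paper 619, (1a)). -/
theorem contr_cost (h : IsFF κ L) {x : Fin n → L} {i j : ℕ} (hi : i + j = e)
    {W : Submodule L (EX n e → L)} {f : MvPolynomial (Fin n) L} {a : ℤ} {τ : Place κ L → ℤ}
    (hτ : (Function.support τ).Finite) (hsum : ∑ᶠ w, τ w = -a)
    (hm : ∀ w : Place κ L, ∃ m : MvPolynomial (Fin n) L, m.IsHomogeneous j ∧
      (∀ K, w.1 (m.coeff K) ≤ exp (τ w)) ∧ ∀ u ∈ W, cf m i u = cf f i u) :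
    (e * (height κ x : ℝ) - ht κ W) + ht κ (W ⊓ LinearMap.ker (cf f i)) ≤
      (j * (height κ x : ℝ) - a) + ((i * (height κ x : ℝ) - ht κ (W.map (cf f i))) -
        a * ((finrank L (W.map (cf f i)) : ℝ) - 1)) := by
  choose m hm1 hm2 hm3 using hm
  have hAW : W ⊓ LinearMap.ker (cf (e := e) f i) ≤ W := inf_le_left
  have hA : (W ⊓ LinearMap.ker (cf (e := e) f i)).map (cf f i) ≤ ⊥ := by
    rintro _ ⟨u, hu, rfl⟩
    exact (Submodule.mem_bot L).2 (LinearMap.mem_ker.1 hu.2)
  have hinj : ∀ b ∈ W, cf f i b ∈ (⊥ : Submodule L (EX n i → L)) →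
      b ∈ W ⊓ LinearMap.ker (cf (e := e) f i) := fun b hb hTb =>
    ⟨hb, LinearMap.mem_ker.2 ((Submodule.mem_bot L).1 hTb)⟩
  have key := ht_mapw h (cf f i) (fun w => Mcf (m w) i e) hτ
    (fun w φ I => Mcf_le w.1 (hm2 w) i e φ I)
    (A := W ⊓ LinearMap.ker (cf f i)) (B := W) (A' := ⊥) (fun w b hb => by
      rw [Mcf_mulVec]
      exact hm3 w b hb) hAW hA hinj
  have hfr := finrank_sup_map hAW (cf f i) hA hinj
  rw [bot_sup_eq, ht_bot h, hsum] at key
  rw [bot_sup_eq, finrank_bot, zero_add] at hfr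
  have h1 : (ht κ (W.map (cf f i)) : ℝ) + ht κ (W ⊓ LinearMap.ker (cf f i)) ≤
      ht κ W - a * finrank L (W.map (cf f i)) := by
    have h2 : ((finrank L W : ℤ) - finrank L (W ⊓ LinearMap.ker (cf f i) : Submodule L _)) =
        finrank L (W.map (cf f i)) := by
      have : (finrank L (W.map (cf f i)) : ℤ) +
          finrank L (W ⊓ LinearMap.ker (cf f i) : Submodule L _) = finrank L W := by
        exact_mod_cast hfr
      linarith
    rw [h2] at key
    have h3 : (ht κ (W.map (cf f i)) : ℤ) + ht κ (W ⊓ LinearMap.ker (cf f i)) ≤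
      ht κ W - a * finrank L (W.map (cf f i)) := by linarith
    exact_mod_cast h3
  have e1 : (e : ℝ) = i + j := by rw [← hi]; push_cast; ring
  rw [e1]
  linarith

/-- The slopes after a contraction by a form. -/
theorem contr_hasSl (h : IsFF κ L) {x : Fin n → L} {t : ℝ} {i j : ℕ} (hi : i + j = e)
    {W : Submodule L (EX n e → L)} (hW : HasSl κ t (xm e x) W) {f : MvPolynomial (Fin n) L}
    (hf : f.IsHomogeneous j) (hfx : MvPolynomial.eval x f ≠ 0) {a : ℤ} {τ : Place κ L → ℤ}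
    (hτ : (Function.support τ).Finite) (hsum : ∑ᶠ w, τ w = -a)
    (hm : ∀ w : Place κ L, ∃ m : MvPolynomial (Fin n) L, m.IsHomogeneous j ∧
      (∀ K, w.1 (m.coeff K) ≤ exp (τ w)) ∧ ∀ u ∈ W, cf m i u = cf f i u) :
    HasSl κ (t + a) (xm i x) (W.map (cf f i)) := by
  choose m hm1 hm2 hm3 using hm
  have h1 := HasSl_mapw h hW (cf f i) (fun w => Mcf (m w) i e) hτ
    (fun w φ I => Mcf_le w.1 (hm2 w) i e φ I)
    (fun w b hb => by rw [Mcf_mulVec]; exact hm3 w b hb) hfx (cf_xm hf hi x)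
  rw [hsum] at h1
  have e1 : t - ((-a : ℤ) : ℝ) = t + a := by push_cast; ring
  rwa [e1] at h1

/-- A form of small height does not vanish at the point, if it does not vanish on the space
(paper 619, (1d)). -/
theorem eval_ne_zero (h : IsFF κ L) {x : Fin n → L} {t : ℝ} {i j : ℕ} (hi : i + j = e)
    {W : Submodule L (EX n e → L)} (hW : HasSl κ t (xm e x) W) {f : MvPolynomial (Fin n) L}
    (hf : f.IsHomogeneous j) {a : ℤ} (hta : 0 < t + a) {τ : Place κ L → ℤ}
    (hτ : (Function.support τ).Finite) (hsum : ∑ᶠ w, τ w = -a)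
    (hb : LocB κ (lam j W) f τ) (hne : ∃ y ∈ lam j W, pr y f ≠ 0) :
    MvPolynomial.eval x f ≠ 0 := by
  classical
  intro hlx
  obtain ⟨y, hy, hly⟩ := hne
  choose m hm1 hm2 hm3 using hb
  set T := cf (e := e) f i with hT
  set A : Submodule L (EX n e → L) := W ⊓ LinearMap.ker T with hA
  have hxA : xm e x ∈ A :=
    ⟨hW.mem, LinearMap.mem_ker.2 (by rw [hT, cf_xm hf hi, hlx, zero_smul])⟩
  have hAW : A ≤ W := inf_le_left
  have key := ht_mapw h T (fun w => Mcf (m w) i e) hτ (fun w φ I => Mcf_le w.1 (hm2 w) i e φ I)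
    (A := A) (B := W) (A' := ⊥) (fun w b hb => by
      rw [Mcf_mulVec]
      exact cf_congr hi hf (hm1 w) (hm3 w) hb) hAW
    (by
      rintro _ ⟨u, hu, rfl⟩
      exact (Submodule.mem_bot L).2 (LinearMap.mem_ker.1 hu.2))
    (fun b hb hTb => ⟨hb, LinearMap.mem_ker.2 ((Submodule.mem_bot L).1 hTb)⟩)
  rw [ht_bot h, hsum] at key
  have h1 := ht_nonneg h (κ := κ) (⊥ ⊔ W.map T)
  have h2 := hW.le A hAW hxA
  have h3 : finrank L A ≤ finrank L W := Submodule.finrank_mono hAW
  have h4 : ht κ A ≤ ht κ W + -a * ((finrank L W : ℤ) - finrank L A) := by linarith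
  have h5 : (ht κ A : ℝ) ≤ ht κ W + -a * ((finrank L W : ℝ) - finrank L A) := by
    exact_mod_cast h4
  have h6 : (t + a) * ((finrank L W : ℝ) - finrank L A) ≤ 0 := by nlinarith
  have h7 : (finrank L W : ℝ) - finrank L A ≤ 0 := by
    by_contra h8
    push Not at h8
    have := mul_pos hta h8
    linarith
  have h8 : finrank L W ≤ finrank L A := by
    have : (finrank L W : ℝ) ≤ finrank L A := by linarith
    exact_mod_cast this
  have h9 : A = W := Submodule.eq_of_le_of_finrank_le hAW h8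
  have h10 : ∀ u ∈ W, T u = 0 := fun u hu => by
    rw [← h9] at hu
    exact LinearMap.mem_ker.1 hu.2
  -- so `f` vanishes on `lam j W`
  apply hly
  have h11 : lam j W ≤ LinearMap.ker ((LinearMap.applyₗ f).comp
      ({ toFun := pr, map_add' := fun u v => LinearMap.ext (pr_add u v),
         map_smul' := fun c u => LinearMap.ext (pr_smul c u) } :
        (EX n j → L) →ₗ[L] (MvPolynomial (Fin n) L →ₗ[L] L))) := by
    refine lam_le fun φ u hu => ?_
    rw [LinearMap.mem_ker]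
    change pr (cf (MvPolynomial.monomial φ.1 1) j u) f = 0
    rw [pr_cf _ u hf, mul_comm]
    have h12 := congrFun (h10 u hu) (⟨φ.1, by
      rw [mem_expo, mem_expo.1 φ.2]; omega⟩ : EX n i)
    rw [hT, cf_apply] at h12
    exact h12
  exact LinearMap.mem_ker.1 (h11 hy)

end Pool.Agent.Lib.MP_44a246_ntSH
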