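import Mathlib
import Pool.Agent.Lib.MP_44a246_ntSH.H01
import Pool.Agent.Lib.MP_44a246_ntO.O10

/-!
The key lemma (paper 619, section 1) for forms of any degree.
-/

namespace Pool.Agent.Lib.MP_44a246_ntSH

open Pool.Agent.Lib.MP_44a246_nt
open Pool.Agent.Lib.MP_44a246_ntL
open Pool.Agent.Lib.MP_44a246_ntS
open Pool.Agent.Lib.MP_44a246_ntF
open Pool.Agent.Lib.MP_44a246_ntO
open Pool.Agent.Lib.MP_e52354_nt
open WithZero Module

variable {κ L : Type*} [Field κ] [IsAlgClosed κ] [CharZero κ] [Field L] [Algebra κ L] {n e : ℕ}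

/-- a linear form of large degree on `Λ`: a form `f` of degree `i`, not zero on `Λ`, with local
bounds of sum `-a` -/
structure Fnl (κ : Type*) {L : Type*} [Field κ] [Field L] [Algebra κ L] {n i : ℕ}
    (Λ : Submodule L (EX n i → L)) (a : ℤ) (f : MvPolynomial (Fin n) L)
    (τ : Place κ L → ℤ) : Prop where
  hom : f.IsHomogeneous i
  fin : (Function.support τ).Finite
  sum : ∑ᶠ w, τ w = -a
  loc : LocB κ Λ f τ
  ne : ∃ y ∈ Λ, pr y f ≠ 0

/-- **The key lemma.** Contraction by the `k`-th power of a form with large degree on `lam i W`. -/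
theorem p3 (h : IsFF κ L) {x : Fin n → L} (hx : x ≠ 0) {t : ℝ} {i k r : ℕ} (hr : r + k * i = e)
    (hk : 1 ≤ k) {W : Submodule L (EX n e → L)} (hW : HasSl κ t (xm e x) W)
    {f : MvPolynomial (Fin n) L} {a : ℤ} (hta : 0 < t + a) {τ : Place κ L → ℤ}
    (hf : Fnl κ (lam i W) a f τ) :
    ∃ (V : Submodule L (EX n r → L)) (R : Submodule L (EX n e → L)), R ≤ W ∧ xm e x ∉ R ∧
      finrank L V + finrank L R = finrank L W ∧
      HasSl κ (t + k * a) (xm r x) V ∧
      (e * (height κ x : ℝ) - ht κ W) + ht κ R ≤ k * (i * (height κ x : ℝ) - a) +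
        ((r * (height κ x : ℝ) - ht κ V) - k * a * ((finrank L V : ℝ) - 1)) := by
  have hfx : MvPolynomial.eval x f ≠ 0 := by
    obtain ⟨j, hj⟩ : ∃ j, k = j + 1 := ⟨k - 1, by omega⟩
    refine eval_ne_zero h (i := r + j * i) (j := i) ?_ hW hf.hom hta hf.fin hf.sum hf.loc hf.ne
    rw [← hr, hj]; ring
  have hfk : (f ^ k).IsHomogeneous (k * i) := by rw [mul_comm]; exact hf.hom.pow k
  have hfkx : MvPolynomial.eval x (f ^ k) ≠ 0 := by
    rw [map_pow]
    exact pow_ne_zero _ hfx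
  have hτ : (Function.support fun w : Place κ L => (k : ℤ) * τ w).Finite := by
    refine hf.fin.subset fun w hw h0 => hw ?_
    simp only
    rw [h0, mul_zero]
  have hsum : ∑ᶠ w : Place κ L, (k : ℤ) * τ w = -(k * a) := by
    rw [← mul_finsum, hf.sum]; ring
  have hb := fun w => LocB.pow hf.hom hf.loc hr w
  refine ⟨W.map (cf (f ^ k) r), W ⊓ LinearMap.ker (cf (f ^ k) r), inf_le_left, ?_, ?_, ?_, ?_⟩
  · rintro ⟨-, h1⟩
    have h1' : cf (f ^ k) r (xm e x) = 0 := h1
    rw [cf_xm hfk hr] at h1'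
    exact (smul_ne_zero hfkx (xm_ne_zero hx)) h1'
  · have h1 := LinearMap.finrank_range_add_finrank_ker ((cf (e := e) (f ^ k) r).comp W.subtype)
    have h2 : LinearMap.range ((cf (e := e) (f ^ k) r).comp W.subtype) = W.map (cf (f ^ k) r) := by
      rw [LinearMap.range_comp, Submodule.range_subtype]
    have h3 : (LinearMap.ker ((cf (e := e) (f ^ k) r).comp W.subtype)).map W.subtype =
        W ⊓ LinearMap.ker (cf (f ^ k) r) := by
      rw [LinearMap.ker_comp, Submodule.map_comap_subtype]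
    have h4 := (Submodule.equivMapOfInjective W.subtype W.injective_subtype
      (LinearMap.ker ((cf (e := e) (f ^ k) r).comp W.subtype))).finrank_eq
    rw [h3] at h4
    rw [h2, h4] at h1
    exact h1
  · have h1 := contr_hasSl h hr hW hfk hfkx hτ hsum hb
    push_cast at h1
    exact h1
  · have h1 := contr_cost h (x := x) hr hτ hsum hb
    push_cast at h1
    linarith

theorem card_EX_zero : Fintype.card (EX n 0) ≤ 1 := by
  rw [Fintype.card_le_one_iff]
  intro a b
  apply Subtype.ext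
  have h1 : ∀ c : EX n 0, c.1 = 0 := by
    intro c
    have h2 := mem_expo.1 c.2
    rwa [Finsupp.degree_eq_zero_iff] at h2
  rw [h1 a, h1 b]

theorem height_xm' (h : IsFF κ L) (r : ℕ) {x : Fin n → L} (hx : x ≠ 0) :
    (height κ (xm r x) : ℝ) = r * height κ x := by
  exact_mod_cast height_xm h r hx

/-- the cost of a space with large slopes -/
theorem cost_ge (h : IsFF κ L) {x : Fin n → L} (hx : x ≠ 0) {s : ℝ} {r : ℕ}
    {V : Submodule L (EX n r → L)} (hV : HasSl κ s (xm r x) V) :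
    s * ((finrank L V : ℝ) - 1) ≤ r * (height κ x : ℝ) - ht κ V := by
  have hxm : xm r x ≠ 0 := xm_ne_zero hx
  have h1 := hV.le (L ∙ xm r x) ((Submodule.span_singleton_le_iff_mem _ _).2 hV.mem)
    (Submodule.mem_span_singleton_self _)
  rw [ht_single h hxm, finrank_span_singleton hxm, height_xm' h r hx] at h1
  simpa using h1

/-- A space which contains the vector of the monomials and has slopes larger than the maximal
slope is the line. -/
theorem finrank_eq_one (h : IsFF κ L) {x : Fin n → L} (hx : x ≠ 0) {M : ℝ}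
    (hM : ∀ E : Submodule L (Fin n → L), x ∈ E →
      (height κ x : ℝ) - ht κ E ≤ M * ((finrank L E : ℝ) - 1)) {r : ℕ} {s : ℝ}
    {V : Submodule L (EX n r → L)} (hV : HasSl κ s (xm r x) V) (hs : M < s) :
    finrank L V = 1 := by
  have h1 := one_le_finrank_aux (xm_ne_zero (d := r) hx) hV.mem
  refine le_antisymm ?_ h1
  rcases Nat.eq_zero_or_pos r with rfl | hr
  · have h2 := Submodule.finrank_le V
    rw [finrank_fintype_fun_eq_card] at h2
    exact h2.trans card_EX_zero
  · have h2 := cost_ge h hx hV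
    have h3 := cost_le_aux h hx hM hr hV.mem
    have h4 : (s - M) * ((finrank L V : ℝ) - 1) ≤ 0 := by linarith
    by_contra h5
    push Not at h5
    have h6 : (1 : ℝ) < finrank L V := by exact_mod_cast h5
    have := mul_pos (sub_pos.2 hs) (sub_pos.2 h6)
    linarith

/-- (1b): if the slopes after the contraction are larger than the maximal slope `M` -/
theorem p3b (h : IsFF κ L) {x : Fin n → L} (hx : x ≠ 0) {M : ℝ}
    (hM : ∀ E : Submodule L (Fin n → L), x ∈ E →
      (height κ x : ℝ) - ht κ E ≤ M * ((finrank L E : ℝ) - 1)) {t : ℝ} {i k : ℕ}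
    (hr : k * i ≤ e) (hk : 1 ≤ k) {W : Submodule L (EX n e → L)} (hW : HasSl κ t (xm e x) W)
    {f : MvPolynomial (Fin n) L} {a : ℤ} (hta : 0 < t + a) (hMt : M < t + k * a)
    {τ : Place κ L → ℤ} (hf : Fnl κ (lam i W) a f τ) :
    ∃ R ≤ W, xm e x ∉ R ∧ finrank L R + 1 = finrank L W ∧
      (e * (height κ x : ℝ) - ht κ W) + ht κ R ≤ k * (i * (height κ x : ℝ) - a) := by
  obtain ⟨r, hr'⟩ : ∃ r, r + k * i = e := ⟨e - k * i, by omega⟩
  obtain ⟨V, R, h1, h2, h3, h4, h5⟩ := p3 h hx hr' hk hW hta hf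
  have h6 := finrank_eq_one h hx hM h4 hMt
  refine ⟨R, h1, h2, by omega, h5.trans ?_⟩
  have h7 : V = L ∙ xm r x := by
    symm
    refine Submodule.eq_of_le_of_finrank_le ((Submodule.span_singleton_le_iff_mem _ _).2 h4.mem) ?_
    rw [h6, finrank_span_singleton (xm_ne_zero hx)]
  rw [h6, h7, ht_single h (xm_ne_zero hx), height_xm' h r hx]
  simp

/-- (1c): in terms of a bound for the costs in a lower degree -/
theorem p3c (h : IsFF κ L) {x : Fin n → L} (hx : x ≠ 0) {t t₂ δ K : ℝ} {i k r : ℕ}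
    (hr : r + k * i = e) (hk : 1 ≤ k) (hδ : 0 < δ) (ht₂ : 0 ≤ t₂)
    (hK : ∀ V : Submodule L (EX n r → L), xm r x ∈ V →
      (r * (height κ x : ℝ) - ht κ V) - t₂ * ((finrank L V : ℝ) - 1) ≤ K)
    {W : Submodule L (EX n e → L)} (hW : HasSl κ t (xm e x) W)
    {f : MvPolynomial (Fin n) L} {a : ℤ} (hta : 0 < t + a) (hMt : t₂ + δ ≤ t + k * a)
    (hka : 0 ≤ a)
    {τ : Place κ L → ℤ} (hf : Fnl κ (lam i W) a f τ) :
    (e * (height κ x : ℝ) - ht κ W) ≤ k * (i * (height κ x : ℝ) - a) + K * (1 + t₂ / δ) := by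
  obtain ⟨V, R, h1, h2, h3, h4, h5⟩ := p3 h hx hr hk hW hta hf
  have h6 := one_le_finrank_aux (xm_ne_zero (d := r) hx) h4.mem
  have h7 : (0 : ℝ) ≤ (finrank L V : ℝ) - 1 := by
    have : (1 : ℝ) ≤ finrank L V := by exact_mod_cast h6
    linarith
  have h8 := cost_ge h hx h4
  have h9 := hK V h4.mem
  have h10 : (t₂ + δ) * ((finrank L V : ℝ) - 1) ≤ (t + k * a) * ((finrank L V : ℝ) - 1) :=
    mul_le_mul_of_nonneg_right hMt h7
  have h11 : δ * ((finrank L V : ℝ) - 1) ≤ K := by linarith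
  have h12 : (finrank L V : ℝ) - 1 ≤ K / δ := by
    rw [le_div_iff₀ hδ]
    linarith
  have h13 : t₂ * ((finrank L V : ℝ) - 1) ≤ t₂ * (K / δ) := mul_le_mul_of_nonneg_left h12 ht₂
  have h14 : (0 : ℝ) ≤ k * a * ((finrank L V : ℝ) - 1) := by
    have : (0 : ℝ) ≤ a := by exact_mod_cast hka
    positivity
  have h15 : (0 : ℝ) ≤ ht κ R := by exact_mod_cast ht_nonneg h R
  have e1 : K * (1 + t₂ / δ) = K + t₂ * (K / δ) := by ring
  rw [e1]
  linarith

end Pool.Agent.Lib.MP_44a246_ntSH
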