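import Mathlib
import Pool.Agent.Lib.MP_44a246_ntSH.H02
import Pool.Agent.Lib.MP_44a246_ntX.X0
import Pool.Agent.Lib.MP_44a246_ntL.LPol

/-!
Paper 619: the interfaces between the parts of the proof.

* `Rows` (section 3, N1): proved from the derivations (operators `DD_F`).
* `Hyp`: all hypotheses on the point for the sections 4 and 5 (the case `n m_1 < C₀ H`).
* `caseB` (section 4), `caseA` (section 5, (A1)-(A3)), `planeCurve` ((A4)-(A6)): the statements are
  in the files H04, H05, H06.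
-/

namespace Pool.Agent.Lib.MP_44a246_ntSH

open Pool.Agent.Lib.MP_44a246_nt
open Pool.Agent.Lib.MP_44a246_ntL
open Pool.Agent.Lib.MP_44a246_ntS
open Pool.Agent.Lib.MP_44a246_ntF
open Pool.Agent.Lib.MP_44a246_ntO
open Pool.Agent.Lib.MP_44a246_ntX
open Pool.Agent.Lib.MP_44a246_ntR (genus)
open Pool.Agent.Lib.MP_e52354_nt
open WithZero Module

/-- Paper 619, (3a), (3b). For every space `Λ` of functionals on quadratic forms which contains
`x ^ 2` and has slopes at least `t`, and every `Λ' ≥ Λ` above which all slopes are at most `t'`,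
there is a space `W` of functionals on forms of degree `d` which contains `x ^ d`, has dimension at
most `n + ν` and cost at least `(d - n - 1) H + (t - t') ν - E`, where `ν` is at least
`dim (V . V_q) - dim Λ' - n` for all `q ∈ Λ` (`lam 1 (L ∙ q)` is the space `V_q`, its dimension is
the rank of `q`). (`Λ = L ∙ x ^ 2` with a very large `t` gives `ν = 0`, the space `U` of the rows of
`x`.) -/
def Rows (κ : Type*) {L : Type*} [Field κ] [Field L] [Algebra κ L] {n : ℕ} (x : Fin (n + 1) → L)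
    (d : ℕ) (E : ℝ) : Prop :=
  ∀ (Λ Λ' : Submodule L (EX (n + 1) 2 → L)) (t t' : ℝ), 0 ≤ t' → t' ≤ t →
    HasSl κ t (xm 2 x) Λ → Λ ≤ Λ' →
    (∀ Γ, Λ' ≤ Γ → (ht κ Λ' : ℝ) - ht κ Γ ≤ t' * ((finrank L Γ : ℝ) - finrank L Λ')) →
    ∃ (ν : ℕ) (W : Submodule L (EX (n + 1) d → L)), xm d x ∈ W ∧ finrank L W ≤ n + ν ∧
      ((d : ℝ) - n - 1) * height κ x + (t - t') * ν - E ≤ d * (height κ x : ℝ) - ht κ W ∧
      ∀ q ∈ Λ, (finrank L (lam 1 (L ∙ q)) : ℝ) * (n + 1) -
        (finrank L (lam 1 (L ∙ q)) : ℝ) * ((finrank L (lam 1 (L ∙ q)) : ℝ) - 1) / 2 ≤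
          ν + finrank L Λ' + n

/-- The hypotheses on the point in the sections 4 and 5 of paper 619: `M` is (a bound for) the
maximal slope `m_1`, `M n ≤ C₀ H`, the rows, and `H` is large in comparison with all the error
terms. -/
structure Hyp (κ : Type*) {L : Type*} [Field κ] [Field L] [Algebra κ L] {n : ℕ}
    (x : Fin (n + 1) → L) (d : ℕ) (C₀ M E : ℝ) : Prop where
  ne : x ≠ 0
  slope : ∀ Q : Submodule L (Fin (n + 1) → L), x ∈ Q →
    (height κ x : ℝ) - ht κ Q ≤ M * ((finrank L Q : ℝ) - 1)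
  pos : 0 ≤ M
  small : M * n ≤ C₀ * height κ x
  hd : n + 2 ≤ d
  hd' : d ≤ 2 * n
  rows : Rows κ x d E
  hE : 0 ≤ E
  big : (E + genus κ L + 1) * ((n : ℝ) + 2) ^ 20 ≤ height κ x

/-- Case A: `kappa_d (s H / n) ≥ c n H`. -/
def CaseA (κ : Type*) {L : Type*} [Field κ] [Field L] [Algebra κ L] {n : ℕ}
    (x : Fin (n + 1) → L) (d : ℕ) (c s : ℝ) : Prop :=
  ∃ W : Submodule L (EX (n + 1) d → L), xm d x ∈ W ∧
    c * n * height κ x + s * height κ x / n * ((finrank L W : ℝ) - 1) ≤
      d * (height κ x : ℝ) - ht κ W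

/-- The data for the projections to the space and to the plane: a point `x` (normalised by
`∑ ξ₀ j x j = 1`), two vectors of constants `z`, `z'` and derivations `E`, `E'` dual to them which
kill `x`; the linear forms `ξ₀, ξ₁` do not vanish simultaneously at `x` at any place. -/
structure DatP (κ : Type*) {L : Type*} [Field κ] [Field L] [Algebra κ L] (n : ℕ) where
  δ : Place κ L → ℕ
  x : Fin (n + 1) → L
  z : Fin (n + 1) → κ
  z' : Fin (n + 1) → κ
  E : Fin (n + 1) → Derivation ℤ L L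
  E' : Fin (n + 1) → Derivation ℤ L L
  ξ₀ : Fin (n + 1) → ℕ
  ξ₁ : Fin (n + 1) → ℕ
  hδ : (Function.support δ).Finite
  hE : ∀ j, PoleBound κ (E j) δ
  hE' : ∀ j, PoleBound κ (E' j) δ
  hEz : ∀ i j, E i (algebraMap κ L (z j)) = if i = j then 1 else 0
  hEz' : ∀ i j, E i (algebraMap κ L (z' j)) = 0
  hE'z : ∀ i j, E' i (algebraMap κ L (z j)) = 0
  hE'z' : ∀ i j, E' i (algebraMap κ L (z' j)) = if i = j then 1 else 0
  hEx : ∀ i j, E i (x j) = 0
  hE'x : ∀ i j, E' i (x j) = 0
  h0 : ∑ j, (ξ₀ j : L) * x j = 1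
  hmax : ∀ w : Place κ L, vmax w.1 x ≤ max 1 (w.1 (∑ j, (ξ₁ j : L) * x j))

namespace DatP

variable {κ L : Type*} [Field κ] [Field L] [Algebra κ L] {n : ℕ} (X : DatP κ (L := L) n)

/-- the total size of the poles -/
noncomputable def Δ : ℤ := ∑ᶠ w, (X.δ w : ℤ)

/-- the projection to the plane -/
noncomputable def p : Fin 3 → L :=
  ![1, ∑ j, (X.ξ₁ j : L) * X.x j, ∑ j, algebraMap κ L (X.z j) * X.x j]

/-- the projection to the space; the coordinate given by `z'` is the first one -/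
noncomputable def p4 : Fin 4 → L :=
  Fin.cons (∑ j, algebraMap κ L (X.z' j) * X.x j) X.p

end DatP

end Pool.Agent.Lib.MP_44a246_ntSH
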