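import Mathlib
import Pool.Agent.Lib.MP_44a246_ntO.O07a
import Pool.Agent.Lib.MP_44a246_ntA.P01
import Pool.Agent.Lib.MP_44a246_ntL.LPol

/-!
# The rows of a space of symmetric tensors: definitions (paper 619, section 3)
-/

namespace Pool.Agent.Lib.MP_44a246_ntSH

open Pool.Agent.Lib.MP_44a246_nt
open Pool.Agent.Lib.MP_44a246_ntL
open Pool.Agent.Lib.MP_44a246_ntS
open Pool.Agent.Lib.MP_44a246_ntF
open Pool.Agent.Lib.MP_44a246_ntO
open Pool.Agent.Lib.MP_44a246_ntA
open Pool.Agent.Lib.MP_e52354_nt
open WithZero Module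

section

variable {L : Type*} [Field L] {n e d : ℕ}

/-- division of a monomial by a variable (if it is not divisible, a dummy value) -/
noncomputable def dn (i : Fin n) (J : EX n (e + 1)) : EX n e :=
  if h : J.1 i ≠ 0 then ⟨J.1 - Finsupp.single i 1, by
    have h1 := mem_expo.1 J.2
    have h2 := congrArg Finsupp.degree (sub_add_single h)
    rw [mem_expo]
    rw [map_add, Finsupp.degree_single, h1] at h2
    omega⟩ else ⟨Finsupp.single i e, by rw [mem_expo, Finsupp.degree_single]⟩

theorem dn_val {i : Fin n} {J : EX n (e + 1)} (h : J.1 i ≠ 0) :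
    (dn i J).1 = J.1 - Finsupp.single i 1 := by
  unfold dn
  rw [dif_pos h]

theorem up_dn {i : Fin n} {J : EX n (e + 1)} (h : J.1 i ≠ 0) : up i (dn i J) = J := by
  apply Subtype.ext
  show (dn i J).1 + Finsupp.single i 1 = J.1
  rw [dn_val h, sub_add_single h]

theorem dn_up (i : Fin n) (φ : EX n e) : dn i (up i φ) = φ := by
  apply Subtype.ext
  rw [dn_val]
  · show φ.1 + Finsupp.single i 1 - Finsupp.single i 1 = φ.1
    rw [add_tsub_cancel_right]
  · show (φ.1 + Finsupp.single i 1 : Fin n →₀ ℕ) i ≠ 0
    simp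

/-- the action of a matrix on the functionals on the forms of degree `e + 1`: the value at the
monomial `J` is the value of `q` at `∑ i l, B i l X_l ∂_i X^J` -/
noncomputable def gla (B : Matrix (Fin n) (Fin n) L) :
    (EX n (e + 1) → L) →ₗ[L] (EX n (e + 1) → L) where
  toFun q J := ∑ i, (J.1 i : L) * B.mulVec (cm (dn i J) q) i
  map_add' q q' := by
    funext J
    simp only [Pi.add_apply, map_add, Matrix.mulVec_add, mul_add, Finset.sum_add_distrib]
  map_smul' c q := by
    funext J
    simp only [Pi.smul_apply, smul_eq_mul, RingHom.id_apply, map_smul, Matrix.mulVec_smul,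
      Finset.mul_sum]
    exact Finset.sum_congr rfl fun i _ => by ring

theorem gla_apply (B : Matrix (Fin n) (Fin n) L) (q : EX n (e + 1) → L) (J : EX n (e + 1)) :
    gla B q J = ∑ i, (J.1 i : L) * B.mulVec (cm (dn i J) q) i := rfl

/-- the action of a matrix is linear in the matrix -/
noncomputable def glm (q : EX n (e + 1) → L) :
    Matrix (Fin n) (Fin n) L →ₗ[L] (EX n (e + 1) → L) where
  toFun B := gla B q
  map_add' B B' := by
    funext J
    simp only [gla_apply, Pi.add_apply, Matrix.add_mulVec, mul_add, Finset.sum_add_distrib]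
  map_smul' c B := by
    funext J
    simp only [gla_apply, Pi.smul_apply, smul_eq_mul, RingHom.id_apply, Matrix.smul_mulVec,
      Finset.mul_sum]
    exact Finset.sum_congr rfl fun i _ => by ring

theorem glm_apply (B : Matrix (Fin n) (Fin n) L) (q : EX n (e + 1) → L) : glm q B = gla B q := rfl

/-- the operator `D - B` on the functionals on the forms of degree `e + 1` -/
noncomputable def dd (D : Derivation ℤ L L) (B : Matrix (Fin n) (Fin n) L)
    (q : EX n (e + 1) → L) : EX n (e + 1) → L := fun J => D (q J) - gla B q J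

/-- the operator `D - B` on the vectors -/
noncomputable def dv (D : Derivation ℤ L L) (B : Matrix (Fin n) (Fin n) L)
    (v : Fin n → L) : Fin n → L := fun i => D (v i) - B.mulVec v i

end

/-- **The data for the rows**: a point `x`, derivations `D I` and matrices `A I` indexed by the
monomials of degree `d`; a vector `g` (the gradient of the form at the point) with `g x = 0` and
`g (D I x - A I x) = - x^I`; a linear map `M` (for the form `H`, `M B` is the form
`grad H (X) · B X`) such that `∑ I, (M B)_I D I = 0` and `∑ I, (M B)_I A I = B` for all matrices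
`B`. -/
structure RowData (κ : Type*) {L : Type*} [Field κ] [Field L] [Algebra κ L] (n d : ℕ) where
  x : Fin (n + 1) → L
  D : EX (n + 1) d → Derivation ℤ L L
  A : EX (n + 1) d → Matrix (Fin (n + 1)) (Fin (n + 1)) L
  M : Matrix (Fin (n + 1)) (Fin (n + 1)) L →ₗ[L] (EX (n + 1) d → L)
  g : Fin (n + 1) → L
  δ : Place κ L → ℕ
  hδ : (Function.support δ).Finite
  hD : ∀ I, PoleBound κ (D I) δ
  hA : ∀ (w : Place κ L) I i j, w.1 (A I i j) ≤ exp (δ w : ℤ)
  hx : x ≠ 0
  hg : ∑ i, g i * x i = 0
  hrow : ∀ I, ∑ i, g i * dv (D I) (A I) x i = - xm d x I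
  hMD : ∀ B, ∑ I, M B I • D I = 0
  hMA : ∀ B, ∑ I, M B I • A I = B

namespace RowData

variable {κ L : Type*} [Field κ] [Field L] [Algebra κ L] {n d : ℕ} (X : RowData κ (L := L) n d)

/-- the total size of the poles -/
noncomputable def Δ : ℤ := ∑ᶠ w, (X.δ w : ℤ)

/-- the row of the point and a functional -/
noncomputable def r1 (y : Fin (n + 1) → L) : EX (n + 1) d → L :=
  fun I => ∑ i, y i * dv (X.D I) (X.A I) X.x i

/-- the row of a tensor and a functional -/
noncomputable def r2 {e : ℕ} (q G : EX (n + 1) (e + 1) → L) : EX (n + 1) d → L :=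
  fun I => ∑ J, G J * dd (X.D I) (X.A I) q J

/-- the space of the rows of the point -/
noncomputable def U : Submodule L (EX (n + 1) d → L) :=
  Submodule.span L {u | ∃ y ∈ orth (Submodule.span L {X.x}), u = X.r1 y}

/-- the space of the rows of the pair `Λ`, `Λ'` -/
noncomputable def W {e : ℕ} (Λ Λ' : Submodule L (EX (n + 1) (e + 1) → L)) :
    Submodule L (EX (n + 1) d → L) :=
  X.U ⊔ Submodule.span L {u | ∃ q ∈ Λ, ∃ G ∈ orth Λ', u = X.r2 q G}

end RowData

end Pool.Agent.Lib.MP_44a246_ntSH
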