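import Mathlib
import Pool.Agent.Lib.MP_44a246_ntO.O04

/-!
# The inequality for the heights of subspaces and a map which is given modulo a subspace
-/

namespace Pool.Agent.Lib.MP_44a246_ntSH

open Pool.Agent.Lib.MP_44a246_nt
open Pool.Agent.Lib.MP_44a246_ntL
open Pool.Agent.Lib.MP_44a246_ntS
open Pool.Agent.Lib.MP_44a246_ntO
open WithZero Module

variable {κ L : Type*} [Field κ] [IsAlgClosed κ] [CharZero κ] [Field L] [Algebra κ L]
  {ι ι' : Type*} [Fintype ι] [Fintype ι']

/-- **The main global inequality (1.1')**: the map `T` is given on `B`, at the place `w`, modulo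
`A'`, by the matrix `Tw w`.

Proof: copy the proof of `ht_mapw` (ntO/O04). `pl_local` is applied at `w` with the matrix `Tw w`:
`(Tw w).mulVec (α i)` is in `A'` because `T (α i)` is and the difference is. Its result bounds
`pl w.1 (Sum.elim β (fun i => (Tw w).mulVec (b i)))`, which is equal to
`pl w.1 (Sum.elim β (fun i => T (b i)))` by `pl_sum_unip` (the differences are combinations of the
`β`, `Submodule.mem_span_range_iff_exists_fun`). -/
theorem ht_mapw_mod (h : IsFF κ L) (T : (ι → L) →ₗ[L] (ι' → L)) (Tw : Place κ L → Matrix ι' ι L)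
    {τ : Place κ L → ℤ} (hτ : (Function.support τ).Finite)
    (hTw : ∀ (w : Place κ L) k m, w.1 (Tw w k m) ≤ exp (τ w))
    {A B : Submodule L (ι → L)} {A' : Submodule L (ι' → L)}
    (hT : ∀ w, ∀ b ∈ B, (Tw w).mulVec b - T b ∈ A') (hAB : A ≤ B)
    (hA : A.map T ≤ A') (hinj : ∀ b ∈ B, T b ∈ A' → b ∈ A) :
    ht κ (A' ⊔ B.map T) + ht κ A ≤
      ht κ B + ht κ A' + (∑ᶠ w, τ w) * ((finrank L B : ℤ) - finrank L A) := by
  obtain ⟨α, b, hα, hαs, hαb, hαbs⟩ := exists_compl hAB
  obtain ⟨β, hβ, hβs⟩ := SB2b_basis A'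
  let γ : Fin (finrank L A') ⊕ Fin (finrank L B - finrank L A) → ι' → L :=
    Sum.elim β (fun i => T (b i))
  have hfr := finrank_sup_map hAB T hA (fun x hx hx' => hinj x hx hx')
  have hle : finrank L A ≤ finrank L B := Submodule.finrank_mono hAB
  have hαB : ∀ i, α i ∈ B := fun i => by
    rw [← hαbs]
    exact Submodule.subset_span ⟨Sum.inl i, rfl⟩
  have hbB : ∀ i, b i ∈ B := fun i => by
    rw [← hαbs]
    exact Submodule.subset_span ⟨Sum.inr i, rfl⟩
  have hγs : Submodule.span L (Set.range γ) = A' ⊔ B.map T := by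
    have e1 : Set.range γ = Set.range β ∪ T '' Set.range b := by
      rw [Set.Sum.elim_range, ← Set.range_comp]
      rfl
    rw [e1, Submodule.span_union, hβs, ← Submodule.map_span]
    have e2 : B.map T = A.map T ⊔ (Submodule.span L (Set.range b)).map T := by
      have e3 : B = A ⊔ Submodule.span L (Set.range b) := by
        refine hαbs.symm.trans ?_
        rw [Set.Sum.elim_range, Submodule.span_union, hαs]
      refine (congrArg (Submodule.map T) e3).trans ?_
      rw [Submodule.map_sup]
    rw [e2, ← sup_assoc, sup_eq_left.mpr hA]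
  have hγ : LinearIndependent L γ := by
    rw [linearIndependent_iff_card_eq_finrank_span, Set.finrank, hγs, Fintype.card_sum,
      Fintype.card_fin, Fintype.card_fin]
    omega
  have hTα : ∀ i, T (α i) ∈ Submodule.span L (Set.range β) := by
    intro i
    rw [hβs]
    apply hA
    refine ⟨α i, ?_, rfl⟩
    rw [← hαs]
    exact Submodule.subset_span ⟨i, rfl⟩
  have t1 : ht κ (A' ⊔ B.map T) = ∑ᶠ w : Place κ L, log (pl w.1 γ) := by
    rw [← hγs, ht_span h hγ]
  have t2 : ht κ A = ∑ᶠ w : Place κ L, log (pl w.1 α) := by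
    rw [← ht_span h hα, hαs]
  have t3 : ht κ A' = ∑ᶠ w : Place κ L, log (pl w.1 β) := by
    rw [← ht_span h hβ, hβs]
  have t4 : ht κ B = ∑ᶠ w : Place κ L, log (pl w.1 (Sum.elim α b)) := by
    rw [← ht_span h hαb, hαbs]
  rw [t1, t2, t3, t4]
  have key : ∀ w : Place κ L, log (pl w.1 γ) + log (pl w.1 α) ≤
      (log (pl w.1 (Sum.elim α b)) + log (pl w.1 β)) +
        τ w * ((finrank L B : ℤ) - finrank L A) := by
    intro w
    have hTα' : ∀ i, (Tw w).mulVec (α i) ∈ Submodule.span L (Set.range β) := fun i => by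
      have e1 : (Tw w).mulVec (α i) = ((Tw w).mulVec (α i) - T (α i)) + T (α i) := by
        rw [sub_add_cancel]
      rw [e1]
      refine Submodule.add_mem _ ?_ (hTα i)
      rw [hβs]
      exact hT w (α i) (hαB i)
    have h1 := pl_local w.1 (Tw w) (hTw w) hα hβ hTα' b
    have hc : ∀ i, ∃ c : Fin (finrank L A') → L,
        ∑ l, c l • β l = (Tw w).mulVec (b i) - T (b i) := fun i => by
      refine (Submodule.mem_span_range_iff_exists_fun L).1 ?_
      rw [hβs]
      exact hT w (b i) (hbB i)
    choose c hc' using hc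
    have h0 : (fun i => (Tw w).mulVec (b i)) =
        fun i k => T (b i) k + ∑ j, c i j * β j k := by
      funext i k
      have e2 := congrFun (hc' i) k
      rw [Finset.sum_apply] at e2
      simp only [Pi.smul_apply, smul_eq_mul, Pi.sub_apply] at e2
      rw [e2]
      ring
    rw [h0, pl_sum_unip w.1 c β (fun i => T (b i))] at h1
    have n1 := pl_ne_zero w.1 hγ
    have n2 := pl_ne_zero w.1 hα
    have n3 := pl_ne_zero w.1 hβ
    have n4 := pl_ne_zero w.1 hαb
    have n5 : (exp (τ w) : ℤᵐ⁰) ^ Fintype.card (Fin (finrank L B - finrank L A)) ≠ 0 :=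
      pow_ne_zero _ exp_ne_zero
    have h2 := log_le_log (mul_ne_zero n1 n2) (mul_ne_zero n5 (mul_ne_zero n4 n3)) |>.mpr h1
    rw [log_mul n1 n2, log_mul n5 (mul_ne_zero n4 n3), log_mul n4 n3, log_pow, log_exp,
      Fintype.card_fin, nsmul_eq_mul, Nat.cast_sub hle] at h2
    linarith
  have s1 := pl_support h hγ
  have s2 := pl_support h hα
  have s3 := pl_support h hβ
  have s4 := pl_support h hαb
  have s5 : (Function.support fun w => τ w * ((finrank L B : ℤ) - finrank L A)).Finite :=
    hτ.subset (Function.support_mul_subset_left _ _)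
  have s34 := (s4.union s3).subset (Function.support_add
    (fun w : Place κ L => log (pl w.1 (Sum.elim α b))) (fun w : Place κ L => log (pl w.1 β)))
  have h3 := finsum_mono ((s1.union s2).subset (Function.support_add
    (fun w : Place κ L => log (pl w.1 γ)) (fun w : Place κ L => log (pl w.1 α))))
    ((s34.union s5).subset (Function.support_add
    (fun w : Place κ L => log (pl w.1 (Sum.elim α b)) + log (pl w.1 β))
    (fun w => τ w * ((finrank L B : ℤ) - finrank L A)))) key
  rw [finsum_add_distrib s1 s2, finsum_add_distrib s34 s5, finsum_add_distrib s4 s3,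
    ← finsum_mul] at h3
  exact h3

end Pool.Agent.Lib.MP_44a246_ntSH
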