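import Mathlib
import Pool.Agent.Lib.MP_44a246_ntO.O04
import Pool.Agent.Lib.MP_44a246_ntA.P01b
import Pool.Agent.Lib.MP_44a246_ntSH.RW0
import Pool.Agent.Lib.MP_44a246_ntSH.RW1

/-!
# The space of the rows of the point, over any index type; additional rows
-/

namespace Pool.Agent.Lib.MP_44a246_ntSH

open Pool.Agent.Lib.MP_44a246_nt
open Pool.Agent.Lib.MP_44a246_ntL
open Pool.Agent.Lib.MP_44a246_ntS
open Pool.Agent.Lib.MP_44a246_ntF
open Pool.Agent.Lib.MP_44a246_ntO
open Pool.Agent.Lib.MP_44a246_ntA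
open Pool.Agent.Lib.MP_e52354_nt
open WithZero Module

section

variable {L : Type*} [Field L] {n : ℕ} {σ : Type*}

/-- the rows of the point as a linear map of the functional -/
noncomputable def r1L (x : Fin (n + 1) → L) (D : σ → Derivation ℤ L L)
    (A : σ → Matrix (Fin (n + 1)) (Fin (n + 1)) L) : (Fin (n + 1) → L) →ₗ[L] (σ → L) where
  toFun y s := ∑ i, y i * dv (D s) (A s) x i
  map_add' y y' := by
    funext I
    simp only [Pi.add_apply, add_mul, Finset.sum_add_distrib]
  map_smul' c y := by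
    funext I
    simp only [Pi.smul_apply, smul_eq_mul, RingHom.id_apply, Finset.mul_sum]
    exact Finset.sum_congr rfl fun i _ => by ring

theorem r1L_apply (x : Fin (n + 1) → L) (D : σ → Derivation ℤ L L)
    (A : σ → Matrix (Fin (n + 1)) (Fin (n + 1)) L) (y : Fin (n + 1) → L) (s : σ) :
    r1L x D A y s = ∑ i, y i * dv (D s) (A s) x i := rfl

/-- the space of the rows of the point -/
noncomputable def U1 (x : Fin (n + 1) → L) (D : σ → Derivation ℤ L L)
    (A : σ → Matrix (Fin (n + 1)) (Fin (n + 1)) L) : Submodule L (σ → L) :=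
  (orth (Submodule.span L {x})).map (r1L x D A)

theorem finrank_U1_le {x : Fin (n + 1) → L} (hx : x ≠ 0) (D : σ → Derivation ℤ L L)
    (A : σ → Matrix (Fin (n + 1)) (Fin (n + 1)) L) : finrank L (U1 x D A) ≤ n := by
  unfold U1
  refine (Submodule.finrank_map_le _ _).trans ?_
  have h1 := finrank_orth (Submodule.span L {x})
  rw [finrank_span_singleton hx, Fintype.card_fin] at h1
  omega

end

section

variable {κ L : Type*} [Field κ] [IsAlgClosed κ] [CharZero κ] [Field L] [Algebra κ L] {n : ℕ}
  {σ : Type*} [Fintype σ]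

/-- **The height of the space of the rows of the point.** Proof: as `ht_U_le` (RW2). -/
theorem ht_U1_le (h : IsFF κ L) {x : Fin (n + 1) → L} (hx : x ≠ 0) {D : σ → Derivation ℤ L L}
    {A : σ → Matrix (Fin (n + 1)) (Fin (n + 1)) L} {δ : Place κ L → ℕ}
    (hδ : (Function.support δ).Finite) (hD : ∀ s, PoleBound κ (D s) δ)
    (hA : ∀ (w : Place κ L) s i j, w.1 (A s i j) ≤ exp (δ w : ℤ)) :
    ht κ (U1 x D A) ≤ (n + 1) * height κ x + n * ∑ᶠ w, (δ w : ℤ) := by
  classical
  have hxj : ∀ w : Place κ L, ∃ l, x l ≠ 0 ∧ vmax w.1 x = w.1 (x l) ∧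
      ∀ k, w.1 (x k) ≤ w.1 (x l) := fun w => exists_vmax w.1 hx
  choose j hj0 hjv hjm using hxj
  set q : Place κ L → Fin (n + 1) → L := fun w l => x l / x (j w) with hq
  have hxq : ∀ w, x = x (j w) • q w := by
    intro w
    funext l
    rw [Pi.smul_apply, smul_eq_mul, hq]
    simp only
    rw [mul_div_cancel₀ _ (hj0 w)]
  have hq1 : ∀ (w : Place κ L) l, w.1 (q w l) ≤ 1 := by
    intro w l
    rw [hq]
    simp only
    rw [map_div₀]
    exact div_le_one_of_le₀ (hjm w l) zero_le
  set B : Submodule L (Fin (n + 1) → L) := orth (Submodule.span L {x}) with hB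
  set Tw : Place κ L → Matrix (σ) (Fin (n + 1)) L := fun w =>
    Matrix.of fun I i => x (j w) * dv (D I) (A I) (q w) i with hTwd
  set τ : Place κ L → ℤ := fun w => log (vmax w.1 x) + (δ w : ℤ) with hτd
  have hδ' : (Function.support fun w => (δ w : ℤ)).Finite := by
    refine hδ.subset fun w hw h => hw ?_
    simp only
    rw [h]
    rfl
  have hτ : (Function.support τ).Finite :=
    ((h.vmax_support hx).union hδ').subset (Function.support_add _ _)
  have hTw : ∀ (w : Place κ L) k m, w.1 (Tw w k m) ≤ exp (τ w) := by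
    intro w I i
    have h1 : w.1 (dv (D I) (A I) (q w) i) ≤ exp (δ w : ℤ) := by
      unfold dv
      refine (w.1.map_sub _ _).trans (max_le (hD I w _ (hq1 w i)) ?_)
      unfold Matrix.mulVec dotProduct
      refine w.1.map_sum_le fun l _ => ?_
      rw [map_mul]
      calc w.1 (A I i l) * w.1 (q w l) ≤ exp (δ w : ℤ) * 1 :=
            mul_le_mul' (hA w I i l) (hq1 w l)
        _ = _ := mul_one _
    have h2 : vmax w.1 x ≠ 0 := by
      rw [Ne, vmax_eq_zero_iff]
      exact hx
    rw [hτd, hTwd]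
    simp only [Matrix.of_apply]
    rw [map_mul, exp_add, exp_log h2, hjv w]
    exact mul_le_mul' le_rfl h1
  have hT : ∀ w, ∀ b ∈ B, (Tw w).mulVec b = (r1L x D A) b := by
    intro w b hb
    have hb' := mem_orth_single.1 hb
    funext I
    rw [r1L_apply]
    unfold Matrix.mulVec dotProduct
    have h1 : ∀ i, dv (D I) (A I) x i =
        x (j w) * dv (D I) (A I) (q w) i + D I (x (j w)) * q w i := by
      intro i
      have h2 : (A I).mulVec x i = x (j w) * (A I).mulVec (q w) i := by
        conv_lhs => rw [hxq w]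
        rw [Matrix.mulVec_smul, Pi.smul_apply, smul_eq_mul]
      have h3 : D I (x i) = x (j w) * D I (q w i) + q w i * D I (x (j w)) := by
        conv_lhs => rw [hxq w]
        rw [Pi.smul_apply, smul_eq_mul, Derivation.leibniz, smul_eq_mul, smul_eq_mul]
      unfold dv
      rw [h2, h3]
      ring
    have h4 : ∑ i, b i * q w i = 0 := by
      have h5 : x (j w) * ∑ i, b i * q w i = 0 := by
        rw [Finset.mul_sum, ← hb']
        refine Finset.sum_congr rfl fun i _ => ?_
        have h6 : x i = x (j w) * q w i := by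
          conv_lhs => rw [hxq w]
          rfl
        rw [h6]
        ring
      exact (mul_eq_zero.1 h5).resolve_left (hj0 w)
    calc ∑ i, Tw w I i * b i = ∑ i, b i * (x (j w) * dv (D I) (A I) (q w) i) := by
          refine Finset.sum_congr rfl fun i _ => ?_
          rw [hTwd]
          simp only [Matrix.of_apply]
          ring
      _ = ∑ i, b i * (x (j w) * dv (D I) (A I) (q w) i) +
            D I (x (j w)) * ∑ i, b i * q w i := by rw [h4, mul_zero, add_zero]
      _ = ∑ i, b i * dv (D I) (A I) x i := by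
          rw [Finset.mul_sum, ← Finset.sum_add_distrib]
          refine Finset.sum_congr rfl fun i _ => ?_
          rw [h1 i]
          ring
  have key := ht_mapw h (r1L x D A) Tw hτ hTw (A := B ⊓ LinearMap.ker (r1L x D A)) (B := B) (A' := ⊥)
    hT inf_le_left (by
      rintro u ⟨y, hy, rfl⟩
      rw [Submodule.mem_bot]
      exact hy.2) (fun b hb hb' => ⟨hb, by
        rw [Submodule.mem_bot] at hb'
        exact hb'⟩)
  have hsum : ∑ᶠ w, τ w = height κ x + ∑ᶠ w, (δ w : ℤ) := by
    rw [hτd, finsum_add_distrib (h.vmax_support hx) hδ']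
    rfl
  have hfB : finrank L B = n := by
    have h1 := finrank_orth (Submodule.span L {x})
    rw [finrank_span_singleton hx, Fintype.card_fin] at h1
    rw [hB]
    omega
  have hh := h.height_nonneg hx
  have hΔ : 0 ≤ ∑ᶠ w, (δ w : ℤ) := finsum_nonneg fun w => Int.natCast_nonneg _
  have hA := ht_nonneg h (B ⊓ LinearMap.ker (r1L x D A))
  rw [hsum, ht_bot h, bot_sup_eq, hB, ht_orth h, ht_single h hx, ← hB, hfB] at key
  have h9 : (0 : ℤ) ≤ finrank L ↥(B ⊓ LinearMap.ker (r1L x D A)) := Int.natCast_nonneg _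
  change ht κ (Submodule.map (r1L x D A) B) ≤ _
  nlinarith


/-- **Additional rows**, which are given at every place modulo a subspace.

Proof. `ht_mapw_mod` (RW1) for `T z = ∑ k, z k • ρ k`, `B = ⊤`, `A = T⁻¹ U`, `A' = U`. -/
theorem ht_sup_rows_le (h : IsFF κ L) {U : Submodule L (σ → L)} {c : ℕ} {ρ : Fin c → σ → L}
    {τ : Place κ L → ℕ} (hτ : (Function.support τ).Finite)
    (hρ : ∀ (w : Place κ L) k, ∃ u ∈ U, ∀ s, w.1 (ρ k s - u s) ≤ exp (τ w : ℤ)) :
    ht κ (U ⊔ Submodule.span L (Set.range ρ)) ≤ ht κ U + c * ∑ᶠ w, (τ w : ℤ) := by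
  classical
  choose u huU hu using hρ
  set T : (Fin c → L) →ₗ[L] (σ → L) := Fintype.linearCombination L ρ with hT
  have hTa : ∀ z, T z = ∑ k, z k • ρ k := fun z => Fintype.linearCombination_apply L ρ z
  set Tw : Place κ L → Matrix σ (Fin c) L := fun w => Matrix.of fun s k => ρ k s - u w k s with hTw
  have hτ' : (Function.support fun w => (τ w : ℤ)).Finite := by
    refine hτ.subset fun w hw h => hw ?_
    simp only
    rw [h]
    rfl
  have h1 : ∀ (w : Place κ L) s k, w.1 (Tw w s k) ≤ exp (τ w : ℤ) := fun w s k => hu w k s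
  have h2 : ∀ w, ∀ b ∈ (⊤ : Submodule L (Fin c → L)), (Tw w).mulVec b - T b ∈ U := by
    intro w b _
    have h3 : (Tw w).mulVec b - T b = - ∑ k, b k • u w k := by
      funext s
      rw [Pi.sub_apply, hTa, Finset.sum_apply, Pi.neg_apply, Finset.sum_apply]
      unfold Matrix.mulVec dotProduct
      rw [← Finset.sum_sub_distrib, ← Finset.sum_neg_distrib]
      refine Finset.sum_congr rfl fun k _ => ?_
      simp only [hTw, Matrix.of_apply, Pi.smul_apply, smul_eq_mul]
      ring
    rw [h3]
    exact Submodule.neg_mem _ (Submodule.sum_mem _ fun k _ => Submodule.smul_mem _ _ (huU w k))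
  have key := ht_mapw_mod h T Tw hτ' h1 (A := U.comap T) (B := ⊤) (A' := U) h2 le_top
    (Submodule.map_comap_le _ _) (fun b _ hb => hb)
  have h3 : (⊤ : Submodule L (Fin c → L)).map T = Submodule.span L (Set.range ρ) := by
    rw [Submodule.map_top, hT, Fintype.range_linearCombination]
  have h4 := ht_nonneg h (U.comap T)
  have h5 : (0 : ℤ) ≤ ∑ᶠ w, (τ w : ℤ) := finsum_nonneg fun w => Int.natCast_nonneg _
  have h6 : (0 : ℤ) ≤ finrank L (U.comap T) := Int.natCast_nonneg _
  rw [h3, ht_top h, finrank_top, Module.finrank_fin_fun] at key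
  nlinarith [mul_nonneg h5 h6]

end

end Pool.Agent.Lib.MP_44a246_ntSH
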