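import Mathlib
import Pool.Agent.Lib.MP_44a246_ntSH.H03

/-!
Phase 2 of paper 619: complete intersections, interfaces.

`p` forms of degrees `d j`; `k = ∑ j, d j - n - 1 ≥ 1`; `c` counts missing degrees of freedom and the
logarithmic components.
-/

namespace Pool.Agent.Lib.MP_44a246_ntSH

open Pool.Agent.Lib.MP_44a246_nt
open Pool.Agent.Lib.MP_44a246_ntL
open Pool.Agent.Lib.MP_44a246_ntS
open Pool.Agent.Lib.MP_44a246_ntF
open Pool.Agent.Lib.MP_44a246_ntO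
open Pool.Agent.Lib.MP_44a246_ntX
open Pool.Agent.Lib.MP_44a246_ntR (genus)
open Pool.Agent.Lib.MP_e52354_nt
open WithZero Module

/-- The rows for `p` blocks: `W j` are the graded pieces, for the filtration by the blocks, of a
space of functionals on `⊕ S ^ (d j)` which contains all `e_j ⊗ x ^ (d j)`. -/
def RowsP (κ : Type*) {L : Type*} [Field κ] [Field L] [Algebra κ L] {n p : ℕ} (x : Fin (n + 1) → L)
    (d : Fin p → ℕ) (c : ℕ) (E : ℝ) : Prop :=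
  ∀ (Λ Λ' : Submodule L (EX (n + 1) 2 → L)) (t t' : ℝ), 0 ≤ t' → t' ≤ t →
    HasSl κ t (xm 2 x) Λ → Λ ≤ Λ' →
    (∀ Γ, Λ' ≤ Γ → (ht κ Λ' : ℝ) - ht κ Γ ≤ t' * ((finrank L Γ : ℝ) - finrank L Λ')) →
    ∃ (ν : ℕ) (W : (j : Fin p) → Submodule L (EX (n + 1) (d j) → L)),
      (∀ j, xm (d j) x ∈ W j) ∧ ∑ j, finrank L (W j) ≤ n + ν + c ∧
      ((∑ j, (d j : ℝ)) - n - 1) * height κ x + (t - t') * ν - E ≤
        ∑ j, (d j * (height κ x : ℝ) - ht κ (W j)) ∧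
      ∀ q ∈ Λ, (finrank L (lam 1 (L ∙ q)) : ℝ) * (n + 1) -
        (finrank L (lam 1 (L ∙ q)) : ℝ) * ((finrank L (lam 1 (L ∙ q)) : ℝ) - 1) / 2 ≤
          ν + finrank L Λ' + n + c

/-- The hypotheses on the point for `p` blocks. -/
structure HypP (κ : Type*) {L : Type*} [Field κ] [Field L] [Algebra κ L] {n p : ℕ}
    (x : Fin (n + 1) → L) (d : Fin p → ℕ) (c : ℕ) (C₀ M E : ℝ) : Prop where
  ne : x ≠ 0
  slope : ∀ Q : Submodule L (Fin (n + 1) → L), x ∈ Q →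
    (height κ x : ℝ) - ht κ Q ≤ M * ((finrank L Q : ℝ) - 1)
  pos : 0 ≤ M
  small : M * n ≤ C₀ * height κ x
  hd : n + 2 ≤ ∑ j, d j
  hd2 : ∀ j, 2 ≤ d j
  rows : RowsP κ x d c E
  hE : 0 ≤ E
  big : (E + genus κ L + 1) * ((n : ℝ) + 2) ^ 20 ≤ height κ x

/-- Case A for `p` blocks: `kappa_{d j} (s H / n) ≥ c n H` for some `j`. -/
def CaseAP (κ : Type*) {L : Type*} [Field κ] [Field L] [Algebra κ L] {n p : ℕ}
    (x : Fin (n + 1) → L) (d : Fin p → ℕ) (c s : ℝ) : Prop :=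
  ∃ (j : Fin p) (W : Submodule L (EX (n + 1) (d j) → L)), xm (d j) x ∈ W ∧
    c * n * height κ x + s * height κ x / n * ((finrank L W : ℝ) - 1) ≤
      d j * (height κ x : ℝ) - ht κ W

section

variable {κ L : Type*} [Field κ] [Field L] [Algebra κ L] {n : ℕ} {x : Fin (n + 1) → L}
  {d : ℕ} {C₀ M E : ℝ}

theorem Rows.toP (h : Rows κ x d E) : RowsP κ x (fun _ : Fin 1 => d) 0 E := by
  intro Λ Λ' t t' h1 h2 h3 h4 h5
  obtain ⟨ν, W, h6, h7, h8, h9⟩ := h Λ Λ' t t' h1 h2 h3 h4 h5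
  refine ⟨ν, fun _ => W, fun _ => h6, by simpa using h7, by simpa using h8, fun q hq => ?_⟩
  simpa using h9 q hq

theorem Hyp.toP (h : Hyp κ x d C₀ M E) (hn : 0 < n) :
    HypP κ x (fun _ : Fin 1 => d) 0 C₀ M E := by
  refine ⟨h.ne, h.slope, h.pos, h.small, ?_, fun _ => ?_, h.rows.toP, h.hE, h.big⟩
  · simpa using h.hd
  · have := h.hd
    omega

theorem CaseAP.of {c s : ℝ} (h : CaseAP κ x (fun _ : Fin 1 => d) c s) : CaseA κ x d c s := by
  obtain ⟨_, W, h1, h2⟩ := h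
  exact ⟨W, h1, h2⟩

end

end Pool.Agent.Lib.MP_44a246_ntSH
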