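import Mathlib
import Pool.Agent.Lib.MP_44a246_ntSH.RW0

/-!
# The operators `∑ F_I (D_I - A_I)` (paper 619, section 3)
-/

namespace Pool.Agent.Lib.MP_44a246_ntSH

open Pool.Agent.Lib.MP_44a246_nt
open Pool.Agent.Lib.MP_44a246_ntL
open Pool.Agent.Lib.MP_44a246_ntS
open Pool.Agent.Lib.MP_44a246_ntF
open Pool.Agent.Lib.MP_44a246_ntO
open Pool.Agent.Lib.MP_44a246_ntA
open Pool.Agent.Lib.MP_e52354_nt
open WithZero Module

section

variable {L : Type*} [Field L] {n e : ℕ}

theorem dd_add (D : Derivation ℤ L L) (B : Matrix (Fin n) (Fin n) L) (q q' : EX n (e + 1) → L) :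
    dd D B (q + q') = dd D B q + dd D B q' := by
  funext J
  show D ((q + q') J) - gla B (q + q') J = (D (q J) - gla B q J) + (D (q' J) - gla B q' J)
  rw [Pi.add_apply, map_add, map_add, Pi.add_apply]
  ring

theorem dd_smul (D : Derivation ℤ L L) (B : Matrix (Fin n) (Fin n) L) (c : L)
    (q : EX n (e + 1) → L) : dd D B (c • q) = D c • q + c • dd D B q := by
  funext J
  show D ((c • q) J) - gla B (c • q) J = D c * q J + c * (D (q J) - gla B q J)
  rw [Pi.smul_apply, smul_eq_mul, Derivation.leibniz, map_smul, Pi.smul_apply]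
  simp only [smul_eq_mul]
  ring

/-- The operator on the vector of the monomials.

Proof. `D_mon` (MP_e52354_nt/Span) for `D (mon x J)`, and `cm_xm`, `gla_apply`; if `J i ≠ 0` then
`(dn i J).1 = J.1 - single i 1` (`dn_val`), if `J i = 0` both terms vanish. -/
theorem dd_xm (D : Derivation ℤ L L) (B : Matrix (Fin n) (Fin n) L) (x : Fin n → L)
    (J : EX n (e + 1)) :
    dd D B (xm (e + 1) x) J = ∑ i, (J.1 i : L) * (xm e x (dn i J) * dv D B x i) := by
  show D (mon x J.1) - gla B (xm (e + 1) x) J = _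
  rw [D_mon, gla_apply, ← Finset.sum_sub_distrib]
  refine Finset.sum_congr rfl fun i _ => ?_
  by_cases h : J.1 i = 0
  · rw [h, Nat.cast_zero]
    ring
  · have h1 : mon x (J.1 - Finsupp.single i 1) = xm e x (dn i J) := by
      unfold xm
      rw [dn_val h]
    rw [h1, cm_xm, Matrix.mulVec_smul, Pi.smul_apply, smul_eq_mul]
    unfold dv
    ring

end

namespace RowData

variable {κ L : Type*} [Field κ] [Field L] [Algebra κ L] {n d : ℕ} (X : RowData κ (L := L) n d)

/-- the operator of the form `F` -/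
noncomputable def dF {e : ℕ} (F : EX (n + 1) d → L) (q : EX (n + 1) (e + 1) → L) :
    EX (n + 1) (e + 1) → L := fun J => ∑ I, F I * dd (X.D I) (X.A I) q J

theorem dF_add {e : ℕ} (F : EX (n + 1) d → L) (q q' : EX (n + 1) (e + 1) → L) :
    X.dF F (q + q') = X.dF F q + X.dF F q' := by
  funext J
  show ∑ I, F I * dd (X.D I) (X.A I) (q + q') J =
    (∑ I, F I * dd (X.D I) (X.A I) q J) + ∑ I, F I * dd (X.D I) (X.A I) q' J
  rw [← Finset.sum_add_distrib]
  refine Finset.sum_congr rfl fun I _ => ?_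
  rw [dd_add, Pi.add_apply, mul_add]

theorem dF_smul {e : ℕ} (F : EX (n + 1) d → L) (c : L) (q : EX (n + 1) (e + 1) → L) :
    X.dF F (c • q) = (∑ I, F I * X.D I c) • q + c • X.dF F q := by
  funext J
  show ∑ I, F I * dd (X.D I) (X.A I) (c • q) J =
    (∑ I, F I * X.D I c) * q J + c * ∑ I, F I * dd (X.D I) (X.A I) q J
  rw [Finset.sum_mul, Finset.mul_sum, ← Finset.sum_add_distrib]
  refine Finset.sum_congr rfl fun I _ => ?_
  rw [dd_smul, Pi.add_apply, Pi.smul_apply, Pi.smul_apply, smul_eq_mul, smul_eq_mul]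
  ring

/-- Proof: exchange the sums. -/
theorem r2_eq {e : ℕ} (F : EX (n + 1) d → L) (q G : EX (n + 1) (e + 1) → L) :
    ∑ I, F I * X.r2 q G I = ∑ J, G J * X.dF F q J := by
  unfold r2 dF
  simp only [Finset.mul_sum]
  rw [Finset.sum_comm]
  exact Finset.sum_congr rfl fun J _ => Finset.sum_congr rfl fun I _ => by ring

/-- **If `F` kills the rows of the point then the operator of `F` maps `x^(e+1)` to a multiple.**

Proof. Put `v i := ∑ I, F I * dv (X.D I) (X.A I) X.x i`. Then `∑ i, y i * v i = 0` for all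
`y ∈ orth (span {x})` (exchange the sums), so `v ∈ orth (orth (span {x})) = span {x}`
(`orth_orth`, P01): `v = c • x`. By `dd_xm`, `dF F (x^(e+1)) J = ∑ i, J i * (x^e (dn i J) * v i)`,
and `x^e (dn i J) * (c * x i) = c * x^(e+1) J` if `J i ≠ 0` (`xm_up`, `up_dn`); the sum is
`c * (∑ i, J i) * x^(e+1) J = c (e+1) x^(e+1) J` (`mem_expo`, `Finsupp.degree_eq_sum`). -/
theorem dF_xm_mem {e : ℕ} {F : EX (n + 1) d → L}
    (hF : ∀ y ∈ orth (Submodule.span L {X.x}), ∑ I, F I * X.r1 y I = 0) :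
    X.dF F (xm (e + 1) X.x) ∈ Submodule.span L {xm (e + 1) X.x} := by
  obtain ⟨v, hv⟩ : ∃ v : Fin (n + 1) → L, v = fun i => ∑ I, F I * dv (X.D I) (X.A I) X.x i :=
    ⟨_, rfl⟩
  have h1 : v ∈ orth (orth (Submodule.span L {X.x})) := by
    intro y hy
    have h2 := hF y hy
    rw [← h2, hv]
    unfold r1
    simp only [Finset.mul_sum, Finset.sum_mul]
    rw [Finset.sum_comm]
    exact Finset.sum_congr rfl fun I _ => Finset.sum_congr rfl fun i _ => by ring
  rw [orth_orth] at h1
  obtain ⟨c, hc⟩ := Submodule.mem_span_singleton.1 h1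
  rw [Submodule.mem_span_singleton]
  refine ⟨c * ((e + 1 : ℕ) : L), ?_⟩
  funext J
  have h3 : X.dF F (xm (e + 1) X.x) J = ∑ i, (J.1 i : L) * (xm e X.x (dn i J) * v i) := by
    show ∑ I, F I * dd (X.D I) (X.A I) (xm (e + 1) X.x) J = _
    rw [hv]
    simp only [dd_xm, Finset.mul_sum]
    rw [Finset.sum_comm]
    exact Finset.sum_congr rfl fun i _ => Finset.sum_congr rfl fun I _ => by ring
  have h4 : ∀ i, (J.1 i : L) * (xm e X.x (dn i J) * v i) =
      (J.1 i : L) * (c * xm (e + 1) X.x J) := by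
    intro i
    by_cases h : J.1 i = 0
    · rw [h, Nat.cast_zero, zero_mul, zero_mul]
    · have h5 : xm (e + 1) X.x J = X.x i * xm e X.x (dn i J) := by
        rw [← xm_up, up_dn h]
      rw [h5, ← hc, Pi.smul_apply, smul_eq_mul]
      ring
  have h6 : ∑ i, (J.1 i : L) = ((e + 1 : ℕ) : L) := by
    have h7 := mem_expo.1 J.2
    rw [Finsupp.degree_eq_sum] at h7
    have h8 := congrArg (fun k : ℕ => (k : L)) h7
    simp only [Nat.cast_sum] at h8
    exact h8
  rw [h3, Finset.sum_congr rfl fun i _ => h4 i, ← Finset.sum_mul, h6, Pi.smul_apply, smul_eq_mul]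
  ring

private theorem sum_MD (B : Matrix (Fin (n + 1)) (Fin (n + 1)) L) (a : L) :
    ∑ I, X.M B I * X.D I a = 0 := by
  have h1 := congrArg (fun D : Derivation ℤ L L => D a) (X.hMD B)
  have h2 : (∑ I, X.M B I • X.D I) a = ∑ I, (X.M B I • X.D I) a := by
    rw [← Derivation.coeFnAddMonoidHom_apply, map_sum, Finset.sum_apply]
    rfl
  have h3 : (∑ I, X.M B I • X.D I) a = 0 := h1
  rw [h2] at h3
  exact h3

/-- **The operator of `F = M B` is `- B`.**

Proof. `dd D B q J = D (q J) - gla B q J`; `∑ I, (M B) I * X.D I (q J) = (∑ I, M B I • X.D I) (q J)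
= 0` by `hMD`; `∑ I, (M B) I * gla (X.A I) q J = gla (∑ I, M B I • X.A I) q J = gla B q J` by the
linearity (`glm`) and `hMA`. -/
theorem dF_M {e : ℕ} (B : Matrix (Fin (n + 1)) (Fin (n + 1)) L)
    (q : EX (n + 1) (e + 1) → L) : X.dF (X.M B) q = - gla B q := by
  funext J
  show ∑ I, X.M B I * (X.D I (q J) - gla (X.A I) q J) = - gla B q J
  have h1 : ∑ I, X.M B I * X.D I (q J) = 0 := X.sum_MD B (q J)
  have h2 : ∑ I, X.M B I * gla (X.A I) q J = gla B q J := by
    have h3 : glm q (∑ I, X.M B I • X.A I) J = gla B q J := by rw [X.hMA B]; rfl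
    rw [← h3, map_sum, Finset.sum_apply]
    refine Finset.sum_congr rfl fun I _ => ?_
    rw [map_smul, Pi.smul_apply, smul_eq_mul, glm_apply]
  simp only [mul_sub, Finset.sum_sub_distrib]
  rw [h1, h2, zero_sub]

/-- Proof: as `dF_M`. -/
theorem r1_M (B : Matrix (Fin (n + 1)) (Fin (n + 1)) L) (y : Fin (n + 1) → L) :
    ∑ I, X.M B I * X.r1 y I = - ∑ i, y i * B.mulVec X.x i := by
  have h1 : ∀ i, ∑ I, X.M B I * dv (X.D I) (X.A I) X.x i = - B.mulVec X.x i := by
    intro i
    have h2 : ∑ I, X.M B I * X.D I (X.x i) = 0 := X.sum_MD B (X.x i)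
    have h3 : ∑ I, X.M B I * (X.A I).mulVec X.x i = B.mulVec X.x i := by
      conv_rhs => rw [← X.hMA B, Matrix.sum_mulVec, Finset.sum_apply]
      refine Finset.sum_congr rfl fun I _ => ?_
      rw [Matrix.smul_mulVec, Pi.smul_apply, smul_eq_mul]
    unfold dv
    simp only [mul_sub, Finset.sum_sub_distrib]
    rw [h2, h3, zero_sub]
  unfold r1
  simp only [Finset.mul_sum]
  rw [Finset.sum_comm, ← Finset.sum_neg_distrib]
  refine Finset.sum_congr rfl fun i _ => ?_
  rw [← mul_neg, ← h1 i, Finset.mul_sum]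
  exact Finset.sum_congr rfl fun I _ => by ring

end RowData

end Pool.Agent.Lib.MP_44a246_ntSH
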