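import Mathlib
import Pool.Agent.Lib.MP_44a246_ntSH.RW3

/-!
# The rows of a space of symmetric tensors, over any index type (paper 619, section 3, phases 2, 3)
-/

namespace Pool.Agent.Lib.MP_44a246_ntSH

open Pool.Agent.Lib.MP_44a246_nt
open Pool.Agent.Lib.MP_44a246_ntL
open Pool.Agent.Lib.MP_44a246_ntS
open Pool.Agent.Lib.MP_44a246_ntF
open Pool.Agent.Lib.MP_44a246_ntO
open Pool.Agent.Lib.MP_44a246_ntA
open Pool.Agent.Lib.MP_e52354_nt
open WithZero Module

/-- **The data for the rows, over any index type** `σ`: a point `x`, derivations `D s` and matrices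
`A s`; a linear map `M` from the matrices to the vectors indexed by `σ`; a space `U` of vectors of
dimension at most `n + c`, which contains the rows of the point for all functionals vanishing at
`x`; and `∑ s, (M B)_s D s = 0` and `∑ s, (M B)_s A s = B` for all matrices `B` such that `M B`
vanishes on `U`. -/
structure RowU (κ : Type*) {L : Type*} [Field κ] [Field L] [Algebra κ L] (n c : ℕ)
    (σ : Type*) [Fintype σ] where
  x : Fin (n + 1) → L
  D : σ → Derivation ℤ L L
  A : σ → Matrix (Fin (n + 1)) (Fin (n + 1)) L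
  M : Matrix (Fin (n + 1)) (Fin (n + 1)) L →ₗ[L] (σ → L)
  δ : Place κ L → ℕ
  hδ : (Function.support δ).Finite
  hD : ∀ s, PoleBound κ (D s) δ
  hA : ∀ (w : Place κ L) s i j, w.1 (A s i j) ≤ exp (δ w : ℤ)
  hx : x ≠ 0
  U : Submodule L (σ → L)
  hU : finrank L U ≤ n + c
  hr : ∀ y ∈ orth (Submodule.span L {x}), (fun s => ∑ i, y i * dv (D s) (A s) x i) ∈ U
  hMD : ∀ B, (∀ u ∈ U, ∑ s, M B s * u s = 0) → ∑ s, M B s • D s = 0
  hMA : ∀ B, (∀ u ∈ U, ∑ s, M B s * u s = 0) → ∑ s, M B s • A s = B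

namespace RowU

variable {κ L : Type*} [Field κ] [Field L] [Algebra κ L] {n c : ℕ} {σ : Type*} [Fintype σ]
  (X : RowU κ (L := L) n c σ)

/-- the total size of the poles -/
noncomputable def Δ : ℤ := ∑ᶠ w, (X.δ w : ℤ)

theorem Δ_nonneg : 0 ≤ X.Δ := finsum_nonneg fun w => Int.natCast_nonneg _

/-- the row of the point and a functional -/
noncomputable def r1 (y : Fin (n + 1) → L) : σ → L :=
  fun s => ∑ i, y i * dv (X.D s) (X.A s) X.x i

/-- the row of a tensor and a functional -/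
noncomputable def r2 {e : ℕ} (q G : EX (n + 1) (e + 1) → L) : σ → L :=
  fun s => ∑ J, G J * dd (X.D s) (X.A s) q J

/-- the space of the rows of the pair `Λ`, `Λ'` -/
noncomputable def W {e : ℕ} (Λ Λ' : Submodule L (EX (n + 1) (e + 1) → L)) :
    Submodule L (σ → L) :=
  X.U ⊔ Submodule.span L {u | ∃ q ∈ Λ, ∃ G ∈ orth Λ', u = X.r2 q G}

/-- the operator of the vector `F` -/
noncomputable def dF {e : ℕ} (F : σ → L) (q : EX (n + 1) (e + 1) → L) :
    EX (n + 1) (e + 1) → L := fun J => ∑ s, F s * dd (X.D s) (X.A s) q J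

theorem dF_add {e : ℕ} (F : σ → L) (q q' : EX (n + 1) (e + 1) → L) :
    X.dF F (q + q') = X.dF F q + X.dF F q' := by
  funext J
  show ∑ I, F I * dd (X.D I) (X.A I) (q + q') J =
    (∑ I, F I * dd (X.D I) (X.A I) q J) + ∑ I, F I * dd (X.D I) (X.A I) q' J
  rw [← Finset.sum_add_distrib]
  refine Finset.sum_congr rfl fun I _ => ?_
  rw [dd_add, Pi.add_apply, mul_add]

theorem dF_smul {e : ℕ} (F : σ → L) (c : L) (q : EX (n + 1) (e + 1) → L) :
    X.dF F (c • q) = (∑ I, F I * X.D I c) • q + c • X.dF F q := by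
  funext J
  show ∑ I, F I * dd (X.D I) (X.A I) (c • q) J =
    (∑ I, F I * X.D I c) * q J + c * ∑ I, F I * dd (X.D I) (X.A I) q J
  rw [Finset.sum_mul, Finset.mul_sum, ← Finset.sum_add_distrib]
  refine Finset.sum_congr rfl fun I _ => ?_
  rw [dd_smul, Pi.add_apply, Pi.smul_apply, Pi.smul_apply, smul_eq_mul, smul_eq_mul]
  ring

/-- Proof: exchange the sums. -/
theorem r2_eq {e : ℕ} (F : σ → L) (q G : EX (n + 1) (e + 1) → L) :
    ∑ I, F I * X.r2 q G I = ∑ J, G J * X.dF F q J := by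
  unfold r2 dF
  simp only [Finset.mul_sum]
  rw [Finset.sum_comm]
  exact Finset.sum_congr rfl fun J _ => Finset.sum_congr rfl fun I _ => by ring

/-- **If `F` kills the rows of the point then the operator of `F` maps `x^(e+1)` to a multiple.**

Proof. Put `v i := ∑ I, F I * dv (X.D I) (X.A I) X.x i`. Then `∑ i, y i * v i = 0` for all
`y ∈ orth (span {x})` (exchange the sums), so `v ∈ orth (orth (span {x})) = span {x}`
(`orth_orth`, P01): `v = c • x`. By `dd_xm`, `dF F (x^(e+1)) J = ∑ i, J i * (x^e (dn i J) * v i)`,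
and `x^e (dn i J) * (c * x i) = c * x^(e+1) J` if `J i ≠ 0` (`xm_up`, `up_dn`); the sum is
`c * (∑ i, J i) * x^(e+1) J = c (e+1) x^(e+1) J` (`mem_expo`, `Finsupp.degree_eq_sum`). -/
theorem dF_xm_mem {e : ℕ} {F : σ → L}
    (hF : ∀ y ∈ orth (Submodule.span L {X.x}), ∑ I, F I * X.r1 y I = 0) :
    X.dF F (xm (e + 1) X.x) ∈ Submodule.span L {xm (e + 1) X.x} := by
  obtain ⟨v, hv⟩ : ∃ v : Fin (n + 1) → L, v = fun i => ∑ I, F I * dv (X.D I) (X.A I) X.x i :=
    ⟨_, rfl⟩
  have h1 : v ∈ orth (orth (Submodule.span L {X.x})) := by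
    intro y hy
    have h2 := hF y hy
    rw [← h2, hv]
    unfold r1
    simp only [Finset.mul_sum, Finset.sum_mul]
    rw [Finset.sum_comm]
    exact Finset.sum_congr rfl fun I _ => Finset.sum_congr rfl fun i _ => by ring
  rw [orth_orth] at h1
  obtain ⟨c, hc⟩ := Submodule.mem_span_singleton.1 h1
  rw [Submodule.mem_span_singleton]
  refine ⟨c * ((e + 1 : ℕ) : L), ?_⟩
  funext J
  have h3 : X.dF F (xm (e + 1) X.x) J = ∑ i, (J.1 i : L) * (xm e X.x (dn i J) * v i) := by
    show ∑ I, F I * dd (X.D I) (X.A I) (xm (e + 1) X.x) J = _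
    rw [hv]
    simp only [dd_xm, Finset.mul_sum]
    rw [Finset.sum_comm]
    exact Finset.sum_congr rfl fun i _ => Finset.sum_congr rfl fun I _ => by ring
  have h4 : ∀ i, (J.1 i : L) * (xm e X.x (dn i J) * v i) =
      (J.1 i : L) * (c * xm (e + 1) X.x J) := by
    intro i
    by_cases h : J.1 i = 0
    · rw [h, Nat.cast_zero, zero_mul, zero_mul]
    · have h5 : xm (e + 1) X.x J = X.x i * xm e X.x (dn i J) := by
        rw [← xm_up, up_dn h]
      rw [h5, ← hc, Pi.smul_apply, smul_eq_mul]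
      ring
  have h6 : ∑ i, (J.1 i : L) = ((e + 1 : ℕ) : L) := by
    have h7 := mem_expo.1 J.2
    rw [Finsupp.degree_eq_sum] at h7
    have h8 := congrArg (fun k : ℕ => (k : L)) h7
    simp only [Nat.cast_sum] at h8
    exact h8
  rw [h3, Finset.sum_congr rfl fun i _ => h4 i, ← Finset.sum_mul, h6, Pi.smul_apply, smul_eq_mul]
  ring

/-- **The operator of `F = M B` is `- B`**, if `M B` vanishes on `U`. -/
theorem dF_M {e : ℕ} {B : Matrix (Fin (n + 1)) (Fin (n + 1)) L}
    (hB : ∀ u ∈ X.U, ∑ s, X.M B s * u s = 0)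
    (q : EX (n + 1) (e + 1) → L) : X.dF (X.M B) q = - gla B q := by
  funext J
  show ∑ I, X.M B I * (X.D I (q J) - gla (X.A I) q J) = - gla B q J
  have h1 : ∑ I, X.M B I * X.D I (q J) = 0 := by
    have h1 := congrArg (fun D : Derivation ℤ L L => D (q J)) (X.hMD B hB)
    have h2 : (∑ I, X.M B I • X.D I) (q J) = ∑ I, (X.M B I • X.D I) (q J) := by
      rw [← Derivation.coeFnAddMonoidHom_apply, map_sum, Finset.sum_apply]
      rfl
    have h3 : (∑ I, X.M B I • X.D I) (q J) = 0 := h1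
    rw [h2] at h3
    exact h3
  have h2 : ∑ I, X.M B I * gla (X.A I) q J = gla B q J := by
    have h3 : glm q (∑ I, X.M B I • X.A I) J = gla B q J := by rw [X.hMA B hB]; rfl
    rw [← h3, map_sum, Finset.sum_apply]
    refine Finset.sum_congr rfl fun I _ => ?_
    rw [map_smul, Pi.smul_apply, smul_eq_mul, glm_apply]
  simp only [mul_sub, Finset.sum_sub_distrib]
  rw [h1, h2, zero_sub]

end RowU

end Pool.Agent.Lib.MP_44a246_ntSH
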