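import Mathlib
import Pool.Agent.Lib.MP_44a246_ntO.O02a
import Pool.Agent.Lib.MP_44a246_ntO.O02b

/-!
The inequality of Riemann for a lattice, count form, for arbitrary local matrices
(paper 619, section 2, first half of (2b), basis of (2a)).
-/

set_option autoImplicit false
set_option linter.unusedSectionVars false

namespace VFSharp

open Pool.Agent.Lib.MP_44a246_nt
open Pool.Agent.Lib.MP_44a246_ntL
open Pool.Agent.Lib.MP_44a246_ntR
open Pool.Agent.Lib.MP_44a246_ntO
open WithZero Module

variable {κ L : Type*} [Field κ] [Field L] [Algebra κ L] {ρ : Type*} [Fintype ρ]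

/-- the vectors which satisfy the local conditions `|g w c| ≤ exp (D w)` -/
def latBox (g : Place κ L → Matrix ρ ρ L) (D : Place κ L → ℤ) : Submodule κ (ρ → L) where
  carrier := {c | ∀ (w : Place κ L) i, w.1 ((g w).mulVec c i) ≤ exp (D w)}
  add_mem' := by
    intro a b ha hb w i
    rw [Matrix.mulVec_add, Pi.add_apply]
    exact (w.1.map_add _ _).trans (max_le (ha w i) (hb w i))
  zero_mem' := by
    intro w i
    rw [Matrix.mulVec_zero, Pi.zero_apply, map_zero]
    exact zero_le
  smul_mem' := by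
    intro c a ha w i
    have h1 : c • a = (algebraMap κ L c) • a := by
      funext j
      rw [Pi.smul_apply, Pi.smul_apply, Algebra.smul_def, smul_eq_mul]
    rw [h1, Matrix.mulVec_smul, Pi.smul_apply, smul_eq_mul, map_mul]
    exact (mul_le_mul' (const_le_one w c) (ha w i)).trans (by rw [one_mul])

theorem mem_latBox {g : Place κ L → Matrix ρ ρ L} {D : Place κ L → ℤ} {c : ρ → L} :
    c ∈ latBox g D ↔ ∀ (w : Place κ L) i, w.1 ((g w).mulVec c i) ≤ exp (D w) := Iff.rfl

theorem mulVec_le (v : Valuation L ℤᵐ⁰) {G : Matrix ρ ρ L} (hG : ∀ i j, v (G i j) ≤ 1)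
    {c : ρ → L} {r : ℤᵐ⁰} (hc : ∀ i, v (c i) ≤ r) (i : ρ) : v (G.mulVec c i) ≤ r := by
  unfold Matrix.mulVec dotProduct
  refine Valuation.map_sum_le v fun j _ => ?_
  rw [map_mul]
  exact (mul_le_mul' (hG i j) (hc j)).trans (by rw [one_mul])

variable [DecidableEq ρ]

/-- the inverse of an integral matrix -/
theorem inv_mulVec_le (v : Valuation L ℤᵐ⁰) {G : Matrix ρ ρ L} (hG : ∀ i j, v (G i j) ≤ 1)
    {e : ℤ} (hd : v G.det = exp (-e)) {c : ρ → L} {a : ℤ}
    (hc : ∀ i, v (G.mulVec c i) ≤ exp a) (i : ρ) : v (c i) ≤ exp (a + e) := by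
  have hd0 : G.det ≠ 0 := by
    intro h0
    rw [h0, map_zero] at hd
    exact exp_ne_zero hd.symm
  have h1 : G.det * c i = G.adjugate.mulVec (G.mulVec c) i := by
    rw [Matrix.mulVec_mulVec, Matrix.adjugate_mul, Matrix.smul_mulVec, Matrix.one_mulVec,
      Pi.smul_apply, smul_eq_mul]
  have h2 : v (G.det * c i) ≤ exp a := by
    rw [h1]
    exact mulVec_le v (adjugate_le_one v hG) hc i
  rw [map_mul, hd] at h2
  calc v (c i) = exp e * (exp (-e) * v (c i)) := by
        rw [← mul_assoc, ← exp_add, add_neg_cancel, exp_zero, one_mul]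
    _ ≤ exp e * exp a := mul_le_mul_right h2 _
    _ = exp (a + e) := by rw [← exp_add, add_comm]

variable [IsAlgClosed κ] [CharZero κ]

/-- Riemann's inequality for a lattice, integral matrices. -/
theorem finrank_latBox_int (h : IsFF κ L) [Nonempty ρ] {g : Place κ L → Matrix ρ ρ L}
    (hg : ∀ (w : Place κ L) i j, w.1 (g w i j) ≤ 1) {e : Place κ L →₀ ℕ}
    (hdet : ∀ w : Place κ L, w.1 (g w).det = exp (-(e w : ℤ))) (hone : ∀ w, e w = 0 → g w = 1)
    (D : Place κ L →₀ ℤ) :
    FiniteDimensional κ (latBox g D) ∧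
      (Fintype.card ρ : ℤ) * (divDeg D + 1 - genus κ L) + e.sum (fun _ n => (n : ℤ)) ≤
        finrank κ (latBox g D) := by
  classical
  have hcard : 1 ≤ Fintype.card ρ := Fintype.card_pos
  set eZ : Place κ L →₀ ℤ := e.mapRange (fun n : ℕ => (n : ℤ)) rfl with heZ
  set B : Place κ L →₀ ℤ := D + eZ with hB
  have hBw : ∀ w, B w = D w + (e w : ℤ) := fun w => by
    rw [hB, heZ, Finsupp.add_apply, Finsupp.mapRange_apply]
  have hfin : FiniteDimensional κ (box ρ B) := finite_box h B
  have hle : latBox g D ≤ box ρ B := by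
    intro c hc
    rw [mem_box]
    intro i w
    rw [hBw]
    exact inv_mulVec_le w.1 (hg w) (hdet w) (hc w) i
  have hfin2 : FiniteDimensional κ (latBox g D) := Submodule.finiteDimensional_of_le hle
  refine ⟨hfin2, ?_⟩
  have key : ∀ S : Finset (Place κ L), ∃ F' : Submodule κ (ρ → L), F' ≤ box ρ B ∧
      finrank κ (box ρ B) ≤ finrank κ F' + ∑ w ∈ S, (Fintype.card ρ - 1) * e w ∧
      ∀ c ∈ F', ∀ w ∈ S, ∀ i, w.1 ((g w).mulVec c i) ≤ exp (D w) := by
    intro S
    induction S using Finset.induction_on with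
    | empty => exact ⟨box ρ B, le_rfl, by simp, fun _ _ w hw => absurd hw (Finset.notMem_empty w)⟩
    | @insert w S hw ih =>
      obtain ⟨F, hF1, hF2, hF3⟩ := ih
      haveI : FiniteDimensional κ F := Submodule.finiteDimensional_of_le hF1
      obtain ⟨F', hF'1, hF'2, hF'3⟩ := place_condition h w (g := g w) (hg w) (e := e w) (hdet w)
        (a := D w) (b := B w) (by rw [hBw]) (m := (Fintype.card ρ - 1) * e w)
        (by rw [hBw]; push_cast [Nat.cast_sub hcard]; ring) F (fun c hc i => hF1 hc i w)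
      refine ⟨F', hF'1.trans hF1, ?_, ?_⟩
      · rw [Finset.sum_insert hw]
        omega
      · intro c hc w' hw' i
        rcases Finset.mem_insert.1 hw' with rfl | h'
        · exact hF'3 c hc i
        · exact hF3 c (hF'1 hc) w' h' i
  obtain ⟨F', hF'1, hF'2, hF'3⟩ := key e.support
  have hdeg : divDeg B = divDeg D + e.sum fun _ n => (n : ℤ) := by
    unfold divDeg
    rw [hB, Finsupp.sum_add_index' (fun _ => rfl) (fun _ _ _ => rfl), heZ,
      Finsupp.sum_mapRange_index (fun _ => rfl)]
  have hbox := finrank_box (ρ := ρ) h B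
  have hsum : ((∑ w ∈ e.support, (Fintype.card ρ - 1) * e w : ℕ) : ℤ) =
      ((Fintype.card ρ : ℤ) - 1) * e.sum fun _ n => (n : ℤ) := by
    rw [← Finset.mul_sum]
    push_cast [Nat.cast_sub hcard]
    rfl
  have hF'le : F' ≤ latBox g D := by
    intro c hc w i
    by_cases hw : e w = 0
    · rw [hone w hw, Matrix.one_mulVec]
      have := hF'1 hc i w
      rwa [hBw, hw, Nat.cast_zero, add_zero] at this
    · exact hF'3 c hc w (Finsupp.mem_support_iff.2 hw) i
  have h1 : ((finrank κ (box ρ B) : ℕ) : ℤ) ≤ (finrank κ F' : ℤ) +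
      ((∑ w ∈ e.support, (Fintype.card ρ - 1) * e w : ℕ) : ℤ) := by exact_mod_cast hF'2
  have h2 : ((finrank κ F' : ℕ) : ℤ) ≤ finrank κ (latBox g D) := by
    exact_mod_cast Submodule.finrank_mono hF'le
  rw [hsum] at h1
  rw [hdeg] at hbox
  nlinarith

/-- integral with unit determinant -/
def Unim (w : Place κ L) (G : Matrix ρ ρ L) : Prop := (∀ i j, w.1 (G i j) ≤ 1) ∧ w.1 G.det = 1

/-- the finite support of the orders of the determinants -/
theorem det_support {g : Place κ L → Matrix ρ ρ L} (hfin : {w | ¬ Unim w (g w)}.Finite) :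
    (Function.support fun w : Place κ L => log (w.1 (g w).det)).Finite := by
  refine hfin.subset fun w hw hu => hw ?_
  show log (w.1 (g w).det) = 0
  rw [hu.2, log_one]

/-- **Riemann's inequality for a lattice, count form.** -/
theorem finrank_latBox (h : IsFF κ L) [Nonempty ρ] {g : Place κ L → Matrix ρ ρ L}
    (hd0 : ∀ w, (g w).det ≠ 0) (hfin : {w | ¬ Unim w (g w)}.Finite) (D : Place κ L →₀ ℤ) :
    FiniteDimensional κ (latBox g D) ∧
      (Fintype.card ρ : ℤ) * (divDeg D + 1 - genus κ L) - ∑ᶠ w : Place κ L, log (w.1 (g w).det) ≤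
        finrank κ (latBox g D) := by
  classical
  -- scaling to integral matrices
  have hs : ∀ w : Place κ L, ∃ s : ℕ, (Unim w (g w) → s = 0) ∧
      ∀ i j, w.1 (g w i j) ≤ exp (s : ℤ) := by
    intro w
    by_cases hu : Unim w (g w)
    · exact ⟨0, fun _ => rfl, fun i j => by rw [Nat.cast_zero, exp_zero]; exact hu.1 i j⟩
    · refine ⟨(log (vmax w.1 fun ij : ρ × ρ => g w ij.1 ij.2)).toNat, fun h => absurd h hu, ?_⟩
      intro i j
      have h1 := le_vmax w.1 (fun ij : ρ × ρ => g w ij.1 ij.2) (i, j)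
      refine h1.trans ?_
      by_cases h0 : vmax w.1 (fun ij : ρ × ρ => g w ij.1 ij.2) = 0
      · rw [h0]; exact zero_le
      · rw [← log_le_iff_le_exp h0]
        exact Int.self_le_toNat _
  choose s hs0 hs1 using hs
  have hπ : ∀ w : Place κ L, ∃ z : L, w.1 z = exp (-(s w : ℤ)) := fun w => w.2.1 _
  choose z hz using hπ
  have hzz : ∀ w, z w ≠ 0 := by
    intro w h0
    have := hz w
    rw [h0, map_zero] at this
    exact exp_ne_zero this.symm
  let H : Place κ L → Matrix ρ ρ L := fun w => z w • g w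
  have hH : ∀ (w : Place κ L) i j, w.1 (H w i j) ≤ 1 := by
    intro w i j
    show w.1 (z w * g w i j) ≤ 1
    rw [map_mul, hz]
    calc exp (-(s w : ℤ)) * w.1 (g w i j) ≤ exp (-(s w : ℤ)) * exp (s w : ℤ) :=
          mul_le_mul_right (hs1 w i j) _
      _ = 1 := by rw [← exp_add, neg_add_cancel, exp_zero]
  have hHd : ∀ w, (H w).det = z w ^ Fintype.card ρ * (g w).det := fun w => Matrix.det_smul _ _
  have hHd0 : ∀ w, (H w).det ≠ 0 := by
    intro w
    rw [hHd]
    exact mul_ne_zero (pow_ne_zero _ (hzz w)) (hd0 w)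
  have hHle : ∀ w : Place κ L, log (w.1 (H w).det) ≤ 0 := by
    intro w
    have h1 := (log_le_log ((w.1.ne_zero_iff).2 (hHd0 w)) one_ne_zero).2 (det_le_one w.1 (hH w))
    rwa [log_one] at h1
  have hlogH : ∀ w : Place κ L, log (w.1 (H w).det) =
      -(Fintype.card ρ * s w : ℤ) + log (w.1 (g w).det) := by
    intro w
    have e1 : w.1 (H w).det = exp (-(s w : ℤ)) ^ Fintype.card ρ * w.1 (g w).det := by
      rw [← hz w, ← map_pow, ← map_mul]
      exact congrArg w.1 (hHd w)
    rw [e1, log_mul (pow_ne_zero _ exp_ne_zero)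
      ((w.1.ne_zero_iff).2 (hd0 w)), log_pow, log_exp, nsmul_eq_mul]
    ring
  have hunim : ∀ w, Unim w (g w) → log (w.1 (H w).det) = 0 := by
    intro w hw
    rw [hlogH, hs0 w hw, hw.2, log_one]
    simp
  have hesupp : (Function.support fun w : Place κ L => (-log (w.1 (H w).det)).toNat).Finite := by
    refine hfin.subset fun w hw hu => hw ?_
    show (-log (w.1 (H w).det)).toNat = 0
    rw [hunim w hu]
    rfl
  obtain ⟨e, he⟩ : ∃ e : Place κ L →₀ ℕ, ∀ w, e w = (-log (w.1 (H w).det)).toNat :=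
    ⟨Finsupp.ofSupportFinite _ hesupp, fun w => rfl⟩
  have heZ : ∀ w, (e w : ℤ) = -log (w.1 (H w).det) := by
    intro w
    rw [he w]
    exact Int.toNat_of_nonneg (by have := hHle w; omega)
  have hssupp : (Function.support fun w : Place κ L => s w).Finite := by
    refine hfin.subset fun w hw hu => hw ?_
    exact hs0 w hu
  obtain ⟨S, hS⟩ : ∃ S : Place κ L →₀ ℤ, ∀ w, S w = (s w : ℤ) :=
    ⟨Finsupp.ofSupportFinite (fun w => (s w : ℤ)) (hssupp.subset fun w hw h0 => hw (by
      show (s w : ℤ) = 0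
      have : s w = 0 := h0
      rw [this]; rfl)), fun w => rfl⟩
  let g' : Place κ L → Matrix ρ ρ L := fun w => if e w = 0 then 1 else H w
  have hg'1 : ∀ w, e w = 0 → g' w = 1 := fun w hw => if_pos hw
  have hg'H : ∀ w, e w ≠ 0 → g' w = H w := fun w hw => if_neg hw
  have hdetg' : ∀ w : Place κ L, w.1 (g' w).det = exp (-(e w : ℤ)) := by
    intro w
    by_cases hw : e w = 0
    · rw [hg'1 w hw, Matrix.det_one, map_one, hw, Nat.cast_zero, neg_zero, exp_zero]
    · rw [hg'H w hw, heZ, neg_neg, exp_log ((w.1.ne_zero_iff).2 (hHd0 w))]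
  have hg'int : ∀ (w : Place κ L) i j, w.1 (g' w i j) ≤ 1 := by
    intro w i j
    by_cases hw : e w = 0
    · rw [hg'1 w hw, Matrix.one_apply]
      split_ifs
      · rw [map_one]
      · rw [map_zero]; exact zero_le
    · rw [hg'H w hw]
      exact hH w i j
  have hHD : ∀ (w : Place κ L) (c : ρ → L) i, w.1 ((H w).mulVec c i) ≤ exp (D w - S w) ↔
      w.1 ((g w).mulVec c i) ≤ exp (D w) := by
    intro w c i
    have e1 : (H w).mulVec c i = z w * (g w).mulVec c i := by
      show (z w • g w).mulVec c i = _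
      rw [Matrix.smul_mulVec, Pi.smul_apply, smul_eq_mul]
    rw [e1, map_mul, hz, hS]
    constructor
    · intro h1
      calc w.1 ((g w).mulVec c i) = exp (s w : ℤ) * (exp (-(s w : ℤ)) * w.1 ((g w).mulVec c i)) := by
            rw [← mul_assoc, ← exp_add, add_neg_cancel, exp_zero, one_mul]
        _ ≤ exp (s w : ℤ) * exp (D w - s w) := mul_le_mul_right h1 _
        _ = exp (D w) := by rw [← exp_add]; congr 1; ring
    · intro h1
      calc exp (-(s w : ℤ)) * w.1 ((g w).mulVec c i) ≤ exp (-(s w : ℤ)) * exp (D w) :=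
            mul_le_mul_right h1 _
        _ = exp (D w - s w) := by rw [← exp_add]; congr 1; ring
  have hbox : latBox g' (D - S : Place κ L →₀ ℤ) = latBox g D := by
    ext c
    rw [mem_latBox, mem_latBox]
    refine forall_congr' fun w => ?_
    rw [Finsupp.sub_apply]
    by_cases hw : e w = 0
    · have h3 : w.1 (H w).det = exp (-(0 : ℤ)) := by
        have := heZ w
        rw [hw, Nat.cast_zero] at this
        rw [← exp_log ((w.1.ne_zero_iff).2 (hHd0 w))]
        congr 1
        omega
      rw [hg'1 w hw, Matrix.one_mulVec]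
      constructor
      · intro h1 i
        rw [← hHD]
        exact mulVec_le w.1 (hH w) h1 i
      · intro h1 i
        have h2 : ∀ i, w.1 ((H w).mulVec c i) ≤ exp (D w - S w) := fun i => (hHD w c i).2 (h1 i)
        have h4 := inv_mulVec_le w.1 (hH w) h3 h2 i
        rwa [add_zero] at h4
    · rw [hg'H w hw]
      exact forall_congr' fun i => hHD w c i
  obtain ⟨h1, h2⟩ := finrank_latBox_int h (g := g') hg'int (e := e) hdetg' hg'1 (D - S)
  rw [hbox] at h1 h2
  refine ⟨h1, ?_⟩
  have hdiv : divDeg (D - S) = divDeg D - ∑ᶠ w, (s w : ℤ) := by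
    have h3 : divDeg (D - S) = divDeg D - divDeg S := by
      unfold divDeg
      rw [Finsupp.sum_sub_index (fun _ _ _ => rfl)]
    rw [h3]
    congr 1
    unfold divDeg Finsupp.sum
    rw [finsum_eq_sum_of_support_subset (s := S.support)]
    · exact Finset.sum_congr rfl fun w _ => hS w
    · intro w hw
      rw [Finset.mem_coe, Finsupp.mem_support_iff, hS w]
      exact hw
  have hesum : (e.sum fun _ n => (n : ℤ)) =
      Fintype.card ρ * ∑ᶠ w, (s w : ℤ) - ∑ᶠ w : Place κ L, log (w.1 (g w).det) := by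
    have h3 : (e.sum fun _ n => (n : ℤ)) = ∑ᶠ w, (e w : ℤ) := by
      unfold Finsupp.sum
      rw [finsum_eq_sum_of_support_subset (s := e.support)]
      intro w hw
      rw [Finset.mem_coe, Finsupp.mem_support_iff]
      intro h0
      exact hw (by show (e w : ℤ) = 0; rw [h0]; rfl)
    have hsf : (Function.support fun w => (s w : ℤ)).Finite := by
      refine hssupp.subset fun w hw h0 => hw ?_
      have h0' : s w = 0 := h0
      show (s w : ℤ) = 0
      rw [h0']; rfl
    have hsf2 : (Function.support fun w => (Fintype.card ρ : ℤ) * (s w : ℤ)).Finite := by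
      refine hsf.subset fun w hw h0 => hw ?_
      show (Fintype.card ρ : ℤ) * (s w : ℤ) = 0
      have h0' : (s w : ℤ) = 0 := h0
      rw [h0', mul_zero]
    rw [h3, mul_finsum, ← finsum_sub_distrib hsf2 (det_support hfin)]
    refine finsum_congr fun w => ?_
    rw [heZ, hlogH]
    ring
  rw [hdiv, hesum] at h2
  refine le_trans (le_of_eq ?_) h2
  ring

end VFSharp
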