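import Mathlib
import Pool.Agent.Lib.MP_44a246_ntSH.Lat
import Pool.Agent.Lib.MP_44a246_ntS.SB1b
import Pool.Agent.Lib.MP_44a246_ntS.SA2b
import Pool.Agent.Lib.MP_44a246_ntR.GR1

/-!
Relative Siegel lemma (paper 619, (2a)): a linear form on `B` which vanishes on `A`.
-/

set_option autoImplicit false
set_option linter.unusedSectionVars false

namespace VFSharp

open Pool.Agent.Lib.MP_44a246_nt
open Pool.Agent.Lib.MP_44a246_ntL
open Pool.Agent.Lib.MP_44a246_ntS
open Pool.Agent.Lib.MP_44a246_ntR
open Pool.Agent.Lib.MP_44a246_ntO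
open WithZero Module

section blocks

variable {L : Type*} [Field L] (v : Valuation L ℤᵐ⁰) {α β ι : Type*} [Fintype α] [DecidableEq α]
  [Fintype β] [DecidableEq β] [Fintype ι]

theorem pl_blocks (G11 : Matrix α α L) (G12 : Matrix α β L) (G21 : Matrix β α L)
    (G22 : Matrix β β L) (a : α → ι → L) (b : β → ι → L) :
    pl v (Sum.elim (fun i k => ∑ j, G11 i j * a j k + ∑ j, G12 i j * b j k)
      (fun i k => ∑ j, G21 i j * a j k + ∑ j, G22 i j * b j k)) =
      v (Matrix.fromBlocks G11 G12 G21 G22).det * pl v (Sum.elim a b) := by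
  rw [← pl_mul]
  congr 1
  funext i k
  rcases i with i | i
  · simp [Fintype.sum_sum_type]
  · simp [Fintype.sum_sum_type]

end blocks

section change

variable {L : Type*} [Field L] {ρ ι : Type*} [Fintype ρ] [DecidableEq ρ] [Fintype ι]

omit [Fintype ι] in
theorem span_change {a : ρ → ι → L} {g : Matrix ρ ρ L} (hg : g.det ≠ 0) :
    Submodule.span L (Set.range fun i k => ∑ j, g i j * a j k) =
      Submodule.span L (Set.range a) := by
  have hu : IsUnit g.det := isUnit_iff_ne_zero.2 hg
  have hb : ∀ i, (fun k => ∑ j, g i j * a j k) = ∑ j, g i j • a j := by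
    intro i
    funext k
    rw [Finset.sum_apply]
    rfl
  apply le_antisymm
  · rw [Submodule.span_le]
    rintro _ ⟨i, rfl⟩
    simp only [SetLike.mem_coe]
    rw [hb i]
    exact Submodule.sum_mem _ fun j _ => Submodule.smul_mem _ _ (Submodule.subset_span ⟨j, rfl⟩)
  · rw [Submodule.span_le]
    rintro _ ⟨i, rfl⟩
    simp only [SetLike.mem_coe]
    have h1 : a i = ∑ l, g⁻¹ i l • (fun k => ∑ j, g l j * a j k) := by
      funext k
      rw [Finset.sum_apply]
      have h2 : ∑ l, (g⁻¹ i l • (fun k => ∑ j, g l j * a j k)) k =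
          ∑ l, ∑ j, g⁻¹ i l * (g l j * a j k) := by
        refine Finset.sum_congr rfl fun l _ => ?_
        rw [Pi.smul_apply, smul_eq_mul, Finset.mul_sum]
      rw [h2, Finset.sum_comm]
      have h3 : ∀ j, ∑ l, g⁻¹ i l * (g l j * a j k) = (g⁻¹ * g) i j * a j k := by
        intro j
        rw [Matrix.mul_apply, Finset.sum_mul]
        exact Finset.sum_congr rfl fun l _ => by ring
      rw [Finset.sum_congr rfl fun j _ => h3 j, Matrix.nonsing_inv_mul g hu]
      rw [Finset.sum_eq_single i]
      · rw [Matrix.one_apply_eq, one_mul]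
      · intro j _ hj
        rw [Matrix.one_apply_ne (Ne.symm hj), zero_mul]
      · intro h
        exact absurd (Finset.mem_univ i) h
    rw [h1]
    exact Submodule.sum_mem _ fun l _ => Submodule.smul_mem _ _ (Submodule.subset_span ⟨l, rfl⟩)

/-- every subspace has a basis with pivots -/
theorem exists_piv (v : Valuation L ℤᵐ⁰) (A : Submodule L (ι → L)) :
    ∃ (a : Fin (finrank L A) → ι → L) (f : Fin (finrank L A) → ι),
      (∀ i j, a i (f j) = if i = j then 1 else 0) ∧ LinearIndependent L a ∧
      Submodule.span L (Set.range a) = A := by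
  obtain ⟨hli0, hsp0⟩ := finBasis_val A
  obtain ⟨g0, f, hg0, hR0⟩ := exists_red v hli0
  exact ⟨_, f, hR0.piv, hR0.linearIndependent, by rw [span_change hg0]; exact hsp0⟩

end change

section decomposition

variable {L : Type*} [Field L] {α β ι : Type*} [Fintype α] [DecidableEq α]
  [Fintype β] [DecidableEq β]

/-- Decomposition of the elements of `B` in a basis of `A` with pivots and a complement. -/
theorem decomp {B : Submodule L (ι → L)} {a : α → ι → L} {b : β → ι → L} {q : α → ι} {q' : β → ι}
    (ha : ∀ i j, a i (q j) = if i = j then 1 else 0) (hb0 : ∀ i j, b i (q j) = 0)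
    (hb : ∀ i j, b i (q' j) = if i = j then 1 else 0)
    (hB : B ≤ Submodule.span L (Set.range a) ⊔ Submodule.span L (Set.range b))
    {y : ι → L} (hy : y ∈ B) :
    y = ∑ l, y (q l) • a l + ∑ i, (y (q' i) - ∑ l, y (q l) * a l (q' i)) • b i := by
  obtain ⟨u, hu, z, hz, rfl⟩ := Submodule.mem_sup.1 (hB hy)
  rw [Submodule.mem_span_range_iff_exists_fun] at hu hz
  obtain ⟨s, rfl⟩ := hu
  obtain ⟨t, rfl⟩ := hz
  have h1 : ∀ l, (∑ j, s j • a j + ∑ j, t j • b j) (q l) = s l := by
    intro l
    rw [Pi.add_apply, Finset.sum_apply, Finset.sum_apply]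
    simp [ha, hb0]
  have h2 : ∀ i, (∑ j, s j • a j + ∑ j, t j • b j) (q' i) = ∑ l, s l * a l (q' i) + t i := by
    intro i
    rw [Pi.add_apply, Finset.sum_apply, Finset.sum_apply]
    simp [hb]
  simp only [h1, h2, add_sub_cancel_left]

end decomposition

section loc

variable {L : Type*} [Field L] (v : Valuation L ℤᵐ⁰) {α β ι : Type*} [Fintype α] [DecidableEq α]
  [Fintype β] [DecidableEq β] [Fintype ι]

/-- the coordinates modulo `A` -/
def relT (a : α → ι → L) (f : α → ι) (g : β → ι) : (ι → L) →ₗ[L] (β → L) where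
  toFun y := fun j => y (g j) - ∑ i, y (f i) * a i (g j)
  map_add' x y := by
    funext j
    simp only [Pi.add_apply, add_mul, Finset.sum_add_distrib]
    ring
  map_smul' c y := by
    funext j
    simp only [Pi.smul_apply, smul_eq_mul, RingHom.id_apply, mul_sub, Finset.mul_sum, mul_assoc]

theorem relT_apply (a : α → ι → L) (f : α → ι) (g : β → ι) (y : ι → L) (j : β) :
    relT a f g y j = y (g j) - ∑ i, y (f i) * a i (g j) := rfl

/-- the local data for `relative` Siegel -/
theorem rel_local {B : Submodule L (ι → L)} {a : α → ι → L} {b : β → ι → L} {f : α → ι} {g : β → ι}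
    (hla : LinearIndependent L a) (haf : ∀ i j, a i (f j) = if i = j then 1 else 0)
    (hbf : ∀ i j, b i (f j) = 0) (hbg : ∀ i j, b i (g j) = if i = j then 1 else 0)
    (hB : B ≤ Submodule.span L (Set.range a) ⊔ Submodule.span L (Set.range b)) :
    ∃ G : Matrix β β L, G.det ≠ 0 ∧ v G.det * pl v (Sum.elim a b) = pl v a ∧
      ((∀ i j, v (a i (g j)) ≤ 1) → ∀ i j, v (G i j) ≤ 1) ∧
      ∀ (c : β → L) (r : ℤᵐ⁰), (∀ i, v (G.mulVec c i) ≤ r) → ∃ m : ι → L, (∀ k, v (m k) ≤ r) ∧
        ∀ y ∈ B, ∑ k, m k * y k = ∑ j, c j * relT a f g y j := by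
  classical
  obtain ⟨GA, q, hGA, hRA⟩ := exists_red v hla
  obtain ⟨a', ha'⟩ : ∃ a' : α → ι → L, a' = fun i k => ∑ j, GA i j * a j k := ⟨_, rfl⟩
  rw [← ha'] at hRA
  have hspa' : Submodule.span L (Set.range a') = Submodule.span L (Set.range a) := by
    rw [ha']; exact span_change hGA
  have hTa : ∀ i, relT a f g (a i) = 0 := by
    intro i
    funext j
    rw [relT_apply]
    simp [haf]
  have hTspan : ∀ y ∈ Submodule.span L (Set.range a), relT a f g y = 0 := by
    intro y hy
    have : Submodule.span L (Set.range a) ≤ LinearMap.ker (relT a f g) := by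
      rw [Submodule.span_le]
      rintro _ ⟨i, rfl⟩
      exact hTa i
    exact this hy
  have hTa' : ∀ i, relT a f g (a' i) = 0 := fun i =>
    hTspan _ (by rw [← hspa']; exact Submodule.subset_span ⟨i, rfl⟩)
  have hTb : ∀ i, relT a f g (b i) = Pi.single i 1 := by
    intro i
    funext j
    rw [relT_apply, hbg, Pi.single_apply]
    simp only [hbf, zero_mul, Finset.sum_const_zero, sub_zero]
    simp only [eq_comm]
  obtain ⟨b0, hb0⟩ : ∃ b0 : β → ι → L, b0 = fun i => b i - ∑ l, b i (q l) • a' l := ⟨_, rfl⟩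
  have hTb0 : ∀ i, relT a f g (b0 i) = Pi.single i 1 := by
    intro i
    rw [hb0]
    simp only [map_sub, map_sum, map_smul, hTa', smul_zero, Finset.sum_const_zero, sub_zero, hTb]
  have hlb0 : LinearIndependent L b0 := by
    apply LinearIndependent.of_comp (relT a f g)
    have : (relT a f g ∘ b0) = fun i => (Pi.single i (1 : L) : β → L) := by
      funext i
      exact hTb0 i
    rw [this]
    exact Pi.linearIndependent_single_one β L
  have hb0q : ∀ i l, b0 i (q l) = 0 := by
    intro i l
    rw [hb0]
    simp only [Pi.sub_apply, Finset.sum_apply, Pi.smul_apply, smul_eq_mul, hRA.piv]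
    simp
  obtain ⟨GB, q', hGB, hRB⟩ := exists_red v hlb0
  obtain ⟨b', hb'⟩ : ∃ b' : β → ι → L, b' = fun i k => ∑ j, GB i j * b0 j k := ⟨_, rfl⟩
  rw [← hb'] at hRB
  have hb's : ∀ i, b' i = ∑ j, GB i j • b0 j := by
    intro i
    rw [hb']
    funext k
    rw [Finset.sum_apply]
    rfl
  have hTb' : ∀ i, relT a f g (b' i) = fun j => GB i j := by
    intro i
    rw [hb's, map_sum]
    simp only [map_smul, hTb0]
    funext j
    rw [Finset.sum_apply]
    simp [Pi.single_apply]
  have hb'q : ∀ i l, b' i (q l) = 0 := by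
    intro i l
    rw [hb's, Finset.sum_apply]
    simp [hb0q]
  have hspb' : Submodule.span L (Set.range b') = Submodule.span L (Set.range b0) := by
    rw [hb']; exact span_change hGB
  have hB' : B ≤ Submodule.span L (Set.range a') ⊔ Submodule.span L (Set.range b') := by
    refine hB.trans (sup_le ?_ ?_)
    · rw [← hspa']; exact le_sup_left
    · rw [Submodule.span_le]
      rintro _ ⟨i, rfl⟩
      have e1 : b i = (∑ l, b i (q l) • a' l) + b0 i := by rw [hb0]; simp
      rw [SetLike.mem_coe, e1]
      refine Submodule.add_mem _ ?_ ?_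
      · exact Submodule.mem_sup_left (Submodule.sum_mem _ fun l _ =>
          Submodule.smul_mem _ _ (Submodule.subset_span ⟨l, rfl⟩))
      · rw [hspb']
        exact Submodule.mem_sup_right (Submodule.subset_span ⟨i, rfl⟩)
  refine ⟨GB, hGB, ?_, ?_, ?_⟩
  · -- determinants
    have e1 : pl v (Sum.elim a' b') = v (GA.det * GB.det) * pl v (Sum.elim a b) := by
      have h1 := pl_blocks v GA (0 : Matrix α β L)
        (Matrix.of fun i r => -∑ j, GB i j * ∑ m, b j (q m) * GA m r) GB a b
      rw [Matrix.det_fromBlocks_zero₁₂] at h1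
      rw [← h1]
      congr 1
      funext i k
      rcases i with i | i
      · simp only [Sum.elim_inl, ha', Matrix.zero_apply, zero_mul, Finset.sum_const_zero, add_zero]
      · simp only [Sum.elim_inr, Matrix.of_apply]
        have e2 : b' i k = ∑ j, GB i j * (b j k - ∑ m, b j (q m) * ∑ r, GA m r * a r k) := by
          rw [hb's, Finset.sum_apply]
          refine Finset.sum_congr rfl fun j _ => ?_
          rw [Pi.smul_apply, smul_eq_mul, hb0]
          simp only [Pi.sub_apply, Finset.sum_apply, Pi.smul_apply, smul_eq_mul, ha']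
        rw [e2]
        simp only [mul_sub, Finset.sum_sub_distrib, neg_mul, Finset.sum_neg_distrib,
          Finset.mul_sum, Finset.sum_mul]
        have e3 : ∑ x, ∑ y, ∑ z, GB i x * (b x (q y) * (GA y z * a z k)) =
            ∑ z, ∑ x, ∑ y, GB i x * (b x (q y) * GA y z) * a z k := by
          have e4 : ∀ x, ∑ y, ∑ z, GB i x * (b x (q y) * (GA y z * a z k)) =
              ∑ z, ∑ y, GB i x * (b x (q y) * GA y z) * a z k := by
            intro x
            rw [Finset.sum_comm]
            exact Finset.sum_congr rfl fun z _ => Finset.sum_congr rfl fun y _ => by ring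
          rw [Finset.sum_congr rfl fun x _ => e4 x, Finset.sum_comm]
        rw [e3]
        ring
    have e2 : pl v (Sum.elim (fun l => a' l - ∑ i, a' l (q' i) • b' i) b') =
        pl v (Sum.elim a' b') := by
      have h1 := pl_blocks v (1 : Matrix α α L) (Matrix.of fun l i => -a' l (q' i))
        (0 : Matrix β α L) (1 : Matrix β β L) a' b'
      rw [Matrix.det_fromBlocks_zero₂₁, Matrix.det_one, Matrix.det_one, mul_one, map_one,
        one_mul] at h1
      rw [← h1]
      congr 1
      funext i k
      rcases i with i | i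
      · simp only [Sum.elim_inl, Matrix.one_apply, Matrix.of_apply, Pi.sub_apply,
          Finset.sum_apply, Pi.smul_apply, smul_eq_mul, ite_mul, one_mul, zero_mul,
          Finset.sum_ite_eq, Finset.mem_univ, if_true, neg_mul, Finset.sum_neg_distrib]
        ring
      · simp [Matrix.one_apply]
    have e3 : Red v (Sum.elim (fun l => a' l - ∑ i, a' l (q' i) • b' i) b') (Sum.elim q q') := by
      constructor
      · intro i j
        rcases i with i | i <;> rcases j with j | j
        · simp [hRA.piv, hb'q]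
        · simp [hRB.piv]
        · simp [hb'q]
        · simp [hRB.piv]
      · intro i k
        rcases i with i | i
        · simp only [Sum.elim_inl, Pi.sub_apply, Finset.sum_apply, Pi.smul_apply, smul_eq_mul]
          refine (Valuation.map_sub _ _ _).trans (max_le (hRA.int i k) ?_)
          refine Valuation.map_sum_le v fun j _ => ?_
          rw [map_mul]
          exact mul_le_one' (hRA.int _ _) (hRB.int _ _)
        · exact hRB.int i k
    have e4 := e3.pl_eq
    have e5 := hRA.pl_eq
    rw [ha', pl_mul] at e5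
    rw [e2, e1, map_mul] at e4
    have hGA0 : v GA.det ≠ 0 := (v.ne_zero_iff).2 hGA
    have e6 : v GA.det * (v GB.det * pl v (Sum.elim a b)) = v GA.det * pl v a := by
      rw [e5, ← mul_assoc, e4]
    exact mul_left_cancel₀ hGA0 e6
  · intro hint i j
    have e1 : GB i j = relT a f g (b' i) j := by rw [hTb']
    rw [e1, relT_apply]
    refine (Valuation.map_sub _ _ _).trans (max_le (hRB.int _ _) ?_)
    refine Valuation.map_sum_le v fun l _ => ?_
    rw [map_mul]
    exact mul_le_one' (hRB.int _ _) (hint _ _)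
  · intro c r hc
    refine ⟨fun k => ∑ i, GB.mulVec c i * ((if k = q' i then 1 else 0) -
      ∑ l, (if k = q l then 1 else 0) * a' l (q' i)), ?_, ?_⟩
    · intro k
      refine Valuation.map_sum_le v fun i _ => ?_
      rw [map_mul]
      have h1 : v ((if k = q' i then 1 else 0) -
          ∑ l, (if k = q l then 1 else 0) * a' l (q' i)) ≤ 1 := by
        refine (Valuation.map_sub _ _ _).trans (max_le ?_ ?_)
        · split_ifs
          · rw [map_one]
          · rw [map_zero]; exact zero_le
        · refine Valuation.map_sum_le v fun l _ => ?_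
          rw [map_mul]
          refine mul_le_one' ?_ (hRA.int _ _)
          split_ifs
          · rw [map_one]
          · rw [map_zero]; exact zero_le
      exact (mul_le_mul' (hc i) h1).trans (by rw [mul_one])
    · intro y hy
      have e1 := decomp (a := a') (b := b') (q := q) (q' := q') hRA.piv hb'q hRB.piv hB' hy
      have e2 : relT a f g y = fun j => ∑ i, (y (q' i) - ∑ l, y (q l) * a' l (q' i)) * GB i j := by
        conv_lhs => rw [e1]
        rw [map_add, map_sum, map_sum]
        simp only [map_smul, hTa', smul_zero, Finset.sum_const_zero, zero_add, hTb']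
        funext j
        rw [Finset.sum_apply]
        rfl
      have e3 : ∑ k, (∑ i, GB.mulVec c i * ((if k = q' i then 1 else 0) -
          ∑ l, (if k = q l then 1 else 0) * a' l (q' i))) * y k =
          ∑ i, GB.mulVec c i * (y (q' i) - ∑ l, y (q l) * a' l (q' i)) := by
        simp only [Finset.sum_mul]
        rw [Finset.sum_comm]
        refine Finset.sum_congr rfl fun i _ => ?_
        simp only [mul_assoc]
        rw [← Finset.mul_sum]
        congr 1
        simp only [sub_mul, Finset.sum_sub_distrib, ite_mul, one_mul, zero_mul,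
          Finset.sum_ite_eq', Finset.mem_univ, if_true, Finset.sum_mul]
        congr 1
        rw [Finset.sum_comm]
        refine Finset.sum_congr rfl fun l _ => ?_
        simp [mul_comm]
      rw [e3, e2]
      simp only [Matrix.mulVec, dotProduct, Finset.mul_sum, Finset.sum_mul]
      rw [Finset.sum_comm]
      refine Finset.sum_congr rfl fun i _ => Finset.sum_congr rfl fun j _ => ?_
      ring

end loc

section main

variable {κ L : Type*} [Field κ] [IsAlgClosed κ] [CharZero κ] [Field L] [Algebra κ L]
  {ι : Type*} [Fintype ι]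

/-- adapted bases with pivots for `A ≤ B` -/
theorem exists_adapted (v : Valuation L ℤᵐ⁰) {A B : Submodule L (ι → L)} (hAB : A ≤ B) :
    ∃ ν : ℕ, ν + finrank L A = finrank L B ∧
    ∃ (a : Fin (finrank L A) → ι → L) (f : Fin (finrank L A) → ι)
      (b : Fin ν → ι → L) (g : Fin ν → ι),
      (∀ i j, a i (f j) = if i = j then 1 else 0) ∧ (∀ i j, b i (f j) = 0) ∧
      (∀ i j, b i (g j) = if i = j then 1 else 0) ∧ LinearIndependent L a ∧
      Submodule.span L (Set.range a) = A ∧
      Submodule.span L (Set.range a) ⊔ Submodule.span L (Set.range b) = B ∧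
      LinearIndependent L (Sum.elim a b) := by
  classical
  obtain ⟨a, f, haf, hla, hsa⟩ := exists_piv v A
  -- the complement
  let T : (ι → L) →ₗ[L] (Fin (finrank L A) → L) := LinearMap.funLeft L L f
  have hT : ∀ y j, T y j = y (f j) := fun y j => rfl
  let B0 : Submodule L (ι → L) := B ⊓ LinearMap.ker T
  have hmem : ∀ y, y ∈ B0 ↔ y ∈ B ∧ ∀ j, y (f j) = 0 := by
    intro y
    show y ∈ B ∧ T y = 0 ↔ _
    constructor
    · rintro ⟨h1, h2⟩
      exact ⟨h1, fun j => congrFun h2 j⟩
    · rintro ⟨h1, h2⟩
      exact ⟨h1, funext fun j => h2 j⟩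
  have haA : ∀ i, a i ∈ A := fun i => by
    have : a i ∈ Submodule.span L (Set.range a) := Submodule.subset_span ⟨i, rfl⟩
    rwa [hsa] at this
  have hsup : A ⊔ B0 = B := by
    apply le_antisymm (sup_le hAB inf_le_left)
    intro y hy
    have h1 : y = (∑ i, y (f i) • a i) + (y - ∑ i, y (f i) • a i) := by abel
    rw [h1]
    have h2 : (∑ i, y (f i) • a i) ∈ A :=
      Submodule.sum_mem _ fun i _ => Submodule.smul_mem _ _ (haA i)
    refine Submodule.add_mem _ (Submodule.mem_sup_left h2) (Submodule.mem_sup_right ?_)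
    rw [hmem]
    refine ⟨B.sub_mem hy (hAB h2), fun j => ?_⟩
    rw [Pi.sub_apply, Finset.sum_apply]
    simp [haf]
  have hinf : A ⊓ B0 = ⊥ := by
    rw [eq_bot_iff]
    rintro y ⟨hyA, hyB⟩
    have h2 := ((hmem y).1 hyB).2
    rw [SetLike.mem_coe, ← hsa] at hyA
    obtain ⟨t, rfl⟩ := (Submodule.mem_span_range_iff_exists_fun L).1 hyA
    have h3 : ∀ i, t i = 0 := by
      intro i
      have := h2 i
      rw [Finset.sum_apply] at this
      simpa [haf] using this
    rw [Submodule.mem_bot]
    simp [h3]
  have hfr : finrank L B0 + finrank L A = finrank L B := by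
    have h1 := Submodule.finrank_sup_add_finrank_inf_eq A B0
    rw [hsup, hinf, finrank_bot] at h1
    omega
  obtain ⟨b, g, hbg, hlb, hsb⟩ := exists_piv v B0
  have hbB : ∀ i, b i ∈ B0 := fun i => by
    have : b i ∈ Submodule.span L (Set.range b) := Submodule.subset_span ⟨i, rfl⟩
    rwa [hsb] at this
  have hbf : ∀ i j, b i (f j) = 0 := fun i j => ((hmem _).1 (hbB i)).2 j
  refine ⟨finrank L B0, hfr, a, f, b, g, haf, hbf, hbg, hla, hsa, ?_, ?_⟩
  · rw [hsa, hsb, hsup]
  · apply LinearIndependent.sum_type hla hlb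
    rw [hsa, hsb, disjoint_iff]
    exact hinf

theorem finrank_eq_of_le {A B : Submodule L (ι → L)} (hAB : A ≤ B)
    (h : finrank L A = finrank L B) : A = B := Submodule.eq_of_le_of_finrank_eq hAB h

theorem relT_span {α β : Type*} [Fintype α] [DecidableEq α] [Fintype β] [DecidableEq β] {a : α → ι → L} {f : α → ι}
    (haf : ∀ i j, a i (f j) = if i = j then 1 else 0) (g : β → ι) {y : ι → L}
    (hy : y ∈ Submodule.span L (Set.range a)) : relT a f g y = 0 := by
  have hTa : ∀ i, relT a f g (a i) = 0 := by
    intro i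
    funext j
    rw [relT_apply]
    simp [haf]
  have : Submodule.span L (Set.range a) ≤ LinearMap.ker (relT a f g) := by
    rw [Submodule.span_le]
    rintro _ ⟨i, rfl⟩
    exact hTa i
  exact this hy

/-- **Relative Siegel lemma** ((2a) of paper 619): a linear form on `B`, zero on `A`, not zero on
`B`, of norm at most `exp (D w)` on `B` at every place `w`. -/
theorem siegel_rel (h : IsFF κ L) {A B : Submodule L (ι → L)} (hAB : A ≤ B) (hne : A ≠ B)
    (D : Place κ L →₀ ℤ)
    (hD : 0 < ((finrank L B : ℤ) - finrank L A) * (divDeg D + 1 - genus κ L) +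
      (ht κ B - ht κ A)) :
    ∃ l : ι → L, (∀ y ∈ A, ∑ k, l k * y k = 0) ∧ (∃ y ∈ B, ∑ k, l k * y k ≠ 0) ∧
      ∀ w : Place κ L, ∃ m : ι → L, (∀ k, w.1 (m k) ≤ exp (D w)) ∧
        ∀ y ∈ B, ∑ k, m k * y k = ∑ k, l k * y k := by
  classical
  obtain ⟨P0⟩ := exists_place h
  obtain ⟨ν, hν, a, f, b, g, haf, hbf, hbg, hla, hsa, hsab, hlab⟩ := exists_adapted P0.1 hAB
  have hν1 : 0 < ν := by
    rcases Nat.eq_zero_or_pos ν with h0 | h0
    · exact absurd (finrank_eq_of_le hAB (by omega)) hne
    · exact h0
  have : Nonempty (Fin ν) := ⟨⟨0, hν1⟩⟩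
  choose G hG0 hGd hGint hGm using fun w : Place κ L =>
    rel_local w.1 hla haf hbf hbg (le_of_eq hsab.symm)
  have hpa : ∀ w : Place κ L, pl w.1 a ≠ 0 := fun w => pl_ne_zero w.1 hla
  have hpab : ∀ w : Place κ L, pl w.1 (Sum.elim a b) ≠ 0 := fun w => pl_ne_zero w.1 hlab
  have hlog : ∀ w : Place κ L, log (w.1 (G w).det) = log (pl w.1 a) - log (pl w.1 (Sum.elim a b)) := by
    intro w
    rw [← hGd w, log_mul ((w.1.ne_zero_iff).2 (hG0 w)) (hpab w)]
    ring
  have hfin : {w | ¬ Unim w (G w)}.Finite := by
    have h1 : {w : Place κ L | ∃ ij : Fin (finrank L A) × Fin ν, 1 < w.1 (a ij.1 (g ij.2))}.Finite := by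
      rw [Set.ofPred_exists]
      refine Set.finite_iUnion fun ij => ?_
      by_cases h0 : a ij.1 (g ij.2) = 0
      · refine Set.Finite.subset Set.finite_empty ?_
        intro w hw
        rw [Set.mem_ofPred_eq, h0, map_zero] at hw
        exact absurd hw (not_lt.2 zero_le)
      · exact (h.place_finite h0).subset fun w hw => ne_of_gt hw
    refine ((h1.union (pl_support h hla)).union (pl_support h hlab)).subset ?_
    intro w hw
    by_contra hcon
    rw [Set.mem_union, Set.mem_union, not_or, not_or] at hcon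
    obtain ⟨⟨hc1, hc2⟩, hc3⟩ := hcon
    apply hw
    refine ⟨hGint w fun i j => ?_, ?_⟩
    · by_contra h2
      exact hc1 ⟨(i, j), not_le.1 h2⟩
    · have hc2' : log (pl w.1 a) = 0 := Function.notMem_support.1 hc2
      have hc3' : log (pl w.1 (Sum.elim a b)) = 0 := Function.notMem_support.1 hc3
      have h3 := hlog w
      rw [hc2', hc3', sub_zero] at h3
      rw [← exp_log ((w.1.ne_zero_iff).2 (hG0 w)), h3, exp_zero]
  obtain ⟨hf, hcount⟩ := finrank_latBox h (g := G) hG0 hfin D
  have hsum : ∑ᶠ w : Place κ L, log (w.1 (G w).det) = ht κ A - ht κ B := by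
    have h1 := ht_span h hla
    have h2 := ht_span h hlab
    rw [hsa] at h1
    have h3 : Submodule.span L (Set.range (Sum.elim a b)) = B := by
      rw [Set.Sum.elim_range, Submodule.span_union, hsab]
    rw [h3] at h2
    rw [h1, h2, ← finsum_sub_distrib (pl_support h hla) (pl_support h hlab)]
    exact finsum_congr hlog
  rw [hsum, Fintype.card_fin] at hcount
  have hpos : 0 < finrank κ (latBox G D) := by
    have h1 : (ν : ℤ) = (finrank L B : ℤ) - finrank L A := by
      rw [← hν]; push_cast; ring
    rw [h1] at hcount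
    have h2 : (0 : ℤ) < finrank κ (latBox G D) := by linarith
    exact_mod_cast h2
  have hne' : latBox G D ≠ ⊥ := by
    intro h0
    rw [h0, finrank_bot] at hpos
    exact lt_irrefl _ hpos
  obtain ⟨c, hc, hc0⟩ := Submodule.exists_mem_ne_zero_of_ne_bot hne'
  have hl : ∀ y : ι → L, ∑ k, (∑ j, c j * ((if k = g j then 1 else 0) -
      ∑ i, (if k = f i then 1 else 0) * a i (g j))) * y k = ∑ j, c j * relT a f g y j := by
    intro y
    simp only [Finset.sum_mul]
    rw [Finset.sum_comm]
    refine Finset.sum_congr rfl fun i _ => ?_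
    simp only [mul_assoc]
    rw [← Finset.mul_sum, relT_apply]
    congr 1
    simp only [sub_mul, Finset.sum_sub_distrib, ite_mul, one_mul, zero_mul,
      Finset.sum_ite_eq', Finset.mem_univ, if_true, Finset.sum_mul]
    congr 1
    rw [Finset.sum_comm]
    refine Finset.sum_congr rfl fun l _ => ?_
    simp [mul_comm]
  refine ⟨fun k => ∑ j, c j * ((if k = g j then 1 else 0) -
      ∑ i, (if k = f i then 1 else 0) * a i (g j)), ?_, ?_, ?_⟩
  · intro y hy
    rw [hl y, relT_span haf g (by rw [hsa]; exact hy)]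
    simp
  · obtain ⟨j, hj⟩ := Function.ne_iff.1 hc0
    refine ⟨b j, ?_, ?_⟩
    · have h1 : b j ∈ Submodule.span L (Set.range a) ⊔ Submodule.span L (Set.range b) :=
        Submodule.mem_sup_right (Submodule.subset_span ⟨j, rfl⟩)
      rwa [hsab] at h1
    · rw [hl (b j)]
      have h1 : ∀ j', relT a f g (b j) j' = if j = j' then 1 else 0 := by
        intro j'
        rw [relT_apply, hbg]
        simp [hbf]
      simp only [h1, mul_ite, mul_one, mul_zero, Finset.sum_ite_eq, Finset.mem_univ, if_true]
      exact hj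
  · intro w
    obtain ⟨m, hm1, hm2⟩ := hGm w c (exp (D w)) (fun i => hc w i)
    exact ⟨m, hm1, fun y hy => by rw [hm2 y hy, hl y]⟩

/-- the version with a divisor at one place; `a` is the degree of the linear form -/
theorem siegel_rel_height (h : IsFF κ L) {A B : Submodule L (ι → L)} (hAB : A ≤ B) (hne : A ≠ B)
    {a : ℤ} (ha : ((finrank L B : ℤ) - finrank L A) * (a + genus κ L) ≤ ht κ B - ht κ A) :
    ∃ (l : ι → L) (τ : Place κ L → ℤ), (Function.support τ).Finite ∧ (∑ᶠ w, τ w) = -a ∧
      (∀ y ∈ A, ∑ k, l k * y k = 0) ∧ (∃ y ∈ B, ∑ k, l k * y k ≠ 0) ∧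
      ∀ w : Place κ L, ∃ m : ι → L, (∀ k, w.1 (m k) ≤ exp (τ w)) ∧
        ∀ y ∈ B, ∑ k, m k * y k = ∑ k, l k * y k := by
  classical
  have hlt : finrank L A < finrank L B :=
    lt_of_le_of_ne (Submodule.finrank_mono hAB) fun h0 => hne (finrank_eq_of_le hAB h0)
  obtain ⟨P⟩ := exists_place h
  obtain ⟨l, hl0, hl, hm⟩ := siegel_rel h hAB hne (Finsupp.single P (-a)) (by
    rw [divDeg_single]
    have h1 : (0 : ℤ) < (finrank L B : ℤ) - finrank L A := by
      have : (finrank L A : ℤ) < finrank L B := by exact_mod_cast hlt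
      linarith
    have h2 : ((finrank L B : ℤ) - finrank L A) * (-a + 1 - genus κ L) + (ht κ B - ht κ A) =
        ((finrank L B : ℤ) - finrank L A) + (ht κ B - ht κ A -
          ((finrank L B : ℤ) - finrank L A) * (a + genus κ L)) := by ring
    rw [h2]
    linarith)
  refine ⟨l, fun w => Finsupp.single P (-a) w, ?_, ?_, hl0, hl, hm⟩
  · exact (Finsupp.finite_support (Finsupp.single P (-a)))
  · rw [finsum_eq_single _ P]
    · rw [Finsupp.single_eq_same]
    · intro w hw
      exact Finsupp.single_eq_of_ne hw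

/-- the elements of `R` of norm at most `exp (D w)` at every place -/
def boxSub (R : Submodule L (ι → L)) (D : Place κ L → ℤ) : Submodule κ (ι → L) where
  carrier := {v | v ∈ R ∧ ∀ (w : Place κ L) k, w.1 (v k) ≤ exp (D w)}
  add_mem' := by
    rintro x y ⟨hx, hx'⟩ ⟨hy, hy'⟩
    exact ⟨R.add_mem hx hy, fun w k => (w.1.map_add _ _).trans (max_le (hx' w k) (hy' w k))⟩
  zero_mem' := ⟨R.zero_mem, fun w k => by rw [Pi.zero_apply, map_zero]; exact zero_le⟩
  smul_mem' := by
    rintro c x ⟨hx, hx'⟩
    have h1 : c • x = (algebraMap κ L c) • x := by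
      funext j
      rw [Pi.smul_apply, Pi.smul_apply, Algebra.smul_def, smul_eq_mul]
    rw [h1]
    refine ⟨R.smul_mem _ hx, fun w k => ?_⟩
    rw [Pi.smul_apply, smul_eq_mul, map_mul]
    exact (mul_le_mul' (const_le_one w c) (hx' w k)).trans (by rw [one_mul])

theorem mem_boxSub {R : Submodule L (ι → L)} {D : Place κ L → ℤ} {v : ι → L} :
    v ∈ boxSub R D ↔ v ∈ R ∧ ∀ (w : Place κ L) k, w.1 (v k) ≤ exp (D w) := Iff.rfl

/-- **Riemann's inequality for a subspace** (lower half of (2b) of paper 619). -/
theorem count_sub (h : IsFF κ L) (R : Submodule L (ι → L)) (D : Place κ L →₀ ℤ) :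
    FiniteDimensional κ (boxSub R D) ∧
      (finrank L R : ℤ) * (divDeg D + 1 - genus κ L) - ht κ R ≤ finrank κ (boxSub R D) := by
  classical
  obtain ⟨P0⟩ := exists_place h
  obtain ⟨a, f, haf, hla, hsa⟩ := exists_piv P0.1 R
  rcases Nat.eq_zero_or_pos (finrank L R) with h0 | hpos
  · have hR : R = ⊥ := Submodule.finrank_eq_zero.1 h0
    have h1 : (boxSub R (fun w => D w) : Submodule κ (ι → L)) = ⊥ := by
      rw [eq_bot_iff]
      rintro v ⟨hv, -⟩
      rw [hR] at hv
      exact hv
    have h2 : ht κ R = 0 := by rw [hR]; exact ht_bot h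
    have h3 : (boxSub R D : Submodule κ (ι → L)) = ⊥ := h1
    rw [h3]
    refine ⟨inferInstance, ?_⟩
    rw [h0, h2, finrank_bot]
    simp
  have : Nonempty (Fin (finrank L R)) := ⟨⟨0, hpos⟩⟩
  choose G q hG hR using fun w : Place κ L => exists_red w.1 hla
  let g : Place κ L → Matrix (Fin (finrank L R)) (Fin (finrank L R)) L :=
    fun w => Matrix.of fun i j => a j (q w i)
  have hGg : ∀ w, G w * (g w).transpose = 1 := by
    intro w
    ext i j
    rw [Matrix.mul_apply, Matrix.one_apply]
    exact (hR w).piv i j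
  have hdet : ∀ w, (G w).det * (g w).det = 1 := by
    intro w
    have := congrArg Matrix.det (hGg w)
    rwa [Matrix.det_mul, Matrix.det_transpose, Matrix.det_one] at this
  have hg0 : ∀ w, (g w).det ≠ 0 := fun w h0 => by
    have := hdet w
    rw [h0, mul_zero] at this
    exact zero_ne_one this
  have hplG : ∀ w : Place κ L, w.1 (G w).det * pl w.1 a = 1 := by
    intro w
    have := (hR w).pl_eq
    rwa [pl_mul] at this
  have hpl : ∀ w : Place κ L, w.1 (g w).det = pl w.1 a := by
    intro w
    have h1 : w.1 (G w).det * w.1 (g w).det = 1 := by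
      rw [← map_mul, hdet w, map_one]
    exact mul_left_cancel₀ ((w.1.ne_zero_iff).2 (hG w)) (h1.trans (hplG w).symm)
  have hfin : {w | ¬ Unim w (g w)}.Finite := by
    have h1 : {w : Place κ L | ∃ ij : Fin (finrank L R) × ι, 1 < w.1 (a ij.1 ij.2)}.Finite := by
      rw [Set.ofPred_exists]
      refine Set.finite_iUnion fun ij => ?_
      by_cases h0 : a ij.1 ij.2 = 0
      · refine Set.Finite.subset Set.finite_empty ?_
        intro w hw
        rw [Set.mem_ofPred_eq, h0, map_zero] at hw
        exact absurd hw (not_lt.2 zero_le)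
      · exact (h.place_finite h0).subset fun w hw => ne_of_gt hw
    refine (h1.union (pl_support h hla)).subset ?_
    intro w hw
    by_contra hcon
    rw [Set.mem_union, not_or] at hcon
    obtain ⟨hc1, hc2⟩ := hcon
    apply hw
    refine ⟨fun i j => ?_, ?_⟩
    · by_contra h2
      exact hc1 ⟨(j, q w i), not_le.1 h2⟩
    · have hc2' : log (pl w.1 a) = 0 := Function.notMem_support.1 hc2
      rw [hpl, ← exp_log (pl_ne_zero w.1 hla), hc2', exp_zero]
  obtain ⟨hf, hcount⟩ := finrank_latBox h (g := g) hg0 hfin D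
  let Φ : (Fin (finrank L R) → L) →ₗ[κ] (ι → L) :=
    { toFun := fun c => ∑ j, c j • a j
      map_add' := fun c d => by simp only [Pi.add_apply, add_smul, Finset.sum_add_distrib]
      map_smul' := fun r c => by
        simp only [Pi.smul_apply, RingHom.id_apply, Finset.smul_sum, smul_assoc] }
  have hΦ : ∀ c, Φ c = ∑ j, c j • a j := fun c => rfl
  have hΦf : ∀ c j, Φ c (f j) = c j := by
    intro c j
    rw [hΦ, Finset.sum_apply]
    simp [haf]
  have hinj : Function.Injective Φ := by
    intro c d hcd
    funext j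
    rw [← hΦf c j, ← hΦf d j, hcd]
  have haR : ∀ j, a j ∈ R := fun j => by
    have : a j ∈ Submodule.span L (Set.range a) := Submodule.subset_span ⟨j, rfl⟩
    rwa [hsa] at this
  have hloc : ∀ (w : Place κ L) (c : Fin (finrank L R) → L) (r : ℤᵐ⁰),
      (∀ k, w.1 (Φ c k) ≤ r) ↔ ∀ i, w.1 ((g w).mulVec c i) ≤ r := by
    intro w c r
    have e1 : ∀ i, (g w).mulVec c i = Φ c (q w i) := by
      intro i
      rw [hΦ, Finset.sum_apply]
      show ∑ j, a j (q w i) * c j = _
      refine Finset.sum_congr rfl fun j _ => ?_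
      rw [Pi.smul_apply, smul_eq_mul, mul_comm]
    constructor
    · intro h1 i
      rw [e1]
      exact h1 _
    · intro h1 k
      have h2 : Φ c = ∑ i, Φ c (q w i) • (fun k => ∑ j, G w i j * a j k) := by
        have h3 : c = (g w)⁻¹.mulVec ((g w).mulVec c) := by
          rw [Matrix.mulVec_mulVec, Matrix.nonsing_inv_mul _ (isUnit_iff_ne_zero.2 (hg0 w)),
            Matrix.one_mulVec]
        have h4 : (g w)⁻¹ = (G w).transpose := by
          apply Matrix.inv_eq_left_inv
          have := congrArg Matrix.transpose (hGg w)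
          rw [Matrix.transpose_mul, Matrix.transpose_transpose, Matrix.transpose_one] at this
          exact mul_eq_one_comm.1 this
        have h5 : ∀ j, c j = ∑ i, G w i j * Φ c (q w i) := by
          intro j
          conv_lhs => rw [h3, h4]
          show ∑ i, (G w).transpose j i * (g w).mulVec c i = _
          refine Finset.sum_congr rfl fun i _ => ?_
          rw [Matrix.transpose_apply, e1]
        funext k
        have e6 : Φ c k = ∑ j, c j * a j k := by
          rw [hΦ, Finset.sum_apply]
          rfl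
        rw [e6, Finset.sum_apply]
        simp only [Pi.smul_apply, smul_eq_mul, Finset.mul_sum]
        rw [Finset.sum_comm]
        refine Finset.sum_congr rfl fun j _ => ?_
        conv_lhs => rw [h5 j]
        rw [Finset.sum_mul]
        exact Finset.sum_congr rfl fun i _ => by ring
      rw [h2, Finset.sum_apply]
      refine Valuation.map_sum_le w.1 fun i _ => ?_
      rw [Pi.smul_apply, smul_eq_mul, map_mul]
      have h6 := h1 i
      rw [e1] at h6
      exact (mul_le_mul' h6 ((hR w).int i k)).trans (by rw [mul_one])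
  have hmap : (latBox g D).map Φ = boxSub R D := by
    ext v
    rw [Submodule.mem_map, mem_boxSub]
    constructor
    · rintro ⟨c, hc, rfl⟩
      refine ⟨?_, fun w => (hloc w c _).2 (hc w)⟩
      rw [hΦ]
      exact R.sum_mem fun j _ => R.smul_mem _ (haR j)
    · rintro ⟨hv, hv'⟩
      rw [← hsa] at hv
      obtain ⟨c, hc⟩ := (Submodule.mem_span_range_iff_exists_fun L).1 hv
      refine ⟨c, fun w => (hloc w c _).1 fun k => ?_, ?_⟩
      · rw [hΦ, hc]
        exact hv' w k
      · rw [hΦ, hc]
  have he := Submodule.equivMapOfInjective Φ hinj (latBox g D)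
  have hfin2 : FiniteDimensional κ ((latBox g D).map Φ) := Module.Finite.equiv he
  have hfr : finrank κ (latBox g D) = finrank κ ((latBox g D).map Φ) := he.finrank_eq
  rw [hmap] at hfin2 hfr
  refine ⟨hfin2, ?_⟩
  rw [← hfr]
  have hsum : ∑ᶠ w : Place κ L, log (w.1 (g w).det) = ht κ R := by
    have h1 := ht_span h hla
    rw [hsa] at h1
    rw [h1]
    exact finsum_congr fun w => by rw [hpl w]
  rw [hsum, Fintype.card_fin] at hcount
  exact hcount

end main

end VFSharp
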