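import Mathlib
import Pool.Agent.Lib.MP_44a246_ntSH.RV3

/-!
# The dimension of the space of the rows (paper 619, (3b)), over any index type
-/

namespace Pool.Agent.Lib.MP_44a246_ntSH

open Pool.Agent.Lib.MP_44a246_nt
open Pool.Agent.Lib.MP_44a246_ntL
open Pool.Agent.Lib.MP_44a246_ntS
open Pool.Agent.Lib.MP_44a246_ntF
open Pool.Agent.Lib.MP_44a246_ntO
open Pool.Agent.Lib.MP_44a246_ntA
open Pool.Agent.Lib.MP_e52354_nt
open WithZero Module

section

private theorem finrank_step {L E₁ E₂ : Type*} [Field L] [AddCommGroup E₁] [Module L E₁]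
    [AddCommGroup E₂] [Module L E₂] [FiniteDimensional L E₁] [FiniteDimensional L E₂]
    (f : E₁ →ₗ[L] E₂) {K : Submodule L E₁} {P Q : Submodule L E₂} (hPQ : P ≤ Q)
    (hK : K ≤ Q.comap f) :
    finrank L K + finrank L P ≤ finrank L ↥(K ⊓ P.comap f) + finrank L Q := by
  have h1 := LinearMap.finrank_range_add_finrank_ker ((P.mkQ ∘ₗ f).domRestrict K)
  have h2 := LinearMap.finrank_range_add_finrank_ker (P.mkQ.domRestrict Q)
  have h3 : LinearMap.ker ((P.mkQ ∘ₗ f).domRestrict K) = (P.comap f).comap K.subtype := by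
    ext z
    simp [LinearMap.mem_ker]
  have h4 : LinearMap.ker (P.mkQ.domRestrict Q) = P.comap Q.subtype := by
    ext z
    simp [LinearMap.mem_ker]
  have h5 : finrank L ↥((P.comap f).comap K.subtype) = finrank L ↥(K ⊓ P.comap f) := by
    rw [← Submodule.map_comap_subtype, Submodule.finrank_map_subtype_eq]
  have h6 : finrank L ↥(P.comap Q.subtype) = finrank L P := by
    rw [← Submodule.finrank_map_subtype_eq, Submodule.map_comap_subtype, inf_eq_right.2 hPQ]
  have h7 : LinearMap.range ((P.mkQ ∘ₗ f).domRestrict K) ≤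
      LinearMap.range (P.mkQ.domRestrict Q) := by
    rintro _ ⟨z, rfl⟩
    exact ⟨⟨f z.1, hK z.2⟩, rfl⟩
  have h8 := Submodule.finrank_mono h7
  rw [h3, h5] at h1
  rw [h4, h6] at h2
  omega

end

namespace RowU

variable {κ L : Type*} [Field κ] [Field L] [Algebra κ L] {n c e : ℕ} {σ : Type*} [Fintype σ]
  (X : RowU κ (L := L) n c σ)

/-- **(3b).** As in RW5; the matrices `B` such that `M B` vanishes on `W` have codimension at most
`finrank W`. -/
theorem finrank_glm_le {Λ Λ' : Submodule L (EX (n + 1) (e + 1) → L)}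
    {q : EX (n + 1) (e + 1) → L} (hq : q ∈ Λ) :
    finrank L (LinearMap.range (glm q)) ≤ finrank L (X.W Λ Λ') + finrank L Λ' := by
  classical
  have hUW : X.U ≤ X.W Λ Λ' := le_sup_left
  have e3 := finrank_step X.M (K := ⊤) (P := orth (X.W Λ Λ')) (Q := ⊤) le_top
    (by intro B _; exact trivial)
  have e4 := finrank_orth (X.W Λ Λ')
  have e6 := finrank_step (glm q) (K := (orth (X.W Λ Λ')).comap X.M) (P := ⊥)
    (Q := Λ') bot_le (by
      intro B hB
      rw [Submodule.mem_comap, glm_apply, ← orth_orth Λ', mem_orth]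
      intro G hG
      have h1 : X.r2 q G ∈ X.W Λ Λ' :=
        Submodule.mem_sup_right (Submodule.subset_span ⟨q, hq, G, hG, rfl⟩)
      have h2 := mem_orth.1 hB _ h1
      have h3 : ∀ u ∈ X.U, ∑ s, X.M B s * u s = 0 := by
        intro u hu
        exact mem_orth.1 hB u (hUW hu)
      rw [r2_eq, dF_M X h3] at h2
      rw [← neg_eq_zero, ← h2, ← Finset.sum_neg_distrib]
      refine Finset.sum_congr rfl fun J _ => ?_
      rw [Pi.neg_apply]
      ring)
  have e7 : finrank L ↥((orth (X.W Λ Λ')).comap X.M ⊓ (⊥ : Submodule L _).comap (glm q)) ≤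
      finrank L (LinearMap.ker (glm q)) := by
    refine Submodule.finrank_mono ?_
    rw [LinearMap.ker]
    exact inf_le_right
  have e8 := LinearMap.finrank_range_add_finrank_ker (glm q)
  rw [finrank_bot] at e6
  rw [top_inf_eq, finrank_top, finrank_top, Module.finrank_fintype_fun_eq_card] at e3
  omega

end RowU

end Pool.Agent.Lib.MP_44a246_ntSH
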