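import Mathlib
import Pool.Agent.Lib.MP_44a246_ntSH.RW0

/-!
# The dimension of `V · V_q` (paper 619, (3b)): pure linear algebra
-/

namespace Pool.Agent.Lib.MP_44a246_ntSH

open Pool.Agent.Lib.MP_44a246_ntF
open Pool.Agent.Lib.MP_44a246_ntO
open Pool.Agent.Lib.MP_e52354_nt
open Module

section

variable {L : Type*} [Field L] {m : ℕ}

/-- the monomial `X_a X_b` -/
noncomputable def ab (a b : Fin m) : EX m (1 + 1) :=
  ⟨Finsupp.single a 1 + Finsupp.single b 1, by
    rw [mem_expo, map_add, Finsupp.degree_single, Finsupp.degree_single]⟩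

private theorem ab_comm (a b : Fin m) : ab a b = ab b a := by
  apply Subtype.ext
  exact add_comm _ _

private noncomputable def sg (a : Fin m) : EX m 1 :=
  ⟨Finsupp.single a 1, by rw [mem_expo, Finsupp.degree_single]⟩

private theorem up_sg (a j : Fin m) : up j (sg a) = ab a j := rfl

private theorem dn_ab (a b : Fin m) : dn a (ab a b) = sg b := by
  have h1 : ab a b = up a (sg b) := by
    rw [up_sg, ab_comm]
  rw [h1, dn_up]

private theorem exists_sg (φ : EX m 1) : ∃ a, φ = sg a := by
  obtain ⟨j, ψ, h⟩ := exists_up (d := 0) φ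
  refine ⟨j, ?_⟩
  rw [h]
  apply Subtype.ext
  have h2 := mem_expo.1 ψ.2
  have h3 : ψ.1 = 0 := by
    rwa [Finsupp.degree_eq_zero_iff] at h2
  show ψ.1 + Finsupp.single j 1 = Finsupp.single j 1
  rw [h3, zero_add]

/-- the symmetric matrix -/
private noncomputable def Sm (q : EX m (1 + 1) → L) : Matrix (Fin m) (Fin m) L :=
  Matrix.of fun a b => q (ab a b)

private theorem Sm_apply (q : EX m (1 + 1) → L) (a b : Fin m) : Sm q a b = q (ab a b) := rfl

private theorem Sm_symm (q : EX m (1 + 1) → L) (a b : Fin m) : Sm q a b = Sm q b a := by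
  rw [Sm_apply, Sm_apply, ab_comm]

private theorem Sm_transpose (q : EX m (1 + 1) → L) : (Sm q).transpose = Sm q := by
  ext a b
  exact Sm_symm q b a

private theorem cm_sg (q : EX m (1 + 1) → L) (a : Fin m) : cm (sg a) q = (Sm q).row a := by
  funext j
  rfl

private theorem spn_eq (q : EX m (1 + 1) → L) :
    spn (L ∙ q) = LinearMap.range (Sm q).vecMulLinear := by
  rw [range_vecMulLinear]
  apply le_antisymm
  · unfold spn
    apply iSup_le
    intro φ
    obtain ⟨a, rfl⟩ := exists_sg φ
    rw [Submodule.map_span_le]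
    intro u hu
    rw [Set.mem_singleton_iff] at hu
    rw [hu, cm_sg]
    exact Submodule.subset_span ⟨a, rfl⟩
  · rw [Submodule.span_le]
    rintro _ ⟨a, rfl⟩
    rw [← cm_sg]
    exact cm_mem_spn (Submodule.mem_span_singleton_self q) (sg a)

private theorem glm_ab (q : EX m (1 + 1) → L) (B : Matrix (Fin m) (Fin m) L) (a b : Fin m) :
    glm q B (ab a b) = (B * Sm q) a b + (B * Sm q) b a := by
  rw [glm_apply, gla_apply]
  have h1 : ∀ i, (((ab a b).1 i : ℕ) : L) =
      (if a = i then 1 else 0) + (if b = i then 1 else 0) := by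
    intro i
    show (((Finsupp.single a 1 + Finsupp.single b 1 : Fin m →₀ ℕ) i : ℕ) : L) = _
    rw [Finsupp.add_apply, Finsupp.single_apply, Finsupp.single_apply]
    push_cast
    rfl
  simp only [h1, add_mul, ite_mul, one_mul, zero_mul, Finset.sum_add_distrib,
    Finset.sum_ite_eq, Finset.mem_univ, if_true]
  have h2 : ∀ a b : Fin m, B.mulVec (cm (dn a (ab a b)) q) a = (B * Sm q) a b := by
    intro a b
    rw [dn_ab, cm_sg, Matrix.mul_apply]
    show ∑ j, B a j * Sm q b j = _
    exact Finset.sum_congr rfl fun j _ => by rw [Sm_symm]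
  rw [h2 a b]
  congr 1
  rw [ab_comm, h2 b a]

end

section

variable {L : Type*} [Field L] [CharZero L] {m : ℕ}

private theorem card_pairs (ρ : ℕ) :
    2 * Fintype.card {p : Fin ρ × Fin ρ // p.1 < p.2} ≤ ρ * (ρ - 1) := by
  have h0 : Fintype.card {p : Fin ρ × Fin ρ // p.1 < p.2} =
      Fintype.card {p : Fin ρ × Fin ρ // p.2 < p.1} :=
    Fintype.card_congr
      { toFun := fun p => ⟨(p.1.2, p.1.1), p.2⟩
        invFun := fun p => ⟨(p.1.2, p.1.1), p.2⟩
        left_inv := fun p => rfl
        right_inv := fun p => rfl }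
  have h1 : Fintype.card {p : Fin ρ × Fin ρ // p.1 < p.2} +
      Fintype.card {p : Fin ρ × Fin ρ // p.2 < p.1} ≤
        (Finset.offDiag (Finset.univ : Finset (Fin ρ))).card := by
    rw [Fintype.card_subtype, Fintype.card_subtype, ← Finset.card_union_of_disjoint]
    · refine Finset.card_le_card fun p hp => ?_
      rw [Finset.mem_offDiag]
      rcases Finset.mem_union.1 hp with h | h
      · exact ⟨Finset.mem_univ _, Finset.mem_univ _, (Finset.mem_filter.1 h).2.ne⟩
      · exact ⟨Finset.mem_univ _, Finset.mem_univ _, (Finset.mem_filter.1 h).2.ne'⟩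
    · rw [Finset.disjoint_left]
      intro p hp hp'
      exact lt_asymm (Finset.mem_filter.1 hp).2 (Finset.mem_filter.1 hp').2
  rw [Finset.offDiag_card, Finset.card_univ, Fintype.card_fin] at h1
  rw [Nat.mul_sub, mul_one]
  omega

/-- **The dimension of `V · V_q = {B q}`.**

Proof. Identify `q` with the symmetric matrix `S a b = q (ab a b)`; for a matrix `B`,
`(gla B q) (ab a b) = (B S + S Bᵀ) a b` (`gla_apply`; treat `a = b` and `a ≠ b`; for `a = b` the
factor is `2`). `spn (L ∙ q)` is the span of the rows `cm φ q`, `φ ∈ EX m 1`, i.e. of the rows of `S`: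
its dimension is the rank `ρ` of `S`. The kernel of `B ↦ B q` consists of the `B` such that `B S` is
alternating; evaluating at the pairs `i < j` of a basis of `L^m / ker S` the kernel of this map is
`{B | B S = 0}`, of dimension `m (m - ρ)`. So the kernel has dimension at most
`m (m - ρ) + ρ (ρ - 1) / 2`. -/
theorem two_rank_le (q : EX m (1 + 1) → L) :
    2 * m * finrank L (spn (L ∙ q)) ≤ 2 * finrank L (LinearMap.range (glm q)) +
      finrank L (spn (L ∙ q)) * (finrank L (spn (L ∙ q)) - 1) := by
  rw [spn_eq]
  set S := Sm q with hS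
  set ρ := finrank L (LinearMap.range S.vecMulLinear) with hρ
  -- a basis of the range and preimages
  let bs : Basis (Fin ρ) L (LinearMap.range S.vecMulLinear) := finBasisOfFinrankEq L _ hρ.symm
  have hy : ∀ i, ∃ y : Fin m → L, S.vecMulLinear y = (bs i : Fin m → L) := fun i => (bs i).2
  choose y hy using hy
  -- the evaluation at the pairs
  let Ψ : Matrix (Fin m) (Fin m) L →ₗ[L] ({p : Fin ρ × Fin ρ // p.1 < p.2} → L) :=
    { toFun := fun B p => y p.1.1 ⬝ᵥ ((B * S).mulVec (y p.1.2))
      map_add' := by
        intro B B'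
        funext p
        simp only [Pi.add_apply, add_mul, Matrix.add_mulVec, dotProduct_add]
      map_smul' := by
        intro c B
        funext p
        simp only [Pi.smul_apply, Matrix.smul_mul, Matrix.smul_mulVec, dotProduct_smul,
          RingHom.id_apply] }
  have hΨ : ∀ B p, Ψ B p = y p.1.1 ⬝ᵥ ((B * S).mulVec (y p.1.2)) := fun _ _ => rfl
  set K := LinearMap.ker (glm q) with hK
  have hanti : ∀ B ∈ K, ∀ a b, (B * S) a b = - (B * S) b a := by
    intro B hB a b
    rw [hK, LinearMap.mem_ker] at hB
    have h1 := glm_ab q B a b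
    rw [hB] at h1
    exact eq_neg_of_add_eq_zero_left h1.symm
  -- the kernel of `Ψ` on `K`
  have hker : ∀ B ∈ K, Ψ B = 0 → B * S = 0 := by
    intro B hB hB0
    set N := B * S with hN
    have hNt : N.transpose = -N := by
      ext a b
      rw [Matrix.transpose_apply, Matrix.neg_apply]
      exact hanti B hB b a
    have hanti2 : ∀ u v : Fin m → L, u ⬝ᵥ N.mulVec v = - (v ⬝ᵥ N.mulVec u) := by
      intro u v
      rw [Matrix.dotProduct_mulVec, dotProduct_comm, ← Matrix.mulVec_transpose, hNt,
        Matrix.neg_mulVec, dotProduct_neg]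
    have hyy : ∀ i j, y i ⬝ᵥ N.mulVec (y j) = 0 := by
      have hlt : ∀ i j, i < j → y i ⬝ᵥ N.mulVec (y j) = 0 := by
        intro i j hij
        have := congrFun hB0 ⟨(i, j), hij⟩
        rw [hΨ] at this
        exact this
      intro i j
      rcases lt_trichotomy i j with h | h | h
      · exact hlt i j h
      · subst h
        have h1 := hanti2 (y i) (y i)
        have h2 : (2 : L) * (y i ⬝ᵥ N.mulVec (y i)) = 0 := by
          rw [two_mul]
          nth_rewrite 1 [h1]
          exact neg_add_cancel _
        exact (mul_eq_zero.1 h2).resolve_left two_ne_zero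
      · rw [hanti2, hlt j i h, neg_zero]
    -- `N` kills the kernel of `S`
    have hSt : S.transpose = S := Sm_transpose q
    have hkS : ∀ z : Fin m → L, S.vecMulLinear z = 0 → N.mulVec z = 0 := by
      intro z hz
      have h1 : S.mulVec z = 0 := by
        rw [← hSt, Matrix.mulVec_transpose]
        exact hz
      rw [hN, ← Matrix.mulVec_mulVec, h1, Matrix.mulVec_zero]
    -- every vector is a combination of the `y i` up to the kernel
    have hdec : ∀ v : Fin m → L, ∃ c : Fin ρ → L,
        S.vecMulLinear (v - ∑ i, c i • y i) = 0 := by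
      intro v
      refine ⟨fun i => bs.repr ⟨S.vecMulLinear v, LinearMap.mem_range_self _ v⟩ i, ?_⟩
      rw [map_sub, map_sum]
      have h1 := bs.sum_repr ⟨S.vecMulLinear v, LinearMap.mem_range_self _ v⟩
      have h2 := congrArg Subtype.val h1
      rw [Submodule.coe_sum] at h2
      rw [sub_eq_zero]
      refine h2.symm.trans ?_
      refine Finset.sum_congr rfl fun i _ => ?_
      rw [map_smul, hy]
      rfl
    have hu : ∀ u v : Fin m → L, u ⬝ᵥ N.mulVec v = 0 := by
      have hv1 : ∀ u v : Fin m → L, ∃ c : Fin ρ → L,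
          u ⬝ᵥ N.mulVec v = ∑ i, c i * (u ⬝ᵥ N.mulVec (y i)) := by
        intro u v
        obtain ⟨c, hc⟩ := hdec v
        refine ⟨c, ?_⟩
        have h1 := hkS _ hc
        rw [Matrix.mulVec_sub, sub_eq_zero] at h1
        rw [h1]
        have h2 : N.mulVec (∑ i, c i • y i) = ∑ i, c i • N.mulVec (y i) := by
          rw [← Matrix.mulVecLin_apply, map_sum]
          refine Finset.sum_congr rfl fun i _ => ?_
          rw [map_smul]
          rfl
        rw [h2, dotProduct_sum]
        exact Finset.sum_congr rfl fun i _ => by rw [dotProduct_smul, smul_eq_mul]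
      intro u v
      obtain ⟨c, hc⟩ := hv1 u v
      rw [hc]
      refine Finset.sum_eq_zero fun i _ => ?_
      obtain ⟨c', hc'⟩ := hv1 (y i) u
      rw [hanti2, hc', Finset.sum_eq_zero (fun j _ => by rw [hyy, mul_zero]), neg_zero, mul_zero]
    ext a b
    have h1 := hu (Pi.single a 1) (Pi.single b 1)
    rw [Matrix.mulVec_single_one, single_one_dotProduct] at h1
    exact h1
  -- the kernel of the multiplication
  let Q : Matrix (Fin m) (Fin m) L →ₗ[L] Matrix (Fin m) (Fin m) L := LinearMap.mulRight L S
  have hQ : ∀ B, Q B = B * S := fun _ => rfl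
  have hkQ : finrank L (LinearMap.ker Q) + m * ρ ≤ m * m := by
    let R : LinearMap.ker Q →ₗ[L] (Fin m → LinearMap.ker S.vecMulLinear) :=
      { toFun := fun B i => ⟨B.1.row i, by
          rw [LinearMap.mem_ker]
          have h1 : B.1 * S = 0 := B.2
          funext j
          exact congrFun (congrFun h1 i) j⟩
        map_add' := fun B B' => rfl
        map_smul' := fun c B => rfl }
    have hR : Function.Injective R := by
      intro B B' h
      apply Subtype.ext
      ext i j
      have h1 := congrFun h i
      have h2 := congrArg Subtype.val h1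
      exact congrFun h2 j
    have h1 := LinearMap.finrank_le_finrank_of_injective hR
    rw [finrank_pi_fintype] at h1
    simp only [Finset.sum_const, Finset.card_univ, Fintype.card_fin, smul_eq_mul] at h1
    have h2 := LinearMap.finrank_range_add_finrank_ker S.vecMulLinear
    rw [finrank_fintype_fun_eq_card, Fintype.card_fin] at h2
    calc finrank L (LinearMap.ker Q) + m * ρ
        ≤ m * finrank L (LinearMap.ker S.vecMulLinear) + m * ρ := Nat.add_le_add_right h1 _
      _ = m * m := by rw [← mul_add, add_comm (finrank L _) ρ, hρ, h2]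
  -- the dimension of `K`
  have hKd : finrank L K ≤ finrank L (LinearMap.ker Q) +
      Fintype.card {p : Fin ρ × Fin ρ // p.1 < p.2} := by
    have h1 := LinearMap.finrank_range_add_finrank_ker (Ψ.domRestrict K)
    have h2 : finrank L (LinearMap.range (Ψ.domRestrict K)) ≤
        Fintype.card {p : Fin ρ × Fin ρ // p.1 < p.2} := by
      refine (Submodule.finrank_le _).trans ?_
      rw [finrank_fintype_fun_eq_card]
    have h3 : finrank L (LinearMap.ker (Ψ.domRestrict K)) ≤ finrank L (LinearMap.ker Q) := by
      let E : LinearMap.ker (Ψ.domRestrict K) →ₗ[L] LinearMap.ker Q :=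
        { toFun := fun B => ⟨B.1.1, by
            rw [LinearMap.mem_ker, hQ]
            exact hker B.1.1 B.1.2 B.2⟩
          map_add' := fun B B' => rfl
          map_smul' := fun c B => rfl }
      refine LinearMap.finrank_le_finrank_of_injective (f := E) ?_
      intro B B' h
      apply Subtype.ext
      apply Subtype.ext
      have h4 := congrArg Subtype.val h
      exact h4
    omega
  have hcard : 2 * Fintype.card {p : Fin ρ × Fin ρ // p.1 < p.2} ≤ ρ * (ρ - 1) := card_pairs ρ
  have hrk := LinearMap.finrank_range_add_finrank_ker (glm q)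
  have hmm : finrank L (Matrix (Fin m) (Fin m) L) = m * m := by
    rw [finrank_matrix, Fintype.card_fin, finrank_self, mul_one]
  rw [hmm] at hrk
  nlinarith
end

end Pool.Agent.Lib.MP_44a246_ntSH
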