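import Mathlib
import Pool.Agent.Lib.MP_44a246_ntO.O07a
import Pool.Agent.Lib.MP_44a246_ntSH.H00

/-!
# The image of a symmetric tensor: the two descriptions
-/

namespace Pool.Agent.Lib.MP_44a246_ntSH

open Pool.Agent.Lib.MP_44a246_ntF
open Pool.Agent.Lib.MP_44a246_ntO
open Pool.Agent.Lib.MP_e52354_nt
open Module

variable {L : Type*} [Field L] {n : ℕ}

/-- the variable `X_j` as an exponent -/
noncomputable def sg (j : Fin n) : EX n 1 :=
  ⟨Finsupp.single j 1, by rw [mem_expo, Finsupp.degree_single]⟩

theorem sg_surjective : Function.Surjective (sg (n := n)) := by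
  intro φ
  obtain ⟨j, ψ, hj⟩ := exists_up (d := 0) φ
  refine ⟨j, Subtype.ext ?_⟩
  rw [hj]
  show Finsupp.single j 1 = ψ.1 + Finsupp.single j 1
  rw [exo_zero, zero_add]

theorem sg_injective : Function.Injective (sg (n := n)) := by
  intro i j h
  have h1 : (Finsupp.single i 1 : Fin n →₀ ℕ) = Finsupp.single j 1 := congrArg Subtype.val h
  exact (Finsupp.single_left_inj one_ne_zero).1 h1

/-- the variables are the exponents of degree `1` -/
noncomputable def sgE : Fin n ≃ EX n 1 := Equiv.ofBijective sg ⟨sg_injective, sg_surjective⟩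

theorem cf_monomial_sg (φ : EX n 1) (q : EX n (1 + 1) → L) (j : Fin n) :
    cf (MvPolynomial.monomial φ.1 1) 1 q (sg j) = cm φ q j := by
  rw [cf_apply, MvPolynomial.monomial_mul, mul_one, pr_monomial, one_mul, cm_apply]
  have h1 : (sg j).1 + φ.1 = (up j φ).1 := by
    show Finsupp.single j 1 + φ.1 = φ.1 + Finsupp.single j 1
    rw [add_comm]
  rw [h1, ex_coe]

theorem spn_single (q : EX n (1 + 1) → L) :
    spn (L ∙ q) = Submodule.span L (Set.range fun φ : EX n 1 => cm φ q) := by
  unfold spn
  apply le_antisymm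
  · refine iSup_le fun φ => ?_
    rw [Submodule.map_span, Set.image_singleton, Submodule.span_singleton_le_iff_mem]
    exact Submodule.subset_span ⟨φ, rfl⟩
  · rw [Submodule.span_le]
    rintro _ ⟨φ, rfl⟩
    exact Submodule.mem_iSup_of_mem φ ⟨q, Submodule.mem_span_singleton_self q, rfl⟩

theorem lam_single (q : EX n (1 + 1) → L) :
    lam 1 (L ∙ q) = Submodule.span L (Set.range fun φ : EX n 1 =>
      cf (MvPolynomial.monomial φ.1 1) 1 q) := by
  unfold lam
  apply le_antisymm
  · refine iSup_le fun φ => ?_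
    rw [Submodule.map_span, Set.image_singleton, Submodule.span_singleton_le_iff_mem]
    exact Submodule.subset_span ⟨φ, rfl⟩
  · rw [Submodule.span_le]
    rintro _ ⟨φ, rfl⟩
    exact Submodule.mem_iSup_of_mem (p := fun φ : EX n (1 + 1 - 1) =>
      (L ∙ q).map (cf (MvPolynomial.monomial φ.1 1) 1)) φ ⟨q, Submodule.mem_span_singleton_self q, rfl⟩

/-- **The two descriptions of the image of a symmetric tensor.** -/
theorem finrank_lam_one (q : EX n (1 + 1) → L) :
    finrank L (lam 1 (L ∙ q)) = finrank L (spn (L ∙ q)) := by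
  have h1 : spn (L ∙ q) = (lam 1 (L ∙ q)).map
      ((LinearEquiv.funCongrLeft L L (sgE (n := n)) : (EX n 1 → L) ≃ₗ[L] (Fin n → L)) :
        (EX n 1 → L) →ₗ[L] (Fin n → L)) := by
    rw [lam_single, spn_single, Submodule.map_span, ← Set.range_comp]
    congr 1
    congr 1
    funext φ
    funext j
    exact (cf_monomial_sg φ q j).symm
  rw [h1]
  exact (LinearEquiv.finrank_map_eq _ _).symm

end Pool.Agent.Lib.MP_44a246_ntSH
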