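import Mathlib
import Pool.Agent.Lib.MP_44a246_ntK.K02
import Pool.Agent.Lib.MP_44a246_ntSH.B10
import Pool.Agent.Lib.MP_44a246_ntSH.RV4
import Pool.Agent.Lib.MP_44a246_ntSH.RV5
import Pool.Agent.Lib.MP_44a246_ntSH.RW6
import Pool.Agent.Lib.MP_44a246_ntSH.RW6b

/-!
# The rows for several blocks (paper 619, section 3, phases 2 and 3)
-/

namespace Pool.Agent.Lib.MP_44a246_ntSH

open Pool.Agent.Lib.MP_44a246_nt
open Pool.Agent.Lib.MP_44a246_ntL
open Pool.Agent.Lib.MP_44a246_ntS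
open Pool.Agent.Lib.MP_44a246_ntF
open Pool.Agent.Lib.MP_44a246_ntO
open Pool.Agent.Lib.MP_44a246_ntA
open Pool.Agent.Lib.MP_44a246_ntK (piece mem_piece ht_piece)
open Pool.Agent.Lib.MP_44a246_ntR (genus)
open Pool.Agent.Lib.MP_e52354_nt
open WithZero Module

/-- the vector `x ^ (d j)` in the block `j` -/
noncomputable def xmj {L : Type*} [Field L] {n p : ℕ} (d : Fin p → ℕ) (x : Fin (n + 1) → L)
    (j : Fin p) : (Σ j : Fin p, EX (n + 1) (d j)) → L :=
  open Classical in fun s => if s.1 = j then mon x s.2.1 else 0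

theorem xm_mem_piece (κ : Type*) {L : Type*} [Field κ] [Field L] [Algebra κ L] {n p : ℕ}
    {d : Fin p → ℕ} {x : Fin (n + 1) → L}
    {U : Submodule L ((Σ j : Fin p, EX (n + 1) (d j)) → L)} {j : Fin p} (hU : xmj d x j ∈ U) :
    xm (d j) x ∈ piece κ U j := by
  have h1 := mem_piece (κ := κ) (j := j) hU fun s hs => by
    unfold xmj
    rw [if_neg hs]
  have h2 : (fun i : EX (n + 1) (d j) => xmj d x j ⟨j, i⟩) = xm (d j) x := by
    funext i
    unfold xmj xm
    rw [if_pos rfl]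
  rw [h2] at h1
  exact h1

/-- **Rows for `p` blocks.** Proof: as `rows_of_data` (RW7); the spaces are the graded pieces of
`X.W Λ Λ'` for the filtration by the blocks (K02). -/
theorem rowsP_of_data {κ L : Type*} [Field κ] [IsAlgClosed κ] [CharZero κ] [Field L] [CharZero L]
    [Algebra κ L] (h : IsFF κ L) {n c p : ℕ} {d : Fin p → ℕ}
    (X : RowU κ (L := L) n c (Σ j : Fin p, EX (n + 1) (d j)))
    (hxm : ∀ j, xmj d X.x j ∈ X.U) {E₀ : ℝ} (hht : (ht κ X.U : ℝ) ≤ (n + 1) * height κ X.x + E₀) :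
    RowsP κ X.x d c
      (E₀ + Fintype.card (Σ j : Fin p, EX (n + 1) (d j)) * (X.Δ + genus κ L + 1)) := by
  intro Λ Λ' t t' ht0 hlt hΛ hle hΛ'
  have hUW : X.U ≤ X.W Λ Λ' := le_sup_left
  have h0 : finrank L X.U ≤ finrank L (X.W Λ Λ') := Submodule.finrank_mono hUW
  have hΔ : 0 ≤ X.Δ := X.Δ_nonneg
  obtain ⟨ν, hν⟩ := Nat.exists_eq_add_of_le h0
  have h1 := X.hU
  have h3 := X.ht_W_le h hΛ hle hΛ'
  obtain ⟨hp1, hp2⟩ := ht_piece h (X.W Λ Λ')
  have hνc : ν ≤ Fintype.card (Σ j : Fin p, EX (n + 1) (d j)) := by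
    have h4 := Submodule.finrank_le (X.W Λ Λ')
    rw [Module.finrank_fintype_fun_eq_card] at h4
    omega
  refine ⟨ν, piece κ (X.W Λ Λ'), fun j => xm_mem_piece κ (hUW (hxm j)), by omega, ?_, ?_⟩
  · have e1 : (finrank L (X.W Λ Λ') : ℝ) - finrank L X.U = ν := by
      rw [hν]; push_cast; ring
    rw [e1] at h3
    have h5 : (ν : ℝ) * (X.Δ + genus κ L + 1) ≤
        Fintype.card (Σ j : Fin p, EX (n + 1) (d j)) * (X.Δ + genus κ L + 1) := by
      refine mul_le_mul_of_nonneg_right (by exact_mod_cast hνc) ?_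
      have h6 : (0 : ℝ) ≤ genus κ L := Nat.cast_nonneg _
      have h7 : (0 : ℝ) ≤ X.Δ := by exact_mod_cast hΔ
      linarith
    have h6 : ∑ j, ((d j : ℝ) * (height κ X.x : ℝ) - (ht κ (piece κ (X.W Λ Λ') j) : ℝ)) =
        (∑ j, (d j : ℝ)) * height κ X.x - ∑ j, (ht κ (piece κ (X.W Λ Λ') j) : ℝ) := by
      rw [Finset.sum_sub_distrib, Finset.sum_mul]
    have h7 : (∑ j, (ht κ (piece κ (X.W Λ Λ') j) : ℝ)) ≤ ht κ (X.W Λ Λ') := by
      exact_mod_cast hp1
    rw [h6]
    linarith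
  · intro q hq
    have h4 := X.finrank_glm_le (Λ := Λ) (Λ' := Λ') hq
    have h5 := two_rank_le q
    have h6 : finrank L (LinearMap.range (glm q)) ≤ ν + finrank L Λ' + n + c := by
      have key : ∀ a b w f : ℕ, w = b + ν → b ≤ n + c → a ≤ w + f → a ≤ ν + f + n + c := by
        intro a b w f h1 h2 h3
        omega
      exact key _ _ _ _ hν h1 h4
    rw [finrank_lam_one q]
    have h7 : 2 * ((n : ℝ) + 1) * finrank L (spn (L ∙ q)) ≤
        2 * finrank L (LinearMap.range (glm q)) +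
          (finrank L (spn (L ∙ q)) : ℝ) * ((finrank L (spn (L ∙ q)) : ℝ) - 1) := by
      rcases Nat.eq_zero_or_pos (finrank L (spn (L ∙ q))) with h8 | h8
      · rw [h8]
        push_cast
        have : (0 : ℝ) ≤ finrank L (LinearMap.range (glm q)) := Nat.cast_nonneg _
        linarith
      · have h9 : ((finrank L (spn (L ∙ q)) - 1 : ℕ) : ℝ) = (finrank L (spn (L ∙ q)) : ℝ) - 1 := by
          rw [Nat.cast_sub h8, Nat.cast_one]
        rw [← h9]
        exact_mod_cast h5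
    have h6R : (finrank L (LinearMap.range (glm q)) : ℝ) ≤ ν + finrank L Λ' + n + c := by
      exact_mod_cast h6
    linarith

end Pool.Agent.Lib.MP_44a246_ntSH
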