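import Mathlib
import Pool.Agent.Lib.MP_44a246_ntF.F01

/-!
# The forms `X_l ∂_i H` of a generic form `H` are linearly independent (paper 619, section 3)
-/

namespace Pool.Agent.Lib.MP_44a246_ntSH

open Pool.Agent.Lib.MP_44a246_ntF
open Pool.Agent.Lib.MP_e52354_nt
open Module

section

variable {M : Type*} [Field M] {n : ℕ}

/-- the coefficient of `X^J` in `X_l ∂_i H`, `H = ∑ a_I X^I` -/
noncomputable def mm (a : (Fin (n + 1) →₀ ℕ) → M) (i l : Fin (n + 1))
    (J : Fin (n + 1) →₀ ℕ) : M :=
  if J l = 0 then 0 else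
    (((J - Finsupp.single l 1 + Finsupp.single i 1 : Fin (n + 1) →₀ ℕ) i : ℕ) : M) *
      a (J - Finsupp.single l 1 + Finsupp.single i 1)

private theorem swap_mem {d : ℕ} {J : Fin (n + 1) →₀ ℕ} {l : Fin (n + 1)}
    (hJ : J ∈ expo (Fin (n + 1)) d) (hl : J l ≠ 0) (i : Fin (n + 1)) :
    J - Finsupp.single l 1 + Finsupp.single i 1 ∈ expo (Fin (n + 1)) d := by
  rw [mem_expo] at hJ ⊢
  have h1 := congrArg Finsupp.degree (sub_add_single hl)
  rw [map_add, Finsupp.degree_single] at h1
  rw [map_add, Finsupp.degree_single, h1, hJ]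

/-- Proof. In `grad d a x i = ∑ I, a I * (I i) * mon x (I - e_i)` only the `I` with `I i ≠ 0`
contribute; `I ↦ J = I - e_i + e_l` is a bijection from them to the `J` with `J l ≠ 0`, with the
inverse `J ↦ J - e_l + e_i`; `x l * mon x (I - e_i) = mon x (I - e_i + e_l)` (`mon_add`,
`mon_single`). -/
theorem sum_mm_mon (d : ℕ) (a : (Fin (n + 1) →₀ ℕ) → M) (i l : Fin (n + 1))
    (x : Fin (n + 1) → M) :
    ∑ J : EX (n + 1) d, mm a i l J.1 * mon x J.1 = x l * grad d a x i := by
  have e1 : ∑ J : EX (n + 1) d, mm a i l J.1 * mon x J.1 =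
      ∑ J ∈ expo (Fin (n + 1)) d, mm a i l J * mon x J :=
    Finset.sum_coe_sort (expo (Fin (n + 1)) d) fun J => mm a i l J * mon x J
  rw [e1]
  unfold grad
  rw [Finset.mul_sum]
  have e2 : ∑ J ∈ expo (Fin (n + 1)) d, mm a i l J * mon x J =
      ∑ J ∈ (expo (Fin (n + 1)) d).filter (fun J => J l ≠ 0), mm a i l J * mon x J := by
    symm
    apply Finset.sum_filter_of_ne
    intro J _ hJ h0
    apply hJ
    unfold mm
    rw [if_pos h0, zero_mul]
  have e3 : ∑ I ∈ expo (Fin (n + 1)) d, x l * (a I * (I i : M) * mon x (I - Finsupp.single i 1)) =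
      ∑ I ∈ (expo (Fin (n + 1)) d).filter (fun I => I i ≠ 0),
        x l * (a I * (I i : M) * mon x (I - Finsupp.single i 1)) := by
    symm
    apply Finset.sum_filter_of_ne
    intro I _ hI h0
    apply hI
    rw [h0]
    simp
  rw [e2, e3]
  refine Finset.sum_nbij' (fun J => J - Finsupp.single l 1 + Finsupp.single i 1)
    (fun I => I - Finsupp.single i 1 + Finsupp.single l 1) ?_ ?_ ?_ ?_ ?_
  · intro J hJ
    rw [Finset.mem_filter] at hJ ⊢
    exact ⟨swap_mem hJ.1 hJ.2 i, by simp⟩
  · intro I hI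
    rw [Finset.mem_filter] at hI ⊢
    exact ⟨swap_mem hI.1 hI.2 l, by simp⟩
  · intro J hJ
    rw [Finset.mem_filter] at hJ
    rw [add_tsub_cancel_right, sub_add_single hJ.2]
  · intro I hI
    rw [Finset.mem_filter] at hI
    rw [add_tsub_cancel_right, sub_add_single hI.2]
  · intro J hJ
    rw [Finset.mem_filter] at hJ
    unfold mm
    rw [if_neg hJ.2, add_tsub_cancel_right]
    conv_lhs => rw [← sub_add_single hJ.2, mon_add, mon_single, pow_one]
    rw [sub_add_single hJ.2]
    ring

/-- Euler. Proof: `mon_sub`, `∑ j, I j = d`. -/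
theorem sum_grad_mul (d : ℕ) (a : (Fin (n + 1) →₀ ℕ) → M) (x : Fin (n + 1) → M) :
    ∑ i, grad d a x i * x i = d * Fval d a x := by
  unfold grad Fval
  simp only [Finset.sum_mul]
  rw [Finset.sum_comm, Finset.mul_sum]
  refine Finset.sum_congr rfl fun I hI => ?_
  have h1 : ∀ j, a I * (I j : M) * mon x (I - Finsupp.single j 1) * x j =
      a I * ((I j : M) * mon x I) := by
    intro j
    rw [← mon_sub]
    ring
  rw [Finset.sum_congr rfl fun j _ => h1 j, ← Finset.mul_sum, ← Finset.sum_mul, ← Nat.cast_sum,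
    ← Finsupp.degree_eq_sum, mem_expo.mp hI]
  ring

end

section Det

variable {n : ℕ}

/-- the exponent `e_l + (d - 1) e_i` of the pair `(i, l)` -/
private noncomputable def Jf (d : ℕ) (q : Fin (n + 1) × Fin (n + 1)) : Fin (n + 1) →₀ ℕ :=
  Finsupp.single q.2 1 + Finsupp.single q.1 (d - 1)

private theorem Jf_mem {d : ℕ} (hd : 3 ≤ d) (q : Fin (n + 1) × Fin (n + 1)) :
    Jf d q ∈ expo (Fin (n + 1)) d := by
  rw [mem_expo]
  unfold Jf
  rw [map_add, Finsupp.degree_single, Finsupp.degree_single]
  omega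

/-- the entries over any ring -/
private noncomputable def mmR {R : Type*} [CommRing R] (a : (Fin (n + 1) →₀ ℕ) → R)
    (i l : Fin (n + 1)) (J : Fin (n + 1) →₀ ℕ) : R :=
  if J l = 0 then 0 else
    (((J - Finsupp.single l 1 + Finsupp.single i 1 : Fin (n + 1) →₀ ℕ) i : ℕ) : R) *
      a (J - Finsupp.single l 1 + Finsupp.single i 1)

private theorem mmR_map {R S : Type*} [CommRing R] [CommRing S] (φ : R →+* S) {d : ℕ}
    {a : (Fin (n + 1) →₀ ℕ) → R} {b : (Fin (n + 1) →₀ ℕ) → S}
    (h : ∀ I ∈ expo (Fin (n + 1)) d, φ (a I) = b I) (i l : Fin (n + 1))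
    {J : Fin (n + 1) →₀ ℕ} (hJ : J ∈ expo (Fin (n + 1)) d) :
    φ (mmR a i l J) = mmR b i l J := by
  unfold mmR
  by_cases h0 : J l = 0
  · rw [if_pos h0, if_pos h0, map_zero]
  · rw [if_neg h0, if_neg h0, map_mul, map_natCast, h _ (swap_mem hJ h0 i)]

/-- the coefficients of the Fermat form -/
private noncomputable def fer (d : ℕ) (I : Fin (n + 1) →₀ ℕ) : ℚ :=
  open Classical in if ∃ j, I = Finsupp.single j d then 1 else 0

private theorem mmR_fer {d : ℕ} (hd : 3 ≤ d) (p q : Fin (n + 1) × Fin (n + 1)) :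
    mmR (fer d) p.1 p.2 (Jf d q) = if p = q then (d : ℚ) else 0 := by
  classical
  obtain ⟨i, l⟩ := p
  obtain ⟨i', l'⟩ := q
  unfold mmR
  dsimp only
  by_cases hpq : (i, l) = (i', l')
  · rw [if_pos hpq]
    rw [Prod.mk.injEq] at hpq
    obtain ⟨rfl, rfl⟩ := hpq
    have h0 : Jf d (i, l) l ≠ 0 := by
      unfold Jf
      simp
    have h1 : Jf d (i, l) - Finsupp.single l 1 + Finsupp.single i 1 = Finsupp.single i d := by
      unfold Jf
      dsimp only
      rw [add_tsub_cancel_left, ← Finsupp.single_add]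
      congr 1
      omega
    rw [if_neg h0, h1]
    unfold fer
    rw [if_pos ⟨i, rfl⟩, Finsupp.single_eq_same, mul_one]
  · rw [if_neg hpq]
    by_cases h0 : Jf d (i', l') l = 0
    · rw [if_pos h0]
    · rw [if_neg h0]
      unfold fer
      rw [if_neg, mul_zero]
      rintro ⟨j, hj⟩
      apply hpq
      have h2 : j = i := by
        by_contra hne
        have h3 := DFunLike.congr_fun hj i
        rw [Finsupp.add_apply, Finsupp.single_eq_same, Finsupp.single_apply, if_neg hne] at h3
        omega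
      subst h2
      have h4 : Jf d (i', l') = Finsupp.single l 1 + Finsupp.single j (d - 1) := by
        have h5 : Jf d (i', l') - Finsupp.single l 1 = Finsupp.single j (d - 1) := by
          have h6 : Finsupp.single j d = Finsupp.single j (d - 1) + Finsupp.single j 1 := by
            rw [← Finsupp.single_add]
            congr 1
            omega
          rw [h6] at hj
          exact add_right_cancel hj
        rw [← h5, add_comm (Finsupp.single l 1), sub_add_single h0]
      unfold Jf at h4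
      dsimp only at h4
      have h7 : i' = j := by
        by_contra hne
        have h8 := DFunLike.congr_fun h4 i'
        rw [Finsupp.add_apply, Finsupp.add_apply, Finsupp.single_eq_same,
          Finsupp.single_apply (a := j), if_neg (Ne.symm hne)] at h8
        have h9 : (Finsupp.single l 1 : Fin (n + 1) →₀ ℕ) i' ≤ 1 := by
          rw [Finsupp.single_apply]
          split_ifs <;> omega
        omega
      subst h7
      have h10 := add_right_cancel h4
      have h11 : l = l' := by
        by_contra hne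
        have h12 := DFunLike.congr_fun h10 l'
        rw [Finsupp.single_eq_same, Finsupp.single_apply, if_neg hne] at h12
        omega
      rw [h11]

end Det

/-- **The right inverse.**

Proof. For `(i, l)` let `J (i, l) = e_l + (d - 1) e_i`, of degree `d`; these exponents are different
for different pairs because `3 ≤ d`. Consider the matrix `T` with the entries
`mm a i l (J (i', l'))`, indexed by the pairs. It is the value at `a` of the matrix `T'` over
`MvPolynomial (EX (n + 1) d) ℚ` with the entries `mm` of the indeterminates (`0` for exponents which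
are not in `EX (n + 1) d`). At the Fermat point `a⁰ (d e_j) = 1`, `a⁰ I = 0` otherwise, `T'`
specialises to `d` times the identity: `mm a⁰ i l (J (i', l')) ≠ 0` only if
`J (i', l') - e_l + e_i = d e_j` for some `j`, i.e. `J (i', l') = d e_j + e_l - e_i`, so
`j = i` (`J (i', l') i' ≥ 2`...) and `(i', l') = (i, l)`. So `det T' ≠ 0`, and
`det T = aeval a (det T') ≠ 0` by the algebraic independence
(`AlgebraicIndependent` is the injectivity of `aeval`; `RingHom.map_det`). Put
`P J i' l' = T⁻¹ (i₀, l₀) (i', l')` if `J = J (i₀, l₀)` and `0` if `J` is not of this form;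
`T * T⁻¹ = 1`. -/
theorem exists_right_inverse {K : Type*} [Field K] [CharZero K] {n d : ℕ} (hd : 3 ≤ d)
    {a : (Fin (n + 1) →₀ ℕ) → K}
    (ha : AlgebraicIndependent ℚ (fun I : EX (n + 1) d => a I.1)) :
    ∃ P : EX (n + 1) d → Matrix (Fin (n + 1)) (Fin (n + 1)) K, ∀ i l i' l',
      ∑ J, mm a i l J.1 * P J i' l' = if i = i' ∧ l = l' then 1 else 0 := by
  classical
  -- the generic matrix
  set av : (Fin (n + 1) →₀ ℕ) → MvPolynomial (EX (n + 1) d) ℚ :=
    fun I => if h : I ∈ expo (Fin (n + 1)) d then MvPolynomial.X ⟨I, h⟩ else 0 with hav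
  set T' : Matrix (Fin (n + 1) × Fin (n + 1)) (Fin (n + 1) × Fin (n + 1))
    (MvPolynomial (EX (n + 1) d) ℚ) := Matrix.of fun p q => mmR av p.1 p.2 (Jf d q) with hT'
  set T : Matrix (Fin (n + 1) × Fin (n + 1)) (Fin (n + 1) × Fin (n + 1)) K :=
    Matrix.of fun p q => mm a p.1 p.2 (Jf d q) with hT
  have h1 : T'.det ≠ 0 := by
    intro h0
    set φ : MvPolynomial (EX (n + 1) d) ℚ →+* ℚ :=
      (MvPolynomial.eval fun I : EX (n + 1) d => fer d I.1) with hφ
    have h2 : φ.mapMatrix T' = Matrix.diagonal fun _ => (d : ℚ) := by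
      ext p q
      rw [RingHom.mapMatrix_apply, Matrix.map_apply, hT', Matrix.of_apply,
        mmR_map φ (b := fer d) _ _ _ (Jf_mem hd q), mmR_fer hd, Matrix.diagonal_apply]
      intro I hI
      rw [hav]
      dsimp only
      rw [dif_pos hI, hφ, MvPolynomial.eval_X]
    have h3 := congrArg φ h0
    rw [RingHom.map_det, h2, Matrix.det_diagonal, map_zero, Finset.prod_const] at h3
    have h4 : (d : ℚ) ≠ 0 := by
      have : d ≠ 0 := by omega
      exact_mod_cast this
    exact pow_ne_zero _ h4 h3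
  have h5 : T.det ≠ 0 := by
    intro h0
    apply h1
    have h6 : (MvPolynomial.aeval fun I : EX (n + 1) d => a I.1 :
        MvPolynomial (EX (n + 1) d) ℚ →ₐ[ℚ] K) T'.det = 0 := by
      rw [← h0, ← AlgHom.coe_toRingHom, RingHom.map_det]
      congr 1
      ext p q
      rw [RingHom.mapMatrix_apply, Matrix.map_apply, hT', Matrix.of_apply,
        mmR_map _ (b := a) _ _ _ (Jf_mem hd q), hT, Matrix.of_apply]
      · rfl
      · intro I hI
        rw [hav]
        dsimp only
        rw [dif_pos hI, AlgHom.coe_toRingHom, MvPolynomial.aeval_X]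
    exact (injective_iff_map_eq_zero _).1 ha _ h6
  refine ⟨fun J => Matrix.of fun i' l' => ∑ q, if J.1 = Jf d q then T⁻¹ q (i', l') else 0,
    fun i l i' l' => ?_⟩
  have h7 : T * T⁻¹ = 1 := Matrix.mul_nonsing_inv _ (isUnit_iff_ne_zero.2 h5)
  have h8 := congrFun (congrFun h7 (i, l)) (i', l')
  rw [Matrix.mul_apply, Matrix.one_apply] at h8
  have h9 : ((i, l) = (i', l')) ↔ (i = i' ∧ l = l') := Prod.mk.injEq _ _ _ _ ▸ Iff.rfl
  rw [if_congr h9 rfl rfl] at h8
  rw [← h8]
  simp only [Matrix.of_apply, Finset.mul_sum]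
  rw [Finset.sum_comm]
  refine Finset.sum_congr rfl fun q _ => ?_
  rw [Finset.sum_eq_single ⟨Jf d q, Jf_mem hd q⟩]
  · rw [if_pos rfl, hT, Matrix.of_apply]
  · intro J _ hJ
    rw [if_neg, mul_zero]
    intro h
    exact hJ (Subtype.ext h)
  · intro h
    exact absurd (Finset.mem_univ _) h

end Pool.Agent.Lib.MP_44a246_ntSH
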