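import Mathlib
import Pool.Agent.Lib.MP_44a246_ntSH.RW0
import Pool.Agent.Lib.MP_44a246_ntSH.RW8

/-!
# The action of the matrices on several forms (paper 619, section 3, phases 2 and 3)
-/

namespace Pool.Agent.Lib.MP_44a246_ntSH

open Pool.Agent.Lib.MP_44a246_nt
open Pool.Agent.Lib.MP_44a246_ntF
open Pool.Agent.Lib.MP_44a246_ntO
open Pool.Agent.Lib.MP_e52354_nt
open WithZero Module

section

variable {L : Type*} [Field L] {n p : ℕ} {d : Fin p → ℕ}

/-- the forms `grad H_j (X) · B X` -/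
noncomputable def MJ (d : Fin p → ℕ) (a : Fin p → (Fin (n + 1) →₀ ℕ) → L) :
    Matrix (Fin (n + 1)) (Fin (n + 1)) L →ₗ[L] ((Σ j : Fin p, EX (n + 1) (d j)) → L) where
  toFun B s := ∑ i, ∑ l, B i l * mm (a s.1) i l s.2.1
  map_add' B B' := by
    funext s
    simp only [Matrix.add_apply, Pi.add_apply, add_mul, Finset.sum_add_distrib]
  map_smul' c B := by
    funext s
    simp only [Matrix.smul_apply, Pi.smul_apply, smul_eq_mul, RingHom.id_apply, Finset.mul_sum,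
      mul_assoc]

theorem MJ_apply (a : Fin p → (Fin (n + 1) →₀ ℕ) → L)
    (B : Matrix (Fin (n + 1)) (Fin (n + 1)) L) (s : Σ j : Fin p, EX (n + 1) (d j)) :
    MJ d a B s = ∑ i, ∑ l, B i l * mm (a s.1) i l s.2.1 := rfl

/-- matrices in one block -/
noncomputable def PJ {m : Type*} (d : Fin p → ℕ) (j₀ : Fin p) (P : EX (n + 1) (d j₀) → Matrix m m L)
    (s : Σ j : Fin p, EX (n + 1) (d j)) : Matrix m m L :=
  open Classical in if h : s.1 = j₀ then P (cast (by rw [h]) s.2) else 0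

theorem PJ_self {m : Type*} (j₀ : Fin p) (P : EX (n + 1) (d j₀) → Matrix m m L)
    (J : EX (n + 1) (d j₀)) : PJ d j₀ P ⟨j₀, J⟩ = P J := by
  unfold PJ
  rw [dif_pos rfl]
  rfl

theorem PJ_ne {m : Type*} {j₀ : Fin p} (P : EX (n + 1) (d j₀) → Matrix m m L)
    {s : Σ j : Fin p, EX (n + 1) (d j)} (hs : s.1 ≠ j₀) : PJ d j₀ P s = 0 := by
  unfold PJ
  rw [dif_neg hs]

/-- the sum over the block -/
theorem sum_PJ {m E : Type*} [AddCommMonoid E] [Module L E] {j₀ : Fin p}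
    (P : EX (n + 1) (d j₀) → Matrix m m L) (f : (Σ j : Fin p, EX (n + 1) (d j)) → Matrix m m L → E)
    (hf : ∀ s, f s 0 = 0) :
    ∑ s, f s (PJ d j₀ P s) = ∑ J : EX (n + 1) (d j₀), f ⟨j₀, J⟩ (P J) := by
  rw [Fintype.sum_sigma, Finset.sum_eq_single j₀]
  · exact Finset.sum_congr rfl fun J _ => by rw [PJ_self]
  · intro j _ hj
    exact Finset.sum_eq_zero fun J _ => by rw [PJ_ne P (s := ⟨j, J⟩) hj, hf]
  · intro h
    exact absurd (Finset.mem_univ _) h

theorem MJ_right (a : Fin p → (Fin (n + 1) →₀ ℕ) → L) {j₀ : Fin p}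
    {P : EX (n + 1) (d j₀) → Matrix (Fin (n + 1)) (Fin (n + 1)) L}
    (hP : ∀ i l i' l', ∑ J, mm (a j₀) i l J.1 * P J i' l' = if i = i' ∧ l = l' then 1 else 0)
    (B : Matrix (Fin (n + 1)) (Fin (n + 1)) L) :
    ∑ s, MJ d a B s • PJ d j₀ P s = B := by
  rw [sum_PJ (L := L) P (fun s Q => MJ d a B s • Q) fun s => smul_zero _]
  ext i' l'
  rw [Matrix.sum_apply]
  simp only [Matrix.smul_apply, smul_eq_mul, MJ_apply, Finset.sum_mul]
  rw [Finset.sum_comm]
  have h1 : ∀ i : Fin (n + 1), ∑ I : EX (n + 1) (d j₀), ∑ l, B i l * mm (a j₀) i l I.1 * P I i' l' =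
      ∑ l, B i l * (if i = i' ∧ l = l' then 1 else 0) := by
    intro i
    rw [Finset.sum_comm]
    refine Finset.sum_congr rfl fun l _ => ?_
    rw [← hP i l i' l', Finset.mul_sum]
    exact Finset.sum_congr rfl fun I _ => by ring
  rw [Finset.sum_congr rfl fun i _ => h1 i, Finset.sum_eq_single i', Finset.sum_eq_single l']
  · simp
  · intro l _ hl
    rw [if_neg fun h => hl h.2, mul_zero]
  · intro h
    exact absurd (Finset.mem_univ _) h
  · intro i _ hi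
    refine Finset.sum_eq_zero fun l _ => ?_
    rw [if_neg fun h => hi h.1, mul_zero]
  · intro h
    exact absurd (Finset.mem_univ _) h

theorem MJ_mon (a : Fin p → (Fin (n + 1) →₀ ℕ) → L)
    (B : Matrix (Fin (n + 1)) (Fin (n + 1)) L) (x : Fin (n + 1) → L) (j : Fin p) :
    ∑ J : EX (n + 1) (d j), MJ d a B ⟨j, J⟩ * mon x J.1 =
      ∑ i, grad (d j) (a j) x i * B.mulVec x i := by
  simp only [MJ_apply, Finset.sum_mul]
  rw [Finset.sum_comm]
  refine Finset.sum_congr rfl fun i _ => ?_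
  rw [Finset.sum_comm]
  unfold Matrix.mulVec dotProduct
  rw [Finset.mul_sum]
  refine Finset.sum_congr rfl fun l _ => ?_
  have h1 := sum_mm_mon (d j) (a j) i l x
  have h2 : ∑ J : EX (n + 1) (d j), B i l * mm (a j) i l J.1 * mon x J.1 =
      B i l * ∑ J : EX (n + 1) (d j), mm (a j) i l J.1 * mon x J.1 := by
    rw [Finset.mul_sum]
    exact Finset.sum_congr rfl fun J _ => by ring
  rw [h2, h1]
  ring

theorem val_nat_le (v : Valuation L ℤᵐ⁰) (m : ℕ) : v (m : L) ≤ 1 := by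
  induction m with
  | zero => simp
  | succ m ih =>
    rw [Nat.cast_succ]
    refine (v.map_add _ _).trans (max_le ih ?_)
    rw [map_one]

private theorem val_mm_le {e : ℕ} (v : Valuation L ℤᵐ⁰) {a : (Fin (n + 1) →₀ ℕ) → L} {c : ℤᵐ⁰}
    (ha : ∀ I ∈ expo (Fin (n + 1)) e, v (a I) ≤ c) (i l : Fin (n + 1)) {J : Fin (n + 1) →₀ ℕ}
    (hJ : J ∈ expo (Fin (n + 1)) e) : v (mm a i l J) ≤ c := by
  unfold mm
  split_ifs with h
  · rw [map_zero]
    exact zero_le
  · rw [map_mul]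
    have h1 : J - Finsupp.single l 1 + Finsupp.single i 1 ∈ expo (Fin (n + 1)) e :=
      shift_mem hJ h i
    calc _ ≤ 1 * c := mul_le_mul' (val_nat_le v _) (ha _ h1)
      _ = c := one_mul c

theorem val_MJ_le (v : Valuation L ℤᵐ⁰) {a : Fin p → (Fin (n + 1) →₀ ℕ) → L} {c c' : ℤᵐ⁰}
    (ha : ∀ j, ∀ I ∈ expo (Fin (n + 1)) (d j), v (a j I) ≤ c)
    {B : Matrix (Fin (n + 1)) (Fin (n + 1)) L} (hB : ∀ i l, v (B i l) ≤ c')
    (s : Σ j : Fin p, EX (n + 1) (d j)) : v (MJ d a B s) ≤ c' * c := by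
  rw [MJ_apply]
  refine Valuation.map_sum_le v fun i _ => Valuation.map_sum_le v fun l _ => ?_
  rw [map_mul]
  exact mul_le_mul' (hB i l) (val_mm_le v (ha s.1) i l s.2.2)

theorem val_PJ_le {m : Type*} (v : Valuation L ℤᵐ⁰) {j₀ : Fin p}
    {P : EX (n + 1) (d j₀) → Matrix m m L} {c : ℤᵐ⁰} (hP : ∀ J i l, v (P J i l) ≤ c)
    (s : Σ j : Fin p, EX (n + 1) (d j)) (i l : m) : v (PJ d j₀ P s i l) ≤ c := by
  by_cases h : s.1 = j₀
  · obtain ⟨j, J⟩ := s
    have h' : j = j₀ := h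
    subst h'
    rw [PJ_self]
    exact hP J i l
  · rw [PJ_ne P h, Matrix.zero_apply, map_zero]
    exact zero_le

end

end Pool.Agent.Lib.MP_44a246_ntSH
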