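import Mathlib
import Pool.Agent.Lib.MP_44a246_ntK.K10

/-!
The data over the base field, with derivations which preserve the field of constants.
-/

namespace Pool.Agent.Lib.MP_44a246_ntSH

open Pool.Agent.Lib.MP_44a246_nt
open Pool.Agent.Lib.MP_44a246_ntL
open Pool.Agent.Lib.MP_44a246_ntV
open Pool.Agent.Lib.MP_44a246_ntT
open Pool.Agent.Lib.MP_44a246_ntS
open Pool.Agent.Lib.MP_44a246_ntX
open Pool.Agent.Lib.MP_44a246_ntG
open Pool.Agent.Lib.MP_44a246_ntK
open Pool.Agent.Lib.MP_e52354_nt
open WithZero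

universe u v w

section

variable {k₀ : Type*} {κ : Type u} {K : Type v} [Field k₀] [CharZero k₀] [Field κ]
  [IsAlgClosed κ] [CharZero κ] [Field K]
  [Algebra k₀ κ] [Algebra κ K] [Algebra k₀ K] [IsScalarTower k₀ κ K]

/-- uniform bounds for the poles of the derivations dual to a transcendence basis -/
theorem exists_basis_bound' {t : K} (ht : Transcendental κ t)
    (hfin : FiniteDimensional (IntermediateField.adjoin κ {t}) K) (C : Finset K) :
    ∃ (β : Type u) (_ : DecidableEq β) (z : β → K) (E : β → Derivation k₀ K K)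
      (B : Place κ K → ℕ),
      (Function.support B).Finite ∧
      (∀ b, z b = t ∨ ∃ u : κ, z b = algebraMap κ K u) ∧
      Algebra.IsAlgebraic (IntermediateField.adjoin k₀ (Set.range z)) K ∧
      (∀ b b', E b (z b') = if b = b' then 1 else 0) ∧
      (∀ b, PoleBound κ (derZ (E b)) B) ∧
      (∀ b, ∀ y ∈ C, ∀ v : Place κ K, v.1 (E b y) ≤ exp (B v : ℤ)) ∧
      (∀ b, ∀ u : κ, ∃ u' : κ, E b (algebraMap κ K u) = algebraMap κ K u') := by
  classical
  have hff : IsFF κ K := ⟨t, ht, hfin⟩
  have hcK : CharZero K := charZero_of_injective_algebraMap (algebraMap κ K).injective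
  refine with_instances' ht ?_
  intro iX t3 iK t1 iR t2 hfin' hX
  have hc0 : CharZero (RatFunc κ) := charZero_RatFunc κ K
  have halg : Algebra.IsAlgebraic (IntermediateField.adjoin κ {t}) K :=
    Algebra.IsAlgebraic.of_finite _ _
  obtain ⟨ι, z, E, hzt, hzc, hzalg, hE, hEκ⟩ := exists_basis_ders' (k₀ := k₀) ht halg
  have hE' : ∀ b b', E b (z b') = if b = b' then 1 else 0 := by
    intro b b'
    rw [hE]
  obtain ⟨⟨δf, hδf0, hf1, hf2⟩, ⟨δi, hδi0, hi1, hi2⟩⟩ := family_delta (κ := κ)
    (b₀ := Sum.inl ()) (by rw [hzt, hX]) hzalg hE' hEκ C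
  have hf0 : algebraMap (Polynomial κ) K δf ≠ 0 := by
    rw [IsScalarTower.algebraMap_apply (Polynomial κ) (RatFunc κ) K]
    refine (_root_.map_ne_zero _).mpr ?_
    rwa [ne_eq, FaithfulSMul.algebraMap_eq_zero_iff]
  have hi0 : algebraMap (Rinf κ) K δi ≠ 0 := by
    rw [IsScalarTower.algebraMap_apply (Rinf κ) (RatFunc κ) K]
    refine (_root_.map_ne_zero _).mpr ?_
    rwa [ne_eq, FaithfulSMul.algebraMap_eq_zero_iff]
  let Bδ : Place κ K → ℕ := fun v =>
    if v.1 (algebraMap (Polynomial κ) K Polynomial.X) ≤ 1 then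
      (- log (v.1 (algebraMap (Polynomial κ) K δf))).toNat else
      (- log (v.1 (algebraMap (Rinf κ) K δi))).toNat
  have hBδ : (Function.support Bδ).Finite := by
    refine ((hff.place_finite hf0).union (hff.place_finite hi0)).subset fun v hv => ?_
    by_contra hcon
    rw [Set.mem_union, not_or] at hcon
    obtain ⟨h1, h2⟩ := hcon
    simp only [Set.mem_ofPred_eq, not_not] at h1 h2
    apply hv
    simp only [Bδ, h1, h2, log_one, neg_zero, Int.toNat_zero, ite_self]
  refine ⟨Unit ⊕ ι, inferInstance, z, E, Bδ, hBδ, hzc, hzalg, ?_, ?_, ?_, hEκ⟩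
  · intro b b'
    rw [hE]
  · intro b v y hy
    simp only [Bδ]
    split_ifs with hXv
    · exact lpol_div v.1 hf0 (der_bound (K₀ := RatFunc κ) v.1 (place_poly v hXv) (derZ (E b)) δf
        (hf1 b) hy)
    · exact lpol_div v.1 hi0 (der_bound (K₀ := RatFunc κ) v.1 (place_rinf v hXv) (derZ (E b)) δi
        (hi1 b) hy)
  · intro b y hy v
    simp only [Bδ]
    split_ifs with hXv
    · exact lpol_div v.1 hf0 (integral_le_one v.1 (place_poly v hXv) (hf2 b y hy))
    · exact lpol_div v.1 hi0 (integral_le_one v.1 (place_rinf v hXv) (hi2 b y hy))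

end

/-- **Existence of the data over the base field**, with derivations which kill a subfield `k` of
finite transcendence degree. -/
theorem exists_baseS' {κ : Type u} {K : Type v} [Field κ] [IsAlgClosed κ] [CharZero κ] [Field K]
    [CharZero K] [Algebra κ K] (hK : IsFF κ K) (htr : Cardinal.aleph0 ≤ Algebra.trdeg ℚ κ)
    {k : Type*} [Field k] [CharZero k] [Algebra k K]
    (hk : Algebra.trdeg ℚ k < Cardinal.aleph0) {σ : Type*} [DecidableEq σ] {S : Finset σ}
    {a : σ → K} (ha : AlgebraicIndependent k (fun I : ↥S => a I.1)) :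
    ∃ X : BaseS κ K S, X.a = a ∧ (∀ I ∈ S, ∀ c : k, X.D I (algebraMap k K c) = 0) ∧
      ∀ b (u : κ), ∃ u' : κ, X.E b (algebraMap κ K u) = algebraMap κ K u' := by
  classical
  obtain ⟨t, ht, hfin⟩ := hK
  have hsct : IsScalarTower ℚ κ K := inferInstance
  have hsct' : IsScalarTower ℚ k K := inferInstance
  -- a finite transcendence basis of `k`
  obtain ⟨ι, c, hc⟩ := exists_isTranscendenceBasis' ℚ k
  have hι : Finite ι := by
    rw [← Cardinal.lt_aleph0_iff_finite]
    have h1 := hc.lift_cardinalMk_eq_trdeg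
    rw [Cardinal.lift_id, Cardinal.lift_id] at h1
    rw [h1]
    exact hk
  have : Fintype ι := Fintype.ofFinite ι
  have hind : AlgebraicIndependent ℚ
      (Sum.elim (fun I : ↥S => a I.1) (algebraMap k K ∘ c)) :=
    hc.1.sumElim_comp ha
  obtain ⟨T, iT, z1, E1, DK, B₁, A, hB₁, hA, hPD, hPE1, hPa, hPz, hD, hDz, hEa, hEz1, hcomm,
    hcommE, hgen⟩ := exists_setupV (k₀ := ℚ) ht hfin hind
  obtain ⟨β, iβ, z, F, B₂, hB₂, hzc, hzalg, hF, hPF, -, hFκ⟩ :=
    exists_basis_bound' (k₀ := ℚ) ht hfin (∅ : Finset K)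
  have hzinj : Function.Injective z := by
    intro b b' hbb
    have h1 := hF b b
    rw [hbb, hF, if_pos rfl] at h1
    by_contra hne
    rw [if_neg hne] at h1
    exact zero_ne_one h1
  let β' : Type u := {b : β // ∃ u : κ, z b = algebraMap κ K u}
  choose zz hzz using fun b : β' => b.2
  let B : Place κ K → ℕ := fun v => B₁ v + B₂ v
  have hB : (Function.support B).Finite := by
    refine (hB₁.union hB₂).subset fun v hv => ?_
    by_contra hcon
    rw [Set.mem_union, not_or, Function.mem_support, Function.mem_support, not_not, not_not] at hcon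
    apply hv
    show B₁ v + B₂ v = 0
    rw [hcon.1, hcon.2, add_zero]
  have hup1 : ∀ {D : Derivation ℤ K K}, PoleBound κ D B₁ → PoleBound κ D B := by
    intro D h v y hy
    refine (h v y hy).trans (exp_le_exp.mpr ?_)
    show (B₁ v : ℤ) ≤ ((B₁ v + B₂ v : ℕ) : ℤ)
    push_cast
    have : (0 : ℤ) ≤ B₂ v := Int.natCast_nonneg _
    linarith
  have hup2 : ∀ {D : Derivation ℤ K K}, PoleBound κ D B₂ → PoleBound κ D B := by
    intro D h v y hy
    refine (h v y hy).trans (exp_le_exp.mpr ?_)
    show (B₂ v : ℤ) ≤ ((B₁ v + B₂ v : ℕ) : ℤ)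
    push_cast
    have : (0 : ℤ) ≤ B₁ v := Int.natCast_nonneg _
    linarith
  have hfiny : ∀ y : K, {b : β | F b y ≠ 0}.Finite := by
    intro y
    obtain ⟨S, hS, hy⟩ := exists_finset_isAlgebraic (hzalg.isAlgebraic y)
    refine (S.finite_toSet.preimage hzinj.injOn).subset fun b hb => ?_
    rw [Set.mem_preimage]
    by_contra hn
    apply hb
    refine der_eq_zero (V := K) (F b) (S : Set K) ?_ hy
    intro s hs
    obtain ⟨b', rfl⟩ := hS hs
    rw [hF, if_neg]
    rintro rfl
    exact hn hs
  have hinf : Infinite β := infinite_basis htr hzalg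
  have hinf' : Infinite β' := by
    have hsub : {b : β | ¬ ∃ u : κ, z b = algebraMap κ K u}.Finite := by
      refine Set.Subsingleton.finite ?_
      intro b hb b' hb'
      have h1 : z b = t := (hzc b).resolve_right hb
      have h2 : z b' = t := (hzc b').resolve_right hb'
      exact hzinj (h1.trans h2.symm)
    have h3 : {b : β | ∃ u : κ, z b = algebraMap κ K u}.Infinite := by
      have := hsub.infinite_compl
      convert this using 1
      ext b
      simp
    exact h3.to_subtype
  -- the derivations `DK (inl I)` kill `k`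
  have hDk : ∀ (I : ↥S) (u : k), DK (Sum.inl I) (algebraMap k K u) = 0 := by
    intro I u
    have hu : IsAlgebraic (IntermediateField.adjoin ℚ (Set.range c)) u :=
      hc.isAlgebraic_field.isAlgebraic u
    have h1 := der_eq_zero (V := K) ((DK (Sum.inl I)).compAlgebraMap k) (Set.range c) ?_ hu
    · exact h1
    · rintro _ ⟨i, rfl⟩
      have h2 := hD (Sum.inl I) (Sum.inr i)
      rw [if_neg (by simp)] at h2
      exact h2
  refine ⟨{
    a := a
    D := fun I => if h : I ∈ S then derZ (DK (Sum.inl ⟨I, h⟩)) else 0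
    B := B
    β := β'
    z := zz
    E := fun b => derZ (F b.1)
    hDa := ?_
    hB := hB
    hD := ?_
    hE := ?_
    hEz := ?_
    hfin := ?_
    hinf := hinf' }, rfl, ?_, fun b u => hFκ b.1 u⟩
  · intro I hI J hJ
    rw [dif_pos hI]
    show DK (Sum.inl ⟨I, hI⟩) (a J) = _
    have h1 := hD (Sum.inl ⟨I, hI⟩) (Sum.inl ⟨J, hJ⟩)
    refine h1.trans (if_congr ?_ rfl rfl)
    rw [Sum.inl.injEq, Subtype.mk.injEq]
  · intro I hI
    rw [dif_pos hI]
    exact hup1 (hPD _)
  · intro b
    exact hup2 (hPF _)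
  · intro b b'
    have h1 : derZ (F b.1) (algebraMap κ K (zz b')) = if b.1 = b'.1 then 1 else 0 := by
      rw [← hzz b']
      exact hF _ _
    constructor
    · rintro rfl
      rw [h1, if_pos rfl]
    · intro hne
      rw [h1, if_neg]
      intro h
      exact hne (Subtype.ext h)
  · intro y
    exact (hfiny y).preimage Subtype.val_injective.injOn
  · intro I hI u
    show (if h : I ∈ S then derZ (DK (Sum.inl ⟨I, h⟩)) else 0) (algebraMap k K u) = 0
    rw [dif_pos hI]
    exact hDk ⟨I, hI⟩ u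

end Pool.Agent.Lib.MP_44a246_ntSH
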