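import Mathlib
import Pool.Agent.Lib.MP_44a246_ntS.SJ1b
import Pool.Agent.Lib.MP_44a246_ntS.SF3c

/-!
The Gauss norm on polynomials in finitely many variables is a valuation.
-/

namespace Pool.Agent.Lib.MP_44a246_ntSH

open Pool.Agent.Lib.MP_44a246_nt
open Pool.Agent.Lib.MP_44a246_ntL
open Pool.Agent.Lib.MP_44a246_ntS
open Pool.Agent.Lib.MP_e52354_nt
open WithZero Module

section

variable {L : Type*} [Field L] (v : Valuation L ℤᵐ⁰)

theorem nrm_le {σ : Type*} {A : MvPolynomial σ L} {r : ℤᵐ⁰} (h : ∀ I, v (A.coeff I) ≤ r) :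
    nrm v A ≤ r :=
  Finset.sup_le fun I _ => h I

/-- the Gauss valuation on polynomials in `n` variables -/
noncomputable def nV : (n : ℕ) → Valuation (MvPolynomial (Fin n) L) ℤᵐ⁰
  | 0 => v.comap (MvPolynomial.isEmptyRingEquiv L (Fin 0)).toRingHom
  | (n + 1) => (gv (nV n)).comap (MvPolynomial.finSuccEquiv L n).toRingEquiv.toRingHom

theorem nV_zero (A : MvPolynomial (Fin 0) L) :
    nV v 0 A = v (MvPolynomial.isEmptyRingEquiv L (Fin 0) A) := rfl

theorem nV_succ {n : ℕ} (A : MvPolynomial (Fin (n + 1)) L) :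
    nV v (n + 1) A = gn (nV v n) (MvPolynomial.finSuccEquiv L n A) := rfl

theorem nV_apply : ∀ {n : ℕ} (A : MvPolynomial (Fin n) L), nV v n A = nrm v A := by
  intro n
  induction n with
  | zero =>
    intro A
    obtain ⟨c, rfl⟩ := (MvPolynomial.isEmptyRingEquiv L (Fin 0)).symm.surjective A
    rw [nV_zero, RingEquiv.apply_symm_apply]
    have h1 : (MvPolynomial.isEmptyRingEquiv L (Fin 0)).symm c = MvPolynomial.C c := rfl
    rw [h1]
    refine le_antisymm ?_ (nrm_le v fun I => ?_)
    · have h2 := le_nrm v (MvPolynomial.C c : MvPolynomial (Fin 0) L) 0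
      rwa [MvPolynomial.coeff_zero_C] at h2
    · have h2 : I = 0 := Subsingleton.elim _ _
      rw [h2, MvPolynomial.coeff_zero_C]
  | succ n ih =>
    intro A
    rw [nV_succ]
    refine le_antisymm (gn_le _ fun i => ?_) (nrm_le v fun I => ?_)
    · rw [ih]
      refine nrm_le v fun I => ?_
      rw [MvPolynomial.finSuccEquiv_coeff_coeff]
      exact le_nrm v A _
    · have h1 := le_gn (nV v n) (MvPolynomial.finSuccEquiv L n A) (I 0)
      have h2 := le_nrm v ((MvPolynomial.finSuccEquiv L n A).coeff (I 0)) I.tail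
      rw [MvPolynomial.finSuccEquiv_coeff_coeff, Finsupp.cons_tail] at h2
      rw [ih] at h1
      exact h2.trans h1

/-- **Gauss's lemma** for polynomials in finitely many variables -/
theorem nrm_mul {n : ℕ} (A B : MvPolynomial (Fin n) L) :
    nrm v (A * B) = nrm v A * nrm v B := by
  rw [← nV_apply, ← nV_apply, ← nV_apply, map_mul]

theorem nrm_add_le {n : ℕ} (A B : MvPolynomial (Fin n) L) :
    nrm v (A + B) ≤ max (nrm v A) (nrm v B) := by
  rw [← nV_apply, ← nV_apply, ← nV_apply]
  exact (nV v n).map_add _ _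

theorem gn_finSucc {n : ℕ} (A : MvPolynomial (Fin (n + 1)) L) :
    gn (nV v n) (MvPolynomial.finSuccEquiv L n A) = nrm v A := by
  rw [← nV_succ, nV_apply]

theorem nrm_zero' {n : ℕ} : nrm v (0 : MvPolynomial (Fin n) L) = 0 := by
  rw [← nV_apply, map_zero]

end

section

variable {κ L : Type*} [Field κ] [IsAlgClosed κ] [CharZero κ] [Field L] [Algebra κ L]

/-- the height of a product -/
theorem polyHeight_mul (h : IsFF κ L) {n : ℕ} {A B : MvPolynomial (Fin n) L} (hA : A ≠ 0)
    (hB : B ≠ 0) : polyHeight κ (A * B) = polyHeight κ A + polyHeight κ B := by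
  rw [polyHeight_eq, polyHeight_eq, polyHeight_eq,
    ← finsum_add_distrib (nrm_support h hA) (nrm_support h hB)]
  refine finsum_congr fun w => ?_
  rw [nrm_mul, log_mul (nrm_ne_zero w.1 hA) (nrm_ne_zero w.1 hB)]

/-- the height of a factor -/
theorem polyHeight_le_of_dvd (h : IsFF κ L) {n : ℕ} {A B : MvPolynomial (Fin n) L} (hB : B ≠ 0)
    (hAB : A ∣ B) : polyHeight κ A ≤ polyHeight κ B := by
  obtain ⟨C, rfl⟩ := hAB
  have h1 := left_ne_zero_of_mul hB
  have h2 := right_ne_zero_of_mul hB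
  rw [polyHeight_mul h h1 h2]
  linarith [polyHeight_nonneg h h2]

end

end Pool.Agent.Lib.MP_44a246_ntSH
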