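import Mathlib
import Pool.Agent.Lib.MP_44a246_nt.PolyMain
import Pool.Agent.Lib.MP_44a246_ntF.F07
import Pool.Agent.Lib.MP_44a246_ntL.LRoot
import Pool.Agent.Lib.MP_44a246_ntSH.H03
import Pool.Agent.Lib.MP_44a246_ntSH.P1

/-!
Paper 619, (A5): a form of minimal degree of small height through the projection of the point to the
space gives a subspace of small height through the point.
-/

namespace Pool.Agent.Lib.MP_44a246_ntSH

open Pool.Agent.Lib.MP_44a246_nt
open Pool.Agent.Lib.MP_44a246_ntL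
open Pool.Agent.Lib.MP_44a246_ntS
open Pool.Agent.Lib.MP_44a246_ntX
open Pool.Agent.Lib.MP_44a246_ntF
open Pool.Agent.Lib.MP_e52354_nt
open WithZero Module

section

variable {L : Type*} [Field L] {m : ℕ}

theorem nrm_pderiv_le (v : Valuation L ℤᵐ⁰) (j : Fin m) (B : MvPolynomial (Fin m) L) :
    nrm v (MvPolynomial.pderiv j B) ≤ nrm v B := by
  refine nrm_le v fun I => ?_
  rw [MvPolynomial.coeff_pderiv, map_mul]
  have h1 : v ((I j : L) + 1) ≤ 1 := by
    have := natCast_mem v.integer (I j + 1)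
    rwa [Nat.cast_succ] at this
  calc v (B.coeff (I + Finsupp.single j 1)) * v ((I j : L) + 1) ≤ nrm v B * 1 :=
        mul_le_mul' (le_nrm v B _) h1
    _ = nrm v B := mul_one _

theorem eq_zero_of_pderiv [CharZero L] {j : Fin m} {B : MvPolynomial (Fin m) L}
    (h : MvPolynomial.pderiv j B = 0) {K : Fin m →₀ ℕ} (hK : B.coeff K ≠ 0) : K j = 0 := by
  by_contra h0
  have h1 := congrArg (MvPolynomial.coeff (K - Finsupp.single j 1)) h
  rw [MvPolynomial.coeff_pderiv, sub_add_single h0, MvPolynomial.coeff_zero] at h1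
  rcases mul_eq_zero.1 h1 with h2 | h2
  · exact hK h2
  · exact absurd h2 (Nat.cast_add_one_ne_zero _)

theorem support_subset_expo {b : ℕ} {B : MvPolynomial (Fin m) L} (hB : B.IsHomogeneous b) :
    B.support ⊆ expo (Fin m) b := by
  intro I hI
  rw [mem_expo]
  have h1 := hB (MvPolynomial.mem_support_iff.1 hI)
  rw [← h1, Finsupp.degree_eq_weight_one]
  rfl

theorem eval_eq_Fval' {b : ℕ} {B : MvPolynomial (Fin m) L} (hB : B.IsHomogeneous b)
    (p : Fin m → L) : MvPolynomial.eval p B = Fval b (fun I => B.coeff I) p := by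
  unfold Fval
  rw [MvPolynomial.eval_eq']
  refine Finset.sum_subset (support_subset_expo hB) fun I _ hI => ?_
  rw [MvPolynomial.notMem_support_iff.1 hI, zero_mul]

theorem grad_eq_pderiv {b : ℕ} {B : MvPolynomial (Fin m) L} (hB : B.IsHomogeneous b)
    (p : Fin m → L) (j : Fin m) :
    grad b (fun I => B.coeff I) p j = MvPolynomial.eval p (MvPolynomial.pderiv j B) := by
  unfold grad
  conv_rhs => rw [B.as_sum, map_sum, map_sum]
  symm
  refine Finset.sum_subset_zero_on_sdiff (support_subset_expo hB) ?_ ?_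
  · intro I hI
    rw [Finset.mem_sdiff, MvPolynomial.notMem_support_iff] at hI
    beta_reduce
    rw [hI.2, zero_mul, zero_mul]
  · intro I _
    rw [MvPolynomial.pderiv_monomial, MvPolynomial.eval_monomial]
    congr 1
    unfold mon
    exact Finsupp.prod_fintype _ _ fun i => pow_zero _

end

section

variable {κ L : Type*} [Field κ] [Field L] [Algebra κ L]

/-- the derivative of an element of bounded size -/
theorem der_le {D : Derivation ℤ L L} {δ : Place κ L → ℕ} (hD : PoleBound κ D δ) (w : Place κ L)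
    {y : L} {c : ℤᵐ⁰} (hc : 1 ≤ c) (hy : w.1 y ≤ c) : w.1 (D y) ≤ c ^ 2 * exp (δ w : ℤ) := by
  by_cases h : w.1 y ≤ 1
  · refine (hD w y h).trans ?_
    calc (exp (δ w : ℤ) : ℤᵐ⁰) = 1 * exp (δ w : ℤ) := (one_mul _).symm
      _ ≤ c ^ 2 * exp (δ w : ℤ) := mul_le_mul_left (one_le_pow₀ hc) _
  · have h' : 1 < w.1 y := not_le.1 h
    have h2 : w.1 (y⁻¹) ≤ 1 := by
      rw [map_inv₀]
      exact inv_le_one_of_one_le₀ h'.le
    have h3 : D y = -(y ^ 2 * D (y⁻¹)) := by
      have h4 := Derivation.leibniz_inv D (y⁻¹)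
      rw [inv_inv] at h4
      rw [h4, smul_eq_mul]
      ring
    rw [h3, Valuation.map_neg, map_mul, map_pow]
    exact mul_le_mul' (pow_le_pow_left' hy 2) (hD w _ h2)

end

section

variable {κ L : Type*} [Field κ] [IsAlgClosed κ] [CharZero κ] [Field L] [Algebra κ L]

/-- scaling a form -/
theorem polyHeight_smul (h : IsFF κ L) {m : ℕ} {B : MvPolynomial (Fin m) L} (hB : B ≠ 0) {c : L}
    (hc : c ≠ 0) : polyHeight κ (MvPolynomial.C c * B) = polyHeight κ B := by
  rw [polyHeight_mul h (by rwa [Ne, MvPolynomial.C_eq_zero]) hB]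
  have h1 : polyHeight κ (MvPolynomial.C c : MvPolynomial (Fin m) L) = 0 := by
    rw [polyHeight_eq, ← h.product_formula hc]
    refine finsum_congr fun w => ?_
    congr 1
    refine le_antisymm (nrm_le _ fun I => ?_) ?_
    · classical
      rw [MvPolynomial.coeff_C]
      split_ifs
      · exact le_rfl
      · rw [map_zero]; exact zero_le
    · have := le_nrm w.1 (MvPolynomial.C c : MvPolynomial (Fin m) L) 0
      rwa [MvPolynomial.coeff_zero_C] at this
  rw [h1, zero_add]

/-- The height of the span of the vectors of the derivatives of finitely many elements. -/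
theorem ht_der_span_le (h : IsFF κ L) {n : ℕ} {E : Fin (n + 1) → Derivation ℤ L L}
    {δ : Place κ L → ℕ} (hδ : (Function.support δ).Finite) (hE : ∀ j, PoleBound κ (E j) δ)
    {m b : ℕ} {B : MvPolynomial (Fin m) L} (hB0 : B ≠ 0) {K₀ : Fin m →₀ ℕ}
    (hK₀ : B.coeff K₀ = 1) :
    ht κ (Submodule.span L (Set.range fun (K : EX m b) (i : Fin (n + 1)) => E i (B.coeff K.1))) ≤
      finrank L (Submodule.span L
        (Set.range fun (K : EX m b) (i : Fin (n + 1)) => E i (B.coeff K.1))) *
        (2 * polyHeight κ B + ∑ᶠ w, (δ w : ℤ)) := by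
  have s1 := nrm_support h hB0
  have s2 : (Function.support fun w : Place κ L => 2 * log (nrm w.1 B)).Finite := by
    refine s1.subset fun w hw h0 => hw ?_
    change log (nrm w.1 B) = 0 at h0
    change 2 * log (nrm w.1 B) = 0
    rw [h0, mul_zero]
  have s3 : (Function.support fun w : Place κ L => (δ w : ℤ)).Finite := by
    refine hδ.subset fun w hw h0 => hw ?_
    change ((δ w : ℕ) : ℤ) = 0
    rw [h0, Nat.cast_zero]
  have s4 : (Function.support fun w : Place κ L => 2 * log (nrm w.1 B) + (δ w : ℤ)).Finite :=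
    (s2.union s3).subset (Function.support_add _ _)
  have s0 : (Function.support fun _ : Place κ L => (0 : ℤ)).Finite := by
    rw [Function.support_fun_zero]
    exact Set.finite_empty
  have key := ht_span_le h (fun (K : EX m b) (i : Fin (n + 1)) => E i (B.coeff K.1)) s0 s4
    (fun w r s _ => by
      have hn := nrm_ne_zero w.1 hB0
      have h1 : 1 ≤ nrm w.1 B := by
        have := le_nrm w.1 B K₀
        rwa [hK₀, map_one] at this
      unfold pl
      refine vmax_le w.1 fun e => ?_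
      refine (det_le_prod_row w.1 _ (fun _ => nrm w.1 B ^ 2 * exp (δ w : ℤ)) fun i j => ?_).trans ?_
      · rw [Matrix.of_apply]
        exact der_le (hE _) w h1 (le_nrm w.1 B _)
      · rw [Finset.prod_const, Finset.card_univ, Fintype.card_fin]
        refine le_of_eq ?_
        have h2 : nrm w.1 B ^ 2 * exp (δ w : ℤ) = exp (2 * log (nrm w.1 B) + (δ w : ℤ)) := by
          have h3 : (2 : ℤ) * log (nrm w.1 B) = (2 : ℕ) • log (nrm w.1 B) := by
            rw [nsmul_eq_mul, Nat.cast_ofNat]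
          rw [exp_add, h3, exp_nsmul, exp_log hn]
        rw [h2, ← exp_nsmul, zero_add, nsmul_eq_mul])
  rw [finsum_zero, zero_add, finsum_add_distrib s2 s3, ← mul_finsum, ← polyHeight_eq] at key
  exact key

end

namespace DatP

section

variable {κ L : Type*} [Field κ] [Field L] [Algebra κ L] {n : ℕ} (X : DatP κ (L := L) n)

theorem vmax_x (w : Place κ L) :
    vmax w.1 X.x = max 1 (w.1 (∑ j, (X.ξ₁ j : L) * X.x j)) := by
  have key : ∀ ξ : Fin (n + 1) → ℕ, w.1 (∑ j, (ξ j : L) * X.x j) ≤ vmax w.1 X.x := by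
    intro ξ
    refine Valuation.map_sum_le _ fun j _ => ?_
    rw [map_mul]
    calc w.1 (ξ j : L) * w.1 (X.x j) ≤ 1 * vmax w.1 X.x :=
          mul_le_mul' (natCast_mem w.1.integer _) (le_vmax w.1 X.x j)
      _ = vmax w.1 X.x := one_mul _
  refine le_antisymm (X.hmax w) (max_le ?_ (key _))
  have h1 := key X.ξ₀
  rwa [X.h0, map_one] at h1

theorem height_y₁ : height κ ![1, ∑ j, (X.ξ₁ j : L) * X.x j] = height κ X.x := by
  unfold height
  exact finsum_congr fun w => by rw [X.vmax_x, MP_44a246_ntL.vmax_pair]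

end

section

variable {κ L : Type*} [Field κ] [IsAlgClosed κ] [CharZero κ] [Field L] [CharZero L] [Algebra κ L]
  {n : ℕ} (X : DatP κ (L := L) n)

/-- a form in the variables `X 1`, `X 2` only does not vanish at the point -/
theorem height_le_of_two (h : IsFF κ L) {b : ℕ} {B : MvPolynomial (Fin 4) L}
    (hB : B.IsHomogeneous b) (hB0 : B ≠ 0) (hp : MvPolynomial.eval X.p4 B = 0)
    (h0 : ∀ K, B.coeff K ≠ 0 → K 0 = 0) (h3 : ∀ K, B.coeff K ≠ 0 → K 3 = 0) :
    height κ X.x ≤ polyHeight κ B := by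
  classical
  set y : L := ∑ j, (X.ξ₁ j : L) * X.x j with hy
  let ex : Fin (b + 1) → (Fin 4 →₀ ℕ) := fun i =>
    Finsupp.single 1 (b - i) + Finsupp.single 2 (i : ℕ)
  have hex2 : ∀ i, ex i 2 = i := fun i => by simp [ex]
  have hexi : Function.Injective ex := fun i j hij => by
    have := congrArg (fun K : Fin 4 →₀ ℕ => K 2) hij
    simp only [hex2] at this
    exact Fin.ext this
  have hsupp : B.support ⊆ Finset.univ.map ⟨ex, hexi⟩ := by
    intro K hK
    have hK' := MvPolynomial.mem_support_iff.1 hK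
    have hd := mem_expo.1 (support_subset_expo hB hK)
    rw [Finsupp.degree_eq_sum, Fin.sum_univ_four, h0 K hK', h3 K hK'] at hd
    rw [Finset.mem_map]
    refine ⟨⟨K 2, by omega⟩, Finset.mem_univ _, ?_⟩
    ext i
    fin_cases i
    · simp [ex, h0 K hK']
    · simp [ex]; omega
    · simp [ex]
    · simp [ex, h3 K hK']
  let c : Fin (b + 1) → L := fun i => B.coeff (ex i)
  have hc : c ≠ 0 := by
    obtain ⟨K, hK⟩ := MvPolynomial.ne_zero_iff.1 hB0
    obtain ⟨i, -, hi⟩ := Finset.mem_map.1 (hsupp (MvPolynomial.mem_support_iff.2 hK))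
    intro h1
    apply hK
    rw [← hi]
    exact congrFun h1 i
  have hz : ∑ i, c i * y ^ (i : ℕ) = 0 := by
    rw [← hp, MvPolynomial.eval_eq']
    have h1 : ∑ K ∈ B.support, B.coeff K * ∏ i, X.p4 i ^ K i =
        ∑ K ∈ Finset.univ.map ⟨ex, hexi⟩, B.coeff K * ∏ i, X.p4 i ^ K i := by
      refine Finset.sum_subset hsupp fun K _ hK => ?_
      rw [MvPolynomial.notMem_support_iff.1 hK, zero_mul]
    rw [h1, Finset.sum_map]
    refine Finset.sum_congr rfl fun i _ => ?_
    simp only [Function.Embedding.coeFn_mk, Fin.prod_univ_four]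
    have e1 : X.p4 1 = 1 := rfl
    have e2 : X.p4 2 = y := rfl
    rw [e1, e2, hex2]
    simp [ex, c]
  rw [← X.height_y₁, ← hy]
  refine (root_height h hc hz).trans ?_
  rw [polyHeight_eq]
  unfold height
  refine finsum_mono (h.vmax_support hc) (nrm_support h hB0) fun w => ?_
  have h1 : vmax w.1 c ≤ nrm w.1 B := vmax_le w.1 fun i => le_nrm w.1 B _
  exact (log_le_log (by
    obtain ⟨i, hi⟩ := Function.ne_iff.1 hc
    intro h2
    have h3 := le_vmax w.1 c i
    rw [h2, le_zero_iff, w.1.zero_iff] at h3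
    exact hi h3) (nrm_ne_zero w.1 hB0)).2 h1

/-- the basic step: one of the two families of derivations -/
theorem a5_aux (h : IsFF κ L) {b : ℕ} {B : MvPolynomial (Fin 4) L} (hB : B.IsHomogeneous b)
    (hB0 : B ≠ 0) {K₀ : Fin 4 →₀ ℕ} (hK₀ : B.coeff K₀ = 1)
    (hp : MvPolynomial.eval X.p4 B = 0) {E : Fin (n + 1) → Derivation ℤ L L}
    (hE : ∀ j, PoleBound κ (E j) X.δ) {l : Fin 4}
    (hl : MvPolynomial.eval X.p4 (MvPolynomial.pderiv l B) ≠ 0)
    (hEl : ∀ i j, E i (X.p4 j) = if j = l then X.x i else 0) :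
    ∃ Q : Submodule L (Fin (n + 1) → L), X.x ∈ Q ∧ finrank L Q ≤ Fintype.card (EX 4 b) ∧
      ht κ Q ≤ Fintype.card (EX 4 b) * (2 * polyHeight κ B + X.Δ) := by
  refine ⟨Submodule.span L (Set.range fun (K : EX 4 b) (i : Fin (n + 1)) => E i (B.coeff K.1)),
    ?_, finrank_range_le_card _, ?_⟩
  · set g := MvPolynomial.eval X.p4 (MvPolynomial.pderiv l B) with hg
    have h1 : X.x = ∑ K : EX 4 b, (-(g⁻¹ * mon X.p4 K.1)) •
        (fun i : Fin (n + 1) => E i (B.coeff K.1)) := by
      funext i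
      have h2 := D_Fval b (fun I => B.coeff I) (E i) X.p4
      rw [← eval_eq_Fval' hB, hp, map_zero, Finset.sum_eq_single l (fun j _ hj => by
        rw [hEl, if_neg hj, mul_zero]) (fun h3 => absurd (Finset.mem_univ _) h3), hEl, if_pos rfl,
        grad_eq_pderiv hB, ← hg] at h2
      have h3 : X.x i = -(g⁻¹ * ∑ I ∈ expo (Fin 4) b, E i (B.coeff I) * mon X.p4 I) := by
        field_simp
        linear_combination -h2
      rw [h3, Finset.sum_apply, Finset.mul_sum, ← Finset.sum_neg_distrib]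
      refine (Finset.sum_coe_sort (expo (Fin 4) b)
        (fun I => -(g⁻¹ * (E i (B.coeff I) * mon X.p4 I)))).symm.trans ?_
      refine Finset.sum_congr rfl fun K _ => ?_
      rw [Pi.smul_apply, smul_eq_mul]
      ring
    rw [h1]
    exact Submodule.sum_mem _ fun K _ => Submodule.smul_mem _ _ (Submodule.subset_span ⟨K, rfl⟩)
  · refine (ht_der_span_le h X.hδ hE hB0 hK₀).trans ?_
    have h1 := polyHeight_nonneg h hB0
    have h2 : (0 : ℤ) ≤ ∑ᶠ w, (X.δ w : ℤ) := finsum_nonneg fun w => Int.natCast_nonneg _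
    have h3 : (finrank L (Submodule.span L
        (Set.range fun (K : EX 4 b) (i : Fin (n + 1)) => E i (B.coeff K.1))) : ℤ) ≤
        Fintype.card (EX 4 b) := by exact_mod_cast finrank_range_le_card _
    exact mul_le_mul_of_nonneg_right h3 (by linarith)

/-- **(A5).** A form `B` of degree `b` in four variables which vanishes at the projection of the
point and has smaller height than the point, such that no form of smaller degree and of at most the
same height vanishes there. -/
theorem a5 (h : IsFF κ L) {b : ℕ} {B : MvPolynomial (Fin 4) L} (hB : B.IsHomogeneous b)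
    (hB0 : B ≠ 0) (hp : MvPolynomial.eval X.p4 B = 0)
    (hmin : ∀ c < b, ∀ C : MvPolynomial (Fin 4) L, C.IsHomogeneous c → C ≠ 0 →
      polyHeight κ C ≤ polyHeight κ B → MvPolynomial.eval X.p4 C ≠ 0)
    (hlt : polyHeight κ B < height κ X.x) :
    ∃ Q : Submodule L (Fin (n + 1) → L), X.x ∈ Q ∧ finrank L Q ≤ Fintype.card (EX 4 b) ∧
      ht κ Q ≤ Fintype.card (EX 4 b) * (2 * polyHeight κ B + X.Δ) := by
  -- normalise
  obtain ⟨K₀, hK₀⟩ := MvPolynomial.ne_zero_iff.1 hB0
  set c := B.coeff K₀ with hc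
  have hci : c⁻¹ ≠ 0 := inv_ne_zero hK₀
  set B₁ := MvPolynomial.C c⁻¹ * B with hB₁
  have hB₁h : B₁.IsHomogeneous b := by
    have := (MvPolynomial.isHomogeneous_C (Fin 4) c⁻¹).mul hB
    rwa [zero_add] at this
  have hB₁0 : B₁ ≠ 0 := mul_ne_zero (by rwa [Ne, MvPolynomial.C_eq_zero]) hB0
  have hB₁K : B₁.coeff K₀ = 1 := by
    rw [hB₁, MvPolynomial.coeff_C_mul, ← hc, inv_mul_cancel₀ hK₀]
  have hB₁p : MvPolynomial.eval X.p4 B₁ = 0 := by rw [hB₁, map_mul, hp, mul_zero]
  have hB₁α : polyHeight κ B₁ = polyHeight κ B := polyHeight_smul h hB0 hci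
  -- the derivatives
  have key : ∀ l : Fin 4, MvPolynomial.pderiv l B₁ ≠ 0 →
      MvPolynomial.eval X.p4 (MvPolynomial.pderiv l B₁) ≠ 0 := by
    intro l hl
    have hb : b ≠ 0 := by
      rintro rfl
      apply hl
      have h1 := MvPolynomial.totalDegree_eq_zero_iff_eq_C.1 (Nat.le_zero.1 hB₁h.totalDegree_le)
      rw [h1, MvPolynomial.pderiv_C]
    refine hmin (b - 1) (by omega) _ hB₁h.pderiv hl ?_
    rw [← hB₁α, polyHeight_eq, polyHeight_eq]
    refine finsum_mono (nrm_support h hl) (nrm_support h hB₁0) fun w => ?_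
    exact (log_le_log (nrm_ne_zero w.1 hl) (nrm_ne_zero w.1 hB₁0)).2 (nrm_pderiv_le w.1 l B₁)
  have e0 : X.p4 0 = ∑ j, algebraMap κ L (X.z' j) * X.x j := rfl
  have e1 : X.p4 1 = 1 := rfl
  have e2 : X.p4 2 = ∑ j, (X.ξ₁ j : L) * X.x j := rfl
  have e3 : X.p4 3 = ∑ j, algebraMap κ L (X.z j) * X.x j := rfl
  have d0 : ∀ (D : Derivation ℤ L L) (c : Fin (n + 1) → L), (∀ j, D (X.x j) = 0) →
      D (∑ j, c j * X.x j) = ∑ j, D (c j) * X.x j := by
    intro D c hD
    rw [map_sum]
    refine Finset.sum_congr rfl fun j _ => ?_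
    rw [Derivation.leibniz, hD, smul_zero, zero_add, smul_eq_mul, mul_comm]
  have hnat : ∀ (D : Derivation ℤ L L) (ξ : Fin (n + 1) → ℕ), (∀ j, D (X.x j) = 0) →
      D (∑ j, (ξ j : L) * X.x j) = 0 := by
    intro D ξ hD
    rw [d0 D _ hD]
    exact Finset.sum_eq_zero fun j _ => by rw [Derivation.map_natCast, zero_mul]
  have hsingle : ∀ (D : Derivation ℤ L L) (z : Fin (n + 1) → κ) (i : Fin (n + 1)),
      (∀ j, D (X.x j) = 0) → (∀ j, D (algebraMap κ L (z j)) = if i = j then 1 else 0) →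
      D (∑ j, algebraMap κ L (z j) * X.x j) = X.x i := by
    intro D z i hD hz
    rw [d0 D _ hD, Finset.sum_eq_single i]
    · rw [hz, if_pos rfl, one_mul]
    · intro j _ hj
      rw [hz, if_neg (Ne.symm hj), zero_mul]
    · intro h1
      exact absurd (Finset.mem_univ _) h1
  have hzero : ∀ (D : Derivation ℤ L L) (z : Fin (n + 1) → κ),
      (∀ j, D (X.x j) = 0) → (∀ j, D (algebraMap κ L (z j)) = 0) →
      D (∑ j, algebraMap κ L (z j) * X.x j) = 0 := by
    intro D z hD hz
    rw [d0 D _ hD]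
    exact Finset.sum_eq_zero fun j _ => by rw [hz, zero_mul]
  by_cases h3 : MvPolynomial.pderiv 3 B₁ = 0
  · by_cases h0 : MvPolynomial.pderiv 0 B₁ = 0
    · exfalso
      have h4 := X.height_le_of_two h hB₁h hB₁0 hB₁p (fun K hK => eq_zero_of_pderiv h0 hK)
        (fun K hK => eq_zero_of_pderiv h3 hK)
      rw [hB₁α] at h4
      linarith
    · have h4 := X.a5_aux h hB₁h hB₁0 hB₁K hB₁p X.hE' (key 0 h0) (fun i j => by
        fin_cases j
        · exact (hsingle _ _ _ (X.hE'x i) (X.hE'z' i)).trans (if_pos rfl).symm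
        · exact (Derivation.map_one_eq_zero _).trans (if_neg (by decide)).symm
        · exact (hnat _ _ (X.hE'x i)).trans (if_neg (by decide)).symm
        · exact (hzero _ _ (X.hE'x i) (X.hE'z i)).trans (if_neg (by decide)).symm)
      rwa [hB₁α] at h4
  · have h4 := X.a5_aux h hB₁h hB₁0 hB₁K hB₁p X.hE (key 3 h3) (fun i j => by
      fin_cases j
      · exact (hzero _ _ (X.hEx i) (X.hEz' i)).trans (if_neg (by decide)).symm
      · exact (Derivation.map_one_eq_zero _).trans (if_neg (by decide)).symm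
      · exact (hnat _ _ (X.hEx i)).trans (if_neg (by decide)).symm
      · exact (hsingle _ _ _ (X.hEx i) (X.hEz i)).trans (if_pos rfl).symm)
    rwa [hB₁α] at h4

end

end DatP

end Pool.Agent.Lib.MP_44a246_ntSH
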