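import Mathlib
import Pool.Agent.Lib.MP_44a246_ntF.F01
import Pool.Agent.Lib.MP_44a246_ntS.SF3c

/-!
Functionals on forms of a given degree in `n` variables: pairing and contraction by forms of any
degree, annihilators, local right inverses of contractions, the height of a common divisor.
-/

namespace Pool.Agent.Lib.MP_44a246_ntSH

open Pool.Agent.Lib.MP_44a246_nt
open Pool.Agent.Lib.MP_44a246_ntL
open Pool.Agent.Lib.MP_44a246_ntF
open Pool.Agent.Lib.MP_44a246_ntS
open Pool.Agent.Lib.MP_e52354_nt
open WithZero Module MvPolynomial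

theorem digits_inj {B : ℕ} : ∀ {n : ℕ} {f g : Fin n → ℕ}, (∀ j, f j < B) → (∀ j, g j < B) →
    ∑ j, f j * B ^ (j : ℕ) = ∑ j, g j * B ^ (j : ℕ) → f = g := by
  intro n
  induction n with
  | zero =>
    intro f g _ _ _
    exact Subsingleton.elim _ _
  | succ n ih =>
    intro f g hf hg h
    have key : ∀ f : Fin (n + 1) → ℕ, ∑ j, f j * B ^ (j : ℕ) =
        f 0 + B * ∑ j : Fin n, f j.succ * B ^ (j : ℕ) := by
      intro f
      rw [Fin.sum_univ_succ, Finset.mul_sum]
      congr 1
      · simp
      · refine Finset.sum_congr rfl fun j _ => ?_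
        rw [Fin.val_succ, pow_succ]
        ring
    rw [key f, key g] at h
    have h0 : f 0 = g 0 := by
      have h1 := congrArg (· % B) h
      simp only [Nat.add_mul_mod_self_left, Nat.mod_eq_of_lt (hf 0), Nat.mod_eq_of_lt (hg 0)] at h1
      exact h1
    have hB : 0 < B := lt_of_le_of_lt (Nat.zero_le _) (hf 0)
    have h2 : (∑ j : Fin n, f j.succ * B ^ (j : ℕ)) = ∑ j : Fin n, g j.succ * B ^ (j : ℕ) := by
      rw [h0] at h
      exact Nat.eq_of_mul_eq_mul_left hB (Nat.add_left_cancel h)
    have h3 := ih (f := fun j => f j.succ) (g := fun j => g j.succ) (fun j => hf _)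
      (fun j => hg _) h2
    funext j
    refine Fin.cases h0 (fun j => congrFun h3 j) j

/-- the weight of an exponent -/
def omn {n : ℕ} (b : ℕ) (I : Fin n →₀ ℕ) : ℕ := ∑ j, I j * (b + 1) ^ (j : ℕ)

theorem omn_add {n : ℕ} (b : ℕ) (I J : Fin n →₀ ℕ) : omn b (I + J) = omn b I + omn b J := by
  simp only [omn, Finsupp.coe_add, Pi.add_apply, add_mul, Finset.sum_add_distrib]

theorem omn_inj {n b : ℕ} {I J : Fin n →₀ ℕ} (hI : I.degree ≤ b) (hJ : J.degree ≤ b)
    (h : omn b I = omn b J) : I = J := by
  have key : ∀ K : Fin n →₀ ℕ, K.degree ≤ b → ∀ j, K j < b + 1 := by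
    intro K hK j
    rw [Finsupp.degree_eq_sum] at hK
    have := Finset.single_le_sum (f := fun j => K j) (fun _ _ => Nat.zero_le _)
      (Finset.mem_univ j)
    omega
  exact DFunLike.coe_injective (digits_inj (key I hI) (key J hJ) h)

section

variable {R : Type*} [CommRing R] {n : ℕ}

/-- the pairing of a polynomial with a functional on forms of degree `s` -/
noncomputable def prn {s : ℕ} (G : MvPolynomial (Fin n) R) (u : EX n s → R) : R :=
  ∑ I : EX n s, G.coeff I.1 * u I

/-- contraction by `P`, from functionals on forms of degree `s` to functionals on forms of degree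
`s'`, as a matrix -/
noncomputable def ctn (P : MvPolynomial (Fin n) R) (s' s : ℕ) : Matrix (EX n s') (EX n s) R :=
  Matrix.of fun K M => if K.1 ≤ M.1 then P.coeff (M.1 - K.1) else 0

theorem prn_add {s : ℕ} (G G' : MvPolynomial (Fin n) R) (u : EX n s → R) :
    prn (G + G') u = prn G u + prn G' u := by
  simp only [prn, coeff_add, add_mul, Finset.sum_add_distrib]

theorem prn_smul {s : ℕ} (c : R) (G : MvPolynomial (Fin n) R) (u : EX n s → R) :
    prn (c • G) u = c * prn G u := by
  simp only [prn, coeff_smul, smul_eq_mul, Finset.mul_sum, mul_assoc]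

theorem prn_add_right {s : ℕ} (G : MvPolynomial (Fin n) R) (u u' : EX n s → R) :
    prn G (u + u') = prn G u + prn G u' := by
  simp only [prn, Pi.add_apply, mul_add, Finset.sum_add_distrib]

theorem prn_smul_right {s : ℕ} (c : R) (G : MvPolynomial (Fin n) R) (u : EX n s → R) :
    prn G (c • u) = c * prn G u := by
  simp only [prn, Pi.smul_apply, smul_eq_mul, Finset.mul_sum]
  exact Finset.sum_congr rfl fun I _ => by ring

theorem prn_monomial {s : ℕ} (I : EX n s) (u : EX n s → R) : prn (monomial I.1 (1 : R)) u = u I := by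
  classical
  unfold prn
  rw [Finset.sum_eq_single I]
  · rw [coeff_monomial, if_pos rfl, one_mul]
  · intro J _ hJ
    rw [coeff_monomial, if_neg (fun h => hJ (Subtype.ext h.symm)), zero_mul]
  · intro h
    exact absurd (Finset.mem_univ I) h

/-- a functional is determined by its values on forms of degree `s` -/
theorem eq_zero_of_prn {s : ℕ} {u : EX n s → R}
    (h : ∀ G : MvPolynomial (Fin n) R, G.IsHomogeneous s → prn G u = 0) : u = 0 := by
  funext I
  have h1 := h (monomial I.1 (1 : R)) (isHomogeneous_monomial _ (mem_expo.1 I.2))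
  rw [prn_monomial] at h1
  exact h1

/-- evaluation -/
theorem prn_xm {L : Type*} [Field L] {s : ℕ} {G : MvPolynomial (Fin n) L}
    (hG : G.IsHomogeneous s) (p : Fin n → L) :
    prn G (xm s p) = eval p G := by
  classical
  rw [eval_eq' p G]
  unfold prn xm mon
  have h1 : ∀ I ∈ G.support, I ∈ expo (Fin n) s := fun I hI =>
    mem_expo.2 (by
      have := hG (mem_support_iff.1 hI)
      simpa [Finsupp.weight_apply, Finsupp.degree_apply, Finsupp.sum] using this)
  refine (Finset.sum_coe_sort (expo (Fin n) s) (fun I => G.coeff I * ∏ j, p j ^ I j)).trans ?_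
  symm
  apply Finset.sum_subset h1
  intro I _ hI
  rw [notMem_support_iff.1 hI, zero_mul]

end

section

variable {R : Type*} [CommRing R] {n : ℕ}

/-- contraction is adjoint to multiplication -/
theorem prn_ctn {s s' t : ℕ} (hs : s' + t = s) {G P : MvPolynomial (Fin n) R}
    (hG : G.IsHomogeneous s') (hP : P.IsHomogeneous t) (u : EX n s → R) :
    prn (G * P) u = prn G ((ctn P s' s).mulVec u) := by
  have key : ∀ M : EX n s, (G * P).coeff M.1 =
      ∑ K : EX n s', G.coeff K.1 * (ctn P s' s) K M := by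
    intro M
    have h1 : ∑ K : EX n s', G.coeff K.1 * (ctn P s' s) K M =
        ∑ K ∈ expo (Fin n) s', G.coeff K * (if K ≤ M.1 then P.coeff (M.1 - K) else 0) :=
      Finset.sum_coe_sort (expo (Fin n) s')
        (fun K => G.coeff K * (if K ≤ M.1 then P.coeff (M.1 - K) else 0))
    rw [h1, coeff_mul]
    have h2 : ∑ K ∈ expo (Fin n) s', G.coeff K * (if K ≤ M.1 then P.coeff (M.1 - K) else 0) =
        ∑ K ∈ (expo (Fin n) s').filter (· ≤ M.1), G.coeff K * P.coeff (M.1 - K) := by
      rw [Finset.sum_filter]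
      refine Finset.sum_congr rfl fun K _ => ?_
      split_ifs <;> simp
    have h3 : ∑ x ∈ Finset.HasAntidiagonal.antidiagonal M.1, G.coeff x.1 * P.coeff x.2 =
        ∑ x ∈ (Finset.HasAntidiagonal.antidiagonal M.1).filter (fun x => x.1 ∈ expo (Fin n) s'),
          G.coeff x.1 * P.coeff x.2 := by
      symm
      refine Finset.sum_filter_of_ne fun x _ hx => ?_
      rw [mem_expo]
      by_contra hne
      exact hx (by rw [hG.coeff_eq_zero hne, zero_mul])
    rw [h2, h3]
    refine Finset.sum_nbij' (fun x => x.1) (fun K => (K, M.1 - K)) ?_ ?_ ?_ ?_ ?_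
    · intro x hx
      rw [Finset.mem_filter, Finset.HasAntidiagonal.mem_antidiagonal] at hx
      rw [Finset.mem_filter]
      exact ⟨hx.2, hx.1 ▸ le_self_add⟩
    · intro K hK
      rw [Finset.mem_filter] at hK
      rw [Finset.mem_filter, Finset.HasAntidiagonal.mem_antidiagonal]
      exact ⟨add_tsub_cancel_of_le hK.2, hK.1⟩
    · intro x hx
      rw [Finset.mem_filter, Finset.HasAntidiagonal.mem_antidiagonal] at hx
      refine Prod.ext rfl ?_
      simp only
      rw [← hx.1, add_tsub_cancel_left]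
    · intro K _
      rfl
    · intro x hx
      rw [Finset.mem_filter, Finset.HasAntidiagonal.mem_antidiagonal] at hx
      rw [← hx.1, add_tsub_cancel_left]
  unfold prn
  simp only [key, Matrix.mulVec, dotProduct, Finset.sum_mul, Finset.mul_sum]
  rw [Finset.sum_comm]
  refine Finset.sum_congr rfl fun K _ => Finset.sum_congr rfl fun M _ => ?_
  ring

end

section

variable {R : Type*} [CommRing R] {n : ℕ}

/-- functionals with the same values on forms are equal -/
theorem eq_of_prn {s : ℕ} {u v : EX n s → R}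
    (h : ∀ G : MvPolynomial (Fin n) R, G.IsHomogeneous s → prn G u = prn G v) : u = v := by
  have h1 : u + (-1 : R) • v = 0 := by
    refine eq_zero_of_prn fun G hG => ?_
    rw [prn_add_right, prn_smul_right, h G hG]
    ring
  have h2 : u - v = 0 := by
    rw [← h1, neg_one_smul, sub_eq_add_neg]
  exact sub_eq_zero.1 h2

/-- contraction of evaluations -/
theorem ctn_xm {L : Type*} [Field L] {s s' t : ℕ} (hs : s' + t = s) {P : MvPolynomial (Fin n) L}
    (hP : P.IsHomogeneous t) (p : Fin n → L) :
    (ctn P s' s).mulVec (xm s p) = eval p P • xm s' p := by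
  refine eq_of_prn fun G hG => ?_
  have hGP : (G * P).IsHomogeneous s := hs ▸ hG.mul hP
  rw [← prn_ctn hs hG hP, prn_xm hGP, prn_smul_right, prn_xm hG, map_mul, mul_comm]

/-- composition of contractions -/
theorem ctn_mul {s s' s'' t t' : ℕ} (hs : s' + t = s) (hs' : s'' + t' = s')
    {P P' : MvPolynomial (Fin n) R} (hP : P.IsHomogeneous t) (hP' : P'.IsHomogeneous t')
    (u : EX n s → R) :
    (ctn P' s'' s').mulVec ((ctn P s' s).mulVec u) = (ctn (P' * P) s'' s).mulVec u := by
  refine eq_of_prn fun G hG => ?_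
  have hGP : (G * P').IsHomogeneous s' := hs' ▸ hG.mul hP'
  rw [← prn_ctn hs' hG hP', ← prn_ctn hs hGP hP,
    ← prn_ctn (by omega : s'' + (t' + t) = s) hG (hP'.mul hP), mul_assoc]

theorem ctn_add (P P' : MvPolynomial (Fin n) R) (s' s : ℕ) :
    ctn (P + P') s' s = ctn P s' s + ctn P' s' s := by
  ext K M
  simp only [ctn, Matrix.of_apply, Matrix.add_apply]
  split_ifs
  · exact coeff_add _ _ _
  · simp

theorem ctn_map {S : Type*} [CommRing S] (f : R →+* S) (P : MvPolynomial (Fin n) R) (s' s : ℕ) :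
    ctn (P.map f) s' s = (ctn P s' s).map f := by
  ext K M
  simp only [ctn, Matrix.of_apply, Matrix.map_apply]
  split_ifs
  · exact coeff_map _ _ _
  · simp

end

/-- an extremal coefficient of maximal absolute value -/
theorem exists_topn {L : Type*} [Field L] {n : ℕ} (v : Valuation L ℤᵐ⁰) {A : MvPolynomial (Fin n) L}
    {a s : ℕ} (has : a ≤ s) (hA : A.IsHomogeneous a) (hA0 : A ≠ 0) :
    ∃ J : Fin n →₀ ℕ, J.degree = a ∧ v (A.coeff J) = nrm v A ∧
      ∀ I, omn s J < omn s I → v (A.coeff I) < nrm v A := by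
  -- among the exponents in the support with `v (A.coeff I) = nrm v A` (not empty:
  -- `Finset.exists_mem_eq_sup`) choose one with maximal `omn s I`
  classical
  have hne : A.support.Nonempty := by
    rw [Finset.nonempty_iff_ne_empty, Ne, MvPolynomial.support_eq_empty]
    exact hA0
  obtain ⟨I₀, hI₀, hI₀'⟩ := Finset.exists_mem_eq_sup A.support hne (fun I => v (A.coeff I))
  let F : Finset (Fin n →₀ ℕ) := A.support.filter fun I => v (A.coeff I) = nrm v A
  have hF : F.Nonempty := ⟨I₀, Finset.mem_filter.mpr ⟨hI₀, hI₀'.symm⟩⟩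
  obtain ⟨J, hJ, hJmax⟩ := F.exists_max_image (fun I => omn s I) hF
  obtain ⟨hJs, hJn⟩ := Finset.mem_filter.mp hJ
  refine ⟨J, ?_, hJn, ?_⟩
  · have h1 := hA (MvPolynomial.mem_support_iff.1 hJs)
    simpa [Finsupp.weight_apply, Finsupp.degree_apply, Finsupp.sum] using h1
  · intro I hI
    refine lt_of_le_of_ne (le_nrm v A I) fun h1 => ?_
    have hIs : I ∈ A.support := by
      rw [MvPolynomial.mem_support_iff]
      intro h0
      rw [h0, map_zero] at h1
      exact nrm_ne_zero v hA0 h1.symm
    exact absurd (hJmax I (Finset.mem_filter.mpr ⟨hIs, h1⟩)) (not_le.mpr hI)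

/-- **Right inverse of the contraction** by a form, with entries of absolute value at most
`(nrm v A)⁻¹` -/
theorem ctn_right_inverse {L : Type*} [Field L] {n : ℕ} (v : Valuation L ℤᵐ⁰)
    {A : MvPolynomial (Fin n) L} {a e s : ℕ} (hs : a + e = s) (hA : A.IsHomogeneous a)
    (hA0 : A ≠ 0) :
    ∃ S : Matrix (EX n s) (EX n e) L, (∀ y, (ctn A e s).mulVec (S.mulVec y) = y) ∧
      ∀ k m, v (S k m) ≤ (nrm v A)⁻¹ := by
  classical
  obtain ⟨J, hJdeg, hJ, hJlt⟩ := exists_topn v (s := s) (by omega : a ≤ s) hA hA0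
  have hn0 : nrm v A ≠ 0 := nrm_ne_zero v hA0
  have hc0 : A.coeff J ≠ 0 := by
    intro h0
    rw [h0, map_zero] at hJ
    exact hn0 hJ.symm
  set c : L := A.coeff J with hc
  have hvc : v c⁻¹ = (nrm v A)⁻¹ := by rw [map_inv₀, hJ]
  let addJ : EX n e → EX n s := fun K => ⟨K.1 + J, mem_expo.2 (by
    have h1 := mem_expo.1 K.2
    rw [map_add, h1, hJdeg]
    omega)⟩
  let T : Matrix (EX n e) (EX n e) L := Matrix.of fun K K' => c⁻¹ * ctn A e s K (addJ K')
  have hTdef : ∀ K K', T K K' = c⁻¹ * (if K.1 ≤ K'.1 + J then A.coeff (K'.1 + J - K.1) else 0) :=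
    fun K K' => rfl
  have hle : ∀ I, v (c⁻¹ * A.coeff I) ≤ 1 := by
    intro I
    rw [map_mul, hvc]
    calc (nrm v A)⁻¹ * v (A.coeff I) ≤ (nrm v A)⁻¹ * nrm v A := by
          gcongr
          exact le_nrm v A I
      _ = 1 := inv_mul_cancel₀ hn0
  obtain ⟨S₀, hS₀, hS₀v⟩ := exists_inv_of_tri v T (fun K => omn s K.1) (by
      intro K K' h
      apply Subtype.ext
      have h1 := mem_expo.1 K.2
      have h2 := mem_expo.1 K'.2
      exact omn_inj (b := s) (by omega) (by omega) h)
    (by
      intro K K'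
      rw [hTdef]
      split_ifs
      · exact hle _
      · simp)
    (by
      intro K
      rw [hTdef, if_pos (le_self_add), add_tsub_cancel_left, inv_mul_cancel₀ hc0, map_one])
    (by
      intro K K' h
      rw [hTdef]
      split_ifs with h1
      · have h2 : omn s (K'.1 + J - K.1) + omn s K.1 = omn s K'.1 + omn s J := by
          rw [← omn_add, ← omn_add, tsub_add_cancel_of_le h1]
        have h3 : omn s J < omn s (K'.1 + J - K.1) := by
          have : omn s K.1 < omn s K'.1 := h
          omega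
        rw [map_mul, hvc]
        have h4 := hJlt _ h3
        calc (nrm v A)⁻¹ * v (A.coeff (K'.1 + J - K.1)) < (nrm v A)⁻¹ * nrm v A := by
              apply mul_lt_mul_of_pos_left h4
              exact zero_lt_iff.mpr (inv_ne_zero hn0)
          _ = 1 := inv_mul_cancel₀ hn0
      · simp)
  let S : Matrix (EX n s) (EX n e) L := Matrix.of fun M m =>
    ∑ K', if addJ K' = M then c⁻¹ * S₀ K' m else 0
  refine ⟨S, ?_, ?_⟩
  · intro y
    rw [Matrix.mulVec_mulVec]
    have h1 : ctn A e s * S = 1 := by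
      rw [← hS₀]
      ext K m
      rw [Matrix.mul_apply, Matrix.mul_apply]
      have h2 : ∀ M, ctn A e s K M * S M m =
          ∑ K', if addJ K' = M then ctn A e s K M * (c⁻¹ * S₀ K' m) else 0 := by
        intro M
        show ctn A e s K M * (∑ K', if addJ K' = M then c⁻¹ * S₀ K' m else 0) = _
        rw [Finset.mul_sum]
        refine Finset.sum_congr rfl fun K' _ => ?_
        split_ifs
        · rfl
        · rw [mul_zero]
      rw [Finset.sum_congr rfl fun M _ => h2 M, Finset.sum_comm]
      refine Finset.sum_congr rfl fun K' _ => ?_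
      rw [Finset.sum_ite_eq, if_pos (Finset.mem_univ _)]
      show _ = c⁻¹ * ctn A e s K (addJ K') * S₀ K' m
      ring
    rw [h1, Matrix.one_mulVec]
  · intro M m
    refine Valuation.map_sum_le v fun K' _ => ?_
    split_ifs
    · rw [map_mul, hvc]
      calc (nrm v A)⁻¹ * v (S₀ K' m) ≤ (nrm v A)⁻¹ * 1 := by
            gcongr
            exact hS₀v _ _
        _ = (nrm v A)⁻¹ := mul_one _
    · simp

section

variable {L : Type*} [Field L] {n : ℕ}

/-- the forms of degree `s` which annihilate `Q` -/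
noncomputable def Annn {s : ℕ} (Q : Submodule L (EX n s → L)) :
    Submodule L (MvPolynomial (Fin n) L) where
  carrier := {G | G.IsHomogeneous s ∧ ∀ u ∈ Q, prn G u = 0}
  add_mem' := by
    rintro G H ⟨h1, h2⟩ ⟨h3, h4⟩
    refine ⟨h1.add h3, fun u hu => ?_⟩
    rw [prn_add, h2 u hu, h4 u hu, add_zero]
  zero_mem' := ⟨isHomogeneous_zero _ _ _, fun u _ => by simp [prn]⟩
  smul_mem' := by
    rintro c G ⟨h1, h2⟩
    refine ⟨?_, fun u hu => by rw [prn_smul, h2 u hu, mul_zero]⟩
    rw [smul_eq_C_mul]
    simpa using (isHomogeneous_C (Fin n) c).mul h1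

theorem mem_Annn {s : ℕ} {Q : Submodule L (EX n s → L)} {G : MvPolynomial (Fin n) L} :
    G ∈ Annn Q ↔ G.IsHomogeneous s ∧ ∀ u ∈ Q, prn G u = 0 := Iff.rfl

/-- double annihilator -/
theorem mem_of_Annn {s : ℕ} {Q : Submodule L (EX n s → L)} {u : EX n s → L}
    (h : ∀ G ∈ Annn Q, prn G u = 0) : u ∈ Q := by
  -- if `u ∉ Q` there is a linear functional on `EX n s → L` which vanishes on `Q` and not at `u`
  -- (`Submodule.exists_le_ker_of_notMem` or similar); it is `prn G` for
  -- `G = ∑ I, φ (Pi.single I 1) • monomial I 1`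
  classical
  by_contra hu
  obtain ⟨φ, hφu, hφQ⟩ := Submodule.exists_le_ker_of_notMem hu
  set G : MvPolynomial (Fin n) L :=
    ∑ I : EX n s, φ (Pi.single I 1) • monomial I.1 (1 : L) with hG
  have hpr : ∀ w : EX n s → L, prn G w = φ w := by
    intro w
    have h1 : ∀ J : EX n s, G.coeff J.1 = φ (Pi.single J 1) := by
      intro J
      rw [hG, coeff_sum, Finset.sum_eq_single J]
      · rw [coeff_smul, coeff_monomial, if_pos rfl, smul_eq_mul, mul_one]
      · intro K _ hK
        rw [coeff_smul, coeff_monomial, if_neg (fun h => hK (Subtype.ext h)), smul_zero]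
      · intro h
        exact absurd (Finset.mem_univ J) h
    unfold prn
    have h2 : w = ∑ I : EX n s, w I • (Pi.single I (1 : L) : EX n s → L) := by
      funext K
      rw [Finset.sum_apply, Finset.sum_eq_single K]
      · simp
      · intro I _ hI
        rw [Pi.smul_apply, Pi.single_eq_of_ne (Ne.symm hI), smul_zero]
      · intro h
        exact absurd (Finset.mem_univ K) h
    conv_rhs => rw [h2, map_sum]
    refine Finset.sum_congr rfl fun I _ => ?_
    rw [h1 I, map_smul, smul_eq_mul, mul_comm]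
  have hGA : G ∈ Annn Q := by
    refine ⟨?_, fun w hw => ?_⟩
    · rw [hG]
      refine IsHomogeneous.sum _ _ _ fun I _ => ?_
      rw [smul_monomial]
      exact isHomogeneous_monomial _ (mem_expo.1 I.2)
    · rw [hpr w]
      exact hφQ hw
  exact hφu (by rw [← hpr u]; exact h G hGA)

theorem Annn_ne_bot {s : ℕ} {Q : Submodule L (EX n s → L)} (h : Q ≠ ⊤) : Annn Q ≠ ⊥ := by
  -- otherwise `mem_of_Annn` gives `Q = ⊤` (`prn 0 u = 0`)
  intro h0
  refine h (eq_top_iff.mpr fun u _ => mem_of_Annn fun G hG => ?_)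
  rw [h0, Submodule.mem_bot] at hG
  rw [hG]
  simp [prn]

end

section

variable {L : Type*} [Field L] {n : ℕ}

/-- the kernel of the contraction by a common divisor of `Annn Q` is contained in `Q` -/
theorem ker_ctn_le {s a e : ℕ} (hs : e + a = s) {Q : Submodule L (EX n s → L)}
    {A : MvPolynomial (Fin n) L} (hA : A.IsHomogeneous a) (hA0 : A ≠ 0)
    (hdvd : ∀ G ∈ Annn Q, A ∣ G) {u : EX n s → L} (hu : (ctn A e s).mulVec u = 0) : u ∈ Q := by
  -- `mem_of_Annn`: `G = A * P` with `P` a form of degree `e` (or `G = 0`; `hom_of_mul`, or take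
  -- the component of degree `e`), and `prn (P * A) u = prn P (ctn A e s u) = 0` (`prn_ctn`)
  refine mem_of_Annn fun G hG => ?_
  obtain ⟨P, rfl⟩ := hdvd G hG
  by_cases h0 : A * P = 0
  · rw [h0]
    simp [prn]
  obtain ⟨a', e', hae, ha', he'⟩ := hom_of_mul hG.1 h0
  have h1 : a' = a := ha'.inj_right hA hA0
  subst h1
  have h2 : e' = e := by omega
  subst h2
  rw [mul_comm, prn_ctn hs he' hA, hu]
  simp [prn]

end

section

variable {κ L : Type*} [Field κ] [IsAlgClosed κ] [CharZero κ] [Field L] [Algebra κ L] {n : ℕ}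

/-- **Height of a common divisor.** -/
theorem height_gcdn (h : IsFF κ L) {s a e : ℕ} (hs : e + a = s) {Q : Submodule L (EX n s → L)}
    {A : MvPolynomial (Fin n) L} (hA : A.IsHomogeneous a) (hA0 : A ≠ 0)
    (hdvd : ∀ G ∈ Annn Q, A ∣ G) :
    polyHeight κ A * ((Fintype.card (EX n s) : ℤ) - finrank L Q) ≤ ht κ Q ∧
      Fintype.card (EX n s) ≤ Fintype.card (EX n e) + finrank L Q := by
  -- as `height_gcd`
  have hs' : a + e = s := by omega
  constructor
  · rw [polyHeight_eq]
    refine ht_lower h (ctn A e s) (nrm_support h hA0) ?_ ?_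
    · intro w
      obtain ⟨S, hS1, hS2⟩ := ctn_right_inverse w.1 hs' hA hA0
      refine ⟨S, hS1, fun k m => ?_⟩
      rw [exp_neg, exp_log (nrm_ne_zero w.1 hA0)]
      exact hS2 k m
    · intro y hy
      exact ker_ctn_le hs hA hA0 hdvd hy
  · classical
    obtain ⟨S, hS1, -⟩ := ctn_right_inverse (1 : Valuation L ℤᵐ⁰) hs' hA hA0
    have hsurj : LinearMap.range (ctn A e s).mulVecLin = ⊤ := by
      rw [LinearMap.range_eq_top]
      intro y
      exact ⟨S.mulVec y, hS1 y⟩
    have h1 := LinearMap.finrank_range_add_finrank_ker (ctn A e s).mulVecLin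
    rw [hsurj, finrank_top, Module.finrank_fintype_fun_eq_card,
      Module.finrank_fintype_fun_eq_card] at h1
    have h2 : LinearMap.ker (ctn A e s).mulVecLin ≤ Q := by
      intro y hy
      exact ker_ctn_le hs hA hA0 hdvd hy
    have h3 := Submodule.finrank_mono h2
    omega

end

end Pool.Agent.Lib.MP_44a246_ntSH
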