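import Mathlib
import Pool.Agent.Lib.MP_44a246_ntSH.H00
import Pool.Agent.Lib.MP_44a246_ntSH.P2

/-!
Annihilators of spaces of functionals on forms in `n` variables, contractions by forms: local right
inverses, kernels, the height of a common divisor. (The public versions of the statements of `P2`,
for `pr` and `cf` of `H00`.)
-/

namespace Pool.Agent.Lib.MP_44a246_ntSH

open Pool.Agent.Lib.MP_44a246_nt
open Pool.Agent.Lib.MP_44a246_ntL
open Pool.Agent.Lib.MP_44a246_ntF
open Pool.Agent.Lib.MP_44a246_ntS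
open Pool.Agent.Lib.MP_e52354_nt
open WithZero Module MvPolynomial

section

variable {L : Type*} [Field L] {n : ℕ}

theorem prn_eq {s : ℕ} (G : MvPolynomial (Fin n) L) (u : EX n s → L) : prn G u = pr u G := by
  classical
  rw [pr_eq_sum]
  unfold prn
  have h1 : ∑ I : EX n s, G.coeff I.1 * u I = ∑ I : EX n s, G.coeff I.1 * ex u I.1 :=
    Finset.sum_congr rfl fun I _ => by rw [ex_coe]
  rw [h1]
  refine (Finset.sum_coe_sort (expo (Fin n) s) (fun I => G.coeff I * ex u I)).trans ?_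
  have h2 : ∑ I ∈ expo (Fin n) s, G.coeff I * ex u I =
      ∑ I ∈ expo (Fin n) s ∪ G.support, G.coeff I * ex u I := by
    refine Finset.sum_subset Finset.subset_union_left fun I _ hI => ?_
    rw [ex_of_degree u (fun h => hI (mem_expo.2 h)), mul_zero]
  have h3 : ∑ I ∈ G.support, G.coeff I * ex u I =
      ∑ I ∈ expo (Fin n) s ∪ G.support, G.coeff I * ex u I := by
    refine Finset.sum_subset Finset.subset_union_right fun I _ hI => ?_
    rw [MvPolynomial.notMem_support_iff.1 hI, zero_mul]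
  rw [h2, h3]

theorem ctn_mulVec {s : ℕ} (P : MvPolynomial (Fin n) L) (i : ℕ) (u : EX n s → L) :
    (ctn P i s).mulVec u = cf P i u := by
  classical
  funext ψ
  rw [cf_eq_sum]
  unfold Matrix.mulVec dotProduct ctn
  simp only [Matrix.of_apply]
  have h1 : ∀ I : EX n s, (if ψ.1 ≤ I.1 then P.coeff (I.1 - ψ.1) else 0) * u I =
      (if ψ.1 ≤ I.1 then P.coeff (I.1 - ψ.1) else 0) * ex u I.1 := fun I => by rw [ex_coe]
  rw [Finset.sum_congr rfl fun I _ => h1 I]
  refine (Finset.sum_coe_sort (expo (Fin n) s)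
    (fun I => (if ψ.1 ≤ I then P.coeff (I - ψ.1) else 0) * ex u I)).trans ?_
  have h2 : ∑ I ∈ expo (Fin n) s, (if ψ.1 ≤ I then P.coeff (I - ψ.1) else 0) * ex u I =
      ∑ I ∈ expo (Fin n) s ∪ P.support.map ⟨fun K => ψ.1 + K, add_right_injective ψ.1⟩,
        (if ψ.1 ≤ I then P.coeff (I - ψ.1) else 0) * ex u I := by
    refine Finset.sum_subset Finset.subset_union_left fun I _ hI => ?_
    rw [ex_of_degree u (fun h => hI (mem_expo.2 h)), mul_zero]
  have h3 : ∑ I ∈ P.support.map ⟨fun K => ψ.1 + K, add_right_injective ψ.1⟩,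
        (if ψ.1 ≤ I then P.coeff (I - ψ.1) else 0) * ex u I =
      ∑ I ∈ expo (Fin n) s ∪ P.support.map ⟨fun K => ψ.1 + K, add_right_injective ψ.1⟩,
        (if ψ.1 ≤ I then P.coeff (I - ψ.1) else 0) * ex u I := by
    refine Finset.sum_subset Finset.subset_union_right fun I _ hI => ?_
    split_ifs with h4
    · have h5 : P.coeff (I - ψ.1) = 0 := by
        rw [← MvPolynomial.notMem_support_iff]
        intro h6
        refine hI (Finset.mem_map.2 ⟨I - ψ.1, h6, ?_⟩)
        exact add_tsub_cancel_of_le h4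
      rw [h5, zero_mul]
    · rw [zero_mul]
  rw [h2, ← h3, Finset.sum_map]
  refine Finset.sum_congr rfl fun K _ => ?_
  rw [Function.Embedding.coeFn_mk, if_pos (le_self_add), add_tsub_cancel_left]

/-- the forms of degree `s` which annihilate `Q` -/
noncomputable def AnnF {s : ℕ} (Q : Submodule L (EX n s → L)) :
    Submodule L (MvPolynomial (Fin n) L) where
  carrier := {G | G.IsHomogeneous s ∧ ∀ u ∈ Q, pr u G = 0}
  add_mem' := by
    rintro G H ⟨h1, h2⟩ ⟨h3, h4⟩
    exact ⟨h1.add h3, fun u hu => by rw [map_add, h2 u hu, h4 u hu, add_zero]⟩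
  zero_mem' := ⟨isHomogeneous_zero _ _ _, fun u _ => map_zero _⟩
  smul_mem' := by
    rintro c G ⟨h1, h2⟩
    refine ⟨?_, fun u hu => by rw [map_smul, h2 u hu, smul_zero]⟩
    rw [smul_eq_C_mul]
    simpa using (isHomogeneous_C (Fin n) c).mul h1

theorem mem_AnnF {s : ℕ} {Q : Submodule L (EX n s → L)} {G : MvPolynomial (Fin n) L} :
    G ∈ AnnF Q ↔ G.IsHomogeneous s ∧ ∀ u ∈ Q, pr u G = 0 := Iff.rfl

theorem AnnF_eq {s : ℕ} (Q : Submodule L (EX n s → L)) : AnnF Q = Annn Q := by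
  ext G
  rw [mem_AnnF, mem_Annn]
  refine and_congr_right fun _ => forall₂_congr fun u _ => ?_
  rw [prn_eq]

theorem AnnF_anti {s : ℕ} {Q Q' : Submodule L (EX n s → L)} (h : Q ≤ Q') : AnnF Q' ≤ AnnF Q :=
  fun _ hG => ⟨hG.1, fun u hu => hG.2 u (h hu)⟩

/-- functionals with the same values on forms are equal -/
theorem eq_of_pr {s : ℕ} {u v : EX n s → L}
    (h : ∀ G : MvPolynomial (Fin n) L, G.IsHomogeneous s → pr u G = pr v G) : u = v := by
  refine eq_of_prn fun G hG => ?_
  rw [prn_eq, prn_eq]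
  exact h G hG

/-- double annihilator -/
theorem mem_of_AnnF {s : ℕ} {Q : Submodule L (EX n s → L)} {u : EX n s → L}
    (h : ∀ G ∈ AnnF Q, pr u G = 0) : u ∈ Q := by
  refine mem_of_Annn fun G hG => ?_
  rw [prn_eq]
  exact h G (by rwa [AnnF_eq])

theorem AnnF_ne_bot {s : ℕ} {Q : Submodule L (EX n s → L)} (h : Q ≠ ⊤) : AnnF Q ≠ ⊥ := by
  rw [AnnF_eq]
  exact Annn_ne_bot h

/-- multiples of a form which annihilates the contractions -/
theorem mul_mem_AnnF {s i j : ℕ} (hs : i + j = s) {Q : Submodule L (EX n s → L)}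
    {Q' : Submodule L (EX n i → L)} {B G : MvPolynomial (Fin n) L} (hB : B ∈ AnnF Q')
    (hG : G.IsHomogeneous j) (hQ : ∀ u ∈ Q, cf G i u ∈ Q') : B * G ∈ AnnF Q := by
  subst hs
  refine ⟨hB.1.mul hG, fun u hu => ?_⟩
  rw [← pr_cf G u hB.1]
  exact hB.2 _ (hQ u hu)

/-- a contraction is zero if all the values of its multiples are zero -/
theorem cf_eq_zero_of {s i : ℕ} {u : EX n s → L} {B : MvPolynomial (Fin n) L}
    (h : ∀ G : MvPolynomial (Fin n) L, G.IsHomogeneous i → pr u (G * B) = 0) :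
    cf B i u = 0 := by
  refine eq_of_pr fun G hG => ?_
  rw [pr_cf B u hG, h G hG]
  simp [pr_eq_sum, ex]

/-- **Local right inverse of the contraction** by a form -/
theorem cf_right_inverse (v : Valuation L ℤᵐ⁰) {A : MvPolynomial (Fin n) L} {a e s : ℕ}
    (hs : a + e = s) (hA : A.IsHomogeneous a) (hA0 : A ≠ 0) :
    ∃ S : Matrix (EX n s) (EX n e) L, (∀ y, cf A e (S.mulVec y) = y) ∧
      ∀ k m, v (S k m) ≤ (nrm v A)⁻¹ := by
  obtain ⟨S, hS1, hS2⟩ := ctn_right_inverse v hs hA hA0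
  refine ⟨S, fun y => ?_, hS2⟩
  rw [← ctn_mulVec]
  exact hS1 y

theorem cf_surjective {A : MvPolynomial (Fin n) L} {a e s : ℕ}
    (hs : a + e = s) (hA : A.IsHomogeneous a) (hA0 : A ≠ 0) :
    LinearMap.range (cf (e := s) A e) = ⊤ := by
  classical
  obtain ⟨S, hS1, -⟩ := cf_right_inverse (1 : Valuation L ℤᵐ⁰) hs hA hA0
  rw [LinearMap.range_eq_top]
  exact fun y => ⟨_, hS1 y⟩

/-- the dimension of the kernel of the contraction -/
theorem finrank_ker_cf {A : MvPolynomial (Fin n) L} {a e s : ℕ}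
    (hs : a + e = s) (hA : A.IsHomogeneous a) (hA0 : A ≠ 0) :
    finrank L (LinearMap.ker (cf (e := s) A e)) + Fintype.card (EX n e) =
      Fintype.card (EX n s) := by
  have h1 := LinearMap.finrank_range_add_finrank_ker (cf (e := s) A e)
  rw [cf_surjective hs hA hA0, finrank_top, Module.finrank_fintype_fun_eq_card,
    Module.finrank_fintype_fun_eq_card] at h1
  omega

/-- the kernel of the contraction by a common divisor of `AnnF Q` is contained in `Q` -/
theorem ker_cf_le {s a e : ℕ} (hs : e + a = s) {Q : Submodule L (EX n s → L)}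
    {A : MvPolynomial (Fin n) L} (hA : A.IsHomogeneous a) (hA0 : A ≠ 0)
    (hdvd : ∀ G ∈ AnnF Q, A ∣ G) : LinearMap.ker (cf (e := s) A e) ≤ Q := by
  intro u hu
  rw [LinearMap.mem_ker, ← ctn_mulVec] at hu
  exact ker_ctn_le hs hA hA0 (by rwa [← AnnF_eq]) hu

end

section

variable {κ L : Type*} [Field κ] [IsAlgClosed κ] [CharZero κ] [Field L] [Algebra κ L] {n : ℕ}

/-- **Height of a common divisor.** -/
theorem height_gcdF (h : IsFF κ L) {s a e : ℕ} (hs : e + a = s) {Q : Submodule L (EX n s → L)}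
    {A : MvPolynomial (Fin n) L} (hA : A.IsHomogeneous a) (hA0 : A ≠ 0)
    (hdvd : ∀ G ∈ AnnF Q, A ∣ G) :
    polyHeight κ A * ((Fintype.card (EX n s) : ℤ) - finrank L Q) ≤ ht κ Q ∧
      Fintype.card (EX n s) ≤ Fintype.card (EX n e) + finrank L Q :=
  height_gcdn h hs hA hA0 (by rwa [← AnnF_eq])

end

end Pool.Agent.Lib.MP_44a246_ntSH
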