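import Mathlib
import Pool.Agent.Lib.MP_44a246_ntSH.P3

/-!
# Paper 619, (A4)-(A6): forms as rows of coefficients
-/

namespace Pool.Agent.Lib.MP_44a246_ntSH

open Pool.Agent.Lib.MP_44a246_nt
open Pool.Agent.Lib.MP_44a246_ntL
open Pool.Agent.Lib.MP_44a246_ntS
open Pool.Agent.Lib.MP_44a246_ntF
open Pool.Agent.Lib.MP_e52354_nt
open WithZero Module

section

variable {L : Type*} [Field L] {n e : ℕ}

/-- the value of a functional in terms of all the coefficients -/
theorem pr_eq_sum_EX (u : EX n e → L) (p : MvPolynomial (Fin n) L) :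
    pr u p = ∑ K : EX n e, p.coeff K.1 * u K := by
  rw [← prn_eq]
  rfl

/-- the form with the coefficients `l` -/
noncomputable def toF (l : EX n e → L) : MvPolynomial (Fin n) L :=
  ∑ K : EX n e, MvPolynomial.monomial K.1 (l K)

theorem toF_hom (l : EX n e → L) : (toF l).IsHomogeneous e :=
  MvPolynomial.IsHomogeneous.sum _ _ _ fun K _ =>
    MvPolynomial.isHomogeneous_monomial _ (mem_expo.1 K.2)

theorem coeff_toF (l : EX n e → L) (K : EX n e) : (toF l).coeff K.1 = l K := by
  classical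
  unfold toF
  rw [MvPolynomial.coeff_sum, Finset.sum_eq_single K]
  · rw [MvPolynomial.coeff_monomial, if_pos rfl]
  · intro J _ hJ
    rw [MvPolynomial.coeff_monomial, if_neg (fun h => hJ (Subtype.ext h))]
  · intro h
    exact absurd (Finset.mem_univ _) h

theorem pr_toF (u l : EX n e → L) : pr u (toF l) = ∑ K, l K * u K := by
  rw [pr_eq_sum_EX]
  exact Finset.sum_congr rfl fun K _ => by rw [coeff_toF]

theorem coeff_toF_of_ne (l : EX n e → L) {K : Fin n →₀ ℕ} (hK : K.degree ≠ e) :
    (toF l).coeff K = 0 := by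
  refine (toF_hom l).coeff_eq_zero ?_
  exact hK

theorem coeff_toF_le (v : Valuation L ℤᵐ⁰) {l : EX n e → L} {A : ℤᵐ⁰} (hl : ∀ K, v (l K) ≤ A)
    (K : Fin n →₀ ℕ) : v ((toF l).coeff K) ≤ A := by
  by_cases hK : K.degree = e
  · have h1 := coeff_toF l ⟨K, mem_expo.2 hK⟩
    rw [h1]
    exact hl _
  · rw [coeff_toF_of_ne l hK, map_zero]
    exact zero_le

theorem form_ext {f g : MvPolynomial (Fin n) L} (hf : f.IsHomogeneous e) (hg : g.IsHomogeneous e)
    (h : ∀ K : EX n e, f.coeff K.1 = g.coeff K.1) : f = g := by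
  ext K
  by_cases hK : K.degree = e
  · exact h ⟨K, mem_expo.2 hK⟩
  · rw [hf.coeff_eq_zero hK, hg.coeff_eq_zero hK]

theorem toF_coeff {f : MvPolynomial (Fin n) L} (hf : f.IsHomogeneous e) :
    toF (fun K : EX n e => f.coeff K.1) = f :=
  form_ext (toF_hom _) hf fun K => coeff_toF _ K

theorem toF_sub (l m : EX n e → L) : toF (l - m) = toF l - toF m := by
  refine form_ext (toF_hom _) ((toF_hom _).sub (toF_hom _)) fun K => ?_
  rw [MvPolynomial.coeff_sub, coeff_toF, coeff_toF, coeff_toF, Pi.sub_apply]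

/-- a form which vanishes on the functionals killed by `A` is divisible by `A` -/
theorem dvd_of_ker {c b : ℕ} (hs : c + b = e) {A f : MvPolynomial (Fin n) L}
    (hA : A.IsHomogeneous b) (hf : f.IsHomogeneous e)
    (h : ∀ u : EX n e → L, cf A c u = 0 → pr u f = 0) :
    ∃ g : MvPolynomial (Fin n) L, g.IsHomogeneous c ∧ f = A * g := by
  classical
  subst hs
  by_contra hcon
  have hfS : f ∉ (MvPolynomial.homogeneousSubmodule (Fin n) L c).map
      (LinearMap.mulLeft L A) := by
    rintro ⟨g, hg0, hg⟩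
    exact hcon ⟨g, hg0, hg.symm⟩
  obtain ⟨φ, hφf, hφS⟩ := Submodule.exists_le_ker_of_notMem hfS
  set u : EX n (c + b) → L := fun K => φ (MvPolynomial.monomial K.1 1) with hu
  have hpr : ∀ g : MvPolynomial (Fin n) L, g.IsHomogeneous (c + b) → pr u g = φ g := by
    intro g hg
    rw [pr_eq_sum_EX]
    conv_rhs => rw [← toF_coeff hg]
    unfold toF
    rw [map_sum]
    refine Finset.sum_congr rfl fun K _ => ?_
    have h1 : MvPolynomial.monomial K.1 (g.coeff K.1) =
        g.coeff K.1 • (MvPolynomial.monomial K.1 1 : MvPolynomial (Fin n) L) := by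
      rw [MvPolynomial.smul_monomial, smul_eq_mul, mul_one]
    rw [h1, map_smul, smul_eq_mul]
  apply hφf
  rw [← hpr f hf]
  refine h u (cf_eq_zero_of fun G hG => ?_)
  rw [hpr _ (hG.mul hA), mul_comm]
  exact hφS ⟨G, hG, rfl⟩

end

end Pool.Agent.Lib.MP_44a246_ntSH
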