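import Mathlib
import Pool.Agent.Lib.MP_44a246_ntSH.PC2
import Pool.Agent.Lib.MP_44a246_ntSH.H01
import Pool.Agent.Lib.MP_44a246_ntA.P08b
import Pool.Agent.Lib.MP_44a246_ntO.O00

/-!
# Paper 619, (A4): the projection to the space by constant linear forms
-/

namespace Pool.Agent.Lib.MP_44a246_ntSH

open Pool.Agent.Lib.MP_44a246_nt
open Pool.Agent.Lib.MP_44a246_ntL
open Pool.Agent.Lib.MP_44a246_ntS
open Pool.Agent.Lib.MP_44a246_ntF
open Pool.Agent.Lib.MP_44a246_ntO
open Pool.Agent.Lib.MP_44a246_ntA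
open Pool.Agent.Lib.MP_e52354_nt
open WithZero Module

section

variable {κ L : Type*} [Field κ] [Field L] [Algebra κ L] {m n e : ℕ}

/-- the substitution of the linear forms -/
noncomputable def sbs (L : Type*) [Field L] [Algebra κ L] (l : Fin m → Fin n → κ) :
    MvPolynomial (Fin m) L →ₐ[L] MvPolynomial (Fin n) L :=
  MvPolynomial.aeval fun i => (lfm l i).map (algebraMap κ L)

theorem lfm_hom' (l : Fin m → Fin n → κ) (i : Fin m) : (lfm l i).IsHomogeneous 1 := by
  unfold lfm
  refine MvPolynomial.IsHomogeneous.sum _ _ _ fun k _ => ?_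
  have h1 := (MvPolynomial.isHomogeneous_C (Fin n) (l i k)).mul (MvPolynomial.isHomogeneous_X κ k)
  rwa [zero_add] at h1

theorem prod_hom' (l : Fin m → Fin n → κ) (I : Fin m →₀ ℕ) :
    (∏ i, lfm l i ^ (I i)).IsHomogeneous I.degree := by
  have h1 : (∏ i, lfm l i ^ (I i)).IsHomogeneous (∑ i, 1 * I i) :=
    MvPolynomial.IsHomogeneous.prod _ _ _ fun i _ => (lfm_hom' l i).pow _
  have h2 : ∑ i, 1 * I i = I.degree := by
    rw [Finsupp.degree_eq_sum]
    exact Finset.sum_congr rfl fun i _ => one_mul _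
  rwa [h2] at h1

theorem sbs_monomial (l : Fin m → Fin n → κ) (I : Fin m →₀ ℕ) (c : L) :
    sbs L l (MvPolynomial.monomial I c) =
      c • (∏ i, lfm l i ^ (I i)).map (algebraMap κ L) := by
  unfold sbs
  rw [MvPolynomial.aeval_monomial, MvPolynomial.algebraMap_eq, MvPolynomial.smul_eq_C_mul]
  congr 1
  rw [map_prod, Finsupp.prod_fintype _ _ (fun i => pow_zero _)]
  exact Finset.prod_congr rfl fun i _ => (map_pow _ _ _).symm

theorem sbs_hom (l : Fin m → Fin n → κ) {f : MvPolynomial (Fin m) L} {j : ℕ}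
    (hf : f.IsHomogeneous j) : (sbs L l f).IsHomogeneous j := by
  rw [f.as_sum, map_sum]
  refine MvPolynomial.IsHomogeneous.sum _ _ _ fun K hK => ?_
  rw [sbs_monomial, MvPolynomial.smul_eq_C_mul]
  have h1 : K.degree = j := by
    have h2 := hf (MvPolynomial.mem_support_iff.1 hK)
    rw [Finsupp.degree_eq_weight_one]
    exact h2
  have h3 := (prod_hom' l K).map (algebraMap κ L)
  rw [h1] at h3
  have h4 := (MvPolynomial.isHomogeneous_C (Fin n) (f.coeff K)).mul h3
  rwa [zero_add] at h4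

theorem eval_sbs (l : Fin m → Fin n → κ) (f : MvPolynomial (Fin m) L) (x : Fin n → L) :
    MvPolynomial.eval x (sbs L l f) = MvPolynomial.eval (lx l x) f := by
  unfold sbs
  have h1 : (MvPolynomial.eval x).comp
      (MvPolynomial.aeval fun i => (lfm l i).map (algebraMap κ L) :
        MvPolynomial (Fin m) L →ₐ[L] MvPolynomial (Fin n) L).toRingHom =
      MvPolynomial.eval (lx l x) := by
    refine MvPolynomial.ringHom_ext (fun c => ?_) fun i => ?_
    · simp
    · simp only [AlgHom.toRingHom_eq_coe, RingHom.coe_comp, RingHom.coe_coe, Function.comp_apply,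
        MvPolynomial.aeval_X, MvPolynomial.eval_X]
      unfold lfm lx
      simp [map_sum]
  exact RingHom.congr_fun h1 f

/-- the values of the image functional -/
theorem pr_Cl (l : Fin m → Fin n → κ) (u : EX n e → L) {f : MvPolynomial (Fin m) L}
    (hf : f.IsHomogeneous e) :
    pr (((Cl l e).map (algebraMap κ L)).mulVec u) f = pr u (sbs L l f) := by
  rw [pr_eq_sum_EX]
  conv_rhs => rw [← toF_coeff hf]
  unfold toF
  rw [map_sum, map_sum]
  refine Finset.sum_congr rfl fun K _ => ?_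
  rw [sbs_monomial, map_smul, smul_eq_mul, pr_eq_sum_EX]
  congr 1

/-- contractions and projections -/
theorem cf_Cl (l : Fin m → Fin n → κ) {i j : ℕ} (hi : i + j = e) (u : EX n e → L)
    {f : MvPolynomial (Fin m) L} (hf : f.IsHomogeneous j) :
    cf f i (((Cl l e).map (algebraMap κ L)).mulVec u) =
      ((Cl l i).map (algebraMap κ L)).mulVec (cf (sbs L l f) i u) := by
  subst hi
  refine eq_of_pr fun g hg => ?_
  rw [pr_cf _ _ hg, pr_Cl l u (hg.mul hf), pr_Cl l _ hg, pr_cf _ _ (sbs_hom l hg), map_mul]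

/-- the coefficients of the substituted form are bounded by those of the form -/
theorem sbs_coeff_le (w : Place κ L) (l : Fin m → Fin n → κ) {f : MvPolynomial (Fin m) L}
    {A : ℤᵐ⁰} (hf : ∀ K, w.1 (f.coeff K) ≤ A) (J : Fin n →₀ ℕ) :
    w.1 ((sbs L l f).coeff J) ≤ A := by
  rw [f.as_sum, map_sum, MvPolynomial.coeff_sum]
  refine Valuation.map_sum_le w.1 fun K _ => ?_
  rw [sbs_monomial, MvPolynomial.coeff_smul, smul_eq_mul, map_mul, MvPolynomial.coeff_map]
  calc w.1 (f.coeff K) * w.1 (algebraMap κ L ((∏ i, lfm l i ^ K i).coeff J))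
      ≤ A * 1 := mul_le_mul' (hf K) (const_le_one w _)
    _ = A := mul_one A

end

end Pool.Agent.Lib.MP_44a246_ntSH
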