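import Mathlib
import Pool.Agent.Lib.MP_44a246_ntSH.PC2
import Pool.Agent.Lib.MP_44a246_ntSH.P1
import Pool.Agent.Lib.MP_44a246_ntSH.SRel

/-!
# Paper 619, (A4): spaces of functionals on forms in several variables with small heights, and a
form of minimal degree which vanishes at the point
-/

namespace Pool.Agent.Lib.MP_44a246_ntSH

open Pool.Agent.Lib.MP_44a246_nt
open Pool.Agent.Lib.MP_44a246_ntL
open Pool.Agent.Lib.MP_44a246_ntS
open Pool.Agent.Lib.MP_44a246_ntF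
open Pool.Agent.Lib.MP_44a246_ntO
open Pool.Agent.Lib.MP_44a246_ntR (genus)
open Pool.Agent.Lib.MP_e52354_nt
open WithZero Module

/-- The spaces `Λ e` of functionals on the forms of degree `e`, for `1 ≤ e ≤ E`: they contain the
evaluation at `p`, are closed under contraction, have height at most `P e ^ 2` and dimension at most
`1 + q e`, and are annihilated by the forms of height less than `t` which vanish at `p`. -/
structure Sp (κ : Type*) {L : Type*} [Field κ] [Field L] [Algebra κ L] {n : ℕ} (p : Fin n → L)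
    (Λ : (e : ℕ) → Submodule L (EX n e → L)) (P q E t : ℝ) : Prop where
  mem : ∀ e : ℕ, 1 ≤ e → (e : ℝ) ≤ E → xm e p ∈ Λ e
  ctr : ∀ i j e : ℕ, i + j = e → 1 ≤ i → (e : ℝ) ≤ E → ∀ f : MvPolynomial (Fin n) L,
    f.IsHomogeneous j → ∀ u ∈ Λ e, cf f i u ∈ Λ i
  ht : ∀ e : ℕ, 1 ≤ e → (e : ℝ) ≤ E → (ht κ (Λ e) : ℝ) ≤ P * e ^ 2
  dim : ∀ e : ℕ, 1 ≤ e → (e : ℝ) ≤ E → (finrank L (Λ e) : ℝ) ≤ 1 + e * q
  ann : ∀ e : ℕ, 1 ≤ e → (e : ℝ) ≤ E → ∀ f : MvPolynomial (Fin n) L, f.IsHomogeneous e →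
    MvPolynomial.eval p f = 0 → (polyHeight κ f : ℝ) < t → f ∈ AnnF (Λ e)

section

variable {κ L : Type*} [Field κ] [IsAlgClosed κ] [CharZero κ] [Field L] [Algebra κ L] {n : ℕ}

/-- **Siegel's lemma** for a form: if `A < B` there is a form which vanishes on `A` and not on `B`,
locally on `B` equal to forms with small coefficients. -/
theorem exists_form (h : IsFF κ L) {e : ℕ} {A B : Submodule L (EX n e → L)} (hAB : A ≤ B)
    {c ν : ℝ} (hν : 0 < ν) (hd : ν ≤ (finrank L B : ℝ) - finrank L A) (hc : (ht κ A : ℝ) ≤ c * ν)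
    (hc0 : 0 ≤ c) :
    ∃ (f : MvPolynomial (Fin n) L) (τ : Place κ L → ℤ), f.IsHomogeneous e ∧
      (Function.support τ).Finite ∧ ((∑ᶠ w, τ w : ℤ) : ℝ) ≤ c + (genus κ L + 1) ∧
      0 ≤ ∑ᶠ w, τ w ∧
      (∀ y ∈ A, pr y f = 0) ∧ (∃ y ∈ B, pr y f ≠ 0) ∧
      ∀ w : Place κ L, ∃ m : MvPolynomial (Fin n) L, m.IsHomogeneous e ∧
        (∀ K, w.1 (m.coeff K) ≤ exp (τ w)) ∧ ∀ y ∈ B, pr y m = pr y f := by
  have hne : A ≠ B := by
    rintro rfl
    rw [sub_self] at hd
    linarith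
  obtain ⟨b, hb⟩ : ∃ b : ℤ, b = ⌈c⌉ := ⟨_, rfl⟩
  have hbc : c ≤ b := by rw [hb]; exact Int.le_ceil c
  have hbc' : (b : ℝ) < c + 1 := by rw [hb]; exact Int.ceil_lt_add_one c
  have hb0 : (0 : ℝ) ≤ b := hc0.trans hbc
  obtain ⟨l, τ, hτ, hsum, hlA, hlB, hloc⟩ := VFSharp.siegel_rel_height h hAB hne
    (a := -(b + genus κ L)) (by
      have h1 := ht_nonneg h B
      have h2 : ((ht κ A : ℤ) : ℝ) ≤ (b : ℝ) * ((finrank L B : ℝ) - finrank L A) :=
        hc.trans ((mul_le_mul_of_nonneg_right hbc hν.le).trans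
          (mul_le_mul_of_nonneg_left hd hb0))
      have h3 : (ht κ A : ℤ) ≤ b * ((finrank L B : ℤ) - finrank L A) := by
        exact_mod_cast h2
      have h4 : ((finrank L B : ℤ) - finrank L A) * (-(b + genus κ L) + genus κ L) =
        -(b * ((finrank L B : ℤ) - finrank L A)) := by ring
      rw [h4]
      linarith)
  refine ⟨toF l, τ, toF_hom l, hτ, ?_, ?_, ?_, ?_, ?_⟩
  · rw [hsum]
    push_cast
    linarith
  · rw [hsum]
    have h5 : (0 : ℤ) ≤ b := by exact_mod_cast hb0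
    have h6 : (0 : ℤ) ≤ genus κ L := Int.natCast_nonneg _
    linarith
  · intro y hy
    rw [pr_toF]
    exact hlA y hy
  · obtain ⟨y, hy, hy0⟩ := hlB
    exact ⟨y, hy, by rw [pr_toF]; exact hy0⟩
  · intro w
    obtain ⟨m, hm1, hm2⟩ := hloc w
    exact ⟨toF m, toF_hom m, coeff_toF_le w.1 hm1, fun y hy => by
      rw [pr_toF, pr_toF]; exact hm2 y hy⟩

omit [IsAlgClosed κ] [CharZero κ] in
theorem polyHeight_le_finsum (hs : ∀ {A : MvPolynomial (Fin n) L}, A ≠ 0 →
      (Function.support fun w : Place κ L => log (nrm w.1 A)).Finite)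
    {f : MvPolynomial (Fin n) L} (hf : f ≠ 0) {τ : Place κ L → ℤ}
    (hτ : (Function.support τ).Finite) (h : ∀ (w : Place κ L) K, w.1 (f.coeff K) ≤ exp (τ w)) :
    polyHeight κ f ≤ ∑ᶠ w, τ w := by
  rw [polyHeight_eq]
  refine finsum_mono (hs hf) hτ fun w => ?_
  have h1 : nrm w.1 f ≤ exp (τ w) := Finset.sup_le fun K _ => h w K
  have h2 := (log_le_log (nrm_ne_zero w.1 hf) exp_ne_zero).mpr h1
  rwa [log_exp] at h2

/-- a form of small height which vanishes on a space of small height -/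
theorem exists_form_top (h : IsFF κ L) {e : ℕ} {A : Submodule L (EX n e → L)}
    {c ν : ℝ} (hν : 0 < ν) (hd : ν ≤ (Fintype.card (EX n e) : ℝ) - finrank L A)
    (hc : (ht κ A : ℝ) ≤ c * ν) (hc0 : 0 ≤ c) :
    ∃ f : MvPolynomial (Fin n) L, f.IsHomogeneous e ∧ f ≠ 0 ∧ (∀ y ∈ A, pr y f = 0) ∧
      (polyHeight κ f : ℝ) ≤ c + (genus κ L + 1) := by
  have htop : finrank L (⊤ : Submodule L (EX n e → L)) = Fintype.card (EX n e) := by
    rw [finrank_top, Module.finrank_fintype_fun_eq_card]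
  obtain ⟨f, τ, hf, hτ, hsum, -, hA, ⟨y, -, hy⟩, hloc⟩ := exists_form h (le_top : A ≤ ⊤) hν
    (by rw [htop]; exact hd) hc hc0
  have hf0 : f ≠ 0 := by
    rintro rfl
    exact hy (map_zero _)
  refine ⟨f, hf, hf0, hA, ?_⟩
  have h1 : polyHeight κ f ≤ ∑ᶠ w, τ w := by
    refine polyHeight_le_finsum (fun hA => nrm_support h hA) hf0 hτ fun w K => ?_
    obtain ⟨m, hm1, hm2, hm3⟩ := hloc w
    have h2 : m = f := by
      refine form_ext hm1 hf fun K => ?_
      have h3 := hm3 (Pi.single K 1) Submodule.mem_top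
      rw [pr_eq_sum_EX, pr_eq_sum_EX, Finset.sum_eq_single K, Finset.sum_eq_single K,
        Pi.single_eq_same, mul_one, mul_one] at h3
      · exact h3
      · intro J _ hJ
        rw [Pi.single_eq_of_ne hJ, mul_zero]
      · intro h4
        exact absurd (Finset.mem_univ _) h4
      · intro J _ hJ
        rw [Pi.single_eq_of_ne hJ, mul_zero]
      · intro h4
        exact absurd (Finset.mem_univ _) h4
    rw [← h2]
    exact hm2 K
  have h2 : (polyHeight κ f : ℝ) ≤ ((∑ᶠ w, τ w : ℤ) : ℝ) := by exact_mod_cast h1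
  exact h2.trans hsum

/-- **A form of minimal degree** among those of height at most `σ` which vanish at `p` -/
theorem exists_min_form (h : IsFF κ L) {p : Fin n → L} {σ : ℝ} {e : ℕ}
    {f : MvPolynomial (Fin n) L} (hf : f.IsHomogeneous e) (hf0 : f ≠ 0)
    (hfp : MvPolynomial.eval p f = 0) (hσ : (polyHeight κ f : ℝ) ≤ σ) :
    ∃ (b : ℕ) (B : MvPolynomial (Fin n) L), 1 ≤ b ∧ b ≤ e ∧ B.IsHomogeneous b ∧ Irreducible B ∧
      MvPolynomial.eval p B = 0 ∧ (polyHeight κ B : ℝ) ≤ σ ∧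
      ∀ c < b, ∀ C : MvPolynomial (Fin n) L, C.IsHomogeneous c → C ≠ 0 →
        polyHeight κ C ≤ polyHeight κ B → MvPolynomial.eval p C ≠ 0 := by
  classical
  let Q : ℕ → Prop := fun b => ∃ B : MvPolynomial (Fin n) L, B.IsHomogeneous b ∧ B ≠ 0 ∧
    MvPolynomial.eval p B = 0 ∧ (polyHeight κ B : ℝ) ≤ σ
  have hQ : ∃ b, Q b := ⟨e, f, hf, hf0, hfp, hσ⟩
  obtain ⟨B, hB, hB0, hBp, hBσ⟩ := Nat.find_spec hQ
  have hmin : ∀ c < Nat.find hQ, ∀ C : MvPolynomial (Fin n) L, C.IsHomogeneous c → C ≠ 0 →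
      polyHeight κ C ≤ polyHeight κ B → MvPolynomial.eval p C ≠ 0 := by
    intro c hc C hC hC0 hle hCp
    refine Nat.find_min hQ hc ⟨C, hC, hC0, hCp, ?_⟩
    exact le_trans (by exact_mod_cast hle) hBσ
  have hb1 : 1 ≤ Nat.find hQ := by
    by_contra hcon
    have h0 : Nat.find hQ = 0 := by omega
    rw [h0] at hB
    have h1 := (MvPolynomial.totalDegree_zero_iff_isHomogeneous _).2 hB
    rw [MvPolynomial.totalDegree_eq_zero_iff_eq_C] at h1
    rw [h1, MvPolynomial.eval_C] at hBp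
    rw [hBp, map_zero] at h1
    exact hB0 h1
  refine ⟨Nat.find hQ, B, hb1, Nat.find_min' hQ ⟨f, hf, hf0, hfp, hσ⟩, hB, ?_, hBp, hBσ, hmin⟩
  refine ⟨?_, ?_⟩
  · intro hu
    have h1 : IsUnit (MvPolynomial.eval p B) := hu.map _
    rw [hBp] at h1
    exact not_isUnit_zero h1
  · -- a factorisation
    intro F G hFG
    rw [hFG] at hBp hB0
    have hF0 := left_ne_zero_of_mul hB0
    have hG0 := right_ne_zero_of_mul hB0
    obtain ⟨a, c, hac, hFa, hGc⟩ := hom_of_mul (hFG ▸ hB) hB0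
    have unit_of : ∀ {D : MvPolynomial (Fin n) L}, D ≠ 0 → D.IsHomogeneous 0 → IsUnit D := by
      intro D hD0 hD
      have h1 := (MvPolynomial.totalDegree_zero_iff_isHomogeneous _).2 hD
      rw [MvPolynomial.totalDegree_eq_zero_iff_eq_C] at h1
      rw [h1]
      refine IsUnit.map MvPolynomial.C (isUnit_iff_ne_zero.2 fun h2 => ?_)
      rw [h2, map_zero] at h1
      exact hD0 h1
    rw [map_mul, mul_eq_zero] at hBp
    rcases hBp with hBp | hBp
    · -- `F p = 0`, so `a` is not smaller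
      right
      have h1 : ¬ a < Nat.find hQ := fun hlt => hmin a hlt F hFa hF0
        (polyHeight_le_of_dvd h (hFG ▸ hB0) ⟨G, hFG⟩) hBp
      have h2 : c = 0 := by omega
      rw [h2] at hGc
      exact unit_of hG0 hGc
    · left
      have h1 : ¬ c < Nat.find hQ := fun hlt => hmin c hlt G hGc hG0
        (polyHeight_le_of_dvd h (hFG ▸ hB0) ⟨F, by rw [hFG, mul_comm]⟩) hBp
      have h2 : a = 0 := by omega
      rw [h2] at hFa
      exact unit_of hF0 hFa

end

end Pool.Agent.Lib.MP_44a246_ntSH
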