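import Mathlib
import Pool.Agent.Lib.MP_44a246_ntSH.PC3
import Pool.Agent.Lib.MP_44a246_ntSH.PC4
import Pool.Agent.Lib.MP_44a246_ntSH.H03

/-!
# Paper 619, (A4): the spaces of functionals on forms in four variables
-/

namespace Pool.Agent.Lib.MP_44a246_ntSH

open Pool.Agent.Lib.MP_44a246_nt
open Pool.Agent.Lib.MP_44a246_ntL
open Pool.Agent.Lib.MP_44a246_ntS
open Pool.Agent.Lib.MP_44a246_ntF
open Pool.Agent.Lib.MP_44a246_ntO
open Pool.Agent.Lib.MP_44a246_ntA
open Pool.Agent.Lib.MP_e52354_nt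
open WithZero Module

section

variable {κ L : Type*} [Field κ] [IsAlgClosed κ] [CharZero κ] [Field L] [Algebra κ L] {m n : ℕ}

/-- the images of the spaces of the contractions -/
noncomputable def Lm (l : Fin m → Fin n → κ) {d : ℕ} (W : Submodule L (EX n d → L)) (e : ℕ) :
    Submodule L (EX m e → L) :=
  (lam e W).map ((Cl l e).map (algebraMap κ L)).mulVecLin

/-- **(A4)** -/
theorem sp_of_proj (h : IsFF κ L) {x : Fin n → L} (hx : x ≠ 0) {d : ℕ} {t : ℝ}
    {W : Submodule L (EX n d → L)} (hW : HasSl κ t (xm d x) W) (l : Fin m → Fin n → κ)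
    {P q E : ℝ} (hE : E ≤ d)
    (hht : ∀ e : ℕ, 1 ≤ e → (e : ℝ) ≤ E → (ht κ (lam e W) : ℝ) ≤ P * e ^ 2)
    (hdim : ∀ e : ℕ, 1 ≤ e → (e : ℝ) ≤ E → (finrank L (lam e W) : ℝ) ≤ 1 + e * q) :
    Sp κ (lx l x) (Lm l W) P q E t where
  mem e _ he := by
    have hed : e ≤ d := by exact_mod_cast he.trans hE
    refine ⟨xm e x, xm_mem_lam hed hx hW.mem, ?_⟩
    rw [Matrix.mulVecLin_apply, Cl_xm]
  ctr i j e hi _ he f hf u hu := by
    have hed : e ≤ d := by exact_mod_cast he.trans hE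
    obtain ⟨v, hv, rfl⟩ := hu
    refine ⟨cf (sbs L l f) i v, ?_, ?_⟩
    · have h1 := cf_mem_lam hi hv (sbs_hom l hf)
      rwa [lam_lam (by omega) hed] at h1
    · rw [Matrix.mulVecLin_apply, Matrix.mulVecLin_apply, cf_Cl l hi v hf]
  ht e he1 he := by
    have h1 : ((MP_44a246_ntS.ht κ (Lm l W e) : ℤ) : ℝ) ≤ MP_44a246_ntS.ht κ (lam e W) := by
      exact_mod_cast ht_map_const_le h (Cl l e) (lam e W)
    exact h1.trans (hht e he1 he)
  dim e he1 he := by
    have h1 : (finrank L (Lm l W e) : ℝ) ≤ finrank L (lam e W) := by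
      exact_mod_cast Submodule.finrank_map_le _ _
    exact h1.trans (hdim e he1 he)
  ann e he1 he f hf hfx hft := by
    have hed : e ≤ d := by exact_mod_cast he.trans hE
    refine ⟨hf, ?_⟩
    rintro _ ⟨v, hv, rfl⟩
    rw [Matrix.mulVecLin_apply, pr_Cl l v hf]
    by_contra hne
    have hf0 : f ≠ 0 := by
      rintro rfl
      exact hne (by rw [map_zero, map_zero])
    obtain ⟨i, rfl⟩ : ∃ i, d = i + e := ⟨d - e, by omega⟩
    refine eval_ne_zero h rfl hW (sbs_hom l hf) (a := -polyHeight κ f)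
      (τ := fun w => log (nrm w.1 f)) ?_ (nrm_support h hf0) ?_ ?_ ⟨v, hv, hne⟩ ?_
    · push_cast
      linarith
    · rw [neg_neg, polyHeight_eq]
    · intro w
      refine ⟨sbs L l f, sbs_hom l hf, sbs_coeff_le w l fun K => ?_, fun y _ => rfl⟩
      rw [exp_log (nrm_ne_zero w.1 hf0)]
      exact le_nrm w.1 f K
    · rw [eval_sbs, hfx]

end

namespace DatP

variable {κ L : Type*} [Field κ] [Field L] [Algebra κ L] {n : ℕ} (X : DatP κ (L := L) n)

/-- the linear forms of the projection to the space -/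
noncomputable def l4 : Fin 4 → Fin (n + 1) → κ :=
  Fin.cons X.z' ![fun j => (X.ξ₀ j : κ), fun j => (X.ξ₁ j : κ), X.z]

theorem lx_l4 : lx X.l4 X.x = X.p4 := by
  funext i
  refine Fin.cases ?_ (fun j => ?_) i
  · rfl
  · fin_cases j
    · change ∑ k, algebraMap κ L (X.ξ₀ k : κ) * X.x k = 1
      rw [← X.h0]
      exact Finset.sum_congr rfl fun k _ => by rw [map_natCast]
    · change ∑ k, algebraMap κ L (X.ξ₁ k : κ) * X.x k = ∑ j, (X.ξ₁ j : L) * X.x j
      exact Finset.sum_congr rfl fun k _ => by rw [map_natCast]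
    · rfl

end DatP

end Pool.Agent.Lib.MP_44a246_ntSH
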