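import Mathlib
import Pool.Agent.Lib.MP_44a246_ntO.OS1
import Pool.Agent.Lib.MP_44a246_ntO.OS6
import Pool.Agent.Lib.MP_44a246_ntO.OS7a
import Pool.Agent.Lib.MP_44a246_ntSH.PC6

/-!
# Functionals on forms in finite extensions (paper 619, the absolute version)
-/

namespace Pool.Agent.Lib.MP_44a246_ntSH

open Pool.Agent.Lib.MP_44a246_nt
open Pool.Agent.Lib.MP_44a246_ntL
open Pool.Agent.Lib.MP_44a246_ntS
open Pool.Agent.Lib.MP_44a246_ntF
open Pool.Agent.Lib.MP_44a246_ntO
open Pool.Agent.Lib.MP_44a246_ntA
open Pool.Agent.Lib.MP_e52354_nt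
open WithZero Module

section

variable {K L : Type*} [Field K] [Field L] [Algebra K L] {n e : ℕ}

theorem ex_amE (u : EX n e → K) (I : Fin n →₀ ℕ) :
    ex (fun J => algebraMap K L (u J)) I = algebraMap K L (ex u I) := by
  unfold ex
  split_ifs
  · rfl
  · rw [map_zero]

theorem pr_amE (u : EX n e → K) (f : MvPolynomial (Fin n) K) :
    pr (fun J => algebraMap K L (u J)) (f.map (algebraMap K L)) = algebraMap K L (pr u f) := by
  rw [pr_eq_sum_EX, pr_eq_sum_EX, map_sum]
  exact Finset.sum_congr rfl fun J _ => by rw [MvPolynomial.coeff_map, map_mul]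

theorem cf_amE (f : MvPolynomial (Fin n) K) (i : ℕ) (u : EX n e → K) :
    cf (f.map (algebraMap K L)) i (fun J => algebraMap K L (u J)) =
      fun J => algebraMap K L (cf f i u J) := by
  funext ψ
  have h1 : (MvPolynomial.monomial ψ.1 (1 : L)) * f.map (algebraMap K L) =
      (MvPolynomial.monomial ψ.1 (1 : K) * f).map (algebraMap K L) := by
    rw [map_mul (MvPolynomial.map (algebraMap K L)), MvPolynomial.map_monomial,
      map_one (algebraMap K L)]
  rw [cf_apply, cf_apply, ← pr_amE, h1]

theorem cf_mono_am (φ : Fin n →₀ ℕ) (i : ℕ) (u : EX n e → K) :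
    cf (MvPolynomial.monomial φ 1) i (fun J => algebraMap K L (u J)) =
      fun J => algebraMap K L (cf (MvPolynomial.monomial φ 1) i u J) := by
  rw [← cf_amE, MvPolynomial.map_monomial, map_one (algebraMap K L)]

/-- a linear map over `L` which maps a space over `K` into a space over `K` -/
theorem bc_le_comap {ι ι' : Type*} {A : Submodule K (ι → K)} {B : Submodule K (ι' → K)}
    {T : (ι → L) →ₗ[L] (ι' → L)} {T₀ : (ι → K) → (ι' → K)}
    (hT : ∀ u : ι → K, T (fun k => algebraMap K L (u k)) = fun k => algebraMap K L (T₀ u k))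
    (h : ∀ u ∈ A, T₀ u ∈ B) : bc L A ≤ (bc L B).comap T := by
  unfold bc
  rw [Submodule.span_le]
  rintro _ ⟨u, hu, rfl⟩
  change T _ ∈ Submodule.span L _
  rw [hT]
  exact Submodule.subset_span ⟨T₀ u, h u hu, rfl⟩

theorem lam_bcE {i : ℕ} (hi : i ≤ e) (W : Submodule K (EX n e → K)) :
    lam i (bc L W) = bc L (lam i W) := by
  refine le_antisymm (lam_le fun φ u hu => ?_) ?_
  · refine bc_le_comap (A := W) (B := lam i W) (T := cf (MvPolynomial.monomial φ.1 1) i)
      (T₀ := fun u => cf (MvPolynomial.monomial φ.1 1) i u) (fun u => cf_mono_am φ.1 i u)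
      (fun u hu => ?_) hu
    exact cf_mem_lam (j := e - i) (by omega) hu
      (MvPolynomial.isHomogeneous_monomial _ (mem_expo.1 φ.2))
  · unfold bc
    rw [Submodule.span_le]
    rintro _ ⟨u, hu, rfl⟩
    change (fun k => algebraMap K L (u k)) ∈ lam i (bc L W)
    have h1 : lam i W ≤ ((lam i (bc L W)).restrictScalars K).comap
        ((Algebra.linearMap K L).compLeft (EX n i)) := by
      refine lam_le fun φ u hu => ?_
      change (fun k => algebraMap K L (cf (MvPolynomial.monomial φ.1 1) i u k)) ∈ lam i (bc L W)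
      rw [← cf_mono_am]
      exact cf_mem_lam (j := e - i) (by omega) (am_mem_bc hu)
        (MvPolynomial.isHomogeneous_monomial _ (mem_expo.1 φ.2))
    exact h1 hu

theorem eval_amE (f : MvPolynomial (Fin n) K) (x : Fin n → K) :
    MvPolynomial.eval (fun k => algebraMap K L (x k)) (f.map (algebraMap K L)) =
      algebraMap K L (MvPolynomial.eval x f) := by
  rw [MvPolynomial.eval_map]
  exact (MvPolynomial.eval₂_comp (algebraMap K L) x f).symm

end

section

variable {κ K L : Type*} [Field κ] [Field K] [Field L] [Algebra κ K] [Algebra κ L]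
  [Algebra K L] [IsScalarTower κ K L] {m n : ℕ}

theorem lx_am (l : Fin m → Fin n → κ) (x : Fin n → K) :
    lx l (fun k => algebraMap K L (x k)) = fun i => algebraMap K L (lx l x i) := by
  funext i
  unfold lx
  rw [map_sum]
  exact Finset.sum_congr rfl fun k _ => by
    rw [map_mul, ← IsScalarTower.algebraMap_apply]

theorem Cl_am (l : Fin m → Fin n → κ) {e : ℕ} (u : EX n e → K) :
    ((Cl l e).map (algebraMap κ L)).mulVec (fun k => algebraMap K L (u k)) =
      fun i => algebraMap K L (((Cl l e).map (algebraMap κ K)).mulVec u i) := by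
  funext i
  simp only [Matrix.mulVec, dotProduct, Matrix.map_apply]
  rw [map_sum]
  exact Finset.sum_congr rfl fun k _ => by
    rw [map_mul, ← IsScalarTower.algebraMap_apply]

theorem Lm_bc (l : Fin m → Fin n → κ) {d e : ℕ} (hed : e ≤ d) (W : Submodule K (EX n d → K)) :
    Lm l (bc L W) e = bc L (Lm l W e) := by
  unfold Lm
  rw [lam_bcE hed]
  refine le_antisymm ?_ ?_
  · rw [Submodule.map_le_iff_le_comap]
    exact bc_le_comap (T := ((Cl l e).map (algebraMap κ L)).mulVecLin)
      (T₀ := fun u => ((Cl l e).map (algebraMap κ K)).mulVec u) (fun u => Cl_am l u)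
      (fun u hu => ⟨u, hu, rfl⟩)
  · unfold bc
    rw [Submodule.span_le]
    rintro _ ⟨_, ⟨u, hu, rfl⟩, rfl⟩
    refine ⟨fun k => algebraMap K L (u k), Submodule.subset_span ⟨u, hu, rfl⟩, ?_⟩
    rw [Matrix.mulVecLin_apply, Cl_am]
    rfl

end

section

variable {κ K L : Type*} [Field κ] [IsAlgClosed κ] [CharZero κ] [Field K] [Algebra κ K]
  [Field L] [Algebra κ L] [Algebra K L] [IsScalarTower κ K L] [FiniteDimensional K L]

theorem nrm_eq_vmax_coeff {R : Type*} [Field R] (v : Valuation R ℤᵐ⁰) {σ : Type*}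
    (A : MvPolynomial σ R) : nrm v A = vmax v (fun I : A.support => A.coeff I.1) := by
  unfold nrm vmax
  rw [Finset.univ_eq_attach, Finset.sup_attach A.support (fun I => v (A.coeff I))]

theorem polyHeight_eq_height {R : Type*} [Field R] [Algebra κ R] {σ : Type*}
    (A : MvPolynomial σ R) : polyHeight κ A = height κ (fun I : A.support => A.coeff I.1) := by
  rw [polyHeight_eq]
  unfold height
  exact finsum_congr fun w => by rw [nrm_eq_vmax_coeff]

theorem support_map_am {σ : Type*} (f : MvPolynomial σ K) :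
    (f.map (algebraMap K L)).support = f.support := by
  ext I
  rw [MvPolynomial.mem_support_iff, MvPolynomial.mem_support_iff, MvPolynomial.coeff_map, Ne, Ne,
    map_eq_zero_iff _ (algebraMap K L).injective]

/-- the height of a form in a finite extension -/
theorem polyHeight_am (h : IsFF κ K) {σ : Type*} {f : MvPolynomial σ K} (hf : f ≠ 0) :
    polyHeight κ (f.map (algebraMap K L)) = finrank K L * polyHeight κ f := by
  have hL : IsFF κ L := IsFF.of_finite (K := K) h
  rw [polyHeight_eq, polyHeight_eq_height f]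
  have hc : (fun I : f.support => f.coeff I.1) ≠ 0 := by
    obtain ⟨I, hI⟩ := MvPolynomial.ne_zero_iff.1 hf
    intro h0
    exact hI (congrFun h0 ⟨I, MvPolynomial.mem_support_iff.2 hI⟩)
  rw [← hL.height_ext hc]
  unfold height
  refine finsum_congr fun w => ?_
  congr 1
  unfold nrm vmax
  rw [support_map_am, Finset.univ_eq_attach,
    Finset.sup_attach f.support (fun I => w.1 (algebraMap K L (f.coeff I)))]
  exact Finset.sup_congr rfl fun I _ => by rw [MvPolynomial.coeff_map]

end

end Pool.Agent.Lib.MP_44a246_ntSH
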