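import Mathlib
import Pool.Agent.Lib.MP_44a246_ntE.E10
import Pool.Agent.Lib.MP_44a246_ntSH.CV03
import Pool.Agent.Lib.MP_44a246_ntSH.CV04

/-!
Parameters and conditions for a curve of large genus in projective space (paper 619, (E2)).
-/

namespace Pool.Agent.Lib.MP_44a246_ntSH

open Pool.Agent.Lib.MP_e52354_nt
open Pool.Agent.Lib.MP_44a246_nt
open Pool.Agent.Lib.MP_44a246_ntL
open Pool.Agent.Lib.MP_44a246_ntR
open Pool.Agent.Lib.MP_44a246_ntS
open Pool.Agent.Lib.MP_44a246_ntE
open WithZero Polynomial Module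

variable {κ M : Type*} [Field κ] [IsAlgClosed κ] [CharZero κ] [Field M] [Algebra κ M]

omit [IsAlgClosed κ] [CharZero κ] in
/-- the field generated by `X, Y` over `κ` is generated by `Y` over `κ (X)` -/
private theorem e10_gen [Algebra (RatFunc κ) M] [IsScalarTower κ (RatFunc κ) M] {X Y : M}
    (hX : tL κ M = X) (hgen : IntermediateField.adjoin κ {X, Y} = ⊤) :
    IntermediateField.adjoin (RatFunc κ) {Y} = ⊤ := by
  rw [eq_top_iff]
  intro x _
  have h1 : x ∈ IntermediateField.adjoin κ {X, Y} := by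
    rw [hgen]
    exact IntermediateField.mem_top
  have h2 : IntermediateField.adjoin κ {X, Y} ≤
      (IntermediateField.adjoin (RatFunc κ) {Y}).restrictScalars κ := by
    rw [IntermediateField.adjoin_le_iff]
    rintro y (rfl | hy)
    · change _ ∈ IntermediateField.adjoin (RatFunc κ) {Y}
      rw [← hX]
      exact (IntermediateField.adjoin (RatFunc κ) {Y}).algebraMap_mem _
    · change y ∈ IntermediateField.adjoin (RatFunc κ) {Y}
      exact IntermediateField.subset_adjoin (RatFunc κ) {Y} hy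
  exact h2 h1

omit [IsAlgClosed κ] [CharZero κ] in
/-- the value of an element of the span -/
private theorem e10_vmax (v : Place κ M) {n : ℕ} {γ : Fin (n + 1) → M} {x : M}
    (hx : x ∈ Submodule.span κ (Set.range γ)) : v.1 x ≤ vmax v.1 γ := by
  induction hx using Submodule.span_induction with
  | mem x h =>
    obtain ⟨i, rfl⟩ := h
    exact Finset.le_sup (f := fun i => v.1 (γ i)) (Finset.mem_univ i)
  | zero =>
    rw [map_zero]
    exact zero_le
  | add x y _ _ hx hy => exact (v.1.map_add x y).trans (max_le hx hy)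
  | smul c x _ hx =>
    rw [Algebra.smul_def, map_mul]
    rcases eq_or_ne c 0 with h | h
    · rw [h, map_zero, map_zero, zero_mul]
      exact zero_le
    · rw [v.2.2 c h, one_mul]
      exact hx

omit [IsAlgClosed κ] [CharZero κ] in
/-- products of elements of a Riemann-Roch space -/
private theorem e10_pow_le {P : Place κ M →₀ ℤ} {W : Submodule κ M} (hW : W ≤ rr P) (k : ℕ) :
    W ^ k ≤ rr (k • P) := by
  induction k with
  | zero =>
    rw [pow_zero, Submodule.one_le]
    intro v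
    rw [map_one, zero_nsmul, Finsupp.zero_apply, exp_zero]
  | succ k ih =>
    rw [pow_succ, Submodule.mul_le]
    intro a ha b hb v
    have h1 := ih ha v
    have h2 := hW hb v
    rw [map_mul, succ_nsmul, Finsupp.add_apply, exp_add]
    exact mul_le_mul' h1 h2

/-- **Parameters and conditions.** Let `z = (1, X, Y, ...)` be `R + 3` elements which span the same
space as the `γ j` and generate `M`, let `X` have the poles of `γ`; `m = [M : κ (X)]`, and suppose
that `m + 2 ≤ 2 genus`. -/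
theorem count_ffS (hM : IsFF κ M) {n R : ℕ} {γ : Fin (n + 1) → M} {z : Fin (R + 3) → M}
    (hz : ∀ l, z l ∈ Submodule.span κ (Set.range γ))
    (hγz : ∀ j, γ j ∈ Submodule.span κ (Set.range z)) (h0 : z 0 = 1)
    (hX : Transcendental κ (z 1))
    (hmax : ∀ w : Place κ M, vmax w.1 γ ≤ max 1 (w.1 (z 1)))
    (hgen : IntermediateField.adjoin κ {z 1, z 2} = ⊤) {T : Type*} [Fintype T]
    {D₀ : T → Derivation ℤ κ κ} {D : T → Derivation ℤ M M}
    (hD : ∀ t, ∀ u : κ, D t (algebraMap κ M u) = algebraMap κ M (D₀ t u))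
    (hDX : ∀ t, D t (z 1) = 0) (hg : height κ ![1, z 1] + 2 ≤ 2 * (genus κ M : ℤ))
    {N i b' : ℕ} (hN : N + 1 ≤ finrank κ (Submodule.span κ (Set.range γ)))
    (hb : height κ ![1, z 1] ≤ b') (hi : 2 ^ i * b' ≤ 3 ^ i * N) :
    ∃ (S : Submodule κ (T → κ)) (m p : ℕ), height κ ![1, z 1] = m ∧ 1 ≤ m ∧
      Fintype.card T ≤ finrank κ S + p ∧ (∀ c ∈ S, ∀ l, Dc D c (z l) = 0) ∧
      (∀ d, 2 ^ i ≤ d →
        m * (d + 1) ≤ finrank κ ↥(Submodule.span κ (Set.range γ) ^ d) + 2 ^ i * m) ∧
      2 * p ≤ R * (m + 2) + 2 * m + 4 * 2 ^ i * m + 2 := by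
  classical
  refine with_sep hM hX ?_
  intro iA t1 iR t2 iI t3 fd hXf
  have htower : IsScalarTower κ (RatFunc κ) M := tower_ratFunc
  have htL : tL κ M = z 1 := by rw [tL_eq, hXf]
  have hmm : (finrank (RatFunc κ) M : ℤ) = height κ ![1, z 1] := by
    rw [finrank_eq_height κ M, htL]
  obtain ⟨P, hP⟩ := exists_pole κ M
  have hzP : ∀ l, z l ∈ rr P := by
    intro l v
    have h1 : v.1 (z l) ≤ vmax v.1 γ := e10_vmax v (hz l)
    refine (h1.trans (hmax v)).trans (max_le ?_ ?_)
    · rw [← exp_zero, exp_le_exp]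
      exact hP.nonneg v
    · refine le_exp_log.trans ?_
      rw [exp_le_exp, hP v, htL]
      exact le_max_right _ _
  have hgen' := e10_gen htL hgen
  obtain ⟨W, hW⟩ : ∃ W : Submodule κ M, W = Submodule.span κ (Set.range z) := ⟨_, rfl⟩
  have hzW : ∀ l, z l ∈ W := fun l => by
    rw [hW]
    exact Submodule.subset_span ⟨l, rfl⟩
  have hWP : W ≤ rr P := by
    rw [hW, Submodule.span_le]
    rintro _ ⟨l, rfl⟩
    exact hzP l
  have hWγ : W = Submodule.span κ (Set.range γ) := by
    refine le_antisymm ?_ ?_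
    · rw [hW, Submodule.span_le]
      rintro _ ⟨l, rfl⟩
      exact hz l
    · rw [hW, Submodule.span_le]
      rintro _ ⟨l, rfl⟩
      exact hγz l
  have hWf : FiniteDimensional κ W := by
    rw [hW]
    exact FiniteDimensional.span_of_finite _ (Set.finite_range z)
  have h1W : (1 : M) ∈ W := h0 ▸ hzW 0
  have htW : tL κ M ∈ W := by
    rw [htL]
    exact hzW 1
  obtain ⟨s, hs⟩ : ∃ s, finrank κ W = s + 1 := by
    refine ⟨finrank κ W - 1, ?_⟩
    have h2 : 0 < finrank κ W := by
      rw [Module.finrank_pos_iff_exists_ne_zero]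
      refine ⟨⟨1, h1W⟩, fun h => ?_⟩
      exact one_ne_zero (congrArg Subtype.val h)
    omega
  have hNs : N ≤ s := by
    rw [← hWγ, hs] at hN
    omega
  have hg' : finrank (RatFunc κ) M + 2 ≤ 2 * genus κ M := by
    have h1 : (finrank (RatFunc κ) M : ℤ) + 2 ≤ 2 * (genus κ M : ℤ) := by rw [hmm]; exact hg
    exact_mod_cast h1
  have hcl := clifford hP (hzW 2 |> fun h => hWP h) hgen' hg'
  have hfinP : FiniteDimensional κ (rr P) := finite_rr hM P
  have hsB : s + 1 ≤ finrank κ (rr P) := by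
    rw [← hs]
    exact Submodule.finrank_mono hWP
  have hmb : finrank (RatFunc κ) M ≤ b' := by
    have h1 : (finrank (RatFunc κ) M : ℤ) ≤ b' := by rw [hmm]; exact hb
    exact_mod_cast h1
  have hi' : 2 ^ i * finrank (RatFunc κ) M ≤ 3 ^ i * s :=
    (Nat.mul_le_mul_left _ hmb).trans (hi.trans (Nat.mul_le_mul_left _ hNs))
  have hm0 : 0 < finrank (RatFunc κ) M := Module.finrank_pos
  -- `1`, `X` are independent
  have hs1 : 1 ≤ s := by
    by_contra hcon
    have h1 : s = 0 := by omega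
    rw [h1, Nat.mul_zero] at hi'
    have h2 : 0 < 2 ^ i * finrank (RatFunc κ) M := Nat.mul_pos (Nat.two_pow_pos i) hm0
    omega
  have hm2 : 2 ≤ finrank (RatFunc κ) M := by omega
  obtain ⟨f, hf, hfj⟩ := exists_adapted_growth hP h1W htW (hzW 2) hWP hgen' hs hi'
  obtain ⟨S, p, hp1, hp2, hs2, hsR, hp3⟩ := exists_killB hP h0 hXf.symm hzP hgen'
    (by rw [← hW, hs]) hD (fun t => by rw [hXf]; exact hDX t) hm2
  have hram := ramDeg_le_basis hP hf (fun l => e10_pow_le hWP (2 ^ i) (hfj l))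
  have hram' : ramDeg κ M (RatFunc κ) ≤ 2 * (2 ^ i * finrank (RatFunc κ) M) := by
    rw [Finset.sum_const, Finset.card_univ, Fintype.card_fin, nsmul_eq_mul] at hram
    have h1 : (ramDeg κ M (RatFunc κ) : ℤ) ≤
        ((2 * (2 ^ i * finrank (RatFunc κ) M) : ℕ) : ℤ) := by
      push_cast
      push_cast at hram
      linarith
    exact_mod_cast h1
  refine ⟨S, finrank (RatFunc κ) M, p, hmm.symm, hm0, hp1, hp2, ?_, ?_⟩
  · intro d hd
    have h2 := finrank_pow_ge hP h1W htW (j := fun _ => 2 ^ i) hf hfj (d := d) fun _ => hd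
    rw [Finset.sum_const, Finset.card_univ, Fintype.card_fin, smul_eq_mul, hWγ] at h2
    rw [mul_comm (2 ^ i) (finrank (RatFunc κ) M)]
    exact h2
  · set m := finrank (RatFunc κ) M with hm
    set B := finrank κ (rr P) with hB
    obtain ⟨u, hu⟩ : ∃ u, R + 2 = s + u := ⟨R + 2 - s, by omega⟩
    obtain ⟨v, hv⟩ : ∃ v, s = v + 2 := ⟨s - 2, by omega⟩
    have e1 : R + 2 - s = u := by omega
    have e2 : s - 2 = v := by omega
    rw [e1, e2] at hp3
    have e3 : R = u + v := by omega
    have h4 : u * (s + 1) ≤ u * B := Nat.mul_le_mul_left _ hsB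
    have h5 : R * (2 * B) ≤ R * (m + 2) := Nat.mul_le_mul_left _ hcl
    have h6 : R * (2 * B) = 2 * (u * B) + 2 * (v * B) := by rw [e3]; ring
    have h7 : 4 * 2 ^ i * m = 2 * (2 * (2 ^ i * m)) := by ring
    rw [h7]
    omega

end Pool.Agent.Lib.MP_44a246_ntSH
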