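import Mathlib
import Pool.Agent.Lib.MP_44a246_ntD.D20
import Pool.Agent.Lib.MP_44a246_ntU.U13
import Pool.Agent.Lib.MP_44a246_ntSH.CW03

/-!
`NoCertSP` for a point of a complete intersection with algebraically independent coordinates over an
algebraically closed field (paper 619, (A9), phase 2).
-/

namespace Pool.Agent.Lib.MP_44a246_ntSH

open Pool.Agent.Lib.MP_44a246_ntK
open Pool.Agent.Lib.MP_44a246_ntD
open Pool.Agent.Lib.MP_e52354_nt
open Pool.Agent.Lib.MP_44a246_nt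
open Pool.Agent.Lib.MP_44a246_ntL
open Pool.Agent.Lib.MP_44a246_ntS
open Pool.Agent.Lib.MP_44a246_ntG
open Pool.Agent.Lib.MP_44a246_ntU
open Module

universe u

/-- `NoCertSP` over an algebraically closed field -/
theorem NoCertSP.closed {R n p b N : ℕ} {d : Fin p → ℕ} (h : NoCertSP.{u} R n p d b N)
    {κ : Type u} [Field κ] [IsAlgClosed κ] [CharZero κ] {k : Type*} [Field k]
    [CharZero k] [Algebra k κ] {a : Fin p → (Fin (n + 1) →₀ ℕ) → κ}
    (ha : AlgebraicIndependent k (fun s : ↥(jexpo n d) => a s.1.1 s.1.2))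
    {k₂ : Type*} [Field k₂] [CharZero k₂] [Algebra k₂ κ]
    {a₂ : Fin p → (Fin (n + 1) →₀ ℕ) → k₂}
    (ha₂ : ∀ j, ∀ I ∈ expo (Fin (n + 1)) (d j), algebraMap k₂ κ (a₂ j I) = a j I)
    {x : Fin (n + 1) → κ} {l : Fin (n + 1)} (hl : x l ≠ 0) {j : Fin (R + 1) → Fin (n + 1)}
    (hind : AlgebraicIndependent k₂ (fun i : Fin (R + 1) => x (j i) / x l)) :
    ¬ CertSP d a b N x := by
  classical
  choose δ hδ using fun i : Fin (R + 1) =>
    exists_der_indepV hind (fun i' => if i = i' then 1 else 0)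
  choose W hW using fun I : Fin p × (Fin (n + 1) →₀ ℕ) => exists_der_indepV ha
    (fun J => if I = J.1 then (1 : κ) else 0)
  refine h κ a (fun b I => W (b, I)) (fun b I _ b' J hJ => (hW (b, I)).2 ⟨(b', J),
    mem_jexpo.2 hJ⟩) x δ (fun i j' I hI => ?_)
    (indep_pointE (j := j) hl δ fun i i' => (hδ i).2 i')
  rw [← ha₂ j' I hI]
  exact (hδ i).1 _

end Pool.Agent.Lib.MP_44a246_ntSH
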