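import Mathlib
import Pool.Agent.Lib.MP_44a246_ntSH.CW01

/-!
Ultraproducts of certificates, for several forms (the proof of `certS_germ`).
-/

namespace Pool.Agent.Lib.MP_44a246_ntSH

open Pool.Agent.Lib.MP_e52354_nt
open Pool.Agent.Lib.MP_44a246_ntS
open Pool.Agent.Lib.MP_44a246_ntG
open Pool.Agent.Lib.MP_44a246_ntU
open Pool.Agent.Lib.MP_44a246_ntE
open Polynomial

private theorem aeval_eq_FB {L : Type*} [Field L] {D : ℕ} {P : MvPolynomial (Fin 3) L}
    (hP : P.IsHomogeneous D) (g : Fin 3 → L[X][X]) :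
    MvPolynomial.aeval g P = FB (n := 2) D (fun I => P.coeff I) g := by
  rw [MvPolynomial.aeval_def, MvPolynomial.eval₂_eq']
  unfold FB
  have hsub : P.support ⊆ expo (Fin 3) D := by
    intro I hI
    rw [mem_expo]
    by_contra hne
    exact (MvPolynomial.mem_support_iff.1 hI) (hP.coeff_eq_zero hne)
  rw [← Finset.sum_subset hsub]
  · rfl
  · intro I _ hI
    have h0 : P.coeff I = 0 := MvPolynomial.notMem_support_iff.1 hI
    simp only [h0, map_zero, zero_mul]

/-- identities over the ring of sequences -/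
private theorem seq_FB {L : Type*} [Field L] {n D : ℕ} {A' Q' : (ℕ → L)[X][X]}
    {G' : Fin (n + 1) → (ℕ → L)[X][X]} {A Q : ℕ → L[X][X]} {G : ℕ → Fin (n + 1) → L[X][X]}
    {p : ℕ → (Fin (n + 1) →₀ ℕ) → L}
    (hA : ∀ N, m2 (Pi.evalRingHom (fun _ => L) N) A' = A N)
    (hQ : ∀ N, m2 (Pi.evalRingHom (fun _ => L) N) Q' = Q N)
    (hG : ∀ j N, m2 (Pi.evalRingHom (fun _ => L) N) (G' j) = G N j)
    (h : ∀ N, FB D (p N) (G N) = A N * Q N) :
    FB D (fun I => germHom (fun N => p N I)) (fun j => m2 germHom (G' j)) =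
      m2 germHom A' * m2 germHom Q' := by
  have h1 : ∑ I ∈ expo (Fin (n + 1)) D, C (C (fun N : ℕ => p N I)) * ∏ j, G' j ^ I j
      = A' * Q' := by
    apply seqPoly_ext
    intro N
    rw [map_mul, hA, hQ, ← h N, map_sum]
    unfold FB
    refine Finset.sum_congr rfl fun I _ => ?_
    rw [map_mul, m2_CC, map_prod]
    congr 1
    refine Finset.prod_congr rfl fun j _ => ?_
    rw [map_pow, hG]
  have h2 := congrArg (m2 germHom) h1
  rw [map_sum, map_mul] at h2
  rw [← h2]
  unfold FB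
  refine Finset.sum_congr rfl fun I _ => ?_
  rw [map_mul, m2_CC, map_prod]
  congr 1
  refine Finset.prod_congr rfl fun j _ => ?_
  rw [map_pow]

/-- linear combinations over the ring of sequences -/
private theorem m2_lc {R S : Type*} [CommRing R] [CommRing S] (φ : R →+* S) {n : ℕ}
    (u : Fin (n + 1) → ℕ) (B : Fin (n + 1) → R[X][X]) :
    m2 φ (∑ j, C (C (u j : R)) * B j) = ∑ j, C (C (u j : S)) * m2 φ (B j) := by
  rw [map_sum]
  refine Finset.sum_congr rfl fun j _ => ?_
  rw [map_mul, m2_CC, map_natCast φ]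

/-- forms over the ultraproduct -/
private theorem exists_form {L : Type*} [Field L] {D : ℕ} {p : ℕ → MvPolynomial (Fin 3) L}
    (h0 : ∀ N, p N ≠ 0) (hh : ∀ N, (p N).IsHomogeneous D) :
    ∃ P' : MvPolynomial (Fin 3) (UP L), P' ≠ 0 ∧ P'.IsHomogeneous D ∧
      ∀ I ∈ expo (Fin 3) D, P'.coeff I = germHom fun N => (p N).coeff I := by
  classical
  obtain ⟨P', hP'⟩ : ∃ P' : MvPolynomial (Fin 3) (UP L), P' = ∑ I ∈ expo (Fin 3) D,
    MvPolynomial.monomial I (germHom fun N => (p N).coeff I) := ⟨_, rfl⟩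
  have hP'c : ∀ I ∈ expo (Fin 3) D, P'.coeff I = germHom fun N => (p N).coeff I := by
    intro I hI
    rw [hP', MvPolynomial.coeff_sum, Finset.sum_eq_single_of_mem I hI]
    · rw [MvPolynomial.coeff_monomial, if_pos rfl]
    · intro J _ hJ
      rw [MvPolynomial.coeff_monomial, if_neg hJ]
  refine ⟨P', ?_, ?_, hP'c⟩
  · intro hz'
    have hz : ∀ I ∈ expo (Fin 3) D,
        ∀ᶠ N in (Filter.hyperfilter ℕ : Filter ℕ), (p N).coeff I = 0 := by
      intro I hI
      rw [← germHom_eq_zero_iff, ← hP'c I hI, hz', MvPolynomial.coeff_zero]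
    obtain ⟨N, hN⟩ := ((Filter.eventually_all_finset (expo (Fin 3) D)).2 hz).exists
    refine h0 N ?_
    ext I
    rw [MvPolynomial.coeff_zero]
    by_cases hI : I ∈ expo (Fin 3) D
    · exact hN I hI
    · exact (hh N).coeff_eq_zero fun h => hI (mem_expo.2 h)
  · rw [hP']
    refine MvPolynomial.IsHomogeneous.sum _ _ _ fun I hI => ?_
    exact MvPolynomial.isHomogeneous_monomial _ (mem_expo.1 hI)

private theorem FB_congr' {L : Type*} [Field L] {n D : ℕ} {a a' : (Fin (n + 1) →₀ ℕ) → L}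
    (h : ∀ I ∈ expo (Fin (n + 1)) D, a I = a' I) {B B' : Fin (n + 1) → L[X][X]}
    (hB : ∀ i, B i = B' i) : FB D a B = FB D a' B' := by
  unfold FB
  refine Finset.sum_congr rfl fun I hI => ?_
  rw [h I hI]
  congr 1
  refine Finset.prod_congr rfl fun i _ => ?_
  rw [hB i]

private theorem box_lc {L : Type*} [Field L] {n b : ℕ} {B : Fin (n + 1) → L[X][X]}
    (hB : ∀ j, Box b (B j)) (ξ : Fin (n + 1) → L) : Box b (∑ j, C (C (ξ j)) * B j) := by
  constructor
  · refine natDegree_sum_le_of_forall_le _ _ fun j _ => ?_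
    refine natDegree_mul_le.trans ?_
    rw [natDegree_C, zero_add]
    exact (hB j).1
  · intro i
    rw [finsetSum_coeff]
    refine natDegree_sum_le_of_forall_le _ _ fun j _ => ?_
    rw [coeff_C_mul]
    refine natDegree_mul_le.trans ?_
    rw [natDegree_C, zero_add]
    exact (hB j).2 i

/-- a polynomial over the ring of sequences with the germ zero vanishes at almost all indices -/
private theorem ev_zero {L : Type*} [Field L] {R₀ : (ℕ → L)[X][X]} (h : m2 germHom R₀ = 0) :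
    ∀ᶠ k in (Filter.hyperfilter ℕ : Filter ℕ), m2 (Pi.evalRingHom (fun _ => L) k) R₀ = 0 := by
  have h1 : ∀ i ∈ Finset.range (R₀.natDegree + 1),
      ∀ᶠ k in (Filter.hyperfilter ℕ : Filter ℕ),
        ∀ j ∈ Finset.range ((R₀.coeff i).natDegree + 1), ((R₀.coeff i).coeff j) k = 0 := by
    intro i _
    rw [Filter.eventually_all_finset]
    intro j _
    rw [← germHom_eq_zero_iff]
    have h2 := congrArg (fun p : (UP L)[X][X] => (p.coeff i).coeff j) h
    simp only [m2_coeff, coeff_zero] at h2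
    exact h2
  filter_upwards [(Filter.eventually_all_finset (Finset.range (R₀.natDegree + 1))).2 h1] with k hk
  ext i j
  rw [m2_coeff, coeff_zero, coeff_zero]
  show ((R₀.coeff i).coeff j) k = 0
  by_cases hi : i ∈ Finset.range (R₀.natDegree + 1)
  · by_cases hj : j ∈ Finset.range ((R₀.coeff i).natDegree + 1)
    · exact hk i hi j hj
    · rw [coeff_eq_zero_of_natDegree_lt (by rw [Finset.mem_range] at hj; omega)]
      rfl
  · rw [coeff_eq_zero_of_natDegree_lt (n := i) (by rw [Finset.mem_range] at hi; omega), coeff_zero]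
    rfl

/-- the converse -/
private theorem zero_of_ev {L : Type*} [Field L] {R₀ : (ℕ → L)[X][X]}
    (h : ∀ᶠ k in (Filter.hyperfilter ℕ : Filter ℕ),
      m2 (Pi.evalRingHom (fun _ => L) k) R₀ = 0) : m2 germHom R₀ = 0 := by
  ext i j
  rw [m2_coeff, coeff_zero, coeff_zero, germHom_eq_zero_iff]
  filter_upwards [h] with k hk
  have h2 := congrArg (fun p : L[X][X] => (p.coeff i).coeff j) hk
  simp only [m2_coeff, coeff_zero] at h2
  exact h2

private theorem m2_germ_surj {L : Type*} [Field L] (P : (UP L)[X][X]) :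
    ∃ P₀ : (ℕ → L)[X][X], m2 germHom P₀ = P := by
  have h1 : Function.Surjective (mapRingHom (germHom (L := L))) := fun p => by
    obtain ⟨q, hq⟩ := Polynomial.map_surjective (germHom (L := L)) germHom_surjective p
    exact ⟨q, hq⟩
  obtain ⟨q, hq⟩ := Polynomial.map_surjective (mapRingHom (germHom (L := L))) h1 P
  exact ⟨q, hq⟩

/-- a polynomial whose components are units is a unit -/
private theorem isUnit_germ {L : Type*} [Field L] {P₀ : (ℕ → L)[X][X]}
    (h : ∀ᶠ k in (Filter.hyperfilter ℕ : Filter ℕ),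
      IsUnit (m2 (Pi.evalRingHom (fun _ => L) k) P₀)) : IsUnit (m2 germHom P₀) := by
  have h1 : ∀ᶠ k in (Filter.hyperfilter ℕ : Filter ℕ),
      ((P₀.coeff 0).coeff 0) k ≠ 0 ∧
      m2 (Pi.evalRingHom (fun _ => L) k) (P₀ - C (C ((P₀.coeff 0).coeff 0))) = 0 := by
    filter_upwards [h] with k hk
    obtain ⟨r, hr, hrP⟩ := Polynomial.isUnit_iff.1 hk
    obtain ⟨s, hs, hsr⟩ := Polynomial.isUnit_iff.1 hr
    have h2 : ((P₀.coeff 0).coeff 0) k = s := by
      have h3 := congrArg (fun p : L[X][X] => (p.coeff 0).coeff 0) hrP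
      simp only [m2_coeff, coeff_C_zero, ← hsr] at h3
      exact h3.symm
    refine ⟨by rw [h2]; exact hs.ne_zero, ?_⟩
    rw [map_sub, m2_CC, ← hrP, ← hsr]
    have h4 : (Pi.evalRingHom (fun _ => L) k) ((P₀.coeff 0).coeff 0) = s := h2
    rw [h4, sub_self]
  have h2 := zero_of_ev (h1.mono fun k hk => hk.2)
  rw [map_sub, m2_CC, sub_eq_zero] at h2
  rw [h2]
  have h3 : germHom ((P₀.coeff 0).coeff 0) ≠ 0 := by
    intro h0
    rw [germHom_eq_zero_iff] at h0
    obtain ⟨k, hk1, hk2⟩ := (h0.and h1).exists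
    exact hk2.1 hk1
  exact ((isUnit_iff_ne_zero.2 h3).map C).map C

/-- **Ultraproducts of certificates are certificates.** -/
theorem certSP_germ {L : Type*} [Field L] {n b N : ℕ} {ι : Type*} {d : ι → ℕ}
    {a : ι → (Fin (n + 1) →₀ ℕ) → L} {x : ℕ → Fin (n + 1) → L}
    (h : ∀ k, CertSP d a b N (x k)) :
    CertSP d (fun i I => constHom (a i I)) b N (fun j => germHom (fun k => x k j)) := by
  classical
  choose A B ξ₀ ξ₁ ξ₂ c y₁ y hirr hA hB hc hξ₀ hξ₁ hξ₂ hAy hdA hval hF hl₀ hl₁ hl₂ hPu J hJ using h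
  choose P hP0 hPh hPd using hPu
  have hAne : ∀ N, A N ≠ 0 := by
    intro N h0
    apply hdA N
    rw [h0]
    simp
  have hbox1 : Box 1 (1 : L[X][X]) := by
    refine ⟨by simp, fun i => ?_⟩
    rw [coeff_one]
    split_ifs <;> simp
  have hboxCX : Box 1 (C X : L[X][X]) := by
    refine ⟨by simp, fun i => ?_⟩
    rw [coeff_C]
    split_ifs <;> simp
  have hboxX : Box 1 (X : L[X][X]) := by
    refine ⟨by simp, fun i => ?_⟩
    rw [coeff_X]
    split_ifs <;> simp
  have e0 : ∀ i N, ∃ Q, FB (d i) (a i) (B N) = A N * Q ∧ Box (d i * b) Q := fun i N =>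
    dvd_box (hAne N) (hF N i) (box_FB (d i) (a i) (hB N))
  have e1 : ∀ N, ∃ Q, ∑ j, C (C (ξ₀ N j)) * B N j - 1 * derivative (A N) = A N * Q ∧
      Box (b + 1) Q := fun N =>
    dvd_box (hAne N) (by rw [one_mul]; exact hl₀ N) (box_lin (hB N) (hA N) hbox1 (ξ₀ N))
  have e2 : ∀ N, ∃ Q, ∑ j, C (C (ξ₁ N j)) * B N j - C X * derivative (A N) = A N * Q ∧
      Box (b + 1) Q := fun N =>
    dvd_box (hAne N) (hl₁ N) (box_lin (hB N) (hA N) hboxCX (ξ₁ N))
  have e3 : ∀ N, ∃ Q, ∑ j, C (C (ξ₂ N j)) * B N j - X * derivative (A N) = A N * Q ∧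
      Box (b + 1) Q := fun N =>
    dvd_box (hAne N) (hl₂ N) (box_lin (hB N) (hA N) hboxX (ξ₂ N))
  choose Q0 hQ0 bQ0 using e0
  choose Q1 hQ1 bQ1 using e1
  choose Q2 hQ2 bQ2 using e2
  choose Q3 hQ3 bQ3 using e3
  obtain ⟨A', hA', hA'1, hA'2⟩ := exists_seqPoly A hA
  have eB : ∀ j, ∃ P' : (ℕ → L)[X][X], (∀ N, m2 (Pi.evalRingHom (fun _ => L) N) P' = B N j) ∧
      P'.natDegree ≤ b ∧ ∀ i, (P'.coeff i).natDegree ≤ b := fun j =>
    exists_seqPoly (fun N => B N j) (fun N => hB N j)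
  choose B' hB' hB'1 hB'2 using eB
  choose Q0' hQ0' _ _ using fun i => exists_seqPoly (Q0 i) (bQ0 i)
  obtain ⟨Q1', hQ1', -, -⟩ := exists_seqPoly Q1 bQ1
  obtain ⟨Q2', hQ2', -, -⟩ := exists_seqPoly Q2 bQ2
  obtain ⟨Q3', hQ3', -, -⟩ := exists_seqPoly Q3 bQ3
  have hev : ∀ (P' : (ℕ → L)[X][X]) (P : ℕ → L[X][X]),
      (∀ N, m2 (Pi.evalRingHom (fun _ => L) N) P' = P N) →
      P'.evalEval y₁ y = fun N => (P N).evalEval (y₁ N) (y N) := by
    intro P' P hP
    funext N
    have := m2_evalEval (Pi.evalRingHom (fun _ => L) N) P' y₁ y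
    rw [hP] at this
    exact this.symm
  have hdA' : ∀ N, m2 (Pi.evalRingHom (fun _ => L) N) (derivative A') = derivative (A N) := by
    intro N
    rw [m2_derivative, hA']
  have hAz : (m2 germHom A').evalEval (germHom y₁) (germHom y) = 0 := by
    rw [m2_evalEval, hev A' A hA']
    have : (fun N => (A N).evalEval (y₁ N) (y N)) = 0 := funext hAy
    rw [this, map_zero]
  have hirr' : Irreducible (m2 germHom A') := by
    constructor
    · intro hu
      have h1 := hu.map (evalEvalRingHom (germHom y₁) (germHom y))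
      rw [coe_evalEvalRingHom, hAz] at h1
      exact not_isUnit_zero h1
    · intro P1 P2 hPQ
      obtain ⟨P₁, rfl⟩ := m2_germ_surj P1
      obtain ⟨P₂, rfl⟩ := m2_germ_surj P2
      have h1 : m2 germHom (A' - P₁ * P₂) = 0 := by
        rw [map_sub, map_mul, hPQ, sub_self]
      have h2 : ∀ᶠ k in (Filter.hyperfilter ℕ : Filter ℕ),
          IsUnit (m2 (Pi.evalRingHom (fun _ => L) k) P₁) ∨
          IsUnit (m2 (Pi.evalRingHom (fun _ => L) k) P₂) := by
        filter_upwards [ev_zero h1] with k hk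
        rw [map_sub, map_mul, hA', sub_eq_zero] at hk
        exact (hirr k).isUnit_or_isUnit hk
      rcases Ultrafilter.eventually_or.1 h2 with h3 | h3
      · exact Or.inl (isUnit_germ h3)
      · exact Or.inr (isUnit_germ h3)
  have hJ' : ∃ J' : Fin N → Fin (n + 1), ∀ v : Fin N → UP L, v ≠ 0 →
      ¬ m2 germHom A' ∣ ∑ i, C (C (v i)) * m2 germHom (B' (J' i)) := by
    have h1 : ∀ᶠ k in (Filter.hyperfilter ℕ : Filter ℕ), ∃ J' : Fin N → Fin (n + 1), J k = J' :=
      Filter.Eventually.of_forall fun k => ⟨J k, rfl⟩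
    obtain ⟨J', hJ'⟩ := Ultrafilter.eventually_exists_iff.1 h1
    refine ⟨J', fun v hv hdvd => ?_⟩
    obtain ⟨i₀, hi₀⟩ := Function.ne_iff.mp hv
    choose w hw using fun i => germHom_surjective (L := L) (v i)
    obtain ⟨Q, hQ⟩ := hdvd
    obtain ⟨Q₀, rfl⟩ := m2_germ_surj Q
    have h2 : m2 germHom (∑ i, C (C (w i)) * B' (J' i) - A' * Q₀) = 0 := by
      rw [map_sub, map_sum, map_mul, ← hQ, sub_eq_zero]
      refine Finset.sum_congr rfl fun i _ => ?_
      rw [map_mul, m2_CC, hw]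
    have h3 : ∀ᶠ k in (Filter.hyperfilter ℕ : Filter ℕ), ¬ w i₀ k = 0 := by
      rw [Ultrafilter.eventually_not, ← germHom_eq_zero_iff, hw]
      exact hi₀
    obtain ⟨k, hk1, hk2, hk3⟩ := (hJ'.and ((ev_zero h2).and h3)).exists
    refine hJ k (fun i => w i k) (fun h0 => hk3 (congrFun h0 i₀))
      ⟨m2 (Pi.evalRingHom (fun _ => L) k) Q₀, ?_⟩
    rw [map_sub, map_sum, map_mul, hA', sub_eq_zero] at hk2
    rw [← hk2, hk1]
    refine Finset.sum_congr rfl fun i _ => ?_
    rw [map_mul, m2_CC, hB']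
    rfl
  refine ⟨m2 germHom A', fun j => m2 germHom (B' j), fun j => germHom (fun N => ξ₀ N j),
    fun j => germHom (fun N => ξ₁ N j), fun j => germHom (fun N => ξ₂ N j), germHom c,
    germHom y₁, germHom y, hirr', box_germ hA'1 hA'2, fun j => box_germ (hB'1 j) (hB'2 j),
    germ_ne_zero hc, ?_, seq_scal hξ₁, seq_scal hξ₂, hAz, ?_, ?_, ?_, ?_, ?_, ?_, ?_, hJ'⟩
  · have := seq_scal (y := fun _ => (1 : L)) hξ₀
    rw [this]
    exact map_one germHom
  · rw [← m2_derivative, m2_evalEval, hev (derivative A') (fun N => derivative (A N)) hdA']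
    exact germ_ne_zero hdA
  · intro j
    rw [← m2_derivative, m2_evalEval, m2_evalEval,
      hev (derivative A') (fun N => derivative (A N)) hdA', hev (B' j) (fun N => B N j) (hB' j),
      ← map_mul, ← map_mul]
    congr 1
    funext N
    exact hval N j
  · intro i
    refine ⟨m2 germHom (Q0' i), ?_⟩
    have h1 : ∑ I ∈ expo (Fin (n + 1)) (d i), C (C (fun _ : ℕ => a i I)) * ∏ j, B' j ^ I j
        = A' * Q0' i := by
      apply seqPoly_ext
      intro N
      rw [map_mul, hA', hQ0', ← hQ0 i N, map_sum]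
      unfold FB
      refine Finset.sum_congr rfl fun I _ => ?_
      rw [map_mul, m2_CC, map_prod]
      congr 1
      refine Finset.prod_congr rfl fun j _ => ?_
      rw [map_pow, hB']
    have h2 := congrArg (m2 germHom) h1
    rw [map_sum, map_mul] at h2
    rw [← h2]
    unfold FB
    refine Finset.sum_congr rfl fun I _ => ?_
    rw [map_mul, m2_CC, map_prod]
    congr 1
    refine Finset.prod_congr rfl fun j _ => ?_
    rw [map_pow]
  · refine ⟨m2 germHom Q1', ?_⟩
    have := seq_lin (T := fun _ => 1) (T' := 1) hA' hQ1' (fun N => map_one _) hB' hQ1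
    rwa [map_one, one_mul] at this
  · refine ⟨m2 germHom Q2', ?_⟩
    have := seq_lin (T := fun _ => C X) (T' := C X) hA' hQ2' (fun N => m2_CX _) hB' hQ2
    rwa [m2_CX] at this
  · refine ⟨m2 germHom Q3', ?_⟩
    have := seq_lin (T := fun _ => X) (T' := X) hA' hQ3' (fun N => m2_X _) hB' hQ3
    rwa [m2_X] at this
  · intro u
    have e4 : ∀ N, ∃ Q, FB (n := 2) (2 * b) (fun I => (P N u).coeff I)
        (fun i => ∑ j, C (C (u i j : L)) * B N j) = A N * Q ∧ Box (2 * b * b) Q := by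
      intro N
      refine dvd_box (hAne N) ?_ (box_FB (2 * b) _ fun i => box_lc (hB N) fun j => (u i j : L))
      rw [← aeval_eq_FB (hPh N u)]
      exact hPd N u
    choose Q4 hQ4 bQ4 using e4
    obtain ⟨Q4', hQ4', -, -⟩ := exists_seqPoly Q4 bQ4
    have hG : ∀ i N, m2 (Pi.evalRingHom (fun _ => L) N)
        (∑ j, C (C ((u i j : ℕ) : ℕ → L)) * B' j) = ∑ j, C (C (u i j : L)) * B N j := by
      intro i N
      rw [m2_lc (Pi.evalRingHom (fun _ => L) N) (u i) B']
      refine Finset.sum_congr rfl fun j _ => ?_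
      rw [hB']
    obtain ⟨P', hP'0, hP'h, hP'c⟩ := exists_form (fun N => hP0 N u) (fun N => hPh N u)
    refine ⟨P', hP'0, hP'h, m2 germHom Q4', ?_⟩
    rw [aeval_eq_FB hP'h]
    have h3 := seq_FB (n := 2) (D := 2 * b) hA' hQ4' hG hQ4
    rw [FB_congr' hP'c (B' := fun i => m2 germHom (∑ j, C (C ((u i j : ℕ) : ℕ → L)) * B' j))
      (fun i => (m2_lc germHom (u i) B').symm)]
    exact h3

end Pool.Agent.Lib.MP_44a246_ntSH
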