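import Mathlib
import Pool.Agent.Lib.MP_44a246_ntD.D10
import Pool.Agent.Lib.MP_44a246_ntC.C19
import Pool.Agent.Lib.MP_44a246_ntU.U15
import Pool.Agent.Lib.MP_44a246_ntQ.Q10
import Pool.Agent.Lib.MP_44a246_ntSH.CW04
import Pool.Agent.Lib.MP_44a246_ntSH.CW05

/-!
Compactness for the certificates `CertSP` (paper 619, (A9), phase 2).
-/

namespace Pool.Agent.Lib.MP_44a246_ntSH

open Pool.Agent.Lib.MP_44a246_ntC
open Pool.Agent.Lib.MP_44a246_ntD
open Pool.Agent.Lib.MP_44a246_ntK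
open Pool.Agent.Lib.MP_44a246_ntQ
open Pool.Agent.Lib.MP_e52354_nt
open Pool.Agent.Lib.MP_44a246_nt
open Pool.Agent.Lib.MP_44a246_ntL
open Pool.Agent.Lib.MP_44a246_ntS
open Pool.Agent.Lib.MP_44a246_ntG
open Pool.Agent.Lib.MP_44a246_ntU

universe u

/-- The contradiction in the algebraic closure of the ultrapower. -/
private theorem excSP_aux {k k₂ : Type*} {L : Type u} [Field k] [CharZero k] [Field k₂]
    [CharZero k₂] [Field L] [CharZero L] [Algebra k k₂] [Algebra k₂ L]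
    {R n p b N : ℕ} {d : Fin p → ℕ} (h : NoCertSP.{u} R n p d b N)
    {a : Fin p → (Fin (n + 1) →₀ ℕ) → k₂}
    (ha : AlgebraicIndependent k (fun s : ↥(jexpo n d) => a s.1.1 s.1.2))
    {l : Fin (n + 1)} {j : Fin (R + 1) → Fin (n + 1)}
    {z : ℕ → Fin (R + 1) → L} {x : ℕ → Fin (n + 1) → L}
    (hz : ∀ H : MvPolynomial (Fin (R + 1)) k₂, H ≠ 0 →
      ∃ N₀, ∀ N ≥ N₀, MvPolynomial.aeval (z N) H ≠ 0)
    (hx1 : ∀ t, CertSP d (fun j' I => algebraMap k₂ L (a j' I)) b N (x t))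
    (hx2 : ∀ t, x t l = 1) (hx3 : ∀ t i, z t i = x t (j i)) : False := by
  have hcU : CharZero (UP L) := charZero_of_injective_ringHom (constHom (L := L)).injective
  have hcΩ : CharZero (AlgebraicClosure (UP L)) :=
    charZero_of_injective_ringHom (algebraMap (UP L) (AlgebraicClosure (UP L))).injective
  have hcert := certSP_mp (F := AlgebraicClosure (UP L)) (certSP_germ hx1)
  obtain ⟨ψ, hψd⟩ : ∃ ψ : UP L →+* AlgebraicClosure (UP L),
    ψ = algebraMap (UP L) (AlgebraicClosure (UP L)) := ⟨_, rfl⟩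
  rw [← hψd] at hcert
  let _ : Algebra k₂ (AlgebraicClosure (UP L)) :=
    (ψ.comp (constHom.comp (algebraMap k₂ L))).toAlgebra
  let _ : Algebra k (AlgebraicClosure (UP L)) :=
    ((algebraMap k₂ (AlgebraicClosure (UP L))).comp (algebraMap k k₂)).toAlgebra
  have t : IsScalarTower k k₂ (AlgebraicClosure (UP L)) :=
    IsScalarTower.of_algebraMap_eq fun u => rfl
  have hψ : ∀ u : k₂, ψ (constHom (algebraMap k₂ L u)) =
    algebraMap k₂ (AlgebraicClosure (UP L)) u := fun u => rfl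
  have hx0 : germHom (fun N => x N l) = 1 := by
    have : (fun N => x N l) = 1 := funext fun N => hx2 N
    rw [this, map_one]
  refine h.closed (k := k) (k₂ := k₂) (a₂ := a) (l := l) (j := j) ?_
    (fun _ I _ => rfl) ?_ ?_ hcert
  · exact ha.map' (f := IsScalarTower.toAlgHom k k₂ (AlgebraicClosure (UP L)))
      (algebraMap k₂ (AlgebraicClosure (UP L))).injective
  · show ψ (germHom (fun N => x N l)) ≠ 0
    rw [hx0, map_one]
    exact one_ne_zero
  · have h1 := algIndep_germV ψ hψ (z := z) hz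
    convert h1 using 1
    funext i
    show ψ (germHom (fun N => x N (j i))) / ψ (germHom (fun N => x N l)) =
      ψ (germHom (fun N => z N i))
    rw [hx0, map_one, div_one]
    congr 2
    funext N
    exact (hx3 N i).symm

/-- **Compactness.** -/
theorem exists_excSP {k K : Type*} {L : Type u} [Field k] [CharZero k] [Countable k] [Field K]
    [CharZero K] [Field L] [CharZero L] [Algebra k K] [Algebra K L]
    {R n p b N : ℕ} {d : Fin p → ℕ} (h : NoCertSP.{u} R n p d b N)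
    {a : Fin p → (Fin (n + 1) →₀ ℕ) → K}
    (ha : AlgebraicIndependent k (fun s : ↥(jexpo n d) => a s.1.1 s.1.2))
    (l : Fin (n + 1)) (j : Fin (R + 1) → Fin (n + 1)) :
    ∃ g : MvPolynomial (Fin (R + 1)) K, g ≠ 0 ∧ ∀ x : Fin (n + 1) → L,
      CertSP d (fun j' I => algebraMap K L (a j' I)) b N x → x l ≠ 0 →
        MvPolynomial.aeval (fun i => x (j i) / x l) g = 0 := by
  classical
  let _ : Algebra k L := ((algebraMap K L).comp (algebraMap k K)).toAlgebra
  have tkL : IsScalarTower k K L := IsScalarTower.of_algebraMap_eq fun _ => rfl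
  -- the field of the coefficients
  set k₂ : IntermediateField k K := IntermediateField.adjoin k
    (Set.range fun s : ↥(jexpo n d) => a s.1.1 s.1.2) with hk₂
  have hc2 : Countable k₂ := countable_adjoin _
  obtain ⟨a₂, ha₂⟩ : ∃ a₂ : Fin p → (Fin (n + 1) →₀ ℕ) → k₂,
      ∀ j', ∀ I ∈ expo (Fin (n + 1)) (d j'), (a₂ j' I : K) = a j' I :=
    ⟨fun j' I => if hI : I ∈ expo (Fin (n + 1)) (d j') then ⟨a j' I,
      IntermediateField.subset_adjoin k _ ⟨⟨(j', I), mem_jexpo.2 hI⟩, rfl⟩⟩ else 0,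
      fun j' I hI => by simp only [dif_pos hI]⟩
  have ha' : AlgebraicIndependent k (fun s : ↥(jexpo n d) => a₂ s.1.1 s.1.2) := by
    refine AlgebraicIndependent.of_comp k₂.val ?_
    have h1 : (k₂.val ∘ fun s : ↥(jexpo n d) => a₂ s.1.1 s.1.2) =
        fun s : ↥(jexpo n d) => a s.1.1 s.1.2 := by
      funext s
      exact ha₂ s.1.1 s.1.2 (mem_jexpo.1 s.2)
    rw [h1]
    exact ha
  set S : Set (Fin (R + 1) → L) := {z | ∃ x : Fin (n + 1) → L,
    CertSP d (fun j' I => algebraMap K L (a j' I)) b N x ∧ x l = 1 ∧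
      ∀ i : Fin (R + 1), z i = x (j i)} with hS
  have key : ∃ g : MvPolynomial (Fin (R + 1)) K, g ≠ 0 ∧ ∀ z ∈ S, MvPolynomial.aeval z g = 0 := by
    by_contra hcon
    push Not at hcon
    obtain ⟨z, hzS, hz⟩ := exists_generic_seqC (k := k₂) (L := L) (S := S) fun g hg => by
      obtain ⟨z, hz1, hz2⟩ := hcon g hg
      exact ⟨z, hz1, hz2⟩
    choose x hx1 hx2 hx3 using hzS
    refine excSP_aux (k := k) (a := a₂) (l := l) (j := j) (z := z) (x := x) h ha' hz
      (fun t => ?_) hx2 hx3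
    refine certSP_congr (fun j' I hI => ?_) (hx1 t)
    rw [← ha₂ j' I hI]
    rfl
  obtain ⟨g, hg0, hg⟩ := key
  refine ⟨g, hg0, fun x hx hx0 => ?_⟩
  exact hg _ ⟨fun k => (x l)⁻¹ * x k, (certSP_smul (inv_ne_zero hx0)).2 hx,
    inv_mul_cancel₀ hx0, fun i => div_eq_inv_mul _ _⟩

end Pool.Agent.Lib.MP_44a246_ntSH
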