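import Mathlib
import Pool.Agent.Lib.MP_e52354_ntE.Except
import Pool.Agent.Lib.MP_44a246_ntT.TNoLine
import Pool.Agent.Lib.MP_44a246_ntK.K10

/-!
Points of a complete intersection with given coordinates.
-/

namespace Pool.Agent.Lib.MP_44a246_ntSH

open Pool.Agent.Lib.MP_e52354_nt
open Pool.Agent.Lib.MP_e52354_ntG (MIdx)
open Pool.Agent.Lib.MP_e52354_ntE (exists_common_zero)
open Pool.Agent.Lib.MP_44a246_ntK (jexpo mem_jexpo)
open MvPolynomial

/-- `p` forms whose coefficients are independent have no common zero with `p` nonzero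
coordinates -/
theorem no_zero_of_indep {k Ω : Type*} [Field k] [Field Ω] [Algebra k Ω] {n p : ℕ}
    {d : Fin p → ℕ} {a : Fin p → (Fin (n + 1) →₀ ℕ) → Ω}
    (ha : AlgebraicIndependent k (fun s : {s // s ∈ jexpo n d} => a s.1.1 s.1.2))
    {Λ : Finset (Fin (n + 1))} (hΛ : Λ.card ≤ p) {y : Fin (n + 1) → Ω} (hy : ∀ i ∉ Λ, y i = 0)
    (h1 : ∀ i, Fval (d i) (a i) y = 0) : y = 0 := by
  classical
  by_contra hne
  obtain ⟨l, hl⟩ : ∃ l, y l ≠ 0 := by
    by_contra hcon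
    push Not at hcon
    exact hne (funext hcon)
  have hlΛ : l ∈ Λ := by
    by_contra h
    exact hl (hy l h)
  obtain ⟨φ, hφ⟩ : ∃ φ : MIdx (n + 1) p d → {s // s ∈ jexpo n d},
      ∀ t, (φ t).1 = (t.1, t.2.1) :=
    ⟨fun t => ⟨(t.1, t.2.1), mem_jexpo.2 t.2.2⟩, fun t => rfl⟩
  have hφi : Function.Injective φ := by
    rintro ⟨i, I⟩ ⟨i', I'⟩ h
    have h2 : ((i, I.1) : Fin p × (Fin (n + 1) →₀ ℕ)) = (i', I'.1) := by
      rw [← hφ ⟨i, I⟩, ← hφ ⟨i', I'⟩, h]
    rw [Prod.mk.injEq] at h2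
    obtain ⟨rfl, h3⟩ := h2
    rw [Subtype.ext h3]
  have ha' : AlgebraicIndependent k (fun t : MIdx (n + 1) p d => a t.1 t.2.1) := by
    have h2 := ha.comp φ hφi
    have h3 : (fun t : MIdx (n + 1) p d => a t.1 t.2.1) =
        (fun s : {s // s ∈ jexpo n d} => a s.1.1 s.1.2) ∘ φ := by
      funext t
      show a t.1 t.2.1 = a (φ t).1.1 (φ t).1.2
      rw [hφ]
    rw [h3]
    exact h2
  refine Pool.Agent.Lib.MP_44a246_ntT.no_zero ha' (A := Finset.univ) (Λ := Λ)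
    (by rwa [Finset.card_univ, Fintype.card_fin]) hlΛ (x := fun i => (y l)⁻¹ * y i)
    (inv_mul_cancel₀ hl) (fun i hi => ?_) fun i _ => ?_
  · rw [hy i hi, mul_zero]
  · rw [Fval_smul, h1 i, mul_zero]

private theorem zero_aux {Ω : Type*} [Field Ω] [IsAlgClosed Ω] {n R p : ℕ}
    {d : Fin p → ℕ} (hd : ∀ i, 1 ≤ d i)
    {a : Fin p → (Fin (n + 1) →₀ ℕ) → Ω} {j : Fin (R + 1) → Fin (n + 1)}
    (t : Fin (R + 1) → Ω) {τ : Type*} [Finite τ] (hc : p < Nat.card τ) {e : τ → Fin (n + 1)}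
    {l : τ} (hno : ∀ y : Fin (n + 1) → Ω, y (e l) = 0 → (∀ i, y (j i) = 0) →
      (∀ i, Fval (d i) (a i) y = 0) → y = 0)
    {sub : Fin (n + 1) → MvPolynomial τ Ω} (hj : ∀ i, sub (j i) = C (t i) * X l)
    (he : ∀ s, sub (e s) = X s) (hcov : ∀ s, (∃ i, j i = s) ∨ ∃ t, e t = s) :
    ∃ x : Fin (n + 1) → Ω, x (e l) = 1 ∧ (∀ i, Fval (d i) (a i) x = 0) ∧
      ∀ i, x (j i) = t i := by
  classical
  obtain ⟨pt, hpt⟩ : ∃ pt : (τ → Ω) → Fin (n + 1) → Ω, ∀ y i, pt y i = eval y (sub i) :=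
    ⟨_, fun _ _ => rfl⟩
  have hptj : ∀ y i, pt y (j i) = t i * y l := by
    intro y i
    rw [hpt, hj, map_mul, eval_C, eval_X]
  have hptn : ∀ y (i : τ), pt y (e i) = y i := by
    intro y i
    rw [hpt, he, eval_X]
  have hsub : ∀ (y : τ → Ω) i, eval y (∑ I ∈ expo (Fin (n + 1)) (d i),
      C (a i I) * ∏ s, sub s ^ I s) = Fval (d i) (a i) (pt y) := by
    intro y i
    rw [map_sum]
    unfold Fval mon
    refine Finset.sum_congr rfl fun I _ => ?_
    rw [map_mul, eval_C, map_prod]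
    congr 1
    refine Finset.prod_congr rfl fun s _ => ?_
    rw [map_pow, hpt]
  obtain ⟨y, hy0, hy⟩ := exists_common_zero (k := Ω) (τ := τ) (q := p) hc
    (fun i => ∑ I ∈ expo (Fin (n + 1)) (d i), C (a i I) * ∏ s, sub s ^ I s) (fun i => by
      rw [hsub]
      have h0 : pt 0 = fun i : Fin (n + 1) => (0 : Ω) * (fun _ => (1 : Ω)) i := by
        funext s
        rw [zero_mul]
        rcases hcov s with ⟨i', rfl⟩ | ⟨i', rfl⟩
        · rw [hptj, Pi.zero_apply, mul_zero]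
        · rw [hptn 0 i', Pi.zero_apply]
      rw [h0, Fval_smul, zero_pow (by have := hd i; omega), zero_mul])
  have hyF : ∀ i, Fval (d i) (a i) (pt y) = 0 := fun i => by rw [← hsub]; exact hy i
  have hyl : y l ≠ 0 := by
    intro h0
    apply hy0
    have h1 := hno (pt y) (by rw [hptn y l]; exact h0)
      (fun i => by rw [hptj, h0, mul_zero]) hyF
    funext i
    rw [← hptn y i, h1]
    rfl
  refine ⟨fun i => (y l)⁻¹ * pt y i, ?_, ?_, ?_⟩
  · show (y l)⁻¹ * pt y (e l) = 1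
    rw [hptn y l]
    exact inv_mul_cancel₀ hyl
  · intro i
    rw [Fval_smul, hyF i, mul_zero]
  · intro i
    show (y l)⁻¹ * pt y (j i) = t i
    rw [hptj, mul_comm (t i), ← mul_assoc, inv_mul_cancel₀ hyl, one_mul]

/-- points of a complete intersection with given coordinates -/
theorem exists_zero_overP {Ω : Type*} [Field Ω] [IsAlgClosed Ω] {n R p : ℕ}
    (hn : R + 2 + p = n + 1) {d : Fin p → ℕ} (hd : ∀ i, 1 ≤ d i)
    {a : Fin p → (Fin (n + 1) →₀ ℕ) → Ω} {l : Fin (n + 1)} {j : Fin (R + 1) → Fin (n + 1)}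
    (hj : Function.Injective j) (hl : ∀ i, j i ≠ l)
    (hno : ∀ y : Fin (n + 1) → Ω, y l = 0 → (∀ i, y (j i) = 0) → (∀ i, Fval (d i) (a i) y = 0) →
      y = 0) (t : Fin (R + 1) → Ω) :
    ∃ x : Fin (n + 1) → Ω, x l = 1 ∧ (∀ i, Fval (d i) (a i) x = 0) ∧ ∀ i, x (j i) = t i := by
  classical
  have hcard : p < Nat.card {i : Fin (n + 1) // i ∉ Set.range j} := by
    rw [Nat.card_eq_fintype_card]
    have h2 : Fintype.card {i : Fin (n + 1) // i ∈ Set.range j} = Fintype.card (Fin (R + 1)) :=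
      (Fintype.card_congr (Equiv.ofInjective j hj)).symm
    have h1 := Fintype.card_subtype_compl (fun i : Fin (n + 1) => i ∈ Set.range j)
    rw [h1, h2, Fintype.card_fin, Fintype.card_fin]
    omega
  have hlτ : l ∉ Set.range j := by
    rintro ⟨i, hi⟩
    exact hl i hi
  obtain ⟨sub, hsub⟩ : ∃ sub : Fin (n + 1) → MvPolynomial {i : Fin (n + 1) // i ∉ Set.range j} Ω,
      ∀ i, sub i = if h : i ∈ Set.range j then C (t h.choose) * X ⟨l, hlτ⟩ else X ⟨i, h⟩ :=
    ⟨_, fun _ => rfl⟩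
  refine zero_aux hd t hcard (e := Subtype.val) (l := ⟨l, hlτ⟩) (sub := sub) hno ?_ ?_ ?_
  · intro i
    have h : j i ∈ Set.range j := ⟨i, rfl⟩
    have h1 : h.choose = i := hj h.choose_spec
    rw [hsub, dif_pos h, h1]
  · intro s
    rw [hsub, dif_neg s.2]
  · intro s
    by_cases h : s ∈ Set.range j
    · exact Or.inl h
    · exact Or.inr ⟨⟨s, h⟩, rfl⟩

/-- a point of the complete intersection, outside of the exceptional locus -/
theorem exists_zero_neΩ {k K Ω : Type*} [Field k] [Field K] [CharZero K] [Algebra k K] [Field Ω]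
    [IsAlgClosed Ω] [Algebra K Ω] [Algebra k Ω] [IsScalarTower k K Ω] {n R p : ℕ}
    (hn : R + 2 + p = n + 1) {d : Fin p → ℕ} (hd : ∀ i, 1 ≤ d i)
    {a : Fin p → (Fin (n + 1) →₀ ℕ) → K}
    (ha : AlgebraicIndependent k (fun s : {s // s ∈ jexpo n d} => a s.1.1 s.1.2))
    {l : Fin (n + 1)} {j : Fin (R + 1) → Fin (n + 1)}
    (hj : Function.Injective j) (hl : ∀ i, j i ≠ l) {g : MvPolynomial (Fin (R + 1)) K}
    (hg : g ≠ 0) :
    ∃ x : Fin (n + 1) → Ω, x l = 1 ∧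
      (∀ i, Fval (d i) (fun I => algebraMap K Ω (a i I)) x = 0) ∧
      aeval (fun i : Fin (R + 1) => x (j i)) g ≠ 0 := by
  classical
  obtain ⟨u, hu⟩ : ∃ u : Fin (R + 1) → K, MvPolynomial.eval u g ≠ 0 := by
    by_contra hcon
    push Not at hcon
    exact hg (MvPolynomial.funext fun u => by rw [hcon u, map_zero])
  obtain ⟨b, hb⟩ : ∃ b : Fin p → (Fin (n + 1) →₀ ℕ) → Ω, ∀ i I, b i I = algebraMap K Ω (a i I) :=
    ⟨_, fun _ _ => rfl⟩
  have ha' : AlgebraicIndependent k (fun s : {s // s ∈ jexpo n d} => b s.1.1 s.1.2) := by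
    have h1 := ha.map' (f := IsScalarTower.toAlgHom k K Ω) (algebraMap K Ω).injective
    have h2 : (fun s : {s // s ∈ jexpo n d} => b s.1.1 s.1.2) =
        (IsScalarTower.toAlgHom k K Ω) ∘ fun s : {s // s ∈ jexpo n d} => a s.1.1 s.1.2 := by
      funext s
      rw [hb]
      rfl
    rw [h2]
    exact h1
  obtain ⟨Λ, hΛ⟩ : ∃ Λ : Finset (Fin (n + 1)),
      Λ = (Finset.univ.erase l) \ (Finset.univ.image j) := ⟨_, rfl⟩
  have hsubs : Finset.univ.image j ⊆ Finset.univ.erase l := by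
    intro s hs
    obtain ⟨i, -, rfl⟩ := Finset.mem_image.1 hs
    exact Finset.mem_erase.2 ⟨hl i, Finset.mem_univ _⟩
  have hΛc : Λ.card ≤ p := by
    have h1 := Finset.card_sdiff_of_subset hsubs
    rw [Finset.card_erase_of_mem (Finset.mem_univ l), Finset.card_image_of_injective _ hj,
      Finset.card_univ, Finset.card_univ, Fintype.card_fin, Fintype.card_fin, ← hΛ] at h1
    omega
  have hno : ∀ y : Fin (n + 1) → Ω, y l = 0 → (∀ i, y (j i) = 0) →
      (∀ i, Fval (d i) (b i) y = 0) → y = 0 := by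
    intro y hyl hyj hyF
    refine no_zero_of_indep ha' hΛc (fun s hs => ?_) hyF
    rw [hΛ, Finset.mem_sdiff, not_and_or, not_not] at hs
    rcases hs with hs | hs
    · have : s = l := by
        by_contra hne
        exact hs (Finset.mem_erase.2 ⟨hne, Finset.mem_univ _⟩)
      rw [this, hyl]
    · obtain ⟨i, -, rfl⟩ := Finset.mem_image.1 hs
      exact hyj i
  obtain ⟨x, h1, h2, h3⟩ := exists_zero_overP hn hd hj hl hno (fun i => algebraMap K Ω (u i))
  refine ⟨x, h1, fun i => ?_, ?_⟩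
  · have h4 : (fun I => algebraMap K Ω (a i I)) = b i := funext fun I => (hb i I).symm
    rw [h4]
    exact h2 i
  have h4 : (fun i : Fin (R + 1) => x (j i)) = fun i => algebraMap K Ω (u i) := funext h3
  have h5 : aeval (fun i => algebraMap K Ω (u i)) g = algebraMap K Ω (aeval u g) :=
    MvPolynomial.aeval_algebraMap_apply Ω u g
  have h6 : aeval u g = MvPolynomial.eval u g := by
    rw [← MvPolynomial.coe_aeval_eq_eval]
    rfl
  rw [h4, h5, h6]
  exact (map_ne_zero _).2 hu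

end Pool.Agent.Lib.MP_44a246_ntSH
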