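import Mathlib
import Pool.Agent.Lib.MP_44a246_ntU.U17
import Pool.Agent.Lib.MP_44a246_ntSH.CW06
import Pool.Agent.Lib.MP_44a246_ntSH.CW07a

/-!
The exceptional form for the points of a complete intersection on curves which span a large space.
-/

namespace Pool.Agent.Lib.MP_44a246_ntSH

open Pool.Agent.Lib.MP_e52354_nt
open Pool.Agent.Lib.MP_44a246_nt
open Pool.Agent.Lib.MP_44a246_ntU
open Pool.Agent.Lib.MP_44a246_ntK (jexpo mem_jexpo)
open MvPolynomial

universe v w

/-- descent of the vanishing from an extension `Ω` of `L` to `L` -/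
theorem aeval_eq_zero_of_overP {K : Type*} [Field K] {L Ω : Type*} [Field L] [Field Ω]
    [Algebra K L] [Algebra K Ω] [Algebra L Ω] [IsScalarTower K L Ω] {n R E : ℕ}
    {G : MvPolynomial (Fin (n + 1)) K} {g : MvPolynomial (Fin (R + 1)) K} {l : Fin (n + 1)}
    {j : Fin (R + 1) → Fin (n + 1)}
    (hG : ∀ y : Fin (n + 1) → Ω, (y l = 0 → aeval y G = 0) ∧
      (y l ≠ 0 → aeval y G = y l ^ E * aeval (fun i : Fin (R + 1) => y (j i) / y l) g))
    (x : Fin (n + 1) → L)
    (hg : algebraMap L Ω (x l) ≠ 0 → aeval (fun i : Fin (R + 1) =>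
      algebraMap L Ω (x (j i)) / algebraMap L Ω (x l)) g = 0) : aeval x G = 0 := by
  have h4 : aeval (fun i => algebraMap L Ω (x i)) G = algebraMap L Ω (aeval x G) :=
    (MvPolynomial.aeval_algebraMap_apply Ω x G)
  have h6 : aeval (fun i => algebraMap L Ω (x i)) G = 0 := by
    by_cases hl : algebraMap L Ω (x l) = 0
    · exact (hG (fun i => algebraMap L Ω (x i))).1 hl
    · rw [(hG (fun i => algebraMap L Ω (x i))).2 hl, hg hl, mul_zero]
  rw [h4] at h6
  exact (map_eq_zero _).1 h6

theorem aeval_form_eq_Fval {K L : Type*} [Field K] [Field L] [Algebra K L] {n d : ℕ}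
    (a : (Fin (n + 1) →₀ ℕ) → K) (z : Fin (n + 1) → L) :
    aeval z (∑ I ∈ expo (Fin (n + 1)) d, monomial I (a I)) =
      Fval d (fun I => algebraMap K L (a I)) z := by
  rw [map_sum]
  unfold Fval mon
  refine Finset.sum_congr rfl fun I _ => ?_
  rw [aeval_monomial, Finsupp.prod_fintype _ _ (fun i => pow_zero _)]

/-- **The exceptional form**, for the points over algebraic extensions. -/
theorem exists_excFormBP {k : Type*} {K : Type v} [Field k] [CharZero k] [Countable k] [Field K]
    [CharZero K] [Algebra k K] {R n p b N b' N' : ℕ} (hn : R + 2 + p = n + 1) {d : Fin p → ℕ}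
    (hd : ∀ i, 1 ≤ d i) (h : NoCertSP.{v} R n p d b N) (h' : NoCertSP.{v} R n p d b' N')
    {a : Fin p → (Fin (n + 1) →₀ ℕ) → K}
    (ha : AlgebraicIndependent k (fun s : ↥(jexpo n d) => a s.1.1 s.1.2)) :
    ∃ G : MvPolynomial (Fin (n + 1)) K, (∃ E, G.IsHomogeneous E) ∧
      (∃ z : Fin (n + 1) → AlgebraicClosure K, z ≠ 0 ∧
        (∀ i, aeval z (∑ I ∈ expo (Fin (n + 1)) (d i), monomial I (a i I)) = 0) ∧
        aeval z G ≠ 0) ∧
      ∀ (L : Type w) [Field L] [Algebra K L] [Algebra.IsAlgebraic K L] (x : Fin (n + 1) → L),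
        CertSP d (fun i I => algebraMap K L (a i I)) b N x ∨
          CertSP d (fun i I => algebraMap K L (a i I)) b' N' x → aeval x G = 0 := by
  classical
  obtain ⟨j, hj⟩ : ∃ j : Fin (R + 1) → Fin (n + 1), ∀ i, (j i).1 = i.1 + 1 :=
    ⟨fun i => ⟨i.1 + 1, by omega⟩, fun _ => rfl⟩
  have hji : Function.Injective j := by
    intro i i' hii
    have h1 := hj i
    rw [hii, hj i'] at h1
    exact Fin.ext (by omega)
  have hj0 : ∀ i, j i ≠ 0 := by
    intro i h0
    have h1 := hj i
    rw [h0] at h1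
    simp at h1
  obtain ⟨g₁, hg₁0, hg₁⟩ := exists_excSP (L := AlgebraicClosure K) h ha 0 j
  obtain ⟨g₂, hg₂0, hg₂⟩ := exists_excSP (L := AlgebraicClosure K) h' ha 0 j
  obtain ⟨E, G, hGh, hG⟩ := exists_homogV.{v, v} (g₁ * g₂) (0 : Fin (n + 1)) j
  refine ⟨G, ⟨E, hGh⟩, ?_, ?_⟩
  · obtain ⟨z, hz0, hzF, hzg⟩ := exists_zero_neΩ (Ω := AlgebraicClosure K) hn hd ha hji hj0
      (mul_ne_zero hg₁0 hg₂0)
    refine ⟨z, fun h => ?_, fun i => ?_, ?_⟩
    · rw [h] at hz0
      exact zero_ne_one hz0
    · rw [aeval_form_eq_Fval]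
      exact hzF i
    · have h1 := (hG z).2 (by rw [hz0]; exact one_ne_zero)
      rw [h1, hz0, one_pow, one_mul]
      simp only [div_one]
      exact hzg
  · intro L _ _ _ x hx
    have hcL : CharZero L := charZero_of_injective_algebraMap (algebraMap K L).injective
    let φ : L →ₐ[K] AlgebraicClosure K := IsAlgClosed.lift
    let _ : Algebra L (AlgebraicClosure K) := φ.toRingHom.toAlgebra
    have t : IsScalarTower K L (AlgebraicClosure K) :=
      IsScalarTower.of_algebraMap_eq fun u => (φ.commutes u).symm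
    have hal : Algebra.IsAlgebraic L (AlgebraicClosure K) := Algebra.IsAlgebraic.tower_top (K := K) L
    refine aeval_eq_zero_of_overP (Ω := AlgebraicClosure K) (fun y => hG y) x fun hl => ?_
    rw [map_mul]
    rcases hx with hx | hx
    · have h1 := certSP_mp (F := AlgebraicClosure K) hx
      have h2 := certSP_congr (a' := fun i I => algebraMap K (AlgebraicClosure K) (a i I))
        (fun i I _ => (IsScalarTower.algebraMap_apply K L (AlgebraicClosure K) (a i I)).symm) h1
      rw [hg₁ _ h2 hl, zero_mul]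
    · have h1 := certSP_mp (F := AlgebraicClosure K) hx
      have h2 := certSP_congr (a' := fun i I => algebraMap K (AlgebraicClosure K) (a i I))
        (fun i I _ => (IsScalarTower.algebraMap_apply K L (AlgebraicClosure K) (a i I)).symm) h1
      rw [hg₂ _ h2 hl, mul_zero]

end Pool.Agent.Lib.MP_44a246_ntSH
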