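import Mathlib
import Pool.Agent.Lib.MP_44a246_ntD.D20
import Pool.Agent.Lib.MP_44a246_ntU.U13
import Pool.Agent.Lib.MP_44a246_ntSH.CV08

/-!
Theorem E' for a point with algebraically independent coordinates over an algebraically closed
field.
-/

namespace Pool.Agent.Lib.MP_44a246_ntSH

open Pool.Agent.Lib.MP_44a246_ntD
open Pool.Agent.Lib.MP_e52354_nt
open Pool.Agent.Lib.MP_44a246_nt
open Pool.Agent.Lib.MP_44a246_ntL
open Pool.Agent.Lib.MP_44a246_ntS
open Pool.Agent.Lib.MP_44a246_ntG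
open Pool.Agent.Lib.MP_44a246_ntU
open Module

universe u

/-- **Theorem E'** over an algebraically closed field -/
theorem no_certS_closed {κ : Type u} [Field κ] [IsAlgClosed κ] [CharZero κ] {k : Type*} [Field k]
    [CharZero k] [Algebra k κ] {R d b N i : ℕ}
    (hd : R + 4 ≤ d) (hN : 2 ^ i * (2 * b) ≤ 3 ^ i * N) (hi : 6 * 2 ^ i ≤ R + 2)
    {a : (Fin (R + 3) →₀ ℕ) → κ}
    (ha : AlgebraicIndependent k (fun I : ↥(expo (Fin (R + 3)) d) => a I.1))
    {k₂ : Type*} [Field k₂] [CharZero k₂] [Algebra k₂ κ]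
    {a₂ : (Fin (R + 3) →₀ ℕ) → k₂}
    (ha₂ : ∀ I ∈ expo (Fin (R + 3)) d, algebraMap k₂ κ (a₂ I) = a I)
    {x : Fin (R + 3) → κ} {l : Fin (R + 3)} (hl : x l ≠ 0) {j : Fin (R + 1) → Fin (R + 3)}
    (hind : AlgebraicIndependent k₂ (fun i : Fin (R + 1) => x (j i) / x l)) :
    ¬ CertS (n := R + 2) d a b (N + 1) x := by
  classical
  choose δ hδ using fun i : Fin (R + 1) =>
    exists_der_indepV hind (fun i' => if i = i' then 1 else 0)
  choose W hW using fun I : Fin (R + 3) →₀ ℕ => exists_der_indepV ha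
    (fun J => if I = J.1 then (1 : κ) else 0)
  refine no_certS_der hd hN hi W (fun I _ J hJ => (hW I).2 ⟨J, hJ⟩) δ (fun i I hI => ?_)
    (indep_pointE (j := j) hl δ fun i i' => (hδ i).2 i')
  rw [← ha₂ I hI]
  exact (hδ i).1 _

end Pool.Agent.Lib.MP_44a246_ntSH
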