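import Mathlib
import Pool.Agent.Lib.MP_44a246_ntD.D10
import Pool.Agent.Lib.MP_44a246_ntC.C19
import Pool.Agent.Lib.MP_44a246_ntU.U15
import Pool.Agent.Lib.MP_44a246_ntQ.Q10
import Pool.Agent.Lib.MP_44a246_ntSH.CV07
import Pool.Agent.Lib.MP_44a246_ntSH.CV09

/-!
Compactness for Theorem E'.
-/

namespace Pool.Agent.Lib.MP_44a246_ntSH

open Pool.Agent.Lib.MP_44a246_ntC
open Pool.Agent.Lib.MP_44a246_ntD
open Pool.Agent.Lib.MP_44a246_ntQ
open Pool.Agent.Lib.MP_e52354_nt
open Pool.Agent.Lib.MP_44a246_nt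
open Pool.Agent.Lib.MP_44a246_ntL
open Pool.Agent.Lib.MP_44a246_ntS
open Pool.Agent.Lib.MP_44a246_ntG
open Pool.Agent.Lib.MP_44a246_ntU

/-- The contradiction in the algebraic closure of the ultrapower. -/
private theorem excS_aux {k k₂ L : Type*} [Field k] [CharZero k] [Field k₂] [CharZero k₂]
    [Field L] [CharZero L] [Algebra k k₂] [Algebra k₂ L]
    {R d b N i : ℕ}
    (hd : R + 4 ≤ d) (hN : 2 ^ i * (2 * b) ≤ 3 ^ i * N) (hi : 6 * 2 ^ i ≤ R + 2)
    {a : (Fin (R + 3) →₀ ℕ) → k₂}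
    (ha : AlgebraicIndependent k (fun I : ↥(expo (Fin (R + 3)) d) => a I.1))
    {l : Fin (R + 3)} {j : Fin (R + 1) → Fin (R + 3)}
    {z : ℕ → Fin (R + 1) → L} {x : ℕ → Fin (R + 3) → L}
    (hz : ∀ H : MvPolynomial (Fin (R + 1)) k₂, H ≠ 0 →
      ∃ N₀, ∀ N ≥ N₀, MvPolynomial.aeval (z N) H ≠ 0)
    (hx1 : ∀ t, CertS (n := R + 2) d (fun I => algebraMap k₂ L (a I)) b (N + 1) (x t))
    (hx2 : ∀ t, x t l = 1) (hx3 : ∀ t i, z t i = x t (j i)) : False := by
  have hcU : CharZero (UP L) := charZero_of_injective_ringHom (constHom (L := L)).injective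
  have hcΩ : CharZero (AlgebraicClosure (UP L)) :=
    charZero_of_injective_ringHom (algebraMap (UP L) (AlgebraicClosure (UP L))).injective
  have hcert := certS_mp (F := AlgebraicClosure (UP L)) (certS_germ hx1)
  obtain ⟨ψ, hψd⟩ : ∃ ψ : UP L →+* AlgebraicClosure (UP L),
    ψ = algebraMap (UP L) (AlgebraicClosure (UP L)) := ⟨_, rfl⟩
  rw [← hψd] at hcert
  let _ : Algebra k₂ (AlgebraicClosure (UP L)) :=
    (ψ.comp (constHom.comp (algebraMap k₂ L))).toAlgebra
  let _ : Algebra k (AlgebraicClosure (UP L)) :=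
    ((algebraMap k₂ (AlgebraicClosure (UP L))).comp (algebraMap k k₂)).toAlgebra
  have t : IsScalarTower k k₂ (AlgebraicClosure (UP L)) :=
    IsScalarTower.of_algebraMap_eq fun u => rfl
  have hψ : ∀ u : k₂, ψ (constHom (algebraMap k₂ L u)) =
    algebraMap k₂ (AlgebraicClosure (UP L)) u := fun u => rfl
  have hx0 : germHom (fun N => x N l) = 1 := by
    have : (fun N => x N l) = 1 := funext fun N => hx2 N
    rw [this, map_one]
  refine no_certS_closed hd hN hi (k := k) (k₂ := k₂) (a₂ := a) (l := l) (j := j) ?_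
    (fun I _ => rfl) ?_ ?_ hcert
  · exact ha.map' (f := IsScalarTower.toAlgHom k k₂ (AlgebraicClosure (UP L)))
      (algebraMap k₂ (AlgebraicClosure (UP L))).injective
  · show ψ (germHom (fun N => x N l)) ≠ 0
    rw [hx0, map_one]
    exact one_ne_zero
  · have h1 := algIndep_germV ψ hψ (z := z) hz
    convert h1 using 1
    funext i
    show ψ (germHom (fun N => x N (j i))) / ψ (germHom (fun N => x N l)) =
      ψ (germHom (fun N => z N i))
    rw [hx0, map_one, div_one]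
    congr 2
    funext N
    exact (hx3 N i).symm

/-- **Compactness.** -/
theorem exists_excS {k K L : Type*} [Field k] [CharZero k] [Countable k] [Field K] [CharZero K]
    [Field L] [CharZero L] [Algebra k K] [Algebra K L]
    {R d b N i : ℕ}
    (hd : R + 4 ≤ d) (hN : 2 ^ i * (2 * b) ≤ 3 ^ i * N) (hi : 6 * 2 ^ i ≤ R + 2)
    {a : (Fin (R + 3) →₀ ℕ) → K}
    (ha : AlgebraicIndependent k (fun I : ↥(expo (Fin (R + 3)) d) => a I.1))
    (l : Fin (R + 3)) (j : Fin (R + 1) → Fin (R + 3)) :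
    ∃ g : MvPolynomial (Fin (R + 1)) K, g ≠ 0 ∧ ∀ x : Fin (R + 3) → L,
      CertS (n := R + 2) d (fun I => algebraMap K L (a I)) b (N + 1) x → x l ≠ 0 →
        MvPolynomial.aeval (fun i => x (j i) / x l) g = 0 := by
  classical
  let _ : Algebra k L := ((algebraMap K L).comp (algebraMap k K)).toAlgebra
  have tkL : IsScalarTower k K L := IsScalarTower.of_algebraMap_eq fun _ => rfl
  -- the field of the coefficients
  set k₂ : IntermediateField k K := IntermediateField.adjoin k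
    (Set.range fun I : ↥(expo (Fin (R + 3)) d) => a I.1) with hk₂
  have hc2 : Countable k₂ := countable_adjoin _
  obtain ⟨a₂, ha₂⟩ : ∃ a₂ : (Fin (R + 3) →₀ ℕ) → k₂,
      ∀ I ∈ expo (Fin (R + 3)) d, (a₂ I : K) = a I :=
    ⟨fun I => if hI : I ∈ expo (Fin (R + 3)) d then ⟨a I,
      IntermediateField.subset_adjoin k _ ⟨⟨I, hI⟩, rfl⟩⟩ else 0,
      fun I hI => by simp only [dif_pos hI]⟩
  have ha' : AlgebraicIndependent k (fun I : ↥(expo (Fin (R + 3)) d) => a₂ I.1) := by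
    refine AlgebraicIndependent.of_comp k₂.val ?_
    have h1 : (k₂.val ∘ fun I : ↥(expo (Fin (R + 3)) d) => a₂ I.1) =
        fun I : ↥(expo (Fin (R + 3)) d) => a I.1 := by
      funext I
      exact ha₂ I.1 I.2
    rw [h1]
    exact ha
  set S : Set (Fin (R + 1) → L) := {z | ∃ x : Fin (R + 3) → L,
    CertS (n := R + 2) d (fun I => algebraMap K L (a I)) b (N + 1) x ∧ x l = 1 ∧
      ∀ i : Fin (R + 1), z i = x (j i)} with hS
  have key : ∃ g : MvPolynomial (Fin (R + 1)) K, g ≠ 0 ∧ ∀ z ∈ S, MvPolynomial.aeval z g = 0 := by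
    by_contra hcon
    push Not at hcon
    obtain ⟨z, hzS, hz⟩ := exists_generic_seqC (k := k₂) (L := L) (S := S) fun g hg => by
      obtain ⟨z, hz1, hz2⟩ := hcon g hg
      exact ⟨z, hz1, hz2⟩
    choose x hx1 hx2 hx3 using hzS
    refine excS_aux (k := k) (a := a₂) (l := l) (j := j) (z := z) (x := x) hd hN hi ha' hz
      (fun t => ?_) hx2 hx3
    refine certS_congr (fun I hI => ?_) (hx1 t)
    rw [← ha₂ I hI]
    rfl
  obtain ⟨g, hg0, hg⟩ := key
  refine ⟨g, hg0, fun x hx hx0 => ?_⟩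
  exact hg _ ⟨fun k => (x l)⁻¹ * x k, (certS_smul (inv_ne_zero hx0)).2 hx,
    inv_mul_cancel₀ hx0, fun i => div_eq_inv_mul _ _⟩

end Pool.Agent.Lib.MP_44a246_ntSH
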