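import Mathlib
import Pool.Agent.Lib.MP_44a246_ntU.U17
import Pool.Agent.Lib.MP_44a246_ntI.I10
import Pool.Agent.Lib.MP_44a246_ntSH.CV10

/-!
The exceptional form, for the points on curves of small degree and for the points on curves which
span a large space.
-/

namespace Pool.Agent.Lib.MP_44a246_ntSH

open Pool.Agent.Lib.MP_e52354_nt
open Pool.Agent.Lib.MP_44a246_nt
open Pool.Agent.Lib.MP_44a246_ntL
open Pool.Agent.Lib.MP_44a246_ntS
open Pool.Agent.Lib.MP_44a246_ntG
open Pool.Agent.Lib.MP_44a246_ntU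
open Pool.Agent.Lib.MP_44a246_ntQ (formOf)
open Pool.Agent.Lib.MP_44a246_ntK (wtP aWP substP jexpo mem_jexpo)
open Pool.Agent.Lib.MP_44a246_ntR (imI JRank)
open Pool.Agent.Lib.MP_44a246_ntE (CertW certW_map certW_congr)
open MvPolynomial

universe v w

/-- points of the hypersurface with given coordinates -/
theorem exists_zero_over {K Ω : Type*} [Field K] [Field Ω] [IsAlgClosed Ω] [Algebra K Ω] {R d : ℕ}
    (hd : 1 ≤ d) {a : (Fin (R + 3) →₀ ℕ) → K}
    (ha : a (Finsupp.single (Fin.last (R + 2)) d) ≠ 0) (t : Fin (R + 1) → Ω) :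
    ∃ x : Fin (R + 3) → Ω, x 0 = 1 ∧
      aeval x (∑ I ∈ expo (Fin (R + 3)) d, monomial I (a I)) = 0 ∧
      ∀ i : Fin (R + 1), x i.castSucc.succ = t i := by
  classical
  let v : Fin (R + 3) → Polynomial Ω :=
    Fin.snoc (Fin.cons 1 (fun i => Polynomial.C (t i)) : Fin (R + 2) → Polynomial Ω) Polynomial.X
  have hv0 : ∀ i : Fin (R + 2), (v i.castSucc).natDegree = 0 := by
    intro i
    show (Fin.snoc (α := fun _ => Polynomial Ω) _ _ i.castSucc).natDegree = 0
    rw [Fin.snoc_castSucc]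
    refine Fin.cases ?_ (fun i => ?_) i
    · rw [Fin.cons_zero, Polynomial.natDegree_one]
    · rw [Fin.cons_succ, Polynomial.natDegree_C]
  have hvl : v (Fin.last (R + 2)) = Polynomial.X := Fin.snoc_last _ _
  set P : Polynomial Ω := aeval v (∑ I ∈ expo (Fin (R + 3)) d, monomial I (a I)) with hP
  have hPs : P = ∑ I ∈ expo (Fin (R + 3)) d,
      Polynomial.C (algebraMap K Ω (a I)) * (∏ i : Fin (R + 2), v i.castSucc ^ I i.castSucc) *
        Polynomial.X ^ I (Fin.last (R + 2)) := by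
    rw [hP, map_sum]
    refine Finset.sum_congr rfl fun I _ => ?_
    rw [aeval_monomial, Finsupp.prod_fintype _ _ (fun i => pow_zero _), Fin.prod_univ_castSucc,
      hvl, mul_assoc]
    rfl
  have hcoef : P.coeff d = algebraMap K Ω (a (Finsupp.single (Fin.last (R + 2)) d)) := by
    rw [hPs, Polynomial.finsetSum_coeff,
      Finset.sum_eq_single (Finsupp.single (Fin.last (R + 2)) d)]
    · rw [Finsupp.single_eq_same]
      have h1 : ∏ i : Fin (R + 2), v i.castSucc ^
          (Finsupp.single (Fin.last (R + 2)) d : Fin (R + 3) →₀ ℕ) i.castSucc = 1 := by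
        refine Finset.prod_eq_one fun i _ => ?_
        rw [Finsupp.single_eq_of_ne (Fin.castSucc_lt_last i).ne, pow_zero]
      rw [h1, mul_one, Polynomial.coeff_C_mul, Polynomial.coeff_X_pow, if_pos rfl, mul_one]
    · intro I hI hne
      obtain ⟨q, hq⟩ : ∃ q : Ω, Polynomial.C (algebraMap K Ω (a I)) *
          (∏ i : Fin (R + 2), v i.castSucc ^ I i.castSucc) = Polynomial.C q := by
        refine ⟨_, Polynomial.eq_C_of_natDegree_eq_zero ?_⟩
        refine Nat.le_zero.1 (Polynomial.natDegree_mul_le.trans ?_)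
        rw [Polynomial.natDegree_C, zero_add]
        refine (Polynomial.natDegree_prod_le _ _).trans ?_
        refine le_of_eq (Finset.sum_eq_zero fun i _ => ?_)
        rw [Polynomial.natDegree_pow, hv0, mul_zero]
      rw [hq, Polynomial.coeff_C_mul, Polynomial.coeff_X_pow, if_neg, mul_zero]
      intro hd'
      apply hne
      have h2 := mem_expo.1 hI
      rw [Finsupp.degree_eq_sum, Fin.sum_univ_castSucc, ← hd'] at h2
      have h3 : ∑ i : Fin (R + 2), I i.castSucc = 0 := by omega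
      ext i
      refine Fin.lastCases ?_ (fun i => ?_) i
      · rw [Finsupp.single_eq_same, hd']
      · rw [Finsupp.single_eq_of_ne (Fin.castSucc_lt_last i).ne]
        exact (Finset.sum_eq_zero_iff.1 h3) i (Finset.mem_univ i)
    · intro h
      exfalso
      apply h
      rw [mem_expo, Finsupp.degree_single]
  have hcoef0 : P.coeff d ≠ 0 := by
    rw [hcoef]
    exact (map_ne_zero _).2 ha
  have hdeg : P.degree ≠ 0 := by
    intro h
    have h1 : d ≤ P.natDegree := Polynomial.le_natDegree_of_ne_zero hcoef0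
    have h2 : P.natDegree = 0 := Polynomial.natDegree_eq_zero_iff_degree_le_zero.2 (le_of_eq h)
    omega
  obtain ⟨y, hy⟩ := IsAlgClosed.exists_root P hdeg
  refine ⟨fun k => Polynomial.eval y (v k), ?_, ?_, ?_⟩
  · show Polynomial.eval y (v 0) = 1
    have h1 : v 0 = 1 := by
      have h2 : (0 : Fin (R + 3)) = Fin.castSucc 0 := rfl
      rw [h2]
      show Fin.snoc (α := fun _ => Polynomial Ω) _ _ (Fin.castSucc 0) = 1
      rw [Fin.snoc_castSucc, Fin.cons_zero]
    rw [h1, Polynomial.eval_one]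
  · have h1 : aeval (fun k => Polynomial.eval y (v k))
        (∑ I ∈ expo (Fin (R + 3)) d, monomial I (a I)) = Polynomial.eval y P := by
      rw [hP, ← Polynomial.coe_evalRingHom, aeval_def, aeval_def, hom_eval₂]
      congr 1
      ext c
      exact (Polynomial.eval_C).symm
    rw [h1]
    exact hy
  · intro i
    have h2 : i.castSucc.succ = (i.succ).castSucc := rfl
    show Polynomial.eval y (v i.castSucc.succ) = t i
    rw [h2]
    have h3 : v (i.succ).castSucc = Polynomial.C (t i) := by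
      show Fin.snoc (α := fun _ => Polynomial Ω) _ _ (i.succ).castSucc = _
      rw [Fin.snoc_castSucc, Fin.cons_succ]
    rw [h3, Polynomial.eval_C]

/-- a point of the hypersurface, outside of the exceptional locus -/
theorem exists_zero_ne {K : Type*} [Field K] [CharZero K] {R d : ℕ}
    (hd : 1 ≤ d) {a : (Fin (R + 3) →₀ ℕ) → K}
    (ha : a (Finsupp.single (Fin.last (R + 2)) d) ≠ 0) {g : MvPolynomial (Fin (R + 1)) K}
    (hg : g ≠ 0) :
    ∃ x : Fin (R + 3) → AlgebraicClosure K, x 0 = 1 ∧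
      aeval x (∑ I ∈ expo (Fin (R + 3)) d, monomial I (a I)) = 0 ∧
      aeval (fun i : Fin (R + 1) => x i.castSucc.succ) g ≠ 0 := by
  obtain ⟨u, hu⟩ : ∃ u : Fin (R + 1) → K, MvPolynomial.eval u g ≠ 0 := by
    by_contra hcon
    push Not at hcon
    exact hg (MvPolynomial.funext fun u => by rw [hcon u, map_zero])
  obtain ⟨x, h1, h2, h3⟩ := exists_zero_over hd ha
    (fun i => algebraMap K (AlgebraicClosure K) (u i))
  refine ⟨x, h1, h2, ?_⟩
  have h4 : (fun i : Fin (R + 1) => x i.castSucc.succ) =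
      fun i => algebraMap K (AlgebraicClosure K) (u i) := funext h3
  have h5 : aeval (fun i => algebraMap K (AlgebraicClosure K) (u i)) g =
      algebraMap K (AlgebraicClosure K) (aeval u g) :=
    MvPolynomial.aeval_algebraMap_apply (AlgebraicClosure K) u g
  have h6 : aeval u g = MvPolynomial.eval u g := by
    rw [← MvPolynomial.coe_aeval_eq_eval]
    rfl
  rw [h4, h5, h6]
  exact (map_ne_zero _).2 hu

/-- descent of the vanishing from an extension `Ω` of `L` to `L` -/
theorem aeval_eq_zero_of_over {K : Type*} [Field K] {L Ω : Type*} [Field L] [Field Ω]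
    [Algebra K L] [Algebra K Ω] [Algebra L Ω] [IsScalarTower K L Ω] {R E : ℕ}
    {G : MvPolynomial (Fin (R + 3)) K} {g : MvPolynomial (Fin (R + 1)) K}
    (hG : ∀ y : Fin (R + 3) → Ω, (y 0 = 0 → aeval y G = 0) ∧
      (y 0 ≠ 0 → aeval y G = y 0 ^ E * aeval (fun i : Fin (R + 1) => y i.castSucc.succ / y 0) g))
    (x : Fin (R + 3) → L)
    (hg : algebraMap L Ω (x 0) ≠ 0 → aeval (fun i : Fin (R + 1) =>
      algebraMap L Ω (x i.castSucc.succ) / algebraMap L Ω (x 0)) g = 0) : aeval x G = 0 := by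
  have h4 : aeval (fun j => algebraMap L Ω (x j)) G = algebraMap L Ω (aeval x G) :=
    (MvPolynomial.aeval_algebraMap_apply Ω x G)
  have h6 : aeval (fun j => algebraMap L Ω (x j)) G = 0 := by
    by_cases hl : algebraMap L Ω (x 0) = 0
    · exact (hG (fun j => algebraMap L Ω (x j))).1 hl
    · rw [(hG (fun j => algebraMap L Ω (x j))).2 hl, hg hl, mul_zero]
  rw [h4] at h6
  exact (map_eq_zero _).1 h6

/-- the exceptional polynomial for the curves of small degree -/
theorem exists_excW1 {k K L : Type*} [Field k] [CharZero k] [Countable k] [Field K] [CharZero K]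
    [Field L] [CharZero L] [Algebra k K] [Algebra K L] [Algebra k L] [IsScalarTower k K L]
    {n m d b : ℕ} (hn : 2 ≤ n) (hm : m + 1 = n) (hd : n + 2 ≤ d) (hb : 8 * b ≤ d)
    {a : (Fin (n + 1) →₀ ℕ) → K}
    (ha : AlgebraicIndependent k (fun I : ↥(expo (Fin (n + 1)) d) => a I.1))
    (l : Fin (n + 1)) (j : Fin m → Fin (n + 1)) :
    ∃ g : MvPolynomial (Fin m) K, g ≠ 0 ∧ ∀ x : Fin (n + 1) → L,
      CertW (n := n) (fun _ : Unit => d) (fun _ I => algebraMap K L (a I)) b x → x l ≠ 0 →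
        MvPolynomial.aeval (fun i => x (j i) / x l) g = 0 := by
  classical
  obtain ⟨f, hfd⟩ : ∃ f : Unit → MvPolynomial (Fin 1 ⊕ Fin (n + 1)) k,
    f = fun _ => X (Sum.inl 0) := ⟨_, rfl⟩
  obtain ⟨dd, hdd⟩ : ∃ dd : Fin 1 → ℕ, dd = fun _ => d := ⟨_, rfl⟩
  obtain ⟨aa, haa⟩ : ∃ aa : Fin 1 → (Fin (n + 1) →₀ ℕ) → K, aa = fun _ => a := ⟨_, rfl⟩
  have hf : ∀ i, (f i).IsWeightedHomogeneous (wtP (n + 1) dd) ((fun _ : Unit => d) i) := by
    intro i
    rw [hfd, hdd]
    exact isWeightedHomogeneous_X k _ _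
  have hcard : ∀ B : Finset (Fin 1), B.card = 1 → ∑ j ∈ B, dd j = d := by
    intro B hB
    rw [hdd, Finset.sum_const, hB, one_smul]
  have hI : ringKrullDim (MvPolynomial (Fin (n + 1)) k ⧸ imI f) ≤ ((n + 1 : ℕ) : ℕ) := by
    refine (ringKrullDim_quotient_le _).trans ?_
    rw [MvPolynomial.ringKrullDim_of_isNoetherianRing, ringKrullDim_eq_zero_of_field, zero_add,
      Nat.card_eq_fintype_card, Fintype.card_fin]
  have hmem : ∀ s : {s // s ∈ jexpo n dd ∧ s ∉ (∅ : Finset (Fin 1 × (Fin (n + 1) →₀ ℕ)))},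
      s.1.2 ∈ expo (Fin (n + 1)) d := by
    intro s
    have h1 : s.1.2 ∈ expo (Fin (n + 1)) (dd s.1.1) := mem_jexpo.1 s.2.1
    have h2 : dd s.1.1 = d := congrFun hdd _
    rwa [h2] at h1
  have ha' : AlgebraicIndependent k (fun s : {s // s ∈ jexpo n dd ∧
      s ∉ (∅ : Finset (Fin 1 × (Fin (n + 1) →₀ ℕ)))} => aa s.1.1 s.1.2) := by
    obtain ⟨φ, hφ⟩ : ∃ φ : {s // s ∈ jexpo n dd ∧
        s ∉ (∅ : Finset (Fin 1 × (Fin (n + 1) →₀ ℕ)))} → ↥(expo (Fin (n + 1)) d),
        ∀ s, (φ s).1 = s.1.2 := ⟨fun s => ⟨s.1.2, hmem s⟩, fun s => rfl⟩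
    have hφi : Function.Injective φ := by
      intro s s' hss
      have h1 : s.1.2 = s'.1.2 := by rw [← hφ, ← hφ, hss]
      exact Subtype.ext (Prod.ext (Subsingleton.elim _ _) h1)
    have h1 := ha.comp φ hφi
    have h2 : (fun s : {s // s ∈ jexpo n dd ∧
        s ∉ (∅ : Finset (Fin 1 × (Fin (n + 1) →₀ ℕ)))} => aa s.1.1 s.1.2) =
        (fun I : ↥(expo (Fin (n + 1)) d) => a I.1) ∘ φ := by
      funext s
      rw [haa]
      show a s.1.2 = a (φ s).1
      rw [hφ]
    rw [h2]
    exact h1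
  obtain ⟨g, hg0, hg⟩ := Pool.Agent.Lib.MP_44a246_ntI.exists_excW (k := k) (K := K) (L := L)
    (n := n) (m := m) (p := 1) (r := n) (b := b) (s := 0) (ρ := 1)
    (d := dd) hn (fun B hB => by rw [hcard B hB]; omega)
    (fun B hB => by rw [hcard B hB]; omega) (fun B hB => by rw [hcard B hB]; omega)
    (fun i => by rw [hdd]; show 2 * b ≤ d; omega) (e := fun _ : Unit => d) (f := f) hf hI (a := aa)
    (P := ∅) (by rw [Finset.card_empty]) ha' l j
  refine ⟨g, hg0, fun x hx hx0 => hg x ?_ ?_ hx0⟩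
  · refine certW_congr (fun i I hIe => ?_) hx
    subst hdd
    subst haa
    subst hfd
    show algebraMap K L (a I) = (substP _ _ (X (Sum.inl 0))).coeff I
    unfold substP formOf
    rw [aeval_X, Sum.elim_inl, coeff_sum, Finset.sum_eq_single I]
    · rw [coeff_monomial, if_pos rfl]
    · intro J _ hJ
      rw [coeff_monomial, if_neg hJ]
    · intro h
      exact absurd hIe h
  · subst hfd
    refine ⟨fun _ => (), fun _ => 0, ?_⟩
    rw [Matrix.det_fin_one, Matrix.of_apply]
    show aeval _ (pderiv (Sum.inl 0) (X (Sum.inl 0))) ≠ 0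
    rw [pderiv_X_self, map_one]
    exact one_ne_zero

/-- **The exceptional form**, for the points over algebraic extensions. -/
theorem exists_excFormB {k : Type*} {K : Type v} [Field k] [CharZero k] [Countable k] [Field K]
    [CharZero K] [Algebra k K] {R d b N i b₁ : ℕ}
    (hd : R + 4 ≤ d) (hN : 2 ^ i * (2 * b) ≤ 3 ^ i * N) (hi : 6 * 2 ^ i ≤ R + 2)
    (hb₁ : 8 * b₁ ≤ d) {a : (Fin (R + 3) →₀ ℕ) → K}
    (ha : AlgebraicIndependent k (fun I : ↥(expo (Fin (R + 3)) d) => a I.1)) :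
    ∃ G : MvPolynomial (Fin (R + 3)) K, (∃ E, G.IsHomogeneous E) ∧
      (∃ z : Fin (R + 3) → AlgebraicClosure K, z ≠ 0 ∧
        aeval z (∑ I ∈ expo (Fin (R + 3)) d, monomial I (a I)) = 0 ∧ aeval z G ≠ 0) ∧
      ∀ (L : Type w) [Field L] [Algebra K L] [Algebra.IsAlgebraic K L] (x : Fin (R + 3) → L),
        CertS (n := R + 2) d (fun I => algebraMap K L (a I)) b (N + 1) x ∨
          CertW (n := R + 2) (fun _ : Unit => d) (fun _ I => algebraMap K L (a I)) b₁ x →
        aeval x G = 0 := by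
  classical
  obtain ⟨g₁, hg₁0, hg₁⟩ := exists_excS (L := AlgebraicClosure K) hd hN hi ha 0
    (fun i : Fin (R + 1) => i.castSucc.succ)
  obtain ⟨g₂, hg₂0, hg₂⟩ := exists_excW1 (k := k) (L := AlgebraicClosure K) (n := R + 2)
    (m := R + 1) (by omega) rfl hd hb₁ ha 0 (fun i : Fin (R + 1) => i.castSucc.succ)
  obtain ⟨E, G, hGh, hG⟩ := exists_homogV.{v, v} (g₁ * g₂) (0 : Fin (R + 3))
    (fun i : Fin (R + 1) => i.castSucc.succ)
  have ha0 : a (Finsupp.single (Fin.last (R + 2)) d) ≠ 0 := by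
    have h1 := ha.ne_zero ⟨Finsupp.single (Fin.last (R + 2)) d, by
      rw [mem_expo, Finsupp.degree_single]⟩
    exact h1
  refine ⟨G, ⟨E, hGh⟩, ?_, ?_⟩
  · obtain ⟨z, hz0, hzF, hzg⟩ := exists_zero_ne (by omega : 1 ≤ d) ha0 (mul_ne_zero hg₁0 hg₂0)
    refine ⟨z, fun h => ?_, hzF, ?_⟩
    · rw [h] at hz0
      exact zero_ne_one hz0
    · have h1 := (hG z).2 (by rw [hz0]; exact one_ne_zero)
      rw [h1, hz0, one_pow, one_mul]
      simp only [div_one]
      exact hzg
  · intro L _ _ _ x hx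
    have hcL : CharZero L := charZero_of_injective_algebraMap (algebraMap K L).injective
    let φ : L →ₐ[K] AlgebraicClosure K := IsAlgClosed.lift
    let _ : Algebra L (AlgebraicClosure K) := φ.toRingHom.toAlgebra
    have t : IsScalarTower K L (AlgebraicClosure K) :=
      IsScalarTower.of_algebraMap_eq fun u => (φ.commutes u).symm
    have hal : Algebra.IsAlgebraic L (AlgebraicClosure K) := Algebra.IsAlgebraic.tower_top (K := K) L
    refine aeval_eq_zero_of_over (Ω := AlgebraicClosure K) (fun y => hG y) x fun hl => ?_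
    rw [map_mul]
    rcases hx with hx | hx
    · have h1 := certS_mp (F := AlgebraicClosure K) hx
      have h2 := certS_congr (a' := fun I => algebraMap K (AlgebraicClosure K) (a I))
        (fun I _ => (IsScalarTower.algebraMap_apply K L (AlgebraicClosure K) (a I)).symm) h1
      rw [hg₁ _ h2 hl, zero_mul]
    · have h1 := certW_map (algebraMap L (AlgebraicClosure K)) hx
      have h2 := certW_congr (a' := fun _ I => algebraMap K (AlgebraicClosure K) (a I))
        (fun _ I _ => (IsScalarTower.algebraMap_apply K L (AlgebraicClosure K) (a I)).symm) h1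
      rw [hg₂ _ h2 hl, mul_zero]

end Pool.Agent.Lib.MP_44a246_ntSH
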