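import Mathlib
import Pool.Agent.Lib.MP_44a246_ntSH.H02

/-!
Functionals of large degree from the lemma of Siegel, in terms of forms; maximisers above a space.
-/

namespace Pool.Agent.Lib.MP_44a246_ntSH

open Pool.Agent.Lib.MP_44a246_nt
open Pool.Agent.Lib.MP_44a246_ntL
open Pool.Agent.Lib.MP_44a246_ntS
open Pool.Agent.Lib.MP_44a246_ntF
open Pool.Agent.Lib.MP_44a246_ntO
open Pool.Agent.Lib.MP_44a246_ntR (genus)
open Pool.Agent.Lib.MP_e52354_nt
open WithZero Module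

section

variable {L : Type*} [Field L] {n e : ℕ}

/-- the form with given coefficients -/
noncomputable def pf (l : EX n e → L) : MvPolynomial (Fin n) L :=
  ∑ K : EX n e, MvPolynomial.monomial K.1 (l K)

theorem pf_hom (l : EX n e → L) : (pf l).IsHomogeneous e :=
  MvPolynomial.IsHomogeneous.sum _ _ _ fun K _ =>
    MvPolynomial.isHomogeneous_monomial _ (mem_expo.1 K.2)

theorem coeff_pf (l : EX n e → L) (K : Fin n →₀ ℕ) : (pf l).coeff K = ex l K := by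
  classical
  unfold pf
  rw [MvPolynomial.coeff_sum]
  by_cases hK : K ∈ expo (Fin n) e
  · rw [ex_of_mem l hK, Finset.sum_eq_single ⟨K, hK⟩]
    · rw [MvPolynomial.coeff_monomial, if_pos rfl]
    · intro I _ hI
      rw [MvPolynomial.coeff_monomial, if_neg]
      intro h1
      exact hI (Subtype.ext h1)
    · intro h1
      exact absurd (Finset.mem_univ _) h1
  · rw [ex, dif_neg hK]
    refine Finset.sum_eq_zero fun I _ => ?_
    rw [MvPolynomial.coeff_monomial, if_neg]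
    intro h1
    exact hK (h1 ▸ I.2)

theorem coeff_pf_le (v : Valuation L ℤᵐ⁰) {l : EX n e → L} {B : ℤᵐ⁰} (hl : ∀ K, v (l K) ≤ B)
    (K : Fin n →₀ ℕ) : v ((pf l).coeff K) ≤ B := by
  rw [coeff_pf]
  unfold ex
  split_ifs
  · exact hl _
  · rw [map_zero]; exact zero_le

theorem pr_pf (l y : EX n e → L) : pr y (pf l) = ∑ K, l K * y K := by
  unfold pf
  rw [map_sum]
  exact Finset.sum_congr rfl fun K _ => by rw [pr_monomial, ex_coe]

/-- a form is the form of its coefficients -/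
theorem pf_coeff {f : MvPolynomial (Fin n) L} (hf : f.IsHomogeneous e) :
    pf (fun K : EX n e => f.coeff K.1) = f := by
  ext K
  rw [coeff_pf]
  by_cases hK : K ∈ expo (Fin n) e
  · rw [ex_of_mem _ hK]
  · rw [ex, dif_neg hK]
    symm
    by_contra h1
    have h2 := hf h1
    apply hK
    rw [mem_expo, Finsupp.degree_eq_weight_one]
    exact h2

end

variable {κ L : Type*} [Field κ] [IsAlgClosed κ] [CharZero κ] [Field L] [Algebra κ L] {n e : ℕ}

/-- functionals given by rows as functionals given by forms -/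
theorem fnl_of_row {Λ : Submodule L (EX n e → L)} {a : ℤ} {l : EX n e → L} {τ : Place κ L → ℤ}
    (hτ : (Function.support τ).Finite) (hsum : ∑ᶠ w, τ w = -a) (hne : ∃ y ∈ Λ, ∑ k, l k * y k ≠ 0)
    (hb : ∀ w : Place κ L, ∃ m : EX n e → L, (∀ k, w.1 (m k) ≤ exp (τ w)) ∧
        ∀ y ∈ Λ, ∑ k, m k * y k = ∑ k, l k * y k) : Fnl κ Λ a (pf l) τ := by
  refine ⟨pf_hom l, hτ, hsum, fun w => ?_, ?_⟩
  · obtain ⟨m, hm1, hm2⟩ := hb w
    refine ⟨pf m, pf_hom m, coeff_pf_le w.1 hm1, fun y hy => ?_⟩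
    rw [pr_pf, pr_pf]
    exact hm2 y hy
  · obtain ⟨y, hy, hly⟩ := hne
    exact ⟨y, hy, by rw [pr_pf]; exact hly⟩

/-- a functional of large degree on a space (Siegel) -/
theorem exists_fnl (h : IsFF κ L) {Λ : Submodule L (EX n e → L)} (hΛ : Λ ≠ ⊥) {a : ℤ}
    (ha : (finrank L Λ : ℤ) * (a + genus κ L) ≤ ht κ Λ) :
    ∃ (f : MvPolynomial (Fin n) L) (τ : Place κ L → ℤ), Fnl κ Λ a f τ := by
  obtain ⟨l, τ, h1, h2, h3, h4⟩ := siegel_height h hΛ ha
  exact ⟨pf l, τ, fnl_of_row h1 h2 h3 h4⟩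

/-- the height of a space on which all functionals have degree at most `a` -/
theorem ht_le_of_fnl (h : IsFF κ L) {Λ : Submodule L (EX n e → L)} (hΛ : Λ ≠ ⊥) {a : ℤ}
    (ha : ∀ (f : MvPolynomial (Fin n) L) (τ : Place κ L → ℤ) (a' : ℤ), Fnl κ Λ a' f τ → a' ≤ a) :
    ht κ Λ ≤ finrank L Λ * (a + 1 + genus κ L) := by
  by_contra h1
  push Not at h1
  obtain ⟨f, τ, hf⟩ := exists_fnl h hΛ h1.le
  have := ha f τ (a + 1) hf
  omega

/-- maximisers above a space -/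
theorem exists_above {ι : Type*} [Fintype ι] (h : IsFF κ L) {μ : ℝ} (hμ : 0 ≤ μ)
    (Λ : Submodule L (ι → L)) :
    ∃ Λ', Λ ≤ Λ' ∧ ∀ Γ, Λ ≤ Γ →
      (ht κ Λ' : ℝ) + μ * finrank L Λ' ≤ ht κ Γ + μ * finrank L Γ := by
  classical
  -- finitely many candidates for the pair of the height and the dimension
  set B : ℝ := (ht κ Λ : ℝ) + μ * finrank L Λ with hB
  let T : Set (ℤ × ℕ) := {p | ∃ Γ, Λ ≤ Γ ∧ ht κ Γ = p.1 ∧ finrank L Γ = p.2 ∧
    (ht κ Γ : ℝ) + μ * finrank L Γ ≤ B}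
  have hT : T.Finite := by
    refine ((Set.finite_Icc (0 : ℤ) ⌈B⌉).prod (Set.finite_Iic (Fintype.card ι))).subset ?_
    rintro ⟨p, q⟩ ⟨Γ, h1, h2, h3, h4⟩
    simp only at h2 h3
    have h5 := ht_nonneg h Γ
    have h6 := Submodule.finrank_le Γ
    rw [finrank_fintype_fun_eq_card] at h6
    have h7 : (ht κ Γ : ℝ) ≤ B := by
      have : 0 ≤ μ * finrank L Γ := by positivity
      linarith
    refine ⟨⟨by rw [← h2]; exact h5, ?_⟩, by rw [← h3]; exact h6⟩
    have h8 : (p : ℝ) ≤ ⌈B⌉ := by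
      rw [← h2]
      exact h7.trans (Int.le_ceil _)
    exact_mod_cast h8
  obtain ⟨⟨p, q⟩, ⟨Λ', h1, h2, h3, h4⟩, hmin⟩ := Set.exists_min_image T
    (fun p : ℤ × ℕ => (p.1 : ℝ) + μ * p.2) hT ⟨(ht κ Λ, finrank L Λ), Λ, le_rfl, rfl, rfl, le_rfl⟩
  simp only at h2 h3
  refine ⟨Λ', h1, fun Γ hΓ => ?_⟩
  by_cases h5 : (ht κ Γ : ℝ) + μ * finrank L Γ ≤ B
  · have h6 := hmin (ht κ Γ, finrank L Γ) ⟨Γ, hΓ, rfl, rfl, h5⟩
    simp only at h6
    rw [h2, h3]
    exact h6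
  · linarith

end Pool.Agent.Lib.MP_44a246_ntSH
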