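import Mathlib
import Pool.Agent.Lib.MP_44a246_ntSH.H12
import Pool.Agent.Lib.MP_44a246_ntS.SR1
import Pool.Agent.Lib.MP_44a246_ntS.SA1c
import Pool.Agent.Lib.MP_44a246_ntS.SA3c
import Pool.Agent.Lib.MP_44a246_ntS.SA4
import Pool.Agent.Lib.MP_44a246_ntL.LRoot

/-!
Paper 619, (B4): the contact of a point and a hyperplane of a space of functionals.
-/

namespace Pool.Agent.Lib.MP_44a246_ntSH

open Pool.Agent.Lib.MP_44a246_nt
open Pool.Agent.Lib.MP_44a246_ntL
open Pool.Agent.Lib.MP_44a246_ntS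
open Pool.Agent.Lib.MP_44a246_ntF
open Pool.Agent.Lib.MP_44a246_ntO
open Pool.Agent.Lib.MP_e52354_nt
open WithZero Module

variable {κ L : Type*} [Field κ] [IsAlgClosed κ] [CharZero κ] [Field L] [Algebra κ L] {n e : ℕ}

theorem exists_const_max (h : IsFF κ L) {x : Fin (n + 1) → L} (hx : x ≠ 0)
    {S : Set (Place κ L)} (hS : S.Finite) :
    ∃ ξ : Fin (n + 1) → κ, ∑ j, algebraMap κ L (ξ j) * x j ≠ 0 ∧
      ∀ w ∈ S, w.1 (∑ j, algebraMap κ L (ξ j) * x j) = vmax w.1 x := by
  classical
  have hL : CharZero L := charZero_of_injective_algebraMap (algebraMap κ L).injective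
  let P : Polynomial L := ∑ j : Fin (n + 1), Polynomial.C (x j) * Polynomial.X ^ (j : ℕ)
  have hP : P ≠ 0 := by
    obtain ⟨i, hi⟩ := Function.ne_iff.mp hx
    intro h0
    have h1 : P.coeff (i : ℕ) = x i := by
      simp only [P, Polynomial.finsetSum_coeff, Polynomial.coeff_C_mul, Polynomial.coeff_X_pow]
      rw [Finset.sum_eq_single i]
      · simp
      · intro b _ hb
        have : (i : ℕ) ≠ (b : ℕ) := fun hh => hb (Fin.ext hh.symm)
        simp [this]
      · intro hh
        exact absurd (Finset.mem_univ i) hh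
    rw [h0, Polynomial.coeff_zero] at h1
    exact hi h1.symm
  have hfin : {s : ℕ | P.eval (s : L) = 0}.Finite := by
    have h1 : {s : ℕ | P.eval (s : L) = 0} = (fun s : ℕ => (s : L)) ⁻¹' {a : L | P.IsRoot a} := by
      ext s; rfl
    rw [h1]
    exact (Polynomial.finite_setOfPred_isRoot hP).preimage (Nat.cast_injective.injOn)
  have hfin2 : (⋃ w ∈ S,
      {t : ℕ | w.1 (∑ j : Fin (n + 1), ((t ^ (j : ℕ) : ℕ) : L) * x j) ≠ vmax w.1 x}).Finite :=
    hS.biUnion fun w _ => finite_bad h hx w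
  obtain ⟨t, ht⟩ := (hfin.union hfin2).exists_notMem
  rw [Set.mem_union, not_or] at ht
  have e1 : ∀ j : Fin (n + 1), algebraMap κ L ((t : κ) ^ (j : ℕ)) = ((t ^ (j : ℕ) : ℕ) : L) := by
    intro j
    rw [map_pow, map_natCast, Nat.cast_pow]
  refine ⟨fun j => (t : κ) ^ (j : ℕ), ?_, fun w hw => ?_⟩
  · intro h0
    apply ht.1
    simp only [Set.mem_ofPred_eq, P, Polynomial.eval_finsetSum, Polynomial.eval_mul,
      Polynomial.eval_C, Polynomial.eval_pow, Polynomial.eval_X]
    rw [← h0]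
    exact Finset.sum_congr rfl fun j _ => by rw [e1]; push_cast; ring
  · by_contra h0
    apply ht.2
    rw [Set.mem_iUnion₂]
    refine ⟨w, hw, ?_⟩
    rw [Set.mem_ofPred_eq]
    rwa [Finset.sum_congr rfl fun j _ => by rw [← e1]]

omit [IsAlgClosed κ] [CharZero κ] in
private theorem b02_pl_smul (v : Valuation L ℤᵐ⁰) {r : ℕ} {ι : Type*} [Fintype ι]
    (β : Fin r → ι → L) (u : ι → L) (c : L) :
    pl v (Sum.elim β (fun _ : Unit => c • u)) = v c * pl v (Sum.elim β (fun _ : Unit => u)) := by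
  have h1 := pl_sum_mul v (1 : Matrix (Fin r) (Fin r) L)
    (Matrix.of fun _ _ => c : Matrix Unit Unit L) β (fun _ : Unit => u)
  have e1 : (fun i k => ∑ j, (1 : Matrix (Fin r) (Fin r) L) i j * β j k) = β := by
    funext i k
    simp [Matrix.one_apply]
  have e2 : ((Matrix.of fun _ _ => c : Matrix Unit Unit L)).det = c := by
    rw [Matrix.det_unique]
    rfl
  rw [e1, Matrix.det_one, map_one, one_mul, e2] at h1
  rw [← h1]
  congr 2
  funext i k
  simp [Matrix.of_apply]

omit [IsAlgClosed κ] [CharZero κ] in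
private theorem b02_indep {r : ℕ} {ι : Type*} {α : Fin r → ι → L} (hα : LinearIndependent L α)
    {u : ι → L} (hu : u ∉ Submodule.span L (Set.range α)) :
    LinearIndependent L (Sum.elim α (fun _ : Unit => u)) := by
  refine hα.sum_type ?_ ?_
  · rw [linearIndependent_unique_iff]
    rintro rfl
    exact hu (Submodule.zero_mem _)
  · rw [Set.range_const, Submodule.disjoint_span_singleton]
    intro h1
    exact absurd h1 hu

omit [IsAlgClosed κ] [CharZero κ] in
private theorem b02_span {r : ℕ} {ι : Type*} (α : Fin r → ι → L) (u : ι → L) :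
    Submodule.span L (Set.range (Sum.elim α (fun _ : Unit => u))) =
      Submodule.span L (Set.range α) ⊔ Submodule.span L {u} := by
  rw [Set.Sum.elim_range, Submodule.span_union, Set.range_const]

/-- **The contact** (paper 619, (B4)). -/
theorem contact (h : IsFF κ L) {x : Fin (n + 1) → L} (hx : x ≠ 0) (he : 1 ≤ e)
    {W R : Submodule L (EX (n + 1) e → L)} (hRW : R ≤ W) (hxW : xm e x ∈ W) (hxR : xm e x ∉ R)
    (hdim : finrank L R + 1 = finrank L W) :
    ∃ Q ≤ lam 1 W, xm 1 x ∈ Q ∧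
      ((e * (height κ x : ℝ) - ht κ W ≤ height κ x - ht κ Q) ∨ ht κ Q ≤ ht κ R) := by
  classical
  obtain ⟨α, hα, hαR⟩ := SB2b_basis R
  have hxm : xm e x ≠ 0 := xm_ne_zero hx
  have hxm1 : (xm 1 x : EX (n + 1) 1 → L) ≠ 0 := xm_ne_zero hx
  have hαb : LinearIndependent L (Sum.elim α (fun _ : Unit => xm e x)) :=
    b02_indep hα (by rwa [hαR])
  have hspan : Submodule.span L (Set.range (Sum.elim α (fun _ : Unit => xm e x))) = W := by
    apply Submodule.eq_of_le_of_finrank_eq
    · rw [b02_span, hαR]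
      exact sup_le hRW ((Submodule.span_singleton_le_iff_mem _ _).2 hxW)
    · rw [finrank_span_eq_card hαb]
      simp only [Fintype.card_sum, Fintype.card_fin, Fintype.card_unit]
      exact hdim
  -- the bad places
  have hS : {w : Place κ L | pl w.1 (Sum.elim α (fun _ : Unit => xm e x)) ≠
      pl w.1 α * vmax w.1 (xm e x)}.Finite := by
    refine (((pl_support h hαb).union (pl_support h hα)).union (h.vmax_support hxm)).subset ?_
    intro w hw
    by_contra hcon
    rw [Set.mem_union, Set.mem_union, not_or, not_or] at hcon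
    obtain ⟨⟨h1, h2⟩, h3⟩ := hcon
    have h1' := Function.notMem_support.1 h1
    have h2' := Function.notMem_support.1 h2
    have h3' := Function.notMem_support.1 h3
    apply hw
    rw [← exp_log (pl_ne_zero w.1 hαb), h1', ← exp_log (pl_ne_zero w.1 hα), h2',
      ← exp_log (vmax_ne_zero w.1 hxm), h3', exp_zero, one_mul]
  obtain ⟨ξ, hy0, hξ⟩ := exists_const_max h hx hS
  set y : L := ∑ j, algebraMap κ L (ξ j) * x j with hy
  -- the form
  obtain ⟨j, rfl⟩ : ∃ j, e = j + 1 := ⟨e - 1, by omega⟩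
  set f₀ : MvPolynomial (Fin (n + 1)) L :=
    ∑ i, MvPolynomial.C (algebraMap κ L (ξ i)) * MvPolynomial.X i with hf₀
  have hf₀h : f₀.IsHomogeneous 1 := by
    refine MvPolynomial.IsHomogeneous.sum _ _ _ fun i _ => ?_
    have h1 := (MvPolynomial.isHomogeneous_C (Fin (n + 1)) (algebraMap κ L (ξ i))).mul
      (MvPolynomial.isHomogeneous_X L i)
    simpa using h1
  have hf₀e : MvPolynomial.eval x f₀ = y := by
    rw [hf₀, map_sum, hy]
    exact Finset.sum_congr rfl fun i _ => by
      rw [map_mul, MvPolynomial.eval_C, MvPolynomial.eval_X]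
  have hf₀c : ∀ (w : Place κ L) K, w.1 (f₀.coeff K) ≤ 1 := by
    intro w K
    rw [hf₀, MvPolynomial.coeff_sum]
    refine Valuation.map_sum_le w.1 fun i _ => ?_
    rw [MvPolynomial.coeff_C_mul, MvPolynomial.coeff_X', map_mul]
    split_ifs
    · rw [map_one, mul_one]
      exact const_le_one w _
    · rw [map_zero, mul_zero]
      exact zero_le
  have hfh : (f₀ ^ j).IsHomogeneous j := by simpa using hf₀h.pow j
  have hfe : MvPolynomial.eval x (f₀ ^ j) = y ^ j := by rw [map_pow, hf₀e]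
  have hfc : ∀ (w : Place κ L) K, w.1 ((f₀ ^ j).coeff K) ≤ 1 := fun w K => by
    have := coeff_pow_le w.1 (hf₀c w) j K
    rwa [one_pow] at this
  set T := cf (e := j + 1) (f₀ ^ j) 1 with hT
  have hTx : T (xm (j + 1) x) = y ^ j • xm 1 x := by
    rw [hT, cf_xm hfh (by omega), hfe]
  have hM : ∀ (w : Place κ L) ψ I, w.1 (Mcf (f₀ ^ j) 1 (j + 1) ψ I) ≤ exp ((0 : ℤ)) := by
    intro w ψ I
    rw [exp_zero]
    exact Mcf_le w.1 (hfc w) 1 (j + 1) ψ I
  set Q₀ := R.map T with hQ₀
  have hQ₀R : ht κ Q₀ ≤ ht κ R := by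
    have key := ht_mapw h T (fun _ => Mcf (f₀ ^ j) 1 (j + 1)) (τ := fun _ => 0)
      (by simp) (fun w ψ I => hM w ψ I) (A := R ⊓ LinearMap.ker T) (B := R) (A' := ⊥)
      (fun w b _ => by rw [Mcf_mulVec]) inf_le_left
      (by
        rintro _ ⟨u, hu, rfl⟩
        exact (Submodule.mem_bot L).2 (LinearMap.mem_ker.1 hu.2))
      (fun b hb hTb => ⟨hb, LinearMap.mem_ker.2 ((Submodule.mem_bot L).1 hTb)⟩)
    rw [bot_sup_eq, ht_bot h, finsum_zero, zero_mul, add_zero, add_zero] at key
    have := ht_nonneg h (κ := κ) (R ⊓ LinearMap.ker T)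
    linarith
  have hQ₀lam : Q₀ ≤ lam 1 W := by
    rintro _ ⟨u, hu, rfl⟩
    exact cf_mem_lam (j := j) (by omega) (hRW hu) hfh
  have hxlam : xm 1 x ∈ lam 1 W := xm_mem_lam (by omega) hx hxW
  by_cases hxQ : xm 1 x ∈ Q₀
  · exact ⟨Q₀, hQ₀lam, hxQ, Or.inr hQ₀R⟩
  refine ⟨Q₀ ⊔ Submodule.span L {xm 1 x},
    sup_le hQ₀lam ((Submodule.span_singleton_le_iff_mem _ _).2 hxlam),
    Submodule.mem_sup_right (Submodule.mem_span_singleton_self _), Or.inl ?_⟩
  obtain ⟨β, hβ, hβQ⟩ := SB2b_basis Q₀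
  have hβx : LinearIndependent L (Sum.elim β (fun _ : Unit => xm 1 x)) :=
    b02_indep hβ (by rwa [hβQ])
  have hspan2 : Submodule.span L (Set.range (Sum.elim β (fun _ : Unit => xm 1 x))) =
      Q₀ ⊔ Submodule.span L {xm 1 x} := by rw [b02_span, hβQ]
  -- the local inequality
  have hloc : ∀ w : Place κ L, vmax w.1 x ^ j * pl w.1 (Sum.elim β (fun _ : Unit => xm 1 x)) *
      pl w.1 α ≤ pl w.1 (Sum.elim α (fun _ : Unit => xm (j + 1) x)) * pl w.1 β := by
    intro w
    by_cases hw : pl w.1 (Sum.elim α (fun _ : Unit => xm (j + 1) x)) =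
        pl w.1 α * vmax w.1 (xm (j + 1) x)
    · rw [hw, vmax_xm w.1 (j + 1) hx]
      have h1 := pl_sum_le w.1 β (fun _ : Unit => (xm 1 x : EX (n + 1) 1 → L))
      rw [pl_unique w.1 (fun _ : Unit => (xm 1 x : EX (n + 1) 1 → L)), vmax_xm w.1 1 hx,
        pow_one] at h1
      calc vmax w.1 x ^ j * pl w.1 (Sum.elim β (fun _ : Unit => xm 1 x)) * pl w.1 α
          ≤ vmax w.1 x ^ j * (pl w.1 β * vmax w.1 x) * pl w.1 α := by gcongr
        _ = pl w.1 α * vmax w.1 x ^ (j + 1) * pl w.1 β := by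
            rw [pow_succ]
            ac_rfl
    · have hyw := hξ w hw
      have h1 := pl_local w.1 (Mcf (f₀ ^ j) 1 (j + 1)) (τ := 1) (fun ψ I => by
        have := hM w ψ I
        rwa [exp_zero] at this) hα hβ (fun i => by
          rw [Mcf_mulVec, hβQ]
          exact ⟨α i, by rw [← hαR]; exact Submodule.subset_span ⟨i, rfl⟩, rfl⟩)
        (fun _ : Unit => xm (j + 1) x)
      have e1 : (fun _ : Unit => (Mcf (f₀ ^ j) 1 (j + 1)).mulVec (xm (j + 1) x)) =
          (fun _ : Unit => y ^ j • xm 1 x) := by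
        funext _
        rw [Mcf_mulVec]
        exact hTx
      rw [e1, b02_pl_smul, one_pow, one_mul, map_pow, hyw] at h1
      exact h1
  -- the sum
  have hs1 := pl_support h hα
  have hs2 := pl_support h hαb
  have hs3 := pl_support h hβ
  have hs4 := pl_support h hβx
  have hs5 := h.vmax_support hx
  have hglob : (j : ℤ) * height κ x + ht κ (Q₀ ⊔ Submodule.span L {xm 1 x}) + ht κ R ≤
      ht κ W + ht κ Q₀ := by
    have e1 := ht_span h hα
    have e2 := ht_span h hαb
    have e3 := ht_span h hβ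
    have e4 := ht_span h hβx
    rw [hαR] at e1
    rw [hspan] at e2
    rw [hβQ] at e3
    rw [hspan2] at e4
    have e5 : height κ x = ∑ᶠ w : Place κ L, log (vmax w.1 x) := rfl
    have hs5' : (Function.support fun w : Place κ L => (j : ℤ) * log (vmax w.1 x)).Finite :=
      hs5.subset fun w hw h0 => hw (by simp only [h0, mul_zero])
    rw [e1, e2, e3, e4, e5, mul_finsum, ← finsum_add_distrib hs5' hs4,
      ← finsum_add_distrib ?_ hs1, ← finsum_add_distrib hs2 hs3]
    · refine finsum_mono ?_ ((hs2.union hs3).subset (Function.support_add _ _)) fun w => ?_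
      · exact (((hs5'.union hs4).union hs1).subset
          ((Function.support_add _ _).trans (Set.union_subset_union_left _
            (Function.support_add _ _))))
      · have n1 := vmax_ne_zero w.1 hx
        have n2 := pl_ne_zero w.1 hβx
        have n3 := pl_ne_zero w.1 hα
        have n4 := pl_ne_zero w.1 hαb
        have n5 := pl_ne_zero w.1 hβ
        have h1 := (log_le_log (mul_ne_zero (mul_ne_zero (pow_ne_zero _ n1) n2) n3)
          (mul_ne_zero n4 n5)).2 (hloc w)
        rw [log_mul (mul_ne_zero (pow_ne_zero _ n1) n2) n3, log_mul (pow_ne_zero _ n1) n2,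
          log_mul n4 n5, log_pow, nsmul_eq_mul] at h1
        exact h1
    · exact (hs5'.union hs4).subset (Function.support_add _ _)
  have hglob' : (j : ℝ) * height κ x + ht κ (Q₀ ⊔ Submodule.span L {xm 1 x}) + ht κ R ≤
      ht κ W + ht κ Q₀ := by exact_mod_cast hglob
  have hQ₀R' : (ht κ Q₀ : ℝ) ≤ ht κ R := by exact_mod_cast hQ₀R
  push_cast
  linarith

end Pool.Agent.Lib.MP_44a246_ntSH
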