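import Mathlib
import Pool.Agent.Lib.MP_44a246_ntSH.H01

/-!
The slopes of the space spanned by the contractions of a space of functionals, in all degrees.
-/

namespace Pool.Agent.Lib.MP_44a246_ntSH

open Pool.Agent.Lib.MP_44a246_nt
open Pool.Agent.Lib.MP_44a246_ntL
open Pool.Agent.Lib.MP_44a246_ntS
open Pool.Agent.Lib.MP_44a246_ntF
open Pool.Agent.Lib.MP_44a246_ntO
open Pool.Agent.Lib.MP_e52354_nt
open WithZero Module

variable {κ L : Type*} [Field κ] [IsAlgClosed κ] [CharZero κ] [Field L] [Algebra κ L] {n e : ℕ}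

/-- the constant matrix of a contraction by a monomial -/
noncomputable def Mmon (κ : Type*) [Field κ] {n : ℕ} (K : Fin n →₀ ℕ) (i e : ℕ) :
    Matrix (EX n i) (EX n e) κ :=
  Matrix.of fun ψ I => if ψ.1 + K = I.1 then 1 else 0

omit [IsAlgClosed κ] [CharZero κ] in
theorem Mmon_eq (K : Fin n →₀ ℕ) (i e : ℕ) :
    ((Mmon κ K i e).map (algebraMap κ L)).mulVecLin =
      cf (e := e) (MvPolynomial.monomial K (1 : L)) i := by
  classical
  refine LinearMap.ext fun u => ?_
  rw [Matrix.mulVecLin_apply, ← Mcf_mulVec]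
  congr 1
  ext ψ I
  rw [Matrix.map_apply, Mmon, Matrix.of_apply, Mcf, Matrix.of_apply,
    MvPolynomial.support_monomial, if_neg one_ne_zero, Finset.sum_singleton,
    MvPolynomial.coeff_monomial, if_pos rfl]
  split_ifs
  · rw [map_one]
  · rw [map_zero]

/-- **The slopes of the space of the contractions** (paper 619, section 1; 549, (2.c)). -/
theorem hasSl_lam (h : IsFF κ L) {x : Fin n → L} (hx : x ≠ 0) {t : ℝ} {i : ℕ} (hi : i ≤ e)
    {W : Submodule L (EX n e → L)} (hW : HasSl κ t (xm e x) W) :
    HasSl κ t (xm i x) (lam i W) := by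
  refine ⟨xm_mem_lam hi hx hW.mem, ?_⟩
  have key : ∀ k : ℕ, ∀ Λ' : Submodule L (EX n i → L), Λ' ≤ lam i W → xm i x ∈ Λ' →
      finrank L (lam i W) - finrank L Λ' ≤ k →
      t * ((finrank L (lam i W) : ℝ) - finrank L Λ') ≤ (ht κ Λ' : ℝ) - ht κ (lam i W) := by
    intro k
    induction k with
    | zero =>
      intro Λ' hle _ hk
      have h1 : finrank L (lam i W) ≤ finrank L Λ' := by omega
      have h2 : Λ' = lam i W := Submodule.eq_of_le_of_finrank_le hle h1
      rw [h2, sub_self, sub_self, mul_zero]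
    | succ k ih =>
      intro Λ' hle hxΛ hk
      by_cases hall : ∀ φ : EX n (e - i), W.map (cf (MvPolynomial.monomial φ.1 1) i) ≤ Λ'
      · have h2 : Λ' = lam i W := le_antisymm hle (iSup_le hall)
        rw [h2, sub_self, sub_self, mul_zero]
      · obtain ⟨φ, hφ⟩ := not_forall.1 hall
        set T := cf (e := e) (MvPolynomial.monomial φ.1 (1 : L)) i with hT
        have h1 := ht_contr h (Mmon κ φ.1 i e) (Mmon_eq φ.1 i e) W Λ'
        have h2 := rank_contr T W Λ'
        have hΛ : Λ' ⊔ W.map T ≤ lam i W :=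
          sup_le hle (le_iSup (fun φ : EX n (e - i) =>
            W.map (cf (MvPolynomial.monomial φ.1 1) i)) φ)
        have hlt : finrank L Λ' < finrank L (Λ' ⊔ W.map T : Submodule L (EX n i → L)) := by
          refine Submodule.finrank_lt_finrank_of_lt (lt_of_le_of_ne le_sup_left fun h4 => hφ ?_)
          rw [h4]
          exact le_sup_right
        have h3 := ih (Λ' ⊔ W.map T) hΛ (Submodule.mem_sup_left hxΛ) (by omega)
        have h4 : xm e x ∈ W ⊓ Λ'.comap T := by
          refine Submodule.mem_inf.2 ⟨hW.mem, ?_⟩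
          rw [Submodule.mem_comap, hT, cf_xm (j := e - i)
            (MvPolynomial.isHomogeneous_monomial _ (mem_expo.1 φ.2)) (by omega)]
          exact Submodule.smul_mem _ _ hxΛ
        have h5 := hW.le (W ⊓ Λ'.comap T) inf_le_left h4
        have h6 : ((finrank L (Λ' ⊔ W.map T : Submodule L (EX n i → L)) : ℕ) : ℝ) +
            finrank L (W ⊓ Λ'.comap T : Submodule L (EX n e → L)) =
            finrank L Λ' + finrank L W := by exact_mod_cast h2
        have h7 : ((ht κ (Λ' ⊔ W.map T) : ℤ) : ℝ) + ht κ (W ⊓ Λ'.comap T) ≤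
            ht κ W + ht κ Λ' := by exact_mod_cast h1
        have h8 : (finrank L W : ℝ) - finrank L (W ⊓ Λ'.comap T :
            Submodule L (EX n e → L)) =
            finrank L (Λ' ⊔ W.map T : Submodule L (EX n i → L)) - finrank L Λ' := by
          linarith
        rw [h8] at h5
        have h9 : t * ((finrank L (lam i W) : ℝ) - finrank L Λ') =
            t * ((finrank L (lam i W) : ℝ) -
              finrank L (Λ' ⊔ W.map T : Submodule L (EX n i → L))) +
            t * ((finrank L (Λ' ⊔ W.map T : Submodule L (EX n i → L)) : ℝ) -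
              finrank L Λ') := by ring
        rw [h9]
        linarith
  intro Λ' hle hxΛ
  exact key _ Λ' hle hxΛ le_rfl

end Pool.Agent.Lib.MP_44a246_ntSH
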