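import Mathlib
import Pool.Agent.Lib.MP_44a246_ntSH.H03
import Pool.Agent.Lib.MP_44a246_ntSH.H07
import Pool.Agent.Lib.MP_44a246_ntS.SC2
import Pool.Agent.Lib.MP_44a246_ntS.SC4

/-!
Paper 619, section 4: tools for the case B.
-/

namespace Pool.Agent.Lib.MP_44a246_ntSH

open Pool.Agent.Lib.MP_44a246_nt
open Pool.Agent.Lib.MP_44a246_ntL
open Pool.Agent.Lib.MP_44a246_ntS
open Pool.Agent.Lib.MP_44a246_ntF
open Pool.Agent.Lib.MP_44a246_ntO
open Pool.Agent.Lib.MP_44a246_ntX
open Pool.Agent.Lib.MP_44a246_ntR (genus)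
open Pool.Agent.Lib.MP_e52354_nt
open WithZero Module

variable {κ L : Type*} [Field κ] [IsAlgClosed κ] [CharZero κ] [Field L] [Algebra κ L]

section

variable {ι : Type*} [Fintype ι]

omit [IsAlgClosed κ] [CharZero κ] in
theorem cb_hasSl {μ : ℝ} {ξ : ι → L} {Q : Submodule L (ι → L)} (hQ : IsSl κ μ ξ Q) :
    HasSl κ μ ξ Q := by
  refine ⟨hQ.mem, fun U' h1 h2 => ?_⟩
  by_cases h3 : U' = Q
  · rw [h3]; simp
  · exact (hQ.lt U' h1 h2 h3).le

/-- a maximiser is maximal -/
theorem cb_max (h : IsFF κ L) {μ : ℝ} {ξ : ι → L} {Q U : Submodule L (ι → L)}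
    (hQ : IsSl κ μ ξ Q) (hU : ξ ∈ U) :
    (ht κ Q : ℝ) + μ * finrank L Q ≤ ht κ U + μ * finrank L U := by
  have h1 := hQ.sup h hU
  have h2 := hQ.le (Q ⊔ U) le_sup_left
  linarith

end

section

variable {n d e : ℕ} {x : Fin n → L}

/-- the dimension of a space with large slopes -/
theorem cb_dim (h : IsFF κ L) (hx : x ≠ 0) {t : ℝ} {V : Submodule L (EX n e → L)}
    (hV : HasSl κ t (xm e x) V) :
    (ht κ V : ℝ) + t * ((finrank L V : ℝ) - 1) ≤ e * height κ x := by
  have := cost_ge h hx hV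
  linarith

theorem cb_one_le (hx : x ≠ 0) {V : Submodule L (EX n e → L)} (hV : xm e x ∈ V) :
    (1 : ℝ) ≤ finrank L V := by
  have := one_le_finrank_aux (xm_ne_zero (d := e) hx) hV
  exact_mod_cast this

/-- the bound for the slopes for functionals on linear forms -/
theorem cb_slope_one (h : IsFF κ L) (hx : x ≠ 0) {M : ℝ}
    (hM : ∀ Q : Submodule L (Fin n → L), x ∈ Q →
      (height κ x : ℝ) - ht κ Q ≤ M * ((finrank L Q : ℝ) - 1)) {Q : Submodule L (EX n 1 → L)}
    (hQ : xm 1 x ∈ Q) : (height κ x : ℝ) - ht κ Q ≤ M * ((finrank L Q : ℝ) - 1) := by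
  have := cost_le h hx hM (d := 0) (W := Q) hQ
  simpa using this

theorem cb_card (n : ℕ) : Fintype.card (EX n 1) = n := by
  have h1 : Function.Bijective (fun j : Fin n => (up j (Classical.arbitrary (EX n 0)) : EX n 1)) := by
    constructor
    · intro i j hij
      have h2 : (Classical.arbitrary (EX n 0)).1 + Finsupp.single i 1 =
          (Classical.arbitrary (EX n 0)).1 + Finsupp.single j 1 := congrArg Subtype.val hij
      have h3 := add_left_cancel h2
      exact (Finsupp.single_left_inj one_ne_zero).1 h3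
    · intro I
      obtain ⟨j, φ, hφ⟩ := exists_up I
      exact ⟨j, by rw [hφ]; exact congrArg (up j) (Subsingleton.elim _ _)⟩
  rw [← Fintype.card_congr (Equiv.ofBijective _ h1), Fintype.card_fin]

theorem cb_finrank_le (Q : Submodule L (EX n 1 → L)) : finrank L Q ≤ n := by
  have h1 := Submodule.finrank_le Q
  rwa [finrank_fintype_fun_eq_card, cb_card] at h1

end

section

variable {n d : ℕ} {x : Fin (n + 1) → L} {C₀ M E : ℝ}

/-- the space of the rows of the point -/
theorem cb_U (h : IsFF κ L) (hyp : Hyp κ x d C₀ M E) :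
    ∃ U : Submodule L (EX (n + 1) d → L), xm d x ∈ U ∧ finrank L U ≤ n ∧
      ((d : ℝ) - n - 1) * height κ x - E ≤ d * (height κ x : ℝ) - ht κ U := by
  have hH : (0 : ℝ) ≤ height κ x := by exact_mod_cast h.height_nonneg hyp.ne
  obtain ⟨t, htd⟩ : ∃ t : ℝ, t = (n + 1) * height κ x + E + 1 := ⟨_, rfl⟩
  have ht0 : 0 < t := by
    have := hyp.hE
    rw [htd]
    positivity
  have hsl : HasSl κ t (xm 2 x) (L ∙ xm 2 x) := by
    refine ⟨Submodule.mem_span_singleton_self _, fun U' h1 h2 => ?_⟩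
    have h3 : U' = L ∙ xm 2 x :=
      le_antisymm h1 ((Submodule.span_singleton_le_iff_mem _ _).2 h2)
    rw [h3]; simp
  obtain ⟨ν, W, h1, h2, h3, -⟩ := hyp.rows (L ∙ xm 2 x) ⊤ t 0 le_rfl ht0.le hsl le_top
    (fun Γ hΓ => by
      have : Γ = ⊤ := top_le_iff.1 hΓ
      rw [this]; simp)
  have h4 : (0 : ℝ) ≤ ht κ W := by exact_mod_cast ht_nonneg h W
  have h5 : ν = 0 := by
    by_contra h6
    have h7 : (1 : ℝ) ≤ ν := by exact_mod_cast Nat.one_le_iff_ne_zero.2 h6
    have h8 : t * 1 ≤ (t - 0) * ν := by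
      rw [sub_zero]
      exact mul_le_mul_of_nonneg_left h7 ht0.le
    have h9 : ((d : ℝ) - n - 1) * height κ x = d * height κ x - (n + 1) * height κ x := by ring
    rw [h9] at h3
    linarith
  subst h5
  refine ⟨W, h1, by simpa using h2, ?_⟩
  simpa using h3

omit [IsAlgClosed κ] [CharZero κ] in
theorem Hyp.cb_big (hyp : Hyp κ x d C₀ M E) {c : ℝ} (hc : c ≤ ((n : ℝ) + 2) ^ 20) :
    c * (E + genus κ L + 1) ≤ height κ x := by
  have h1 := hyp.big
  have h2 := hyp.hE
  have h3 : (0 : ℝ) ≤ E + genus κ L + 1 := by positivity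
  nlinarith

end

end Pool.Agent.Lib.MP_44a246_ntSH
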