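import Mathlib
import Pool.Agent.Lib.MP_44a246_ntSH.SRel
import Pool.Agent.Lib.MP_44a246_ntE.E04
import Pool.Agent.Lib.MP_44a246_ntS.SA3c
import Pool.Agent.Lib.MP_44a246_ntS.SA1c

/-!
Paper 619, (2b): the elements of bounded norm of a subspace.
-/

namespace Pool.Agent.Lib.MP_44a246_ntSH

open Pool.Agent.Lib.MP_44a246_nt
open Pool.Agent.Lib.MP_44a246_ntL
open Pool.Agent.Lib.MP_44a246_ntS
open Pool.Agent.Lib.MP_44a246_ntR
open Pool.Agent.Lib.MP_44a246_ntE
open VFSharp
open WithZero Module

section

variable {L : Type*} [Field L] {ι : Type*} [Fintype ι]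

/-- the coordinate of the last vector is bounded -/
theorem coord_le (v : Valuation L ℤᵐ⁰) {r : ℕ} (a : Fin r → ι → L) (b : Fin 1 → ι → L)
    (c : Fin r → L) (t : L) {e : ℤ}
    (he : ∀ k, v ((∑ i, c i • a i + t • b 0) k) ≤ exp e) :
    v t * pl v (Sum.elim a b) ≤ exp e * pl v a := by
  have h1 := pl_sum_mul v (1 : Matrix (Fin r) (Fin r) L)
    (Matrix.of fun _ _ => t : Matrix (Fin 1) (Fin 1) L) a b
  have h2 := pl_sum_unip v (Matrix.of fun _ i => c i : Matrix (Fin 1) (Fin r) L) a
    (fun (i : Fin 1) k => ∑ j, (Matrix.of fun _ _ => t : Matrix (Fin 1) (Fin 1) L) i j * b j k)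
  have e1 : (fun i k => ∑ j, (1 : Matrix (Fin r) (Fin r) L) i j * a j k) = a := by
    funext i k
    simp [Matrix.one_apply]
  rw [e1, Matrix.det_one, map_one, one_mul] at h1
  have e2 : ((Matrix.of fun _ _ => t : Matrix (Fin 1) (Fin 1) L)).det = t := by
    rw [Matrix.det_unique]
    rfl
  rw [e2] at h1
  rw [h1] at h2
  rw [← h2]
  refine (pl_sum_le v _ _).trans ?_
  rw [mul_comm]
  refine mul_le_mul' ?_ le_rfl
  rw [pl_unique]
  refine vmax_le v fun k => ?_
  refine le_of_eq_of_le (congrArg v ?_) (he k)
  simp only [Matrix.of_apply, Finset.univ_unique, Finset.sum_singleton, Pi.add_apply,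
    Finset.sum_apply, Pi.smul_apply, smul_eq_mul]
  rw [add_comm]
  rfl

end

variable {κ L : Type*} [Field κ] [IsAlgClosed κ] [CharZero κ] [Field L] [Algebra κ L]
  {ι : Type*} [Fintype ι]

omit [IsAlgClosed κ] [CharZero κ] in
theorem divDeg_ofSupport {f : Place κ L → ℤ} (hf : (Function.support f).Finite) :
    divDeg (Finsupp.ofSupportFinite f hf) = ∑ᶠ w, f w := by
  classical
  rw [finsum_eq_sum_of_support_subset (s := (Finsupp.ofSupportFinite f hf).support)]
  · rfl
  · intro w hw
    rw [Finset.mem_coe, Finsupp.mem_support_iff]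
    exact hw

/-- the number of the elements of bounded norm in a space with a basis of elements of bounded
norm -/
theorem finrank_boxSub_le (h : IsFF κ L) (D : Place κ L →₀ ℤ) : ∀ (r : ℕ) (v : Fin r → ι → L),
    LinearIndependent L v → (∀ i (w : Place κ L) k, w.1 (v i k) ≤ exp (D w)) →
    (finrank κ (boxSub (Submodule.span L (Set.range v)) D) : ℤ) ≤
      r * (divDeg D + 1) - ht κ (Submodule.span L (Set.range v)) := by
  intro r
  induction r with
  | zero =>
    intro v _ _
    have h1 : Submodule.span L (Set.range v) = ⊥ := by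
      rw [Submodule.span_eq_bot]
      rintro _ ⟨i, _⟩
      exact i.elim0
    rw [h1, ht_bot h]
    have h2 : (boxSub (⊥ : Submodule L (ι → L)) (fun w => D w) : Submodule κ (ι → L)) = ⊥ := by
      rw [eq_bot_iff]
      rintro u ⟨hu, -⟩
      exact hu
    have h3 : (boxSub (⊥ : Submodule L (ι → L)) D : Submodule κ (ι → L)) = ⊥ := h2
    rw [h3, finrank_bot]
    simp
  | succ r ih =>
    intro v hv hD
    set a : Fin r → ι → L := fun i => v (Fin.castAdd 1 i) with ha
    set b : Fin 1 → ι → L := fun i => v (Fin.natAdd r i) with hb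
    have hvab : (fun i => v (finSumFinEquiv i)) = Sum.elim a b := by
      funext i
      rcases i with i | i
      · simp [ha]
      · simp [hb]
    have hab : LinearIndependent L (Sum.elim a b) := by
      rw [← hvab]
      exact hv.comp _ finSumFinEquiv.injective
    have hla : LinearIndependent L a := by
      have h1 := hab.comp Sum.inl Sum.inl_injective
      rwa [Sum.elim_comp_inl] at h1
    have hrange : Set.range v = Set.range (Sum.elim a b) := by
      rw [← hvab]
      exact (finSumFinEquiv.surjective.range_comp v).symm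
    have ihr := ih a hla fun i w k => hD _ w k
    set R := Submodule.span L (Set.range v) with hR
    set R' := Submodule.span L (Set.range a) with hR'
    -- the divisor
    have hs1 := pl_support h hla
    have hs2 := pl_support h hab
    have hsd : (Function.support fun w : Place κ L =>
        log (pl w.1 a) - log (pl w.1 (Sum.elim a b))).Finite :=
      (hs1.union hs2).subset (Function.support_sub _ _)
    set D₁ : Place κ L →₀ ℤ := D + Finsupp.ofSupportFinite _ hsd with hD₁
    have hD₁w : ∀ w, D₁ w = D w + (log (pl w.1 a) - log (pl w.1 (Sum.elim a b))) := fun w => rfl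
    have hdeg : divDeg D₁ = divDeg D + (ht κ R' - ht κ R) := by
      rw [hD₁, divDeg_add, divDeg_ofSupport, finsum_sub_distrib hs1 hs2, ← ht_span h hla,
        ← ht_span h hab, hR, hrange]
    -- the coordinate
    obtain ⟨Ψ, hΨ⟩ := LinearMap.exists_leftInverse_of_injective
      (Fintype.linearCombination L v) (LinearMap.ker_eq_bot.2
        hv.fintypeLinearCombination_injective)
    have hΨ' : ∀ c : Fin (r + 1) → L, Ψ (∑ i, c i • v i) = c := by
      intro c
      have := LinearMap.congr_fun hΨ c
      simpa [Fintype.linearCombination_apply] using this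
    have hrep : ∀ u ∈ R, u = ∑ i, Ψ u (Fin.castAdd 1 i) • a i +
        Ψ u (Fin.natAdd r 0) • b 0 := by
      intro u hu
      obtain ⟨c, hc⟩ := (Submodule.mem_span_range_iff_exists_fun L).1 hu
      have h1 : Ψ u = c := by rw [← hc, hΨ']
      rw [h1, ← hc, Fin.sum_univ_castSucc]
      rfl
    let θ : (boxSub R D : Submodule κ (ι → L)) →ₗ[κ] L :=
      (((LinearMap.proj (Fin.natAdd r 0)).comp Ψ).restrictScalars κ).comp
        (boxSub R D).subtype
    have hθ : ∀ u, θ u = Ψ u.1 (Fin.natAdd r 0) := fun u => rfl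
    have hθr : LinearMap.range θ ≤ rr D₁ := by
      rintro _ ⟨u, rfl⟩ w
      have h1 := hrep u.1 u.2.1
      have h2 := coord_le w.1 a b (fun i => Ψ u.1 (Fin.castAdd 1 i)) (Ψ u.1 (Fin.natAdd r 0))
        (e := D w) (by
          intro k
          rw [← h1]
          exact u.2.2 w k)
      rw [hD₁w, hθ]
      have h3 := pl_ne_zero w.1 hla
      have h4 := pl_ne_zero w.1 hab
      have h5 : exp (D w + (log (pl w.1 a) - log (pl w.1 (Sum.elim a b)))) =
          exp (D w) * pl w.1 a * (pl w.1 (Sum.elim a b))⁻¹ := by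
        rw [exp_add, exp_sub, exp_log h3, exp_log h4, div_eq_mul_inv, mul_assoc]
      rw [h5]
      exact (le_mul_inv_iff₀ (zero_lt_iff.2 h4)).2 h2
    have hb_mem : b 0 ∈ (boxSub R D : Submodule κ (ι → L)) :=
      ⟨Submodule.subset_span ⟨_, rfl⟩, fun w k => hD _ w k⟩
    have hθ1 : θ ⟨b 0, hb_mem⟩ = 1 := by
      rw [hθ]
      have h1 := hΨ' (Pi.single (Fin.natAdd r 0) 1)
      have h2 : ∑ i, (Pi.single (Fin.natAdd r 0) (1 : L) : Fin (r + 1) → L) i • v i = b 0 := by
        rw [Finset.sum_eq_single (Fin.natAdd r 0)]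
        · rw [Pi.single_eq_same, one_smul]
        · intro i _ hi
          rw [Pi.single_eq_of_ne hi, zero_smul]
        · intro h; exact absurd (Finset.mem_univ _) h
      rw [h2] at h1
      rw [h1, Pi.single_eq_same]
    have h1D : (1 : L) ∈ rr D₁ := hθ1 ▸ hθr ⟨_, rfl⟩
    have hdeg0 : 0 ≤ divDeg D₁ := by
      by_contra h1
      push Not at h1
      rw [rr_of_neg h h1] at h1D
      exact one_ne_zero ((Submodule.mem_bot κ).1 h1D)
    have hrr := finrank_rr_le_deg h (D := D₁) (by omega)
    have : FiniteDimensional κ (rr D₁) := finite_rr h D₁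
    have hf1 := (count_sub h R D).1
    have hf2 := (count_sub h R' D).1
    have h1 : finrank κ (LinearMap.range θ) ≤ finrank κ (rr D₁) := Submodule.finrank_mono hθr
    have h2 := LinearMap.finrank_range_add_finrank_ker θ
    have h3 : finrank κ (LinearMap.ker θ) ≤ finrank κ (boxSub R' D) := by
      have h4 : (LinearMap.ker θ).map (boxSub R D).subtype ≤ (boxSub R' D : Submodule κ (ι → L)) := by
        rintro _ ⟨u, hu, rfl⟩
        have h5 : θ u = 0 := hu
        rw [hθ] at h5
        refine ⟨?_, u.2.2⟩
        have h6 := hrep u.1 u.2.1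
        rw [h5, zero_smul, add_zero] at h6
        rw [Submodule.subtype_apply, h6]
        exact Submodule.sum_mem _ fun i _ => Submodule.smul_mem _ _ (Submodule.subset_span ⟨i, rfl⟩)
      have h5 := (Submodule.equivMapOfInjective (boxSub R D).subtype
        (boxSub R D).injective_subtype (LinearMap.ker θ)).finrank_eq
      rw [h5]
      exact Submodule.finrank_mono h4
    rw [hdeg] at hrr
    push_cast
    have h7 : (finrank κ (boxSub R D) : ℤ) ≤ finrank κ (rr D₁) + finrank κ (boxSub R' D) := by
      rw [← h2]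
      push_cast
      have : (finrank κ (LinearMap.range θ) : ℤ) ≤ finrank κ (rr D₁) := by exact_mod_cast h1
      have : (finrank κ (LinearMap.ker θ) : ℤ) ≤ finrank κ (boxSub R' D) := by exact_mod_cast h3
      linarith
    linarith

/-- **(2b) of paper 619** -/
theorem two_b (h : IsFF κ L) (R : Submodule L (ι → L)) (D : Place κ L →₀ ℤ) :
    ((finrank L R : ℤ) - finrank L (Submodule.span L
      ((boxSub R D : Submodule κ (ι → L)) : Set (ι → L)))) * divDeg D ≤
      ht κ R - ht κ (Submodule.span L ((boxSub R D : Submodule κ (ι → L)) : Set (ι → L))) +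
        finrank L R * genus κ L := by
  set S := Submodule.span L ((boxSub R D : Submodule κ (ι → L)) : Set (ι → L)) with hS
  have hSR : S ≤ R := Submodule.span_le.2 fun u hu => hu.1
  obtain ⟨B, hB1, hB2, hB3⟩ := exists_linearIndependent L
    ((boxSub R D : Submodule κ (ι → L)) : Set (ι → L))
  have hfin : B.Finite := hB3.set_finite_of_isNoetherian
  have : Fintype B := hfin.fintype
  let e : Fin (Fintype.card B) ≃ B := (Fintype.equivFin B).symm
  let v : Fin (Fintype.card B) → ι → L := fun i => (e i).1
  have hv : LinearIndependent L v := hB3.comp _ e.injective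
  have hvr : Set.range v = B := by
    have h1 : v = Subtype.val ∘ e := rfl
    rw [h1, e.surjective.range_comp, Subtype.range_coe]
  have hvS : Submodule.span L (Set.range v) = S := by rw [hvr, hB2]
  have hcard : Fintype.card B = finrank L S := by
    rw [← hvS, finrank_span_eq_card hv, Fintype.card_fin]
  have h1 := finrank_boxSub_le h D _ v hv fun i w k => (hB1 (e i).2).2 w k
  rw [hvS, hcard] at h1
  have h2 := (count_sub h R D).2
  have h3 : (boxSub R D : Submodule κ (ι → L)) = boxSub S D := by
    ext u
    constructor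
    · intro hu
      exact ⟨Submodule.subset_span hu, hu.2⟩
    · intro hu
      exact ⟨hSR hu.1, hu.2⟩
  rw [← h3] at h1
  have h4 : (finrank L S : ℤ) ≤ finrank L R := by exact_mod_cast Submodule.finrank_mono hSR
  nlinarith

end Pool.Agent.Lib.MP_44a246_ntSH
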