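import Mathlib
import Pool.Agent.Lib.MP_44a246_ntS.SB1
import Pool.Agent.Lib.MP_44a246_ntS.SA3

/-!
The height of the row space of a symmetric matrix of rank `ρ` is at most `ρ / 2` times the height of
the matrix (paper 619, (2d)).
-/

namespace Pool.Agent.Lib.MP_44a246_ntSH

open Pool.Agent.Lib.MP_44a246_nt
open Pool.Agent.Lib.MP_44a246_ntL
open Pool.Agent.Lib.MP_44a246_ntS
open WithZero Module

section linear

variable {L : Type*} [Field L] {ι : Type*}

/-- a maximal independent family of rows -/
theorem exists_rows [Fintype ι] (M : ι → ι → L) :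
    ∃ (r : ℕ) (e : Fin r → ι), r = finrank L (Submodule.span L (Set.range M)) ∧
      LinearIndependent L (fun i => M (e i)) ∧
      Submodule.span L (Set.range fun i => M (e i)) = Submodule.span L (Set.range M) := by
  classical
  obtain ⟨b, hb, hb2, hb3⟩ := exists_linearIndependent L (Set.range M)
  have hfin : Finite b := hb3.finite
  have : Fintype b := Fintype.ofFinite b
  have hcard : Fintype.card b = finrank L (Submodule.span L (Set.range M)) := by
    have h1 := finrank_span_eq_card hb3
    rw [Subtype.range_coe_subtype, Set.ofPred_mem_eq, hb2] at h1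
    exact h1.symm
  let E : Fin (Fintype.card b) ≃ b := (Fintype.equivFin b).symm
  choose e he using fun j => hb (E j).2
  refine ⟨Fintype.card b, e, hcard, ?_, ?_⟩
  · have h2 : (fun i => M (e i)) = fun i => ((E i : b) : ι → L) := by
      funext i
      exact he i
    rw [h2]
    exact hb3.comp E E.injective
  · have h3 : (Set.range fun i => M (e i)) = b := by
      ext y
      constructor
      · rintro ⟨i, rfl⟩
        simp only [he i]
        exact (E i).2
      · intro hy
        refine ⟨E.symm ⟨y, hy⟩, ?_⟩
        simp only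
        rw [he, Equiv.apply_symm_apply]
    rw [h3, hb2]

variable {M : ι → ι → L} {r : ℕ} {e : Fin r → ι}

/-- the principal minor of a maximal family of independent rows of a symmetric matrix -/
theorem det_principal (hM : ∀ i j, M i j = M j i) (he : LinearIndependent L (fun i => M (e i)))
    (hs : Submodule.span L (Set.range fun i => M (e i)) = Submodule.span L (Set.range M)) :
    (Matrix.of fun i j => M (e i) (e j)).det ≠ 0 := by
  classical
  intro h0
  obtain ⟨c, hc, hc0⟩ := Matrix.exists_mulVec_eq_zero_iff.2 h0
  have hu0 : ∀ i, ∑ j, c j * M (e j) (e i) = 0 := by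
    intro i
    have h1 := congrFun hc0 i
    unfold Matrix.mulVec dotProduct at h1
    simp only [Matrix.of_apply, Pi.zero_apply] at h1
    rw [← h1]
    refine Finset.sum_congr rfl fun j _ => ?_
    rw [hM (e j) (e i)]
    ring
  have hu : ∀ k, ∑ j, c j * M (e j) k = 0 := by
    intro k
    have h1 : M k ∈ Submodule.span L (Set.range fun i => M (e i)) := by
      rw [hs]
      exact Submodule.subset_span ⟨k, rfl⟩
    obtain ⟨C, hC⟩ := (Submodule.mem_span_range_iff_exists_fun L).1 h1
    have h2 : ∀ j, M (e j) k = ∑ i, C i * M (e i) (e j) := by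
      intro j
      rw [hM (e j) k, ← hC, Finset.sum_apply]
      rfl
    calc ∑ j, c j * M (e j) k = ∑ j, ∑ i, c j * (C i * M (e i) (e j)) := by
          refine Finset.sum_congr rfl fun j _ => ?_
          rw [h2 j, Finset.mul_sum]
      _ = ∑ i, C i * ∑ j, c j * M (e j) (e i) := by
          rw [Finset.sum_comm]
          refine Finset.sum_congr rfl fun i _ => ?_
          rw [Finset.mul_sum]
          refine Finset.sum_congr rfl fun j _ => ?_
          rw [hM (e j) (e i)]
          ring
      _ = 0 := Finset.sum_eq_zero fun i _ => by rw [hu0 i, mul_zero]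
  rw [Fintype.linearIndependent_iff] at he
  have h3 := he c (by
    funext k
    rw [Finset.sum_apply, Pi.zero_apply]
    exact hu k)
  exact hc (funext h3)

/-- the minors of a symmetric matrix -/
theorem det_minors (hM : ∀ i j, M i j = M j i)
    (hs : Submodule.span L (Set.range fun i => M (e i)) = Submodule.span L (Set.range M))
    (f : Fin r → ι) :
    (Matrix.of fun i j => M (f i) (f j)).det * (Matrix.of fun i j => M (e i) (e j)).det =
      (Matrix.of fun i j => M (e i) (f j)).det ^ 2 := by
  have h1 : ∀ k, ∃ C : Fin r → L, ∀ l, M k l = ∑ i, C i * M (e i) l := by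
    intro k
    have h1 : M k ∈ Submodule.span L (Set.range fun i => M (e i)) := by
      rw [hs]
      exact Submodule.subset_span ⟨k, rfl⟩
    obtain ⟨C, hC⟩ := (Submodule.mem_span_range_iff_exists_fun L).1 h1
    refine ⟨C, fun l => ?_⟩
    rw [← hC, Finset.sum_apply]
    rfl
  choose C hC using h1
  have h2 : (Matrix.of fun i j => M (f i) (f j)) =
      (Matrix.of fun i j => C (f i) j) * (Matrix.of fun i j => M (e i) (f j)) := by
    ext i j
    rw [Matrix.mul_apply]
    simp only [Matrix.of_apply]
    exact hC _ _
  have h3 : (Matrix.of fun i j => M (f i) (e j)) =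
      (Matrix.of fun i j => C (f i) j) * (Matrix.of fun i j => M (e i) (e j)) := by
    ext i j
    rw [Matrix.mul_apply]
    simp only [Matrix.of_apply]
    exact hC _ _
  have h4 : (Matrix.of fun i j => M (f i) (e j)).det =
      (Matrix.of fun i j => M (e i) (f j)).det := by
    rw [← Matrix.det_transpose]
    congr 1
    ext i j
    simp only [Matrix.transpose_apply, Matrix.of_apply]
    exact hM _ _
  rw [h3, Matrix.det_mul] at h4
  rw [h2, Matrix.det_mul, pow_two]
  nth_rewrite 3 [← h4]
  ring

end linear

section valuation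

variable {L : Type*} [Field L] (v : Valuation L ℤᵐ⁰)

/-- a determinant with bounded entries -/
theorem det_le {ρ : Type*} [Fintype ρ] [DecidableEq ρ] {A : Matrix ρ ρ L} {τ : ℤᵐ⁰}
    (hA : ∀ i j, v (A i j) ≤ τ) : v A.det ≤ τ ^ Fintype.card ρ := by
  rw [Matrix.det_apply]
  refine Valuation.map_sum_le v fun σ _ => ?_
  have h1 : v (∏ i, A (σ i) i) ≤ τ ^ Fintype.card ρ := by
    rw [map_prod, ← Finset.card_univ, ← Finset.prod_const]
    exact Finset.prod_le_prod' fun i _ => hA _ _
  rcases Int.units_eq_one_or (Equiv.Perm.sign σ) with h2 | h2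
  · rw [h2, one_smul]
    exact h1
  · rw [h2, Units.neg_smul, one_smul, Valuation.map_neg]
    exact h1

variable {ι : Type*} [Fintype ι] {M : ι → ι → L} {r : ℕ} {e : Fin r → ι}

/-- the local inequality -/
theorem pl_sq_le (hM : ∀ i j, M i j = M j i)
    (hs : Submodule.span L (Set.range fun i => M (e i)) = Submodule.span L (Set.range M))
    {τ : ℤᵐ⁰} (hb : ∀ i j, v (M i j) ≤ τ) :
    pl v (fun i => M (e i)) ^ 2 ≤ τ ^ r * v (Matrix.of fun i j => M (e i) (e j)).det := by
  have h1 : ∀ f : Fin r → ι, v (Matrix.of fun i j => M (e i) (f j)).det ^ 2 ≤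
      τ ^ r * v (Matrix.of fun i j => M (e i) (e j)).det := by
    intro f
    rw [← map_pow, ← det_minors hM hs f, map_mul]
    refine mul_le_mul_left ?_ _
    have h2 := det_le v (A := Matrix.of fun i j => M (f i) (f j)) (τ := τ) (fun i j => hb _ _)
    rwa [Fintype.card_fin] at h2
  unfold pl
  by_cases h0 : (fun f : Fin r → ι => (Matrix.of fun i j => M (e i) (f j)).det) = 0
  · have h2 := (vmax_eq_zero_iff v).2 h0
    rw [h2, zero_pow two_ne_zero]
    exact zero_le
  · obtain ⟨f, -, hf, -⟩ := exists_vmax v h0
    rw [hf]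
    exact h1 f

end valuation

variable {κ L : Type*} [Field κ] [IsAlgClosed κ] [CharZero κ] [Field L] [Algebra κ L]
  {ι : Type*} [Fintype ι]

/-- **The height of the row space of a symmetric matrix** -/
theorem ht_rows (h : IsFF κ L) {M : ι → ι → L} (hM : ∀ i j, M i j = M j i) {τ : Place κ L → ℤ}
    (hτ : (Function.support τ).Finite) (hb : ∀ (w : Place κ L) i j, w.1 (M i j) ≤ exp (τ w)) :
    2 * ht κ (Submodule.span L (Set.range M)) ≤
      finrank L (Submodule.span L (Set.range M)) * ∑ᶠ w, τ w := by
  classical
  obtain ⟨r, e, hr, he, hs⟩ := exists_rows M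
  rw [← hr]
  have hdet := det_principal hM he hs
  have hht : ht κ (Submodule.span L (Set.range M)) =
      ∑ᶠ w : Place κ L, log (pl w.1 (fun i => M (e i))) := by
    unfold ht
    refine finsum_pl_eq h ?_ he ?_
    · exact (Module.finBasis L (Submodule.span L (Set.range M))).linearIndependent.map'
        (Submodule.subtype _) (Submodule.ker_subtype _)
    · rw [hs]
      have h1 : (Set.range fun i k => (Module.finBasis L (Submodule.span L (Set.range M)) i :
          ι → L) k) = (Submodule.span L (Set.range M)).subtype ''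
            Set.range (Module.finBasis L (Submodule.span L (Set.range M))) := by
        rw [← Set.range_comp]
        rfl
      rw [h1, ← Submodule.map_span, Basis.span_eq, Submodule.map_top, Submodule.range_subtype]
  have key : ∀ w : Place κ L, 2 * log (pl w.1 (fun i => M (e i))) ≤
      r * τ w + log (w.1 (Matrix.of fun i j => M (e i) (e j)).det) := by
    intro w
    have h1 := pl_sq_le w.1 hM hs (hb w)
    have h2 := pl_ne_zero w.1 he
    have h3 : w.1 (Matrix.of fun i j => M (e i) (e j)).det ≠ 0 := (w.1.ne_zero_iff).2 hdet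
    have h4 := (log_le_log (pow_ne_zero 2 h2) (mul_ne_zero (pow_ne_zero _ exp_ne_zero) h3)).2 h1
    rw [log_pow, log_mul (pow_ne_zero _ exp_ne_zero) h3, log_pow, log_exp, nsmul_eq_mul,
      nsmul_eq_mul] at h4
    push_cast at h4
    exact h4
  have hf1 := pl_support h he
  have hf2 := h.place_support hdet
  have hf3 : (Function.support fun w : Place κ L => 2 * log (pl w.1 (fun i => M (e i)))).Finite :=
    hf1.subset fun w hw h0 => hw (by simp only at h0 ⊢; rw [h0, mul_zero])
  have hf4 : (Function.support fun w : Place κ L => (r : ℤ) * τ w).Finite :=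
    hτ.subset fun w hw h0 => hw (by simp only; rw [h0, mul_zero])
  rw [hht, mul_finsum]
  have h5 : (r : ℤ) * ∑ᶠ w, τ w = ∑ᶠ w : Place κ L,
      (r * τ w + log (w.1 (Matrix.of fun i j => M (e i) (e j)).det)) := by
    rw [finsum_add_distrib hf4 hf2, h.product_formula hdet, add_zero, mul_finsum]
  rw [h5]
  exact finsum_mono hf3 ((hf4.union hf2).subset (Function.support_add _ _)) key

end Pool.Agent.Lib.MP_44a246_ntSH
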