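import Mathlib
import Pool.Agent.Lib.h97s.MaxRank

/-!
The maximal rank in a space of linear maps over `L` which is spanned by a space over an infinite
subfield `κ` is attained in the latter (paper 619, (2d)).
-/

namespace Pool.Agent.Lib.MP_44a246_ntSH

open Module Pool.Agent.Lib.h97s

section

variable {κ L : Type*} [Field κ] [Infinite κ] [Field L] [Algebra κ L]
  {E F : Type*} [AddCommGroup E] [Module L E] [AddCommGroup F] [Module L F] [FiniteDimensional L F]

/-- the rank of `A + c B` is attained for a constant -/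
theorem exists_const (A B : E →ₗ[L] F) (c : L) :
    ∃ c' : κ, finrank L (LinearMap.range (A + c • B)) ≤
      finrank L (LinearMap.range (A + algebraMap κ L c' • B)) := by
  classical
  obtain ⟨T, hT⟩ : ∃ T : E →ₗ[L] F, T = A + c • B := ⟨_, rfl⟩
  rw [← hT]
  let b := finBasis L (LinearMap.range T)
  have hb : ∀ i, ∃ u : E, T u = (b i : F) := fun i => (b i).2
  choose u hu using hb
  have hw : LinearIndependent L fun i => (b i : F) :=
    b.linearIndependent.map' (LinearMap.range T).subtype (Submodule.ker_subtype _)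
  obtain ⟨φ, hφ⟩ := (Fintype.linearCombination L fun i => (b i : F)).exists_leftInverse_of_injective
    (by rw [LinearMap.ker_eq_bot]; exact linearIndependent_iff_injective_fintypeLinearCombination.1 hw)
  have hφb : ∀ i, φ (b i : F) = Pi.single i 1 := by
    intro i
    have h1 : (b i : F) = Fintype.linearCombination L (fun i => (b i : F)) (Pi.single i 1) := by
      rw [Fintype.linearCombination_apply_single, one_smul]
    have h2 := LinearMap.congr_fun hφ (Pi.single i 1)
    rw [LinearMap.comp_apply, ← h1] at h2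
    exact h2
  let P : Matrix (Fin (finrank L (LinearMap.range T))) (Fin (finrank L (LinearMap.range T)))
      (Polynomial L) := Matrix.of fun i j =>
    Polynomial.C (φ (A (u i)) j) + Polynomial.X * Polynomial.C (φ (B (u i)) j)
  have hP : ∀ t : L, P.det.eval t = (Matrix.of fun i j => φ ((A + t • B) (u i)) j).det := by
    intro t
    have h1 : P.det.eval t = Polynomial.evalRingHom t P.det := rfl
    rw [h1, RingHom.map_det]
    congr 1
    ext i j
    simp [P, RingHom.mapMatrix_apply, Matrix.map_apply]
    ring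
  have hP0 : P.det ≠ 0 := by
    intro h0
    have h1 := hP c
    rw [h0, Polynomial.eval_zero] at h1
    have h2 : (Matrix.of fun i j => φ ((A + c • B) (u i)) j) =
        (1 : Matrix (Fin (finrank L (LinearMap.range T))) (Fin (finrank L (LinearMap.range T))) L) := by
      ext i j
      rw [Matrix.of_apply, ← hT, hu, hφb, Matrix.one_apply, Pi.single_apply]
      by_cases hij : i = j
      · rw [if_pos hij, if_pos hij.symm]
      · rw [if_neg hij, if_neg (Ne.symm hij)]
    rw [h2, Matrix.det_one] at h1
    exact zero_ne_one h1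
  obtain ⟨c', hc'⟩ : ∃ c' : κ, P.det.eval (algebraMap κ L c') ≠ 0 := by
    by_contra hcon
    push Not at hcon
    apply hP0
    refine Polynomial.eq_zero_of_infinite_isRoot _ ?_
    refine Set.Infinite.mono (s := Set.range (algebraMap κ L)) ?_
      (Set.infinite_range_of_injective (algebraMap κ L).injective)
    rintro _ ⟨c', rfl⟩
    exact hcon c'
  refine ⟨c', ?_⟩
  rw [hP] at hc'
  have h1 : LinearIndependent L fun i => φ ((A + algebraMap κ L c' • B) (u i)) := by
    have h2 : IsUnit (Matrix.of fun i j => φ ((A + algebraMap κ L c' • B) (u i)) j) := by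
      rw [Matrix.isUnit_iff_isUnit_det]
      exact isUnit_iff_ne_zero.2 hc'
    rw [← Matrix.linearIndependent_rows_iff_isUnit] at h2
    exact h2
  have h2 : LinearIndependent L fun i =>
      (⟨(A + algebraMap κ L c' • B) (u i), u i, rfl⟩ :
        LinearMap.range (A + algebraMap κ L c' • B)) := by
    refine LinearIndependent.of_comp (φ.comp (LinearMap.range _).subtype) ?_
    exact h1
  have h3 := h2.fintype_card_le_finrank
  rwa [Fintype.card_fin] at h3

/-- the maximal rank in the span is attained in the space itself -/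
theorem exists_rank_le (S : AddSubmonoid (E →ₗ[L] F))
    (hS : ∀ (c : κ), ∀ T ∈ S, algebraMap κ L c • T ∈ S) {T : E →ₗ[L] F}
    (hT : T ∈ Submodule.span L (S : Set (E →ₗ[L] F))) :
    ∃ T₀ ∈ S, finrank L (LinearMap.range T) ≤ finrank L (LinearMap.range T₀) := by
  have key : ∀ A : E →ₗ[L] F, ∃ T₀ ∈ S,
      finrank L (LinearMap.range (A + T)) ≤ finrank L (LinearMap.range (A + T₀)) := by
    induction hT using Submodule.closure_induction with
    | zero => exact fun A => ⟨0, S.zero_mem, le_rfl⟩
    | add x y _ _ hx hy =>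
      intro A
      obtain ⟨T₁, hT₁, h1⟩ := hy (A + x)
      obtain ⟨T₂, hT₂, h2⟩ := hx (A + T₁)
      refine ⟨T₂ + T₁, S.add_mem hT₂ hT₁, ?_⟩
      have e1 : A + (x + y) = A + x + y := by abel
      have e2 : A + x + T₁ = A + T₁ + x := by abel
      have e3 : A + (T₂ + T₁) = A + T₁ + T₂ := by abel
      rw [e1, e3]
      rw [e2] at h1
      exact h1.trans h2
    | smul_mem r x hx =>
      intro A
      obtain ⟨c', hc'⟩ := exists_const (κ := κ) A x r
      exact ⟨_, hS c' x hx, hc'⟩
  obtain ⟨T₀, hT₀, h1⟩ := key 0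
  rw [zero_add, zero_add] at h1
  exact ⟨T₀, hT₀, h1⟩

/-- **The lemma of the maximal rank**, for the span of a space over the constants -/
theorem max_rank_span (S : AddSubmonoid (E →ₗ[L] F))
    (hS : ∀ (c : κ), ∀ T ∈ S, algebraMap κ L c • T ∈ S) :
    ∃ T₀ ∈ S, (∀ T ∈ Submodule.span L (S : Set (E →ₗ[L] F)),
        finrank L (LinearMap.range T) ≤ finrank L (LinearMap.range T₀)) ∧
      ∀ T ∈ Submodule.span L (S : Set (E →ₗ[L] F)), ∀ v, T₀ v = 0 → T v ∈ LinearMap.range T₀ := by
  have : Infinite L := Infinite.of_injective _ (algebraMap κ L).injective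
  obtain ⟨T₁, hT₁, h1, -⟩ := max_rank_submodule (Submodule.span L (S : Set (E →ₗ[L] F)))
  obtain ⟨T₀, hT₀, h2⟩ := exists_rank_le (κ := κ) S hS hT₁
  have h3 : ∀ T ∈ Submodule.span L (S : Set (E →ₗ[L] F)),
      finrank L (LinearMap.range T) ≤ finrank L (LinearMap.range T₀) :=
    fun T hT => (h1 T hT).trans h2
  refine ⟨T₀, hT₀, h3, fun T hT v hv => max_rank (fun t => ?_) hv⟩
  exact h3 _ (Submodule.add_mem _ (Submodule.subset_span hT₀) (Submodule.smul_mem _ t hT))

end

end Pool.Agent.Lib.MP_44a246_ntSH
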