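import Mathlib
import Pool.Agent.Lib.MP_44a246_ntR.GR2
import Pool.Agent.Lib.MP_44a246_ntSH.Q1
import Pool.Agent.Lib.MP_44a246_ntSH.Q2
import Pool.Agent.Lib.MP_44a246_ntSH.P3
import Pool.Agent.Lib.MP_44a246_ntSH.SRel

/-!
Functionals on quadratic forms: the matrix, the height of the space of the contractions, elements of
maximal rank with bounded coordinates (paper 619, (2d)).
-/

namespace Pool.Agent.Lib.MP_44a246_ntSH

open Pool.Agent.Lib.MP_44a246_nt
open Pool.Agent.Lib.MP_44a246_ntL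
open Pool.Agent.Lib.MP_44a246_ntS
open Pool.Agent.Lib.MP_44a246_ntF
open Pool.Agent.Lib.MP_44a246_ntR
open Pool.Agent.Lib.MP_e52354_nt
open WithZero Module VFSharp

section

variable {L : Type*} [Field L] {n : ℕ}

/-- the symmetric matrix of a functional on quadratic forms -/
noncomputable def Mq (q : EX n 2 → L) : EX n 1 → EX n 1 → L :=
  fun φ => cf (MvPolynomial.monomial φ.1 1) 1 q

theorem Mq_apply (q : EX n 2 → L) (φ ψ : EX n 1) : Mq q φ ψ = ex q (ψ.1 + φ.1) := by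
  unfold Mq
  rw [cf_apply, MvPolynomial.monomial_mul, mul_one, pr_monomial, one_mul]

theorem Mq_symm (q : EX n 2 → L) (φ ψ : EX n 1) : Mq q φ ψ = Mq q ψ φ := by
  rw [Mq_apply, Mq_apply, add_comm]

theorem Mq_le (v : Valuation L ℤᵐ⁰) {q : EX n 2 → L} {B : ℤᵐ⁰} (hq : ∀ K, v (q K) ≤ B)
    (φ ψ : EX n 1) : v (Mq q φ ψ) ≤ B := by
  rw [Mq_apply]
  unfold ex
  split_ifs
  · exact hq _
  · rw [map_zero]; exact zero_le

theorem span_Mq (q : EX n 2 → L) : Submodule.span L (Set.range (Mq q)) = lam 1 (L ∙ q) := by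
  apply le_antisymm
  · rw [Submodule.span_le]
    rintro _ ⟨φ, rfl⟩
    exact cf_mem_lam (j := 1) rfl (Submodule.mem_span_singleton_self q)
      (MvPolynomial.isHomogeneous_monomial _ (mem_expo.1 φ.2))
  · refine lam_le fun φ u hu => ?_
    obtain ⟨c, rfl⟩ := Submodule.mem_span_singleton.1 hu
    rw [map_smul]
    exact Submodule.smul_mem _ _ (Submodule.subset_span ⟨φ, rfl⟩)

/-- the linear map of a functional on quadratic forms -/
noncomputable def Tq : (EX n 2 → L) →ₗ[L] ((EX n 1 → L) →ₗ[L] (EX n 1 → L)) where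
  toFun q := Fintype.linearCombination L (Mq q)
  map_add' q q' := by
    refine LinearMap.ext fun f => ?_
    simp only [Fintype.linearCombination_apply, LinearMap.add_apply, Mq, map_add, smul_add,
      Finset.sum_add_distrib]
  map_smul' c q := by
    refine LinearMap.ext fun f => ?_
    simp only [Fintype.linearCombination_apply, LinearMap.smul_apply, Mq, map_smul,
      RingHom.id_apply, Finset.smul_sum]
    exact Finset.sum_congr rfl fun φ _ => smul_comm _ _ _

theorem Tq_apply (q : EX n 2 → L) (f : EX n 1 → L) (ψ : EX n 1) :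
    Tq q f ψ = ∑ φ, f φ * Mq q φ ψ := by
  change Fintype.linearCombination L (Mq q) f ψ = _
  rw [Fintype.linearCombination_apply, Finset.sum_apply]
  rfl

theorem range_Tq (q : EX n 2 → L) : LinearMap.range (Tq q) = lam 1 (L ∙ q) := by
  rw [← span_Mq]
  exact Fintype.range_linearCombination L (Mq q)

/-- contraction by a linear form -/
theorem cf_eq_Tq (q : EX n 2 → L) {f : MvPolynomial (Fin n) L} (hf : f.IsHomogeneous 1) :
    cf f 1 q = Tq q fun φ => f.coeff φ.1 := by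
  funext ψ
  have h1 : cf f 1 q ψ = pr (Mq q ψ) f := by
    unfold Mq
    rw [pr_cf _ _ hf, cf_apply, mul_comm]
  rw [h1, ← prn_eq, Tq_apply]
  unfold prn
  refine Finset.sum_congr rfl fun φ _ => ?_
  rw [Mq_symm]

/-- a linear form which vanishes on the space of the contractions is in the kernel -/
theorem cf_eq_zero_of_ann {q : EX n 2 → L} {f : MvPolynomial (Fin n) L} (hf : f.IsHomogeneous 1)
    (hq : ∀ y ∈ lam 1 (L ∙ q), pr y f = 0) : cf f 1 q = 0 := by
  funext ψ
  have h1 : cf f 1 q ψ = pr (Mq q ψ) f := by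
    unfold Mq
    rw [pr_cf _ _ hf, cf_apply, mul_comm]
  rw [h1, Pi.zero_apply]
  apply hq
  rw [← span_Mq]
  exact Submodule.subset_span ⟨ψ, rfl⟩

end

variable {κ L : Type*} [Field κ] [IsAlgClosed κ] [CharZero κ] [Field L] [Algebra κ L] {n : ℕ}

/-- **The height of the space of the contractions** of a functional on quadratic forms. -/
theorem ht_lam_le (h : IsFF κ L) {q : EX n 2 → L} {τ : Place κ L → ℤ}
    (hτ : (Function.support τ).Finite) (hb : ∀ (w : Place κ L) k, w.1 (q k) ≤ exp (τ w)) :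
    2 * ht κ (lam 1 (L ∙ q)) ≤ finrank L (lam 1 (L ∙ q)) * ∑ᶠ w, τ w := by
  rw [← span_Mq]
  exact ht_rows h (Mq_symm q) hτ fun w φ ψ => Mq_le w.1 (hb w) φ ψ

/-- **The lemma of the maximal rank** for functionals on quadratic forms with bounded coordinates
(paper 619, (2d)). -/
theorem maxrank_D (h : IsFF κ L) (Λ : Submodule L (EX n 2 → L)) (D : Place κ L →₀ ℤ) :
    ∃ q ∈ Λ, (∀ (w : Place κ L) k, w.1 (q k) ≤ exp (D w)) ∧
      (∀ q' ∈ Submodule.span L (boxSub Λ D : Set (EX n 2 → L)),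
        finrank L (lam 1 (L ∙ q')) ≤ finrank L (lam 1 (L ∙ q))) ∧
      2 * ht κ (lam 1 (L ∙ q)) ≤ finrank L (lam 1 (L ∙ q)) * divDeg D ∧
      (∀ q' ∈ Submodule.span L (boxSub Λ D : Set (EX n 2 → L)), ∀ f : MvPolynomial (Fin n) L,
        f.IsHomogeneous 1 → (∀ y ∈ lam 1 (L ∙ q), pr y f = 0) → cf f 1 q' ∈ lam 1 (L ∙ q)) ∧
      (∀ q' ∈ Submodule.span L (boxSub Λ D : Set (EX n 2 → L)), ∀ f g : MvPolynomial (Fin n) L,
        f.IsHomogeneous 1 → g.IsHomogeneous 1 → (∀ y ∈ lam 1 (L ∙ q), pr y f = 0) →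
        (∀ y ∈ lam 1 (L ∙ q), pr y g = 0) → pr q' (f * g) = 0) ∧
      ∀ x : Fin n → L, xm 2 x ∈ Submodule.span L (boxSub Λ D : Set (EX n 2 → L)) →
        xm 1 x ∈ lam 1 (L ∙ q) := by
  classical
  let S : AddSubmonoid ((EX n 1 → L) →ₗ[L] (EX n 1 → L)) :=
    (boxSub Λ D).toAddSubmonoid.map (Tq (L := L) (n := n)).toAddMonoidHom
  have hS : ∀ (c : κ), ∀ T ∈ S, algebraMap κ L c • T ∈ S := by
    rintro c _ ⟨q, hq, rfl⟩
    refine ⟨c • q, (boxSub Λ D).smul_mem c hq, ?_⟩
    change Tq (c • q) = algebraMap κ L c • Tq q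
    rw [← map_smul]
    congr 1
    funext k
    rw [Pi.smul_apply, Pi.smul_apply, Algebra.smul_def, smul_eq_mul]
  have hspan : ∀ q ∈ Submodule.span L (boxSub Λ D : Set (EX n 2 → L)),
      Tq q ∈ Submodule.span L (S : Set ((EX n 1 → L) →ₗ[L] (EX n 1 → L))) := by
    intro q hq
    have h1 : Submodule.span L (S : Set ((EX n 1 → L) →ₗ[L] (EX n 1 → L))) =
        (Submodule.span L (boxSub Λ D : Set (EX n 2 → L))).map Tq := by
      rw [Submodule.map_span]
      rfl
    rw [h1]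
    exact ⟨q, hq, rfl⟩
  obtain ⟨T₀, ⟨q, hq, rfl⟩, h1, h2⟩ := max_rank_span S hS
  have hq' : q ∈ boxSub Λ D := hq
  have h1' : ∀ q' ∈ Submodule.span L (boxSub Λ D : Set (EX n 2 → L)),
        finrank L (lam 1 (L ∙ q')) ≤ finrank L (lam 1 (L ∙ q)) := by
    intro q' hq'
    have h3 := h1 _ (hspan q' hq')
    change finrank L (LinearMap.range (Tq q')) ≤ finrank L (LinearMap.range (Tq q)) at h3
    rwa [range_Tq, range_Tq] at h3
  have h2' : ∀ q' ∈ Submodule.span L (boxSub Λ D : Set (EX n 2 → L)),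
      ∀ f : MvPolynomial (Fin n) L, f.IsHomogeneous 1 →
        (∀ y ∈ lam 1 (L ∙ q), pr y f = 0) → cf f 1 q' ∈ lam 1 (L ∙ q) := by
    intro q' hq' f hf hfy
    have h3 := h2 _ (hspan q' hq') (fun φ => f.coeff φ.1) (by
      change Tq q (fun φ => f.coeff φ.1) = 0
      rw [← cf_eq_Tq q hf]
      exact cf_eq_zero_of_ann hf hfy)
    change Tq q' (fun φ => f.coeff φ.1) ∈ LinearMap.range (Tq q) at h3
    rw [← cf_eq_Tq q' hf, range_Tq] at h3
    exact h3
  refine ⟨q, (mem_boxSub.1 hq').1, (mem_boxSub.1 hq').2, h1', ?_, h2', ?_, ?_⟩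
  · rw [divDeg_eq_finsum_gr2]
    refine ht_lam_le h ?_ (mem_boxSub.1 hq').2
    exact D.hasFiniteSupport.subset fun w hw => hw
  · intro q' hq'' f g hf hg hfy hgy
    rw [← pr_cf g q' hf]
    exact hfy _ (h2' q' hq'' g hg hgy)
  · intro x hx
    refine mem_of_AnnF fun f hf => ?_
    obtain ⟨hf1, hf2⟩ := mem_AnnF.1 hf
    by_contra hne
    apply hne
    apply hf2
    have h3 := h2' _ hx f hf1 hf2
    rw [cf_xm hf1 (i := 1) rfl] at h3
    rw [pr_xm x hf1] at hne
    have h4 := (lam 1 (L ∙ q)).smul_mem (MvPolynomial.eval x f)⁻¹ h3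
    rwa [smul_smul, inv_mul_cancel₀ hne, one_smul] at h4

end Pool.Agent.Lib.MP_44a246_ntSH
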