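import Mathlib
import Pool.Agent.Lib.MP_44a246_ntSH.Q3
import Pool.Agent.Lib.MP_44a246_ntSH.H12

/-!
Paper 619, (2c) and (2d): if all the functionals on `Λ` have degree at most `a`, then `Λ` is spanned
by its elements with bounded coordinates; a functional on quadratic forms of maximal rank and small
height. The upper half of (2b) is a hypothesis here.
-/

namespace Pool.Agent.Lib.MP_44a246_ntSH

open Pool.Agent.Lib.MP_44a246_nt
open Pool.Agent.Lib.MP_44a246_ntL
open Pool.Agent.Lib.MP_44a246_ntS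
open Pool.Agent.Lib.MP_44a246_ntF
open Pool.Agent.Lib.MP_44a246_ntR
open Pool.Agent.Lib.MP_e52354_nt
open WithZero Module VFSharp

variable {κ L : Type*} [Field κ] [IsAlgClosed κ] [CharZero κ] [Field L] [Algebra κ L] {n e : ℕ}

/-- the statement (2b) -/
def TwoB (κ : Type*) {L : Type*} [Field κ] [Field L] [Algebra κ L] {ι : Type*} [Fintype ι]
    (R : Submodule L (ι → L)) (D : Place κ L →₀ ℤ) : Prop :=
  ((finrank L R : ℤ) - finrank L (Submodule.span L
      ((boxSub R D : Submodule κ (ι → L)) : Set (ι → L)))) * divDeg D ≤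
    ht κ R - ht κ (Submodule.span L ((boxSub R D : Submodule κ (ι → L)) : Set (ι → L))) +
      finrank L R * genus κ L

/-- **(2c)** from (2b) -/
theorem span_box_eq_of (h : IsFF κ L) {Λ : Submodule L (EX n e → L)} {a : ℤ}
    (hf : ∀ (f : MvPolynomial (Fin n) L) (τ : Place κ L → ℤ) (a' : ℤ), Fnl κ Λ a' f τ → a' ≤ a)
    {D : Place κ L →₀ ℤ} (hD : a + (finrank L Λ + 1) * genus κ L + 1 ≤ divDeg D)
    (h2 : TwoB κ Λ D) :
    Submodule.span L ((boxSub Λ D : Submodule κ (EX n e → L)) : Set (EX n e → L)) = Λ := by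
  unfold TwoB at h2
  set R : Submodule L (EX n e → L) :=
    Submodule.span L ((boxSub Λ D : Submodule κ (EX n e → L)) : Set (EX n e → L)) with hR
  have hle : R ≤ Λ := Submodule.span_le.2 fun v hv => (mem_boxSub.1 hv).1
  by_contra hne
  have hlt : finrank L R < finrank L Λ := Submodule.finrank_lt_finrank_of_lt (lt_of_le_of_ne hle hne)
  have h3 : ht κ Λ - ht κ R < ((finrank L Λ : ℤ) - finrank L R) * (a + 1 + genus κ L) := by
    by_contra h4
    push Not at h4
    obtain ⟨l, τ, hτ, hsum, -, hl, hm⟩ := siegel_rel_height h hle hne h4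
    have h5 := hf _ _ _ (fnl_of_row hτ hsum hl hm)
    omega
  have h4 : (1 : ℤ) ≤ (finrank L Λ : ℤ) - finrank L R := by
    have : (finrank L R : ℤ) < finrank L Λ := by exact_mod_cast hlt
    omega
  have h5 : (0 : ℤ) ≤ finrank L Λ * genus κ L := by positivity
  have h6 : (finrank L Λ : ℤ) * genus κ L ≤ divDeg D - (a + 1 + genus κ L) := by linarith
  have h7 : ((finrank L Λ : ℤ) - finrank L R) * ((finrank L Λ : ℤ) * genus κ L) ≤
      ((finrank L Λ : ℤ) - finrank L R) * (divDeg D - (a + 1 + genus κ L)) :=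
    mul_le_mul_of_nonneg_left h6 (by omega)
  have h8 : 1 * ((finrank L Λ : ℤ) * genus κ L) ≤
      ((finrank L Λ : ℤ) - finrank L R) * ((finrank L Λ : ℤ) * genus κ L) :=
    mul_le_mul_of_nonneg_right h4 h5
  linarith

/-- **(2c), (2d)** from (2b): a functional on quadratic forms of maximal rank and small height -/
theorem exists_maxrank_of (h : IsFF κ L) {Λ : Submodule L (EX n 2 → L)} {a : ℤ}
    (hf : ∀ (f : MvPolynomial (Fin n) L) (τ : Place κ L → ℤ) (a' : ℤ), Fnl κ Λ a' f τ → a' ≤ a)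
    (h2 : ∀ D : Place κ L →₀ ℤ, TwoB κ Λ D) :
    ∃ q ∈ Λ, (∀ q' ∈ Λ, finrank L (lam 1 (L ∙ q')) ≤ finrank L (lam 1 (L ∙ q))) ∧
      2 * ht κ (lam 1 (L ∙ q)) ≤
        finrank L (lam 1 (L ∙ q)) * (a + (finrank L Λ + 1) * genus κ L + 1) ∧
      (∀ q' ∈ Λ, ∀ f : MvPolynomial (Fin n) L, f.IsHomogeneous 1 →
        (∀ y ∈ lam 1 (L ∙ q), pr y f = 0) → cf f 1 q' ∈ lam 1 (L ∙ q)) ∧
      ∀ x : Fin n → L, xm 2 x ∈ Λ → xm 1 x ∈ lam 1 (L ∙ q) := by
  obtain ⟨P⟩ := exists_place h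
  obtain ⟨q, hq, -, h3, h4, h5, -, h6⟩ := maxrank_D h Λ
    (Finsupp.single P (a + (finrank L Λ + 1) * genus κ L + 1))
  rw [span_box_eq_of h hf (by rw [divDeg_single]) (h2 _)] at h3 h5 h6
  rw [divDeg_single] at h4
  exact ⟨q, hq, h3, h4, h5, h6⟩

end Pool.Agent.Lib.MP_44a246_ntSH
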