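import Mathlib
import Pool.Agent.Lib.MP_44a246_ntSH.Q4
import Pool.Agent.Lib.MP_44a246_ntSH.B05

/-!
Paper 619, (2c) and (2d).
-/

namespace Pool.Agent.Lib.MP_44a246_ntSH

open Pool.Agent.Lib.MP_44a246_nt
open Pool.Agent.Lib.MP_44a246_ntL
open Pool.Agent.Lib.MP_44a246_ntS
open Pool.Agent.Lib.MP_44a246_ntF
open Pool.Agent.Lib.MP_44a246_ntR
open Pool.Agent.Lib.MP_e52354_nt
open WithZero Module VFSharp

variable {κ L : Type*} [Field κ] [IsAlgClosed κ] [CharZero κ] [Field L] [Algebra κ L] {n e : ℕ}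

/-- **(2c)** If all the functionals on `Λ` have degree at most `a`, then `Λ` is spanned by its
elements with coordinates bounded by a divisor of degree a little larger than `a`. -/
theorem span_box_eq (h : IsFF κ L) {Λ : Submodule L (EX n e → L)} {a : ℤ}
    (hf : ∀ (f : MvPolynomial (Fin n) L) (τ : Place κ L → ℤ) (a' : ℤ), Fnl κ Λ a' f τ → a' ≤ a)
    {D : Place κ L →₀ ℤ} (hD : a + (finrank L Λ + 1) * genus κ L + 1 ≤ divDeg D) :
    Submodule.span L ((boxSub Λ D : Submodule κ (EX n e → L)) : Set (EX n e → L)) = Λ :=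
  span_box_eq_of h hf hD (two_b h Λ D)

/-- **(2c), (2d)** A functional on quadratic forms of maximal rank and small height, if all the
functionals on `Λ` have degree at most `a`. -/
theorem exists_maxrank (h : IsFF κ L) {Λ : Submodule L (EX n 2 → L)} {a : ℤ}
    (hf : ∀ (f : MvPolynomial (Fin n) L) (τ : Place κ L → ℤ) (a' : ℤ), Fnl κ Λ a' f τ → a' ≤ a) :
    ∃ q ∈ Λ, (∀ q' ∈ Λ, finrank L (lam 1 (L ∙ q')) ≤ finrank L (lam 1 (L ∙ q))) ∧
      2 * ht κ (lam 1 (L ∙ q)) ≤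
        finrank L (lam 1 (L ∙ q)) * (a + (finrank L Λ + 1) * genus κ L + 1) ∧
      (∀ q' ∈ Λ, ∀ f : MvPolynomial (Fin n) L, f.IsHomogeneous 1 →
        (∀ y ∈ lam 1 (L ∙ q), pr y f = 0) → cf f 1 q' ∈ lam 1 (L ∙ q)) ∧
      ∀ x : Fin n → L, xm 2 x ∈ Λ → xm 1 x ∈ lam 1 (L ∙ q) :=
  exists_maxrank_of h hf fun D => two_b h Λ D

/-- the form of helper13's message -/
theorem maxrank (h : IsFF κ L) {x : Fin n → L} {Λ : Submodule L (EX n 2 → L)} (hx : xm 2 x ∈ Λ)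
    {a : ℤ}
    (hf : ∀ (f : MvPolynomial (Fin n) L) (τ : Place κ L → ℤ) (a' : ℤ), Fnl κ Λ a' f τ → a' ≤ a) :
    ∃ q ∈ Λ, (∀ q' ∈ Λ, finrank L (lam 1 (L ∙ q')) ≤ finrank L (lam 1 (L ∙ q))) ∧
      xm 1 x ∈ lam 1 (L ∙ q) ∧
      2 * ht κ (lam 1 (L ∙ q)) ≤
        finrank L (lam 1 (L ∙ q)) * (a + (finrank L Λ + 1) * genus κ L + 1) := by
  obtain ⟨q, h1, h2, h3, -, h4⟩ := exists_maxrank h hf
  exact ⟨q, h1, h2, h4 x hx, h3⟩

end Pool.Agent.Lib.MP_44a246_ntSH
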