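import Mathlib
import Pool.Agent.Lib.MP_44a246_ntSH.B02
import Pool.Agent.Lib.MP_44a246_ntSH.B07

/-!
Paper 619, (B4): the dimension and the cost of `lam 2 W`.
-/

namespace Pool.Agent.Lib.MP_44a246_ntSH

open Pool.Agent.Lib.MP_44a246_nt
open Pool.Agent.Lib.MP_44a246_ntL
open Pool.Agent.Lib.MP_44a246_ntS
open Pool.Agent.Lib.MP_44a246_ntF
open Pool.Agent.Lib.MP_44a246_ntO
open Pool.Agent.Lib.MP_44a246_ntX
open Pool.Agent.Lib.MP_44a246_ntR (genus)
open Pool.Agent.Lib.MP_e52354_nt
open WithZero Module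

section

variable {L : Type*} [Field L] {n e : ℕ}

theorem cb_lam_sup {i : ℕ} (A B : Submodule L (EX n e → L)) :
    lam i (A ⊔ B) ≤ lam i A ⊔ lam i B := by
  refine lam_le fun φ u hu => ?_
  obtain ⟨a, ha, b, hb, rfl⟩ := Submodule.mem_sup.1 hu
  rw [map_add]
  exact Submodule.add_mem_sup (Submodule.mem_iSup_of_mem φ ⟨a, ha, rfl⟩)
    (Submodule.mem_iSup_of_mem φ ⟨b, hb, rfl⟩)

theorem cb_lam_family {i r : ℕ} : ∀ (m : ℕ) (v : Fin m → EX n e → L),
    (∀ j, finrank L (lam i (L ∙ v j)) ≤ r) →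
    finrank L (lam i (Submodule.span L (Set.range v))) ≤ m * r := by
  intro m
  induction m with
  | zero =>
    intro v _
    have h1 : Submodule.span L (Set.range v) = ⊥ := by
      rw [Submodule.span_eq_bot]
      rintro _ ⟨j, _⟩
      exact j.elim0
    have h2 : lam i (⊥ : Submodule L (EX n e → L)) = ⊥ := by
      rw [eq_bot_iff]
      refine lam_le fun φ u hu => ?_
      rw [(Submodule.mem_bot L).1 hu, map_zero]
      exact Submodule.zero_mem _
    rw [h1, h2, finrank_bot]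
    exact Nat.zero_le _
  | succ m ih =>
    intro v hv
    have h1 : Submodule.span L (Set.range v) =
        Submodule.span L (Set.range fun j : Fin m => v j.castSucc) ⊔ (L ∙ v (Fin.last m)) := by
      rw [← Submodule.span_union]
      congr 1
      ext y
      constructor
      · rintro ⟨j, rfl⟩
        rcases Fin.eq_castSucc_or_eq_last j with ⟨j, rfl⟩ | rfl
        · exact Or.inl ⟨j, rfl⟩
        · exact Or.inr rfl
      · rintro (⟨j, rfl⟩ | h2)
        · exact ⟨_, rfl⟩
        · rw [Set.mem_singleton_iff] at h2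
          exact ⟨Fin.last m, h2.symm⟩
    rw [h1]
    have h2 := Submodule.finrank_mono (cb_lam_sup (i := i)
      (Submodule.span L (Set.range fun j : Fin m => v j.castSucc)) (L ∙ v (Fin.last m)))
    have h3 := Submodule.finrank_add_le_finrank_add_finrank
      (lam i (Submodule.span L (Set.range fun j : Fin m => v j.castSucc)))
      (lam i (L ∙ v (Fin.last m)))
    have h4 := ih (fun j => v j.castSucc) fun j => hv _
    have h5 := hv (Fin.last m)
    have h6 : (m + 1) * r = m * r + r := by ring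
    omega

theorem cb_lam_sum {i r : ℕ} (Λ : Submodule L (EX n e → L))
    (hr : ∀ q ∈ Λ, finrank L (lam i (L ∙ q)) ≤ r) : finrank L (lam i Λ) ≤ finrank L Λ * r := by
  obtain ⟨β, h1, h2⟩ := SB2b_basis Λ
  have h3 := cb_lam_family (i := i) (r := r) _ β fun j => hr _ (by
    rw [← h2]
    exact Submodule.subset_span ⟨j, rfl⟩)
  rwa [h2] at h3

end

variable {κ L : Type*} [Field κ] [IsAlgClosed κ] [CharZero κ] [Field L] [Algebra κ L]
  {n d : ℕ} {x : Fin (n + 1) → L} {C₀ M E : ℝ}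

/-- the maximiser at `H / 2 n` has cost at least `H / 2` -/
theorem cb_cost_half (h : IsFF κ L) (hyp : Hyp κ x d C₀ M E) (hn1 : 1 ≤ n)
    {W : Submodule L (EX (n + 1) d → L)} (hW : IsSl κ (1 / 2 * height κ x / n) (xm d x) W) :
    height κ x / 2 ≤ d * (height κ x : ℝ) - ht κ W := by
  obtain ⟨U, h1, h2, h3⟩ := cb_U h hyp
  have h4 := cb_max h hW h1
  have hH := hyp.cb_pos
  have hH0 : (0 : ℝ) < height κ x := by linarith
  have hnpos : (0 : ℝ) < n := by exact_mod_cast hn1
  have h5 := cb_one_le hyp.ne hW.mem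
  have h6 : (1 : ℝ) ≤ (d : ℝ) - n - 1 := by
    have : ((n + 2 : ℕ) : ℝ) ≤ d := by exact_mod_cast hyp.hd
    push_cast at this
    linarith
  have h7 : (height κ x : ℝ) ≤ ((d : ℝ) - n - 1) * height κ x := by nlinarith
  have hE : (2 * (n : ℝ)) * (E + genus κ L + 1) ≤ height κ x := hyp.cb_big (by
    have := Hyp.cb_pow (n := n) hn1
    nlinarith)
  have hg : (0 : ℝ) ≤ genus κ L := Nat.cast_nonneg _
  have hE2 : E ≤ 1 / 2 * height κ x / n := by
    rw [le_div_iff₀ hnpos]
    nlinarith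
  have h8 : (finrank L U : ℝ) ≤ n := by exact_mod_cast h2
  have h9 : 1 / 2 * (height κ x : ℝ) / n * (finrank L U - finrank L W) ≤
      1 / 2 * (height κ x : ℝ) / n * (n - 1) :=
    mul_le_mul_of_nonneg_left (by linarith) (by positivity)
  have h10 : 1 / 2 * (height κ x : ℝ) / n * (n - 1) =
      height κ x / 2 - 1 / 2 * (height κ x : ℝ) / n := by field_simp
  have h11 : 1 / 2 * (height κ x : ℝ) / n * (finrank L U - finrank L W) =
      1 / 2 * (height κ x : ℝ) / n * finrank L U - 1 / 2 * (height κ x : ℝ) / n * finrank L W := by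
    ring
  rw [h10, h11] at h9
  linarith

/-- (B4): the dimension of `lam 1 W` -/
theorem cb_dim_one (h : IsFF κ L) (hyp : Hyp κ x d C₀ M E) (hn1 : 1 ≤ n)
    {W : Submodule L (EX (n + 1) d → L)} (hW : IsSl κ (1 / 2 * height κ x / n) (xm d x) W) :
    (height κ x : ℝ) < finrank L (lam 1 W) * (2 * M + 1 + genus κ L) := by
  by_contra hcon
  push Not at hcon
  have hH := hyp.cb_pos
  have hH0 : (0 : ℝ) < height κ x := by linarith
  have hnpos : (0 : ℝ) < n := by exact_mod_cast hn1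
  have hd1 : 1 ≤ d := by have := hyp.hd; omega
  have hc := cb_cost_half h hyp hn1 hW
  have hxm : xm 1 x ∈ lam 1 W := xm_mem_lam hd1 hyp.ne hW.mem
  have hs := cb_slope_one h hyp.ne hyp.slope hxm
  have h1 := cb_one_le hyp.ne hxm
  have hM := hyp.pos
  have hg : (0 : ℝ) ≤ genus κ L := Nat.cast_nonneg _
  set D : ℝ := (finrank L (lam 1 W) : ℝ) with hD
  have hne : lam 1 W ≠ ⊥ := by
    intro h0
    rw [hD, h0, finrank_bot] at h1
    norm_num at h1
  -- a functional of degree larger than `M`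
  have hfl : (⌊M⌋ : ℝ) ≤ M := Int.floor_le M
  have hfl2 : M < (⌊M⌋ : ℝ) + 1 := Int.lt_floor_add_one M
  have h2 : D * (((⌊M⌋ + 1 : ℤ) : ℝ) + genus κ L) ≤ ht κ (lam 1 W) := by
    push_cast
    have h3 : D * ((⌊M⌋ : ℝ) + 1 + genus κ L) ≤ D * (M + 1 + genus κ L) :=
      mul_le_mul_of_nonneg_left (by linarith) (by linarith)
    nlinarith
  obtain ⟨f, τ, hf⟩ := exists_fnl h hne (a := ⌊M⌋ + 1) (by
    rw [hD] at h2
    exact_mod_cast h2)
  have ht0 : 0 < 1 / 2 * (height κ x : ℝ) / n := by positivity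
  have hHas := cb_hasSl hW
  obtain ⟨R, hRW, hxR, hdim, hcost⟩ := p3b h hyp.ne hyp.slope (i := 1) (k := 1) (by omega) le_rfl
    hHas (by push_cast; linarith) (by push_cast; linarith) hf
  push_cast at hcost
  have hR0 : (0 : ℝ) ≤ ht κ R := by exact_mod_cast ht_nonneg h R
  obtain ⟨Q, hQ1, hQ2, hQ3⟩ := contact h hyp.ne hd1 hRW hW.mem hxR hdim
  have hQs := cb_slope_one h hyp.ne hyp.slope hQ2
  have hQc : height κ x / 2 ≤ (height κ x : ℝ) - ht κ Q := by
    rcases hQ3 with hQ3 | hQ3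
    · linarith
    · have : (ht κ Q : ℝ) ≤ ht κ R := by exact_mod_cast hQ3
      linarith
  have h4 : (finrank L Q : ℝ) ≤ D := by
    rw [hD]
    exact_mod_cast Submodule.finrank_mono hQ1
  have h5 : M * ((finrank L Q : ℝ) - 1) ≤ M * (D - 1) :=
    mul_le_mul_of_nonneg_left (by linarith) hM
  nlinarith

/-- (B4): the cost of `lam 2 W` -/
theorem cb_cost_two (h : IsFF κ L) (hyp : Hyp κ x d C₀ M E) (hC : 1000 ≤ C₀)
    (hn : 67 * (132 * C₀) ≤ n) (hA : ¬ CaseA κ x d (1 / (132 * C₀)) (1 / 32))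
    {W : Submodule L (EX (n + 1) d → L)} (hW : IsSl κ (1 / 2 * height κ x / n) (xm d x) W) :
    1 / (130 * C₀) * height κ x ≤ 2 * (height κ x : ℝ) - ht κ (lam 2 W) := by
  have hn' : (1000 : ℝ) ≤ n := by nlinarith
  have hn1 : 1 ≤ n := by
    have : (1 : ℝ) ≤ n := by linarith
    exact_mod_cast this
  have hH := hyp.cb_pos
  have hH0 : (0 : ℝ) < height κ x := by linarith
  have hnpos : (0 : ℝ) < n := by linarith
  have hd2 : 2 ≤ d := by have := hyp.hd; omega
  have hHas := cb_hasSl hW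
  have hΛ := hasSl_lam h hyp.ne hd2 hHas
  have hrank := cb_rank_two h hyp hC hn hA hHas
  have h1 := cb_dim_one h hyp hn1 hW
  have h2 : finrank L (lam 1 W) ≤ finrank L (lam 2 W) * 20 := by
    rw [← lam_lam (i := 1) (i' := 2) (by norm_num) hd2]
    exact cb_lam_sum _ hrank
  have h3 := cost_ge h hyp.ne hΛ
  have hg : (0 : ℝ) ≤ genus κ L := Nat.cast_nonneg _
  have hE : ((n : ℝ)) * (E + genus κ L + 1) ≤ height κ x := hyp.cb_big (by
    have := Hyp.cb_pow (n := n) hn1
    nlinarith)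
  have hEE := hyp.hE
  have h4 : (finrank L (lam 1 W) : ℝ) ≤ finrank L (lam 2 W) * 20 := by exact_mod_cast h2
  have hM := hyp.pos
  have h5 : (2 * M + 1 + genus κ L) * n ≤ (2 * C₀ + 1) * height κ x := by
    have := hyp.small
    nlinarith
  set D : ℝ := (finrank L (lam 2 W) : ℝ) with hD
  have hD0 : 0 ≤ D := Nat.cast_nonneg _
  -- `n < 20 D (2 C₀ + 1)`
  have h6 : (height κ x : ℝ) * n < height κ x * (20 * D * (2 * C₀ + 1)) := by
    have h7 : (height κ x : ℝ) < D * 20 * (2 * M + 1 + genus κ L) := by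
      refine h1.trans_le ?_
      exact mul_le_mul_of_nonneg_right h4 (by positivity)
    calc (height κ x : ℝ) * n < D * 20 * (2 * M + 1 + genus κ L) * n :=
          mul_lt_mul_of_pos_right h7 hnpos
      _ = D * 20 * ((2 * M + 1 + genus κ L) * n) := by ring
      _ ≤ D * 20 * ((2 * C₀ + 1) * height κ x) := by
          apply mul_le_mul_of_nonneg_left h5
          positivity
      _ = height κ x * (20 * D * (2 * C₀ + 1)) := by ring
  have h7 : (n : ℝ) < 20 * D * (2 * C₀ + 1) := lt_of_mul_lt_mul_left h6 hH0.le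
  have h8 : 1 / (130 * C₀) * height κ x ≤ 1 / 2 * (height κ x : ℝ) / n * (D - 1) := by
    have e1 : 1 / 2 * (height κ x : ℝ) / n * (D - 1) = (D - 1) / (2 * n) * height κ x := by
      field_simp
    rw [e1]
    apply mul_le_mul_of_nonneg_right _ hH0.le
    rw [div_le_div_iff₀ (by linarith) (by linarith)]
    nlinarith
  push_cast at h3
  linarith

end Pool.Agent.Lib.MP_44a246_ntSH
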