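import Mathlib
import Pool.Agent.Lib.MP_44a246_ntSH.H12
import Pool.Agent.Lib.MP_44a246_ntA.P01

/-!
Paper 619, (B5): the space `Y . V`.
-/

namespace Pool.Agent.Lib.MP_44a246_ntSH

open Pool.Agent.Lib.MP_44a246_nt
open Pool.Agent.Lib.MP_44a246_ntL
open Pool.Agent.Lib.MP_44a246_ntS
open Pool.Agent.Lib.MP_44a246_ntF
open Pool.Agent.Lib.MP_44a246_ntO
open Pool.Agent.Lib.MP_44a246_ntA
open Pool.Agent.Lib.MP_e52354_nt
open WithZero Module

section

variable {L : Type*} [Field L] {n : ℕ}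

/-- the functionals on the quadratic forms which vanish on the products of two linear forms which
are zero on `Y` (this is the space `Y . V`) -/
def YV (Y : Submodule L (EX n 1 → L)) : Submodule L (EX n 2 → L) where
  carrier := {q | ∀ f g : MvPolynomial (Fin n) L, f.IsHomogeneous 1 → g.IsHomogeneous 1 →
    (∀ y ∈ Y, pr y f = 0) → (∀ y ∈ Y, pr y g = 0) → pr q (f * g) = 0}
  zero_mem' := fun f g _ _ _ _ => by
    have h1 := pr_smul (0 : L) (0 : EX n 2 → L) (f * g)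
    rwa [zero_smul, zero_mul] at h1
  add_mem' := fun {a b} ha hb f g h1 h2 h3 h4 => by
    rw [pr_add, ha f g h1 h2 h3 h4, hb f g h1 h2 h3 h4, add_zero]
  smul_mem' := fun c q hq f g h1 h2 h3 h4 => by
    rw [pr_smul, hq f g h1 h2 h3 h4, mul_zero]

theorem mem_YV {Y : Submodule L (EX n 1 → L)} {q : EX n 2 → L} :
    q ∈ YV Y ↔ ∀ f g : MvPolynomial (Fin n) L, f.IsHomogeneous 1 → g.IsHomogeneous 1 →
      (∀ y ∈ Y, pr y f = 0) → (∀ y ∈ Y, pr y g = 0) → pr q (f * g) = 0 := Iff.rfl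

/-- the linear forms which are zero on `Y` are the forms with coefficients in `orth Y`.

Proof: `pr_pf`, `pf_coeff`. -/
theorem exists_pf {Y : Submodule L (EX n 1 → L)} {f : MvPolynomial (Fin n) L}
    (hf : f.IsHomogeneous 1) (h0 : ∀ y ∈ Y, pr y f = 0) : ∃ l ∈ orth Y, f = pf l := by
  refine ⟨fun K : EX n 1 => f.coeff K.1, ?_, (pf_coeff hf).symm⟩
  rw [mem_orth]
  intro y hy
  rw [← pr_pf, pf_coeff hf]
  exact h0 y hy

private theorem pr_pf_zero {Y : Submodule L (EX n 1 → L)} {l : EX n 1 → L} (hl : l ∈ orth Y) :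
    ∀ y ∈ Y, pr y (pf l) = 0 := by
  intro y hy
  rw [pr_pf]
  exact mem_orth.1 hl y hy

private theorem pf_add' (a b : EX n 1 → L) : pf (a + b) = pf a + pf b := by
  unfold pf
  rw [← Finset.sum_add_distrib]
  exact Finset.sum_congr rfl fun K _ => by rw [Pi.add_apply, map_add]

private theorem pf_smul' (c : L) (a : EX n 1 → L) : pf (c • a) = c • pf a := by
  unfold pf
  rw [Finset.smul_sum]
  exact Finset.sum_congr rfl fun K _ => by rw [Pi.smul_apply, map_smul]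

private theorem pf_zero' : pf (0 : EX n 1 → L) = 0 := by
  unfold pf
  exact Finset.sum_eq_zero fun K _ => by rw [Pi.zero_apply, map_zero]

/-- Proof: `cf f 1 q ∈ orth (orth Y) = Y` (`orth_orth`): for `l ∈ orth Y`,
`∑ K, cf f 1 q K * l K = pr (cf f 1 q) (pf l) = pr q (pf l * f) = 0` (`pr_pf`, `pr_cf`, `pf_hom`). -/
theorem cf_mem_of_YV {Y : Submodule L (EX n 1 → L)} {q : EX n 2 → L} (hq : q ∈ YV Y)
    {f : MvPolynomial (Fin n) L} (hf : f.IsHomogeneous 1) (h0 : ∀ y ∈ Y, pr y f = 0) :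
    cf f 1 q ∈ Y := by
  rw [← orth_orth Y, mem_orth]
  intro l hl
  have h1 := pr_cf f q (pf_hom l)
  rw [pr_pf, hq (pf l) f (pf_hom l) hf (pr_pf_zero hl) h0] at h1
  rw [← h1]
  exact Finset.sum_congr rfl fun K _ => mul_comm _ _

/-- If all the contractions of `q` by the linear forms zero on `Y` are in `Y + L x` then `q` is in
`Y . V + L x ^ 2`.

Proof. First, this holds for all `l ∈ orth Y` (linearity: `pf` and `cf` are linear,
`Submodule.span_induction`). `xm 1 x ∉ Y = orth (orth Y)`, so there is `l₀ ∈ orth Y` with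
`pr (xm 1 x) (pf l₀) ≠ 0`, and we can scale it such that the value is `1`. For `l ∈ orth Y`:
`cf (pf l) 1 q = y + c • xm 1 x` with `y ∈ Y`, and for `l' ∈ orth Y`:
`pr q (pf l' * pf l) = pr (cf (pf l) 1 q) (pf l') = c * pr (xm 1 x) (pf l')` (`pr_cf`). In
particular (`l' = l₀`, and the symmetry with `l` and `l₀` exchanged, where
`cf (pf l₀) 1 q = y₀ + c₀ • xm 1 x`): `c = pr q (pf l₀ * pf l) = c₀ * pr (xm 1 x) (pf l)`. So
`pr (q - c₀ • xm 2 x) (pf l' * pf l) = 0`, as `pr (xm 2 x) (f * g) = pr (xm 1 x) f * pr (xm 1 x) g`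
(`pr_xm`). -/
theorem mem_YV_sup {Y : Submodule L (EX n 1 → L)} {x : Fin n → L} (hxY : xm 1 x ∉ Y)
    {S : Set (EX n 1 → L)} (hS : Submodule.span L S = orth Y) {q : EX n 2 → L}
    (hq : ∀ l ∈ S, cf (pf l) 1 q ∈ Y ⊔ Submodule.span L {xm 1 x}) :
    q ∈ YV Y ⊔ Submodule.span L {xm 2 x} := by
  -- the hypothesis for all `l` in `orth Y`
  have hall : ∀ l ∈ orth Y, cf (pf l) 1 q ∈ Y ⊔ Submodule.span L {xm 1 x} := by
    intro l hl
    rw [← hS] at hl
    induction hl using Submodule.span_induction with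
    | mem l hl => exact hq l hl
    | zero => rw [pf_zero', cf_zero]; exact Submodule.zero_mem _
    | add a b _ _ ha hb => rw [pf_add', cf_add]; exact Submodule.add_mem _ ha hb
    | smul c a _ ha => rw [pf_smul', cf_smul]; exact Submodule.smul_mem _ _ ha
  -- values
  have hval : ∀ l ∈ orth Y, ∃ c : L, ∀ l' ∈ orth Y,
      pr q (pf l' * pf l) = c * pr (xm 1 x) (pf l') := by
    intro l hl
    obtain ⟨y, hy, z, hz, hyz⟩ := Submodule.mem_sup.1 (hall l hl)
    obtain ⟨c, rfl⟩ := Submodule.mem_span_singleton.1 hz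
    refine ⟨c, fun l' hl' => ?_⟩
    rw [← pr_cf (pf l) q (pf_hom l'), ← hyz, pr_add, pr_smul, pr_pf_zero hl' y hy, zero_add]
  -- a form with value one
  obtain ⟨l₀, hl₀, h1⟩ : ∃ l₀ ∈ orth Y, pr (xm 1 x) (pf l₀) = 1 := by
    have h2 : ∃ l ∈ orth Y, pr (xm 1 x) (pf l) ≠ 0 := by
      by_contra h3
      push Not at h3
      apply hxY
      rw [← orth_orth Y, mem_orth]
      intro l hl
      rw [← h3 l hl, pr_pf]
      exact Finset.sum_congr rfl fun K _ => mul_comm _ _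
    obtain ⟨l, hl, h3⟩ := h2
    refine ⟨(pr (xm 1 x) (pf l))⁻¹ • l, (orth Y).smul_mem _ hl, ?_⟩
    rw [pf_smul', map_smul, smul_eq_mul, inv_mul_cancel₀ h3]
  obtain ⟨c₀, hc₀⟩ := hval l₀ hl₀
  have hmain : ∀ l ∈ orth Y, ∀ l' ∈ orth Y,
      pr q (pf l' * pf l) = c₀ * (pr (xm 1 x) (pf l') * pr (xm 1 x) (pf l)) := by
    intro l hl l' hl'
    obtain ⟨c, hc⟩ := hval l hl
    have h2 := hc l₀ hl₀
    have h3 := hc₀ l hl
    rw [h1, mul_one, mul_comm (pf l₀), h3] at h2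
    rw [hc l' hl', ← h2]
    ring
  have h4 : q - c₀ • xm 2 x ∈ YV Y := by
    rw [mem_YV]
    intro f g hf hg hf0 hg0
    obtain ⟨l, hl, rfl⟩ := exists_pf hf hf0
    obtain ⟨l', hl', rfl⟩ := exists_pf hg hg0
    have h5 : pr (xm 2 x) (pf l * pf l') = pr (xm 1 x) (pf l) * pr (xm 1 x) (pf l') := by
      have h6 : (pf l * pf l').IsHomogeneous 2 := (pf_hom l).mul (pf_hom l')
      rw [pr_xm x h6, pr_xm x (pf_hom l), pr_xm x (pf_hom l'), map_mul]
    have h7 : q - c₀ • xm 2 x = q + (-c₀) • xm 2 x := by rw [neg_smul, sub_eq_add_neg]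
    rw [h7, pr_add, pr_smul, h5, hmain l' hl' l hl]
    ring
  rw [Submodule.mem_sup]
  exact ⟨_, h4, c₀ • xm 2 x, Submodule.smul_mem _ _ (Submodule.mem_span_singleton_self _),
    sub_add_cancel _ _⟩

end

end Pool.Agent.Lib.MP_44a246_ntSH
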