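import Mathlib
import Pool.Agent.Lib.MP_44a246_ntSH.B03
import Pool.Agent.Lib.MP_44a246_ntSH.SRel

/-!
Paper 619, (B5): the cost of `Y . V + L x ^ 2`.
-/

namespace Pool.Agent.Lib.MP_44a246_ntSH

open Pool.Agent.Lib.MP_44a246_nt
open Pool.Agent.Lib.MP_44a246_ntL
open Pool.Agent.Lib.MP_44a246_ntS
open Pool.Agent.Lib.MP_44a246_ntF
open Pool.Agent.Lib.MP_44a246_ntO
open Pool.Agent.Lib.MP_44a246_ntA
open Pool.Agent.Lib.MP_44a246_ntR (genus)
open Pool.Agent.Lib.MP_e52354_nt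
open WithZero Module

variable {κ L : Type*} [Field κ] [IsAlgClosed κ] [CharZero κ] [Field L] [Algebra κ L] {n : ℕ}

/-- **The cost of `Y . V + L x ^ 2`** (paper 619, (B5)): `contact(x ^ 2, Y V) = 2 contact(x, Y)`.

Proof. `siegel_rel_height` (SRel) for `A = Y`, `B = Y ⊔ L ∙ xm 1 x` (`finrank B = finrank A + 1`) with
`a = ht B - ht A - genus`: a vector `l` with `l = 0` on `Y`, not zero on `B` (so `l · xm 1 x ≠ 0`) and
local vectors `m w` of size `exp (τ w)`, equal to `l` on `B`. `f := pf l ^ 2`. On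
`A₀ := (Λ ⊓ YV Y) ⊔ L ∙ xm 2 x` the form `f` is equal to `pf (m w) ^ 2`: both are zero on `YV Y`
(`pf l`, `pf (m w)` are zero on `Y`), and both have the same value at `xm 2 x`. `contr_cost` (H01) with
`e = 2`, `j = 2`, `i = 0`, `W = A₀`, `f`, `2 * τ`, `2 * a`: the image of `A₀` in `EX n 0 → L` has
dimension `1` (`card_EX_zero`; it contains `f(x) • xm 0 x ≠ 0`) and `ht ≥ 0` (`ht_nonneg`). So
`2 H - ht A₀ ≤ 2 H - 2 a`. -/
theorem cost_YV (h : IsFF κ L) {x : Fin n → L} (hx : x ≠ 0) {Y : Submodule L (EX n 1 → L)}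
    (hxY : xm 1 x ∉ Y) (Λ : Submodule L (EX n 2 → L)) :
    2 * (height κ x : ℝ) - ht κ ((Λ ⊓ YV Y) ⊔ Submodule.span L {xm 2 x}) ≤
      2 * ((height κ x : ℝ) + ht κ Y - ht κ (Y ⊔ Submodule.span L {xm 1 x}) + genus κ L) := by
  classical
  have hx1 : xm 1 x ≠ 0 := xm_ne_zero hx
  have hfr : finrank L (Y ⊔ Submodule.span L {xm 1 x} : Submodule L (EX n 1 → L)) =
      finrank L Y + 1 := by
    have h1 := Submodule.finrank_sup_add_finrank_inf_eq Y (Submodule.span L {xm 1 x})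
    have h2 : Y ⊓ Submodule.span L {xm 1 x} = ⊥ := by
      rw [← disjoint_iff]
      exact (Submodule.disjoint_span_singleton' hx1).2 hxY
    rw [h2, finrank_bot, finrank_span_singleton hx1] at h1
    omega
  have hne : Y ≠ Y ⊔ Submodule.span L {xm 1 x} := fun h0 => by
    rw [← h0] at hfr
    omega
  obtain ⟨a, ha⟩ : ∃ a : ℤ, a = ht κ (Y ⊔ Submodule.span L {xm 1 x}) - ht κ Y - genus κ L :=
    ⟨_, rfl⟩
  obtain ⟨l, τ, hτ, hsum, hlY, ⟨z, hz, hlz⟩, hm⟩ := VFSharp.siegel_rel_height h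
    (A := Y) (B := Y ⊔ Submodule.span L {xm 1 x}) le_sup_left hne (a := a) (by
      rw [hfr, ha]; push_cast; linarith)
  have hlx : ∑ k, l k * xm 1 x k ≠ 0 := by
    intro h0
    apply hlz
    obtain ⟨y, hy, z', hz', rfl⟩ := Submodule.mem_sup.1 hz
    obtain ⟨c, rfl⟩ := Submodule.mem_span_singleton.1 hz'
    have h1 : ∑ k, l k * (y + c • xm 1 x) k = ∑ k, l k * y k + c * ∑ k, l k * xm 1 x k := by
      rw [Finset.mul_sum, ← Finset.sum_add_distrib]
      refine Finset.sum_congr rfl fun k _ => ?_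
      rw [Pi.add_apply, Pi.smul_apply, smul_eq_mul]
      ring
    rw [h1, hlY y hy, h0, mul_zero, add_zero]
  have hev : ∀ m : EX n 1 → L, MvPolynomial.eval x (pf m) = ∑ k, m k * xm 1 x k := fun m => by
    rw [← pr_xm x (pf_hom m), pr_pf]
  have hhom : ∀ m : EX n 1 → L, (pf m ^ 2).IsHomogeneous 2 := fun m => by
    have h1 := (pf_hom m).pow 2
    simpa using h1
  have hfx : MvPolynomial.eval x (pf l ^ 2) ≠ 0 := by
    rw [map_pow, hev]
    exact pow_ne_zero _ hlx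
  obtain ⟨W, hW⟩ : ∃ W : Submodule L (EX n 2 → L), W = (Λ ⊓ YV Y) ⊔ Submodule.span L {xm 2 x} :=
    ⟨_, rfl⟩
  rw [← hW]
  have hYV : ∀ m : EX n 1 → L, (∀ y ∈ Y, ∑ k, m k * y k = 0) → ∀ u ∈ YV Y,
      pr u (pf m ^ 2) = 0 := fun m hmY u hu => by
    rw [pow_two]
    exact mem_YV.1 hu _ _ (pf_hom m) (pf_hom m) (fun y hy => by rw [pr_pf]; exact hmY y hy)
      (fun y hy => by rw [pr_pf]; exact hmY y hy)
  have hpr : ∀ m : EX n 1 → L, (∀ y ∈ Y ⊔ Submodule.span L {xm 1 x},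
      ∑ k, m k * y k = ∑ k, l k * y k) → ∀ u ∈ W, pr u (pf m ^ 2) = pr u (pf l ^ 2) := by
    intro m hml u hu
    have hmx : ∑ k, m k * xm 1 x k = ∑ k, l k * xm 1 x k :=
      hml _ (Submodule.mem_sup_right (Submodule.mem_span_singleton_self _))
    have hmY : ∀ y ∈ Y, ∑ k, m k * y k = 0 := fun y hy => by
      rw [hml y (Submodule.mem_sup_left hy), hlY y hy]
    rw [hW] at hu
    obtain ⟨y, hy, z', hz', rfl⟩ := Submodule.mem_sup.1 hu
    obtain ⟨c, rfl⟩ := Submodule.mem_span_singleton.1 hz'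
    rw [pr_add, pr_add, pr_smul, pr_smul, hYV m hmY y hy.2, hYV l hlY y hy.2,
      pr_xm x (hhom m), pr_xm x (hhom l), map_pow, map_pow, hev, hev, hmx]
  have hcost := contr_cost h (x := x) (i := 0) (j := 2) (e := 2) rfl (W := W) (f := pf l ^ 2)
    (a := 2 * a) (τ := fun w => 2 * τ w)
    (by
      refine hτ.subset fun w hw h0 => hw ?_
      simp only
      rw [h0, mul_zero])
    (by rw [← mul_finsum, hsum]; ring)
    (fun w => by
      obtain ⟨m, hm1, hm2⟩ := hm w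
      refine ⟨pf m ^ 2, hhom m, fun K => ?_, fun u hu => ?_⟩
      · have h1 := coeff_pow_le w.1 (coeff_pf_le w.1 hm1) 2 K
        rwa [← exp_nsmul, nsmul_eq_mul] at h1
      · funext ψ
        have h2 : ψ.1 = 0 := by
          have h3 := mem_expo.1 ψ.2
          rwa [Finsupp.degree_eq_zero_iff] at h3
        rw [cf_apply, cf_apply, h2]
        have h3 : (MvPolynomial.monomial 0 1 : MvPolynomial (Fin n) L) = 1 := rfl
        rw [h3, one_mul, one_mul]
        exact hpr m hm2 u hu)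
  have hfr1 : finrank L (W.map (cf (pf l ^ 2) 0)) = 1 := by
    refine le_antisymm ?_ ?_
    · have h2 := Submodule.finrank_le (W.map (cf (pf l ^ 2) 0))
      rw [finrank_fintype_fun_eq_card] at h2
      exact h2.trans card_EX_zero
    · have h1 : cf (pf l ^ 2) 0 (xm 2 x) ∈ W.map (cf (pf l ^ 2) 0) :=
        ⟨_, by rw [hW]; exact Submodule.mem_sup_right (Submodule.mem_span_singleton_self _), rfl⟩
      rw [cf_xm (hhom l) rfl] at h1
      exact one_le_finrank_aux (smul_ne_zero hfx (xm_ne_zero hx)) h1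
  rw [hfr1] at hcost
  have h1 : (0 : ℝ) ≤ ht κ (W ⊓ LinearMap.ker (cf (pf l ^ 2) 0)) := by
    exact_mod_cast ht_nonneg h _
  have h2 : (0 : ℝ) ≤ ht κ (W.map (cf (pf l ^ 2) 0)) := by
    exact_mod_cast ht_nonneg h _
  have h3 : (a : ℝ) = ht κ (Y ⊔ Submodule.span L {xm 1 x}) - ht κ Y - genus κ L := by
    rw [ha]; push_cast; ring
  push_cast at hcost
  linarith

end Pool.Agent.Lib.MP_44a246_ntSH
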