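import Mathlib
import Pool.Agent.Lib.MP_44a246_ntSH.SRel
import Pool.Agent.Lib.MP_44a246_ntA.P01b

/-!
Paper 619, (B5): linear forms of small height which are zero on a space.
-/

namespace Pool.Agent.Lib.MP_44a246_ntSH

open Pool.Agent.Lib.MP_44a246_nt
open Pool.Agent.Lib.MP_44a246_ntL
open Pool.Agent.Lib.MP_44a246_ntS
open Pool.Agent.Lib.MP_44a246_ntO
open Pool.Agent.Lib.MP_44a246_ntA
open Pool.Agent.Lib.MP_e52354_nt
open WithZero Module

variable {κ L : Type*} [Field κ] [IsAlgClosed κ] [CharZero κ] [Field L] [Algebra κ L] {n : ℕ}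

/-- the entries of a family with a unit minor are minors -/
private theorem b03s_entry_le_pl {ρ ι : Type*} [Fintype ρ] [DecidableEq ρ] [Fintype ι]
    (v : Valuation L ℤᵐ⁰) {a : ρ → ι → L} {f : ρ → ι}
    (hf : ∀ i j, a i (f j) = if i = j then 1 else 0) (i : ρ) (k : ι) : v (a i k) ≤ pl v a := by
  have h1 := le_vmax v (fun e : ρ → ι => (Matrix.of fun i j => a i (e j)).det)
    (Function.update f i k)
  have h2 : (Matrix.of fun i' j' => a i' (Function.update f i k j')).det = a i k := by
    have h3 : (Matrix.of fun i' j' => a i' (Function.update f i k j')) =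
        (1 : Matrix ρ ρ L).updateCol i (fun i' => a i' k) := by
      ext i' j'
      rw [Matrix.updateCol_apply, Matrix.of_apply]
      by_cases hj : j' = i
      · rw [if_pos hj, hj, Function.update_self]
      · rw [if_neg hj, Function.update_of_ne hj, hf, Matrix.one_apply]
    rw [h3, ← Matrix.cramer_apply, Matrix.cramer_one]
    rfl
  rw [h2] at h1
  exact h1

/-- Every space is spanned by vectors of height at most the height of the space.

Proof. A basis `a` with `a i (f j) = δ i j` (`exists_piv` in SRel, at any place; if there is no place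
everything is trivial: then `height`, `ht` are empty sums `0`; but `h : IsFF` gives places anyway, and
`exists_piv` only uses a valuation: use the trivial one if necessary). At every place
`1 ≤ pl v a` and `v (a i k) ≤ pl v a` (minors with the columns `f j`, and `f j` with `f i` replaced
by `k`; the lemmas `entry_le_pl`, `one_le_pl` are private in ntO/O03a, copy them). So
`vmax v (a i) ≤ pl v a` and `height κ (a i) ≤ ∑ log (pl w a) = ht κ Z` (`ht_span`,
`finsum_le_finsum`, `pl_support`, `h.vmax_support`). -/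
theorem exists_short (h : IsFF κ L) {ι : Type*} [Fintype ι] (Z : Submodule L (ι → L)) :
    ∃ S : Set (ι → L), Submodule.span L S = Z ∧ ∀ l ∈ S, l ≠ 0 ∧ height κ l ≤ ht κ Z := by
  classical
  obtain ⟨a, f, hf, hli, hsp⟩ :=
    VFSharp.exists_piv (@One.one (Valuation L ℤᵐ⁰) (Valuation.one L ℤᵐ⁰)) Z
  refine ⟨Set.range a, hsp, ?_⟩
  rintro _ ⟨i, rfl⟩
  have hne : a i ≠ 0 := hli.ne_zero i
  refine ⟨hne, ?_⟩
  have h1 := ht_span h hli
  rw [hsp] at h1
  rw [h1]
  unfold height
  refine finsum_mono (h.vmax_support hne) (pl_support h hli) fun w => ?_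
  have hv : vmax w.1 (a i) ≠ 0 := fun h0 => hne ((vmax_eq_zero_iff w.1).mp h0)
  exact (log_le_log hv (pl_ne_zero w.1 hli)).2
    (vmax_le w.1 fun k => b03s_entry_le_pl w.1 hf i k)

/-- Proof: `exists_short` for `orth Y`, `ht_orth`. -/
theorem exists_short_orth (h : IsFF κ L) {ι : Type*} [Fintype ι] (Y : Submodule L (ι → L)) :
    ∃ S : Set (ι → L), Submodule.span L S = orth Y ∧ ∀ l ∈ S, l ≠ 0 ∧ height κ l ≤ ht κ Y := by
  obtain ⟨S, h1, h2⟩ := exists_short h (orth Y)
  exact ⟨S, h1, fun l hl => ⟨(h2 l hl).1, (h2 l hl).2.trans (ht_orth h Y).le⟩⟩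

end Pool.Agent.Lib.MP_44a246_ntSH
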