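import Mathlib
import Pool.Agent.Lib.MP_44a246_ntSH.B03
import Pool.Agent.Lib.MP_44a246_ntSH.B03s

/-!
Paper 619, (B5): the descent to `Y . V + L x ^ 2`.
-/

namespace Pool.Agent.Lib.MP_44a246_ntSH

open Pool.Agent.Lib.MP_44a246_nt
open Pool.Agent.Lib.MP_44a246_ntL
open Pool.Agent.Lib.MP_44a246_ntS
open Pool.Agent.Lib.MP_44a246_ntF
open Pool.Agent.Lib.MP_44a246_ntO
open Pool.Agent.Lib.MP_44a246_ntA
open Pool.Agent.Lib.MP_44a246_ntR (genus)
open Pool.Agent.Lib.MP_e52354_nt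
open WithZero Module

variable {κ L : Type*} [Field κ] [IsAlgClosed κ] [CharZero κ] [Field L] [Algebra κ L] {n : ℕ}

/-- One step of the descent.

Proof. `T := cf (pf l) 1`, `Y' := Y ⊔ L ∙ xm 1 x`, `A := B ⊓ Y'.comap T`. `A ≠ B` by `hl`. `A₀ ≤ A`: for
`q ∈ YV Y`, `T q ∈ Y` (`cf_mem_of_YV`), and `T (xm 2 x) = l(x) • xm 1 x` (`cf_xm`). `ht_mapw` (ntO/O04)
with the constant family `Tw w = Mcf (pf l) 1 2` and `τ w = log (vmax w.1 l)` (`Mcf_le`,
`coeff_pf_le`, `h.vmax_support`, `∑ τ = height κ l`), `A' = Y'`: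
`ht (Y' ⊔ B.map T) + ht A ≤ ht B + ht Y' + η r`, `r = finrank B - finrank A ≥ 1`. By `hM`, in the form
of `cost_le` (ntO/O06, `d = 0`) for the space `Y' ⊔ B.map T` of dimension
`finrank Y' + r ≤ ρ + 1 + r` (`finrank_sup_map`): `H - ht (Y' ⊔ B.map T) ≤ M (ρ + r)`; and
`ht Y' ≤ ht Y + H` (`ht_sup_le`, `ht_single`, `height_xm`). So
`ht A - ht B ≤ η + M (ρ + r) + η r ≤ r (2 η + (ρ + 1) M)`. -/
theorem descent_step (h : IsFF κ L) {x : Fin n → L} (hx : x ≠ 0) {M : ℝ} (hM0 : 0 ≤ M)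
    (hM : ∀ Q : Submodule L (Fin n → L), x ∈ Q →
      (height κ x : ℝ) - ht κ Q ≤ M * ((finrank L Q : ℝ) - 1))
    {Y : Submodule L (EX n 1 → L)} {η : ℝ} (hη : (ht κ Y : ℝ) ≤ η) {ρ : ℕ} (hρ : finrank L Y ≤ ρ)
    {B A₀ : Submodule L (EX n 2 → L)} (hA₀ : A₀ ≤ YV Y ⊔ Submodule.span L {xm 2 x})
    (hx₀ : xm 2 x ∈ A₀) (hAB : A₀ ≤ B) {l : EX n 1 → L} (hl0 : l ∈ orth Y)
    (hlη : (height κ l : ℝ) ≤ η) (hl : ∃ q ∈ B, cf (pf l) 1 q ∉ Y ⊔ Submodule.span L {xm 1 x}) :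
    ∃ A : Submodule L (EX n 2 → L), A₀ ≤ A ∧ A ≤ B ∧ finrank L A < finrank L B ∧
      (ht κ A : ℝ) - ht κ B ≤
        ((finrank L B : ℝ) - finrank L A) * (2 * η + (ρ + 1) * M) := by
  obtain ⟨q₀, hq₀, hq₀'⟩ := hl
  have hlne : l ≠ 0 := by
    rintro rfl
    apply hq₀'
    have h1 : pf (0 : EX n 1 → L) = 0 := by
      ext K
      rw [coeff_pf, MvPolynomial.coeff_zero]
      unfold ex
      split_ifs <;> rfl
    rw [h1, cf_zero]
    exact Submodule.zero_mem _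
  have hpr : ∀ y ∈ Y, pr y (pf l) = 0 := fun y hy => by
    rw [pr_pf]
    exact mem_orth.1 hl0 y hy
  set T : (EX n 2 → L) →ₗ[L] (EX n 1 → L) := cf (pf l) 1 with hT
  set Y' : Submodule L (EX n 1 → L) := Y ⊔ Submodule.span L {xm 1 x} with hY'
  set A : Submodule L (EX n 2 → L) := B ⊓ Y'.comap T with hA
  have hxY' : xm 1 x ∈ Y' := Submodule.mem_sup_right (Submodule.mem_span_singleton_self _)
  have hA₀A : A₀ ≤ A := by
    refine le_inf hAB fun q hq => ?_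
    obtain ⟨q₁, hq₁, q₂, hq₂, rfl⟩ := Submodule.mem_sup.1 (hA₀ hq)
    obtain ⟨c, rfl⟩ := Submodule.mem_span_singleton.1 hq₂
    rw [Submodule.mem_comap, map_add, map_smul]
    refine Submodule.add_mem _ (Submodule.mem_sup_left (cf_mem_of_YV hq₁ (pf_hom l) hpr)) ?_
    rw [hT, cf_xm (pf_hom l) rfl x]
    exact Submodule.smul_mem _ _ (Submodule.smul_mem _ _ hxY')
  have hAB' : A ≤ B := inf_le_left
  have hlt : finrank L A < finrank L B := by
    refine Submodule.finrank_lt_finrank_of_lt (lt_of_le_of_ne hAB' fun h1 => hq₀' ?_)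
    have h2 : q₀ ∈ A := by rw [h1]; exact hq₀
    exact h2.2
  have hmA : A.map T ≤ Y' := Submodule.map_le_iff_le_comap.2 inf_le_right
  have hinj : ∀ b ∈ B, T b ∈ Y' → b ∈ A := fun b hb hb' => ⟨hb, hb'⟩
  have h1 := ht_mapw h T (fun _ => Mcf (pf l) 1 2) (τ := fun w => log (vmax w.1 l))
    (h.vmax_support hlne)
    (fun w k m => by
      have h3 : w.1 (Mcf (pf l) 1 2 k m) ≤ vmax w.1 l :=
        Mcf_le w.1 (coeff_pf_le w.1 fun K => le_vmax w.1 l K) 1 2 k m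
      have h4 : vmax w.1 l ≠ 0 := by
        obtain ⟨K, hK1, hK2, -⟩ := exists_vmax w.1 hlne
        rw [hK2]
        exact (Valuation.ne_zero_iff w.1).mpr hK1
      exact h3.trans (exp_log h4).ge)
    (fun w b _ => Mcf_mulVec (pf l) 1 b) hAB' hmA hinj
  have h2 := finrank_sup_map hAB' T hmA hinj
  have h3 := cost_le (d := 0) h hx hM (W := Y' ⊔ B.map T) (Submodule.mem_sup_left hxY')
  have h4 := ht_sup_le h Y (Submodule.span L {xm 1 x})
  rw [ht_single h (xm_ne_zero hx), height_xm h 1 hx] at h4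
  have h5 : finrank L Y' ≤ ρ + 1 := by
    have h6 := Submodule.finrank_add_le_finrank_add_finrank Y (Submodule.span L {xm 1 x})
    have h7 : finrank L (Submodule.span L {xm (d := 1) x}) ≤ 1 :=
      (finrank_span_le_card _).trans (by simp)
    have h8 : finrank L Y' = finrank L (Y ⊔ Submodule.span L {xm 1 x} :
      Submodule L (EX n 1 → L)) := rfl
    omega
  have h6 : (0 : ℝ) ≤ η := le_trans (by exact_mod_cast ht_nonneg h Y) hη
  have e1 : (ht κ (Y' ⊔ B.map T) : ℝ) + ht κ A ≤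
      ht κ B + ht κ Y' + (height κ l : ℝ) * ((finrank L B : ℝ) - finrank L A) := by
    exact_mod_cast h1
  have e2 : (finrank L (Y' ⊔ B.map T : Submodule L (EX n 1 → L)) : ℝ) + finrank L A =
      finrank L Y' + finrank L B := by exact_mod_cast h2
  have e4 : (ht κ Y' : ℝ) ≤ ht κ Y + height κ x := by
    have : ht κ Y' ≤ ht κ Y + height κ x := by
      rw [hY']; push_cast at h4; linarith
    exact_mod_cast this
  have e5 : (finrank L Y' : ℝ) ≤ ρ + 1 := by exact_mod_cast h5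
  have e6 : (1 : ℝ) ≤ (finrank L B : ℝ) - finrank L A := by
    have : (finrank L A : ℝ) + 1 ≤ finrank L B := by exact_mod_cast hlt
    linarith
  refine ⟨A, hA₀A, hAB', hlt, ?_⟩
  set r : ℝ := (finrank L B : ℝ) - finrank L A with hr
  have e7 : (height κ l : ℝ) * r ≤ η * r := mul_le_mul_of_nonneg_right hlη (by linarith)
  have e8 : M * ((finrank L (Y' ⊔ B.map T : Submodule L (EX n 1 → L)) : ℝ) - 1) ≤
      M * (ρ + r) := mul_le_mul_of_nonneg_left (by linarith) hM0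
  have e9 : η * 1 ≤ η * r := mul_le_mul_of_nonneg_left e6 h6
  have e10 : (M * ρ) * 1 ≤ (M * ρ) * r :=
    mul_le_mul_of_nonneg_left e6 (mul_nonneg hM0 (Nat.cast_nonneg _))
  push_cast at h3
  nlinarith

/-- **The descent** (paper 619, (B5)).

Proof. Induction on `finrank B` (strong) for all `B` with `A₀ ≤ B ≤ Λ`: if all `q ∈ B` and all
`l ∈ S` (`exists_short_orth`) have `cf (pf l) 1 q ∈ Y ⊔ L ∙ xm 1 x` then `B ≤ YV Y ⊔ L ∙ xm 2 x`
(`mem_YV_sup`), so `B ≤ A₀` (modular law: `xm 2 x ∈ Λ`). Otherwise `descent_step`. -/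
theorem descent (h : IsFF κ L) {x : Fin n → L} (hx : x ≠ 0) {M : ℝ} (hM0 : 0 ≤ M)
    (hM : ∀ Q : Submodule L (Fin n → L), x ∈ Q →
      (height κ x : ℝ) - ht κ Q ≤ M * ((finrank L Q : ℝ) - 1))
    {Y : Submodule L (EX n 1 → L)} (hxY : xm 1 x ∉ Y) {η : ℝ} (hη : (ht κ Y : ℝ) ≤ η) {ρ : ℕ}
    (hρ : finrank L Y ≤ ρ) {Λ A₀ : Submodule L (EX n 2 → L)} (hxΛ : xm 2 x ∈ Λ)
    (hA₀ : A₀ = (Λ ⊓ YV Y) ⊔ Submodule.span L {xm 2 x}) :
    (ht κ A₀ : ℝ) - ht κ Λ ≤
      ((finrank L Λ : ℝ) - finrank L A₀) * (2 * η + (ρ + 1) * M) := by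
  obtain ⟨S, hS, hS'⟩ := exists_short_orth h Y
  have hxA₀ : xm 2 x ∈ A₀ := by
    rw [hA₀]
    exact Submodule.mem_sup_right (Submodule.mem_span_singleton_self _)
  have hle : A₀ ≤ YV Y ⊔ Submodule.span L {xm 2 x} := by
    rw [hA₀]
    exact sup_le_sup_right inf_le_right _
  have hA₀Λ : A₀ ≤ Λ := by
    rw [hA₀]
    refine sup_le inf_le_left ?_
    rwa [Submodule.span_singleton_le_iff_mem]
  suffices H : ∀ (k : ℕ) (B : Submodule L (EX n 2 → L)), finrank L B = k → A₀ ≤ B → B ≤ Λ →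
      (ht κ A₀ : ℝ) - ht κ B ≤ ((finrank L B : ℝ) - finrank L A₀) * (2 * η + (ρ + 1) * M) from
    H _ Λ rfl hA₀Λ le_rfl
  intro k
  induction k using Nat.strong_induction_on with
  | _ k ih =>
    intro B hk h1 h2
    by_cases hall : ∀ q ∈ B, ∀ l ∈ S, cf (pf l) 1 q ∈ Y ⊔ Submodule.span L {xm 1 x}
    · have h3 : B = A₀ := by
        refine le_antisymm (fun q hq => ?_) h1
        have h4 := mem_YV_sup hxY hS (hall q hq)
        obtain ⟨q₁, hq₁, q₂, hq₂, rfl⟩ := Submodule.mem_sup.1 h4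
        have hq₂' : q₂ ∈ Λ := by
          have h5 : Submodule.span L {xm 2 x} ≤ Λ := by
            rwa [Submodule.span_singleton_le_iff_mem]
          exact h5 hq₂
        have hq₁' : q₁ ∈ Λ := by
          have h5 := Λ.sub_mem (h2 hq) hq₂'
          rwa [add_sub_cancel_right] at h5
        rw [hA₀]
        exact Submodule.add_mem _ (Submodule.mem_sup_left ⟨hq₁', hq₁⟩) (Submodule.mem_sup_right hq₂)
      rw [h3]
      simp
    · push Not at hall
      obtain ⟨q, hq, l, hl, hql⟩ := hall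
      have hlorth : l ∈ orth Y := by
        rw [← hS]
        exact Submodule.subset_span hl
      have hlh : (height κ l : ℝ) ≤ η := le_trans (by exact_mod_cast (hS' l hl).2) hη
      obtain ⟨A, a1, a2, a3, a4⟩ := descent_step h hx hM0 hM hη hρ hle hxA₀ h1 hlorth hlh
        ⟨q, hq, hql⟩
      have h3 := ih (finrank L A) (by omega) A rfl a1 (a2.trans h2)
      have h4 : ((finrank L B : ℝ) - finrank L A₀) * (2 * η + (ρ + 1) * M) =
          ((finrank L A : ℝ) - finrank L A₀) * (2 * η + (ρ + 1) * M) +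
          ((finrank L B : ℝ) - finrank L A) * (2 * η + (ρ + 1) * M) := by ring
      rw [h4]
      linarith

end Pool.Agent.Lib.MP_44a246_ntSH
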