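import Mathlib
import Pool.Agent.Lib.MP_44a246_ntSH.B05

/-!
Paper 619, (B5): the choice of the scale.
-/

namespace Pool.Agent.Lib.MP_44a246_ntSH

open Pool.Agent.Lib.MP_44a246_nt
open Pool.Agent.Lib.MP_44a246_ntL
open Pool.Agent.Lib.MP_44a246_ntS
open Pool.Agent.Lib.MP_44a246_ntR
open Pool.Agent.Lib.MP_44a246_ntE
open VFSharp
open WithZero Module

/-- summation by parts over the dyadic scales -/
theorem abel_le (ρ q m : ℕ → ℝ) (T G : ℝ) (hρ0 : ρ 0 = 0) (hmono : ∀ k, ρ k ≤ ρ (k + 1))
    (hm : ∀ k, T / 2 ^ k ≤ m k + 1)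
    (hstep : ∀ k, (ρ (k + 1) - ρ k) * m k ≤ q k - q (k + 1) + G) (k : ℕ) :
    ∑ j ∈ Finset.range k, T / 2 ^ j * ρ (j + 1) + 2 * (T / 2 ^ k) * ρ k ≤
      2 * (q 0 - q k) + 2 * k * G + 2 * ρ k := by
  induction k with
  | zero => simp [hρ0]
  | succ k ih =>
    rw [Finset.sum_range_succ]
    have h1 : 2 * (T / 2 ^ (k + 1)) = T / 2 ^ k := by
      rw [pow_succ]
      field_simp
    rw [h1]
    have h2 : T / 2 ^ k * (ρ (k + 1) - ρ k) ≤ (m k + 1) * (ρ (k + 1) - ρ k) :=
      mul_le_mul_of_nonneg_right (hm k) (sub_nonneg.2 (hmono k))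
    have h3 := hstep k
    push_cast
    nlinarith

variable {κ L : Type*} [Field κ] [IsAlgClosed κ] [CharZero κ] [Field L] [Algebra κ L]
  {ι : Type*} [Fintype ι]

/-- **The choice of the scale**: a divisor of degree about `T / 2 ^ j` such that the elements of `R` of
norm at most `D` span a subspace of small codimension. -/
theorem exists_divisor (h : IsFF κ L) (R : Submodule L (ι → L)) {T : ℝ} (hT : 0 ≤ T) {N : ℕ}
    (hN : 1 ≤ N) :
    ∃ (D : Place κ L →₀ ℤ) (j : ℕ), j < N ∧ 0 ≤ divDeg D ∧ (divDeg D : ℝ) ≤ T / 2 ^ j ∧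
      T / 2 ^ j * ((finrank L R : ℝ) - finrank L (Submodule.span L
        ((boxSub R D : Submodule κ (ι → L)) : Set (ι → L)))) * N ≤
        2 * ht κ R + 2 * N * finrank L R * genus κ L + 2 * finrank L R := by
  classical
  obtain ⟨P⟩ := exists_place h
  let D : ℕ → Place κ L →₀ ℤ := fun j => Finsupp.single P ⌊T / 2 ^ j⌋
  have hD : ∀ j, divDeg (D j) = ⌊T / 2 ^ j⌋ := fun j => divDeg_single P _
  have hTj : ∀ j : ℕ, 0 ≤ T / 2 ^ j := fun j => by positivity
  have hTmono : ∀ j : ℕ, T / 2 ^ (j + 1) ≤ T / 2 ^ j := fun j => by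
    rw [pow_succ, ← div_div]
    have := hTj j
    linarith
  have hDmono : ∀ j, ∀ w, D (j + 1) w ≤ D j w := by
    intro j w
    by_cases hw : w = P
    · subst hw
      simp only [D, Finsupp.single_eq_same]
      exact Int.floor_le_floor (hTmono j)
    · simp only [D, Finsupp.single_eq_of_ne hw, le_refl]
  let S : ℕ → Submodule L (ι → L) := fun k => match k with
    | 0 => R
    | (j + 1) => Submodule.span L ((boxSub R (D j) : Submodule κ (ι → L)) : Set (ι → L))
  have hSR : ∀ k, S k ≤ R := by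
    intro k
    cases k with
    | zero => exact le_rfl
    | succ j => exact Submodule.span_le.2 fun u hu => hu.1
  have hsub : ∀ k, ∀ u ∈ (boxSub R (D k) : Submodule κ (ι → L)), u ∈ S k := by
    intro k u hu
    cases k with
    | zero => exact hu.1
    | succ j =>
      refine Submodule.subset_span ⟨hu.1, fun w i => (hu.2 w i).trans ?_⟩
      exact exp_le_exp.2 (hDmono j w)
  have hbox : ∀ k, (boxSub (S k) (D k) : Submodule κ (ι → L)) = boxSub R (D k) := by
    intro k
    ext u
    constructor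
    · intro hu
      exact ⟨hSR k hu.1, hu.2⟩
    · intro hu
      exact ⟨hsub k u hu, hu.2⟩
  have hS1 : ∀ k, S (k + 1) = Submodule.span L
      ((boxSub (S k) (D k) : Submodule κ (ι → L)) : Set (ι → L)) := by
    intro k
    rw [hbox]
  have hSmono : ∀ k, S (k + 1) ≤ S k := by
    intro k
    rw [hS1]
    exact Submodule.span_le.2 fun u hu => hu.1
  have hfin : ∀ k, finrank L (S (k + 1)) ≤ finrank L (S k) := fun k =>
    Submodule.finrank_mono (hSmono k)
  have key := abel_le (fun k => (finrank L R : ℝ) - finrank L (S k)) (fun k => (ht κ (S k) : ℝ))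
    (fun k => (⌊T / 2 ^ k⌋ : ℝ)) T (finrank L R * genus κ L) (by simp [S])
    (fun k => by
      have : (finrank L (S (k + 1)) : ℝ) ≤ finrank L (S k) := by exact_mod_cast hfin k
      linarith)
    (fun k => (Int.lt_floor_add_one _).le)
    (fun k => by
      have h1 := two_b h (S k) (D k)
      rw [← hS1, hD] at h1
      have h2 : ((finrank L (S k) : ℝ) - finrank L (S (k + 1))) * (⌊T / 2 ^ k⌋ : ℝ) ≤
          ht κ (S k) - ht κ (S (k + 1)) + finrank L (S k) * genus κ L := by
        exact_mod_cast h1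
      have h3 : (finrank L (S k) : ℝ) ≤ finrank L R := by
        exact_mod_cast Submodule.finrank_mono (hSR k)
      have h4 : (finrank L (S k) : ℝ) * genus κ L ≤ finrank L R * genus κ L :=
        mul_le_mul_of_nonneg_right h3 (Nat.cast_nonneg _)
      linarith) N
  by_contra hcon
  push Not at hcon
  have h1 : ∀ j ∈ Finset.range N, (2 * (ht κ R : ℝ) + 2 * N * finrank L R * genus κ L +
      2 * finrank L R) / N < T / 2 ^ j * ((finrank L R : ℝ) - finrank L (S (j + 1))) := by
    intro j hj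
    have h2 := hcon (D j) j (Finset.mem_range.1 hj)
      (by rw [hD]; exact Int.floor_nonneg.2 (hTj j)) (by rw [hD]; exact Int.floor_le _)
    rw [div_lt_iff₀ (by exact_mod_cast hN)]
    exact h2
  have h2 := Finset.sum_lt_sum_of_nonempty (s := Finset.range N) ⟨0, Finset.mem_range.2 hN⟩ h1
  rw [Finset.sum_const, Finset.card_range, nsmul_eq_mul,
    mul_div_cancel₀ _ (by have : (0 : ℝ) < N := by exact_mod_cast hN
                          exact this.ne')] at h2
  have h3 : (0 : ℝ) ≤ ht κ (S N) := by exact_mod_cast ht_nonneg h _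
  have h4 : (0 : ℝ) ≤ (finrank L R : ℝ) - finrank L (S N) := by
    have : (finrank L (S N) : ℝ) ≤ finrank L R := by
      exact_mod_cast Submodule.finrank_mono (hSR N)
    linarith
  have h5 : (0 : ℝ) ≤ 2 * (T / 2 ^ N) * ((finrank L R : ℝ) - finrank L (S N)) := by
    have := hTj N
    positivity
  have h6 : (0 : ℝ) ≤ finrank L (S N) := Nat.cast_nonneg _
  have h7 : (ht κ (S 0) : ℝ) = ht κ R := rfl
  rw [h7] at key
  nlinarith

end Pool.Agent.Lib.MP_44a246_ntSH
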