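import Mathlib
import Pool.Agent.Lib.MP_44a246_ntSH.B07
import Pool.Agent.Lib.MP_44a246_ntSH.B04
import Pool.Agent.Lib.MP_44a246_ntSH.B04d
import Pool.Agent.Lib.MP_44a246_ntSH.B06
import Pool.Agent.Lib.MP_44a246_ntSH.Q3

/-!
Paper 619, (B5): a space of quadratic functionals with bounded ranks and large slopes has small cost.
-/

namespace Pool.Agent.Lib.MP_44a246_ntSH

open Pool.Agent.Lib.MP_44a246_nt
open Pool.Agent.Lib.MP_44a246_ntL
open Pool.Agent.Lib.MP_44a246_ntS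
open Pool.Agent.Lib.MP_44a246_ntF
open Pool.Agent.Lib.MP_44a246_ntO
open Pool.Agent.Lib.MP_44a246_ntX
open Pool.Agent.Lib.MP_44a246_ntR
open Pool.Agent.Lib.MP_e52354_nt
open VFSharp
open WithZero Module

variable {κ L : Type*} [Field κ] [IsAlgClosed κ] [CharZero κ] [Field L] [Algebra κ L]
  {n d : ℕ} {x : Fin (n + 1) → L} {C₀ M E : ℝ}

theorem b09_gt {n E g H : ℝ} (hn : 0 < n) (hE : 0 ≤ E) (h : (2 * n) * (E + g + 1) ≤ H) :
    g * n < 1 / 2 * H := by
  linarith only [mul_nonneg hn.le hE, hn, h]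

theorem b09_ht {t a f H : ℝ} (ht : 0 < t) (hf : 1 ≤ f) (h : a + t * (f - 1) ≤ 2 * H) :
    a ≤ 2 * H := by
  linarith only [mul_nonneg ht.le (sub_nonneg.2 hf), h]

theorem b09_box {n : ℝ} (hn : 0 < n) :
    2 + 8 * n * n + 8 * n ≤ (n + 2) ^ 2 * 3 ^ 18 := by
  linarith only [hn, mul_nonneg hn.le hn.le]

theorem b09_pos {n E g : ℝ} (hn : 0 < n) (hE : 0 ≤ E) (hg : 0 ≤ g) :
    0 ≤ (2 + 8 * n * n + 8 * n) * E + 8 * n * g + (2 + 8 * n * n) := by
  (clear * - hn hE hg; positivity)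

theorem b09_h6 {n E g H : ℝ} (hn : 0 < n) (hE : 0 ≤ E) (h : (2 * n) * (E + g + 1) ≤ H) :
    2 * n * g ≤ H := by
  linarith only [mul_nonneg hn.le hE, hn, h]

theorem b09_h7 {n c g H : ℝ} (hH : 0 < H) (h5 : 16 * H ≤ c * n * H) (h6 : 2 * n * g ≤ H) :
    2 * g * n ≤ c * H / 8 * n := by
  linarith only [h5, h6, hH]

/-- the hyperplane of small height (B5) -/
theorem cb_hyper (h : IsFF κ L) {x : Fin n → L} (hx : x ≠ 0) {t : ℝ} (htg : (genus κ L : ℝ) < t)
    {Λ : Submodule L (EX n 2 → L)} (hΛ : HasSl κ t (xm 2 x) Λ) :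
    ∃ R ≤ Λ, xm 2 x ∉ R ∧ finrank L R + 1 = finrank L Λ ∧
      (ht κ R : ℝ) ≤ ht κ Λ + genus κ L := by
  have hne : Λ ≠ ⊥ := by
    intro h0
    have := hΛ.mem
    rw [h0] at this
    exact xm_ne_zero hx ((Submodule.mem_bot L).1 this)
  obtain ⟨f, τ, hf⟩ := exists_fnl h hne (a := -(genus κ L : ℤ)) (by
    rw [neg_add_cancel, mul_zero]
    exact ht_nonneg h Λ)
  have hf' : Fnl κ (lam 2 Λ) (-(genus κ L : ℤ)) f τ := by rwa [lam_self]
  obtain ⟨V, R, h1, h2, h3, h4, h5⟩ := p3 h hx (i := 2) (k := 1) (r := 0) (e := 2) (by norm_num)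
    le_rfl hΛ (by push_cast; linarith) hf'
  have h6 : finrank L V = 1 := by
    refine le_antisymm ?_ (one_le_finrank_aux (xm_ne_zero (d := 0) hx) h4.mem)
    have h7 := Submodule.finrank_le V
    rw [finrank_fintype_fun_eq_card] at h7
    exact h7.trans card_EX_zero
  refine ⟨R, h1, h2, by omega, ?_⟩
  have h8 : (0 : ℝ) ≤ ht κ V := by exact_mod_cast ht_nonneg h V
  rw [h6] at h5
  push_cast at h5
  linarith

/-- **(B5)**: one space `Λ` of quadratic functionals. -/
theorem cb_five (h : IsFF κ L) (hyp : Hyp κ x d C₀ M E) (hn1 : 1 ≤ n) {c : ℝ} (hc : 0 < c)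
    (hc1 : c ≤ 1) {N : ℕ} (hN : 500 ≤ c * N) (hnN : N ≤ n) (hnC : 40 * C₀ ≤ n)
    (hnc : (40 + 21 * 2 ^ N) * C₀ * 8 ≤ c * n) (hnc2 : 16 ≤ c * n)
    {Λ : Submodule L (EX (n + 1) 2 → L)} (hΛ : HasSl κ (1 / 2 * height κ x / n) (xm 2 x) Λ)
    (hrank : ∀ q ∈ Λ, finrank L (lam 1 (L ∙ q)) ≤ 20) :
    2 * (height κ x : ℝ) - ht κ Λ < c * height κ x := by
  have hH := hyp.cb_pos
  have hH0 : (0 : ℝ) < height κ x := by linarith
  have hnpos : (0 : ℝ) < n := by exact_mod_cast hn1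
  have hn' : (1 : ℝ) ≤ n := by exact_mod_cast hn1
  have hg : (0 : ℝ) ≤ genus κ L := Nat.cast_nonneg _
  have hE := hyp.hE
  have hM := hyp.pos
  have hN1 : 1 ≤ N := by
    by_contra h0
    have : N = 0 := by omega
    rw [this] at hN
    norm_num at hN
  have hN' : (0 : ℝ) < N := by exact_mod_cast hN1
  have hMn : M ≤ C₀ * (height κ x / n) := by
    rw [← mul_div_assoc, le_div_iff₀ hnpos]
    exact hyp.small
  -- the genus is small
  have hg1 : (2 * (n : ℝ)) * (E + genus κ L + 1) ≤ height κ x := hyp.cb_big (by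
    have := Hyp.cb_pow (n := n) hn1
    linarith only [hnpos, this])
  have hgt : (genus κ L : ℝ) < 1 / 2 * height κ x / n := by
    rw [lt_div_iff₀ hnpos]
    exact b09_gt hnpos hE hg1
  obtain ⟨R, hRΛ, hxR, hdim, hht⟩ := cb_hyper h hyp.ne hgt hΛ
  have hcΛ := cb_dim h hyp.ne hΛ
  push_cast at hcΛ
  have hΛ1 := cb_one_le hyp.ne hΛ.mem
  have ht0 : 0 < 1 / 2 * (height κ x : ℝ) / n := by positivity
  have hhtΛ : (ht κ Λ : ℝ) ≤ 2 * height κ x := b09_ht ht0 hΛ1 hcΛ
  have hhtΛ0 : (0 : ℝ) ≤ ht κ Λ := by exact_mod_cast ht_nonneg h Λ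
  have hdimΛ : (finrank L Λ : ℝ) ≤ 1 + 4 * n := by
    have h3 : 1 / 2 * (height κ x : ℝ) / n * ((finrank L Λ : ℝ) - 1) ≤
        1 / 2 * (height κ x : ℝ) / n * (4 * n) := by
      have e1 : 1 / 2 * (height κ x : ℝ) / n * (4 * n) = 2 * height κ x := by
        field_simp
        ring
      rw [e1]
      linarith only [hcΛ, hhtΛ0]
    have := le_of_mul_le_mul_left h3 ht0
    linarith only [this]
  have hdim' : (finrank L R : ℝ) + 1 = finrank L Λ := by exact_mod_cast hdim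
  -- the scale
  set T : ℝ := c * height κ x / 100 with hT
  have hT0 : 0 < T := by positivity
  obtain ⟨D, j, hj, hD0, hDT, hDR⟩ := exists_divisor h R hT0.le hN1
  set RD : Submodule L (EX (n + 1) 2 → L) := Submodule.span L
    ((boxSub R D : Submodule κ (EX (n + 1) 2 → L)) : Set (EX (n + 1) 2 → L)) with hRD
  have hRDR : RD ≤ R := Submodule.span_le.2 fun u hu => hu.1
  set r : ℝ := (finrank L R : ℝ) - finrank L RD with hr
  have hr0 : 0 ≤ r := by
    have : (finrank L RD : ℝ) ≤ finrank L R := by exact_mod_cast Submodule.finrank_mono hRDR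
    linarith only [this]
  have h2j : (0 : ℝ) < 2 ^ j := by positivity
  have hTj : T / 2 ^ j ≤ T := by
    rw [div_le_iff₀ h2j]
    have : (1 : ℝ) ≤ 2 ^ j := one_le_pow₀ (by norm_num)
    exact le_mul_of_one_le_right hT0.le this
  have hTj0 : 0 < T / 2 ^ j := by positivity
  have hscale : T / 2 ^ j * r ≤ T := by
    have hRd : (finrank L R : ℝ) ≤ 4 * n := by linarith only [hdimΛ, hdim']
    have hnN' : (N : ℝ) ≤ n := by exact_mod_cast hnN
    have hR0 : (0 : ℝ) ≤ finrank L R := Nat.cast_nonneg _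
    have h1 : (2 + 8 * (n : ℝ) * n + 8 * n) * (E + genus κ L + 1) ≤ height κ x :=
      hyp.cb_big (by
        have h3 : (3 : ℝ) ^ 18 ≤ ((n : ℝ) + 2) ^ 18 := by gcongr; linarith only [hn']
        calc (2 + 8 * (n : ℝ) * n + 8 * n) ≤ ((n : ℝ) + 2) ^ 2 * 3 ^ 18 := b09_box hnpos
          _ ≤ ((n : ℝ) + 2) ^ 2 * ((n : ℝ) + 2) ^ 18 := by gcongr
          _ = ((n : ℝ) + 2) ^ 20 := by ring)
    have h2 : (N : ℝ) * finrank L R ≤ n * (4 * n) := mul_le_mul hnN' hRd hR0 hnpos.le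
    have h3 : (N : ℝ) * finrank L R * genus κ L ≤ n * (4 * n) * genus κ L :=
      mul_le_mul_of_nonneg_right h2 hg
    have h4 : T / 2 ^ j * r * N ≤ 5 * height κ x := by
      have e1 : (2 + 8 * (n : ℝ) * n + 8 * n) * (E + genus κ L + 1) =
          2 * genus κ L + 2 * (n * (4 * n) * genus κ L) + 8 * n +
            ((2 + 8 * (n : ℝ) * n + 8 * n) * E + 8 * n * genus κ L + (2 + 8 * n * n)) := by ring
      have h6 : 0 ≤ (2 + 8 * (n : ℝ) * n + 8 * n) * E + 8 * n * genus κ L + (2 + 8 * n * n) :=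
        b09_pos hnpos hE hg
      rw [e1] at h1
      have e2 : 2 * (N : ℝ) * finrank L R * genus κ L = 2 * (N * finrank L R * genus κ L) := by
        ring
      rw [e2] at hDR
      linarith only [hht, hhtΛ, hdimΛ, hdim', hDR, h1, h3, h6]
    have h5 : T / 2 ^ j * r * N ≤ T * N := by
      refine h4.trans ?_
      rw [hT]
      linarith only [mul_le_mul_of_nonneg_right hN hH0.le]
    exact le_of_mul_le_mul_right h5 hN'
  have hr2 : r ≤ 2 ^ N := by
    have h1 : T / 2 ^ j * r ≤ T / 2 ^ j * 2 ^ j := by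
      rw [div_mul_cancel₀ _ h2j.ne']
      exact hscale
    have h2 := le_of_mul_le_mul_left h1 hTj0
    exact h2.trans (pow_le_pow_right₀ (by norm_num) hj.le)
  -- an element of maximal rank
  obtain ⟨q, hqR, -, -, hqht, -, hqV, -⟩ := maxrank_D h R D
  have hq20 := hrank q (hRΛ hqR)
  set Y : Submodule L (EX (n + 1) 1 → L) := lam 1 (L ∙ q) with hY
  have hRDY : RD ≤ YV Y := by
    intro q' hq'
    exact mem_YV.2 fun f g h1 h2 h3 h4 => hqV q' hq' f g h1 h2 h3 h4
  have hY20 : (finrank L Y : ℝ) ≤ 20 := by exact_mod_cast hq20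
  have hη : (ht κ Y : ℝ) ≤ 10 * (T / 2 ^ j) := by
    have h1 : 2 * (ht κ Y : ℝ) ≤ finrank L Y * divDeg D := by exact_mod_cast hqht
    have h2 : (0 : ℝ) ≤ divDeg D := by exact_mod_cast hD0
    have h3 : (finrank L Y : ℝ) * divDeg D ≤ 20 * (T / 2 ^ j) :=
      mul_le_mul hY20 hDT h2 (by norm_num)
    linarith only [h1, h3]
  have hTc : T / 2 ^ j ≤ height κ x / 100 := by
    refine hTj.trans ?_
    rw [hT]
    linarith only [mul_le_mul_of_nonneg_right hc1 hH0.le]
  -- the point is not in `Y`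
  have hC0 : 0 ≤ C₀ := by
    by_contra h0
    push Not at h0
    have := hyp.small
    linarith only [this, mul_nonneg hM hnpos.le, mul_neg_of_neg_of_pos h0 hH0]
  have hM20 : 40 * M ≤ height κ x := by
    have h1 : 40 * C₀ * (height κ x / n) ≤ height κ x := by
      rw [← mul_div_assoc, div_le_iff₀ hnpos]
      linarith only [mul_le_mul_of_nonneg_right hnC hH0.le]
    linarith only [hMn, h1]
  have hxY : xm 1 x ∉ Y := by
    intro h1
    have h2 := cb_slope_one h hyp.ne hyp.slope h1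
    have h3 : M * ((finrank L Y : ℝ) - 1) ≤ M * 20 :=
      mul_le_mul_of_nonneg_left (by linarith only [hY20]) hM
    linarith only [hH, hη, hTc, hM20, h2, h3]
  -- the descent
  set A₀ : Submodule L (EX (n + 1) 2 → L) := (Λ ⊓ YV Y) ⊔ Submodule.span L {xm 2 x} with hA₀
  have hdesc := descent h hyp.ne hM hyp.slope hxY hη (ρ := 20) hq20 hΛ.mem hA₀
  have hcost := cost_YV h hyp.ne hxY Λ
  rw [← hA₀] at hcost
  -- the cost of `Y + L x`
  have hYx : (height κ x : ℝ) - ht κ (Y ⊔ Submodule.span L {xm 1 x}) ≤ 20 * M := by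
    have h1 : xm 1 x ∈ Y ⊔ Submodule.span L {xm 1 x} :=
      Submodule.mem_sup_right (Submodule.mem_span_singleton_self _)
    have h2 := cb_slope_one h hyp.ne hyp.slope h1
    have h3 := Submodule.finrank_add_le_finrank_add_finrank Y (Submodule.span L {xm 1 x})
    rw [finrank_span_singleton (xm_ne_zero hyp.ne)] at h3
    have h4 : (finrank L (Y ⊔ Submodule.span L {xm 1 x} : Submodule L (EX (n + 1) 1 → L)) : ℝ) ≤
        21 := by
      have : finrank L (Y ⊔ Submodule.span L {xm 1 x} : Submodule L (EX (n + 1) 1 → L)) ≤ 21 :=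
        h3.trans (by omega)
      exact_mod_cast this
    have h5 : M * ((finrank L (Y ⊔ Submodule.span L {xm 1 x} :
        Submodule L (EX (n + 1) 1 → L)) : ℝ) - 1) ≤ M * 20 :=
      mul_le_mul_of_nonneg_left (by linarith only [h4]) hM
    linarith only [h2, h5]
  -- the codimension of `A₀`
  have hcodim : (finrank L Λ : ℝ) - finrank L A₀ ≤ r := by
    have h1 : RD ⊔ Submodule.span L {xm 2 x} ≤ A₀ :=
      sup_le_sup_right (le_inf (hRDR.trans hRΛ) hRDY) _
    have h2 : finrank L RD + 1 ≤ finrank L (RD ⊔ Submodule.span L {xm 2 x} :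
        Submodule L (EX (n + 1) 2 → L)) := by
      refine Submodule.finrank_lt_finrank_of_lt (lt_of_le_of_ne le_sup_left fun h3 => hxR ?_)
      apply hRDR
      rw [h3]
      exact Submodule.mem_sup_right (Submodule.mem_span_singleton_self _)
    have h3 : ((finrank L RD : ℝ) + 1) ≤ finrank L A₀ := by
      exact_mod_cast h2.trans (Submodule.finrank_mono h1)
    rw [hr]
    linarith only [hdim', h3]
  have h1 : ((finrank L Λ : ℝ) - finrank L A₀) * (2 * (10 * (T / 2 ^ j)) + ((20 : ℕ) + 1) * M) ≤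
      r * (2 * (10 * (T / 2 ^ j)) + ((20 : ℕ) + 1) * M) := by
    apply mul_le_mul_of_nonneg_right hcodim
    (clear * - hc hH hM; positivity)
  have h2 : r * M ≤ 2 ^ N * (C₀ * (height κ x / n)) := mul_le_mul hr2 hMn hM (by positivity)
  have h3 : (40 + 21 * 2 ^ N) * (C₀ * (height κ x / n)) ≤ c * height κ x / 8 := by
    have e1 : (40 + 21 * 2 ^ N) * (C₀ * (height κ x / n)) =
        ((40 + 21 * 2 ^ N) * C₀ * height κ x) / n := by ring
    rw [e1, div_le_iff₀ hnpos]
    linarith only [mul_le_mul_of_nonneg_right hnc hH0.le]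
  have h4 : 2 * (genus κ L : ℝ) ≤ c * height κ x / 8 := by
    have h5 : 16 * (height κ x : ℝ) ≤ c * n * height κ x :=
      mul_le_mul_of_nonneg_right hnc2 hH0.le
    have h6 : 2 * (n : ℝ) * genus κ L ≤ height κ x := b09_h6 hnpos hE hg1
    have h7 : 2 * (genus κ L : ℝ) * n ≤ c * height κ x / 8 * n := b09_h7 hH0 h5 h6
    exact le_of_mul_le_mul_right h7 hnpos
  have h5 : r * (2 * (10 * (T / 2 ^ j)) + ((20 : ℕ) + 1) * M) =
      20 * (T / 2 ^ j * r) + 21 * (r * M) := by push_cast; ring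
  rw [h5] at h1
  have h6 : 40 * M ≤ 40 * (C₀ * (height κ x / n)) := by linarith only [hMn]
  have h7 : T = c * height κ x / 100 := hT
  have h8 : 0 < c * height κ x := by positivity
  have h9 : (40 + 21 * 2 ^ N) * (C₀ * (height κ x / n)) =
      40 * (C₀ * (height κ x / n)) + 21 * (2 ^ N * (C₀ * (height κ x / n))) := by ring
  rw [h9] at h3
  linarith only [hMn, hT, hT0, hTj, hscale, hη, hdesc, hcost, hYx, h1, h2, h3, h4]

end Pool.Agent.Lib.MP_44a246_ntSH
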