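import Mathlib
import Pool.Agent.Lib.MP_44a246_ntSH.H03
import Pool.Agent.Lib.MP_44a246_ntSH.B08
import Pool.Agent.Lib.MP_44a246_ntSH.B09

/-!
Paper 619, section 4: case B is impossible.
-/

namespace Pool.Agent.Lib.MP_44a246_ntSH

open Pool.Agent.Lib.MP_44a246_nt
open Pool.Agent.Lib.MP_44a246_ntL
open Pool.Agent.Lib.MP_44a246_ntS
open Pool.Agent.Lib.MP_44a246_ntF
open Pool.Agent.Lib.MP_44a246_ntO
open Pool.Agent.Lib.MP_44a246_ntX
open Pool.Agent.Lib.MP_e52354_nt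
open WithZero Module

universe u v

/-- **Case B is impossible** (paper 619, section 4). -/
theorem caseB (C₀ : ℝ) (hC : 1000 ≤ C₀) : ∃ n₀ : ℕ, ∀ (n d : ℕ), n₀ ≤ n →
    ∀ (κ : Type u) (L : Type v) [Field κ] [IsAlgClosed κ] [CharZero κ] [Field L] [Algebra κ L]
      (_ : IsFF κ L) (x : Fin (n + 1) → L) (M E : ℝ), Hyp κ x d C₀ M E →
      CaseA κ x d (1 / (132 * C₀)) (1 / 32) := by
  obtain ⟨c, hcd⟩ : ∃ c : ℝ, c = 1 / (130 * C₀) := ⟨_, rfl⟩
  have hc : 0 < c := by rw [hcd]; positivity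
  have hc1 : c ≤ 1 := by
    rw [hcd, div_le_one (by positivity)]
    linarith
  obtain ⟨N, hN⟩ : ∃ N : ℕ, 500 / c ≤ N := exists_nat_ge _
  have hN' : 500 ≤ c * N := by
    rw [div_le_iff₀ hc] at hN
    linarith
  obtain ⟨n₀, hn₀⟩ := exists_nat_ge (67 * (132 * C₀) + N + 40 * C₀ +
    (40 + 21 * 2 ^ N) * C₀ * 8 / c + 16 / c)
  have h1 : 0 ≤ (40 + 21 * (2 : ℝ) ^ N) * C₀ * 8 / c := by positivity
  have h2 : 0 ≤ 16 / c := by positivity
  have h3 : (0 : ℝ) ≤ N := Nat.cast_nonneg _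
  refine ⟨n₀, fun n d hn κ L _ _ _ _ _ h x M E hyp => ?_⟩
  have hn' : (n₀ : ℝ) ≤ n := by exact_mod_cast hn
  by_contra hA
  have hn1 : 67 * (132 * C₀) ≤ n := by linarith
  have hnN : N ≤ n := by
    have : (N : ℝ) ≤ n := by linarith
    exact_mod_cast this
  have hnC : 40 * C₀ ≤ n := by linarith
  have hnc : (40 + 21 * 2 ^ N) * C₀ * 8 ≤ c * n := by
    have h4 : (40 + 21 * (2 : ℝ) ^ N) * C₀ * 8 / c ≤ n := by linarith
    rw [div_le_iff₀ hc] at h4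
    linarith
  have hnc2 : 16 ≤ c * n := by
    have h4 : 16 / c ≤ n := by linarith
    rw [div_le_iff₀ hc] at h4
    linarith
  have hn2 : 1 ≤ n := by
    have : (1 : ℝ) ≤ n := by linarith
    exact_mod_cast this
  have hd2 : 2 ≤ d := by have := hyp.hd; omega
  obtain ⟨W, hW⟩ := exists_isSl h (1 / 2 * height κ x / n) (xm d x)
  have h5 := cb_cost_two h hyp hC hn1 hA hW
  have h6 := cb_five h hyp hn2 hc hc1 hN' hnN hnC hnc hnc2
    (hasSl_lam h hyp.ne hd2 (cb_hasSl hW)) (cb_rank_two h hyp hC hn1 hA (cb_hasSl hW))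
  rw [← hcd] at h5
  linarith

end Pool.Agent.Lib.MP_44a246_ntSH
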