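import Mathlib
import Pool.Agent.Lib.MP_44a246_ntSH.H12
import Pool.Agent.Lib.MP_44a246_ntSH.H07
import Pool.Agent.Lib.MP_44a246_ntSH.H11
import Pool.Agent.Lib.MP_44a246_ntSH.H03

/-!
Collects the imports for case A.
-/
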