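import Mathlib
import Pool.Agent.Lib.MP_44a246_ntSH.HX

/-!
Paper 619, section 5, (A1): a quadratic form of large rank in the space of the contractions.
-/

namespace Pool.Agent.Lib.MP_44a246_ntSH

open Pool.Agent.Lib.MP_44a246_nt
open Pool.Agent.Lib.MP_44a246_ntL
open Pool.Agent.Lib.MP_44a246_ntS
open Pool.Agent.Lib.MP_44a246_ntF
open Pool.Agent.Lib.MP_44a246_ntO
open Pool.Agent.Lib.MP_44a246_ntR (genus)
open Pool.Agent.Lib.MP_e52354_nt
open WithZero Module

variable {κ L : Type*} [Field κ] [IsAlgClosed κ] [CharZero κ] [Field L] [Algebra κ L] {n d : ℕ}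

theorem card_EX_one (n : ℕ) : Fintype.card (EX n 1) = n := by
  have e1 : Fintype.card (EX n 1) = (Finset.univ.image fun j : Fin n =>
      (Finsupp.single j 1 : Fin n →₀ ℕ)).card := by
    rw [Fintype.card_coe]
    congr 1
    ext K
    rw [mem_expo, Finset.mem_image]
    constructor
    · intro hK
      obtain ⟨j, hj⟩ : ∃ j, K j ≠ 0 := by
        by_contra h1
        push Not at h1
        have : K = 0 := Finsupp.ext h1
        rw [this] at hK
        simp at hK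
      refine ⟨j, Finset.mem_univ _, ?_⟩
      have h1 : Finsupp.single j 1 ≤ K := by
        rw [Finsupp.single_le_iff]
        omega
      obtain ⟨R, hR⟩ := exists_add_of_le h1
      rw [hR] at hK ⊢
      rw [map_add, Finsupp.degree_single] at hK
      have h2 : R.degree = 0 := by omega
      rw [Finsupp.degree_eq_zero_iff] at h2
      rw [h2, add_zero]
    · rintro ⟨j, -, rfl⟩
      rw [Finsupp.degree_single]
  rw [e1, Finset.card_image_of_injective, Finset.card_univ, Fintype.card_fin]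
  exact Finsupp.single_left_injective one_ne_zero

theorem card_EX_le (n e : ℕ) : Fintype.card (EX n e) ≤ n ^ e := by
  induction e with
  | zero => rw [pow_zero]; exact card_EX_zero
  | succ e ih =>
    have h1 : Function.Surjective fun p : Fin n × EX n e => up p.1 p.2 := by
      intro K
      obtain ⟨l, ψ, hψ⟩ := exists_up K
      exact ⟨(l, ψ), hψ.symm⟩
    have h2 := Fintype.card_le_of_surjective _ h1
    rw [Fintype.card_prod, Fintype.card_fin] at h2
    rw [pow_succ, mul_comm]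
    exact h2.trans (Nat.mul_le_mul_left n ih)

theorem finrank_lam_one_le (q : Submodule L (EX n d → L)) : finrank L (lam 1 q) ≤ n := by
  have h1 := Submodule.finrank_le (lam 1 q)
  rwa [finrank_fintype_fun_eq_card, card_EX_one] at h1

section

variable {x : Fin (n + 1) → L} {C₀ M E : ℝ}

omit [IsAlgClosed κ] [CharZero κ] in
theorem Hyp.g_le (hyp : Hyp κ x d C₀ M E) :
    ((genus κ L : ℝ) + 1) * ((n : ℝ) + 2) ^ 20 ≤ height κ x := by
  have h1 := hyp.big
  have h2 := hyp.hE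
  have h3 : 0 ≤ E * ((n : ℝ) + 2) ^ 20 := by positivity
  nlinarith

omit [IsAlgClosed κ] [CharZero κ] in
theorem Hyp.H_pos (hyp : Hyp κ x d C₀ M E) : (0 : ℝ) < height κ x := by
  have h1 := hyp.g_le
  have h2 : (0 : ℝ) < ((genus κ L : ℝ) + 1) * ((n : ℝ) + 2) ^ 20 := by positivity
  linarith

/-- (A1): a quadratic form of large rank -/
theorem stepA1 (h : IsFF κ L) (hyp : Hyp κ x d C₀ M E) (hC : 0 < C₀) {t η : ℝ} (ht0 : 0 < t)
    (hη : 0 < η) (hη2 : η ≤ 1 / 2) {e₀ : ℕ} (he : n ≤ 2 * e₀)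
    {W : Submodule L (EX (n + 1) e₀ → L)} (hW : HasSl κ t (xm e₀ x) W)
    (hc : η * n * height κ x ≤ e₀ * (height κ x : ℝ) - ht κ W)
    (hn : 24 ≤ n) (h6 : 12 ≤ η * n) (hsz : 12 * C₀ ≤ η * n) :
    ∃ q ∈ lam 2 W, (n : ℝ) / (2 * C₀) ≤ finrank L (lam 1 (L ∙ q)) := by
  have hx := hyp.ne
  set H : ℝ := (height κ x : ℝ) with hH
  have hHpos : 0 < H := hyp.H_pos
  have hn0 : (24 : ℝ) ≤ n := by exact_mod_cast hn
  have hnpos : (0 : ℝ) < n := by linarith
  have hηn2 : (0 : ℝ) < η * (n : ℝ) ^ 2 := by positivity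
  set α : ℝ := 3 * C₀ * H / (η * (n : ℝ) ^ 2) with hα
  have hαpos : 0 < α := by positivity
  have hΛ : HasSl κ t (xm 2 x) (lam 2 W) := hasSl_lam h hx (by omega) hW
  have hfn : ∀ (f : MvPolynomial (Fin (n + 1)) L) (τ : Place κ L → ℤ) (a' : ℤ),
      Fnl κ (lam 2 W) a' f τ → a' ≤ ⌊α⌋ := by
    intro f τ a' hf
    rw [Int.le_floor]
    by_contra hlt
    push Not at hlt
    have ha0 : (0 : ℝ) < a' := hαpos.trans hlt
    set j : ℕ := ⌊M / a'⌋₊ + 1 with hj
    have hMa : M / a' ≤ η * n / 3 := by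
      rw [div_le_iff₀ ha0]
      have h1 : M * n ≤ C₀ * H := hyp.small
      have h2 : η * n / 3 * α = C₀ * H / n := by
        rw [hα]
        field_simp
      have h3 : M ≤ C₀ * H / n := by rwa [le_div_iff₀ hnpos]
      have h4 : η * n / 3 * α ≤ η * n / 3 * a' := mul_le_mul_of_nonneg_left hlt.le (by positivity)
      linarith
    have hj1 : M < j * a' := by
      have h1 := Nat.lt_floor_add_one (M / a')
      rw [div_lt_iff₀ ha0] at h1
      rw [hj]
      push_cast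
      exact h1
    have hj2 : (j : ℝ) ≤ η * n / 3 + 1 := by
      rw [hj]
      push_cast
      have h1 : (0 : ℝ) ≤ M / a' := div_nonneg hyp.pos ha0.le
      have := Nat.floor_le h1
      linarith
    have hj3 : j * 2 ≤ e₀ := by
      have h1 : (j : ℝ) * 2 ≤ n / 2 := by nlinarith
      have h2 : (n : ℝ) ≤ 2 * e₀ := by exact_mod_cast he
      have h3 : (j : ℝ) * 2 ≤ e₀ := by linarith
      exact_mod_cast h3
    obtain ⟨R, -, -, -, hR⟩ := p3b h hx hyp.slope (i := 2) (k := j) hj3 (by omega) hW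
      (by linarith) (by linarith) hf
    have h1 : (0 : ℝ) ≤ ht κ R := by exact_mod_cast ht_nonneg h R
    have h2 : (j : ℝ) * (((2 : ℕ) : ℝ) * H - a') ≤ j * (2 * H) := by
      refine mul_le_mul_of_nonneg_left ?_ (Nat.cast_nonneg j)
      push_cast
      linarith
    have h3 : (j : ℝ) * (2 * H) ≤ (η * n / 3 + 1) * (2 * H) :=
      mul_le_mul_of_nonneg_right hj2 (by linarith)
    have h4 : η * n * H ≤ (η * n / 3 + 1) * (2 * H) := by linarith
    have h5 : η * n ≤ (η * n / 3 + 1) * 2 := by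
      have h6 : η * n * H ≤ ((η * n / 3 + 1) * 2) * H := by linarith
      exact le_of_mul_le_mul_right h6 hHpos
    linarith
  obtain ⟨q, hq, -, hxq, hhq⟩ := maxrank h hΛ.mem hfn
  refine ⟨q, hq, ?_⟩
  set V := lam 1 (L ∙ q) with hV
  have hρ : (finrank L V : ℝ) ≤ n + 1 := by
    have := finrank_lam_one_le (L ∙ q)
    exact_mod_cast this
  have h1 : (2 : ℝ) * ht κ V ≤ finrank L V *
      (⌊α⌋ + (finrank L (lam 2 W) + 1) * genus κ L + 1) := by exact_mod_cast hhq
  have h2 : (⌊α⌋ : ℝ) ≤ α := Int.floor_le α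
  have hΛd : (finrank L (lam 2 W) : ℝ) ≤ ((n : ℝ) + 1) ^ 2 := by
    have h3 := Submodule.finrank_le (lam 2 W)
    rw [finrank_fintype_fun_eq_card] at h3
    exact_mod_cast h3.trans (card_EX_le (n + 1) 2)
  have hg0 : (0 : ℝ) ≤ genus κ L := Nat.cast_nonneg _
  have h3 : (2 : ℝ) * ht κ V ≤ (n + 1) * (α + (((n : ℝ) + 1) ^ 2 + 1) * genus κ L + 1) := by
    refine h1.trans ?_
    have h4 : (0 : ℝ) ≤ (⌊α⌋ : ℝ) := by exact_mod_cast Int.floor_nonneg.2 hαpos.le
    have h5 : ((finrank L (lam 2 W) : ℝ) + 1) * genus κ L ≤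
        (((n : ℝ) + 1) ^ 2 + 1) * genus κ L := mul_le_mul_of_nonneg_right (by linarith) hg0
    exact mul_le_mul hρ (by linarith) (by positivity) (by positivity)
  have h4 : (n + 1 : ℝ) * α ≤ H / 2 := by
    have h5 : (n + 1 : ℝ) * α = (n + 1) / n * (3 * C₀ / (η * n)) * H := by
      rw [hα]
      field_simp
    have h6 : (n + 1 : ℝ) / n ≤ 2 := by
      rw [div_le_iff₀ hnpos]
      linarith
    have h7 : 3 * C₀ / (η * n) ≤ 1 / 4 := by
      rw [div_le_iff₀ (by positivity)]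
      linarith
    have h8 : (n + 1 : ℝ) / n * (3 * C₀ / (η * n)) ≤ 2 * (1 / 4) :=
      mul_le_mul h6 h7 (by positivity) (by norm_num)
    rw [h5]
    nlinarith
  have h5 : (n + 1 : ℝ) * ((((n : ℝ) + 1) ^ 2 + 1) * genus κ L + 1) ≤ H / 2 := by
    have h6 := hyp.g_le
    have h7 : 2 * ((n : ℝ) + 1) * (((n : ℝ) + 1) ^ 2 + 1) ≤ ((n : ℝ) + 2) ^ 20 := by
      have h8 : ((n : ℝ) + 2) ^ 4 ≤ ((n : ℝ) + 2) ^ 20 :=
        pow_le_pow_right₀ (by linarith) (by norm_num)
      have h9 : 2 * ((n : ℝ) + 1) * (((n : ℝ) + 1) ^ 2 + 1) ≤ ((n : ℝ) + 2) ^ 4 := by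
        have h10 : ((n : ℝ) + 1) ^ 2 + 1 ≤ ((n : ℝ) + 2) ^ 2 := by nlinarith
        have h11 : 2 * ((n : ℝ) + 1) ≤ ((n : ℝ) + 2) ^ 2 := by nlinarith
        calc 2 * ((n : ℝ) + 1) * (((n : ℝ) + 1) ^ 2 + 1) ≤
            ((n : ℝ) + 2) ^ 2 * ((n : ℝ) + 2) ^ 2 := mul_le_mul h11 h10 (by positivity) (by positivity)
          _ = ((n : ℝ) + 2) ^ 4 := by ring
      linarith
    have h8 : ((genus κ L : ℝ) + 1) * (2 * ((n : ℝ) + 1) * (((n : ℝ) + 1) ^ 2 + 1)) ≤
        ((genus κ L : ℝ) + 1) * ((n : ℝ) + 2) ^ 20 :=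
      mul_le_mul_of_nonneg_left h7 (by positivity)
    have h9 : (((n : ℝ) + 1) ^ 2 + 1) * genus κ L + 1 ≤
        ((genus κ L : ℝ) + 1) * (((n : ℝ) + 1) ^ 2 + 1) := by nlinarith
    have h10 : (n + 1 : ℝ) * ((((n : ℝ) + 1) ^ 2 + 1) * genus κ L + 1) ≤
        (n + 1 : ℝ) * (((genus κ L : ℝ) + 1) * (((n : ℝ) + 1) ^ 2 + 1)) :=
      mul_le_mul_of_nonneg_left h9 (by positivity)
    linarith
  have h6 : (ht κ V : ℝ) ≤ H / 2 := by linarith
  have h7 := cost_le_aux h hx hyp.slope (D := 1) le_rfl hxq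
  have h8 : H / 2 ≤ M * ((finrank L V : ℝ) - 1) := by
    push_cast at h7
    linarith
  have h9 : (1 : ℝ) ≤ finrank L V := by
    exact_mod_cast one_le_finrank_aux (xm_ne_zero (d := 1) hx) hxq
  have h10 : H / 2 * n ≤ C₀ * H * ((finrank L V : ℝ) - 1) := by
    calc H / 2 * n ≤ M * ((finrank L V : ℝ) - 1) * n := mul_le_mul_of_nonneg_right h8 hnpos.le
      _ = M * n * ((finrank L V : ℝ) - 1) := by ring
      _ ≤ C₀ * H * ((finrank L V : ℝ) - 1) :=
        mul_le_mul_of_nonneg_right hyp.small (by linarith)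
  rw [div_le_iff₀ (by positivity)]
  have h11 : (n : ℝ) * H ≤ ((finrank L V : ℝ) * (2 * C₀)) * H := by
    have : 0 ≤ C₀ * H := by positivity
    nlinarith
  exact le_of_mul_le_mul_right h11 hHpos

end

end Pool.Agent.Lib.MP_44a246_ntSH
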