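import Mathlib
import Pool.Agent.Lib.MP_44a246_ntSH.HA1

/-!
Paper 619, section 5, (A1), (A2): the space `W` in degree `d`.
-/

namespace Pool.Agent.Lib.MP_44a246_ntSH

open Pool.Agent.Lib.MP_44a246_nt
open Pool.Agent.Lib.MP_44a246_ntL
open Pool.Agent.Lib.MP_44a246_ntS
open Pool.Agent.Lib.MP_44a246_ntF
open Pool.Agent.Lib.MP_44a246_ntO
open Pool.Agent.Lib.MP_44a246_ntR (genus)
open Pool.Agent.Lib.MP_e52354_nt
open WithZero Module

variable {κ L : Type*} [Field κ] [IsAlgClosed κ] [CharZero κ] [Field L] [Algebra κ L] {n d : ℕ}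
  {x : Fin (n + 1) → L} {C₀ M E : ℝ}

/-- the dimension of a maximiser above a space with large slopes -/
theorem finrank_above (h : IsFF κ L) (hx : x ≠ 0) {e : ℕ} {t t' : ℝ} (ht' : 0 ≤ t') (htt : t' ≤ t)
    {Λ Λ' : Submodule L (EX (n + 1) e → L)} (hΛ : HasSl κ t (xm e x) Λ)
    (hle : (ht κ Λ' : ℝ) + t' * finrank L Λ' ≤ ht κ Λ + t' * finrank L Λ) :
    t' * ((finrank L Λ' : ℝ) - 1) ≤ e * height κ x := by
  have h1 := cost_ge h hx hΛ
  have h2 : (1 : ℝ) ≤ finrank L Λ := by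
    exact_mod_cast one_le_finrank_aux (xm_ne_zero (d := e) hx) hΛ.mem
  have h3 : t' * ((finrank L Λ : ℝ) - 1) ≤ t * ((finrank L Λ : ℝ) - 1) :=
    mul_le_mul_of_nonneg_right htt (by linarith)
  have h4 : (0 : ℝ) ≤ ht κ Λ' := by exact_mod_cast ht_nonneg h Λ'
  linarith

/-- (A1): the rows, from a quadratic form of large rank -/
theorem stepA1b (h : IsFF κ L) (hyp : Hyp κ x d C₀ M E) (hC : 0 < C₀) {s τ : ℝ} (hτ : 0 < τ)
    (hτs : τ / 8 ≤ s) {Λ : Submodule L (EX (n + 1) 2 → L)}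
    (hΛ : HasSl κ (s * height κ x / n) (xm 2 x) Λ)
    {q : EX (n + 1) 2 → L} (hq : q ∈ Λ)
    (hrk : (n : ℝ) / (2 * C₀) ≤ finrank L (lam 1 (L ∙ q)))
    (hn : 1 ≤ n) (hsz : 20 * C₀ * (2 + 16 / τ) ≤ n) :
    ∃ (ν : ℕ) (W : Submodule L (EX (n + 1) d → L)), xm d x ∈ W ∧ finrank L W ≤ n + ν ∧
      1 / (5 * C₀) * (n : ℝ) ^ 2 ≤ ν ∧
      (s - τ / 8) * (height κ x / n) * ν ≤ d * (height κ x : ℝ) - ht κ W := by
  have hx := hyp.ne
  set H : ℝ := (height κ x : ℝ) with hH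
  have hHpos : 0 < H := hyp.H_pos
  have hn0 : (1 : ℝ) ≤ n := by exact_mod_cast hn
  have hnpos : (0 : ℝ) < n := by linarith
  have ht' : (0 : ℝ) ≤ τ / 8 * H / n := by positivity
  have htt : τ / 8 * H / n ≤ s * H / n := by gcongr
  obtain ⟨Λ', hΛΛ', hmax⟩ := exists_above h ht' Λ
  obtain ⟨ν, W, hxW, hWd, hWc, hν⟩ := hyp.rows Λ Λ' (s * H / n) (τ / 8 * H / n) ht' htt hΛ hΛΛ'
    (fun Γ hΓ => by
      have := hmax Γ (hΛΛ'.trans hΓ)
      linarith)
  refine ⟨ν, W, hxW, hWd, ?_, ?_⟩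
  · have h1 := finrank_above h hx ht' htt hΛ (hmax Λ le_rfl)
    have h2 : ((finrank L Λ' : ℝ) - 1) ≤ 16 * n / τ := by
      rw [le_div_iff₀ hτ]
      have h3 : τ / 8 * H / n * ((finrank L Λ' : ℝ) - 1) =
          (((finrank L Λ' : ℝ) - 1) * τ) * (H / (8 * n)) := by
        field_simp
      have h4 : ((2 : ℕ) : ℝ) * H = 16 * n * (H / (8 * n)) := by
        push_cast
        field_simp
        norm_num
      rw [h3, h4] at h1
      exact le_of_mul_le_mul_right h1 (by positivity)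
    have h3 := hν q hq
    set ρ : ℝ := (finrank L (lam 1 (L ∙ q)) : ℝ) with hρ
    have h4 : ρ ≤ n + 1 := by
      have := finrank_lam_one_le (L ∙ q)
      rw [hρ]
      exact_mod_cast this
    have h0 : 0 ≤ ρ := Nat.cast_nonneg _
    have h5 : ρ * n / 2 ≤ ρ * (n + 1) - ρ * (ρ - 1) / 2 := by nlinarith
    have h6 : n / (2 * C₀) * n / 2 ≤ ρ * n / 2 := by gcongr
    have h7 : n / (2 * C₀) * n / 2 = (n : ℝ) ^ 2 / (4 * C₀) := by
      field_simp
      norm_num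
    have h8 : (n : ℝ) ^ 2 / (4 * C₀) ≤ ν + (1 + 16 * n / τ) + n := by linarith
    have h9 : n * (2 + 16 / τ) ≤ (n : ℝ) ^ 2 / (20 * C₀) := by
      rw [le_div_iff₀ (by positivity)]
      nlinarith
    have h10 : (n : ℝ) ^ 2 / (4 * C₀) = 1 / (5 * C₀) * (n : ℝ) ^ 2 + (n : ℝ) ^ 2 / (20 * C₀) := by
      field_simp
      norm_num
    have h11 : n * (2 + 16 / τ) = 2 * n + 16 * n / τ := by ring
    linarith
  · refine le_trans ?_ hWc
    have h1 : (1 : ℝ) ≤ (d : ℝ) - n - 1 := by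
      have : ((n + 2 : ℕ) : ℝ) ≤ d := by exact_mod_cast hyp.hd
      push_cast at this
      linarith
    have h2 : E ≤ H := by
      have h3 := hyp.big
      have h4 := hyp.hE
      have h5 : (1 : ℝ) ≤ ((n : ℝ) + 2) ^ 20 := one_le_pow₀ (by linarith)
      have h6 : (0 : ℝ) ≤ genus κ L := Nat.cast_nonneg _
      nlinarith
    have h3 : H ≤ ((d : ℝ) - n - 1) * H := by nlinarith
    have h4 : (s - τ / 8) * (H / n) * ν = (s * H / n - τ / 8 * H / n) * ν := by ring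
    rw [h4]
    linarith

/-- (A2): the space `W`. The slopes of `W` are at least `(s - τ) H / n`; the cost of `W` is large. -/
theorem stepA2 (h : IsFF κ L) (hyp : Hyp κ x d C₀ M E) (hC : 1 ≤ C₀) {s τ η : ℝ} (hτ : 0 < τ)
    (hτs : τ ≤ s) (hsC : s ≤ C₀) (hη : 0 ≤ η) (hητ : η ≤ τ * (1 / (5 * C₀)) / 8)
    (hsz : C₀ ≤ τ * (1 / (5 * C₀)) * n / 8) (hn : 1 ≤ n)
    {ν : ℕ} {W' : Submodule L (EX (n + 1) d → L)} (hxW : xm d x ∈ W') (hWd : finrank L W' ≤ n + ν)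
    (hν : 1 / (5 * C₀) * (n : ℝ) ^ 2 ≤ ν)
    (hc : (s - τ / 8) * (height κ x / n) * ν ≤ d * (height κ x : ℝ) - ht κ W')
    (hsat : ∀ V : Submodule L (EX (n + 1) d → L), xm d x ∈ V →
      d * (height κ x : ℝ) - ht κ V - (s + τ / 4) * height κ x / n * ((finrank L V : ℝ) - 1) ≤
        η * n * height κ x) :
    ∃ W : Submodule L (EX (n + 1) d → L), HasSl κ ((s - τ) * height κ x / n) (xm d x) W ∧
      (s - τ) * (1 / (5 * C₀)) * n * height κ x / 2 ≤ d * (height κ x : ℝ) - ht κ W := by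
  have hx := hyp.ne
  set H : ℝ := (height κ x : ℝ) with hH
  have hHpos : 0 < H := hyp.H_pos
  have hn0 : (1 : ℝ) ≤ n := by exact_mod_cast hn
  have hnpos : (0 : ℝ) < n := by linarith
  set c₂ : ℝ := 1 / (5 * C₀) with hc₂
  have hc₂pos : 0 < c₂ := by positivity
  obtain ⟨W, hWW', hW, hle⟩ := exists_hasSl h ((s - τ) * H / n) hxW
  refine ⟨W, hW, ?_⟩
  have h1 := cost_ge h hx hW
  -- the excess of `W`
  have h2 : (7 / 8 * τ * c₂ * n - C₀) * H ≤
      d * H - ht κ W - (s - τ) * H / n * ((finrank L W : ℝ) - 1) := by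
    have h3 : (finrank L W' : ℝ) ≤ n + ν := by exact_mod_cast hWd
    have h4 : 0 ≤ (s - τ) * H / n := by
      have : 0 ≤ s - τ := by linarith
      positivity
    have h5 : (s - τ) * H / n * ((finrank L W' : ℝ) - 1) ≤ (s - τ) * H / n * (n + ν) :=
      mul_le_mul_of_nonneg_left (by linarith) h4
    have h6 : (s - τ) * H / n * (n + ν) = (s - τ) * H + (s - τ) * (H / n) * ν := by
      field_simp
    have h7 : (s - τ / 8) * (H / n) * ν - (s - τ) * (H / n) * ν = 7 / 8 * τ * (H / n) * ν := by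
      ring
    have h8 : 7 / 8 * τ * (H / n) * (c₂ * (n : ℝ) ^ 2) ≤ 7 / 8 * τ * (H / n) * ν :=
      mul_le_mul_of_nonneg_left hν (by positivity)
    have h9 : 7 / 8 * τ * (H / n) * (c₂ * (n : ℝ) ^ 2) = 7 / 8 * τ * c₂ * n * H := by
      field_simp
    have h10 : (s - τ) * H ≤ C₀ * H := mul_le_mul_of_nonneg_right (by linarith) hHpos.le
    have e1 : (7 / 8 * τ * c₂ * n - C₀) * H = 7 / 8 * τ * c₂ * n * H - C₀ * H := by ring
    have e2 : (s - τ) * H / n * ((finrank L W : ℝ) - 1) =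
      (s - τ) * H / n * finrank L W - (s - τ) * H / n := by ring
    have e3 : (s - τ) * H / n * ((finrank L W' : ℝ) - 1) =
      (s - τ) * H / n * finrank L W' - (s - τ) * H / n := by ring
    rw [e1, e2]
    rw [e3] at h5
    linarith
  have h3 := hsat W hW.mem
  -- the dimension of `W`
  have h4 : (7 / 8 * τ * c₂ * n - C₀ - η * n) * H ≤
      5 / 4 * τ * (H / n) * ((finrank L W : ℝ) - 1) := by
    have e1 : (s + τ / 4) * H / n * ((finrank L W : ℝ) - 1) -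
        (s - τ) * H / n * ((finrank L W : ℝ) - 1) =
        5 / 4 * τ * (H / n) * ((finrank L W : ℝ) - 1) := by ring
    have e2 : (7 / 8 * τ * c₂ * n - C₀ - η * n) * H =
        (7 / 8 * τ * c₂ * n - C₀) * H - η * n * H := by ring
    rw [e2]
    linarith
  have h5 : 5 / 8 * τ * c₂ * n ≤ 7 / 8 * τ * c₂ * n - C₀ - η * n := by
    have h6 : η * n ≤ τ * c₂ / 8 * n := mul_le_mul_of_nonneg_right hητ hnpos.le
    linarith
  have h6 : c₂ * (n : ℝ) ^ 2 / 2 ≤ (finrank L W : ℝ) - 1 := by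
    have h7 : 5 / 8 * τ * c₂ * n * H ≤ 5 / 4 * τ * (H / n) * ((finrank L W : ℝ) - 1) :=
      (mul_le_mul_of_nonneg_right h5 hHpos.le).trans h4
    have h8 : 5 / 8 * τ * c₂ * n * H = 5 / 4 * τ * (H / n) * (c₂ * (n : ℝ) ^ 2 / 2) := by
      field_simp
      norm_num
    rw [h8] at h7
    exact le_of_mul_le_mul_left h7 (by positivity)
  have h7 : (s - τ) * H / n * (c₂ * (n : ℝ) ^ 2 / 2) ≤ (s - τ) * H / n * ((finrank L W : ℝ) - 1) :=
    mul_le_mul_of_nonneg_left h6 (by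
      have : 0 ≤ s - τ := by linarith
      positivity)
  have h8 : (s - τ) * H / n * (c₂ * (n : ℝ) ^ 2 / 2) = (s - τ) * c₂ * n * H / 2 := by
    field_simp
  rw [h8] at h7
  exact h7.trans h1

end Pool.Agent.Lib.MP_44a246_ntSH
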