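import Mathlib
import Pool.Agent.Lib.MP_44a246_ntSH.HA3

/-!
Paper 619, section 5, (A1)-(A3).
-/

namespace Pool.Agent.Lib.MP_44a246_ntSH

open Pool.Agent.Lib.MP_44a246_nt
open Pool.Agent.Lib.MP_44a246_ntL
open Pool.Agent.Lib.MP_44a246_ntS
open Pool.Agent.Lib.MP_44a246_ntF
open Pool.Agent.Lib.MP_44a246_ntO
open Pool.Agent.Lib.MP_44a246_ntX
open Pool.Agent.Lib.MP_e52354_nt
open WithZero Module

universe u v

/-- the level `s` is attained by a space of functionals on forms of a degree between `d / 2` and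
`d` -/
def Lev (κ : Type*) {L : Type*} [Field κ] [Field L] [Algebra κ L] {n : ℕ}
    (x : Fin (n + 1) → L) (d : ℕ) (η s : ℝ) : Prop :=
  ∃ e : ℕ, d ≤ 2 * e ∧ e ≤ d ∧ ∃ W : Submodule L (EX (n + 1) e → L), xm e x ∈ W ∧
    η * n * height κ x + s * height κ x / n * ((finrank L W : ℝ) - 1) ≤
      e * (height κ x : ℝ) - ht κ W

/-- **Case A** (paper 619, (A1)-(A3)): there is a space `W` of functionals on forms of degree `d`
with large slopes such that the spaces of its contractions in the degrees `e ≤ c₃ n` have very small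
height. -/
theorem caseA (C₀ θ : ℝ) (hC : 1000 ≤ C₀) (hθ : 0 < θ) : ∃ n₀ : ℕ, ∀ (n d : ℕ), n₀ ≤ n →
    ∀ (κ : Type u) (L : Type v) [Field κ] [IsAlgClosed κ] [CharZero κ] [Field L] [Algebra κ L]
      (_ : IsFF κ L) (x : Fin (n + 1) → L) (M E : ℝ), Hyp κ x d C₀ M E →
      CaseA κ x d (1 / (132 * C₀)) (1 / 32) →
      ∃ (s : ℝ) (W : Submodule L (EX (n + 1) d → L)), 1 / 64 ≤ s ∧ s ≤ C₀ ∧
        HasSl κ (s * height κ x / n) (xm d x) W ∧
        ∀ e : ℕ, 1 ≤ e → (e : ℝ) ≤ n / (6000 * C₀) →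
          (ht κ (lam e W) : ℝ) ≤ θ * e ^ 2 * height κ x / n ∧
          (finrank L (lam e W) : ℝ) ≤ 1 + e * n / s := by
  have hC0 : (0 : ℝ) < C₀ := by linarith
  set τ : ℝ := min (1 / 64) (θ / (400000 * C₀)) with hτdef
  have hτ : 0 < τ := lt_min (by norm_num) (by positivity)
  have hτ64 : τ ≤ 1 / 64 := min_le_left _ _
  have hτθ : τ * (400000 * C₀) ≤ θ := by
    have h1 : τ ≤ θ / (400000 * C₀) := min_le_right _ _
    rwa [le_div_iff₀ (by positivity)] at h1
  set c₂ : ℝ := 1 / (5 * C₀) with hc₂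
  have hc₂pos : 0 < c₂ := by positivity
  set η : ℝ := τ * c₂ / (1024 * C₀) with hηdef
  have hη : 0 < η := by positivity
  set N : ℝ := 24 + (12 * C₀ + 12) / η + 20 * C₀ * (2 + 16 / τ) + 8 * C₀ / (τ * c₂) +
    16 * C₀ + 1 / τ with hN
  refine ⟨⌈N⌉₊, fun n d hn κ L _ _ _ _ _ h x M E hyp hcase => ?_⟩
  have hNn : N ≤ n := (Nat.le_ceil N).trans (by exact_mod_cast hn)
  have hp1 : 0 ≤ (12 * C₀ + 12) / η := by positivity
  have hp2 : 0 ≤ 20 * C₀ * (2 + 16 / τ) := by positivity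
  have hp3 : 0 ≤ 8 * C₀ / (τ * c₂) := by positivity
  have hp4 : 0 ≤ 1 / τ := by positivity
  have hn24 : (24 : ℝ) ≤ n := by linarith
  have hn24' : 24 ≤ n := by exact_mod_cast hn24
  have hnη : 12 * C₀ + 12 ≤ η * n := by
    have h1 : (12 * C₀ + 12) / η ≤ n := by linarith
    rw [div_le_iff₀ hη] at h1
    linarith
  have hn2 : 20 * C₀ * (2 + 16 / τ) ≤ n := by linarith
  have hn3 : C₀ ≤ τ * c₂ * n / 8 := by
    have h1 : 8 * C₀ / (τ * c₂) ≤ n := by linarith
    rw [div_le_iff₀ (by positivity)] at h1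
    linarith
  have hn4 : 16 * C₀ ≤ n := by linarith
  have hn5 : 1 ≤ τ * n := by
    have h1 : 1 / τ ≤ n := by linarith
    rw [div_le_iff₀ hτ] at h1
    linarith
  have hx := hyp.ne
  have hHpos : (0 : ℝ) < height κ x := hyp.H_pos
  have hnpos : (0 : ℝ) < n := by linarith
  have hηc : η ≤ 1 / (132 * C₀) := by
    have h1 : η = τ * (c₂ / (1024 * C₀)) := by rw [hηdef]; ring
    have h2 : c₂ ≤ 1 := by
      rw [hc₂, div_le_iff₀ (by positivity)]
      linarith
    have h3 : c₂ / (1024 * C₀) ≤ 1 / (132 * C₀) :=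
      div_le_div₀ zero_le_one h2 (by positivity) (by linarith)
    have h4 : 0 ≤ 1 / (132 * C₀) := by positivity
    rw [h1]
    have h5 : 0 ≤ c₂ / (1024 * C₀) := by positivity
    nlinarith
  have hη2 : η ≤ 1 / 2 := by
    refine hηc.trans ?_
    rw [div_le_div_iff₀ (by positivity) (by norm_num)]
    linarith
  have hd := hyp.hd
  -- levels at least `C₀` are not attained
  have hbig : ∀ s : ℝ, C₀ ≤ s → ¬ Lev κ x d η s := by
    rintro s hs ⟨e, h1, h2, W, h3, h4⟩
    have h5 := cost_le_aux h hx hyp.slope (by omega : 1 ≤ e) h3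
    have h6 : (1 : ℝ) ≤ finrank L W := by
      exact_mod_cast one_le_finrank_aux (xm_ne_zero (d := e) hx) h3
    have h7 : M ≤ s * height κ x / n := by
      rw [le_div_iff₀ hnpos]
      exact hyp.small.trans (mul_le_mul_of_nonneg_right hs hHpos.le)
    have h8 : M * ((finrank L W : ℝ) - 1) ≤ s * height κ x / n * ((finrank L W : ℝ) - 1) :=
      mul_le_mul_of_nonneg_right h7 (by linarith)
    have h9 : 0 < η * n * height κ x := by positivity
    linarith
  -- the first level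
  have hfirst : Lev κ x d η (1 / 32) := by
    obtain ⟨W, h1, h2⟩ := hcase
    refine ⟨d, by omega, le_rfl, W, h1, le_trans ?_ h2⟩
    have h3 : η * n * height κ x ≤ 1 / (132 * C₀) * n * height κ x := by gcongr
    linarith
  -- the critical level
  obtain ⟨s, hs1, hs2, hs3, hs4⟩ : ∃ s : ℝ, 1 / 32 ≤ s ∧ s ≤ C₀ ∧ Lev κ x d η s ∧
      ¬ Lev κ x d η (s + τ / 4) := by
    classical
    have hex : ∃ j : ℕ, ¬ Lev κ x d η (1 / 32 + j * (τ / 4)) := by
      obtain ⟨j, hj⟩ := exists_nat_ge (C₀ / (τ / 4))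
      refine ⟨j, hbig _ ?_⟩
      rw [div_le_iff₀ (by positivity)] at hj
      linarith
    have h0 : Nat.find hex ≠ 0 := by
      intro h0
      have h1 := Nat.find_spec hex
      rw [h0] at h1
      apply h1
      simpa using hfirst
    obtain ⟨j, hj⟩ := Nat.exists_eq_succ_of_ne_zero h0
    have h1 : Lev κ x d η (1 / 32 + j * (τ / 4)) := by
      have := Nat.find_min hex (m := j) (by omega)
      exact not_not.1 this
    refine ⟨1 / 32 + j * (τ / 4), ?_, ?_, h1, ?_⟩
    · have : (0 : ℝ) ≤ j * (τ / 4) := by positivity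
      linarith
    · by_contra h2
      exact hbig _ (not_le.1 h2).le h1
    · have h2 := Nat.find_spec hex
      rw [hj] at h2
      have e1 : (1 / 32 + (j : ℝ) * (τ / 4) + τ / 4) = 1 / 32 + ((j.succ : ℕ) : ℝ) * (τ / 4) := by
        push_cast
        ring
      rw [e1]
      exact h2
  have hsat : ∀ r : ℕ, d ≤ 2 * r → r ≤ d → ∀ V : Submodule L (EX (n + 1) r → L), xm r x ∈ V →
      r * (height κ x : ℝ) - ht κ V - (s + τ / 4) * height κ x / n * ((finrank L V : ℝ) - 1) ≤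
        η * n * height κ x := by
    intro r h1 h2 V h3
    by_contra h4
    push Not at h4
    exact hs4 ⟨r, h1, h2, V, h3, by linarith⟩
  obtain ⟨e₀, he1, he2, W₀, hxW₀, hW₀⟩ := hs3
  obtain ⟨W₁, -, hW₁, hle₁⟩ := exists_hasSl h (s * height κ x / n) hxW₀
  have hs0 : 0 < s := by linarith
  have hc₁ : η * n * height κ x ≤ e₀ * (height κ x : ℝ) - ht κ W₁ := by
    have h1 : (1 : ℝ) ≤ finrank L W₁ := by
      exact_mod_cast one_le_finrank_aux (xm_ne_zero (d := e₀) hx) hW₁.mem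
    have h2 : 0 ≤ s * height κ x / n * ((finrank L W₁ : ℝ) - 1) :=
      mul_nonneg (by positivity) (by linarith)
    linarith
  obtain ⟨q, hq, hrk⟩ := stepA1 h hyp hC0 (t := s * height κ x / n) (by positivity) hη hη2
    (by omega) hW₁ hc₁ hn24' (by linarith) (by linarith)
  obtain ⟨ν, W', hxW', hWd, hν, hc'⟩ := stepA1b h hyp hC0 hτ (by linarith)
    (hasSl_lam h hx (by omega) hW₁) hq hrk (by omega) hn2
  have hητ : η ≤ τ * c₂ / 8 := by
    rw [hηdef]
    exact div_le_div_of_nonneg_left (by positivity) (by norm_num) (by linarith)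
  obtain ⟨W, hW, hc⟩ := stepA2 h hyp (by linarith) hτ (by linarith) hs2 hη.le hητ hn3 (by omega)
    hxW' hWd hν hc' (hsat d (by omega) le_rfl)
  have hσ : 1 / 64 ≤ s - τ := by linarith
  have hηs : η * (1 + (s + τ / 4) / τ) < (s - τ) * c₂ / 4 := by
    have h1 : (1 + (s + τ / 4) / τ) = (5 / 4 * τ + s) / τ := by
      field_simp
      ring
    have h2 : η * ((5 / 4 * τ + s) / τ) = c₂ * ((5 / 4 * τ + s) / (1024 * C₀)) := by
      rw [hηdef]
      field_simp
    have h3 : (5 / 4 * τ + s) / (1024 * C₀) < 1 / 256 := by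
      rw [div_lt_iff₀ (by positivity)]
      linarith
    rw [h1, h2]
    have h4 : c₂ * ((5 / 4 * τ + s) / (1024 * C₀)) < c₂ * (1 / 256) :=
      mul_lt_mul_of_pos_left h3 hc₂pos
    nlinarith
  refine ⟨s - τ, W, hσ, by linarith, hW, fun e he hen => ?_⟩
  have hed : e ≤ d := by
    have h1 : (n : ℝ) / (6000 * C₀) ≤ n := div_le_self hnpos.le (by linarith)
    have h2 : (e : ℝ) ≤ n := hen.trans h1
    have h3 : e ≤ n := by exact_mod_cast h2
    omega
  exact stepA3b h hyp (by linarith) hτ hσ (by linarith) hτθ (by omega) hn4 hn5 hW he hed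
    fun f υ a hf => stepA3 h hyp (by linarith) hτ hσ hs2 hη.le hηs (by omega) hW hc hsat he hen hf

end Pool.Agent.Lib.MP_44a246_ntSH
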