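import Mathlib
import Pool.Agent.Lib.MP_44a246_ntSH.B07
import Pool.Agent.Lib.MP_44a246_ntSH.B10

/-!
Phase 2 of paper 619, (B2) and (B3) for `p` blocks.
-/

namespace Pool.Agent.Lib.MP_44a246_ntSH

open Pool.Agent.Lib.MP_44a246_nt
open Pool.Agent.Lib.MP_44a246_ntL
open Pool.Agent.Lib.MP_44a246_ntS
open Pool.Agent.Lib.MP_44a246_ntF
open Pool.Agent.Lib.MP_44a246_ntO
open Pool.Agent.Lib.MP_44a246_ntX
open Pool.Agent.Lib.MP_44a246_ntR (genus)
open Pool.Agent.Lib.MP_e52354_nt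
open WithZero Module

variable {κ L : Type*} [Field κ] [IsAlgClosed κ] [CharZero κ] [Field L] [Algebra κ L]
  {n p : ℕ} {x : Fin (n + 1) → L} {d : Fin p → ℕ} {c : ℕ} {C₀ M E : ℝ}

omit [IsAlgClosed κ] [CharZero κ] in
theorem HypP.cb_big (hyp : HypP κ x d c C₀ M E) {b : ℝ} (hb : b ≤ ((n : ℝ) + 2) ^ 20) :
    b * (E + genus κ L + 1) ≤ height κ x := by
  have h1 := hyp.big
  have h2 := hyp.hE
  have h3 : (0 : ℝ) ≤ E + genus κ L + 1 := by positivity
  nlinarith

omit [IsAlgClosed κ] [CharZero κ] in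
theorem HypP.cb_pos (hyp : HypP κ x d c C₀ M E) : (1 : ℝ) ≤ height κ x := by
  have h1 := hyp.cb_big (b := 1) (one_le_pow₀ (by
    have : (0 : ℝ) ≤ n := Nat.cast_nonneg n
    linarith))
  have h2 := hyp.hE
  have h3 : (0 : ℝ) ≤ genus κ L := Nat.cast_nonneg _
  linarith

omit [IsAlgClosed κ] [CharZero κ] in
theorem HypP.cb_k (hyp : HypP κ x d c C₀ M E) :
    (height κ x : ℝ) ≤ ((∑ j, (d j : ℝ)) - n - 1) * height κ x := by
  have hH := hyp.cb_pos
  have h5 : (1 : ℝ) ≤ (∑ j, (d j : ℝ)) - n - 1 := by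
    have : ((n + 2 : ℕ) : ℝ) ≤ ∑ j, (d j : ℝ) := by
      have := hyp.hd
      exact_mod_cast this
    push_cast at this
    linarith
  nlinarith

omit [IsAlgClosed κ] [CharZero κ] in
theorem HypP.cb_p (hyp : HypP κ x d c C₀ M E) : 1 ≤ p := by
  by_contra h0
  have h1 : p = 0 := by omega
  subst h1
  have := hyp.hd
  simp at this

omit [IsAlgClosed κ] [CharZero κ] in
theorem HypP.cb_C (hyp : HypP κ x d c C₀ M E) (hn : 1 ≤ n) : 0 ≤ C₀ := by
  by_contra h0
  push Not at h0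
  have h1 := hyp.small
  have h2 := hyp.pos
  have h3 := hyp.cb_pos
  have h4 : (0 : ℝ) ≤ M * n := by positivity
  nlinarith

/-- the rows of the point -/
theorem cbp_U (h : IsFF κ L) (hyp : HypP κ x d c C₀ M E) :
    ∃ U : (j : Fin p) → Submodule L (EX (n + 1) (d j) → L), (∀ j, xm (d j) x ∈ U j) ∧
      ∑ j, finrank L (U j) ≤ n + c ∧
      height κ x - E ≤ ∑ j, (d j * (height κ x : ℝ) - ht κ (U j)) := by
  have hH : (0 : ℝ) ≤ height κ x := by exact_mod_cast h.height_nonneg hyp.ne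
  obtain ⟨t, htd⟩ : ∃ t : ℝ, t = (n + 1) * height κ x + E + 1 := ⟨_, rfl⟩
  have ht0 : 0 < t := by
    have := hyp.hE
    rw [htd]
    positivity
  have hsl : HasSl κ t (xm 2 x) (L ∙ xm 2 x) := by
    refine ⟨Submodule.mem_span_singleton_self _, fun U' h1 h2 => ?_⟩
    have h3 : U' = L ∙ xm 2 x :=
      le_antisymm h1 ((Submodule.span_singleton_le_iff_mem _ _).2 h2)
    rw [h3]; simp
  obtain ⟨ν, W, h1, h2, h3, -⟩ := hyp.rows (L ∙ xm 2 x) ⊤ t 0 le_rfl ht0.le hsl le_top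
    (fun Γ hΓ => by
      have : Γ = ⊤ := top_le_iff.1 hΓ
      rw [this]; simp)
  have h4 : ∑ j, (d j * (height κ x : ℝ) - ht κ (W j)) ≤ (∑ j, (d j : ℝ)) * height κ x := by
    rw [Finset.sum_mul]
    refine Finset.sum_le_sum fun j _ => ?_
    have : (0 : ℝ) ≤ ht κ (W j) := by exact_mod_cast ht_nonneg h (W j)
    linarith
  have h5 : ν = 0 := by
    by_contra h6
    have h7 : (1 : ℝ) ≤ ν := by exact_mod_cast Nat.one_le_iff_ne_zero.2 h6
    have h8 : t * 1 ≤ (t - 0) * ν := by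
      rw [sub_zero]
      exact mul_le_mul_of_nonneg_left h7 ht0.le
    have h9 : ((∑ j, (d j : ℝ)) - n - 1) * height κ x =
        (∑ j, (d j : ℝ)) * height κ x - (n + 1) * height κ x := by ring
    rw [h9] at h3
    linarith
  subst h5
  refine ⟨W, h1, by simpa using h2, ?_⟩
  have := hyp.cb_k
  simp only [Nat.cast_zero, mul_zero, add_zero] at h3
  linarith

/-- (3c) of paper 619 for `p` blocks and a space `Λ` with slopes at least `t`, `t' = t / 2` -/
theorem cbp_rows (h : IsFF κ L) (hyp : HypP κ x d c C₀ M E) (hn : 1 ≤ n) {s : ℝ} (hs : 0 < s)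
    {Λ : Submodule L (EX (n + 1) 2 → L)} (hΛ : HasSl κ (s * height κ x / n) (xm 2 x) Λ) :
    ∃ (ν : ℕ) (W : (j : Fin p) → Submodule L (EX (n + 1) (d j) → L)), (∀ j, xm (d j) x ∈ W j) ∧
      ∑ j, (finrank L (W j) : ℝ) ≤ n + ν + c ∧
      height κ x + s / 2 * height κ x / n * ν - E ≤
        ∑ j, (d j * (height κ x : ℝ) - ht κ (W j)) ∧
      ∀ q ∈ Λ, (finrank L (lam 1 (L ∙ q)) : ℝ) * (n + 1) -
        (finrank L (lam 1 (L ∙ q)) : ℝ) * ((finrank L (lam 1 (L ∙ q)) : ℝ) - 1) / 2 ≤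
          ν + (1 + 4 / s * n) + n + c := by
  have hH := hyp.cb_pos
  have hH0 : (0 : ℝ) < height κ x := by linarith
  have hn' : (0 : ℝ) < n := by exact_mod_cast hn
  obtain ⟨Λp, hΛp⟩ := exists_isSl h (s / 2 * height κ x / n) (xm 2 x)
  have hlt : s / 2 * height κ x / n < s * height κ x / n := by
    apply div_lt_div_of_pos_right _ hn'
    apply mul_lt_mul_of_pos_right _ hH0
    linarith
  have hle := hΛ.le_isSl h hlt hΛp
  have hb := hΛp.bound h (xm_ne_zero hyp.ne)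
  rw [height_xm' h 2 hyp.ne] at hb
  have hht : (0 : ℝ) ≤ ht κ Λp := by exact_mod_cast ht_nonneg h Λp
  obtain ⟨ν, W, h1, h2, h3, h4⟩ := hyp.rows Λ Λp (s * height κ x / n) (s / 2 * height κ x / n)
    (by positivity) hlt.le hΛ hle hΛp.le
  refine ⟨ν, W, h1, by exact_mod_cast h2, ?_, fun q hq => (h4 q hq).trans ?_⟩
  · have h6 := hyp.cb_k
    have h7 : s * height κ x / n - s / 2 * height κ x / n = s / 2 * height κ x / n := by ring
    rw [h7] at h3
    linarith
  · have h5 : (finrank L Λp : ℝ) - 1 ≤ 4 / s * n := by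
      have h6 : s / 2 * height κ x / n * ((finrank L Λp : ℝ) - 1) ≤ 2 * height κ x := by
        push_cast at hb
        linarith
      have h7 : s / 2 * height κ x / n * (4 / s * n) = 2 * height κ x := by
        field_simp
        ring
      have h8 : 0 < s / 2 * height κ x / n := by positivity
      exact le_of_mul_le_mul_left (by rw [h7]; exact h6) h8
    linarith

omit [IsAlgClosed κ] [CharZero κ] in
/-- a bound for all blocks gives a bound for the sum -/
theorem cbp_sum {H : ℝ} {μ K : ℝ} {W : (j : Fin p) → Submodule L (EX (n + 1) (d j) → L)}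
    (hW : ∀ j, d j * H - ht κ (W j) ≤ K + μ * ((finrank L (W j) : ℝ) - 1)) :
    ∑ j, (d j * H - ht κ (W j)) ≤ p * K + μ * (∑ j, (finrank L (W j) : ℝ) - p) := by
  refine (Finset.sum_le_sum fun j _ => hW j).trans (le_of_eq ?_)
  rw [Finset.sum_add_distrib, ← Finset.mul_sum, Finset.sum_sub_distrib]
  simp

/-- all ranks are small (B2) -/
theorem cbp_rank_one (h : IsFF κ L) (hyp : HypP κ x d c C₀ M E) (hC : 1000 ≤ C₀)
    (hn : 70 * (132 * C₀) ≤ n) (hcn : c ≤ n)
    (hA : ¬ CaseAP κ x d (1 / (132 * p * C₀)) (1 / 32)) {j₀ : Fin p}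
    {W : Submodule L (EX (n + 1) (d j₀) → L)}
    (hW : HasSl κ (1 / 8 * height κ x / n) (xm (d j₀) x) W) :
    ∀ q ∈ lam 2 W, (finrank L (lam 1 (L ∙ q)) : ℝ) ≤ 65 / (132 * C₀) * n := by
  have hn' : (1000 : ℝ) ≤ n := by nlinarith
  have hn1 : 1 ≤ n := by
    have : (1 : ℝ) ≤ n := by linarith
    exact_mod_cast this
  have hcn' : (c : ℝ) ≤ n := by exact_mod_cast hcn
  have hH := hyp.cb_pos
  have hΛ := hasSl_lam h hyp.ne (hyp.hd2 j₀) hW
  obtain ⟨ν, V, h1, h2, h3, h4⟩ := cbp_rows h hyp hn1 (s := 1 / 8) (by norm_num) hΛ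
  have hE : 2 * (E + genus κ L + 1) ≤ height κ x := hyp.cb_big (by
    have := Hyp.cb_pow (n := n) hn1
    nlinarith)
  have hg : (0 : ℝ) ≤ genus κ L := Nat.cast_nonneg _
  have hp1 : (1 : ℝ) ≤ p := by exact_mod_cast hyp.cb_p
  have hp0 : (0 : ℝ) < p := by linarith
  have h5 := cbp_sum (κ := κ) (H := (height κ x : ℝ)) (W := V)
    (μ := 1 / 32 * height κ x / n) (K := 1 / (132 * p * C₀) * n * height κ x) fun j => by
      by_contra h6
      push Not at h6
      exact hA ⟨j, V j, h1 j, h6.le⟩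
  have hC0 : 0 < 132 * C₀ := by linarith
  have hnpos : (0 : ℝ) < n := by linarith
  have hq : 0 < height κ x / (n : ℝ) := by positivity
  have e0 : (p : ℝ) * (1 / (132 * p * C₀) * n * height κ x) =
      1 / (132 * C₀) * n * height κ x := by
    field_simp
  rw [e0] at h5
  have h6 : 1 / 32 * height κ x / n * (∑ j, (finrank L (V j) : ℝ) - p) ≤
      1 / 32 * (height κ x / n) * (2 * n + ν) := by
    have e1 : 1 / 32 * (height κ x : ℝ) / n = 1 / 32 * (height κ x / n) := by ring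
    rw [e1]
    apply mul_le_mul_of_nonneg_left _ (by positivity)
    linarith
  have h7 : 1 / 32 * (height κ x / n) * (2 * n + ν) =
      1 / 16 * (height κ x : ℝ) + 1 / 32 * (height κ x / n) * ν := by
    field_simp
    ring
  have h8 : 1 / 8 / 2 * (height κ x : ℝ) / n * ν = 1 / 16 * (height κ x / n) * ν := by ring
  rw [h8] at h3
  have h9 : (height κ x / n) * (ν : ℝ) ≤ (height κ x / n) * (32 / (132 * C₀) * n ^ 2) := by
    have e2 : (height κ x / n) * (32 / (132 * C₀) * (n : ℝ) ^ 2) =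
        32 * (1 / (132 * C₀) * n * height κ x) := by
      field_simp
    rw [e2]
    linarith
  have h10 : (ν : ℝ) ≤ 32 / (132 * C₀) * n ^ 2 := le_of_mul_le_mul_left h9 hq
  intro q hqΛ
  have h11 := h4 q hqΛ
  set ρ : ℝ := (finrank L (lam 1 (L ∙ q)) : ℝ) with hρ
  have hρ0 : 0 ≤ ρ := Nat.cast_nonneg _
  have hρn : ρ ≤ n + 1 := by
    have := cb_finrank_le (lam 1 (L ∙ q))
    rw [hρ]
    exact_mod_cast this
  have h12 : ρ * (n + 1) - ρ * (ρ - 1) / 2 ≥ ρ * n / 2 := by nlinarith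
  have h13 : ρ * n ≤ 64 / (132 * C₀) * n ^ 2 + 70 * n := by
    have e3 : (4 : ℝ) / (1 / 8) = 32 := by norm_num
    rw [e3] at h11
    have e4 : 64 / (132 * C₀) * (n : ℝ) ^ 2 = 2 * (32 / (132 * C₀) * n ^ 2) := by ring
    rw [e4]
    linarith
  have h14 : 70 ≤ 1 / (132 * C₀) * (n : ℝ) := by
    rw [one_div, inv_mul_eq_div, le_div_iff₀ hC0]
    exact hn
  have h15 : ρ * n ≤ (65 / (132 * C₀) * n) * n := by
    have e5 : (65 / (132 * C₀) * (n : ℝ)) * n =
        64 / (132 * C₀) * n ^ 2 + (1 / (132 * C₀) * n) * n := by ring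
    rw [e5]
    nlinarith
  exact le_of_mul_le_mul_right h15 hnpos

/-- the cost of a space with slopes at least `H / 8 n` is at most `2 H` (B2) -/
theorem cbp_cost_one (h : IsFF κ L) (hyp : HypP κ x d c C₀ M E) (hC : 1000 ≤ C₀)
    (hn : 70 * (132 * C₀) ≤ n) (hcn : c ≤ n)
    (hA : ¬ CaseAP κ x d (1 / (132 * p * C₀)) (1 / 32)) {j₀ : Fin p}
    {W : Submodule L (EX (n + 1) (d j₀) → L)}
    (hW : HasSl κ (1 / 8 * height κ x / n) (xm (d j₀) x) W) :
    d j₀ * (height κ x : ℝ) - ht κ W ≤ 2 * height κ x := by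
  have hn' : (1000 : ℝ) ≤ n := by nlinarith
  have hn1 : 1 ≤ n := by
    have : (1 : ℝ) ≤ n := by linarith
    exact_mod_cast this
  have hH := hyp.cb_pos
  have hH0 : (0 : ℝ) < height κ x := by linarith
  have hnpos : (0 : ℝ) < n := by linarith
  have hΛ := hasSl_lam h hyp.ne (hyp.hd2 j₀) hW
  have hrank := cbp_rank_one h hyp hC hn hcn hA hW
  have ht0 : 0 < 1 / 8 * (height κ x : ℝ) / n := by positivity
  by_contra hcon
  push Not at hcon
  -- all functionals have degree at most `M`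
  have hf : ∀ (f : MvPolynomial (Fin (n + 1)) L) (τ : Place κ L → ℤ) (a' : ℤ),
      Fnl κ (lam 2 W) a' f τ → a' ≤ ⌊M⌋ := by
    intro f τ a' hf
    by_contra h1
    push Not at h1
    have h2 : M < a' := Int.floor_lt.1 h1
    have h3 := hyp.pos
    obtain ⟨R, -, -, -, h4⟩ := p3b h hyp.ne hyp.slope (i := 2) (k := 1)
      (by have := hyp.hd2 j₀; omega) le_rfl hW
      (by linarith) (by push_cast; linarith) hf
    have h5 : (0 : ℝ) ≤ ht κ R := by exact_mod_cast ht_nonneg h R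
    push_cast at h4
    linarith
  obtain ⟨q, hq, -, hxq, hht⟩ := maxrank h hΛ.mem hf
  have hs := cb_slope_one h hyp.ne hyp.slope hxq
  have hr := hrank q hq
  set ρ : ℝ := (finrank L (lam 1 (L ∙ q)) : ℝ) with hρ
  have hρ0 : 0 ≤ ρ := Nat.cast_nonneg _
  have hρn : ρ ≤ n + 1 := by
    have := cb_finrank_le (lam 1 (L ∙ q))
    rw [hρ]
    exact_mod_cast this
  have hM : (⌊M⌋ : ℝ) ≤ M := Int.floor_le M
  have hht' : 2 * (ht κ (lam 1 (L ∙ q)) : ℝ) ≤
      ρ * (⌊M⌋ + (finrank L (lam 2 W) + 1) * genus κ L + 1) := by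
    rw [hρ]
    exact_mod_cast hht
  have hdim : (finrank L (lam 2 W) : ℝ) ≤ 1 + 16 * n := by
    have h1 := cb_dim h hyp.ne hΛ
    have h2 : (0 : ℝ) ≤ ht κ (lam 2 W) := by exact_mod_cast ht_nonneg h _
    have h3 : 1 / 8 * (height κ x : ℝ) / n * ((finrank L (lam 2 W) : ℝ) - 1) ≤
        1 / 8 * (height κ x : ℝ) / n * (16 * n) := by
      have e1 : 1 / 8 * (height κ x : ℝ) / n * (16 * n) = 2 * height κ x := by
        field_simp
        ring
      rw [e1]
      push_cast at h1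
      linarith
    have := le_of_mul_le_mul_left h3 ht0
    linarith
  have hg : (0 : ℝ) ≤ genus κ L := Nat.cast_nonneg _
  have hE := hyp.hE
  have hMn : M * ρ ≤ 65 / 132 * height κ x := by
    calc M * ρ ≤ M * (65 / (132 * C₀) * n) := mul_le_mul_of_nonneg_left hr hyp.pos
      _ = 65 / (132 * C₀) * (M * n) := by ring
      _ ≤ 65 / (132 * C₀) * (C₀ * height κ x) := by
          apply mul_le_mul_of_nonneg_left hyp.small
          positivity
      _ = 65 / 132 * height κ x := by field_simp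
  have hbig : ((n : ℝ) + 1) * ((2 + 16 * n) * (E + genus κ L + 1)) * 5 ≤ height κ x := by
    have h1 := hyp.cb_big (b := ((n : ℝ) + 1) * (2 + 16 * n) * 5) (by
      have h2 := Hyp.cb_pow (n := n) hn1
      have h3 : (3 : ℝ) ^ 17 ≤ ((n : ℝ) + 2) ^ 17 := by gcongr; linarith
      calc ((n : ℝ) + 1) * (2 + 16 * n) * 5 ≤ ((n : ℝ) + 2) ^ 2 * 3 ^ 17 := by nlinarith
        _ ≤ ((n : ℝ) + 2) ^ 3 * ((n : ℝ) + 2) ^ 17 := by
            gcongr
            · linarith
            · norm_num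
        _ = ((n : ℝ) + 2) ^ 20 := by ring)
    linarith
  have h1 : ρ * (⌊M⌋ + (finrank L (lam 2 W) + 1) * genus κ L + 1) ≤
      M * ρ + (n + 1) * ((2 + 16 * n) * (E + genus κ L + 1)) := by
    have e1 : ρ * (⌊M⌋ + (finrank L (lam 2 W) + 1) * genus κ L + 1) =
        ⌊M⌋ * ρ + ρ * ((finrank L (lam 2 W) + 1) * genus κ L + 1) := by ring
    rw [e1]
    have h2 : (⌊M⌋ : ℝ) * ρ ≤ M * ρ := mul_le_mul_of_nonneg_right hM hρ0
    have h3 : ((finrank L (lam 2 W) : ℝ) + 1) * genus κ L + 1 ≤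
        (2 + 16 * n) * (E + genus κ L + 1) := by
      have h4 : ((finrank L (lam 2 W) : ℝ) + 1) * genus κ L ≤ (2 + 16 * n) * genus κ L := by
        apply mul_le_mul_of_nonneg_right _ hg
        linarith
      nlinarith
    have h5 : ρ * (((finrank L (lam 2 W) : ℝ) + 1) * genus κ L + 1) ≤
        (n + 1) * ((2 + 16 * n) * (E + genus κ L + 1)) := by
      apply mul_le_mul hρn h3 _ (by linarith)
      positivity
    linarith
  have h2 : M * (ρ - 1) ≤ M * ρ := by
    have := hyp.pos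
    nlinarith
  nlinarith

/-- the costs in the degree of one block (the inequality (**) of case B) -/
theorem cbp_cost_all (h : IsFF κ L) (hyp : HypP κ x d c C₀ M E) (hC : 1000 ≤ C₀)
    (hn : 70 * (132 * C₀) ≤ n) (hcn : c ≤ n)
    (hA : ¬ CaseAP κ x d (1 / (132 * p * C₀)) (1 / 32)) {j₀ : Fin p}
    {V : Submodule L (EX (n + 1) (d j₀) → L)} (hV : xm (d j₀) x ∈ V) :
    d j₀ * (height κ x : ℝ) - ht κ V ≤
      2 * height κ x + 1 / 8 * height κ x / n * ((finrank L V : ℝ) - 1) := by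
  obtain ⟨W, hW⟩ := exists_isSl h (1 / 8 * height κ x / n) (xm (d j₀) x)
  have h1 := cbp_cost_one h hyp hC hn hcn hA (cb_hasSl hW)
  have h2 := cb_max h hW hV
  have h3 := cb_one_le hyp.ne hW.mem
  have hH := hyp.cb_pos
  have h4 : 0 ≤ 1 / 8 * (height κ x : ℝ) / n := by positivity
  nlinarith

/-- all ranks are at most `30 p` (B3) -/
theorem cbp_rank_two (h : IsFF κ L) (hyp : HypP κ x d c C₀ M E) (hC : 1000 ≤ C₀)
    (hn : 70 * (132 * C₀) ≤ n) (hcn : c ≤ n)
    (hA : ¬ CaseAP κ x d (1 / (132 * p * C₀)) (1 / 32)) {j₀ : Fin p}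
    {W : Submodule L (EX (n + 1) (d j₀) → L)}
    (hW : HasSl κ (1 / 2 * height κ x / n) (xm (d j₀) x) W) :
    ∀ q ∈ lam 2 W, finrank L (lam 1 (L ∙ q)) ≤ 30 * p := by
  have hn' : (1000 : ℝ) ≤ n := by nlinarith
  have hn1 : 1 ≤ n := by
    have : (1 : ℝ) ≤ n := by linarith
    exact_mod_cast this
  have hcn' : (c : ℝ) ≤ n := by exact_mod_cast hcn
  have hH := hyp.cb_pos
  have hH0 : (0 : ℝ) < height κ x := by linarith
  have hnpos : (0 : ℝ) < n := by linarith
  have hp1 : (1 : ℝ) ≤ p := by exact_mod_cast hyp.cb_p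
  have hΛ := hasSl_lam h hyp.ne (hyp.hd2 j₀) hW
  obtain ⟨ν, V, h1, h2, h3, h4⟩ := cbp_rows h hyp hn1 (s := 1 / 2) (by norm_num) hΛ
  have h5 := cbp_sum (κ := κ) (H := (height κ x : ℝ)) (W := V)
    (μ := 1 / 8 * height κ x / n) (K := 2 * height κ x) fun j =>
      cbp_cost_all h hyp hC hn hcn hA (h1 j)
  have hE : 8 * (E + genus κ L + 1) ≤ height κ x := hyp.cb_big (by
    have := Hyp.cb_pow (n := n) hn1
    nlinarith)
  have hg : (0 : ℝ) ≤ genus κ L := Nat.cast_nonneg _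
  have hq : 0 < height κ x / (n : ℝ) := by positivity
  have h6 : (height κ x / n) * (ν : ℝ) ≤ (height κ x / n) * (16 * p * n) := by
    have e1 : (height κ x / n) * (16 * p * (n : ℝ)) = 16 * (p * height κ x) := by field_simp
    have e2 : 1 / 2 / 2 * (height κ x : ℝ) / n * ν = 1 / 4 * ((height κ x / n) * ν) := by ring
    have e3 : 1 / 8 * (height κ x : ℝ) / n * (∑ j, (finrank L (V j) : ℝ) - p) =
        1 / 8 * ((height κ x / n) * (∑ j, (finrank L (V j) : ℝ) - p)) := by ring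
    have h7 : (height κ x / n) * (∑ j, (finrank L (V j) : ℝ) - p) ≤
        (height κ x / n) * (2 * n + ν) :=
      mul_le_mul_of_nonneg_left (by linarith) hq.le
    have e4 : (height κ x / n) * (2 * (n : ℝ) + ν) = 2 * height κ x + (height κ x / n) * ν := by
      field_simp
    rw [e1]
    rw [e2] at h3
    rw [e3] at h5
    rw [e4] at h7
    linarith
  have h7 : (ν : ℝ) ≤ 16 * p * n := le_of_mul_le_mul_left h6 hq
  -- the maximiser at `H / 8 n` contains `W`
  obtain ⟨W₁, hW₁⟩ := exists_isSl h (1 / 8 * height κ x / n) (xm (d j₀) x)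
  have hlt : 1 / 8 * (height κ x : ℝ) / n < 1 / 2 * height κ x / n := by
    apply div_lt_div_of_pos_right _ hnpos
    linarith
  have hWW := hW.le_isSl h hlt hW₁
  intro q hqΛ
  have h8 := cbp_rank_one h hyp hC hn hcn hA (cb_hasSl hW₁) q (lam_mono hWW hqΛ)
  have h9 := h4 q hqΛ
  by_contra hcon
  push Not at hcon
  set ρ : ℝ := (finrank L (lam 1 (L ∙ q)) : ℝ) with hρ
  have hρ1 : 30 * (p : ℝ) + 1 ≤ ρ := by
    rw [hρ]
    exact_mod_cast hcon
  have h10 : ρ ≤ n / 2000 := by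
    refine h8.trans ?_
    have h11 : 65 / (132 * C₀) ≤ 1 / 2000 := by
      rw [div_le_div_iff₀ (by linarith) (by norm_num)]
      linarith
    calc 65 / (132 * C₀) * (n : ℝ) ≤ 1 / 2000 * n := by gcongr
      _ = n / 2000 := by ring
  have e5 : (4 : ℝ) / (1 / 2) = 8 := by norm_num
  rw [e5] at h9
  have h12 : 16 * (p : ℝ) * n + (1 + 8 * n) + n + n ≤ 26 * p * n + 1 := by nlinarith
  have h13 : ρ * (n + 1) - ρ * (ρ - 1) / 2 ≥ ρ * n * (3999 / 4000) := by nlinarith
  have h14 : ρ * n ≥ (30 * p + 1) * n := by nlinarith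
  have h15 : (0 : ℝ) < p * n := by positivity
  nlinarith

end Pool.Agent.Lib.MP_44a246_ntSH
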