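import Mathlib
import Pool.Agent.Lib.MP_44a246_ntSH.B08
import Pool.Agent.Lib.MP_44a246_ntSH.B11

/-!
Phase 2 of paper 619, (B4) for `p` blocks.
-/

namespace Pool.Agent.Lib.MP_44a246_ntSH

open Pool.Agent.Lib.MP_44a246_nt
open Pool.Agent.Lib.MP_44a246_ntL
open Pool.Agent.Lib.MP_44a246_ntS
open Pool.Agent.Lib.MP_44a246_ntF
open Pool.Agent.Lib.MP_44a246_ntO
open Pool.Agent.Lib.MP_44a246_ntX
open Pool.Agent.Lib.MP_44a246_ntR (genus)
open Pool.Agent.Lib.MP_e52354_nt
open WithZero Module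

variable {κ L : Type*} [Field κ] [IsAlgClosed κ] [CharZero κ] [Field L] [Algebra κ L]
  {n p : ℕ} {x : Fin (n + 1) → L} {d : Fin p → ℕ} {c : ℕ} {C₀ M E : ℝ}

/-- in some block the maximiser at `H / 2 n` has cost at least `H / 4 p` -/
theorem cbp_cost_half (h : IsFF κ L) (hyp : HypP κ x d c C₀ M E) (hn1 : 1 ≤ n) (hcn : 4 * c ≤ n) :
    ∃ (j : Fin p) (W : Submodule L (EX (n + 1) (d j) → L)),
      IsSl κ (1 / 2 * height κ x / n) (xm (d j) x) W ∧
      height κ x / (4 * p) ≤ d j * (height κ x : ℝ) - ht κ W := by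
  obtain ⟨U, h1, h2, h3⟩ := cbp_U h hyp
  choose W hW using fun j => exists_isSl h (1 / 2 * height κ x / n) (xm (d j) x)
  have hH := hyp.cb_pos
  have hH0 : (0 : ℝ) < height κ x := by linarith
  have hnpos : (0 : ℝ) < n := by exact_mod_cast hn1
  have hp1 : (1 : ℝ) ≤ p := by exact_mod_cast hyp.cb_p
  have hp0 : (0 : ℝ) < p := by linarith
  have hcn' : 4 * (c : ℝ) ≤ n := by exact_mod_cast hcn
  by_contra hcon
  push Not at hcon
  have h4 : ∀ j, d j * (height κ x : ℝ) - ht κ (U j) ≤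
      height κ x / (4 * p) + 1 / 2 * height κ x / n * ((finrank L (U j) : ℝ) - 1) := by
    intro j
    have h5 := hcon j (W j) (hW j)
    have h6 := cb_max h (hW j) (h1 j)
    have h7 := cb_one_le hyp.ne (hW j).mem
    have h8 : 0 ≤ 1 / 2 * (height κ x : ℝ) / n := by positivity
    nlinarith
  have h5 := cbp_sum (κ := κ) (H := (height κ x : ℝ)) (W := U) h4
  have h6 : (p : ℝ) * (height κ x / (4 * p)) = height κ x / 4 := by field_simp
  rw [h6] at h5
  have h7 : (∑ j, (finrank L (U j) : ℝ)) ≤ n + c := by exact_mod_cast h2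
  have h8 : 1 / 2 * (height κ x : ℝ) / n * (∑ j, (finrank L (U j) : ℝ) - p) ≤
      1 / 2 * (height κ x : ℝ) / n * (n + n / 4) :=
    mul_le_mul_of_nonneg_left (by linarith) (by positivity)
  have h9 : 1 / 2 * (height κ x : ℝ) / n * (n + n / 4) = 5 / 8 * height κ x := by
    field_simp
    ring
  have hE : 16 * (E + genus κ L + 1) ≤ height κ x := hyp.cb_big (by
    have := Hyp.cb_pow (n := n) hn1
    nlinarith [show (1 : ℝ) ≤ n from by exact_mod_cast hn1])
  have hg : (0 : ℝ) ≤ genus κ L := Nat.cast_nonneg _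
  linarith

/-- (B4): the dimension of `lam 1 W` -/
theorem cbp_dim_one (h : IsFF κ L) (hyp : HypP κ x d c C₀ M E) (hn1 : 1 ≤ n) {j₀ : Fin p}
    {W : Submodule L (EX (n + 1) (d j₀) → L)}
    (hW : IsSl κ (1 / 2 * height κ x / n) (xm (d j₀) x) W)
    (hc : height κ x / (4 * p) ≤ d j₀ * (height κ x : ℝ) - ht κ W) :
    (height κ x : ℝ) < finrank L (lam 1 W) * (4 * p * M + 1 + genus κ L) := by
  by_contra hcon
  push Not at hcon
  have hH := hyp.cb_pos
  have hH0 : (0 : ℝ) < height κ x := by linarith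
  have hnpos : (0 : ℝ) < n := by exact_mod_cast hn1
  have hp1 : (1 : ℝ) ≤ p := by exact_mod_cast hyp.cb_p
  have hp0 : (0 : ℝ) < p := by linarith
  have hd1 : 1 ≤ d j₀ := by have := hyp.hd2 j₀; omega
  have hxm : xm 1 x ∈ lam 1 W := xm_mem_lam hd1 hyp.ne hW.mem
  have hs := cb_slope_one h hyp.ne hyp.slope hxm
  have h1 := cb_one_le hyp.ne hxm
  have hM := hyp.pos
  have hg : (0 : ℝ) ≤ genus κ L := Nat.cast_nonneg _
  set D : ℝ := (finrank L (lam 1 W) : ℝ) with hD
  have hne : lam 1 W ≠ ⊥ := by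
    intro h0
    rw [hD, h0, finrank_bot] at h1
    norm_num at h1
  have hD0 : 0 ≤ D := by linarith
  -- `D (2 M + 1 + g) ≤ H`
  have hcon2 : D * (2 * M + 1 + genus κ L) ≤ height κ x := by
    refine le_trans (mul_le_mul_of_nonneg_left ?_ hD0) hcon
    have : 2 * M ≤ 4 * p * M := mul_le_mul_of_nonneg_right (by linarith) hM
    linarith
  -- `4 p (D M) + D (1 + g) ≤ H`
  have hcon3 : 4 * p * (M * D) + D * (1 + genus κ L) ≤ height κ x := by
    calc 4 * p * (M * D) + D * (1 + genus κ L) = D * (4 * p * M + 1 + genus κ L) := by ring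
      _ ≤ _ := hcon
  -- a functional of degree larger than `M`
  have hfl : (⌊M⌋ : ℝ) ≤ M := Int.floor_le M
  have hfl2 : M < (⌊M⌋ : ℝ) + 1 := Int.lt_floor_add_one M
  have h2 : D * (((⌊M⌋ + 1 : ℤ) : ℝ) + genus κ L) ≤ ht κ (lam 1 W) := by
    push_cast
    have h3 : D * ((⌊M⌋ : ℝ) + 1 + genus κ L) ≤ D * (M + 1 + genus κ L) :=
      mul_le_mul_of_nonneg_left (by linarith) (by linarith)
    nlinarith
  obtain ⟨f, τ, hf⟩ := exists_fnl h hne (a := ⌊M⌋ + 1) (by
    rw [hD] at h2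
    exact_mod_cast h2)
  have ht0 : 0 < 1 / 2 * (height κ x : ℝ) / n := by positivity
  have hHas := cb_hasSl hW
  obtain ⟨R, hRW, hxR, hdim, hcost⟩ := p3b h hyp.ne hyp.slope (i := 1) (k := 1) (by omega) le_rfl
    hHas (by push_cast; linarith) (by push_cast; linarith) hf
  push_cast at hcost
  have hR0 : (0 : ℝ) ≤ ht κ R := by exact_mod_cast ht_nonneg h R
  obtain ⟨Q, hQ1, hQ2, hQ3⟩ := contact h hyp.ne hd1 hRW hW.mem hxR hdim
  have hQs := cb_slope_one h hyp.ne hyp.slope hQ2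
  have hQc : height κ x / (4 * p) ≤ (height κ x : ℝ) - ht κ Q := by
    rcases hQ3 with hQ3 | hQ3
    · linarith
    · have : (ht κ Q : ℝ) ≤ ht κ R := by exact_mod_cast hQ3
      linarith
  have h4 : (finrank L Q : ℝ) ≤ D := by
    rw [hD]
    exact_mod_cast Submodule.finrank_mono hQ1
  have h5 : M * ((finrank L Q : ℝ) - 1) ≤ M * D :=
    mul_le_mul_of_nonneg_left (by linarith) hM
  have h6 : height κ x / (4 * p) ≤ M * D := by linarith
  rw [div_le_iff₀ (by positivity)] at h6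
  have h7 : 0 < D * (1 + genus κ L) := by
    have : 0 < D := by linarith
    positivity
  linarith

/-- (B4): the cost of `lam 2 W` -/
theorem cbp_cost_two (h : IsFF κ L) (hyp : HypP κ x d c C₀ M E) (hC : 1000 ≤ C₀)
    (hn : 70 * (132 * C₀) ≤ n) (hcn : c ≤ n) (hnp : 60 * p * (4 * p * C₀ + 1) ≤ n)
    (hA : ¬ CaseAP κ x d (1 / (132 * p * C₀)) (1 / 32)) {j₀ : Fin p}
    {W : Submodule L (EX (n + 1) (d j₀) → L)}
    (hW : IsSl κ (1 / 2 * height κ x / n) (xm (d j₀) x) W)
    (hc : height κ x / (4 * p) ≤ d j₀ * (height κ x : ℝ) - ht κ W) :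
    1 / (120 * p * (4 * p * C₀ + 1)) * height κ x ≤ 2 * (height κ x : ℝ) - ht κ (lam 2 W) := by
  have hn' : (1000 : ℝ) ≤ n := by nlinarith
  have hn1 : 1 ≤ n := by
    have : (1 : ℝ) ≤ n := by linarith
    exact_mod_cast this
  have hH := hyp.cb_pos
  have hH0 : (0 : ℝ) < height κ x := by linarith
  have hnpos : (0 : ℝ) < n := by linarith
  have hp1 : (1 : ℝ) ≤ p := by exact_mod_cast hyp.cb_p
  have hp0 : (0 : ℝ) < p := by linarith
  have hC0 : 0 < C₀ := by linarith
  have hHas := cb_hasSl hW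
  have hΛ := hasSl_lam h hyp.ne (hyp.hd2 j₀) hHas
  have hrank := cbp_rank_two h hyp hC hn hcn hA hHas
  have h1 := cbp_dim_one h hyp hn1 hW hc
  have h2 : finrank L (lam 1 W) ≤ finrank L (lam 2 W) * (30 * p) := by
    rw [← lam_lam (i := 1) (i' := 2) (by norm_num) (hyp.hd2 j₀)]
    exact cb_lam_sum _ hrank
  have h3 := cost_ge h hyp.ne hΛ
  have hg : (0 : ℝ) ≤ genus κ L := Nat.cast_nonneg _
  have hE : ((n : ℝ)) * (E + genus κ L + 1) ≤ height κ x := hyp.cb_big (by
    have := Hyp.cb_pow (n := n) hn1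
    nlinarith)
  have hEE := hyp.hE
  have h4 : (finrank L (lam 1 W) : ℝ) ≤ finrank L (lam 2 W) * (30 * p) := by exact_mod_cast h2
  have hM := hyp.pos
  have h5 : (4 * p * M + 1 + genus κ L) * n ≤ (4 * p * C₀ + 1) * height κ x := by
    have h6 := hyp.small
    have h7 : 4 * p * (M * n) ≤ 4 * p * (C₀ * height κ x) :=
      mul_le_mul_of_nonneg_left h6 (by positivity)
    have h8 : 0 ≤ (n : ℝ) * E := by positivity
    nlinarith
  set D : ℝ := (finrank L (lam 2 W) : ℝ) with hD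
  have hD0 : 0 ≤ D := Nat.cast_nonneg _
  set B : ℝ := 30 * p * (4 * p * C₀ + 1) with hB
  have hB0 : 0 < B := by positivity
  -- `n < 30 p D (4 p C₀ + 1)`
  have h6 : (height κ x : ℝ) * n < height κ x * (D * B) := by
    have h7 : (height κ x : ℝ) < D * (30 * p) * (4 * p * M + 1 + genus κ L) := by
      refine h1.trans_le ?_
      exact mul_le_mul_of_nonneg_right h4 (by positivity)
    calc (height κ x : ℝ) * n < D * (30 * p) * (4 * p * M + 1 + genus κ L) * n :=
          mul_lt_mul_of_pos_right h7 hnpos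
      _ = D * (30 * p) * ((4 * p * M + 1 + genus κ L) * n) := by ring
      _ ≤ D * (30 * p) * ((4 * p * C₀ + 1) * height κ x) := by
          apply mul_le_mul_of_nonneg_left h5
          positivity
      _ = height κ x * (D * B) := by rw [hB]; ring
  have h7 : (n : ℝ) < D * B := lt_of_mul_lt_mul_left h6 hH0.le
  have h8 : 1 / (120 * p * (4 * p * C₀ + 1)) * height κ x ≤
      1 / 2 * (height κ x : ℝ) / n * (D - 1) := by
    have e1 : 1 / 2 * (height κ x : ℝ) / n * (D - 1) = (D - 1) / (2 * n) * height κ x := by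
      field_simp
    have e2 : 120 * (p : ℝ) * (4 * p * C₀ + 1) = 4 * B := by rw [hB]; ring
    rw [e1, e2]
    apply mul_le_mul_of_nonneg_right _ hH0.le
    rw [div_le_div_iff₀ (by positivity) (by positivity)]
    have h9 : 2 * B ≤ n := by rw [hB]; linarith
    nlinarith
  push_cast at h3
  linarith

end Pool.Agent.Lib.MP_44a246_ntSH
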