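import Mathlib
import Pool.Agent.Lib.MP_44a246_ntSH.B09
import Pool.Agent.Lib.MP_44a246_ntSH.B12

/-!
Phase 2 of paper 619, (B5) for `p` blocks, and the theorem of case B.
-/

namespace Pool.Agent.Lib.MP_44a246_ntSH

open Pool.Agent.Lib.MP_44a246_nt
open Pool.Agent.Lib.MP_44a246_ntL
open Pool.Agent.Lib.MP_44a246_ntS
open Pool.Agent.Lib.MP_44a246_ntF
open Pool.Agent.Lib.MP_44a246_ntO
open Pool.Agent.Lib.MP_44a246_ntX
open Pool.Agent.Lib.MP_44a246_ntR
open Pool.Agent.Lib.MP_e52354_nt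
open VFSharp
open WithZero Module

section

variable {κ L : Type*} [Field κ] [IsAlgClosed κ] [CharZero κ] [Field L] [Algebra κ L]
  {n p : ℕ} {x : Fin (n + 1) → L} {d : Fin p → ℕ} {c' : ℕ} {C₀ M E : ℝ}

/-- **(B5)**: one space `Λ` of quadratic functionals, all ranks at most `ρ`. -/
theorem cbp_five (h : IsFF κ L) (hyp : HypP κ x d c' C₀ M E) (hn1 : 1 ≤ n) {ρ : ℕ} (hρ : 1 ≤ ρ)
    {c : ℝ} (hc : 0 < c) (hc1 : c ≤ 1) {N : ℕ} (hN : 25 * ρ ≤ c * N) (hnN : N ≤ n)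
    (hnC : 2 * ρ * C₀ ≤ n) (hnc : (2 * ρ + (ρ + 1) * 2 ^ N) * C₀ * 8 ≤ c * n) (hnc2 : 16 ≤ c * n)
    {Λ : Submodule L (EX (n + 1) 2 → L)} (hΛ : HasSl κ (1 / 2 * height κ x / n) (xm 2 x) Λ)
    (hrank : ∀ q ∈ Λ, finrank L (lam 1 (L ∙ q)) ≤ ρ) :
    2 * (height κ x : ℝ) - ht κ Λ < c * height κ x := by
  have hH := hyp.cb_pos
  have hH0 : (0 : ℝ) < height κ x := by linarith only [hH]
  have hnpos : (0 : ℝ) < n := by exact_mod_cast hn1
  have hn' : (1 : ℝ) ≤ n := by exact_mod_cast hn1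
  have hg : (0 : ℝ) ≤ genus κ L := Nat.cast_nonneg _
  have hE := hyp.hE
  have hM := hyp.pos
  have hρ' : (1 : ℝ) ≤ ρ := by exact_mod_cast hρ
  have hρ0 : (0 : ℝ) < ρ := by linarith
  have hN1 : 1 ≤ N := by
    by_contra h0
    have : N = 0 := by omega
    rw [this] at hN
    norm_num at hN
    linarith only [hρ', hN]
  have hN' : (0 : ℝ) < N := by exact_mod_cast hN1
  have hMn : M ≤ C₀ * (height κ x / n) := by
    rw [← mul_div_assoc, le_div_iff₀ hnpos]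
    exact hyp.small
  -- the genus is small
  have hg1 : (2 * (n : ℝ)) * (E + genus κ L + 1) ≤ height κ x := hyp.cb_big (by
    have := Hyp.cb_pow (n := n) hn1
    linarith only [hnpos, this])
  have hgt : (genus κ L : ℝ) < 1 / 2 * height κ x / n := by
    rw [lt_div_iff₀ hnpos]
    exact b09_gt hnpos hE hg1
  obtain ⟨R, hRΛ, hxR, hdim, hht⟩ := cb_hyper h hyp.ne hgt hΛ
  have hcΛ := cb_dim h hyp.ne hΛ
  push_cast at hcΛ
  have hΛ1 := cb_one_le hyp.ne hΛ.mem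
  have ht0 : 0 < 1 / 2 * (height κ x : ℝ) / n := by positivity
  have hhtΛ : (ht κ Λ : ℝ) ≤ 2 * height κ x := b09_ht ht0 hΛ1 hcΛ
  have hhtΛ0 : (0 : ℝ) ≤ ht κ Λ := by exact_mod_cast ht_nonneg h Λ
  have hdimΛ : (finrank L Λ : ℝ) ≤ 1 + 4 * n := by
    have h3 : 1 / 2 * (height κ x : ℝ) / n * ((finrank L Λ : ℝ) - 1) ≤
        1 / 2 * (height κ x : ℝ) / n * (4 * n) := by
      have e1 : 1 / 2 * (height κ x : ℝ) / n * (4 * n) = 2 * height κ x := by
        field_simp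
        ring
      rw [e1]
      linarith only [hcΛ, hhtΛ0]
    have := le_of_mul_le_mul_left h3 ht0
    linarith only [this]
  have hdim' : (finrank L R : ℝ) + 1 = finrank L Λ := by exact_mod_cast hdim
  -- the scale
  obtain ⟨T, hT⟩ : ∃ T : ℝ, T = c * height κ x / (5 * ρ) := ⟨_, rfl⟩
  have hT0 : 0 < T := by rw [hT]; positivity
  have hρT : ρ * T = c * height κ x / 5 := by rw [hT]; field_simp
  obtain ⟨D, j, hj, hD0, hDT, hDR⟩ := exists_divisor h R hT0.le hN1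
  set RD : Submodule L (EX (n + 1) 2 → L) := Submodule.span L
    ((boxSub R D : Submodule κ (EX (n + 1) 2 → L)) : Set (EX (n + 1) 2 → L)) with hRD
  have hRDR : RD ≤ R := Submodule.span_le.2 fun u hu => hu.1
  obtain ⟨r, hr⟩ : ∃ r : ℝ, r = (finrank L R : ℝ) - finrank L RD := ⟨_, rfl⟩
  rw [← hr] at hDR
  have hr0 : 0 ≤ r := by
    have : (finrank L RD : ℝ) ≤ finrank L R := by exact_mod_cast Submodule.finrank_mono hRDR
    linarith only [hr, this]
  have h2j : (0 : ℝ) < 2 ^ j := by positivity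
  obtain ⟨Tj, hTjd⟩ : ∃ Tj : ℝ, Tj = T / 2 ^ j := ⟨_, rfl⟩
  rw [← hTjd] at hDT hDR
  have hTj0 : 0 < Tj := by rw [hTjd]; (clear * - hT0; positivity)
  have hTj : Tj ≤ T := by
    rw [hTjd, div_le_iff₀ h2j]
    have : (1 : ℝ) ≤ 2 ^ j := one_le_pow₀ (by norm_num)
    exact le_mul_of_one_le_right hT0.le this
  have hscale : Tj * r ≤ T := by
    have hRd : (finrank L R : ℝ) ≤ 4 * n := by linarith only [hdimΛ, hdim']
    have hnN' : (N : ℝ) ≤ n := by exact_mod_cast hnN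
    have hR0 : (0 : ℝ) ≤ finrank L R := Nat.cast_nonneg _
    have h1 : (2 + 8 * (n : ℝ) * n + 8 * n) * (E + genus κ L + 1) ≤ height κ x :=
      hyp.cb_big (by
        have h3 : (3 : ℝ) ^ 18 ≤ ((n : ℝ) + 2) ^ 18 := by gcongr; linarith only [hn']
        calc (2 + 8 * (n : ℝ) * n + 8 * n) ≤ ((n : ℝ) + 2) ^ 2 * 3 ^ 18 := b09_box hnpos
          _ ≤ ((n : ℝ) + 2) ^ 2 * ((n : ℝ) + 2) ^ 18 := by gcongr
          _ = ((n : ℝ) + 2) ^ 20 := by ring)
    have h2 : (N : ℝ) * finrank L R ≤ n * (4 * n) := mul_le_mul hnN' hRd hR0 hnpos.le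
    have h3 : (N : ℝ) * finrank L R * genus κ L ≤ n * (4 * n) * genus κ L :=
      mul_le_mul_of_nonneg_right h2 hg
    have h4 : Tj * r * N ≤ 5 * height κ x := by
      have e1 : (2 + 8 * (n : ℝ) * n + 8 * n) * (E + genus κ L + 1) =
          2 * genus κ L + 2 * (n * (4 * n) * genus κ L) + 8 * n +
            ((2 + 8 * (n : ℝ) * n + 8 * n) * E + 8 * n * genus κ L + (2 + 8 * n * n)) := by ring
      have h6 : 0 ≤ (2 + 8 * (n : ℝ) * n + 8 * n) * E + 8 * n * genus κ L + (2 + 8 * n * n) :=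
        b09_pos hnpos hE hg
      rw [e1] at h1
      have e2 : 2 * (N : ℝ) * finrank L R * genus κ L = 2 * (N * finrank L R * genus κ L) := by
        ring
      rw [e2] at hDR
      linarith only [hht, hhtΛ, hdimΛ, hdim', hDR, h1, h3, h6]
    have h5 : Tj * r * N ≤ T * N := by
      refine h4.trans ?_
      have h6 : 25 * ρ * height κ x ≤ c * N * height κ x :=
        mul_le_mul_of_nonneg_right hN hH0.le
      have h7 : ρ * (5 * height κ x) ≤ ρ * (T * N) := by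
        have : ρ * (T * N) = c * height κ x / 5 * N := by rw [← hρT]; ring
        rw [this]
        linarith only [h6]
      exact le_of_mul_le_mul_left h7 hρ0
    exact le_of_mul_le_mul_right h5 hN'
  have hr2 : r ≤ 2 ^ N := by
    have h1 : Tj * r ≤ Tj * 2 ^ j := by
      rw [hTjd, div_mul_cancel₀ _ h2j.ne', ← hTjd]
      exact hscale
    have h2 := le_of_mul_le_mul_left h1 hTj0
    exact h2.trans (pow_le_pow_right₀ (by norm_num) hj.le)
  -- an element of maximal rank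
  obtain ⟨q, hqR, -, -, hqht, -, hqV, -⟩ := maxrank_D h R D
  have hqρ := hrank q (hRΛ hqR)
  set Y : Submodule L (EX (n + 1) 1 → L) := lam 1 (L ∙ q) with hY
  have hRDY : RD ≤ YV Y := by
    intro q' hq'
    exact mem_YV.2 fun f g h1 h2 h3 h4 => hqV q' hq' f g h1 h2 h3 h4
  have hYρ : (finrank L Y : ℝ) ≤ ρ := by exact_mod_cast hqρ
  have hη : (ht κ Y : ℝ) ≤ ρ * Tj / 2 := by
    have h1 : 2 * (ht κ Y : ℝ) ≤ finrank L Y * divDeg D := by exact_mod_cast hqht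
    have h2 : (0 : ℝ) ≤ divDeg D := by exact_mod_cast hD0
    have h3 : (finrank L Y : ℝ) * divDeg D ≤ ρ * Tj :=
      mul_le_mul hYρ hDT h2 hρ0.le
    linarith only [h1, h3]
  have hρTj : ρ * Tj ≤ c * height κ x / 5 := by
    rw [← hρT]
    exact mul_le_mul_of_nonneg_left hTj hρ0.le
  have hρTjr : ρ * (Tj * r) ≤ c * height κ x / 5 := by
    rw [← hρT]
    exact mul_le_mul_of_nonneg_left hscale hρ0.le
  have hcH : c * height κ x ≤ height κ x := mul_le_of_le_one_left hH0.le hc1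
  -- the point is not in `Y`
  have hC0 : 0 ≤ C₀ := hyp.cb_C hn1
  have hMρ : 2 * (ρ * M) ≤ height κ x := by
    have h1 : 2 * ρ * C₀ * (height κ x / n) ≤ height κ x := by
      rw [← mul_div_assoc, div_le_iff₀ hnpos]
      linarith only [mul_le_mul_of_nonneg_right hnC hH0.le]
    have h2 : ρ * M ≤ ρ * (C₀ * (height κ x / n)) := mul_le_mul_of_nonneg_left hMn hρ0.le
    linarith only [h1, h2]
  have hxY : xm 1 x ∉ Y := by
    intro h1
    have h2 := cb_slope_one h hyp.ne hyp.slope h1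
    have h3 : M * ((finrank L Y : ℝ) - 1) ≤ M * ρ :=
      mul_le_mul_of_nonneg_left (by linarith only [hYρ]) hM
    linarith only [hH, hη, hρTj, hcH, hMρ, h2, h3]
  -- the descent
  set A₀ : Submodule L (EX (n + 1) 2 → L) := (Λ ⊓ YV Y) ⊔ Submodule.span L {xm 2 x} with hA₀
  have hdesc := descent h hyp.ne hM hyp.slope hxY hη (ρ := ρ) hqρ hΛ.mem hA₀
  have hcost := cost_YV h hyp.ne hxY Λ
  rw [← hA₀] at hcost
  -- the cost of `Y + L x`
  have hYx : (height κ x : ℝ) - ht κ (Y ⊔ Submodule.span L {xm 1 x}) ≤ ρ * M := by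
    have h1 : xm 1 x ∈ Y ⊔ Submodule.span L {xm 1 x} :=
      Submodule.mem_sup_right (Submodule.mem_span_singleton_self _)
    have h2 := cb_slope_one h hyp.ne hyp.slope h1
    have h3 := Submodule.finrank_add_le_finrank_add_finrank Y (Submodule.span L {xm 1 x})
    rw [finrank_span_singleton (xm_ne_zero hyp.ne)] at h3
    have h4 : (finrank L (Y ⊔ Submodule.span L {xm 1 x} : Submodule L (EX (n + 1) 1 → L)) : ℝ) ≤
        ρ + 1 := by
      have : finrank L (Y ⊔ Submodule.span L {xm 1 x} : Submodule L (EX (n + 1) 1 → L)) ≤ ρ + 1 :=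
        h3.trans (by omega)
      exact_mod_cast this
    have h5 : M * ((finrank L (Y ⊔ Submodule.span L {xm 1 x} :
        Submodule L (EX (n + 1) 1 → L)) : ℝ) - 1) ≤ M * ρ :=
      mul_le_mul_of_nonneg_left (by linarith only [h4]) hM
    linarith only [h2, h5]
  -- the codimension of `A₀`
  have hcodim : (finrank L Λ : ℝ) - finrank L A₀ ≤ r := by
    have h1 : RD ⊔ Submodule.span L {xm 2 x} ≤ A₀ :=
      sup_le_sup_right (le_inf (hRDR.trans hRΛ) hRDY) _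
    have h2 : finrank L RD + 1 ≤ finrank L (RD ⊔ Submodule.span L {xm 2 x} :
        Submodule L (EX (n + 1) 2 → L)) := by
      refine Submodule.finrank_lt_finrank_of_lt (lt_of_le_of_ne le_sup_left fun h3 => hxR ?_)
      apply hRDR
      rw [h3]
      exact Submodule.mem_sup_right (Submodule.mem_span_singleton_self _)
    have h3 : ((finrank L RD : ℝ) + 1) ≤ finrank L A₀ := by
      exact_mod_cast h2.trans (Submodule.finrank_mono h1)
    rw [hr]
    linarith only [hdim', h3]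
  have h1 : ((finrank L Λ : ℝ) - finrank L A₀) * (2 * (ρ * Tj / 2) + (ρ + 1) * M) ≤
      r * (2 * (ρ * Tj / 2) + (ρ + 1) * M) := by
    apply mul_le_mul_of_nonneg_right hcodim
    (clear * - hρ hTj0 hM; positivity)
  have h2 : r * M ≤ 2 ^ N * (C₀ * (height κ x / n)) := mul_le_mul hr2 hMn hM (by positivity)
  have h2' : (ρ + 1) * (r * M) ≤ (ρ + 1) * (2 ^ N * (C₀ * (height κ x / n))) :=
    mul_le_mul_of_nonneg_left h2 (by positivity)
  have h3 : (2 * ρ + (ρ + 1) * 2 ^ N) * (C₀ * (height κ x / n)) ≤ c * height κ x / 8 := by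
    have e1 : (2 * ρ + (ρ + 1) * 2 ^ N) * (C₀ * (height κ x / n)) =
        ((2 * ρ + (ρ + 1) * 2 ^ N) * C₀ * height κ x) / n := by ring
    rw [e1, div_le_iff₀ hnpos]
    have h4 : (2 * ρ + (ρ + 1) * 2 ^ N) * C₀ * 8 * height κ x ≤ c * n * height κ x :=
      mul_le_mul_of_nonneg_right hnc hH0.le
    linarith only [h4]
  have h4 : 2 * (genus κ L : ℝ) ≤ c * height κ x / 8 := by
    have h5 : 16 * (height κ x : ℝ) ≤ c * n * height κ x :=
      mul_le_mul_of_nonneg_right hnc2 hH0.le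
    have h6 : 2 * (n : ℝ) * genus κ L ≤ height κ x := b09_h6 hnpos hE hg1
    have h7 : 2 * (genus κ L : ℝ) * n ≤ c * height κ x / 8 * n := b09_h7 hH0 h5 h6
    exact le_of_mul_le_mul_right h7 hnpos
  have h5 : r * (2 * (ρ * Tj / 2) + (ρ + 1) * M) =
      ρ * (Tj * r) + (ρ + 1) * (r * M) := by ring
  rw [h5] at h1
  have h6 : 2 * (ρ * M) ≤ 2 * ρ * (C₀ * (height κ x / n)) := by
    have : ρ * M ≤ ρ * (C₀ * (height κ x / n)) := mul_le_mul_of_nonneg_left hMn hρ0.le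
    linarith only [this]
  have h8 : 0 < c * height κ x := by positivity
  have h9 : (2 * ρ + (ρ + 1) * 2 ^ N) * (C₀ * (height κ x / n)) =
      2 * ρ * (C₀ * (height κ x / n)) + (ρ + 1) * (2 ^ N * (C₀ * (height κ x / n))) := by ring
  rw [h9] at h3
  linarith only [hη, hρTj, hρTjr, hdesc, hcost, hYx, h1, h2', h3, h4, h6, h8]

end

universe u v

/-- **Case B is impossible**, `p` blocks. -/
theorem caseBP (p c : ℕ) (C₀ : ℝ) (hC : 1000 ≤ C₀) : ∃ n₀ : ℕ, ∀ (n : ℕ) (d : Fin p → ℕ),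
    n₀ ≤ n →
    ∀ (κ : Type u) (L : Type v) [Field κ] [IsAlgClosed κ] [CharZero κ] [Field L] [Algebra κ L]
      (_ : IsFF κ L) (x : Fin (n + 1) → L) (M E : ℝ), HypP κ x d c C₀ M E →
      CaseAP κ x d (1 / (132 * p * C₀)) (1 / 32) := by
  rcases Nat.eq_zero_or_pos p with hp0 | hp
  · subst hp0
    refine ⟨0, fun n d _ κ L _ _ _ _ _ h x M E hyp => ?_⟩
    exact absurd hyp.cb_p (by norm_num)
  have hp1 : (1 : ℝ) ≤ p := by exact_mod_cast hp
  obtain ⟨c₁, hcd⟩ : ∃ c₁ : ℝ, c₁ = 1 / (120 * p * (4 * p * C₀ + 1)) := ⟨_, rfl⟩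
  have hc : 0 < c₁ := by rw [hcd]; positivity
  have hc1 : c₁ ≤ 1 := by
    rw [hcd, div_le_one (by positivity)]
    have h1 : (1 : ℝ) ≤ 4 * p * C₀ + 1 := by
      have : 0 ≤ 4 * (p : ℝ) * C₀ := by positivity
      linarith
    exact one_le_mul_of_one_le_of_one_le (by linarith) h1
  obtain ⟨N, hN⟩ : ∃ N : ℕ, 25 * ((30 * p : ℕ) : ℝ) / c₁ ≤ N := exists_nat_ge _
  have hN' : 25 * ((30 * p : ℕ) : ℝ) ≤ c₁ * N := by
    rw [div_le_iff₀ hc] at hN
    linarith
  obtain ⟨n₀, hn₀⟩ := exists_nat_ge (70 * (132 * C₀) + N + 4 * c + 60 * p * (4 * p * C₀ + 1) +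
    2 * ((30 * p : ℕ) : ℝ) * C₀ +
    (2 * ((30 * p : ℕ) : ℝ) + (((30 * p : ℕ) : ℝ) + 1) * 2 ^ N) * C₀ * 8 / c₁ + 16 / c₁)
  have h1 : 0 ≤ (2 * ((30 * p : ℕ) : ℝ) + (((30 * p : ℕ) : ℝ) + 1) * 2 ^ N) * C₀ * 8 / c₁ := by
    positivity
  have h2 : 0 ≤ 16 / c₁ := by positivity
  have h3 : (0 : ℝ) ≤ N := Nat.cast_nonneg _
  have h4 : (0 : ℝ) ≤ c := Nat.cast_nonneg _
  have h5 : 0 ≤ 60 * p * (4 * p * C₀ + 1) := by positivity
  have h6 : 0 ≤ 2 * ((30 * p : ℕ) : ℝ) * C₀ := by positivity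
  refine ⟨n₀, fun n d hn κ L _ _ _ _ _ h x M E hyp => ?_⟩
  have hn' : (n₀ : ℝ) ≤ n := by exact_mod_cast hn
  by_contra hA
  have hn1 : 70 * (132 * C₀) ≤ n := by linarith only [hn₀, h1, h2, h5, h6, hn']
  have hnN : N ≤ n := by
    have : (N : ℝ) ≤ n := by linarith only [hC, hn₀, h1, h2, h5, h6, hn']
    exact_mod_cast this
  have hcn4 : 4 * c ≤ n := by
    have : (4 : ℝ) * c ≤ n := by linarith only [hC, hn₀, h1, h2, h5, h6, hn']
    exact_mod_cast this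
  have hcn : c ≤ n := by omega
  have hnp : 60 * p * (4 * p * C₀ + 1) ≤ n := by linarith only [hC, hn₀, h1, h2, h6, hn']
  have hnC : 2 * ((30 * p : ℕ) : ℝ) * C₀ ≤ n := by linarith only [hC, hn₀, h1, h2, h5, hn']
  have hnc : (2 * ((30 * p : ℕ) : ℝ) + (((30 * p : ℕ) : ℝ) + 1) * 2 ^ N) * C₀ * 8 ≤ c₁ * n := by
    have h7 : (2 * ((30 * p : ℕ) : ℝ) + (((30 * p : ℕ) : ℝ) + 1) * 2 ^ N) * C₀ * 8 / c₁ ≤ n := by
      linarith only [hC, hn₀, h2, h5, h6, hn']
    rw [div_le_iff₀ hc] at h7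
    linarith only [h7]
  have hnc2 : 16 ≤ c₁ * n := by
    have h7 : 16 / c₁ ≤ n := by linarith only [hC, hn₀, h1, h5, h6, hn']
    rw [div_le_iff₀ hc] at h7
    linarith only [h7]
  have hn2 : 1 ≤ n := by
    have : (1 : ℝ) ≤ n := by linarith only [hC, hn₀, h1, h2, h5, h6, hn']
    exact_mod_cast this
  obtain ⟨j, W, hW, hc4⟩ := cbp_cost_half h hyp hn2 hcn4
  have h8 := cbp_cost_two h hyp hC hn1 hcn hnp hA hW hc4
  have h9 := cbp_five h hyp hn2 (ρ := 30 * p) (by omega) hc hc1 hN' hnN hnC hnc hnc2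
    (hasSl_lam h hyp.ne (hyp.hd2 j) (cb_hasSl hW))
    (cbp_rank_two h hyp hC hn1 hcn hA (cb_hasSl hW))
  rw [← hcd] at h8
  linarith only [h8, h9]

end Pool.Agent.Lib.MP_44a246_ntSH
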