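import Mathlib
import Pool.Agent.Lib.MP_44a246_ntSH.HA3
import Pool.Agent.Lib.MP_44a246_ntSH.B13

/-!
Phase 2 of paper 619, case A for `p` blocks: (A1).
-/

namespace Pool.Agent.Lib.MP_44a246_ntSH

open Pool.Agent.Lib.MP_44a246_nt
open Pool.Agent.Lib.MP_44a246_ntL
open Pool.Agent.Lib.MP_44a246_ntS
open Pool.Agent.Lib.MP_44a246_ntF
open Pool.Agent.Lib.MP_44a246_ntO
open Pool.Agent.Lib.MP_44a246_ntX
open Pool.Agent.Lib.MP_44a246_ntR (genus)
open Pool.Agent.Lib.MP_e52354_nt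
open WithZero Module

/-- The hypotheses on the point, without the rows. -/
structure HypO (κ : Type*) {L : Type*} [Field κ] [Field L] [Algebra κ L] {n : ℕ}
    (x : Fin (n + 1) → L) (C₀ M E : ℝ) : Prop where
  ne : x ≠ 0
  slope : ∀ Q : Submodule L (Fin (n + 1) → L), x ∈ Q →
    (height κ x : ℝ) - ht κ Q ≤ M * ((finrank L Q : ℝ) - 1)
  pos : 0 ≤ M
  small : M * n ≤ C₀ * height κ x
  hE : 0 ≤ E
  big : (E + genus κ L + 1) * ((n : ℝ) + 2) ^ 20 ≤ height κ x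

section

variable {κ L : Type*} [Field κ] [Field L] [Algebra κ L] {n p : ℕ} {x : Fin (n + 1) → L}
  {d : Fin p → ℕ} {c : ℕ} {C₀ C₁ M E : ℝ}

theorem HypP.toO (hyp : HypP κ x d c C₀ M E) : HypO κ x C₀ M E :=
  ⟨hyp.ne, hyp.slope, hyp.pos, hyp.small, hyp.hE, hyp.big⟩

theorem HypO.g_le (hyp : HypO κ x C₀ M E) :
    ((genus κ L : ℝ) + 1) * ((n : ℝ) + 2) ^ 20 ≤ height κ x := by
  have h1 := hyp.big
  have h2 := hyp.hE
  have h3 : 0 ≤ E * ((n : ℝ) + 2) ^ 20 := by positivity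
  nlinarith

theorem HypO.H_pos (hyp : HypO κ x C₀ M E) : (0 : ℝ) < height κ x := by
  have h1 := hyp.g_le
  have h2 : (0 : ℝ) < ((genus κ L : ℝ) + 1) * ((n : ℝ) + 2) ^ 20 := by positivity
  linarith

theorem HypO.mono (hyp : HypO κ x C₀ M E) (hC : C₀ ≤ C₁) : HypO κ x C₁ M E :=
  ⟨hyp.ne, hyp.slope, hyp.pos, hyp.small.trans (mul_le_mul_of_nonneg_right hC hyp.H_pos.le),
    hyp.hE, hyp.big⟩

end

variable {κ L : Type*} [Field κ] [IsAlgClosed κ] [CharZero κ] [Field L] [Algebra κ L] {n p : ℕ}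
  {x : Fin (n + 1) → L} {d : Fin p → ℕ} {c : ℕ} {C₀ M E : ℝ}

/-- (A1): a quadratic form of large rank -/
theorem stepA1O (h : IsFF κ L) (hyp : HypO κ x C₀ M E) (hC : 0 < C₀) {t η : ℝ} (ht0 : 0 < t)
    (hη : 0 < η) {e₀ : ℕ}
    {W : Submodule L (EX (n + 1) e₀ → L)} (hW : HasSl κ t (xm e₀ x) W)
    (hc : η * n * height κ x ≤ e₀ * (height κ x : ℝ) - ht κ W)
    (hn : 24 ≤ n) (h6 : 12 ≤ η * n) (hsz : 12 * C₀ ≤ η * n) :
    ∃ q ∈ lam 2 W, (n : ℝ) / (2 * C₀) ≤ finrank L (lam 1 (L ∙ q)) := by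
  have hx := hyp.ne
  set H : ℝ := (height κ x : ℝ) with hH
  have hHpos : 0 < H := hyp.H_pos
  have hn0 : (24 : ℝ) ≤ n := by exact_mod_cast hn
  have hnpos : (0 : ℝ) < n := by linarith
  have hηn2 : (0 : ℝ) < η * (n : ℝ) ^ 2 := by positivity
  set α : ℝ := 3 * C₀ * H / (η * (n : ℝ) ^ 2) with hα
  have hαpos : 0 < α := by positivity
  have hηe : η * n ≤ e₀ := by
    have h1 : (0 : ℝ) ≤ ht κ W := by exact_mod_cast ht_nonneg h W
    have h2 : η * n * H ≤ e₀ * H := by linarith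
    exact le_of_mul_le_mul_right h2 hHpos
  have he2 : 2 ≤ e₀ := by
    have h1 : (2 : ℝ) ≤ e₀ := by linarith
    exact_mod_cast h1
  have hΛ : HasSl κ t (xm 2 x) (lam 2 W) := hasSl_lam h hx he2 hW
  have hfn : ∀ (f : MvPolynomial (Fin (n + 1)) L) (τ : Place κ L → ℤ) (a' : ℤ),
      Fnl κ (lam 2 W) a' f τ → a' ≤ ⌊α⌋ := by
    intro f τ a' hf
    rw [Int.le_floor]
    by_contra hlt
    push Not at hlt
    have ha0 : (0 : ℝ) < a' := hαpos.trans hlt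
    set j : ℕ := ⌊M / a'⌋₊ + 1 with hj
    have hMa : M / a' ≤ η * n / 3 := by
      rw [div_le_iff₀ ha0]
      have h1 : M * n ≤ C₀ * H := hyp.small
      have h2 : η * n / 3 * α = C₀ * H / n := by
        rw [hα]
        field_simp
      have h3 : M ≤ C₀ * H / n := by rwa [le_div_iff₀ hnpos]
      have h4 : η * n / 3 * α ≤ η * n / 3 * a' := mul_le_mul_of_nonneg_left hlt.le (by positivity)
      linarith
    have hj1 : M < j * a' := by
      have h1 := Nat.lt_floor_add_one (M / a')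
      rw [div_lt_iff₀ ha0] at h1
      rw [hj]
      push_cast
      exact h1
    have hj2 : (j : ℝ) ≤ η * n / 3 + 1 := by
      rw [hj]
      push_cast
      have h1 : (0 : ℝ) ≤ M / a' := div_nonneg hyp.pos ha0.le
      have := Nat.floor_le h1
      linarith
    have hj3 : j * 2 ≤ e₀ := by
      have h3 : (j : ℝ) * 2 ≤ e₀ := by linarith
      exact_mod_cast h3
    obtain ⟨R, -, -, -, hR⟩ := p3b h hx hyp.slope (i := 2) (k := j) hj3 (by omega) hW
      (by linarith) (by linarith) hf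
    have h1 : (0 : ℝ) ≤ ht κ R := by exact_mod_cast ht_nonneg h R
    have h2 : (j : ℝ) * (((2 : ℕ) : ℝ) * H - a') ≤ j * (2 * H) := by
      refine mul_le_mul_of_nonneg_left ?_ (Nat.cast_nonneg j)
      push_cast
      linarith
    have h3 : (j : ℝ) * (2 * H) ≤ (η * n / 3 + 1) * (2 * H) :=
      mul_le_mul_of_nonneg_right hj2 (by linarith)
    have h4 : η * n * H ≤ (η * n / 3 + 1) * (2 * H) := by linarith
    have h5 : η * n ≤ (η * n / 3 + 1) * 2 := by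
      have h6 : η * n * H ≤ ((η * n / 3 + 1) * 2) * H := by linarith
      exact le_of_mul_le_mul_right h6 hHpos
    linarith
  obtain ⟨q, hq, -, hxq, hhq⟩ := maxrank h hΛ.mem hfn
  refine ⟨q, hq, ?_⟩
  set V := lam 1 (L ∙ q) with hV
  have hρ : (finrank L V : ℝ) ≤ n + 1 := by
    have := finrank_lam_one_le (L ∙ q)
    exact_mod_cast this
  have h1 : (2 : ℝ) * ht κ V ≤ finrank L V *
      (⌊α⌋ + (finrank L (lam 2 W) + 1) * genus κ L + 1) := by exact_mod_cast hhq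
  have h2 : (⌊α⌋ : ℝ) ≤ α := Int.floor_le α
  have hΛd : (finrank L (lam 2 W) : ℝ) ≤ ((n : ℝ) + 1) ^ 2 := by
    have h3 := Submodule.finrank_le (lam 2 W)
    rw [finrank_fintype_fun_eq_card] at h3
    exact_mod_cast h3.trans (card_EX_le (n + 1) 2)
  have hg0 : (0 : ℝ) ≤ genus κ L := Nat.cast_nonneg _
  have h3 : (2 : ℝ) * ht κ V ≤ (n + 1) * (α + (((n : ℝ) + 1) ^ 2 + 1) * genus κ L + 1) := by
    refine h1.trans ?_
    have h4 : (0 : ℝ) ≤ (⌊α⌋ : ℝ) := by exact_mod_cast Int.floor_nonneg.2 hαpos.le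
    have h5 : ((finrank L (lam 2 W) : ℝ) + 1) * genus κ L ≤
        (((n : ℝ) + 1) ^ 2 + 1) * genus κ L := mul_le_mul_of_nonneg_right (by linarith) hg0
    exact mul_le_mul hρ (by linarith) (by positivity) (by positivity)
  have h4 : (n + 1 : ℝ) * α ≤ H / 2 := by
    have h5 : (n + 1 : ℝ) * α = (n + 1) / n * (3 * C₀ / (η * n)) * H := by
      rw [hα]
      field_simp
    have h6 : (n + 1 : ℝ) / n ≤ 2 := by
      rw [div_le_iff₀ hnpos]
      linarith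
    have h7 : 3 * C₀ / (η * n) ≤ 1 / 4 := by
      rw [div_le_iff₀ (by positivity)]
      linarith
    have h8 : (n + 1 : ℝ) / n * (3 * C₀ / (η * n)) ≤ 2 * (1 / 4) :=
      mul_le_mul h6 h7 (by positivity) (by norm_num)
    rw [h5]
    nlinarith
  have h5 : (n + 1 : ℝ) * ((((n : ℝ) + 1) ^ 2 + 1) * genus κ L + 1) ≤ H / 2 := by
    have h6 := hyp.g_le
    have h7 : 2 * ((n : ℝ) + 1) * (((n : ℝ) + 1) ^ 2 + 1) ≤ ((n : ℝ) + 2) ^ 20 := by
      have h8 : ((n : ℝ) + 2) ^ 4 ≤ ((n : ℝ) + 2) ^ 20 :=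
        pow_le_pow_right₀ (by linarith) (by norm_num)
      have h9 : 2 * ((n : ℝ) + 1) * (((n : ℝ) + 1) ^ 2 + 1) ≤ ((n : ℝ) + 2) ^ 4 := by
        have h10 : ((n : ℝ) + 1) ^ 2 + 1 ≤ ((n : ℝ) + 2) ^ 2 := by nlinarith
        have h11 : 2 * ((n : ℝ) + 1) ≤ ((n : ℝ) + 2) ^ 2 := by nlinarith
        calc 2 * ((n : ℝ) + 1) * (((n : ℝ) + 1) ^ 2 + 1) ≤
            ((n : ℝ) + 2) ^ 2 * ((n : ℝ) + 2) ^ 2 := mul_le_mul h11 h10 (by positivity) (by positivity)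
          _ = ((n : ℝ) + 2) ^ 4 := by ring
      linarith
    have h8 : ((genus κ L : ℝ) + 1) * (2 * ((n : ℝ) + 1) * (((n : ℝ) + 1) ^ 2 + 1)) ≤
        ((genus κ L : ℝ) + 1) * ((n : ℝ) + 2) ^ 20 :=
      mul_le_mul_of_nonneg_left h7 (by positivity)
    have h9 : (((n : ℝ) + 1) ^ 2 + 1) * genus κ L + 1 ≤
        ((genus κ L : ℝ) + 1) * (((n : ℝ) + 1) ^ 2 + 1) := by nlinarith
    have h10 : (n + 1 : ℝ) * ((((n : ℝ) + 1) ^ 2 + 1) * genus κ L + 1) ≤
        (n + 1 : ℝ) * (((genus κ L : ℝ) + 1) * (((n : ℝ) + 1) ^ 2 + 1)) :=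
      mul_le_mul_of_nonneg_left h9 (by positivity)
    linarith
  have h6 : (ht κ V : ℝ) ≤ H / 2 := by linarith
  have h7 := cost_le_aux h hx hyp.slope (D := 1) le_rfl hxq
  have h8 : H / 2 ≤ M * ((finrank L V : ℝ) - 1) := by
    push_cast at h7
    linarith
  have h9 : (1 : ℝ) ≤ finrank L V := by
    exact_mod_cast one_le_finrank_aux (xm_ne_zero (d := 1) hx) hxq
  have h10 : H / 2 * n ≤ C₀ * H * ((finrank L V : ℝ) - 1) := by
    calc H / 2 * n ≤ M * ((finrank L V : ℝ) - 1) * n := mul_le_mul_of_nonneg_right h8 hnpos.le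
      _ = M * n * ((finrank L V : ℝ) - 1) := by ring
      _ ≤ C₀ * H * ((finrank L V : ℝ) - 1) :=
        mul_le_mul_of_nonneg_right hyp.small (by linarith)
  rw [div_le_iff₀ (by positivity)]
  have h11 : (n : ℝ) * H ≤ ((finrank L V : ℝ) * (2 * C₀)) * H := by
    have : 0 ≤ C₀ * H := by positivity
    nlinarith
  exact le_of_mul_le_mul_right h11 hHpos


/-- (A1): the rows, from a quadratic form of large rank -/
theorem stepA1bP (h : IsFF κ L) (hyp : HypP κ x d c C₀ M E) (hC : 0 < C₀) {s τ : ℝ} (hτ : 0 < τ)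
    (hτs : τ / 8 ≤ s) {Λ : Submodule L (EX (n + 1) 2 → L)}
    (hΛ : HasSl κ (s * height κ x / n) (xm 2 x) Λ)
    {q : EX (n + 1) 2 → L} (hq : q ∈ Λ)
    (hrk : (n : ℝ) / (2 * C₀) ≤ finrank L (lam 1 (L ∙ q)))
    (hn : 1 ≤ n) (hcn : c ≤ n)
    (hsz : 20 * C₀ * (3 + 16 / τ) ≤ n) :
    ∃ (ν : ℕ) (W : (j : Fin p) → Submodule L (EX (n + 1) (d j) → L)), (∀ j, xm (d j) x ∈ W j) ∧
      ∑ j, finrank L (W j) ≤ n + ν + c ∧
      1 / (5 * C₀) * (n : ℝ) ^ 2 ≤ ν ∧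
      (s - τ / 8) * (height κ x / n) * ν ≤ ∑ j, (d j * (height κ x : ℝ) - ht κ (W j)) := by
  have hx := hyp.ne
  set H : ℝ := (height κ x : ℝ) with hH
  have hHpos : 0 < H := hyp.toO.H_pos
  have hn0 : (1 : ℝ) ≤ n := by exact_mod_cast hn
  have hnpos : (0 : ℝ) < n := by linarith
  have hcn' : (c : ℝ) ≤ n := by exact_mod_cast hcn
  have ht' : (0 : ℝ) ≤ τ / 8 * H / n := by positivity
  have htt : τ / 8 * H / n ≤ s * H / n := by gcongr
  obtain ⟨Λ', hΛΛ', hmax⟩ := exists_above h ht' Λ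
  obtain ⟨ν, W, hxW, hWd, hWc, hν⟩ := hyp.rows Λ Λ' (s * H / n) (τ / 8 * H / n) ht' htt hΛ hΛΛ'
    (fun Γ hΓ => by
      have := hmax Γ (hΛΛ'.trans hΓ)
      linarith)
  refine ⟨ν, W, hxW, hWd, ?_, ?_⟩
  · have h1 := finrank_above h hx ht' htt hΛ (hmax Λ le_rfl)
    have h2 : ((finrank L Λ' : ℝ) - 1) ≤ 16 * n / τ := by
      rw [le_div_iff₀ hτ]
      have h3 : τ / 8 * H / n * ((finrank L Λ' : ℝ) - 1) =
          (((finrank L Λ' : ℝ) - 1) * τ) * (H / (8 * n)) := by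
        field_simp
      have h4 : ((2 : ℕ) : ℝ) * H = 16 * n * (H / (8 * n)) := by
        push_cast
        field_simp
        norm_num
      rw [h3, h4] at h1
      exact le_of_mul_le_mul_right h1 (by positivity)
    have h3 := hν q hq
    set ρ : ℝ := (finrank L (lam 1 (L ∙ q)) : ℝ) with hρ
    have h4 : ρ ≤ n + 1 := by
      have := finrank_lam_one_le (L ∙ q)
      rw [hρ]
      exact_mod_cast this
    have h0 : 0 ≤ ρ := Nat.cast_nonneg _
    have h5 : ρ * n / 2 ≤ ρ * (n + 1) - ρ * (ρ - 1) / 2 := by nlinarith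
    have h6 : n / (2 * C₀) * n / 2 ≤ ρ * n / 2 := by gcongr
    have h7 : n / (2 * C₀) * n / 2 = (n : ℝ) ^ 2 / (4 * C₀) := by
      field_simp
      norm_num
    have h8 : (n : ℝ) ^ 2 / (4 * C₀) ≤ ν + (1 + 16 * n / τ) + n + c := by linarith
    have h9 : n * (3 + 16 / τ) ≤ (n : ℝ) ^ 2 / (20 * C₀) := by
      rw [le_div_iff₀ (by positivity)]
      nlinarith
    have h10 : (n : ℝ) ^ 2 / (4 * C₀) = 1 / (5 * C₀) * (n : ℝ) ^ 2 + (n : ℝ) ^ 2 / (20 * C₀) := by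
      field_simp
      norm_num
    have h11 : n * (3 + 16 / τ) = 3 * n + 16 * n / τ := by ring
    linarith
  · refine le_trans ?_ hWc
    have h2 : E ≤ H := by
      have h3 := hyp.big
      have h4 := hyp.hE
      have h5 : (1 : ℝ) ≤ ((n : ℝ) + 2) ^ 20 := one_le_pow₀ (by linarith)
      have h6 : (0 : ℝ) ≤ genus κ L := Nat.cast_nonneg _
      nlinarith
    have h3 : H ≤ ((∑ j, (d j : ℝ)) - n - 1) * H := hyp.cb_k
    have h4 : (s - τ / 8) * (H / n) * ν = (s * H / n - τ / 8 * H / n) * ν := by ring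
    rw [h4]
    linarith

end Pool.Agent.Lib.MP_44a246_ntSH
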