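import Mathlib
import Pool.Agent.Lib.MP_44a246_ntS.SJ4
import Pool.Agent.Lib.MP_44a246_ntS.SJ4b
import Pool.Agent.Lib.MP_44a246_ntSH.P1

/-!
The resultant of two forms in `n + 1` variables with respect to the variable `X 0`: it is a form
in the other variables; its degree and its height.
-/

namespace Pool.Agent.Lib.MP_44a246_ntSH

open Pool.Agent.Lib.MP_44a246_nt
open Pool.Agent.Lib.MP_44a246_ntL
open Pool.Agent.Lib.MP_44a246_ntS
open Pool.Agent.Lib.MP_e52354_nt
open WithZero Module MvPolynomial

section

variable {L : Type*} [CommRing L]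

/-- the determinant of a matrix of forms whose degrees are differences of numbers attached to the
columns and to the rows -/
theorem det_hom {σ : Type*} {k : ℕ} {M : Matrix (Fin k) (Fin k) (MvPolynomial σ L)} {c : Fin k → ℕ}
    (hM : ∀ i j, M i j = 0 ∨ (∃ r, r + (i : ℕ) = c j ∧ (M i j).IsHomogeneous r)) {d : ℕ}
    (hd : d + ∑ i : Fin k, (i : ℕ) = ∑ j, c j) : M.det.IsHomogeneous d := by
  classical
  rw [Matrix.det_apply]
  refine IsHomogeneous.sum _ _ _ fun σ' _ => ?_
  have key : (∏ i, M (σ' i) i).IsHomogeneous d := by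
    by_cases h0 : ∃ i, M (σ' i) i = 0
    · obtain ⟨i, hi⟩ := h0
      have h1 : ∏ i, M (σ' i) i = 0 := Finset.prod_eq_zero (Finset.mem_univ i) hi
      exact h1 ▸ isHomogeneous_zero _ _ _
    · push Not at h0
      have h1 : ∀ i, ∃ r, r + (σ' i : ℕ) = c i ∧ (M (σ' i) i).IsHomogeneous r := fun i =>
        (hM (σ' i) i).resolve_left (h0 i)
      choose r hr1 hr2 using h1
      have h2 := IsHomogeneous.prod Finset.univ (fun i => M (σ' i) i) r (fun i _ => hr2 i)
      have h3 : ∑ i, r i = d := by
        have h4 : ∑ i, r i + ∑ i, (σ' i : ℕ) = ∑ i, c i := by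
          rw [← Finset.sum_add_distrib]
          exact Finset.sum_congr rfl fun i _ => hr1 i
        have h5 : ∑ i, (σ' i : ℕ) = ∑ i : Fin k, (i : ℕ) :=
          Equiv.sum_comp σ' (fun i : Fin k => (i : ℕ))
        omega
      rwa [h3] at h2
  rcases Int.units_eq_one_or (Equiv.Perm.sign σ') with h | h
  · rw [h, one_smul]
    exact key
  · rw [h, Units.neg_smul, one_smul]
    exact key.neg

end

section

variable {L : Type*} [Field L] {n : ℕ}

theorem natDegree_fs_le {A : MvPolynomial (Fin (n + 1)) L} {a : ℕ} (hA : A.IsHomogeneous a) :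
    (finSuccEquiv L n A).natDegree ≤ a := by
  rw [natDegree_finSuccEquiv]
  exact (degreeOf_le_totalDegree A 0).trans hA.totalDegree_le

theorem coeff_fs_hom {A : MvPolynomial (Fin (n + 1)) L} {a : ℕ} (hA : A.IsHomogeneous a)
    {i j : ℕ} (hij : i + j = a) : ((finSuccEquiv L n A).coeff i).IsHomogeneous j :=
  hA.finSuccEquiv_coeff_isHomogeneous i j hij

/-- the resultant of forms is a form -/
theorem resultant_hom {A B : MvPolynomial (Fin (n + 1)) L} {a b b' : ℕ} (hA : A.IsHomogeneous a)
    (hB : B.IsHomogeneous b) (hb : b' ≤ b) :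
    (Polynomial.resultant (finSuccEquiv L n B) (finSuccEquiv L n A) b' a).IsHomogeneous
      (b * a) := by
  unfold Polynomial.resultant
  refine det_hom (c := Fin.addCases (fun j : Fin b' => a + (j : ℕ)) (fun j : Fin a => b + (j : ℕ)))
    ?_ ?_
  · intro i j
    refine Fin.addCases (fun j₁ => ?_) (fun j₁ => ?_) j
    · rw [Polynomial.sylvester, Matrix.of_apply, Fin.addCases_left, Fin.addCases_left]
      split_ifs with h
      · rw [Set.mem_Icc] at h
        refine Or.inr ⟨a - ((i : ℕ) - j₁), by omega, coeff_fs_hom hA (by omega)⟩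
      · exact Or.inl rfl
    · rw [Polynomial.sylvester, Matrix.of_apply, Fin.addCases_right, Fin.addCases_right]
      split_ifs with h
      · rw [Set.mem_Icc] at h
        refine Or.inr ⟨b - ((i : ℕ) - j₁), by omega, coeff_fs_hom hB (by omega)⟩
      · exact Or.inl rfl
  · rw [Fin.sum_univ_add, Fin.sum_univ_add]
    simp only [Fin.addCases_left, Fin.addCases_right, Fin.val_castAdd, Fin.val_natAdd,
      Finset.sum_add_distrib, Finset.sum_const, Finset.card_univ, Fintype.card_fin, smul_eq_mul]
    ring

/-- evaluation of the polynomial in `X 0` -/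
theorem eval_fs (A : MvPolynomial (Fin (n + 1)) L) (q : Fin (n + 1) → L) :
    ((finSuccEquiv L n A).map (eval (fun j : Fin n => q j.succ))).eval (q 0) = eval q A := by
  have h1 := eval_eq_eval_mv_eval' (fun j : Fin n => q j.succ) (q 0) A
  rw [← h1]
  congr 1
  congr 1
  funext j
  refine Fin.cases rfl (fun j => rfl) j

/-- the resultant of an irreducible form and a form which is not divisible by it is not zero -/
theorem resultant_ne_zero_fs {A B : MvPolynomial (Fin (n + 1)) L} {a : ℕ} (hA : A.IsHomogeneous a)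
    (hB : Irreducible B) (hB0 : (finSuccEquiv L n B).natDegree ≠ 0) (hAB : ¬ B ∣ A) :
    Polynomial.resultant (finSuccEquiv L n B) (finSuccEquiv L n A)
      (finSuccEquiv L n B).natDegree a ≠ 0 := by
  have hAB' : ¬ finSuccEquiv L n B ∣ finSuccEquiv L n A := by
    rwa [map_dvd_iff]
  have hirr : Irreducible (finSuccEquiv L n B) := (MulEquiv.irreducible_iff _).2 hB
  have h1 : Polynomial.resultant (finSuccEquiv L n B) (finSuccEquiv L n A) ≠ 0 := fun h0 =>
    hAB' (dvd_of_resultant hirr hB0 h0)
  obtain ⟨k, hk⟩ := Nat.exists_eq_add_of_le (natDegree_fs_le hA)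
  rw [hk, Polynomial.resultant_add_right_deg _ _ _ _ _ le_rfl]
  refine mul_ne_zero (pow_ne_zero _ ?_) h1
  rw [Polynomial.coeff_natDegree, Ne, Polynomial.leadingCoeff_eq_zero]
  exact hirr.ne_zero

/-- the resultant vanishes at the projection of a common zero -/
theorem eval_resultant {A B : MvPolynomial (Fin (n + 1)) L} {a b' : ℕ} (hA : A.IsHomogeneous a)
    (hB : (finSuccEquiv L n B).natDegree ≤ b') (hb : b' ≠ 0) {q : Fin (n + 1) → L}
    (hAq : eval q A = 0) (hBq : eval q B = 0) :
    eval (fun j : Fin n => q j.succ)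
      (Polynomial.resultant (finSuccEquiv L n B) (finSuccEquiv L n A) b' a) = 0 := by
  obtain ⟨u, v, -, -, huv⟩ := Polynomial.exists_mul_add_mul_eq_C_resultant
    (finSuccEquiv L n B) (finSuccEquiv L n A) hB (natDegree_fs_le hA) (Or.inl hb)
  have h1 := congrArg (fun P => (P.map (eval (fun j : Fin n => q j.succ))).eval (q 0)) huv
  simp only [Polynomial.map_add, Polynomial.map_mul, Polynomial.eval_add, Polynomial.eval_mul,
    eval_fs, hAq, hBq, zero_mul, add_zero, Polynomial.map_C, Polynomial.eval_C] at h1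
  exact h1.symm

end

section

variable {κ L : Type*} [Field κ] [IsAlgClosed κ] [CharZero κ] [Field L] [Algebra κ L] {n : ℕ}

/-- **Elimination of the variable `X 0`.** `B` is an irreducible form of degree `b` with
`B (q) = 0`, `f` a form of degree `m ≥ b`, not divisible by `B`, with `f (q) = 0`, and at every
place `w` there is a multiple of `B` such that the coefficients of `f + g B` are at most
`exp (τ w)`. Then there is a form `R` in the other variables which vanishes at `q`, of degree at
most `b m`, of height at most `m α(B) + b' ∑ τ` for some `b' ≤ b`. -/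
theorem res_form (h : IsFF κ L) {b m : ℕ} {B f : MvPolynomial (Fin (n + 1)) L}
    (hB : B.IsHomogeneous b) (hirr : Irreducible B) (hf : f.IsHomogeneous m) (hbm : b ≤ m)
    (hm : 1 ≤ m) (hndvd : ¬ B ∣ f) {q : Fin (n + 1) → L} (hBq : eval q B = 0)
    (hfq : eval q f = 0) {τ : Place κ L → ℤ} (hτ : (Function.support τ).Finite)
    (hloc : ∀ w : Place κ L, ∃ g : MvPolynomial (Fin (n + 1)) L, g.IsHomogeneous (m - b) ∧
      nrm w.1 (f + g * B) ≤ exp (τ w)) :
    ∃ (r b' : ℕ) (R : MvPolynomial (Fin n) L), r ≤ b * m ∧ b' ≤ b ∧ R ≠ 0 ∧ R.IsHomogeneous r ∧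
      eval (fun j : Fin n => q j.succ) R = 0 ∧
      polyHeight κ R ≤ m * polyHeight κ B + b' * ∑ᶠ w, τ w := by
  have hB0 : B ≠ 0 := hirr.ne_zero
  set B' := finSuccEquiv L n B with hB'
  rcases Nat.eq_zero_or_pos B'.natDegree with hz | hpos
  · -- the variable does not occur
    have hC := Polynomial.eq_C_of_natDegree_eq_zero hz
    set R := B'.coeff 0 with hR
    have hRh : R.IsHomogeneous b := coeff_fs_hom hB (zero_add b)
    have hR0 : R ≠ 0 := by
      intro h0
      rw [h0, map_zero] at hC
      exact hB0 ((map_eq_zero_iff _ (finSuccEquiv L n).injective).1 hC)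
    refine ⟨b, 0, R, ?_, Nat.zero_le _, hR0, hRh, ?_, ?_⟩
    · nlinarith
    · have h1 := eval_fs B q
      rw [← hB', hC, Polynomial.map_C, Polynomial.eval_C, hBq] at h1
      exact h1
    · have h1 : polyHeight κ R = polyHeight κ B := by
        rw [polyHeight_eq, polyHeight_eq]
        refine finsum_congr fun w => ?_
        rw [← gn_finSucc, ← hB', hC, gn_C, nV_apply]
      have h2 := polyHeight_nonneg h hB0
      have h3 : (1 : ℤ) ≤ m := by exact_mod_cast hm
      rw [h1, Nat.cast_zero, zero_mul, add_zero]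
      nlinarith
  · have hle : B'.natDegree ≤ b := natDegree_fs_le hB
    set R := Polynomial.resultant B' (finSuccEquiv L n f) B'.natDegree m with hR
    have hR0 : R ≠ 0 := resultant_ne_zero_fs hf hirr hpos.ne' hndvd
    refine ⟨b * m, B'.natDegree, R, le_rfl, hle, hR0, resultant_hom hf hB hle,
      eval_resultant hf le_rfl hpos.ne' hfq hBq, ?_⟩
    have hw : ∀ w : Place κ L, log (nrm w.1 R) ≤ m * log (nrm w.1 B) + B'.natDegree * τ w := by
      intro w
      obtain ⟨g, hg, hgle⟩ := hloc w
      have h1 : R = Polynomial.resultant B' (finSuccEquiv L n (f + g * B)) B'.natDegree m := by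
        rw [map_add, map_mul, mul_comm, Polynomial.resultant_add_mul_right _ _ _ _ _ _ le_rfl]
        have := natDegree_fs_le hg
        omega
      have h2 : nrm w.1 R ≤ nrm w.1 B ^ m * exp (τ w) ^ B'.natDegree := by
        rw [← nV_apply, h1]
        refine (resultant_le _ _ _ _ _).trans ?_
        rw [hB', gn_finSucc, gn_finSucc]
        gcongr
      have h3 := nrm_ne_zero w.1 hR0
      have h4 := nrm_ne_zero w.1 hB0
      have h5 := (log_le_log h3 (mul_ne_zero (pow_ne_zero _ h4)
        (pow_ne_zero _ exp_ne_zero))).2 h2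
      rw [log_mul (pow_ne_zero _ h4) (pow_ne_zero _ exp_ne_zero), log_pow, log_pow, log_exp,
        nsmul_eq_mul, nsmul_eq_mul] at h5
      exact h5
    have s1 := nrm_support h hB0
    have s2 : (Function.support fun w : Place κ L => (m : ℤ) * log (nrm w.1 B)).Finite := by
      refine s1.subset fun w hw h0 => hw ?_
      change log (nrm w.1 B) = 0 at h0
      change (m : ℤ) * log (nrm w.1 B) = 0
      rw [h0, mul_zero]
    have s3 : (Function.support fun w : Place κ L => (B'.natDegree : ℤ) * τ w).Finite := by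
      refine hτ.subset fun w hw h0 => hw ?_
      change (B'.natDegree : ℤ) * τ w = 0
      rw [h0, mul_zero]
    rw [polyHeight_eq, polyHeight_eq, mul_finsum, mul_finsum, ← finsum_add_distrib s2 s3]
    exact finsum_mono (nrm_support h hR0) ((s2.union s3).subset (Function.support_add _ _)) hw

end

end Pool.Agent.Lib.MP_44a246_ntSH
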