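import Mathlib
import Pool.Agent.Lib.MP_44a246_ntF.F01

/-!
# Paper 619, (A4)-(A6): numerics

The number of monomials of degree `e` in four variables and the choice of the level.
-/

namespace Pool.Agent.Lib.MP_44a246_ntSH

open Pool.Agent.Lib.MP_44a246_nt
open Pool.Agent.Lib.MP_44a246_ntF
open Pool.Agent.Lib.MP_e52354_nt

/-- the number of the monomials of degree `e` in four variables -/
theorem card_EX4 (e : ℕ) : 6 * Fintype.card (EX 4 e) = (e + 1) * (e + 2) * (e + 3) := by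
  rw [Fintype.card_coe, expo, Finset.card_finsuppAntidiag_nat_eq_choose]
  simp only [Finset.card_univ, Fintype.card_fin]
  have h1 : 4 + e - 1 = e + 3 := by omega
  rw [h1, ← Nat.choose_symm (by omega : e ≤ e + 3)]
  have h2 : e + 3 - e = 3 := by omega
  rw [h2]
  have h3 := Nat.add_choose_mul_factorial_mul_factorial e 3
  have h4 : (e + 3).factorial = (e + 3) * ((e + 2) * ((e + 1) * e.factorial)) := by
    rw [Nat.factorial_succ, Nat.factorial_succ, Nat.factorial_succ]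
  rw [h4] at h3
  have h5 : (3 : ℕ).factorial = 6 := rfl
  rw [h5] at h3
  have h6 : 0 < e.factorial := Nat.factorial_pos e
  have h8 : e.factorial * (6 * (e + 3).choose 3) = e.factorial * ((e + 1) * (e + 2) * (e + 3)) := by
    nlinarith [h3]
  exact Nat.eq_of_mul_eq_mul_left h6 h8

theorem card_EX4_real (e : ℕ) :
    (Fintype.card (EX 4 e) : ℝ) = ((e : ℝ) + 1) * (e + 2) * (e + 3) / 6 := by
  have h1 := card_EX4 e
  have h2 : (6 : ℝ) * Fintype.card (EX 4 e) = ((e : ℝ) + 1) * (e + 2) * (e + 3) := by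
    exact_mod_cast h1
  linarith

/-- `N_e - dim Λ_e ≥ e ^ 3 / 12` -/
theorem numP1 {e : ℕ} {q : ℝ} (hq : 12 * q ≤ (e : ℝ) ^ 2) :
    (e : ℝ) ^ 3 / 12 ≤ Fintype.card (EX 4 e) - (1 + e * q) := by
  rw [card_EX4_real]
  have h0 : (0 : ℝ) ≤ e := Nat.cast_nonneg e
  have h1 : (e : ℝ) * (12 * q) ≤ e * (e : ℝ) ^ 2 := mul_le_mul_of_nonneg_left hq h0
  nlinarith [h1, mul_nonneg h0 h0]

/-- `M(e) = N_e - N_{e-b} ≥ b e ^ 2 / 6` -/
theorem numP2 (c b : ℕ) :
    (b : ℝ) * (((c + b : ℕ) : ℝ)) ^ 2 / 6 ≤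
      (Fintype.card (EX 4 (c + b)) : ℝ) - Fintype.card (EX 4 c) := by
  rw [card_EX4_real, card_EX4_real]
  have h0 : (0 : ℝ) ≤ b := Nat.cast_nonneg b
  have h1 : (0 : ℝ) ≤ c := Nat.cast_nonneg c
  push_cast
  have h2 := mul_nonneg h0 h1
  have h3 := mul_nonneg h0 h0
  have h4 := mul_nonneg h2 h1
  have h5 := mul_nonneg h2 h0
  nlinarith [h2, h3, h4, h5]

/-- the level: if the annihilator is contained in the ideal, then `e ≤ 7 q / b` -/
theorem numP3 {c b : ℕ} {q : ℝ} (hb : 1 ≤ b) (hq : 6 ≤ q)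
    (h : (b : ℝ) * (((c + b : ℕ) : ℝ)) ^ 2 / 6 ≤ 1 + ((c + b : ℕ) : ℝ) * q) :
    (b : ℝ) * ((c + b : ℕ) : ℝ) ≤ 7 * q := by
  set e : ℝ := ((c + b : ℕ) : ℝ) with he
  have hb' : (1 : ℝ) ≤ b := by exact_mod_cast hb
  have he1 : (1 : ℝ) ≤ e := by
    rw [he]
    exact_mod_cast (by omega : 1 ≤ c + b)
  by_contra hcon
  push Not at hcon
  have h1 : 7 * q * e < (b : ℝ) * e * e := mul_lt_mul_of_pos_right hcon (by linarith)
  nlinarith [mul_le_mul_of_nonneg_left he1 (by linarith : (0 : ℝ) ≤ q)]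

end Pool.Agent.Lib.MP_44a246_ntSH
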