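import Mathlib
import Pool.Agent.Lib.MP_44a246_ntSH.PC1
import Pool.Agent.Lib.MP_44a246_ntSH.PC4
import Pool.Agent.Lib.MP_44a246_ntSH.P4

/-!
# Paper 619, (A6): the level, the second form and the elimination of a variable
-/

namespace Pool.Agent.Lib.MP_44a246_ntSH

open Pool.Agent.Lib.MP_44a246_nt
open Pool.Agent.Lib.MP_44a246_ntL
open Pool.Agent.Lib.MP_44a246_ntS
open Pool.Agent.Lib.MP_44a246_ntF
open Pool.Agent.Lib.MP_44a246_ntO
open Pool.Agent.Lib.MP_44a246_ntR (genus)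
open Pool.Agent.Lib.MP_e52354_nt
open WithZero Module

section

variable {κ L : Type*} [Field κ] [IsAlgClosed κ] [CharZero κ] [Field L] [Algebra κ L]

omit [IsAlgClosed κ] [CharZero κ] in
/-- contraction by a form which annihilates a lower space -/
theorem Sp.cf_eq_zero {n : ℕ} {p : Fin n → L} {Λ : (e : ℕ) → Submodule L (EX n e → L)}
    {P q E t : ℝ} (hS : Sp κ p Λ P q E t) {i j e : ℕ} (hi : i + j = e) (hj : 1 ≤ j)
    (he : (e : ℝ) ≤ E) {B : MvPolynomial (Fin n) L} (hB : B ∈ AnnF (Λ j)) {u : EX n e → L}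
    (hu : u ∈ Λ e) : cf B i u = 0 := by
  refine cf_eq_zero_of fun G hG => ?_
  rw [mul_comm, ← pr_cf G u hB.1]
  exact hB.2 _ (hS.ctr j i e (by omega) hj he G hG u hu)

/-- the dimension of the quotient of the kernel of the contraction by a prime form -/
theorem finrank_level {n S b c : ℕ} (hc : c + b = S) {B f : MvPolynomial (Fin n) L}
    (hB : B.IsHomogeneous b) (hirr : Irreducible B) (hf : f.IsHomogeneous S) (hndvd : ¬ B ∣ f)
    {A : Submodule L (EX n (S + S) → L)} (hA : ∀ u ∈ A, cf f S u = 0)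
    (hAB : A ≤ LinearMap.ker (cf (e := S + S) B (c + S))) :
    Fintype.card (EX n S) + finrank L A ≤ Fintype.card (EX n c) +
      finrank L (LinearMap.ker (cf (e := S + S) B (c + S))) := by
  classical
  have hB0 : B ≠ 0 := hirr.ne_zero
  have hprime : Prime B := hirr.prime
  set K := LinearMap.ker (cf (e := S + S) B (c + S)) with hK
  set φ := cf (e := S + S) f S with hφ
  have h1 : LinearMap.ker (cf (e := S) B c) ≤ K.map φ := by
    intro y hy
    refine mem_of_AnnF fun G hG => ?_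
    have hGf : (G * f).IsHomogeneous (S + S) := hG.1.mul hf
    obtain ⟨g, hg, hgf⟩ := dvd_of_ker (c := c + S) (by omega : c + S + b = S + S) hB hGf
      (fun u hu => by
        rw [← pr_cf f u hG.1]
        exact hG.2 _ ⟨u, LinearMap.mem_ker.2 hu, rfl⟩)
    have h2 : B ∣ G * f := ⟨g, hgf⟩
    rcases hprime.dvd_or_dvd h2 with h3 | h3
    · obtain ⟨G', rfl⟩ := h3
      by_cases h0 : B * G' = 0
      · rw [h0, map_zero]
      · obtain ⟨a', e', hae, ha', he'⟩ := hom_of_mul hG.1 h0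
        have h4 : a' = b := ha'.inj_right hB hB0
        have h5 : e' = c := by omega
        subst h5
        rw [mul_comm, ← pr_cf B y he', LinearMap.mem_ker.1 hy]
        simp [pr_eq_sum, ex]
    · exact absurd h3 hndvd
  have h2 := finrank_ker_cf (e := c) (s := S) (by omega : b + c = S) hB hB0
  have h3 := Submodule.finrank_mono h1
  have h4 := LinearMap.finrank_range_add_finrank_ker (φ.comp K.subtype)
  have h5 : LinearMap.range (φ.comp K.subtype) = K.map φ := by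
    rw [LinearMap.range_comp, Submodule.range_subtype]
  have h6 : finrank L A ≤ finrank L (LinearMap.ker (φ.comp K.subtype)) := by
    have h7 : A = (A.comap K.subtype).map K.subtype := by
      rw [Submodule.map_comap_subtype, inf_eq_right.2 hAB]
    have h8 := (Submodule.equivMapOfInjective K.subtype K.injective_subtype
      (A.comap K.subtype)).finrank_eq
    rw [← h7] at h8
    rw [← h8]
    refine Submodule.finrank_mono fun v hv => ?_
    rw [LinearMap.mem_ker]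
    exact hA _ hv
  rw [h5] at h4
  omega

/-- **(A6).** -/
theorem curve_form (h : IsFF κ L) {p : Fin 4 → L} {Λ : (e : ℕ) → Submodule L (EX 4 e → L)}
    {P q E t : ℝ} (hS : Sp κ p Λ P q E t) {S₁ : ℕ} (h12 : 12 * q ≤ (S₁ : ℝ) ^ 2)
    (h13 : (S₁ : ℝ) ^ 2 ≤ 13 * q) (h7 : 7 ≤ S₁) (hE : 2 * (S₁ : ℝ) ≤ E) (hSq : (S₁ : ℝ) ≤ q)
    (hP : 0 ≤ P) (hg : (S₁ : ℝ) * (genus κ L + 1) ≤ P) {b : ℕ} {B : MvPolynomial (Fin 4) L}
    (hb1 : 1 ≤ b) (hbS : b ≤ S₁) (hB : B.IsHomogeneous b) (hirr : Irreducible B)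
    (hBp : MvPolynomial.eval p B = 0) (hBσ : (polyHeight κ B : ℝ) * S₁ ≤ 13 * P)
    (hBt : (polyHeight κ B : ℝ) < t) (hbE : 16 * q ≤ E * b) :
    ∃ (r : ℕ) (R : MvPolynomial (Fin 3) L), (r : ℝ) ≤ 26 * q ∧ R ≠ 0 ∧ R.IsHomogeneous r ∧
      MvPolynomial.eval (fun j : Fin 3 => p j.succ) R = 0 ∧ (polyHeight κ R : ℝ) ≤ 53 * P := by
  classical
  have hB0 : B ≠ 0 := hirr.ne_zero
  have hbr : (1 : ℝ) ≤ b := by exact_mod_cast hb1
  have hbpos : (0 : ℝ) < b := by linarith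
  have h7r : (7 : ℝ) ≤ S₁ := by exact_mod_cast h7
  have hbSr : (b : ℝ) ≤ S₁ := by exact_mod_cast hbS
  have hq7 : (7 : ℝ) ≤ q := h7r.trans hSq
  have hα0 : (0 : ℝ) ≤ polyHeight κ B := by exact_mod_cast polyHeight_nonneg h hB0
  have hBann : B ∈ AnnF (Λ b) :=
    hS.ann b hb1 (by linarith) B hB hBp hBt
  -- the levels at which the annihilator is contained in the ideal
  have hlev : ∀ e : ℕ, S₁ ≤ e → (e : ℝ) ≤ E → (∀ F ∈ AnnF (Λ e), B ∣ F) →
      (b : ℝ) * e ≤ 7 * q := by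
    intro e he heE hdvd
    obtain ⟨c, rfl⟩ : ∃ c, e = c + b := ⟨e - b, by omega⟩
    have h1 := (height_gcdF h (e := c) (s := c + b) rfl (Q := Λ (c + b)) hB hB0 hdvd).2
    have h2 := hS.dim (c + b) (by omega) heE
    have h3 := numP2 c b
    have h4 : (Fintype.card (EX 4 (c + b)) : ℝ) ≤ Fintype.card (EX 4 c) +
        finrank L (Λ (c + b)) := by exact_mod_cast h1
    exact numP3 hb1 (by linarith) (by linarith)
  obtain ⟨e₀, he₀1, he₀2, he₀3, he₀4⟩ : ∃ e₀ : ℕ, S₁ ≤ e₀ ∧ 7 * q < (b : ℝ) * e₀ ∧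
      (b : ℝ) * e₀ ≤ 13 * q ∧ 2 * (e₀ : ℝ) ≤ E := by
    have hx0 : 0 ≤ 7 * q / b := by positivity
    have hfl := Nat.floor_le hx0
    have hlt := Nat.lt_floor_add_one (7 * q / b)
    rw [div_lt_iff₀ hbpos] at hlt
    rw [le_div_iff₀ hbpos] at hfl
    have hup : (b : ℝ) * ((⌊7 * q / b⌋₊ : ℝ) + 1) ≤ 8 * q := by linarith
    have h2up : 2 * ((⌊7 * q / b⌋₊ : ℝ) + 1) ≤ E := by
      have h1 : b * (2 * ((⌊7 * q / b⌋₊ : ℝ) + 1)) ≤ b * E := by linarith
      exact le_of_mul_le_mul_left h1 hbpos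
    refine ⟨max S₁ (⌊7 * q / b⌋₊ + 1), le_max_left _ _, ?_, ?_, ?_⟩
    · have h1 : ((⌊7 * q / b⌋₊ + 1 : ℕ) : ℝ) ≤ ((max S₁ (⌊7 * q / b⌋₊ + 1) : ℕ) : ℝ) := by
        exact_mod_cast le_max_right _ _
      refine lt_of_lt_of_le ?_ (mul_le_mul_of_nonneg_left h1 hbpos.le)
      push_cast
      linarith
    · rcases max_cases S₁ (⌊7 * q / b⌋₊ + 1) with ⟨h1, _⟩ | ⟨h1, _⟩
      · rw [h1]
        nlinarith
      · rw [h1]
        push_cast
        linarith
    · rcases max_cases S₁ (⌊7 * q / b⌋₊ + 1) with ⟨h1, _⟩ | ⟨h1, _⟩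
      · rw [h1]
        exact hE
      · rw [h1]
        push_cast
        exact h2up
  have hex : ∃ e : ℕ, S₁ ≤ e ∧ ¬ ∀ F ∈ AnnF (Λ e), B ∣ F :=
    ⟨e₀, he₀1, fun hcon => absurd (hlev e₀ he₀1 (by
      have : (0 : ℝ) ≤ e₀ := Nat.cast_nonneg _
      linarith) hcon) (not_le.2 he₀2)⟩
  obtain ⟨S, hSdef⟩ : ∃ S, S = Nat.find hex := ⟨_, rfl⟩
  have hSspec := Nat.find_spec hex
  have hSle : Nat.find hex ≤ e₀ := Nat.find_min' hex ⟨he₀1, fun hcon =>
    absurd (hlev e₀ he₀1 (by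
      have : (0 : ℝ) ≤ e₀ := Nat.cast_nonneg _
      linarith) hcon) (not_le.2 he₀2)⟩
  have hSmin : ∀ e < Nat.find hex, S₁ ≤ e → ∀ F ∈ AnnF (Λ e), B ∣ F := by
    intro e he he1
    have h1 := Nat.find_min hex he
    by_contra hcon
    exact h1 ⟨he1, hcon⟩
  rw [← hSdef] at hSspec hSle hSmin
  obtain ⟨hS1, hSn⟩ := hSspec
  have hS1r : (S₁ : ℝ) ≤ S := by exact_mod_cast hS1
  have hSler : (S : ℝ) ≤ e₀ := by exact_mod_cast hSle
  have hSpos : (0 : ℝ) < S := by linarith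
  have h2SE : 2 * (S : ℝ) ≤ E := by linarith
  have hbS13 : (b : ℝ) * S ≤ 13 * q := (mul_le_mul_of_nonneg_left hSler hbpos.le).trans he₀3
  -- the height of `B`
  have hαS : (polyHeight κ B : ℝ) * S ≤ 14 * P := by
    rcases eq_or_lt_of_le hS1 with heq | hlt
    · rw [← heq]
      linarith
    · obtain ⟨e, rfl⟩ : ∃ e, S = e + 1 := ⟨S - 1, by omega⟩
      have he1 : S₁ ≤ e := by omega
      have he1r : (S₁ : ℝ) ≤ e := by exact_mod_cast he1
      have heE : (e : ℝ) ≤ E := by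
        push_cast at h2SE
        linarith
      have h1 := (height_gcdF h (e := e - b) (s := e) (by omega) (Q := Λ e) hB hB0
        (hSmin e (by omega) he1)).1
      have h2 := hS.ht e (by omega) heE
      have h3 := hS.dim e (by omega) heE
      have h4 := numP1 (e := e) (q := q) (by nlinarith)
      have h5 : (polyHeight κ B : ℝ) * ((Fintype.card (EX 4 e) : ℝ) - finrank L (Λ e)) ≤
          ht κ (Λ e) := by exact_mod_cast h1
      have h6 : (polyHeight κ B : ℝ) * ((e : ℝ) ^ 3 / 12) ≤ P * e ^ 2 := by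
        refine le_trans (mul_le_mul_of_nonneg_left ?_ hα0) (h5.trans h2)
        linarith
      have hepos : (0 : ℝ) < e := by linarith
      have h7 : (polyHeight κ B : ℝ) * e ≤ 12 * P := by
        have h8 : (e : ℝ) ^ 2 * ((polyHeight κ B : ℝ) * e) ≤ (e : ℝ) ^ 2 * (12 * P) := by
          nlinarith
        exact le_of_mul_le_mul_left h8 (by positivity)
      push_cast
      nlinarith
  -- a form at the level `S`
  push Not at hSn
  obtain ⟨fS, hfS, hfSn⟩ := hSn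
  have hSb : b ≤ S := hbS.trans hS1
  obtain ⟨c, hc⟩ : ∃ c, c + b = S := ⟨S - b, by omega⟩
  have h2SE' : (((S + S : ℕ)) : ℝ) ≤ E := by
    push_cast
    linarith
  have hAB : Λ (S + S) ≤ LinearMap.ker (cf (e := S + S) B (c + S)) := fun u hu =>
    LinearMap.mem_ker.2 (hS.cf_eq_zero (by omega) hb1 h2SE' hBann hu)
  have hAf : ∀ u ∈ Λ (S + S), cf fS S u = 0 := fun u hu =>
    hS.cf_eq_zero rfl (by omega) h2SE' hfS hu
  have hfin := finrank_level hc hB hirr hfS.1 hfSn hAf hAB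
  have hM : (b : ℝ) * (S : ℝ) ^ 2 / 6 ≤
      (finrank L (LinearMap.ker (cf (L := L) (n := 4) (e := S + S) B (c + S))) : ℝ) -
        finrank L (Λ (S + S)) := by
    have h1 := numP2 c b
    rw [hc] at h1
    have h2 : (Fintype.card (EX 4 S) : ℝ) + finrank L (Λ (S + S)) ≤ Fintype.card (EX 4 c) +
      finrank L (LinearMap.ker (cf (L := L) (n := 4) (e := S + S) B (c + S))) := by
      exact_mod_cast hfin
    linarith
  have hht := hS.ht (S + S) (by omega) h2SE'
  obtain ⟨f, τ, hf, hτ, hτs, hτ0, hfA, ⟨y, hy, hy0⟩, hloc⟩ := exists_form h hAB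
    (ν := (b : ℝ) * (S : ℝ) ^ 2 / 6) (c := 24 * P / b) (by positivity) hM (by
      have h1 : 24 * P / b * ((b : ℝ) * (S : ℝ) ^ 2 / 6) = P * (((S + S : ℕ)) : ℝ) ^ 2 := by
        push_cast
        field_simp
        ring
      rw [h1]
      exact hht) (by positivity)
  have hfp : MvPolynomial.eval p f = 0 := by
    rw [← pr_xm p hf]
    exact hfA _ (hS.mem (S + S) (by omega) h2SE')
  have hzero : ∀ (g : MvPolynomial (Fin 4) L), g.IsHomogeneous (c + S) → ∀ u : EX 4 (S + S) → L,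
      cf B (c + S) u = 0 → pr u (B * g) = 0 := by
    intro g hg u hu
    rw [mul_comm, ← pr_cf B u hg, hu]
    simp [pr_eq_sum, ex]
  have hndvd : ¬ B ∣ f := by
    rintro ⟨g, hg⟩
    apply hy0
    rw [hg]
    by_cases h0 : B * g = 0
    · rw [h0, map_zero]
    · obtain ⟨a', e', hae, ha', he'⟩ := hom_of_mul (hg ▸ hf) h0
      have h4 : a' = b := ha'.inj_right hB hB0
      have h5 : e' = c + S := by omega
      rw [h5] at he'
      exact hzero g he' y (LinearMap.mem_ker.1 hy)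
  obtain ⟨r, b', R, hr, hb', hR0, hR, hRp, hRh⟩ := res_form h hB hirr hf (by omega) (by omega)
    hndvd hBp hfp hτ (fun w => by
      obtain ⟨m, hm1, hm2, hm3⟩ := hloc w
      obtain ⟨g, hg, hgm⟩ := dvd_of_ker (c := c + S) (by omega : c + S + b = S + S) hB
        (hm1.sub hf) (fun u hu => by
          rw [map_sub, hm3 u (LinearMap.mem_ker.2 hu), sub_self])
      have hcS : c + S = S + S - b := by omega
      refine ⟨g, by rw [← hcS]; exact hg, ?_⟩
      have h1 : f + g * B = m := by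
        rw [mul_comm, ← hgm]
        ring
      rw [h1]
      exact nrm_le w.1 hm2)
  refine ⟨r, R, ?_, hR0, hR, hRp, ?_⟩
  · have h1 : (r : ℝ) ≤ b * ((S + S : ℕ) : ℝ) := by exact_mod_cast hr
    push_cast at h1
    linarith
  · have h1 : (polyHeight κ R : ℝ) ≤ ((S + S : ℕ) : ℝ) * polyHeight κ B +
        b' * ((∑ᶠ w, τ w : ℤ) : ℝ) := by exact_mod_cast hRh
    have h2 : (b' : ℝ) ≤ b := by exact_mod_cast hb'
    have h3 : (0 : ℝ) ≤ ((∑ᶠ w, τ w : ℤ) : ℝ) := by exact_mod_cast hτ0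
    have h4 : (b' : ℝ) * ((∑ᶠ w, τ w : ℤ) : ℝ) ≤ b * (24 * P / b + (genus κ L + 1)) :=
      (mul_le_mul_of_nonneg_right h2 h3).trans (mul_le_mul_of_nonneg_left hτs hbpos.le)
    have h5 : (b : ℝ) * (24 * P / b + (genus κ L + 1)) = 24 * P + b * (genus κ L + 1) := by
      field_simp
    have h6 : (b : ℝ) * (genus κ L + 1) ≤ S₁ * (genus κ L + 1) :=
      mul_le_mul_of_nonneg_right hbSr (by positivity)
    push_cast at h1
    linarith

end

end Pool.Agent.Lib.MP_44a246_ntSH
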