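import Mathlib
import Pool.Agent.Lib.MP_44a246_ntSH.PC5
import Pool.Agent.Lib.MP_44a246_ntSH.PC6
import Pool.Agent.Lib.MP_44a246_ntSH.P5

/-!
# Paper 619, (A4)-(A6): assembly
-/

namespace Pool.Agent.Lib.MP_44a246_ntSH

open Pool.Agent.Lib.MP_44a246_nt
open Pool.Agent.Lib.MP_44a246_ntL
open Pool.Agent.Lib.MP_44a246_ntS
open Pool.Agent.Lib.MP_44a246_ntF
open Pool.Agent.Lib.MP_44a246_ntO
open Pool.Agent.Lib.MP_44a246_ntA
open Pool.Agent.Lib.MP_44a246_ntX
open Pool.Agent.Lib.MP_44a246_ntR (genus)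
open Pool.Agent.Lib.MP_e52354_nt
open WithZero Module

theorem exists_S1 {q : ℝ} (hq : 60 ≤ q) : ∃ S : ℕ, 12 * q ≤ (S : ℝ) ^ 2 ∧ (S : ℝ) ^ 2 ≤ 13 * q ∧
    13 ≤ S := by
  have h0 : 0 ≤ Real.sqrt (12 * q) := Real.sqrt_nonneg _
  have h1 : Real.sqrt (12 * q) ^ 2 = 12 * q := Real.sq_sqrt (by linarith)
  have h2 := Nat.le_ceil (Real.sqrt (12 * q))
  have h3 := Nat.ceil_lt_add_one h0
  refine ⟨⌈Real.sqrt (12 * q)⌉₊, ?_, ?_, ?_⟩
  · exact h1.symm.le.trans (pow_le_pow_left₀ h0 h2 2)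
  · have h4 : ((⌈Real.sqrt (12 * q)⌉₊ : ℕ) : ℝ) ^ 2 ≤ (Real.sqrt (12 * q) + 1) ^ 2 :=
      pow_le_pow_left₀ (Nat.cast_nonneg _) h3.le 2
    have h5 : 2 * Real.sqrt (12 * q) + 1 ≤ q := by
      nlinarith
    nlinarith
  · have h4 : (13 : ℝ) ≤ Real.sqrt (12 * q) := by
      refine Real.le_sqrt_of_sq_le ?_
      linarith
    exact_mod_cast h4.trans h2

section

variable {κ L : Type*} [Field κ] [IsAlgClosed κ] [CharZero κ] [Field L] [CharZero L] [Algebra κ L]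

/-- the plane curve, with all the numerical conditions as hypotheses -/
theorem plane_aux (h : IsFF κ L) {n d : ℕ} (X : DatP κ (L := L) n) {M θ s E N q : ℝ}
    (hne : X.x ≠ 0) (hEd : E ≤ d) (hn1 : 1 ≤ n)
    (hslope : ∀ Q : Submodule L (Fin (n + 1) → L), X.x ∈ Q →
      (height κ X.x : ℝ) - ht κ Q ≤ M * ((finrank L Q : ℝ) - 1)) (hM : 0 ≤ M)
    {W : Submodule L (EX (n + 1) d → L)} (hW : HasSl κ (s * height κ X.x / n) (xm d X.x) W)
    (hq : q = n / s) (hs : 1 / 64 ≤ s) (hq60 : 60 ≤ q) (hE : E ≤ n) (hE2 : 3328 * (n : ℝ) ≤ E ^ 2)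
    (hE0 : 0 < E) (hH : 0 < height κ X.x) (hθ0 : 0 < θ) (hθ : θ ≤ 1 / 1000)
    (hgen : 64 * n * (genus κ L + 1) ≤ θ * height κ X.x / n)
    (hN : ∀ b : ℕ, (b : ℝ) * E ≤ 1024 * n → (Fintype.card (EX 4 b) : ℝ) ≤ N)
    (hMN : M * N ≤ height κ X.x / 4)
    (hN1 : N * (height κ X.x / n) ≤ height κ X.x / 8) (hN2 : N * X.Δ ≤ height κ X.x / 8)
    (hbd : ∀ e : ℕ, 1 ≤ e → (e : ℝ) ≤ E →
          (ht κ (lam e W) : ℝ) ≤ θ * e ^ 2 * height κ X.x / n ∧
          (finrank L (lam e W) : ℝ) ≤ 1 + e * n / s) :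
    ∃ (a : ℕ) (A : MvPolynomial (Fin 3) L), (a : ℝ) ≤ 1664 * n ∧ A ≠ 0 ∧ A.IsHomogeneous a ∧
        MvPolynomial.eval X.p A = 0 ∧ (polyHeight κ A : ℝ) ≤ 53 * (θ * height κ X.x / n) := by
  have hn : (1 : ℝ) ≤ n := by exact_mod_cast hn1
  have hn0 : (0 : ℝ) < n := by linarith
  have hs0 : 0 < s := by linarith
  have hHr : (0 : ℝ) < height κ X.x := by exact_mod_cast hH
  set H : ℝ := (height κ X.x : ℝ) with hHdef
  obtain ⟨P, hP⟩ : ∃ P : ℝ, P = θ * H / n := ⟨_, rfl⟩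
  have hP0 : 0 < P := by rw [hP]; positivity
  have hq64 : q ≤ 64 * n := by
    rw [hq, div_le_iff₀ hs0]
    nlinarith
  have hg0 : (0 : ℝ) ≤ genus κ L := Nat.cast_nonneg _
  have hSp := sp_of_proj (P := P) (q := q) h hne hW X.l4 hEd (fun e he1 he => by
      refine ((hbd e he1 he).1).trans (le_of_eq ?_)
      rw [hP]; ring) (fun e he1 he => by
      refine ((hbd e he1 he).2).trans (le_of_eq ?_)
      rw [hq]; ring)
  rw [X.lx_l4] at hSp
  obtain ⟨S₁, h12, h13, hS13⟩ := exists_S1 hq60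
  have hS13r : (13 : ℝ) ≤ S₁ := by exact_mod_cast hS13
  have hSpos : (0 : ℝ) < S₁ := by linarith
  have hSq : (S₁ : ℝ) ≤ q := by nlinarith
  have hS2E : 2 * (S₁ : ℝ) ≤ E := by
    have h1 : (2 * (S₁ : ℝ)) ^ 2 ≤ E ^ 2 := by nlinarith
    exact (sq_le_sq₀ (by positivity) hE0.le).1 h1
  have hSg : (S₁ : ℝ) * (genus κ L + 1) ≤ P := by
    rw [hP]
    refine le_trans ?_ hgen
    exact mul_le_mul_of_nonneg_right (hSq.trans hq64) (by linarith)
  -- the first form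
  have hcard := numP1 (e := S₁) (q := q) h12
  have hdim := hSp.dim S₁ (by omega) (by linarith)
  have hhtS := hSp.ht S₁ (by omega) (by linarith)
  obtain ⟨f, hf, hf0, hfA, hfh⟩ := exists_form_top h (A := Lm X.l4 W S₁)
    (ν := (S₁ : ℝ) ^ 3 / 12) (c := 12 * P / S₁) (by positivity) (by linarith) (by
      refine hhtS.trans (le_of_eq ?_)
      field_simp) (by positivity)
  have hfp : MvPolynomial.eval X.p4 f = 0 := by
    rw [← pr_xm X.p4 hf]
    exact hfA _ (hSp.mem S₁ (by omega) (by linarith))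
  have hfσ : (polyHeight κ f : ℝ) ≤ 13 * P / S₁ := by
    refine hfh.trans ?_
    have h1 : (genus κ L : ℝ) + 1 ≤ P / S₁ := by
      rw [le_div_iff₀ hSpos]
      linarith
    have h2 : 13 * P / S₁ = 12 * P / S₁ + P / S₁ := by ring
    linarith
  -- the form of minimal degree
  obtain ⟨b, B, hb1, hbS, hB, hirr, hBp, hBσ, hmin⟩ := exists_min_form h hf hf0 hfp hfσ
  have hBσ' : (polyHeight κ B : ℝ) * S₁ ≤ 13 * P := by
    rwa [le_div_iff₀ hSpos] at hBσ
  have hα0 : (0 : ℝ) ≤ polyHeight κ B := by exact_mod_cast polyHeight_nonneg h hirr.ne_zero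
  have hB13 : 13 * (polyHeight κ B : ℝ) ≤ 13 * P := by nlinarith
  have hBP : (polyHeight κ B : ℝ) ≤ P := by linarith
  have hPH : P ≤ H / n / 1000 := by
    rw [hP]
    have h1 : θ * H / n = θ * (H / n) := by ring
    rw [h1]
    have h2 : 0 ≤ H / n := by positivity
    nlinarith
  have hHn : H / n ≤ H := div_le_self hHr.le hn
  have hbE : 16 * q ≤ E * b := by
    by_contra hcon
    push Not at hcon
    have hbE' : (b : ℝ) * E ≤ 1024 * n := by linarith
    have hNb := hN b hbE'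
    have hN0 : 0 ≤ N := (Nat.cast_nonneg _).trans hNb
    obtain ⟨Q, hxQ, hQd, hQh⟩ := X.a5 h hB hirr.ne_zero hBp hmin (by
      have h1 : (polyHeight κ B : ℝ) < H := by linarith
      rw [hHdef] at h1
      exact_mod_cast h1)
    have h1 := hslope Q hxQ
    have h2 : (finrank L Q : ℝ) ≤ N := by
      have : (finrank L Q : ℝ) ≤ Fintype.card (EX 4 b) := by exact_mod_cast hQd
      linarith
    have h3 : M * ((finrank L Q : ℝ) - 1) ≤ M * N := by
      refine mul_le_mul_of_nonneg_left ?_ hM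
      linarith
    have h4 : (ht κ Q : ℝ) ≤ Fintype.card (EX 4 b) * (2 * polyHeight κ B + X.Δ) := by
      exact_mod_cast hQh
    have hΔ : (0 : ℝ) ≤ X.Δ := by
      have : (0 : ℤ) ≤ X.Δ := finsum_nonneg fun w => Int.natCast_nonneg _
      exact_mod_cast this
    have h5 : (Fintype.card (EX 4 b) : ℝ) * (2 * polyHeight κ B + X.Δ) ≤
        N * (H / n) + N * X.Δ := by
      have h6 : (Fintype.card (EX 4 b) : ℝ) * (2 * polyHeight κ B + X.Δ) ≤
          N * (2 * polyHeight κ B + X.Δ) :=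
        mul_le_mul_of_nonneg_right hNb (by linarith)
      have h7 : N * (2 * (polyHeight κ B : ℝ)) ≤ N * (H / n) :=
        mul_le_mul_of_nonneg_left (by linarith) hN0
      linarith
    linarith
  obtain ⟨r, R, hr, hR0, hR, hRp, hRh⟩ := curve_form h hSp h12 h13 (by omega) hS2E hSq hP0.le hSg
    hb1 hbS hB hirr hBp hBσ' (by
      have h1 : H / n / 1000 < s * (H / n) := by
        have h2 : 0 < H / n := by positivity
        nlinarith
      have h2 : s * H / n = s * (H / n) := by ring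
      rw [h2]
      linarith) hbE
  refine ⟨r, R, by linarith, hR0, hR, ?_, ?_⟩
  · have h1 : (fun j : Fin 3 => X.p4 j.succ) = X.p := by
      funext j
      rfl
    rw [← h1]
    exact hRp
  · rw [← hP]
    exact hRh

end

end Pool.Agent.Lib.MP_44a246_ntSH
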