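import Mathlib
import Pool.Agent.Lib.MP_44a246_ntSH.B20
import Pool.Agent.Lib.MP_44a246_ntSH.PC7

/-!
Paper 619, section 5, (A4)-(A6): the plane curve, without the rows.
-/

namespace Pool.Agent.Lib.MP_44a246_ntSH

open Pool.Agent.Lib.MP_44a246_nt
open Pool.Agent.Lib.MP_44a246_ntL
open Pool.Agent.Lib.MP_44a246_ntS
open Pool.Agent.Lib.MP_44a246_ntF
open Pool.Agent.Lib.MP_44a246_ntO
open Pool.Agent.Lib.MP_44a246_ntX
open Pool.Agent.Lib.MP_44a246_ntR (genus)
open Pool.Agent.Lib.MP_e52354_nt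
open WithZero Module

universe u v

/-- **The plane curve** (paper 619, (A4)-(A6)), from a space with large slopes whose contractions
have small height; the rows are not needed, and the degree `d` need only be at least
`n / (6000 C₀)`. -/
theorem planeCurveO (C₀ ε : ℝ) (hC : 1000 ≤ C₀) (hε : 0 < ε) : ∃ (θ : ℝ) (n₀ C₁ : ℕ), 0 < θ ∧
    ∀ (n d : ℕ), n₀ ≤ n → (n : ℝ) / (6000 * C₀) ≤ d →
    ∀ (κ : Type u) (L : Type v) [Field κ] [IsAlgClosed κ] [CharZero κ] [Field L] [CharZero L]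
      [Algebra κ L] (_ : IsFF κ L) (X : DatP κ (L := L) n) (M E : ℝ), HypO κ X.x C₀ M E →
      (X.Δ : ℝ) ≤ E →
      ∀ (s : ℝ) (W : Submodule L (EX (n + 1) d → L)), 1 / 64 ≤ s → s ≤ C₀ →
        HasSl κ (s * height κ X.x / n) (xm d X.x) W →
        (∀ e : ℕ, 1 ≤ e → (e : ℝ) ≤ n / (6000 * C₀) →
          (ht κ (lam e W) : ℝ) ≤ θ * e ^ 2 * height κ X.x / n ∧
          (finrank L (lam e W) : ℝ) ≤ 1 + e * n / s) →
      ∃ (a : ℕ) (A : MvPolynomial (Fin 3) L), a ≤ C₁ * n ∧ A ≠ 0 ∧ A.IsHomogeneous a ∧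
        MvPolynomial.eval X.p A = 0 ∧ (C₁ * n * polyHeight κ A : ℝ) ≤ ε * height κ X.x := by
  obtain ⟨θ, hθ⟩ : ∃ θ : ℝ, θ = min (1 / 1000) (ε / 100000) := ⟨_, rfl⟩
  have hθ0 : 0 < θ := by
    rw [hθ]
    exact lt_min (by norm_num) (by positivity)
  have hθ1 : θ ≤ 1 / 1000 := by rw [hθ]; exact min_le_left _ _
  have hθ2 : θ ≤ ε / 100000 := by rw [hθ]; exact min_le_right _ _
  obtain ⟨N, hN⟩ : ∃ N : ℝ, N = (6144000 * C₀ + 3) ^ 3 := ⟨_, rfl⟩
  have hC0 : 0 < C₀ := by linarith only [hC, hθ0, hθ1]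
  have hN0 : 0 < N := by rw [hN]; positivity
  obtain ⟨Y, hY⟩ : ∃ Y : ℝ, Y = 60 * C₀ + 3328 * (6000 * C₀) ^ 2 + 64 / θ + 8 * C₀ * N + 8 * N :=
    ⟨_, rfl⟩
  have t1 : 0 < 60 * C₀ := by positivity
  have t2 : 0 < 3328 * (6000 * C₀) ^ 2 := by positivity
  have t3 : 0 < 64 / θ := by positivity
  have t4 : 0 < 8 * C₀ * N := by positivity
  have t5 : 0 < 8 * N := by positivity
  refine ⟨θ, ⌈Y⌉₊, 1664, hθ0, ?_⟩
  intro n d hn hnd κ L _ _ _ _ _ _ h X M E' hyp hΔE s W hs hsC hW hbd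
  have hnY : Y ≤ n := Nat.ceil_le.1 hn
  have hn60 : 60 * C₀ ≤ n := by linarith only [hN0, hY, t2, t3, t4, hnY]
  have hn2 : 3328 * (6000 * C₀) ^ 2 ≤ n := by linarith only [hC, hθ0, hθ1, hN0, hY, t3, t4, hnY]
  have hn3 : 64 / θ ≤ n := by linarith only [hC, hθ0, hθ1, hN0, hY, t2, t4, hnY]
  have hn4 : 8 * C₀ * N ≤ n := by linarith only [hC, hθ0, hθ1, hN0, hY, t2, t3, hnY]
  have hn5 : 8 * N ≤ n := by linarith only [hC, hθ0, hθ1, hY, t2, t3, t4, hnY]
  have hn1 : (1 : ℝ) ≤ n := by linarith only [hC, hθ0, hθ1, hN0, hY, t2, t3, t4, hnY]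
  have hn0 : (0 : ℝ) < n := by linarith only [hC, hθ0, hθ1, hN0, hY, t2, t3, t4, hnY]
  have hn1' : 1 ≤ n := by exact_mod_cast hn1
  have hs0 : 0 < s := by linarith only [hθ0, hθ1, hs]
  have hg0 : (0 : ℝ) ≤ genus κ L := Nat.cast_nonneg _
  have hpow : (n : ℝ) ^ 3 ≤ ((n : ℝ) + 2) ^ 20 :=
    (pow_le_pow_left₀ hn0.le (by linarith only [hθ0,
        hθ1]) 3).trans (pow_le_pow_right₀ (by linarith only [hC, hθ0, hθ1, hN0, hY, t2, t3, t4,
            hnY]) (by norm_num))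
  have hpow1 : (n : ℝ) ≤ ((n : ℝ) + 2) ^ 20 := by
    refine le_trans ?_ hpow
    calc (n : ℝ) = n ^ 1 := (pow_one _).symm
      _ ≤ n ^ 3 := pow_le_pow_right₀ hn1 (by norm_num)
  have hbig := hyp.big
  have hE'0 := hyp.hE
  have hHr : (1 : ℝ) ≤ height κ X.x := by
    refine le_trans ?_ hbig
    have h1 : (1 : ℝ) ≤ ((n : ℝ) + 2) ^ 20 := hn1.trans hpow1
    nlinarith only [hC, hθ1, hN, hY, hnY, hpow1, hE'0, hN0, hθ0, t3]
  have hHpos : (0 : ℝ) < height κ X.x := by linarith only [hθ0, hθ1, hHr]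
  have hH : 0 < height κ X.x := by exact_mod_cast hHpos
  obtain ⟨a, A, ha, hA0, hA, hAp, hAh⟩ := plane_aux h X (M := M) (θ := θ) (s := s)
    (E := n / (6000 * C₀)) (N := N) (q := n / s) hyp.ne hnd hn1' hyp.slope
    hyp.pos hW rfl hs (by
      rw [le_div_iff₀ hs0]
      nlinarith only [hN0, hY, t2, t3, t4, hsC, hnY]) (by
      rw [div_le_iff₀ (by positivity)]
      nlinarith only [hC, hθ0, hθ1, hN, hY, t2, t3, t4, hnY]) (by
      rw [div_pow, le_div_iff₀ (by positivity)]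
      nlinarith only [hC, hθ0, hθ1, hN, hY, t2, t3, t4, hnY, hN0]) (by positivity) hH hθ0 hθ1 (by
      rw [le_div_iff₀ hn0]
      have h1 : 64 ≤ θ * n := by
        rw [div_le_iff₀ hθ0] at hn3
        linarith only [hn3]
      have h2 : 64 * (n : ℝ) ^ 2 ≤ θ * ((n : ℝ) + 2) ^ 20 := by
        have h3 : 64 * (n : ℝ) ^ 2 ≤ θ * n * n ^ 2 :=
          mul_le_mul_of_nonneg_right h1 (by positivity)
        have h4 : θ * (n : ℝ) ^ 3 ≤ θ * ((n : ℝ) + 2) ^ 20 :=
          mul_le_mul_of_nonneg_left hpow hθ0.le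
        nlinarith only [h3, h4]
      have h3 : ((genus κ L : ℝ) + 1) * ((n : ℝ) + 2) ^ 20 ≤ height κ X.x := by
        refine le_trans ?_ hbig
        exact mul_le_mul_of_nonneg_right (by linarith only [hE'0]) (by positivity)
      calc 64 * (n : ℝ) * (genus κ L + 1) * n = 64 * (n : ℝ) ^ 2 * (genus κ L + 1) := by ring
        _ ≤ θ * ((n : ℝ) + 2) ^ 20 * (genus κ L + 1) :=
            mul_le_mul_of_nonneg_right h2 (by linarith only [hθ0, hθ1])
        _ = θ * (((genus κ L : ℝ) + 1) * ((n : ℝ) + 2) ^ 20) := by ring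
        _ ≤ θ * height κ X.x := mul_le_mul_of_nonneg_left h3 hθ0.le) (by
      intro b hb
      have h1 : (b : ℝ) ≤ 6144000 * C₀ := by
        rw [← mul_div_assoc, div_le_iff₀ (by positivity)] at hb
        have h2 : n * (b : ℝ) ≤ n * (6144000 * C₀) := by linarith only [hb]
        exact le_of_mul_le_mul_left h2 hn0
      rw [card_EX4_real, hN]
      have hb0 : (0 : ℝ) ≤ b := Nat.cast_nonneg _
      have h2 : ((b : ℝ) + 1) * (b + 2) * (b + 3) ≤ (b + 3) ^ 3 := by nlinarith only [hθ0, hθ1]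
      have h3 : ((b : ℝ) + 3) ^ 3 ≤ (6144000 * C₀ + 3) ^ 3 :=
        pow_le_pow_left₀ (by linarith only [hθ0, hθ1]) (by linarith only [h1]) 3
      have h4 : (0 : ℝ) ≤ ((b : ℝ) + 1) * (b + 2) * (b + 3) := by (clear * -; positivity)
      linarith only [hN, hN0, h2, h3]) (by
      have h1 := hyp.small
      have h2 : M * (8 * C₀ * N) ≤ M * n := mul_le_mul_of_nonneg_left hn4 hyp.pos
      have h3 : C₀ * (8 * (M * N)) ≤ C₀ * height κ X.x := by linarith only [h1, h2]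
      have h4 := le_of_mul_le_mul_left h3 hC0
      linarith only [hθ0, hθ1, hHr, h4]) (by
      have h1 : N * (height κ X.x / n) = N * height κ X.x / n := by ring
      rw [h1, div_le_iff₀ hn0]
      nlinarith only [hC, hθ1, hN, hY, hnY, hHr, hN0, hθ0, t3, t4]) (by
      have hΔ : (0 : ℝ) ≤ X.Δ := by
        have : (0 : ℤ) ≤ X.Δ := finsum_nonneg fun w => Int.natCast_nonneg _
        exact_mod_cast this
      have h1 : E' * ((n : ℝ) + 2) ^ 20 ≤ height κ X.x := by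
        refine le_trans ?_ hbig
        exact mul_le_mul_of_nonneg_right (by linarith only [hθ0, hθ1]) (by positivity)
      have h2 : N * X.Δ ≤ n / 8 * E' := by
        have h3 : N ≤ n / 8 := by linarith only [hC, hθ0, hθ1, hY, t2, t3, t4, hnY]
        exact mul_le_mul h3 hΔE hΔ (by positivity)
      have h3 : (n : ℝ) / 8 * E' ≤ ((n : ℝ) + 2) ^ 20 / 8 * E' :=
        mul_le_mul_of_nonneg_right (by linarith only [hpow1]) hE'0
      linarith only [h1, h2, h3]) hbd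
  refine ⟨a, A, ?_, hA0, hA, hAp, ?_⟩
  · exact_mod_cast ha
  · have h1 : ((1664 : ℕ) : ℝ) * n * polyHeight κ A ≤
        ((1664 : ℕ) : ℝ) * n * (53 * (θ * height κ X.x / n)) :=
      mul_le_mul_of_nonneg_left hAh (by positivity)
    refine h1.trans ?_
    have h2 : ((1664 : ℕ) : ℝ) * n * (53 * (θ * height κ X.x / n)) =
        88192 * θ * height κ X.x := by
      push_cast
      field_simp
      ring
    rw [h2]
    refine mul_le_mul_of_nonneg_right ?_ hHpos.le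
    linarith only [hθ0, hθ2]

end Pool.Agent.Lib.MP_44a246_ntSH
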