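import Mathlib
import Pool.Agent.Lib.MP_44a246_ntSH.H03
import Pool.Agent.Lib.MP_44a246_ntSH.PC8

/-!
Paper 619, section 5, (A4)-(A6): the plane curve.
-/

namespace Pool.Agent.Lib.MP_44a246_ntSH

open Pool.Agent.Lib.MP_44a246_nt
open Pool.Agent.Lib.MP_44a246_ntL
open Pool.Agent.Lib.MP_44a246_ntS
open Pool.Agent.Lib.MP_44a246_ntF
open Pool.Agent.Lib.MP_44a246_ntO
open Pool.Agent.Lib.MP_44a246_ntX
open Pool.Agent.Lib.MP_44a246_ntR (genus)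
open Pool.Agent.Lib.MP_e52354_nt
open WithZero Module

universe u v

/-- **The plane curve** (paper 619, (A4)-(A6)), from a space with large slopes whose contractions
have small height. -/
theorem planeCurve (C₀ ε : ℝ) (hC : 1000 ≤ C₀) (hε : 0 < ε) : ∃ (θ : ℝ) (n₀ C₁ : ℕ), 0 < θ ∧
    ∀ (n d : ℕ), n₀ ≤ n →
    ∀ (κ : Type u) (L : Type v) [Field κ] [IsAlgClosed κ] [CharZero κ] [Field L] [CharZero L]
      [Algebra κ L] (_ : IsFF κ L) (X : DatP κ (L := L) n) (M E : ℝ), Hyp κ X.x d C₀ M E →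
      (X.Δ : ℝ) ≤ E →
      ∀ (s : ℝ) (W : Submodule L (EX (n + 1) d → L)), 1 / 64 ≤ s → s ≤ C₀ →
        HasSl κ (s * height κ X.x / n) (xm d X.x) W →
        (∀ e : ℕ, 1 ≤ e → (e : ℝ) ≤ n / (6000 * C₀) →
          (ht κ (lam e W) : ℝ) ≤ θ * e ^ 2 * height κ X.x / n ∧
          (finrank L (lam e W) : ℝ) ≤ 1 + e * n / s) →
      ∃ (a : ℕ) (A : MvPolynomial (Fin 3) L), a ≤ C₁ * n ∧ A ≠ 0 ∧ A.IsHomogeneous a ∧
        MvPolynomial.eval X.p A = 0 ∧ (C₁ * n * polyHeight κ A : ℝ) ≤ ε * height κ X.x := by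
  obtain ⟨θ, n₀, C₁, hθ, h1⟩ := planeCurveO.{u, v} C₀ ε hC hε
  refine ⟨θ, n₀, C₁, hθ, fun n d hn κ L _ _ _ _ _ _ h X M E hyp hΔ s W hs hsC hW hbd => ?_⟩
  refine h1 n d hn ?_ κ L h X M E
    ⟨hyp.ne, hyp.slope, hyp.pos, hyp.small, hyp.hE, hyp.big⟩ hΔ s W hs hsC hW hbd
  have h2 : (n : ℝ) ≤ d := by
    have := hyp.hd
    exact_mod_cast (by omega : n ≤ d)
  exact (div_le_self (Nat.cast_nonneg n) (by linarith)).trans h2

end Pool.Agent.Lib.MP_44a246_ntSH
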