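import Mathlib
import Pool.Agent.Lib.MP_44a246_ntG.G1
import Pool.Agent.Lib.MP_44a246_ntSH.RW0
import Pool.Agent.Lib.MP_44a246_ntSH.RW8

/-!
# The data for the rows from the derivations dual to the coefficients (paper 619, section 3)
-/

namespace Pool.Agent.Lib.MP_44a246_ntSH

open Pool.Agent.Lib.MP_44a246_nt
open Pool.Agent.Lib.MP_44a246_ntL
open Pool.Agent.Lib.MP_44a246_ntS
open Pool.Agent.Lib.MP_44a246_ntX
open Pool.Agent.Lib.MP_44a246_ntG
open Pool.Agent.Lib.MP_44a246_ntF
open Pool.Agent.Lib.MP_44a246_ntO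
open Pool.Agent.Lib.MP_44a246_ntA
open Pool.Agent.Lib.MP_e52354_nt
open WithZero Module

section

variable {L : Type*} [Field L] {n d : ℕ}

/-- the form `grad H (X) · B X` -/
private noncomputable def Mlin (a : (Fin (n + 1) →₀ ℕ) → L) :
    Matrix (Fin (n + 1)) (Fin (n + 1)) L →ₗ[L] (EX (n + 1) d → L) where
  toFun B J := ∑ i, ∑ l, B i l * mm a i l J.1
  map_add' B B' := by
    funext J
    simp only [Matrix.add_apply, Pi.add_apply, add_mul, Finset.sum_add_distrib]
  map_smul' c B := by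
    funext J
    simp only [Matrix.smul_apply, Pi.smul_apply, smul_eq_mul, RingHom.id_apply, Finset.mul_sum,
      mul_assoc]

private theorem Mlin_apply (a : (Fin (n + 1) →₀ ℕ) → L)
    (B : Matrix (Fin (n + 1)) (Fin (n + 1)) L) (J : EX (n + 1) d) :
    Mlin a B J = ∑ i, ∑ l, B i l * mm a i l J.1 := rfl

private theorem Mlin_right (a : (Fin (n + 1) →₀ ℕ) → L)
    {P : EX (n + 1) d → Matrix (Fin (n + 1)) (Fin (n + 1)) L}
    (hP : ∀ i l i' l', ∑ J, mm a i l J.1 * P J i' l' = if i = i' ∧ l = l' then 1 else 0)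
    (B : Matrix (Fin (n + 1)) (Fin (n + 1)) L) :
    ∑ I : EX (n + 1) d, Mlin a B I • P I = B := by
  ext i' l'
  rw [Matrix.sum_apply]
  simp only [Matrix.smul_apply, smul_eq_mul, Mlin_apply, Finset.sum_mul]
  rw [Finset.sum_comm]
  have h1 : ∀ i : Fin (n + 1), ∑ I : EX (n + 1) d, ∑ l, B i l * mm a i l I.1 * P I i' l' =
      ∑ l, B i l * (if i = i' ∧ l = l' then 1 else 0) := by
    intro i
    rw [Finset.sum_comm]
    refine Finset.sum_congr rfl fun l _ => ?_
    rw [← hP i l i' l', Finset.mul_sum]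
    exact Finset.sum_congr rfl fun I _ => by ring
  rw [Finset.sum_congr rfl fun i _ => h1 i, Finset.sum_eq_single i', Finset.sum_eq_single l']
  · simp
  · intro l _ hl
    rw [if_neg fun h => hl h.2, mul_zero]
  · intro h
    exact absurd (Finset.mem_univ _) h
  · intro i _ hi
    refine Finset.sum_eq_zero fun l _ => ?_
    rw [if_neg fun h => hi h.1, mul_zero]
  · intro h
    exact absurd (Finset.mem_univ _) h

private theorem Mlin_mon (a : (Fin (n + 1) →₀ ℕ) → L)
    (B : Matrix (Fin (n + 1)) (Fin (n + 1)) L) (x : Fin (n + 1) → L) :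
    ∑ J : EX (n + 1) d, Mlin a B J * mon x J.1 = ∑ i, grad d a x i * B.mulVec x i := by
  simp only [Mlin_apply, Finset.sum_mul]
  rw [Finset.sum_comm]
  refine Finset.sum_congr rfl fun i _ => ?_
  rw [Finset.sum_comm]
  unfold Matrix.mulVec dotProduct
  rw [Finset.mul_sum]
  refine Finset.sum_congr rfl fun l _ => ?_
  have h1 := sum_mm_mon d a i l x
  have h2 : ∑ J : EX (n + 1) d, B i l * mm a i l J.1 * mon x J.1 =
      B i l * ∑ J : EX (n + 1) d, mm a i l J.1 * mon x J.1 := by
    rw [Finset.mul_sum]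
    exact Finset.sum_congr rfl fun J _ => by ring
  rw [h2, h1]
  ring

private theorem val_nat_le (v : Valuation L ℤᵐ⁰) (m : ℕ) : v (m : L) ≤ 1 := by
  induction m with
  | zero => simp
  | succ m ih =>
    rw [Nat.cast_succ]
    refine (v.map_add _ _).trans (max_le ih ?_)
    rw [map_one]

private theorem val_mm_le (v : Valuation L ℤᵐ⁰) {a : (Fin (n + 1) →₀ ℕ) → L} {c : ℤᵐ⁰}
    (ha : ∀ I ∈ expo (Fin (n + 1)) d, v (a I) ≤ c) (i l : Fin (n + 1)) {J : Fin (n + 1) →₀ ℕ}
    (hJ : J ∈ expo (Fin (n + 1)) d) : v (mm a i l J) ≤ c := by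
  unfold mm
  split_ifs with h
  · rw [map_zero]
    exact zero_le
  · rw [map_mul]
    have h1 : J - Finsupp.single l 1 + Finsupp.single i 1 ∈ expo (Fin (n + 1)) d :=
      shift_mem hJ h i
    calc _ ≤ 1 * c := mul_le_mul' (val_nat_le v _) (ha _ h1)
      _ = c := one_mul c

private theorem val_Mlin_le (v : Valuation L ℤᵐ⁰) {a : (Fin (n + 1) →₀ ℕ) → L} {c c' : ℤᵐ⁰}
    (ha : ∀ I ∈ expo (Fin (n + 1)) d, v (a I) ≤ c)
    {B : Matrix (Fin (n + 1)) (Fin (n + 1)) L} (hB : ∀ i l, v (B i l) ≤ c') (J : EX (n + 1) d) :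
    v (Mlin a B J) ≤ c' * c := by
  rw [Mlin_apply]
  refine Valuation.map_sum_le v fun i _ => Valuation.map_sum_le v fun l _ => ?_
  rw [map_mul]
  exact mul_le_mul' (hB i l) (val_mm_le v ha i l J.2)

end

private theorem sum_poles {κ L : Type*} [Field κ] [Field L] [Algebra κ L] {n d : ℕ}
    (X : DatG κ (L := L) n d) {τ : Place κ L → ℕ} (hτ : (Function.support τ).Finite) :
    ∑ᶠ w : Place κ L, ((X.δ w + X.ρ w + 2 * τ w : ℕ) : ℤ) =
      X.Δ + X.R + 2 * ∑ᶠ w, (τ w : ℤ) := by
  have f1 : (Function.support fun w => (X.δ w : ℤ)).Finite :=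
    X.hδ.subset fun w hw => by
      rw [Function.mem_support] at hw ⊢
      exact fun h => hw (by rw [h, Nat.cast_zero])
  have f2 : (Function.support fun w => (X.ρ w : ℤ)).Finite :=
    X.hρ.subset fun w hw => by
      rw [Function.mem_support] at hw ⊢
      exact fun h => hw (by rw [h, Nat.cast_zero])
  have f3 : (Function.support fun w => (τ w : ℤ)).Finite :=
    hτ.subset fun w hw => by
      rw [Function.mem_support] at hw ⊢
      exact fun h => hw (by rw [h, Nat.cast_zero])
  have f4 : (Function.support fun w => (X.δ w : ℤ) + (X.ρ w : ℤ)).Finite :=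
    (f1.union f2).subset (Function.support_add _ _)
  have f5 : (Function.support fun w => 2 * (τ w : ℤ)).Finite :=
    f3.subset fun w hw => by
      rw [Function.mem_support] at hw ⊢
      exact fun h => hw (by rw [h, mul_zero])
  have e1 : 2 * ∑ᶠ w : Place κ L, (τ w : ℤ) = ∑ᶠ w : Place κ L, 2 * (τ w : ℤ) :=
    mul_finsum (fun w : Place κ L => (τ w : ℤ)) 2
  have e2 := finsum_add_distrib f1 f2
  have e3 := finsum_add_distrib f4 f5
  have e4 : ∑ᶠ w : Place κ L, ((X.δ w + X.ρ w + 2 * τ w : ℕ) : ℤ) =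
      ∑ᶠ w : Place κ L, ((X.δ w : ℤ) + (X.ρ w : ℤ) + 2 * (τ w : ℤ)) :=
    finsum_congr fun w => by push_cast; ring
  unfold DatG.Δ DatG.R
  rw [e1, e4, e3, e2]

/-- **The data for the rows.**

Proof. `A I := P I`, `M B := fun J => ∑ i, ∑ l, B i l * mm X.a i l J.1`,
`D I := X.D I.1 - ∑ J, M (P I) J • X.D J.1`, `g := grad d X.a X.x`, `δ := X.δ + X.ρ + 2 τ`.
`hMA`: `∑ J, M B J * P J i' l' = ∑ i l, B i l * (if ..) = B i' l'`.
`hMD`: `∑ I, M B I • D I = ∑ I, M B I • X.D I - ∑ J, (M (∑ I, M B I • P I)) J • X.D J = 0` by the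
linearity of `M` and `hMA`.
`hg`: `sum_grad_mul` and `hF`.
`hrow`: `∑ i, g i * X.D J (x i) = - mon x J` (`grad_D`), and
`∑ J, M (P I) J * mon x J = ∑ i l, P I i l * (x l * g i) = ∑ i, g i * (P I).mulVec x i`
(`sum_mm_mon`).
`hD`: `X.D J` has poles of order at most `δ + ρ` (`X.hD w 1`, `Matrix.det_fin_one` or `det_unique`);
`w.1 (M (P I) J) ≤ exp (2 τ w)` because `w.1 (mm X.a i l J) ≤ exp (τ w)` (the exponent
`J - e_l + e_i` has degree `d` if `J l ≠ 0`; natural numbers have value at most `1`).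
`hx`: `X.x_ne_zero`. The finiteness and the sum: `finsum_add_distrib`, `mul_finsum`. -/
theorem exists_rowData {κ L : Type*} [Field κ] [IsAlgClosed κ] [CharZero κ] [Field L] [CharZero L]
    [Algebra κ L] {n d : ℕ} (X : DatG κ (L := L) n d) (hF : Fval d X.a X.x = 0)
    {P : EX (n + 1) d → Matrix (Fin (n + 1)) (Fin (n + 1)) L}
    (hP : ∀ i l i' l', ∑ J, mm X.a i l J.1 * P J i' l' = if i = i' ∧ l = l' then 1 else 0)
    {τ : Place κ L → ℕ} (hτ : (Function.support τ).Finite)
    (ha : ∀ w : Place κ L, ∀ I ∈ expo (Fin (n + 1)) d, w.1 (X.a I) ≤ exp (τ w : ℤ))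
    (hPτ : ∀ (w : Place κ L) J i l, w.1 (P J i l) ≤ exp (τ w : ℤ)) :
    ∃ R : RowData κ (L := L) n d, R.x = X.x ∧
      R.Δ = X.Δ + X.R + 2 * ∑ᶠ w, (τ w : ℤ) := by
  have hpole : ∀ (J : EX (n + 1) d) (w : Place κ L) (y : L), w.1 y ≤ 1 →
      w.1 (X.D J.1 y) ≤ exp ((X.δ w + X.ρ w : ℕ) : ℤ) := by
    intro J w y hy
    have h1 := X.hD w 1 (fun _ => J.1) (fun _ => y) (fun _ => J.2) (fun _ => hy)
    rw [Matrix.det_fin_one, Matrix.of_apply, one_mul] at h1
    exact h1
  have hMP : ∀ (I J : EX (n + 1) d) (w : Place κ L),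
      w.1 (Mlin X.a (P I) J) ≤ exp ((2 * τ w : ℕ) : ℤ) := by
    intro I J w
    refine (val_Mlin_le w.1 (ha w) (hPτ w I) J).trans (le_of_eq ?_)
    rw [← exp_add]
    congr 1
    push_cast
    ring
  refine ⟨{ x := X.x
            D := fun I => X.D I.1 - ∑ J : EX (n + 1) d, Mlin X.a (P I) J • X.D J.1
            A := P
            M := Mlin X.a
            g := grad d X.a X.x
            δ := fun w => X.δ w + X.ρ w + 2 * τ w
            hδ := ?_
            hD := ?_
            hA := ?_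
            hx := X.x_ne_zero
            hg := ?_
            hrow := ?_
            hMD := ?_
            hMA := Mlin_right X.a hP }, rfl, ?_⟩
  · refine ((X.hδ.union X.hρ).union hτ).subset fun w hw => ?_
    rw [Function.mem_support] at hw
    by_contra hcon
    simp only [Set.mem_union, Function.mem_support, not_or, not_not] at hcon
    apply hw
    simp only [hcon.1.1, hcon.1.2, hcon.2, mul_zero, add_zero]
  · intro I w y hy
    rw [Derivation.sub_apply]
    refine (Valuation.map_sub _ _ _).trans (max_le ?_ ?_)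
    · refine (hpole I w y hy).trans ?_
      rw [exp_le_exp]
      push_cast
      omega
    · have h1 : (∑ J : EX (n + 1) d, Mlin X.a (P I) J • X.D J.1) y =
          ∑ J : EX (n + 1) d, Mlin X.a (P I) J * X.D J.1 y := by
        rw [← Derivation.coeFnAddMonoidHom_apply, map_sum, Finset.sum_apply]
        rfl
      rw [h1]
      refine Valuation.map_sum_le _ fun J _ => ?_
      rw [map_mul]
      refine (mul_le_mul' (hMP I J w) (hpole J w y hy)).trans (le_of_eq ?_)
      rw [← exp_add]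
      congr 1
      push_cast
      ring
  · intro w I i j
    refine (hPτ w I i j).trans ?_
    rw [exp_le_exp]
    push_cast
    omega
  · rw [sum_grad_mul, hF, mul_zero]
  · intro I
    have h1 : ∀ J : EX (n + 1) d, ∑ i, grad d X.a X.x i * X.D J.1 (X.x i) = - mon X.x J.1 :=
      fun J => grad_D X.hDa hF J.2
    have h2 := Mlin_mon (d := d) X.a (P I) X.x
    have h3 : ∀ i, (X.D I.1 - ∑ J : EX (n + 1) d, Mlin X.a (P I) J • X.D J.1) (X.x i) =
        X.D I.1 (X.x i) - ∑ J : EX (n + 1) d, Mlin X.a (P I) J * X.D J.1 (X.x i) := by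
      intro i
      rw [Derivation.sub_apply]
      congr 1
      rw [← Derivation.coeFnAddMonoidHom_apply, map_sum, Finset.sum_apply]
      rfl
    unfold dv xm
    simp only [h3, mul_sub, Finset.sum_sub_distrib]
    rw [h1 I, ← h2]
    have h4 : ∑ i, grad d X.a X.x i * ∑ J : EX (n + 1) d, Mlin X.a (P I) J * X.D J.1 (X.x i) =
        - ∑ J : EX (n + 1) d, Mlin X.a (P I) J * mon X.x J.1 := by
      simp only [Finset.mul_sum]
      rw [Finset.sum_comm, ← Finset.sum_neg_distrib]
      refine Finset.sum_congr rfl fun J _ => ?_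
      rw [← mul_neg, ← h1 J, Finset.mul_sum]
      exact Finset.sum_congr rfl fun i _ => by ring
    rw [h4]
    ring
  · intro B
    simp only [smul_sub, Finset.sum_sub_distrib, Finset.smul_sum, smul_smul]
    rw [Finset.sum_comm (s := (Finset.univ : Finset (EX (n + 1) d)))]
    simp only [← Finset.sum_smul]
    have h1 : ∀ J : EX (n + 1) d, ∑ I : EX (n + 1) d, Mlin X.a B I * Mlin X.a (P I) J =
        Mlin X.a B J := by
      intro J
      have h2 := congrArg (Mlin (d := d) X.a) (Mlin_right X.a hP B)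
      rw [map_sum] at h2
      have h3 := congrFun h2 J
      rw [Finset.sum_apply] at h3
      rw [← h3]
      refine Finset.sum_congr rfl fun I _ => ?_
      rw [map_smul, Pi.smul_apply, smul_eq_mul]
    simp only [h1]
    rw [sub_self]
  · exact sum_poles X hτ

end Pool.Agent.Lib.MP_44a246_ntSH
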