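import Mathlib
import Pool.Agent.Lib.MP_44a246_ntO.O04
import Pool.Agent.Lib.MP_44a246_ntA.P01b
import Pool.Agent.Lib.MP_44a246_ntSH.RW0

/-!
# The space of the rows of the point (paper 619, section 3)
-/

namespace Pool.Agent.Lib.MP_44a246_ntSH

open Pool.Agent.Lib.MP_44a246_nt
open Pool.Agent.Lib.MP_44a246_ntL
open Pool.Agent.Lib.MP_44a246_ntS
open Pool.Agent.Lib.MP_44a246_ntF
open Pool.Agent.Lib.MP_44a246_ntO
open Pool.Agent.Lib.MP_44a246_ntA
open Pool.Agent.Lib.MP_e52354_nt
open WithZero Module

namespace RowData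

section

variable {κ L : Type*} [Field κ] [Field L] [Algebra κ L] {n d : ℕ} (X : RowData κ (L := L) n d)

/-- the rows of the point as a linear map of the functional -/
noncomputable def r1L : (Fin (n + 1) → L) →ₗ[L] (EX (n + 1) d → L) where
  toFun := X.r1
  map_add' y y' := by
    funext I
    simp only [r1, Pi.add_apply, add_mul, Finset.sum_add_distrib]
  map_smul' c y := by
    funext I
    simp only [r1, Pi.smul_apply, smul_eq_mul, RingHom.id_apply, Finset.mul_sum]
    exact Finset.sum_congr rfl fun i _ => by ring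

theorem r1L_apply (y : Fin (n + 1) → L) : X.r1L y = X.r1 y := rfl

/-- Proof: the set is the image of the subspace `orth`. -/
theorem U_eq : X.U = (orth (Submodule.span L {X.x})).map X.r1L := by
  apply le_antisymm
  · unfold U
    rw [Submodule.span_le]
    rintro u ⟨y, hy, rfl⟩
    exact ⟨y, hy, rfl⟩
  · rintro u ⟨y, hy, rfl⟩
    exact Submodule.subset_span ⟨y, hy, rfl⟩

/-- Proof: `xm d x = - r1 g` by `hrow`, and `g ∈ orth (span {x})` by `hg`, `mem_orth_single`. -/
theorem xm_mem_U : xm d X.x ∈ X.U := by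
  have h1 : X.g ∈ orth (Submodule.span L {X.x}) := mem_orth_single.2 X.hg
  have h2 : xm d X.x = X.r1 (-X.g) := by
    funext I
    have h3 := X.hrow I
    simp only [r1, Pi.neg_apply, neg_mul, Finset.sum_neg_distrib]
    rw [h3, neg_neg]
  rw [h2]
  exact Submodule.subset_span ⟨-X.g, Submodule.neg_mem _ h1, rfl⟩

/-- Proof: `U_eq`, `Submodule.finrank_map_le`, `finrank_orth` (P01), `finrank_span_singleton`. -/
theorem finrank_U_le : finrank L X.U ≤ n := by
  rw [U_eq]
  refine (Submodule.finrank_map_le _ _).trans ?_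
  have h1 := finrank_orth (Submodule.span L {X.x})
  rw [finrank_span_singleton X.hx, Fintype.card_fin] at h1
  omega

end

section

variable {κ L : Type*} [Field κ] [IsAlgClosed κ] [CharZero κ] [Field L] [Algebra κ L] {n d : ℕ}
  (X : RowData κ (L := L) n d)

/-- **The height of the space of the rows of the point.**

Proof. `ht_mapw` (ntO/O04) for `T = r1L`, `B = orth (span {x})`, `A = B ⊓ ker r1L`, `A' = ⊥`,
`τ w = log (vmax w.1 x) + δ w`, and at the place `w` the matrix
`Tw w I i = x j * dv (D I) (A I) (fun l => x l / x j) i`, where `w.1 (x j) = vmax w.1 x`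
(`exists_vmax`): for `b ∈ B`: `x i = x j * (x i / x j)`,
`dv (D I) (A I) x i = D I (x j) * (x i / x j) + x j * dv (D I) (A I) (x / x j) i`
(`Derivation.leibniz`, `Matrix.mulVec_smul`), and `∑ i, b i * (x i / x j) = 0`. Its entries are at
most `vmax w.1 x * exp (δ w)`: `hD` for `D I (x i / x j)` (`w.1 (x i / x j) ≤ 1`), and
`(A I).mulVec (x / x j)` is bounded by `hA` (`Valuation.map_sum_le`).
`ht κ B = ht κ (span {x}) = height κ x` (`ht_orth`, `ht_single`), `finrank B = n`,
`ht κ A ≥ 0` (`ht_nonneg`), `finrank B - finrank A ≤ n`, `∑ τ = height κ x + Δ`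
(`finsum_add_distrib`, `h.vmax_support`), `height κ x ≥ 0` (`h.height_nonneg`), `ht_bot`. -/
theorem ht_U_le (h : IsFF κ L) :
    ht κ X.U ≤ (n + 1) * height κ X.x + n * X.Δ := by
  classical
  have hx := X.hx
  have hxj : ∀ w : Place κ L, ∃ l, X.x l ≠ 0 ∧ vmax w.1 X.x = w.1 (X.x l) ∧
      ∀ k, w.1 (X.x k) ≤ w.1 (X.x l) := fun w => exists_vmax w.1 hx
  choose j hj0 hjv hjm using hxj
  set q : Place κ L → Fin (n + 1) → L := fun w l => X.x l / X.x (j w) with hq
  have hxq : ∀ w, X.x = X.x (j w) • q w := by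
    intro w
    funext l
    rw [Pi.smul_apply, smul_eq_mul, hq]
    simp only
    rw [mul_div_cancel₀ _ (hj0 w)]
  have hq1 : ∀ (w : Place κ L) l, w.1 (q w l) ≤ 1 := by
    intro w l
    rw [hq]
    simp only
    rw [map_div₀]
    exact div_le_one_of_le₀ (hjm w l) zero_le
  set B : Submodule L (Fin (n + 1) → L) := orth (Submodule.span L {X.x}) with hB
  set Tw : Place κ L → Matrix (EX (n + 1) d) (Fin (n + 1)) L := fun w =>
    Matrix.of fun I i => X.x (j w) * dv (X.D I) (X.A I) (q w) i with hTwd
  set τ : Place κ L → ℤ := fun w => log (vmax w.1 X.x) + (X.δ w : ℤ) with hτd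
  have hδ' : (Function.support fun w => (X.δ w : ℤ)).Finite := by
    refine X.hδ.subset fun w hw h => hw ?_
    simp only
    rw [h]
    rfl
  have hτ : (Function.support τ).Finite :=
    ((h.vmax_support hx).union hδ').subset (Function.support_add _ _)
  have hTw : ∀ (w : Place κ L) k m, w.1 (Tw w k m) ≤ exp (τ w) := by
    intro w I i
    have h1 : w.1 (dv (X.D I) (X.A I) (q w) i) ≤ exp (X.δ w : ℤ) := by
      unfold dv
      refine (w.1.map_sub _ _).trans (max_le (X.hD I w _ (hq1 w i)) ?_)
      unfold Matrix.mulVec dotProduct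
      refine w.1.map_sum_le fun l _ => ?_
      rw [map_mul]
      calc w.1 (X.A I i l) * w.1 (q w l) ≤ exp (X.δ w : ℤ) * 1 :=
            mul_le_mul' (X.hA w I i l) (hq1 w l)
        _ = _ := mul_one _
    have h2 : vmax w.1 X.x ≠ 0 := by
      rw [Ne, vmax_eq_zero_iff]
      exact hx
    rw [hτd, hTwd]
    simp only [Matrix.of_apply]
    rw [map_mul, exp_add, exp_log h2, hjv w]
    exact mul_le_mul' le_rfl h1
  have hT : ∀ w, ∀ b ∈ B, (Tw w).mulVec b = X.r1L b := by
    intro w b hb
    have hb' := mem_orth_single.1 hb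
    funext I
    rw [r1L_apply]
    unfold Matrix.mulVec dotProduct r1
    have h1 : ∀ i, dv (X.D I) (X.A I) X.x i =
        X.x (j w) * dv (X.D I) (X.A I) (q w) i + X.D I (X.x (j w)) * q w i := by
      intro i
      have h2 : (X.A I).mulVec X.x i = X.x (j w) * (X.A I).mulVec (q w) i := by
        conv_lhs => rw [hxq w]
        rw [Matrix.mulVec_smul, Pi.smul_apply, smul_eq_mul]
      have h3 : X.D I (X.x i) = X.x (j w) * X.D I (q w i) + q w i * X.D I (X.x (j w)) := by
        conv_lhs => rw [hxq w]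
        rw [Pi.smul_apply, smul_eq_mul, Derivation.leibniz, smul_eq_mul, smul_eq_mul]
      unfold dv
      rw [h2, h3]
      ring
    have h4 : ∑ i, b i * q w i = 0 := by
      have h5 : X.x (j w) * ∑ i, b i * q w i = 0 := by
        rw [Finset.mul_sum, ← hb']
        refine Finset.sum_congr rfl fun i _ => ?_
        have h6 : X.x i = X.x (j w) * q w i := by
          conv_lhs => rw [hxq w]
          rfl
        rw [h6]
        ring
      exact (mul_eq_zero.1 h5).resolve_left (hj0 w)
    calc ∑ i, Tw w I i * b i = ∑ i, b i * (X.x (j w) * dv (X.D I) (X.A I) (q w) i) := by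
          refine Finset.sum_congr rfl fun i _ => ?_
          rw [hTwd]
          simp only [Matrix.of_apply]
          ring
      _ = ∑ i, b i * (X.x (j w) * dv (X.D I) (X.A I) (q w) i) +
            X.D I (X.x (j w)) * ∑ i, b i * q w i := by rw [h4, mul_zero, add_zero]
      _ = ∑ i, b i * dv (X.D I) (X.A I) X.x i := by
          rw [Finset.mul_sum, ← Finset.sum_add_distrib]
          refine Finset.sum_congr rfl fun i _ => ?_
          rw [h1 i]
          ring
  have key := ht_mapw h X.r1L Tw hτ hTw (A := B ⊓ LinearMap.ker X.r1L) (B := B) (A' := ⊥)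
    hT inf_le_left (by
      rintro u ⟨y, hy, rfl⟩
      rw [Submodule.mem_bot]
      exact hy.2) (fun b hb hb' => ⟨hb, by
        rw [Submodule.mem_bot] at hb'
        exact hb'⟩)
  have hsum : ∑ᶠ w, τ w = height κ X.x + X.Δ := by
    rw [hτd, finsum_add_distrib (h.vmax_support hx) hδ']
    rfl
  have hfB : finrank L B = n := by
    have h1 := finrank_orth (Submodule.span L {X.x})
    rw [finrank_span_singleton X.hx, Fintype.card_fin] at h1
    rw [hB]
    omega
  have hh := h.height_nonneg hx
  have hΔ : 0 ≤ X.Δ := finsum_nonneg fun w => Int.natCast_nonneg _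
  have hA := ht_nonneg h (B ⊓ LinearMap.ker X.r1L)
  rw [hsum, ht_bot h, bot_sup_eq, ← U_eq, hB, ht_orth h, ht_single h hx, ← hB, hfB] at key
  have h9 : (0 : ℤ) ≤ finrank L ↥(B ⊓ LinearMap.ker X.r1L) := Int.natCast_nonneg _
  nlinarith

end

end RowData

end Pool.Agent.Lib.MP_44a246_ntSH
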