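import Mathlib
import Pool.Agent.Lib.MP_44a246_ntSH.RW1
import Pool.Agent.Lib.MP_44a246_ntSH.RW3
import Pool.Agent.Lib.MP_44a246_ntSH.SRel

/-!
# The height of the space of the rows (paper 619, (3a))
-/

namespace Pool.Agent.Lib.MP_44a246_ntSH

open Pool.Agent.Lib.MP_44a246_nt
open Pool.Agent.Lib.MP_44a246_ntL
open Pool.Agent.Lib.MP_44a246_ntS
open Pool.Agent.Lib.MP_44a246_ntF
open Pool.Agent.Lib.MP_44a246_ntO
open Pool.Agent.Lib.MP_44a246_ntA
open Pool.Agent.Lib.MP_44a246_ntR (genus)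
open Pool.Agent.Lib.MP_e52354_nt
open WithZero Module

namespace RowData

variable {κ L : Type*} [Field κ] [IsAlgClosed κ] [CharZero κ] [Field L] [Algebra κ L] {n d e : ℕ}
  (X : RowData κ (L := L) n d)

private theorem gla_bound (w : Place κ L) {D : ℤ} {B : Matrix (Fin (n + 1)) (Fin (n + 1)) L}
    (hB : ∀ i j, w.1 (B i j) ≤ exp D) {q : EX (n + 1) (e + 1) → L} (hq : ∀ J, w.1 (q J) ≤ 1)
    (J : EX (n + 1) (e + 1)) : w.1 (gla B q J) ≤ exp D := by
  rw [gla_apply]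
  refine w.1.map_sum_le fun i _ => ?_
  rw [map_mul]
  have h1 : w.1 (B.mulVec (cm (dn i J) q) i) ≤ exp D := by
    unfold Matrix.mulVec dotProduct
    refine w.1.map_sum_le fun l _ => ?_
    rw [map_mul, cm_apply]
    calc w.1 (B i l) * w.1 (q (up l (dn i J))) ≤ exp D * 1 := mul_le_mul' (hB i l) (hq _)
      _ = _ := mul_one _
  calc w.1 ((J.1 i : ℕ) : L) * w.1 (B.mulVec (cm (dn i J) q) i) ≤ 1 * exp D :=
        mul_le_mul' (v_nat w.1 _) h1
    _ = _ := one_mul _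

private theorem dF_bound (w : Place κ L) {q : EX (n + 1) (e + 1) → L}
    (hq : ∀ J, w.1 (q J) ≤ 1) {m : EX (n + 1) d → L} {τ : ℤ}
    (hm : ∀ I, w.1 (m I) ≤ exp τ) (J : EX (n + 1) (e + 1)) :
    w.1 (X.dF m q J) ≤ exp (τ + X.δ w) := by
  unfold dF
  refine w.1.map_sum_le fun I _ => ?_
  rw [map_mul, exp_add]
  refine mul_le_mul' (hm I) ?_
  unfold dd
  exact (w.1.map_sub _ _).trans (max_le (X.hD I w _ (hq J)) (gla_bound w (X.hA w I) hq J))

private theorem dF_zero (F : EX (n + 1) d → L) :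
    X.dF F (0 : EX (n + 1) (e + 1) → L) = 0 := by
  have h1 := X.dF_add F (0 : EX (n + 1) (e + 1) → L) 0
  rw [add_zero] at h1
  exact left_eq_add.1 h1

private theorem dF_comb (F : EX (n + 1) d → L) {ρ : ℕ} (c : Fin ρ → L)
    (q : Fin ρ → EX (n + 1) (e + 1) → L) :
    X.dF F (∑ i, c i • q i) = ∑ i, (∑ I, F I * X.D I (c i)) • q i + ∑ i, c i • X.dF F (q i) := by
  have h1 : ∀ s : Finset (Fin ρ), X.dF F (∑ i ∈ s, c i • q i) =
      ∑ i ∈ s, (∑ I, F I * X.D I (c i)) • q i + ∑ i ∈ s, c i • X.dF F (q i) := by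
    classical
    intro s
    induction s using Finset.induction_on with
    | empty => simp only [Finset.sum_empty, add_zero, dF_zero]
    | insert a s ha ih =>
      rw [Finset.sum_insert ha, Finset.sum_insert ha, Finset.sum_insert ha, dF_add, ih, dF_smul]
      abel
  exact h1 Finset.univ

private theorem dF_sub_form (m F : EX (n + 1) d → L) (b G : EX (n + 1) (e + 1) → L) :
    ∑ J, (X.dF m b - X.dF F b) J * G J = ∑ I, m I * X.r2 b G I - ∑ I, F I * X.r2 b G I := by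
  rw [r2_eq, r2_eq, ← Finset.sum_sub_distrib]
  refine Finset.sum_congr rfl fun J _ => ?_
  rw [Pi.sub_apply]
  ring

/-- the local matrix: at a place, `q` a reduced basis of `Λ` with the pivots `p`, `m` the local
representative of the form: the column `p i` is the image of `q i`, the other columns vanish.

Proof: `Tw J K = ∑ i, if K = p i then X.dF m (q i) J else 0`. Bounds: `dF m (q i) J =
∑ I, m I * (D I (q i J) - gla (A I) (q i) J)`; `hD`, `hA`, natural numbers have value at most `1`,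
`exp (τ + δ) = exp τ * exp δ`. -/
theorem exists_Tw (w : Place κ L) {ρ : ℕ} {q : Fin ρ → EX (n + 1) (e + 1) → L}
    (hq : ∀ i J, w.1 (q i J) ≤ 1) {p : Fin ρ → EX (n + 1) (e + 1)}
    (hp : ∀ i j, q i (p j) = if i = j then 1 else 0) {m : EX (n + 1) d → L} {τ : ℤ}
    (hm : ∀ I, w.1 (m I) ≤ exp τ) :
    ∃ T : Matrix (EX (n + 1) (e + 1)) (EX (n + 1) (e + 1)) L,
      (∀ J K, w.1 (T J K) ≤ exp (τ + X.δ w)) ∧
      ∀ c : Fin ρ → L, T.mulVec (∑ i, c i • q i) = ∑ i, c i • X.dF m (q i) := by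
  classical
  refine ⟨Matrix.of fun J K => ∑ i, if K = p i then X.dF m (q i) J else 0, ?_, ?_⟩
  · intro J K
    rw [Matrix.of_apply]
    refine w.1.map_sum_le fun i _ => ?_
    by_cases h1 : K = p i
    · rw [if_pos h1]
      exact X.dF_bound w (hq i) hm J
    · rw [if_neg h1, map_zero]
      exact zero_le
  · intro c
    funext J
    rw [Finset.sum_apply]
    unfold Matrix.mulVec dotProduct
    have h1 : ∀ K, (Matrix.of fun J K => ∑ i, if K = p i then X.dF m (q i) J else 0) J K *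
        (∑ i, c i • q i) K = ∑ i, if K = p i then X.dF m (q i) J * (∑ j, c j * q j K) else 0 := by
      intro K
      rw [Matrix.of_apply, Finset.sum_mul, Finset.sum_apply]
      refine Finset.sum_congr rfl fun i _ => ?_
      simp only [Pi.smul_apply, smul_eq_mul]
      split_ifs
      · rfl
      · rw [zero_mul]
    rw [Finset.sum_congr rfl fun K _ => h1 K, Finset.sum_comm]
    refine Finset.sum_congr rfl fun i _ => ?_
    rw [Finset.sum_ite_eq' Finset.univ (p i), if_pos (Finset.mem_univ _)]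
    have h2 : ∑ j, c j * q j (p i) = c i := by
      rw [Finset.sum_eq_single i]
      · rw [hp, if_pos rfl, mul_one]
      · intro j _ hj
        rw [hp, if_neg hj, mul_zero]
      · intro h
        exact absurd (Finset.mem_univ _) h
    rw [h2, Pi.smul_apply, smul_eq_mul, mul_comm]

/-- **The slope inequality.**

Proof. (0) For `y ∈ orth (span {x})`, `X.r1 y ∈ X.U`, so
`∑ I, F I * X.r1 y I = 0` and `dF_xm_mem` (RW3) applies.
(1) Let `q i` be a basis of `Λ` (`SB2b_basis`) and `T` a linear map with `T (q i) = X.dF F (q i)`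
(for instance extend the map given on the basis of `Λ` by `LinearMap.exists_extend`). For
`b = ∑ c i • q i`: `X.dF F b - T b = ∑ (∑ I, F I * X.D I (c i)) • q i ∈ Λ` (`dF_add`, `dF_smul`).
(2) `A := Λ ⊓ Λ'.comap T` contains `xm (e+1) x`: `dF F (xm ..) ∈ span {xm ..} ≤ Λ ≤ Λ'` and (1).
(3) For `w` let `m` be as in `hm`, `g`, `p` as in `exists_red` for `q` at `w`, `q' i := ∑ j, g i j • q j`
(a basis of `Λ`, `Red`), and `Tw w` the matrix of `exists_Tw` for `q'`. For `b ∈ Λ`: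
`(Tw w) b - X.dF m b ∈ Λ` (as in (1)); `X.dF m b - X.dF F b ∈ Λ'` because for `G ∈ orth Λ'`:
`∑ J, G J * (X.dF m b - X.dF F b) J = ∑ I, (m I - F I) * X.r2 b G I = 0` (`r2_eq`; `X.r2 b G` is in
`X.W Λ Λ'`), and `orth (orth Λ') = Λ'` (`orth_orth`). So `(Tw w) b - T b ∈ Λ'`.
(4) `ht_mapw_mod` (RW1) with `A`, `B = Λ`, `A' = Λ'`, `τ w + δ w`; `finrank_sup_map`:
`finrank (Λ' ⊔ Λ.map T) - finrank Λ' = finrank Λ - finrank A =: r`; `r > 0`: otherwise `A = Λ`,
`X.dF F q ∈ Λ'` for all `q ∈ Λ`, so `∑ I, F I * X.r2 q G I = 0` (`r2_eq`) for `G ∈ orth Λ'`, and `F`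
vanishes on `X.W Λ Λ'` (span induction), against `hFW`. `hΛ.le A`: `t r ≤ ht A - ht Λ`;
`hΛ' (Λ' ⊔ Λ.map T)`: `ht Λ' - ht (Λ' ⊔ Λ.map T) ≤ t' r`. Add and divide by `r`. -/
theorem rows_slope (h : IsFF κ L) {t t' : ℝ} {Λ Λ' : Submodule L (EX (n + 1) (e + 1) → L)}
    (hΛ : HasSl κ t (xm (e + 1) X.x) Λ) (hle : Λ ≤ Λ')
    (hΛ' : ∀ Γ, Λ' ≤ Γ → (ht κ Λ' : ℝ) - ht κ Γ ≤ t' * ((finrank L Γ : ℝ) - finrank L Λ'))
    {F : EX (n + 1) d → L} (hFU : ∀ u ∈ X.U, ∑ I, F I * u I = 0)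
    (hFW : ∃ u ∈ X.W Λ Λ', ∑ I, F I * u I ≠ 0) {τ : Place κ L → ℤ}
    (hτ : (Function.support τ).Finite)
    (hm : ∀ w : Place κ L, ∃ m : EX (n + 1) d → L, (∀ I, w.1 (m I) ≤ exp (τ w)) ∧
      ∀ u ∈ X.W Λ Λ', ∑ I, m I * u I = ∑ I, F I * u I) :
    t - t' ≤ ((∑ᶠ w, τ w : ℤ) : ℝ) + X.Δ := by
  classical
  -- (0)
  have h0 : X.dF F (xm (e + 1) X.x) ∈ Submodule.span L {xm (e + 1) X.x} :=
    X.dF_xm_mem fun y hy => hFU _ (Submodule.subset_span ⟨y, hy, rfl⟩)
  have h0Λ : X.dF F (xm (e + 1) X.x) ∈ Λ := by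
    refine (Submodule.span_le.2 ?_) h0
    rw [Set.singleton_subset_iff]
    exact hΛ.mem
  -- (1)
  obtain ⟨q, hq, hqs⟩ := SB2b_basis Λ
  obtain ⟨T, hT⟩ : ∃ T : (EX (n + 1) (e + 1) → L) →ₗ[L] (EX (n + 1) (e + 1) → L),
      ∀ i, T (q i) = X.dF F (q i) := by
    obtain ⟨T, hT⟩ := LinearMap.exists_extend
      ((Finsupp.linearCombination L fun i => X.dF F (q i)).comp
        (hq.repr : Submodule.span L (Set.range q) →ₗ[L] (Fin (finrank L Λ) →₀ L)))
    refine ⟨T, fun i => ?_⟩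
    have h1 : q i ∈ Submodule.span L (Set.range q) := Submodule.subset_span ⟨i, rfl⟩
    have h2 := congrArg (fun f => f ⟨q i, h1⟩) hT
    simp only [LinearMap.comp_apply, Submodule.subtype_apply] at h2
    rw [h2]
    have h3 : (hq.repr : Submodule.span L (Set.range q) →ₗ[L] (Fin (finrank L Λ) →₀ L))
        ⟨q i, h1⟩ = Finsupp.single i 1 := hq.repr_eq_single i ⟨q i, h1⟩ rfl
    rw [h3, Finsupp.linearCombination_single, one_smul]
  have hcomb : ∀ b ∈ Λ, ∃ c : Fin (finrank L Λ) → L, ∑ i, c i • q i = b := by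
    intro b hb
    rw [← hqs] at hb
    exact (Submodule.mem_span_range_iff_exists_fun L).1 hb
  have hqΛ : ∀ i, q i ∈ Λ := fun i => by
    have h1 : q i ∈ Submodule.span L (Set.range q) := Submodule.subset_span ⟨i, rfl⟩
    rwa [hqs] at h1
  have h1 : ∀ b ∈ Λ, X.dF F b - T b ∈ Λ := by
    intro b hb
    obtain ⟨c, rfl⟩ := hcomb b hb
    rw [dF_comb, map_sum]
    have h2 : ∑ i, T (c i • q i) = ∑ i, c i • X.dF F (q i) :=
      Finset.sum_congr rfl fun i _ => by rw [map_smul, hT]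
    rw [h2, add_sub_cancel_right]
    exact Submodule.sum_mem _ fun i _ => Submodule.smul_mem _ _ (hqΛ i)
  -- (2)
  obtain ⟨A, hAdef⟩ : ∃ A : Submodule L (EX (n + 1) (e + 1) → L), A = Λ ⊓ Λ'.comap T := ⟨_, rfl⟩
  have hAΛ : A ≤ Λ := by rw [hAdef]; exact inf_le_left
  have hxA : xm (e + 1) X.x ∈ A := by
    rw [hAdef]
    refine ⟨hΛ.mem, ?_⟩
    show T (xm (e + 1) X.x) ∈ Λ'
    have h2 : T (xm (e + 1) X.x) = X.dF F (xm (e + 1) X.x) -
        (X.dF F (xm (e + 1) X.x) - T (xm (e + 1) X.x)) := (sub_sub_cancel _ _).symm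
    rw [h2]
    exact hle (Submodule.sub_mem _ h0Λ (h1 _ hΛ.mem))
  have hAT : A.map T ≤ Λ' := by
    rintro y ⟨a, ha, rfl⟩
    rw [hAdef] at ha
    exact ha.2
  have hinj : ∀ b ∈ Λ, T b ∈ Λ' → b ∈ A := by
    intro b hb hb'
    rw [hAdef]
    exact ⟨hb, hb'⟩
  -- (3)
  have h3 : ∀ w : Place κ L, ∃ Tw : Matrix (EX (n + 1) (e + 1)) (EX (n + 1) (e + 1)) L,
      (∀ J K, w.1 (Tw J K) ≤ exp (τ w + X.δ w)) ∧ ∀ b ∈ Λ, Tw.mulVec b - T b ∈ Λ' := by
    intro w
    obtain ⟨m, hm1, hm2⟩ := hm w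
    obtain ⟨g, p, hg, hred⟩ := exists_red w.1 hq
    obtain ⟨q', hq'⟩ : ∃ q' : Fin (finrank L Λ) → EX (n + 1) (e + 1) → L,
        q' = fun i k => ∑ j, g i j * q j k := ⟨_, rfl⟩
    rw [← hq'] at hred
    obtain ⟨Tw, hTw1, hTw2⟩ := X.exists_Tw w hred.int hred.piv hm1
    refine ⟨Tw, hTw1, fun b hb => ?_⟩
    have hq'j : ∀ i, q' i = ∑ j, g i j • q j := by
      intro i
      funext k
      rw [hq', Finset.sum_apply]
      exact Finset.sum_congr rfl fun j _ => rfl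
    have hq'Λ : ∀ i, q' i ∈ Λ := fun i => by
      rw [hq'j]
      exact Submodule.sum_mem _ fun j _ => Submodule.smul_mem _ _ (hqΛ j)
    obtain ⟨c, hc⟩ := hcomb b hb
    -- coordinates with respect to `q'`
    obtain ⟨c', hc'⟩ : ∃ c' : Fin (finrank L Λ) → L, ∑ i, c' i • q' i = b := by
      refine ⟨fun i => ∑ j, c j * g⁻¹ j i, ?_⟩
      rw [← hc]
      have h4 : ∀ i, (∑ j, c j * g⁻¹ j i) • q' i = ∑ k, (∑ j, c j * g⁻¹ j i * g i k) • q k := by
        intro i
        rw [hq'j, Finset.smul_sum]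
        refine Finset.sum_congr rfl fun k _ => ?_
        rw [smul_smul, Finset.sum_mul]
      rw [Finset.sum_congr rfl fun i _ => h4 i, Finset.sum_comm]
      refine Finset.sum_congr rfl fun k _ => ?_
      rw [← Finset.sum_smul]
      congr 1
      rw [Finset.sum_comm]
      have h5 : ∀ j, ∑ i, c j * g⁻¹ j i * g i k = c j * (g⁻¹ * g) j k := by
        intro j
        rw [Matrix.mul_apply, Finset.mul_sum]
        exact Finset.sum_congr rfl fun i _ => by ring
      rw [Finset.sum_congr rfl fun j _ => h5 j,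
        Matrix.nonsing_inv_mul g (isUnit_iff_ne_zero.2 hg)]
      simp [Matrix.one_apply]
    have h4 : Tw.mulVec b - X.dF m b ∈ Λ := by
      rw [← hc', hTw2, dF_comb, ← sub_sub, sub_right_comm, sub_self, zero_sub]
      exact Submodule.neg_mem _ (Submodule.sum_mem _ fun i _ => Submodule.smul_mem _ _ (hq'Λ i))
    have h5 : X.dF m b - X.dF F b ∈ Λ' := by
      rw [← orth_orth Λ', mem_orth]
      intro G hG
      have h6 : X.r2 b G ∈ X.W Λ Λ' :=
        Submodule.mem_sup_right (Submodule.subset_span ⟨b, hb, G, hG, rfl⟩)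
      rw [dF_sub_form, hm2 _ h6, sub_self]
    have h6 : Tw.mulVec b - T b = (Tw.mulVec b - X.dF m b) + (X.dF m b - X.dF F b) +
        (X.dF F b - T b) := by abel
    rw [h6]
    exact Submodule.add_mem _ (Submodule.add_mem _ (hle h4) h5) (hle (h1 b hb))
  choose Tw hTw1 hTw2 using h3
  -- (4)
  have hδ' : (Function.support fun w => (X.δ w : ℤ)).Finite := by
    refine X.hδ.subset fun w hw h => hw ?_
    simp only
    rw [h]
    rfl
  have hτ' : (Function.support fun w => τ w + (X.δ w : ℤ)).Finite :=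
    (hτ.union hδ').subset (Function.support_add _ _)
  have h5 := ht_mapw_mod h T Tw hτ' hTw1 hTw2 hAΛ hAT hinj
  have h6 := finrank_sup_map hAΛ T hAT hinj
  have h7 : finrank L A < finrank L Λ := by
    refine lt_of_le_of_ne (Submodule.finrank_mono hAΛ) fun h8 => ?_
    have h9 : A = Λ := Submodule.eq_of_le_of_finrank_eq hAΛ h8
    have h10 : ∀ b ∈ Λ, X.dF F b ∈ Λ' := by
      intro b hb
      have h11 : X.dF F b = (X.dF F b - T b) + T b := (sub_add_cancel _ _).symm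
      rw [h11]
      refine Submodule.add_mem _ (hle (h1 b hb)) ?_
      have h12 : b ∈ A := by rw [h9]; exact hb
      rw [hAdef] at h12
      exact h12.2
    obtain ⟨u, hu, hu0⟩ := hFW
    apply hu0
    have h13 : X.W Λ Λ' ≤ orth (Submodule.span L {F}) := by
      refine sup_le ?_ (Submodule.span_le.2 ?_)
      · intro y hy
        rw [mem_orth_single, ← hFU y hy]
        exact Finset.sum_congr rfl fun I _ => mul_comm _ _
      · rintro y ⟨b, hb, G, hG, rfl⟩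
        show X.r2 b G ∈ orth (Submodule.span L {F})
        rw [mem_orth_single]
        have h14 : ∑ I, X.r2 b G I * F I = ∑ I, F I * X.r2 b G I :=
          Finset.sum_congr rfl fun I _ => mul_comm _ _
        rw [h14, r2_eq]
        exact hG _ (h10 b hb)
    have h15 := mem_orth_single.1 (h13 hu)
    rw [← h15]
    exact Finset.sum_congr rfl fun I _ => mul_comm _ _
  have h8 := hΛ.le A hAΛ hxA
  have h9 := hΛ' (Λ' ⊔ Λ.map T) le_sup_left
  rw [finsum_add_distrib hτ hδ'] at h5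
  have h10 : (0 : ℝ) < (finrank L Λ : ℝ) - finrank L A := by
    have : (finrank L A : ℝ) < finrank L Λ := by exact_mod_cast h7
    linarith
  have h11 : ((finrank L (Λ' ⊔ Λ.map T : Submodule L (EX (n + 1) (e + 1) → L)) : ℝ)) +
      finrank L A = (finrank L Λ' : ℝ) + finrank L Λ := by exact_mod_cast h6
  have h12 : ((ht κ (Λ' ⊔ Λ.map T) : ℤ) : ℝ) + ht κ A ≤ (ht κ Λ : ℝ) + ht κ Λ' +
      (((∑ᶠ w, τ w : ℤ) : ℝ) + X.Δ) * ((finrank L Λ : ℝ) - finrank L A) := by
    have h13 := h5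
    unfold Δ
    exact_mod_cast h13
  have h13 : (t - t') * ((finrank L Λ : ℝ) - finrank L A) ≤
      (((∑ᶠ w, τ w : ℤ) : ℝ) + X.Δ) * ((finrank L Λ : ℝ) - finrank L A) := by
    have h14 : (finrank L (Λ' ⊔ Λ.map T : Submodule L (EX (n + 1) (e + 1) → L)) : ℝ) -
        finrank L Λ' = (finrank L Λ : ℝ) - finrank L A := by linarith
    rw [h14] at h9
    have h15 : (t - t') * ((finrank L Λ : ℝ) - finrank L A) =
      t * ((finrank L Λ : ℝ) - finrank L A) - t' * ((finrank L Λ : ℝ) - finrank L A) := by ring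
    rw [h15]
    linarith
  exact le_of_mul_le_mul_right h13 h10

/-- **(3a).** Proof. Let `ν = finrank W - finrank U` (`U ≤ W`). If `ν = 0` then `W = U`. Otherwise
`siegel_rel_height` (SRel) for `A = U`, `B = W`, `a := (ht W - ht U) / ν - genus` (integer
division), then `rows_slope`: `t - t' ≤ - a + Δ`; and `ht W - ht U < ν * (a + genus + 1)`. -/
theorem ht_W_le (h : IsFF κ L) {t t' : ℝ} {Λ Λ' : Submodule L (EX (n + 1) (e + 1) → L)}
    (hΛ : HasSl κ t (xm (e + 1) X.x) Λ) (hle : Λ ≤ Λ')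
    (hΛ' : ∀ Γ, Λ' ≤ Γ → (ht κ Λ' : ℝ) - ht κ Γ ≤ t' * ((finrank L Γ : ℝ) - finrank L Λ')) :
    (ht κ (X.W Λ Λ') : ℝ) + (t - t') * ((finrank L (X.W Λ Λ') : ℝ) - finrank L X.U) ≤
      ht κ X.U + ((finrank L (X.W Λ Λ') : ℝ) - finrank L X.U) * (X.Δ + genus κ L + 1) := by
  have hUW : X.U ≤ X.W Λ Λ' := le_sup_left
  by_cases hne : X.U = X.W Λ Λ'
  · rw [← hne, sub_self, mul_zero, zero_mul]
  have hlt : finrank L X.U < finrank L (X.W Λ Λ') :=
    lt_of_le_of_ne (Submodule.finrank_mono hUW) fun h0 =>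
      hne (Submodule.eq_of_le_of_finrank_eq hUW h0)
  obtain ⟨ν, hν⟩ : ∃ ν : ℤ, ν = (finrank L (X.W Λ Λ') : ℤ) - finrank L X.U := ⟨_, rfl⟩
  have hν0 : 0 < ν := by
    have : (finrank L X.U : ℤ) < finrank L (X.W Λ Λ') := by exact_mod_cast hlt
    omega
  obtain ⟨b, hb⟩ : ∃ b : ℤ, b = (ht κ (X.W Λ Λ') - ht κ X.U) / ν := ⟨_, rfl⟩
  have h1 : ν * b ≤ ht κ (X.W Λ Λ') - ht κ X.U := by
    rw [hb]
    exact Int.mul_ediv_self_le (ne_of_gt hν0)
  have h2 : ht κ (X.W Λ Λ') - ht κ X.U < ν * b + ν := by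
    rw [hb]
    exact Int.lt_mul_ediv_self_add hν0
  obtain ⟨l, τ, hτ, hsum, hl0, hl, hm⟩ := VFSharp.siegel_rel_height h hUW hne
    (a := b - genus κ L) (by
      rw [← hν, sub_add_cancel]
      exact h1)
  have h3 := X.rows_slope h hΛ hle hΛ' hl0 hl hτ hm
  rw [hsum] at h3
  have hνR : (finrank L (X.W Λ Λ') : ℝ) - finrank L X.U = (ν : ℝ) := by
    rw [hν]
    push_cast
    ring
  rw [hνR]
  have hν0R : (0 : ℝ) < ν := by exact_mod_cast hν0
  have h4 : (ht κ (X.W Λ Λ') : ℝ) - ht κ X.U ≤ ν * b + ν := by exact_mod_cast h2.le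
  push_cast at h3
  have h5 : (ν : ℝ) * (t - t') ≤ ν * (-(b - genus κ L) + X.Δ) :=
    mul_le_mul_of_nonneg_left (by linarith) hν0R.le
  nlinarith [h4, h5]

end RowData

end Pool.Agent.Lib.MP_44a246_ntSH
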