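import Mathlib
import Pool.Agent.Lib.MP_44a246_ntSH.RW3

/-!
# The dimension of the space of the rows (paper 619, (3b))
-/

namespace Pool.Agent.Lib.MP_44a246_ntSH

open Pool.Agent.Lib.MP_44a246_nt
open Pool.Agent.Lib.MP_44a246_ntL
open Pool.Agent.Lib.MP_44a246_ntS
open Pool.Agent.Lib.MP_44a246_ntF
open Pool.Agent.Lib.MP_44a246_ntO
open Pool.Agent.Lib.MP_44a246_ntA
open Pool.Agent.Lib.MP_e52354_nt
open WithZero Module

section

private theorem finrank_step {L E₁ E₂ : Type*} [Field L] [AddCommGroup E₁] [Module L E₁]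
    [AddCommGroup E₂] [Module L E₂] [FiniteDimensional L E₁] [FiniteDimensional L E₂]
    (f : E₁ →ₗ[L] E₂) {K : Submodule L E₁} {P Q : Submodule L E₂} (hPQ : P ≤ Q)
    (hK : K ≤ Q.comap f) :
    finrank L K + finrank L P ≤ finrank L ↥(K ⊓ P.comap f) + finrank L Q := by
  have h1 := LinearMap.finrank_range_add_finrank_ker ((P.mkQ ∘ₗ f).domRestrict K)
  have h2 := LinearMap.finrank_range_add_finrank_ker (P.mkQ.domRestrict Q)
  have h3 : LinearMap.ker ((P.mkQ ∘ₗ f).domRestrict K) = (P.comap f).comap K.subtype := by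
    ext z
    simp [LinearMap.mem_ker]
  have h4 : LinearMap.ker (P.mkQ.domRestrict Q) = P.comap Q.subtype := by
    ext z
    simp [LinearMap.mem_ker]
  have h5 : finrank L ↥((P.comap f).comap K.subtype) = finrank L ↥(K ⊓ P.comap f) := by
    rw [← Submodule.map_comap_subtype, Submodule.finrank_map_subtype_eq]
  have h6 : finrank L ↥(P.comap Q.subtype) = finrank L P := by
    rw [← Submodule.finrank_map_subtype_eq, Submodule.map_comap_subtype, inf_eq_right.2 hPQ]
  have h7 : LinearMap.range ((P.mkQ ∘ₗ f).domRestrict K) ≤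
      LinearMap.range (P.mkQ.domRestrict Q) := by
    rintro _ ⟨z, rfl⟩
    exact ⟨⟨f z.1, hK z.2⟩, rfl⟩
  have h8 := Submodule.finrank_mono h7
  rw [h3, h5] at h1
  rw [h4, h6] at h2
  omega

end

namespace RowData

variable {κ L : Type*} [Field κ] [Field L] [Algebra κ L] {n d e : ℕ}
  (X : RowData κ (L := L) n d)

/-- **(3b).**

Proof. Let `N` be the space of the matrices, `K ≤ N` the kernel of `B ↦ [B x]` with values in
`(Fin (n + 1) → L) ⧸ span {x}` (dimension `n`, `x ≠ 0`): `finrank N ≤ finrank K + n`. Let `Ψ` be the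
linear map from `K` to the functionals on `W`, `B ↦ (u ↦ ∑ I, X.M B I * u I)`. It takes values in
the functionals which vanish on `U` (`r1_M`: `- y (B x) = 0` as `B x ∈ span {x}`), a space of
dimension `finrank W - finrank U` (`U ≤ W`). If `B ∈ ker Ψ` then, for `G ∈ orth Λ'`,
`0 = ∑ I, X.M B I * X.r2 q G I = ∑ J, G J * X.dF (X.M B) q J = - ∑ J, G J * gla B q J`
(`r2_eq`, `dF_M`), so `gla B q ∈ orth (orth Λ') = Λ'` (`orth_orth`). The matrices `B` with
`gla B q ∈ Λ'` form a space of dimension at most `finrank Λ' + finrank (ker (glm q))`. So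
`finrank N ≤ n + (finrank W - finrank U) + finrank Λ' + finrank (ker (glm q))`, and
`finrank N = finrank (range (glm q)) + finrank (ker (glm q))`. -/
theorem finrank_glm_le {Λ Λ' : Submodule L (EX (n + 1) (e + 1) → L)}
    {q : EX (n + 1) (e + 1) → L} (hq : q ∈ Λ) :
    finrank L (LinearMap.range (glm q)) + finrank L X.U ≤
      finrank L (X.W Λ Λ') + finrank L Λ' + n := by
  classical
  obtain ⟨S, hS⟩ : ∃ S : Submodule L (Fin (n + 1) → L), S = Submodule.span L {X.x} := ⟨_, rfl⟩
  obtain ⟨T, hT⟩ : ∃ T : Matrix (Fin (n + 1)) (Fin (n + 1)) L →ₗ[L] (Fin (n + 1) → L),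
      ∀ B, T B = B.mulVec X.x :=
    ⟨{ toFun := fun B => B.mulVec X.x
       map_add' := fun B B' => Matrix.add_mulVec B B' X.x
       map_smul' := fun c B => Matrix.smul_mulVec c B X.x }, fun B => rfl⟩
  have hUW : X.U ≤ X.W Λ Λ' := le_sup_left
  -- step 1
  have e1 := finrank_step T (K := ⊤) (P := S) (Q := ⊤) le_top (by intro B _; exact trivial)
  have e2 : finrank L S = 1 := by rw [hS]; exact finrank_span_singleton X.hx
  rw [top_inf_eq, finrank_top, finrank_top, e2, Module.finrank_fin_fun] at e1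
  -- step 2
  have e3 := finrank_step X.M (K := S.comap T) (P := orth (X.W Λ Λ')) (Q := orth X.U)
    (orth_anti hUW) (by
      intro B hB
      rw [Submodule.mem_comap, mem_orth]
      have hB' : B.mulVec X.x ∈ Submodule.span L {X.x} := by
        have h1 : T B ∈ S := hB
        rw [hT, hS] at h1
        exact h1
      intro u hu
      induction hu using Submodule.span_induction with
      | mem u hu =>
        obtain ⟨y, hy, rfl⟩ := hu
        rw [X.r1_M, neg_eq_zero]
        exact mem_orth.1 hy _ hB'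
      | zero => simp
      | add u v _ _ h1 h2 =>
        simp only [Pi.add_apply, mul_add, Finset.sum_add_distrib]
        rw [h1, h2, add_zero]
      | smul c u _ h1 =>
        simp only [Pi.smul_apply, smul_eq_mul]
        rw [← mul_zero c, ← h1, Finset.mul_sum]
        exact Finset.sum_congr rfl fun I _ => by ring)
  have e4 := finrank_orth (X.W Λ Λ')
  have e5 := finrank_orth X.U
  -- step 3
  have e6 := finrank_step (glm q) (K := S.comap T ⊓ (orth (X.W Λ Λ')).comap X.M) (P := ⊥)
    (Q := Λ') bot_le (by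
      rintro B ⟨-, hB⟩
      rw [Submodule.mem_comap, glm_apply, ← orth_orth Λ', mem_orth]
      intro G hG
      have h1 : X.r2 q G ∈ X.W Λ Λ' :=
        Submodule.mem_sup_right (Submodule.subset_span ⟨q, hq, G, hG, rfl⟩)
      have h2 := mem_orth.1 hB _ h1
      rw [r2_eq, dF_M] at h2
      rw [← neg_eq_zero, ← h2, ← Finset.sum_neg_distrib]
      refine Finset.sum_congr rfl fun J _ => ?_
      rw [Pi.neg_apply]
      ring)
  have e7 : finrank L ↥((S.comap T ⊓ (orth (X.W Λ Λ')).comap X.M) ⊓ (⊥ : Submodule L _).comap (glm q)) ≤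
      finrank L (LinearMap.ker (glm q)) := by
    refine Submodule.finrank_mono ?_
    rw [LinearMap.ker]
    exact inf_le_right
  have e8 := LinearMap.finrank_range_add_finrank_ker (glm q)
  rw [finrank_bot] at e6
  omega

end RowData

end Pool.Agent.Lib.MP_44a246_ntSH
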