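import Mathlib
import Pool.Agent.Lib.MP_44a246_ntSH.H03
import Pool.Agent.Lib.MP_44a246_ntSH.RW2
import Pool.Agent.Lib.MP_44a246_ntSH.RW4
import Pool.Agent.Lib.MP_44a246_ntSH.RW5
import Pool.Agent.Lib.MP_44a246_ntSH.RW6
import Pool.Agent.Lib.MP_44a246_ntSH.RW6b

/-!
# The rows of a space of symmetric tensors (paper 619, section 3)
-/

namespace Pool.Agent.Lib.MP_44a246_ntSH

open Pool.Agent.Lib.MP_44a246_nt
open Pool.Agent.Lib.MP_44a246_ntL
open Pool.Agent.Lib.MP_44a246_ntS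
open Pool.Agent.Lib.MP_44a246_ntF
open Pool.Agent.Lib.MP_44a246_ntO
open Pool.Agent.Lib.MP_44a246_ntA
open Pool.Agent.Lib.MP_44a246_ntR (genus)
open Pool.Agent.Lib.MP_e52354_nt
open WithZero Module

/-- **Rows.** Proof. `W := X.W Λ Λ'`, `ν := finrank W - finrank U` (`U ≤ W`): `xm_mem_U`,
`finrank_U_le`, `ht_U_le` (RW2), `ht_W_le` (RW4), `finrank_glm_le` (RW5), `two_rank_le` (RW6),
`finrank_lam_one` (RW6b); `ν ≤ finrank W ≤ card (EX (n + 1) d)`. -/
theorem rows_of_data {κ L : Type*} [Field κ] [IsAlgClosed κ] [CharZero κ] [Field L] [CharZero L]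
    [Algebra κ L] (h : IsFF κ L) {n d : ℕ} (X : RowData κ (L := L) n d) :
    Rows κ X.x d (n * X.Δ + Fintype.card (EX (n + 1) d) * (X.Δ + genus κ L + 1)) := by
  intro Λ Λ' t t' ht0 hlt hΛ hle hΛ'
  have hUW : X.U ≤ X.W Λ Λ' := le_sup_left
  have h0 : finrank L X.U ≤ finrank L (X.W Λ Λ') := Submodule.finrank_mono hUW
  have hΔ : 0 ≤ X.Δ := finsum_nonneg fun w => Int.natCast_nonneg _
  obtain ⟨ν, hν⟩ := Nat.exists_eq_add_of_le h0
  have h1 := X.finrank_U_le
  have h2 := X.ht_U_le h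
  have h3 := X.ht_W_le h hΛ hle hΛ'
  have hνc : ν ≤ Fintype.card (EX (n + 1) d) := by
    have h4 := Submodule.finrank_le (X.W Λ Λ')
    rw [Module.finrank_fintype_fun_eq_card] at h4
    omega
  refine ⟨ν, X.W Λ Λ', hUW X.xm_mem_U, by omega, ?_, ?_⟩
  · have e1 : (finrank L (X.W Λ Λ') : ℝ) - finrank L X.U = ν := by
      rw [hν]; push_cast; ring
    rw [e1] at h3
    have h2R : (ht κ X.U : ℝ) ≤ (n + 1) * height κ X.x + n * X.Δ := by exact_mod_cast h2
    have hΔR : (0 : ℝ) ≤ X.Δ := by exact_mod_cast hΔ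
    have h5 : (ν : ℝ) * (X.Δ + genus κ L + 1) ≤
        Fintype.card (EX (n + 1) d) * (X.Δ + genus κ L + 1) := by
      refine mul_le_mul_of_nonneg_right (by exact_mod_cast hνc) ?_
      have : (0 : ℝ) ≤ genus κ L := Nat.cast_nonneg _
      linarith
    linarith
  · intro q hq
    have h4 := X.finrank_glm_le (Λ := Λ) (Λ' := Λ') hq
    have h5 := two_rank_le q
    have h6 : finrank L (LinearMap.range (glm q)) ≤ ν + finrank L Λ' + n := by
      have key : ∀ a b c f : ℕ, c = b + ν → a + b ≤ c + f + n → a ≤ ν + f + n := by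
        intro a b c f h1 h2
        omega
      exact key _ _ _ _ hν h4
    rw [finrank_lam_one q]
    have h7 : 2 * ((n : ℝ) + 1) * finrank L (spn (L ∙ q)) ≤
        2 * finrank L (LinearMap.range (glm q)) +
          (finrank L (spn (L ∙ q)) : ℝ) * ((finrank L (spn (L ∙ q)) : ℝ) - 1) := by
      rcases Nat.eq_zero_or_pos (finrank L (spn (L ∙ q))) with h8 | h8
      · rw [h8]
        push_cast
        have : (0 : ℝ) ≤ finrank L (LinearMap.range (glm q)) := Nat.cast_nonneg _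
        linarith
      · have h9 : ((finrank L (spn (L ∙ q)) - 1 : ℕ) : ℝ) = (finrank L (spn (L ∙ q)) : ℝ) - 1 := by
          rw [Nat.cast_sub h8, Nat.cast_one]
        rw [← h9]
        exact_mod_cast h5
    have h6R : (finrank L (LinearMap.range (glm q)) : ℝ) ≤ ν + finrank L Λ' + n := by
      exact_mod_cast h6
    linarith

end Pool.Agent.Lib.MP_44a246_ntSH
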