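import Mathlib
import Pool.Agent.Lib.MP_44a246_ntA.P13

/-!
# Step 0 (paper 619): the pair hypothesis for a hypersurface
-/

namespace Pool.Agent.Lib.MP_44a246_ntSH

open Pool.Agent.Lib.MP_44a246_nt
open Pool.Agent.Lib.MP_44a246_ntL
open Pool.Agent.Lib.MP_44a246_ntS
open Pool.Agent.Lib.MP_44a246_ntX
open Pool.Agent.Lib.MP_44a246_ntG
open Pool.Agent.Lib.MP_44a246_ntK
open Pool.Agent.Lib.MP_44a246_ntF
open Pool.Agent.Lib.MP_44a246_ntA
open Pool.Agent.Lib.MP_44a246_ntO (PairHyp)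
open Pool.Agent.Lib.MP_e52354_nt
open WithZero Module

/-- **The pair hypothesis.**

Proof. `pairHyp` (ntA/P10) with `m = n + 1`, `p = 1`, `g = 1`, `k = 0`, `c = 0`, `d := fun _ => d`,
`F s := X.D s.2.1` (`s : ES (n + 1) (fun _ : Fin 1 => d)`), `γ = Λ = Fin 0` (or `Empty`),
`ε = 0`, `e = id`, `W := span (range fun i => rowD F (X.x i))`.
`MinorBound κ F univ X.δ X.ρ`: `X.hD` (reindex, the exponents are in `expo`).
`1 ≤ vmax w.1 X.x`: `X.h0` and `Valuation.map_sum_le` (natural numbers have value at most `1`).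
`hWU`: `rowD_mem_UL` (ntA/P06) with `ξ i = (X.ξ₀ i : L)` (`Derivation.map_natCast`), `X.h0`.
`xm d X.x ∈ piece κ W 0`: `mem_piece`; the vector `fun s => xm d X.x s.2` is
`- ∑ i, grad d X.a X.x i • rowD F (X.x i)` by `grad_D` (MP_e52354_nt/Span) with `X.hDa`, `hF`.
`hk`: `0 + (n + 1) + 1 ≤ d`. `n + 1 - 1 = n`. -/
theorem pairHyp_dat {κ L : Type*} [Field κ] [IsAlgClosed κ] [CharZero κ] [Field L] [CharZero L]
    [Algebra κ L] (h : IsFF κ L) {n d : ℕ} (X : DatG κ (L := L) n d)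
    (hF : Fval d X.a X.x = 0) (hd : n + 2 ≤ d) :
    PairHyp κ X.x (fun _ : Fin 1 => d) 1 n 0 0
      (((((n + 1) * (n + 1) : ℕ) : ℤ) * X.Δ + X.R : ℤ) : ℝ) := by
  classical
  set F : ES (n + 1) (fun _ : Fin 1 => d) → Derivation ℤ L L := fun s => X.D s.2.1 with hFd
  have hminor : MinorBound κ F Set.univ X.δ X.ρ := by
    intro w m I c _ hc
    exact X.hD w m (fun i => (I i).2.1) c (fun i => (I i).2.2) hc
  have hx1 : ∀ w : Place κ L, 1 ≤ vmax w.1 X.x := by
    intro w
    by_contra hcon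
    rw [not_le] at hcon
    have h1 : w.1 (∑ j, (X.ξ₀ j : L) * X.x j) ≤ vmax w.1 X.x := by
      refine Valuation.map_sum_le w.1 fun j _ => ?_
      rw [map_mul]
      have h2 : w.1 ((X.ξ₀ j : L)) ≤ 1 := by
        rw [← map_natCast (algebraMap κ L)]
        exact place_const_le w _
      calc _ ≤ 1 * vmax w.1 X.x := mul_le_mul' h2 (le_vmax w.1 X.x j)
        _ = _ := one_mul _
    rw [X.h0, map_one] at h1
    exact absurd h1 (not_le.2 hcon)
  set W : Submodule L (ES (n + 1) (fun _ : Fin 1 => d) → L) :=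
    Submodule.span L (Set.range fun i => rowD F (X.x i)) with hW
  have hmem : ∀ i : Fin 1, xm d X.x ∈ piece κ W i := by
    intro i
    have h1 : (fun s : ES (n + 1) (fun _ : Fin 1 => d) => xm d X.x s.2) ∈ W := by
      have h2 : (fun s : ES (n + 1) (fun _ : Fin 1 => d) => xm d X.x s.2) =
          ∑ j, (- grad d X.a X.x j) • rowD F (X.x j) := by
        funext s
        have h3 := grad_D (D := X.D) X.hDa hF s.2.2
        rw [Finset.sum_apply]
        simp only [Pi.smul_apply, smul_eq_mul, neg_mul, Finset.sum_neg_distrib]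
        have h4 : ∑ j, grad d X.a X.x j * rowD F (X.x j) s = - mon X.x s.2.1 := h3
        rw [h4, neg_neg]
        rfl
      rw [h2]
      exact W.sum_mem fun j _ => W.smul_mem _ (Submodule.subset_span ⟨j, rfl⟩)
    have h2 := mem_piece (κ := κ) (j := i) h1 (fun s hs => absurd (Subsingleton.elim s.1 i) hs)
    exact h2
  have hξ : ∀ (K : ES (n + 1) (fun _ : Fin 1 => d)) (i : Fin (n + 1)),
      F K ((X.ξ₀ i : L)) = 0 := fun K i => Derivation.map_natCast _ _
  have key := pairHyp h (m := n + 1) (g := 1) (k := 0) (c := 0) (p := 1)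
    (d := fun _ : Fin 1 => d) (by omega) le_rfl (F := F) X.hδ X.hρ hminor hx1 X.x_ne_zero
    (γ := Fin 0) (Λ := Fin 0) (by simp) (β := Fin.elim0) (fun t => t.elim0)
    (η := Fin.elim0) (fun t => t.elim0) (t := Fin.elim0) (ε := fun _ => 0) (by simp)
    (fun w => Or.inl fun t => t.elim0) (e := id) Function.injective_id
    (by simp; omega) (W := W) hmem
    (fun P hP => by
      refine le_trans ?_ le_sup_left
      rw [hW, Submodule.span_le]
      rintro _ ⟨i, rfl⟩
      exact rowD_mem_UL F hξ X.h0 i)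
    (E := (((((n + 1) * (n + 1) : ℕ) : ℤ) * X.Δ + X.R : ℤ) : ℝ)) (by
      refine le_of_eq ?_
      simp [DatG.Δ, DatG.R])
  exact key

end Pool.Agent.Lib.MP_44a246_ntSH
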