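import Mathlib
import Pool.Agent.Lib.MP_44a246_ntA.P13a
import Pool.Agent.Lib.MP_44a246_ntO.O10

/-!
# Step 0 (paper 619): the curve
-/

namespace Pool.Agent.Lib.MP_44a246_ntSH

open Pool.Agent.Lib.MP_44a246_nt
open Pool.Agent.Lib.MP_44a246_ntL
open Pool.Agent.Lib.MP_44a246_ntS
open Pool.Agent.Lib.MP_44a246_ntX
open Pool.Agent.Lib.MP_44a246_ntG
open Pool.Agent.Lib.MP_44a246_ntK
open Pool.Agent.Lib.MP_44a246_ntF
open Pool.Agent.Lib.MP_44a246_ntA
open Pool.Agent.Lib.MP_44a246_ntC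
open Pool.Agent.Lib.MP_44a246_ntO (PairHyp)
open Pool.Agent.Lib.MP_e52354_nt
open WithZero Module

/-- **One block**: the passage to the plane, for the coordinates of the space. -/
theorem plane_block3 {κ L : Type*} [Field κ] [IsAlgClosed κ] [CharZero κ] [Field L] [CharZero L]
    [Algebra κ L] (h : IsFF κ L) {n d b : ℕ} (X : DatG κ (L := L) n d) (hb : 4 ≤ b)
    (hd : 14 * b ≤ d) (hH : 0 < height κ X.x) {U : Submodule L (EX (n + 1) d → L)}
    (hU : xm d X.x ∈ U) :
    (∃ (a : ℕ) (A : MvPolynomial (Fin 3) L), a ≤ b ∧ A ≠ 0 ∧ A.IsHomogeneous a ∧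
        MvPolynomial.eval X.p A = 0 ∧ 21 * (a * polyHeight κ A) ≤ height κ X.x) ∨
      (d : ℝ) * height κ X.x - ht κ U - 21 * height κ X.x / (20 * b) * ((finrank L U : ℝ) - 1) ≤
        (12 * b + 2 * b - 1) * height κ X.x + 21 * height κ X.x / (20 * b) := by
  set T : Matrix (M3 d) (EX (n + 1) d) κ := fun K I => (X.Kf K).coeff I.1 with hT
  set V : Submodule L (M3 d → L) := U.map (T.map (algebraMap κ L)).mulVecLin with hV
  have hxi : xi d X.p ∈ V := by
    refine ⟨xm d X.x, hU, ?_⟩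
    funext K
    rw [Matrix.mulVecLin_apply, ← X.Kf_eval' K, ← Finset.sum_coe_sort]
    rfl
  have hb' : (0 : ℤ) < b := by
    have : 0 < b := by omega
    exact_mod_cast this
  rcases stepA_block2 h X hxi hb le_rfl (by omega) hH with ⟨a, A, h1, h2, h3, h4, h5, -⟩ | h1
  · left
    refine ⟨a, A, h1, h2, h3, h4, ?_⟩
    refine le_of_mul_le_mul_left (le_of_eq_of_le ?_ h5) hb'
    ring
  · right
    have h2 : ht κ V ≤ ht κ U := ht_map_const_le h _ U
    have h3 : finrank L V ≤ finrank L U := Submodule.finrank_map_le _ _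
    have hbr : (0 : ℝ) < b := by exact_mod_cast hb'
    have hHr : (0 : ℝ) < (height κ X.x : ℝ) := by exact_mod_cast hH
    have h2r : (ht κ V : ℝ) ≤ ht κ U := by exact_mod_cast h2
    have h3r : (finrank L V : ℝ) ≤ finrank L U := by exact_mod_cast h3
    have h4 : 20 * (b : ℝ) * (((d : ℝ) - 12 * b - 2 * b + 1) * height κ X.x) ≤
        20 * b * ht κ V + 21 * height κ X.x * finrank L V := by
      exact_mod_cast h1
    set H : ℝ := (height κ X.x : ℝ) with hHdef
    have h5 : ((d : ℝ) - 12 * b - 2 * b + 1) * H ≤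
        ht κ V + 21 * H / (20 * b) * finrank L V := by
      refine le_of_mul_le_mul_left (h4.trans (le_of_eq ?_)) (by positivity : (0 : ℝ) < 20 * b)
      field_simp
    have h6 : 21 * H / (20 * b) * finrank L V ≤ 21 * H / (20 * b) * finrank L U :=
      mul_le_mul_of_nonneg_left h3r (by positivity)
    linarith

/-- **The curve**, from a subspace of small height and small dimension. -/
theorem curve_steep {κ L : Type*} [Field κ] [IsAlgClosed κ] [CharZero κ] [Field L] [CharZero L]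
    [Algebra κ L] (h : IsFF κ L) {n d b C₀ : ℕ} (X : DatG κ (L := L) n d) (hb : 4 ≤ b)
    (hd : 14 * b ≤ d) (hbn : 34 * b ≤ n) (hC : 0 < C₀)
    (hbC : 42 * (20 * n + 9 * C₀) ≤ 180 * (C₀ * b))
    (hH : 0 < height κ X.x) {E : ℝ} (hE : E < height κ X.x)
    (hP : PairHyp κ X.x (fun _ : Fin 1 => d) 1 n 0 0 E)
    {P : Submodule L (Fin (n + 1) → L)} (hxP : X.x ∈ P) (hPH : 20 * ht κ P ≤ height κ X.x)
    (hPd : 9 * (C₀ : ℝ) * ((finrank L P : ℝ) - 1) ≤ 20 * n) :
    ∃ (a : ℕ) (A : MvPolynomial (Fin 3) L), a ≤ b ∧ A ≠ 0 ∧ A.IsHomogeneous a ∧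
      MvPolynomial.eval X.p A = 0 ∧ 21 * (a * polyHeight κ A) ≤ height κ X.x := by
  have hHr : (0 : ℝ) < (height κ X.x : ℝ) := by exact_mod_cast hH
  have hb4 : (4 : ℝ) ≤ b := by exact_mod_cast hb
  have hbr : (0 : ℝ) < b := by linarith
  obtain ⟨i, U, hU, h1⟩ := hP P hxP (21 * height κ X.x / (20 * b)) (by positivity)
  rcases plane_block3 h X hb hd hH (U := U) hU with h2 | h2
  · exact h2
  · exfalso
    have hy : 20 * (ht κ P : ℝ) ≤ (height κ X.x : ℝ) := by exact_mod_cast hPH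
    have hC0 : (0 : ℝ) < C₀ := by exact_mod_cast hC
    have hbCR : 42 * (20 * (n : ℝ) + 9 * C₀) ≤ 180 * (C₀ * b) := by exact_mod_cast hbC
    have hbnR : 34 * (b : ℝ) ≤ n := by exact_mod_cast hbn
    set H : ℝ := (height κ X.x : ℝ) with hHdef
    generalize (finrank L P : ℝ) = l at h1 hPd
    generalize (ht κ P : ℝ) = y at h1 hy
    generalize (ht κ U : ℝ) = u at h1 h2
    generalize (finrank L U : ℝ) = f at h1 h2
    -- `42 l ≤ 20 b`
    have hl : 42 * l ≤ 20 * b := by
      have h3 : (9 * (C₀ : ℝ)) * (42 * l) ≤ (9 * C₀) * (20 * b) := by nlinarith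
      exact le_of_mul_le_mul_left h3 (by linarith)
    set q : ℝ := 21 * H / (20 * b) with hq
    have hqb : q * b = 21 * H / 20 := by
      rw [hq]
      field_simp
    have hq0 : 0 ≤ q := by positivity
    have hql : q * l ≤ H / 2 := by
      have h3 := mul_le_mul_of_nonneg_left hl hq0
      nlinarith
    have hn0 : (0 : ℝ) ≤ n := Nat.cast_nonneg n
    have hqln : q * (l * n) ≤ H / 2 * n := by
      have := mul_le_mul_of_nonneg_right hql hn0
      linarith
    have hq1 : q ≤ 21 * H / 80 := by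
      have h3 : q * 4 ≤ q * b := mul_le_mul_of_nonneg_left hb4 hq0
      linarith
    have hny : (n : ℝ) * (19 * H) ≤ 20 * (n * (H - y)) := by
      have := mul_le_mul_of_nonneg_left (by linarith : 19 * H ≤ 20 * (H - y)) hn0
      linarith
    have hlH : l * H ≤ 20 * b / 42 * H := mul_le_mul_of_nonneg_right (by linarith) hHr.le
    have hbH : 34 * b * H ≤ n * H := mul_le_mul_of_nonneg_right hbnR hHr.le
    have hb4H : 4 * H ≤ b * H := mul_le_mul_of_nonneg_right hb4 hHr.le
    push_cast at h1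
    nlinarith

end Pool.Agent.Lib.MP_44a246_ntSH
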