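import Mathlib
import Pool.Agent.Lib.MP_44a246_ntI.I03
import Pool.Agent.Lib.MP_44a246_ntSH.ST1
import Pool.Agent.Lib.MP_44a246_ntSH.ST2
import Pool.Agent.Lib.MP_44a246_ntSH.ST3

/-!
# Step 0 (paper 619): a steep subspace gives a curve of small degree and height
-/

namespace Pool.Agent.Lib.MP_44a246_ntSH

open Pool.Agent.Lib.MP_44a246_nt
open Pool.Agent.Lib.MP_44a246_ntL
open Pool.Agent.Lib.MP_44a246_ntS
open Pool.Agent.Lib.MP_44a246_ntX
open Pool.Agent.Lib.MP_44a246_ntG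
open Pool.Agent.Lib.MP_44a246_ntK
open Pool.Agent.Lib.MP_44a246_ntF
open Pool.Agent.Lib.MP_44a246_ntA
open Pool.Agent.Lib.MP_44a246_ntC
open Pool.Agent.Lib.MP_44a246_ntI
open Pool.Agent.Lib.MP_e52354_nt
open WithZero Module

/-- **Step 0**: either all the subspaces which contain `x` have slope at most `C₀ H / n` over `x`,
or there is a curve of degree at most `b` and of small height. -/
theorem step0 {κ L : Type*} [Field κ] [IsAlgClosed κ] [CharZero κ] [Field L] [CharZero L]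
    [Algebra κ L] (h : IsFF κ L) {n d b C₀ : ℕ} (X : DatG κ (L := L) n d)
    (hF : Fval d X.a X.x = 0) (hn : 1 ≤ n) (hd : n + 2 ≤ d) (hb : 6 ≤ b) (hbn : 100 * b ≤ n)
    (hC : 360 ≤ C₀) (hbC : 42 * (20 * n + 9 * C₀) ≤ 180 * (C₀ * b))
    (hbig : (27 * (d : ℤ) ^ 2 + (n + 1) * ((n + 1) * (n + 1) + 1)) * (X.Δ + X.R) <
      height κ X.x) :
    (∀ E₁ : Submodule L (Fin (n + 1) → L), X.x ∈ E₁ →
      n * ((height κ X.x : ℝ) - ht κ E₁) ≤ C₀ * height κ X.x * ((finrank L E₁ : ℝ) - 1)) ∨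
    SmallI X b 0 := by
  classical
  have hΔ := X.Δ_nonneg
  have hR := X.R_nonneg
  have hΔR : 0 ≤ X.Δ + X.R := add_nonneg hΔ hR
  have hH : 0 < height κ X.x := lt_of_le_of_lt (mul_nonneg (by positivity) hΔR) hbig
  have hHr : (0 : ℝ) < height κ X.x := by exact_mod_cast hH
  by_cases hall : ∀ E₁ : Submodule L (Fin (n + 1) → L), X.x ∈ E₁ →
      n * ((height κ X.x : ℝ) - ht κ E₁) ≤ C₀ * height κ X.x * ((finrank L E₁ : ℝ) - 1)
  · exact Or.inl hall
  right
  obtain ⟨E₁, hE₁⟩ := not_forall.1 hall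
  obtain ⟨hxE, hsl⟩ := Classical.not_imp.1 hE₁
  rw [not_le] at hsl
  have hx0 := X.x_ne_zero
  -- the dimension of the steep space
  have hE2 : 2 ≤ finrank L E₁ := by
    have h1 := Pool.Agent.Lib.MP_44a246_ntO.one_le_finrank_aux hx0 hxE
    by_contra hcon
    have h2 : finrank L E₁ = 1 := by omega
    have h3 : E₁ = L ∙ X.x := by
      symm
      refine Submodule.eq_of_le_of_finrank_eq
        ((Submodule.span_singleton_le_iff_mem _ _).2 hxE) ?_
      rw [finrank_span_singleton hx0, h2]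
    rw [h3, finrank_span_singleton hx0, ht_single h hx0] at hsl
    simp at hsl
  set E : ℝ := (((((n + 1) * (n + 1) : ℕ) : ℤ) * X.Δ + X.R : ℤ) : ℝ) with hE
  have hP := pairHyp_dat h X hF hd
  have hE0 : 0 ≤ E := by
    rw [hE]
    exact_mod_cast add_nonneg (mul_nonneg (Int.natCast_nonneg _) hΔ) hR
  have hEH : ((n + 1 : ℕ) : ℝ) * E ≤ height κ X.x := by
    have h1 : ((n + 1 : ℕ) : ℤ) * ((((n + 1) * (n + 1) : ℕ) : ℤ) * X.Δ + X.R) ≤
        height κ X.x := by
      have h2 : ((n + 1 : ℕ) : ℤ) * ((((n + 1) * (n + 1) : ℕ) : ℤ) * X.Δ + X.R) ≤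
          ((n : ℤ) + 1) * ((n + 1) * (n + 1) + 1) * (X.Δ + X.R) := by
        push_cast
        have h3 : 0 ≤ (n : ℤ) + 1 := by positivity
        have h4 : 0 ≤ ((n : ℤ) + 1) * X.Δ := mul_nonneg h3 hΔ
        have h5 : 0 ≤ ((n : ℤ) + 1) * ((n + 1) * (n + 1)) * X.R := by positivity
        nlinarith
      have h3 : 0 ≤ 27 * (d : ℤ) ^ 2 * (X.Δ + X.R) := mul_nonneg (by positivity) hΔR
      nlinarith
    rw [hE]
    exact_mod_cast h1
  have hn1 : (1 : ℝ) ≤ n := by exact_mod_cast hn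
  have hEH' : E < height κ X.x := by
    push_cast at hEH
    nlinarith
  obtain ⟨P, hxP, hPH, hPd⟩ := lemmaP_steep h (n := n + 1) (by omega) hx0 (D := d) (r := n)
    (by omega) hE0 hP hC hxE hE2 hsl.le hEH hH
  obtain ⟨a, A, h1, h2, h3, h4, h5⟩ := curve_steep h X (b := b) (C₀ := C₀) (by omega) (by omega)
    (by omega) (by omega) hbC hH hEH' hP hxP hPH hPd
  have hv0 : X.v = 0 := hF
  have hrow0 : X.row X.v = 0 := by
    rw [hv0]
    funext K
    exact map_zero _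
  have hr₀ : finrank L X.Ux ≤ n + 1 := by
    refine (finrank_range_le_card (R := L) (fun j : Fin (n + 1) => X.row (X.x j))).trans ?_
    rw [Fintype.card_fin]
  refine smallI_block h (m := 1) (r := n + 1) (r₀ := n + 1) (q := 0) (Λ := Fin 0) (γ := Fin 0)
    le_rfl hb (by omega) (by rw [Fintype.card_fin]; omega) (by omega) X (finVJ h X)
    (β := Fin.elim0) (fun t => t.elim0) (η := Fin.elim0) (fun t => t.elim0) (t := Fin.elim0)
    (ε := fun _ => 0) (by simp) (fun w => Or.inl fun t => t.elim0)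
    (by rw [hrow0]; exact Submodule.zero_mem _) hr₀
    (by rw [Fintype.card_fin]) (E₀ := X.R) hR (by simp)
    ⟨a, A, h1, h2, h3, h4, by rw [Nat.cast_one, one_mul]; exact h5⟩ ?_
  have h6 : 0 ≤ ((n : ℤ) + 1) * ((n + 1) * (n + 1) + 1) * (X.Δ + X.R) :=
    mul_nonneg (by positivity) hΔR
  nlinarith

end Pool.Agent.Lib.MP_44a246_ntSH
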