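import Mathlib
import Pool.Agent.Lib.MP_44a246_ntI.I02
import Pool.Agent.Lib.MP_44a246_ntE.E31
import Pool.Agent.Lib.MP_44a246_ntSH.H04
import Pool.Agent.Lib.MP_44a246_ntSH.H05
import Pool.Agent.Lib.MP_44a246_ntSH.H06
import Pool.Agent.Lib.MP_44a246_ntSH.RW7
import Pool.Agent.Lib.MP_44a246_ntSH.RW10
import Pool.Agent.Lib.MP_44a246_ntSH.ST4
import Pool.Agent.Lib.MP_44a246_ntSH.CV16

/-!
# The height theorem for generic hypersurfaces of general type (paper 619), over the base field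
-/

namespace Pool.Agent.Lib.MP_44a246_ntSH

open Pool.Agent.Lib.MP_44a246_nt
open Pool.Agent.Lib.MP_44a246_ntL
open Pool.Agent.Lib.MP_44a246_ntS
open Pool.Agent.Lib.MP_44a246_ntX
open Pool.Agent.Lib.MP_44a246_ntG
open Pool.Agent.Lib.MP_44a246_ntC
open Pool.Agent.Lib.MP_44a246_ntE
open Pool.Agent.Lib.MP_44a246_ntF
open Pool.Agent.Lib.MP_44a246_ntO
open Pool.Agent.Lib.MP_44a246_ntI (SmallI smallI_small)
open Pool.Agent.Lib.MP_44a246_ntR (genus)
open Pool.Agent.Lib.MP_e52354_nt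
open WithZero Module

universe u v w

/-- the rows with a larger error term -/
theorem Rows.mono {κ L : Type*} [Field κ] [Field L] [Algebra κ L] {n : ℕ}
    {x : Fin (n + 1) → L} {d : ℕ} {E E' : ℝ} (h : Rows κ x d E) (hE : E ≤ E') :
    Rows κ x d E' := by
  intro Λ Λ' t t' h1 h2 h3 h4 h5
  obtain ⟨ν, W, h6, h7, h8, h9⟩ := h Λ Λ' t t' h1 h2 h3 h4 h5
  exact ⟨ν, W, h6, h7, by linarith, h9⟩

/-- The case of a curve of small degree. -/
theorem certW_of_smallI {κ L : Type*} [Field κ] [IsAlgClosed κ] [CharZero κ] [Field L]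
    [CharZero L] [Algebra κ L] (h : IsFF κ L) {n d b : ℕ} (X : DatG κ (L := L) n d)
    (hF : Fval d X.a X.x = 0) (hb : 1 ≤ b) (hbd : 100 * b ≤ d) {τ : Place κ L → ℕ}
    (hτ : (Function.support τ).Finite)
    (ha : ∀ w : Place κ L, ∀ I ∈ expo (Fin (n + 1)) d, w.1 (X.a I) ≤ exp (τ w : ℤ))
    (hS : SmallI X b 0)
    (hbig : (29 * (d : ℤ) ^ 2) * (X.Δ + ∑ᶠ w, (τ w : ℤ)) + 23 * X.R < height κ X.x) :
    CertW (fun _ : Unit => d) (fun _ => X.a) b X.x := by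
  obtain ⟨a, A, P, h1, h2, h3, -, -, -, h7, h8, h9⟩ := hS
  have hΔ := X.Δ_nonneg
  have hR := X.R_nonneg
  have hΘ : 0 ≤ ∑ᶠ w, (τ w : ℤ) := finsum_nonneg fun w => Int.natCast_nonneg _
  refine certW_mono h2 (stepCW X h3 h hτ (fun _ I hI w => ha w I hI) (fun _ => hF)
    (fun _ => ?_) h7)
  refine smallI_small h hb hbd X h1 h2 h3 h8 h9 (M := d) hΘ ?_ (Or.inr le_rfl)
  have hd : (1 : ℤ) ≤ d := by
    have : 1 ≤ d := by omega
    exact_mod_cast this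
  have hbd' : (b : ℤ) ≤ d := by
    have : b ≤ d := by omega
    exact_mod_cast this
  have hd2 : (0 : ℤ) < (d : ℤ) ^ 2 := by positivity
  have hbd2 : (b : ℤ) * d ≤ (d : ℤ) ^ 2 := by nlinarith
  have e1 : (27 * (d : ℤ) ^ 2 + 2 * b * d) * (X.Δ + ∑ᶠ w, (τ w : ℤ)) ≤
      29 * (d : ℤ) ^ 2 * (X.Δ + ∑ᶠ w, (τ w : ℤ)) :=
    mul_le_mul_of_nonneg_right (by linarith) (by linarith)
  have e2 : 23 * (b : ℤ) * d * X.R ≤ (d : ℤ) ^ 2 * (23 * X.R) := by nlinarith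
  have e3 := mul_lt_mul_of_pos_left hbig hd2
  have e4 := mul_le_mul_of_nonneg_left e1 hd2.le
  linarith

/-- The case of small slopes: the curve of large degree. -/
theorem certS_of_slope {κ L : Type*} [Field κ] [IsAlgClosed κ] [CharZero κ] [Field L]
    [CharZero L] [Algebra κ L] (h : IsFF κ L) {n d : ℕ} (X : DatS κ (L := L) n d)
    (hd2 : d ≤ 2 * n) (hn : 1 ≤ n)
    (hsl : ∀ Q : Submodule L (Fin (n + 1) → L), X.x ∈ Q →
      n * ((height κ X.x : ℝ) - ht κ Q) ≤ (1000 : ℕ) * height κ X.x * ((finrank L Q : ℝ) - 1))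
    {τ : Place κ L → ℕ} (hτ : (Function.support τ).Finite)
    (ha : ∀ w : Place κ L, ∀ I ∈ expo (Fin (n + 1)) d, w.1 (X.a I) ≤ exp (τ w : ℤ))
    {e C₁ : ℕ} {P : MvPolynomial (Fin 3) L} (he : e ≤ C₁ * n) (hP0 : P ≠ 0)
    (hPh : P.IsHomogeneous e) (hPe : MvPolynomial.eval X.toP.p P = 0)
    (hPs : (C₁ * n * polyHeight κ P : ℝ) ≤ 1 / 100 * height κ X.x)
    (hpos : 0 < height κ X.x)
    (hb1 : 6 * ((C₁ * n : ℕ) : ℤ) * X.Δ ≤ height κ X.x)
    (hb2 : 2 * ((C₁ * n : ℕ) : ℤ) * ∑ᶠ w, (τ w : ℤ) ≤ height κ X.x)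
    (hb3 : 4 * ((n : ℤ) + 1) * X.Δ ≤ height κ X.x) :
    CertS d X.a (C₁ * n) (n / 2000 + 1) X.x := by
  have hPn : 0 ≤ polyHeight κ P := polyHeight_nonneg h hP0
  have hC₁ : 1 ≤ C₁ := by
    by_contra hcon
    have h0 : C₁ = 0 := by omega
    rw [h0, zero_mul] at he
    have he0 : e = 0 := by omega
    subst he0
    have h1 := MvPolynomial.totalDegree_eq_zero_iff_eq_C.1 (Nat.le_zero.1 hPh.totalDegree_le)
    rw [h1, MvPolynomial.eval_C] at hPe
    rw [hPe, map_zero] at h1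
    exact hP0 h1
  have hPs' : 100 * (((C₁ * n : ℕ) : ℤ) * polyHeight κ P) ≤ height κ X.x := by
    have h1 : 100 * ((C₁ : ℝ) * n * polyHeight κ P) ≤ height κ X.x := by linarith
    exact_mod_cast h1
  have hnC : (n : ℤ) ≤ ((C₁ * n : ℕ) : ℤ) := by
    have : n ≤ C₁ * n := Nat.le_mul_of_pos_left _ hC₁
    exact_mod_cast this
  have hnP : (n : ℤ) * polyHeight κ P ≤ ((C₁ * n : ℕ) : ℤ) * polyHeight κ P :=
    mul_le_mul_of_nonneg_right hnC hPn
  have hn' : (1 : ℤ) ≤ n := by exact_mod_cast hn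
  have hPnn : polyHeight κ P ≤ (n : ℤ) * polyHeight κ P := by nlinarith
  have hd2' : (d : ℤ) ≤ 2 * n := by exact_mod_cast hd2
  have hdP : (d : ℤ) * polyHeight κ P ≤ 2 * n * polyHeight κ P :=
    mul_le_mul_of_nonneg_right hd2' hPn
  refine certS_of_plane h X.toDatG X.hEκ hτ (fun I hI w => ha w I hI) X.hF (fun Q hQ hhQ => ?_)
    hP0 hPh he hPe ?_ ?_ ?_
  · have h1 := hsl Q hQ
    have h2 : (2 : ℝ) * ht κ Q ≤ height κ X.x := by exact_mod_cast hhQ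
    have hHr : (0 : ℝ) < height κ X.x := by exact_mod_cast hpos
    have h3 : (n : ℝ) * (height κ X.x : ℝ) ≤
        2000 * (height κ X.x : ℝ) * ((finrank L Q : ℝ) - 1) := by
      have h4 : (0 : ℝ) ≤ n := Nat.cast_nonneg _
      push_cast at h1
      nlinarith
    have h5 : (n : ℝ) ≤ 2000 * ((finrank L Q : ℝ) - 1) := by
      refine le_of_mul_le_mul_right ?_ hHr
      linarith
    have h6 : n + 2000 ≤ 2000 * finrank L Q := by
      have : (n : ℝ) + 2000 ≤ 2000 * finrank L Q := by linarith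
      exact_mod_cast this
    omega
  · show 9 * ((C₁ * n : ℕ) : ℤ) * polyHeight κ P + 3 * ((C₁ * n : ℕ) : ℤ) * X.Δ < height κ X.x
    linarith
  · linarith
  · have h1 : 2 * ((n : ℤ) + 1) * (3 * polyHeight κ P + X.Δ) =
        6 * (n * polyHeight κ P) + 6 * polyHeight κ P + 2 * (((n : ℤ) + 1) * X.Δ) := by ring
    show 2 * ((n : ℤ) + 1) * (3 * polyHeight κ P + X.Δ) ≤ height κ X.x
    rw [h1]
    linarith

end Pool.Agent.Lib.MP_44a246_ntSH
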