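import Mathlib
import Pool.Agent.Lib.MP_44a246_ntSH.CV17

/-!
# The height theorem for generic hypersurfaces of general type (paper 619), over the base field
-/

namespace Pool.Agent.Lib.MP_44a246_ntSH

open Pool.Agent.Lib.MP_44a246_nt
open Pool.Agent.Lib.MP_44a246_ntL
open Pool.Agent.Lib.MP_44a246_ntS
open Pool.Agent.Lib.MP_44a246_ntX
open Pool.Agent.Lib.MP_44a246_ntG
open Pool.Agent.Lib.MP_44a246_ntC
open Pool.Agent.Lib.MP_44a246_ntE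
open Pool.Agent.Lib.MP_44a246_ntF
open Pool.Agent.Lib.MP_44a246_ntO
open Pool.Agent.Lib.MP_44a246_ntI (SmallI)
open Pool.Agent.Lib.MP_44a246_ntR (genus)
open Pool.Agent.Lib.MP_e52354_nt
open WithZero Module

universe u v w

private theorem exists_q (n : ℕ) : ∃ q : ℕ, ∀ u H : ℤ, u * q ≤ H →
    (u : ℝ) * ((n : ℝ) + 2) ^ 20 ≤ H := by
  refine ⟨(n + 2) ^ 20, fun u H h => ?_⟩
  have h1 : (u : ℝ) * (((n + 2) ^ 20 : ℕ) : ℝ) ≤ H := by exact_mod_cast h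
  push_cast at h1
  exact h1

/-- **The height theorem over the base field** (paper 619). -/
theorem sharp_base : ∃ (n₀ C₁ : ℕ), ∀ (n d : ℕ), n₀ ≤ n → n + 2 ≤ d → d ≤ 2 * n →
    ∀ (κ : Type u) (K : Type v) [Field κ] [IsAlgClosed κ] [CharZero κ] [Field K] [CharZero K]
      [Algebra κ K] (_ : IsFF κ K) (_ : Cardinal.aleph0 ≤ Algebra.trdeg ℚ κ)
      (a : (Fin (n + 1) →₀ ℕ) → K)
      (_ : AlgebraicIndependent ℚ (fun I : EX (n + 1) d => a I.1)),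
    ∃ C : ℕ, ∀ (L : Type w) [Field L] [Algebra K L] [FiniteDimensional K L]
      [Algebra κ L] [IsScalarTower κ K L] (x : Fin (n + 1) → L), x ≠ 0 →
      Fval d (fun I => algebraMap K L (a I)) x = 0 →
      height κ x ≤ C * ((finrank K L : ℤ) + ramDeg κ L K) ∨
      CertS d (fun I => algebraMap K L (a I)) (C₁ * n) (n / 2000 + 1) x ∨
      CertW (fun _ : Unit => d) (fun _ I => algebraMap K L (a I)) (n / 100) x := by
  obtain ⟨θ, nP, C₁, hθ, hP⟩ := planeCurve.{u, w} 1000 (1 / 100) le_rfl (by norm_num)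
  obtain ⟨nA, hA⟩ := caseA.{u, w} 1000 θ le_rfl hθ
  obtain ⟨nB, hB⟩ := caseB.{u, w} 1000 le_rfl
  refine ⟨max (max nP nA) (max nB 1000), C₁, fun n d hn hd hd2 κ K _ _ _ _ _ _ hK htr a ha => ?_⟩
  have hnP : nP ≤ n := le_trans (le_trans (le_max_left _ _) (le_max_left _ _)) hn
  have hnA : nA ≤ n := le_trans (le_trans (le_max_right _ _) (le_max_left _ _)) hn
  have hnB : nB ≤ n := le_trans (le_trans (le_max_left _ _) (le_max_right _ _)) hn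
  have hn1000 : 1000 ≤ n := le_trans (le_trans (le_max_right _ _) (le_max_right _ _)) hn
  obtain ⟨C₂, hC₂⟩ := exists_datS.{u, v, w} hK htr (n := n) (d := d) (by omega) ha
  obtain ⟨c, hc⟩ : ∃ c : ℕ, c = Fintype.card (EX (n + 1) d) := ⟨_, rfl⟩
  obtain ⟨q, hq⟩ := exists_q n
  obtain ⟨c₁, hc₁⟩ : ∃ c₁ : ℕ, c₁ = (27 * d ^ 2 + (n + 1) * ((n + 1) * (n + 1) + 1)) * (C₂ + 1) :=
    ⟨_, rfl⟩
  obtain ⟨c₂, hc₂⟩ : ∃ c₂ : ℕ, c₂ = 58 * d ^ 2 * C₂ + 23 := ⟨_, rfl⟩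
  obtain ⟨c₃, hc₃⟩ : ∃ c₃ : ℕ, c₃ = 6 * (C₁ * n) * C₂ := ⟨_, rfl⟩
  obtain ⟨c₄, hc₄⟩ : ∃ c₄ : ℕ, c₄ = 2 * (C₁ * n) * C₂ := ⟨_, rfl⟩
  obtain ⟨c₅, hc₅⟩ : ∃ c₅ : ℕ, c₅ = 4 * (n + 1) * C₂ := ⟨_, rfl⟩
  obtain ⟨c₆, hc₆⟩ : ∃ c₆ : ℕ, c₆ = (n * (C₂ + 1) + c * (2 * C₂ + 2) + 2 * C₂ + 1) * q :=
    ⟨_, rfl⟩
  refine ⟨c₁ + c₂ + c₃ + c₄ + c₅ + c₆, ?_⟩
  intro L _ _ _ _ _ x hx hF
  have hL : IsFF κ L := hK.of_finite
  have hchar : CharZero L := charZero_of_injective_algebraMap (algebraMap K L).injective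
  obtain ⟨X, R, t, τ, ht0, hXx, hRx, hXa, hh, hτ, hτa, hΔ, hXR, hτs, hRΔ, hg⟩ := hC₂ L x hx hF
  obtain ⟨D, hD⟩ : ∃ D : ℤ, D = (finrank K L : ℤ) + ramDeg κ L K := ⟨_, rfl⟩
  have hf1 : (1 : ℤ) ≤ finrank K L := by exact_mod_cast Module.finrank_pos (R := K) (M := L)
  have hr0 : (0 : ℤ) ≤ ramDeg κ L K := Int.natCast_nonneg _
  have hD1 : 1 ≤ D := by rw [hD]; linarith
  have hfD : (finrank K L : ℤ) ≤ D := by rw [hD]; linarith
  have hrD : (ramDeg κ L K : ℤ) ≤ D := by rw [hD]; linarith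
  have hC20 : (0 : ℤ) ≤ C₂ := Int.natCast_nonneg _
  have hΔD : X.toDatG.Δ ≤ C₂ * D := hΔ.trans (mul_le_mul_of_nonneg_left hfD hC20)
  have hτD : ∑ᶠ w, (τ w : ℤ) ≤ C₂ * D := hτs.trans (mul_le_mul_of_nonneg_left hfD hC20)
  have hRD : R.Δ ≤ (C₂ + 1) * D := by
    refine hRΔ.trans ?_
    have := mul_le_mul_of_nonneg_left hfD hC20
    linarith
  have hgD : (genus κ L : ℤ) ≤ C₂ * D := by rw [hD]; exact hg
  have hXRD : X.toDatG.R ≤ D := by rw [hXR]; exact hrD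
  rw [← hD]
  rcases le_or_gt (height κ x) (((c₁ + c₂ + c₃ + c₄ + c₅ + c₆ : ℕ) : ℤ) * D) with hle | hgt
  · exact Or.inl hle
  right
  rw [← hh] at hgt
  have hΔ0 := X.toDatG.Δ_nonneg
  have hR0 := X.toDatG.R_nonneg
  have hτ0 : 0 ≤ ∑ᶠ w, (τ w : ℤ) := finsum_nonneg fun w => Int.natCast_nonneg _
  have hD0 : (0 : ℤ) ≤ D := by linarith
  -- the six parts of the constant
  have p1 : (0 : ℤ) ≤ (c₁ : ℤ) * D := mul_nonneg (Int.natCast_nonneg _) hD0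
  have p2 : (0 : ℤ) ≤ (c₂ : ℤ) * D := mul_nonneg (Int.natCast_nonneg _) hD0
  have p3 : (0 : ℤ) ≤ (c₃ : ℤ) * D := mul_nonneg (Int.natCast_nonneg _) hD0
  have p4 : (0 : ℤ) ≤ (c₄ : ℤ) * D := mul_nonneg (Int.natCast_nonneg _) hD0
  have p5 : (0 : ℤ) ≤ (c₅ : ℤ) * D := mul_nonneg (Int.natCast_nonneg _) hD0
  have p6 : (0 : ℤ) ≤ (c₆ : ℤ) * D := mul_nonneg (Int.natCast_nonneg _) hD0
  have hsum : (c₁ : ℤ) * D + (c₂ : ℤ) * D + (c₃ : ℤ) * D + (c₄ : ℤ) * D + (c₅ : ℤ) * D +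
      (c₆ : ℤ) * D < height κ X.x := by
    refine lt_of_le_of_lt (le_of_eq ?_) hgt
    push_cast
    ring
  have hpos : 0 < height κ X.x := by linarith
  have b1 : (27 * (d : ℤ) ^ 2 + (n + 1) * ((n + 1) * (n + 1) + 1)) * (X.toDatG.Δ + X.toDatG.R) <
      height κ X.x := by
    have h1 : (27 * (d : ℤ) ^ 2 + (n + 1) * ((n + 1) * (n + 1) + 1)) *
        (X.toDatG.Δ + X.toDatG.R) ≤
        (27 * (d : ℤ) ^ 2 + (n + 1) * ((n + 1) * (n + 1) + 1)) * ((C₂ + 1) * D) :=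
      mul_le_mul_of_nonneg_left (by linarith) (by positivity)
    have h2 : (27 * (d : ℤ) ^ 2 + (n + 1) * ((n + 1) * (n + 1) + 1)) * ((C₂ + 1) * D) =
        (c₁ : ℤ) * D := by
      rw [hc₁]
      push_cast
      ring
    linarith
  have b2 : (29 * (d : ℤ) ^ 2) * (X.toDatG.Δ + ∑ᶠ w, (τ w : ℤ)) + 23 * X.toDatG.R <
      height κ X.x := by
    have h1 : (29 * (d : ℤ) ^ 2) * (X.toDatG.Δ + ∑ᶠ w, (τ w : ℤ)) ≤
        (29 * (d : ℤ) ^ 2) * (C₂ * D + C₂ * D) :=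
      mul_le_mul_of_nonneg_left (by linarith) (by positivity)
    have h2 : (29 * (d : ℤ) ^ 2) * (C₂ * D + C₂ * D) + 23 * D =
        (c₂ : ℤ) * D := by
      rw [hc₂]
      push_cast
      ring
    linarith
  have b3 : 6 * ((C₁ * n : ℕ) : ℤ) * X.toDatG.Δ ≤ height κ X.x := by
    have h1 : 6 * ((C₁ * n : ℕ) : ℤ) * X.toDatG.Δ ≤ 6 * ((C₁ * n : ℕ) : ℤ) * (C₂ * D) :=
      mul_le_mul_of_nonneg_left hΔD (by positivity)
    have h2 : 6 * ((C₁ * n : ℕ) : ℤ) * (C₂ * D) = (c₃ : ℤ) * D := by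
      rw [hc₃]
      push_cast
      ring
    linarith
  have b4 : 2 * ((C₁ * n : ℕ) : ℤ) * ∑ᶠ w, (τ w : ℤ) ≤ height κ X.x := by
    have h1 : 2 * ((C₁ * n : ℕ) : ℤ) * ∑ᶠ w, (τ w : ℤ) ≤ 2 * ((C₁ * n : ℕ) : ℤ) * (C₂ * D) :=
      mul_le_mul_of_nonneg_left hτD (by positivity)
    have h2 : 2 * ((C₁ * n : ℕ) : ℤ) * (C₂ * D) = (c₄ : ℤ) * D := by
      rw [hc₄]
      push_cast
      ring
    linarith
  have b5 : 4 * ((n : ℤ) + 1) * X.toDatG.Δ ≤ height κ X.x := by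
    have h1 : 4 * ((n : ℤ) + 1) * X.toDatG.Δ ≤ 4 * ((n : ℤ) + 1) * (C₂ * D) :=
      mul_le_mul_of_nonneg_left hΔD (by positivity)
    have h2 : 4 * ((n : ℤ) + 1) * (C₂ * D) = (c₅ : ℤ) * D := by
      rw [hc₅]
      push_cast
      ring
    linarith
  -- the error term
  obtain ⟨E, hE⟩ : ∃ E : ℤ, E = n * R.Δ + c * (R.Δ + genus κ L + 1) + X.toDatG.Δ := ⟨_, rfl⟩
  have hRΔ0 : 0 ≤ R.Δ := finsum_nonneg fun w => Int.natCast_nonneg _
  have hg0 : (0 : ℤ) ≤ genus κ L := Int.natCast_nonneg _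
  have hn0 : (0 : ℤ) ≤ n := Int.natCast_nonneg _
  have hc0 : (0 : ℤ) ≤ c := Int.natCast_nonneg _
  have hE0 : 0 ≤ E := by
    rw [hE]
    positivity
  have b6' : (E + genus κ L + 1) * (q : ℤ) ≤ height κ X.x := by
    have h1 : E + genus κ L + 1 ≤ (n * (C₂ + 1) + c * (2 * C₂ + 2) + 2 * C₂ + 1) * D := by
      have k1 : (n : ℤ) * R.Δ ≤ n * ((C₂ + 1) * D) := mul_le_mul_of_nonneg_left hRD hn0
      have k2 : (c : ℤ) * (R.Δ + genus κ L + 1) ≤ c * ((C₂ + 1) * D + C₂ * D + D) :=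
        mul_le_mul_of_nonneg_left (by linarith) hc0
      rw [hE]
      have k3 : ((n : ℤ) * (C₂ + 1) + c * (2 * C₂ + 2) + 2 * C₂ + 1) * D =
          n * ((C₂ + 1) * D) + c * ((C₂ + 1) * D + C₂ * D + D) + C₂ * D + C₂ * D + D := by ring
      linarith
    have h2 : (E + genus κ L + 1) * (q : ℤ) ≤
        (n * (C₂ + 1) + c * (2 * C₂ + 2) + 2 * C₂ + 1) * D * (q : ℤ) :=
      mul_le_mul_of_nonneg_right h1 (Int.natCast_nonneg _)
    have h3 : ((n : ℤ) * (C₂ + 1) + c * (2 * C₂ + 2) + 2 * C₂ + 1) * D * (q : ℤ) =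
        (c₆ : ℤ) * D := by
      rw [hc₆]
      push_cast
      ring
    linarith
  have b6 : ((E : ℝ) + genus κ L + 1) * ((n : ℝ) + 2) ^ 20 ≤ height κ X.x := by
    have h1 := hq _ _ b6'
    have h2 : (((E + genus κ L + 1 : ℤ)) : ℝ) = (E : ℝ) + genus κ L + 1 := by
      push_cast
      ring
    rw [h2] at h1
    exact h1
  -- Step 0
  rcases step0 hL (b := n / 100) (C₀ := 1000) X.toDatG X.hF (by omega) hd (by omega) (by omega)
    (by norm_num) (by omega) b1 with hsl | hsm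
  · left
    have hnR : (0 : ℝ) < n := by
      have : 0 < n := by omega
      exact_mod_cast this
    have hHr : (0 : ℝ) < height κ X.x := by exact_mod_cast hpos
    have hyp : Hyp κ X.toP.x d 1000 (1000 * height κ X.x / n) E := by
      refine ⟨X.toDatG.x_ne_zero, fun Q hQ => ?_, by positivity, ?_, hd, hd2, ?_,
        by exact_mod_cast hE0, b6⟩
      · have h1 := hsl Q hQ
        show (height κ X.x : ℝ) - ht κ Q ≤ 1000 * height κ X.x / n * ((finrank L Q : ℝ) - 1)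
        rw [div_mul_eq_mul_div, le_div_iff₀ hnR]
        push_cast at h1
        linarith
      · show (1000 * (height κ X.x : ℝ) / n) * n ≤ 1000 * height κ X.x
        rw [div_mul_cancel₀ _ hnR.ne']
      · show Rows κ X.x d E
        have h1 := rows_of_data hL R
        rw [hRx] at h1
        refine h1.mono ?_
        rw [← hc, hE]
        push_cast
        have h2 : (0 : ℝ) ≤ X.toDatG.Δ := by exact_mod_cast hΔ0
        linarith
    have hcA := hB n d hnB κ L hL X.toP.x _ _ hyp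
    obtain ⟨s, W, hs1, hs2, hW, hWe⟩ := hA n d hnA κ L hL X.toP.x _ _ hyp hcA
    have hΔE : (X.toP.Δ : ℝ) ≤ (E : ℝ) := by
      have h1 : X.toP.Δ = X.toDatG.Δ := rfl
      have h2 : X.toDatG.Δ ≤ E := by
        rw [hE]
        have h3 : 0 ≤ (n : ℤ) * R.Δ + c * (R.Δ + genus κ L + 1) := by positivity
        linarith
      rw [h1]
      exact_mod_cast h2
    obtain ⟨e, P, he, hP0, hPh, hPe, hPs⟩ := hP n d hnP κ L hL X.toP _ _ hyp hΔE s W hs1 hs2 hW hWe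
    have h1 := certS_of_slope hL X hd2 (by omega) hsl hτ hτa he hP0 hPh hPe hPs hpos b3 b4 b5
    rw [hXa, hXx] at h1
    exact (certS_smul ht0).1 h1
  · right
    have h1 := certW_of_smallI hL X.toDatG X.hF (b := n / 100) (by omega) (by omega) hτ hτa hsm b2
    have h2 : CertW (fun _ : Unit => d) (fun _ => X.a) (n / 100) X.x := h1
    rw [hXa, hXx] at h2
    exact (certW_smul ht0).1 h2

end Pool.Agent.Lib.MP_44a246_ntSH
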