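import Mathlib
import Pool.Agent.Lib.MP_44a246_ntK.K10
import Pool.Agent.Lib.MP_e52354_nt.Span

/-!
# The coefficients of generic forms, indexed by `jexpo`
-/

namespace Pool.Agent.Lib.MP_44a246_ntSH

open Pool.Agent.Lib.MP_44a246_ntL
open Pool.Agent.Lib.MP_44a246_ntS
open Pool.Agent.Lib.MP_44a246_ntG
open Pool.Agent.Lib.MP_44a246_ntK
open Pool.Agent.Lib.MP_e52354_nt
open MvPolynomial

/-- the coefficients of the forms, indexed by `jexpo` -/
theorem algInd_jexpo {K : Type*} [Field K] [CharZero K] {n p : ℕ} {d : Fin p → ℕ}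
    {F : Fin p → MvPolynomial (Fin (n + 1)) K}
    (hgen : AlgebraicIndependent ℚ
      (fun I : {I : Fin p × (Fin (n + 1) →₀ ℕ) // I.2.degree = d I.1} => (F I.1.1).coeff I.1.2)) :
    AlgebraicIndependent ℚ (fun s : {s : Fin p × (Fin (n + 1) →₀ ℕ) // s ∈ jexpo n d} =>
      (F s.1.1).coeff s.1.2) := by
  have h1 : (fun s : {s : Fin p × (Fin (n + 1) →₀ ℕ) // s ∈ jexpo n d} =>
      (F s.1.1).coeff s.1.2) =
      (fun I : {I : Fin p × (Fin (n + 1) →₀ ℕ) // I.2.degree = d I.1} =>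
        (F I.1.1).coeff I.1.2) ∘
      (fun s : {s : Fin p × (Fin (n + 1) →₀ ℕ) // s ∈ jexpo n d} =>
        ⟨s.1, mem_expo.1 (mem_jexpo.1 s.2)⟩) := rfl
  rw [h1]
  apply hgen.comp
  rintro ⟨s, h⟩ ⟨s', h'⟩ heq
  simp only [Subtype.mk.injEq] at heq
  subst heq
  rfl

/-- an exponent with `(3 / 2) ^ i` large -/
theorem exists_pow_le (C : ℕ) : ∃ i : ℕ, 2 ^ i * C ≤ 3 ^ i := by
  obtain ⟨i, hi⟩ := pow_unbounded_of_one_lt (C : ℝ) (by norm_num : (1 : ℝ) < 3 / 2)
  refine ⟨i, ?_⟩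
  have h1 : (2 : ℝ) ^ i * C ≤ 3 ^ i := by
    have h2 : (3 : ℝ) ^ i = 2 ^ i * (3 / 2) ^ i := by
      rw [← mul_pow]
      norm_num
    rw [h2]
    exact mul_le_mul_of_nonneg_left hi.le (by positivity)
  exact_mod_cast h1

/-- a form is the sum of its monomials -/
theorem form_eq_sum {K : Type*} [Field K] {n d : ℕ} {F : MvPolynomial (Fin n) K}
    (hF : F.IsHomogeneous d) : ∑ I ∈ expo (Fin n) d, monomial I (F.coeff I) = F := by
  classical
  ext J
  rw [coeff_sum]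
  by_cases hJ : J ∈ expo (Fin n) d
  · rw [Finset.sum_eq_single_of_mem J hJ]
    · rw [coeff_monomial, if_pos rfl]
    · intro I _ hI
      rw [coeff_monomial, if_neg hI]
  · rw [Finset.sum_eq_zero, hF.coeff_eq_zero fun h => hJ (mem_expo.2 h)]
    intro I hI
    rw [coeff_monomial, if_neg]
    rintro rfl
    exact hJ hI

end Pool.Agent.Lib.MP_44a246_ntSH
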