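import Mathlib
import Pool.Agent.Lib.MP_44a246_nt.PolyMain
import Pool.Agent.Lib.MP_44a246_ntS.SV2
import Pool.Agent.Lib.MP_44a246_ntSH.CV11
import Pool.Agent.Lib.MP_44a246_ntSH.CV18
import Pool.Agent.Lib.MP_44a246_ntSH.CW10a

/-!
# The height theorem for generic hypersurfaces of general type (paper 619)
-/

namespace Pool.Agent.Lib.MP_44a246_ntSH

open Pool.Agent.Lib.MP_44a246_nt
open Pool.Agent.Lib.MP_44a246_ntL
open Pool.Agent.Lib.MP_44a246_ntS
open Pool.Agent.Lib.MP_44a246_ntX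
open Pool.Agent.Lib.MP_44a246_ntF
open Pool.Agent.Lib.MP_44a246_ntE
open Pool.Agent.Lib.MP_e52354_nt
open MvPolynomial Module

universe u v w

/-- **The height theorem for generic hypersurfaces of general type** (paper 619): there is `n₀` such
that for `n ≥ n₀` and a generic form `F` of degree `d ≥ n + 2` in `n + 1` variables over a function
field `K`, all points of the hypersurface outside of a fixed proper closed subset have height at
most a constant times the degree plus the ramification. -/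
theorem sharp_main : ∃ n₀ : ℕ, ∀ (n d : ℕ), n₀ ≤ n → n + 2 ≤ d →
    ∀ (κ : Type u) (K : Type v) [Field κ] [IsAlgClosed κ] [CharZero κ] [Field K] [CharZero K]
      [Algebra κ K] (_ : Cardinal.aleph0 ≤ Algebra.trdeg ℚ κ) (t : K) (_ : Transcendental κ t)
      (_ : FiniteDimensional (IntermediateField.adjoin κ {t}) K)
      (F : MvPolynomial (Fin (n + 1)) K) (_ : F.IsHomogeneous d)
      (_ : AlgebraicIndependent ℚ
        (fun I : {I : Fin (n + 1) →₀ ℕ // I.degree = d} => F.coeff I.1)),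
    ∃ G : MvPolynomial (Fin (n + 1)) K, (∃ e, G.IsHomogeneous e) ∧
      (∃ z : Fin (n + 1) → AlgebraicClosure K, z ≠ 0 ∧ aeval z F = 0 ∧ aeval z G ≠ 0) ∧
      ∃ C : ℕ, ∀ (L : Type w) [Field L] [Algebra K L] [FiniteDimensional K L] [Algebra κ L]
        [IsScalarTower κ K L] (x : Fin (n + 1) → L), x ≠ 0 → aeval x F = 0 →
        height κ x ≤ C * ((finrank K L : ℤ) + ramDeg κ L K) ∨ aeval x G = 0 := by
  obtain ⟨n₁, C₁, hmain⟩ := sharp_base.{u, v, w}
  obtain ⟨i, hi⟩ := exists_pow_le (8000 * C₁)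
  refine ⟨max (max n₁ 499527) (6 * 2 ^ i),
    fun n d hn hd κ K _ _ _ _ _ _ htr t ht hfin F hF hgen => ?_⟩
  have hn1 : n₁ ≤ n := le_trans (le_trans (le_max_left _ _) (le_max_left _ _)) hn
  have hn2 : 499527 ≤ n := le_trans (le_trans (le_max_right _ _) (le_max_left _ _)) hn
  have hn3 : 6 * 2 ^ i ≤ n := le_trans (le_max_right _ _) hn
  rcases le_or_gt d (2 * n) with hd2 | hd2
  · obtain ⟨R, rfl⟩ : ∃ R, n = R + 2 := ⟨n - 2, by omega⟩
    have ha : AlgebraicIndependent ℚ (fun I : ↥(expo (Fin (R + 2 + 1)) d) => F.coeff I.1) := by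
      have h1 : (fun I : ↥(expo (Fin (R + 2 + 1)) d) => F.coeff I.1) =
          (fun I : {I : Fin (R + 2 + 1) →₀ ℕ // I.degree = d} => F.coeff I.1) ∘
          (fun I : ↥(expo (Fin (R + 2 + 1)) d) => ⟨I.1, mem_expo.mp I.2⟩) := rfl
      rw [h1]
      apply hgen.comp
      rintro ⟨I, h⟩ ⟨I', h'⟩ heq
      simp only [Subtype.mk.injEq] at heq
      subst heq
      rfl
    obtain ⟨C, hC⟩ := hmain (R + 2) d hn1 hd hd2 κ K ⟨t, ht, hfin⟩ htr (fun I => F.coeff I) ha
    obtain ⟨G, hG1, hG2, hG3⟩ := exists_excFormB.{v, w} (k := ℚ) (K := K) (R := R) (d := d)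
      (b := C₁ * (R + 2)) (N := (R + 2) / 2000) (i := i) (b₁ := (R + 2) / 100) (by omega) (by
        have h1 : R + 2 ≤ 4000 * ((R + 2) / 2000) := by omega
        calc 2 ^ i * (2 * (C₁ * (R + 2)))
            ≤ 2 ^ i * (2 * (C₁ * (4000 * ((R + 2) / 2000)))) := by gcongr
          _ = 2 ^ i * (8000 * C₁) * ((R + 2) / 2000) := by ring
          _ ≤ 3 ^ i * ((R + 2) / 2000) := Nat.mul_le_mul_right _ hi) (by omega) (by omega)
      (a := fun I => F.coeff I) ha
    rw [form_eq_sum hF] at hG2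
    refine ⟨G, hG1, hG2, C, ?_⟩
    intro L _ _ _ _ _ x hx hFx
    rw [aeval_eq_Fval F hF] at hFx
    rcases hC L x hx hFx with h | h
    · exact Or.inl h
    · exact Or.inr (hG3 L x h)
  · obtain ⟨G, hG1, hG2, C, hC⟩ := slope_main.{u, v, w} htr ht (n := n) (d := d) (T := 3)
      (by omega) (by norm_num) (by omega) F hF hgen
    refine ⟨G, hG1, hG2, 27 * d ^ 2 + C, ?_⟩
    intro L _ _ _ _ _ x hx hFx
    rcases hC L x hx hFx with h | h
    · left
      refine h.trans ?_
      have h1 : (0 : ℤ) ≤ (27 * (d : ℤ) ^ 2) * finrank K L := by positivity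
      have h2 : (0 : ℤ) ≤ (C : ℤ) * ramDeg κ L K := by positivity
      push_cast
      linarith
    · exact Or.inr h.1

end Pool.Agent.Lib.MP_44a246_ntSH
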