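import Mathlib
import Pool.Agent.Lib.MP_44a246_ntS.SV1
import Pool.Agent.Lib.MP_44a246_ntU.U02
import Pool.Agent.Lib.MP_44a246_ntI.I06
import Pool.Agent.Lib.MP_44a246_ntSH.CV19

/-!
The height theorem for generic hypersurfaces of general type, for all but finitely many pairs
`(n, d)`.
-/

namespace Pool.Agent.Lib.MP_44a246_ntSH

open Pool.Agent.Lib.MP_44a246_nt
open Pool.Agent.Lib.MP_44a246_ntL
open Pool.Agent.Lib.MP_44a246_ntS
open Pool.Agent.Lib.MP_44a246_ntG
open Pool.Agent.Lib.MP_44a246_ntU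
open Pool.Agent.Lib.MP_44a246_ntI
open Pool.Agent.Lib.MP_e52354_nt
open MvPolynomial Module

universe u v w

/-- Forms which define a set of small dimension do not all vanish on a hypersurface. -/
theorem exists_not_on {K : Type*} [Field K] [CharZero K] {n d m' : ℕ} (hn : 1 ≤ n) (hd : 1 ≤ d)
    (hm : m' < n) {F : MvPolynomial (Fin (n + 1)) K} (hF : F.IsHomogeneous d)
    (hFn : F.coeff (Finsupp.single (Fin.last n) d) ≠ 0) {a : ℕ}
    {G : Fin a → MvPolynomial (Fin (n + 1)) K}
    (hG : ringKrullDim (MvPolynomial (Fin (n + 1)) K ⧸ Ideal.span (Set.range G)) ≤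
      (m' : WithBot ℕ∞)) :
    ∃ i, ∃ z : Fin (n + 1) → AlgebraicClosure K, z ≠ 0 ∧ aeval z F = 0 ∧ aeval z (G i) ≠ 0 := by
  classical
  -- a polynomial in the first variables in the ideal
  obtain ⟨P, hP0, hP⟩ : ∃ P : MvPolynomial (Fin n) K, P ≠ 0 ∧
      rename Fin.castSucc P ∈ Ideal.span (Set.range G) := by
    by_contra hcon
    push Not at hcon
    let S : Submonoid (MvPolynomial (Fin (n + 1)) K) :=
      (nonZeroDivisors (MvPolynomial (Fin n) K)).map
        (rename (Fin.castSucc : Fin n → Fin (n + 1)) : MvPolynomial (Fin n) K →ₐ[K] _)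
    have hS : Disjoint (Ideal.span (Set.range G) : Set (MvPolynomial (Fin (n + 1)) K)) S := by
      rw [Set.disjoint_left]
      rintro Q hQ ⟨P, hP, rfl⟩
      exact hcon P (nonZeroDivisors.ne_zero hP) hQ
    obtain ⟨q, hq, hGq, hSq⟩ := Ideal.exists_le_prime_disjoint _ _ hS
    let A := MvPolynomial (Fin (n + 1)) K ⧸ q
    let M := FractionRing A
    let γ : Fin (n + 1) → M := fun j => algebraMap A M (Ideal.Quotient.mk q (X j))
    have hγ : ∀ Q : MvPolynomial (Fin (n + 1)) K, aeval γ Q =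
        algebraMap A M (Ideal.Quotient.mk q Q) := by
      intro Q
      have h1 : (aeval γ : MvPolynomial (Fin (n + 1)) K →ₐ[K] M) =
          (IsScalarTower.toAlgHom K A M).comp (Ideal.Quotient.mkₐ K q) := by
        refine MvPolynomial.algHom_ext fun j => ?_
        rw [aeval_X]
        rfl
      rw [h1]
      rfl
    have hind : AlgebraicIndependent K (fun i : Fin n => γ (Fin.castSucc i)) := by
      rw [algebraicIndependent_iff]
      intro P hP
      by_contra hP0
      have h1 : aeval γ (rename Fin.castSucc P) = 0 := by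
        rw [aeval_rename]
        exact hP
      rw [hγ, map_eq_zero_iff _ (IsFractionRing.injective A M), Ideal.Quotient.eq_zero_iff_mem]
        at h1
      exact Set.disjoint_left.1 hSq h1 ⟨P, mem_nonZeroDivisors_of_ne_zero hP0, rfl⟩
    have h2 : n ≤ m' := by
      refine card_le_of_dim (γ := γ) (j := Fin.castSucc) hG (fun f hf => ?_) hind
      rw [hγ, Ideal.Quotient.eq_zero_iff_mem.2 (hGq hf), map_zero]
    omega
  obtain ⟨z, hz0, hzF, hzP⟩ := exists_on_not hn hd hF hFn (G := rename Fin.castSucc P)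
    (fun h => hP0 (rename_injective _ (Fin.castSucc_injective n) (by rw [h, map_zero]))) (by
      rw [degreeOf_eq_sup, ← Nat.bot_eq_zero, Finset.sup_eq_bot_iff]
      intro I hI
      rw [support_rename_of_injective (Fin.castSucc_injective n), Finset.mem_image] at hI
      obtain ⟨J, -, rfl⟩ := hI
      rw [Nat.bot_eq_zero]
      refine Finsupp.mapDomain_notin_range _ _ ?_
      rintro ⟨i, hi⟩
      exact (Fin.castSucc_lt_last i).ne hi)
  by_contra hcon
  push Not at hcon
  apply hzP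
  have h1 : Ideal.span (Set.range G) ≤ RingHom.ker (aeval z : MvPolynomial (Fin (n + 1)) K →ₐ[K] _) := by
    rw [Ideal.span_le]
    rintro _ ⟨i, rfl⟩
    exact hcon i z hz0 hzF
  exact h1 hP

/-- the transcendence degree of the field of the coefficients -/
theorem card_le_trdeg_of_indep {K : Type*} [Field K] [CharZero K] {n d : ℕ}
    {F : MvPolynomial (Fin (n + 1)) K}
    (hgen : AlgebraicIndependent ℚ
      (fun I : {I : Fin (n + 1) →₀ ℕ // I.degree = d} => F.coeff I.1)) :
    (Nat.card {I : Fin 1 × (Fin (n + 1) →₀ ℕ) // I.2.degree = (fun _ : Fin 1 => d) I.1} :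
      Cardinal) ≤ Algebra.trdeg ℚ (IntermediateField.adjoin ℚ
        (Set.range fun I : {I : Fin 1 × (Fin (n + 1) →₀ ℕ) //
          I.2.degree = (fun _ : Fin 1 => d) I.1} =>
          ((fun _ : Fin 1 => F) I.1.1).coeff I.1.2)) + ((0 : ℕ) : Cardinal) := by
  classical
  set T := {I : Fin 1 × (Fin (n + 1) →₀ ℕ) // I.2.degree = (fun _ : Fin 1 => d) I.1} with hT
  have hfin : Finite T := by
    have h1 : Finite ↥(expo (Fin (n + 1)) d) := inferInstance
    refine Finite.of_injective (β := ↥(expo (Fin (n + 1)) d))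
      (fun I => ⟨I.1.2, mem_expo.2 I.2⟩) ?_
    rintro ⟨⟨i, I⟩, hI⟩ ⟨⟨i', I'⟩, hI'⟩ h
    simp only [Subtype.mk.injEq] at h
    subst h
    rw [Subsingleton.elim i i']
  have h1 : AlgebraicIndependent ℚ (fun I : T => F.coeff I.1.2) := by
    have h2 : (fun I : T => F.coeff I.1.2) =
        (fun I : {I : Fin (n + 1) →₀ ℕ // I.degree = d} => F.coeff I.1) ∘
        (fun I : T => ⟨I.1.2, I.2⟩) := rfl
    rw [h2]
    apply hgen.comp
    rintro ⟨⟨i, I⟩, hI⟩ ⟨⟨i', I'⟩, hI'⟩ h
    simp only [Subtype.mk.injEq] at h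
    subst h
    rw [Subsingleton.elim i i']
  set E := IntermediateField.adjoin ℚ (Set.range fun I : T => ((fun _ : Fin 1 => F) I.1.1).coeff
    I.1.2) with hE
  have h2 : AlgebraicIndependent ℚ
      (fun I : T => (⟨F.coeff I.1.2, IntermediateField.subset_adjoin ℚ _ ⟨I, rfl⟩⟩ : E)) := by
    refine AlgebraicIndependent.of_comp E.val ?_
    exact h1
  have h3 := h2.lift_cardinalMk_le_trdeg
  rw [Nat.cast_zero, add_zero]
  have h4 : Fintype T := Fintype.ofFinite T
  rw [Nat.card_eq_fintype_card]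
  simpa using h3

/-- The height theorem for a generic hypersurface: the two cases of the slope theorem. -/
theorem slope_hyper {n d : ℕ} (hn : 2 ≤ n)
    (hc : n + 301 ≤ d ∨ 3 * n + 4 ≤ 2 * d ∧ 7 ≤ d)
    {κ : Type u} {K : Type v} [Field κ] [IsAlgClosed κ] [CharZero κ] [Field K] [CharZero K]
    [Algebra κ K] (htr : Cardinal.aleph0 ≤ Algebra.trdeg ℚ κ) {t : K} (ht : Transcendental κ t)
    (hfin : FiniteDimensional (IntermediateField.adjoin κ {t}) K)
    {F : MvPolynomial (Fin (n + 1)) K} (hF : F.IsHomogeneous d)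
    (hgen : AlgebraicIndependent ℚ
      (fun I : {I : Fin (n + 1) →₀ ℕ // I.degree = d} => F.coeff I.1)) :
    ∃ G : MvPolynomial (Fin (n + 1)) K, (∃ e, G.IsHomogeneous e) ∧
      (∃ z : Fin (n + 1) → AlgebraicClosure K, z ≠ 0 ∧ aeval z F = 0 ∧ aeval z G ≠ 0) ∧
      ∃ C : ℕ, ∀ (L : Type w) [Field L] [Algebra K L] [FiniteDimensional K L] [Algebra κ L]
        [IsScalarTower κ K L] (x : Fin (n + 1) → L), x ≠ 0 → aeval x F = 0 →
        height κ x ≤ C * ((finrank K L : ℤ) + ramDeg κ L K) ∨ aeval x G = 0 := by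
  classical
  have hd1 : 1 ≤ d := by omega
  have hFn : F.coeff (Finsupp.single (Fin.last n) d) ≠ 0 :=
    AlgebraicIndependent.ne_zero hgen ⟨_, Finsupp.degree_single _ _⟩
  have hcard : ∀ A : Finset (Fin 1), A.card = 1 → ∑ j ∈ A, (fun _ : Fin 1 => d) j = d := by
    intro A hA
    rw [Finset.sum_const, hA, one_smul]
  obtain ⟨a, G, hG1, hG2, C, hC⟩ := slope_mainRI.{u, v, w} htr ht (k := ℚ)
    (by rw [trdeg_eq_zero]; exact Cardinal.aleph0_pos) (n := n) (p := 1) (r := n) (ρ := 1)
    (σ := 4) (D := if n + 301 ≤ d ∧ 600 ≤ d then d else 0) (c := 0) (s := 1)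
    (m := d - 1) (P := d * (d + 1)) (Q := 1) (m' := 2 * n - d - 1) (d := fun _ => d)
    (ι := Unit) (e := fun _ => d) (f := fun _ => X (Sum.inl 0))
    (fun _ => isWeightedHomogeneous_X _ _ _) (by
      refine (ringKrullDim_quotient_le _).trans ?_
      rw [dim_mvPolynomial]) (by omega) le_rfl le_rfl (fun A hA => by
      rw [hcard A hA]
      omega) (by
      by_cases h600 : n + 301 ≤ d ∧ 600 ≤ d
      · right
        rw [if_pos h600]
        refine ⟨hn, by omega, by omega, by omega, fun _ => le_rfl, by omega, by omega, ?_,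
          fun _ => Or.inr ?_⟩
        · exact Nat.one_le_pow _ _ hd1
        · nlinarith
      · left
        rw [if_neg h600]
        refine ⟨rfl, fun _ => hd1, by omega, by omega, by omega, ?_, fun _ => Or.inr (Or.inl ?_)⟩
        · obtain ⟨y, rfl⟩ : ∃ y, d = y + 7 := ⟨d - 7, by omega⟩
          rw [show y + 7 - 1 = y + 6 from rfl]
          nlinarith
        · exact Nat.mul_le_mul_right _ (by omega)) (fun A hA => by
      rw [hcard A hA]
      omega) (fun _ => F) (fun _ => hF) (card_le_trdeg_of_indep hgen)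
  obtain ⟨i, hi⟩ := exists_not_on (by omega) hd1 (by omega) hF hFn hG2
  refine ⟨G i, hG1 i, hi, C + d * (d + 1) + 1, ?_⟩
  intro L _ _ _ _ _ x hx hFx
  have hcL : CharZero L := charZero_of_injective_algebraMap (algebraMap K L).injective
  have hfr : (0 : ℤ) ≤ finrank K L := by positivity
  have hRam : (0 : ℤ) ≤ ramDeg κ L K := Int.natCast_nonneg _
  rcases hC L x hx (fun _ => by rw [aeval_X]; exact hFx) (by
    left
    refine ⟨fun _ => (), fun _ => 0, ?_⟩
    rw [Matrix.det_unique, Matrix.of_apply, pderiv_X_self, map_one]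
    exact one_ne_zero) with h | h
  · left
    rcases h.1 with h1 | h1
    · push_cast at h1 ⊢
      nlinarith [mul_nonneg (Int.natCast_nonneg C) hfr, mul_nonneg (Int.natCast_nonneg C) hRam,
        mul_nonneg (mul_nonneg (Int.natCast_nonneg d) (Int.natCast_nonneg d)) hfr,
        mul_nonneg (mul_nonneg (Int.natCast_nonneg d) (Int.natCast_nonneg d)) hRam,
        mul_nonneg (Int.natCast_nonneg d) hfr, mul_nonneg (Int.natCast_nonneg d) hRam]
    · push_cast at h1 ⊢
      nlinarith [mul_nonneg (Int.natCast_nonneg C) hfr, mul_nonneg (Int.natCast_nonneg C) hRam,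
        mul_nonneg (mul_nonneg (Int.natCast_nonneg d) (Int.natCast_nonneg d)) hfr,
        mul_nonneg (mul_nonneg (Int.natCast_nonneg d) (Int.natCast_nonneg d)) hRam,
        mul_nonneg (Int.natCast_nonneg d) hfr, mul_nonneg (Int.natCast_nonneg d) hRam]
  · exact Or.inr (h.1 i)

/-- **The height theorem for generic hypersurfaces of general type**: all but finitely many pairs
`(n, d)`. -/
theorem sharp_final : ∃ S : Finset (ℕ × ℕ),
    (∀ q ∈ S, q.2 ≤ q.1 + 300 ∧ (2 * q.2 ≤ 3 * q.1 + 3 ∨ q.2 ≤ 6)) ∧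
    ∀ (n d : ℕ), 2 ≤ n → n + 2 ≤ d → (n, d) ∉ S →
    ∀ (κ : Type u) (K : Type v) [Field κ] [IsAlgClosed κ] [CharZero κ] [Field K] [CharZero K]
      [Algebra κ K] (_ : Cardinal.aleph0 ≤ Algebra.trdeg ℚ κ) (t : K) (_ : Transcendental κ t)
      (_ : FiniteDimensional (IntermediateField.adjoin κ {t}) K)
      (F : MvPolynomial (Fin (n + 1)) K) (_ : F.IsHomogeneous d)
      (_ : AlgebraicIndependent ℚ
        (fun I : {I : Fin (n + 1) →₀ ℕ // I.degree = d} => F.coeff I.1)),
    ∃ G : MvPolynomial (Fin (n + 1)) K, (∃ e, G.IsHomogeneous e) ∧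
      (∃ z : Fin (n + 1) → AlgebraicClosure K, z ≠ 0 ∧ aeval z F = 0 ∧ aeval z G ≠ 0) ∧
      ∃ C : ℕ, ∀ (L : Type w) [Field L] [Algebra K L] [FiniteDimensional K L] [Algebra κ L]
        [IsScalarTower κ K L] (x : Fin (n + 1) → L), x ≠ 0 → aeval x F = 0 →
        height κ x ≤ C * ((finrank K L : ℤ) + ramDeg κ L K) ∨ aeval x G = 0 := by
  classical
  obtain ⟨n₀, hmain⟩ := sharp_main.{u, v, w}
  refine ⟨((Finset.range n₀) ×ˢ (Finset.range (n₀ + 301))).filter
    (fun q => q.2 ≤ q.1 + 300 ∧ (2 * q.2 ≤ 3 * q.1 + 3 ∨ q.2 ≤ 6)),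
    fun q hq => (Finset.mem_filter.1 hq).2, ?_⟩
  intro n d hn hd hS κ K _ _ _ _ _ _ htr t ht hfin F hF hgen
  rcases le_or_gt n₀ n with h | h
  · exact hmain n d h hd κ K htr t ht hfin F hF hgen
  · refine slope_hyper hn ?_ htr ht hfin hF hgen
    by_contra hcon
    apply hS
    rw [Finset.mem_filter, Finset.mem_product, Finset.mem_range, Finset.mem_range]
    refine ⟨⟨h, ?_⟩, ?_, ?_⟩
    · show d < n₀ + 301
      omega
    · show d ≤ n + 300
      omega
    · show 2 * d ≤ 3 * n + 3 ∨ d ≤ 6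
      omega

end Pool.Agent.Lib.MP_44a246_ntSH
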