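import Mathlib
import Pool.Agent.Lib.MP_44a246_ntS.SP9
import Pool.Agent.Lib.MP_44a246_ntE.E14
import Pool.Agent.Lib.MP_44a246_ntU.U10
import Pool.Agent.Lib.MP_44a246_ntU.U11
import Pool.Agent.Lib.MP_44a246_ntSH.CP02
import Pool.Agent.Lib.MP_44a246_ntSH.CW02
import Pool.Agent.Lib.MP_44a246_ntSH.CW03

/-!
A generic point of a generic complete intersection of general type does not lie on a curve of degree
at most `n / O (1)` (paper 619, phase 2, step 0).
-/

namespace Pool.Agent.Lib.MP_44a246_ntSH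

open Pool.Agent.Lib.MP_e52354_nt
open Pool.Agent.Lib.MP_44a246_nt
open Pool.Agent.Lib.MP_44a246_ntL
open Pool.Agent.Lib.MP_44a246_ntR
open Pool.Agent.Lib.MP_44a246_ntS
open Pool.Agent.Lib.MP_44a246_ntG
open Pool.Agent.Lib.MP_44a246_ntK
open Pool.Agent.Lib.MP_44a246_ntE
open WithZero Polynomial Module

universe u

/-- an intermediate field which contains `X` and `Y` -/
private theorem top_of_mem {κ M : Type*} [Field κ] [Field M] [Algebra κ M] [Algebra κ[X] M]
    [IsScalarTower κ κ[X] M] [Algebra (RatFunc κ) M] [IsScalarTower κ[X] (RatFunc κ) M] {Y : M}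
    (hgen : IntermediateField.adjoin (RatFunc κ) {Y} = ⊤) (F : IntermediateField κ M)
    (hX : algebraMap κ[X] M X ∈ F) (hY : Y ∈ F) : F = ⊤ := by
  have h1 : ∀ g : κ[X], algebraMap κ[X] M g ∈ F := by
    intro g
    have h2 : algebraMap κ[X] M g = aeval (algebraMap κ[X] M X) g := by
      rw [aeval_algebraMap_apply, aeval_X_left_apply]
    rw [h2, aeval_eq_sum_range]
    exact sum_mem fun i _ => F.smul_mem (pow_mem hX i)
  have h2 : ∀ u : RatFunc κ, algebraMap (RatFunc κ) M u ∈ F := by
    intro u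
    obtain ⟨a, b, hb, rfl⟩ := IsFractionRing.div_surjective (A := κ[X]) u
    rw [map_div₀, ← IsScalarTower.algebraMap_apply, ← IsScalarTower.algebraMap_apply]
    exact div_mem (h1 a) (h1 b)
  let G : IntermediateField (RatFunc κ) M := { F.toSubfield with algebraMap_mem' := h2 }
  have h3 : G = ⊤ := by
    rw [eq_top_iff, ← hgen, IntermediateField.adjoin_le_iff, Set.singleton_subset_iff]
    exact hY
  rw [eq_top_iff]
  intro z _
  have h4 : z ∈ G := by
    rw [h3]
    exact IntermediateField.mem_top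
  exact h4

/-- the numbers -/
private theorem num_LP {R r d b m p q w J : ℕ} (hp : p + (r + 2) = R + 3) (hd : R + 4 ≤ d)
    (hb : (p + 2) * (2 * b) ≤ R + 2) (hm : 1 ≤ m) (hmb : m ≤ 2 * b) (hJ : 2 * J = m * (m - 1))
    (h1 : m * (d + p) ≤ w + p * J) (h2 : 2 * q ≤ R * (m + 2) + 2 * m + 4 * J + 2)
    (h3 : w + (r + 1) ≤ q + 0 + 1) : False := by
  obtain ⟨k, rfl⟩ : ∃ k, m = k + 1 := ⟨m - 1, by omega⟩
  have e1 : k + 1 - 1 = k := rfl
  rw [e1] at hJ
  have h4 : (k + 1) * (R + 4 + p) ≤ (k + 1) * (d + p) := Nat.mul_le_mul_left _ (by omega)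
  have h5 : (p + 2) * (k + 1) ≤ R + 2 := (Nat.mul_le_mul_left _ hmb).trans hb
  have h6 : (k + 1) * ((p + 2) * k) ≤ (k + 1) * (R + 2) := by
    refine Nat.mul_le_mul_left _ (le_trans ?_ h5)
    exact Nat.mul_le_mul_left _ (Nat.le_succ k)
  have h7 : (p + 2) * (2 * J) = (k + 1) * ((p + 2) * k) := by rw [hJ]; ring
  have h8 : (p + 2) * (2 * J) = 2 * (p * J) + 4 * J := by ring
  have h9 : (k + 1) * (R + 4 + p) = k * R + 4 * k + k * p + (R + 4 + p) := by ring
  have h10 : R * (k + 1 + 2) = k * R + 3 * R := by ring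
  have h11 : (k + 1) * (R + 2) = k * R + 2 * k + R + 2 := by ring
  omega

private theorem no_certSP_low_aux {κ : Type u} [Field κ] [IsAlgClosed κ] [CharZero κ] {R r p b : ℕ}
    (hp : p + (r + 2) = R + 3) {d : Fin p → ℕ} (hd1 : ∀ j, 1 ≤ d j) (hd : R + 4 ≤ ∑ j, d j)
    (hb : (p + 2) * (2 * b) ≤ R + 2)
    {a : Fin p → (Fin (R + 3) →₀ ℕ) → κ} (W : Fin p → (Fin (R + 3) →₀ ℕ) → Derivation ℤ κ κ)
    (hW : ∀ j, ∀ I ∈ expo (Fin (R + 3)) (d j), ∀ j', ∀ J ∈ expo (Fin (R + 3)) (d j'),
      W j I (a j' J) = if (j, I) = (j', J) then 1 else 0)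
    {x : Fin (R + 3) → κ} (δ : Fin (r + 1) → Derivation ℤ κ κ)
    (hδa : ∀ i j, ∀ I ∈ expo (Fin (R + 3)) (d j), δ i (a j I) = 0)
    (hx : LinearIndependent κ
      (Fin.cons x (fun i k => δ i (x k)) : Fin (r + 2) → Fin (R + 3) → κ)) :
    ¬ CertSP (n := R + 2) d a b 1 x := by
  classical
  rintro ⟨A, Bv, ξ₀, ξ₁, ξ₂, c, y₁, y, hirr, hboxA, -, hc, hξ₀, hξ₁, hξ₂, hA, hAY, hB, hF, h0, h1,
    h2, hproj, -, -⟩
  have hsm := smooth_of_derP W hW
  set α := (derivative A).evalEval y₁ y with hα
  obtain ⟨i₀, hind⟩ := Pool.Agent.Lib.MP_44a246_ntU.indep_atV (β := α * c) hA hAY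
    (mul_ne_zero hAY hc) (fun j => by rw [mul_assoc]; exact hB j) h0 h1 δ hx
  have hf0 : 0 < A.natDegree := by
    by_contra hcon
    have h5 : A.natDegree = 0 := by omega
    obtain ⟨q, hq⟩ : ∃ q, A = C q := ⟨_, eq_C_of_natDegree_eq_zero h5⟩
    apply hAY
    rw [hα, hq, derivative_C, evalEval_zero]
  refine with_curve hirr hf0 ?_
  intro M _ _ _ _ _ _ _ _ _ Y hY hgen hfin ht halg
  set φ := algebraMap κ M with hφ
  set X' : M := algebraMap κ[X] M X with hX'
  -- specialisation
  have hspec : ∀ G : κ[X][X], evalEvalRingHom y₁ y G ≠ 0 → ev φ X' Y G ≠ 0 := by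
    intro G hG h3
    rw [hX', ev_aeval, hY] at h3
    obtain ⟨q, rfl⟩ := h3
    apply hG
    rw [map_mul]
    have h4 : evalEvalRingHom y₁ y A = 0 := hA
    rw [h4, zero_mul]
  have hevA : ∀ G : κ[X][X], A ∣ G → ev φ X' Y G = 0 := by
    intro G hG
    rw [hX', ev_aeval, hY]
    exact hG
  have hAP : ev φ X' Y A = 0 := hevA A dvd_rfl
  have hAYP : ev φ X' Y (derivative A) ≠ 0 := hspec _ hAY
  set ω := ev φ X' Y (derivative A) with hω
  set γ : Fin (R + 3) → M := fun j => ev φ X' Y (Bv j) with hγdef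
  -- the derivations
  obtain ⟨D, hDκ, hDX⟩ := exists_der_ext ht halg (0 : Derivation ℤ κ κ) 1
  choose E hEκ hEX using fun i : Fin (r + 1) => exists_der_ext ht halg (δ i) 0
  have hDκ' : ∀ u : κ, D (algebraMap κ M u) = 0 := fun u => by
    rw [hDκ]
    simp
  have hD : ∀ G, ω * D (ev φ X' Y G) = ev φ X' Y (vf A (cX κ) G) := by
    intro G
    rw [ev_vf φ 0 D hDκ hAP G, hX', hDX, one_mul, vf_apply, cE_zero, cE_zero]
    simp
  have hE : ∀ i G, ω * E i (ev φ X' Y G) = ev φ X' Y (vf A (cE (δ i)) G) := by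
    intro i G
    rw [ev_vf φ (δ i) (E i) (hEκ i) hAP G, hX', hEX, zero_mul, add_zero]
  -- the relations between `γ` and the projection
  have hsum : ∀ ξ : Fin (R + 3) → κ, ev φ X' Y (∑ j, C (C (ξ j)) * Bv j) = ∑ j, φ (ξ j) * γ j := by
    intro ξ
    rw [map_sum]
    refine Finset.sum_congr rfl fun j _ => ?_
    rw [map_mul, ev_C_C]
  have r0 : ∑ j, φ (ξ₀ j) * γ j = ω := by
    rw [← hsum, ← sub_eq_zero, hω, ← map_sub]
    exact hevA _ h0
  have r1 : ∑ j, φ (ξ₁ j) * γ j = X' * ω := by
    rw [← hsum, ← sub_eq_zero, hω]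
    have h4 : X' * ev φ X' Y (derivative A) = ev φ X' Y (C X * derivative A) := by
      rw [map_mul, ev_C_X]
    rw [h4, ← map_sub]
    exact hevA _ h1
  have r2 : ∑ j, φ (ξ₂ j) * γ j = Y * ω := by
    rw [← hsum, ← sub_eq_zero, hω]
    have h4 : Y * ev φ X' Y (derivative A) = ev φ X' Y (X * derivative A) := by
      rw [map_mul, ev_X]
    rw [h4, ← map_sub]
    exact hevA _ h2
  have hγ : γ ≠ 0 := by
    intro h3
    apply hAYP
    rw [← r0, h3]
    simp
  -- `γ` is a point of the complete intersection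
  have hFγ : ∀ j', Fval (d j') (fun I => algebraMap κ M (a j' I)) γ = 0 := by
    intro j'
    have h3 := hevA _ (hF j')
    rw [← h3]
    unfold FB Fval mon
    rw [map_sum]
    refine Finset.sum_congr rfl fun I _ => ?_
    rw [map_mul, ev_C_C, map_prod]
    congr 1
    refine Finset.prod_congr rfl fun j _ => ?_
    rw [map_pow]
  -- the independence
  have hindM : LinearIndependent M (Fin.cons γ (Fin.cons (fun k => D (γ k))
      fun i k => E (i₀.succAbove i) (γ k)) : Fin (r + 2) → Fin (R + 3) → M) := by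
    have h4 := Pool.Agent.Lib.MP_44a246_ntU.indep_of_spec (evalEvalRingHom y₁ y) (ev φ X' Y) hspec
      (N := (Fin.cons Bv (Fin.cons (fun j => vf A (cX κ) (Bv j))
        fun i j => vf A (cE (δ (i₀.succAbove i))) (Bv j)) : Fin (r + 2) → Fin (R + 3) → κ[X][X])) (by
        convert hind using 1
        funext i
        refine Fin.cases rfl (fun i => ?_) i
        exact Fin.cases rfl (fun i => rfl) i)
    rw [Fintype.linearIndependent_iff] at h4 ⊢
    intro g hg
    have h5 := h4 (fun i => (Fin.cons 1 (fun _ => ω⁻¹) : Fin (r + 2) → M) i * g i) (by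
      rw [← hg]
      refine Finset.sum_congr rfl fun i _ => ?_
      funext j
      simp only [Pi.smul_apply, smul_eq_mul]
      refine Fin.cases ?_ (fun i => ?_) i
      · simp only [Fin.cons_zero, one_mul]
        rfl
      · refine Fin.cases ?_ (fun i => ?_) i
        · simp only [Fin.cons_succ, Fin.cons_zero]
          rw [← hD (Bv j)]
          show ω⁻¹ * g _ * (ω * D (γ j)) = g _ * D (γ j)
          field_simp
        · simp only [Fin.cons_succ]
          rw [← hE (i₀.succAbove i) (Bv j)]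
          show ω⁻¹ * g _ * (ω * E (i₀.succAbove i) (γ j)) = g _ * E (i₀.succAbove i) (γ j)
          field_simp)
    intro i
    have h6 := h5 i
    refine (mul_eq_zero.1 h6).resolve_left ?_
    refine Fin.cases ?_ (fun i => ?_) i
    · rw [Fin.cons_zero]
      exact one_ne_zero
    · rw [Fin.cons_succ]
      exact inv_ne_zero hAYP
  -- adjunction
  have hadj := adj_genusP hp hd1 hsm D hDκ' hDX (fun i => E (i₀.succAbove i))
    (fun i u => ⟨_, hEκ _ u⟩) (fun i => ⟨0, by rw [hEX, map_zero]⟩)
    (fun i j' I hI => by rw [hEκ, hδa _ j' I hI, map_zero]) hFγ hindM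
  obtain ⟨l, hl⟩ : ∃ l, γ l ≠ 0 := by
    by_contra hcon
    push Not at hcon
    exact hγ (funext hcon)
  have hMff : IsFF κ M := by
    have t : IsScalarTower κ (RatFunc κ) M := by
      refine IsScalarTower.of_algebraMap_eq fun u => ?_
      rw [IsScalarTower.algebraMap_apply κ κ[X] M,
        IsScalarTower.algebraMap_apply κ κ[X] (RatFunc κ),
        ← IsScalarTower.algebraMap_apply κ[X] (RatFunc κ) M]
    exact (sp5b_isFF κ).of_finite
  -- the field of the point
  have hgen' : pointField κ γ = ⊤ := by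
    have hmem : ∀ ξ : Fin (R + 3) → κ, (∑ j, φ (ξ j) * γ j) / γ l ∈ pointField κ γ := by
      intro ξ
      rw [Finset.sum_div]
      refine sum_mem fun j _ => ?_
      rw [mul_div_assoc]
      exact mul_mem ((pointField κ γ).algebraMap_mem _)
        (IntermediateField.subset_adjoin _ _ ⟨j, l, rfl⟩)
    refine top_of_mem hgen _ ?_ ?_
    · have h6 : X' = ((∑ j, φ (ξ₁ j) * γ j) / γ l) / ((∑ j, φ (ξ₀ j) * γ j) / γ l) := by
        rw [r0, r1]
        field_simp
      rw [← hX', h6]
      exact div_mem (hmem ξ₁) (hmem ξ₀)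
    · have h6 : Y = ((∑ j, φ (ξ₂ j) * γ j) / γ l) / ((∑ j, φ (ξ₀ j) * γ j) / γ l) := by
        rw [r0, r2]
        field_simp
      rw [h6]
      exact div_mem (hmem ξ₂) (hmem ξ₀)
  -- generic linear forms
  obtain ⟨u, hω₀, hmax, htr, hgen₂, hinj⟩ := exists_lin_forms (n := R + 2) hMff hγ hgen' (R := R)
    (T := ⊤) (by rw [finrank_top, Module.finrank_fin_fun])
  set ω₀ : M := ∑ j, (u 0 j : M) * γ j with hω₀d
  set z : Fin (R + 3) → M := fun i => (∑ j, (u i j : M) * γ j) / ω₀ with hzd
  set γh : Fin (R + 3) → M := fun j => γ j / ω₀ with hγh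
  have hzγ : ∀ i, z i = ∑ j, (u i j : κ) • γh j := by
    intro i
    rw [hzd, hγh]
    simp only
    rw [Finset.sum_div]
    refine Finset.sum_congr rfl fun j _ => ?_
    rw [Algebra.smul_def, map_natCast, mul_div_assoc]
  have hzmem : ∀ i, z i ∈ Submodule.span κ (Set.range γh) := by
    intro i
    rw [hzγ]
    exact Submodule.sum_mem _ fun j _ => Submodule.smul_mem _ _
      (Submodule.subset_span (Set.mem_range_self j))
  have hz0 : z 0 = 1 := by rw [hzd]; exact div_self hω₀
  have hγh' : γh = fun j => ω₀⁻¹ * γ j := by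
    funext j
    rw [hγh]
    simp only
    rw [div_eq_mul_inv, mul_comm]
  have hmax' : ∀ w : Place κ M, vmax w.1 γh ≤ max 1 (w.1 (z 1)) := by
    intro w
    have hw0 : w.1 ω₀ ≠ 0 := w.1.ne_zero_iff.2 hω₀
    rw [hγh', vmax_smul]
    refine (mul_le_mul_right (hmax w) (w.1 ω₀⁻¹)).trans ?_
    rw [mul_max, ← map_mul, ← map_mul, inv_mul_cancel₀ hω₀, map_one]
    refine max_le_max le_rfl (le_of_eq ?_)
    rw [inv_mul_eq_div]
  -- the height
  have hht : height κ γ = height κ ![1, z 1] := by
    have h3 : height κ γ = height κ γh := by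
      rw [hγh', hMff.height_smul (inv_ne_zero hω₀)]
    rw [h3]
    unfold height
    refine finsum_congr fun w => ?_
    congr 1
    refine le_antisymm ?_ ?_
    · rw [Pool.Agent.Lib.MP_44a246_nt.vmax_pair]
      exact hmax' w
    · refine vmax_le _ fun k => ?_
      have h4 : ∀ i, w.1 (z i) ≤ vmax w.1 γh := by
        intro i
        rw [hzγ]
        refine Valuation.map_sum_le _ fun j _ => ?_
        rw [Algebra.smul_def, map_mul]
        calc _ ≤ 1 * w.1 (γh j) := mul_le_mul' (place_const_le w _) le_rfl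
          _ = w.1 (γh j) := one_mul _
          _ ≤ vmax w.1 γh := le_vmax w.1 γh j
      fin_cases k
      · show w.1 1 ≤ _
        rw [← hz0]
        exact h4 0
      · exact h4 1
  have hgenus : height κ ![1, z 1] + 2 ≤ 2 * (genus κ M : ℤ) := by
    have h3 : 0 ≤ height κ γ := hMff.height_nonneg hγ
    have h4 : ((R + 4 : ℕ) : ℤ) ≤ ∑ j, (d j : ℤ) := by exact_mod_cast hd
    have h5 : 1 * height κ γ ≤ ((∑ j, (d j : ℤ)) - ((R + 3 : ℕ) : ℤ)) * height κ γ := by
      refine mul_le_mul_of_nonneg_right ?_ h3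
      push_cast at h4 ⊢
      linarith
    rw [← hht]
    linarith
  -- the matrix of the linear forms is invertible
  have hγz : ∀ j, γh j ∈ Submodule.span κ (Set.range z) := by
    let U : Matrix (Fin (R + 3)) (Fin (R + 3)) κ := Matrix.of fun l j => (u l j : κ)
    have hUinj : Function.Injective U.mulVec := by
      suffices h : ∀ v, U.mulVec v = 0 → v = 0 by
        intro v v' hvv
        rw [← sub_eq_zero]
        refine h _ ?_
        rw [Matrix.mulVec_sub, sub_eq_zero]
        exact hvv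
      intro v hv
      have h3 := hinj (fun j => φ (v j)) trivial (by
        intro l
        have h4 := congrArg φ (congrFun hv l)
        have h5 : U.mulVec v l = ∑ j, (u l j : κ) * v j := rfl
        rw [h5, map_sum, Pi.zero_apply, map_zero] at h4
        rw [← h4]
        refine Finset.sum_congr rfl fun j _ => ?_
        rw [map_mul, map_natCast])
      funext j
      exact φ.injective (by rw [congrFun h3 j, Pi.zero_apply, Pi.zero_apply, map_zero])
    have hUunit : IsUnit U := Matrix.mulVec_injective_iff_isUnit.1 hUinj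
    have hU1 : U⁻¹ * U = 1 := Matrix.nonsing_inv_mul U ((Matrix.isUnit_iff_isUnit_det _).1 hUunit)
    intro j
    have h3 : γh j = ∑ l, U⁻¹ j l • z l := by
      have h4 : ∀ k, ∑ l, U⁻¹ j l * U l k = if j = k then 1 else 0 := by
        intro k
        have h5 := congrFun (congrFun hU1 j) k
        rw [Matrix.mul_apply, Matrix.one_apply] at h5
        exact h5
      calc γh j = ∑ k, (if j = k then (1 : κ) else 0) • γh k := by
            rw [Finset.sum_eq_single j]
            · rw [if_pos rfl, one_smul]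
            · intro k _ hk
              rw [if_neg (Ne.symm hk), zero_smul]
            · intro hcon
              exact absurd (Finset.mem_univ _) hcon
        _ = ∑ k, ∑ l, (U⁻¹ j l * U l k) • γh k := by
            refine Finset.sum_congr rfl fun k _ => ?_
            rw [← h4 k, Finset.sum_smul]
        _ = ∑ l, U⁻¹ j l • z l := by
            rw [Finset.sum_comm]
            refine Finset.sum_congr rfl fun l _ => ?_
            rw [hzγ l, Finset.smul_sum]
            refine Finset.sum_congr rfl fun k _ => ?_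
            rw [mul_smul]
            rfl
    rw [h3]
    exact Submodule.sum_mem _ fun l _ => Submodule.smul_mem _ _
      (Submodule.subset_span (Set.mem_range_self l))
  -- the degree
  have hdeg : height κ ![1, z 1] ≤ (2 * b : ℕ) := by
    obtain ⟨Q, hQ0, hQh, hQ⟩ := hproj (fun i => u (Fin.castLE (by omega) i))
    have h3 := hevA _ hQ
    have h4 : ev φ X' Y (MvPolynomial.aeval (fun i : Fin 3 => ∑ j,
        C (C ((u (Fin.castLE (by omega) i) j : ℕ) : κ)) * Bv j) Q) =
        MvPolynomial.aeval (fun i => ω₀ * (![1, z 1, z 2] : Fin 3 → M) i) Q := by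
      rw [MvPolynomial.aeval_def, MvPolynomial.hom_eval₂, MvPolynomial.aeval_def]
      congr 1
      · ext c
        show ev φ X' Y (C (C c)) = _
        rw [ev_C_C]
      · funext i
        have h5 : ∀ i : Fin (R + 3), ω₀ * z i = ∑ j, (u i j : M) * γ j := by
          intro i
          rw [hzd]
          simp only
          rw [mul_div_cancel₀ _ hω₀]
        have h6 : ∀ i : Fin (R + 3), ev φ X' Y (∑ j, C (C ((u i j : ℕ) : κ)) * Bv j) =
            ω₀ * z i := by
          intro i
          rw [h5, hsum]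
          refine Finset.sum_congr rfl fun j _ => ?_
          rw [map_natCast]
        fin_cases i
        · show ev φ X' Y (∑ j, C (C ((u 0 j : ℕ) : κ)) * Bv j) = ω₀ * 1
          rw [h6, hz0]
        · exact h6 1
        · exact h6 2
    rw [h4, Pool.Agent.Lib.MP_44a246_ntU.aeval_eq_Fval hQh, Fval_smul,
      ← Pool.Agent.Lib.MP_44a246_ntU.aeval_eq_Fval hQh] at h3
    have h5 : MvPolynomial.aeval (![1, z 1, z 2] : Fin 3 → M) Q = 0 :=
      (mul_eq_zero.1 h3).resolve_left (pow_ne_zero _ hω₀)
    exact degree_le_form hMff htr hgen₂ hQ0 hQh h5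
  -- the derivations
  have hfd : FiniteDimensional (IntermediateField.adjoin κ {z 1}) M := finite_over_adjoin hMff htr
  have halg1 : Algebra.IsAlgebraic (IntermediateField.adjoin κ {z 1}) M := inferInstance
  set D₀ : ↥(tset (n := R + 2) d (id : Fin p → Fin p) ∅) ⊕ Fin (r + 1) →
    Derivation ℤ κ κ := Sum.elim (fun t => W t.1.1 t.1.2) δ with hD₀
  choose Dh hDhκ hDhX using fun t => exists_der_ext htr halg1 (D₀ t) 0
  have hFκ : ∀ (c : ↥(tset (n := R + 2) d (id : Fin p → Fin p) ∅) ⊕
      Fin (r + 1) → κ) (u : κ),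
      Dc Dh c (algebraMap κ M u) = algebraMap κ M (Dc D₀ c u) := by
    intro c u
    rw [Dc_apply, Dc_apply, map_sum]
    refine Finset.sum_congr rfl fun t _ => ?_
    rw [hDhκ, map_mul]
    rfl
  obtain ⟨S, mm, q, J, hmm, hm1, hJ, hq, hSz, hpow, hcase⟩ := count_ffL hMff (z := z) (γ := γh)
    (D := Dh) (D₀ := D₀) hzmem hγz hz0 htr hmax' hgen₂ hDhκ hDhX hgenus
  -- the derivations of `S` do not move the point
  have hSγ : ∀ c ∈ S, ∀ j, Dc Dh c (γ j / ω₀) = 0 := by
    intro c hc
    set F := Dc Dh c with hF'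
    have h3 : (fun j => F (γ j) - (F ω₀ / ω₀) * γ j) = 0 := by
      refine hinj _ trivial ?_
      intro i
      have h4 : ∑ j, (u i j : M) * γ j = z i * ω₀ := by
        rw [hzd]
        simp only
        rw [div_mul_cancel₀ _ hω₀]
      have h5 : ∑ j, (u i j : M) * F (γ j) = z i * F ω₀ := by
        have h6 : F (∑ j, (u i j : M) * γ j) = ∑ j, (u i j : M) * F (γ j) := by
          rw [map_sum]
          refine Finset.sum_congr rfl fun j _ => ?_
          rw [Derivation.leibniz, Derivation.map_natCast, smul_zero, add_zero, smul_eq_mul]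
        rw [← h6, h4, Derivation.leibniz, hSz c hc i, smul_zero, add_zero, smul_eq_mul]
      have h6 : ∀ j, (u i j : M) * (F (γ j) - (F ω₀ / ω₀) * γ j) =
          (u i j : M) * F (γ j) - (F ω₀ / ω₀) * ((u i j : M) * γ j) := fun j => by ring
      simp only [h6]
      rw [Finset.sum_sub_distrib, ← Finset.mul_sum, h5, h4]
      field_simp
      ring
    intro j
    have h4 := congrFun h3 j
    have h5 : F (γ j) = (F ω₀ / ω₀) * γ j := sub_eq_zero.1 h4
    have h6 : F (γ j / ω₀ * ω₀) = F (γ j) := by rw [div_mul_cancel₀ _ hω₀]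
    rw [Derivation.leibniz, smul_eq_mul, smul_eq_mul, h5] at h6
    have h7 : ω₀ * F (γ j / ω₀) = 0 := by
      have h8 : γ j / ω₀ * F ω₀ = F ω₀ / ω₀ * γ j := by ring
      rw [h8] at h6
      linear_combination h6
    exact (mul_eq_zero.1 h7).resolve_left hω₀
  have hFγh : ∀ j', Fval (d j') (fun I => algebraMap κ M (a j' I)) γh = 0 := by
    intro j'
    rw [hγh', Fval_smul, hFγ, mul_zero]
  -- the count
  have hcount := count_forms (n := R + 2) (d := d) (a := a)
    (v := fun j => (vf A (cX κ) (Bv j)).evalEval y₁ y) (γ := γh) (q := q) (s := 0)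
    (P := ∅) (jj := (id : Fin p → Fin p))
    δ (fun i j I hI => hδa i j I hI) (le_of_eq Finset.card_empty) W
    (fun b I hI b' J hJ _ => hW b I hI b' J hJ) hx Function.injective_id
    (fun t => rfl) (fun i => rfl) hq (fun c hc _ b => by
      have h3 := D_Fval (d b) (fun I => algebraMap κ M (a b I)) (Dc Dh c) γh
      rw [hFγh, map_zero] at h3
      have h4 : ∑ k, grad (d b) (fun I => algebraMap κ M (a b I)) γh k * Dc Dh c (γh k) = 0 := by
        refine Finset.sum_eq_zero fun k _ => ?_
        rw [hγh, hSγ c hc, mul_zero]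
      rw [h4, add_zero] at h3
      show ∑ I ∈ expo (Fin (R + 2 + 1)) (d b), algebraMap κ M (Dc D₀ c (a b I)) * mon γh I = 0
      rw [h3]
      refine Finset.sum_congr rfl fun I _ => ?_
      rw [hFκ])
    (fun c hcS h3 => by
      set F := Dc Dh c with hF'
      set δ' := Dc δ (fun i => c (Sum.inr i)) with hδ'
      have hFδ : ∀ u : κ, F (algebraMap κ M u) = algebraMap κ M (δ' u) := by
        intro u
        rw [hF', hFκ, Dc_apply, hδ', Dc_apply, Fintype.sum_sum_type]
        congr 1
        rw [Finset.sum_eq_zero, zero_add]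
        · rfl
        · intro t _
          rw [h3, map_zero, zero_mul]
      refine der_x_mem hA hAY (mul_ne_zero hAY hc) (fun j => by rw [mul_assoc]; exact hB j) h0 h1
        δ' ?_
      intro hli
      have h4 := Pool.Agent.Lib.MP_44a246_ntU.indep_of_spec (evalEvalRingHom y₁ y) (ev φ X' Y) hspec
        (N := (![Bv, fun j => vf A (cX κ) (Bv j), fun j => vf A (cE δ') (Bv j)] :
          Fin 3 → Fin (R + 3) → κ[X][X])) (by
          convert hli using 1
          funext i
          fin_cases i <;> rfl)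
      -- the third vector is a combination of the others
      have hFγ : ∀ j, F (γ j) = (F ω₀ / ω₀) * γ j := by
        intro j
        have h5 : F (γ j / ω₀ * ω₀) = F (γ j) := by rw [div_mul_cancel₀ _ hω₀]
        rw [Derivation.leibniz, hSγ c hcS j, smul_zero, add_zero, smul_eq_mul] at h5
        rw [← h5]
        ring
      have hFe : ∀ j, ω * F (γ j) = ev φ X' Y (vf A (cE δ') (Bv j)) +
          F X' * ev φ X' Y (vf A (cX κ) (Bv j)) := fun j => ev_vf φ δ' F hFδ hAP (Bv j)
      rw [Fintype.linearIndependent_iff] at h4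
      have h5 := h4 ![ω * (F ω₀ / ω₀), - F X', -1] (by
        rw [Fin.sum_univ_three]
        funext j
        simp only [Matrix.cons_val_zero, Matrix.cons_val_one, Matrix.cons_val, Pi.add_apply,
          Pi.smul_apply, smul_eq_mul, Pi.zero_apply]
        have h6 := hFe j
        rw [hFγ j] at h6
        have h7 : ev φ X' Y (Bv j) = γ j := rfl
        rw [h7]
        linear_combination h6) 2
      simp at h5)
  have hpowS : mm * ((∑ j, d j) + p) ≤
      ∑ j, finrank κ ↥(Submodule.span κ (Set.range γh) ^ d j) + p * J := by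
    have h3 := Finset.sum_le_sum fun j (_ : j ∈ Finset.univ) => hpow (d j)
    rw [← Finset.mul_sum, Finset.sum_add_distrib, Finset.sum_add_distrib] at h3
    simpa using h3
  have hmb : mm ≤ 2 * b := by
    rw [hmm] at hdeg
    exact_mod_cast hdeg
  exact num_LP hp hd hb hm1 hmb hJ hpowS hcase hcount

/-- A generic point of a generic complete intersection of general type (`p` forms in `n + 1`
variables, of dimension `R + 1`) is not on a curve of degree at most `b`,
`(p + 2) (2 b) ≤ n`. -/
theorem noCertSP_low {R n p b : ℕ} (hn : R + 2 + p = n + 1) {d : Fin p → ℕ}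
    (hd1 : ∀ j, 1 ≤ d j) (hd : n + 2 ≤ ∑ j, d j) (hb : (p + 2) * (2 * b) ≤ n) :
    NoCertSP.{u} R n p d b 1 := by
  intro κ _ _ _ a W hW x δ hδa hx
  have hp : 1 ≤ p := by
    by_contra h
    have h1 : p = 0 := by omega
    subst h1
    rw [Finset.univ_eq_empty, Finset.sum_empty] at hd
    omega
  obtain ⟨R', rfl⟩ : ∃ R', n = R' + 2 := ⟨n - 2, by omega⟩
  exact no_certSP_low_aux (by omega) hd1 hd hb W hW δ hδa hx

end Pool.Agent.Lib.MP_44a246_ntSH
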