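import Mathlib
import Pool.Agent.Lib.MP_44a246_ntSH.B20

/-!
Phase 2 of paper 619, case A for `p` blocks: (A2), (A3).
-/

namespace Pool.Agent.Lib.MP_44a246_ntSH

open Pool.Agent.Lib.MP_44a246_nt
open Pool.Agent.Lib.MP_44a246_ntL
open Pool.Agent.Lib.MP_44a246_ntS
open Pool.Agent.Lib.MP_44a246_ntF
open Pool.Agent.Lib.MP_44a246_ntO
open Pool.Agent.Lib.MP_44a246_ntX
open Pool.Agent.Lib.MP_44a246_ntR (genus)
open Pool.Agent.Lib.MP_e52354_nt
open WithZero Module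

section

variable {κ L : Type*} [Field κ] [IsAlgClosed κ] [CharZero κ] [Field L] [Algebra κ L] {n p : ℕ}
  {x : Fin (n + 1) → L} {d : Fin p → ℕ} {c : ℕ} {C₀ M E : ℝ}

/-- (A2) for `p` blocks: the space `W`. The slopes of `W` are at least `(s - τ) H / n`; the cost of
`W` is large. -/
theorem stepA2P (h : IsFF κ L) (hyp : HypP κ x d c C₀ M E) (hC : 1 ≤ C₀) {s τ η : ℝ} (hτ : 0 < τ)
    (hτs : τ ≤ s) (hsC : s ≤ C₀) (hητ : η ≤ τ * (1 / (5 * (p * C₀))) / 8)
    (hsz : 2 * C₀ ≤ τ * (1 / (5 * (p * C₀))) * n / 8) (hn : 1 ≤ n) (hcn : c ≤ n)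
    {ν : ℕ} {W' : (j : Fin p) → Submodule L (EX (n + 1) (d j) → L)}
    (hxW : ∀ j, xm (d j) x ∈ W' j) (hWd : ∑ j, finrank L (W' j) ≤ n + ν + c)
    (hν : 1 / (5 * C₀) * (n : ℝ) ^ 2 ≤ ν)
    (hc : (s - τ / 8) * (height κ x / n) * ν ≤ ∑ j, (d j * (height κ x : ℝ) - ht κ (W' j)))
    (hsat : ∀ (j : Fin p) (V : Submodule L (EX (n + 1) (d j) → L)), xm (d j) x ∈ V →
      d j * (height κ x : ℝ) - ht κ V - (s + τ / 4) * height κ x / n * ((finrank L V : ℝ) - 1) ≤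
        η * n * height κ x) :
    ∃ (j : Fin p) (W : Submodule L (EX (n + 1) (d j) → L)),
      HasSl κ ((s - τ) * height κ x / n) (xm (d j) x) W ∧
      (s - τ) * (1 / (5 * (p * C₀))) * n * height κ x / 2 ≤ d j * (height κ x : ℝ) - ht κ W := by
  have hx := hyp.ne
  have hHpos' : (0 : ℝ) < height κ x := hyp.toO.H_pos
  obtain ⟨H, hH⟩ : ∃ H : ℝ, H = (height κ x : ℝ) := ⟨_, rfl⟩
  rw [← hH] at hc hsat ⊢
  have hHpos : 0 < H := by rw [hH]; exact hHpos'
  have hn0 : (1 : ℝ) ≤ n := by exact_mod_cast hn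
  have hnpos : (0 : ℝ) < n := by linarith only [hn0]
  have hcn' : (c : ℝ) ≤ n := by exact_mod_cast hcn
  have hp1 : (1 : ℝ) ≤ p := by exact_mod_cast hyp.cb_p
  have hp0 : (0 : ℝ) < p := by linarith only [hp1]
  obtain ⟨c₂, hc₂⟩ : ∃ c₂ : ℝ, c₂ = 1 / (5 * (p * C₀)) := ⟨_, rfl⟩
  have hc₂pos : 0 < c₂ := by rw [hc₂]; positivity
  have hcp : 1 / (5 * C₀) = p * c₂ := by
    rw [hc₂]
    field_simp
  rw [hcp] at hν
  rw [← hc₂] at hητ hsz ⊢
  have hsτ : 0 ≤ (s - τ) * H / n := by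
    have : 0 ≤ s - τ := by linarith only [hτs]
    (clear * - hτs hHpos hn; positivity)
  -- one block has large excess
  obtain ⟨j, hj⟩ : ∃ j : Fin p, (7 / 8 * τ * c₂ * n - 2 * C₀) * H ≤
      d j * H - ht κ (W' j) - (s - τ) * H / n * ((finrank L (W' j) : ℝ) - 1) := by
    by_contra hcon
    push Not at hcon
    have h1 := cbp_sum (κ := κ) (H := H) (W := W') (μ := (s - τ) * H / n)
      (K := (7 / 8 * τ * c₂ * n - 2 * C₀) * H) fun j => by
        have := hcon j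
        linarith only [this]
    have h3 : ∑ j, (finrank L (W' j) : ℝ) ≤ n + ν + c := by exact_mod_cast hWd
    have h5 : (s - τ) * H / n * (∑ j, (finrank L (W' j) : ℝ) - p) ≤
        (s - τ) * H / n * (2 * n + ν - 1) :=
      mul_le_mul_of_nonneg_left (by linarith only [hcn', hp1, h3]) hsτ
    have h6 : (s - τ) * H / n * (2 * n + ν - 1) = 2 * ((s - τ) * H) + (s - τ) * (H / n) * ν -
        (s - τ) * H / n := by
      field_simp
    have h7 : (s - τ / 8) * (H / n) * ν - (s - τ) * (H / n) * ν = 7 / 8 * τ * (H / n) * ν := by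
      ring
    have h8 : 7 / 8 * τ * (H / n) * (p * c₂ * (n : ℝ) ^ 2) ≤ 7 / 8 * τ * (H / n) * ν :=
      mul_le_mul_of_nonneg_left hν (by positivity)
    have h9 : 7 / 8 * τ * (H / n) * (p * c₂ * (n : ℝ) ^ 2) = p * (7 / 8 * τ * c₂ * n * H) := by
      field_simp
    have h10 : (s - τ) * H ≤ C₀ * H - τ * H := by nlinarith only [hH, hC, hτ, hτs, hsC, hHpos']
    have h11 : (p : ℝ) * ((7 / 8 * τ * c₂ * n - 2 * C₀) * H) =
      p * (7 / 8 * τ * c₂ * n * H) - 2 * (p * (C₀ * H)) := by ring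
    have h12 : C₀ * H ≤ p * (C₀ * H) := by
      have : 0 ≤ C₀ * H := by positivity
      nlinarith only [hp1, this]
    have h13 : 0 < τ * H := by positivity
    linarith only [hc, hsτ, h1, h5, h6, h8, h9, h10, h12, h13]
  obtain ⟨W, hWW', hW, hle⟩ := exists_hasSl h ((s - τ) * H / n) (hxW j)
  refine ⟨j, W, hW, ?_⟩
  rw [hH] at hW
  have h1 := cost_ge h hx hW
  rw [← hH] at h1
  -- the excess of `W`
  have h2 : (7 / 8 * τ * c₂ * n - 2 * C₀) * H ≤
      d j * H - ht κ W - (s - τ) * H / n * ((finrank L W : ℝ) - 1) := by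
    have e2 : (s - τ) * H / n * ((finrank L W : ℝ) - 1) =
      (s - τ) * H / n * finrank L W - (s - τ) * H / n := by ring
    have e3 : (s - τ) * H / n * ((finrank L (W' j) : ℝ) - 1) =
      (s - τ) * H / n * finrank L (W' j) - (s - τ) * H / n := by ring
    rw [e2]
    rw [e3] at hj
    linarith only [hj, hle]
  have h3 := hsat j W hW.mem
  -- the dimension of `W`
  have h4 : (7 / 8 * τ * c₂ * n - 2 * C₀ - η * n) * H ≤
      5 / 4 * τ * (H / n) * ((finrank L W : ℝ) - 1) := by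
    have e1 : (s + τ / 4) * H / n * ((finrank L W : ℝ) - 1) -
        (s - τ) * H / n * ((finrank L W : ℝ) - 1) =
        5 / 4 * τ * (H / n) * ((finrank L W : ℝ) - 1) := by ring
    have e2 : (7 / 8 * τ * c₂ * n - 2 * C₀ - η * n) * H =
        (7 / 8 * τ * c₂ * n - 2 * C₀) * H - η * n * H := by ring
    rw [e2]
    linarith only [hj, hle, h3, e1]
  have h5 : 5 / 8 * τ * c₂ * n ≤ 7 / 8 * τ * c₂ * n - 2 * C₀ - η * n := by
    have h6 : η * n ≤ τ * c₂ / 8 * n := mul_le_mul_of_nonneg_right hητ hnpos.le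
    linarith only [hsz, h6]
  have h6 : c₂ * (n : ℝ) ^ 2 / 2 ≤ (finrank L W : ℝ) - 1 := by
    have h7 : 5 / 8 * τ * c₂ * n * H ≤ 5 / 4 * τ * (H / n) * ((finrank L W : ℝ) - 1) :=
      (mul_le_mul_of_nonneg_right h5 hHpos.le).trans h4
    have h8 : 5 / 8 * τ * c₂ * n * H = 5 / 4 * τ * (H / n) * (c₂ * (n : ℝ) ^ 2 / 2) := by
      field_simp
      norm_num
    rw [h8] at h7
    exact le_of_mul_le_mul_left h7 (by positivity)
  have h7 : (s - τ) * H / n * (c₂ * (n : ℝ) ^ 2 / 2) ≤ (s - τ) * H / n * ((finrank L W : ℝ) - 1) :=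
    mul_le_mul_of_nonneg_left h6 hsτ
  have h8 : (s - τ) * H / n * (c₂ * (n : ℝ) ^ 2 / 2) = (s - τ) * c₂ * n * H / 2 := by
    field_simp
  rw [h8] at h7
  exact h7.trans h1

end

section

variable {κ L : Type*} [Field κ] [IsAlgClosed κ] [CharZero κ] [Field L] [Algebra κ L] {n d : ℕ}
  {x : Fin (n + 1) → L} {C₀ M E : ℝ}

/-- (A3), first part: the functionals on the spaces of the contractions have small degree -/
theorem stepA3O (h : IsFF κ L) (hyp : HypO κ x C₀ M E) (hC : 1 ≤ C₀) {s τ η : ℝ} (hτ : 0 < τ)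
    (hsτ : 1 / 64 ≤ s - τ) (hsC : s ≤ C₀) (hη : 0 ≤ η)
    (hηs : η * (1 + (s + τ / 4) / τ) < (s - τ) * (1 / (5 * C₀)) / 4) (hn : 1 ≤ n)
    {W : Submodule L (EX (n + 1) d → L)} (hW : HasSl κ ((s - τ) * height κ x / n) (xm d x) W)
    (hc : (s - τ) * (1 / (5 * C₀)) * n * height κ x / 2 ≤ d * (height κ x : ℝ) - ht κ W)
    (hsat : ∀ r : ℕ, d ≤ 2 * r → r ≤ d → ∀ V : Submodule L (EX (n + 1) r → L), xm r x ∈ V →
      r * (height κ x : ℝ) - ht κ V - (s + τ / 4) * height κ x / n * ((finrank L V : ℝ) - 1) ≤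
        η * n * height κ x)
    {e : ℕ} (he : 1 ≤ e) (hen : (e : ℝ) ≤ n / (6000 * C₀)) {f : MvPolynomial (Fin (n + 1)) L}
    {υ : Place κ L → ℤ} {a : ℤ} (hf : Fnl κ (lam e W) a f υ) :
    (a : ℝ) ≤ 16 * τ * e * height κ x / ((s - τ) * (1 / (5 * C₀)) * (n : ℝ) ^ 2) := by
  have hx := hyp.ne
  set H : ℝ := (height κ x : ℝ) with hH
  have hHpos : 0 < H := hyp.H_pos
  have hn0 : (1 : ℝ) ≤ n := by exact_mod_cast hn
  have hnpos : (0 : ℝ) < n := by linarith only [hn0]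
  have he0 : (1 : ℝ) ≤ e := by exact_mod_cast he
  have hepos : (0 : ℝ) < e := by linarith only [he0]
  set c₂ : ℝ := 1 / (5 * C₀) with hc₂
  have hc₂pos : 0 < c₂ := by positivity
  set σ : ℝ := s - τ with hσ
  have hσpos : 0 < σ := by linarith only [hsτ]
  set α : ℝ := 16 * τ * e * H / (σ * c₂ * (n : ℝ) ^ 2) with hα
  have hαpos : 0 < α := by positivity
  by_contra hlt
  push Not at hlt
  have ha0 : (0 : ℝ) < a := hαpos.trans hlt
  have ha0' : 0 ≤ a := by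
    have : (0 : ℤ) < a := by exact_mod_cast ha0
    exact this.le
  set y : ℝ := 3 * τ * H / (n * a) with hy
  have hypos : 0 < y := by (clear * - hτ hHpos hn ha0; positivity)
  set j : ℕ := ⌈y⌉₊ with hj
  have hj1 : 1 ≤ j := Nat.one_le_iff_ne_zero.2 (Nat.ceil_pos.2 hypos).ne'
  have hyj : y ≤ j := Nat.le_ceil y
  have hjy : (j : ℝ) ≤ y + 1 := (Nat.ceil_lt_add_one hypos.le).le
  have hye : y * e ≤ 3 * σ * c₂ * n / 16 := by
    have h1 : y ≤ 3 * τ * H / (n * α) := by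
      rw [hy]
      gcongr
    have h2 : 3 * τ * H / (n * α) * e = 3 * σ * c₂ * n / 16 := by
      rw [hα]
      field_simp
    rw [← h2]
    exact mul_le_mul_of_nonneg_right h1 hepos.le
  have he2 : (e : ℝ) ≤ σ * c₂ * n / 16 := by
    refine hen.trans ?_
    have h1 : (n : ℝ) / (6000 * C₀) = 1 / 6000 * (n / C₀) := by field_simp
    have h2 : σ * c₂ * n / 16 = σ / 80 * (n / C₀) := by
      rw [hc₂]
      field_simp
      norm_num
    rw [h1, h2]
    exact mul_le_mul_of_nonneg_right (by linarith only [hsτ, hσpos]) (by positivity)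
  have hje : (j : ℝ) * e ≤ σ * c₂ * n / 4 := by
    have h1 : (j : ℝ) * e ≤ (y + 1) * e := mul_le_mul_of_nonneg_right hjy hepos.le
    linarith only [hye, he2, h1]
  have hσc : σ * c₂ ≤ 1 / 5 := by
    rw [hc₂, mul_one_div, div_le_iff₀ (by positivity)]
    linarith only [hτ, hsC]
  have hdn : σ * c₂ * n / 2 ≤ d := by
    have h1 : (0 : ℝ) ≤ ht κ W := by exact_mod_cast ht_nonneg h W
    have h2 : σ * c₂ * n / 2 * H ≤ d * H := by
      have e1 : σ * c₂ * n / 2 * H = σ * c₂ * n * H / 2 := by ring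
      rw [e1]
      linarith only [hc, h1]
    exact le_of_mul_le_mul_right h2 hHpos
  have hjd : 2 * (j * e) ≤ d := by
    have h2 : (2 : ℝ) * (j * e) ≤ d := by linarith only [hje, hdn]
    exact_mod_cast h2
  obtain ⟨r, hr⟩ : ∃ r, r + j * e = d := ⟨d - j * e, by omega⟩
  have hja : 3 * τ * H / n ≤ j * a := by
    have h1 : y * a = 3 * τ * H / n := by
      rw [hy]
      field_simp
    rw [← h1]
    exact mul_le_mul_of_nonneg_right hyj ha0.le
  have e1 : σ * H / n = s * H / n - τ * H / n := by rw [hσ]; ring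
  have e2 : (s + τ / 4) * H / n = s * H / n + τ * H / n / 4 := by ring
  have e3 : 3 * τ * H / n = 3 * (τ * H / n) := by ring
  have hτH : 0 < τ * H / n := by positivity
  have hs0 : 0 < s := by linarith only [hτ, hσpos]
  have key := p3c h hx (t := σ * H / n) (t₂ := (s + τ / 4) * H / n) (δ := τ * H / n)
    (K := η * n * H) hr hj1 hτH (by (clear * - hs0 hτ hHpos hn; positivity))
    (hsat r (by omega) (by omega)) hW (by (clear * - hsτ hHpos hn ha0; positivity)) (by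
      rw [e1, e2]
      rw [e3] at hja
      linarith only [hja, hτH]) ha0' hf
  have h1 : (s + τ / 4) * H / n / (τ * H / n) = (s + τ / 4) / τ := by
    field_simp
  rw [h1] at key
  have h2 : (j : ℝ) * (e * H - a) ≤ σ * c₂ * n / 4 * H := by
    have h3 : (j : ℝ) * (e * H - a) = j * e * H - j * a := by ring
    have h4 : (0 : ℝ) ≤ j * a := by (clear * - hτ hHpos hn ha0; positivity)
    have h5 : (j : ℝ) * e * H ≤ σ * c₂ * n / 4 * H := mul_le_mul_of_nonneg_right hje hHpos.le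
    linarith only [hja, e3, hτH, h5]
  have h3 : η * n * H * (1 + (s + τ / 4) / τ) = η * (1 + (s + τ / 4) / τ) * (n * H) := by ring
  have h4 : η * (1 + (s + τ / 4) / τ) * (n * H) < σ * c₂ / 4 * (n * H) :=
    mul_lt_mul_of_pos_right hηs (by (clear * - hn hHpos; positivity))
  have h5 : σ * c₂ * n * H / 2 = σ * c₂ * n / 4 * H + σ * c₂ / 4 * (n * H) := by ring
  rw [h3] at key
  rw [h5] at hc
  linarith only [hc, key, h2, h4]

/-- (A3), second part -/
theorem stepA3bO (h : IsFF κ L) (hyp : HypO κ x C₀ M E) (hC : 1 ≤ C₀) {σ τ θ : ℝ} (hτ : 0 < τ)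
    (hσ : 1 / 64 ≤ σ) (hσC : σ ≤ C₀) (hθ : τ * (400000 * C₀) ≤ θ) (hn : 1 ≤ n)
    (hnC : 16 * C₀ ≤ n) (hnτ : 1 ≤ τ * n)
    {W : Submodule L (EX (n + 1) d → L)} (hW : HasSl κ (σ * height κ x / n) (xm d x) W)
    {e : ℕ} (he : 1 ≤ e) (hed : e ≤ d)
    (hf : ∀ (f : MvPolynomial (Fin (n + 1)) L) (υ : Place κ L → ℤ) (a : ℤ),
      Fnl κ (lam e W) a f υ → (a : ℝ) ≤ 16 * τ * e * height κ x / (σ * (1 / (5 * C₀)) * (n : ℝ) ^ 2)) :
    (ht κ (lam e W) : ℝ) ≤ θ * e ^ 2 * height κ x / n ∧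
      (finrank L (lam e W) : ℝ) ≤ 1 + e * n / σ := by
  have hx := hyp.ne
  have hg := hyp.g_le
  set H : ℝ := (height κ x : ℝ) with hH
  have hHpos : 0 < H := hyp.H_pos
  have hn0 : (1 : ℝ) ≤ n := by exact_mod_cast hn
  have hnpos : (0 : ℝ) < n := by linarith only [hC, hnC]
  have he0 : (1 : ℝ) ≤ e := by exact_mod_cast he
  have hepos : (0 : ℝ) < e := by linarith
  set c₂ : ℝ := 1 / (5 * C₀) with hc₂
  have hc₂pos : 0 < c₂ := by positivity
  have hσpos : 0 < σ := by linarith only [hσ]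
  set α : ℝ := 16 * τ * e * H / (σ * c₂ * (n : ℝ) ^ 2) with hα
  have hαpos : 0 < α := by positivity
  have hΛ : HasSl κ (σ * H / n) (xm e x) (lam e W) := hasSl_lam h hx hed hW
  have hdim : (finrank L (lam e W) : ℝ) ≤ 1 + e * n / σ := by
    have h1 := cost_ge h hx hΛ
    have h2 : (0 : ℝ) ≤ ht κ (lam e W) := by exact_mod_cast ht_nonneg h _
    have h3 : σ * H / n * ((finrank L (lam e W) : ℝ) - 1) ≤ σ * H / n * (e * n / σ) := by
      have e1 : σ * H / n * (e * n / σ) = e * H := by field_simp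
      rw [e1]
      linarith only [h1, h2]
    have h4 := le_of_mul_le_mul_left h3 (by positivity)
    linarith only [h4]
  refine ⟨?_, hdim⟩
  have hne : lam e W ≠ ⊥ := by
    intro h0
    have h1 := hΛ.mem
    rw [h0, Submodule.mem_bot] at h1
    exact xm_ne_zero hx h1
  have h1 := ht_le_of_fnl h hne (a := ⌊α⌋) (fun f υ a' hf' => Int.le_floor.2 (hf f υ a' hf'))
  have h2 : (ht κ (lam e W) : ℝ) ≤ finrank L (lam e W) * (⌊α⌋ + 1 + genus κ L) := by
    exact_mod_cast h1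
  have h3 : (⌊α⌋ : ℝ) ≤ α := Int.floor_le α
  have h3' : (0 : ℝ) ≤ (⌊α⌋ : ℝ) := by exact_mod_cast Int.floor_nonneg.2 hαpos.le
  have hen : (1 : ℝ) ≤ 1 / 16 * (e * n / σ) := by
    have h4 : 16 * C₀ / C₀ ≤ e * n / σ := by
      apply div_le_div₀ (by positivity) _ hσpos hσC
      nlinarith only [hnC, he0]
    have h5 : 16 * C₀ / C₀ = 16 := by field_simp
    linarith only [h4, h5]
  have hgα : (1 : ℝ) + genus κ L ≤ 1 / 16 * α := by
    have h4 : 1 / 16 * α = τ * e * H / (σ * c₂ * (n : ℝ) ^ 2) := by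
      rw [hα]
      ring
    rw [h4, le_div_iff₀ (by positivity)]
    have h5 : σ * c₂ ≤ 1 / 5 := by
      rw [hc₂, mul_one_div, div_le_iff₀ (by positivity)]
      linarith only [hσC]
    have h6 : σ * c₂ * (n : ℝ) ^ 2 ≤ (n : ℝ) ^ 2 := by
      have : (0 : ℝ) ≤ (n : ℝ) ^ 2 := by positivity
      nlinarith only [h5]
    have h7 : (n : ℝ) ^ 2 ≤ τ * (n : ℝ) ^ 3 := by
      have : (0 : ℝ) ≤ (n : ℝ) ^ 2 := by positivity
      nlinarith only [hnτ]
    have h8 : (n : ℝ) ^ 3 ≤ ((n : ℝ) + 2) ^ 20 := by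
      calc (n : ℝ) ^ 3 ≤ ((n : ℝ) + 2) ^ 3 := by gcongr; linarith only []
        _ ≤ ((n : ℝ) + 2) ^ 20 := pow_le_pow_right₀ (by linarith only [hC, hnC]) (by norm_num)
    have h9 : (1 + (genus κ L : ℝ)) * (σ * c₂ * (n : ℝ) ^ 2) ≤
        (1 + (genus κ L : ℝ)) * (τ * ((n : ℝ) + 2) ^ 20) := by
      refine mul_le_mul_of_nonneg_left ?_ (by positivity)
      calc σ * c₂ * (n : ℝ) ^ 2 ≤ (n : ℝ) ^ 2 := h6
        _ ≤ τ * (n : ℝ) ^ 3 := h7
        _ ≤ τ * ((n : ℝ) + 2) ^ 20 := mul_le_mul_of_nonneg_left h8 hτ.le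
    have h10 : (1 + (genus κ L : ℝ)) * (τ * ((n : ℝ) + 2) ^ 20) ≤ τ * H := by nlinarith only [hτ,
        hg]
    have h11 : τ * H ≤ τ * e * H := by
      have : 0 ≤ τ * H := by positivity
      nlinarith only [he0, this]
    linarith only [h9, h10, h11]
  have h4 : (ht κ (lam e W) : ℝ) ≤ (17 / 16 * (e * n / σ)) * (17 / 16 * α) := by
    refine h2.trans (mul_le_mul (by linarith only [hdim, hen]) (by linarith only [h3,
        hgα]) (by (clear * - hτ he hHpos hσ hC hn; positivity)) (by positivity))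
  refine h4.trans ?_
  have h5 : (17 / 16 * (e * n / σ)) * (17 / 16 * α) =
      (1445 / 16 * C₀ * τ * (1 / σ) ^ 2) * (e ^ 2 * H / n) := by
    rw [hα, hc₂]
    field_simp
    norm_num
  have h6 : θ * e ^ 2 * H / n = θ * (e ^ 2 * H / n) := by ring
  rw [h5, h6]
  refine mul_le_mul_of_nonneg_right ?_ (by positivity)
  have h7 : 1 / σ ≤ 64 := by
    rw [div_le_iff₀ hσpos]
    linarith only [hσ]
  have h8 : (1 / σ) ^ 2 ≤ 64 ^ 2 := pow_le_pow_left₀ (by positivity) h7 2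
  have h9 : 1445 / 16 * C₀ * τ * (1 / σ) ^ 2 ≤ 1445 / 16 * C₀ * τ * 64 ^ 2 :=
    mul_le_mul_of_nonneg_left h8 (by positivity)
  have h10 : 0 ≤ C₀ * τ := by positivity
  nlinarith only [hθ, h9, h10]

end

end Pool.Agent.Lib.MP_44a246_ntSH
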