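import Mathlib
import Pool.Agent.Lib.MP_44a246_ntSH.H06
import Pool.Agent.Lib.MP_44a246_ntSH.B22

/-!
Phase 2 of paper 619, (A4)-(A6), and the composition with the cases A and B.
-/

namespace Pool.Agent.Lib.MP_44a246_ntSH

open Pool.Agent.Lib.MP_44a246_nt
open Pool.Agent.Lib.MP_44a246_ntL
open Pool.Agent.Lib.MP_44a246_ntS
open Pool.Agent.Lib.MP_44a246_ntF
open Pool.Agent.Lib.MP_44a246_ntO
open Pool.Agent.Lib.MP_44a246_ntA
open Pool.Agent.Lib.MP_44a246_ntX
open Pool.Agent.Lib.MP_44a246_ntR (genus)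
open Pool.Agent.Lib.MP_e52354_nt
open WithZero Module

universe u v

section

variable {κ L : Type*} [Field κ] [IsAlgClosed κ] [CharZero κ] [Field L] [CharZero L] [Algebra κ L]

/-- the plane curve, with all the numerical conditions as hypotheses -/
theorem plane_auxP (h : IsFF κ L) {n d : ℕ} (X : DatP κ (L := L) n) {M θ s E N q : ℝ}
    (hne : X.x ≠ 0) (hn1 : 1 ≤ n)
    (hslope : ∀ Q : Submodule L (Fin (n + 1) → L), X.x ∈ Q →
      (height κ X.x : ℝ) - ht κ Q ≤ M * ((finrank L Q : ℝ) - 1)) (hM : 0 ≤ M)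
    {W : Submodule L (EX (n + 1) d → L)} (hW : HasSl κ (s * height κ X.x / n) (xm d X.x) W)
    (hq : q = n / s) (hs : 1 / 64 ≤ s) (hq60 : 60 ≤ q) (hE : E ≤ n) (hEd : E ≤ d) (hE2 : 3328 * (n : ℝ) ≤ E ^ 2)
    (hE0 : 0 < E) (hH : 0 < height κ X.x) (hθ0 : 0 < θ) (hθ : θ ≤ 1 / 1000)
    (hgen : 64 * n * (genus κ L + 1) ≤ θ * height κ X.x / n)
    (hN : ∀ b : ℕ, (b : ℝ) * E ≤ 1024 * n → (Fintype.card (EX 4 b) : ℝ) ≤ N)
    (hMN : M * N ≤ height κ X.x / 4)
    (hN1 : N * (height κ X.x / n) ≤ height κ X.x / 8) (hN2 : N * X.Δ ≤ height κ X.x / 8)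
    (hbd : ∀ e : ℕ, 1 ≤ e → (e : ℝ) ≤ E →
          (ht κ (lam e W) : ℝ) ≤ θ * e ^ 2 * height κ X.x / n ∧
          (finrank L (lam e W) : ℝ) ≤ 1 + e * n / s) :
    ∃ (a : ℕ) (A : MvPolynomial (Fin 3) L), (a : ℝ) ≤ 1664 * n ∧ A ≠ 0 ∧ A.IsHomogeneous a ∧
        MvPolynomial.eval X.p A = 0 ∧ (polyHeight κ A : ℝ) ≤ 53 * (θ * height κ X.x / n) := by
  have hn : (1 : ℝ) ≤ n := by exact_mod_cast hn1
  have hn0 : (0 : ℝ) < n := by linarith
  have hs0 : 0 < s := by linarith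
  have hHr : (0 : ℝ) < height κ X.x := by exact_mod_cast hH
  set H : ℝ := (height κ X.x : ℝ) with hHdef
  obtain ⟨P, hP⟩ : ∃ P : ℝ, P = θ * H / n := ⟨_, rfl⟩
  have hP0 : 0 < P := by rw [hP]; positivity
  have hq64 : q ≤ 64 * n := by
    rw [hq, div_le_iff₀ hs0]
    nlinarith
  have hg0 : (0 : ℝ) ≤ genus κ L := Nat.cast_nonneg _
  have hSp := sp_of_proj (P := P) (q := q) h hne hW X.l4 hEd (fun e he1 he => by
      refine ((hbd e he1 he).1).trans (le_of_eq ?_)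
      rw [hP]; ring) (fun e he1 he => by
      refine ((hbd e he1 he).2).trans (le_of_eq ?_)
      rw [hq]; ring)
  rw [X.lx_l4] at hSp
  obtain ⟨S₁, h12, h13, hS13⟩ := exists_S1 hq60
  have hS13r : (13 : ℝ) ≤ S₁ := by exact_mod_cast hS13
  have hSpos : (0 : ℝ) < S₁ := by linarith
  have hSq : (S₁ : ℝ) ≤ q := by nlinarith
  have hS2E : 2 * (S₁ : ℝ) ≤ E := by
    have h1 : (2 * (S₁ : ℝ)) ^ 2 ≤ E ^ 2 := by nlinarith
    exact (sq_le_sq₀ (by positivity) hE0.le).1 h1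
  have hSg : (S₁ : ℝ) * (genus κ L + 1) ≤ P := by
    rw [hP]
    refine le_trans ?_ hgen
    exact mul_le_mul_of_nonneg_right (hSq.trans hq64) (by linarith)
  -- the first form
  have hcard := numP1 (e := S₁) (q := q) h12
  have hdim := hSp.dim S₁ (by omega) (by linarith)
  have hhtS := hSp.ht S₁ (by omega) (by linarith)
  obtain ⟨f, hf, hf0, hfA, hfh⟩ := exists_form_top h (A := Lm X.l4 W S₁)
    (ν := (S₁ : ℝ) ^ 3 / 12) (c := 12 * P / S₁) (by positivity) (by linarith) (by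
      refine hhtS.trans (le_of_eq ?_)
      field_simp) (by positivity)
  have hfp : MvPolynomial.eval X.p4 f = 0 := by
    rw [← pr_xm X.p4 hf]
    exact hfA _ (hSp.mem S₁ (by omega) (by linarith))
  have hfσ : (polyHeight κ f : ℝ) ≤ 13 * P / S₁ := by
    refine hfh.trans ?_
    have h1 : (genus κ L : ℝ) + 1 ≤ P / S₁ := by
      rw [le_div_iff₀ hSpos]
      linarith
    have h2 : 13 * P / S₁ = 12 * P / S₁ + P / S₁ := by ring
    linarith
  -- the form of minimal degree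
  obtain ⟨b, B, hb1, hbS, hB, hirr, hBp, hBσ, hmin⟩ := exists_min_form h hf hf0 hfp hfσ
  have hBσ' : (polyHeight κ B : ℝ) * S₁ ≤ 13 * P := by
    rwa [le_div_iff₀ hSpos] at hBσ
  have hα0 : (0 : ℝ) ≤ polyHeight κ B := by exact_mod_cast polyHeight_nonneg h hirr.ne_zero
  have hB13 : 13 * (polyHeight κ B : ℝ) ≤ 13 * P := by nlinarith
  have hBP : (polyHeight κ B : ℝ) ≤ P := by linarith
  have hPH : P ≤ H / n / 1000 := by
    rw [hP]
    have h1 : θ * H / n = θ * (H / n) := by ring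
    rw [h1]
    have h2 : 0 ≤ H / n := by positivity
    nlinarith
  have hHn : H / n ≤ H := div_le_self hHr.le hn
  have hbE : 16 * q ≤ E * b := by
    by_contra hcon
    push Not at hcon
    have hbE' : (b : ℝ) * E ≤ 1024 * n := by linarith
    have hNb := hN b hbE'
    have hN0 : 0 ≤ N := (Nat.cast_nonneg _).trans hNb
    obtain ⟨Q, hxQ, hQd, hQh⟩ := X.a5 h hB hirr.ne_zero hBp hmin (by
      have h1 : (polyHeight κ B : ℝ) < H := by linarith
      rw [hHdef] at h1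
      exact_mod_cast h1)
    have h1 := hslope Q hxQ
    have h2 : (finrank L Q : ℝ) ≤ N := by
      have : (finrank L Q : ℝ) ≤ Fintype.card (EX 4 b) := by exact_mod_cast hQd
      linarith
    have h3 : M * ((finrank L Q : ℝ) - 1) ≤ M * N := by
      refine mul_le_mul_of_nonneg_left ?_ hM
      linarith
    have h4 : (ht κ Q : ℝ) ≤ Fintype.card (EX 4 b) * (2 * polyHeight κ B + X.Δ) := by
      exact_mod_cast hQh
    have hΔ : (0 : ℝ) ≤ X.Δ := by
      have : (0 : ℤ) ≤ X.Δ := finsum_nonneg fun w => Int.natCast_nonneg _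
      exact_mod_cast this
    have h5 : (Fintype.card (EX 4 b) : ℝ) * (2 * polyHeight κ B + X.Δ) ≤
        N * (H / n) + N * X.Δ := by
      have h6 : (Fintype.card (EX 4 b) : ℝ) * (2 * polyHeight κ B + X.Δ) ≤
          N * (2 * polyHeight κ B + X.Δ) :=
        mul_le_mul_of_nonneg_right hNb (by linarith)
      have h7 : N * (2 * (polyHeight κ B : ℝ)) ≤ N * (H / n) :=
        mul_le_mul_of_nonneg_left (by linarith) hN0
      linarith
    linarith
  obtain ⟨r, R, hr, hR0, hR, hRp, hRh⟩ := curve_form h hSp h12 h13 (by omega) hS2E hSq hP0.le hSg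
    hb1 hbS hB hirr hBp hBσ' (by
      have h1 : H / n / 1000 < s * (H / n) := by
        have h2 : 0 < H / n := by positivity
        nlinarith
      have h2 : s * H / n = s * (H / n) := by ring
      rw [h2]
      linarith) hbE
  refine ⟨r, R, by linarith, hR0, hR, ?_, ?_⟩
  · have h1 : (fun j : Fin 3 => X.p4 j.succ) = X.p := by
      funext j
      rfl
    rw [← h1]
    exact hRp
  · rw [← hP]
    exact hRh


end

/-- **The plane curve** (paper 619, (A4)-(A6)), from a space with large slopes whose contractions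
have small height; `θ` can be as small as `64 / n`. -/
theorem planeCurveP (C₀ : ℝ) (hC : 1000 ≤ C₀) : ∃ Y : ℝ, 0 < Y ∧
    ∀ (n d : ℕ) (θ : ℝ), Y ≤ n → 64 ≤ θ * n → θ ≤ 1 / 1000 →
    ∀ (κ : Type u) (L : Type v) [Field κ] [IsAlgClosed κ] [CharZero κ] [Field L] [CharZero L]
      [Algebra κ L] (_ : IsFF κ L) (X : DatP κ (L := L) n) (M E : ℝ), HypO κ X.x C₀ M E →
      (X.Δ : ℝ) ≤ E → (n : ℝ) / (6000 * C₀) ≤ d →
      ∀ (s : ℝ) (W : Submodule L (EX (n + 1) d → L)), 1 / 64 ≤ s → s ≤ C₀ →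
        HasSl κ (s * height κ X.x / n) (xm d X.x) W →
        (∀ e : ℕ, 1 ≤ e → (e : ℝ) ≤ n / (6000 * C₀) →
          (ht κ (lam e W) : ℝ) ≤ θ * e ^ 2 * height κ X.x / n ∧
          (finrank L (lam e W) : ℝ) ≤ 1 + e * n / s) →
      ∃ (a : ℕ) (A : MvPolynomial (Fin 3) L), a ≤ 1664 * n ∧ A ≠ 0 ∧ A.IsHomogeneous a ∧
        MvPolynomial.eval X.p A = 0 ∧ (polyHeight κ A : ℝ) * n ≤ 53 * θ * height κ X.x := by
  obtain ⟨N, hN⟩ : ∃ N : ℝ, N = (6144000 * C₀ + 3) ^ 3 := ⟨_, rfl⟩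
  have hC0 : 0 < C₀ := by linarith
  have hN0 : 0 < N := by rw [hN]; positivity
  obtain ⟨Y, hY⟩ : ∃ Y : ℝ, Y = 60 * C₀ + 3328 * (6000 * C₀) ^ 2 + 8 * C₀ * N + 8 * N :=
    ⟨_, rfl⟩
  have t1 : 0 < 60 * C₀ := by positivity
  have t2 : 0 < 3328 * (6000 * C₀) ^ 2 := by positivity
  have t4 : 0 < 8 * C₀ * N := by positivity
  have t5 : 0 < 8 * N := by positivity
  refine ⟨Y, by rw [hY]; positivity, ?_⟩
  intro n d θ hnY hn3 hθ1 κ L _ _ _ _ _ _ h X M E' hyp hΔE hd s W hs hsC hW hbd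
  have hn60 : 60 * C₀ ≤ n := by linarith
  have hn2 : 3328 * (6000 * C₀) ^ 2 ≤ n := by linarith
  have hn4 : 8 * C₀ * N ≤ n := by linarith
  have hn5 : 8 * N ≤ n := by linarith
  have hθ0 : 0 < θ := by
    by_contra hcon
    push Not at hcon
    have h1 : (0 : ℝ) ≤ n := Nat.cast_nonneg n
    nlinarith
  have hn1 : (1 : ℝ) ≤ n := by linarith
  have hn0 : (0 : ℝ) < n := by linarith
  have hn1' : 1 ≤ n := by exact_mod_cast hn1
  have hs0 : 0 < s := by linarith
  have hg0 : (0 : ℝ) ≤ genus κ L := Nat.cast_nonneg _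
  have hpow : (n : ℝ) ^ 3 ≤ ((n : ℝ) + 2) ^ 20 :=
    (pow_le_pow_left₀ hn0.le (by linarith) 3).trans (pow_le_pow_right₀ (by linarith) (by norm_num))
  have hpow1 : (n : ℝ) ≤ ((n : ℝ) + 2) ^ 20 := by
    refine le_trans ?_ hpow
    calc (n : ℝ) = n ^ 1 := (pow_one _).symm
      _ ≤ n ^ 3 := pow_le_pow_right₀ hn1 (by norm_num)
  have hbig := hyp.big
  have hE'0 := hyp.hE
  have hHr : (1 : ℝ) ≤ height κ X.x := by
    refine le_trans ?_ hbig
    have h1 : (1 : ℝ) ≤ ((n : ℝ) + 2) ^ 20 := hn1.trans hpow1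
    nlinarith
  have hHpos : (0 : ℝ) < height κ X.x := by linarith
  have hH : 0 < height κ X.x := by exact_mod_cast hHpos
  obtain ⟨a, A, ha, hA0, hA, hAp, hAh⟩ := plane_auxP h X (M := M) (θ := θ) (s := s)
    (E := n / (6000 * C₀)) (N := N) (q := n / s) hyp.ne hn1' hyp.slope
    hyp.pos hW rfl hs (by
      rw [le_div_iff₀ hs0]
      nlinarith) (by
      rw [div_le_iff₀ (by positivity)]
      nlinarith) hd (by
      rw [div_pow, le_div_iff₀ (by positivity)]
      nlinarith) (by positivity) hH hθ0 hθ1 (by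
      rw [le_div_iff₀ hn0]
      have h1 : 64 ≤ θ * n := hn3
      have h2 : 64 * (n : ℝ) ^ 2 ≤ θ * ((n : ℝ) + 2) ^ 20 := by
        have h3 : 64 * (n : ℝ) ^ 2 ≤ θ * n * n ^ 2 :=
          mul_le_mul_of_nonneg_right h1 (by positivity)
        have h4 : θ * (n : ℝ) ^ 3 ≤ θ * ((n : ℝ) + 2) ^ 20 :=
          mul_le_mul_of_nonneg_left hpow hθ0.le
        nlinarith
      have h3 : ((genus κ L : ℝ) + 1) * ((n : ℝ) + 2) ^ 20 ≤ height κ X.x := by
        refine le_trans ?_ hbig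
        exact mul_le_mul_of_nonneg_right (by linarith) (by positivity)
      calc 64 * (n : ℝ) * (genus κ L + 1) * n = 64 * (n : ℝ) ^ 2 * (genus κ L + 1) := by ring
        _ ≤ θ * ((n : ℝ) + 2) ^ 20 * (genus κ L + 1) :=
            mul_le_mul_of_nonneg_right h2 (by linarith)
        _ = θ * (((genus κ L : ℝ) + 1) * ((n : ℝ) + 2) ^ 20) := by ring
        _ ≤ θ * height κ X.x := mul_le_mul_of_nonneg_left h3 hθ0.le) (by
      intro b hb
      have h1 : (b : ℝ) ≤ 6144000 * C₀ := by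
        rw [← mul_div_assoc, div_le_iff₀ (by positivity)] at hb
        have h2 : n * (b : ℝ) ≤ n * (6144000 * C₀) := by linarith
        exact le_of_mul_le_mul_left h2 hn0
      rw [card_EX4_real, hN]
      have hb0 : (0 : ℝ) ≤ b := Nat.cast_nonneg _
      have h2 : ((b : ℝ) + 1) * (b + 2) * (b + 3) ≤ (b + 3) ^ 3 := by nlinarith
      have h3 : ((b : ℝ) + 3) ^ 3 ≤ (6144000 * C₀ + 3) ^ 3 :=
        pow_le_pow_left₀ (by linarith) (by linarith) 3
      have h4 : (0 : ℝ) ≤ ((b : ℝ) + 1) * (b + 2) * (b + 3) := by positivity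
      linarith) (by
      have h1 := hyp.small
      have h2 : M * (8 * C₀ * N) ≤ M * n := mul_le_mul_of_nonneg_left hn4 hyp.pos
      have h3 : C₀ * (8 * (M * N)) ≤ C₀ * height κ X.x := by linarith
      have h4 := le_of_mul_le_mul_left h3 hC0
      linarith) (by
      have h1 : N * (height κ X.x / n) = N * height κ X.x / n := by ring
      rw [h1, div_le_iff₀ hn0]
      nlinarith) (by
      have hΔ : (0 : ℝ) ≤ X.Δ := by
        have : (0 : ℤ) ≤ X.Δ := finsum_nonneg fun w => Int.natCast_nonneg _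
        exact_mod_cast this
      have h1 : E' * ((n : ℝ) + 2) ^ 20 ≤ height κ X.x := by
        refine le_trans ?_ hbig
        exact mul_le_mul_of_nonneg_right (by linarith) (by positivity)
      have h2 : N * X.Δ ≤ n / 8 * E' := by
        have h3 : N ≤ n / 8 := by linarith
        exact mul_le_mul h3 hΔE hΔ (by positivity)
      have h3 : (n : ℝ) / 8 * E' ≤ ((n : ℝ) + 2) ^ 20 / 8 * E' :=
        mul_le_mul_of_nonneg_right (by linarith) hE'0
      linarith) hbd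
  refine ⟨a, A, by exact_mod_cast ha, hA0, hA, hAp, ?_⟩
  have h1 : (polyHeight κ A : ℝ) * n ≤ 53 * (θ * height κ X.x / n) * n :=
    mul_le_mul_of_nonneg_right hAh hn0.le
  refine h1.trans (le_of_eq ?_)
  field_simp

/-- **The plane curve of small height**, `p` blocks. If `n M ≤ C₀ H` and `n` is large, then the
projection of the point to the plane lies on a curve of degree at most `1664 n` and of height at
most `C H / n ^ 2`. -/
theorem plane_of_hypP (p c : ℕ) (C₀ : ℝ) (hC : 1000 ≤ C₀) : ∃ C₈ : ℝ, 0 < C₈ ∧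
    ∀ (n : ℕ) (d : Fin p → ℕ), C₈ ≤ n →
    ∀ (κ : Type u) (L : Type v) [Field κ] [IsAlgClosed κ] [CharZero κ] [Field L] [CharZero L]
      [Algebra κ L] (_ : IsFF κ L) (X : DatP κ (L := L) n) (M E : ℝ), HypP κ X.x d c C₀ M E →
      (X.Δ : ℝ) ≤ E →
      ∃ (a : ℕ) (A : MvPolynomial (Fin 3) L), a ≤ 1664 * n ∧ A ≠ 0 ∧ A.IsHomogeneous a ∧
        MvPolynomial.eval X.p A = 0 ∧ (polyHeight κ A : ℝ) * n ^ 2 ≤ C₈ * height κ X.x := by
  rcases Nat.eq_zero_or_pos p with hp0 | hp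
  · subst hp0
    refine ⟨1, one_pos, fun n d _ κ L _ _ _ _ _ _ h X M E hyp _ => ?_⟩
    exact absurd hyp.cb_p (by norm_num)
  have hp1 : (1 : ℝ) ≤ p := by exact_mod_cast hp
  have hC0 : (0 : ℝ) < C₀ := by linarith
  have hKC : C₀ ≤ p * C₀ := by nlinarith
  obtain ⟨C₇, h7, hA⟩ := caseAPs.{u, v} p c C₀ hC
  obtain ⟨n₁, hB⟩ := caseBP.{u, v} p c C₀ hC
  obtain ⟨Y, hY, hP⟩ := planeCurveP.{u, v} (p * C₀) (by linarith)
  obtain ⟨T, hT⟩ : ∃ T : ℝ, T = C₇ + 64 := ⟨_, rfl⟩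
  have hT0 : 0 < T := by rw [hT]; positivity
  have hn₁ : (0 : ℝ) ≤ n₁ := Nat.cast_nonneg _
  refine ⟨Y + n₁ + 1000 * T, by positivity, fun n d hn κ L _ _ _ _ _ _ h X M E hyp hΔ => ?_⟩
  have hn1 : n₁ ≤ n := by
    have : (n₁ : ℝ) ≤ n := by linarith
    exact_mod_cast this
  have hnpos : (0 : ℝ) < n := by linarith
  have hH := hyp.toO.H_pos
  have hθn : T / n * n = T := by field_simp
  have hcase := hB n d hn1 κ L h X.x M E hyp
  obtain ⟨j, s, W, hs1, hs2, hW, hdj, hW2⟩ := hA n d (T / n) (by linarith) (by positivity)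
    (by rw [hθn]; linarith) κ L h X.x M E hyp hcase
  obtain ⟨a, A, ha, hA0, hA1, hA2, hA3⟩ := hP n (d j) (T / n) (by linarith)
    (by rw [hθn]; linarith) (by rw [div_le_iff₀ hnpos]; linarith) κ L h X M E
    (hyp.toO.mono hKC) hΔ hdj s W hs1 (hs2.trans hKC) hW hW2
  refine ⟨a, A, ha, hA0, hA1, hA2, ?_⟩
  have h1 : (polyHeight κ A : ℝ) * n ^ 2 = (polyHeight κ A : ℝ) * n * n := by ring
  rw [h1]
  have h2 : (polyHeight κ A : ℝ) * n * n ≤ 53 * (T / n) * height κ X.x * n :=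
    mul_le_mul_of_nonneg_right hA3 hnpos.le
  refine h2.trans ?_
  have h3 : 53 * (T / n) * (height κ X.x : ℝ) * n = 53 * T * height κ X.x := by field_simp
  rw [h3]
  exact mul_le_mul_of_nonneg_right (by linarith) hH.le

end Pool.Agent.Lib.MP_44a246_ntSH
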