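import Mathlib
import Pool.Agent.Lib.MP_44a246_ntO.OS9

/-!
# Step 0 for several forms (paper 619, phase 2): Lemma P from a steep subspace
-/

namespace Pool.Agent.Lib.MP_44a246_ntSH

open Pool.Agent.Lib.MP_44a246_nt
open Pool.Agent.Lib.MP_44a246_ntL
open Pool.Agent.Lib.MP_44a246_ntS
open Pool.Agent.Lib.MP_44a246_ntF
open Pool.Agent.Lib.MP_44a246_ntO
open WithZero Module

variable {κ K : Type*} [Field κ] [IsAlgClosed κ] [CharZero κ] [Field K] [Algebra κ K] {n : ℕ}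

/-- **Lemma P from a steep subspace**, for several blocks (some of which may have small degrees): if
`x` is in a subspace `E₁` of slope at least `(C₀ / r) height x` over `x`, then `x` is in a subspace
of small height and of dimension at most `1 + 20 r / (9 C₀)`. -/
theorem lemmaP_steepP (h : IsFF κ K) (hn : 2 ≤ n) {x : Fin n → K} (hx : x ≠ 0) {p : ℕ}
    {d : Fin p → ℕ} {ρ r : ℕ} (hρ : 1 ≤ ρ) {E : ℝ} (hE : 0 ≤ E) (hP : PairHyp κ x d ρ r 0 0 E)
    {C₀ : ℕ} (hC : 360 * ρ + 10 ≤ C₀) {E₁ : Submodule K (Fin n → K)} (hxE : x ∈ E₁)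
    (hE2 : 2 ≤ finrank K E₁)
    (hsl : (C₀ : ℝ) * height κ x * ((finrank K E₁ : ℝ) - 1) ≤ r * ((height κ x : ℝ) - ht κ E₁))
    (hEH : n * E ≤ height κ x) (hH : 0 < height κ x) :
    ∃ P : Submodule K (Fin n → K), x ∈ P ∧ 20 * ht κ P ≤ height κ x ∧
      9 * (C₀ : ℝ) * ((finrank K P : ℝ) - 1) ≤ 20 * r := by
  obtain ⟨E', M, hxE', hE2', hEM, hM⟩ := exists_slope h hx (by rw [Fintype.card_fin]; exact hn)
  have hHR : (0 : ℝ) < height κ x := by exact_mod_cast hH
  have hr0 : (0 : ℝ) ≤ r := Nat.cast_nonneg r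
  have hρR : (1 : ℝ) ≤ ρ := by exact_mod_cast hρ
  have hCR : 360 * (ρ : ℝ) + 10 ≤ C₀ := by exact_mod_cast hC
  have hE2R : (2 : ℝ) ≤ finrank K E₁ := by exact_mod_cast hE2
  have hE2R' : (2 : ℝ) ≤ finrank K E' := by exact_mod_cast hE2'
  have hE1ht : (0 : ℝ) ≤ ht κ E' := by exact_mod_cast ht_nonneg h E'
  have hnR : (2 : ℝ) ≤ n := by exact_mod_cast hn
  have hEH1 : E ≤ height κ x / 2 := by nlinarith
  -- `r M ≥ C₀ H`
  have hrM : (C₀ : ℝ) * height κ x ≤ r * M := by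
    have h1 := hM E₁ hxE
    have h2 : (C₀ : ℝ) * height κ x * ((finrank K E₁ : ℝ) - 1) ≤
        r * M * ((finrank K E₁ : ℝ) - 1) := by
      refine hsl.trans ((mul_le_mul_of_nonneg_left h1 hr0).trans (le_of_eq ?_))
      ring
    exact le_of_mul_le_mul_right h2 (by linarith)
  have hCH : 0 < (C₀ : ℝ) * height κ x := mul_pos (by linarith) hHR
  have hM0 : 0 < M := by
    by_contra hM0
    have h1 : (r : ℝ) * M ≤ 0 := mul_nonpos_of_nonneg_of_nonpos hr0 (not_lt.1 hM0)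
    linarith
  have hMH : M ≤ height κ x := by
    have h1 : M * 1 ≤ M * ((finrank K E' : ℝ) - 1) :=
      mul_le_mul_of_nonneg_left (by linarith) hM0.le
    linarith
  obtain ⟨j, U, hU, hle⟩ := hP E' hxE' (9 / 20 * M) (by linarith)
  have hU0 : (0 : ℝ) ≤ ht κ U := by exact_mod_cast ht_nonneg h U
  have hU1 : (1 : ℝ) ≤ finrank K U := by
    exact_mod_cast one_le_finrank_aux (xm_ne_zero hx) hU
  have hcost' : 36 * (height κ x : ℝ) - E ≤
      (d j : ℝ) * height κ x - ht κ U - 9 / 20 * M * ((finrank K U : ℝ) - 1) := by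
    have h2 : 0 ≤ ((finrank K E' : ℝ) - 2) * (M * r) :=
      mul_nonneg (by linarith) (mul_nonneg hM0.le hr0)
    have h3 : 36 * ρ * (height κ x : ℝ) + height κ x ≤ r * M / 10 := by
      have h4 : (360 * ρ + 10) * (height κ x : ℝ) ≤ C₀ * height κ x :=
        mul_le_mul_of_nonneg_right hCR hHR.le
      linarith
    have h30 : 0 ≤ 36 * ρ * (height κ x : ℝ) := by positivity
    have h4 : 0 ≤ ((finrank K E' : ℝ) - 2) * (r * M / 10 - height κ x) :=
      mul_nonneg (by linarith) (by linarith)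
    generalize (d j : ℝ) * height κ x - ht κ U - 9 / 20 * M * ((finrank K U : ℝ) - 1) = c at hle ⊢
    have h5 : (ρ : ℝ) * (36 * height κ x - E) ≤ ρ * c := by
      have h6 : 36 * ρ * (height κ x : ℝ) - E ≤ ρ * c := by
        push_cast at hle
        nlinarith
      have h7 : E ≤ ρ * E := by nlinarith
      nlinarith
    exact le_of_mul_le_mul_left h5 (by linarith)
  have hD : 36 ≤ d j := by
    by_contra hcon
    have h1 : (d j : ℝ) ≤ 35 := by
      have : d j ≤ 35 := by omega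
      exact_mod_cast this
    have h2 : (d j : ℝ) * height κ x ≤ 35 * height κ x := mul_le_mul_of_nonneg_right h1 hHR.le
    have h3 : 0 ≤ 9 / 20 * M * ((finrank K U : ℝ) - 1) := mul_nonneg (by linarith) (by linarith)
    linarith
  obtain ⟨P, hxP, hP1, hP2⟩ := block_abs h hx hM0 hMH hM hD hU hE hEH (by linarith)
  refine ⟨P, hxP, hP1, ?_⟩
  have hP3 : (1 : ℝ) ≤ finrank K P := by exact_mod_cast one_le_finrank_aux hx hxP
  have h3 : (r : ℝ) * (9 / 20 * M * ((finrank K P : ℝ) - 1)) ≤ r * height κ x :=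
    mul_le_mul_of_nonneg_left hP2 hr0
  have h4 : (C₀ : ℝ) * height κ x * ((finrank K P : ℝ) - 1) ≤ r * M * ((finrank K P : ℝ) - 1) :=
    mul_le_mul_of_nonneg_right hrM (by linarith)
  have h5 : (9 * (C₀ : ℝ) * ((finrank K P : ℝ) - 1)) * height κ x ≤ (20 * r) * height κ x := by
    nlinarith
  exact le_of_mul_le_mul_right h5 hHR

/-- The sum of the degrees, if all the slopes are small. -/
theorem sum_le_of_slope (h : IsFF κ K) (hn : 1 ≤ n) {x : Fin n → K} (hx : x ≠ 0) {p : ℕ}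
    {d : Fin p → ℕ} (hd : ∀ j, 1 ≤ d j) {ρ r k : ℕ} {E : ℝ} (hE : 0 ≤ E)
    (hP : PairHyp κ x d ρ r 0 k E) {C₀ : ℕ}
    (hsl : ∀ E₁ : Submodule K (Fin n → K), x ∈ E₁ →
      r * ((height κ x : ℝ) - ht κ E₁) ≤ C₀ * height κ x * ((finrank K E₁ : ℝ) - 1))
    (hEH : n * E < height κ x) (hr : 1 ≤ r) : k ≤ C₀ := by
  have hE' : 0 ≤ (n : ℝ) * E := mul_nonneg (Nat.cast_nonneg _) hE
  have hHR : (0 : ℝ) < height κ x := lt_of_le_of_lt hE' hEH
  have hrR : (1 : ℝ) ≤ r := by exact_mod_cast hr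
  have hr0 : (0 : ℝ) < r := by linarith
  have hnR : (1 : ℝ) ≤ n := by exact_mod_cast hn
  have hEH1 : E < height κ x := by nlinarith
  obtain ⟨M, hM⟩ : ∃ M : ℝ, M = C₀ * height κ x / r := ⟨_, rfl⟩
  have hM0 : 0 ≤ M := by rw [hM]; positivity
  have hMr : M * r = C₀ * height κ x := by rw [hM]; field_simp
  have hslM : ∀ E₁ : Submodule K (Fin n → K), x ∈ E₁ →
      (height κ x : ℝ) - ht κ E₁ ≤ M * ((finrank K E₁ : ℝ) - 1) := by
    intro E₁ hE₁
    have h1 := hsl E₁ hE₁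
    refine le_of_mul_le_mul_left (h1.trans (le_of_eq ?_)) hr0
    rw [← hMr]
    ring
  obtain ⟨j, U, hU, hle⟩ := hP (K ∙ x) (Submodule.mem_span_singleton_self x) M hM0
  rw [finrank_span_singleton hx, ht_single h hx] at hle
  have h1 := cost_le_aux h hx hslM (hd j) hU
  have h2 : (ρ : ℝ) * ((d j : ℝ) * height κ x - ht κ U - M * ((finrank K U : ℝ) - 1)) ≤ 0 :=
    mul_nonpos_of_nonneg_of_nonpos (Nat.cast_nonneg _) (by linarith)
  have h3 : (k : ℝ) * height κ x < (C₀ + 1) * height κ x := by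
    push_cast at hle
    nlinarith
  have h4 : (k : ℝ) < C₀ + 1 := lt_of_mul_lt_mul_right h3 hHR.le
  have h5 : k < C₀ + 1 := by exact_mod_cast h4
  omega

end Pool.Agent.Lib.MP_44a246_ntSH
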