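import Mathlib
import Pool.Agent.Lib.MP_44a246_ntA.P13
import Pool.Agent.Lib.MP_44a246_ntSH.SU1

/-!
# Step 0 for several forms (paper 619, phase 2): the pair hypothesis
-/

namespace Pool.Agent.Lib.MP_44a246_ntSH

open Pool.Agent.Lib.MP_44a246_nt
open Pool.Agent.Lib.MP_44a246_ntL
open Pool.Agent.Lib.MP_44a246_ntS
open Pool.Agent.Lib.MP_44a246_ntX
open Pool.Agent.Lib.MP_44a246_ntG
open Pool.Agent.Lib.MP_44a246_ntK
open Pool.Agent.Lib.MP_44a246_ntF
open Pool.Agent.Lib.MP_44a246_ntA
open Pool.Agent.Lib.MP_44a246_ntO (PairHyp)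
open Pool.Agent.Lib.MP_e52354_nt
open WithZero Module

/-- **The pair hypothesis** for a point of a complete intersection. -/
theorem pairHyp_datC {κ L : Type*} [Field κ] [IsAlgClosed κ] [CharZero κ] [Field L] [CharZero L]
    [Algebra κ L] (h : IsFF κ L) {n p k : ℕ} {d : Fin p → ℕ} (X : DatC κ (L := L) n d)
    (hF : ∀ j, Fval (d j) (X.a j) X.x = 0) (hp : 1 ≤ p) (hd : k + n + 2 ≤ ∑ j, d j) :
    PairHyp κ X.x d p n 0 k
      (((((n + 1) * (n + 1) : ℕ) : ℤ) * X.Δ + X.R : ℤ) : ℝ) := by
  classical
  have hx1 : ∀ w : Place κ L, 1 ≤ vmax w.1 X.x := by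
    intro w
    by_contra hcon
    rw [not_le] at hcon
    have h1 : w.1 (∑ j, (X.ξ₀ j : L) * X.x j) ≤ vmax w.1 X.x := by
      refine Valuation.map_sum_le w.1 fun j _ => ?_
      rw [map_mul]
      have h2 : w.1 ((X.ξ₀ j : L)) ≤ 1 := by
        rw [← map_natCast (algebraMap κ L)]
        exact place_const_le w _
      calc _ ≤ 1 * vmax w.1 X.x := mul_le_mul' h2 (le_vmax w.1 X.x j)
        _ = _ := one_mul _
    rw [X.h0, map_one] at h1
    exact absurd h1 (not_le.2 hcon)
  have hx0 : X.x ≠ 0 := by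
    intro h1
    have h2 := X.h0
    rw [h1] at h2
    simp at h2
  set W : Submodule L (ES (n + 1) d → L) :=
    Submodule.span L (Set.range fun i => rowD (fD X) (X.x i)) with hW
  have hmem : ∀ j : Fin p, xm (d j) X.x ∈ piece κ W j := by
    intro j
    obtain ⟨u, hu⟩ : ∃ u : ES (n + 1) d → L, ∀ s, u s = if s.1 = j then xm (d s.1) X.x s.2 else 0 :=
      ⟨_, fun _ => rfl⟩
    have h1 : u ∈ W := by
      have h2 : u = ∑ i, (- grad (d j) (X.a j) X.x i) • rowD (fD X) (X.x i) := by
        funext s
        obtain ⟨i₀, I₀, hI₀⟩ := s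
        have h3 := D_Fval (d j) (X.a j) (X.D (i₀, I₀)) X.x
        rw [hF j, map_zero] at h3
        have h4 : ∑ I ∈ expo (Fin (n + 1)) (d j), X.D (i₀, I₀) (X.a j I) * mon X.x I =
            u ⟨i₀, I₀, hI₀⟩ := by
          rw [hu]
          have h5 : ∀ I ∈ expo (Fin (n + 1)) (d j),
              X.D (i₀, I₀) (X.a j I) * mon X.x I =
                if (i₀, I₀) = (j, I) then mon X.x I else 0 := by
            intro I hI
            rw [X.hDa (i₀, I₀) hI₀ (j, I) hI]
            split_ifs <;> simp
          rw [Finset.sum_congr rfl h5]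
          by_cases hs : i₀ = j
          · subst hs
            rw [if_pos rfl, Finset.sum_eq_single I₀]
            · rw [if_pos rfl]
              rfl
            · intro I _ hI
              rw [if_neg]
              intro h6
              rw [Prod.mk.injEq] at h6
              exact hI h6.2.symm
            · intro h6
              exact absurd hI₀ h6
          · rw [if_neg hs, Finset.sum_eq_zero]
            intro I _
            rw [if_neg]
            intro h6
            rw [Prod.mk.injEq] at h6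
            exact hs h6.1
        rw [h4] at h3
        rw [Finset.sum_apply]
        simp only [Pi.smul_apply, smul_eq_mul, neg_mul, Finset.sum_neg_distrib]
        have h7 : ∀ i, rowD (fD X) (X.x i) ⟨i₀, I₀, hI₀⟩ = X.D (i₀, I₀) (X.x i) := fun i => rfl
        simp only [h7]
        linear_combination -h3
      rw [h2]
      exact W.sum_mem fun i _ => W.smul_mem _ (Submodule.subset_span ⟨i, rfl⟩)
    have h2 := mem_piece (κ := κ) (j := j) h1 (fun s hs => by rw [hu, if_neg hs])
    have h3 : (fun i : EX (n + 1) (d j) => u ⟨j, i⟩) = xm (d j) X.x := by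
      funext i
      rw [hu, if_pos rfl]
    rw [h3] at h2
    exact h2
  have hξ : ∀ (K : ES (n + 1) d) (i : Fin (n + 1)), fD X K ((X.ξ₀ i : L)) = 0 :=
    fun K i => Derivation.map_natCast _ _
  have key := pairHyp h (m := n + 1) (g := p) (k := k) (c := 0) (p := p)
    (d := d) (by omega) hp (F := fD X) X.hδ X.hρ (fD_minor X) hx1 hx0
    (γ := Fin 0) (Λ := Fin 0) (by simp) (β := Fin.elim0) (fun t => t.elim0)
    (η := Fin.elim0) (fun t => t.elim0) (t := Fin.elim0) (ε := fun _ => 0) (by simp)
    (fun w => Or.inl fun t => t.elim0) (e := id) Function.injective_id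
    (by simp only [id]; omega) (W := W) hmem
    (fun P hP => by
      refine le_trans ?_ le_sup_left
      rw [hW, Submodule.span_le]
      rintro _ ⟨i, rfl⟩
      exact rowD_mem_UL (fD X) hξ X.h0 i)
    (E := (((((n + 1) * (n + 1) : ℕ) : ℤ) * X.Δ + X.R : ℤ) : ℝ)) (by
      refine le_of_eq ?_
      simp [DatC.Δ, DatC.R])
  exact key

end Pool.Agent.Lib.MP_44a246_ntSH
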