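import Mathlib
import Pool.Agent.Lib.MP_44a246_ntA.P13a
import Pool.Agent.Lib.MP_44a246_ntI.I03
import Pool.Agent.Lib.MP_44a246_ntO.O10
import Pool.Agent.Lib.MP_44a246_ntSH.SU2

/-!
# Step 0 for several forms (paper 619, phase 2): the curve
-/

namespace Pool.Agent.Lib.MP_44a246_ntSH

open Pool.Agent.Lib.MP_44a246_nt
open Pool.Agent.Lib.MP_44a246_ntL
open Pool.Agent.Lib.MP_44a246_ntS
open Pool.Agent.Lib.MP_44a246_ntX
open Pool.Agent.Lib.MP_44a246_ntG
open Pool.Agent.Lib.MP_44a246_ntK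
open Pool.Agent.Lib.MP_44a246_ntF
open Pool.Agent.Lib.MP_44a246_ntA
open Pool.Agent.Lib.MP_44a246_ntC
open Pool.Agent.Lib.MP_44a246_ntI
open Pool.Agent.Lib.MP_44a246_ntO (PairHyp one_le_finrank_aux)
open Pool.Agent.Lib.MP_e52354_nt
open WithZero Module

/-- **One block**: the passage to the plane, for the coordinates of the space. -/
theorem plane_block4 {κ L : Type*} [Field κ] [IsAlgClosed κ] [CharZero κ] [Field L] [CharZero L]
    [Algebra κ L] (h : IsFF κ L) {n d b m : ℕ} (X : DatG κ (L := L) n d) (hb : 4 ≤ b)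
    (hm : 1 ≤ m) (hd : 14 * (b * m) ≤ d) (hH : 0 < height κ X.x)
    {U : Submodule L (EX (n + 1) d → L)} (hU : xm d X.x ∈ U) :
    (∃ (a : ℕ) (A : MvPolynomial (Fin 3) L), a ≤ b ∧ A ≠ 0 ∧ A.IsHomogeneous a ∧
        MvPolynomial.eval X.p A = 0 ∧ 21 * (a * (m * polyHeight κ A)) ≤ height κ X.x) ∨
      (d : ℝ) * height κ X.x - ht κ U - 21 * height κ X.x / (20 * b) * ((finrank L U : ℝ) - 1) ≤
        (12 * (b * m) + 2 * b - 1) * height κ X.x + 21 * height κ X.x / (20 * b) := by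
  set T : Matrix (M3 d) (EX (n + 1) d) κ := fun K I => (X.Kf K).coeff I.1 with hT
  set V : Submodule L (M3 d → L) := U.map (T.map (algebraMap κ L)).mulVecLin with hV
  have hxi : xi d X.p ∈ V := by
    refine ⟨xm d X.x, hU, ?_⟩
    funext K
    rw [Matrix.mulVecLin_apply, ← X.Kf_eval' K, ← Finset.sum_coe_sort]
    rfl
  have hb' : (0 : ℤ) < b := by
    have : 0 < b := by omega
    exact_mod_cast this
  have hbm : b ≤ b * m := Nat.le_mul_of_pos_right _ hm
  rcases stepA_block2 h X hxi hb hbm (by omega) hH with ⟨a, A, h1, h2, h3, h4, h5, -⟩ | h1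
  · left
    refine ⟨a, A, h1, h2, h3, h4, ?_⟩
    refine le_of_mul_le_mul_left (le_of_eq_of_le ?_ h5) hb'
    push_cast
    ring
  · right
    have h2 : ht κ V ≤ ht κ U := ht_map_const_le h _ U
    have h3 : finrank L V ≤ finrank L U := Submodule.finrank_map_le _ _
    have hbr : (0 : ℝ) < b := by exact_mod_cast hb'
    have hHr : (0 : ℝ) < (height κ X.x : ℝ) := by exact_mod_cast hH
    have h2r : (ht κ V : ℝ) ≤ ht κ U := by exact_mod_cast h2
    have h3r : (finrank L V : ℝ) ≤ finrank L U := by exact_mod_cast h3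
    have h4 : 20 * (b : ℝ) * (((d : ℝ) - 12 * (b * m) - 2 * b + 1) * height κ X.x) ≤
        20 * b * ht κ V + 21 * height κ X.x * finrank L V := by
      exact_mod_cast h1
    set H : ℝ := (height κ X.x : ℝ) with hHdef
    have h5 : ((d : ℝ) - 12 * (b * m) - 2 * b + 1) * H ≤
        ht κ V + 21 * H / (20 * b) * finrank L V := by
      refine le_of_mul_le_mul_left (h4.trans (le_of_eq ?_)) (by positivity : (0 : ℝ) < 20 * b)
      field_simp
    have h6 : 21 * H / (20 * b) * finrank L V ≤ 21 * H / (20 * b) * finrank L U :=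
      mul_le_mul_of_nonneg_left h3r (by positivity)
    linarith

/-- the numerical contradiction -/
private theorem numU {H y E z l : ℝ} {n ρ b m C₀ : ℕ} (hH : 0 < H) (hE : E < H) (hρ : 1 ≤ ρ)
    (hb : 6 ≤ b) (hm : 1 ≤ m) (hbn : 400 * ρ * (b * m) ≤ n) (hC : 0 < C₀)
    (hbC : 42 * (20 * n + 9 * C₀) ≤ 180 * (C₀ * b)) (hy : 20 * y ≤ H)
    (hl : 9 * (C₀ : ℝ) * (l - 1) ≤ 20 * n)
    (h1 : (0 - (l - 1)) * H + n * (H - y) - 21 * H / (20 * b) * (l * n) - E ≤ ρ * z)
    (h2 : 4 * (ρ * z) ≤ n * H ∨ z ≤ (12 * (b * m) + 2 * b - 1) * H + 21 * H / (20 * b)) :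
    False := by
  have hC0 : (0 : ℝ) < C₀ := by exact_mod_cast hC
  have hbCR : 42 * (20 * (n : ℝ) + 9 * C₀) ≤ 180 * (C₀ * b) := by exact_mod_cast hbC
  have hb6 : (6 : ℝ) ≤ b := by exact_mod_cast hb
  have hbr : (0 : ℝ) < b := by linarith
  have hρR : (1 : ℝ) ≤ ρ := by exact_mod_cast hρ
  have hmR : (1 : ℝ) ≤ m := by exact_mod_cast hm
  have hbnR : 400 * (ρ : ℝ) * (b * m) ≤ n := by exact_mod_cast hbn
  have hn0 : (0 : ℝ) ≤ n := Nat.cast_nonneg n
  -- `42 l ≤ 20 b`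
  have hl42 : 42 * l ≤ 20 * b := by
    have h3 : (9 * (C₀ : ℝ)) * (42 * l) ≤ (9 * C₀) * (20 * b) := by nlinarith
    exact le_of_mul_le_mul_left h3 (by linarith)
  set q : ℝ := 21 * H / (20 * b) with hq
  have hqb : q * b = 21 * H / 20 := by
    rw [hq]
    field_simp
  have hq0 : 0 ≤ q := by positivity
  have hql : q * l ≤ H / 2 := by
    have h3 := mul_le_mul_of_nonneg_left hl42 hq0
    nlinarith
  have hqln : q * (l * n) ≤ H / 2 * n := by
    have := mul_le_mul_of_nonneg_right hql hn0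
    linarith
  have hny : (n : ℝ) * (19 * H) ≤ 20 * (n * (H - y)) := by
    have := mul_le_mul_of_nonneg_left (by linarith : 19 * H ≤ 20 * (H - y)) hn0
    linarith
  have hlH : l * H ≤ 20 * b / 42 * H := mul_le_mul_of_nonneg_right (by linarith) hH.le
  have hbm : (b : ℝ) ≤ b * m := le_mul_of_one_le_right hbr.le hmR
  have hbmρ : (b : ℝ) * m ≤ ρ * (b * m) := le_mul_of_one_le_left (by positivity) hρR
  have hbH : 400 * (b * H) ≤ n * H := by
    have : 400 * (b : ℝ) ≤ n := by linarith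
    have h3 := mul_le_mul_of_nonneg_right this hH.le
    linarith
  have hb6H : 6 * H ≤ b * H := mul_le_mul_of_nonneg_right hb6 hH.le
  have hlow : (n : ℝ) * H < 4 * (ρ * z) := by
    have h3 : (n : ℝ) * (H - y) - q * (l * n) - (l - 1) * H - H < ρ * z := by linarith
    nlinarith
  rcases h2 with h2 | h2
  · linarith
  · have hq1 : q ≤ 21 * H / 120 := by
      have h3 : q * 6 ≤ q * b := mul_le_mul_of_nonneg_left hb6 hq0
      linarith
    have h3 : (ρ : ℝ) * z ≤ ρ * ((12 * (b * m) + 2 * b - 1) * H + q) :=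
      mul_le_mul_of_nonneg_left h2 (by linarith)
    have h4 : (12 * (b * m) + 2 * b - 1) * H + q ≤ 14 * (b * m) * H := by
      have h5 : (b : ℝ) * H ≤ b * m * H := mul_le_mul_of_nonneg_right hbm hH.le
      nlinarith
    have h5 : (ρ : ℝ) * ((12 * (b * m) + 2 * b - 1) * H + q) ≤ ρ * (14 * (b * m) * H) :=
      mul_le_mul_of_nonneg_left h4 (by linarith)
    have h6 : 400 * (ρ : ℝ) * (b * m) * H ≤ n * H := mul_le_mul_of_nonneg_right hbnR hH.le
    have h7 : (0 : ℝ) ≤ ρ * (b * m) * H := by positivity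
    nlinarith

/-- **The curve**, from a subspace of small height and small dimension. -/
theorem curve_steepP {κ L : Type*} [Field κ] [IsAlgClosed κ] [CharZero κ] [Field L] [CharZero L]
    [Algebra κ L] (h : IsFF κ L) {n p ρ b m C₀ : ℕ} {d : Fin p → ℕ} (X : DatC κ (L := L) n d)
    (hρ : 1 ≤ ρ) (hb : 6 ≤ b) (hm : 1 ≤ m) (hbn : 400 * ρ * (b * m) ≤ n) (hC : 0 < C₀)
    (hbC : 42 * (20 * n + 9 * C₀) ≤ 180 * (C₀ * b))
    (hH : 0 < height κ X.x) {E : ℝ} (hE : E < height κ X.x)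
    (hP : PairHyp κ X.x d ρ n 0 0 E)
    {P : Submodule L (Fin (n + 1) → L)} (hxP : X.x ∈ P) (hPH : 20 * ht κ P ≤ height κ X.x)
    (hPd : 9 * (C₀ : ℝ) * ((finrank L P : ℝ) - 1) ≤ 20 * n) :
    ∃ (j : Fin p) (a : ℕ) (A : MvPolynomial (Fin 3) L), n ≤ 4 * ρ * d j ∧ a ≤ b ∧ A ≠ 0 ∧
      A.IsHomogeneous a ∧ MvPolynomial.eval X.pt A = 0 ∧
      21 * (a * (m * polyHeight κ A)) ≤ height κ X.x := by
  have hHr : (0 : ℝ) < (height κ X.x : ℝ) := by exact_mod_cast hH
  have hb6 : (6 : ℝ) ≤ b := by exact_mod_cast hb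
  have hbr : (0 : ℝ) < b := by linarith
  have hx0 : X.x ≠ 0 := by
    intro h1
    have h2 := X.h0
    rw [h1] at h2
    simp at h2
  obtain ⟨j, U, hU, h1⟩ := hP P hxP (21 * height κ X.x / (20 * b)) (by positivity)
  have hy : 20 * (ht κ P : ℝ) ≤ (height κ X.x : ℝ) := by exact_mod_cast hPH
  have h1' : (0 - ((finrank L P : ℝ) - 1)) * height κ X.x + n * ((height κ X.x : ℝ) - ht κ P) -
      21 * height κ X.x / (20 * b) * ((finrank L P : ℝ) * n) - E ≤
      ρ * ((d j : ℝ) * height κ X.x - ht κ U -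
        21 * height κ X.x / (20 * b) * ((finrank L U : ℝ) - 1)) := by
    push_cast at h1
    rw [add_zero] at h1
    exact h1
  rcases Nat.lt_or_ge (4 * ρ * d j) n with hj | hj
  · exfalso
    refine numU hHr hE hρ hb hm hbn hC hbC hy hPd h1' (Or.inl ?_)
    have hU0 : (0 : ℝ) ≤ ht κ U := by exact_mod_cast ht_nonneg h U
    have hU1 : (1 : ℝ) ≤ finrank L U := by
      exact_mod_cast one_le_finrank_aux (xm_ne_zero hx0) hU
    have h3 : 0 ≤ 21 * (height κ X.x : ℝ) / (20 * b) * ((finrank L U : ℝ) - 1) :=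
      mul_nonneg (by positivity) (by linarith)
    have h4 : 4 * (ρ : ℝ) * d j ≤ n := by exact_mod_cast hj.le
    have h5 := mul_le_mul_of_nonneg_right h4 hHr.le
    have h6 : (ρ : ℝ) * ((d j : ℝ) * height κ X.x - ht κ U -
        21 * height κ X.x / (20 * b) * ((finrank L U : ℝ) - 1)) ≤ ρ * (d j * height κ X.x) :=
      mul_le_mul_of_nonneg_left (by linarith) (Nat.cast_nonneg _)
    linarith
  · have hdj : 14 * (b * m) ≤ d j := by
      have h2 : 4 * ρ * (100 * (b * m)) ≤ 4 * ρ * d j := by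
        refine le_trans (le_of_eq ?_) (hbn.trans hj)
        ring
      have h3 : 100 * (b * m) ≤ d j := Nat.le_of_mul_le_mul_left h2 (by omega)
      omega
    rcases plane_block4 h (X.blk j) (by omega) hm hdj hH (U := U) hU with
      ⟨a, A, g1, g2, g3, g4, g5⟩ | h2
    · exact ⟨j, a, A, hj, g1, g2, g3, g4, g5⟩
    · exact (numU hHr hE hρ hb hm hbn hC hbC hy hPd h1' (Or.inr h2)).elim

/-- **Step 0** for several forms: either all the subspaces which contain `x` have slope at most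
`C₀ H / n` over `x` (and the sum of the degrees is at most `n + C₀ + 2`), or there is a curve of
degree at most `b` and of small height. -/
theorem step0P {κ L : Type*} [Field κ] [IsAlgClosed κ] [CharZero κ] [Field L] [CharZero L]
    [Algebra κ L] (h : IsFF κ L) {n p b C₀ : ℕ} {d : Fin p → ℕ} (X : DatC κ (L := L) n d)
    (hF : ∀ j, Fval (d j) (X.a j) X.x = 0) (hn : 1 ≤ n) (hd1 : ∀ j, 1 ≤ d j)
    (hd : n + 2 ≤ ∑ j, d j) (hb : 6 ≤ b) (hbn : 400 * p * (b * (4 * p + 1)) ≤ n)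
    (hC : 360 * p + 10 ≤ C₀) (hbC : 42 * (20 * n + 9 * C₀) ≤ 180 * (C₀ * b))
    (hbig : (27 * ((∑ j, d j : ℕ) : ℤ) ^ 2 + (n + 1) * ((n + 1) * (n + 1) + 1)) * (X.Δ + X.R) <
      height κ X.x) :
    (∑ j, d j ≤ n + C₀ + 2 ∧ ∀ E₁ : Submodule L (Fin (n + 1) → L), X.x ∈ E₁ →
      n * ((height κ X.x : ℝ) - ht κ E₁) ≤ C₀ * height κ X.x * ((finrank L E₁ : ℝ) - 1)) ∨
    ∃ j, SmallI (X.blk j) b 0 := by
  classical
  have hp : 1 ≤ p := by
    by_contra hcon
    have h1 : p = 0 := by omega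
    subst h1
    rw [Finset.univ_eq_empty, Finset.sum_empty] at hd
    omega
  have hΔ := X.Δ_nonneg
  have hR := X.R_nonneg
  have hΔR : 0 ≤ X.Δ + X.R := add_nonneg hΔ hR
  have hH : 0 < height κ X.x := lt_of_le_of_lt (mul_nonneg (by positivity) hΔR) hbig
  have hHr : (0 : ℝ) < height κ X.x := by exact_mod_cast hH
  have hx0 : X.x ≠ 0 := by
    intro h1
    have h2 := X.h0
    rw [h1] at h2
    simp at h2
  set E : ℝ := (((((n + 1) * (n + 1) : ℕ) : ℤ) * X.Δ + X.R : ℤ) : ℝ) with hE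
  have hE0 : 0 ≤ E := by
    rw [hE]
    exact_mod_cast add_nonneg (mul_nonneg (Int.natCast_nonneg _) hΔ) hR
  have hEH : ((n + 1 : ℕ) : ℝ) * E < height κ X.x := by
    have h1 : ((n + 1 : ℕ) : ℤ) * ((((n + 1) * (n + 1) : ℕ) : ℤ) * X.Δ + X.R) <
        height κ X.x := by
      have h2 : ((n + 1 : ℕ) : ℤ) * ((((n + 1) * (n + 1) : ℕ) : ℤ) * X.Δ + X.R) ≤
          ((n : ℤ) + 1) * ((n + 1) * (n + 1) + 1) * (X.Δ + X.R) := by
        push_cast
        have h3 : 0 ≤ (n : ℤ) + 1 := by positivity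
        have h4 : 0 ≤ ((n : ℤ) + 1) * X.Δ := mul_nonneg h3 hΔ
        have h5 : 0 ≤ ((n : ℤ) + 1) * ((n + 1) * (n + 1)) * X.R := by positivity
        nlinarith
      have h3 : 0 ≤ 27 * ((∑ j, d j : ℕ) : ℤ) ^ 2 * (X.Δ + X.R) := mul_nonneg (by positivity) hΔR
      nlinarith
    rw [hE]
    exact_mod_cast h1
  have hn1 : (1 : ℝ) ≤ n := by exact_mod_cast hn
  have hEH' : E < height κ X.x := by
    have h1 : E ≤ ((n + 1 : ℕ) : ℝ) * E := by
      push_cast
      nlinarith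
    linarith
  by_cases hall : ∀ E₁ : Submodule L (Fin (n + 1) → L), X.x ∈ E₁ →
      n * ((height κ X.x : ℝ) - ht κ E₁) ≤ C₀ * height κ X.x * ((finrank L E₁ : ℝ) - 1)
  · refine Or.inl ⟨?_, hall⟩
    obtain ⟨k, hk⟩ : ∃ k, k + n + 2 = ∑ j, d j := ⟨∑ j, d j - (n + 2), by omega⟩
    have hP := pairHyp_datC h X hF hp hk.le
    have h1 := sum_le_of_slope h (n := n + 1) (by omega) hx0 hd1 hE0 hP hall hEH hn
    omega
  right
  obtain ⟨E₁, hE₁⟩ := not_forall.1 hall
  obtain ⟨hxE, hsl⟩ := Classical.not_imp.1 hE₁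
  rw [not_le] at hsl
  -- the dimension of the steep space
  have hE2 : 2 ≤ finrank L E₁ := by
    have h1 := one_le_finrank_aux hx0 hxE
    by_contra hcon
    have h2 : finrank L E₁ = 1 := by omega
    have h3 : E₁ = L ∙ X.x := by
      symm
      refine Submodule.eq_of_le_of_finrank_eq
        ((Submodule.span_singleton_le_iff_mem _ _).2 hxE) ?_
      rw [finrank_span_singleton hx0, h2]
    rw [h3, finrank_span_singleton hx0, ht_single h hx0] at hsl
    simp at hsl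
  have hP := pairHyp_datC h X hF hp (k := 0) (by omega)
  obtain ⟨P, hxP, hPH, hPd⟩ := lemmaP_steepP h (n := n + 1) (by omega) hx0 (d := d) (r := n)
    hp hE0 hP hC hxE hE2 hsl.le hEH.le hH
  obtain ⟨j, a, A, hj, h1, h2, h3, h4, h5⟩ := curve_steepP h X (b := b) (C₀ := C₀) hp hb
    (by omega) hbn (by omega) hbC hH hEH' hP hxP hPH hPd
  refine ⟨j, ?_⟩
  have hdj : 100 * (b * (4 * p + 1)) ≤ d j := by
    have h6 : 4 * p * (100 * (b * (4 * p + 1))) ≤ 4 * p * d j := by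
      refine le_trans (le_of_eq ?_) (hbn.trans hj)
      ring
    exact Nat.le_of_mul_le_mul_left h6 (by omega)
  have hbd : 100 * b ≤ d j := by
    have h6 : b ≤ b * (4 * p + 1) := Nat.le_mul_of_pos_right _ (by omega)
    omega
  have hnd : n + 1 ≤ (4 * p + 1) * d j := by
    have h6 : (4 * p + 1) * d j = 4 * p * d j + d j := by ring
    omega
  have hv0 : (X.blk j).v = 0 := hF j
  have hrow0 : (X.blk j).row (X.blk j).v = 0 := by
    rw [hv0]
    funext K
    exact map_zero _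
  have hr₀ : finrank L (X.blk j).Ux ≤ n + 1 := by
    refine (finrank_range_le_card (R := L)
      (fun i : Fin (n + 1) => (X.blk j).row ((X.blk j).x i))).trans ?_
    rw [Fintype.card_fin]
  refine smallI_block h (m := 4 * p + 1) (r := n + 1) (r₀ := n + 1) (q := 0) (Λ := Fin 0)
    (γ := Fin 0) (by omega) hb hdj (by rw [Fintype.card_fin]; omega) hnd (X.blk j)
    (finVJ h (X.blk j))
    (β := Fin.elim0) (fun t => t.elim0) (η := Fin.elim0) (fun t => t.elim0) (t := Fin.elim0)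
    (ε := fun _ => 0) (by simp) (fun w => Or.inl fun t => t.elim0)
    (by rw [hrow0]; exact Submodule.zero_mem _) hr₀
    (by rw [Fintype.card_fin]) (E₀ := X.R) hR (by simp; rfl)
    ⟨a, A, h1, h2, h3, h4, h5⟩ ?_
  have h6 : 0 ≤ ((n : ℤ) + 1) * ((n + 1) * (n + 1) + 1) * (X.Δ + X.R) :=
    mul_nonneg (by positivity) hΔR
  have h7 : (d j : ℤ) ≤ ((∑ j, d j : ℕ) : ℤ) := by
    exact_mod_cast Finset.single_le_sum (f := d) (fun _ _ => Nat.zero_le _) (Finset.mem_univ j)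
  have h8 : (d j : ℤ) ^ 2 ≤ ((∑ j, d j : ℕ) : ℤ) ^ 2 :=
    pow_le_pow_left₀ (Int.natCast_nonneg _) h7 2
  have h9 : 27 * (d j : ℤ) ^ 2 * (X.Δ + X.R) ≤
      27 * ((∑ j, d j : ℕ) : ℤ) ^ 2 * (X.Δ + X.R) :=
    mul_le_mul_of_nonneg_right (by linarith) hΔR
  have h10 : (X.blk j).Δ = X.Δ := rfl
  have h11 : height κ (X.blk j).x = height κ X.x := rfl
  rw [h10, h11]
  linarith

end Pool.Agent.Lib.MP_44a246_ntSH
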