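import Mathlib
import Pool.Agent.Lib.MP_44a246_ntSH.CW08
import Pool.Agent.Lib.MP_44a246_ntSH.RV10
import Pool.Agent.Lib.MP_44a246_ntSH.SU3

/-!
# Step 0 for several forms (paper 619, phase 2): the certificates
-/

namespace Pool.Agent.Lib.MP_44a246_ntSH

open Pool.Agent.Lib.MP_44a246_nt
open Pool.Agent.Lib.MP_44a246_ntL
open Pool.Agent.Lib.MP_44a246_ntS
open Pool.Agent.Lib.MP_44a246_ntX
open Pool.Agent.Lib.MP_44a246_ntG
open Pool.Agent.Lib.MP_44a246_ntK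
open Pool.Agent.Lib.MP_44a246_ntF
open Pool.Agent.Lib.MP_44a246_ntE
open Pool.Agent.Lib.MP_44a246_ntI (SmallI)
open Pool.Agent.Lib.MP_44a246_ntO (one_le_finrank_aux)
open Pool.Agent.Lib.MP_e52354_nt
open WithZero Module Polynomial

theorem DatSC.x_ne_zero {κ L : Type*} [Field κ] [Field L] [Algebra κ L] {n p : ℕ} {d : Fin p → ℕ}
    (X : DatSC κ (L := L) n d) : X.x ≠ 0 := by
  intro h1
  have h2 := X.h0
  rw [h1] at h2
  simp at h2

/-- **The certificate of a curve of small degree.** -/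
theorem certSP_of_smallI {κ L : Type*} [Field κ] [IsAlgClosed κ] [CharZero κ] [Field L]
    [CharZero L] [Algebra κ L] (h : IsFF κ L) {n p b : ℕ} {d : Fin p → ℕ}
    (X : DatSC κ (L := L) n d) (hF : ∀ j, Fval (d j) (X.a j) X.x = 0) (hd1 : ∀ j, 1 ≤ d j)
    {τ : Place κ L → ℕ} (hτ : (Function.support τ).Finite)
    (ha : ∀ (w : Place κ L) j, ∀ I ∈ expo (Fin (n + 1)) (d j), w.1 (X.a j I) ≤ exp (τ w : ℤ))
    {j : Fin p} (hS : SmallI (X.blk j) b 0)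
    (hbig : (((∑ j, d j : ℕ) : ℤ) + 8 * (n + 1)) * (X.Δ + 8 * X.R) + b * ∑ᶠ w, (τ w : ℤ) <
      height κ X.x) :
    CertSP d X.a b 1 X.x := by
  obtain ⟨a, A, P, h1, h2, h3, -, -, -, h7, -, h9⟩ := hS
  have hΔ : 0 ≤ X.Δ := X.Δ_nonneg
  have hR : 0 ≤ X.R := X.R_nonneg
  have e1 : (X.blk j).Δ = X.Δ := rfl
  have e2 : (X.blk j).R = X.R := rfl
  rw [e1] at h7
  rw [e1, e2] at h9
  have hΘ : 0 ≤ ∑ᶠ w, (τ w : ℤ) := finsum_nonneg fun w => Int.natCast_nonneg _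
  have hgA : 0 ≤ gh κ A := gh_nonneg h h3.irr.ne_zero
  have hdj : (1 : ℤ) ≤ (d j : ℤ) ^ 2 := by
    have : (1 : ℤ) ≤ d j := by exact_mod_cast hd1 j
    nlinarith
  -- the height of the curve
  have hgA' : 3 * gh κ A ≤ X.Δ + 23 * X.R := by
    have k1 : (d j : ℤ) ^ 2 * (3 * gh κ A) ≤ (d j : ℤ) ^ 2 * (X.Δ + 23 * X.R) := by nlinarith
    exact le_of_mul_le_mul_left k1 (by linarith)
  have hgA'' : gh κ A ≤ X.Δ + 8 * X.R := by linarith
  have hx0 := X.x_ne_zero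
  have hab : (a : ℤ) ≤ b := by exact_mod_cast h2
  have hS0 : 0 ≤ ((∑ j, d j : ℕ) : ℤ) * (X.Δ + 8 * X.R) :=
    mul_nonneg (Int.natCast_nonneg _) (by linarith)
  have hn0 : 0 ≤ 8 * ((n : ℤ) + 1) * (X.Δ + 8 * X.R) := mul_nonneg (by positivity) (by linarith)
  have hbΘ : 0 ≤ (b : ℤ) * ∑ᶠ w, (τ w : ℤ) := mul_nonneg (Int.natCast_nonneg _) hΘ
  have haΘ : (a : ℤ) * ∑ᶠ w, (τ w : ℤ) ≤ b * ∑ᶠ w, (τ w : ℤ) :=
    mul_le_mul_of_nonneg_right hab hΘ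
  refine certSP_mono h2 (stepCSP (X.blk j) h3 h X.hEκ hτ (fun i I hI w => ha w i I hI) hF
    (fun Q hQ _ => one_le_finrank_aux hx0 hQ) h7 (fun i => ?_) ?_)
  · have k1 : (d i : ℤ) ≤ ((∑ j, d j : ℕ) : ℤ) := by
      exact_mod_cast Finset.single_le_sum (f := d) (fun _ _ => Nat.zero_le _) (Finset.mem_univ i)
    have k2 : (d i : ℤ) * gh κ A ≤ ((∑ j, d j : ℕ) : ℤ) * (X.Δ + 8 * X.R) :=
      mul_le_mul k1 hgA'' hgA (Int.natCast_nonneg _)
    show (d i : ℤ) * gh κ A + a * ∑ᶠ w, (τ w : ℤ) < height κ X.x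
    linarith
  · show 2 * ((n : ℤ) + 1) * (3 * gh κ A + X.Δ) ≤ height κ X.x
    have k1 : 2 * ((n : ℤ) + 1) * (3 * gh κ A + X.Δ) ≤ 2 * ((n : ℤ) + 1) * (4 * (X.Δ + 8 * X.R)) :=
      mul_le_mul_of_nonneg_left (by linarith) (by positivity)
    linarith

/-- The case of small slopes: the curve of large degree. -/
theorem certSP_of_slope {κ L : Type*} [Field κ] [IsAlgClosed κ] [CharZero κ] [Field L]
    [CharZero L] [Algebra κ L] (h : IsFF κ L) {n p C₀ C₁ C₈ : ℕ} {d : Fin p → ℕ}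
    (X : DatSC κ (L := L) n d) (hF : ∀ j, Fval (d j) (X.a j) X.x = 0) (j₀ : Fin p)
    (hC₀ : 1 ≤ C₀) (hd2 : ∑ j, d j ≤ 2 * n) (hn : 20 * (C₁ + 1) * (C₈ + 1) ≤ n)
    (hsl : ∀ Q : Submodule L (Fin (n + 1) → L), X.x ∈ Q →
      n * ((height κ X.x : ℝ) - ht κ Q) ≤ C₀ * height κ X.x * ((finrank L Q : ℝ) - 1))
    {τ : Place κ L → ℕ} (hτ : (Function.support τ).Finite)
    (ha : ∀ (w : Place κ L) j, ∀ I ∈ expo (Fin (n + 1)) (d j), w.1 (X.a j I) ≤ exp (τ w : ℤ))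
    {e : ℕ} {P : MvPolynomial (Fin 3) L} (he : e ≤ C₁ * n) (hP0 : P ≠ 0)
    (hPh : P.IsHomogeneous e) (hPe : MvPolynomial.eval X.pt P = 0)
    (hPs : (polyHeight κ P : ℝ) * n ^ 2 ≤ C₈ * height κ X.x)
    (hpos : 0 < height κ X.x)
    (hb1 : 9 * ((C₁ * n : ℕ) : ℤ) * X.Δ ≤ height κ X.x)
    (hb2 : 2 * ((C₁ * n : ℕ) : ℤ) * ∑ᶠ w, (τ w : ℤ) ≤ height κ X.x)
    (hb3 : 4 * ((n : ℤ) + 1) * X.Δ ≤ height κ X.x) :
    CertSP d X.a (C₁ * n) (n / (2 * C₀) + 1) X.x := by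
  have hPn : 0 ≤ polyHeight κ P := polyHeight_nonneg h hP0
  have hn1 : 20 ≤ n := by
    refine le_trans ?_ hn
    have h1 : 1 ≤ (C₁ + 1) * (C₈ + 1) := Nat.succ_le_of_lt (Nat.mul_pos (by omega) (by omega))
    calc 20 = 20 * 1 := rfl
      _ ≤ 20 * ((C₁ + 1) * (C₈ + 1)) := Nat.mul_le_mul_left _ h1
      _ = _ := by ring
  have hnz : (20 : ℤ) ≤ n := by exact_mod_cast hn1
  have hPs' : polyHeight κ P * (n : ℤ) ^ 2 ≤ C₈ * height κ X.x := by exact_mod_cast hPs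
  have hnC : 20 * ((C₁ : ℤ) + 1) * (C₈ + 1) ≤ n := by exact_mod_cast hn
  -- `20 (C₁ + 1) n polyHeight P ≤ H`
  have hP1 : 20 * ((C₁ : ℤ) + 1) * (n * polyHeight κ P) ≤ height κ X.x := by
    have k1 : (20 * ((C₁ : ℤ) + 1) * (C₈ + 1)) * (20 * ((C₁ : ℤ) + 1) * (n * polyHeight κ P)) ≤
        n * (20 * ((C₁ : ℤ) + 1) * (n * polyHeight κ P)) :=
      mul_le_mul_of_nonneg_right hnC (by positivity)
    have k2 : n * (20 * ((C₁ : ℤ) + 1) * (n * polyHeight κ P)) =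
        20 * ((C₁ : ℤ) + 1) * (polyHeight κ P * (n : ℤ) ^ 2) := by ring
    have k3 : 20 * ((C₁ : ℤ) + 1) * (polyHeight κ P * (n : ℤ) ^ 2) ≤
        20 * ((C₁ : ℤ) + 1) * (C₈ * height κ X.x) :=
      mul_le_mul_of_nonneg_left hPs' (by positivity)
    have k4 : 20 * ((C₁ : ℤ) + 1) * (C₈ * height κ X.x) ≤
        (20 * ((C₁ : ℤ) + 1) * (C₈ + 1)) * height κ X.x := by
      have : 0 ≤ 20 * ((C₁ : ℤ) + 1) * height κ X.x := mul_nonneg (by positivity) hpos.le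
      nlinarith
    have k5 : (0 : ℤ) < 20 * ((C₁ : ℤ) + 1) * (C₈ + 1) := by positivity
    refine le_of_mul_le_mul_left ?_ k5
    linarith
  have hP2 : 20 * (n * polyHeight κ P) ≤ 20 * ((C₁ : ℤ) + 1) * (n * polyHeight κ P) := by
    have : 0 ≤ 20 * (C₁ : ℤ) * (n * polyHeight κ P) := by positivity
    linarith
  have hP3 : 20 * (((C₁ * n : ℕ) : ℤ) * polyHeight κ P) ≤
      20 * ((C₁ : ℤ) + 1) * (n * polyHeight κ P) := by
    have : 0 ≤ 20 * (n * polyHeight κ P) := by positivity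
    push_cast
    linarith
  have hPnn : 20 * polyHeight κ P ≤ (n : ℤ) * polyHeight κ P :=
    mul_le_mul_of_nonneg_right hnz hPn
  refine certSP_of_plane h (X.blk j₀) X.hEκ hτ (fun i I hI w => ha w i I hI) hF
    (fun Q hQ hhQ => ?_) hP0 hPh he hPe ?_ (fun i => ?_) ?_
  · have h1 := hsl Q hQ
    have h2 : (2 : ℝ) * ht κ Q ≤ height κ X.x := by exact_mod_cast hhQ
    have hHr : (0 : ℝ) < height κ X.x := by exact_mod_cast hpos
    have h3 : (n : ℝ) * (height κ X.x : ℝ) ≤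
        2 * C₀ * (height κ X.x : ℝ) * ((finrank L Q : ℝ) - 1) := by
      have h4 : (0 : ℝ) ≤ n := Nat.cast_nonneg _
      nlinarith
    have h5 : (n : ℝ) ≤ 2 * C₀ * ((finrank L Q : ℝ) - 1) := by
      refine le_of_mul_le_mul_right ?_ hHr
      linarith
    have h6 : n + 2 * C₀ ≤ 2 * C₀ * finrank L Q := by
      have : (n : ℝ) + 2 * C₀ ≤ 2 * C₀ * finrank L Q := by linarith
      exact_mod_cast this
    have h7 : (n + 2 * C₀) / (2 * C₀) ≤ finrank L Q := by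
      rw [Nat.div_le_iff_le_mul_add_pred (by omega)]
      omega
    rw [Nat.add_div_right _ (by omega)] at h7
    exact h7
  · show 9 * ((C₁ * n : ℕ) : ℤ) * polyHeight κ P + 3 * ((C₁ * n : ℕ) : ℤ) * X.Δ < height κ X.x
    linarith
  · have h1 : (d i : ℤ) ≤ 2 * n := by
      have h2 : d i ≤ 2 * n := (Finset.single_le_sum (f := d) (fun _ _ => Nat.zero_le _)
        (Finset.mem_univ i)).trans hd2
      exact_mod_cast h2
    have h2 : (d i : ℤ) * polyHeight κ P ≤ 2 * n * polyHeight κ P :=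
      mul_le_mul_of_nonneg_right h1 hPn
    show (d i : ℤ) * polyHeight κ P + ((C₁ * n : ℕ) : ℤ) * ∑ᶠ w, (τ w : ℤ) < height κ X.x
    linarith
  · have h1 : 2 * ((n : ℤ) + 1) * (3 * polyHeight κ P + X.Δ) =
        6 * (n * polyHeight κ P) + 6 * polyHeight κ P + 2 * (((n : ℤ) + 1) * X.Δ) := by ring
    show 2 * ((n : ℤ) + 1) * (3 * polyHeight κ P + X.Δ) ≤ height κ X.x
    rw [h1]
    linarith

end Pool.Agent.Lib.MP_44a246_ntSH
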