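import Mathlib
import Pool.Agent.Lib.MP_44a246_ntSH.B23
import Pool.Agent.Lib.MP_44a246_ntSH.RV10
import Pool.Agent.Lib.MP_44a246_ntSH.SU3
import Pool.Agent.Lib.MP_44a246_ntSH.SU4

/-!
# The height theorem for generic complete intersections of general type, over the base field
(paper 619, phase 2)
-/

namespace Pool.Agent.Lib.MP_44a246_ntSH

open Pool.Agent.Lib.MP_44a246_nt
open Pool.Agent.Lib.MP_44a246_ntL
open Pool.Agent.Lib.MP_44a246_ntS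
open Pool.Agent.Lib.MP_44a246_ntX
open Pool.Agent.Lib.MP_44a246_ntG
open Pool.Agent.Lib.MP_44a246_ntK
open Pool.Agent.Lib.MP_44a246_ntC
open Pool.Agent.Lib.MP_44a246_ntE
open Pool.Agent.Lib.MP_44a246_ntF
open Pool.Agent.Lib.MP_44a246_ntO
open Pool.Agent.Lib.MP_44a246_ntI (SmallI)
open Pool.Agent.Lib.MP_44a246_ntR (genus)
open Pool.Agent.Lib.MP_e52354_nt
open WithZero Module

universe u v w

private theorem exists_q (n : ℕ) : ∃ q : ℕ, ∀ u H : ℤ, u * q ≤ H →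
    (u : ℝ) * ((n : ℝ) + 2) ^ 20 ≤ H := by
  refine ⟨(n + 2) ^ 20, fun u H h => ?_⟩
  have h1 : (u : ℝ) * (((n + 2) ^ 20 : ℕ) : ℝ) ≤ H := by exact_mod_cast h
  push_cast at h1
  exact h1

/-- the scaled form vanishes -/
private theorem Fval_smul_eq_zero {L : Type*} [Field L] {n d : ℕ} {a : (Fin (n + 1) →₀ ℕ) → L}
    {x : Fin (n + 1) → L} (t : L) (h : Fval d a x = 0) : Fval d a (fun j => t * x j) = 0 := by
  rw [Fval_smul, h, mul_zero]

/-- the rows with a larger error term -/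
private theorem rowsP_mono {κ L : Type*} [Field κ] [Field L] [Algebra κ L] {n p : ℕ}
    {x : Fin (n + 1) → L} {d : Fin p → ℕ} {c : ℕ} {E E' : ℝ} (h : RowsP κ x d c E)
    (hE : E ≤ E') : RowsP κ x d c E' := by
  intro Λ Λ' t t' h1 h2 h3 h4 h5
  obtain ⟨ν, W, h6, h7, h8, h9⟩ := h Λ Λ' t t' h1 h2 h3 h4 h5
  exact ⟨ν, W, h6, h7, by linarith, h9⟩

/-- **The height theorem over the base field** for `p` forms (paper 619, phase 2). -/
theorem sharp_baseP (p q : ℕ) (hq : q = p * (4 * p + 1)) : ∃ n₀ : ℕ,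
    ∀ (n : ℕ) (d : Fin p → ℕ), n₀ ≤ n → (∀ j, 2 ≤ d j) → n + 2 ≤ ∑ j, d j →
    ∀ (κ : Type u) (K : Type v) [Field κ] [IsAlgClosed κ] [CharZero κ] [Field K] [CharZero K]
      [Algebra κ K] (_ : IsFF κ K) (_ : Cardinal.aleph0 ≤ Algebra.trdeg ℚ κ)
      (a : Fin p → (Fin (n + 1) →₀ ℕ) → K)
      (_ : AlgebraicIndependent ℚ
        (fun s : {s : Fin p × (Fin (n + 1) →₀ ℕ) // s ∈ jexpo n d} => a s.1.1 s.1.2)),
    ∃ C : ℕ, ∀ (L : Type w) [Field L] [Algebra K L] [FiniteDimensional K L]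
      [Algebra κ L] [IsScalarTower κ K L] (x : Fin (n + 1) → L), x ≠ 0 →
      (∀ j, Fval (d j) (fun I => algebraMap K L (a j I)) x = 0) →
      height κ x ≤ C * ((finrank K L : ℤ) + ramDeg κ L K) ∨
      CertSP d (fun j I => algebraMap K L (a j I)) (1664 * n) (n / (4000 * q) + 1) x ∨
      CertSP d (fun j I => algebraMap K L (a j I)) (n / (400 * q)) 1 x := by
  rcases Nat.eq_zero_or_pos p with hp | hp
  · subst hp
    refine ⟨0, fun n d _ _ hd => ?_⟩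
    rw [Finset.univ_eq_empty, Finset.sum_empty] at hd
    omega
  have hq1 : 1 ≤ q := by
    rw [hq]
    exact Nat.mul_pos hp (by omega)
  have hq5 : 5 * p ≤ q := by
    rw [hq]
    have : 5 ≤ 4 * p + 1 := by omega
    calc 5 * p = p * 5 := mul_comm _ _
      _ ≤ _ := Nat.mul_le_mul_left _ this
  obtain ⟨C₀, hC₀⟩ : ∃ C₀ : ℕ, C₀ = 2000 * q := ⟨_, rfl⟩
  obtain ⟨C₈r, hC₈r, hP⟩ := plane_of_hypP.{u, w} p p (C₀ : ℝ) (by
    have : 1000 ≤ C₀ := by omega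
    exact_mod_cast this)
  obtain ⟨C₈, hC₈⟩ : ∃ C₈ : ℕ, C₈r ≤ C₈ := exists_nat_ge _
  obtain ⟨nD, hnD⟩ : ∃ nD : ℕ, nD = 20 * (1664 + 1) * (C₈ + 1) := ⟨_, rfl⟩
  refine ⟨max (max nD (20000 * q)) 1000, fun n d hn hd2 hd κ K _ _ _ _ _ _ hK htr a ha => ?_⟩
  have hnD' : nD ≤ n := le_trans (le_trans (le_max_left _ _) (le_max_left _ _)) hn
  have hnq : 20000 * q ≤ n := le_trans (le_trans (le_max_right _ _) (le_max_left _ _)) hn
  have hn1000 : 1000 ≤ n := le_trans (le_max_right _ _) hn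
  have hnC₈ : C₈r ≤ n := by
    refine hC₈.trans ?_
    have : C₈ ≤ n := by omega
    exact_mod_cast this
  -- a form of degree at least three
  obtain ⟨j₀, hj₀⟩ : ∃ j₀, 3 ≤ d j₀ := by
    by_contra hcon
    push Not at hcon
    have h1 : ∑ j, d j ≤ ∑ _j : Fin p, 2 := Finset.sum_le_sum fun j _ => by
      have := hcon j
      omega
    rw [Finset.sum_const, Finset.card_univ, Fintype.card_fin, smul_eq_mul] at h1
    omega
  obtain ⟨C₂, hC₂⟩ := exists_datSC.{u, v, w} hK htr (n := n) (d := d) (j₀ := j₀) hj₀ ha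
  obtain ⟨S, hS⟩ : ∃ S : ℕ, S = ∑ j, d j := ⟨_, rfl⟩
  obtain ⟨b, hb⟩ : ∃ b : ℕ, b = n / (400 * q) := ⟨_, rfl⟩
  have hb1 : 400 * q * b ≤ n := by
    rw [hb]
    exact Nat.mul_div_le n (400 * q)
  have hb2 : n < 400 * q * (b + 1) := by
    rw [hb, mul_add, mul_one]
    have := Nat.div_add_mod n (400 * q)
    have h2 := Nat.mod_lt n (show 0 < 400 * q by omega)
    omega
  have hb6 : 6 ≤ b := by
    rw [hb, Nat.le_div_iff_mul_le (by omega)]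
    omega
  obtain ⟨c, hc⟩ : ∃ c : ℕ, c = Fintype.card (Σ j : Fin p, EX (n + 1) (d j)) := ⟨_, rfl⟩
  obtain ⟨r, hr⟩ := exists_q n
  obtain ⟨c₁, hc₁⟩ : ∃ c₁ : ℕ, c₁ = (27 * S ^ 2 + (n + 1) * ((n + 1) * (n + 1) + 1)) * (C₂ + 1) :=
    ⟨_, rfl⟩
  obtain ⟨c₂, hc₂⟩ : ∃ c₂ : ℕ, c₂ = (S + 8 * (n + 1)) * (C₂ + 8) + b * C₂ := ⟨_, rfl⟩
  obtain ⟨c₃, hc₃⟩ : ∃ c₃ : ℕ, c₃ = 9 * (1664 * n) * C₂ := ⟨_, rfl⟩
  obtain ⟨c₄, hc₄⟩ : ∃ c₄ : ℕ, c₄ = 2 * (1664 * n) * C₂ := ⟨_, rfl⟩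
  obtain ⟨c₅, hc₅⟩ : ∃ c₅ : ℕ, c₅ = 4 * (n + 1) * C₂ := ⟨_, rfl⟩
  obtain ⟨c₆, hc₆⟩ : ∃ c₆ : ℕ, c₆ = ((n + p) * (C₂ + 1) + c * (2 * C₂ + 2) + 2 * C₂ + 1) * r :=
    ⟨_, rfl⟩
  refine ⟨c₁ + c₂ + c₃ + c₄ + c₅ + c₆, ?_⟩
  intro L _ _ _ _ _ x hx hF
  have hL : IsFF κ L := hK.of_finite
  have hchar : CharZero L := charZero_of_injective_algebraMap (algebraMap K L).injective
  obtain ⟨X, t, τ, ht0, hXx, hXa, hh, hτ, hτa, hΔ, hXR, hτs, hg, hrow⟩ := hC₂ L x hx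
  have hXF : ∀ j, Fval (d j) (X.a j) X.x = 0 := by
    intro j
    rw [hXx, hXa]
    exact Fval_smul_eq_zero t (hF j)
  obtain ⟨R, hRx, hRΔ, hRU, hRht⟩ := hrow (fun _ => 0) (by
    have : Function.support (fun _ : Place κ L => 0) = ∅ := Function.support_zero
    rw [this]
    exact Set.finite_empty) (fun w => Or.inl fun j hj => absurd (hXF j) hj)
  obtain ⟨D, hD⟩ : ∃ D : ℤ, D = (finrank K L : ℤ) + ramDeg κ L K := ⟨_, rfl⟩
  have hf1 : (1 : ℤ) ≤ finrank K L := by exact_mod_cast Module.finrank_pos (R := K) (M := L)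
  have hr0 : (0 : ℤ) ≤ ramDeg κ L K := Int.natCast_nonneg _
  have hD1 : 1 ≤ D := by rw [hD]; linarith
  have hfD : (finrank K L : ℤ) ≤ D := by rw [hD]; linarith
  have hrD : (ramDeg κ L K : ℤ) ≤ D := by rw [hD]; linarith
  have hC20 : (0 : ℤ) ≤ C₂ := Int.natCast_nonneg _
  have hΔD : X.toDatC.Δ ≤ C₂ * D := hΔ.trans (mul_le_mul_of_nonneg_left hfD hC20)
  have hτD : ∑ᶠ w, (τ w : ℤ) ≤ C₂ * D := hτs.trans (mul_le_mul_of_nonneg_left hfD hC20)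
  have hRD : R.Δ ≤ (C₂ + 1) * D := by
    refine hRΔ.trans ?_
    have := mul_le_mul_of_nonneg_left hfD hC20
    linarith
  have hgD : (genus κ L : ℤ) ≤ C₂ * D := by rw [hD]; exact hg
  have hXRD : X.toDatC.R ≤ D := by rw [hXR]; exact hrD
  rw [← hD, ← hb]
  rcases le_or_gt (height κ x) (((c₁ + c₂ + c₃ + c₄ + c₅ + c₆ : ℕ) : ℤ) * D) with hle | hgt
  · exact Or.inl hle
  right
  rw [← hh] at hgt
  have hΔ0 := X.toDatC.Δ_nonneg
  have hR0 := X.toDatC.R_nonneg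
  have hτ0 : 0 ≤ ∑ᶠ w, (τ w : ℤ) := finsum_nonneg fun w => Int.natCast_nonneg _
  have hD0 : (0 : ℤ) ≤ D := by linarith
  -- the six parts of the constant
  have p1 : (0 : ℤ) ≤ (c₁ : ℤ) * D := mul_nonneg (Int.natCast_nonneg _) hD0
  have p2 : (0 : ℤ) ≤ (c₂ : ℤ) * D := mul_nonneg (Int.natCast_nonneg _) hD0
  have p3 : (0 : ℤ) ≤ (c₃ : ℤ) * D := mul_nonneg (Int.natCast_nonneg _) hD0
  have p4 : (0 : ℤ) ≤ (c₄ : ℤ) * D := mul_nonneg (Int.natCast_nonneg _) hD0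
  have p5 : (0 : ℤ) ≤ (c₅ : ℤ) * D := mul_nonneg (Int.natCast_nonneg _) hD0
  have p6 : (0 : ℤ) ≤ (c₆ : ℤ) * D := mul_nonneg (Int.natCast_nonneg _) hD0
  have hsum : (c₁ : ℤ) * D + (c₂ : ℤ) * D + (c₃ : ℤ) * D + (c₄ : ℤ) * D + (c₅ : ℤ) * D +
      (c₆ : ℤ) * D < height κ X.x := by
    refine lt_of_le_of_lt (le_of_eq ?_) hgt
    push_cast
    ring
  have hpos : 0 < height κ X.x := by linarith
  have b1 : (27 * ((∑ j, d j : ℕ) : ℤ) ^ 2 + (n + 1) * ((n + 1) * (n + 1) + 1)) *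
      (X.toDatC.Δ + X.toDatC.R) < height κ X.x := by
    rw [← hS]
    have h1 : (27 * (S : ℤ) ^ 2 + (n + 1) * ((n + 1) * (n + 1) + 1)) *
        (X.toDatC.Δ + X.toDatC.R) ≤
        (27 * (S : ℤ) ^ 2 + (n + 1) * ((n + 1) * (n + 1) + 1)) * ((C₂ + 1) * D) :=
      mul_le_mul_of_nonneg_left (by linarith) (by positivity)
    have h2 : (27 * (S : ℤ) ^ 2 + (n + 1) * ((n + 1) * (n + 1) + 1)) * ((C₂ + 1) * D) =
        (c₁ : ℤ) * D := by
      rw [hc₁]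
      push_cast
      ring
    linarith
  have b2 : (((∑ j, d j : ℕ) : ℤ) + 8 * (n + 1)) * (X.toDatC.Δ + 8 * X.toDatC.R) +
      b * ∑ᶠ w, (τ w : ℤ) < height κ X.x := by
    rw [← hS]
    have h1 : ((S : ℤ) + 8 * (n + 1)) * (X.toDatC.Δ + 8 * X.toDatC.R) ≤
        ((S : ℤ) + 8 * (n + 1)) * (C₂ * D + 8 * D) :=
      mul_le_mul_of_nonneg_left (by linarith) (by positivity)
    have h3 : (b : ℤ) * ∑ᶠ w, (τ w : ℤ) ≤ b * (C₂ * D) :=
      mul_le_mul_of_nonneg_left hτD (Int.natCast_nonneg _)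
    have h2 : ((S : ℤ) + 8 * (n + 1)) * (C₂ * D + 8 * D) + b * (C₂ * D) = (c₂ : ℤ) * D := by
      rw [hc₂]
      push_cast
      ring
    linarith
  have b3 : 9 * ((1664 * n : ℕ) : ℤ) * X.toDatC.Δ ≤ height κ X.x := by
    have h1 : 9 * ((1664 * n : ℕ) : ℤ) * X.toDatC.Δ ≤ 9 * ((1664 * n : ℕ) : ℤ) * (C₂ * D) :=
      mul_le_mul_of_nonneg_left hΔD (by positivity)
    have h2 : 9 * ((1664 * n : ℕ) : ℤ) * (C₂ * D) = (c₃ : ℤ) * D := by
      rw [hc₃]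
      push_cast
      ring
    linarith
  have b4 : 2 * ((1664 * n : ℕ) : ℤ) * ∑ᶠ w, (τ w : ℤ) ≤ height κ X.x := by
    have h1 : 2 * ((1664 * n : ℕ) : ℤ) * ∑ᶠ w, (τ w : ℤ) ≤ 2 * ((1664 * n : ℕ) : ℤ) * (C₂ * D) :=
      mul_le_mul_of_nonneg_left hτD (by positivity)
    have h2 : 2 * ((1664 * n : ℕ) : ℤ) * (C₂ * D) = (c₄ : ℤ) * D := by
      rw [hc₄]
      push_cast
      ring
    linarith
  have b5 : 4 * ((n : ℤ) + 1) * X.toDatC.Δ ≤ height κ X.x := by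
    have h1 : 4 * ((n : ℤ) + 1) * X.toDatC.Δ ≤ 4 * ((n : ℤ) + 1) * (C₂ * D) :=
      mul_le_mul_of_nonneg_left hΔD (by positivity)
    have h2 : 4 * ((n : ℤ) + 1) * (C₂ * D) = (c₅ : ℤ) * D := by
      rw [hc₅]
      push_cast
      ring
    linarith
  -- the error term
  obtain ⟨E, hE⟩ : ∃ E : ℤ,
      E = (n + p) * R.Δ + c * (R.Δ + genus κ L + 1) + X.toDatC.Δ := ⟨_, rfl⟩
  have hRΔ0 : 0 ≤ R.Δ := finsum_nonneg fun w => Int.natCast_nonneg _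
  have hg0 : (0 : ℤ) ≤ genus κ L := Int.natCast_nonneg _
  have hn0 : (0 : ℤ) ≤ (n : ℤ) + p := by positivity
  have hc0 : (0 : ℤ) ≤ c := Int.natCast_nonneg _
  have hE0 : 0 ≤ E := by
    rw [hE]
    positivity
  have b6' : (E + genus κ L + 1) * (r : ℤ) ≤ height κ X.x := by
    have h1 : E + genus κ L + 1 ≤ ((n + p) * (C₂ + 1) + c * (2 * C₂ + 2) + 2 * C₂ + 1) * D := by
      have k1 : ((n : ℤ) + p) * R.Δ ≤ (n + p) * ((C₂ + 1) * D) := mul_le_mul_of_nonneg_left hRD hn0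
      have k2 : (c : ℤ) * (R.Δ + genus κ L + 1) ≤ c * ((C₂ + 1) * D + C₂ * D + D) :=
        mul_le_mul_of_nonneg_left (by linarith) hc0
      rw [hE]
      have k3 : (((n : ℤ) + p) * (C₂ + 1) + c * (2 * C₂ + 2) + 2 * C₂ + 1) * D =
          (n + p) * ((C₂ + 1) * D) + c * ((C₂ + 1) * D + C₂ * D + D) + C₂ * D + C₂ * D + D := by
        ring
      linarith
    have h2 : (E + genus κ L + 1) * (r : ℤ) ≤
        ((n + p) * (C₂ + 1) + c * (2 * C₂ + 2) + 2 * C₂ + 1) * D * (r : ℤ) :=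
      mul_le_mul_of_nonneg_right h1 (Int.natCast_nonneg _)
    have h3 : (((n : ℤ) + p) * (C₂ + 1) + c * (2 * C₂ + 2) + 2 * C₂ + 1) * D * (r : ℤ) =
        (c₆ : ℤ) * D := by
      rw [hc₆]
      push_cast
      ring
    linarith
  have b6 : ((E : ℝ) + genus κ L + 1) * ((n : ℝ) + 2) ^ 20 ≤ height κ X.x := by
    have h1 := hr _ _ b6'
    have h2 : (((E + genus κ L + 1 : ℤ)) : ℝ) = (E : ℝ) + genus κ L + 1 := by
      push_cast
      ring
    rw [h2] at h1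
    exact h1
  -- Step 0
  have hbn : 400 * p * (b * (4 * p + 1)) ≤ n := by
    refine le_trans (le_of_eq ?_) hb1
    rw [hq]
    ring
  have hbC : 42 * (20 * n + 9 * C₀) ≤ 180 * (C₀ * b) := by
    have h1 : C₀ * b = 5 * (400 * q * b) := by
      rw [hC₀]
      ring
    have h2 : 400 * q * (b + 1) = 400 * q * b + 400 * q := by ring
    rw [h2] at hb2
    rw [h1]
    omega
  rcases step0P hL (b := b) (C₀ := C₀) X.toDatC hXF (by omega)
    (fun j => le_trans (by norm_num) (hd2 j)) hd hb6 hbn (by omega) hbC b1 with ⟨hdn, hsl⟩ | ⟨j, hsm⟩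
  · left
    have hnR : (0 : ℝ) < n := by
      have : 0 < n := by omega
      exact_mod_cast this
    have hHr : (0 : ℝ) < height κ X.x := by exact_mod_cast hpos
    have hyp : HypP κ X.toP.x d p C₀ (C₀ * height κ X.x / n) E := by
      refine ⟨X.x_ne_zero, fun Q hQ => ?_, by positivity, ?_, hd, hd2, ?_,
        by exact_mod_cast hE0, b6⟩
      · have h1 := hsl Q hQ
        show (height κ X.x : ℝ) - ht κ Q ≤ C₀ * height κ X.x / n * ((finrank L Q : ℝ) - 1)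
        rw [div_mul_eq_mul_div, le_div_iff₀ hnR]
        linarith
      · show (C₀ * (height κ X.x : ℝ) / n) * n ≤ C₀ * height κ X.x
        rw [div_mul_cancel₀ _ hnR.ne']
      · show RowsP κ X.x d p E
        have hht : (ht κ R.U : ℝ) ≤ (n + 1) * height κ R.x + ((n + p) * R.Δ : ℤ) := by
          have h2 : (ht κ R.U : ℤ) ≤ (n + 1) * height κ R.x + (n + p) * R.Δ := by
            refine hRht.trans (le_of_eq ?_)
            simp
          exact_mod_cast h2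
        have h1 := rowsP_of_data hL R hRU hht
        rw [hRx] at h1
        refine rowsP_mono h1 ?_
        rw [← hc, hE]
        push_cast
        have h2 : (0 : ℝ) ≤ X.toDatC.Δ := by exact_mod_cast hΔ0
        linarith
    have hΔE : (X.toP.Δ : ℝ) ≤ (E : ℝ) := by
      have h1 : X.toP.Δ = X.toDatC.Δ := rfl
      have h2 : X.toDatC.Δ ≤ E := by
        rw [hE]
        have h3 : 0 ≤ ((n : ℤ) + p) * R.Δ + c * (R.Δ + genus κ L + 1) := by positivity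
        linarith
      rw [h1]
      exact_mod_cast h2
    obtain ⟨e, P, he, hP0, hPh, hPe, hPs⟩ := hP n d hnC₈ κ L hL X.toP _ _ hyp hΔE
    have hPs' : (polyHeight κ P : ℝ) * n ^ 2 ≤ C₈ * height κ X.x :=
      hPs.trans (mul_le_mul_of_nonneg_right hC₈ hHr.le)
    have h1 := certSP_of_slope hL X hXF j₀ (C₀ := C₀) (C₁ := 1664) (C₈ := C₈) (by omega) (by omega)
      (by omega) hsl hτ hτa he hP0 hPh hPe hPs' hpos b3 b4 b5
    rw [hXa, hXx, show 2 * C₀ = 4000 * q by rw [hC₀]; ring] at h1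
    exact (certSP_smul ht0).1 h1
  · right
    have h1 := certSP_of_smallI hL X hXF (fun j => le_trans (by norm_num) (hd2 j)) hτ hτa hsm b2
    rw [hXa, hXx] at h1
    exact (certSP_smul ht0).1 h1

end Pool.Agent.Lib.MP_44a246_ntSH
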