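import Mathlib
import Pool.Agent.Lib.MP_44a246_ntSH.CV20
import Pool.Agent.Lib.MP_44a246_ntSH.CW03b
import Pool.Agent.Lib.MP_44a246_ntSH.CW07
import Pool.Agent.Lib.MP_44a246_ntSH.CW09
import Pool.Agent.Lib.MP_44a246_ntSH.CW10a

/-!
# The height theorem for generic complete intersections of general type (paper 619, phase 2)
-/

namespace Pool.Agent.Lib.MP_44a246_ntSH

open Pool.Agent.Lib.MP_44a246_nt
open Pool.Agent.Lib.MP_44a246_ntL
open Pool.Agent.Lib.MP_44a246_ntS
open Pool.Agent.Lib.MP_44a246_ntG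
open Pool.Agent.Lib.MP_44a246_ntK
open Pool.Agent.Lib.MP_44a246_ntU
open Pool.Agent.Lib.MP_44a246_ntI
open Pool.Agent.Lib.MP_e52354_nt
open MvPolynomial Module

universe u v w

/-- **The height theorem for generic complete intersections of general type** (paper 619): there is
`n₀ = n₀(p)` such that for `n ≥ n₀` and `p` forms of degrees `d j ≥ 2`, `∑ d j ≥ n + 2`, in `n + 1`
variables over a function field `K`, with algebraically independent coefficients, all points of the
complete intersection outside of a fixed proper closed subset have height at most a constant times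
the degree plus the ramification. -/
theorem sharp_mainP (p : ℕ) : ∃ n₀ : ℕ, ∀ (n : ℕ) (d : Fin p → ℕ), n₀ ≤ n → (∀ j, 2 ≤ d j) →
    n + 2 ≤ ∑ j, d j →
    ∀ (κ : Type u) (K : Type v) [Field κ] [IsAlgClosed κ] [CharZero κ] [Field K] [CharZero K]
      [Algebra κ K] (_ : Cardinal.aleph0 ≤ Algebra.trdeg ℚ κ) (t : K) (_ : Transcendental κ t)
      (_ : FiniteDimensional (IntermediateField.adjoin κ {t}) K)
      (F : Fin p → MvPolynomial (Fin (n + 1)) K) (_ : ∀ j, (F j).IsHomogeneous (d j))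
      (_ : AlgebraicIndependent ℚ
        (fun I : {I : Fin p × (Fin (n + 1) →₀ ℕ) // I.2.degree = d I.1} =>
          (F I.1.1).coeff I.1.2)),
    ∃ G : MvPolynomial (Fin (n + 1)) K, (∃ e, G.IsHomogeneous e) ∧
      (∃ z : Fin (n + 1) → AlgebraicClosure K, z ≠ 0 ∧ (∀ j, aeval z (F j) = 0) ∧
        aeval z G ≠ 0) ∧
      ∃ C : ℕ, ∀ (L : Type w) [Field L] [Algebra K L] [FiniteDimensional K L] [Algebra κ L]
        [IsScalarTower κ K L] (x : Fin (n + 1) → L), x ≠ 0 → (∀ j, aeval x (F j) = 0) →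
        height κ x ≤ C * ((finrank K L : ℤ) + ramDeg κ L K) ∨ aeval x G = 0 := by
  rcases Nat.eq_zero_or_pos p with hp | hp
  · subst hp
    refine ⟨0, fun n d _ _ hd => ?_⟩
    rw [Finset.univ_eq_empty, Finset.sum_empty] at hd
    omega
  obtain ⟨q, hq⟩ : ∃ q : ℕ, q = p * (4 * p + 1) := ⟨_, rfl⟩
  have hq1 : 1 ≤ q := by
    rw [hq]
    exact Nat.mul_pos hp (by omega)
  have hq5 : 5 * p ≤ q := by
    rw [hq]
    have : 5 ≤ 4 * p + 1 := by omega
    calc 5 * p = p * 5 := mul_comm _ _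
      _ ≤ _ := Nat.mul_le_mul_left _ this
  obtain ⟨n₁, hmain⟩ := sharp_baseP.{u, v, w} p q hq
  obtain ⟨i, hi⟩ := exists_pow_le (2 * 1664 * (8000 * q))
  refine ⟨max (max n₁ (8000 * q)) ((2 * p + 4) * 2 ^ i),
    fun n d hn hd2 hd κ K _ _ _ _ _ _ htr t ht hfin F hF hgen => ?_⟩
  have hn1 : n₁ ≤ n := le_trans (le_trans (le_max_left _ _) (le_max_left _ _)) hn
  have hn2 : 8000 * q ≤ n := le_trans (le_trans (le_max_right _ _) (le_max_left _ _)) hn
  have hn3 : (2 * p + 4) * 2 ^ i ≤ n := le_trans (le_max_right _ _) hn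
  have ha := algInd_jexpo hgen
  obtain ⟨C, hC⟩ := hmain n d hn1 hd2 hd κ K ⟨t, ht, hfin⟩ htr (fun j I => (F j).coeff I) ha
  obtain ⟨R, hR⟩ : ∃ R, R + 2 + p = n + 1 := ⟨n - 1 - p, by omega⟩
  have hd1 : ∀ j, 1 ≤ d j := fun j => le_trans (by norm_num) (hd2 j)
  -- no certificates at the generic point
  have hcert₁ : NoCertSP.{v} R n p d (1664 * n) (n / (4000 * q) + 1) := by
    refine noCertSP_growth (i := i) hR hd1 hd ?_ (by omega)
    have h1 : n ≤ 8000 * q * (n / (4000 * q)) := by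
      have h2 := Nat.div_add_mod n (4000 * q)
      have h3 := Nat.mod_lt n (show 0 < 4000 * q by omega)
      have h4 : 1 ≤ n / (4000 * q) := by
        rw [Nat.le_div_iff_mul_le (by omega)]
        omega
      have h5 : 8000 * q * (n / (4000 * q)) =
          4000 * q * (n / (4000 * q)) + 4000 * q * (n / (4000 * q)) := by ring
      have h6 : 4000 * q * 1 ≤ 4000 * q * (n / (4000 * q)) := Nat.mul_le_mul_left _ h4
      omega
    calc 2 ^ i * (2 * (1664 * n)) ≤ 2 ^ i * (2 * (1664 * (8000 * q * (n / (4000 * q))))) := by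
          gcongr
      _ = 2 ^ i * (2 * 1664 * (8000 * q)) * (n / (4000 * q)) := by ring
      _ ≤ 3 ^ i * (n / (4000 * q)) := Nat.mul_le_mul_right _ hi
  have hcert₂ : NoCertSP.{v} R n p d (n / (400 * q)) 1 := by
    refine noCertSP_low hR hd1 hd ?_
    have h1 : 400 * q * (n / (400 * q)) ≤ n := Nat.mul_div_le n (400 * q)
    have h2 : (p + 2) * (2 * (n / (400 * q))) ≤ 400 * q * (n / (400 * q)) := by
      rw [← mul_assoc]
      exact Nat.mul_le_mul_right _ (by omega)
    exact h2.trans h1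
  obtain ⟨G, hG1, hG2, hG3⟩ := exists_excFormBP.{v, w} (k := ℚ) (K := K) hR hd1 hcert₁ hcert₂
    (a := fun j I => (F j).coeff I) ha
  have hFs : ∀ j, ∑ I ∈ expo (Fin (n + 1)) (d j), monomial I ((F j).coeff I) = F j :=
    fun j => form_eq_sum (hF j)
  obtain ⟨z, hz0, hzF, hzG⟩ := hG2
  refine ⟨G, hG1, ⟨z, hz0, fun j => ?_, hzG⟩, C, ?_⟩
  · rw [← hFs j]
    exact hzF j
  intro L _ _ _ _ _ x hx hFx
  rcases hC L x hx (fun j => by
    rw [← aeval_eq_Fval (F j) (hF j)]
    exact hFx j) with h | h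
  · exact Or.inl h
  · exact Or.inr (hG3 L x h)

end Pool.Agent.Lib.MP_44a246_ntSH
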