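import Mathlib
import Pool.Agent.Lib.MP_44a246_ntA.P13
import Pool.Agent.Lib.MP_44a246_ntSH.SU1

/-!
# Step 0 for pairs: the pair hypothesis, if some of the forms do not vanish at the point
-/

namespace Pool.Agent.Lib.MP_44a246_ntSH

open Pool.Agent.Lib.MP_44a246_nt
open Pool.Agent.Lib.MP_44a246_ntL
open Pool.Agent.Lib.MP_44a246_ntS
open Pool.Agent.Lib.MP_44a246_ntX
open Pool.Agent.Lib.MP_44a246_ntG
open Pool.Agent.Lib.MP_44a246_ntK
open Pool.Agent.Lib.MP_44a246_ntF
open Pool.Agent.Lib.MP_44a246_ntA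
open Pool.Agent.Lib.MP_44a246_ntO (PairHyp)
open Pool.Agent.Lib.MP_e52354_nt
open WithZero Module

/-- **The pair hypothesis** for a point which is not on some of the hypersurfaces. -/
theorem pairHyp_datCL {κ L : Type*} [Field κ] [IsAlgClosed κ] [CharZero κ] [Field L] [CharZero L]
    [Algebra κ L] (h : IsFF κ L) {n p k : ℕ} {d : Fin p → ℕ} (X : DatC κ (L := L) n d)
    (hp : 1 ≤ p) (hd : k + n + 2 ≤ ∑ j, d j)
    {ε : Place κ L → ℕ} (hε : (Function.support ε).Finite)
    (hvε : ∀ w : Place κ L, (∀ j, X.v j ≠ 0 → w.1 (X.v j) = vmax w.1 X.x ^ d j) ∨ 1 ≤ ε w) :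
    PairHyp κ X.x d p n p k
      ((((((n + 1) * (n + 1) + p : ℕ) : ℤ) * X.Δ + (X.R + ∑ᶠ w, (ε w : ℤ)) : ℤ)) : ℝ) := by
  classical
  have hx1 : ∀ w : Place κ L, 1 ≤ vmax w.1 X.x := by
    intro w
    by_contra hcon
    rw [not_le] at hcon
    have h1 : w.1 (∑ j, (X.ξ₀ j : L) * X.x j) ≤ vmax w.1 X.x := by
      refine Valuation.map_sum_le w.1 fun j _ => ?_
      rw [map_mul]
      have h2 : w.1 ((X.ξ₀ j : L)) ≤ 1 := by
        rw [← map_natCast (algebraMap κ L)]
        exact place_const_le w _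
      calc _ ≤ 1 * vmax w.1 X.x := mul_le_mul' h2 (le_vmax w.1 X.x j)
        _ = _ := one_mul _
    rw [X.h0, map_one] at h1
    exact absurd h1 (not_le.2 hcon)
  have hx0 : X.x ≠ 0 := by
    intro h1
    have h2 := X.h0
    rw [h1] at h2
    simp at h2
  obtain ⟨η, hη⟩ : ∃ η : {j : Fin p // X.v j ≠ 0} → L, ∀ j, η j = X.v j.1 := ⟨_, fun _ => rfl⟩
  set W : Submodule L (ES (n + 1) d → L) :=
    Submodule.span L (Set.range fun i => rowD (fD X) (X.x i)) ⊔
      Submodule.span L (Set.range (XX (fD X) (Fin.elim0 : Fin 0 → L) η)) with hW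
  have hmem : ∀ j : Fin p, xm (d j) X.x ∈ piece κ W j := by
    intro j
    obtain ⟨u, hu⟩ : ∃ u : ES (n + 1) d → L, ∀ s, u s = if s.1 = j then xm (d s.1) X.x s.2 else 0 :=
      ⟨_, fun _ => rfl⟩
    have h0 : ∀ s, u s = X.D (s.1, s.2.1) (X.v j) -
        ∑ i, grad (d j) (X.a j) X.x i * X.D (s.1, s.2.1) (X.x i) := by
      intro s
      obtain ⟨i₀, I₀, hI₀⟩ := s
      have h3 := D_Fval (d j) (X.a j) (X.D (i₀, I₀)) X.x
      have h4 : ∑ I ∈ expo (Fin (n + 1)) (d j), X.D (i₀, I₀) (X.a j I) * mon X.x I =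
          u ⟨i₀, I₀, hI₀⟩ := by
        rw [hu]
        have h5 : ∀ I ∈ expo (Fin (n + 1)) (d j),
            X.D (i₀, I₀) (X.a j I) * mon X.x I =
              if (i₀, I₀) = (j, I) then mon X.x I else 0 := by
          intro I hI
          rw [X.hDa (i₀, I₀) hI₀ (j, I) hI]
          split_ifs <;> simp
        rw [Finset.sum_congr rfl h5]
        by_cases hs : i₀ = j
        · subst hs
          rw [if_pos rfl, Finset.sum_eq_single I₀]
          · rw [if_pos rfl]
            rfl
          · intro I _ hI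
            rw [if_neg]
            intro h6
            rw [Prod.mk.injEq] at h6
            exact hI h6.2.symm
          · intro h6
            exact absurd hI₀ h6
        · rw [if_neg hs, Finset.sum_eq_zero]
          intro I _
          rw [if_neg]
          intro h6
          rw [Prod.mk.injEq] at h6
          exact hs h6.1
      rw [h4] at h3
      have h7 : X.D (i₀, I₀) (X.v j) = X.D (i₀, I₀) (Fval (d j) (X.a j) X.x) := rfl
      dsimp only
      rw [h7, h3]
      ring
    have h1 : u ∈ W := by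
      by_cases hv : X.v j = 0
      · have h2 : u = ∑ i, (- grad (d j) (X.a j) X.x i) • rowD (fD X) (X.x i) := by
          funext s
          rw [h0 s, hv, map_zero, Finset.sum_apply]
          simp only [Pi.smul_apply, smul_eq_mul, neg_mul, Finset.sum_neg_distrib]
          have h7 : ∀ i, rowD (fD X) (X.x i) s = X.D (s.1, s.2.1) (X.x i) := fun i => rfl
          simp only [h7]
          ring
        rw [h2]
        exact Submodule.mem_sup_left (Submodule.sum_mem _ fun i _ =>
          Submodule.smul_mem _ _ (Submodule.subset_span ⟨i, rfl⟩))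
      · have h2 : u = X.v j • XX (fD X) (Fin.elim0 : Fin 0 → L) η (Sum.inr ⟨j, hv⟩) +
            ∑ i, (- grad (d j) (X.a j) X.x i) • rowD (fD X) (X.x i) := by
          funext s
          rw [h0 s, Pi.add_apply, Finset.sum_apply]
          simp only [Pi.smul_apply, smul_eq_mul, neg_mul, Finset.sum_neg_distrib]
          have h7 : ∀ i, rowD (fD X) (X.x i) s = X.D (s.1, s.2.1) (X.x i) := fun i => rfl
          have h8 : XX (fD X) (Fin.elim0 : Fin 0 → L) η (Sum.inr ⟨j, hv⟩) s =
              (η ⟨j, hv⟩)⁻¹ * X.D (s.1, s.2.1) (η ⟨j, hv⟩) := rfl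
          simp only [h7]
          rw [h8, hη, mul_inv_cancel_left₀ hv]
          ring
        rw [h2]
        refine Submodule.add_mem _ (Submodule.mem_sup_right (Submodule.smul_mem _ _
          (Submodule.subset_span ⟨_, rfl⟩))) ?_
        exact Submodule.mem_sup_left (Submodule.sum_mem _ fun i _ =>
          Submodule.smul_mem _ _ (Submodule.subset_span ⟨i, rfl⟩))
    have h2 := mem_piece (κ := κ) (j := j) h1 (fun s hs => by rw [hu, if_neg hs])
    have h3 : (fun i : EX (n + 1) (d j) => u ⟨j, i⟩) = xm (d j) X.x := by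
      funext i
      rw [hu, if_pos rfl]
    rw [h3] at h2
    exact h2
  have hξ : ∀ (K : ES (n + 1) d) (i : Fin (n + 1)), fD X K ((X.ξ₀ i : L)) = 0 :=
    fun K i => Derivation.map_natCast _ _
  have hcard : Fintype.card (Fin 0) + Fintype.card {j : Fin p // X.v j ≠ 0} ≤ p := by
    have h1 := Fintype.card_subtype_le (fun j : Fin p => X.v j ≠ 0)
    rw [Fintype.card_fin] at h1
    rw [Fintype.card_fin]
    omega
  have key := pairHyp h (m := n + 1) (g := p) (k := k) (c := p) (p := p)
    (d := d) (by omega) hp (F := fD X) X.hδ X.hρ (fD_minor X) hx1 hx0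
    (γ := Fin 0) (Λ := {j : Fin p // X.v j ≠ 0}) hcard (β := Fin.elim0) (fun t => t.elim0)
    (η := η) (fun t => by rw [hη]; exact t.2) (t := fun t => d t.1) (ε := ε) hε
    (fun w => by
      rcases hvε w with h1 | h1
      · exact Or.inl fun t => by rw [hη]; exact h1 t.1 t.2
      · exact Or.inr h1) (e := id) Function.injective_id
    (by simp only [id]; omega) (W := W) hmem
    (fun P hP => by
      rw [hW]
      refine sup_le ?_ le_sup_right
      refine le_trans ?_ le_sup_left
      rw [Submodule.span_le]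
      rintro _ ⟨i, rfl⟩
      exact rowD_mem_UL (fD X) hξ X.h0 i)
    (E := ((((((n + 1) * (n + 1) + p : ℕ) : ℤ) * X.Δ + (X.R + ∑ᶠ w, (ε w : ℤ)) : ℤ)) : ℝ)) (by
      refine le_of_eq ?_
      unfold DatC.Δ DatC.R
      push_cast
      ring)
  exact key

end Pool.Agent.Lib.MP_44a246_ntSH
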