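import Mathlib
import Pool.Agent.Lib.MP_44a246_ntSH.CW08
import Pool.Agent.Lib.MP_44a246_ntSH.H12
import Pool.Agent.Lib.MP_44a246_ntO.OS1

/-!
SHARP PAIRS (paper 667), the common interface: a moving curve `A = 0` over a field `L` with the
parametrisation `B` (so `γ j = B j / A_Y` on the curve), everything with polynomials in `L[X][Y]`:
the derivation `nab A D` of `L[X][Y]`, the numerator `wr A D P` of `D (P / A_Y)`, the forms `VI`
which vanish on the curve, the deformations `ZF` of the equations which do not move the curve.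
-/

namespace Pool.Agent.Lib.MP_44a246_ntSH

open Pool.Agent.Lib.MP_e52354_nt
open Pool.Agent.Lib.MP_44a246_ntF
open Pool.Agent.Lib.MP_44a246_ntO
open Pool.Agent.Lib.MP_44a246_ntS
open Pool.Agent.Lib.MP_44a246_ntW
open Pool.Agent.Lib.MP_44a246_ntE
open Polynomial Module

section nabla

variable {L : Type*} [Field L]

theorem cq_add' (D : Derivation ℤ L L) (A B : L[X][X]) : cq D (A + B) = cq D A + cq D B := by
  ext i
  rw [cq_coeff, coeff_add, coeff_add, cp_add, cq_coeff, cq_coeff]

theorem cq_monomial' (D : Derivation ℤ L L) (i : ℕ) (P : L[X]) :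
    cq D (monomial i P) = monomial i (cp D P) := by
  ext k : 1
  rw [cq_coeff, coeff_monomial, coeff_monomial]
  split_ifs
  · rfl
  · exact cp_zero' D

theorem cq_mul' (D : Derivation ℤ L L) (A B : L[X][X]) :
    cq D (A * B) = A * cq D B + B * cq D A := by
  induction A using Polynomial.induction_on' with
  | add p q hp hq =>
    rw [add_mul, cq_add', hp, hq, cq_add']
    ring
  | monomial i P =>
    induction B using Polynomial.induction_on' with
    | add p q hp hq =>
      rw [mul_add, cq_add', hp, hq, cq_add']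
      ring
    | monomial j Q =>
      rw [monomial_mul_monomial, cq_monomial', cq_monomial', cq_monomial', cp_mul, map_add,
        monomial_mul_monomial, monomial_mul_monomial, add_comm j i]

/-- a derivation applied to the coefficients of a polynomial in two variables -/
noncomputable def cqd (D : Derivation ℤ L L) : Derivation ℤ L[X][X] L[X][X] :=
  Derivation.mk' (AddMonoidHom.toIntLinearMap
    { toFun := cq D
      map_zero' := by
        have h := cq_add' D (0 : L[X][X]) 0
        rw [add_zero] at h
        exact left_eq_add.1 h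
      map_add' := cq_add' D }) fun A B => by
    change cq D (A * B) = A • cq D B + B • cq D A
    rw [cq_mul', smul_eq_mul, smul_eq_mul]

theorem cqd_apply (D : Derivation ℤ L L) (P : L[X][X]) : cqd D P = cq D P := rfl

theorem cqd_coeff (D : Derivation ℤ L L) (P : L[X][X]) (i j : ℕ) :
    ((cqd D P).coeff i).coeff j = D ((P.coeff i).coeff j) := cd_coeff D P i j

/-- the derivative in the second variable as a derivation -/
noncomputable def dYd : Derivation ℤ L[X][X] L[X][X] :=
  Derivation.restrictScalars ℤ (Polynomial.derivative' (R := L[X]))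

theorem dYd_apply (P : L[X][X]) : dYd P = derivative P := rfl

/-- The derivation of `L[X][Y]` which is `A_Y D` on the constants and vanishes on `X` and `A`. -/
noncomputable def nab (A : L[X][X]) (D : Derivation ℤ L L) : Derivation ℤ L[X][X] L[X][X] :=
  derivative A • cqd D - cqd D A • dYd

theorem nab_apply (A : L[X][X]) (D : Derivation ℤ L L) (P : L[X][X]) :
    nab A D P = derivative A * cqd D P - cqd D A * derivative P := rfl

theorem nab_self (A : L[X][X]) (D : Derivation ℤ L L) : nab A D A = 0 := by
  rw [nab_apply, mul_comm, sub_self]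

theorem nab_CC (A : L[X][X]) (D : Derivation ℤ L L) (c : L) :
    nab A D (C (C c)) = derivative A * C (C (D c)) := by
  have h1 : cqd D (C (C c)) = C (C (D c)) := by
    rw [cqd_apply]
    ext i j
    rw [cq_coeff, cp_coeff, coeff_C, coeff_C]
    split_ifs
    · rw [coeff_C, coeff_C]
      split_ifs
      · rfl
      · exact map_zero D
    · rw [coeff_zero]
      exact map_zero D
  rw [nab_apply, h1, derivative_C, mul_zero, sub_zero]

theorem nab_CX (A : L[X][X]) (D : Derivation ℤ L L) : nab A D (C X) = 0 := by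
  have h1 : cqd D (C X : L[X][X]) = 0 := by
    rw [cqd_apply]
    ext i j
    rw [cq_coeff, cp_coeff, coeff_C]
    split_ifs
    · rw [coeff_X]
      split_ifs
      · rw [Derivation.map_one_eq_zero, coeff_zero, coeff_zero]
      · rw [map_zero, coeff_zero, coeff_zero]
    · rw [coeff_zero, coeff_zero, coeff_zero]
      exact map_zero D
  rw [nab_apply, h1, derivative_C, mul_zero, mul_zero, sub_zero]

/-- the derivation preserves the ideal of the curve -/
theorem dvd_nab {A : L[X][X]} (D : Derivation ℤ L L) {P : L[X][X]} (h : A ∣ P) :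
    A ∣ nab A D P := by
  obtain ⟨Q, rfl⟩ := h
  rw [Derivation.leibniz, nab_self, smul_zero, add_zero, smul_eq_mul]
  exact dvd_mul_right _ _

/-- the numerator of `D (P / A_Y)` on the curve `A = 0` (the denominator is `A_Y ^ 3`) -/
noncomputable def wr (A : L[X][X]) (D : Derivation ℤ L L) (P : L[X][X]) : L[X][X] :=
  derivative A * nab A D P - P * nab A D (derivative A)

theorem EE_eq_wr (D₁ D₂ : Derivation ℤ L L) (A : L[X][X]) :
    EE D₁ D₂ A = wr A D₂ (-cq D₁ A) := by
  unfold EE wr
  rw [nab_apply, nab_apply, cqd_apply, cqd_apply, cqd_apply]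
  ring

variable {T : Type*} [Fintype T]

/-- the combination of a family of derivations -/
noncomputable def dF (D : T → Derivation ℤ L L) (F : T → L) : Derivation ℤ L L :=
  ∑ s, F s • D s

theorem dF_apply (D : T → Derivation ℤ L L) (F : T → L) (y : L) :
    dF D F y = ∑ s, F s * D s y := by
  classical
  have h : ∀ S : Finset T, (∑ s ∈ S, F s • D s) y = ∑ s ∈ S, F s * D s y := by
    intro S
    induction S using Finset.induction_on with
    | empty => simp
    | insert a S ha ih =>
      rw [Finset.sum_insert ha, Finset.sum_insert ha, Derivation.add_apply, ih]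
      rfl
  exact h _

theorem dF_add (D : T → Derivation ℤ L L) (F G : T → L) : dF D (F + G) = dF D F + dF D G := by
  ext y
  rw [Derivation.add_apply, dF_apply, dF_apply, dF_apply, ← Finset.sum_add_distrib]
  refine Finset.sum_congr rfl fun s _ => ?_
  rw [Pi.add_apply, add_mul]

theorem dF_smul (D : T → Derivation ℤ L L) (c : L) (F : T → L) : dF D (c • F) = c • dF D F := by
  ext y
  rw [Derivation.smul_apply, dF_apply, dF_apply, smul_eq_mul, Finset.mul_sum]
  refine Finset.sum_congr rfl fun s _ => ?_
  rw [Pi.smul_apply, smul_eq_mul, mul_assoc]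

theorem cqd_dF (D : T → Derivation ℤ L L) (F : T → L) (P : L[X][X]) :
    cqd (dF D F) P = ∑ s, C (C (F s)) * cqd (D s) P := by
  ext i j
  rw [cqd_coeff, dF_apply, finset_sum_coeff, finset_sum_coeff]
  refine Finset.sum_congr rfl fun s _ => ?_
  rw [coeff_C_mul, coeff_C_mul, cqd_coeff]

theorem nab_dF (A : L[X][X]) (D : T → Derivation ℤ L L) (F : T → L) (P : L[X][X]) :
    nab A (dF D F) P = ∑ s, C (C (F s)) * nab A (D s) P := by
  rw [nab_apply, cqd_dF, cqd_dF, Finset.mul_sum, Finset.sum_mul, ← Finset.sum_sub_distrib]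
  refine Finset.sum_congr rfl fun s _ => ?_
  rw [nab_apply]
  ring

theorem wr_dF (A : L[X][X]) (D : T → Derivation ℤ L L) (F : T → L) (P : L[X][X]) :
    wr A (dF D F) P = ∑ s, C (C (F s)) * wr A (D s) P := by
  unfold wr
  rw [nab_dF, nab_dF, Finset.mul_sum, Finset.mul_sum, ← Finset.sum_sub_distrib]
  refine Finset.sum_congr rfl fun s _ => ?_
  ring

end nabla

section spaces

variable {L : Type*} [Field L]

/-- the relations modulo `A` between the polynomials of a family -/
noncomputable def dvS {T : Type*} [Fintype T] (A : L[X][X]) (P : T → L[X][X]) :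
    Submodule L (T → L) where
  carrier := {c | A ∣ ∑ t, C (C (c t)) * P t}
  add_mem' := by
    intro a b ha hb
    have h : ∑ t, C (C ((a + b) t)) * P t =
        ∑ t, C (C (a t)) * P t + ∑ t, C (C (b t)) * P t := by
      rw [← Finset.sum_add_distrib]
      refine Finset.sum_congr rfl fun t _ => ?_
      rw [Pi.add_apply, C_add, C_add, add_mul]
    change A ∣ ∑ t, C (C ((a + b) t)) * P t
    rw [h]
    exact dvd_add ha hb
  zero_mem' := by
    change A ∣ ∑ t, C (C ((0 : T → L) t)) * P t
    simp
  smul_mem' := by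
    intro c a ha
    have h : ∑ t, C (C ((c • a) t)) * P t = C (C c) * ∑ t, C (C (a t)) * P t := by
      rw [Finset.mul_sum]
      refine Finset.sum_congr rfl fun t _ => ?_
      rw [Pi.smul_apply, smul_eq_mul, C_mul, C_mul, mul_assoc]
    change A ∣ ∑ t, C (C ((c • a) t)) * P t
    rw [h]
    exact dvd_mul_of_dvd_right ha _

theorem mem_dvS {T : Type*} [Fintype T] {A : L[X][X]} {P : T → L[X][X]} {c : T → L} :
    c ∈ dvS A P ↔ A ∣ ∑ t, C (C (c t)) * P t := Iff.rfl

/-- the forms of degree `e` which vanish on the curve (`I (e)` of the paper) -/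
noncomputable def VI {n : ℕ} (A : L[X][X]) (B : Fin n → L[X][X]) (e : ℕ) :
    Submodule L (EX n e → L) :=
  dvS A fun K : EX n e => ∏ j, B j ^ K.1 j

theorem aeval_pf {n e : ℕ} (B : Fin n → L[X][X]) (f : EX n e → L) :
    MvPolynomial.aeval B (pf f) = ∑ K : EX n e, C (C (f K)) * ∏ j, B j ^ K.1 j := by
  unfold pf
  rw [map_sum]
  refine Finset.sum_congr rfl fun K _ => ?_
  rw [MvPolynomial.aeval_monomial, Finsupp.prod_fintype _ _ (fun i => pow_zero _)]
  rfl

theorem mem_VI {n e : ℕ} {A : L[X][X]} {B : Fin n → L[X][X]} {f : EX n e → L} :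
    f ∈ VI A B e ↔ A ∣ MvPolynomial.aeval B (pf f) := by
  rw [aeval_pf]
  rfl

theorem FB_ex {n e : ℕ} (B : Fin (n + 1) → L[X][X]) (f : EX (n + 1) e → L) :
    FB e (ex f) B = MvPolynomial.aeval B (pf f) := by
  rw [aeval_pf]
  unfold FB
  rw [← Finset.sum_coe_sort]
  refine Finset.sum_congr rfl fun K _ => ?_
  rw [ex_coe]

theorem mem_VI' {n e : ℕ} {A : L[X][X]} {B : Fin (n + 1) → L[X][X]} {f : EX (n + 1) e → L} :
    f ∈ VI A B e ↔ A ∣ FB e (ex f) B := by
  rw [mem_VI, FB_ex]

/-- the deformations `F` of the equations such that the curve does not move in the direction of the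
derivation `∑ F s • D s` (`Z` of the paper) -/
noncomputable def ZF {n : ℕ} {T : Type*} [Fintype T] (A : L[X][X]) (B : Fin n → L[X][X])
    (D : T → Derivation ℤ L L) : Submodule L (T → L) :=
  ⨅ j, dvS A fun s => wr A (D s) (B j)

theorem mem_ZF {n : ℕ} {T : Type*} [Fintype T] {A : L[X][X]} {B : Fin n → L[X][X]}
    {D : T → Derivation ℤ L L} {F : T → L} :
    F ∈ ZF A B D ↔ ∀ j, A ∣ wr A (dF D F) (B j) := by
  unfold ZF
  rw [Submodule.mem_iInf]
  refine forall_congr' fun j => ?_
  rw [mem_dvS, wr_dF]

/-- the tuples of forms which vanish on the curve (`II (d)` of the paper) -/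
noncomputable def IId {n p : ℕ} (A : L[X][X]) (B : Fin n → L[X][X]) (d : Fin p → ℕ) :
    Submodule L ((Σ j, EX n (d j)) → L) :=
  ⨅ j, (VI A B (d j)).comap (LinearMap.funLeft L L (Sigma.mk j))

theorem mem_IId {n p : ℕ} {A : L[X][X]} {B : Fin n → L[X][X]} {d : Fin p → ℕ}
    {F : (Σ j, EX n (d j)) → L} :
    F ∈ IId A B d ↔ ∀ j, (fun K => F ⟨j, K⟩) ∈ VI A B (d j) := by
  unfold IId
  rw [Submodule.mem_iInf]
  rfl

end spaces

/-- The data of a moving curve of small height through the point `x`: `CrvG` (irreducible, box `b`,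
the point `(y₁, y)` is a simple zero), the derivations `E j` preserve the constants and kill
`γ j = B j / A_Y`, and `ξ₀ γ = 1`, `ξ₁ γ = X`, `z γ = Y` on the curve. -/
structure CrvE {κ L : Type*} [Field κ] [Field L] [Algebra κ L] {n d₀ : ℕ}
    (X : MP_44a246_ntG.DatG κ (L := L) n d₀) (b : ℕ) (A : L[X][X]) : Prop
    extends MP_44a246_ntG.CrvG X b A where
  Eκ : ∀ j (u : κ), ∃ u' : κ, X.E j (algebraMap κ L u) = algebraMap κ L u'
  EE : ∀ j, A ∣ EE (X.E j) (X.E j) A
  r0 : A ∣ ∑ j, C (C (X.ξ₀ j : L)) * X.B A j - derivative A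
  r1 : A ∣ ∑ j, C (C (X.ξ₁ j : L)) * X.B A j - C Polynomial.X * derivative A
  r2 : A ∣ ∑ j, C (C (algebraMap κ L (X.z j))) * X.B A j - Polynomial.X * derivative A

end Pool.Agent.Lib.MP_44a246_ntSH
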