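import Mathlib
import Pool.Agent.Lib.MP_44a246_ntSH.PR00

/-!
SHARP PAIRS (paper 667), base change: the spaces of relations modulo `A` over a larger field are
the extensions of scalars of the spaces over `L`.
-/

namespace Pool.Agent.Lib.MP_44a246_ntSH

open Pool.Agent.Lib.MP_e52354_nt
open Pool.Agent.Lib.MP_44a246_ntF
open Pool.Agent.Lib.MP_44a246_ntO
open Pool.Agent.Lib.MP_44a246_ntS
open Pool.Agent.Lib.MP_44a246_ntW
open Pool.Agent.Lib.MP_44a246_ntE
open Polynomial Module

section general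

variable {L F : Type*} [Field L] [Field F] [Algebra L F] {T : Type*} [Fintype T]

/-- membership in an extension of scalars, with functionals -/
theorem mem_bc_of_fn {A : Submodule L (T → L)} {c : T → F}
    (hc : ∀ φ : F →ₗ[L] L, (fun t => φ (c t)) ∈ A) : c ∈ bc F A := by
  classical
  let b := Module.Basis.ofVectorSpace L F
  obtain ⟨S, hS⟩ : ∃ S : Finset (Module.Basis.ofVectorSpaceIndex L F),
      ∀ t, (b.repr (c t)).support ⊆ S :=
    ⟨Finset.univ.biUnion fun t => (b.repr (c t)).support,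
      fun t => Finset.subset_biUnion_of_mem (fun t => (b.repr (c t)).support) (Finset.mem_univ t)⟩
  have h1 : c = ∑ i ∈ S, b i • (fun t => algebraMap L F (b.coord i (c t))) := by
    funext t
    rw [Finset.sum_apply]
    conv_lhs => rw [← b.linearCombination_repr (c t), Finsupp.linearCombination_apply,
      Finsupp.sum_of_support_subset _ (hS t) (fun i a => a • b i) (fun i _ => zero_smul _ _)]
    refine Finset.sum_congr rfl fun i _ => ?_
    rw [Pi.smul_apply, smul_eq_mul, Algebra.smul_def, mul_comm, b.coord_apply]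
  rw [h1]
  exact Submodule.sum_mem _ fun i _ => Submodule.smul_mem _ _ (am_mem_bc (hc (b.coord i)))

theorem fn_sum_mul (φ : F →ₗ[L] L) (P : T → L[X][X]) (c : T → F) :
    fn φ (∑ t, C (C (c t)) * mp L F (P t)) = ∑ t, C (C (φ (c t))) * P t := by
  ext i j
  rw [fn_coeff, finset_sum_coeff, finset_sum_coeff, map_sum, finset_sum_coeff, finset_sum_coeff]
  refine Finset.sum_congr rfl fun t _ => ?_
  rw [coeff_C_mul, coeff_C_mul, coeff_C_mul, coeff_C_mul, mp_coeff, mul_comm, ← Algebra.smul_def,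
    map_smul, smul_eq_mul, mul_comm]

theorem mp_sum_mul (P : T → L[X][X]) (c : T → L) :
    mp L F (∑ t, C (C (c t)) * P t) = ∑ t, C (C (algebraMap L F (c t))) * mp L F (P t) := by
  rw [map_sum]
  refine Finset.sum_congr rfl fun t _ => ?_
  rw [map_mul]
  congr 1
  unfold mp
  rw [coe_mapRingHom, map_C, coe_mapRingHom, map_C]

/-- relations modulo `A` and functionals -/
theorem fn_mem_dvS {A : L[X][X]} {P : T → L[X][X]} {c : T → F}
    (hc : c ∈ dvS (mp L F A) fun t => mp L F (P t)) (φ : F →ₗ[L] L) :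
    (fun t => φ (c t)) ∈ dvS A P := by
  rw [mem_dvS, ← fn_sum_mul]
  exact dvd_fn φ (mem_dvS.1 hc)

theorem am_mem_dvS {A : L[X][X]} {P : T → L[X][X]} {c : T → L} (hc : c ∈ dvS A P) :
    (fun t => algebraMap L F (c t)) ∈ dvS (mp L F A) fun t => mp L F (P t) := by
  rw [mem_dvS, ← mp_sum_mul]
  exact _root_.map_dvd (mp L F) (mem_dvS.1 hc)

theorem dvS_mp (A : L[X][X]) (P : T → L[X][X]) :
    dvS (mp L F A) (fun t => mp L F (P t)) = bc F (dvS A P) := by
  refine le_antisymm (fun c hc => mem_bc_of_fn fun φ => fn_mem_dvS hc φ) ?_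
  unfold bc
  rw [Submodule.span_le]
  rintro _ ⟨c, hc, rfl⟩
  exact am_mem_dvS hc

end general

section spaces

variable {L F : Type*} [Field L] [Field F] [Algebra L F]

theorem VI_mp {n : ℕ} (A : L[X][X]) (B : Fin n → L[X][X]) (e : ℕ) :
    VI (mp L F A) (fun j => mp L F (B j)) e = bc F (VI A B e) := by
  unfold VI
  rw [← dvS_mp]
  congr 1
  funext K
  rw [map_prod]
  exact Finset.prod_congr rfl fun j _ => (map_pow _ _ _).symm

theorem IId_mp {n p : ℕ} (A : L[X][X]) (B : Fin n → L[X][X]) (d : Fin p → ℕ) :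
    IId (mp L F A) (fun j => mp L F (B j)) d = bc F (IId A B d) := by
  refine le_antisymm (fun c hc => mem_bc_of_fn fun φ => ?_) ?_
  · rw [mem_IId] at hc ⊢
    intro j
    have h1 := hc j
    rw [VI_mp, VI, ← dvS_mp] at h1
    exact fn_mem_dvS h1 φ
  · unfold bc
    rw [Submodule.span_le]
    rintro _ ⟨c, hc, rfl⟩
    have hc' : c ∈ IId A B d := hc
    rw [mem_IId] at hc'
    rw [SetLike.mem_coe, mem_IId]
    intro j
    rw [VI_mp]
    exact am_mem_bc (hc' j)

theorem mp_derivative' (P : L[X][X]) : derivative (mp L F P) = mp L F (derivative P) := by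
  unfold mp
  rw [coe_mapRingHom, derivative_map]

theorem cqd_mp {D : Derivation ℤ L L} {D' : Derivation ℤ F F}
    (h : ∀ y : L, D' (algebraMap L F y) = algebraMap L F (D y)) (P : L[X][X]) :
    cqd D' (mp L F P) = mp L F (cqd D P) := by
  ext i j
  rw [cqd_coeff, mp_coeff, mp_coeff, cqd_coeff, h]

theorem nab_mp {D : Derivation ℤ L L} {D' : Derivation ℤ F F}
    (h : ∀ y : L, D' (algebraMap L F y) = algebraMap L F (D y)) (A P : L[X][X]) :
    nab (mp L F A) D' (mp L F P) = mp L F (nab A D P) := by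
  rw [nab_apply, nab_apply, cqd_mp h, cqd_mp h, mp_derivative', mp_derivative', map_sub, map_mul,
    map_mul]

theorem wr_mp {D : Derivation ℤ L L} {D' : Derivation ℤ F F}
    (h : ∀ y : L, D' (algebraMap L F y) = algebraMap L F (D y)) (A P : L[X][X]) :
    wr (mp L F A) D' (mp L F P) = mp L F (wr A D P) := by
  unfold wr
  rw [nab_mp h, mp_derivative', nab_mp h, map_sub, map_mul, map_mul]

theorem ZF_mp {n : ℕ} {T : Type*} [Fintype T] {D : T → Derivation ℤ L L}
    {D' : T → Derivation ℤ F F}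
    (h : ∀ t, ∀ y : L, D' t (algebraMap L F y) = algebraMap L F (D t y)) (A : L[X][X])
    (B : Fin n → L[X][X]) :
    ZF (mp L F A) (fun j => mp L F (B j)) D' = bc F (ZF A B D) := by
  have hj : ∀ j, (dvS (mp L F A) fun s => wr (mp L F A) (D' s) (mp L F (B j))) =
      dvS (mp L F A) fun s => mp L F (wr A (D s) (B j)) := by
    intro j
    congr 1
    funext s
    exact wr_mp (h s) A (B j)
  unfold ZF
  refine le_antisymm (fun c hc => mem_bc_of_fn fun φ => ?_) ?_
  · rw [Submodule.mem_iInf] at hc ⊢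
    intro j
    have h1 := hc j
    rw [hj] at h1
    exact fn_mem_dvS h1 φ
  · unfold bc
    rw [Submodule.span_le]
    rintro _ ⟨c, hc, rfl⟩
    have hc' : c ∈ ⨅ j, dvS A fun s => wr A (D s) (B j) := hc
    rw [Submodule.mem_iInf] at hc'
    rw [SetLike.mem_coe, Submodule.mem_iInf]
    intro j
    rw [hj]
    exact am_mem_dvS (hc' j)

end spaces

end Pool.Agent.Lib.MP_44a246_ntSH
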