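import Mathlib
import Pool.Agent.Lib.MP_44a246_ntSH.SRel
import Pool.Agent.Lib.MP_44a246_ntA.P01b

/-!
SHARP PAIRS (paper 667), the tool (2a): between two spaces `A < B` there is a vector of `B` which
is not in `A` whose distances from `A` are small; a lower bound for the distances gives a lower
bound for the height.
-/

namespace Pool.Agent.Lib.MP_44a246_ntSH

open Pool.Agent.Lib.MP_44a246_nt
open Pool.Agent.Lib.MP_44a246_ntL
open Pool.Agent.Lib.MP_44a246_ntS
open Pool.Agent.Lib.MP_44a246_ntA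
open Pool.Agent.Lib.MP_44a246_ntR (genus)
open WithZero Module

variable {κ L : Type*} [Field κ] [IsAlgClosed κ] [CharZero κ] [Field L] [Algebra κ L]
  {ι : Type*} [Fintype ι]

/-- `g` bounds the distances of `v` from the space `A` at all the places -/
def DistLE (κ : Type*) {L : Type*} [Field κ] [Field L] [Algebra κ L] {ι : Type*}
    (A : Submodule L (ι → L)) (v : ι → L) (g : Place κ L → ℤ) : Prop :=
  (Function.support g).Finite ∧
    ∀ w : Place κ L, ∃ u : ι → L, u - v ∈ A ∧ ∀ k, w.1 (u k) ≤ exp (g w)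

/-- **Relative Siegel lemma for vectors** -/
theorem rel_vec (h : IsFF κ L) {A B : Submodule L (ι → L)} (hAB : A ≤ B) (hne : A ≠ B) :
    ∃ v ∈ B, v ∉ A ∧ ∃ g : Place κ L → ℤ, DistLE κ A v g ∧
      ((finrank L B : ℤ) - finrank L A) * ∑ᶠ w, g w ≤
        ht κ B - ht κ A + ((finrank L B : ℤ) - finrank L A) * (genus κ L + 1) := by
  classical
  have hlt : finrank L A < finrank L B :=
    lt_of_le_of_ne (Submodule.finrank_mono hAB) fun h0 =>
      hne (Submodule.eq_of_le_of_finrank_eq hAB h0)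
  obtain ⟨ν, hν⟩ : ∃ ν : ℤ, ν = (finrank L B : ℤ) - finrank L A := ⟨_, rfl⟩
  have hν0 : 0 < ν := by
    have : (finrank L A : ℤ) < finrank L B := by exact_mod_cast hlt
    omega
  have hAB' : orth B ≤ orth A := fun m hm y hy => hm y (hAB hy)
  have hr1 := finrank_orth A
  have hr2 := finrank_orth B
  have hne' : orth B ≠ orth A := by
    intro h0
    rw [h0] at hr2
    omega
  have hfr : (finrank L (orth A) : ℤ) - finrank L (orth B) = ν := by omega
  have hq := Int.ediv_mul_le (ht κ A - ht κ B) hν0.ne'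
  have hq' := Int.lt_ediv_add_one_mul_self (ht κ A - ht κ B) hν0
  obtain ⟨q, hqd⟩ : ∃ q : ℤ, q = (ht κ A - ht κ B) / ν := ⟨_, rfl⟩
  rw [← hqd] at hq hq'
  obtain ⟨l, τ, h1, h2, h3, ⟨y, hy, hy0⟩, h5⟩ := VFSharp.siegel_rel_height h hAB' hne'
    (a := q - genus κ L) (by
      rw [hfr, ht_orth h, ht_orth h, sub_add_cancel, mul_comm]
      exact hq)
  have hl : l ∈ B := by
    rw [← orth_orth B, mem_orth]
    exact h3
  refine ⟨l, hl, fun hlA => hy0 ?_, τ, ⟨h1, fun w => ?_⟩, ?_⟩
  · have := (mem_orth.1 hy) l hlA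
    rw [← this]
    exact Finset.sum_congr rfl fun k _ => mul_comm _ _
  · obtain ⟨m, hm, hm'⟩ := h5 w
    refine ⟨m, ?_, hm⟩
    rw [← orth_orth A, mem_orth]
    intro y hy
    have h6 := hm' y hy
    simp only [Pi.sub_apply, sub_mul, Finset.sum_sub_distrib]
    rw [h6, sub_self]
  · rw [← hν, h2]
    nlinarith

/-- a lower bound for the distances gives a lower bound for the height -/
theorem ht_ge_of_dist (h : IsFF κ L) {A B : Submodule L (ι → L)} (hAB : A ≤ B) {c : ℤ} {m : ℕ}
    (hc : ∀ v ∈ B, v ∉ A → ∀ g : Place κ L → ℤ, DistLE κ A v g → c ≤ m * ∑ᶠ w, g w) :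
    ((finrank L B : ℤ) - finrank L A) * c ≤
      m * (ht κ B - ht κ A + ((finrank L B : ℤ) - finrank L A) * (genus κ L + 1)) := by
  by_cases hne : A = B
  · subst hne
    simp
  obtain ⟨v, hv, hvA, g, hg, hle⟩ := rel_vec h hAB hne
  have h1 := hc v hv hvA g hg
  have h2 : (0 : ℤ) ≤ (finrank L B : ℤ) - finrank L A := by
    have : (finrank L A : ℤ) ≤ finrank L B := by exact_mod_cast Submodule.finrank_mono hAB
    omega
  have h3 := mul_le_mul_of_nonneg_left h1 h2
  have h4 := mul_le_mul_of_nonneg_left hle (Int.natCast_nonneg m)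
  linarith

end Pool.Agent.Lib.MP_44a246_ntSH
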