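import Mathlib
import Pool.Agent.Lib.MP_44a246_ntSH.PR00
import Pool.Agent.Lib.MP_44a246_ntSH.PR01

/-!
SHARP PAIRS (paper 667), (0.1): arithmetic Bezout on the curve with quotient norms.
-/

namespace Pool.Agent.Lib.MP_44a246_ntSH

open Pool.Agent.Lib.MP_e52354_nt
open Pool.Agent.Lib.MP_44a246_nt
open Pool.Agent.Lib.MP_44a246_ntL
open Pool.Agent.Lib.MP_44a246_ntS
open Pool.Agent.Lib.MP_44a246_ntF
open Pool.Agent.Lib.MP_44a246_ntW
open Pool.Agent.Lib.MP_44a246_ntG
open Pool.Agent.Lib.MP_44a246_ntE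
open WithZero Polynomial Module

section algebra

variable {L : Type*} [Field L]

/-- if the resultant vanishes, `A` divides -/
theorem dvd_of_res {A Q : L[X][X]} (hA : Irreducible A)
    (hm : A.natDegree ≠ 0) {N : ℕ} (hQ : Q.natDegree ≤ N)
    (h : resultant A Q A.natDegree N = 0) : A ∣ Q := by
  have hprim : A.IsPrimitive := hA.isPrimitive hm
  have hinj : Function.Injective (algebraMap L[X] (FractionRing L[X])) :=
    IsFractionRing.injective _ _
  have hirr : Irreducible (A.map (algebraMap L[X] (FractionRing L[X]))) :=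
    hprim.irreducible_iff_irreducible_map_fraction_map.mp hA
  apply hprim.dvd_of_fraction_map_dvd_fraction_map (K := FractionRing L[X])
  obtain ⟨k, hk⟩ := Nat.exists_eq_add_of_le hQ
  have h1 : resultant (A.map (algebraMap L[X] (FractionRing L[X])))
      (Q.map (algebraMap L[X] (FractionRing L[X]))) A.natDegree N = 0 := by
    rw [resultant_map_map, h, map_zero]
  rw [hk, resultant_add_right_deg _ _ _ _ _ natDegree_map_le, mul_eq_zero] at h1
  have h2 : (A.map (algebraMap L[X] (FractionRing L[X]))).coeff A.natDegree ^ k ≠ 0 := by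
    apply pow_ne_zero
    rw [coeff_map]
    intro h0
    rw [map_eq_zero_iff _ hinj, coeff_natDegree, leadingCoeff_eq_zero] at h0
    exact hA.ne_zero h0
  have h3 := h1.resolve_left h2
  have e1 : (A.map (algebraMap L[X] (FractionRing L[X]))).natDegree = A.natDegree :=
    natDegree_map_eq_of_injective hinj A
  have e2 : (Q.map (algebraMap L[X] (FractionRing L[X]))).natDegree = Q.natDegree :=
    natDegree_map_eq_of_injective hinj Q
  rw [← e1, ← e2, resultant_eq_zero_iff] at h3
  by_contra hnd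
  exact h3.2 ((hirr.coprime_iff_not_dvd).mpr hnd)

theorem natDegree_FB_cd {n e : ℕ} (A : L[X][X]) (a : (Fin (n + 1) →₀ ℕ) → L)
    (E : Fin (n + 1) → Derivation ℤ L L) :
    (FB e a fun j => -cd (E j) A).natDegree ≤ e * A.natDegree := by
  refine FB_natDegree fun j => ?_
  rw [natDegree_neg, natDegree_le_iff_coeff_eq_zero]
  intro i hi
  ext k
  rw [cd_coeff, coeff_eq_zero_of_natDegree_lt hi, coeff_zero, map_zero]

theorem FB_ex_add {n e : ℕ} (B : Fin (n + 1) → L[X][X]) (f g : EX (n + 1) e → L) :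
    FB e (ex (f + g)) B = FB e (ex f) B + FB e (ex g) B := by
  unfold FB
  rw [← Finset.sum_add_distrib]
  refine Finset.sum_congr rfl fun I hI => ?_
  rw [ex_of_mem _ hI, ex_of_mem _ hI, ex_of_mem _ hI, Pi.add_apply, C_add, C_add, add_mul]

/-- the resultant does not change if a form which vanishes on the curve is added -/
theorem rsl_congr {n e : ℕ} {A : L[X][X]} {E : Fin (n + 1) → Derivation ℤ L L}
    {f u : EX (n + 1) e → L} (hA0 : A ≠ 0) (h : u - f ∈ VI A (fun j => -cd (E j) A) e) :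
    rsl A e (ex u) E = rsl A e (ex f) E := by
  rw [mem_VI'] at h
  obtain ⟨Q, hQ⟩ := h
  have h1 : FB e (ex u) (fun j => -cd (E j) A) =
      FB e (ex f) (fun j => -cd (E j) A) + A * Q := by
    rw [← hQ, ← FB_ex_add, add_sub_cancel]
  unfold rsl
  rw [h1]
  by_cases hQ0 : Q = 0
  · rw [hQ0, mul_zero, add_zero]
  · apply resultant_add_mul_right _ _ _ _ _ _ le_rfl
    have h2 := natDegree_FB_cd (e := e) A (ex (u - f)) E
    rw [hQ, natDegree_mul hA0 hQ0] at h2
    omega

end algebra

section bezout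

variable {κ L : Type*} [Field κ] [IsAlgClosed κ] [CharZero κ] [Field L] [CharZero L]
  [Algebra κ L]

/-- the coordinate `y₁` of the point is not constant -/
theorem transc_y₁ {n d₀ : ℕ} (X : DatG κ (L := L) n d₀)
    (hpos : 0 < height κ X.x) : Transcendental κ X.y₁ := by
  intro hcon
  obtain ⟨c, hc⟩ : ∃ c : κ, algebraMap κ L c = X.y₁ := by
    have hint : IsIntegral κ X.y₁ := hcon.isIntegral
    exact minpoly.mem_range_of_degree_eq_one κ X.y₁
      (IsAlgClosed.degree_eq_one_of_irreducible κ (minpoly.irreducible hint))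
  have h0 : height κ ![1, X.y₁] = 0 := by
    unfold height
    refine (finsum_congr fun w => ?_).trans finsum_zero
    have h1 : w.1 X.y₁ ≤ 1 := by
      rw [← hc]
      by_cases hc0 : c = 0
      · rw [hc0, map_zero, map_zero]
        exact zero_le
      · rw [w.2.2 c hc0]
    rw [Pool.Agent.Lib.MP_44a246_ntL.vmax_pair, max_eq_left h1, log_one]
  rw [X.height_y₁] at h0
  omega

/-- the total Gauss norm of a polynomial in one variable is not negative -/
theorem gv_nonneg (h : IsFF κ L) {N : L[X]} (hN : N ≠ 0) :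
    0 ≤ ∑ᶠ w : Place κ L, log (gv w.1 N) := by
  have h1 := gh_nonneg h (A := (C N : L[X][X])) (by rwa [Ne, C_eq_zero])
  unfold gh at h1
  refine h1.trans (le_of_eq (finsum_congr fun w => ?_))
  congr 1
  exact gn_C (gv w.1) N

/-- the form at the parametrisation vanishes at the point -/
theorem FB_zero_point {n d₀ : ℕ}
    (X : DatG κ (L := L) n d₀) {b : ℕ} {A : L[X][X]} (hA : CrvG X b A) {e : ℕ}
    {a : (Fin (n + 1) →₀ ℕ) → L} (hz : Fval e a X.x = 0) :
    (FB e a (X.B A)).evalEval X.y₁ X.y = 0 := by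
  rw [FB_eval]
  have h1 : (fun j => (X.B A j).evalEval X.y₁ X.y) =
      fun j => (derivative A).evalEval X.y₁ X.y * X.x j := by
    funext j
    rw [X.B_eval hA j]
  rw [h1]
  set c := (derivative A).evalEval X.y₁ X.y with hc
  have h2 : Fval e a (fun j => c * X.x j) = c ^ e * Fval e a X.x := by
    unfold Fval
    rw [Finset.mul_sum]
    refine Finset.sum_congr rfl fun I hI => ?_
    have hdeg : ∑ j, I j = e := by
      have := mem_expo.1 hI
      rwa [Finsupp.degree_eq_sum] at this
    have h3 : mon (fun j => c * X.x j) I = c ^ e * mon X.x I := by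
      unfold mon
      simp only [mul_pow]
      rw [Finset.prod_mul_distrib, Finset.prod_pow_eq_pow_sum, hdeg]
    rw [h3]
    ring
  rw [h2, hz, mul_zero]

/-- **The norm of a form on the curve**: a polynomial `N` in `X`, with the bounds of the quotient
norms, which vanishes at `y₁` if the form vanishes at the point. -/
theorem exists_norm (h : IsFF κ L) {n d₀ b : ℕ} (X : DatG κ (L := L) n d₀) {A : L[X][X]}
    (hA : CrvE X b A) (hpos : 0 < height κ X.x) {e : ℕ} {f : EX (n + 1) e → L}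
    (hf : f ∉ VI A (X.B A) e) {g : Place κ L → ℤ} (hg : DistLE κ (VI A (X.B A) e) f g) :
    ∃ N : L[X], N ≠ 0 ∧ (Fval e (ex f) X.x = 0 → N.eval X.y₁ = 0) ∧
      ∑ᶠ w : Place κ L, log (gv w.1 N) ≤ e * gh κ A + A.natDegree * ∑ᶠ w, g w := by
  have hA0 : A ≠ 0 := hA.irr.ne_zero
  obtain ⟨N, hN⟩ := dsc_pow_dvd hA.irr hA.deg hA.EE (d := e) (a := ex f)
  have hN0 : N ≠ 0 := by
    rintro rfl
    apply hf
    rw [mem_VI']
    refine dvd_of_res hA.irr hA.deg (natDegree_FB_cd A (ex f) X.E) ?_
    have h1 : rsl A e (ex f) X.E = 0 := by rw [hN, mul_zero]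
    exact h1
  refine ⟨N, hN0, fun hz => quot_eval_zero hA.irr hA.deg hA.EE hA.zero hA.der
    (FB_zero_point X hA.toCrvG hz) hN, ?_⟩
  have s3 := gg_support h hA0
  have s4 : (Function.support fun w : Place κ L => (e : ℤ) * log (gg w.1 A)).Finite := by
    refine s3.subset fun w hw h0 => hw ?_
    have h0' : log (gg w.1 A) = 0 := h0
    simp only
    rw [h0', mul_zero]
  have s5 : (Function.support fun w : Place κ L => (A.natDegree : ℤ) * g w).Finite := by
    refine hg.1.subset fun w hw h0 => hw ?_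
    simp only
    rw [h0, mul_zero]
  have hsum : ∑ᶠ w : Place κ L, ((e : ℤ) * log (gg w.1 A) + (A.natDegree : ℤ) * g w) =
      (e : ℤ) * gh κ A + (A.natDegree : ℤ) * ∑ᶠ w, g w := by
    rw [finsum_add_distrib s4 s5, ← mul_finsum, ← mul_finsum]
    rfl
  rw [← hsum]
  refine finsum_mono (gv_support h hN0)
    ((s4.union s5).subset (Function.support_add _ _)) fun w => ?_
  obtain ⟨u, hu, hub⟩ := hg.2 w
  have hN' : rsl A e (ex u) X.E = dsc A ^ e * N := by
    rw [← hN]
    exact rsl_congr hA0 hu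
  have h3 := local_quot h hA.irr hA.deg hA.Eκ (transc_y₁ X hpos) X.E_y₁ hA.EE w
    (a := ex u) (s := exp (g w)) (fun I hI => by
      rw [ex_of_mem _ hI]
      exact hub _) hN'
  have hgA : gg w.1 A ≠ 0 := by
    rw [Ne, gg_eq_zero]
    exact hA0
  have hgN : gv w.1 N ≠ 0 := by
    rw [Ne, gv_eq_zero]
    exact hN0
  rw [log_le_iff_le_exp hgN]
  refine h3.trans (le_of_eq ?_)
  have e1 : gg w.1 A ^ e = exp ((e : ℤ) * log (gg w.1 A)) := by
    conv_lhs => rw [← exp_log hgA]
    rw [← exp_nsmul, nsmul_eq_mul]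
  have e2 : exp (g w) ^ A.natDegree = exp ((A.natDegree : ℤ) * g w) := by
    rw [← exp_nsmul, nsmul_eq_mul]
  rw [exp_add, e1, e2]

/-- **(0.1)** Bezout with quotient norms -/
theorem bezout_ge (h : IsFF κ L) {n d₀ b : ℕ} (X : DatG κ (L := L) n d₀) {A : L[X][X]}
    (hA : CrvE X b A) (hpos : 0 < height κ X.x) {e : ℕ} {f : EX (n + 1) e → L}
    (hf : f ∉ VI A (X.B A) e) {g : Place κ L → ℤ} (hg : DistLE κ (VI A (X.B A) e) f g) :
    -((e : ℤ) * gh κ A) ≤ A.natDegree * ∑ᶠ w, g w := by
  obtain ⟨N, hN, -, h1⟩ := exists_norm h X hA hpos hf hg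
  have h2 := gv_nonneg h hN
  linarith

/-- **(0.1)**, for a form which vanishes at the point -/
theorem bezout_ge_zero (h : IsFF κ L) {n d₀ b : ℕ} (X : DatG κ (L := L) n d₀) {A : L[X][X]}
    (hA : CrvE X b A) (hpos : 0 < height κ X.x) {e : ℕ} {f : EX (n + 1) e → L}
    (hf : f ∉ VI A (X.B A) e) (hz : Fval e (ex f) X.x = 0) {g : Place κ L → ℤ}
    (hg : DistLE κ (VI A (X.B A) e) f g) :
    height κ X.x - (e : ℤ) * gh κ A ≤ A.natDegree * ∑ᶠ w, g w := by
  obtain ⟨N, hN, hN', h1⟩ := exists_norm h X hA hpos hf hg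
  have h2 := root_gv h hN (hN' hz)
  rw [X.height_y₁] at h2
  linarith

end bezout

end Pool.Agent.Lib.MP_44a246_ntSH
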