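import Mathlib
import Pool.Agent.Lib.MP_44a246_ntSH.PR02
import Pool.Agent.Lib.MP_44a246_ntS.SB2c

/-!
SHARP PAIRS (paper 667), section 4: constant substitutions of linear forms; the spaces of the forms
which vanish on the curve and their heights, (0.2).
-/

namespace Pool.Agent.Lib.MP_44a246_ntSH

open Pool.Agent.Lib.MP_e52354_nt
open Pool.Agent.Lib.MP_44a246_nt
open Pool.Agent.Lib.MP_44a246_ntL
open Pool.Agent.Lib.MP_44a246_ntS
open Pool.Agent.Lib.MP_44a246_ntA
open Pool.Agent.Lib.MP_44a246_ntF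
open Pool.Agent.Lib.MP_44a246_ntW
open Pool.Agent.Lib.MP_44a246_ntG
open Pool.Agent.Lib.MP_44a246_ntR (genus)
open WithZero Polynomial Module

section algebra

variable {κ L : Type*} [Field κ] [Field L] [Algebra κ L] {k n : ℕ}

/-- the functions on the curve given by linear forms -/
noncomputable def B4 (c : Fin k → Fin n → L) (B : Fin n → L[X][X]) : Fin k → L[X][X] :=
  fun i => ∑ j, C (C (c i j)) * B j

/-- congruent arguments give congruent values -/
theorem dvd_aeval_sub' {σ : Type*} {A : L[X][X]} {B C' : σ → L[X][X]}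
    (h : ∀ j, A ∣ B j - C' j) (R : MvPolynomial σ L) :
    A ∣ MvPolynomial.aeval B R - MvPolynomial.aeval C' R := by
  induction R using MvPolynomial.induction_on with
  | C a => simp
  | add p q hp hq =>
    rw [map_add, map_add, add_sub_add_comm]
    exact dvd_add hp hq
  | mul_X p j hp =>
    rw [map_mul, map_mul, MvPolynomial.aeval_X, MvPolynomial.aeval_X]
    have e : MvPolynomial.aeval B p * B j - MvPolynomial.aeval C' p * C' j =
      (MvPolynomial.aeval B p - MvPolynomial.aeval C' p) * B j +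
        MvPolynomial.aeval C' p * (B j - C' j) := by ring
    rw [e]
    exact dvd_add (Dvd.dvd.mul_right hp _) (Dvd.dvd.mul_left (h j) _)

theorem VI_congr {A : L[X][X]} {B B' : Fin n → L[X][X]} (h : ∀ j, A ∣ B j - B' j) (e : ℕ) :
    VI A B e = VI A B' e := by
  ext f
  rw [mem_VI, mem_VI]
  exact ⟨fun h1 => (dvd_iff_dvd_of_dvd_sub (dvd_aeval_sub' h (pf f))).1 h1,
    fun h1 => (dvd_iff_dvd_of_dvd_sub (dvd_aeval_sub' h (pf f))).2 h1⟩

/-- the product of the powers of the linear forms -/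
noncomputable def lp (c : Fin k → Fin n → κ) (J : Fin k →₀ ℕ) : MvPolynomial (Fin n) κ :=
  ∏ i, (∑ j, MvPolynomial.C (c i j) * MvPolynomial.X j) ^ J i

theorem lp_hom (c : Fin k → Fin n → κ) {e : ℕ} (J : EX k e) : (lp c J.1).IsHomogeneous e := by
  have h1 : ∑ i : Fin k, 1 * J.1 i = e := by
    have h2 := mem_expo.1 J.2
    rw [Finsupp.degree_eq_sum] at h2
    simpa using h2
  have h0 : ∀ i, (∑ j, MvPolynomial.C (c i j) * MvPolynomial.X j :
      MvPolynomial (Fin n) κ).IsHomogeneous 1 := by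
    intro i
    refine MvPolynomial.IsHomogeneous.sum _ _ _ fun j _ => ?_
    have h1 := (MvPolynomial.isHomogeneous_C (Fin n) (c i j)).mul
      (MvPolynomial.isHomogeneous_X κ j)
    simpa using h1
  have h3 := MvPolynomial.IsHomogeneous.prod Finset.univ
    (fun i => (∑ j, MvPolynomial.C (c i j) * MvPolynomial.X j : MvPolynomial (Fin n) κ) ^ J.1 i)
    (fun i => 1 * J.1 i) (fun i _ => (h0 i).pow (J.1 i))
  rw [h1] at h3
  exact h3

/-- the matrix of the substitution -/
noncomputable def lq (c : Fin k → Fin n → κ) (e : ℕ) : Matrix (EX n e) (EX k e) κ :=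
  Matrix.of fun K J => (lp c J.1).coeff K.1

/-- the substitution of the linear forms with constant coefficients, on the coefficients -/
noncomputable def lsub (L : Type*) [Field L] [Algebra κ L] (c : Fin k → Fin n → κ) (e : ℕ) :
    (EX k e → L) →ₗ[L] (EX n e → L) :=
  ((lq c e).map (algebraMap κ L)).mulVecLin

theorem lsub_apply (c : Fin k → Fin n → κ) (e : ℕ) (f : EX k e → L) (K : EX n e) :
    lsub L c e f K = ∑ J : EX k e, algebraMap κ L ((lp c J.1).coeff K.1) * f J := rfl

theorem aeval_lp (c : Fin k → Fin n → κ) (J : Fin k →₀ ℕ) (B : Fin n → L[X][X]) :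
    MvPolynomial.aeval B (MvPolynomial.map (algebraMap κ L) (lp c J)) =
      ∏ i, B4 (fun i j => algebraMap κ L (c i j)) B i ^ J i := by
  unfold lp B4
  rw [map_prod, map_prod]
  refine Finset.prod_congr rfl fun i _ => ?_
  rw [map_pow, map_pow, map_sum, map_sum]
  congr 1
  refine Finset.sum_congr rfl fun j _ => ?_
  rw [map_mul, map_mul, MvPolynomial.map_C, MvPolynomial.map_X, MvPolynomial.aeval_X,
    MvPolynomial.aeval_C]
  rfl

theorem aeval_lsub (c : Fin k → Fin n → κ) {e : ℕ} (B : Fin n → L[X][X]) (f : EX k e → L) :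
    MvPolynomial.aeval B (pf (lsub L c e f)) =
      MvPolynomial.aeval (B4 (fun i j => algebraMap κ L (c i j)) B) (pf f) := by
  rw [aeval_pf, aeval_pf]
  have h1 : ∀ J : EX k e, ∏ i, B4 (fun i j => algebraMap κ L (c i j)) B i ^ J.1 i =
      ∑ K : EX n e, C (C (algebraMap κ L ((lp c J.1).coeff K.1))) * ∏ j, B j ^ K.1 j := by
    intro J
    rw [← aeval_lp, ← pf_coeff (e := e) (f := MvPolynomial.map (algebraMap κ L) (lp c J.1))
      ((lp_hom c J).map _), aeval_pf]
    refine Finset.sum_congr rfl fun K _ => ?_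
    rw [MvPolynomial.coeff_map]
  have h2 : ∀ K : EX n e, C (C (lsub L c e f K)) * ∏ j, B j ^ K.1 j = ∑ J : EX k e,
      C (C (f J)) * (C (C (algebraMap κ L ((lp c J.1).coeff K.1))) * ∏ j, B j ^ K.1 j) := by
    intro K
    rw [lsub_apply, map_sum, map_sum, Finset.sum_mul]
    refine Finset.sum_congr rfl fun J _ => ?_
    rw [C_mul, C_mul]
    ring
  rw [Finset.sum_congr rfl fun K _ => h2 K, Finset.sum_comm]
  refine Finset.sum_congr rfl fun J _ => ?_
  rw [h1 J, Finset.mul_sum]

theorem lsub_mem_VI (c : Fin k → Fin n → κ) {e : ℕ} {A : L[X][X]} {B : Fin n → L[X][X]}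
    {f : EX k e → L} :
    lsub L c e f ∈ VI A B e ↔ f ∈ VI A (B4 (fun i j => algebraMap κ L (c i j)) B) e := by
  rw [mem_VI, mem_VI, aeval_lsub]

/-- a form which vanishes on the curve vanishes at the point -/
theorem eval_of_mem_VI4 {n d₀ : ℕ}
    (X : DatG κ (L := L) n d₀) {b : ℕ} {A : L[X][X]} (hA : CrvG X b A) {k e : ℕ}
    {c : Fin k → Fin (n + 1) → L} {f : EX k e → L} (hf : f ∈ VI A (B4 c (X.B A)) e) :
    MvPolynomial.eval (fun i => ∑ j, c i j * X.x j) (pf f) = 0 := by
  rw [mem_VI] at hf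
  obtain ⟨Q, hQ⟩ := hf
  obtain ⟨a, ha⟩ : ∃ a, a = (derivative A).evalEval X.y₁ X.y := ⟨_, rfl⟩
  have ha0 : a ≠ 0 := by rw [ha]; exact hA.der
  have h5 : ∀ i, evalEvalRingHom X.y₁ X.y (B4 c (X.B A) i) = a * ∑ j, c i j * X.x j := by
    intro i
    have e0 : evalEvalRingHom X.y₁ X.y (∑ j, C (C (c i j)) * X.B A j) =
        ∑ j, evalEvalRingHom X.y₁ X.y (C (C (c i j)) * X.B A j) := map_sum _ _ _
    rw [Finset.mul_sum]
    refine e0.trans (Finset.sum_congr rfl fun j _ => ?_)
    have e1 : evalEvalRingHom X.y₁ X.y (C (C (c i j)) * X.B A j) =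
        (C (C (c i j)) : L[X][X]).evalEval X.y₁ X.y * (X.B A j).evalEval X.y₁ X.y := by
      rw [map_mul]
      rfl
    rw [e1, ← X.B_eval hA j, ← ha, evalEval_C, eval_C]
    ring
  have h1 : ∀ P : MvPolynomial (Fin k) L, (MvPolynomial.aeval (B4 c (X.B A)) P).evalEval X.y₁ X.y =
      MvPolynomial.eval (fun i => a * ∑ j, c i j * X.x j) P := by
    intro P
    have h2 : (evalEvalRingHom X.y₁ X.y).comp
        (MvPolynomial.aeval (R := L) (B4 c (X.B A))).toRingHom =
        MvPolynomial.eval (fun i => a * ∑ j, c i j * X.x j) := by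
      apply MvPolynomial.ringHom_ext
      · intro u
        simp
      · intro i
        simp only [RingHom.comp_apply, AlgHom.toRingHom_eq_coe, RingHom.coe_coe,
          MvPolynomial.aeval_X, MvPolynomial.eval_X]
        exact h5 i
    exact congrArg (fun F : MvPolynomial (Fin k) L →+* L => F P) h2
  have h3 := h1 (pf f)
  rw [hQ, evalEval_mul, hA.zero, zero_mul] at h3
  have h4 : MvPolynomial.eval (fun i => a * ∑ j, c i j * X.x j) (pf f) =
      a ^ e * MvPolynomial.eval (fun i => ∑ j, c i j * X.x j) (pf f) := by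
    rw [MvPolynomial.eval_eq, MvPolynomial.eval_eq, Finset.mul_sum]
    refine Finset.sum_congr rfl fun K hK => ?_
    have h5 : K.degree = e := by
      rw [Finsupp.degree_eq_weight_one]
      exact pf_hom f (MvPolynomial.mem_support_iff.1 hK)
    simp only [mul_pow]
    rw [Finset.prod_mul_distrib, Finset.prod_pow_eq_pow_sum]
    have h6 : ∑ i ∈ K.support, K i = e := h5
    rw [h6]
    ring
  rw [h4] at h3
  exact (mul_eq_zero.1 h3.symm).resolve_left (pow_ne_zero _ ha0)

end algebra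

section heights

variable {κ L : Type*} [Field κ] [IsAlgClosed κ] [CharZero κ] [Field L] [CharZero L]
  [Algebra κ L]

omit [IsAlgClosed κ] [CharZero κ] [CharZero L] in
theorem lsub_le {k n e : ℕ} (c : Fin k → Fin n → κ) (w : Place κ L) {u : EX k e → L} {g : ℤᵐ⁰}
    (hu : ∀ J, w.1 (u J) ≤ g) (K : EX n e) : w.1 (lsub L c e u K) ≤ g := by
  rw [lsub_apply]
  refine Valuation.map_sum_le _ fun J _ => ?_
  rw [map_mul]
  have h1 : w.1 (algebraMap κ L ((lp c J.1).coeff K.1)) ≤ 1 := by
    by_cases hc : (lp c J.1).coeff K.1 = 0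
    · rw [hc, map_zero, map_zero]
      exact zero_le
    · exact (w.2.2 _ hc).le
  calc w.1 (algebraMap κ L ((lp c J.1).coeff K.1)) * w.1 (u J) ≤ 1 * g :=
        mul_le_mul' h1 (hu J)
    _ = g := one_mul g

omit [IsAlgClosed κ] [CharZero κ] [CharZero L] in
theorem DistLE.lsub {k n e : ℕ} {c : Fin k → Fin n → κ} {A : L[X][X]} {B : Fin n → L[X][X]}
    {f : EX k e → L} {g : Place κ L → ℤ}
    (hg : DistLE κ (VI A (B4 (fun i j => algebraMap κ L (c i j)) B) e) f g) :
    DistLE κ (VI A B e) (lsub L c e f) g := by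
  refine ⟨hg.1, fun w => ?_⟩
  obtain ⟨u, hu1, hu2⟩ := hg.2 w
  refine ⟨MP_44a246_ntSH.lsub L c e u, ?_, fun K => lsub_le c w hu2 K⟩
  rw [← map_sub]
  exact (lsub_mem_VI c).2 hu1

/-- **(0.1)** for the forms in linear forms with constant coefficients -/
theorem bezout_ge4 (h : IsFF κ L) {n d₀ b : ℕ} (X : DatG κ (L := L) n d₀) {A : L[X][X]}
    (hA : CrvE X b A) (hpos : 0 < height κ X.x) {k e : ℕ} {c : Fin k → Fin (n + 1) → κ}
    {f : EX k e → L} (hf : f ∉ VI A (B4 (fun i j => algebraMap κ L (c i j)) (X.B A)) e)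
    {g : Place κ L → ℤ}
    (hg : DistLE κ (VI A (B4 (fun i j => algebraMap κ L (c i j)) (X.B A)) e) f g) :
    -((e : ℤ) * gh κ A) ≤ A.natDegree * ∑ᶠ w, g w :=
  bezout_ge h X hA hpos (fun h1 => hf ((lsub_mem_VI c).1 h1)) hg.lsub

/-- **(0.2)** for the forms in linear forms with constant coefficients -/
theorem ht_VI4_le (h : IsFF κ L) {n d₀ b : ℕ} (X : DatG κ (L := L) n d₀) {A : L[X][X]}
    (hA : CrvE X b A) (hpos : 0 < height κ X.x) {k : ℕ} (c : Fin k → Fin (n + 1) → κ) (e : ℕ) :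
    (A.natDegree : ℤ) * ht κ (VI A (B4 (fun i j => algebraMap κ L (c i j)) (X.B A)) e) ≤
      ((Fintype.card (EX k e) : ℤ) -
        finrank L (VI A (B4 (fun i j => algebraMap κ L (c i j)) (X.B A)) e)) *
      (e * gh κ A + A.natDegree * (genus κ L + 1)) := by
  have h1 := ht_ge_of_dist h (le_top :
    VI A (B4 (fun i j => algebraMap κ L (c i j)) (X.B A)) e ≤ ⊤)
    (fun v _ hv g hg => bezout_ge4 h X hA hpos hv hg)
  rw [finrank_top, Module.finrank_fintype_fun_eq_card, ht_top h] at h1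
  linarith

/-- **(0.2)** -/
theorem ht_VI_le (h : IsFF κ L) {n d₀ b : ℕ} (X : DatG κ (L := L) n d₀) {A : L[X][X]}
    (hA : CrvE X b A) (hpos : 0 < height κ X.x) (e : ℕ) :
    (A.natDegree : ℤ) * ht κ (VI A (X.B A) e) ≤
      ((Fintype.card (EX (n + 1) e) : ℤ) - finrank L (VI A (X.B A) e)) *
      (e * gh κ A + A.natDegree * (genus κ L + 1)) := by
  have h1 := ht_ge_of_dist h (le_top : VI A (X.B A) e ≤ ⊤)
    (fun v _ hv g hg => bezout_ge h X hA hpos hv hg)
  rw [finrank_top, Module.finrank_fintype_fun_eq_card, ht_top h] at h1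
  linarith

/-- **(0.2)** for the tuples of forms which vanish on the curve -/
theorem bezout_IId (h : IsFF κ L) {n p d₀ b : ℕ} (X : DatG κ (L := L) n d₀) {A : L[X][X]}
    (hA : CrvE X b A) (hpos : 0 < height κ X.x) {d : Fin p → ℕ} {d' : ℕ} (hd : ∀ j, d j ≤ d')
    {F : (Σ j, EX (n + 1) (d j)) → L} (hF : F ∉ IId A (X.B A) d)
    {g : Place κ L → ℤ} (hg : DistLE κ (IId A (X.B A) d) F g) :
    -((d' : ℤ) * gh κ A) ≤ A.natDegree * ∑ᶠ w, g w := by
  have h1 : ∃ j, (fun K => F ⟨j, K⟩) ∉ VI A (X.B A) (d j) := by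
    by_contra hcon
    push Not at hcon
    exact hF (mem_IId.2 hcon)
  obtain ⟨j, hj⟩ := h1
  have h2 := bezout_ge h X hA hpos hj ⟨hg.1, fun w => by
    obtain ⟨u, hu1, hu2⟩ := hg.2 w
    exact ⟨fun K => u ⟨j, K⟩, mem_IId.1 hu1 j, fun K => hu2 ⟨j, K⟩⟩⟩
  have h3 : ((d j : ℕ) : ℤ) * gh κ A ≤ d' * gh κ A :=
    mul_le_mul_of_nonneg_right (by exact_mod_cast hd j) (gh_nonneg h hA.irr.ne_zero)
  linarith

end heights

section comap

variable {κ L : Type*} [Field κ] [IsAlgClosed κ] [CharZero κ] [Field L] [Algebra κ L]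
  {ι ι' : Type*} [Fintype ι] [Fintype ι']

/-- the preimage under a constant matrix has smaller height -/
theorem ht_comap_const_le (h : IsFF κ L) (T : Matrix ι' ι κ) (B : Submodule L (ι' → L)) :
    ht κ (B.comap (T.map (algebraMap κ L)).mulVecLin) ≤ ht κ B := by
  classical
  have h1 : B.comap (T.map (algebraMap κ L)).mulVecLin =
      orth ((orth B).map (T.transpose.map (algebraMap κ L)).mulVecLin) := by
    ext f
    rw [Submodule.mem_comap]
    conv_lhs => rw [← orth_orth B]
    rw [mem_orth, mem_orth]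
    have key : ∀ y : ι' → L, ∑ i, (T.map (algebraMap κ L)).mulVecLin f i * y i =
        ∑ i, f i * (T.transpose.map (algebraMap κ L)).mulVecLin y i := by
      intro y
      rw [Matrix.mulVecLin_apply, Matrix.mulVecLin_apply]
      have e1 := Matrix.dotProduct_mulVec f (T.transpose.map (algebraMap κ L)) y
      have e2 : Matrix.vecMul f (T.transpose.map (algebraMap κ L)) =
          (T.map (algebraMap κ L)).mulVec f := by
        rw [Matrix.transpose_map, Matrix.vecMul_transpose]
      rw [e2] at e1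
      exact e1.symm
    constructor
    · rintro h2 _ ⟨y, hy, rfl⟩
      rw [← key]
      exact h2 y hy
    · intro h2 y hy
      rw [key]
      exact h2 _ ⟨y, hy, rfl⟩
  rw [h1, ht_orth h, ← ht_orth h B]
  exact ht_map_const_le h _ _

end comap

end Pool.Agent.Lib.MP_44a246_ntSH
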