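import Mathlib
import Pool.Agent.Lib.MP_44a246_ntE.E12
import Pool.Agent.Lib.MP_44a246_ntS.SP8
import Pool.Agent.Lib.MP_44a246_ntSH.PR00
import Pool.Agent.Lib.MP_44a246_ntSH.CB01

/-!
# Sharp pairs: the dimensions of the spaces of forms (paper 667, section 5)

The dictionary between the spaces `VI`, `IId`, `ZF` of polynomials (file `PR00`) and the function
field `M` of the curve `A = 0`, and the count in these terms.
-/

namespace Pool.Agent.Lib.MP_44a246_ntSH

open Pool.Agent.Lib.MP_e52354_nt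
open Pool.Agent.Lib.MP_44a246_nt
open Pool.Agent.Lib.MP_44a246_ntL
open Pool.Agent.Lib.MP_44a246_ntR
open Pool.Agent.Lib.MP_44a246_ntS
open Pool.Agent.Lib.MP_44a246_ntF
open Pool.Agent.Lib.MP_44a246_ntO
open Pool.Agent.Lib.MP_44a246_ntW
open Pool.Agent.Lib.MP_44a246_ntE
open WithZero Polynomial Module

section dict

variable {κ M : Type*} [Field κ] [Field M] [Algebra κ M]

/-- **The forms which vanish on the curve** and the powers of the span of the coordinates. -/
theorem finrank_VI_add {n : ℕ} {A : κ[X][X]} {B : Fin (n + 1) → κ[X][X]} {s t : M}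
    (hψ : ∀ G : κ[X][X], ev (algebraMap κ M) s t G = 0 ↔ A ∣ G) {ω : M} (hω : ω ≠ 0)
    {γ : Fin (n + 1) → M} (hγ : ∀ j, ev (algebraMap κ M) s t (B j) = ω * γ j) (e : ℕ) :
    finrank κ (VI A B e) + finrank κ ↥(Submodule.span κ (Set.range γ) ^ e) =
      Fintype.card (EX (n + 1) e) := by
  classical
  obtain ⟨F, hF, hFe⟩ := finrank_vanish (κ := κ) γ e
  have h1 : VI A B e = F := by
    ext v
    rw [hF, show v ∈ VI A B e ↔ A ∣ ∑ K : EX (n + 1) e, C (C (v K)) * ∏ j, B j ^ K.1 j from Iff.rfl,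
      ← hψ, map_sum]
    have h2 : ∑ K : EX (n + 1) e, ev (algebraMap κ M) s t (C (C (v K)) * ∏ j, B j ^ K.1 j) =
        ω ^ e * ∑ I, algebraMap κ M (v I) * mon γ I.1 := by
      rw [Finset.mul_sum]
      refine Finset.sum_congr rfl fun K _ => ?_
      rw [map_mul, ev_C_C, map_prod]
      have h3 : ∏ j, ev (algebraMap κ M) s t (B j ^ K.1 j) = ω ^ e * mon γ K.1 := by
        unfold mon
        have h4 : (∑ j, K.1 j) = e := by
          have h5 := mem_expo.1 K.2
          rwa [Finsupp.degree_eq_sum] at h5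
        have h6 : ω ^ e = ∏ j, ω ^ K.1 j := by rw [Finset.prod_pow_eq_pow_sum, h4]
        rw [h6, ← Finset.prod_mul_distrib]
        refine Finset.prod_congr rfl fun j _ => ?_
        rw [map_pow, hγ, mul_pow]
      rw [h3]
      ring
    rw [h2]
    constructor
    · intro h
      exact (mul_eq_zero.1 h).resolve_left (pow_ne_zero _ hω)
    · intro h
      rw [h, mul_zero]
  rw [h1, hFe, Fintype.card_coe]

/-- **The tuples of forms which vanish on the curve.** -/
theorem finrank_IId {L : Type*} [Field L] {n p : ℕ} (A : L[X][X]) (B : Fin n → L[X][X])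
    (d : Fin p → ℕ) : finrank L (IId A B d) = ∑ j, finrank L (VI A B (d j)) := by
  classical
  let f : IId A B d ≃ₗ[L] (∀ j, VI A B (d j)) :=
    { toFun := fun F j => ⟨fun K => F.1 ⟨j, K⟩, mem_IId.1 F.2 j⟩
      invFun := fun g => ⟨fun s => (g s.1).1 s.2, mem_IId.2 fun j => (g j).2⟩
      left_inv := fun F => rfl
      right_inv := fun g => rfl
      map_add' := fun F G => rfl
      map_smul' := fun c F => rfl }
  rw [f.finrank_eq, Module.finrank_pi_fintype]

theorem nab_eq_vf {L : Type*} [Field L] (A : L[X][X]) (D : Derivation ℤ L L) (P : L[X][X]) :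
    nab A D P = vf A (cE D) P := by
  have h : ∀ G : L[X][X], cqd D G = cE D G := by
    intro G
    ext i j
    rw [cqd_coeff]
    rfl
  rw [nab_apply, vf_apply, h, h]

/-- the value of `wr` on the curve -/
theorem ev_wr {A : κ[X][X]} {s t : M} (hA : ev (algebraMap κ M) s t A = 0) {D₀ : Derivation ℤ κ κ}
    {D : Derivation ℤ M M} (hD : ∀ u : κ, D (algebraMap κ M u) = algebraMap κ M (D₀ u))
    (hs : D s = 0) {P : κ[X][X]} {g : M}
    (hg : ev (algebraMap κ M) s t P = ev (algebraMap κ M) s t (derivative A) * g) :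
    ev (algebraMap κ M) s t (wr A D₀ P) = ev (algebraMap κ M) s t (derivative A) ^ 3 * D g := by
  have h1 : ∀ G, ev (algebraMap κ M) s t (nab A D₀ G) =
      ev (algebraMap κ M) s t (derivative A) * D (ev (algebraMap κ M) s t G) := by
    intro G
    rw [nab_eq_vf, ev_vf (algebraMap κ M) D₀ D hD hA G, hs, zero_mul, add_zero]
  unfold wr
  rw [map_sub, map_mul, map_mul, h1, h1, hg, Derivation.leibniz, smul_eq_mul, smul_eq_mul]
  ring

/-- **The deformations which do not move the curve.** -/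
theorem mem_ZF_iff {n : ℕ} {T : Type*} [Fintype T] {A : κ[X][X]} {B : Fin n → κ[X][X]} {s t : M}
    (hψ : ∀ G : κ[X][X], ev (algebraMap κ M) s t G = 0 ↔ A ∣ G)
    (hω : ev (algebraMap κ M) s t (derivative A) ≠ 0) {γ : Fin n → M}
    (hγ : ∀ j, ev (algebraMap κ M) s t (B j) = ev (algebraMap κ M) s t (derivative A) * γ j)
    {D₀ : T → Derivation ℤ κ κ} {D : T → Derivation ℤ M M}
    (hD : ∀ i, ∀ u : κ, D i (algebraMap κ M u) = algebraMap κ M (D₀ i u))
    (hs : ∀ i, D i s = 0) {F : T → κ} :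
    F ∈ ZF A B D₀ ↔ ∀ j, Dc D F (γ j) = 0 := by
  rw [mem_ZF]
  refine forall_congr' fun j => ?_
  rw [← hψ, wr_dF, map_sum]
  have h2 : ∑ i, ev (algebraMap κ M) s t (C (C (F i)) * wr A (D₀ i) (B j)) =
      ev (algebraMap κ M) s t (derivative A) ^ 3 * Dc D F (γ j) := by
    rw [Dc_apply, Finset.mul_sum]
    refine Finset.sum_congr rfl fun i _ => ?_
    rw [map_mul, ev_C_C, ev_wr ((hψ A).2 dvd_rfl) (hD i) (hs i) (hγ j)]
    ring
  rw [h2]
  constructor
  · intro h
    exact (mul_eq_zero.1 h).resolve_left (pow_ne_zero _ hω)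
  · intro h
    rw [h, mul_zero]

end dict

/-- Three independent vectors and some of the unit vectors form a basis. -/
theorem exists_coords {κ : Type*} [Field κ] {R : ℕ} {ξ : Fin 3 → Fin (R + 3) → κ}
    (hξ : LinearIndependent κ ξ) :
    ∃ u : Fin (R + 3) → Fin (R + 3) → κ, u 0 = ξ 0 ∧ u 1 = ξ 1 ∧ u 2 = ξ 2 ∧
      (∀ i, u i ∈ Set.range ξ ∪ Set.range (fun k : Fin (R + 3) => Pi.single k (1 : κ))) ∧
      Submodule.span κ (Set.range u) = ⊤ := by
  classical
  set t : Set (Fin (R + 3) → κ) :=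
    Set.range ξ ∪ Set.range (fun k : Fin (R + 3) => Pi.single k (1 : κ)) with ht
  have hs : LinearIndepOn κ id (Set.range ξ) := hξ.linearIndepOn_id
  have hst : Set.range ξ ⊆ t := Set.subset_union_left
  set b := hs.extend hst with hb
  have hbt : b ⊆ t := hs.extend_subset hst
  have hsb : Set.range ξ ⊆ b := hs.subset_extend hst
  have hli : LinearIndepOn κ id b := hs.linearIndepOn_extend hst
  have hspan : Submodule.span κ b = ⊤ := by
    rw [eq_top_iff]
    have h1 : t ⊆ Submodule.span κ b := hs.subset_span_extend hst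
    have h2 : Submodule.span κ (Set.range fun k : Fin (R + 3) => Pi.single k (1 : κ)) = ⊤ := by
      have h3 := (Pi.basisFun κ (Fin (R + 3))).span_eq
      rw [← h3]
      congr 1
      ext x
      simp only [Set.mem_range, Pi.basisFun_apply]
    rw [← h2, Submodule.span_le]
    exact (Set.subset_union_right.trans h1)
  have hbc : Nat.card b = R + 3 := by
    let β : Basis b κ (Fin (R + 3) → κ) := Basis.mk (v := ((↑) : b → Fin (R + 3) → κ)) hli (by
      rw [Subtype.range_coe, hspan])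
    have h1 := Module.finrank_eq_nat_card_basis β
    rw [Module.finrank_fin_fun] at h1
    exact h1.symm
  have hbf : Finite b := Nat.finite_of_card_ne_zero (by omega)
  have hcard : Nat.card ↥(b \ Set.range ξ) = R := by
    have h1 : (b \ Set.range ξ).ncard = b.ncard - (Set.range ξ).ncard :=
      Set.ncard_sdiff hsb (Set.finite_range ξ)
    have h2 : (Set.range ξ).ncard = 3 := by
      rw [← Set.image_univ, Set.ncard_image_of_injective _ hξ.injective, Set.ncard_univ,
        Nat.card_eq_fintype_card, Fintype.card_fin]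
    have h3 : b.ncard = R + 3 := hbc
    have h4 : (b \ Set.range ξ).ncard = R := by omega
    exact h4
  have hfin2 : Finite ↥(b \ Set.range ξ) := (Set.toFinite b).subset Set.sdiff_subset
  obtain ⟨e⟩ : Nonempty (↥(b \ Set.range ξ) ≃ Fin R) := ⟨Finite.equivFinOfCardEq hcard⟩
  let u : Fin (R + 3) → Fin (R + 3) → κ := fun i =>
    if h : i.1 < 3 then ξ ⟨i.1, h⟩ else (e.symm ⟨i.1 - 3, by omega⟩).1
  have hu3 : ∀ k : Fin 3, ∀ h : k.1 < R + 3, u ⟨k.1, h⟩ = ξ k := fun k h => dif_pos k.2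
  have hub : b ⊆ Set.range u := by
    intro x hx
    by_cases h1 : x ∈ Set.range ξ
    · obtain ⟨k, rfl⟩ := h1
      exact ⟨⟨k.1, by omega⟩, hu3 k _⟩
    · refine ⟨⟨(e ⟨x, hx, h1⟩).1 + 3, by omega⟩, ?_⟩
      have h2 : ¬ ((e ⟨x, hx, h1⟩).1 + 3 < 3) := by omega
      show (if h : (e ⟨x, hx, h1⟩).1 + 3 < 3 then ξ ⟨_, h⟩ else
        (e.symm ⟨(e ⟨x, hx, h1⟩).1 + 3 - 3, _⟩).1) = x
      rw [dif_neg h2]
      have h3 : (⟨(e ⟨x, hx, h1⟩).1 + 3 - 3, by omega⟩ : Fin R) = e ⟨x, hx, h1⟩ :=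
        Fin.ext (Nat.add_sub_cancel _ _)
      rw [h3, Equiv.symm_apply_apply]
  refine ⟨u, hu3 0 (by omega), ?_, ?_, ?_, ?_⟩
  · have h1 : (1 : Fin (R + 3)) = ⟨(1 : Fin 3).1, by simp⟩ := by
      apply Fin.ext
      show 1 % (R + 3) = 1
      exact Nat.mod_eq_of_lt (by omega)
    rw [h1]
    exact hu3 1 _
  · have h1 : (2 : Fin (R + 3)) = ⟨(2 : Fin 3).1, by simp⟩ := by
      apply Fin.ext
      show 2 % (R + 3) = 2
      exact Nat.mod_eq_of_lt (by omega)
    rw [h1]
    exact hu3 2 _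
  · intro i
    by_cases h : i.1 < 3
    · left
      exact ⟨⟨i.1, h⟩, (hu3 ⟨i.1, h⟩ i.2).symm⟩
    · have h2 : u i = (e.symm ⟨i.1 - 3, by omega⟩).1 := dif_neg h
      rw [h2]
      exact hbt (e.symm ⟨i.1 - 3, by omega⟩).2.1
  · rw [eq_top_iff, ← hspan]
    exact Submodule.span_mono hub

section count

variable {κ M : Type*} [Field κ] [IsAlgClosed κ] [CharZero κ] [Field M] [Algebra κ M]

omit [IsAlgClosed κ] [CharZero κ] in
/-- the coordinates `1, X, Y, ...` of the curve -/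
private theorem cb_coords {A : κ[X][X]} (hA : 2 ≤ A.natDegree) {R : ℕ} {X' Y : M}
    (hψ : ∀ G : κ[X][X], ev (algebraMap κ M) X' Y G = 0 ↔ A ∣ G) {γ : Fin (R + 3) → M}
    {ξ : Fin 3 → Fin (R + 3) → κ}
    (h0 : ∑ j, algebraMap κ M (ξ 0 j) * γ j = 1) (h1 : ∑ j, algebraMap κ M (ξ 1 j) * γ j = X')
    (h2 : ∑ j, algebraMap κ M (ξ 2 j) * γ j = Y) :
    LinearIndependent κ ξ := by
  rw [Fintype.linearIndependent_iff]
  intro c hc
  have h3 : ev (algebraMap κ M) X' Y (C (C (c 0) + C (c 1) * X) + C (C (c 2)) * X) = 0 := by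
    rw [C_add, C_mul, map_add, map_add, map_mul, map_mul, ev_C_C, ev_C_C, ev_C_C, ev_C_X, ev_X,
      ← h1, ← h2]
    have h4 : algebraMap κ M (c 0) = algebraMap κ M (c 0) * ∑ j, algebraMap κ M (ξ 0 j) * γ j := by
      rw [h0, mul_one]
    rw [h4, Finset.mul_sum, Finset.mul_sum, Finset.mul_sum, ← Finset.sum_add_distrib,
      ← Finset.sum_add_distrib]
    refine Finset.sum_eq_zero fun j _ => ?_
    have h5 := congrArg (algebraMap κ M) (congrFun hc j)
    rw [Fin.sum_univ_three, Pi.add_apply, Pi.add_apply, Pi.smul_apply, Pi.smul_apply,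
      Pi.smul_apply, smul_eq_mul, smul_eq_mul, smul_eq_mul, map_add, map_add, map_mul, map_mul,
      map_mul, Pi.zero_apply, map_zero] at h5
    linear_combination γ j * h5
  have h4 : (C (C (c 0) + C (c 1) * X) + C (C (c 2)) * X : κ[X][X]) = 0 := by
    refine Polynomial.eq_zero_of_dvd_of_natDegree_lt ((hψ _).1 h3) ?_
    refine lt_of_le_of_lt ?_ (show 1 < A.natDegree from hA)
    compute_degree
  have h5 : c 2 = 0 := by
    have h6 := congrArg (fun q : κ[X][X] => (q.coeff 1).coeff 0) h4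
    simpa [coeff_C] using h6
  have h6 : c 0 = 0 := by
    have h6 := congrArg (fun q : κ[X][X] => (q.coeff 0).coeff 0) h4
    simpa [coeff_C] using h6
  have h7 : c 1 = 0 := by
    have h6 := congrArg (fun q : κ[X][X] => (q.coeff 0).coeff 1) h4
    simpa [coeff_C] using h6
  intro i
  fin_cases i
  · exact h6
  · exact h7
  · exact h5

omit [IsAlgClosed κ] in
/-- the coordinates `1, X, Y, ...` of the curve and the derivations of its function field -/
private theorem cb_setup (hM : IsFF κ M) {A : κ[X][X]} (hA : 2 ≤ A.natDegree) {R : ℕ}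
    {B : Fin (R + 3) → κ[X][X]} {X' Y : M}
    (hψ : ∀ G : κ[X][X], ev (algebraMap κ M) X' Y G = 0 ↔ A ∣ G) (hX : Transcendental κ X')
    {γ : Fin (R + 3) → M}
    (hγ : ∀ j, ev (algebraMap κ M) X' Y (B j) = ev (algebraMap κ M) X' Y (derivative A) * γ j)
    {ξ : Fin 3 → Fin (R + 3) → κ}
    (h0 : ∑ j, algebraMap κ M (ξ 0 j) * γ j = 1) (h1 : ∑ j, algebraMap κ M (ξ 1 j) * γ j = X')
    (h2 : ∑ j, algebraMap κ M (ξ 2 j) * γ j = Y)
    {T : Type*} [Fintype T] {D : T → Derivation ℤ κ κ} (hDξ : ∀ t i j, D t (ξ i j) = 0) :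
    ∃ (z : Fin (R + 3) → M) (Dh : T → Derivation ℤ M M),
      (∀ l, z l ∈ Submodule.span κ (Set.range γ)) ∧
      (∀ j, γ j ∈ Submodule.span κ (Set.range z)) ∧ z 0 = 1 ∧ z 1 = X' ∧ z 2 = Y ∧
      (∀ t, ∀ u : κ, Dh t (algebraMap κ M u) = algebraMap κ M (D t u)) ∧ (∀ t, Dh t X' = 0) ∧
      killS κ Dh z = ZF A B D := by
  classical
  obtain ⟨u, hu0, hu1, hu2, hut, hu⟩ := exists_coords (cb_coords hA hψ h0 h1 h2)
  have hfd : FiniteDimensional (IntermediateField.adjoin κ {X'}) M := finite_over_adjoin hM hX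
  have halg : Algebra.IsAlgebraic (IntermediateField.adjoin κ {X'}) M := inferInstance
  choose Dh hDh hDhX using fun t => exists_der_ext hX halg (D t) 0
  have hω : ev (algebraMap κ M) X' Y (derivative A) ≠ 0 := by
    intro h
    have h3 := (hψ _).1 h
    have h4 : derivative A ≠ 0 := by
      intro h5
      have h6 := derivative_eq_zero.1 h5
      omega
    exact absurd (natDegree_le_of_dvd h3 h4) (not_le.2 (natDegree_derivative_lt (by omega)))
  -- the unit vectors
  have hunit : ∀ j : Fin (R + 3), ∃ c : Fin (R + 3) → κ,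
      ∀ k, ∑ i, c i * u i k = if k = j then 1 else 0 := by
    intro j
    have h3 : (Pi.single j (1 : κ) : Fin (R + 3) → κ) ∈ Submodule.span κ (Set.range u) := by
      rw [hu]
      exact Submodule.mem_top
    obtain ⟨c, hc⟩ := (Submodule.mem_span_range_iff_exists_fun κ).1 h3
    refine ⟨c, fun k => ?_⟩
    have h4 := congrFun hc k
    rw [Finset.sum_apply] at h4
    simp only [Pi.smul_apply, smul_eq_mul] at h4
    rw [h4, Pi.single_apply]
  have hDu : ∀ t i j, D t (u i j) = 0 := by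
    intro t i j
    rcases hut i with ⟨k, hk⟩ | ⟨k, hk⟩
    · rw [← hk]
      exact hDξ t k j
    · rw [← hk]
      simp only [Pi.single_apply]
      split_ifs
      · exact Derivation.map_one_eq_zero _
      · exact map_zero _
  have hexp : ∀ (ν : Fin (R + 3) → M) (j : Fin (R + 3)) (c : Fin (R + 3) → κ),
      (∀ k, ∑ i, c i * u i k = if k = j then 1 else 0) →
      ν j = ∑ i, algebraMap κ M (c i) * ∑ k, algebraMap κ M (u i k) * ν k := by
    intro ν j c hc
    simp only [Finset.mul_sum]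
    rw [Finset.sum_comm]
    have h4 : ∀ k, ∑ i, algebraMap κ M (c i) * (algebraMap κ M (u i k) * ν k) =
        (if k = j then 1 else 0) * ν k := by
      intro k
      have h5 := congrArg (algebraMap κ M) (hc k)
      rw [map_sum] at h5
      have h6 : algebraMap κ M (if k = j then 1 else 0) = if k = j then 1 else 0 := by
        split_ifs
        · exact map_one _
        · exact map_zero _
      rw [← h6, ← h5, Finset.sum_mul]
      refine Finset.sum_congr rfl fun i _ => ?_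
      rw [map_mul, mul_assoc]
    rw [Finset.sum_congr rfl fun k _ => h4 k]
    simp
  refine ⟨fun i => ∑ j, algebraMap κ M (u i j) * γ j, Dh, ?_, ?_, ?_, ?_, ?_, hDh, hDhX, ?_⟩
  · intro l
    refine Submodule.sum_mem _ fun j _ => ?_
    rw [← Algebra.smul_def]
    exact Submodule.smul_mem _ _ (Submodule.subset_span ⟨j, rfl⟩)
  · intro j
    obtain ⟨c, hc⟩ := hunit j
    rw [hexp γ j c hc]
    refine Submodule.sum_mem _ fun i _ => ?_
    rw [← Algebra.smul_def]
    exact Submodule.smul_mem _ _ (Submodule.subset_span ⟨i, rfl⟩)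
  · simp only [hu0]
    exact h0
  · simp only [hu1]
    exact h1
  · simp only [hu2]
    exact h2
  · ext F
    rw [mem_killS, mem_ZF_iff hψ hω hγ hDh hDhX]
    have h3 : ∀ l, Dc Dh F (∑ j, algebraMap κ M (u l j) * γ j) =
        ∑ j, algebraMap κ M (u l j) * Dc Dh F (γ j) := by
      intro l
      rw [map_sum]
      refine Finset.sum_congr rfl fun j _ => ?_
      have h4 : Dc Dh F (algebraMap κ M (u l j)) = 0 := by
        rw [Dc_apply]
        refine Finset.sum_eq_zero fun t _ => ?_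
        rw [hDh, hDu, map_zero, mul_zero]
      rw [Derivation.leibniz, h4, smul_zero, add_zero, smul_eq_mul]
    constructor
    · intro h j
      obtain ⟨c, hc⟩ := hunit j
      rw [hexp (fun j => Dc Dh F (γ j)) j c hc]
      refine Finset.sum_eq_zero fun i _ => ?_
      rw [← h3, h i, mul_zero]
    · intro h l
      rw [h3]
      exact Finset.sum_eq_zero fun j _ => by rw [h j, mul_zero]

/-- **The codimension of `ZF`** (`w ≤ P` of section 2). -/
theorem card_le_ZF (hM : IsFF κ M) {A : κ[X][X]} (hA : 2 ≤ A.natDegree) {R : ℕ}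
    {B : Fin (R + 3) → κ[X][X]} {X' Y : M}
    (hψ : ∀ G : κ[X][X], ev (algebraMap κ M) X' Y G = 0 ↔ A ∣ G) (hX : Transcendental κ X')
    (hgen : IntermediateField.adjoin κ {X', Y} = ⊤) {γ : Fin (R + 3) → M}
    (hγ : ∀ j, ev (algebraMap κ M) X' Y (B j) = ev (algebraMap κ M) X' Y (derivative A) * γ j)
    (hmax : ∀ w : Place κ M, vmax w.1 γ ≤ max 1 (w.1 X'))
    {ξ : Fin 3 → Fin (R + 3) → κ}
    (h0 : ∑ j, algebraMap κ M (ξ 0 j) * γ j = 1) (h1 : ∑ j, algebraMap κ M (ξ 1 j) * γ j = X')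
    (h2 : ∑ j, algebraMap κ M (ξ 2 j) * γ j = Y)
    {T : Type*} [Fintype T] {D : T → Derivation ℤ κ κ} (hDξ : ∀ t i j, D t (ξ i j) = 0)
    {N i b' : ℕ} (hN : N + 1 ≤ finrank κ (Submodule.span κ (Set.range γ)))
    (hb : height κ ![1, X'] ≤ b') (hi : 2 ^ i * b' ≤ 3 ^ i * N) (hN2 : 2 ≤ N) :
    ∃ m : ℕ, height κ ![1, X'] = m ∧ N ≤ m ∧
      Fintype.card T ≤ finrank κ (ZF A B D) + (R * (m + 1) + (m + 2 * (2 ^ i * m) + 1)) := by
  obtain ⟨z, Dh, hz, hγz, hz0, hz1, hz2, hDh, hDhX, hk⟩ := cb_setup hM hA hψ hX hγ h0 h1 h2 hDξ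
  rw [← hk, ← hz1]
  exact card_le_killS hM (n := R + 2) hz hγz hz0 (hz1 ▸ hX) (hz1 ▸ hmax) (hz1 ▸ hz2 ▸ hgen) hDh
    (hz1 ▸ hDhX) hN (hz1 ▸ hb) hi hN2

/-- **(5.1), (5.2)** in terms of the spaces of polynomials. -/
theorem le_rr_of_ZF (hM : IsFF κ M) {A : κ[X][X]} (hA : 2 ≤ A.natDegree) {R : ℕ}
    {B : Fin (R + 3) → κ[X][X]} {X' Y : M}
    (hψ : ∀ G : κ[X][X], ev (algebraMap κ M) X' Y G = 0 ↔ A ∣ G) (hX : Transcendental κ X')
    (hgen : IntermediateField.adjoin κ {X', Y} = ⊤) {γ : Fin (R + 3) → M}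
    (hγ : ∀ j, ev (algebraMap κ M) X' Y (B j) = ev (algebraMap κ M) X' Y (derivative A) * γ j)
    (hmax : ∀ w : Place κ M, vmax w.1 γ ≤ max 1 (w.1 X'))
    {ξ : Fin 3 → Fin (R + 3) → κ}
    (h0 : ∑ j, algebraMap κ M (ξ 0 j) * γ j = 1) (h1 : ∑ j, algebraMap κ M (ξ 1 j) * γ j = X')
    (h2 : ∑ j, algebraMap κ M (ξ 2 j) * γ j = Y)
    {p : ℕ} {d : Fin p → ℕ} {D : (Σ j, EX (R + 3) (d j)) → Derivation ℤ κ κ}
    (hDξ : ∀ t i j, D t (ξ i j) = 0)
    {N i b' : ℕ} (hN : N + 1 ≤ finrank κ (Submodule.span κ (Set.range γ)))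
    (hb : height κ ![1, X'] ≤ b') (hi : 2 ^ i * b' ≤ 3 ^ i * N)
    (hd : R + 4 + p ≤ ∑ j, (d j + 1)) {r₁ C : ℕ}
    (hsum : finrank κ (ZF A B D) ≤ finrank κ (IId A B d) + r₁)
    (hr : (r₁ : ℤ) ≤ 3 * height κ ![1, X']) (hC : (p + 2) * 2 ^ i * b' ≤ C * R) :
    ∃ P : Place κ M →₀ ℤ, (∀ w : Place κ M, P w = max 0 (log (w.1 X'))) ∧
      height κ ![1, X'] ≤ finrank κ (rr P) + C ∧ (N : ℤ) ≤ height κ ![1, X'] ∧
      (2 * C + 2 < N → genus κ M ≤ C + 1) := by
  classical
  obtain ⟨z, Dh, hz, hγz, hz0, hz1, hz2, hDh, hDhX, hk⟩ := cb_setup hM hA hψ hX hγ h0 h1 h2 hDξ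
  have hω : ev (algebraMap κ M) X' Y (derivative A) ≠ 0 := by
    intro h
    have h3 := (hψ _).1 h
    have h4 : derivative A ≠ 0 := by
      intro h5
      have h6 := derivative_eq_zero.1 h5
      omega
    exact absurd (natDegree_le_of_dvd h3 h4) (not_le.2 (natDegree_derivative_lt (by omega)))
  have h5 : ∑ j, finrank κ ↥(Submodule.span κ (Set.range γ) ^ d j) + finrank κ (killS κ Dh z) ≤
      Fintype.card (Σ j, EX (R + 3) (d j)) + r₁ := by
    have h6 : finrank κ (IId A B d) +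
        ∑ j, finrank κ ↥(Submodule.span κ (Set.range γ) ^ d j) =
        Fintype.card (Σ j, EX (R + 3) (d j)) := by
      rw [finrank_IId, ← Finset.sum_add_distrib, Fintype.card_sigma]
      exact Finset.sum_congr rfl fun j _ => finrank_VI_add (n := R + 2) hψ hω hγ (d j)
    rw [hk]
    omega
  have key := le_rr_of_count hM (n := R + 2) hz hγz hz0 (hz1 ▸ hX) (hz1 ▸ hmax)
    (hz1 ▸ hz2 ▸ hgen) hDh (hz1 ▸ hDhX) hN (hz1 ▸ hb) hi (ι := Fin p) (d := d) (C := C)
    (by rw [Fintype.card_fin]; exact hd) h5 (hz1 ▸ hr) (by rw [Fintype.card_fin]; exact hC)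
  rw [hz1] at key
  exact key

end count

end Pool.Agent.Lib.MP_44a246_ntSH
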