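import Mathlib
import Pool.Agent.Lib.MP_44a246_ntSH.RW1
import Pool.Agent.Lib.MP_44a246_ntSH.PR01

/-!
SHARP PAIRS (paper 667): the height inequality for a map which is linear only modulo a subspace
(as the application of a derivation to the coefficients of a form).
-/

namespace Pool.Agent.Lib.MP_44a246_ntSH

open Pool.Agent.Lib.MP_44a246_nt
open Pool.Agent.Lib.MP_44a246_ntL
open Pool.Agent.Lib.MP_44a246_ntS
open Pool.Agent.Lib.MP_44a246_ntO
open WithZero Module

/-- a basis of a space which is reduced at a place -/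
theorem red_basis {L : Type*} [Field L] (v : Valuation L ℤᵐ⁰) {ι : Type*} [Fintype ι]
    (V : Submodule L (ι → L)) :
    ∃ (a : Fin (finrank L V) → ι → L) (q : Fin (finrank L V) → ι), (∀ i, a i ∈ V) ∧
      (∀ i k, v (a i k) ≤ 1) ∧ ∀ y ∈ V, y = ∑ i, y (q i) • a i := by
  classical
  obtain ⟨h1, h2⟩ := finBasis_val V
  obtain ⟨g, q, hg, hR⟩ := exists_red v h1
  have h3 := (VFSharp.span_change (a := fun i k => (Module.finBasis L V i : ι → L) k) hg).trans h2
  refine ⟨_, q, fun i => ?_, hR.int, fun y hy => ?_⟩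
  · exact h3.le (Submodule.subset_span ⟨i, rfl⟩)
  · replace hy := h3.ge hy
    obtain ⟨c, hc⟩ := (Submodule.mem_span_range_iff_exists_fun L).1 hy
    rw [← hc]
    refine Finset.sum_congr rfl fun i _ => ?_
    congr 1
    rw [Finset.sum_apply, Finset.sum_eq_single i]
    · rw [Pi.smul_apply, hR.piv, if_pos rfl, smul_eq_mul, mul_one]
    · intro j _ hj
      rw [Pi.smul_apply, hR.piv, if_neg hj, smul_eq_mul, mul_zero]
    · intro h0
      exact absurd (Finset.mem_univ i) h0

section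

variable {L : Type*} [Field L] {ι ι' ρ : Type*} [Fintype ι] [Fintype ι'] [Fintype ρ]
  [DecidableEq ι]

/-- the matrix of the map `y ↦ ∑ i, y (q i) • s i` -/
def pmat (q : ρ → ι) (s : ρ → ι' → L) : Matrix ι' ι L :=
  Matrix.of fun k m => ∑ i, if q i = m then s i k else 0

theorem pmat_mulVec (q : ρ → ι) (s : ρ → ι' → L) (y : ι → L) :
    (pmat q s).mulVec y = ∑ i, y (q i) • s i := by
  funext k
  rw [Finset.sum_apply]
  unfold Matrix.mulVec dotProduct pmat
  simp only [Matrix.of_apply, Finset.sum_mul]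
  rw [Finset.sum_comm]
  refine Finset.sum_congr rfl fun i _ => ?_
  rw [Finset.sum_eq_single (q i)]
  · rw [if_pos rfl, Pi.smul_apply, smul_eq_mul, mul_comm]
  · intro m _ hm
    rw [if_neg (Ne.symm hm), zero_mul]
  · intro h0
    exact absurd (Finset.mem_univ _) h0

theorem pmat_le (v : Valuation L ℤᵐ⁰) {q : ρ → ι} {s : ρ → ι' → L} {r : ℤᵐ⁰}
    (hs : ∀ i k, v (s i k) ≤ r) (k : ι') (m : ι) : v (pmat q s k m) ≤ r := by
  unfold pmat
  rw [Matrix.of_apply]
  refine Valuation.map_sum_le v fun i _ => ?_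
  split_ifs
  · exact hs i k
  · rw [map_zero]
    exact zero_le

/-- a map which is linear modulo `A'` -/
structure SemiLin (B : Submodule L (ι → L)) (A' : Submodule L (ι' → L))
    (S : (ι → L) → (ι' → L)) : Prop where
  zero : S 0 ∈ A'
  add : ∀ x ∈ B, ∀ y ∈ B, S (x + y) - (S x + S y) ∈ A'
  smul : ∀ (c : L), ∀ x ∈ B, S (c • x) - c • S x ∈ A'

omit [DecidableEq ι] [Fintype ι] [Fintype ι'] in
theorem SemiLin.sum {B : Submodule L (ι → L)} {A' : Submodule L (ι' → L)}
    {S : (ι → L) → (ι' → L)} (hS : SemiLin B A' S) {a : ρ → ι → L} (ha : ∀ i, a i ∈ B)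
    (c : ρ → L) : S (∑ i, c i • a i) - ∑ i, c i • S (a i) ∈ A' := by
  classical
  have h : ∀ U : Finset ρ, S (∑ i ∈ U, c i • a i) - ∑ i ∈ U, c i • S (a i) ∈ A' := by
    intro U
    induction U using Finset.induction_on with
    | empty => simpa using hS.zero
    | insert i U hi ih =>
      rw [Finset.sum_insert hi, Finset.sum_insert hi]
      have h1 := hS.add (c i • a i) (B.smul_mem _ (ha i)) (∑ i ∈ U, c i • a i)
        (Submodule.sum_mem _ fun j _ => B.smul_mem _ (ha j))
      have h2 := hS.smul (c i) (a i) (ha i)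
      have h3 := A'.add_mem (A'.add_mem h1 h2) ih
      convert h3 using 1
      abel
  exact h _

end

variable {κ L : Type*} [Field κ] [IsAlgClosed κ] [CharZero κ] [Field L] [Algebra κ L]
  {ι ι' : Type*} [Fintype ι] [Fintype ι']

/-- **the height inequality for a map which is linear modulo a subspace** -/
theorem ht_semi (h : IsFF κ L) {A B : Submodule L (ι → L)} {A' : Submodule L (ι' → L)}
    {S : (ι → L) → (ι' → L)} (hS : SemiLin B A' S) (Sw : Place κ L → (ι → L) → (ι' → L))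
    {τ : Place κ L → ℤ} (hτ : (Function.support τ).Finite)
    (hSw : ∀ w, ∀ b ∈ B, Sw w b - S b ∈ A')
    (hSb : ∀ (w : Place κ L) (b : ι → L), (∀ k, w.1 (b k) ≤ 1) →
      ∀ k, w.1 (Sw w b k) ≤ exp (τ w))
    (hAB : A ≤ B) (hA : ∀ a ∈ A, S a ∈ A') (hinj : ∀ b ∈ B, S b ∈ A' → b ∈ A) :
    0 ≤ ht κ B + ht κ A' + (∑ᶠ w, τ w) * ((finrank L B : ℤ) - finrank L A) := by
  classical
  obtain ⟨P⟩ := Pool.Agent.Lib.MP_44a246_ntR.exists_place h
  obtain ⟨a, q, ha, -, hy⟩ := red_basis P.1 B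
  obtain ⟨T, hT⟩ : ∃ T : (ι → L) →ₗ[L] (ι' → L), ∀ y, T y = ∑ i, y (q i) • S (a i) :=
    ⟨(pmat q fun i => S (a i)).mulVecLin, fun y => by
      rw [Matrix.mulVecLin_apply, pmat_mulVec]⟩
  have hTS : ∀ b ∈ B, T b - S b ∈ A' := by
    intro b hb
    have h1 := hS.sum ha fun i => b (q i)
    rw [← hy b hb, ← hT b] at h1
    rw [← neg_sub]
    exact A'.neg_mem h1
  choose aw qw haw hawi hyw using fun w : Place κ L => red_basis w.1 B
  have hmain := ht_mapw_mod h T (fun w => pmat (qw w) fun i => Sw w (aw w i)) hτ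
    (fun w k m => pmat_le w.1 (fun i k => hSb w _ (hawi w i) k) k m) (A := A) (B := B) (A' := A')
    (fun w b hb => ?_) hAB ?_ ?_
  · have h1 := ht_nonneg h A
    have h2 := ht_nonneg h (A' ⊔ B.map T)
    linarith
  · have h1 : S b - ∑ i, b (qw w i) • S (aw w i) ∈ A' := by
      have h2 := hS.sum (haw w) fun i => b (qw w i)
      rw [← hyw w b hb] at h2
      exact h2
    have h3 : ∑ i, b (qw w i) • (Sw w (aw w i) - S (aw w i)) ∈ A' :=
      Submodule.sum_mem _ fun i _ => A'.smul_mem _ (hSw w _ (haw w i))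
    have h4 := hTS b hb
    rw [pmat_mulVec]
    have h5 := A'.sub_mem (A'.sub_mem h3 h1) h4
    convert h5 using 1
    simp only [smul_sub, Finset.sum_sub_distrib]
    abel
  · rintro _ ⟨x, hx, rfl⟩
    have h1 := A'.add_mem (hTS x (hAB hx)) (hA x hx)
    rwa [sub_add_cancel] at h1
  · intro b hb hTb
    refine hinj b hb ?_
    have h1 := A'.sub_mem hTb (hTS b hb)
    rwa [sub_sub_cancel] at h1

end Pool.Agent.Lib.MP_44a246_ntSH
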