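import Mathlib
import Pool.Agent.Lib.MP_44a246_ntSH.PR00
import Pool.Agent.Lib.MP_44a246_ntSH.PR03a

/-!
SHARP PAIRS (paper 667), section 2: the deformations which do not move the curve preserve the forms
which vanish on the curve; the height of the space of these deformations.
-/

namespace Pool.Agent.Lib.MP_44a246_ntSH

open Pool.Agent.Lib.MP_e52354_nt
open Pool.Agent.Lib.MP_44a246_nt
open Pool.Agent.Lib.MP_44a246_ntL
open Pool.Agent.Lib.MP_44a246_ntS
open Pool.Agent.Lib.MP_44a246_ntF
open Pool.Agent.Lib.MP_44a246_ntW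
open Pool.Agent.Lib.MP_44a246_ntR (genus)
open WithZero Polynomial Module

section algebra

variable {L : Type*} [Field L] {n e : ℕ}

/-- `P` moves as the `k`-th power of `A_Y`, modulo `A` -/
def LR (A : L[X][X]) (D : Derivation ℤ L L) (P : L[X][X]) (k : ℕ) : Prop :=
  A ∣ derivative A * nab A D P - (k : L[X][X]) * (P * nab A D (derivative A))

theorem LR_of_wr {A : L[X][X]} {D : Derivation ℤ L L} {P : L[X][X]} (h : A ∣ wr A D P) :
    LR A D P 1 := by
  unfold LR
  rw [Nat.cast_one, one_mul]
  exact h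

theorem LR_one (A : L[X][X]) (D : Derivation ℤ L L) : LR A D 1 0 := by
  unfold LR
  rw [Derivation.map_one_eq_zero]
  simp

theorem LR.mul {A : L[X][X]} {D : Derivation ℤ L L} {P Q : L[X][X]} {k l : ℕ}
    (hP : LR A D P k) (hQ : LR A D Q l) : LR A D (P * Q) (k + l) := by
  unfold LR at *
  have h : derivative A * nab A D (P * Q) -
      ((k + l : ℕ) : L[X][X]) * (P * Q * nab A D (derivative A)) =
      P * (derivative A * nab A D Q - (l : L[X][X]) * (Q * nab A D (derivative A))) +
      Q * (derivative A * nab A D P - (k : L[X][X]) * (P * nab A D (derivative A))) := by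
    rw [Derivation.leibniz, smul_eq_mul, smul_eq_mul, Nat.cast_add]
    ring
  rw [h]
  exact dvd_add (dvd_mul_of_dvd_right hQ _) (dvd_mul_of_dvd_right hP _)

theorem LR.pow {A : L[X][X]} {D : Derivation ℤ L L} {P : L[X][X]}
    (hP : LR A D P 1) (k : ℕ) : LR A D (P ^ k) k := by
  induction k with
  | zero =>
    rw [pow_zero]
    exact LR_one A D
  | succ k ih =>
    rw [pow_succ]
    exact ih.mul hP

theorem LR.prod {A : L[X][X]} {D : Derivation ℤ L L} {B : Fin n → L[X][X]}
    (hB : ∀ j, LR A D (B j) 1) (K : Fin n → ℕ) : LR A D (∏ j, B j ^ K j) (∑ j, K j) := by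
  classical
  have h : ∀ s : Finset (Fin n), LR A D (∏ j ∈ s, B j ^ K j) (∑ j ∈ s, K j) := by
    intro s
    induction s using Finset.induction_on with
    | empty =>
      rw [Finset.prod_empty, Finset.sum_empty]
      exact LR_one A D
    | insert a s ha ih =>
      rw [Finset.prod_insert ha, Finset.sum_insert ha]
      exact ((hB a).pow (K a)).mul ih
  exact h _

/-- the chain rule on the curve, for a form at the parametrisation -/
theorem nab_form {A : L[X][X]} {D : Derivation ℤ L L} {B : Fin n → L[X][X]}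
    (hB : ∀ j, A ∣ wr A D (B j)) (f : EX n e → L) :
    A ∣ derivative A * nab A D (MvPolynomial.aeval B (pf f)) -
      (e : L[X][X]) * (MvPolynomial.aeval B (pf f) * nab A D (derivative A)) -
      derivative A ^ 2 * MvPolynomial.aeval B (pf fun K => D (f K)) := by
  rw [aeval_pf, aeval_pf, map_sum, Finset.mul_sum, Finset.sum_mul, Finset.mul_sum,
    ← Finset.sum_sub_distrib, Finset.mul_sum, ← Finset.sum_sub_distrib]
  refine Finset.dvd_sum fun K _ => ?_
  have hdeg : ∑ j, K.1 j = e := by
    have := mem_expo.1 K.2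
    rwa [Finsupp.degree_eq_sum] at this
  have h1 := LR.prod (fun j => LR_of_wr (hB j)) (fun j => K.1 j)
  rw [hdeg] at h1
  unfold LR at h1
  rw [Derivation.leibniz, smul_eq_mul, smul_eq_mul, nab_CC]
  have h2 : derivative A * (C (C (f K)) * nab A D (∏ j, B j ^ K.1 j) +
      (∏ j, B j ^ K.1 j) * (derivative A * C (C (D (f K))))) -
      (e : L[X][X]) * (C (C (f K)) * (∏ j, B j ^ K.1 j) * nab A D (derivative A)) -
      derivative A ^ 2 * (C (C (D (f K))) * ∏ j, B j ^ K.1 j) =
      C (C (f K)) * (derivative A * nab A D (∏ j, B j ^ K.1 j) -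
        (e : L[X][X]) * ((∏ j, B j ^ K.1 j) * nab A D (derivative A))) := by
    ring
  rw [h2]
  exact dvd_mul_of_dvd_right h1 _

/-- **The forms which vanish on the curve are preserved.** -/
theorem der_VI {A : L[X][X]} {D : Derivation ℤ L L} {B : Fin n → L[X][X]} (hA : Prime A)
    (hY : ¬ A ∣ derivative A) (hB : ∀ j, A ∣ wr A D (B j)) {f : EX n e → L}
    (hf : f ∈ VI A B e) : (fun K => D (f K)) ∈ VI A B e := by
  rw [mem_VI] at hf ⊢
  have h1 := nab_form hB f
  have h2 : A ∣ derivative A * nab A D (MvPolynomial.aeval B (pf f)) -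
      (e : L[X][X]) * (MvPolynomial.aeval B (pf f) * nab A D (derivative A)) :=
    dvd_sub (dvd_mul_of_dvd_right (dvd_nab D hf) _)
      (dvd_mul_of_dvd_right (dvd_mul_of_dvd_left hf _) _)
  have h3 := (dvd_sub_right h2).1 h1
  rcases hA.dvd_or_dvd h3 with h4 | h4
  · exact absurd (hA.dvd_of_dvd_pow h4) hY
  · exact h4

/-- multiplication of a form by a variable -/
noncomputable def mx (i : Fin n) (f : EX n e → L) : EX n (e + 1) → L :=
  fun J => (MvPolynomial.X i * pf f).coeff J.1

theorem D_ex (D : Derivation ℤ L L) (f : EX n e → L) (K : Fin n →₀ ℕ) :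
    D (ex f K) = ex (fun I => D (f I)) K := by
  unfold ex
  split_ifs
  · rfl
  · exact map_zero D

theorem D_mx (D : Derivation ℤ L L) (i : Fin n) (f : EX n e → L) (J : EX n (e + 1)) :
    D (mx i f J) = mx i (fun K => D (f K)) J := by
  classical
  unfold mx
  rw [MvPolynomial.coeff_X_mul', MvPolynomial.coeff_X_mul']
  split_ifs
  · rw [coeff_pf, coeff_pf, D_ex]
  · exact map_zero D

theorem pf_mx (i : Fin n) (f : EX n e → L) : pf (mx i f) = MvPolynomial.X i * pf f := by
  unfold mx
  apply pf_coeff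
  have h := (MvPolynomial.isHomogeneous_X L i).mul (pf_hom f)
  rwa [add_comm] at h

theorem pf_add (f g : EX n e → L) : pf (f + g) = pf f + pf g := by
  unfold pf
  rw [← Finset.sum_add_distrib]
  refine Finset.sum_congr rfl fun K _ => ?_
  rw [Pi.add_apply, map_add]

theorem pf_smul (c : L) (f : EX n e → L) : pf (c • f) = MvPolynomial.C c * pf f := by
  unfold pf
  rw [Finset.mul_sum]
  refine Finset.sum_congr rfl fun K _ => ?_
  rw [Pi.smul_apply, smul_eq_mul, MvPolynomial.C_mul_monomial]

theorem pf_zero : pf (0 : EX n e → L) = 0 := by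
  unfold pf
  refine Finset.sum_eq_zero fun K _ => ?_
  rw [Pi.zero_apply, map_zero]

theorem pf_sum {ρ : Type*} (s : Finset ρ) (f : ρ → EX n e → L) :
    pf (∑ i ∈ s, f i) = ∑ i ∈ s, pf (f i) := by
  classical
  induction s using Finset.induction_on with
  | empty => simpa using pf_zero
  | insert a s ha ih => rw [Finset.sum_insert ha, Finset.sum_insert ha, pf_add, ih]

/-- multiplication of a fixed form by linear forms -/
noncomputable def lm (f : EX n e → L) : (Fin n → L) →ₗ[L] (EX n (e + 1) → L) where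
  toFun y := ∑ i, y i • mx i f
  map_add' := by
    intro y z
    rw [← Finset.sum_add_distrib]
    exact Finset.sum_congr rfl fun i _ => by rw [Pi.add_apply, add_smul]
  map_smul' := by
    intro c y
    rw [RingHom.id_apply, Finset.smul_sum]
    exact Finset.sum_congr rfl fun i _ => by rw [Pi.smul_apply, smul_eq_mul, mul_smul]

theorem lm_apply (f : EX n e → L) (y : Fin n → L) : lm f y = ∑ i, y i • mx i f := rfl

theorem aeval_lm (B : Fin n → L[X][X]) (f : EX n e → L) (y : Fin n → L) :
    MvPolynomial.aeval B (pf (lm f y)) =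
      (∑ i, C (C (y i)) * B i) * MvPolynomial.aeval B (pf f) := by
  rw [lm_apply, pf_sum, map_sum, Finset.sum_mul]
  refine Finset.sum_congr rfl fun i _ => ?_
  rw [pf_smul, pf_mx, map_mul, map_mul, MvPolynomial.aeval_X, MvPolynomial.aeval_C, mul_assoc]
  rfl

theorem D_lm (D : Derivation ℤ L L) (f : EX n e → L) (y : Fin n → L) :
    (fun J => D (lm f y J)) = lm f (fun i => D (y i)) + lm (fun K => D (f K)) y := by
  funext J
  rw [Pi.add_apply, lm_apply, lm_apply, lm_apply, Finset.sum_apply, Finset.sum_apply,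
    Finset.sum_apply, map_sum, ← Finset.sum_add_distrib]
  refine Finset.sum_congr rfl fun i _ => ?_
  rw [Pi.smul_apply, Pi.smul_apply, Pi.smul_apply, smul_eq_mul, smul_eq_mul, smul_eq_mul,
    Derivation.leibniz, D_mx, smul_eq_mul, smul_eq_mul, add_comm, mul_comm (mx i f J)]

theorem lm_mem_VI {A : L[X][X]} {B : Fin n → L[X][X]} {f : EX n e → L} (hf : f ∈ VI A B e)
    (y : Fin n → L) : lm f y ∈ VI A B (e + 1) := by
  rw [mem_VI] at hf ⊢
  rw [aeval_lm]
  exact dvd_mul_of_dvd_right hf _

theorem lm_mem_VI_iff {A : L[X][X]} {B : Fin n → L[X][X]} (hA : Prime A) {f : EX n e → L}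
    (hf : f ∉ VI A B e) {y : Fin n → L} : lm f y ∈ VI A B (e + 1) ↔ y ∈ dvS A B := by
  rw [mem_VI] at hf ⊢
  rw [aeval_lm, mem_dvS]
  exact ⟨fun h => (hA.dvd_or_dvd h).resolve_right hf, fun h => dvd_mul_of_dvd_left h _⟩

end algebra

theorem finrank_map_mkQ {L E : Type*} [Field L] [AddCommGroup E] [Module L E]
    [FiniteDimensional L E] {A V : Submodule L E} (h : A ≤ V) :
    finrank L (V.map A.mkQ) + finrank L A = finrank L V := by
  have h1 := (A.mkQ.domRestrict V).finrank_range_add_finrank_ker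
  rw [LinearMap.range_domRestrict, LinearMap.ker_domRestrict, Submodule.ker_mkQ] at h1
  rw [← h1]
  congr 1
  exact (LinearEquiv.finrank_eq (Submodule.comapSubtypeEquivOfLe h)).symm

section height

variable {κ L : Type*} [Field κ] [IsAlgClosed κ] [CharZero κ] [Field L] [Algebra κ L]

/-- the deformation `F` moves the curve: the distances of `F` from `ZF` are bounded below -/
theorem dist_ZF_ge (h : IsFF κ L) {n e : ℕ} {T : Type*} [Fintype T] {D : T → Derivation ℤ L L}
    {δ : Place κ L → ℕ} (hδ : (Function.support δ).Finite) (hD : ∀ t, PoleBound κ (D t) δ)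
    {A : L[X][X]} {B : Fin n → L[X][X]} (hA : Prime A) (hY : ¬ A ∣ derivative A)
    {F : T → L} {f : EX n e → L} (hf : f ∈ VI A B e)
    (hf' : (fun K => dF D F (f K)) ∉ VI A B e) {ρ₀ : ℕ} (hρ : ρ₀ + finrank L (dvS A B) ≤ n)
    {g : Place κ L → ℤ} (hg : DistLE κ (ZF A B D) F g) :
    -(2 * ht κ (VI A B (e + 1)) + ρ₀ * ∑ᶠ w, (δ w : ℤ)) ≤ ρ₀ * ∑ᶠ w, g w := by
  classical
  obtain ⟨V, hV⟩ : ∃ V, V = VI A B (e + 1) := ⟨_, rfl⟩
  let S : (EX n (e + 1) → L) → (EX n (e + 1) → L) := fun b K => dF D F (b K)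
  have hSadd : ∀ x y, S (x + y) = S x + S y := by
    intro x y
    funext K
    exact map_add (dF D F) _ _
  have hSsmul : ∀ (c : L) x, S (c • x) = dF D F c • x + c • S x := by
    intro c x
    funext K
    change dF D F (c * x K) = _
    rw [Derivation.leibniz, smul_eq_mul, smul_eq_mul, Pi.add_apply, Pi.smul_apply, Pi.smul_apply,
      smul_eq_mul, smul_eq_mul, mul_comm (x K), add_comm]
  have hS0 : S 0 = 0 := by
    funext K
    exact map_zero (dF D F)
  have hSL : SemiLin V V S := by
    refine ⟨?_, fun x hx y hy => ?_, fun c x hx => ?_⟩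
    · rw [hS0]
      exact V.zero_mem
    · rw [hSadd, sub_self]
      exact V.zero_mem
    · rw [hSsmul, add_sub_cancel_right]
      exact V.smul_mem _ hx
  let B1 : Submodule L (EX n (e + 1) → L) :=
    { carrier := {b | b ∈ V ∧ S b ∈ V}
      add_mem' := by
        rintro a b ⟨h1, h2⟩ ⟨h3, h4⟩
        exact ⟨V.add_mem h1 h3, by rw [hSadd]; exact V.add_mem h2 h4⟩
      zero_mem' := ⟨V.zero_mem, by rw [hS0]; exact V.zero_mem⟩
      smul_mem' := by
        rintro c a ⟨h1, h2⟩
        exact ⟨V.smul_mem _ h1, by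
          rw [hSsmul]; exact V.add_mem (V.smul_mem _ h1) (V.smul_mem _ h2)⟩ }
  have hB1V : B1 ≤ V := fun b hb => hb.1
  choose u hu hub using hg.2
  have hmain := ht_semi h (A := B1) (B := V) (A' := V) hSL
    (fun w b K => dF D (u w) (b K)) (τ := fun w => g w + (δ w : ℤ)) ?_ ?_ ?_ hB1V
    (fun a ha => ha.2) (fun b hb hb' => ⟨hb, hb'⟩)
  · have hs1 : (Function.support fun w : Place κ L => (δ w : ℤ)).Finite := by
      refine hδ.subset fun w hw h0 => hw ?_
      simp only
      rw [h0, Nat.cast_zero]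
    rw [finsum_add_distrib hg.1 hs1] at hmain
    -- the rank
    have hrank : ρ₀ + finrank L B1 ≤ finrank L V := by
      have h1 := (B1.mkQ ∘ₗ lm f).finrank_range_add_finrank_ker
      have h2 : LinearMap.ker (B1.mkQ ∘ₗ lm f) = dvS A B := by
        ext y
        rw [LinearMap.mem_ker, LinearMap.comp_apply, Submodule.mkQ_apply,
          Submodule.Quotient.mk_eq_zero]
        have h3 : lm f y ∈ V := by
          rw [hV]
          exact lm_mem_VI hf y
        have h4 : S (lm f y) = lm f (fun i => dF D F (y i)) + lm (fun K => dF D F (f K)) y :=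
          D_lm (dF D F) f y
        have h5 : lm f (fun i => dF D F (y i)) ∈ V := by
          rw [hV]
          exact lm_mem_VI hf _
        rw [← lm_mem_VI_iff hA hf']
        constructor
        · rintro ⟨-, h6⟩
          rw [h4] at h6
          have h7 := V.sub_mem h6 h5
          rw [add_sub_cancel_left, hV] at h7
          exact h7
        · intro h6
          refine ⟨h3, ?_⟩
          rw [h4]
          refine V.add_mem h5 ?_
          rw [hV]
          exact h6
      have h3 : LinearMap.range (B1.mkQ ∘ₗ lm f) ≤ V.map B1.mkQ := by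
        rintro _ ⟨y, rfl⟩
        refine ⟨lm f y, ?_, rfl⟩
        rw [hV]
        exact lm_mem_VI hf y
      have h4 := finrank_map_mkQ hB1V
      have h5 := Submodule.finrank_mono h3
      rw [h2, Module.finrank_fintype_fun_eq_card, Fintype.card_fin] at h1
      omega
    obtain ⟨s, hs⟩ : ∃ s : ℤ, s = (∑ᶠ w, g w) + ∑ᶠ w, (δ w : ℤ) := ⟨_, rfl⟩
    rw [← hs] at hmain
    rw [← hV]
    have hV0 := ht_nonneg h V
    have hr : (ρ₀ : ℤ) ≤ (finrank L V : ℤ) - finrank L B1 := by
      have : ((ρ₀ + finrank L B1 : ℕ) : ℤ) ≤ finrank L V := by exact_mod_cast hrank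
      push_cast at this
      linarith
    have hρ0 : (0 : ℤ) ≤ ρ₀ := Int.natCast_nonneg _
    have hgoal : -(2 * ht κ V) ≤ ρ₀ * s := by
      rcases le_total 0 s with h0 | h0
      · have := mul_nonneg hρ0 h0
        linarith
      · have h1 : s * ((finrank L V : ℤ) - finrank L B1) ≤ s * ρ₀ :=
          mul_le_mul_of_nonpos_left hr h0
        linarith
    rw [hs] at hgoal
    linarith
  · refine (hg.1.union hδ).subset fun w hw => ?_
    by_contra h0
    rw [Set.mem_union, not_or, Function.mem_support, Function.mem_support, not_not, not_not] at h0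
    apply hw
    simp only
    rw [h0.1, h0.2, Nat.cast_zero, add_zero]
  · intro w b hb
    have h1 := der_VI hA hY (mem_ZF.1 (hu w)) (e := e + 1) (f := b) (by rwa [← hV])
    rw [← hV] at h1
    convert h1 using 1
    funext K
    change dF D (u w) (b K) - dF D F (b K) = dF D (u w - F) (b K)
    rw [dF_apply, dF_apply, dF_apply, ← Finset.sum_sub_distrib]
    refine Finset.sum_congr rfl fun t _ => ?_
    rw [Pi.sub_apply]
    ring
  · intro w b hb K
    change w.1 (dF D (u w) (b K)) ≤ _
    rw [dF_apply]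
    refine Valuation.map_sum_le _ fun t _ => ?_
    rw [map_mul, exp_add]
    exact mul_le_mul' (hub w t) (hD t w _ (hb K))

/-- **(2.1)** the height of the space of the deformations which do not move the curve -/
theorem ht_ZF_le (h : IsFF κ L) {n e : ℕ} {T : Type*} [Fintype T] {D : T → Derivation ℤ L L}
    {δ : Place κ L → ℕ} (hδ : (Function.support δ).Finite) (hD : ∀ t, PoleBound κ (D t) δ)
    {A : L[X][X]} {B : Fin n → L[X][X]} (hA : Prime A) (hY : ¬ A ∣ derivative A)
    (hcon : ∀ F : T → L, F ∉ ZF A B D → ∃ f ∈ VI A B e, (fun K => dF D F (f K)) ∉ VI A B e)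
    {ρ₀ : ℕ} (hρ : ρ₀ + finrank L (dvS A B) ≤ n) :
    (ρ₀ : ℤ) * ht κ (ZF A B D) ≤ ((Fintype.card T : ℤ) - finrank L (ZF A B D)) *
      (2 * ht κ (VI A B (e + 1)) + ρ₀ * ((∑ᶠ w, (δ w : ℤ)) + genus κ L + 1)) := by
  have h1 := ht_ge_of_dist h (A := ZF A B D) (B := ⊤) le_top
    (c := -(2 * ht κ (VI A B (e + 1)) + ρ₀ * ∑ᶠ w, (δ w : ℤ))) (m := ρ₀) (fun F _ hF g hg => by
      obtain ⟨f, hf, hf'⟩ := hcon F hF
      exact dist_ZF_ge h hδ hD hA hY hf hf' hρ hg)
  rw [ht_top h, finrank_top, Module.finrank_fintype_fun_eq_card] at h1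
  linarith

end height

end Pool.Agent.Lib.MP_44a246_ntSH
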