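import Mathlib
import Pool.Agent.Lib.MP_44a246_ntSH.PR02
import Pool.Agent.Lib.MP_44a246_ntSH.PR03
import Pool.Agent.Lib.MP_44a246_ntSH.P5

/-!
SHARP PAIRS (paper 667), section 3: the point. The dimension of the space of the deformations which
do not move the curve, modulo the deformations which vanish on the curve, is at most about `2 m`.
-/

namespace Pool.Agent.Lib.MP_44a246_ntSH

open Pool.Agent.Lib.MP_e52354_nt
open Pool.Agent.Lib.MP_44a246_nt
open Pool.Agent.Lib.MP_44a246_ntL
open Pool.Agent.Lib.MP_44a246_ntS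
open Pool.Agent.Lib.MP_44a246_ntA
open Pool.Agent.Lib.MP_44a246_ntF
open Pool.Agent.Lib.MP_44a246_ntG
open Pool.Agent.Lib.MP_44a246_ntW
open Pool.Agent.Lib.MP_44a246_ntR (genus)
open WithZero Polynomial Module

/-- finitely many linear conditions -/
theorem finrank_le_inf_ker {L E : Type*} [Field L] [AddCommGroup E] [Module L E]
    [FiniteDimensional L E] (V : Submodule L E) {J : Type*} [Fintype J] (l : J → E →ₗ[L] L) :
    finrank L V ≤ finrank L (V ⊓ ⨅ j, LinearMap.ker (l j) : Submodule L E) + Fintype.card J := by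
  have h1 := ((LinearMap.pi l).domRestrict V).finrank_range_add_finrank_ker
  have h2 : finrank L (LinearMap.range ((LinearMap.pi l).domRestrict V)) ≤ Fintype.card J := by
    refine (Submodule.finrank_le _).trans ?_
    rw [Module.finrank_fintype_fun_eq_card]
  have h3 : finrank L (LinearMap.ker ((LinearMap.pi l).domRestrict V)) ≤
      finrank L (V ⊓ ⨅ j, LinearMap.ker (l j) : Submodule L E) := by
    rw [LinearMap.ker_domRestrict, LinearMap.ker_pi]
    have h4 : (Submodule.comap V.subtype (⨅ j, LinearMap.ker (l j))).map V.subtype ≤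
        V ⊓ ⨅ j, LinearMap.ker (l j) := by
      rw [Submodule.map_comap_subtype]
    rw [(Submodule.equivMapOfInjective V.subtype V.injective_subtype _).finrank_eq]
    exact Submodule.finrank_mono h4
  omega

section point

variable {L : Type*} [Field L]

/-- a derivation which does not move the curve and kills `y₁` kills the point -/
theorem der_point {A P : L[X][X]} {D : Derivation ℤ L L} {y₁ y x : L}
    (h0 : A.evalEval y₁ y = 0) (h1 : (derivative A).evalEval y₁ y ≠ 0) (hD : D y₁ = 0)
    (hx : (derivative A).evalEval y₁ y * x = P.evalEval y₁ y) (hP : A ∣ wr A D P) : D x = 0 := by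
  have c1 := chain D A y₁ y
  have c2 := chain D P y₁ y
  have c3 := chain D (derivative A) y₁ y
  rw [h0, map_zero, hD, mul_zero, add_zero] at c1
  rw [hD, mul_zero, add_zero] at c2 c3
  have e1 : ∀ Q : L[X][X], cqd D Q = cd D Q := fun Q => rfl
  have c4 : (wr A D P).evalEval y₁ y = 0 := by
    obtain ⟨Q, hQ⟩ := hP
    rw [hQ, evalEval_mul, h0, zero_mul]
  unfold wr at c4
  rw [nab_apply, nab_apply, e1, e1, e1] at c4
  simp only [evalEval_sub, evalEval_mul] at c4
  obtain ⟨q, hq⟩ : ∃ q, q = (derivative A).evalEval y₁ y := ⟨_, rfl⟩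
  rw [← hq] at c1 c3 c4 hx h1
  have c5 : D (q * x) = q * D x + x * D q := by
    rw [Derivation.leibniz, smul_eq_mul, smul_eq_mul]
  rw [hx, c2] at c5
  have c6 : q ^ 3 * D x = 0 := by
    have e2 : P.evalEval y₁ y = q * x := hx.symm
    rw [e2] at c4
    have e3 : (cd D A).evalEval y₁ y = -(q * D y) := by linear_combination -c1
    rw [e3] at c4
    have e4 : (cd D (derivative A)).evalEval y₁ y =
        D q - (derivative (derivative A)).evalEval y₁ y * D y := by linear_combination -c3
    rw [e4] at c4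
    linear_combination c4 - q ^ 2 * c5
  exact (mul_eq_zero.1 c6).resolve_left (pow_ne_zero _ h1)

end point

section main

variable {κ L : Type*} [Field κ] [IsAlgClosed κ] [CharZero κ] [Field L] [CharZero L]
  [Algebra κ L]

/-- the block `j` of a tuple of forms -/
def bk {n p : ℕ} {d : Fin p → ℕ} (F : (Σ j, EX n (d j)) → L) (j : Fin p) : EX n (d j) → L :=
  fun K => F ⟨j, K⟩

/-- the value of the block `j` at a point, as a linear map -/
noncomputable def bval {n p : ℕ} {d : Fin p → ℕ} (x : Fin n → L) (j : Fin p) :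
    ((Σ j, EX n (d j)) → L) →ₗ[L] L :=
  ∑ K : EX n (d j), mon x K.1 •
    (LinearMap.proj (R := L) (φ := fun _ : (Σ j, EX n (d j)) => L) ⟨j, K⟩)

omit [CharZero L] in
theorem bval_apply {n p : ℕ} {d : Fin p → ℕ} (x : Fin n → L) (j : Fin p)
    (F : (Σ j, EX n (d j)) → L) : bval x j F = Fval (d j) (ex (bk F j)) x := by
  unfold bval Fval
  rw [LinearMap.sum_apply, ← Finset.sum_coe_sort (expo (Fin n) (d j))]
  refine Finset.sum_congr rfl fun K _ => ?_
  rw [ex_coe, LinearMap.smul_apply, LinearMap.proj_apply, smul_eq_mul, mul_comm]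
  rfl

omit [CharZero L] in
theorem Fval_sub_smul {n e : ℕ} (x : Fin n → L) (f g : EX n e → L) (t : L) :
    Fval e (ex (f - t • g)) x = Fval e (ex f) x - t * Fval e (ex g) x := by
  unfold Fval
  rw [Finset.mul_sum, ← Finset.sum_sub_distrib]
  refine Finset.sum_congr rfl fun I hI => ?_
  rw [ex_of_mem _ hI, ex_of_mem _ hI, ex_of_mem _ hI, Pi.sub_apply, Pi.smul_apply, smul_eq_mul]
  ring

omit [CharZero L] in
/-- a derivation which kills the point acts on the coefficients only -/
theorem der_bval {n p : ℕ} {d : Fin p → ℕ} {a : (Σ j, EX n (d j)) → L}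
    {D : (Σ j, EX n (d j)) → Derivation ℤ L L} (hDa : ∀ s t, D s (a t) = if s = t then 1 else 0)
    {x : Fin n → L} {F : (Σ j, EX n (d j)) → L} (hx : ∀ i, dF D F (x i) = 0) (j : Fin p) :
    dF D F (bval x j a) = bval x j F := by
  classical
  have hm : ∀ K : Fin n →₀ ℕ, dF D F (mon x K) = 0 := by
    intro K
    rw [D_mon]
    exact Finset.sum_eq_zero fun i _ => by rw [hx, mul_zero]
  unfold bval
  rw [LinearMap.sum_apply, LinearMap.sum_apply, map_sum]
  refine Finset.sum_congr rfl fun K _ => ?_
  rw [LinearMap.smul_apply, LinearMap.smul_apply, LinearMap.proj_apply, LinearMap.proj_apply,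
    smul_eq_mul, smul_eq_mul, Derivation.leibniz, hm, smul_zero, add_zero, smul_eq_mul, dF_apply]
  congr 1
  rw [Finset.sum_eq_single (⟨j, K⟩ : Σ j, EX n (d j))]
  · rw [hDa, if_pos rfl, mul_one]
  · intro s _ hs
    rw [hDa, if_neg hs, mul_zero]
  · intro h0
    exact absurd (Finset.mem_univ _) h0

omit [IsAlgClosed κ] [CharZero κ] [CharZero L] in
/-- the logarithmic derivative of a combination of derivations -/
theorem dF_log_le {T : Type*} [Fintype T] {D : T → Derivation ℤ L L} {δ : Place κ L → ℕ}
    (hD : ∀ t, PoleBound κ (D t) δ) (w : Place κ L) {u : T → L} {g : ℤ}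
    (hu : ∀ t, w.1 (u t) ≤ exp g) {H : L} (hH : H ≠ 0) :
    w.1 (dF D u H / H) ≤ exp (g + (δ w : ℤ) + 1) := by
  rw [dF_apply, Finset.sum_div]
  refine Valuation.map_sum_le _ fun t _ => ?_
  rw [mul_div_assoc, map_mul, add_assoc, exp_add]
  exact mul_le_mul' (hu t) (log_der_bound w (D t) (hD t w) hH).1

/-- **Section 3** of paper 667: the dimension of the deformations which do not move the curve,
modulo those which vanish on the curve. -/
theorem r2_le (h : IsFF κ L) {n p d₀ b : ℕ} (X : DatG κ (L := L) n d₀) {A : L[X][X]}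
    (hA : CrvE X b A) (hpos : 0 < height κ X.x) {d : Fin p → ℕ}
    {a : (Σ j, EX (n + 1) (d j)) → L} {D : (Σ j, EX (n + 1) (d j)) → Derivation ℤ L L}
    (hDa : ∀ s t, D s (a t) = if s = t then 1 else 0)
    {δ : Place κ L → ℕ} (hδ : (Function.support δ).Finite) (hD : ∀ s, PoleBound κ (D s) δ)
    (ha : ∀ s (w : Place κ L), w.1 (a s) ≤ exp (δ w : ℤ))
    (hLam : ∀ j, bval X.x j a = 0 → bk a j ∈ VI A (X.B A) (d j))
    (S : Finset (Place κ L))
    (hS : ∀ w ∉ S, ∀ j, bval X.x j a ≠ 0 → vmax w.1 X.x ^ d j ≤ w.1 (bval X.x j a))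
    {d' : ℕ} (hd : ∀ j, d j ≤ d') :
    ∃ r₂ : ℕ, finrank L (ZF A (X.B A) D) ≤
        finrank L (ZF A (X.B A) D ⊓ IId A (X.B A) d : Submodule L _) + (1 + r₂ + p) ∧
      (r₂ : ℤ) * (height κ X.x - d' * gh κ A - A.natDegree * (2 * (∑ᶠ w, (δ w : ℤ)) + S.card +
        genus κ L + 1)) ≤
      A.natDegree * (ht κ (ZF A (X.B A) D) + (∑ᶠ w, (δ w : ℤ)) + 2 * height κ X.x) := by
  classical
  have hprime : Prime A := hA.irr.prime
  have hY : ¬ A ∣ derivative A := by
    intro h0
    obtain ⟨Q, hQ⟩ := h0
    apply hA.der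
    rw [hQ, evalEval_mul, hA.zero, zero_mul]
  obtain ⟨B, hB⟩ : ∃ B, B = X.B A := ⟨_, rfl⟩
  rw [← hB]
  rw [← hB] at hLam
  obtain ⟨Z, hZ⟩ : ∃ Z, Z = ZF A B D := ⟨_, rfl⟩
  rw [← hZ]
  -- the deformations which kill the point
  let c : (Σ j, EX (n + 1) (d j)) → L := fun s => D s X.y₁
  let Z2 : Submodule L ((Σ j, EX (n + 1) (d j)) → L) := Z ⊓ orth (Submodule.span L {c})
  have hZ2 : ∀ F, F ∈ Z2 ↔ F ∈ Z ∧ dF D F X.y₁ = 0 := by
    intro F
    rw [Submodule.mem_inf, mem_orth_single, dF_apply]
  have hpt : ∀ F ∈ Z2, ∀ i, dF D F (X.x i) = 0 := by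
    intro F hF i
    obtain ⟨h1, h2⟩ := (hZ2 F).1 hF
    rw [hZ, mem_ZF] at h1
    exact der_point hA.zero hA.der h2 (X.B_eval hA.toCrvG i) (by rw [← hB]; exact h1 i)
  -- the map to the forms on the curve
  let ψ : ∀ j, ((Σ j, EX (n + 1) (d j)) → L) →ₗ[L] (EX (n + 1) (d j) → L) := fun j =>
    LinearMap.funLeft L L (Sigma.mk j) -
      ((bval X.x j a)⁻¹ • bval X.x j).smulRight (bk a j)
  have hψ : ∀ j F, ψ j F = bk F j - ((bval X.x j a)⁻¹ * bval X.x j F) • bk a j := fun j F => rfl
  let Z20 : Submodule L ((Σ j, EX (n + 1) (d j)) → L) :=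
    Z2 ⊓ ⨅ j : {j // bval X.x j a ≠ 0}, (VI A B (d j.1)).comap (ψ j.1)
  have hZ20 : ∀ F, F ∈ Z20 ↔ F ∈ Z2 ∧ ∀ j, bval X.x j a ≠ 0 → ψ j F ∈ VI A B (d j) := by
    intro F
    rw [Submodule.mem_inf, Submodule.mem_iInf]
    refine and_congr_right fun _ => ⟨fun h1 j hj => h1 ⟨j, hj⟩, fun h1 j => h1 j.1 j.2⟩
  have hZ20le : Z20 ≤ Z2 := inf_le_left
  have hZ2le : Z2 ≤ Z := inf_le_left
  refine ⟨finrank L Z2 - finrank L Z20, ?_, ?_⟩
  · -- dimensions
    have h1 : finrank L Z ≤ finrank L Z2 + 1 := by
      have h2 := finrank_le_inf_ker Z (fun _ : Unit =>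
        (∑ s, c s • (LinearMap.proj (R := L) (φ := fun _ : (Σ j, EX (n + 1) (d j)) => L) s)))
      rw [Fintype.card_unit] at h2
      refine h2.trans (Nat.add_le_add_right (Submodule.finrank_mono fun F hF => ?_) 1)
      rw [Submodule.mem_inf, Submodule.mem_iInf] at hF
      rw [hZ2]
      refine ⟨hF.1, ?_⟩
      have h3 := hF.2 ()
      rw [LinearMap.mem_ker, LinearMap.sum_apply] at h3
      rw [dF_apply, ← h3]
      refine Finset.sum_congr rfl fun s _ => ?_
      rw [LinearMap.smul_apply, LinearMap.proj_apply, smul_eq_mul, mul_comm]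
    have h2 := finrank_le_inf_ker Z20 fun j : Fin p => bval (L := L) X.x j
    rw [Fintype.card_fin] at h2
    have h3 : (Z20 ⊓ ⨅ j : Fin p, LinearMap.ker (bval (L := L) (d := d) X.x j) :
        Submodule L ((Σ j, EX (n + 1) (d j)) → L)) ≤ Z ⊓ IId A B d := by
      intro F hF
      rw [Submodule.mem_inf, Submodule.mem_iInf] at hF
      obtain ⟨hF1, hF2⟩ := hF
      have hFZ : F ∈ Z := hZ2le (hZ20le hF1)
      refine ⟨hFZ, mem_IId.2 fun j => ?_⟩
      by_cases hj : bval X.x j a = 0
      · have h4 := der_VI hprime hY (mem_ZF.1 (hZ ▸ hFZ)) (hLam j hj)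
        convert h4 using 1
        funext K
        unfold bk
        rw [dF_apply, Finset.sum_eq_single (⟨j, K⟩ : Σ j, EX (n + 1) (d j))]
        · rw [hDa, if_pos rfl, mul_one]
        · intro s _ hs
          rw [hDa, if_neg hs, mul_zero]
        · intro h0
          exact absurd (Finset.mem_univ _) h0
      · have h4 := ((hZ20 F).1 hF1).2 j hj
        have h5 : bval X.x j F = 0 := hF2 j
        rw [hψ, h5, mul_zero, zero_smul, sub_zero] at h4
        exact h4
    have h4 := Submodule.finrank_mono h3
    have h5 := Submodule.finrank_mono hZ20le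
    omega
  · -- heights
    have hgA : 0 ≤ gh κ A := gh_nonneg h hA.irr.ne_zero
    have key : ∀ F ∈ Z2, F ∉ Z20 → ∀ g : Place κ L → ℤ, DistLE κ Z20 F g →
        height κ X.x - d' * gh κ A - A.natDegree * (2 * (∑ᶠ w, (δ w : ℤ)) + S.card) ≤
          A.natDegree * ∑ᶠ w, g w := by
      intro F hF hF0 g hg
      obtain ⟨j, hj, hjψ⟩ : ∃ j, bval X.x j a ≠ 0 ∧ ψ j F ∉ VI A B (d j) := by
        by_contra hcon
        push Not at hcon
        exact hF0 ((hZ20 F).2 ⟨hF, hcon⟩)
      have hz : Fval (d j) (ex (ψ j F)) X.x = 0 := by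
        have h1 : Fval (d j) (ex (ψ j F)) X.x =
            bval X.x j F - ((bval X.x j a)⁻¹ * bval X.x j F) * bval X.x j a := by
          rw [hψ, Fval_sub_smul, ← bval_apply, ← bval_apply]
        rw [h1]
        field_simp
        ring
      have hs1 : (Function.support fun w : Place κ L => 2 * (δ w : ℤ)).Finite := by
        refine hδ.subset fun w hw h0 => hw ?_
        simp only
        rw [h0, Nat.cast_zero, mul_zero]
      have hs2 : (Function.support fun w : Place κ L => if w ∈ S then (1 : ℤ) else 0).Finite := by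
        refine S.finite_toSet.subset fun w hw => ?_
        by_contra h0
        exact hw (if_neg h0)
      have hs3 : (Function.support fun w : Place κ L => 2 * (δ w : ℤ) +
          if w ∈ S then (1 : ℤ) else 0).Finite :=
        (hs1.union hs2).subset (Function.support_add _ _)
      have hg' : DistLE κ (VI A B (d j)) (ψ j F)
          (fun w => g w + (2 * (δ w : ℤ) + if w ∈ S then (1 : ℤ) else 0)) := by
        refine ⟨(hg.1.union hs3).subset (Function.support_add _ _), fun w => ?_⟩
        obtain ⟨u, hu, hub⟩ := hg.2 w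
        refine ⟨ψ j u, ?_, fun K => ?_⟩
        · rw [← map_sub]
          exact ((hZ20 _).1 hu).2 j hj
        · have hu2 : u ∈ Z2 := by
            have := Z2.add_mem (hZ20le hu) hF
            rwa [sub_add_cancel] at this
          have hind : (0 : ℤ) ≤ if w ∈ S then (1 : ℤ) else 0 := by split_ifs <;> simp
          have hδ0 : (0 : ℤ) ≤ (δ w : ℤ) := Int.natCast_nonneg _
          rw [hψ, Pi.sub_apply]
          refine (Valuation.map_sub _ _ _).trans (max_le ?_ ?_)
          · refine (hub _).trans ?_
            rw [exp_le_exp]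
            linarith
          · rw [Pi.smul_apply, smul_eq_mul, map_mul]
            have h1 : w.1 ((bval X.x j a)⁻¹ * bval X.x j u) ≤
                exp (g w + (δ w : ℤ) + if w ∈ S then (1 : ℤ) else 0) := by
              rw [inv_mul_eq_div]
              by_cases hw : w ∈ S
              · rw [if_pos hw, ← der_bval hDa (hpt u hu2) j]
                exact dF_log_le hD w hub hj
              · rw [if_neg hw, add_zero, map_div₀]
                have h2 := hS w hw j hj
                have h3 : w.1 (bval X.x j u) ≤ exp (g w) * vmax w.1 X.x ^ d j := by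
                  rw [bval_apply]
                  refine Fval_le w.1 (fun I hI => ?_) fun i => le_vmax _ _ _
                  rw [ex_of_mem _ hI]
                  exact hub _
                have h4 : w.1 (bval X.x j a) ≠ 0 := (Valuation.ne_zero_iff _).2 hj
                rw [div_le_iff₀ (zero_lt_iff.2 h4)]
                refine h3.trans (mul_le_mul' ?_ h2)
                rw [exp_le_exp]
                linarith
            calc w.1 ((bval X.x j a)⁻¹ * bval X.x j u) * w.1 (bk a j K)
                ≤ exp (g w + (δ w : ℤ) + if w ∈ S then (1 : ℤ) else 0) * exp (δ w : ℤ) :=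
                  mul_le_mul' h1 (ha _ w)
              _ = exp (g w + (2 * (δ w : ℤ) + if w ∈ S then (1 : ℤ) else 0)) := by
                  rw [← exp_add]
                  congr 1
                  ring
      have h1 := bezout_ge_zero h X hA hpos (f := ψ j F) (by rwa [← hB]) hz (by rwa [← hB])
      rw [finsum_add_distrib hg.1 hs3, finsum_add_distrib hs1 hs2, ← mul_finsum] at h1
      have h2 : ∑ᶠ w : Place κ L, (if w ∈ S then (1 : ℤ) else 0) = S.card := by
        rw [finsum_eq_sum_of_support_subset (s := S) _ fun w hw => ?_]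
        · rw [Finset.sum_congr rfl fun w hw => if_pos hw, Finset.sum_const, nsmul_eq_mul, mul_one]
        · by_contra h0
          exact hw (if_neg h0)
      rw [h2] at h1
      have h3 : (d j : ℤ) * gh κ A ≤ d' * gh κ A :=
        mul_le_mul_of_nonneg_right (by exact_mod_cast hd j) hgA
      linarith
    have h1 := ht_ge_of_dist h hZ20le key
    have h2 : ((finrank L Z2 - finrank L Z20 : ℕ) : ℤ) = (finrank L Z2 : ℤ) - finrank L Z20 :=
      Nat.cast_sub (Submodule.finrank_mono hZ20le)
    rw [← h2] at h1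
    have h3 : ht κ Z2 ≤ ht κ Z + ((∑ᶠ w, (δ w : ℤ)) + 2 * height κ X.x) := by
      have h4 := ht_sup_inf h Z (orth (Submodule.span L {c}))
      have h5 := ht_nonneg h (Z ⊔ orth (Submodule.span L {c}))
      rw [ht_orth h] at h4
      have hx0 : X.x ≠ 0 := by
        intro h0
        have := X.h0
        rw [h0] at this
        simp at this
      have hs1 : (Function.support fun w : Place κ L => (δ w : ℤ)).Finite := by
        refine hδ.subset fun w hw h0 => hw ?_
        simp only
        rw [h0, Nat.cast_zero]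
      have hs2 : (Function.support fun w : Place κ L => 2 * log (vmax w.1 X.x)).Finite := by
        refine (h.vmax_support hx0).subset fun w hw h0 => hw ?_
        have h0' : log (vmax w.1 X.x) = 0 := h0
        simp only
        rw [h0', mul_zero]
      have hx1 : ∀ w : Place κ L, 1 ≤ vmax w.1 X.x := fun w => by
        rw [X.vmax_x]
        exact le_max_left _ _
      have h6 : ht κ (Submodule.span L {c}) ≤ (∑ᶠ w, (δ w : ℤ)) + 2 * height κ X.x := by
        have hnn : 0 ≤ (∑ᶠ w : Place κ L, (δ w : ℤ)) + 2 * height κ X.x := by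
          have := finsum_nonneg (f := fun w : Place κ L => (δ w : ℤ)) fun w =>
            Int.natCast_nonneg _
          linarith
        rcases ht_single_le h (y := c) (τ := fun w => (δ w : ℤ) + 2 * log (vmax w.1 X.x))
          ((hs1.union hs2).subset (Function.support_add _ _)) (fun w s => by
            have h7 := der_le (hD s) w (hx1 w) (y := X.y₁) (by
              rw [X.vmax_x]; exact le_max_right _ _)
            refine h7.trans (le_of_eq ?_)
            have h8 : vmax w.1 X.x ≠ 0 := by
              intro h0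
              have := hx1 w
              rw [h0] at this
              exact absurd this (by simp)
            conv_lhs => rw [← exp_log h8]
            rw [← exp_nsmul, ← exp_add, nsmul_eq_mul, add_comm]
            norm_num) with h7 | h7
        · rw [h7, Submodule.span_zero_singleton, ht_bot h]
          exact hnn
        · refine h7.trans (le_of_eq ?_)
          rw [finsum_add_distrib hs1 hs2, ← mul_finsum]
          rfl
      linarith
    have h4 := ht_nonneg h Z20
    have h5 : (A.natDegree : ℤ) * (ht κ Z2 - ht κ Z20) ≤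
        A.natDegree * (ht κ Z + ((∑ᶠ w, (δ w : ℤ)) + 2 * height κ X.x)) :=
      mul_le_mul_of_nonneg_left (by linarith) (Int.natCast_nonneg _)
    nlinarith

end main

end Pool.Agent.Lib.MP_44a246_ntSH
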