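import Mathlib
import Pool.Agent.Lib.MP_44a246_ntO.OS3

/-!
The absolute Siegel lemma, relative version: between `A ≤ B` there are, over finite extensions,
hyperplanes of `B` and lines over `A` of small height.
-/

namespace Pool.Agent.Lib.MP_44a246_ntSH

open Pool.Agent.Lib.MP_44a246_nt
open Pool.Agent.Lib.MP_44a246_ntL
open Pool.Agent.Lib.MP_44a246_ntS
open Pool.Agent.Lib.MP_44a246_ntO
open WithZero Module

universe u

/-- over a finite extension there is a space between `A` and `B` of dimension `r` and of normalised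
height at most `y` -/
def RelLE (κ : Type*) [Field κ] {K : Type u} [Field K] [Algebra κ K] {ι : Type*} [Fintype ι]
    (A B : Submodule K (ι → K)) (r : ℕ) (y : ℝ) : Prop :=
  ∃ (L : Type u) (_ : Field L) (_ : Algebra κ L) (_ : Algebra K L) (_ : IsScalarTower κ K L)
    (_ : FiniteDimensional K L), ∃ C : Submodule L (ι → L), bc L A ≤ C ∧ C ≤ bc L B ∧
      finrank L C = r ∧ (ht κ C : ℝ) ≤ finrank K L * y

section

variable {κ : Type*} {K : Type u} [Field κ] [IsAlgClosed κ] [CharZero κ] [Field K] [Algebra κ K]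
  {ι : Type*} [Fintype ι]

theorem RelLE.of_ext {L : Type u} [Field L] [Algebra κ L] [Algebra K L] [IsScalarTower κ K L]
    [FiniteDimensional K L] {A B : Submodule K (ι → K)} {r : ℕ} {y : ℝ}
    (hC : RelLE κ (bc L A) (bc L B) r (finrank K L * y)) : RelLE κ A B r y := by
  obtain ⟨M, fM, aκM, aLM, tM, dM, C, hCA, hCle, hCr, hCht⟩ := hC
  let aKM : Algebra K M := ((algebraMap L M).comp (algebraMap K L)).toAlgebra
  have t1 : IsScalarTower K L M := IsScalarTower.of_algebraMap_eq fun _ => rfl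
  have t2 : IsScalarTower κ K M := IsScalarTower.of_algebraMap_eq fun x => by
    rw [IsScalarTower.algebraMap_apply κ L M, IsScalarTower.algebraMap_apply κ K L]
    rfl
  have d1 : FiniteDimensional K M := FiniteDimensional.trans K L M
  refine ⟨M, fM, aκM, aKM, t2, d1, C, ?_, ?_, hCr, ?_⟩
  · rwa [bc_bc] at hCA
  · rwa [bc_bc] at hCle
  · refine hCht.trans (le_of_eq ?_)
    rw [← Module.finrank_mul_finrank K L M]
    push_cast
    ring

theorem RelLE.mono_space {A A' B B' : Submodule K (ι → K)} (hA : A' ≤ A) (hB : B ≤ B') {r : ℕ}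
    {y : ℝ} (hC : RelLE κ A B r y) : RelLE κ A' B' r y := by
  obtain ⟨M, fM, aκM, aKM, tM, dM, C, hCA, hCle, hCr, hCht⟩ := hC
  exact ⟨M, fM, aκM, aKM, tM, dM, C, (bc_mono hA).trans hCA, hCle.trans (bc_mono hB), hCr, hCht⟩

theorem RelLE.mono {A B : Submodule K (ι → K)} {r : ℕ} {y y' : ℝ} (hy : y ≤ y')
    (hC : RelLE κ A B r y) : RelLE κ A B r y' := by
  obtain ⟨M, fM, aκM, aKM, tM, dM, C, hCA, hCle, hCr, hCht⟩ := hC
  exact ⟨M, fM, aκM, aKM, tM, dM, C, hCA, hCle, hCr,
    hCht.trans (mul_le_mul_of_nonneg_left hy (Nat.cast_nonneg _))⟩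

theorem RelLE.self (h : IsFF κ K) {A B C : Submodule K (ι → K)} (hA : A ≤ C) (hB : C ≤ B) :
    RelLE κ A B (finrank K C) (ht κ C) := by
  refine ⟨K, inferInstance, inferInstance, Algebra.id K, inferInstance, inferInstance,
    bc K C, bc_mono hA, bc_mono hB, finrank_bc C, ?_⟩
  rw [ht_bc h]
  push_cast
  exact le_rfl

/-- an intermediate space of given dimension -/
theorem exists_between {A B : Submodule K (ι → K)} (hAB : A ≤ B) {s : ℕ}
    (hs : finrank K A ≤ s) (hs' : s ≤ finrank K B) :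
    ∃ C, A ≤ C ∧ C ≤ B ∧ finrank K C = s := by
  obtain ⟨α, b, hα, hαs, hαb, hαbs⟩ := exists_compl hAB
  obtain ⟨k, rfl⟩ := Nat.exists_eq_add_of_le hs
  let f : Fin k → Fin (finrank K B - finrank K A) := fun i => ⟨i.1, by have := i.2; omega⟩
  have hf : Function.Injective f := by
    intro i j hij
    have h0 : (f i).1 = (f j).1 := congrArg Fin.val hij
    exact Fin.ext h0
  have hli : LinearIndependent K (Sum.elim α fun i => b (f i)) := by
    have h1 := hαb.comp (Sum.map id f) (Function.Injective.sumMap Function.injective_id hf)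
    convert h1 using 1
    funext i
    rcases i with i | i <;> rfl
  refine ⟨Submodule.span K (Set.range (Sum.elim α fun i => b (f i))), ?_, ?_, ?_⟩
  · refine hαs.symm.le.trans (Submodule.span_mono ?_)
    rw [Set.Sum.elim_range]
    exact Set.subset_union_left
  · refine (Submodule.span_mono ?_).trans hαbs.le
    rw [Set.Sum.elim_range, Set.Sum.elim_range]
    refine Set.union_subset_union_right _ ?_
    rintro _ ⟨i, rfl⟩
    exact ⟨f i, rfl⟩
  · rw [finrank_span_eq_card hli, Fintype.card_sum, Fintype.card_fin, Fintype.card_fin]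

/-- one step of the induction (as `hyp_step` of OS4a) -/
theorem rel_step {r : ℕ} {c : ℝ} (hc : 0 ≤ c)
    (hind : ∀ (L : Type u) [Field L] [Algebra κ L], IsFF κ L → ∀ A B : Submodule L (ι → L), A ≤ B →
      finrank L B = finrank L A + (r + 1) → ∀ ε : ℝ, 0 < ε →
        RelLE κ A B (finrank L A + r) (ht κ A + c * (ht κ B - ht κ A) + ε))
    (h : IsFF κ K) {A B : Submodule K (ι → K)}
    (hr : finrank K B = finrank K A + (r + 2)) {y : ℝ}
    (hC : RelLE κ A B (finrank K A + (r + 1)) y) {ε : ℝ} (hε : 0 < ε) :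
    RelLE κ A B (finrank K A + (r + 1)) ((ht κ A + c * (y - ht κ A) + ht κ B + 2 * ε) / 2) := by
  obtain ⟨L, fL, aκL, aKL, tL, dL, Λ₁, hA₁, hle₁, hr₁, hht₁⟩ := hC
  have hL : IsFF κ L := h.of_finite
  have hm : (0 : ℝ) < finrank K L := Nat.cast_pos.mpr finrank_pos
  obtain ⟨M, fM, aκM, aLM, tM, dM, Λ₂, hA₂, hle₂, hr₂, hht₂⟩ :=
    hind L hL (bc L A) Λ₁ hA₁ (by rw [hr₁, finrank_bc]) (ε * finrank K L) (mul_pos hε hm)
  have hM : IsFF κ M := hL.of_finite
  have hm' : (0 : ℝ) < finrank L M := Nat.cast_pos.mpr finrank_pos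
  have hB : finrank M (bc M (bc L B)) = finrank M Λ₂ + 2 := by
    rw [finrank_bc, finrank_bc, hr, hr₂, finrank_bc]
    omega
  obtain ⟨N, fN, aκN, aMN, tN, dN, C, hCA, hCle, hCr, hCht⟩ :=
    pencil hM (hle₂.trans (bc_mono hle₁)) hB (mul_pos (mul_pos hε hm) hm')
  have hhtB : (ht κ (bc M (bc L B)) : ℝ) = finrank L M * (finrank K L * ht κ B) := by
    rw [ht_bc hL, ht_bc h]
    push_cast
    ring
  have hhtA : (ht κ (bc L A) : ℝ) = finrank K L * ht κ A := by
    rw [ht_bc h]
    push_cast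
    ring
  refine RelLE.of_ext (L := L) (RelLE.of_ext (L := M) ?_)
  refine ⟨N, fN, aκN, aMN, tN, dN, C, (bc_mono hA₂).trans hCA, hCle, ?_, ?_⟩
  · rw [hCr, hr₂, finrank_bc]
    ring
  have h1 : (ht κ Λ₂ : ℝ) ≤
      finrank L M * (finrank K L * ht κ A + c * (finrank K L * y - finrank K L * ht κ A) +
        ε * finrank K L) := by
    refine hht₂.trans ?_
    refine mul_le_mul_of_nonneg_left ?_ hm'.le
    rw [hhtA]
    have := mul_le_mul_of_nonneg_left (sub_le_sub_right hht₁ (finrank K L * (ht κ A : ℝ))) hc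
    linarith
  rw [hhtB] at hCht
  have h2 : (0 : ℝ) ≤ finrank M N := Nat.cast_nonneg _
  have h3 : (finrank M N : ℝ) * (ht κ Λ₂ + finrank L M * (finrank K L * ht κ B) +
      ε * finrank K L * finrank L M) ≤
      finrank M N * (finrank L M * (finrank K L * ht κ A +
        c * (finrank K L * y - finrank K L * ht κ A) + ε * finrank K L) +
        finrank L M * (finrank K L * ht κ B) + ε * finrank K L * finrank L M) := by
    refine mul_le_mul_of_nonneg_left ?_ h2
    linarith
  have h4 := hCht.trans h3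
  have h5 : (ht κ C : ℝ) ≤ (finrank M N * (finrank L M * (finrank K L * ht κ A +
        c * (finrank K L * y - finrank K L * ht κ A) + ε * finrank K L) +
        finrank L M * (finrank K L * ht κ B) + ε * finrank K L * finrank L M)) / 2 := by linarith
  refine h5.trans (le_of_eq ?_)
  ring

end

section

variable {κ : Type*} [Field κ] [IsAlgClosed κ] [CharZero κ] {ι : Type*} [Fintype ι]

/-- **The relative absolute Siegel lemma**: hyperplanes of `B` which contain `A`. -/
theorem hyperplane_rel (r : ℕ) : ∀ (K : Type u) [Field K] [Algebra κ K], IsFF κ K →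
    ∀ A B : Submodule K (ι → K), A ≤ B → finrank K B = finrank K A + (r + 1) → ∀ ε : ℝ, 0 < ε →
      RelLE κ A B (finrank K A + r)
        (ht κ A + (1 - 1 / ((r : ℝ) + 1)) * (ht κ B - ht κ A) + ε) := by
  induction r with
  | zero =>
    intro K _ _ h A B hAB hr ε hε
    refine (RelLE.self h le_rfl hAB).mono ?_
    simp
    exact hε.le
  | succ r ih =>
    intro K _ _ h A B hAB hr ε hε
    set c : ℝ := 1 - 1 / ((r : ℝ) + 1) with hc
    have hr0 : (0 : ℝ) ≤ r := Nat.cast_nonneg r
    have hc0 : 0 ≤ c := by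
      rw [hc, sub_nonneg, div_le_one (by linarith)]
      linarith
    set Y : Set ℝ := {y | RelLE κ A B (finrank K A + (r + 1)) y} with hY
    have hne : Y.Nonempty := by
      obtain ⟨C₀, hA₀, hC₀, hC₀r⟩ := exists_between hAB (s := finrank K A + (r + 1)) (by omega)
        (by omega)
      refine ⟨(ht κ C₀ : ℝ), ?_⟩
      have h1 := RelLE.self h hA₀ hC₀
      rwa [hC₀r] at h1
    have hbd : BddBelow Y := by
      refine ⟨0, ?_⟩
      rintro y ⟨L, fL, aκL, aKL, tL, dL, C, hCA, hCle, hCr, hCht⟩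
      have hL : IsFF κ L := IsFF.of_finite (K := K) h
      have h1 : (0 : ℝ) ≤ ht κ C := by exact_mod_cast ht_nonneg hL C
      have h2 : (0 : ℝ) < finrank K L := Nat.cast_pos.mpr finrank_pos
      by_contra hcon
      push Not at hcon
      nlinarith
    have hstep : ∀ y ∈ Y, ∀ δ : ℝ, 0 < δ →
        (ht κ A + c * (y - ht κ A) + ht κ B + 2 * δ) / 2 ∈ Y := by
      intro y hy δ hδ
      refine rel_step hc0 ?_ h hr hy hδ
      intro L _ _ hL A' B' hA' hB' ε' hε'
      exact ih L hL A' B' hA' hB' ε' hε'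
    set y₀ := sInf Y with hy₀
    have hlt : ∀ δ : ℝ, 0 < δ → ∃ y ∈ Y, y < y₀ + δ := fun δ hδ =>
      Real.lt_sInf_add_pos hne hδ
    have hmain : (2 - c) * (y₀ - ht κ A) ≤ ht κ B - ht κ A := by
      refine le_of_forall_pos_le_add fun δ hδ => ?_
      obtain ⟨y, hyY, hy⟩ := hlt (δ / 4) (by positivity)
      have h1 := csInf_le hbd (hstep y hyY (δ / 4) (by positivity))
      have h2 : c * (y - ht κ A) ≤ c * (y₀ + δ / 4 - ht κ A) :=
        mul_le_mul_of_nonneg_left (by linarith) hc0
      have h3 : c ≤ 1 := by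
        rw [hc]
        have : (0 : ℝ) ≤ 1 / ((r : ℝ) + 1) := by positivity
        linarith
      have h4 : c * (δ / 4) ≤ δ / 4 := by nlinarith
      linarith
    obtain ⟨y, hyY, hy⟩ := hlt ε hε
    refine RelLE.mono ?_ hyY
    have h1 : 2 - c = ((r : ℝ) + 2) / (r + 1) := by
      rw [hc]
      field_simp
      ring
    have h2 : y₀ - ht κ A ≤ (1 - 1 / (((r + 1 : ℕ) : ℝ) + 1)) * (ht κ B - ht κ A) := by
      have h3 : (1 - 1 / (((r + 1 : ℕ) : ℝ) + 1)) = ((r : ℝ) + 1) / (r + 2) := by
        push_cast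
        field_simp
        ring
      rw [h3]
      rw [h1] at hmain
      have h4 : (0 : ℝ) < (r : ℝ) + 2 := by linarith
      have h5 : (0 : ℝ) < (r : ℝ) + 1 := by linarith
      have h6 : ((r : ℝ) + 2) / (r + 1) * (y₀ - ht κ A) * (((r : ℝ) + 1) / (r + 2)) =
          y₀ - ht κ A := by
        field_simp
      have h7 := mul_le_mul_of_nonneg_right hmain (show (0 : ℝ) ≤ ((r : ℝ) + 1) / (r + 2) by
        positivity)
      rw [h6] at h7
      linarith
    linarith

/-- **The relative absolute Siegel lemma**: small lines over `A` in `B`. -/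
theorem line_rel (r : ℕ) : ∀ (K : Type u) [Field K] [Algebra κ K], IsFF κ K →
    ∀ A B : Submodule K (ι → K), A ≤ B → finrank K B = finrank K A + (r + 1) → ∀ ε : ℝ, 0 < ε →
      RelLE κ A B (finrank K A + 1) (ht κ A + (ht κ B - ht κ A) / ((r : ℝ) + 1) + ε) := by
  induction r with
  | zero =>
    intro K _ _ h A B hAB hr ε hε
    have h1 := RelLE.self h hAB (le_refl B)
    rw [hr] at h1
    refine h1.mono ?_
    simp
    exact hε.le
  | succ r ih =>
    intro K _ _ h A B hAB hr ε hε
    obtain ⟨L, fL, aκL, aKL, tL, dL, C, hCA, hCB, hCr, hCht⟩ :=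
      hyperplane_rel (r + 1) K h A B hAB hr (ε / 2) (by positivity)
    have hL : IsFF κ L := h.of_finite
    have hm : (0 : ℝ) < finrank K L := Nat.cast_pos.mpr finrank_pos
    have hr0 : (0 : ℝ) ≤ r := Nat.cast_nonneg r
    have h1 := ih L hL (bc L A) C hCA (by rw [hCr, finrank_bc]) (finrank K L * (ε / 2))
      (by positivity)
    rw [finrank_bc] at h1
    refine RelLE.of_ext (L := L) ?_
    refine (h1.mono_space le_rfl hCB).mono ?_
    have hA : (ht κ (bc L A) : ℝ) = finrank K L * ht κ A := by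
      rw [ht_bc h]
      push_cast
      ring
    rw [hA]
    have h2 : ((ht κ C : ℝ) - finrank K L * ht κ A) / ((r : ℝ) + 1) ≤
        finrank K L * ((ht κ B - ht κ A) / (((r + 1 : ℕ) : ℝ) + 1) + ε / 2) := by
      rw [div_le_iff₀ (by positivity)]
      have h3 : (ht κ C : ℝ) - finrank K L * ht κ A ≤
          finrank K L * ((1 - 1 / (((r + 1 : ℕ) : ℝ) + 1)) * (ht κ B - ht κ A) + ε / 2) := by
        have := hCht
        linarith
      refine h3.trans ?_
      rw [mul_assoc]
      refine mul_le_mul_of_nonneg_left ?_ hm.le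
      have h4 : (1 - 1 / (((r + 1 : ℕ) : ℝ) + 1)) * ((ht κ B : ℝ) - ht κ A) =
          (ht κ B - ht κ A) / (((r + 1 : ℕ) : ℝ) + 1) * ((r : ℝ) + 1) := by
        push_cast
        field_simp
        ring
      rw [h4, add_mul]
      have h5 : ε / 2 ≤ ε / 2 * ((r : ℝ) + 1) := by nlinarith
      linarith
    have h6 : (finrank K L : ℝ) * (ht κ A + (ht κ B - ht κ A) / (((r + 1 : ℕ) : ℝ) + 1) + ε) =
        finrank K L * ht κ A + finrank K L * ((ht κ B - ht κ A) / (((r + 1 : ℕ) : ℝ) + 1) + ε / 2) +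
          finrank K L * (ε / 2) := by ring
    rw [h6]
    linarith

end

end Pool.Agent.Lib.MP_44a246_ntSH
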