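import Mathlib
import Pool.Agent.Lib.MP_44a246_ntO.OS5
import Pool.Agent.Lib.MP_44a246_ntO.OS6
import Pool.Agent.Lib.MP_44a246_ntSH.BA01

/-!
The relative absolute Siegel lemma over Galois extensions: functionals and vectors.
-/

namespace Pool.Agent.Lib.MP_44a246_ntSH

open Pool.Agent.Lib.MP_44a246_nt
open Pool.Agent.Lib.MP_44a246_ntL
open Pool.Agent.Lib.MP_44a246_ntS
open Pool.Agent.Lib.MP_44a246_ntO
open WithZero Module

universe u

/-- a finite extension in characteristic zero is contained in a finite Galois extension -/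
theorem exists_galois_over' {K L : Type u} [Field K] [CharZero K] [Field L] [Algebra K L]
    [FiniteDimensional K L] :
    ∃ (M : Type u) (_ : Field M) (_ : Algebra K M) (_ : Algebra L M) (_ : IsScalarTower K L M)
      (_ : FiniteDimensional K M), IsGalois K M := by
  let M := IntermediateField.normalClosure K L (AlgebraicClosure L)
  have hn : Normal K M := inferInstance
  have hd : FiniteDimensional K M := inferInstance
  have hs : Algebra.IsSeparable K M := inferInstance
  exact ⟨M, inferInstance, inferInstance, inferInstance, inferInstance, hd, ⟨⟩⟩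

/-- the minor of `(a, y)` in the columns `e`, as a linear form in `y` -/
private noncomputable def ba3D {L : Type*} [Field L] {ι : Type*} {ρ : Type*} [Fintype ρ] [DecidableEq ρ] (a : ρ → ι → L)
    (e : ρ ⊕ Unit → ι) : (ι → L) →ₗ[L] L where
  toFun y := (Matrix.of fun i j => Sum.elim a (fun _ : Unit => y) i (e j)).det
  map_add' y z := by
    have h : ∀ y : ι → L, (Matrix.of fun i j => Sum.elim a (fun _ : Unit => y) i (e j)) =
        (Matrix.of fun i j => Sum.elim a (fun _ : Unit => 0) i (e j)).updateRow (Sum.inr ())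
          (fun j => y (e j)) := by
      intro y
      ext i j
      rcases i with i | i
      · rw [Matrix.updateRow_ne (by simp)]
        rfl
      · rw [Matrix.updateRow_self]
        rfl
    rw [h, h y, h z, ← Matrix.det_updateRow_add]
    rfl
  map_smul' c y := by
    have h : ∀ y : ι → L, (Matrix.of fun i j => Sum.elim a (fun _ : Unit => y) i (e j)) =
        (Matrix.of fun i j => Sum.elim a (fun _ : Unit => 0) i (e j)).updateRow (Sum.inr ())
          (fun j => y (e j)) := by
      intro y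
      ext i j
      rcases i with i | i
      · rw [Matrix.updateRow_ne (by simp)]
        rfl
      · rw [Matrix.updateRow_self]
        rfl
    rw [h, h y, RingHom.id_apply, smul_eq_mul, ← Matrix.det_updateRow_smul]
    rfl

section

variable {κ : Type*} {K : Type u} [Field κ] [IsAlgClosed κ] [CharZero κ] [Field K] [Algebra κ K]
  {ι : Type*} [Fintype ι]

/-- the extension may be taken to be Galois -/
theorem RelLE.galois (h : IsFF κ K) {A B : Submodule K (ι → K)} {r : ℕ} {y : ℝ}
    (hC : RelLE κ A B r y) :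
    ∃ (L : Type u) (_ : Field L) (_ : Algebra κ L) (_ : Algebra K L) (_ : IsScalarTower κ K L)
      (_ : FiniteDimensional K L) (_ : IsGalois K L), ∃ C : Submodule L (ι → L), bc L A ≤ C ∧
        C ≤ bc L B ∧ finrank L C = r ∧ (ht κ C : ℝ) ≤ finrank K L * y := by
  have : CharZero K := charZero_of_injective_algebraMap (algebraMap κ K).injective
  obtain ⟨L, fL, aκL, aKL, tL, dL, C, hAC, hCB, hCr, hCht⟩ := hC
  obtain ⟨M, fM, aKM, aLM, tM, dM, gM⟩ := exists_galois_over' (K := K) (L := L)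
  let aκM : Algebra κ M := ((algebraMap K M).comp (algebraMap κ K)).toAlgebra
  have t1 : IsScalarTower κ K M := IsScalarTower.of_algebraMap_eq fun _ => rfl
  have t2 : IsScalarTower κ L M := IsScalarTower.of_algebraMap_eq fun x => by
    rw [IsScalarTower.algebraMap_apply κ K L, ← IsScalarTower.algebraMap_apply K L M]
    rfl
  have d2 : FiniteDimensional L M := FiniteDimensional.right K L M
  have hL : IsFF κ L := h.of_finite
  refine ⟨M, fM, aκM, aKM, t1, dM, gM, bc M C, ?_, ?_, ?_, ?_⟩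
  · have h1 := bc_mono (L := M) hAC
    rwa [bc_bc] at h1
  · have h1 := bc_mono (L := M) hCB
    rwa [bc_bc] at h1
  · rw [finrank_bc, hCr]
  · rw [ht_bc hL]
    have h1 : (finrank K M : ℝ) = finrank K L * finrank L M := by
      rw [← Module.finrank_mul_finrank K L M]
      push_cast
      ring
    have h2 : (0 : ℝ) ≤ finrank L M := Nat.cast_nonneg _
    have h3 := mul_le_mul_of_nonneg_left hCht h2
    rw [h1]
    push_cast
    linarith

/-- the linear form which belongs to a hyperplane, with its kernel -/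
theorem form_of_hyperplane_ker {L : Type*} [Field L] [Algebra κ L] (h : IsFF κ L)
    {Λ C : Submodule L (ι → L)} (hC : C ≤ Λ) (hr : finrank L Λ = finrank L C + 1) :
    ∃ (l : ι → L) (τ : Place κ L → ℤ), (Function.support τ).Finite ∧
      (∑ᶠ w, τ w) = ht κ C - ht κ Λ ∧ (∀ y ∈ C, ∑ k, l k * y k = 0) ∧
      (∃ y ∈ Λ, ∑ k, l k * y k ≠ 0) ∧
      ∀ w : Place κ L, ∃ m : ι → L, (∀ k, w.1 (m k) ≤ exp (τ w)) ∧
        ∀ y ∈ Λ, ∑ k, m k * y k = ∑ k, l k * y k := by
  classical
  obtain ⟨a, ha, haC⟩ := SB2b_basis C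
  have hlt : ¬ Λ ≤ C := by
    intro h0
    have := Submodule.finrank_mono h0
    omega
  obtain ⟨y₀, hy₀Λ, hy₀C⟩ := SetLike.not_le_iff_exists.1 hlt
  have hy0 : y₀ ≠ 0 := by
    rintro rfl
    exact hy₀C C.zero_mem
  let b : Fin (finrank L C) ⊕ Unit → ι → L := Sum.elim a (fun _ => y₀)
  have hbi : LinearIndependent L b := by
    refine LinearIndependent.sum_type ha (linearIndependent_unique_iff.mpr hy0) ?_
    rw [haC, Set.range_const, Submodule.disjoint_span_singleton' hy0]
    exact hy₀C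
  have hbs : Submodule.span L (Set.range b) = Λ := by
    apply Submodule.eq_of_le_of_finrank_eq
    · rw [Submodule.span_le]
      rintro _ ⟨i, rfl⟩
      rcases i with i | i
      · apply hC
        change a i ∈ C
        have h1 : a i ∈ Submodule.span L (Set.range a) := Submodule.subset_span ⟨i, rfl⟩
        rwa [haC] at h1
      · exact hy₀Λ
    · rw [finrank_span_eq_card hbi, hr]
      simp
  let D : (Fin (finrank L C) ⊕ Unit → ι) → (ι → L) →ₗ[L] L := fun e => ba3D a e
  have hDC : ∀ e, ∀ y ∈ C, D e y = 0 := by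
    intro e y hy
    rw [← haC] at hy
    have hle : Submodule.span L (Set.range a) ≤ LinearMap.ker (D e) := by
      rw [Submodule.span_le]
      rintro _ ⟨i, rfl⟩
      change (Matrix.of fun i' j => Sum.elim a (fun _ : Unit => a i) i' (e j)).det = 0
      exact Matrix.det_zero_of_row_eq (i := Sum.inl i) (j := Sum.inr ()) (by simp)
        (by funext j; rfl)
    exact hle hy
  let E : ι → ι → L := fun k j => if k = j then 1 else 0
  let l : (Fin (finrank L C) ⊕ Unit → ι) → ι → L := fun e k => (D e y₀)⁻¹ * D e (E k)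
  have hl : ∀ e y, ∑ k, l e k * y k = (D e y₀)⁻¹ * D e y := by
    intro e y
    have h1 : D e y = ∑ k, y k • D e (E k) := LinearMap.pi_apply_eq_sum_univ (D e) y
    rw [h1, Finset.mul_sum]
    refine Finset.sum_congr rfl fun k _ => ?_
    simp only [l, smul_eq_mul]
    ring
  have hagree : ∀ e e', D e y₀ ≠ 0 → D e' y₀ ≠ 0 → ∀ y ∈ Λ,
      ∑ k, l e k * y k = ∑ k, l e' k * y k := by
    intro e e' he he' y hy
    rw [hl, hl]
    let f : (ι → L) →ₗ[L] L := (D e y₀)⁻¹ • D e - (D e' y₀)⁻¹ • D e'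
    have hle : Submodule.span L (Set.range b) ≤ LinearMap.ker f := by
      rw [Submodule.span_le]
      rintro _ ⟨i, rfl⟩
      rcases i with i | i
      · have hi : a i ∈ C := by
          have h1 : a i ∈ Submodule.span L (Set.range a) := Submodule.subset_span ⟨i, rfl⟩
          rwa [haC] at h1
        change (D e y₀)⁻¹ * D e (a i) - (D e' y₀)⁻¹ * D e' (a i) = 0
        rw [hDC e _ hi, hDC e' _ hi, mul_zero, mul_zero, sub_zero]
      · change (D e y₀)⁻¹ * D e y₀ - (D e' y₀)⁻¹ * D e' y₀ = 0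
        rw [inv_mul_cancel₀ he, inv_mul_cancel₀ he', sub_self]
    rw [← hbs] at hy
    have h1 : (D e y₀)⁻¹ * D e y - (D e' y₀)⁻¹ * D e' y = 0 := hle hy
    exact sub_eq_zero.1 h1
  have hne : (fun e : Fin (finrank L C) ⊕ Unit → ι => (Matrix.of fun i j => b i (e j)).det) ≠ 0 := by
    intro h0
    refine pl_ne_zero (1 : Valuation L ℤᵐ⁰) hbi ?_
    unfold pl
    rw [h0, vmax_eq_zero_iff]
  obtain ⟨e₀, he₀, -, -⟩ := exists_vmax (1 : Valuation L ℤᵐ⁰) hne
  refine ⟨l e₀, fun w => log (pl w.1 a) - log (pl w.1 b), ?_, ?_, ?_, ⟨y₀, hy₀Λ, ?_⟩, ?_⟩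
  · exact ((pl_support h ha).union (pl_support h hbi)).subset (Function.support_sub _ _)
  · rw [finsum_sub_distrib (pl_support h ha) (pl_support h hbi), ← ht_span h ha, ← ht_span h hbi,
      haC, hbs]
  · intro y hy
    rw [hl, hDC e₀ y hy, mul_zero]
  · rw [hl]
    exact mul_ne_zero (inv_ne_zero he₀) he₀
  · intro w
    obtain ⟨e, he, hemax, -⟩ := exists_vmax w.1 hne
    refine ⟨l e, fun k => ?_, fun y hy => hagree e e₀ he he₀ y hy⟩
    have h1 : w.1 (D e (E k)) ≤ pl w.1 a := by
      have h2 : w.1 (D e (E k)) ≤ pl w.1 (Sum.elim a (fun _ : Unit => E k)) :=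
        le_vmax w.1 (fun e : Fin (finrank L C) ⊕ Unit → ι =>
          (Matrix.of fun i j => Sum.elim a (fun _ : Unit => E k) i (e j)).det) e
      have h3 := pl_sum_le w.1 a (fun _ : Unit => E k)
      have h4 : pl w.1 (fun _ : Unit => E k) ≤ 1 := by
        refine pl_le_one w.1 fun _ j => ?_
        simp only [E]
        split_ifs
        · rw [map_one]
        · rw [map_zero]; exact zero_le
      calc w.1 (D e (E k)) ≤ pl w.1 a * pl w.1 (fun _ : Unit => E k) := h2.trans h3
        _ ≤ pl w.1 a * 1 := mul_le_mul_right h4 _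
        _ = pl w.1 a := mul_one _
    have h5 : pl w.1 b = w.1 (D e y₀) := hemax
    have h6 : (w.1 (D e y₀)) ≠ 0 := (w.1.ne_zero_iff).mpr he
    simp only [l]
    rw [map_mul, map_inv₀, exp_sub, exp_log (pl_ne_zero w.1 ha), exp_log (pl_ne_zero w.1 hbi), h5,
      div_eq_inv_mul]
    exact mul_le_mul_right h1 _

end

/-- **The relative absolute Siegel lemma for linear forms.** -/
theorem siegel_rel_abs {κ : Type*} {K : Type u} [Field κ] [IsAlgClosed κ] [CharZero κ] [Field K]
    [Algebra κ K] {ι : Type*} [Fintype ι] (h : IsFF κ K) {A B : Submodule K (ι → K)}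
    (hAB : A ≤ B) (hne : A ≠ B) {a : ℝ}
    (ha : a * ((finrank K B : ℝ) - finrank K A) < (ht κ B : ℝ) - ht κ A) :
    ∃ (L : Type u) (_ : Field L) (_ : Algebra κ L) (_ : Algebra K L) (_ : IsScalarTower κ K L)
      (_ : FiniteDimensional K L) (_ : IsGalois K L) (l : ι → L) (τ : Place κ L → ℤ) (b : ℤ),
      (Function.support τ).Finite ∧ (∑ᶠ w, τ w) = -b ∧ finrank K L * a ≤ b ∧
      (∀ y ∈ bc L A, ∑ k, l k * y k = 0) ∧ (∃ y ∈ bc L B, ∑ k, l k * y k ≠ 0) ∧
      ∀ w : Place κ L, ∃ m : ι → L, (∀ k, w.1 (m k) ≤ exp (τ w)) ∧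
        ∀ y ∈ bc L B, ∑ k, m k * y k = ∑ k, l k * y k := by
  have hlt : finrank K A < finrank K B :=
    Submodule.finrank_lt_finrank_of_lt (lt_of_le_of_ne hAB hne)
  obtain ⟨r, hr⟩ : ∃ r, finrank K B = finrank K A + (r + 1) := by
    obtain ⟨k, hk⟩ := Nat.exists_eq_add_of_lt hlt
    exact ⟨k, by omega⟩
  have hr0 : (0 : ℝ) < (r : ℝ) + 1 := by positivity
  have hε : (0 : ℝ) < ((ht κ B : ℝ) - ht κ A) / ((r : ℝ) + 1) - a := by
    rw [sub_pos, lt_div_iff₀ hr0]
    rw [hr] at ha
    push_cast at ha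
    linarith
  obtain ⟨L, fL, aκL, aKL, tL, dL, gL, C, hAC, hCB, hCr, hCht⟩ :=
    (hyperplane_rel r K h A B hAB hr _ hε).galois h
  have hL : IsFF κ L := h.of_finite
  obtain ⟨l, τ, hτ, hsum, hker, hne', hm⟩ := form_of_hyperplane_ker hL hCB (by
    rw [finrank_bc, hr, hCr]
    ring)
  refine ⟨L, fL, aκL, aKL, tL, dL, gL, l, τ, ht κ (bc L B) - ht κ C, hτ, by rw [hsum]; ring, ?_,
    fun y hy => hker y (hAC hy), hne', hm⟩
  rw [ht_bc h]
  push_cast
  have h1 : (finrank K L : ℝ) * (ht κ A + (1 - 1 / ((r : ℝ) + 1)) * (ht κ B - ht κ A) +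
      (((ht κ B : ℝ) - ht κ A) / ((r : ℝ) + 1) - a)) = finrank K L * (ht κ B - a) := by
    field_simp
    ring
  rw [h1] at hCht
  linarith

/-- **The relative absolute Siegel lemma for vectors.** -/
theorem line_rel_abs {κ : Type*} {K : Type u} [Field κ] [IsAlgClosed κ] [CharZero κ] [Field K]
    [Algebra κ K] {ι : Type*} [Fintype ι] (h : IsFF κ K) {A B : Submodule K (ι → K)}
    (hAB : A ≤ B) (hne : A ≠ B) {a : ℝ}
    (ha : (ht κ B : ℝ) - ht κ A < a * ((finrank K B : ℝ) - finrank K A)) :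
    ∃ (L : Type u) (_ : Field L) (_ : Algebra κ L) (_ : Algebra K L) (_ : IsScalarTower κ K L)
      (_ : FiniteDimensional K L) (_ : IsGalois K L), ∃ y ∈ bc L B, y ∉ bc L A ∧
        (ht κ (bc L A ⊔ Submodule.span L {y}) : ℝ) ≤ finrank K L * (ht κ A + a) := by
  have hlt : finrank K A < finrank K B :=
    Submodule.finrank_lt_finrank_of_lt (lt_of_le_of_ne hAB hne)
  obtain ⟨r, hr⟩ : ∃ r, finrank K B = finrank K A + (r + 1) := by
    obtain ⟨k, hk⟩ := Nat.exists_eq_add_of_lt hlt
    exact ⟨k, by omega⟩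
  have hr0 : (0 : ℝ) < (r : ℝ) + 1 := by positivity
  have hε : (0 : ℝ) < a - ((ht κ B : ℝ) - ht κ A) / ((r : ℝ) + 1) := by
    rw [sub_pos, div_lt_iff₀ hr0]
    rw [hr] at ha
    push_cast at ha
    linarith
  obtain ⟨L, fL, aκL, aKL, tL, dL, gL, C, hAC, hCB, hCr, hCht⟩ :=
    (line_rel r K h A B hAB hr _ hε).galois h
  have h1 : ¬ C ≤ bc L A := by
    intro h0
    have h2 := Submodule.finrank_mono h0
    rw [finrank_bc, hCr] at h2
    omega
  obtain ⟨y, hyC, hyA⟩ := SetLike.not_le_iff_exists.1 h1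
  refine ⟨L, fL, aκL, aKL, tL, dL, gL, y, hCB hyC, hyA, ?_⟩
  have h2 : bc L A ⊔ Submodule.span L {y} = C := by
    refine Submodule.eq_of_le_of_finrank_le (sup_le hAC ?_) ?_
    · rw [Submodule.span_singleton_le_iff_mem]
      exact hyC
    · have h3 : finrank L (bc L A) < finrank L (bc L A ⊔ Submodule.span L {y} :
          Submodule L (ι → L)) := by
        refine Submodule.finrank_lt_finrank_of_lt (lt_of_le_of_ne le_sup_left fun h0 => hyA ?_)
        rw [h0]
        exact Submodule.mem_sup_right (Submodule.mem_span_singleton_self y)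
      rw [finrank_bc] at h3
      omega
  rw [h2]
  refine hCht.trans (le_of_eq ?_)
  ring

/-- **The absolute Siegel lemma for vectors.** -/
theorem small_vec_abs {κ : Type*} {K : Type u} [Field κ] [IsAlgClosed κ] [CharZero κ] [Field K]
    [Algebra κ K] {ι : Type*} [Fintype ι] (h : IsFF κ K) {B : Submodule K (ι → K)}
    (hB : B ≠ ⊥) {a : ℝ} (ha : (ht κ B : ℝ) < a * finrank K B) :
    ∃ (L : Type u) (_ : Field L) (_ : Algebra κ L) (_ : Algebra K L) (_ : IsScalarTower κ K L)
      (_ : FiniteDimensional K L) (_ : IsGalois K L), ∃ y ∈ bc L B, y ≠ 0 ∧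
        (height κ y : ℝ) ≤ finrank K L * a := by
  obtain ⟨L, fL, aκL, aKL, tL, dL, gL, y, hyB, hy0, hyh⟩ := line_rel_abs h (A := ⊥) (B := B)
    bot_le (Ne.symm hB) (a := a) (by
      rw [ht_bot h, finrank_bot]
      simpa using ha)
  have hL : IsFF κ L := h.of_finite
  rw [bc_bot, Submodule.mem_bot] at hy0
  refine ⟨L, fL, aκL, aKL, tL, dL, gL, y, hyB, hy0, ?_⟩
  rw [bc_bot, bot_sup_eq, ht_single hL hy0, ht_bot h] at hyh
  simpa using hyh

end Pool.Agent.Lib.MP_44a246_ntSH
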