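import Mathlib
import Pool.Agent.Lib.MP_44a246_ntSH.B20
import Pool.Agent.Lib.MP_44a246_ntO.OS6

/-!
Paper 619 without the genus: interfaces.

`HypL` and `HypPL` are the hypotheses `HypO` and `HypP` without the genus: the error `E` is any
positive real number such that `E (n + 2) ^ 20` is at most the height of the point.
-/

namespace Pool.Agent.Lib.MP_44a246_ntSH

open Pool.Agent.Lib.MP_44a246_nt
open Pool.Agent.Lib.MP_44a246_ntL
open Pool.Agent.Lib.MP_44a246_ntS
open Pool.Agent.Lib.MP_44a246_ntF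
open Pool.Agent.Lib.MP_44a246_ntO
open Pool.Agent.Lib.MP_44a246_ntX
open Pool.Agent.Lib.MP_e52354_nt
open WithZero Module

/-- The hypotheses on the point, without the genus and without the rows. -/
structure HypL (κ : Type*) {L : Type*} [Field κ] [Field L] [Algebra κ L] {n : ℕ}
    (x : Fin (n + 1) → L) (C₀ M E : ℝ) : Prop where
  ne : x ≠ 0
  slope : ∀ Q : Submodule L (Fin (n + 1) → L), x ∈ Q →
    (height κ x : ℝ) - ht κ Q ≤ M * ((finrank L Q : ℝ) - 1)
  pos : 0 ≤ M
  small : M * n ≤ C₀ * height κ x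
  hE : 0 < E
  big : E * ((n : ℝ) + 2) ^ 20 ≤ height κ x

/-- The hypotheses on the point for `p` blocks, without the genus. -/
structure HypPL (κ : Type*) {L : Type*} [Field κ] [Field L] [Algebra κ L] {n p : ℕ}
    (x : Fin (n + 1) → L) (d : Fin p → ℕ) (c : ℕ) (C₀ M E : ℝ) : Prop where
  ne : x ≠ 0
  slope : ∀ Q : Submodule L (Fin (n + 1) → L), x ∈ Q →
    (height κ x : ℝ) - ht κ Q ≤ M * ((finrank L Q : ℝ) - 1)
  pos : 0 ≤ M
  small : M * n ≤ C₀ * height κ x
  hd : n + 2 ≤ ∑ j, d j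
  hd2 : ∀ j, 2 ≤ d j
  rows : RowsP κ x d c E
  hE : 0 < E
  big : E * ((n : ℝ) + 2) ^ 20 ≤ height κ x

section

variable {κ L : Type*} [Field κ] [Field L] [Algebra κ L] {n p : ℕ} {x : Fin (n + 1) → L}
  {d : Fin p → ℕ} {c : ℕ} {C₀ C₁ M E E' : ℝ}

theorem HypPL.toL (hyp : HypPL κ x d c C₀ M E) : HypL κ x C₀ M E :=
  ⟨hyp.ne, hyp.slope, hyp.pos, hyp.small, hyp.hE, hyp.big⟩

theorem HypL.H_pos (hyp : HypL κ x C₀ M E) : (0 : ℝ) < height κ x := by
  have h1 := hyp.hE
  exact lt_of_lt_of_le (by positivity) hyp.big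

theorem HypL.mono (hyp : HypL κ x C₀ M E) (hC : C₀ ≤ C₁) : HypL κ x C₁ M E :=
  ⟨hyp.ne, hyp.slope, hyp.pos, hyp.small.trans (mul_le_mul_of_nonneg_right hC hyp.H_pos.le),
    hyp.hE, hyp.big⟩

/-- the multiples of the error are small -/
theorem HypL.le (hyp : HypL κ x C₀ M E) {b : ℝ} (hb : b ≤ ((n : ℝ) + 2) ^ 20) :
    b * E ≤ height κ x :=
  (mul_le_mul_of_nonneg_right hb hyp.hE.le).trans (by rw [mul_comm]; exact hyp.big)

/-- the rows with a larger error term -/
theorem RowsP.mono (h : RowsP κ x d c E) (hE : E ≤ E') : RowsP κ x d c E' := by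
  intro Λ Λ' t t' h1 h2 h3 h4 h5
  obtain ⟨ν, W, h6, h7, h8, h9⟩ := h Λ Λ' t t' h1 h2 h3 h4 h5
  exact ⟨ν, W, h6, h7, by linarith, h9⟩

end

section

variable {κ K L : Type*} [Field κ] [IsAlgClosed κ] [CharZero κ] [Field K] [Algebra κ K]
  [Field L] [Algebra κ L] [Algebra K L] [IsScalarTower κ K L] [FiniteDimensional K L]
  [IsGalois K L] {n : ℕ} {x : Fin (n + 1) → K} {C₀ M E : ℝ}

/-- **The hypotheses in a finite Galois extension.** -/
theorem HypL.ext (h : IsFF κ K) (hyp : HypL κ x C₀ M E) :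
    HypL κ (fun i => algebraMap K L (x i)) C₀ (finrank K L * M) (finrank K L * E) := by
  have hN : (0 : ℝ) < finrank K L := by exact_mod_cast Module.finrank_pos (R := K) (M := L)
  have hH : (height κ (fun i => algebraMap K L (x i)) : ℝ) = finrank K L * height κ x := by
    exact_mod_cast (h.of_finite : IsFF κ L).height_ext (K := K) hyp.ne
  refine ⟨fun h0 => hyp.ne ?_, fun Q hQ => slope_bc h hyp.ne hyp.slope hQ,
    mul_nonneg hN.le hyp.pos, ?_, mul_pos hN hyp.hE, ?_⟩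
  · funext i
    have h1 := congrFun h0 i
    rw [Pi.zero_apply] at h1 ⊢
    exact (map_eq_zero _).1 h1
  · rw [hH]
    have h1 := mul_le_mul_of_nonneg_left hyp.small hN.le
    linarith
  · rw [hH]
    have h1 := mul_le_mul_of_nonneg_left hyp.big hN.le
    linarith

end

end Pool.Agent.Lib.MP_44a246_ntSH
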