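import Mathlib
import Pool.Agent.Lib.MP_44a246_ntSH.BA00
import Pool.Agent.Lib.MP_44a246_ntO.OS7a
import Pool.Agent.Lib.MP_44a246_ntSH.Q3

/-!
Paper 619 without the genus: extension of scalars for the spaces of the contractions; descent of the
rank of a functional on quadratic forms.
-/

namespace Pool.Agent.Lib.MP_44a246_ntSH

open Pool.Agent.Lib.MP_44a246_nt
open Pool.Agent.Lib.MP_44a246_ntL
open Pool.Agent.Lib.MP_44a246_ntS
open Pool.Agent.Lib.MP_44a246_ntF
open Pool.Agent.Lib.MP_44a246_ntO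
open Pool.Agent.Lib.MP_e52354_nt
open WithZero Module

section

variable {K L : Type*} [Field K] [Field L] [Algebra K L]

/-- extension of scalars of a vector, as a linear map -/
noncomputable def amL (K L : Type*) [Field K] [Field L] [Algebra K L] (ι : Type*) :
    (ι → K) →ₗ[K] (ι → L) := (Algebra.linearMap K L).compLeft ι

theorem amL_apply {ι : Type*} (y : ι → K) : amL K L ι y = fun k => algebraMap K L (y k) := rfl

/-- the extension of `A` is contained in `B` if the vectors of `A` are in `B` -/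
theorem bc_le {ι : Type*} {A : Submodule K (ι → K)} {B : Submodule L (ι → L)}
    (h : ∀ y ∈ A, (fun k => algebraMap K L (y k)) ∈ B) : bc L A ≤ B := by
  unfold bc
  rw [Submodule.span_le]
  rintro _ ⟨y, hy, rfl⟩
  exact h y hy

theorem bc_singleton {ι : Type*} (y : ι → K) :
    bc L (Submodule.span K {y}) = Submodule.span L {fun k => algebraMap K L (y k)} := by
  rw [bc_span, Set.image_singleton]

theorem bc_sup {ι : Type*} (A B : Submodule K (ι → K)) : bc L (A ⊔ B) = bc L A ⊔ bc L B := by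
  refine le_antisymm (bc_le fun y hy => ?_) (sup_le (bc_mono le_sup_left) (bc_mono le_sup_right))
  obtain ⟨a, ha, b, hb, rfl⟩ := Submodule.mem_sup.1 hy
  have h1 : (fun k => algebraMap K L ((a + b) k)) =
      (fun k => algebraMap K L (a k)) + fun k => algebraMap K L (b k) := by
    funext k
    simp
  rw [h1]
  exact Submodule.add_mem_sup (am_mem_bc ha) (am_mem_bc hb)

variable {n e : ℕ}

theorem ex_am (u : EX n e → K) (I : Fin n →₀ ℕ) :
    ex (fun J => algebraMap K L (u J)) I = algebraMap K L (ex u I) := by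
  unfold ex
  split_ifs
  · rfl
  · rw [map_zero]

theorem cf_am (φ : Fin n →₀ ℕ) (i : ℕ) (u : EX n e → K) :
    cf (MvPolynomial.monomial φ (1 : L)) i (fun J => algebraMap K L (u J)) =
      fun J => algebraMap K L (cf (MvPolynomial.monomial φ (1 : K)) i u J) := by
  funext ψ
  rw [cf_apply, cf_apply, MvPolynomial.monomial_mul, MvPolynomial.monomial_mul, mul_one, mul_one,
    pr_monomial, pr_monomial, one_mul, one_mul, ex_am]

/-- the spaces of the contractions and extension of scalars -/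
theorem lam_bc (i : ℕ) (W : Submodule K (EX n e → K)) : lam i (bc L W) = bc L (lam i W) := by
  refine le_antisymm (lam_le fun φ u hu => ?_) (bc_le fun y hy => ?_)
  · have h1 : bc L W ≤ (bc L (lam i W)).comap (cf (MvPolynomial.monomial φ.1 1) i) := by
      refine bc_le fun v hv => ?_
      rw [Submodule.mem_comap, cf_am]
      exact am_mem_bc (Submodule.mem_iSup_of_mem φ ⟨v, hv, rfl⟩)
    exact h1 hu
  · have h1 : lam i W ≤ ((lam i (bc L W)).restrictScalars K).comap (amL K L (EX n i)) := by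
      refine lam_le fun φ v hv => ?_
      rw [Submodule.mem_comap, amL_apply, Submodule.restrictScalars_mem, ← cf_am]
      exact Submodule.mem_iSup_of_mem φ ⟨_, am_mem_bc hv, rfl⟩
    exact h1 hy

/-- the rank does not change -/
theorem finrank_lam_am (q : EX n 2 → K) :
    finrank L (lam 1 (L ∙ (fun J => algebraMap K L (q J)) : Submodule L (EX n 2 → L))) =
      finrank K (lam 1 (K ∙ q)) := by
  rw [← bc_singleton, lam_bc, finrank_bc]

/-- **Descent of the rank.** -/
theorem exists_rank_descent [Infinite K] {Λ : Submodule K (EX n 2 → K)} {q : EX n 2 → L}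
    (hq : q ∈ bc L Λ) :
    ∃ q₀ ∈ Λ, finrank L (lam 1 (L ∙ q)) ≤ finrank K (lam 1 (K ∙ q₀)) := by
  let g : (EX n 2 → K) →+ ((EX n 1 → L) →ₗ[L] (EX n 1 → L)) :=
    (Tq (L := L) (n := n)).toAddMonoidHom.comp (amL K L (EX n 2)).toAddMonoidHom
  have hg : ∀ u, g u = Tq fun J => algebraMap K L (u J) := fun u => rfl
  let S : AddSubmonoid ((EX n 1 → L) →ₗ[L] (EX n 1 → L)) := Λ.toAddSubmonoid.map g
  have hS : ∀ (c : K), ∀ T ∈ S, algebraMap K L c • T ∈ S := by
    rintro c _ ⟨u, hu, rfl⟩
    refine ⟨c • u, Λ.smul_mem c hu, ?_⟩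
    rw [hg, hg, ← map_smul]
    congr 1
    funext k
    simp
  have hspan : bc L Λ ≤ (Submodule.span L (S : Set ((EX n 1 → L) →ₗ[L] (EX n 1 → L)))).comap Tq :=
    bc_le fun u hu => Submodule.subset_span ⟨u, hu, rfl⟩
  obtain ⟨T₀, ⟨u, hu, rfl⟩, h1⟩ := exists_rank_le (κ := K) S hS (hspan hq)
  refine ⟨u, hu, ?_⟩
  rw [hg, range_Tq, range_Tq, finrank_lam_am] at h1
  exact h1

/-- a bound for the ranks holds after an extension -/
theorem rank_bc_le [Infinite K] {Λ : Submodule K (EX n 2 → K)} {ρ : ℕ}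
    (hρ : ∀ q ∈ Λ, finrank K (lam 1 (K ∙ q)) ≤ ρ) {q : EX n 2 → L} (hq : q ∈ bc L Λ) :
    finrank L (lam 1 (L ∙ q)) ≤ ρ := by
  obtain ⟨q₀, h1, h2⟩ := exists_rank_descent hq
  exact h2.trans (hρ q₀ h1)

end

end Pool.Agent.Lib.MP_44a246_ntSH
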