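import Mathlib
import Pool.Agent.Lib.MP_44a246_ntA.P01b
import Pool.Agent.Lib.MP_44a246_ntSH.AH1

/-!
# Extension of scalars: orthogonal spaces, bilinear maps, slopes of quotients
-/

namespace Pool.Agent.Lib.MP_44a246_ntSH

open Pool.Agent.Lib.MP_44a246_nt
open Pool.Agent.Lib.MP_44a246_ntL
open Pool.Agent.Lib.MP_44a246_ntS
open Pool.Agent.Lib.MP_44a246_ntF
open Pool.Agent.Lib.MP_44a246_ntO
open Pool.Agent.Lib.MP_44a246_ntA
open Pool.Agent.Lib.MP_e52354_nt
open WithZero Module

section

variable {K L : Type*} [Field K] [Field L] [Algebra K L]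

/-- the orthogonal space and extension of scalars -/
theorem orth_bc {ι : Type*} [Fintype ι] (A : Submodule K (ι → K)) :
    orth (bc L A) = bc L (orth A) := by
  symm
  refine Submodule.eq_of_le_of_finrank_eq (bc_le fun m hm => ?_) ?_
  · have h1 : bc L A ≤ orth (Submodule.span L {fun k => algebraMap K L (m k)}) := by
      refine bc_le fun y hy => ?_
      rw [mem_orth_single]
      have h2 := hm y hy
      rw [← map_zero (algebraMap K L), ← h2, map_sum]
      exact Finset.sum_congr rfl fun i _ => by rw [map_mul, mul_comm]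
    intro y hy
    have h2 := mem_orth_single.1 (h1 hy)
    rw [← h2]
    exact Finset.sum_congr rfl fun i _ => mul_comm _ _
  · have h1 := finrank_orth (bc L A)
    have h2 := finrank_orth A
    rw [finrank_bc] at h1 ⊢
    omega

/-- bilinear maps and extension of scalars -/
theorem bc_bilin {σ E E' : Type*} [Fintype σ] [Fintype E] {T : σ → Matrix E' E K}
    {P : Submodule K (σ → K)} {Q : Submodule K (E → K)} {R : Submodule K (E' → K)}
    (h : ∀ F ∈ P, ∀ b ∈ Q, (∑ s, F s • T s).mulVec b ∈ R) {F : σ → L} (hF : F ∈ bc L P)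
    {b : E → L} (hb : b ∈ bc L Q) :
    (∑ s, F s • (T s).map (algebraMap K L)).mulVec b ∈ bc L R := by
  have h1 : ∀ F ∈ P, bc L Q ≤ (bc L R).comap
      (Matrix.mulVecLin (∑ s, algebraMap K L (F s) • (T s).map (algebraMap K L))) := by
    intro F hF
    refine bc_le fun y hy => ?_
    rw [Submodule.mem_comap, Matrix.mulVecLin_apply]
    have h2 : (∑ s, algebraMap K L (F s) • (T s).map (algebraMap K L)).mulVec
        (fun k => algebraMap K L (y k)) =
        fun k => algebraMap K L ((∑ s, F s • T s).mulVec y k) := by
      funext k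
      rw [RingHom.map_mulVec]
      have h3 : (∑ s, F s • T s).map (algebraMap K L) =
          ∑ s, algebraMap K L (F s) • (T s).map (algebraMap K L) := by
        ext i j
        rw [Matrix.map_apply, Matrix.sum_apply, Matrix.sum_apply, map_sum]
        exact Finset.sum_congr rfl fun s _ => by
          rw [Matrix.smul_apply, Matrix.smul_apply, Matrix.map_apply, smul_eq_mul, smul_eq_mul,
            map_mul]
      rw [h3]
      rfl
    rw [h2]
    exact am_mem_bc (h F hF y hy)
  have h2 : bc L P ≤ (bc L R).comap
      ({ toFun := fun F => (∑ s, F s • (T s).map (algebraMap K L)).mulVec b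
         map_add' := fun F G => by
          rw [← Matrix.add_mulVec, ← Finset.sum_add_distrib]
          congr 1
          exact Finset.sum_congr rfl fun s _ => by rw [Pi.add_apply, add_smul]
         map_smul' := fun c F => by
          rw [RingHom.id_apply, ← Matrix.smul_mulVec, Finset.smul_sum]
          congr 1
          exact Finset.sum_congr rfl fun s _ => by
            rw [Pi.smul_apply, smul_eq_mul, mul_smul] } : (σ → L) →ₗ[L] (E' → L)) := by
    refine bc_le fun F hF => ?_
    rw [Submodule.mem_comap]
    exact h1 F hF hb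
  exact h2 hF

end

section

variable {κ K L : Type*} [Field κ] [IsAlgClosed κ] [CharZero κ] [Field K] [Algebra κ K]
  [Field L] [Algebra κ L] [Algebra K L] [IsScalarTower κ K L] [FiniteDimensional K L]
  [IsGalois K L] {ι : Type*} [Fintype ι]

/-- the slopes of the quotients above a space, in a Galois extension -/
theorem slope_up_bc (h : IsFF κ K) {t : ℝ} {A : Submodule K (ι → K)}
    (hA : ∀ Γ, A ≤ Γ → (ht κ A : ℝ) - ht κ Γ ≤ t * ((finrank K Γ : ℝ) - finrank K A))
    {Γ : Submodule L (ι → L)} (hΓ : bc L A ≤ Γ) :
    (ht κ (bc L A) : ℝ) - ht κ Γ ≤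
      finrank K L * t * ((finrank L Γ : ℝ) - finrank L (bc L A)) := by
  have hL : IsFF κ L := h.of_finite
  have fr : ∀ Y : Submodule K (ι → K), (finrank K Y : ℝ) + finrank K (orth Y) =
      Fintype.card ι := fun Y => by exact_mod_cast finrank_orth Y
  have frL : ∀ Y : Submodule L (ι → L), (finrank L Y : ℝ) + finrank L (orth Y) =
      Fintype.card ι := fun Y => by exact_mod_cast finrank_orth Y
  have h1 : HasSl κ (-t) 0 (orth A) := by
    refine ⟨Submodule.zero_mem _, fun U' hU' _ => ?_⟩
    have h2 := hA (orth U') (by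
      rw [← orth_orth A]
      exact orth_anti hU')
    rw [ht_orth h] at h2
    rw [ht_orth h]
    have h3 := fr A
    have h4 := fr U'
    have h5 : ((finrank K (orth U') : ℝ) - finrank K A) =
        (finrank K (orth A) : ℝ) - finrank K U' := by linarith
    rw [h5] at h2
    linarith
  have h2 := HasSl_bc (L := L) h h1
  have h3 := h2.le (orth Γ) (by
    rw [← orth_bc]
    exact orth_anti hΓ) (by
    have h4 : (fun k : ι => algebraMap K L ((0 : ι → K) k)) = 0 := by
      funext k
      exact map_zero _
    rw [h4]
    exact Submodule.zero_mem _)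
  rw [ht_orth hL, ← orth_bc, ht_orth hL] at h3
  have h5 := frL Γ
  have h6 := frL (bc L A)
  have h7 : ((finrank L (orth (bc L A)) : ℝ) - finrank L (orth Γ)) =
      (finrank L Γ : ℝ) - finrank L (bc L A) := by linarith
  rw [h7] at h3
  linarith

end

end Pool.Agent.Lib.MP_44a246_ntSH
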