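import Mathlib
import Pool.Agent.Lib.MP_44a246_ntSH.RV4
import Pool.Agent.Lib.MP_44a246_ntSH.RV7
import Pool.Agent.Lib.MP_44a246_ntSH.RL2
import Pool.Agent.Lib.MP_44a246_ntSH.BA03

/-!
# The height of the space of the rows, without the genus
-/

namespace Pool.Agent.Lib.MP_44a246_ntSH

open Pool.Agent.Lib.MP_44a246_nt
open Pool.Agent.Lib.MP_44a246_ntL
open Pool.Agent.Lib.MP_44a246_ntS
open Pool.Agent.Lib.MP_44a246_ntF
open Pool.Agent.Lib.MP_44a246_ntO
open Pool.Agent.Lib.MP_44a246_ntA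
open Pool.Agent.Lib.MP_44a246_ntK (piece mem_piece ht_piece)
open Pool.Agent.Lib.MP_e52354_nt
open WithZero Module

universe u

/-- the operator of a combination -/
theorem dd_comb {L : Type*} [Field L] {n e : ℕ} (D : Derivation ℤ L L)
    (A : Matrix (Fin (n + 1)) (Fin (n + 1)) L) {Λ : Submodule L (EX (n + 1) (e + 1) → L)} {ρ : ℕ}
    (c : Fin ρ → L) {q : Fin ρ → EX (n + 1) (e + 1) → L} (hq : ∀ i, q i ∈ Λ) :
    dd D A (∑ i, c i • q i) - ∑ i, c i • dd D A (q i) ∈ Λ := by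
  have h1 : ∀ s : Finset (Fin ρ), dd D A (∑ i ∈ s, c i • q i) - ∑ i ∈ s, c i • dd D A (q i) ∈ Λ := by
    classical
    intro s
    induction s using Finset.induction_on with
    | empty =>
      have h2 : dd D A (0 : EX (n + 1) (e + 1) → L) = 0 := by
        have h3 := dd_add D A (0 : EX (n + 1) (e + 1) → L) 0
        rw [add_zero] at h3
        exact left_eq_add.1 h3
      simp only [Finset.sum_empty, h2, sub_zero]
      exact Λ.zero_mem
    | insert a s ha ih =>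
      rw [Finset.sum_insert ha, Finset.sum_insert ha, dd_add, dd_smul]
      have h2 : D (c a) • q a + c a • dd D A (q a) + dd D A (∑ i ∈ s, c i • q i) -
          (c a • dd D A (q a) + ∑ i ∈ s, c i • dd D A (q i)) =
          D (c a) • q a + (dd D A (∑ i ∈ s, c i • q i) - ∑ i ∈ s, c i • dd D A (q i)) := by
        abel
      rw [h2]
      exact Submodule.add_mem _ (Submodule.smul_mem _ _ (hq a)) ih
  exact h1 Finset.univ

namespace RowU

variable {κ : Type*} {K : Type u} [Field κ] [IsAlgClosed κ] [CharZero κ] [Field K] [Algebra κ K]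
  {n c e : ℕ} {σ : Type*} [Fintype σ] (X : RowU κ (L := K) n c σ)

/-- **The linear data of the rows.** -/
theorem exists_lin {Λ Λ' : Submodule K (EX (n + 1) (e + 1) → K)}
    (hle : Λ ≤ Λ') (hx : xm (e + 1) X.x ∈ Λ) :
    ∃ T : σ → Matrix (EX (n + 1) (e + 1)) (EX (n + 1) (e + 1)) K,
      X.W Λ Λ' = X.U ⊔ Submodule.span K
        {u | ∃ q ∈ Λ, ∃ G ∈ orth Λ', u = fun s => ∑ J, G J * (T s).mulVec q J} ∧
      (∀ F ∈ orth X.U, (∑ s, F s • T s).mulVec (xm (e + 1) X.x) ∈ Λ') ∧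
      ∀ v : Place κ K, ∃ Tv : σ → Matrix (EX (n + 1) (e + 1)) (EX (n + 1) (e + 1)) K,
        (∀ s J J', v.1 (Tv s J J') ≤ exp (X.δ v : ℤ)) ∧
          ∀ s, ∀ b ∈ Λ, (Tv s).mulVec b - (T s).mulVec b ∈ Λ' := by
  classical
  obtain ⟨q, hq, hqs⟩ := SB2b_basis Λ
  have hqΛ : ∀ i, q i ∈ Λ := fun i => by
    have h1 : q i ∈ Submodule.span K (Set.range q) := Submodule.subset_span ⟨i, rfl⟩
    rwa [hqs] at h1
  have hcomb : ∀ b ∈ Λ, ∃ c : Fin (finrank K Λ) → K, ∑ i, c i • q i = b := by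
    intro b hb
    rw [← hqs] at hb
    exact (Submodule.mem_span_range_iff_exists_fun K).1 hb
  have hT : ∀ s, ∃ T : (EX (n + 1) (e + 1) → K) →ₗ[K] (EX (n + 1) (e + 1) → K),
      ∀ i, T (q i) = dd (X.D s) (X.A s) (q i) := by
    intro s
    obtain ⟨T, hT⟩ := LinearMap.exists_extend
      ((Finsupp.linearCombination K fun i => dd (X.D s) (X.A s) (q i)).comp
        (hq.repr : Submodule.span K (Set.range q) →ₗ[K] (Fin (finrank K Λ) →₀ K)))
    refine ⟨T, fun i => ?_⟩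
    have h1 : q i ∈ Submodule.span K (Set.range q) := Submodule.subset_span ⟨i, rfl⟩
    have h2 := congrArg (fun f => f ⟨q i, h1⟩) hT
    simp only [LinearMap.comp_apply, Submodule.subtype_apply] at h2
    rw [h2]
    have h3 : (hq.repr : Submodule.span K (Set.range q) →ₗ[K] (Fin (finrank K Λ) →₀ K))
        ⟨q i, h1⟩ = Finsupp.single i 1 := hq.repr_eq_single i ⟨q i, h1⟩ rfl
    rw [h3, Finsupp.linearCombination_single, one_smul]
  choose T₀ hT₀ using hT
  obtain ⟨T, hTd⟩ : ∃ T : σ → Matrix (EX (n + 1) (e + 1)) (EX (n + 1) (e + 1)) K,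
      ∀ s b, (T s).mulVec b = T₀ s b :=
    ⟨fun s => LinearMap.toMatrix' (T₀ s), fun s b => LinearMap.toMatrix'_mulVec _ _⟩
  have h1 : ∀ s, ∀ b ∈ Λ, dd (X.D s) (X.A s) b - (T s).mulVec b ∈ Λ := by
    intro s b hb
    obtain ⟨c, rfl⟩ := hcomb b hb
    rw [hTd, map_sum]
    have h2 : ∑ i, T₀ s (c i • q i) = ∑ i, c i • dd (X.D s) (X.A s) (q i) :=
      Finset.sum_congr rfl fun i _ => by rw [map_smul, hT₀]
    rw [h2]
    exact dd_comb _ _ _ hqΛ
  refine ⟨T, ?_, ?_, ?_⟩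
  · unfold W
    congr 2
    ext u
    have h2 : ∀ b ∈ Λ, ∀ G ∈ orth Λ', X.r2 b G = fun s => ∑ J, G J * (T s).mulVec b J := by
      intro b hb G hG
      funext s
      have h3 := hG _ (hle (h1 s b hb))
      rw [← sub_eq_zero]
      show ∑ J, G J * dd (X.D s) (X.A s) b J - ∑ J, G J * (T s).mulVec b J = 0
      rw [← Finset.sum_sub_distrib, ← h3]
      exact Finset.sum_congr rfl fun J _ => by rw [Pi.sub_apply]; ring
    constructor
    · rintro ⟨b, hb, G, hG, rfl⟩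
      exact ⟨b, hb, G, hG, h2 b hb G hG⟩
    · rintro ⟨b, hb, G, hG, rfl⟩
      exact ⟨b, hb, G, hG, (h2 b hb G hG).symm⟩
  · intro F hF
    have h2 : X.dF F (xm (e + 1) X.x) ∈ Λ := by
      have h3 := X.dF_xm_mem (e := e) (F := F) fun y hy => hF _ (X.hr y hy)
      refine (Submodule.span_le.2 ?_) h3
      rw [Set.singleton_subset_iff]
      exact hx
    have h3 : (∑ s, F s • T s).mulVec (xm (e + 1) X.x) = X.dF F (xm (e + 1) X.x) -
        ∑ s, F s • (dd (X.D s) (X.A s) (xm (e + 1) X.x) - (T s).mulVec (xm (e + 1) X.x)) := by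
      funext J
      rw [Matrix.sum_mulVec, Pi.sub_apply, Finset.sum_apply, Finset.sum_apply]
      show _ = ∑ s, F s * dd (X.D s) (X.A s) (xm (e + 1) X.x) J - _
      rw [← Finset.sum_sub_distrib]
      refine Finset.sum_congr rfl fun s _ => ?_
      rw [Matrix.smul_mulVec, Pi.smul_apply, Pi.smul_apply, Pi.sub_apply, smul_eq_mul,
        smul_eq_mul]
      ring
    rw [h3]
    refine hle (Submodule.sub_mem _ h2 (Submodule.sum_mem _ fun s _ => ?_))
    exact Submodule.smul_mem _ _ (h1 s _ hx)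
  · intro v
    obtain ⟨g, p, hg, hred⟩ := exists_red v.1 hq
    obtain ⟨q', hq'⟩ : ∃ q' : Fin (finrank K Λ) → EX (n + 1) (e + 1) → K,
        q' = fun i k => ∑ j, g i j * q j k := ⟨_, rfl⟩
    rw [← hq'] at hred
    have hTw : ∀ s, ∃ Tw : Matrix (EX (n + 1) (e + 1)) (EX (n + 1) (e + 1)) K,
        (∀ J J', v.1 (Tw J J') ≤ exp (X.δ v : ℤ)) ∧
        ∀ c : Fin (finrank K Λ) → K, Tw.mulVec (∑ i, c i • q' i) =
          ∑ i, c i • dd (X.D s) (X.A s) (q' i) := by
      intro s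
      obtain ⟨Tw, hTw1, hTw2⟩ := X.exists_Tw v hred.int hred.piv (m := Pi.single s 1) (τ := 0)
        (fun I => by
          by_cases h2 : I = s
          · rw [h2, Pi.single_eq_same, map_one, exp_zero]
          · rw [Pi.single_eq_of_ne h2, map_zero]
            exact zero_le)
      refine ⟨Tw, fun J J' => by simpa using hTw1 J J', fun c => ?_⟩
      rw [hTw2]
      refine Finset.sum_congr rfl fun i _ => ?_
      congr 1
      funext J
      show ∑ s', (Pi.single s 1 : σ → K) s' * dd (X.D s') (X.A s') (q' i) J = _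
      rw [Finset.sum_eq_single s]
      · rw [Pi.single_eq_same, one_mul]
      · intro s' _ hs'
        rw [Pi.single_eq_of_ne hs', zero_mul]
      · intro h2
        exact absurd (Finset.mem_univ _) h2
    choose Tv hTv1 hTv2 using hTw
    refine ⟨Tv, hTv1, fun s b hb => hle ?_⟩
    have hq'j : ∀ i, q' i = ∑ j, g i j • q j := by
      intro i
      funext k
      rw [hq', Finset.sum_apply]
      exact Finset.sum_congr rfl fun j _ => rfl
    have hq'Λ : ∀ i, q' i ∈ Λ := fun i => by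
      rw [hq'j]
      exact Submodule.sum_mem _ fun j _ => Submodule.smul_mem _ _ (hqΛ j)
    obtain ⟨c, hc⟩ := hcomb b hb
    obtain ⟨c', hc'⟩ : ∃ c' : Fin (finrank K Λ) → K, ∑ i, c' i • q' i = b := by
      refine ⟨fun i => ∑ j, c j * g⁻¹ j i, ?_⟩
      rw [← hc]
      have h4 : ∀ i, (∑ j, c j * g⁻¹ j i) • q' i = ∑ k, (∑ j, c j * g⁻¹ j i * g i k) • q k := by
        intro i
        rw [hq'j, Finset.smul_sum]
        refine Finset.sum_congr rfl fun k _ => ?_
        rw [smul_smul, Finset.sum_mul]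
      rw [Finset.sum_congr rfl fun i _ => h4 i, Finset.sum_comm]
      refine Finset.sum_congr rfl fun k _ => ?_
      rw [← Finset.sum_smul]
      congr 1
      rw [Finset.sum_comm]
      have h5 : ∀ j, ∑ i, c j * g⁻¹ j i * g i k = c j * (g⁻¹ * g) j k := by
        intro j
        rw [Matrix.mul_apply, Finset.mul_sum]
        exact Finset.sum_congr rfl fun i _ => by ring
      rw [Finset.sum_congr rfl fun j _ => h5 j,
        Matrix.nonsing_inv_mul g (isUnit_iff_ne_zero.2 hg)]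
      simp [Matrix.one_apply]
    have h4 : (Tv s).mulVec b - dd (X.D s) (X.A s) b ∈ Λ := by
      rw [← hc', hTv2, ← neg_sub]
      exact Submodule.neg_mem _ (dd_comb _ _ _ hq'Λ)
    have h5 : (Tv s).mulVec b - (T s).mulVec b = ((Tv s).mulVec b - dd (X.D s) (X.A s) b) +
        (dd (X.D s) (X.A s) b - (T s).mulVec b) := by abel
    rw [h5]
    exact Submodule.add_mem _ h4 (h1 s b hb)

/-- **(3a) without the genus.** -/
theorem ht_W_le_abs (h : IsFF κ K) {t t' : ℝ} {Λ Λ' : Submodule K (EX (n + 1) (e + 1) → K)}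
    (hΛ : HasSl κ t (xm (e + 1) X.x) Λ) (hle : Λ ≤ Λ')
    (hΛ' : ∀ Γ, Λ' ≤ Γ → (ht κ Λ' : ℝ) - ht κ Γ ≤ t' * ((finrank K Γ : ℝ) - finrank K Λ')) :
    (ht κ (X.W Λ Λ') : ℝ) + (t - t') * ((finrank K (X.W Λ Λ') : ℝ) - finrank K X.U) ≤
      ht κ X.U + ((finrank K (X.W Λ Λ') : ℝ) - finrank K X.U) * X.Δ := by
  have hUW : X.U ≤ X.W Λ Λ' := le_sup_left
  by_cases hne : X.U = X.W Λ Λ'
  · rw [← hne, sub_self, mul_zero, zero_mul]
  have hlt : finrank K X.U < finrank K (X.W Λ Λ') :=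
    lt_of_le_of_ne (Submodule.finrank_mono hUW) fun h0 =>
      hne (Submodule.eq_of_le_of_finrank_eq hUW h0)
  obtain ⟨ν, hν⟩ : ∃ ν : ℝ, ν = (finrank K (X.W Λ Λ') : ℝ) - finrank K X.U := ⟨_, rfl⟩
  have hν0 : 0 < ν := by
    have : (finrank K X.U : ℝ) < finrank K (X.W Λ Λ') := by exact_mod_cast hlt
    rw [hν]
    linarith
  rw [← hν]
  obtain ⟨T, hW, hξ, hloc⟩ := X.exists_lin hle hΛ.mem
  have hδ' : (Function.support fun w => (X.δ w : ℤ)).Finite := by
    refine X.hδ.subset fun w hw h => hw ?_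
    simp only
    rw [h]
    rfl
  -- all smaller slopes
  have key : ∀ a : ℝ, a * ν < (ht κ (X.W Λ Λ') : ℝ) - ht κ X.U → a ≤ X.Δ - (t - t') := by
    intro a ha
    rw [hν] at ha
    obtain ⟨L, iF, iA, iB, iS, iD, iG, l, τ, b, hτ, hsum, hb, hl0, hl, hm⟩ :=
      siegel_rel_abs h hUW hne ha
    have h3 := slope_abs h hW hle hΛ hΛ' hξ hδ' hloc hl0 hl hτ hm
    rw [hsum] at h3
    have hN : (0 : ℝ) < finrank K L := by exact_mod_cast Module.finrank_pos (R := K) (M := L)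
    have h4 : (finrank K L : ℝ) * a ≤ finrank K L * (X.Δ - (t - t')) := by
      have h5 : ((∑ᶠ v, (X.δ v : ℤ) : ℤ) : ℝ) = (X.Δ : ℝ) := rfl
      rw [h5] at h3
      push_cast at h3
      linarith
    exact le_of_mul_le_mul_left h4 hN
  by_contra hcon
  rw [not_le] at hcon
  -- `a` between
  have h1 : (X.Δ - (t - t')) * ν < (ht κ (X.W Λ Λ') : ℝ) - ht κ X.U := by linarith
  obtain ⟨a, ha1, ha2⟩ := _root_.exists_between h1
  have h2 := key (a / ν) (by rw [div_mul_cancel₀ _ hν0.ne']; exact ha2)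
  rw [div_le_iff₀ hν0] at h2
  linarith

end RowU

/-- **Rows for `p` blocks, without the genus.** -/
theorem rowsP_of_data_abs {κ : Type*} {K : Type u} [Field κ] [IsAlgClosed κ] [CharZero κ]
    [Field K] [CharZero K] [Algebra κ K] (h : IsFF κ K) {n c p : ℕ} {d : Fin p → ℕ}
    (X : RowU κ (L := K) n c (Σ j : Fin p, EX (n + 1) (d j)))
    (hxm : ∀ j, xmj d X.x j ∈ X.U) {E₀ : ℝ} (hht : (ht κ X.U : ℝ) ≤ (n + 1) * height κ X.x + E₀) :
    RowsP κ X.x d c (E₀ + Fintype.card (Σ j : Fin p, EX (n + 1) (d j)) * X.Δ) := by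
  intro Λ Λ' t t' ht0 hlt hΛ hle hΛ'
  have hUW : X.U ≤ X.W Λ Λ' := le_sup_left
  have h0 : finrank K X.U ≤ finrank K (X.W Λ Λ') := Submodule.finrank_mono hUW
  have hΔ : 0 ≤ X.Δ := X.Δ_nonneg
  obtain ⟨ν, hν⟩ := Nat.exists_eq_add_of_le h0
  have h1 := X.hU
  have h3 := X.ht_W_le_abs h hΛ hle hΛ'
  obtain ⟨hp1, hp2⟩ := ht_piece h (X.W Λ Λ')
  have hνc : ν ≤ Fintype.card (Σ j : Fin p, EX (n + 1) (d j)) := by
    have h4 := Submodule.finrank_le (X.W Λ Λ')
    rw [Module.finrank_fintype_fun_eq_card] at h4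
    omega
  refine ⟨ν, piece κ (X.W Λ Λ'), fun j => xm_mem_piece κ (hUW (hxm j)), by omega, ?_, ?_⟩
  · have e1 : (finrank K (X.W Λ Λ') : ℝ) - finrank K X.U = ν := by
      rw [hν]; push_cast; ring
    rw [e1] at h3
    have h5 : (ν : ℝ) * X.Δ ≤ Fintype.card (Σ j : Fin p, EX (n + 1) (d j)) * X.Δ :=
      mul_le_mul_of_nonneg_right (by exact_mod_cast hνc) (by exact_mod_cast hΔ)
    have h6 : ∑ j, ((d j : ℝ) * (height κ X.x : ℝ) - (ht κ (piece κ (X.W Λ Λ') j) : ℝ)) =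
        (∑ j, (d j : ℝ)) * height κ X.x - ∑ j, (ht κ (piece κ (X.W Λ Λ') j) : ℝ) := by
      rw [Finset.sum_sub_distrib, Finset.sum_mul]
    have h7 : (∑ j, (ht κ (piece κ (X.W Λ Λ') j) : ℝ)) ≤ ht κ (X.W Λ Λ') := by
      exact_mod_cast hp1
    rw [h6]
    linarith
  · intro q hq
    have h4 := X.finrank_glm_le (Λ := Λ) (Λ' := Λ') hq
    have h5 := two_rank_le q
    have h6 : finrank K (LinearMap.range (glm q)) ≤ ν + finrank K Λ' + n + c := by
      have key : ∀ a b w f : ℕ, w = b + ν → b ≤ n + c → a ≤ w + f → a ≤ ν + f + n + c := by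
        intro a b w f h1 h2 h3
        omega
      exact key _ _ _ _ hν h1 h4
    rw [finrank_lam_one q]
    have h7 : 2 * ((n : ℝ) + 1) * finrank K (spn (K ∙ q)) ≤
        2 * finrank K (LinearMap.range (glm q)) +
          (finrank K (spn (K ∙ q)) : ℝ) * ((finrank K (spn (K ∙ q)) : ℝ) - 1) := by
      rcases Nat.eq_zero_or_pos (finrank K (spn (K ∙ q))) with h8 | h8
      · rw [h8]
        push_cast
        have : (0 : ℝ) ≤ finrank K (LinearMap.range (glm q)) := Nat.cast_nonneg _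
        linarith
      · have h9 : ((finrank K (spn (K ∙ q)) - 1 : ℕ) : ℝ) = (finrank K (spn (K ∙ q)) : ℝ) - 1 := by
          rw [Nat.cast_sub h8, Nat.cast_one]
        rw [← h9]
        exact_mod_cast h5
    have h6R : (finrank K (LinearMap.range (glm q)) : ℝ) ≤ ν + finrank K Λ' + n + c := by
      exact_mod_cast h6
    linarith

/-- **Rows for `p` blocks, without the genus**, with an arbitrary error term. -/
theorem rowsP_of_dataL {κ : Type*} {K : Type u} [Field κ] [IsAlgClosed κ] [CharZero κ]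
    [Field K] [CharZero K] [Algebra κ K] (h : IsFF κ K) {n c p : ℕ} {d : Fin p → ℕ}
    (X : RowU κ (L := K) n c (Σ j : Fin p, EX (n + 1) (d j)))
    (hxm : ∀ j, xmj d X.x j ∈ X.U) {E₀ : ℝ} (hht : (ht κ X.U : ℝ) ≤ (n + 1) * height κ X.x + E₀)
    {ε : ℝ} (hε : 0 < ε) :
    RowsP κ X.x d c (E₀ + Fintype.card (Σ j : Fin p, EX (n + 1) (d j)) * X.Δ + ε) :=
  (rowsP_of_data_abs h X hxm hht).mono (by linarith)

end Pool.Agent.Lib.MP_44a246_ntSH
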