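import Mathlib
import Pool.Agent.Lib.MP_44a246_ntO.OS2
import Pool.Agent.Lib.MP_44a246_ntSH.Lat

/-!
The absolute Siegel lemma in rank two, for arbitrary local norms.
-/

namespace Pool.Agent.Lib.MP_44a246_ntSH

open Pool.Agent.Lib.MP_44a246_nt
open Pool.Agent.Lib.MP_44a246_ntL
open Pool.Agent.Lib.MP_44a246_ntS
open Pool.Agent.Lib.MP_44a246_ntO
open Pool.Agent.Lib.MP_44a246_ntR (genus)
open WithZero Module Polynomial

universe u

section gm

variable {L : Type*} [Field L]

/-- the substitution which belongs to a local norm of the plane -/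
def gm (g : Matrix (Fin 2) (Fin 2) L) : Matrix (Fin 2) (Fin 2) L :=
  !![g 0 1, g 1 1; -(g 0 0), -(g 1 0)]

theorem det_gm (g : Matrix (Fin 2) (Fin 2) L) : (gm g).det = g.det := by
  rw [gm, Matrix.det_fin_two_of, Matrix.det_fin_two]
  ring

theorem gm_map {M : Type*} [Field M] (f : L →+* M) (g : Matrix (Fin 2) (Fin 2) L) :
    (gm g).map f = gm (g.map f) := by
  ext i j
  fin_cases i <;> fin_cases j <;> simp [gm]

private theorem natDegree_lin' (a b : L) : (C b * X - C a : L[X]).natDegree ≤ 1 := by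
  rw [sub_eq_add_neg, ← C_neg]
  exact natDegree_linear_le

private theorem natDegree_prod_lin' {m : ℕ} (a b : Fin m → L) :
    (∏ i, (C (b i) * X - C (a i)) : L[X]).natDegree ≤ m := by
  refine (natDegree_prod_le _ _).trans ?_
  refine (Finset.sum_le_sum fun i _ => natDegree_lin' (a i) (b i)).trans ?_
  simp

theorem gn_lin_le (v : Valuation L ℤᵐ⁰) (g : Matrix (Fin 2) (Fin 2) L) (a b : L) :
    gn v (sub2 1 (gm g) (C b * X - C a)) = vmax v (g.mulVec ![a, b]) := by
  have h1 : sub2 1 (gm g) (C b * X - C a) =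
      C (g.mulVec ![a, b] 0) * X + C (g.mulVec ![a, b] 1) := by
    rw [sub2_linear]
    have e0 : g.mulVec ![a, b] 0 = g 0 0 * a + g 0 1 * b := by
      simp [Matrix.mulVec, dotProduct, Fin.sum_univ_two]
    have e1 : g.mulVec ![a, b] 1 = g 1 0 * a + g 1 1 * b := by
      simp [Matrix.mulVec, dotProduct, Fin.sum_univ_two]
    rw [e0, e1]
    simp only [gm, Matrix.of_apply, Matrix.cons_val', Matrix.cons_val_zero, Matrix.cons_val_one,
      Matrix.cons_val_fin_one, C_add, C_mul, C_neg]
    ring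
  rw [h1]
  apply le_antisymm
  · refine gn_le v fun i => ?_
    rw [coeff_add, coeff_C_mul, coeff_X, coeff_C]
    rcases i with _ | _ | i
    · simp only [one_ne_zero, if_false, mul_zero, zero_add, if_true]
      exact le_vmax v _ 1
    · simp only [zero_add, if_true, mul_one, one_ne_zero, if_false, add_zero]
      exact le_vmax v _ 0
    · have h2 : ¬ (1 = i + 1 + 1) := by omega
      have h3 : ¬ (i + 1 + 1 = 0) := by omega
      rw [if_neg h2, if_neg h3, mul_zero, add_zero, map_zero]
      exact zero_le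
  · refine vmax_le v fun i => ?_
    fin_cases i
    · have h2 := le_gn v (C (g.mulVec ![a, b] 0) * X + C (g.mulVec ![a, b] 1)) 1
      rw [coeff_add, coeff_C_mul, coeff_X, coeff_C, if_pos rfl, if_neg one_ne_zero, mul_one,
        add_zero] at h2
      exact h2
    · have h2 := le_gn v (C (g.mulVec ![a, b] 0) * X + C (g.mulVec ![a, b] 1)) 0
      rw [coeff_add, coeff_C_mul, coeff_X, coeff_C, if_neg one_ne_zero, if_pos rfl, mul_zero,
        zero_add] at h2
      exact h2

theorem gn_prod_gm (v : Valuation L ℤᵐ⁰) (g : Matrix (Fin 2) (Fin 2) L) :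
    ∀ (m : ℕ) (a b : Fin m → L),
    gn v (sub2 m (gm g) (∏ i, (C (b i) * X - C (a i)))) =
      ∏ i, vmax v (g.mulVec ![a i, b i]) := by
  intro m
  induction m with
  | zero =>
    intro a b
    have h1 : sub2 0 (gm g) (1 : L[X]) = 1 := by
      simp [sub2, bf]
    rw [Fin.prod_univ_zero, Fin.prod_univ_zero, h1, gn_one]
  | succ m ih =>
    intro a b
    rw [Fin.prod_univ_castSucc, Fin.prod_univ_castSucc,
      sub2_mul (gm g) (natDegree_prod_lin' (fun i => a i.castSucc) fun i => b i.castSucc)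
        (natDegree_lin' (a (Fin.last m)) (b (Fin.last m))), gn_mul,
      ih (fun i => a i.castSucc) fun i => b i.castSucc, gn_lin_le v]

theorem gn_C_prod_gm (v : Valuation L ℤᵐ⁰) (g : Matrix (Fin 2) (Fin 2) L) {m : ℕ} (c : L)
    (a b : Fin m → L) :
    gn v (sub2 m (gm g) (C c * ∏ i, (C (b i) * X - C (a i)))) =
      v c * ∏ i, vmax v (g.mulVec ![a i, b i]) := by
  have h1 : sub2 m (gm g) (C c * ∏ i, (C (b i) * X - C (a i))) =
      C c * sub2 m (gm g) (∏ i, (C (b i) * X - C (a i))) := by
    unfold sub2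
    rw [Finset.mul_sum]
    refine Finset.sum_congr rfl fun i _ => ?_
    rw [coeff_C_mul, C_mul, mul_assoc]
  rw [h1, gn_mul, gn_C, gn_prod_gm v]

private theorem ba2_coeff {m : ℕ} (s : Fin (m + 1) → L) (j : Fin (m + 1)) :
    (∑ i : Fin (m + 1), C (s i) * X ^ (i : ℕ) : L[X]).coeff j = s j := by
  rw [finsetSum_coeff, Finset.sum_eq_single j]
  · rw [coeff_C_mul, coeff_X_pow_self, mul_one]
  · intro i _ hi
    rw [coeff_C_mul, coeff_X_pow, if_neg (fun h => hi (Fin.ext h.symm)), mul_zero]
  · intro h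
    exact absurd (Finset.mem_univ _) h

private theorem ba2_sub2_coeff {m : ℕ} (G : Matrix (Fin 2) (Fin 2) L) (s : Fin (m + 1) → L)
    (j : Fin (m + 1)) :
    (sub2 m G (∑ i : Fin (m + 1), C (s i) * X ^ (i : ℕ))).coeff j = (Sm m G).mulVec s j := by
  unfold sub2
  rw [finsetSum_coeff, Finset.sum_range]
  simp only [Matrix.mulVec, dotProduct]
  refine Finset.sum_congr rfl fun i _ => ?_
  rw [ba2_coeff, coeff_C_mul, mul_comm]
  rfl

private theorem ba2_sub2_coeff_big {m : ℕ} (G : Matrix (Fin 2) (Fin 2) L) (p : L[X]) {n : ℕ}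
    (hn : m < n) : (sub2 m G p).coeff n = 0 := by
  unfold sub2
  rw [finsetSum_coeff]
  refine Finset.sum_eq_zero fun i hi => ?_
  have h1 : (bf m G i).coeff n = 0 := coeff_eq_zero_of_natDegree_lt
    ((natDegree_bf_le m G (by rw [Finset.mem_range] at hi; omega)).trans_lt hn)
  rw [coeff_C_mul, h1, mul_zero]

end gm

section form

variable {κ K : Type*} [Field κ] [IsAlgClosed κ] [CharZero κ] [Field K] [Algebra κ K]

/-- a binary form of degree `2 m` of small norm, for arbitrary local norms -/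
theorem exists_form_lat (h : IsFF κ K) {g : Place κ K → Matrix (Fin 2) (Fin 2) K}
    (hd0 : ∀ w, (g w).det ≠ 0) (hfin : {w | ¬ VFSharp.Unim w (g w)}.Finite) (m : ℕ) :
    ∃ (p : K[X]) (D : Place κ K → ℤ), p ≠ 0 ∧ p.natDegree ≤ 2 * m ∧
      (Function.support D).Finite ∧
      ∑ᶠ w, D w = m * (∑ᶠ w : Place κ K, log (w.1 (g w).det)) + genus κ K ∧
      ∀ w : Place κ K, gn w.1 (sub2 (2 * m) (gm (g w)) p) ≤ exp (D w) := by
  classical
  obtain ⟨P⟩ := Pool.Agent.Lib.MP_44a246_ntR.exists_place h
  set T : ℤ := ∑ᶠ w : Place κ K, log (w.1 (g w).det) with hT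
  obtain ⟨D, hD⟩ : ∃ D : Place κ K →₀ ℤ, D = Finsupp.single P (m * T + genus κ K) := ⟨_, rfl⟩
  have hDdeg : Pool.Agent.Lib.MP_44a246_ntR.divDeg D = m * T + genus κ K := by
    rw [hD]
    unfold Pool.Agent.Lib.MP_44a246_ntR.divDeg
    rw [Finsupp.sum_single_index rfl]
  have hexp : (2 * m) * (2 * m + 1) / 2 = m * (2 * m + 1) := by
    rw [mul_assoc, Nat.mul_div_cancel_left _ (by norm_num)]
  have hdet : ∀ w : Place κ K, (Sm (2 * m) (gm (g w))).det = (g w).det ^ (m * (2 * m + 1)) := by
    intro w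
    rw [det_Sm, det_gm, hexp]
  have hun : ∀ w : Place κ K, VFSharp.Unim w (g w) → VFSharp.Unim w (Sm (2 * m) (gm (g w))) := by
    intro w hw
    refine ⟨Sm_le_one w.1 _ fun i j => ?_, ?_⟩
    · fin_cases i <;> fin_cases j <;> simp [gm, Valuation.map_neg, hw.1]
    · rw [hdet, map_pow, hw.2, one_pow]
  have hlog : ∀ w : Place κ K, log (w.1 (Sm (2 * m) (gm (g w))).det) =
      (m * (2 * m + 1) : ℕ) * log (w.1 (g w).det) := by
    intro w
    rw [hdet, map_pow, log_pow, nsmul_eq_mul]
  obtain ⟨hfd, hcount⟩ := VFSharp.finrank_latBox h (ρ := Fin (2 * m + 1))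
    (g := fun w => Sm (2 * m) (gm (g w)))
    (fun w => by rw [hdet]; exact pow_ne_zero _ (hd0 w))
    (hfin.subset fun w hw hu => hw (hun w hu)) D
  have hsum : ∑ᶠ w : Place κ K, log (w.1 (Sm (2 * m) (gm (g w))).det) =
      (m * (2 * m + 1) : ℕ) * T := by
    rw [finsum_congr hlog, hT]
    exact (mul_finsum (fun w : Place κ K => log (w.1 (g w).det)) _).symm
  rw [hsum, hDdeg, Fintype.card_fin] at hcount
  have hpos : 0 < finrank κ (VFSharp.latBox (fun w => Sm (2 * m) (gm (g w))) D) := by
    have h1 : (0 : ℤ) < finrank κ (VFSharp.latBox (fun w => Sm (2 * m) (gm (g w))) D) := by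
      refine lt_of_lt_of_le ?_ hcount
      push_cast
      nlinarith
    exact_mod_cast h1
  obtain ⟨⟨s, hs⟩, hs0⟩ := finrank_pos_iff_exists_ne_zero.1 hpos
  rw [VFSharp.mem_latBox] at hs
  have hs0' : s ≠ 0 := fun h0 => hs0 (Subtype.ext h0)
  refine ⟨∑ i : Fin (2 * m + 1), C (s i) * X ^ (i : ℕ), fun w => D w, ?_, ?_, ?_, ?_, ?_⟩
  · intro h0
    apply hs0'
    funext j
    rw [← ba2_coeff s j, h0, coeff_zero]
    rfl
  · refine natDegree_sum_le_of_forall_le _ _ fun i _ => ?_
    refine (natDegree_C_mul_X_pow_le _ _).trans ?_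
    have := i.2
    omega
  · exact D.hasFiniteSupport
  · rw [← hDdeg]
    unfold Pool.Agent.Lib.MP_44a246_ntR.divDeg
    rw [Finsupp.sum]
    refine finsum_eq_sum_of_support_subset _ fun w hw => ?_
    rw [Function.mem_support] at hw
    rw [Finset.mem_coe, Finsupp.mem_support_iff]
    exact hw
  · intro w
    refine gn_le _ fun n => ?_
    by_cases hn : n < 2 * m + 1
    · have h1 := ba2_sub2_coeff (gm (g w)) s ⟨n, hn⟩
      simp only at h1
      rw [h1]
      exact hs w ⟨n, hn⟩
    · rw [ba2_sub2_coeff_big _ _ (by omega), map_zero]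
      exact zero_le

end form

section ext

variable {κ K L : Type*} [Field κ] [IsAlgClosed κ] [CharZero κ] [Field K] [Algebra κ K]
  [Field L] [Algebra κ L] [Algebra K L] [IsScalarTower κ K L] [FiniteDimensional K L]

/-- the height of a vector of the plane with respect to a family of local norms -/
noncomputable def lh (κ : Type*) {K L : Type*} [Field κ] [Field K] [Algebra κ K] [Field L]
    [Algebra κ L] [Algebra K L] [IsScalarTower κ K L] [Algebra.IsAlgebraic K L]
    (g : Place κ K → Matrix (Fin 2) (Fin 2) K) (y : Fin 2 → L) : ℤ :=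
  ∑ᶠ w : Place κ L, log (vmax w.1 (((g (below K w)).map (algebraMap K L)).mulVec y))

/-- the preimage of a finite set of places is finite -/
theorem finite_below (h : IsFF κ K) {S : Set (Place κ K)} (hS : S.Finite) :
    {w : Place κ L | below K w ∈ S}.Finite := by
  classical
  have hf : (Function.support fun v : Place κ K => if v ∈ S then (1 : ℤ) else 0).Finite := by
    refine hS.subset fun v hv => ?_
    by_contra h0
    apply hv
    simp only
    rw [if_neg h0]
  refine (finsum_below (L := L) h hf).1.subset fun w hw => ?_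
  rw [Function.mem_support]
  have hw' : below K w ∈ S := hw
  rw [if_pos hw', mul_one]
  have := one_le_ramIdx (K := K) w.1 w.2.1
  intro h0
  have : (ramIdx K w.1 : ℤ) = 0 := h0
  omega

theorem mulVec_map_ne_zero {g : Matrix (Fin 2) (Fin 2) K} (hg : g.det ≠ 0) {y : Fin 2 → L}
    (hy : y ≠ 0) : (g.map (algebraMap K L)).mulVec y ≠ 0 := by
  intro h0
  apply hy
  have hd : (g.map (algebraMap K L)).det ≠ 0 := by
    have h1 : (g.map (algebraMap K L)).det = algebraMap K L g.det := by
      rw [RingHom.map_det]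
      rfl
    rw [h1]
    exact (_root_.map_ne_zero _).mpr hg
  exact Matrix.eq_zero_of_mulVec_eq_zero hd h0

theorem lh_support (h : IsFF κ K) {g : Place κ K → Matrix (Fin 2) (Fin 2) K}
    (hfin : {w | ¬ VFSharp.Unim w (g w)}.Finite) {y : Fin 2 → L} (hy : y ≠ 0) :
    (Function.support fun w : Place κ L =>
      log (vmax w.1 (((g (below K w)).map (algebraMap K L)).mulVec y))).Finite := by
  have hL : IsFF κ L := h.of_finite
  refine ((finite_below (L := L) h hfin).union (hL.vmax_finite hy)).subset fun w hw => ?_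
  by_contra hcon
  rw [Set.mem_union, not_or] at hcon
  obtain ⟨h1, h2⟩ := hcon
  have h1' : VFSharp.Unim (below K w) (g (below K w)) := not_not.1 h1
  have h2' : vmax w.1 y = 1 := not_not.1 h2
  apply hw
  have hint : ∀ i j, w.1 ((g (below K w)).map (algebraMap K L) i j) ≤ 1 := by
    intro i j
    rw [Matrix.map_apply, below_pow]
    exact pow_le_one' (h1'.1 i j) _
  have hdet : w.1 ((g (below K w)).map (algebraMap K L)).det = exp (-(0 : ℤ)) := by
    have e1 : ((g (below K w)).map (algebraMap K L)).det = algebraMap K L (g (below K w)).det := by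
      rw [RingHom.map_det]
      rfl
    rw [e1, below_pow, h1'.2, one_pow, neg_zero, exp_zero]
  have hle : vmax w.1 (((g (below K w)).map (algebraMap K L)).mulVec y) ≤ 1 := by
    refine vmax_le _ fun i => ?_
    exact VFSharp.mulVec_le w.1 hint (fun j => (le_vmax w.1 y j).trans h2'.le) i
  have hge : 1 ≤ vmax w.1 (((g (below K w)).map (algebraMap K L)).mulVec y) := by
    by_contra hlt
    push Not at hlt
    have h3 : ∀ i, w.1 (((g (below K w)).map (algebraMap K L)).mulVec y i) ≤ exp (-1 : ℤ) := by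
      intro i
      have h4 := (le_vmax w.1 _ i).trans_lt hlt
      by_cases h5 : w.1 (((g (below K w)).map (algebraMap K L)).mulVec y i) = 0
      · rw [h5]; exact zero_le
      · rw [← log_le_iff_le_exp h5]
        have h6 := (log_lt_log h5 one_ne_zero).2 h4
        rw [log_one] at h6
        omega
    have h7 : vmax w.1 y ≤ exp (-1 : ℤ) := by
      refine vmax_le _ fun i => ?_
      have h8 := VFSharp.inv_mulVec_le w.1 hint hdet h3 i
      rwa [add_zero] at h8
    rw [h2'] at h7
    have h9 := (log_le_log one_ne_zero exp_ne_zero).2 h7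
    rw [log_one, log_exp] at h9
    omega
  simp only
  rw [le_antisymm hle hge, log_one]

/-- the local inequality at a place of the extension -/
private theorem ba2_local (w' : Place κ L) {g : Matrix (Fin 2) (Fin 2) K} {d : ℤ} {p : K[X]}
    {n : ℕ} (hG : g.det ≠ 0) (hgn : gn (below K w').1 (sub2 n (gm g) p) ≤ exp d) {c : L}
    {a b : Fin n → L} (hc : c ≠ 0)
    (hp : p.map (algebraMap K L) = C c * ∏ i, (C (b i) * X - C (a i)))
    (hy : ∀ i, (![a i, b i] : Fin 2 → L) ≠ 0) :
    log (w'.1 c) + ∑ i, log (vmax w'.1 ((g.map (algebraMap K L)).mulVec ![a i, b i])) ≤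
      ramIdx K w'.1 * d := by
  have h1 := gn_C_prod_gm w'.1 (g.map (algebraMap K L)) c a b
  have h2 : gn w'.1 (sub2 n (gm (g.map (algebraMap K L)))
      (C c * ∏ i, (C (b i) * X - C (a i)))) ≤ exp ((ramIdx K w'.1 : ℤ) * d) := by
    rw [← hp]
    have h3 : sub2 n (gm (g.map (algebraMap K L))) (p.map (algebraMap K L)) =
        (sub2 n (gm g) p).map (algebraMap K L) := by
      rw [sub2_map, gm_map]
    rw [h3]
    refine gn_le _ fun i => ?_
    rw [coeff_map, below_pow]
    have h4 := (le_gn (below K w').1 (sub2 n (gm g) p) i).trans hgn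
    refine (pow_le_pow_left' h4 _).trans (le_of_eq ?_)
    rw [← exp_nsmul, nsmul_eq_mul]
  rw [h1] at h2
  have hc0 : w'.1 c ≠ 0 := (w'.1.ne_zero_iff).mpr hc
  have hv0 : ∀ i, vmax w'.1 ((g.map (algebraMap K L)).mulVec ![a i, b i]) ≠ 0 := by
    intro i
    rw [Ne, vmax_eq_zero_iff]
    exact mulVec_map_ne_zero hG (hy i)
  have hpr : (∏ i, vmax w'.1 ((g.map (algebraMap K L)).mulVec ![a i, b i])) ≠ 0 :=
    Finset.prod_ne_zero_iff.mpr fun i _ => hv0 i
  have h5 := (log_le_log (mul_ne_zero hc0 hpr) exp_ne_zero).mpr h2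
  have hlogprod : ∀ (s : Finset (Fin n)) (f : Fin n → ℤᵐ⁰), (∀ i, f i ≠ 0) →
      log (∏ i ∈ s, f i) = ∑ i ∈ s, log (f i) := by
    classical
    intro s f hf
    induction s using Finset.induction_on with
    | empty => rw [Finset.prod_empty, Finset.sum_empty, log_one]
    | @insert i s hi ih =>
      rw [Finset.prod_insert hi, Finset.sum_insert hi,
        log_mul (hf i) (Finset.prod_ne_zero_iff.mpr fun j _ => hf j), ih]
  rw [log_exp, log_mul hc0 hpr, hlogprod _ _ hv0] at h5
  exact h5

/-- the sum over all places -/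
private theorem ba2_global (h : IsFF κ K) {g : Place κ K → Matrix (Fin 2) (Fin 2) K}
    (hd0 : ∀ w, (g w).det ≠ 0) (hfin : {w | ¬ VFSharp.Unim w (g w)}.Finite) {p : K[X]} {n : ℕ}
    {D : Place κ K → ℤ} (hD : (Function.support D).Finite)
    (hgn : ∀ w : Place κ K, gn w.1 (sub2 n (gm (g w)) p) ≤ exp (D w)) {c : L} {a b : Fin n → L}
    (hc : c ≠ 0) (hp : p.map (algebraMap K L) = C c * ∏ i, (C (b i) * X - C (a i)))
    (hy : ∀ i, (![a i, b i] : Fin 2 → L) ≠ 0) :
    ∑ i, lh κ g (![a i, b i] : Fin 2 → L) ≤ finrank K L * ∑ᶠ w, D w := by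
  classical
  have hL : IsFF κ L := IsFF.of_finite (K := K) h
  obtain ⟨h1, h2⟩ := finsum_below (L := L) h hD
  have hsupy : ∀ i, (Function.support fun w : Place κ L => log (vmax w.1
      (((g (below K w)).map (algebraMap K L)).mulVec ![a i, b i]))).Finite := fun i =>
    lh_support h hfin (hy i)
  have hsum : (Function.support fun w : Place κ L => ∑ i, log (vmax w.1
      (((g (below K w)).map (algebraMap K L)).mulVec ![a i, b i]))).Finite := by
    refine (Set.finite_iUnion hsupy).subset fun w hw => ?_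
    by_contra hcon
    rw [Set.mem_iUnion, not_exists] at hcon
    apply hw
    simp only
    refine Finset.sum_eq_zero fun i _ => ?_
    have := hcon i
    rw [Function.notMem_support] at this
    exact this
  have h3 : ∑ᶠ w : Place κ L, (log (w.1 c) + ∑ i, log (vmax w.1
      (((g (below K w)).map (algebraMap K L)).mulVec ![a i, b i]))) =
      ∑ i, lh κ g (![a i, b i] : Fin 2 → L) := by
    rw [finsum_add_distrib (hL.place_support hc) hsum, hL.product_formula hc, zero_add,
      finsum_sum_comm _ _ fun i _ => hsupy i]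
    rfl
  rw [← h3, ← h2]
  refine finsum_mono ?_ h1 fun w => ba2_local w (hd0 _) (hgn _) hc hp hy
  refine ((hL.place_support hc).union hsum).subset fun w hw => ?_
  by_contra hcon
  rw [Set.mem_union, not_or, Function.notMem_support, Function.notMem_support] at hcon
  apply hw
  simp only at hcon ⊢
  rw [hcon.1, hcon.2, add_zero]

end ext

/-- **Rank two, for arbitrary local norms.** -/
theorem rank_two_lat {κ : Type*} {K : Type u} [Field κ] [IsAlgClosed κ] [CharZero κ] [Field K]
    [Algebra κ K] (h : IsFF κ K) {g : Place κ K → Matrix (Fin 2) (Fin 2) K}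
    (hd0 : ∀ w, (g w).det ≠ 0) (hfin : {w | ¬ VFSharp.Unim w (g w)}.Finite) {ε : ℝ}
    (hε : 0 < ε) :
    ∃ (L : Type u) (_ : Field L) (_ : Algebra κ L) (_ : Algebra K L) (_ : IsScalarTower κ K L)
      (_ : FiniteDimensional K L), ∃ y : Fin 2 → L, y ≠ 0 ∧
        2 * (lh κ g y : ℝ) ≤
          finrank K L * ((∑ᶠ w : Place κ K, log (w.1 (g w).det) : ℤ) + ε) := by
  classical
  obtain ⟨m0, hm0⟩ := exists_nat_ge ((genus κ K : ℝ) / ε)
  obtain ⟨m, hm⟩ : ∃ m, m = m0 + 1 := ⟨_, rfl⟩
  have hmpos : (0 : ℝ) < m := by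
    rw [hm]
    positivity
  have hgm : (genus κ K : ℝ) ≤ m * ε := by
    rw [div_le_iff₀ hε] at hm0
    refine hm0.trans ?_
    rw [hm]
    push_cast
    nlinarith
  obtain ⟨p, D, hp0, hpd, hD, hDs, hgn⟩ := exists_form_lat h hd0 hfin m
  obtain ⟨c, a, b, hc, hab, hfac⟩ := exists_factors (L := p.SplittingField) (m := 2 * m)
    (p := p.map (algebraMap K p.SplittingField))
    ((Polynomial.map_ne_zero_iff (algebraMap K p.SplittingField).injective).mpr hp0)
    ((Polynomial.natDegree_map_le).trans hpd) (SplittingField.splits p)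
  have hy : ∀ i, (![a i, b i] : Fin 2 → p.SplittingField) ≠ 0 := by
    intro i h0
    have e0 := congrFun h0 0
    have e1 := congrFun h0 1
    rcases hab i with h2 | h2
    · exact h2 e0
    · exact h2 e1
  have hmain := ba2_global (L := p.SplittingField) h hd0 hfin hD hgn hc hfac hy
  rw [hDs] at hmain
  set T : ℤ := ∑ᶠ w : Place κ K, log (w.1 (g w).det) with hT
  have hex : ∃ i : Fin (2 * m), 2 * (m : ℤ) * lh κ g (![a i, b i] : Fin 2 → p.SplittingField) ≤
      finrank K p.SplittingField * (m * T + genus κ K) := by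
    by_contra hcon
    push Not at hcon
    have hne : (Finset.univ : Finset (Fin (2 * m))).Nonempty := ⟨⟨0, by omega⟩, Finset.mem_univ _⟩
    have h1 := Finset.sum_lt_sum_of_nonempty hne fun i _ => hcon i
    rw [Finset.sum_const, Finset.card_univ, Fintype.card_fin, nsmul_eq_mul, ← Finset.mul_sum] at h1
    have h2 : ((2 * m : ℕ) : ℤ) * (finrank K p.SplittingField * (m * T + genus κ K)) =
        2 * (m : ℤ) * (finrank K p.SplittingField * (m * T + genus κ K)) := by
      push_cast
      ring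
    rw [h2] at h1
    have h3 : (0 : ℤ) < 2 * (m : ℤ) := by omega
    have h4 := lt_of_mul_lt_mul_left h1 h3.le
    exact absurd hmain (not_le.mpr h4)
  obtain ⟨i, hi⟩ := hex
  refine ⟨p.SplittingField, inferInstance, inferInstance, inferInstance, inferInstance,
    inferInstance, ![a i, b i], hy i, ?_⟩
  have h1 : (2 * (m : ℝ) * (lh κ g (![a i, b i] : Fin 2 → p.SplittingField) : ℝ)) ≤
      finrank K p.SplittingField * (m * T + genus κ K) := by exact_mod_cast hi
  have h2 : (0 : ℝ) ≤ finrank K p.SplittingField := Nat.cast_nonneg _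
  have h3 : (finrank K p.SplittingField : ℝ) * (m * T + genus κ K) ≤
      finrank K p.SplittingField * (m * T + m * ε) := by
    gcongr
  have h4 : (m : ℝ) * (2 * (lh κ g (![a i, b i] : Fin 2 → p.SplittingField) : ℝ)) ≤
      m * (finrank K p.SplittingField * (T + ε)) := by
    calc _ = 2 * (m : ℝ) * (lh κ g (![a i, b i] : Fin 2 → p.SplittingField) : ℝ) := by ring
      _ ≤ _ := h1
      _ ≤ _ := h3
      _ = _ := by ring
  exact le_of_mul_le_mul_left h4 hmpos

end Pool.Agent.Lib.MP_44a246_ntSH
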