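import Mathlib
import Pool.Agent.Lib.MP_44a246_ntSH.BA02

/-!
Extensions of large degree; a plane with a forbidden line.
-/

namespace Pool.Agent.Lib.MP_44a246_ntSH

open Pool.Agent.Lib.MP_44a246_nt
open Pool.Agent.Lib.MP_44a246_ntL
open Pool.Agent.Lib.MP_44a246_ntS
open Pool.Agent.Lib.MP_44a246_ntO
open WithZero Module Polynomial

universe u

/-- a function field has finite extensions of arbitrarily large degree -/
theorem exists_large {κ : Type*} {K : Type u} [Field κ] [IsAlgClosed κ] [CharZero κ] [Field K]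
    [Algebra κ K] (h : IsFF κ K) (N : ℕ) :
    ∃ (L : Type u) (_ : Field L) (_ : Algebra κ L) (_ : Algebra K L) (_ : IsScalarTower κ K L)
      (_ : FiniteDimensional K L), N ≤ finrank K L := by
  obtain ⟨P⟩ := Pool.Agent.Lib.MP_44a246_ntR.exists_place h
  obtain ⟨t, ht⟩ := P.2.1 (exp (-1 : ℤ))
  obtain ⟨q, hqN, hq⟩ := Nat.exists_infinite_primes N
  have hirr : Irreducible (X ^ q - C t : K[X]) := by
    refine X_pow_sub_C_irreducible_of_prime hq fun b hb => ?_
    have hb0 : b ≠ 0 := by
      rintro rfl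
      rw [zero_pow hq.ne_zero] at hb
      rw [← hb, map_zero] at ht
      exact exp_ne_zero ht.symm
    have h1 : P.1 b ^ q = exp (-1 : ℤ) := by rw [← map_pow, hb, ht]
    have h2 := congrArg log h1
    rw [log_pow, log_exp, nsmul_eq_mul] at h2
    have h3 : (q : ℤ) ∣ 1 := by
      have h4 : (q : ℤ) * (-log (P.1 b)) = 1 := by linarith
      exact ⟨_, h4.symm⟩
    have h4 : (q : ℤ) ≤ 1 := Int.le_of_dvd (by norm_num) h3
    have h5 := hq.two_le
    omega
  have hfact : Fact (Irreducible (X ^ q - C t : K[X])) := ⟨hirr⟩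
  have hne : (X ^ q - C t : K[X]) ≠ 0 := hirr.ne_zero
  have hfd : FiniteDimensional K (AdjoinRoot (X ^ q - C t : K[X])) :=
    (AdjoinRoot.powerBasis hne).finite
  refine ⟨AdjoinRoot (X ^ q - C t : K[X]), inferInstance, inferInstance, inferInstance,
    inferInstance, hfd, ?_⟩
  rw [(AdjoinRoot.powerBasis hne).finrank, AdjoinRoot.powerBasis_dim, natDegree_X_pow_sub_C]
  exact hqN

section

variable {κ : Type*} {K : Type u} [Field κ] [IsAlgClosed κ] [CharZero κ] [Field K] [Algebra κ K]
  {ι : Type*} [Fintype ι]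

/-- the local norm of the plane spanned by `v 0`, `v 1`, in triangular form -/
theorem exists_tri (v : Fin 2 → ι → K) (hv : LinearIndependent K v) (w : Valuation K ℤᵐ⁰) :
    ∃ (s c r : K), w s = vmax w (v 0) ∧ r ≠ 0 ∧ w s * w r ≤ pl w v ∧
      vmax w (fun k => v 1 k + c * v 0 k) ≤ w r ∧
      (vmax w (v 0) = 1 → vmax w (v 1) ≤ 1 → pl w v = 1 → w c ≤ 1 ∧ w r = 1) := by
  classical
  have h0 : v 0 ≠ 0 := hv.ne_zero 0
  obtain ⟨k₀, hk₀, hk₀m, -⟩ := exists_vmax w h0
  set u : ι → K := fun k => v 1 k + (-(v 1 k₀ / v 0 k₀)) * v 0 k with hu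
  have hu0 : u ≠ 0 := by
    intro h1
    have h2 := LinearIndependent.pair_iff.mp
      (show LinearIndependent K ![v 0, v 1] by
        convert hv using 1
        funext j
        fin_cases j <;> rfl) (-(v 1 k₀ / v 0 k₀)) 1 (by
        funext k
        have h3 := congrFun h1 k
        simp only [hu, Pi.zero_apply] at h3
        simp only [Pi.add_apply, Pi.smul_apply, smul_eq_mul, Pi.zero_apply, one_mul]
        rw [add_comm]
        exact h3)
    exact one_ne_zero h2.2
  obtain ⟨k₁, hk₁, hk₁m, -⟩ := exists_vmax w hu0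
  have hminor : v 0 k₀ * u k₁ =
      (Matrix.of fun i j => v i ((![k₀, k₁] : Fin 2 → ι) j)).det := by
    rw [Matrix.det_fin_two]
    simp only [Matrix.of_apply, Matrix.cons_val_zero, Matrix.cons_val_one, hu]
    field_simp
    ring
  have hprod : w (v 0 k₀) * w (u k₁) ≤ pl w v := by
    rw [← map_mul, hminor]
    exact le_vmax w (fun e : Fin 2 → ι => (Matrix.of fun i j => v i (e j)).det) ![k₀, k₁]
  refine ⟨v 0 k₀, -(v 1 k₀ / v 0 k₀), u k₁, hk₀m.symm, hk₁, hprod, hk₁m.le, ?_⟩
  intro e0 e1 e2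
  have hc : w (-(v 1 k₀ / v 0 k₀)) ≤ 1 := by
    rw [Valuation.map_neg, map_div₀, ← hk₀m, e0, div_one]
    exact (le_vmax w (v 1) k₀).trans e1
  refine ⟨hc, le_antisymm ?_ ?_⟩
  · have h1 : w (u k₁) ≤ 1 := by
      simp only [hu]
      refine (w.map_add _ _).trans (max_le ((le_vmax w (v 1) k₁).trans e1) ?_)
      rw [map_mul]
      exact mul_le_one' hc ((le_vmax w (v 0) k₁).trans e0.le)
    exact h1
  · -- `pl = |v 0 k₀| |u k₁|`: the minors of `(v 0, u)`
    have h1 : pl w v ≤ vmax w (v 0) * vmax w u := by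
      have h2 : pl w v = pl w (![v 0, u] : Fin 2 → ι → K) := by
        unfold pl
        congr 1
        funext e
        rw [Matrix.det_fin_two, Matrix.det_fin_two]
        simp only [Matrix.of_apply, Matrix.cons_val_zero, Matrix.cons_val_one, hu]
        ring
      rw [h2]
      refine vmax_le w fun e => ?_
      rw [Matrix.det_fin_two]
      simp only [Matrix.of_apply, Matrix.cons_val_zero, Matrix.cons_val_one]
      refine (w.map_sub _ _).trans (max_le ?_ ?_)
      · rw [map_mul]
        exact mul_le_mul' (le_vmax w (v 0) _) (le_vmax w u _)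
      · rw [map_mul]
        exact mul_le_mul' (le_vmax w (v 0) _) (le_vmax w u _)
    rw [e2, e0, one_mul, hk₁m] at h1
    exact h1

end

end Pool.Agent.Lib.MP_44a246_ntSH
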