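import Mathlib
import Pool.Agent.Lib.MP_44a246_ntSH.BA04

/-!
A plane with a forbidden line: over a finite extension there is a small vector outside of the line.
-/

namespace Pool.Agent.Lib.MP_44a246_ntSH

open Pool.Agent.Lib.MP_44a246_nt
open Pool.Agent.Lib.MP_44a246_ntL
open Pool.Agent.Lib.MP_44a246_ntS
open Pool.Agent.Lib.MP_44a246_ntO
open WithZero Module Polynomial

universe u

/-- the maximum norm at a place of a finite extension -/
theorem vmax_am {κ K L : Type*} [Field κ] [Field K] [Field L] [Algebra κ K] [Algebra κ L]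
    [Algebra K L] [IsScalarTower κ K L] [Algebra.IsAlgebraic K L] {σ : Type*} [Fintype σ]
    (w : Place κ L) {x : σ → K} (hx : x ≠ 0) :
    vmax w.1 (fun i => algebraMap K L (x i)) = vmax (below K w).1 x ^ ramIdx K w.1 := by
  obtain ⟨l, -, hl, hmax⟩ := exists_vmax (below K w).1 hx
  apply le_antisymm
  · refine vmax_le _ fun i => ?_
    rw [below_pow]
    exact pow_le_pow_left' (le_vmax _ x i) _
  · rw [hl, ← below_pow]
    exact le_vmax w.1 (fun i => algebraMap K L (x i)) l

section

variable {κ : Type*} {K : Type u} [Field κ] [IsAlgClosed κ] [CharZero κ] [Field K] [Algebra κ K]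
  {ι : Type*} [Fintype ι]

/-- The norm of the line `K v₀` in the plane is enlarged by `exp f` at one place; a small vector for
the new norms. -/
theorem modified (h : IsFF κ K) {v : Fin 2 → ι → K} (hv : LinearIndependent K v) (f : ℕ) {ε : ℝ}
    (hε : 0 < ε) :
    ∃ (L : Type u) (_ : Field L) (_ : Algebra κ L) (_ : Algebra K L) (_ : IsScalarTower κ K L)
      (_ : FiniteDimensional K L), ∃ (α β : L) (H : ℤ), (α ≠ 0 ∨ β ≠ 0) ∧
        2 * (H : ℝ) ≤ finrank K L * (ht κ (Submodule.span K (Set.range v)) + f + ε) ∧
        height κ (fun k => α * algebraMap K L (v 0 k) + β * algebraMap K L (v 1 k)) ≤ H ∧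
        (β = 0 → finrank K L * (height κ (v 0) + f) ≤ H) := by
  classical
  obtain ⟨P⟩ := Pool.Agent.Lib.MP_44a246_ntR.exists_place h
  obtain ⟨t, ht0⟩ := P.2.1 (exp (f : ℤ))
  have htne : t ≠ 0 := by
    rintro rfl
    rw [map_zero] at ht0
    exact exp_ne_zero ht0.symm
  have hv0 : v 0 ≠ 0 := hv.ne_zero 0
  have hv1 : v 1 ≠ 0 := hv.ne_zero 1
  choose s c r hs hr hsr hcr hint using fun w : Place κ K => exists_tri v hv w.1
  have hs0 : ∀ w, s w ≠ 0 := by
    intro w h0
    have h1 := hs w
    rw [h0, map_zero] at h1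
    exact hv0 (vmax_eq_zero_iff w.1 |>.1 h1.symm)
  let z : Place κ K → K := fun w => if w = P then t else 1
  have hz0 : ∀ w, z w ≠ 0 := by
    intro w
    simp only [z]
    split_ifs
    · exact htne
    · exact one_ne_zero
  have hz1 : ∀ w : Place κ K, 1 ≤ w.1 (z w) := by
    intro w
    simp only [z]
    split_ifs with hw
    · rw [hw, ht0, ← exp_zero, exp_le_exp]
      positivity
    · rw [map_one]
  have hzlog : ∀ w : Place κ K, log (w.1 (z w)) = if w = P then (f : ℤ) else 0 := by
    intro w
    simp only [z]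
    split_ifs with hw
    · rw [hw, ht0, log_exp]
    · rw [map_one, log_one]
  have hzfin : (Function.support fun w : Place κ K => log (w.1 (z w))).Finite := by
    refine (Set.finite_singleton P).subset fun w hw => ?_
    by_contra h0
    apply hw
    simp only
    rw [hzlog, if_neg (fun h1 => h0 (by rw [h1]; rfl))]
  have hzsum : ∑ᶠ w : Place κ K, log (w.1 (z w)) = f := by
    rw [finsum_congr hzlog]
    rw [finsum_eq_single _ P (fun w hw => if_neg hw), if_pos rfl]
  let g : Place κ K → Matrix (Fin 2) (Fin 2) K := fun w =>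
    !![z w * s w, -(z w * s w * c w); 0, r w]
  have hdet : ∀ w, (g w).det = z w * s w * r w := by
    intro w
    simp only [g, Matrix.det_fin_two_of]
    ring
  have hd0 : ∀ w, (g w).det ≠ 0 := by
    intro w
    rw [hdet]
    exact mul_ne_zero (mul_ne_zero (hz0 w) (hs0 w)) (hr w)
  have hfin : {w | ¬ VFSharp.Unim w (g w)}.Finite := by
    refine (((Set.finite_singleton P).union (h.vmax_finite hv0)).union
      ((h.vmax_finite hv1).union (pl_support h hv))).subset fun w hw => ?_
    by_contra hcon
    simp only [Set.mem_union, not_or] at hcon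
    obtain ⟨⟨h1, h2⟩, h3, h4⟩ := hcon
    have h1' : w ≠ P := h1
    have h2' : vmax w.1 (v 0) = 1 := not_not.1 h2
    have h3' : vmax w.1 (v 1) = 1 := not_not.1 h3
    have h4' : pl w.1 v = 1 := by
      rw [Function.notMem_support] at h4
      have h5 := exp_log (pl_ne_zero w.1 hv)
      rw [h4, exp_zero] at h5
      exact h5.symm
    obtain ⟨hc1, hr1⟩ := hint w h2' h3'.le h4'
    have hz' : z w = 1 := if_neg h1'
    have hs1 : w.1 (s w) = 1 := (hs w).trans h2'
    apply hw
    refine ⟨fun i j => ?_, ?_⟩
    · fin_cases i <;> fin_cases j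
      · change w.1 (z w * s w) ≤ 1
        rw [hz', one_mul]
        exact hs1.le
      · change w.1 (-(z w * s w * c w)) ≤ 1
        rw [Valuation.map_neg, hz', one_mul, map_mul]
        exact mul_le_one' hs1.le hc1
      · change w.1 (0 : K) ≤ 1
        rw [map_zero]
        exact zero_le
      · change w.1 (r w) ≤ 1
        exact hr1.le
    · rw [hdet, hz', one_mul, map_mul]
      rw [hr1, mul_one]
      exact hs1
  obtain ⟨L, fL, aκL, aKL, tL, dL, y, hy0, hyh⟩ := rank_two_lat h hd0 hfin hε
  have hL : IsFF κ L := h.of_finite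
  have hT : ∑ᶠ w : Place κ K, log (w.1 (g w).det) ≤
      ht κ (Submodule.span K (Set.range v)) + f := by
    rw [ht_span h hv, ← hzsum, ← finsum_add_distrib (pl_support h hv) hzfin]
    refine finsum_mono (VFSharp.det_support hfin)
      (((pl_support h hv).union hzfin).subset (Function.support_add _ _)) fun w => ?_
    rw [hdet, mul_assoc, map_mul, map_mul, log_mul ((w.1.ne_zero_iff).2 (hz0 w))
      (mul_ne_zero ((w.1.ne_zero_iff).2 (hs0 w)) ((w.1.ne_zero_iff).2 (hr w))), add_comm]
    have h1 := (log_le_log (mul_ne_zero ((w.1.ne_zero_iff).2 (hs0 w))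
      ((w.1.ne_zero_iff).2 (hr w))) (pl_ne_zero w.1 hv)).2 (hsr w)
    linarith
  have hgy : ∀ w : Place κ L, ((g (below K w)).map (algebraMap K L)).mulVec y =
      ![algebraMap K L (z (below K w) * s (below K w)) *
          (y 0 - algebraMap K L (c (below K w)) * y 1),
        algebraMap K L (r (below K w)) * y 1] := by
    intro w
    funext i
    fin_cases i
    · simp [g, Matrix.mulVec, dotProduct, Fin.sum_univ_two]
      ring
    · simp [g, Matrix.mulVec, dotProduct, Fin.sum_univ_two]
  have hli : LinearIndependent L (fun i k => algebraMap K L (v i k)) := linearIndependent_am hv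
  have hαβ : y 0 ≠ 0 ∨ y 1 ≠ 0 := by
    by_contra hcon
    push Not at hcon
    apply hy0
    funext i
    fin_cases i
    · exact hcon.1
    · exact hcon.2
  have hne : (fun k => y 0 * algebraMap K L (v 0 k) + y 1 * algebraMap K L (v 1 k)) ≠ 0 := by
    intro h0
    have h1 := LinearIndependent.pair_iff.mp
      (show LinearIndependent L
        ![fun k => algebraMap K L (v 0 k), fun k => algebraMap K L (v 1 k)] by
        convert hli using 1
        funext j
        fin_cases j <;> rfl) (y 0) (y 1) (by
        funext k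
        exact congrFun h0 k)
    rcases hαβ with h2 | h2
    · exact h2 h1.1
    · exact h2 h1.2
  refine ⟨L, fL, aκL, aKL, tL, dL, y 0, y 1, lh κ g y, hαβ, ?_, ?_, ?_⟩
  · refine hyh.trans (mul_le_mul_of_nonneg_left ?_ (Nat.cast_nonneg _))
    have h1 : ((∑ᶠ w : Place κ K, log (w.1 (g w).det) : ℤ) : ℝ) ≤
        ht κ (Submodule.span K (Set.range v)) + f := by exact_mod_cast hT
    linarith
  · unfold height lh
    refine finsum_mono (hL.vmax_support hne) (lh_support h hfin hy0) fun w => ?_
    have hg0 : vmax w.1 (((g (below K w)).map (algebraMap K L)).mulVec y) ≠ 0 := by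
      rw [Ne, vmax_eq_zero_iff]
      exact mulVec_map_ne_zero (hd0 _) hy0
    refine (log_le_log (by rw [Ne, vmax_eq_zero_iff]; exact hne) hg0).2 ?_
    refine vmax_le _ fun k => ?_
    have e1 : y 0 * algebraMap K L (v 0 k) + y 1 * algebraMap K L (v 1 k) =
        (y 0 - algebraMap K L (c (below K w)) * y 1) * algebraMap K L (v 0 k) +
          y 1 * algebraMap K L (v 1 k + c (below K w) * v 0 k) := by
      rw [map_add, map_mul]
      ring
    rw [e1]
    refine (w.1.map_add _ _).trans (max_le ?_ ?_)
    · have h1 := le_vmax w.1 (((g (below K w)).map (algebraMap K L)).mulVec y) 0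
      rw [hgy w] at h1 ⊢
      refine le_trans ?_ h1
      simp only [Matrix.cons_val_zero, map_mul]
      rw [mul_comm (w.1 (y 0 - _))]
      refine mul_le_mul' ?_ le_rfl
      rw [below_pow (K := K) w (v 0 k), below_pow (K := K) w (z (below K w)),
        below_pow (K := K) w (s (below K w)), hs]
      have h2 : (below K w).1 (v 0 k) ^ ramIdx K w.1 ≤ vmax (below K w).1 (v 0) ^ ramIdx K w.1 :=
        pow_le_pow_left' (le_vmax _ (v 0) k) _
      have h3 : (1 : ℤᵐ⁰) ≤ (below K w).1 (z (below K w)) ^ ramIdx K w.1 :=
        one_le_pow₀ (hz1 _)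
      calc (below K w).1 (v 0 k) ^ ramIdx K w.1 ≤ 1 * vmax (below K w).1 (v 0) ^ ramIdx K w.1 := by
            rw [one_mul]; exact h2
        _ ≤ _ := mul_le_mul' h3 le_rfl
    · have h1 := le_vmax w.1 (((g (below K w)).map (algebraMap K L)).mulVec y) 1
      rw [hgy w] at h1 ⊢
      refine le_trans ?_ h1
      simp only [Matrix.cons_val_one, Matrix.cons_val_fin_one, map_mul]
      rw [mul_comm (w.1 (y 1))]
      refine mul_le_mul' ?_ le_rfl
      rw [below_pow, below_pow]
      exact pow_le_pow_left' ((le_vmax (below K w).1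
        (fun k => v 1 k + c (below K w) * v 0 k) k).trans (hcr _)) _
  · intro hβ
    have hα : y 0 ≠ 0 := hαβ.resolve_right (not_not.2 hβ)
    have e1 : (fun k => y 0 * algebraMap K L (v 0 k)) ≠ 0 := by
      intro h0
      apply hne
      funext k
      have := congrFun h0 k
      simp only [Pi.zero_apply] at this ⊢
      rw [this, hβ, zero_mul, add_zero]
    have h1 : ∀ w : Place κ L, log (vmax w.1 (((g (below K w)).map (algebraMap K L)).mulVec y)) =
        log (vmax w.1 fun k => y 0 * algebraMap K L (v 0 k)) +
          ramIdx K w.1 * log ((below K w).1 (z (below K w))) := by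
      intro w
      have h2 : vmax w.1 (((g (below K w)).map (algebraMap K L)).mulVec y) =
          w.1 (algebraMap K L (z (below K w) * s (below K w)) * y 0) := by
        rw [hgy w, hβ]
        refine le_antisymm (vmax_le _ fun i => ?_) ?_
        · fin_cases i
          · simp
          · simp
        · have := le_vmax w.1 (![algebraMap K L (z (below K w) * s (below K w)) *
            (y 0 - algebraMap K L (c (below K w)) * 0), algebraMap K L (r (below K w)) * 0]
              : Fin 2 → L) 0
          simpa using this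
      have h3 : (vmax w.1 fun k => y 0 * algebraMap K L (v 0 k)) =
          w.1 (y 0) * vmax w.1 (fun k => algebraMap K L (v 0 k)) := by
        refine le_antisymm (vmax_le _ fun k => ?_) ?_
        · rw [map_mul]
          exact mul_le_mul' le_rfl (le_vmax w.1 (fun k => algebraMap K L (v 0 k)) k)
        · have hv0' : (fun k => algebraMap K L (v 0 k)) ≠ 0 := hli.ne_zero 0
          obtain ⟨l, -, hl, -⟩ := exists_vmax w.1 hv0'
          rw [hl, ← map_mul]
          exact le_vmax w.1 (fun k => y 0 * algebraMap K L (v 0 k)) l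
      rw [h2, h3, vmax_am w hv0, map_mul, below_pow, map_mul, mul_pow, hs]
      have n1 : (below K w).1 (z (below K w)) ^ ramIdx K w.1 ≠ 0 :=
        pow_ne_zero _ (((below K w).1.ne_zero_iff).2 (hz0 _))
      have n2 : vmax (below K w).1 (v 0) ^ ramIdx K w.1 ≠ 0 :=
        pow_ne_zero _ (by rw [Ne, vmax_eq_zero_iff]; exact hv0)
      have n3 : w.1 (y 0) ≠ 0 := (w.1.ne_zero_iff).2 hα
      rw [log_mul (mul_ne_zero n1 n2) n3, log_mul n1 n2, log_mul n3 n2, log_pow, nsmul_eq_mul]
      ring
    have h2 : lh κ g y = height κ (fun k => y 0 * algebraMap K L (v 0 k)) +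
        finrank K L * f := by
      unfold lh height
      obtain ⟨h3, h4⟩ := finsum_below (L := L) h hzfin
      rw [finsum_congr h1, finsum_add_distrib (hL.vmax_support e1) h3, h4, hzsum]
    rw [h2, hL.height_smul hα, hL.height_ext hv0]
    exact le_of_eq (by ring)

end

end Pool.Agent.Lib.MP_44a246_ntSH
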