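import Mathlib
import Pool.Agent.Lib.MP_44a246_ntSH.BA01
import Pool.Agent.Lib.MP_44a246_ntSH.BA05

/-!
A pencil with a forbidden member.
-/

namespace Pool.Agent.Lib.MP_44a246_ntSH

open Pool.Agent.Lib.MP_44a246_nt
open Pool.Agent.Lib.MP_44a246_ntL
open Pool.Agent.Lib.MP_44a246_ntS
open Pool.Agent.Lib.MP_44a246_ntO
open WithZero Module

universe u

section

variable {κ : Type*} {K : Type u} [Field κ] [IsAlgClosed κ] [CharZero κ] [Field K] [Algebra κ K]
  {ι : Type*} [Fintype ι]

/-- adapted bases of `A < V < U` -/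
theorem exists_flag {A V U : Submodule K (ι → K)} (hAV : A ≤ V) (hVU : V ≤ U)
    (hV : finrank K V = finrank K A + 1) (hU : finrank K U = finrank K A + 2) :
    ∃ (α : Fin (finrank K A) → ι → K) (e : Fin 2 → ι → K), LinearIndependent K α ∧
      Submodule.span K (Set.range α) = A ∧
      LinearIndependent K (Sum.elim α e) ∧ Submodule.span K (Set.range (Sum.elim α e)) = U ∧
      LinearIndependent K (Sum.elim α fun _ : Unit => e 0) ∧
      Submodule.span K (Set.range (Sum.elim α fun _ : Unit => e 0)) = V := by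
  classical
  obtain ⟨α, hα, hαA⟩ := SB2b_basis A
  have h1 : ¬ V ≤ A := by
    intro h0
    have := Submodule.finrank_mono h0
    omega
  have h2 : ¬ U ≤ V := by
    intro h0
    have := Submodule.finrank_mono h0
    omega
  obtain ⟨e0, he0V, he0A⟩ := SetLike.not_le_iff_exists.1 h1
  obtain ⟨e1, he1U, he1V⟩ := SetLike.not_le_iff_exists.1 h2
  have hsV : Submodule.span K (Set.range (Sum.elim α fun _ : Unit => e0)) = V := by
    refine Submodule.eq_of_le_of_finrank_le ?_ ?_
    · rw [Submodule.span_le]
      rintro _ ⟨i | i, rfl⟩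
      · refine hAV (hαA.le (Submodule.subset_span ⟨i, rfl⟩))
      · exact he0V
    · have h3 : finrank K A < finrank K (Submodule.span K
          (Set.range (Sum.elim α fun _ : Unit => e0))) := by
        refine Submodule.finrank_lt_finrank_of_lt (lt_of_le_of_ne ?_ ?_)
        · refine hαA.symm.le.trans (Submodule.span_mono ?_)
          rw [Set.Sum.elim_range]
          exact Set.subset_union_left
        · intro h0
          apply he0A
          rw [h0]
          exact Submodule.subset_span ⟨Sum.inr (), rfl⟩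
      omega
  have hsU : Submodule.span K (Set.range (Sum.elim α (![e0, e1] : Fin 2 → ι → K))) = U := by
    refine Submodule.eq_of_le_of_finrank_le ?_ ?_
    · rw [Submodule.span_le]
      rintro _ ⟨i | i, rfl⟩
      · exact hVU (hAV (hαA.le (Submodule.subset_span ⟨i, rfl⟩)))
      · fin_cases i
        · exact hVU he0V
        · exact he1U
    · have h3 : finrank K V < finrank K (Submodule.span K
          (Set.range (Sum.elim α (![e0, e1] : Fin 2 → ι → K)))) := by
        refine Submodule.finrank_lt_finrank_of_lt (lt_of_le_of_ne ?_ ?_)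
        · refine hsV.symm.le.trans ?_
          rw [Submodule.span_le]
          rintro _ ⟨i | i, rfl⟩
          · exact Submodule.subset_span ⟨Sum.inl i, rfl⟩
          · exact Submodule.subset_span ⟨Sum.inr 0, rfl⟩
        · intro h0
          apply he1V
          rw [h0]
          exact Submodule.subset_span ⟨Sum.inr 1, rfl⟩
      omega
  refine ⟨α, ![e0, e1], hα, hαA, ?_, hsU, ?_, hsV⟩
  · rw [linearIndependent_iff_card_eq_finrank_span, Set.finrank, hsU, hU]
    simp
  · rw [linearIndependent_iff_card_eq_finrank_span, Set.finrank]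
    change _ = finrank K (Submodule.span K (Set.range (Sum.elim α fun _ : Unit => e0)))
    rw [hsV, hV]
    simp

/-- A pencil with a forbidden member, with a constant error. -/
theorem forbidden_one (h : IsFF κ K) {A V U : Submodule K (ι → K)} (hAV : A ≤ V) (hVU : V ≤ U)
    (hV : finrank K V = finrank K A + 1) (hU : finrank K U = finrank K A + 2) :
    ∃ (L : Type u) (_ : Field L) (_ : Algebra κ L) (_ : Algebra K L) (_ : IsScalarTower κ K L)
      (_ : FiniteDimensional K L), ∃ C : Submodule L (ι → L), bc L A ≤ C ∧ C ≤ bc L U ∧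
        finrank L C = finrank K A + 1 ∧ ¬ C ≤ bc L V ∧
        (ht κ C : ℝ) ≤ finrank K L * (max (ht κ V : ℝ) (ht κ A + ht κ U - ht κ V) + 2) := by
  classical
  obtain ⟨α, e, hα, hαs, hαe, hαes, hα0, hα0s⟩ := exists_flag hAV hVU hV hU
  have hpi := pv_linearIndependent hαe
  have hhtV : ht κ (Submodule.span K (Set.range fun i => pv α (e i))) ≤ ht κ A + ht κ U := by
    have t1 : ht κ (Submodule.span K (Set.range fun i => pv α (e i))) =
        ∑ᶠ w : Place κ K, log (pl w.1 fun i => pv α (e i)) := ht_span h hpi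
    have t2 : ht κ A = ∑ᶠ w : Place κ K, log (pl w.1 α) := by
      rw [← ht_span h hα, hαs]
    have t3 : ht κ U = ∑ᶠ w : Place κ K, log (pl w.1 (Sum.elim α e)) := by
      rw [← ht_span h hαe, hαes]
    rw [t1, t2, t3, ← finsum_add_distrib (pl_support h hα) (pl_support h hαe)]
    refine finsum_mono (pl_support h hpi)
      (((pl_support h hα).union (pl_support h hαe)).subset (Function.support_add _ _)) fun w => ?_
    rw [← log_mul (pl_ne_zero w.1 hα) (pl_ne_zero w.1 hαe)]
    exact (log_le_log (pl_ne_zero w.1 hpi)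
      (mul_ne_zero (pl_ne_zero w.1 hα) (pl_ne_zero w.1 hαe))).mpr (pl_pv_le w.1 hαe)
  have hhe : height κ (pv α (e 0)) = ht κ V := by
    have t3 : ht κ V = ∑ᶠ w : Place κ K, log (pl w.1 (Sum.elim α fun _ : Unit => e 0)) := by
      rw [← ht_span h hα0, hα0s]
    rw [t3]
    rfl
  obtain ⟨f, hf⟩ : ∃ f : ℕ, f = (ht κ A + ht κ U - 2 * ht κ V + 2).toNat := ⟨_, rfl⟩
  obtain ⟨L, fL, aL, aKL, tL, fdL, c0, c1, H, hc, hH, hyH, hc1⟩ :=
    modified h hpi f (ε := 1 / 2) (by norm_num)
  refine ⟨L, fL, aL, aKL, tL, fdL, ?_⟩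
  have hL : IsFF κ L := h.of_finite
  have hN : (0 : ℝ) < finrank K L := by exact_mod_cast finrank_pos
  obtain ⟨α', hα'⟩ : ∃ α' : Fin (finrank K A) → ι → L,
      α' = fun i k => algebraMap K L (α i k) := ⟨_, rfl⟩
  obtain ⟨e', he'⟩ : ∃ e' : Fin 2 → ι → L, e' = fun i k => algebraMap K L (e i k) := ⟨_, rfl⟩
  have hmap : ∀ i, (fun k => algebraMap K L (pv α (e i) k)) = pv α' (e' i) := by
    intro i
    funext k
    change algebraMap K L (Matrix.of fun i' j => Sum.elim α (fun _ : Unit => e i) i' (k j)).det =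
      (Matrix.of fun i' j => Sum.elim α' (fun _ : Unit => e' i) i' (k j)).det
    rw [RingHom.map_det]
    congr 1
    ext i' j
    rcases i' with i' | i'
    · simp [hα']
    · simp [he']
  obtain ⟨z, hz⟩ : ∃ z : ι → L, z = c0 • e' 0 + c1 • e' 1 := ⟨_, rfl⟩
  have hyz : (fun k => c0 * algebraMap K L (pv α (e 0) k) +
      c1 * algebraMap K L (pv α (e 1) k)) = pv α' z := by
    rw [hz, map_add, map_smul, map_smul, ← hmap 0, ← hmap 1]
    rfl
  -- the second coefficient is not zero
  have hc1' : c1 ≠ 0 := by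
    intro h0
    have h1 := hc1 h0
    rw [hhe] at h1
    have h1' : (finrank K L : ℝ) * ((ht κ V : ℝ) + f) ≤ H := by exact_mod_cast h1
    have h2 : (f : ℝ) ≥ (ht κ A : ℝ) + ht κ U - 2 * ht κ V + 2 := by
      have h3 : (ht κ A + ht κ U - 2 * ht κ V + 2 : ℤ) ≤ (f : ℤ) := by
        rw [hf]
        exact Int.self_le_toNat _
      have h4 : ((ht κ A + ht κ U - 2 * ht κ V + 2 : ℤ) : ℝ) ≤ ((f : ℤ) : ℝ) := by
        exact_mod_cast h3
      push_cast at h4
      linarith
    have h5 : ((ht κ (Submodule.span K (Set.range fun i => pv α (e i))) : ℤ) : ℝ) ≤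
        (ht κ A : ℝ) + ht κ U := by exact_mod_cast hhtV
    have h6 : 2 * ((ht κ V : ℝ) + f) ≤
        ht κ (Submodule.span K (Set.range fun i => pv α (e i))) + f + 1 / 2 := by
      have h7 : (finrank K L : ℝ) * (2 * ((ht κ V : ℝ) + f)) ≤ finrank K L *
          (ht κ (Submodule.span K (Set.range fun i => pv α (e i))) + f + 1 / 2) := by
        linarith
      exact le_of_mul_le_mul_left h7 hN
    linarith
  have hαe' : LinearIndependent L (Sum.elim α' e') := by
    have h1 := linearIndependent_am (L := L) hαe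
    convert h1 using 1
    funext i
    rcases i with i | i
    · simp [hα']
    · simp [he']
  have hind : LinearIndependent L (Sum.elim α' fun _ : Unit => z) := by
    by_contra hn
    have h3 : pl (1 : Valuation L ℤᵐ⁰) (Sum.elim α' fun _ : Unit => z) = 0 := pl_eq_zero _ hn
    rw [← vmax_pv, vmax_eq_zero_iff] at h3
    have h4 := pv_linearIndependent hαe'
    have h5 := LinearIndependent.pair_iff.mp
      (show LinearIndependent L ![pv α' (e' 0), pv α' (e' 1)] by
        convert h4 using 1
        funext j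
        fin_cases j <;> rfl) c0 c1 (by
        rw [← h3, hz, map_add, map_smul, map_smul])
    exact hc1' h5.2
  have hbcA : bc L A = Submodule.span L (Set.range α') := by
    have h3 : bc L (Submodule.span K (Set.range α)) = Submodule.span L (Set.range α') := by
      rw [bc_span, ← Set.range_comp, hα']
      rfl
    exact (congrArg (bc L) hαs).symm.trans h3
  have heU : ∀ i, e' i ∈ bc L U := by
    intro i
    rw [he']
    refine am_mem_bc ?_
    rw [← hαes]
    exact Submodule.subset_span ⟨Sum.inr i, rfl⟩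
  have heV : e' 0 ∈ bc L V := by
    rw [he']
    refine am_mem_bc ?_
    rw [← hα0s]
    exact Submodule.subset_span ⟨Sum.inr (), rfl⟩
  have hzU : z ∈ bc L U := by
    rw [hz]
    exact Submodule.add_mem _ (Submodule.smul_mem _ _ (heU 0)) (Submodule.smul_mem _ _ (heU 1))
  refine ⟨Submodule.span L (Set.range (Sum.elim α' fun _ : Unit => z)), ?_, ?_, ?_, ?_, ?_⟩
  · rw [hbcA]
    refine Submodule.span_mono ?_
    rw [Set.Sum.elim_range]
    exact Set.subset_union_left
  · rw [Submodule.span_le]
    rintro _ ⟨i | i, rfl⟩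
    · have h3 : bc L A ≤ bc L U := bc_mono (hAV.trans hVU)
      refine h3 ?_
      rw [hbcA]
      exact Submodule.subset_span ⟨i, rfl⟩
    · exact hzU
  · rw [finrank_span_eq_card hind, Fintype.card_sum, Fintype.card_fin, Fintype.card_unit]
  · intro hle
    have hzV : z ∈ bc L V := hle (Submodule.subset_span ⟨Sum.inr (), rfl⟩)
    have he1 : e' 1 ∈ bc L V := by
      have h1 : c1 • e' 1 ∈ bc L V := by
        have h2 : c1 • e' 1 = z - c0 • e' 0 := by
          rw [hz]
          abel
        rw [h2]
        exact Submodule.sub_mem _ hzV (Submodule.smul_mem _ _ heV)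
      have h3 := Submodule.smul_mem _ c1⁻¹ h1
      rwa [smul_smul, inv_mul_cancel₀ hc1', one_smul] at h3
    have h1 : bc L U ≤ bc L V := by
      have h2 : bc L U = Submodule.span L (Set.range (Sum.elim α' e')) := by
        have h3 : bc L (Submodule.span K (Set.range (Sum.elim α e))) =
            Submodule.span L (Set.range (Sum.elim α' e')) := by
          rw [bc_span, ← Set.range_comp]
          congr 2
          funext i
          rcases i with i | i
          · simp [hα']
          · simp [he']
        exact (congrArg (bc L) hαes).symm.trans h3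
      rw [h2, Submodule.span_le]
      rintro _ ⟨i | i, rfl⟩
      · have h3 : bc L A ≤ bc L V := bc_mono hAV
        refine h3 ?_
        rw [hbcA]
        exact Submodule.subset_span ⟨i, rfl⟩
      · fin_cases i
        · exact heV
        · exact he1
    have h4 := Submodule.finrank_mono h1
    rw [finrank_bc, finrank_bc] at h4
    omega
  · have hhtC : ht κ (Submodule.span L (Set.range (Sum.elim α' fun _ : Unit => z))) =
        height κ (pv α' z) := by
      rw [ht_span hL hind]
      rfl
    rw [hhtC, ← hyz]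
    have h0 : ((height κ fun k => c0 * algebraMap K L (pv α (e 0) k) +
      c1 * algebraMap K L (pv α (e 1) k) : ℤ) : ℝ) ≤ (H : ℝ) := by exact_mod_cast hyH
    refine h0.trans ?_
    have h5 : ((ht κ (Submodule.span K (Set.range fun i => pv α (e i))) : ℤ) : ℝ) ≤
        (ht κ A : ℝ) + ht κ U := by exact_mod_cast hhtV
    have h6 : (H : ℝ) ≤ finrank K L * (((ht κ A : ℝ) + ht κ U + f + 1 / 2) / 2) := by
      have h7 := mul_le_mul_of_nonneg_left (show
        ((ht κ (Submodule.span K (Set.range fun i => pv α (e i))) : ℤ) : ℝ) + f + 1 / 2 ≤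
          (ht κ A : ℝ) + ht κ U + f + 1 / 2 by linarith) hN.le
      linarith
    refine h6.trans (mul_le_mul_of_nonneg_left ?_ hN.le)
    rcases le_or_gt 0 (ht κ A + ht κ U - 2 * ht κ V + 2) with hcase | hcase
    · have h8 : ((f : ℤ) : ℝ) = ((ht κ A + ht κ U - 2 * ht κ V + 2 : ℤ) : ℝ) := by
        rw [hf, Int.toNat_of_nonneg hcase]
      push_cast at h8
      rw [h8]
      have := le_max_right (ht κ V : ℝ) (ht κ A + ht κ U - ht κ V)
      linarith
    · have h8 : f = 0 := by
        rw [hf]
        exact Int.toNat_of_nonpos hcase.le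
      rw [h8]
      have h9 : ((ht κ A + ht κ U - 2 * ht κ V + 2 : ℤ) : ℝ) < 0 := by exact_mod_cast hcase
      push_cast at h9 ⊢
      have := le_max_left (ht κ V : ℝ) (ht κ A + ht κ U - ht κ V)
      linarith

/-- **A pencil with a forbidden member.** -/
theorem forbidden (h : IsFF κ K) {A V U : Submodule K (ι → K)} (hAV : A ≤ V) (hVU : V ≤ U)
    (hV : finrank K V = finrank K A + 1) (hU : finrank K U = finrank K A + 2) {ε : ℝ}
    (hε : 0 < ε) :
    ∃ (L : Type u) (_ : Field L) (_ : Algebra κ L) (_ : Algebra K L) (_ : IsScalarTower κ K L)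
      (_ : FiniteDimensional K L), ∃ C : Submodule L (ι → L), bc L A ≤ C ∧ C ≤ bc L U ∧
        finrank L C = finrank K A + 1 ∧ ¬ C ≤ bc L V ∧
        (ht κ C : ℝ) ≤ finrank K L * (max (ht κ V : ℝ) (ht κ A + ht κ U - ht κ V) + ε) := by
  obtain ⟨N, hN⟩ := exists_nat_ge (2 / ε)
  obtain ⟨L, fL, aκL, aKL, tL, dL, hNL⟩ := exists_large h N
  have hL : IsFF κ L := h.of_finite
  obtain ⟨M, fM, aκM, aLM, tM, dM, C, hAC, hCU, hCr, hCV, hCht⟩ := forbidden_one hL
    (bc_mono (L := L) hAV) (bc_mono (L := L) hVU) (by rw [finrank_bc, finrank_bc, hV])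
    (by rw [finrank_bc, finrank_bc, hU])
  let aKM : Algebra K M := ((algebraMap L M).comp (algebraMap K L)).toAlgebra
  have t1 : IsScalarTower K L M := IsScalarTower.of_algebraMap_eq fun _ => rfl
  have t2 : IsScalarTower κ K M := IsScalarTower.of_algebraMap_eq fun x => by
    rw [IsScalarTower.algebraMap_apply κ L M, IsScalarTower.algebraMap_apply κ K L]
    rfl
  have d1 : FiniteDimensional K M := FiniteDimensional.trans K L M
  have hn : (0 : ℝ) < finrank K L := by exact_mod_cast finrank_pos
  refine ⟨M, fM, aκM, aKM, t2, d1, C, ?_, ?_, ?_, ?_, ?_⟩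
  · rwa [bc_bc] at hAC
  · rwa [bc_bc] at hCU
  · rw [hCr, finrank_bc]
  · rwa [bc_bc] at hCV
  · refine hCht.trans ?_
    have h1 : (finrank K M : ℝ) = finrank K L * finrank L M := by
      rw [← Module.finrank_mul_finrank K L M]
      push_cast
      ring
    rw [h1, ht_bc h, ht_bc h, ht_bc h]
    push_cast
    have h2 : (finrank K L : ℝ) * ht κ A + finrank K L * ht κ U - finrank K L * ht κ V =
        finrank K L * (ht κ A + ht κ U - ht κ V) := by ring
    rw [h2, ← mul_max_of_nonneg _ _ hn.le, mul_comm (finrank K L : ℝ) (finrank L M : ℝ), mul_assoc]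
    refine mul_le_mul_of_nonneg_left ?_ (Nat.cast_nonneg _)
    have h3 : (2 : ℝ) ≤ finrank K L * ε := by
      rw [div_le_iff₀ hε] at hN
      refine hN.trans (mul_le_mul_of_nonneg_right ?_ hε.le)
      exact_mod_cast hNL
    rw [mul_add]
    linarith

end

end Pool.Agent.Lib.MP_44a246_ntSH
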