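import Mathlib
import Pool.Agent.Lib.MP_44a246_ntO.OS6
import Pool.Agent.Lib.MP_44a246_ntSH.BA03
import Pool.Agent.Lib.MP_44a246_ntSH.BA06

/-!
The absolute theorem of Minkowski: bases of small height over finite extensions.
-/

namespace Pool.Agent.Lib.MP_44a246_ntSH

open Pool.Agent.Lib.MP_44a246_nt
open Pool.Agent.Lib.MP_44a246_ntL
open Pool.Agent.Lib.MP_44a246_ntS
open Pool.Agent.Lib.MP_44a246_ntO
open WithZero Module

universe u

/-- the property `P` holds over some finite extension -/
def ExtP (κ : Type*) [Field κ] (K : Type u) [Field K] [Algebra κ K]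
    (P : ∀ (L : Type u) [Field L] [Algebra κ L] [Algebra K L] [IsScalarTower κ K L]
      [FiniteDimensional K L], Prop) : Prop :=
  ∃ (L : Type u) (_ : Field L) (_ : Algebra κ L) (_ : Algebra K L) (_ : IsScalarTower κ K L)
    (_ : FiniteDimensional K L), P L

/-- towers -/
theorem ExtP.trans {κ : Type*} [Field κ] {K : Type u} [Field K] [Algebra κ K]
    {P Q : ∀ (L : Type u) [Field L] [Algebra κ L] [Algebra K L] [IsScalarTower κ K L]
      [FiniteDimensional K L], Prop}
    (h : ExtP κ K P)
    (hPQ : ∀ (L : Type u) [Field L] [Algebra κ L] [Algebra K L] [IsScalarTower κ K L]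
      [FiniteDimensional K L], P L → ∃ (M : Type u) (_ : Field M) (_ : Algebra κ M)
        (_ : Algebra L M) (_ : IsScalarTower κ L M) (_ : FiniteDimensional L M),
        ∀ (_ : Algebra K M) (_ : IsScalarTower K L M) (_ : IsScalarTower κ K M)
          (_ : FiniteDimensional K M), Q M) : ExtP κ K Q := by
  obtain ⟨L, fL, aκL, aKL, tL, dL, hP⟩ := h
  obtain ⟨M, fM, aκM, aLM, tM, dM, hQ⟩ := hPQ L hP
  let aKM : Algebra K M := ((algebraMap L M).comp (algebraMap K L)).toAlgebra
  have t1 : IsScalarTower K L M := IsScalarTower.of_algebraMap_eq fun _ => rfl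
  have t2 : IsScalarTower κ K M := IsScalarTower.of_algebraMap_eq fun x => by
    rw [IsScalarTower.algebraMap_apply κ L M, IsScalarTower.algebraMap_apply κ K L]
    rfl
  have d1 : FiniteDimensional K M := FiniteDimensional.trans K L M
  exact ⟨M, fM, aκM, aKM, t2, d1, hQ aKM t1 t2 d1⟩

/-- Galois closure -/
theorem ExtP.galois {κ : Type*} [Field κ] {K : Type u} [Field K] [CharZero K] [Algebra κ K]
    {P : ∀ (L : Type u) [Field L] [Algebra κ L] [Algebra K L] [IsScalarTower κ K L]
      [FiniteDimensional K L], Prop}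
    (h : ExtP κ K P)
    (hP : ∀ (L : Type u) [Field L] [Algebra κ L] [Algebra K L] [IsScalarTower κ K L]
      [FiniteDimensional K L], P L → ∀ (M : Type u) [Field M] [Algebra κ M]
        [Algebra L M] [IsScalarTower κ L M] [FiniteDimensional L M]
        [Algebra K M] [IsScalarTower K L M] [IsScalarTower κ K M]
        [FiniteDimensional K M], P M) :
    ∃ (L : Type u) (_ : Field L) (_ : Algebra κ L) (_ : Algebra K L) (_ : IsScalarTower κ K L)
      (_ : FiniteDimensional K L) (_ : IsGalois K L), P L := by
  obtain ⟨L, fL, aκL, aKL, tL, dL, hL⟩ := h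
  obtain ⟨M, fM, aKM, aLM, tM, dM, gM⟩ := exists_galois_over' (K := K) (L := L)
  let aκM : Algebra κ M := ((algebraMap K M).comp (algebraMap κ K)).toAlgebra
  have t1 : IsScalarTower κ K M := IsScalarTower.of_algebraMap_eq fun _ => rfl
  have t2 : IsScalarTower κ L M := IsScalarTower.of_algebraMap_eq fun x => by
    rw [IsScalarTower.algebraMap_apply κ K L, ← IsScalarTower.algebraMap_apply K L M]
    rfl
  have d2 : FiniteDimensional L M := FiniteDimensional.right K L M
  exact ⟨M, fM, aκM, aKM, t1, dM, gM, hP L hL M⟩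

section

variable {κ : Type*} [Field κ] [IsAlgClosed κ] [CharZero κ] {ι : Type*} [Fintype ι]

theorem ht_span_map {K L : Type*} [Field K] [Algebra κ K] [Field L] [Algebra κ L] [Algebra K L]
    {s : ℕ} (v : Fin s → ι → K) :
    bc L (Submodule.span K (Set.range v)) =
      Submodule.span L (Set.range fun i k => algebraMap K L (v i k)) := by
  rw [bc_span, ← Set.range_comp]
  rfl

/-- A small vector of `U` outside of the span of small vectors. Descent along the flag with the help
of `forbidden`. -/
theorem outside (s : ℕ) : ∀ (K : Type u) [Field K] [Algebra κ K], IsFF κ K →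
    ∀ (v : Fin s → ι → K), LinearIndependent K v → ∀ b : ℝ, (∀ i, (height κ (v i) : ℝ) ≤ b) →
    ∀ U : Submodule K (ι → K), Submodule.span K (Set.range v) ≤ U → finrank K U = s + 1 →
      (ht κ U : ℝ) ≤ ht κ (Submodule.span K (Set.range v)) + b → ∀ ε : ℝ, 0 < ε →
      ExtP κ K fun L _ _ _ _ _ => ∃ y ∈ bc L U, y ∉ bc L (Submodule.span K (Set.range v)) ∧
        (height κ y : ℝ) ≤ finrank K L * (b + ε) := by
  induction s with
  | zero =>
    intro K _ _ h v hv b hb U hvU hU hht ε hε
    have hs : Submodule.span K (Set.range v) = ⊥ := by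
      rw [Submodule.span_eq_bot]
      rintro _ ⟨i, rfl⟩
      exact i.elim0
    have hUne : U ≠ ⊥ := by
      rintro rfl
      rw [finrank_bot] at hU
      omega
    obtain ⟨y, hyU, hy0⟩ := Submodule.exists_mem_ne_zero_of_ne_bot hUne
    refine ⟨K, inferInstance, inferInstance, Algebra.id K, inferInstance, inferInstance, y, ?_, ?_,
      ?_⟩
    · exact am_mem_bc hyU
    · rw [hs, bc_bot, Submodule.mem_bot]
      exact hy0
    · have h1 : Submodule.span K {y} = U := by
        refine Submodule.eq_of_le_of_finrank_le ?_ ?_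
        · rw [Submodule.span_singleton_le_iff_mem]
          exact hyU
        · rw [finrank_span_singleton hy0, hU]
      rw [← ht_single h hy0, h1, Module.finrank_self]
      rw [hs, ht_bot h] at hht
      push_cast at hht ⊢
      linarith
  | succ s ih =>
    intro K _ _ h v hv b hb U hvU hU hht ε hε
    have hv' : LinearIndependent K (fun i : Fin s => v i.castSucc) :=
      hv.comp _ (Fin.castSucc_injective s)
    set V' : Submodule K (ι → K) := Submodule.span K (Set.range fun i : Fin s => v i.castSucc)
      with hV'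
    set V : Submodule K (ι → K) := Submodule.span K (Set.range v) with hV
    have hV'V : V' ≤ V := by
      refine Submodule.span_mono ?_
      rintro _ ⟨i, rfl⟩
      exact ⟨i.castSucc, rfl⟩
    have hdV' : finrank K V' = s := by
      rw [hV', finrank_span_eq_card hv', Fintype.card_fin]
    have hdV : finrank K V = s + 1 := by
      rw [hV, finrank_span_eq_card hv, Fintype.card_fin]
    have hsup : V ≤ V' ⊔ Submodule.span K {v (Fin.last s)} := by
      rw [hV, Submodule.span_le]
      rintro _ ⟨i, rfl⟩
      refine Fin.lastCases ?_ (fun j => ?_) i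
      · exact Submodule.mem_sup_right (Submodule.mem_span_singleton_self _)
      · exact Submodule.mem_sup_left (Submodule.subset_span ⟨j, rfl⟩)
    have hsup' : V = V' ⊔ Submodule.span K {v (Fin.last s)} :=
      le_antisymm hsup (sup_le hV'V (by
        rw [Submodule.span_singleton_le_iff_mem]
        exact Submodule.subset_span ⟨Fin.last s, rfl⟩))
    have hhtV : (ht κ V : ℝ) ≤ ht κ V' + b := by
      have h1 := ht_sup_le h V' (Submodule.span K {v (Fin.last s)})
      rw [← hsup', ht_single h (hv.ne_zero _)] at h1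
      have h2 : ((ht κ V : ℤ) : ℝ) ≤ (ht κ V' : ℝ) + (height κ (v (Fin.last s)) : ℝ) := by
        exact_mod_cast h1
      have := hb (Fin.last s)
      linarith
    have hforb : ExtP κ K fun L _ _ _ _ _ => ∃ C : Submodule L (ι → L), bc L V' ≤ C ∧
        C ≤ bc L U ∧ finrank L C = s + 1 ∧ ¬ C ≤ bc L V ∧
        (ht κ C : ℝ) ≤ finrank K L * (ht κ V' + b + ε / 2) := by
      obtain ⟨L, fL, aκL, aKL, tL, dL, C, hAC, hCU, hCr, hCV, hCht⟩ :=
        forbidden h hV'V hvU (by rw [hdV, hdV']) (by rw [hU, hdV']) (ε := ε / 2) (by positivity)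
      refine ⟨L, fL, aκL, aKL, tL, dL, C, hAC, hCU, by rw [hCr, hdV'], hCV, hCht.trans ?_⟩
      refine mul_le_mul_of_nonneg_left ?_ (Nat.cast_nonneg _)
      have h1 : max (ht κ V : ℝ) (ht κ V' + ht κ U - ht κ V) ≤ ht κ V' + b :=
        max_le hhtV (by linarith)
      linarith
    refine hforb.trans ?_
    intro L _ _ _ _ _ hL
    obtain ⟨C, hAC, hCU, hCr, hCV, hCht⟩ := hL
    have hFL : IsFF κ L := h.of_finite
    have hN : (0 : ℝ) < finrank K L := by exact_mod_cast finrank_pos
    have hli : LinearIndependent L (fun (i : Fin s) k => algebraMap K L (v i.castSucc k)) :=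
      linearIndependent_am hv'
    have hsp : bc L V' =
        Submodule.span L (Set.range fun (i : Fin s) k => algebraMap K L (v i.castSucc k)) :=
      ht_span_map (κ := κ) (fun i : Fin s => v i.castSucc)
    obtain ⟨M, fM, aκM, aLM, tM, dM, y, hyC, hyV', hyh⟩ := ih L hFL
      (fun (i : Fin s) k => algebraMap K L (v i.castSucc k)) hli (finrank K L * (b + ε / 2))
      (by
        intro i
        rw [hFL.height_ext (hv'.ne_zero i)]
        push_cast
        refine mul_le_mul_of_nonneg_left ?_ hN.le
        have := hb i.castSucc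
        linarith) C (by rw [← hsp]; exact hAC) hCr (by
        rw [← hsp, ht_bc h]
        push_cast
        refine hCht.trans (le_of_eq ?_)
        ring) (finrank K L * (ε / 2)) (by positivity)
    refine ⟨M, fM, aκM, aLM, tM, dM, fun aKM t1 t2 d1 => ⟨y, ?_, ?_, ?_⟩⟩
    · have h1 := bc_mono (L := M) hCU hyC
      rwa [bc_bc] at h1
    · intro hyV
      rw [← hsp] at hyV'
      apply hCV
      rw [← bc_le_bc (L := M), bc_bc]
      have h1 : bc M (bc L V') ⊔ Submodule.span M {y} ≤ bc M C ⊓ bc M V := by
        refine sup_le (le_inf (bc_mono hAC) ?_) ?_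
        · rw [bc_bc]
          exact bc_mono hV'V
        · rw [Submodule.span_singleton_le_iff_mem]
          exact ⟨hyC, hyV⟩
      have h2 : finrank M (bc M (bc L V')) <
          finrank M (bc M (bc L V') ⊔ Submodule.span M {y} : Submodule M (ι → M)) := by
        refine Submodule.finrank_lt_finrank_of_lt (lt_of_le_of_ne le_sup_left fun h0 => hyV' ?_)
        rw [h0]
        exact Submodule.mem_sup_right (Submodule.mem_span_singleton_self y)
      rw [finrank_bc, finrank_bc, hdV'] at h2
      have h3 := Submodule.finrank_mono h1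
      have h4 : bc M C ⊓ bc M V = bc M C := by
        refine Submodule.eq_of_le_of_finrank_le inf_le_left ?_
        rw [finrank_bc, hCr]
        omega
      exact inf_eq_left.1 h4
    · refine hyh.trans (le_of_eq ?_)
      rw [← Module.finrank_mul_finrank K L M]
      push_cast
      ring

/-- all slopes of quotients of `Λ` (with respect to the height) are at most `a` -/
def QS (κ : Type*) {K : Type*} [Field κ] [Field K] [Algebra κ K] {ι : Type*} [Fintype ι]
    (Λ : Submodule K (ι → K)) (a : ℝ) : Prop :=
  ∀ C ≤ Λ, (ht κ Λ : ℝ) - ht κ C ≤ a * ((finrank K Λ : ℝ) - finrank K C)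

/-- slopes of quotients in finite extensions -/
theorem QS.bc {K : Type u} [Field K] [Algebra κ K] (h : IsFF κ K) {Λ : Submodule K (ι → K)} {a : ℝ}
    (hQ : QS κ Λ a) (L : Type u) [Field L] [Algebra κ L] [Algebra K L] [IsScalarTower κ K L]
    [FiniteDimensional K L] :
    QS κ (Pool.Agent.Lib.MP_44a246_ntO.bc L Λ) (finrank K L * a) := by
  have : CharZero K := charZero_of_injective_algebraMap (algebraMap κ K).injective
  obtain ⟨M, fM, aKM, aLM, tM, dM, gM⟩ := exists_galois_over' (K := K) (L := L)
  let aκM : Algebra κ M := ((algebraMap K M).comp (algebraMap κ K)).toAlgebra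
  have t1 : IsScalarTower κ K M := IsScalarTower.of_algebraMap_eq fun _ => rfl
  have t2 : IsScalarTower κ L M := IsScalarTower.of_algebraMap_eq fun x => by
    rw [IsScalarTower.algebraMap_apply κ K L, ← IsScalarTower.algebraMap_apply K L M]
    rfl
  have d2 : FiniteDimensional L M := FiniteDimensional.right K L M
  have hL : IsFF κ L := h.of_finite
  intro C hC
  obtain ⟨Q₀, hQ₀, -, hmin⟩ := exists_min_descent (L := M) h (-a) (ξ := 0) (U := Λ)
    (Submodule.zero_mem _)
  have h1 := hQ Q₀ hQ₀
  have h2 := hmin (Pool.Agent.Lib.MP_44a246_ntO.bc M C) (by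
    have h3 := bc_mono (L := M) hC
    rwa [bc_bc] at h3) (by
    have h3 : (fun k => algebraMap K M ((0 : ι → K) k)) = 0 := by
      funext k
      simp
    rw [h3]
    exact Submodule.zero_mem _)
  rw [ht_bc hL, finrank_bc] at h2
  rw [ht_bc h, finrank_bc]
  have hMK : (finrank K M : ℝ) = finrank K L * finrank L M := by
    rw [← Module.finrank_mul_finrank K L M]
    push_cast
    ring
  have hn : (0 : ℝ) < finrank L M := by exact_mod_cast finrank_pos
  have hn' : (0 : ℝ) ≤ finrank K L := Nat.cast_nonneg _
  have h4 : (finrank K L : ℝ) * ((ht κ Λ : ℝ) - a * finrank K Λ) ≤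
      finrank K L * ((ht κ Q₀ : ℝ) + -a * finrank K Q₀) := by
    refine mul_le_mul_of_nonneg_left ?_ hn'
    linarith
  have h5 : (finrank L M : ℝ) * (finrank K L * ((ht κ Q₀ : ℝ) + -a * finrank K Q₀)) ≤
      finrank L M * ((ht κ C : ℝ) + finrank K L * (-a) * finrank L C) := by
    rw [hMK] at h2
    push_cast at h2
    linarith
  have h6 := le_of_mul_le_mul_left h5 hn
  push_cast
  linarith

/-- **The absolute theorem of Minkowski**: bases of small height. -/
theorem mink_aux {K : Type u} [Field K] [Algebra κ K] (h : IsFF κ K) {Λ : Submodule K (ι → K)}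
    {a : ℝ} (hQ : QS κ Λ a) (s : ℕ) : s ≤ finrank K Λ → ∀ ε : ℝ, 0 < ε →
      ExtP κ K fun L _ _ _ _ _ => ∃ v : Fin s → ι → L, LinearIndependent L v ∧
        (∀ i, v i ∈ bc L Λ) ∧ ∀ i, (height κ (v i) : ℝ) ≤ finrank K L * (a + ε) := by
  induction s with
  | zero =>
    intro _ ε hε
    exact ⟨K, inferInstance, inferInstance, Algebra.id K, inferInstance, inferInstance,
      fun i => i.elim0, linearIndependent_empty_type, fun i => i.elim0, fun i => i.elim0⟩
  | succ s ih =>
    intro hs ε hε
    have hstep : ExtP κ K fun M _ _ _ _ _ => ∃ (v : Fin s → ι → M) (U : Submodule M (ι → M)),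
        LinearIndependent M v ∧ (∀ i, v i ∈ bc M Λ) ∧
        (∀ i, (height κ (v i) : ℝ) ≤ finrank K M * (a + ε / 2)) ∧
        Submodule.span M (Set.range v) ≤ U ∧ U ≤ bc M Λ ∧ finrank M U = s + 1 ∧
        (ht κ U : ℝ) ≤ ht κ (Submodule.span M (Set.range v)) + finrank K M * (a + ε / 2) := by
      refine (ih (by omega) (ε / 2) (by positivity)).trans ?_
      intro L _ _ _ _ _ hL
      obtain ⟨v, hv, hvΛ, hvh⟩ := hL
      have hFL : IsFF κ L := h.of_finite
      have hN : (0 : ℝ) < finrank K L := by exact_mod_cast finrank_pos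
      have hle : Submodule.span L (Set.range v) ≤ bc L Λ := by
        rw [Submodule.span_le]
        rintro _ ⟨i, rfl⟩
        exact hvΛ i
      have hd : finrank L (Submodule.span L (Set.range v)) = s := by
        rw [finrank_span_eq_card hv, Fintype.card_fin]
      obtain ⟨r, hr⟩ : ∃ r, finrank K Λ = s + (r + 1) := ⟨finrank K Λ - s - 1, by omega⟩
      have hr0 : (0 : ℝ) < (r : ℝ) + 1 := by positivity
      obtain ⟨M, fM, aκM, aLM, tM, dM, U, hAU, hUB, hUr, hUht⟩ := line_rel r L hFL
        (Submodule.span L (Set.range v)) (bc L Λ) hle (by rw [finrank_bc, hd, hr])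
        (finrank K L * (ε / 2)) (by positivity)
      have hFM : IsFF κ M := hFL.of_finite
      have hN' : (0 : ℝ) < finrank L M := by exact_mod_cast finrank_pos
      refine ⟨M, fM, aκM, aLM, tM, dM, fun aKM t1 t2 d1 => ?_⟩
      have hMK : (finrank K M : ℝ) = finrank K L * finrank L M := by
        rw [← Module.finrank_mul_finrank K L M]
        push_cast
        ring
      refine ⟨fun i k => algebraMap L M (v i k), U, linearIndependent_am hv, ?_, ?_, ?_, ?_, ?_, ?_⟩
      · intro i
        have h1 := am_mem_bc (L := M) (hvΛ i)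
        rwa [bc_bc] at h1
      · intro i
        rw [hFM.height_ext (hv.ne_zero i), hMK]
        push_cast
        have h1 := mul_le_mul_of_nonneg_left (hvh i) hN'.le
        linarith
      · rw [← ht_span_map (κ := κ) v]
        exact hAU
      · rwa [bc_bc] at hUB
      · rw [hUr, hd]
      · rw [← ht_span_map (κ := κ) v, ht_bc hFL, hMK]
        refine hUht.trans ?_
        have h1 := hQ.bc h L _ hle
        rw [finrank_bc, hd, hr] at h1
        push_cast at h1
        have h2 : ((ht κ (bc L Λ) : ℝ) - ht κ (Submodule.span L (Set.range v))) / ((r : ℝ) + 1) ≤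
            finrank K L * a := by
          rw [div_le_iff₀ hr0]
          refine h1.trans (le_of_eq ?_)
          ring
        push_cast
        have h3 := mul_le_mul_of_nonneg_left h2 hN'.le
        have h4 : (finrank L M : ℝ) * (ht κ (Submodule.span L (Set.range v)) +
            ((ht κ (bc L Λ) : ℝ) - ht κ (Submodule.span L (Set.range v))) / ((r : ℝ) + 1) +
              finrank K L * (ε / 2)) =
            finrank L M * ht κ (Submodule.span L (Set.range v)) +
            finrank L M * (((ht κ (bc L Λ) : ℝ) - ht κ (Submodule.span L (Set.range v))) /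
              ((r : ℝ) + 1)) + finrank L M * (finrank K L * (ε / 2)) := by ring
        rw [h4]
        linarith
    refine hstep.trans ?_
    intro M _ _ _ _ _ hM
    obtain ⟨v, U, hv, hvΛ, hvh, hvU, hUΛ, hUr, hUht⟩ := hM
    have hFM : IsFF κ M := h.of_finite
    have hN : (0 : ℝ) < finrank K M := by exact_mod_cast finrank_pos
    obtain ⟨N, fN, aκN, aMN, tN, dN, y, hyU, hyV, hyh⟩ := outside s M hFM v hv
      (finrank K M * (a + ε / 2)) hvh U hvU hUr hUht (finrank K M * (ε / 2)) (by positivity)
    have hFN : IsFF κ N := hFM.of_finite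
    have hN' : (0 : ℝ) < finrank M N := by exact_mod_cast finrank_pos
    refine ⟨N, fN, aκN, aMN, tN, dN, fun aKN t1 t2 d1 => ?_⟩
    have hNK : (finrank K N : ℝ) = finrank K M * finrank M N := by
      rw [← Module.finrank_mul_finrank K M N]
      push_cast
      ring
    refine ⟨Fin.snoc (fun i k => algebraMap M N (v i k)) y, ?_, ?_, ?_⟩
    · rw [linearIndependent_finSnoc]
      refine ⟨linearIndependent_am hv, ?_⟩
      rw [← ht_span_map (κ := κ) v]
      exact hyV
    · intro i
      refine Fin.lastCases ?_ (fun j => ?_) i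
      · rw [Fin.snoc_last]
        have h1 := bc_mono (L := N) hUΛ hyU
        rwa [bc_bc] at h1
      · rw [Fin.snoc_castSucc]
        have h1 := am_mem_bc (L := N) (hvΛ j)
        rwa [bc_bc] at h1
    · intro i
      refine Fin.lastCases ?_ (fun j => ?_) i
      · rw [Fin.snoc_last]
        refine hyh.trans (le_of_eq ?_)
        rw [hNK]
        ring
      · rw [Fin.snoc_castSucc, hFN.height_ext (hv.ne_zero j), hNK]
        push_cast
        have h1 := mul_le_mul_of_nonneg_left (hvh j) hN'.le
        have h2 : (0 : ℝ) ≤ finrank M N * (finrank K M * (ε / 2)) := by positivity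
        linarith

end

end Pool.Agent.Lib.MP_44a246_ntSH
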