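import Mathlib
import Pool.Agent.Lib.MP_44a246_ntSH.B05
import Pool.Agent.Lib.MP_44a246_ntSH.BA06a

/-!
Vectors of small height lie in a common box, over a finite extension.
-/

namespace Pool.Agent.Lib.MP_44a246_ntSH

open Pool.Agent.Lib.MP_44a246_nt
open Pool.Agent.Lib.MP_44a246_ntL
open Pool.Agent.Lib.MP_44a246_ntS
open Pool.Agent.Lib.MP_44a246_ntO
open Pool.Agent.Lib.MP_44a246_ntR (divDeg genus exists_place)
open WithZero Module VFSharp Polynomial

universe u

section

variable {κ : Type*} [Field κ] [IsAlgClosed κ] [CharZero κ] {ι : Type*} [Fintype ι]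

/-- the pullback of a divisor -/
theorem exists_pull {K L : Type*} [Field K] [Algebra κ K] [Field L] [Algebra κ L] [Algebra K L]
    [IsScalarTower κ K L] [FiniteDimensional K L] (h : IsFF κ K) (D : Place κ K →₀ ℤ) :
    ∃ D' : Place κ L →₀ ℤ, (∀ w, D' w = ramIdx K w.1 * D (below K w)) ∧
      divDeg D' = finrank K L * divDeg D := by
  have hf : (Function.support fun w : Place κ K => D w).Finite := D.hasFiniteSupport
  obtain ⟨h1, h2⟩ := finsum_below (L := L) h hf
  refine ⟨Finsupp.ofSupportFinite _ h1, fun w => rfl, ?_⟩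
  rw [divDeg_ofSupport, h2]
  have h3 : ∑ᶠ w, D w = divDeg D := by
    have h4 := divDeg_ofSupport hf
    rw [← h4]
    congr 1
    ext w
    rfl
  rw [h3]

/-- boxes in extensions -/
theorem box_pull {K L : Type*} [Field K] [Algebra κ K] [Field L] [Algebra κ L] [Algebra K L]
    [IsScalarTower κ K L] [FiniteDimensional K L] (h : IsFF κ K) {Λ : Submodule K (ι → K)}
    {D : Place κ K →₀ ℤ}
    (hD : Submodule.span K ((boxSub Λ D : Submodule κ (ι → K)) : Set (ι → K)) = Λ) :
    ∃ D' : Place κ L →₀ ℤ, divDeg D' = finrank K L * divDeg D ∧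
      Submodule.span L ((boxSub (bc L Λ) D' : Submodule κ (ι → L)) : Set (ι → L)) = bc L Λ := by
  obtain ⟨D', hD', hdeg⟩ := exists_pull (L := L) h D
  refine ⟨D', hdeg, le_antisymm (Submodule.span_le.2 fun v hv => (mem_boxSub.1 hv).1) ?_⟩
  conv_lhs => rw [← hD]
  rw [bc_span, Submodule.span_le]
  rintro _ ⟨v, hv, rfl⟩
  obtain ⟨hvΛ, hvD⟩ := mem_boxSub.1 hv
  refine Submodule.subset_span (mem_boxSub.2 ⟨am_mem_bc hvΛ, fun w k => ?_⟩)
  rw [below_pow, hD' w]
  refine (pow_le_pow_left' (hvD (below K w) k) _).trans (le_of_eq ?_)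
  rw [← exp_nsmul, nsmul_eq_mul]

/-- a divisor of large degree has a section -/
theorem exists_section {K : Type*} [Field K] [Algebra κ K] (h : IsFF κ K) (D : Place κ K →₀ ℤ)
    (hD : (genus κ K : ℤ) ≤ divDeg D) : ∃ s : K, s ≠ 0 ∧ ∀ w : Place κ K, w.1 s ≤ exp (D w) := by
  obtain ⟨c, hc0, hc⟩ := exists_lattice_vector h (ρ := Unit) (g := fun _ => 1)
    (fun w i j => by
      rw [Matrix.one_apply, if_pos (Subsingleton.elim i j), map_one]) (e := 0)
    (fun w => by
      rw [Matrix.det_one, map_one, Finsupp.coe_zero, Pi.zero_apply, Nat.cast_zero, neg_zero,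
        exp_zero]) (fun _ _ => rfl) D (by
      rw [Fintype.card_unit, Finsupp.sum_zero_index]
      push_cast
      linarith)
  refine ⟨c (), fun h0 => hc0 (funext fun i => by rw [Subsingleton.elim i ()]; exact h0),
    fun w => ?_⟩
  have h1 := hc w ()
  rwa [Matrix.one_mulVec] at h1

/-- **Vectors of small height lie in a common box**, up to factors, over a finite extension. -/
theorem common_box {K : Type u} [Field K] [Algebra κ K] (h : IsFF κ K) {r : ℕ}
    (v : Fin r → ι → K) (hv : ∀ i, v i ≠ 0) (D : Place κ K →₀ ℤ)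
    (hF : ∀ i, height κ (v i) + 1 ≤ divDeg D) :
    ExtP κ K fun L _ _ _ _ _ => ∃ c : Fin r → L, (∀ i, c i ≠ 0) ∧
      ∀ i (w : Place κ L) k, w.1 (c i * algebraMap K L (v i k)) ≤
        exp (ramIdx K w.1 * D (below K w)) := by
  classical
  -- the divisors `D - div (v i)`
  have hfin : ∀ i, (Function.support fun w : Place κ K => D w - log (vmax w.1 (v i))).Finite :=
    fun i => (D.hasFiniteSupport.union (h.vmax_support (hv i))).subset (Function.support_sub _ _)
  obtain ⟨m, hm⟩ : ∃ m : ℕ, m = genus κ K + 1 := ⟨_, rfl⟩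
  have hm0 : m ≠ 0 := by omega
  have hsec : ∀ i, ∃ s : K, s ≠ 0 ∧ ∀ w : Place κ K,
      w.1 s ≤ exp ((m : ℤ) * (D w - log (vmax w.1 (v i)))) := by
    intro i
    have hfin' : (Function.support fun w : Place κ K =>
        (m : ℤ) * (D w - log (vmax w.1 (v i)))).Finite := by
      refine (hfin i).subset fun w hw h0 => hw ?_
      simp only at h0 ⊢
      rw [h0, mul_zero]
    have hdeg : divDeg (Finsupp.ofSupportFinite _ hfin') = m * (divDeg D - height κ (v i)) := by
      rw [divDeg_ofSupport, ← mul_finsum, finsum_sub_distrib D.hasFiniteSupport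
        (h.vmax_support (hv i))]
      have h3 : ∑ᶠ w, D w = divDeg D := by
        have h4 := divDeg_ofSupport (f := fun w => D w) D.hasFiniteSupport
        rw [← h4]
        congr 1
        ext w
        rfl
      rw [h3]
      rfl
    obtain ⟨s, hs0, hs⟩ := exists_section h (Finsupp.ofSupportFinite _ hfin') (by
      rw [hdeg]
      have h1 : (1 : ℤ) ≤ divDeg D - height κ (v i) := by
        have := hF i
        linarith
      have h2 : (m : ℤ) = genus κ K + 1 := by
        rw [hm]
        push_cast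
        rfl
      nlinarith)
    exact ⟨s, hs0, fun w => hs w⟩
  choose s hs0 hs using hsec
  let p : K[X] := ∏ i, (X ^ m - C (s i))
  have hp0 : p ≠ 0 := Finset.prod_ne_zero_iff.2 fun i _ => X_pow_sub_C_ne_zero (Nat.pos_of_ne_zero hm0) _
  have hroot : ∀ i, ∃ c : p.SplittingField, c ^ m = algebraMap K p.SplittingField (s i) := by
    intro i
    have hsp : ((X ^ m - C (s i)).map (algebraMap K p.SplittingField)).Splits := by
      have h1 : p.map (algebraMap K p.SplittingField) =
          ∏ i, (X ^ m - C (s i)).map (algebraMap K p.SplittingField) := Polynomial.map_prod _ _ _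
      have h2 := SplittingField.splits p
      rw [h1] at h2
      refine h2.of_dvd ?_ (Finset.dvd_prod_of_mem _ (Finset.mem_univ i))
      rw [← h1]
      exact (Polynomial.map_ne_zero_iff (algebraMap K p.SplittingField).injective).mpr hp0
    obtain ⟨c, hc⟩ := hsp.exists_eval_eq_zero (by
      rw [degree_map, degree_X_pow_sub_C (Nat.pos_of_ne_zero hm0)]
      exact_mod_cast hm0)
    refine ⟨c, ?_⟩
    rw [Polynomial.map_sub, Polynomial.map_pow, map_X, map_C, eval_sub, eval_pow, eval_X, eval_C,
      sub_eq_zero] at hc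
    exact hc
  choose c hc using hroot
  refine ⟨p.SplittingField, inferInstance, inferInstance, inferInstance, inferInstance,
    inferInstance, c, fun i h0 => ?_, fun i w k => ?_⟩
  · have h1 := hc i
    rw [h0, zero_pow hm0] at h1
    exact hs0 i ((_root_.map_eq_zero _).1 h1.symm)
  · rw [map_mul]
    by_cases hk : v i k = 0
    · rw [hk, map_zero, map_zero, mul_zero]
      exact zero_le
    have hc0 : c i ≠ 0 := by
      intro h0
      have h1 := hc i
      rw [h0, zero_pow hm0] at h1
      exact hs0 i ((_root_.map_eq_zero _).1 h1.symm)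
    have h1 : w.1 (c i) ^ m = (below K w).1 (s i) ^ ramIdx K w.1 := by
      rw [← map_pow, hc, below_pow]
    have h2 := congrArg log h1
    rw [log_pow, log_pow, nsmul_eq_mul, nsmul_eq_mul] at h2
    have h3 : log ((below K w).1 (s i)) ≤
        (m : ℤ) * (D (below K w) - log (vmax (below K w).1 (v i))) :=
      (log_le_iff_le_exp (((below K w).1.ne_zero_iff).2 (hs0 i))).2 (hs i (below K w))
    have h4 : (m : ℤ) * log (w.1 (c i)) ≤
        (m : ℤ) * (ramIdx K w.1 * (D (below K w) - log (vmax (below K w).1 (v i)))) := by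
      rw [h2]
      have h5 := mul_le_mul_of_nonneg_left h3 (Nat.cast_nonneg (α := ℤ) (ramIdx K w.1))
      refine h5.trans (le_of_eq ?_)
      ring
    have h6 : log (w.1 (c i)) ≤
        ramIdx K w.1 * (D (below K w) - log (vmax (below K w).1 (v i))) := by
      have : (0 : ℤ) < m := by omega
      exact le_of_mul_le_mul_left h4 this
    have h7 : log (w.1 (algebraMap K p.SplittingField (v i k))) ≤
        ramIdx K w.1 * log (vmax (below K w).1 (v i)) := by
      rw [below_pow, log_pow, nsmul_eq_mul]
      refine mul_le_mul_of_nonneg_left ?_ (Nat.cast_nonneg _)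
      exact (log_le_log (((below K w).1.ne_zero_iff).2 hk)
        (by rw [Ne, vmax_eq_zero_iff]; exact hv i)).2 (le_vmax _ (v i) k)
    have n1 : w.1 (c i) ≠ 0 := (w.1.ne_zero_iff).2 hc0
    have n2 : w.1 (algebraMap K p.SplittingField (v i k)) ≠ 0 :=
      (w.1.ne_zero_iff).2 ((_root_.map_ne_zero _).2 hk)
    rw [← log_le_iff_le_exp (mul_ne_zero n1 n2), log_mul n1 n2]
    linarith

end

end Pool.Agent.Lib.MP_44a246_ntSH
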