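import Mathlib
import Pool.Agent.Lib.MP_44a246_ntSH.BA06b
import Pool.Agent.Lib.MP_44a246_ntSH.Q4

/-!
The absolute versions of (2c), (2d) of paper 619: if all slopes of quotients of `Λ` are at most
`a`, then over a finite extension `Λ` is spanned by vectors in a box of degree a little larger.
-/

namespace Pool.Agent.Lib.MP_44a246_ntSH

open Pool.Agent.Lib.MP_44a246_nt
open Pool.Agent.Lib.MP_44a246_ntL
open Pool.Agent.Lib.MP_44a246_ntS
open Pool.Agent.Lib.MP_44a246_ntF
open Pool.Agent.Lib.MP_44a246_ntO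
open Pool.Agent.Lib.MP_44a246_ntR (divDeg genus exists_place)
open Pool.Agent.Lib.MP_e52354_nt
open WithZero Module VFSharp

universe u

section

variable {κ : Type*} {K : Type u} [Field κ] [IsAlgClosed κ] [CharZero κ] [Field K] [Algebra κ K]
  {ι : Type*} [Fintype ι]

/-- a quotient of large slope gives a functional of large degree -/
theorem exists_fnl_of_not_qs (h : IsFF κ K) {Λ : Submodule K (ι → K)} {a : ℝ}
    (hQ : ¬ QS κ Λ a) :
    ∃ (L : Type u) (_ : Field L) (_ : Algebra κ L) (_ : Algebra K L) (_ : IsScalarTower κ K L)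
      (_ : FiniteDimensional K L) (_ : IsGalois K L) (l : ι → L) (τ : Place κ L → ℤ) (b : ℤ),
      (Function.support τ).Finite ∧ (∑ᶠ w, τ w) = -b ∧ finrank K L * a < b ∧
      (∃ y ∈ bc L Λ, ∑ k, l k * y k ≠ 0) ∧
      ∀ w : Place κ L, ∃ m : ι → L, (∀ k, w.1 (m k) ≤ exp (τ w)) ∧
        ∀ y ∈ bc L Λ, ∑ k, m k * y k = ∑ k, l k * y k := by
  unfold QS at hQ
  push Not at hQ
  obtain ⟨C, hC, hlt⟩ := hQ
  have hne : C ≠ Λ := by
    rintro rfl
    simp at hlt
  have hd : (finrank K C : ℝ) + 1 ≤ finrank K Λ := by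
    exact_mod_cast Submodule.finrank_lt_finrank_of_lt (lt_of_le_of_ne hC hne)
  obtain ⟨ν, hν⟩ : ∃ ν : ℝ, ν = (finrank K Λ : ℝ) - finrank K C := ⟨_, rfl⟩
  have hν0 : 0 < ν := by
    rw [hν]
    linarith
  rw [← hν] at hlt
  obtain ⟨a', ha'⟩ : ∃ a' : ℝ, a' = (a + ((ht κ Λ : ℝ) - ht κ C) / ν) / 2 := ⟨_, rfl⟩
  have h1 : a < ((ht κ Λ : ℝ) - ht κ C) / ν := by
    rw [lt_div_iff₀ hν0]
    exact hlt
  have h2 : a < a' := by
    rw [ha']
    linarith
  have h3 : a' * ν < (ht κ Λ : ℝ) - ht κ C := by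
    have h4 : a' < ((ht κ Λ : ℝ) - ht κ C) / ν := by
      rw [ha']
      linarith
    rwa [lt_div_iff₀ hν0] at h4
  obtain ⟨L, fL, aκL, aKL, tL, dL, gL, l, τ, b, hτ, hsum, hb, -, hne', hm⟩ :=
    siegel_rel_abs h hC hne (a := a') (by rw [← hν]; exact h3)
  have hN : (0 : ℝ) < finrank K L := by exact_mod_cast finrank_pos
  exact ⟨L, fL, aκL, aKL, tL, dL, gL, l, τ, b, hτ, hsum,
    lt_of_lt_of_le (mul_lt_mul_of_pos_left h2 hN) hb, hne', hm⟩

/-- **(2c), absolute** (a theorem of Minkowski): `Λ` is spanned by a box. -/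
theorem minkowski_abs (h : IsFF κ K) {Λ : Submodule K (ι → K)} {a : ℝ} (ha : 0 ≤ a)
    (hQ : QS κ Λ a) {ε : ℝ} (hε : 0 < ε) :
    ∃ (L : Type u) (_ : Field L) (_ : Algebra κ L) (_ : Algebra K L) (_ : IsScalarTower κ K L)
      (_ : FiniteDimensional K L) (_ : IsGalois K L) (D : Place κ L →₀ ℤ), 0 ≤ divDeg D ∧
      (divDeg D : ℝ) ≤ finrank K L * (a + ε) ∧
      Submodule.span L ((boxSub (bc L Λ) D : Submodule κ (ι → L)) : Set (ι → L)) = bc L Λ := by
  have hchar : CharZero K := charZero_of_injective_algebraMap (algebraMap κ K).injective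
  obtain ⟨N, hN⟩ := exists_nat_ge (4 / ε)
  have hN' : (4 : ℝ) ≤ N * ε := by rwa [div_le_iff₀ hε] at hN
  have h1 : ExtP κ K fun L _ _ _ _ _ => N ≤ finrank K L ∧
      ∃ v : Fin (finrank K Λ) → ι → L, LinearIndependent L v ∧
        (∀ i, v i ∈ bc L Λ) ∧ ∀ i, (height κ (v i) : ℝ) ≤ finrank K L * (a + ε / 2) := by
    refine (mink_aux h hQ (finrank K Λ) le_rfl (ε / 2) (by positivity)).trans ?_
    intro L _ _ _ _ _ hL
    obtain ⟨v, hv, hvΛ, hvh⟩ := hL
    have hFL : IsFF κ L := h.of_finite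
    obtain ⟨M, fM, aκM, aLM, tM, dM, hM⟩ := exists_large hFL N
    have hFM : IsFF κ M := hFL.of_finite
    have hp : 0 < finrank K L := finrank_pos
    refine ⟨M, fM, aκM, aLM, tM, dM, fun aKM t1 t2 d1 => ⟨?_, ?_⟩⟩
    · rw [← Module.finrank_mul_finrank K L M]
      nlinarith
    · refine ⟨fun i k => algebraMap L M (v i k), linearIndependent_am hv, ?_, ?_⟩
      · intro i
        have h1 := am_mem_bc (L := M) (hvΛ i)
        rwa [bc_bc] at h1
      · intro i
        rw [hFM.height_ext (hv.ne_zero i), ← Module.finrank_mul_finrank K L M]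
        push_cast
        have h1 := mul_le_mul_of_nonneg_left (hvh i) (Nat.cast_nonneg (α := ℝ) (finrank L M))
        linarith
  have h2 : ExtP κ K fun L _ _ _ _ _ => ∃ D : Place κ L →₀ ℤ, 0 ≤ divDeg D ∧
      (divDeg D : ℝ) ≤ finrank K L * (a + ε) ∧
      Submodule.span L ((boxSub (bc L Λ) D : Submodule κ (ι → L)) : Set (ι → L)) = bc L Λ := by
    refine h1.trans ?_
    intro L _ _ _ _ _ hL
    obtain ⟨hNL, v, hv, hvΛ, hvh⟩ := hL
    have hFL : IsFF κ L := h.of_finite
    obtain ⟨P⟩ := exists_place hFL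
    have hp : (0 : ℝ) < finrank K L := by exact_mod_cast finrank_pos
    have h4 : (4 : ℝ) ≤ finrank K L * ε := by
      refine hN'.trans (mul_le_mul_of_nonneg_right ?_ hε.le)
      exact_mod_cast hNL
    set F : ℤ := ⌊(finrank K L : ℝ) * (a + ε)⌋ with hF
    have hF0 : 0 ≤ F := by
      rw [hF]
      exact Int.floor_nonneg.2 (by positivity)
    have hFle : (F : ℝ) ≤ finrank K L * (a + ε) := Int.floor_le _
    have hFgt : (finrank K L : ℝ) * (a + ε) < F + 1 := Int.lt_floor_add_one _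
    have hdeg : divDeg (Finsupp.single P F) = F := by
      unfold divDeg
      rw [Finsupp.sum_single_index rfl]
    obtain ⟨M, fM, aκM, aLM, tM, dM, c, hc0, hc⟩ := common_box hFL v (fun i => hv.ne_zero i)
      (Finsupp.single P F) (fun i => by
        rw [hdeg]
        have h5 : ((height κ (v i) : ℤ) : ℝ) + 1 < (F : ℝ) + 1 := by
          have := hvh i
          nlinarith
        have h6 : ((height κ (v i) + 1 : ℤ) : ℝ) < ((F + 1 : ℤ) : ℝ) := by
          push_cast
          exact h5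
        have h7 : height κ (v i) + 1 < F + 1 := by exact_mod_cast h6
        omega)
    have hFM : IsFF κ M := hFL.of_finite
    refine ⟨M, fM, aκM, aLM, tM, dM, fun aKM t1 t2 d1 => ?_⟩
    obtain ⟨D', hD', hD'deg⟩ := exists_pull (L := M) hFL (Finsupp.single P F)
    refine ⟨D', ?_, ?_, ?_⟩
    · rw [hD'deg, hdeg]
      positivity
    · rw [hD'deg, hdeg, ← Module.finrank_mul_finrank K L M]
      push_cast
      have h5 := mul_le_mul_of_nonneg_left hFle (Nat.cast_nonneg (α := ℝ) (finrank L M))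
      linarith
    · refine le_antisymm (Submodule.span_le.2 fun y hy => (mem_boxSub.1 hy).1) ?_
      have hle : Submodule.span M (Set.range fun i k => algebraMap L M (v i k)) ≤
          Submodule.span M ((boxSub (bc M Λ) D' : Submodule κ (ι → M)) : Set (ι → M)) := by
        rw [Submodule.span_le]
        rintro _ ⟨i, rfl⟩
        have hmem : c i • (fun k => algebraMap L M (v i k)) ∈ bc M Λ := by
          refine Submodule.smul_mem _ _ ?_
          have h1 := am_mem_bc (L := M) (hvΛ i)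
          rwa [bc_bc] at h1
        have h5 : c i • (fun k => algebraMap L M (v i k)) ∈
            Submodule.span M ((boxSub (bc M Λ) D' : Submodule κ (ι → M)) : Set (ι → M)) := by
          refine Submodule.subset_span (mem_boxSub.2 ⟨hmem, fun w k => ?_⟩)
          rw [hD' w]
          exact hc i w k
        have h6 := Submodule.smul_mem _ (c i)⁻¹ h5
        rw [smul_smul, inv_mul_cancel₀ (hc0 i), one_smul] at h6
        exact h6
      refine le_trans (le_of_eq ?_) hle
      symm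
      refine Submodule.eq_of_le_of_finrank_le ?_ ?_
      · rw [Submodule.span_le]
        rintro _ ⟨i, rfl⟩
        have h1 := am_mem_bc (L := M) (hvΛ i)
        rwa [bc_bc] at h1
      · rw [finrank_bc, finrank_span_eq_card (linearIndependent_am hv), Fintype.card_fin]
  refine h2.galois ?_
  intro L _ _ _ _ _ hL M _ _ _ _ _ _ _ _ _
  obtain ⟨D, hD0, hDle, hspan⟩ := hL
  have hFL : IsFF κ L := h.of_finite
  obtain ⟨D', hdeg, hspan'⟩ := box_pull (L := M) hFL hspan
  rw [bc_bc] at hspan'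
  refine ⟨D', ?_, ?_, hspan'⟩
  · rw [hdeg]
    positivity
  · rw [hdeg, ← Module.finrank_mul_finrank K L M]
    push_cast
    have h5 := mul_le_mul_of_nonneg_left hDle (Nat.cast_nonneg (α := ℝ) (finrank L M))
    linarith

/-- **(2c), (2d), absolute**: a functional on quadratic forms of maximal rank and small height -/
theorem maxrank_abs (h : IsFF κ K) {n : ℕ} {Λ : Submodule K (EX n 2 → K)} {a : ℝ} (ha : 0 ≤ a)
    (hQ : QS κ Λ a) {ε : ℝ} (hε : 0 < ε) :
    ∃ (L : Type u) (_ : Field L) (_ : Algebra κ L) (_ : Algebra K L) (_ : IsScalarTower κ K L)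
      (_ : FiniteDimensional K L) (_ : IsGalois K L), ∃ q ∈ bc L Λ,
      (∀ q' ∈ bc L Λ, finrank L (lam 1 (L ∙ q')) ≤ finrank L (lam 1 (L ∙ q))) ∧
      2 * (ht κ (lam 1 (L ∙ q)) : ℝ) ≤
        finrank L (lam 1 (L ∙ q)) * (finrank K L * (a + ε)) ∧
      (∀ q' ∈ bc L Λ, ∀ f : MvPolynomial (Fin n) L,
        f.IsHomogeneous 1 → (∀ y ∈ lam 1 (L ∙ q), pr y f = 0) → cf f 1 q' ∈ lam 1 (L ∙ q)) ∧
      ∀ x : Fin n → L, xm 2 x ∈ bc L Λ → xm 1 x ∈ lam 1 (L ∙ q) := by
  obtain ⟨L, fL, aκL, aKL, tL, dL, gL, D, hD0, hD, hspan⟩ := minkowski_abs h ha hQ hε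
  have hL : IsFF κ L := h.of_finite
  obtain ⟨q, hq, -, h3, h4, h5, -, h6⟩ := maxrank_D hL (bc L Λ) D
  rw [hspan] at h3 h5 h6
  refine ⟨L, fL, aκL, aKL, tL, dL, gL, q, hq, h3, ?_, h5, h6⟩
  have h7 : 2 * (ht κ (lam 1 (L ∙ q)) : ℝ) ≤ finrank L (lam 1 (L ∙ q)) * (divDeg D : ℝ) := by
    exact_mod_cast h4
  exact h7.trans (mul_le_mul_of_nonneg_left hD (Nat.cast_nonneg _))

/-- a minimiser of `ht - τ dim` -/
theorem exists_piece (h : IsFF κ K) (R : Submodule K (ι → K)) (τ : ℝ) :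
    ∃ R₀ ≤ R, ∀ C ≤ R, (ht κ R₀ : ℝ) - τ * finrank K R₀ ≤ ht κ C - τ * finrank K C := by
  obtain ⟨Q, hQR, -, hmin, -⟩ := exists_max_slope h (-τ) (ξ := 0) (U := R) (Submodule.zero_mem _)
  refine ⟨Q, hQR, fun C hC => ?_⟩
  have h1 := hmin C hC (Submodule.zero_mem _)
  linarith

/-- **(2b), absolute**: the pieces of the slope filtration, on the scale `T / 2 ^ j`. -/
theorem exists_hn (h : IsFF κ K) (R : Submodule K (ι → K)) {T : ℝ} (hT : 0 ≤ T) {N : ℕ}
    (hN : 1 ≤ N) :
    ∃ (R₀ : Submodule K (ι → K)) (j : ℕ), R₀ ≤ R ∧ j < N ∧ QS κ R₀ (T / 2 ^ j) ∧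
      T / 2 ^ j * ((finrank K R : ℝ) - finrank K R₀) * N ≤ 2 * ht κ R := by
  choose S hSR hS using fun j : ℕ => exists_piece h R (T / 2 ^ j)
  -- `∑ T / 2 ^ j (dim R - dim S j) ≤ 2 (ht R - ht (S k))`
  have hsum : ∀ k : ℕ, ∑ j ∈ Finset.range (k + 1), T / 2 ^ j * ((finrank K R : ℝ) -
      finrank K (S j)) + T / 2 ^ k * ((finrank K R : ℝ) - finrank K (S k)) ≤
        2 * ((ht κ R : ℝ) - ht κ (S k)) := by
    intro k
    induction k with
    | zero =>
      rw [zero_add, Finset.sum_range_one]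
      have h1 := hS 0 R le_rfl
      linarith
    | succ k ih =>
      rw [Finset.sum_range_succ]
      have h1 := hS (k + 1) (S k) (hSR k)
      have h2 : T / 2 ^ (k + 1) = T / 2 ^ k / 2 := by
        rw [pow_succ]
        field_simp
      rw [h2] at h1 ⊢
      linarith
  by_contra hcon
  push Not at hcon
  have hqs : ∀ j, QS κ (S j) (T / 2 ^ j) := by
    intro j C hC
    have h1 := hS j C (hC.trans (hSR j))
    linarith
  have hlt : ∀ j ∈ Finset.range N, (2 * (ht κ R : ℝ)) / N < T / 2 ^ j *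
      ((finrank K R : ℝ) - finrank K (S j)) := by
    intro j hj
    have hNpos : (0 : ℝ) < N := by exact_mod_cast hN
    rw [div_lt_iff₀ hNpos]
    exact hcon (S j) j (hSR j) (Finset.mem_range.1 hj) (hqs j)
  have hne : (Finset.range N).Nonempty := ⟨0, Finset.mem_range.2 (by omega)⟩
  have h1 := Finset.sum_lt_sum_of_nonempty hne hlt
  rw [Finset.sum_const, Finset.card_range, nsmul_eq_mul] at h1
  have hNpos : (0 : ℝ) < N := by exact_mod_cast hN
  have h2 : (N : ℝ) * (2 * (ht κ R : ℝ) / N) = 2 * ht κ R := by field_simp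
  rw [h2] at h1
  obtain ⟨k, rfl⟩ : ∃ k, N = k + 1 := ⟨N - 1, by omega⟩
  have h3 := hsum k
  have h4 : (0 : ℝ) ≤ ht κ (S k) := by exact_mod_cast ht_nonneg h (S k)
  have h5 : (0 : ℝ) ≤ T / 2 ^ k * ((finrank K R : ℝ) - finrank K (S k)) := by
    refine mul_nonneg (by positivity) ?_
    have : (finrank K (S k) : ℝ) ≤ finrank K R := by
      exact_mod_cast Submodule.finrank_mono (hSR k)
    linarith
  linarith

end

end Pool.Agent.Lib.MP_44a246_ntSH
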