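import Mathlib
import Pool.Agent.Lib.MP_44a246_ntSH.AB1
import Pool.Agent.Lib.MP_44a246_ntSH.B22

/-!
Paper 619 without the genus, case A for `p` blocks: (A1), (A2), (A3).
-/

namespace Pool.Agent.Lib.MP_44a246_ntSH

open Pool.Agent.Lib.MP_44a246_nt
open Pool.Agent.Lib.MP_44a246_ntL
open Pool.Agent.Lib.MP_44a246_ntS
open Pool.Agent.Lib.MP_44a246_ntF
open Pool.Agent.Lib.MP_44a246_ntO
open Pool.Agent.Lib.MP_44a246_ntX
open Pool.Agent.Lib.MP_e52354_nt
open WithZero Module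

universe u v

section

variable {κ K : Type*} [Field κ] [IsAlgClosed κ] [CharZero κ] [Field K] [Algebra κ K] {n : ℕ}
  {x : Fin (n + 1) → K} {C₀ M E : ℝ}

/-- (A1): the functionals on `lam 2 W` have small degree -/
theorem fnl_le_A1 (h : IsFF κ K) (hyp : HypL κ x C₀ M E) (hC : 0 < C₀) {t η : ℝ} (ht0 : 0 < t)
    (hη : 0 < η) {e₀ : ℕ}
    {W : Submodule K (EX (n + 1) e₀ → K)} (hW : HasSl κ t (xm e₀ x) W)
    (hc : η * n * height κ x ≤ e₀ * (height κ x : ℝ) - ht κ W)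
    (hn : 24 ≤ n) (h6 : 12 ≤ η * n) {f : MvPolynomial (Fin (n + 1)) K} {τ : Place κ K → ℤ}
    {a' : ℤ} (hf : Fnl κ (lam 2 W) a' f τ) :
    (a' : ℝ) ≤ 3 * C₀ * height κ x / (η * (n : ℝ) ^ 2) := by
  have hx := hyp.ne
  set H : ℝ := (height κ x : ℝ) with hH
  have hHpos : 0 < H := hyp.H_pos
  have hn0 : (24 : ℝ) ≤ n := by exact_mod_cast hn
  have hnpos : (0 : ℝ) < n := by linarith
  have hηn2 : (0 : ℝ) < η * (n : ℝ) ^ 2 := by positivity
  set α : ℝ := 3 * C₀ * H / (η * (n : ℝ) ^ 2) with hα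
  have hαpos : 0 < α := by positivity
  have hηe : η * n ≤ e₀ := by
    have h1 : (0 : ℝ) ≤ ht κ W := by exact_mod_cast ht_nonneg h W
    have h2 : η * n * H ≤ e₀ * H := by linarith
    exact le_of_mul_le_mul_right h2 hHpos
  by_contra hlt
  push Not at hlt
  have ha0 : (0 : ℝ) < a' := hαpos.trans hlt
  set j : ℕ := ⌊M / a'⌋₊ + 1 with hj
  have hMa : M / a' ≤ η * n / 3 := by
    rw [div_le_iff₀ ha0]
    have h1 : M * n ≤ C₀ * H := hyp.small
    have h2 : η * n / 3 * α = C₀ * H / n := by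
      rw [hα]
      field_simp
    have h3 : M ≤ C₀ * H / n := by rwa [le_div_iff₀ hnpos]
    have h4 : η * n / 3 * α ≤ η * n / 3 * a' := mul_le_mul_of_nonneg_left hlt.le (by positivity)
    linarith only [h2, h3, h4]
  have hj1 : M < j * a' := by
    have h1 := Nat.lt_floor_add_one (M / a')
    rw [div_lt_iff₀ ha0] at h1
    rw [hj]
    push_cast
    exact h1
  have hj2 : (j : ℝ) ≤ η * n / 3 + 1 := by
    rw [hj]
    push_cast
    have h1 : (0 : ℝ) ≤ M / a' := div_nonneg hyp.pos ha0.le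
    have := Nat.floor_le h1
    linarith only [hMa, this]
  have hj3 : j * 2 ≤ e₀ := by
    have h3 : (j : ℝ) * 2 ≤ e₀ := by linarith only [h6, hηe, hj2]
    exact_mod_cast h3
  obtain ⟨R, -, -, -, hR⟩ := p3b h hx hyp.slope (i := 2) (k := j) hj3 (by omega) hW
    (by linarith only [ht0, hαpos, hlt]) (by linarith only [ht0, hj1]) hf
  have h1 : (0 : ℝ) ≤ ht κ R := by exact_mod_cast ht_nonneg h R
  have h2 : (j : ℝ) * (((2 : ℕ) : ℝ) * H - a') ≤ j * (2 * H) := by
    refine mul_le_mul_of_nonneg_left ?_ (Nat.cast_nonneg j)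
    push_cast
    linarith only [hαpos, hlt]
  have h3 : (j : ℝ) * (2 * H) ≤ (η * n / 3 + 1) * (2 * H) :=
    mul_le_mul_of_nonneg_right hj2 (by linarith only [hHpos])
  have h4 : η * n * H ≤ (η * n / 3 + 1) * (2 * H) := by linarith only [hc, hR, h1, h2, h3]
  have h5 : η * n ≤ (η * n / 3 + 1) * 2 := by
    have h6 : η * n * H ≤ ((η * n / 3 + 1) * 2) * H := by linarith only [hc, hR, h1, h2, h3]
    exact le_of_mul_le_mul_right h6 hHpos
  linarith only [h6, h5]

/-- (A3), first part: the functionals on the spaces of the contractions have small degree -/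
theorem stepA3L (h : IsFF κ K) (hyp : HypL κ x C₀ M E) (hC : 1 ≤ C₀) {s τ η : ℝ} (hτ : 0 < τ)
    (hsτ : 1 / 64 ≤ s - τ) (hsC : s ≤ C₀) (hη : 0 ≤ η)
    (hηs : η * (1 + (s + τ / 4) / τ) < (s - τ) * (1 / (5 * C₀)) / 4) (hn : 1 ≤ n) {d : ℕ}
    {W : Submodule K (EX (n + 1) d → K)} (hW : HasSl κ ((s - τ) * height κ x / n) (xm d x) W)
    (hc : (s - τ) * (1 / (5 * C₀)) * n * height κ x / 2 ≤ d * (height κ x : ℝ) - ht κ W)
    (hsat : ∀ r : ℕ, d ≤ 2 * r → r ≤ d → ∀ V : Submodule K (EX (n + 1) r → K), xm r x ∈ V →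
      r * (height κ x : ℝ) - ht κ V - (s + τ / 4) * height κ x / n * ((finrank K V : ℝ) - 1) ≤
        η * n * height κ x)
    {e : ℕ} (he : 1 ≤ e) (hen : (e : ℝ) ≤ n / (6000 * C₀)) {f : MvPolynomial (Fin (n + 1)) K}
    {υ : Place κ K → ℤ} {a : ℤ} (hf : Fnl κ (lam e W) a f υ) :
    (a : ℝ) ≤ 16 * τ * e * height κ x / ((s - τ) * (1 / (5 * C₀)) * (n : ℝ) ^ 2) := by
  have hx := hyp.ne
  set H : ℝ := (height κ x : ℝ) with hH
  have hHpos : 0 < H := hyp.H_pos
  have hn0 : (1 : ℝ) ≤ n := by exact_mod_cast hn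
  have hnpos : (0 : ℝ) < n := by linarith only [hn0]
  have he0 : (1 : ℝ) ≤ e := by exact_mod_cast he
  have hepos : (0 : ℝ) < e := by linarith only [he0]
  set c₂ : ℝ := 1 / (5 * C₀) with hc₂
  have hc₂pos : 0 < c₂ := by positivity
  set σ : ℝ := s - τ with hσ
  have hσpos : 0 < σ := by linarith only [hsτ]
  set α : ℝ := 16 * τ * e * H / (σ * c₂ * (n : ℝ) ^ 2) with hα
  have hαpos : 0 < α := by (clear * - hτ he hHpos hsτ hC hn; positivity)
  by_contra hlt
  push Not at hlt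
  have ha0 : (0 : ℝ) < a := hαpos.trans hlt
  have ha0' : 0 ≤ a := by
    have : (0 : ℤ) < a := by exact_mod_cast ha0
    exact this.le
  set y : ℝ := 3 * τ * H / (n * a) with hy
  have hypos : 0 < y := by (clear * - hτ hHpos hn ha0; positivity)
  set j : ℕ := ⌈y⌉₊ with hj
  have hj1 : 1 ≤ j := Nat.one_le_iff_ne_zero.2 (Nat.ceil_pos.2 hypos).ne'
  have hyj : y ≤ j := Nat.le_ceil y
  have hjy : (j : ℝ) ≤ y + 1 := (Nat.ceil_lt_add_one hypos.le).le
  have hye : y * e ≤ 3 * σ * c₂ * n / 16 := by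
    have h1 : y ≤ 3 * τ * H / (n * α) := by
      rw [hy]
      gcongr
    have h2 : 3 * τ * H / (n * α) * e = 3 * σ * c₂ * n / 16 := by
      rw [hα]
      field_simp
    rw [← h2]
    exact mul_le_mul_of_nonneg_right h1 hepos.le
  have he2 : (e : ℝ) ≤ σ * c₂ * n / 16 := by
    refine hen.trans ?_
    have h1 : (n : ℝ) / (6000 * C₀) = 1 / 6000 * (n / C₀) := by field_simp
    have h2 : σ * c₂ * n / 16 = σ / 80 * (n / C₀) := by
      rw [hc₂]
      field_simp
      norm_num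
    rw [h1, h2]
    exact mul_le_mul_of_nonneg_right (by linarith only [hsτ, hσpos]) (by positivity)
  have hje : (j : ℝ) * e ≤ σ * c₂ * n / 4 := by
    have h1 : (j : ℝ) * e ≤ (y + 1) * e := mul_le_mul_of_nonneg_right hjy hepos.le
    linarith only [hye, he2, h1]
  have hdn : σ * c₂ * n / 2 ≤ d := by
    have h1 : (0 : ℝ) ≤ ht κ W := by exact_mod_cast ht_nonneg h W
    have h2 : σ * c₂ * n / 2 * H ≤ d * H := by
      have e1 : σ * c₂ * n / 2 * H = σ * c₂ * n * H / 2 := by ring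
      rw [e1]
      linarith only [hc, h1]
    exact le_of_mul_le_mul_right h2 hHpos
  have hjd : 2 * (j * e) ≤ d := by
    have h2 : (2 : ℝ) * (j * e) ≤ d := by linarith only [hje, hdn]
    exact_mod_cast h2
  obtain ⟨r, hr⟩ : ∃ r, r + j * e = d := ⟨d - j * e, by omega⟩
  have hja : 3 * τ * H / n ≤ j * a := by
    have h1 : y * a = 3 * τ * H / n := by
      rw [hy]
      field_simp
    rw [← h1]
    exact mul_le_mul_of_nonneg_right hyj ha0.le
  have e1 : σ * H / n = s * H / n - τ * H / n := by rw [hσ]; ring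
  have e2 : (s + τ / 4) * H / n = s * H / n + τ * H / n / 4 := by ring
  have e3 : 3 * τ * H / n = 3 * (τ * H / n) := by ring
  have hτH : 0 < τ * H / n := by (clear * - hτ hHpos hn; positivity)
  have hs0 : 0 < s := by linarith only [hτ, hσpos]
  have key := p3c h hx (t := σ * H / n) (t₂ := (s + τ / 4) * H / n) (δ := τ * H / n)
    (K := η * n * H) hr hj1 hτH (by positivity)
    (hsat r (by omega) (by omega)) hW (by (clear * - hsτ hHpos hn ha0; positivity)) (by
      rw [e1, e2]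
      rw [e3] at hja
      linarith only [hja, hτH]) ha0' hf
  have h1 : (s + τ / 4) * H / n / (τ * H / n) = (s + τ / 4) / τ := by
    field_simp
  rw [h1] at key
  have h2 : (j : ℝ) * (e * H - a) ≤ σ * c₂ * n / 4 * H := by
    have h3 : (j : ℝ) * (e * H - a) = j * e * H - j * a := by ring
    have h4 : (0 : ℝ) ≤ j * a := by (clear * - hτ hHpos hn ha0; positivity)
    have h5 : (j : ℝ) * e * H ≤ σ * c₂ * n / 4 * H := mul_le_mul_of_nonneg_right hje hHpos.le
    linarith only [hja, e3, hτH, h5]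
  have h3 : η * n * H * (1 + (s + τ / 4) / τ) = η * (1 + (s + τ / 4) / τ) * (n * H) := by ring
  have h4 : η * (1 + (s + τ / 4) / τ) * (n * H) < σ * c₂ / 4 * (n * H) :=
    mul_lt_mul_of_pos_right hηs (by positivity)
  have h5 : σ * c₂ * n * H / 2 = σ * c₂ * n / 4 * H + σ * c₂ / 4 * (n * H) := by ring
  rw [h3] at key
  rw [h5] at hc
  linarith only [hc, key, h2, h4]

end

section

variable {κ K L : Type*} [Field κ] [IsAlgClosed κ] [CharZero κ] [Field K] [Algebra κ K]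
  [Field L] [Algebra κ L] [Algebra K L] [IsScalarTower κ K L] [FiniteDimensional K L]
  [IsGalois K L] {ι : Type*} [Fintype ι]

/-- a bound for the costs of all spaces passes to an extension -/
theorem sat_bc (h : IsFF κ K) {μ A B : ℝ} {ξ : ι → K}
    (hV : ∀ V : Submodule K (ι → K), ξ ∈ V → A - ht κ V - μ * ((finrank K V : ℝ) - 1) ≤ B)
    {V : Submodule L (ι → L)} (hξ : (fun k => algebraMap K L (ξ k)) ∈ V) :
    finrank K L * A - ht κ V - finrank K L * μ * ((finrank L V : ℝ) - 1) ≤ finrank K L * B := by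
  obtain ⟨Q₀, -, h1, h2⟩ := exists_min_descent (L := L) h μ (U := ⊤) (Submodule.mem_top (x := ξ))
  have h3 := h2 V (by rw [bc_top]; exact le_top) hξ
  have h4 := mul_le_mul_of_nonneg_left (hV Q₀ h1) (Nat.cast_nonneg (α := ℝ) (finrank K L))
  linarith

end

section

variable {κ : Type*} {K : Type u} [Field κ] [IsAlgClosed κ] [CharZero κ] [Field K] [Algebra κ K]
  {n : ℕ} {x : Fin (n + 1) → K} {C₀ M E : ℝ}

/-- (A1): a quadratic form of large rank -/
theorem stepA1L (h : IsFF κ K) (hyp : HypL κ x C₀ M E) (hC : 0 < C₀) {t η : ℝ} (ht0 : 0 < t)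
    (hη : 0 < η) {e₀ : ℕ}
    {W : Submodule K (EX (n + 1) e₀ → K)} (hW : HasSl κ t (xm e₀ x) W)
    (hc : η * n * height κ x ≤ e₀ * (height κ x : ℝ) - ht κ W)
    (hn : 24 ≤ n) (h6 : 12 ≤ η * n) (hsz : 12 * C₀ ≤ η * n) :
    ∃ q ∈ lam 2 W, (n : ℝ) / (2 * C₀) ≤ finrank K (lam 1 (K ∙ q)) := by
  have hx := hyp.ne
  obtain ⟨H, hH⟩ : ∃ H : ℝ, H = (height κ x : ℝ) := ⟨_, rfl⟩
  have hHpos : 0 < H := by rw [hH]; exact hyp.H_pos
  have hn0 : (24 : ℝ) ≤ n := by exact_mod_cast hn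
  have hnpos : (0 : ℝ) < n := by linarith
  have hηn2 : (0 : ℝ) < η * (n : ℝ) ^ 2 := by positivity
  obtain ⟨α, hα⟩ : ∃ α : ℝ, α = 3 * C₀ * H / (η * (n : ℝ) ^ 2) := ⟨_, rfl⟩
  have hαpos : 0 < α := by rw [hα]; positivity
  have hηe : η * n ≤ e₀ := by
    rw [← hH] at hc
    have h1 : (0 : ℝ) ≤ ht κ W := by exact_mod_cast ht_nonneg h W
    have h2 : η * n * H ≤ e₀ * H := by linarith only [hc, h1]
    exact le_of_mul_le_mul_right h2 hHpos
  have he2 : 2 ≤ e₀ := by
    have h1 : (2 : ℝ) ≤ e₀ := by linarith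
    exact_mod_cast h1
  have hΛ : HasSl κ t (xm 2 x) (lam 2 W) := hasSl_lam h hx he2 hW
  have hQ : QS κ (lam 2 W) α := by
    by_contra hQ
    obtain ⟨L, _, _, _, _, _, _, l, τ, b, hτ, hsum, hb, hl, hm⟩ := exists_fnl_of_not_qs h hQ
    have hL : IsFF κ L := h.of_finite
    have hN : (0 : ℝ) < finrank K L := by exact_mod_cast finrank_pos
    have hyp' := hyp.ext (L := L) h
    have hH' : (height κ (fun k => algebraMap K L (x k)) : ℝ) = finrank K L * H := by
      rw [hH]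
      exact_mod_cast hL.height_ext (K := K) hyp.ne
    have hf : Fnl κ (lam 2 (bc L W)) b (pf l) τ := by
      rw [lam_bc]
      exact fnl_of_row hτ hsum hl hm
    have hW' : HasSl κ (finrank K L * t) (xm e₀ fun k => algebraMap K L (x k)) (bc L W) := by
      rw [xm_am]
      exact HasSl_bc h hW
    have hb' := fnl_le_A1 hL hyp' hC (mul_pos hN ht0) hη hW' (by
      rw [hH', ht_bc h]
      rw [← hH] at hc
      push_cast
      have := mul_le_mul_of_nonneg_left hc hN.le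
      linarith only [this]) hn h6 hf
    rw [hH'] at hb'
    have h1 : 3 * C₀ * (finrank K L * H) / (η * (n : ℝ) ^ 2) = finrank K L * α := by
      rw [hα]
      ring
    rw [h1] at hb'
    linarith only [hb, hb']
  obtain ⟨ε, hεd⟩ : ∃ ε : ℝ, ε = H / (2 * (n + 1)) := ⟨_, rfl⟩
  have hε : 0 < ε := by rw [hεd]; positivity
  obtain ⟨L, _, _, _, _, _, _, q, hq, -, hhq, -, hxq'⟩ := maxrank_abs h hαpos.le hQ hε
  have hL : IsFF κ L := h.of_finite
  have hN : (0 : ℝ) < finrank K L := by exact_mod_cast finrank_pos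
  have hyp' := hyp.ext (L := L) h
  obtain ⟨x', hx'⟩ : ∃ x' : Fin (n + 1) → L, x' = fun k => algebraMap K L (x k) := ⟨_, rfl⟩
  rw [← hx'] at hyp'
  have hH' : (height κ x' : ℝ) = finrank K L * H := by
    rw [hx', hH]
    exact_mod_cast hL.height_ext (K := K) hyp.ne
  have hxm : (xm 2 x' : EX (n + 1) 2 → L) = fun I => algebraMap K L (xm 2 x I) := by
    rw [hx', xm_am]
  have hxq : xm 1 x' ∈ lam 1 (L ∙ q) := hxq' x' (by rw [hxm]; exact am_mem_bc hΛ.mem)
  have hinf : Infinite K := Infinite.of_injective _ (algebraMap κ K).injective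
  obtain ⟨q₀, hq₀, hqr⟩ := exists_rank_descent hq
  refine ⟨q₀, hq₀, ?_⟩
  have hqr' : (finrank L (lam 1 (L ∙ q)) : ℝ) ≤ finrank K (lam 1 (K ∙ q₀)) := by exact_mod_cast hqr
  refine le_trans ?_ hqr'
  obtain ⟨V, hV⟩ : ∃ V : Submodule L (EX (n + 1) 1 → L), V = lam 1 (L ∙ q) := ⟨_, rfl⟩
  rw [← hV] at hhq hxq ⊢
  have hρ : (finrank L V : ℝ) ≤ n + 1 := by
    have := finrank_lam_one_le (L ∙ q)
    rw [← hV] at this
    exact_mod_cast this
  have h3 : (2 : ℝ) * ht κ V ≤ finrank K L * ((n + 1) * (α + ε)) := by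
    refine hhq.trans ?_
    have h4 : (finrank L V : ℝ) * (finrank K L * (α + ε)) ≤
        (n + 1) * (finrank K L * (α + ε)) := mul_le_mul_of_nonneg_right hρ (by (clear * - hN hαpos hε; positivity))
    linarith only [h4]
  have h4 : (n + 1 : ℝ) * α ≤ H / 2 := by
    have h5 : (n + 1 : ℝ) * α = (n + 1) / n * (3 * C₀ / (η * n)) * H := by
      rw [hα]
      field_simp
    have h6 : (n + 1 : ℝ) / n ≤ 2 := by
      rw [div_le_iff₀ hnpos]
      linarith only [hn0]
    have h7 : 3 * C₀ / (η * n) ≤ 1 / 4 := by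
      rw [div_le_iff₀ (by positivity)]
      linarith only [hsz]
    have h8 : (n + 1 : ℝ) / n * (3 * C₀ / (η * n)) ≤ 2 * (1 / 4) :=
      mul_le_mul h6 h7 (by positivity) (by norm_num)
    rw [h5]
    nlinarith only [hHpos, h8]
  have h5 : (n + 1 : ℝ) * ε = H / 2 := by
    rw [hεd]
    field_simp
  have h6 : (ht κ V : ℝ) ≤ finrank K L * H / 2 := by
    have h7 : (n + 1 : ℝ) * (α + ε) ≤ H := by linarith only [h4, h5]
    have h8 := mul_le_mul_of_nonneg_left h7 hN.le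
    linarith only [h3, h8]
  have h7 := cost_le_aux hL hyp'.ne hyp'.slope (D := 1) le_rfl hxq
  rw [hH'] at h7
  have h8 : finrank K L * (H / 2) ≤ finrank K L * (M * ((finrank L V : ℝ) - 1)) := by
    push_cast at h7
    linarith only [h6, h7]
  have h8' := le_of_mul_le_mul_left h8 hN
  have h9 : (1 : ℝ) ≤ finrank L V := by
    exact_mod_cast one_le_finrank_aux (xm_ne_zero (d := 1) hyp'.ne) hxq
  have h10 : H / 2 * n ≤ C₀ * H * ((finrank L V : ℝ) - 1) := by
    calc H / 2 * n ≤ M * ((finrank L V : ℝ) - 1) * n := mul_le_mul_of_nonneg_right h8' hnpos.le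
      _ = M * n * ((finrank L V : ℝ) - 1) := by ring
      _ ≤ C₀ * H * ((finrank L V : ℝ) - 1) :=
        mul_le_mul_of_nonneg_right (by rw [hH]; exact hyp.small) (by linarith only [h9])
  rw [div_le_iff₀ (by positivity)]
  have h11 : (n : ℝ) * H ≤ ((finrank L V : ℝ) * (2 * C₀)) * H := by
    have : 0 ≤ C₀ * H := by positivity
    nlinarith only [h10, this]
  exact le_of_mul_le_mul_right h11 hHpos

/-- (A3), second part: the slopes of the quotients of the spaces of the contractions -/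
theorem qs_A3 (h : IsFF κ K) (hyp : HypL κ x C₀ M E) (hC : 1 ≤ C₀) {s τ η : ℝ} (hτ : 0 < τ)
    (hsτ : 1 / 64 ≤ s - τ) (hsC : s ≤ C₀) (hη : 0 ≤ η)
    (hηs : η * (1 + (s + τ / 4) / τ) < (s - τ) * (1 / (5 * C₀)) / 4) (hn : 1 ≤ n) {d : ℕ}
    {W : Submodule K (EX (n + 1) d → K)} (hW : HasSl κ ((s - τ) * height κ x / n) (xm d x) W)
    (hc : (s - τ) * (1 / (5 * C₀)) * n * height κ x / 2 ≤ d * (height κ x : ℝ) - ht κ W)
    (hsat : ∀ r : ℕ, d ≤ 2 * r → r ≤ d → ∀ V : Submodule K (EX (n + 1) r → K), xm r x ∈ V →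
      r * (height κ x : ℝ) - ht κ V - (s + τ / 4) * height κ x / n * ((finrank K V : ℝ) - 1) ≤
        η * n * height κ x)
    {e : ℕ} (he : 1 ≤ e) (hen : (e : ℝ) ≤ n / (6000 * C₀)) :
    QS κ (lam e W) (16 * τ * e * height κ x / ((s - τ) * (1 / (5 * C₀)) * (n : ℝ) ^ 2)) := by
  by_contra hQ
  obtain ⟨L, _, _, _, _, _, _, l, υ, b, hυ, hsum, hb, hl, hm⟩ := exists_fnl_of_not_qs h hQ
  have hL : IsFF κ L := h.of_finite
  have hN : (0 : ℝ) < finrank K L := by exact_mod_cast finrank_pos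
  have hyp' := hyp.ext (L := L) h
  obtain ⟨H, hH⟩ : ∃ H : ℝ, H = (height κ x : ℝ) := ⟨_, rfl⟩
  have hH' : (height κ (fun k => algebraMap K L (x k)) : ℝ) = finrank K L * H := by
    rw [hH]
    exact_mod_cast hL.height_ext (K := K) hyp.ne
  have hf : Fnl κ (lam e (bc L W)) b (pf l) υ := by
    rw [lam_bc]
    exact fnl_of_row hυ hsum hl hm
  rw [← hH] at hW hc hsat hb
  have hW' : HasSl κ ((s - τ) * height κ (fun k => algebraMap K L (x k)) / n)
      (xm d fun k => algebraMap K L (x k)) (bc L W) := by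
    rw [xm_am, hH']
    have h1 := HasSl_bc (L := L) h hW
    have h2 : (s - τ) * (finrank K L * H) / n = finrank K L * ((s - τ) * H / n) := by ring
    rw [h2]
    exact h1
  have hb' := stepA3L hL hyp' hC hτ hsτ hsC hη hηs hn hW' (by
    rw [hH', ht_bc h]
    push_cast
    have := mul_le_mul_of_nonneg_left hc hN.le
    linarith only [this]) (fun r hr1 hr2 V hV => by
      rw [hH']
      have hξ : (fun k => algebraMap K L (xm r x k)) ∈ V := by
        rw [xm_am] at hV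
        exact hV
      have h1 := sat_bc h (hsat r hr1 hr2) hξ
      have e1 : (s + τ / 4) * (finrank K L * H) / n = finrank K L * ((s + τ / 4) * H / n) := by
        ring
      rw [e1]
      linarith only [h1]) he hen hf
  rw [hH'] at hb'
  have h1 : 16 * τ * e * (finrank K L * H) / ((s - τ) * (1 / (5 * C₀)) * (n : ℝ) ^ 2) =
      finrank K L * (16 * τ * e * H / ((s - τ) * (1 / (5 * C₀)) * (n : ℝ) ^ 2)) := by
    ring
  rw [h1] at hb'
  linarith only [hb, hb']

end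

section

variable {κ K : Type*} [Field κ] [IsAlgClosed κ] [CharZero κ] [Field K] [Algebra κ K] {n : ℕ}
  {x : Fin (n + 1) → K} {C₀ M E : ℝ}

/-- (A3), end -/
theorem stepA3bL (h : IsFF κ K) (hyp : HypL κ x C₀ M E) (hC : 1 ≤ C₀) {σ τ θ : ℝ} (hτ : 0 < τ)
    (hσ : 1 / 64 ≤ σ) (hσC : σ ≤ C₀) (hθ : τ * (400000 * C₀) ≤ θ) (hn : 1 ≤ n)
    (hnC : 16 * C₀ ≤ n) {d : ℕ}
    {W : Submodule K (EX (n + 1) d → K)} (hW : HasSl κ (σ * height κ x / n) (xm d x) W)
    {e : ℕ} (he : 1 ≤ e) (hed : e ≤ d)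
    (hQ : QS κ (lam e W) (16 * τ * e * height κ x / (σ * (1 / (5 * C₀)) * (n : ℝ) ^ 2))) :
    (ht κ (lam e W) : ℝ) ≤ θ * e ^ 2 * height κ x / n ∧
      (finrank K (lam e W) : ℝ) ≤ 1 + e * n / σ := by
  have hx := hyp.ne
  set H : ℝ := (height κ x : ℝ) with hH
  have hHpos : 0 < H := hyp.H_pos
  have hn0 : (1 : ℝ) ≤ n := by exact_mod_cast hn
  have hnpos : (0 : ℝ) < n := by linarith only [hC, hnC]
  have he0 : (1 : ℝ) ≤ e := by exact_mod_cast he
  have hepos : (0 : ℝ) < e := by linarith only [he0]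
  set c₂ : ℝ := 1 / (5 * C₀) with hc₂
  have hc₂pos : 0 < c₂ := by positivity
  have hσpos : 0 < σ := by linarith only [hσ]
  set α : ℝ := 16 * τ * e * H / (σ * c₂ * (n : ℝ) ^ 2) with hα
  have hαpos : 0 < α := by positivity
  have hΛ : HasSl κ (σ * H / n) (xm e x) (lam e W) := hasSl_lam h hx hed hW
  have hdim : (finrank K (lam e W) : ℝ) ≤ 1 + e * n / σ := by
    have h1 := cost_ge h hx hΛ
    have h2 : (0 : ℝ) ≤ ht κ (lam e W) := by exact_mod_cast ht_nonneg h _
    have h3 : σ * H / n * ((finrank K (lam e W) : ℝ) - 1) ≤ σ * H / n * (e * n / σ) := by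
      have e1 : σ * H / n * (e * n / σ) = e * H := by field_simp
      rw [e1]
      linarith only [h1, h2]
    have h4 := le_of_mul_le_mul_left h3 (by (clear * - hσ hHpos hn; positivity))
    linarith only [h4]
  refine ⟨?_, hdim⟩
  have h2 := hQ ⊥ bot_le
  rw [ht_bot h, finrank_bot] at h2
  push_cast at h2
  have hen : (1 : ℝ) ≤ 1 / 16 * (e * n / σ) := by
    have h4 : 16 * C₀ / C₀ ≤ e * n / σ := by
      apply div_le_div₀ (by positivity) _ hσpos hσC
      nlinarith only [hnC, he0]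
    have h5 : 16 * C₀ / C₀ = 16 := by field_simp
    linarith only [h4, h5]
  have h4 : (ht κ (lam e W) : ℝ) ≤ (17 / 16 * (e * n / σ)) * α := by
    have h5 : α * (finrank K (lam e W) : ℝ) ≤ α * (17 / 16 * (e * n / σ)) :=
      mul_le_mul_of_nonneg_left (by linarith only [hdim, hen]) hαpos.le
    linarith only [h2, h5]
  refine h4.trans ?_
  have h5 : (17 / 16 * (e * n / σ)) * α =
      (85 * C₀ * τ * (1 / σ) ^ 2) * (e ^ 2 * H / n) := by
    rw [hα, hc₂]
    field_simp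
    norm_num
  have h6 : θ * e ^ 2 * H / n = θ * (e ^ 2 * H / n) := by ring
  rw [h5, h6]
  refine mul_le_mul_of_nonneg_right ?_ (by positivity)
  have h7 : 1 / σ ≤ 64 := by
    rw [div_le_iff₀ hσpos]
    linarith only [hσ]
  have h8 : (1 / σ) ^ 2 ≤ 64 ^ 2 := pow_le_pow_left₀ (by positivity) h7 2
  have h9 : 85 * C₀ * τ * (1 / σ) ^ 2 ≤ 85 * C₀ * τ * 64 ^ 2 :=
    mul_le_mul_of_nonneg_left h8 (by positivity)
  have h10 : 0 ≤ C₀ * τ := by positivity
  nlinarith only [hθ, h9, h10]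

end

end Pool.Agent.Lib.MP_44a246_ntSH
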