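import Mathlib
import Pool.Agent.Lib.MP_44a246_ntSH.AB2
import Pool.Agent.Lib.MP_44a246_ntSH.B13

/-!
Paper 619 without the genus: (B5) for `p` blocks, and the theorem of case B.
-/

namespace Pool.Agent.Lib.MP_44a246_ntSH

open Pool.Agent.Lib.MP_44a246_nt
open Pool.Agent.Lib.MP_44a246_ntL
open Pool.Agent.Lib.MP_44a246_ntS
open Pool.Agent.Lib.MP_44a246_ntF
open Pool.Agent.Lib.MP_44a246_ntO
open Pool.Agent.Lib.MP_44a246_ntX
open Pool.Agent.Lib.MP_e52354_nt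
open WithZero Module

universe u v

section

variable {κ K : Type*} [Field κ] [IsAlgClosed κ] [CharZero κ] [Field K] [Algebra κ K] {n : ℕ}

/-- **The cost of `Y . V + K x ^ 2`**, without the genus: the functional with kernel `Y` on
`Y + K x` comes from `form_of_hyperplane_ker`. -/
theorem cost_YVA (h : IsFF κ K) {x : Fin n → K} (hx : x ≠ 0) {Y : Submodule K (EX n 1 → K)}
    (hxY : xm 1 x ∉ Y) (Λ : Submodule K (EX n 2 → K)) :
    2 * (height κ x : ℝ) - ht κ ((Λ ⊓ YV Y) ⊔ Submodule.span K {xm 2 x}) ≤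
      2 * ((height κ x : ℝ) + ht κ Y - ht κ (Y ⊔ Submodule.span K {xm 1 x})) := by
  classical
  have hx1 : xm 1 x ≠ 0 := xm_ne_zero hx
  have hfr : finrank K (Y ⊔ Submodule.span K {xm 1 x} : Submodule K (EX n 1 → K)) =
      finrank K Y + 1 := by
    have h1 := Submodule.finrank_sup_add_finrank_inf_eq Y (Submodule.span K {xm 1 x})
    have h2 : Y ⊓ Submodule.span K {xm 1 x} = ⊥ := by
      rw [← disjoint_iff]
      exact (Submodule.disjoint_span_singleton' hx1).2 hxY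
    rw [h2, finrank_bot, finrank_span_singleton hx1] at h1
    omega
  obtain ⟨a, ha⟩ : ∃ a : ℤ, a = ht κ (Y ⊔ Submodule.span K {xm 1 x}) - ht κ Y := ⟨_, rfl⟩
  obtain ⟨l, τ, hτ, hsum, hlY, ⟨z, hz, hlz⟩, hm⟩ := form_of_hyperplane_ker h
    (C := Y) (Λ := Y ⊔ Submodule.span K {xm 1 x}) le_sup_left hfr
  have hsum' : ∑ᶠ w, τ w = -a := by rw [hsum, ha]; ring
  have hlx : ∑ k, l k * xm 1 x k ≠ 0 := by
    intro h0
    apply hlz
    obtain ⟨y, hy, z', hz', rfl⟩ := Submodule.mem_sup.1 hz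
    obtain ⟨c, rfl⟩ := Submodule.mem_span_singleton.1 hz'
    have h1 : ∑ k, l k * (y + c • xm 1 x) k = ∑ k, l k * y k + c * ∑ k, l k * xm 1 x k := by
      rw [Finset.mul_sum, ← Finset.sum_add_distrib]
      refine Finset.sum_congr rfl fun k _ => ?_
      rw [Pi.add_apply, Pi.smul_apply, smul_eq_mul]
      ring
    rw [h1, hlY y hy, h0, mul_zero, add_zero]
  have hev : ∀ m : EX n 1 → K, MvPolynomial.eval x (pf m) = ∑ k, m k * xm 1 x k := fun m => by
    rw [← pr_xm x (pf_hom m), pr_pf]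
  have hhom : ∀ m : EX n 1 → K, (pf m ^ 2).IsHomogeneous 2 := fun m => by
    have h1 := (pf_hom m).pow 2
    simpa using h1
  have hfx : MvPolynomial.eval x (pf l ^ 2) ≠ 0 := by
    rw [map_pow, hev]
    exact pow_ne_zero _ hlx
  obtain ⟨W, hW⟩ : ∃ W : Submodule K (EX n 2 → K), W = (Λ ⊓ YV Y) ⊔ Submodule.span K {xm 2 x} :=
    ⟨_, rfl⟩
  rw [← hW]
  have hYV : ∀ m : EX n 1 → K, (∀ y ∈ Y, ∑ k, m k * y k = 0) → ∀ u ∈ YV Y,
      pr u (pf m ^ 2) = 0 := fun m hmY u hu => by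
    rw [pow_two]
    exact mem_YV.1 hu _ _ (pf_hom m) (pf_hom m) (fun y hy => by rw [pr_pf]; exact hmY y hy)
      (fun y hy => by rw [pr_pf]; exact hmY y hy)
  have hpr : ∀ m : EX n 1 → K, (∀ y ∈ Y ⊔ Submodule.span K {xm 1 x},
      ∑ k, m k * y k = ∑ k, l k * y k) → ∀ u ∈ W, pr u (pf m ^ 2) = pr u (pf l ^ 2) := by
    intro m hml u hu
    have hmx : ∑ k, m k * xm 1 x k = ∑ k, l k * xm 1 x k :=
      hml _ (Submodule.mem_sup_right (Submodule.mem_span_singleton_self _))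
    have hmY : ∀ y ∈ Y, ∑ k, m k * y k = 0 := fun y hy => by
      rw [hml y (Submodule.mem_sup_left hy), hlY y hy]
    rw [hW] at hu
    obtain ⟨y, hy, z', hz', rfl⟩ := Submodule.mem_sup.1 hu
    obtain ⟨c, rfl⟩ := Submodule.mem_span_singleton.1 hz'
    rw [pr_add, pr_add, pr_smul, pr_smul, hYV m hmY y hy.2, hYV l hlY y hy.2,
      pr_xm x (hhom m), pr_xm x (hhom l), map_pow, map_pow, hev, hev, hmx]
  have hcost := contr_cost h (x := x) (i := 0) (j := 2) (e := 2) rfl (W := W) (f := pf l ^ 2)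
    (a := 2 * a) (τ := fun w => 2 * τ w)
    (by
      refine hτ.subset fun w hw h0 => hw ?_
      simp only
      rw [h0, mul_zero])
    (by rw [← mul_finsum, hsum']; ring)
    (fun w => by
      obtain ⟨m, hm1, hm2⟩ := hm w
      refine ⟨pf m ^ 2, hhom m, fun K => ?_, fun u hu => ?_⟩
      · have h1 := coeff_pow_le w.1 (coeff_pf_le w.1 hm1) 2 K
        rwa [← exp_nsmul, nsmul_eq_mul] at h1
      · funext ψ
        have h2 : ψ.1 = 0 := by
          have h3 := mem_expo.1 ψ.2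
          rwa [Finsupp.degree_eq_zero_iff] at h3
        rw [cf_apply, cf_apply, h2]
        have h3 : (MvPolynomial.monomial 0 1 : MvPolynomial (Fin n) K) = 1 := rfl
        rw [h3, one_mul, one_mul]
        exact hpr m hm2 u hu)
  have hfr1 : finrank K (W.map (cf (pf l ^ 2) 0)) = 1 := by
    refine le_antisymm ?_ ?_
    · have h2 := Submodule.finrank_le (W.map (cf (pf l ^ 2) 0))
      rw [finrank_fintype_fun_eq_card] at h2
      exact h2.trans card_EX_zero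
    · have h1 : cf (pf l ^ 2) 0 (xm 2 x) ∈ W.map (cf (pf l ^ 2) 0) :=
        ⟨_, by rw [hW]; exact Submodule.mem_sup_right (Submodule.mem_span_singleton_self _), rfl⟩
      rw [cf_xm (hhom l) rfl] at h1
      exact one_le_finrank_aux (smul_ne_zero hfx (xm_ne_zero hx)) h1
  rw [hfr1] at hcost
  have h1 : (0 : ℝ) ≤ ht κ (W ⊓ LinearMap.ker (cf (pf l ^ 2) 0)) := by
    exact_mod_cast ht_nonneg h _
  have h2 : (0 : ℝ) ≤ ht κ (W.map (cf (pf l ^ 2) 0)) := by
    exact_mod_cast ht_nonneg h _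
  have h3 : (a : ℝ) = ht κ (Y ⊔ Submodule.span K {xm 1 x}) - ht κ Y := by
    rw [ha]; push_cast; ring
  push_cast at hcost
  linarith

end

section

variable {κ : Type*} {K : Type u} [Field κ] [IsAlgClosed κ] [CharZero κ] [Field K] [Algebra κ K]

/-- the hyperplane of small height, over an extension (B5) -/
theorem cba_hyper (h : IsFF κ K) {n : ℕ} {x : Fin n → K} (hx : x ≠ 0) {t ε : ℝ} (hε : 0 < ε)
    (hεt : ε < t) {Λ : Submodule K (EX n 2 → K)} (hΛ : HasSl κ t (xm 2 x) Λ) :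
    ∃ (L : Type u) (_ : Field L) (_ : Algebra κ L) (_ : Algebra K L) (_ : IsScalarTower κ K L)
      (_ : FiniteDimensional K L) (_ : IsGalois K L), ∃ R ≤ bc L Λ,
      xm 2 (fun k => algebraMap K L (x k)) ∉ R ∧ finrank L R + 1 = finrank L (bc L Λ) ∧
      (ht κ R : ℝ) ≤ finrank K L * (ht κ Λ + ε) := by
  have hne : Λ ≠ ⊥ := by
    intro h0
    have := hΛ.mem
    rw [h0] at this
    exact xm_ne_zero hx ((Submodule.mem_bot K).1 this)
  have hfr : (0 : ℝ) < finrank K Λ := by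
    have : finrank K Λ ≠ 0 := fun h0 => hne (Submodule.finrank_eq_zero.1 h0)
    exact_mod_cast Nat.pos_of_ne_zero this
  have hht0 : (0 : ℝ) ≤ ht κ Λ := by exact_mod_cast ht_nonneg h Λ
  have hsz : -ε * finrank K Λ < ht κ Λ := by
    have : 0 < ε * finrank K Λ := by positivity
    linarith
  obtain ⟨L, fL, aκL, aKL, tL, dL, gL, l, τ, b, hτ, hsum, hb, hl, hm⟩ := absolute_siegel h hne hsz
  refine ⟨L, fL, aκL, aKL, tL, dL, gL, ?_⟩
  have hL : IsFF κ L := h.of_finite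
  have hN : (0 : ℝ) < finrank K L := by exact_mod_cast finrank_pos
  have hx' : (fun k => algebraMap K L (x k)) ≠ 0 := by
    obtain ⟨k, hk⟩ := Function.ne_iff.1 hx
    refine Function.ne_iff.2 ⟨k, fun h0 => hk ?_⟩
    exact (algebraMap K L).injective (by simpa using h0)
  have hΛ' : HasSl κ (finrank K L * t) (xm 2 fun k => algebraMap K L (x k)) (bc L Λ) := by
    rw [xm_am]
    exact HasSl_bc h hΛ
  have hf : Fnl κ (lam 2 (bc L Λ)) b (pf l) τ := by
    rw [lam_self]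
    exact fnl_of_row hτ hsum hl hm
  have hb0 : (0 : ℝ) < finrank K L * t + b := by
    have h1 : 0 < (finrank K L : ℝ) * (t - ε) := mul_pos hN (by linarith)
    linarith
  obtain ⟨V, R, h1, h2, h3, h4, h5⟩ := p3 hL hx' (i := 2) (k := 1) (r := 0) (e := 2) (by norm_num)
    le_rfl hΛ' hb0 hf
  have h6 : finrank L V = 1 := by
    refine le_antisymm ?_ (one_le_finrank_aux (xm_ne_zero (d := 0) hx') h4.mem)
    have h7 := Submodule.finrank_le V
    rw [finrank_fintype_fun_eq_card] at h7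
    exact h7.trans card_EX_zero
  refine ⟨R, h1, h2, by omega, ?_⟩
  have h8 : (0 : ℝ) ≤ ht κ V := by exact_mod_cast ht_nonneg hL V
  rw [h6] at h5
  rw [ht_bc h] at h5
  push_cast at h5
  linarith

end

section

variable {κ K : Type*} [Field κ] [IsAlgClosed κ] [CharZero κ] [Field K] [Algebra κ K]
  {n : ℕ} {x : Fin (n + 1) → K} {C₀ M E : ℝ}

/-- **(B5)**, the end: a subspace `Y` of small dimension and height such that `Λ ⊓ Y . V` has small
codimension in `Λ`. -/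
theorem cba_end (h : IsFF κ K) (hyp : HypL κ x C₀ M E) (hn1 : 1 ≤ n) {ρ : ℕ} (hρ : 1 ≤ ρ)
    {c : ℝ} (hc : 0 < c) (hc1 : c ≤ 1) {N : ℕ}
    (hnC : 2 * ρ * C₀ ≤ n) (hnc : (2 * ρ + (ρ + 1) * 2 ^ N) * C₀ * 8 ≤ c * n)
    {Λ R RD : Submodule K (EX (n + 1) 2 → K)} (hxΛ : xm 2 x ∈ Λ) (hRΛ : R ≤ Λ) (hxR : xm 2 x ∉ R)
    (hdim : finrank K R + 1 = finrank K Λ) (hRDR : RD ≤ R)
    {Y : Submodule K (EX (n + 1) 1 → K)} (hYρ : finrank K Y ≤ ρ) (hRDY : RD ≤ YV Y) {T : ℝ}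
    (hη : 2 * (ht κ Y : ℝ) ≤ 2 * (ρ * T)) (hρT : ρ * T ≤ c * height κ x / 5)
    (hscale : ρ * (T * ((finrank K R : ℝ) - finrank K RD)) ≤ c * height κ x / 5)
    (hr2 : (finrank K R : ℝ) - finrank K RD ≤ 2 ^ N) :
    2 * (height κ x : ℝ) - ht κ Λ < c * height κ x := by
  have hH0 := hyp.H_pos
  have hnpos : (0 : ℝ) < n := by exact_mod_cast hn1
  have hM := hyp.pos
  have hρ' : (1 : ℝ) ≤ ρ := by exact_mod_cast hρ
  have hρ0 : (0 : ℝ) < ρ := by linarith
  have hC0 : 0 ≤ C₀ := hyp.cb_C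
  have hMn : M ≤ C₀ * (height κ x / n) := by
    rw [← mul_div_assoc, le_div_iff₀ hnpos]
    exact hyp.small
  have hcH : c * height κ x ≤ height κ x := by nlinarith
  have hYρ' : (finrank K Y : ℝ) ≤ ρ := by exact_mod_cast hYρ
  obtain ⟨r, hr⟩ : ∃ r : ℝ, r = (finrank K R : ℝ) - finrank K RD := ⟨_, rfl⟩
  rw [← hr] at hscale hr2
  have hr0 : 0 ≤ r := by
    have : (finrank K RD : ℝ) ≤ finrank K R := by exact_mod_cast Submodule.finrank_mono hRDR
    linarith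
  have hη' : (ht κ Y : ℝ) ≤ ρ * T := by linarith
  have hη0 : 0 ≤ ρ * T := le_trans (by exact_mod_cast ht_nonneg h Y) hη'
  have hdim' : (finrank K R : ℝ) + 1 = finrank K Λ := by exact_mod_cast hdim
  -- the point is not in `Y`
  have hMρ : 2 * (ρ * M) ≤ height κ x := by
    have h1 : 2 * ρ * C₀ * (height κ x / n) ≤ height κ x := by
      rw [← mul_div_assoc, div_le_iff₀ hnpos]
      nlinarith
    have h2 : ρ * M ≤ ρ * (C₀ * (height κ x / n)) := mul_le_mul_of_nonneg_left hMn hρ0.le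
    linarith
  have hxY : xm 1 x ∉ Y := by
    intro h1
    have h2 := cb_slope_one h hyp.ne hyp.slope h1
    have h3 : M * ((finrank K Y : ℝ) - 1) ≤ M * ρ :=
      mul_le_mul_of_nonneg_left (by linarith) hM
    linarith
  -- the descent
  obtain ⟨A₀, hA₀⟩ : ∃ A₀ : Submodule K (EX (n + 1) 2 → K),
      A₀ = (Λ ⊓ YV Y) ⊔ Submodule.span K {xm 2 x} := ⟨_, rfl⟩
  have hdesc := descent h hyp.ne hM hyp.slope hxY hη' (ρ := ρ) hYρ hxΛ hA₀
  have hcost := cost_YVA h hyp.ne hxY Λ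
  rw [← hA₀] at hcost
  -- the cost of `Y + K x`
  have hYx : (height κ x : ℝ) - ht κ (Y ⊔ Submodule.span K {xm 1 x}) ≤ ρ * M := by
    have h1 : xm 1 x ∈ Y ⊔ Submodule.span K {xm 1 x} :=
      Submodule.mem_sup_right (Submodule.mem_span_singleton_self _)
    have h2 := cb_slope_one h hyp.ne hyp.slope h1
    have h3 := Submodule.finrank_add_le_finrank_add_finrank Y (Submodule.span K {xm 1 x})
    rw [finrank_span_singleton (xm_ne_zero hyp.ne)] at h3
    have h4 : (finrank K (Y ⊔ Submodule.span K {xm 1 x} : Submodule K (EX (n + 1) 1 → K)) : ℝ) ≤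
        ρ + 1 := by
      have : finrank K (Y ⊔ Submodule.span K {xm 1 x} : Submodule K (EX (n + 1) 1 → K)) ≤ ρ + 1 :=
        h3.trans (by omega)
      exact_mod_cast this
    have h5 : M * ((finrank K (Y ⊔ Submodule.span K {xm 1 x} :
        Submodule K (EX (n + 1) 1 → K)) : ℝ) - 1) ≤ M * ρ :=
      mul_le_mul_of_nonneg_left (by linarith) hM
    linarith
  -- the codimension of `A₀`
  have hcodim : (finrank K Λ : ℝ) - finrank K A₀ ≤ r := by
    have h1 : RD ⊔ Submodule.span K {xm 2 x} ≤ A₀ := by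
      rw [hA₀]
      exact sup_le_sup_right (le_inf (hRDR.trans hRΛ) hRDY) _
    have h2 : finrank K RD + 1 ≤ finrank K (RD ⊔ Submodule.span K {xm 2 x} :
        Submodule K (EX (n + 1) 2 → K)) := by
      refine Submodule.finrank_lt_finrank_of_lt (lt_of_le_of_ne le_sup_left fun h3 => hxR ?_)
      apply hRDR
      rw [h3]
      exact Submodule.mem_sup_right (Submodule.mem_span_singleton_self _)
    have h3 : ((finrank K RD : ℝ) + 1) ≤ finrank K A₀ := by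
      exact_mod_cast h2.trans (Submodule.finrank_mono h1)
    rw [hr]
    linarith
  have h1 : ((finrank K Λ : ℝ) - finrank K A₀) * (2 * (ρ * T) + (ρ + 1) * M) ≤
      r * (2 * (ρ * T) + (ρ + 1) * M) := by
    apply mul_le_mul_of_nonneg_right hcodim
    positivity
  have h2 : r * M ≤ 2 ^ N * (C₀ * (height κ x / n)) := mul_le_mul hr2 hMn hM (by positivity)
  have h2' : (ρ + 1) * (r * M) ≤ (ρ + 1) * (2 ^ N * (C₀ * (height κ x / n))) :=
    mul_le_mul_of_nonneg_left h2 (by positivity)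
  have h3 : (2 * ρ + (ρ + 1) * 2 ^ N) * (C₀ * (height κ x / n)) ≤ c * height κ x / 8 := by
    have e1 : (2 * ρ + (ρ + 1) * 2 ^ N) * (C₀ * (height κ x / n)) =
        ((2 * ρ + (ρ + 1) * 2 ^ N) * C₀ * height κ x) / n := by ring
    rw [e1, div_le_iff₀ hnpos]
    have h4 : (2 * ρ + (ρ + 1) * 2 ^ N) * C₀ * 8 * height κ x ≤ c * n * height κ x :=
      mul_le_mul_of_nonneg_right hnc hH0.le
    linarith
  have h5 : r * (2 * (ρ * T) + (ρ + 1) * M) =
      2 * (ρ * (T * r)) + (ρ + 1) * (r * M) := by ring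
  rw [h5] at h1
  have h6 : 2 * (ρ * M) ≤ 2 * ρ * (C₀ * (height κ x / n)) := by
    have : ρ * M ≤ ρ * (C₀ * (height κ x / n)) := mul_le_mul_of_nonneg_left hMn hρ0.le
    linarith
  have h8 : 0 < c * height κ x := by positivity
  have h9 : (2 * ρ + (ρ + 1) * 2 ^ N) * (C₀ * (height κ x / n)) =
      2 * ρ * (C₀ * (height κ x / n)) + (ρ + 1) * (2 ^ N * (C₀ * (height κ x / n))) := by ring
  rw [h9] at h3
  linarith

end

section

variable {κ : Type*} {K : Type u} [Field κ] [IsAlgClosed κ] [CharZero κ] [Field K] [Algebra κ K]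
  {n : ℕ} {x : Fin (n + 1) → K} {C₀ M E : ℝ}

/-- **(B5)**, over the field of the hyperplane `R`. -/
theorem cba_five_aux (h : IsFF κ K) (hyp : HypL κ x C₀ M E) (hn1 : 1 ≤ n) {ρ : ℕ} (hρ : 1 ≤ ρ)
    {c : ℝ} (hc : 0 < c) (hc1 : c ≤ 1) {N : ℕ} (hN : 25 * ρ ≤ c * N)
    (hnC : 2 * ρ * C₀ ≤ n) (hnc : (2 * ρ + (ρ + 1) * 2 ^ N) * C₀ * 8 ≤ c * n)
    {Λ R : Submodule K (EX (n + 1) 2 → K)} (hxΛ : xm 2 x ∈ Λ)
    (hrank : ∀ q ∈ Λ, finrank K (lam 1 (K ∙ q)) ≤ ρ) (hRΛ : R ≤ Λ) (hxR : xm 2 x ∉ R)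
    (hdim : finrank K R + 1 = finrank K Λ) (hht : (ht κ R : ℝ) ≤ 5 / 2 * height κ x) :
    2 * (height κ x : ℝ) - ht κ Λ < c * height κ x := by
  have hH0 := hyp.H_pos
  have hρ' : (1 : ℝ) ≤ ρ := by exact_mod_cast hρ
  have hρ0 : (0 : ℝ) < ρ := by linarith
  have hN1 : 1 ≤ N := by
    by_contra h0
    have : N = 0 := by omega
    rw [this] at hN
    norm_num at hN
    linarith
  have hN' : (0 : ℝ) < N := by exact_mod_cast hN1
  -- the scale
  obtain ⟨T, hT⟩ : ∃ T : ℝ, T = c * height κ x / (5 * ρ) := ⟨_, rfl⟩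
  have hT0 : 0 < T := by rw [hT]; positivity
  have hρT : ρ * T = c * height κ x / 5 := by rw [hT]; field_simp
  obtain ⟨R₀, j, hR₀R, hj, hQ, hDR⟩ := exists_hn h R hT0.le hN1
  obtain ⟨r, hr⟩ : ∃ r : ℝ, r = (finrank K R : ℝ) - finrank K R₀ := ⟨_, rfl⟩
  rw [← hr] at hDR
  have hr0 : 0 ≤ r := by
    have : (finrank K R₀ : ℝ) ≤ finrank K R := by exact_mod_cast Submodule.finrank_mono hR₀R
    linarith
  have h2j : (0 : ℝ) < 2 ^ j := by positivity
  obtain ⟨Tj, hTjd⟩ : ∃ Tj : ℝ, Tj = T / 2 ^ j := ⟨_, rfl⟩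
  rw [← hTjd] at hQ hDR
  have hTj0 : 0 < Tj := by rw [hTjd]; positivity
  have hTj : Tj ≤ T := by
    rw [hTjd, div_le_iff₀ h2j]
    have : (1 : ℝ) ≤ 2 ^ j := one_le_pow₀ (by norm_num)
    nlinarith
  have hscale : Tj * r ≤ T := by
    have h5 : Tj * r * N ≤ T * N := by
      have h6 : 25 * ρ * height κ x ≤ c * N * height κ x :=
        mul_le_mul_of_nonneg_right hN hH0.le
      have h7 : ρ * (5 * height κ x) ≤ ρ * (T * N) := by
        have : ρ * (T * N) = c * height κ x / 5 * N := by rw [← hρT]; ring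
        rw [this]
        linarith
      have h8 := le_of_mul_le_mul_left h7 hρ0
      linarith
    exact le_of_mul_le_mul_right h5 hN'
  have hr2 : r ≤ 2 ^ N := by
    have h1 : Tj * r ≤ Tj * 2 ^ j := by
      rw [hTjd, div_mul_cancel₀ _ h2j.ne', ← hTjd]
      exact hscale
    have h2 := le_of_mul_le_mul_left h1 hTj0
    exact h2.trans (pow_le_pow_right₀ (by norm_num) hj.le)
  have hρTj : ρ * Tj ≤ c * height κ x / 5 := by
    rw [← hρT]
    exact mul_le_mul_of_nonneg_left hTj hρ0.le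
  have hρTjr : ρ * (Tj * r) ≤ c * height κ x / 5 := by
    rw [← hρT]
    exact mul_le_mul_of_nonneg_left hscale hρ0.le
  -- an element of maximal rank
  obtain ⟨L, _, _, _, _, _, _, q, hq, -, hqht, hqV, -⟩ := maxrank_abs h hTj0.le hQ hTj0
  have hL : IsFF κ L := h.of_finite
  have hNL : (0 : ℝ) < finrank K L := by exact_mod_cast finrank_pos
  have hyp' := hyp.ext (L := L) h
  obtain ⟨x', hx'⟩ : ∃ x' : Fin (n + 1) → L, x' = fun k => algebraMap K L (x k) := ⟨_, rfl⟩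
  rw [← hx'] at hyp'
  have hH' : (height κ x' : ℝ) = finrank K L * height κ x := by
    rw [hx']
    exact_mod_cast hL.height_ext (K := K) hyp.ne
  have hxm : (xm 2 x' : EX (n + 1) 2 → L) = fun I => algebraMap K L (xm 2 x I) := by
    rw [hx', xm_am]
  have hinf : Infinite K := Infinite.of_injective _ (algebraMap κ K).injective
  have hqρ : finrank L (lam 1 (L ∙ q)) ≤ ρ :=
    rank_bc_le (fun q hq => hrank q (hR₀R.trans hRΛ hq)) hq
  obtain ⟨Y, hY⟩ : ∃ Y : Submodule L (EX (n + 1) 1 → L), Y = lam 1 (L ∙ q) := ⟨_, rfl⟩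
  rw [← hY] at hqht hqV hqρ
  have hRDY : bc L R₀ ≤ YV Y := by
    intro q' hq'
    refine mem_YV.2 fun f g h1 h2 h3 h4 => ?_
    rw [← pr_cf g q' h1]
    exact h3 _ (hqV q' hq' g h2 h4)
  have hqρ' : (finrank L Y : ℝ) ≤ ρ := by exact_mod_cast hqρ
  have hη : 2 * (ht κ Y : ℝ) ≤ 2 * (ρ * (finrank K L * Tj)) := by
    have h1 : (finrank L Y : ℝ) * (finrank K L * (Tj + Tj)) ≤ ρ * (finrank K L * (Tj + Tj)) :=
      mul_le_mul_of_nonneg_right hqρ' (by positivity)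
    have h2 : ρ * (finrank K L * (Tj + Tj)) = 2 * (ρ * (finrank K L * Tj)) := by ring
    rw [← h2]
    exact hqht.trans h1
  have hend := cba_end hL hyp' hn1 hρ hc hc1 (N := N) hnC hnc (Λ := bc L Λ) (R := bc L R)
    (RD := bc L R₀) (by rw [hxm]; exact am_mem_bc hxΛ) (bc_mono hRΛ)
    (by rw [hxm]; exact fun h0 => hxR (am_mem_bc_iff.1 h0))
    (by rw [finrank_bc, finrank_bc]; exact hdim) (bc_mono hR₀R) hqρ hRDY
    (T := finrank K L * Tj) hη
    (by
      rw [hH']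
      have := mul_le_mul_of_nonneg_left hρTj hNL.le
      linarith)
    (by
      rw [hH', finrank_bc, finrank_bc, ← hr]
      have := mul_le_mul_of_nonneg_left hρTjr hNL.le
      linarith)
    (by rw [finrank_bc, finrank_bc, ← hr]; exact hr2)
  rw [hH', ht_bc h] at hend
  push_cast at hend
  have h1 : (finrank K L : ℝ) * (2 * (height κ x : ℝ) - ht κ Λ) <
      finrank K L * (c * height κ x) := by linarith
  exact lt_of_mul_lt_mul_left h1 hNL.le

/-- **(B5)**: one space `Λ` of quadratic functionals, all ranks at most `ρ`. -/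
theorem cba_five (h : IsFF κ K) (hyp : HypL κ x C₀ M E) (hn1 : 1 ≤ n) {ρ : ℕ} (hρ : 1 ≤ ρ)
    {c : ℝ} (hc : 0 < c) (hc1 : c ≤ 1) {N : ℕ} (hN : 25 * ρ ≤ c * N)
    (hnC : 2 * ρ * C₀ ≤ n) (hnc : (2 * ρ + (ρ + 1) * 2 ^ N) * C₀ * 8 ≤ c * n)
    {Λ : Submodule K (EX (n + 1) 2 → K)} (hΛ : HasSl κ (1 / 2 * height κ x / n) (xm 2 x) Λ)
    (hrank : ∀ q ∈ Λ, finrank K (lam 1 (K ∙ q)) ≤ ρ) :
    2 * (height κ x : ℝ) - ht κ Λ < c * height κ x := by
  have hH0 := hyp.H_pos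
  have hnpos : (0 : ℝ) < n := by exact_mod_cast hn1
  have hn' : (1 : ℝ) ≤ n := by exact_mod_cast hn1
  have hcΛ := cb_dim h hyp.ne hΛ
  push_cast at hcΛ
  have hΛ1 := cb_one_le hyp.ne hΛ.mem
  have ht0 : 0 < 1 / 2 * (height κ x : ℝ) / n := by positivity
  have hhtΛ : (ht κ Λ : ℝ) ≤ 2 * height κ x := by nlinarith
  have hε : 0 < 1 / 4 * (height κ x : ℝ) / n := by positivity
  have hεt : 1 / 4 * (height κ x : ℝ) / n < 1 / 2 * (height κ x : ℝ) / n := by
    apply div_lt_div_of_pos_right _ hnpos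
    linarith
  have hε1 : 1 / 4 * (height κ x : ℝ) / n ≤ height κ x / 4 := by
    rw [div_le_iff₀ hnpos]
    nlinarith
  obtain ⟨L, _, _, _, _, _, _, R, hRΛ, hxR, hdim, hht⟩ := cba_hyper h hyp.ne hε hεt hΛ
  have hL : IsFF κ L := h.of_finite
  have hNL : (0 : ℝ) < finrank K L := by exact_mod_cast finrank_pos
  have hyp' := hyp.ext (L := L) h
  obtain ⟨x', hx'⟩ : ∃ x' : Fin (n + 1) → L, x' = fun k => algebraMap K L (x k) := ⟨_, rfl⟩
  rw [← hx'] at hyp' hxR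
  have hH' : (height κ x' : ℝ) = finrank K L * height κ x := by
    rw [hx']
    exact_mod_cast hL.height_ext (K := K) hyp.ne
  have hxm : (xm 2 x' : EX (n + 1) 2 → L) = fun I => algebraMap K L (xm 2 x I) := by
    rw [hx', xm_am]
  have hinf : Infinite K := Infinite.of_injective _ (algebraMap κ K).injective
  have key := cba_five_aux hL hyp' hn1 hρ hc hc1 hN hnC hnc (Λ := bc L Λ) (R := R)
    (by rw [hxm]; exact am_mem_bc hΛ.mem) (fun q hq => rank_bc_le hrank hq) hRΛ hxR hdim (by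
      rw [hH']
      refine hht.trans ?_
      have h1 : (finrank K L : ℝ) * (ht κ Λ + 1 / 4 * (height κ x : ℝ) / n) ≤
          finrank K L * (5 / 2 * height κ x) := mul_le_mul_of_nonneg_left (by linarith) hNL.le
      linarith)
  rw [hH', ht_bc h] at key
  push_cast at key
  have h1 : (finrank K L : ℝ) * (2 * (height κ x : ℝ) - ht κ Λ) <
      finrank K L * (c * height κ x) := by linarith
  exact lt_of_mul_lt_mul_left h1 hNL.le

end

/-- **Case B is impossible**, `p` blocks, without the genus. -/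
theorem caseBPL (p c : ℕ) (C₀ : ℝ) (hC : 1000 ≤ C₀) : ∃ n₀ : ℕ, ∀ (n : ℕ) (d : Fin p → ℕ),
    n₀ ≤ n →
    ∀ (κ : Type u) (K : Type v) [Field κ] [IsAlgClosed κ] [CharZero κ] [Field K] [Algebra κ K]
      (_ : IsFF κ K) (x : Fin (n + 1) → K) (M E : ℝ), HypPL κ x d c C₀ M E →
      CaseAP κ x d (1 / (132 * p * C₀)) (1 / 32) := by
  rcases Nat.eq_zero_or_pos p with hp0 | hp
  · subst hp0
    refine ⟨0, fun n d _ κ K _ _ _ _ _ h x M E hyp => ?_⟩
    exact absurd hyp.cb_p (by norm_num)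
  have hp1 : (1 : ℝ) ≤ p := by exact_mod_cast hp
  obtain ⟨c₁, hcd⟩ : ∃ c₁ : ℝ, c₁ = 1 / (120 * p * (4 * p * C₀ + 1)) := ⟨_, rfl⟩
  have hc : 0 < c₁ := by rw [hcd]; positivity
  have hc1 : c₁ ≤ 1 := by
    rw [hcd, div_le_one (by positivity)]
    have h1 : (1 : ℝ) ≤ 4 * p * C₀ + 1 := by
      have : 0 ≤ 4 * (p : ℝ) * C₀ := by positivity
      linarith
    exact one_le_mul_of_one_le_of_one_le (by linarith) h1
  obtain ⟨N, hN⟩ : ∃ N : ℕ, 25 * ((30 * p : ℕ) : ℝ) / c₁ ≤ N := exists_nat_ge _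
  have hN' : 25 * ((30 * p : ℕ) : ℝ) ≤ c₁ * N := by
    rw [div_le_iff₀ hc] at hN
    linarith
  obtain ⟨n₀, hn₀⟩ := exists_nat_ge (70 * (132 * C₀) + 4 * c + 60 * p * (4 * p * C₀ + 1) +
    2 * ((30 * p : ℕ) : ℝ) * C₀ +
    (2 * ((30 * p : ℕ) : ℝ) + (((30 * p : ℕ) : ℝ) + 1) * 2 ^ N) * C₀ * 8 / c₁)
  have h1 : 0 ≤ (2 * ((30 * p : ℕ) : ℝ) + (((30 * p : ℕ) : ℝ) + 1) * 2 ^ N) * C₀ * 8 / c₁ := by
    positivity
  have h4 : (0 : ℝ) ≤ c := Nat.cast_nonneg _
  have h5 : 0 ≤ 60 * p * (4 * p * C₀ + 1) := by positivity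
  have h6 : 0 ≤ 2 * ((30 * p : ℕ) : ℝ) * C₀ := by positivity
  refine ⟨n₀, fun n d hn κ K _ _ _ _ _ h x M E hyp => ?_⟩
  have hn' : (n₀ : ℝ) ≤ n := by exact_mod_cast hn
  by_contra hA
  have hn1 : 70 * (132 * C₀) ≤ n := by linarith
  have hcn4 : 4 * c ≤ n := by
    have : (4 : ℝ) * c ≤ n := by linarith
    exact_mod_cast this
  have hcn : c ≤ n := by omega
  have hnp : 60 * p * (4 * p * C₀ + 1) ≤ n := by linarith
  have hnC : 2 * ((30 * p : ℕ) : ℝ) * C₀ ≤ n := by linarith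
  have hnc : (2 * ((30 * p : ℕ) : ℝ) + (((30 * p : ℕ) : ℝ) + 1) * 2 ^ N) * C₀ * 8 ≤ c₁ * n := by
    have h7 : (2 * ((30 * p : ℕ) : ℝ) + (((30 * p : ℕ) : ℝ) + 1) * 2 ^ N) * C₀ * 8 / c₁ ≤ n := by
      linarith
    rw [div_le_iff₀ hc] at h7
    linarith
  have hn2 : 1 ≤ n := by
    have : (1 : ℝ) ≤ n := by linarith
    exact_mod_cast this
  obtain ⟨j, W, hW, hc4⟩ := cba_cost_half h hyp hn2 hcn4
  have h8 := cba_cost_two h hyp hC hn1 hcn hnp hA hW hc4
  have h9 := cba_five h hyp.toL hn2 (ρ := 30 * p) (by omega) hc hc1 hN' hnC hnc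
    (hasSl_lam h hyp.ne (hyp.hd2 j) (cb_hasSl hW))
    (cba_rank_two h hyp hC hn1 hcn hA (cb_hasSl hW))
  rw [← hcd] at h8
  linarith

end Pool.Agent.Lib.MP_44a246_ntSH
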