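import Mathlib
import Pool.Agent.Lib.MP_44a246_ntSH.AC01
import Pool.Agent.Lib.MP_44a246_ntSH.BA03

/-!
# Siegel's lemma for forms over finite extensions (paper 619, (A4), the absolute version)
-/

namespace Pool.Agent.Lib.MP_44a246_ntSH

open Pool.Agent.Lib.MP_44a246_nt
open Pool.Agent.Lib.MP_44a246_ntL
open Pool.Agent.Lib.MP_44a246_ntS
open Pool.Agent.Lib.MP_44a246_ntF
open Pool.Agent.Lib.MP_44a246_ntO
open Pool.Agent.Lib.MP_44a246_ntA
open Pool.Agent.Lib.MP_e52354_nt
open WithZero Module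

universe u

section

variable {κ : Type*} {K : Type u} [Field κ] [IsAlgClosed κ] [CharZero κ] [Field K] [Algebra κ K]
  {n : ℕ}

/-- **Siegel's lemma** for a form over a finite extension: if `A < B` there is a form which
vanishes on `A` and not on `B`, locally on `B` equal to forms with small coefficients. -/
theorem exists_form_abs (h : IsFF κ K) {e : ℕ} {A B : Submodule K (EX n e → K)} (hAB : A ≤ B)
    {c ν ε : ℝ} (hν : 0 < ν) (hd : ν ≤ (finrank K B : ℝ) - finrank K A)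
    (hc : (ht κ A : ℝ) ≤ c * ν) (hc0 : 0 ≤ c) (hε : 0 < ε) :
    ∃ (L : Type u) (_ : Field L) (_ : Algebra κ L) (_ : Algebra K L) (_ : IsScalarTower κ K L)
      (_ : FiniteDimensional K L) (f : MvPolynomial (Fin n) L) (τ : Place κ L → ℤ),
      f.IsHomogeneous e ∧ (Function.support τ).Finite ∧
      ((∑ᶠ w, τ w : ℤ) : ℝ) ≤ finrank K L * (c + ε) ∧
      (∀ y ∈ bc L A, pr y f = 0) ∧ (∃ y ∈ bc L B, pr y f ≠ 0) ∧
      ∀ w : Place κ L, ∃ m : MvPolynomial (Fin n) L, m.IsHomogeneous e ∧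
        (∀ K, w.1 (m.coeff K) ≤ exp (τ w)) ∧ ∀ y ∈ bc L B, pr y m = pr y f := by
  have hne : A ≠ B := by
    rintro rfl
    rw [sub_self] at hd
    linarith
  obtain ⟨L, fL, aκL, aKL, tL, dL, -, l, τ, b, hτ, hsum, hb, hlA, hlB, hloc⟩ :=
    siegel_rel_abs h hAB hne (a := -(c + ε)) (by
      have h1 : (0 : ℝ) ≤ ht κ B := by exact_mod_cast ht_nonneg h B
      have h2 : (c + ε) * ν ≤ (c + ε) * ((finrank K B : ℝ) - finrank K A) :=
        mul_le_mul_of_nonneg_left hd (by linarith)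
      have h3 : 0 < ε * ν := mul_pos hε hν
      linarith)
  refine ⟨L, fL, aκL, aKL, tL, dL, toF l, τ, toF_hom l, hτ, ?_, ?_, ?_, ?_⟩
  · rw [hsum]
    push_cast
    linarith
  · intro y hy
    rw [pr_toF]
    exact hlA y hy
  · obtain ⟨y, hy, hy0⟩ := hlB
    exact ⟨y, hy, by rw [pr_toF]; exact hy0⟩
  · intro w
    obtain ⟨m, hm1, hm2⟩ := hloc w
    exact ⟨toF m, toF_hom m, coeff_toF_le w.1 hm1, fun y hy => by
      rw [pr_toF, pr_toF]; exact hm2 y hy⟩

/-- a form of small height over a finite extension which vanishes on a space of small height -/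
theorem exists_form_top_abs (h : IsFF κ K) {e : ℕ} {A : Submodule K (EX n e → K)}
    {c ν ε : ℝ} (hν : 0 < ν) (hd : ν ≤ (Fintype.card (EX n e) : ℝ) - finrank K A)
    (hc : (ht κ A : ℝ) ≤ c * ν) (hc0 : 0 ≤ c) (hε : 0 < ε) :
    ∃ (L : Type u) (_ : Field L) (_ : Algebra κ L) (_ : Algebra K L) (_ : IsScalarTower κ K L)
      (_ : FiniteDimensional K L) (f : MvPolynomial (Fin n) L), f.IsHomogeneous e ∧ f ≠ 0 ∧
      (∀ y ∈ bc L A, pr y f = 0) ∧ (polyHeight κ f : ℝ) ≤ finrank K L * (c + ε) := by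
  have htop : finrank K (⊤ : Submodule K (EX n e → K)) = Fintype.card (EX n e) := by
    rw [finrank_top, Module.finrank_fintype_fun_eq_card]
  obtain ⟨L, fL, aκL, aKL, tL, dL, f, τ, hf, hτ, hsum, hA, ⟨y, -, hy⟩, hloc⟩ :=
    exists_form_abs h (le_top : A ≤ ⊤) hν (by rw [htop]; exact hd) hc hc0 hε
  have hL : IsFF κ L := h.of_finite
  have hf0 : f ≠ 0 := by
    rintro rfl
    exact hy (map_zero _)
  refine ⟨L, fL, aκL, aKL, tL, dL, f, hf, hf0, hA, ?_⟩
  have h1 : polyHeight κ f ≤ ∑ᶠ w, τ w := by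
    refine polyHeight_le_finsum (fun hA => nrm_support hL hA) hf0 hτ fun w K' => ?_
    obtain ⟨m, hm1, hm2, hm3⟩ := hloc w
    have h2 : m = f := by
      refine form_ext hm1 hf fun K' => ?_
      have h3 := hm3 (Pi.single K' 1) (by rw [bc_top]; exact Submodule.mem_top)
      rw [pr_eq_sum_EX, pr_eq_sum_EX, Finset.sum_eq_single K', Finset.sum_eq_single K',
        Pi.single_eq_same, mul_one, mul_one] at h3
      · exact h3
      · intro J _ hJ
        rw [Pi.single_eq_of_ne hJ, mul_zero]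
      · intro h4
        exact absurd (Finset.mem_univ _) h4
      · intro J _ hJ
        rw [Pi.single_eq_of_ne hJ, mul_zero]
      · intro h4
        exact absurd (Finset.mem_univ _) h4
    rw [← h2]
    exact hm2 K'
  have h2 : (polyHeight κ f : ℝ) ≤ ((∑ᶠ w, τ w : ℤ) : ℝ) := by exact_mod_cast h1
  exact h2.trans hsum

end

end Pool.Agent.Lib.MP_44a246_ntSH
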