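import Mathlib
import Pool.Agent.Lib.MP_44a246_ntSH.AC02
import Pool.Agent.Lib.MP_44a246_ntSH.PC5

/-!
# Paper 619, (A6), the absolute version: the level, the second form over a finite extension and
the elimination of a variable
-/

namespace Pool.Agent.Lib.MP_44a246_ntSH

open Pool.Agent.Lib.MP_44a246_nt
open Pool.Agent.Lib.MP_44a246_ntL
open Pool.Agent.Lib.MP_44a246_ntS
open Pool.Agent.Lib.MP_44a246_ntF
open Pool.Agent.Lib.MP_44a246_ntO
open Pool.Agent.Lib.MP_e52354_nt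
open WithZero Module

universe u

/-- the kernel of a contraction in an extension -/
theorem ker_cf_bc {L M : Type*} [Field L] [Field M] [Algebra L M] {n a e s : ℕ}
    (hs : a + e = s) {B : MvPolynomial (Fin n) L} (hB : B.IsHomogeneous a) (hB0 : B ≠ 0) :
    bc M (LinearMap.ker (cf (e := s) B e)) =
      LinearMap.ker (cf (e := s) (B.map (algebraMap L M)) e) := by
  have hB0' : B.map (algebraMap L M) ≠ 0 := fun h0 =>
    hB0 (MvPolynomial.map_injective _ (algebraMap L M).injective (by rw [h0, map_zero]))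
  refine Submodule.eq_of_le_of_finrank_eq ?_ ?_
  · intro u hu
    have h1 := bc_le_comap (L := M) (A := LinearMap.ker (cf (e := s) B e))
      (B := (⊥ : Submodule L (EX n e → L)))
      (T := cf (e := s) (B.map (algebraMap L M)) e) (T₀ := fun u => cf B e u)
      (fun u => cf_amE B e u) (fun u hu => (Submodule.mem_bot L).2 (LinearMap.mem_ker.1 hu)) hu
    rw [bc_bot] at h1
    exact LinearMap.mem_ker.2 ((Submodule.mem_bot M).1 h1)
  · have h1 := finrank_ker_cf (L := L) hs hB hB0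
    have h2 := finrank_ker_cf (L := M) hs (hB.map (algebraMap L M)) hB0'
    rw [finrank_bc]
    omega

section

variable {κ : Type*} {L : Type u} [Field κ] [IsAlgClosed κ] [CharZero κ] [Field L] [Algebra κ L]

/-- **(A6)**, over a finite extension. -/
theorem curve_form_abs (h : IsFF κ L) {p : Fin 4 → L} {Λ : (e : ℕ) → Submodule L (EX 4 e → L)}
    {P q E t : ℝ} (hS : Sp κ p Λ P q E t) {S₁ : ℕ} (h12 : 12 * q ≤ (S₁ : ℝ) ^ 2)
    (h13 : (S₁ : ℝ) ^ 2 ≤ 13 * q) (h7 : 7 ≤ S₁) (hE : 2 * (S₁ : ℝ) ≤ E) (hSq : (S₁ : ℝ) ≤ q)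
    (hP : 0 < P) {b : ℕ} {B : MvPolynomial (Fin 4) L}
    (hirrM : ∀ (M : Type u) [Field M] [Algebra L M] [FiniteDimensional L M],
      Irreducible (B.map (algebraMap L M)))
    (hb1 : 1 ≤ b) (hbS : b ≤ S₁) (hB : B.IsHomogeneous b) (hirr : Irreducible B)
    (hBp : MvPolynomial.eval p B = 0) (hBσ : (polyHeight κ B : ℝ) * S₁ ≤ 13 * P)
    (hBt : (polyHeight κ B : ℝ) < t) (hbE : 16 * q ≤ E * b) :
    ∃ (M : Type u) (_ : Field M) (_ : Algebra κ M) (_ : Algebra L M) (_ : IsScalarTower κ L M)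
      (_ : FiniteDimensional L M) (r : ℕ) (R : MvPolynomial (Fin 3) M), (r : ℝ) ≤ 26 * q ∧
      R ≠ 0 ∧ R.IsHomogeneous r ∧
      MvPolynomial.eval (fun j : Fin 3 => algebraMap L M (p j.succ)) R = 0 ∧
      (polyHeight κ R : ℝ) ≤ finrank L M * (53 * P) := by
  classical
  have hB0 : B ≠ 0 := hirr.ne_zero
  have hbr : (1 : ℝ) ≤ b := by exact_mod_cast hb1
  have hbpos : (0 : ℝ) < b := by linarith
  have h7r : (7 : ℝ) ≤ S₁ := by exact_mod_cast h7
  have hbSr : (b : ℝ) ≤ S₁ := by exact_mod_cast hbS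
  have hq7 : (7 : ℝ) ≤ q := h7r.trans hSq
  have hα0 : (0 : ℝ) ≤ polyHeight κ B := by exact_mod_cast polyHeight_nonneg h hB0
  have hBann : B ∈ AnnF (Λ b) :=
    hS.ann b hb1 (by linarith) B hB hBp hBt
  -- the levels at which the annihilator is contained in the ideal
  have hlev : ∀ e : ℕ, S₁ ≤ e → (e : ℝ) ≤ E → (∀ F ∈ AnnF (Λ e), B ∣ F) →
      (b : ℝ) * e ≤ 7 * q := by
    intro e he heE hdvd
    obtain ⟨c, rfl⟩ : ∃ c, e = c + b := ⟨e - b, by omega⟩
    have h1 := (height_gcdF h (e := c) (s := c + b) rfl (Q := Λ (c + b)) hB hB0 hdvd).2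
    have h2 := hS.dim (c + b) (by omega) heE
    have h3 := numP2 c b
    have h4 : (Fintype.card (EX 4 (c + b)) : ℝ) ≤ Fintype.card (EX 4 c) +
        finrank L (Λ (c + b)) := by exact_mod_cast h1
    exact numP3 hb1 (by linarith) (by linarith)
  obtain ⟨e₀, he₀1, he₀2, he₀3, he₀4⟩ : ∃ e₀ : ℕ, S₁ ≤ e₀ ∧ 7 * q < (b : ℝ) * e₀ ∧
      (b : ℝ) * e₀ ≤ 13 * q ∧ 2 * (e₀ : ℝ) ≤ E := by
    have hx0 : 0 ≤ 7 * q / b := by positivity
    have hfl := Nat.floor_le hx0
    have hlt := Nat.lt_floor_add_one (7 * q / b)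
    rw [div_lt_iff₀ hbpos] at hlt
    rw [le_div_iff₀ hbpos] at hfl
    have hup : (b : ℝ) * ((⌊7 * q / b⌋₊ : ℝ) + 1) ≤ 8 * q := by linarith
    have h2up : 2 * ((⌊7 * q / b⌋₊ : ℝ) + 1) ≤ E := by
      have h1 : b * (2 * ((⌊7 * q / b⌋₊ : ℝ) + 1)) ≤ b * E := by linarith
      exact le_of_mul_le_mul_left h1 hbpos
    refine ⟨max S₁ (⌊7 * q / b⌋₊ + 1), le_max_left _ _, ?_, ?_, ?_⟩
    · have h1 : ((⌊7 * q / b⌋₊ + 1 : ℕ) : ℝ) ≤ ((max S₁ (⌊7 * q / b⌋₊ + 1) : ℕ) : ℝ) := by
        exact_mod_cast le_max_right _ _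
      refine lt_of_lt_of_le ?_ (mul_le_mul_of_nonneg_left h1 hbpos.le)
      push_cast
      linarith
    · rcases max_cases S₁ (⌊7 * q / b⌋₊ + 1) with ⟨h1, _⟩ | ⟨h1, _⟩
      · rw [h1]
        nlinarith
      · rw [h1]
        push_cast
        linarith
    · rcases max_cases S₁ (⌊7 * q / b⌋₊ + 1) with ⟨h1, _⟩ | ⟨h1, _⟩
      · rw [h1]
        exact hE
      · rw [h1]
        push_cast
        exact h2up
  have hex : ∃ e : ℕ, S₁ ≤ e ∧ ¬ ∀ F ∈ AnnF (Λ e), B ∣ F :=
    ⟨e₀, he₀1, fun hcon => absurd (hlev e₀ he₀1 (by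
      have : (0 : ℝ) ≤ e₀ := Nat.cast_nonneg _
      linarith) hcon) (not_le.2 he₀2)⟩
  obtain ⟨S, hSdef⟩ : ∃ S, S = Nat.find hex := ⟨_, rfl⟩
  have hSspec := Nat.find_spec hex
  have hSle : Nat.find hex ≤ e₀ := Nat.find_min' hex ⟨he₀1, fun hcon =>
    absurd (hlev e₀ he₀1 (by
      have : (0 : ℝ) ≤ e₀ := Nat.cast_nonneg _
      linarith) hcon) (not_le.2 he₀2)⟩
  have hSmin : ∀ e < Nat.find hex, S₁ ≤ e → ∀ F ∈ AnnF (Λ e), B ∣ F := by
    intro e he he1
    have h1 := Nat.find_min hex he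
    by_contra hcon
    exact h1 ⟨he1, hcon⟩
  rw [← hSdef] at hSspec hSle hSmin
  obtain ⟨hS1, hSn⟩ := hSspec
  have hS1r : (S₁ : ℝ) ≤ S := by exact_mod_cast hS1
  have hSler : (S : ℝ) ≤ e₀ := by exact_mod_cast hSle
  have hSpos : (0 : ℝ) < S := by linarith
  have h2SE : 2 * (S : ℝ) ≤ E := by linarith
  have hbS13 : (b : ℝ) * S ≤ 13 * q := (mul_le_mul_of_nonneg_left hSler hbpos.le).trans he₀3
  -- the height of `B`
  have hαS : (polyHeight κ B : ℝ) * S ≤ 14 * P := by
    rcases eq_or_lt_of_le hS1 with heq | hlt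
    · rw [← heq]
      linarith
    · obtain ⟨e, rfl⟩ : ∃ e, S = e + 1 := ⟨S - 1, by omega⟩
      have he1 : S₁ ≤ e := by omega
      have he1r : (S₁ : ℝ) ≤ e := by exact_mod_cast he1
      have heE : (e : ℝ) ≤ E := by
        push_cast at h2SE
        linarith
      have h1 := (height_gcdF h (e := e - b) (s := e) (by omega) (Q := Λ e) hB hB0
        (hSmin e (by omega) he1)).1
      have h2 := hS.ht e (by omega) heE
      have h3 := hS.dim e (by omega) heE
      have h4 := numP1 (e := e) (q := q) (by nlinarith)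
      have h5 : (polyHeight κ B : ℝ) * ((Fintype.card (EX 4 e) : ℝ) - finrank L (Λ e)) ≤
          ht κ (Λ e) := by exact_mod_cast h1
      have h6 : (polyHeight κ B : ℝ) * ((e : ℝ) ^ 3 / 12) ≤ P * e ^ 2 := by
        refine le_trans (mul_le_mul_of_nonneg_left ?_ hα0) (h5.trans h2)
        linarith
      have hepos : (0 : ℝ) < e := by linarith
      have h7 : (polyHeight κ B : ℝ) * e ≤ 12 * P := by
        have h8 : (e : ℝ) ^ 2 * ((polyHeight κ B : ℝ) * e) ≤ (e : ℝ) ^ 2 * (12 * P) := by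
          nlinarith
        exact le_of_mul_le_mul_left h8 (by positivity)
      push_cast
      nlinarith
  -- a form at the level `S`
  push Not at hSn
  obtain ⟨fS, hfS, hfSn⟩ := hSn
  have hSb : b ≤ S := hbS.trans hS1
  obtain ⟨c, hc⟩ : ∃ c, c + b = S := ⟨S - b, by omega⟩
  have h2SE' : (((S + S : ℕ)) : ℝ) ≤ E := by
    push_cast
    linarith
  have hAB : Λ (S + S) ≤ LinearMap.ker (cf (e := S + S) B (c + S)) := fun u hu =>
    LinearMap.mem_ker.2 (hS.cf_eq_zero (by omega) hb1 h2SE' hBann hu)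
  have hAf : ∀ u ∈ Λ (S + S), cf fS S u = 0 := fun u hu =>
    hS.cf_eq_zero rfl (by omega) h2SE' hfS hu
  have hfin := finrank_level hc hB hirr hfS.1 hfSn hAf hAB
  have hM : (b : ℝ) * (S : ℝ) ^ 2 / 6 ≤
      (finrank L (LinearMap.ker (cf (L := L) (n := 4) (e := S + S) B (c + S))) : ℝ) -
        finrank L (Λ (S + S)) := by
    have h1 := numP2 c b
    rw [hc] at h1
    have h2 : (Fintype.card (EX 4 S) : ℝ) + finrank L (Λ (S + S)) ≤ Fintype.card (EX 4 c) +
      finrank L (LinearMap.ker (cf (L := L) (n := 4) (e := S + S) B (c + S))) := by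
      exact_mod_cast hfin
    linarith
  have hht := hS.ht (S + S) (by omega) h2SE'
  obtain ⟨M, fM, aκM, aLM, tM, dM, f, τ, hf, hτ, hτs, hfA, ⟨y, hy, hy0⟩, hloc⟩ :=
    exists_form_abs h hAB (ν := (b : ℝ) * (S : ℝ) ^ 2 / 6) (c := 24 * P / b) (ε := P / b)
      (by positivity) hM (by
      have h1 : 24 * P / b * ((b : ℝ) * (S : ℝ) ^ 2 / 6) = P * (((S + S : ℕ)) : ℝ) ^ 2 := by
        push_cast
        field_simp
        ring
      rw [h1]
      exact hht) (by positivity) (by positivity)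
  have hMf : IsFF κ M := h.of_finite
  set BM := B.map (algebraMap L M) with hBM
  have hBMh : BM.IsHomogeneous b := hB.map _
  have hirrBM : Irreducible BM := hirrM M
  have hBM0 : BM ≠ 0 := hirrBM.ne_zero
  have hker := ker_cf_bc (M := M) (e := c + S) (s := S + S) (by omega : b + (c + S) = S + S) hB hB0
  rw [← hBM] at hker
  set pM : Fin 4 → M := fun k => algebraMap L M (p k) with hpM
  have hBMp : MvPolynomial.eval pM BM = 0 := by
    rw [hpM, hBM, eval_amE, hBp, map_zero]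
  have hfp : MvPolynomial.eval pM f = 0 := by
    rw [← pr_xm pM hf]
    refine hfA _ ?_
    rw [hpM, xm_am]
    exact am_mem_bc (hS.mem (S + S) (by omega) h2SE')
  have hzero : ∀ (g : MvPolynomial (Fin 4) M), g.IsHomogeneous (c + S) → ∀ u : EX 4 (S + S) → M,
      cf BM (c + S) u = 0 → pr u (BM * g) = 0 := by
    intro g hg u hu
    rw [mul_comm, ← pr_cf BM u hg, hu]
    simp [pr_eq_sum, ex]
  have hndvd : ¬ BM ∣ f := by
    rintro ⟨g, hg⟩
    apply hy0
    rw [hg]
    by_cases h0 : BM * g = 0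
    · rw [h0, map_zero]
    · obtain ⟨a', e', hae, ha', he'⟩ := hom_of_mul (hg ▸ hf) h0
      have h4 : a' = b := ha'.inj_right hBMh hBM0
      have h5 : e' = c + S := by omega
      rw [h5] at he'
      rw [hker] at hy
      exact hzero g he' y (LinearMap.mem_ker.1 hy)
  obtain ⟨r, b', R, hr, hb', hR0, hR, hRp, hRh⟩ := res_form hMf hBMh hirrBM hf (by omega)
    (by omega) hndvd hBMp hfp hτ (fun w => by
      obtain ⟨m, hm1, hm2, hm3⟩ := hloc w
      obtain ⟨g, hg, hgm⟩ := dvd_of_ker (c := c + S) (by omega : c + S + b = S + S) hBMh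
        (hm1.sub hf) (fun u hu => by
          rw [map_sub, hm3 u (by rw [hker]; exact LinearMap.mem_ker.2 hu), sub_self])
      have hcS : c + S = S + S - b := by omega
      refine ⟨g, by rw [← hcS]; exact hg, ?_⟩
      have h1 : f + g * BM = m := by
        rw [mul_comm, ← hgm]
        ring
      rw [h1]
      exact nrm_le w.1 hm2)
  refine ⟨M, fM, aκM, aLM, tM, dM, r, R, ?_, hR0, hR, hRp, ?_⟩
  · have h1 : (r : ℝ) ≤ b * ((S + S : ℕ) : ℝ) := by exact_mod_cast hr
    push_cast at h1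
    linarith
  · have h1 : (polyHeight κ R : ℝ) ≤ ((S + S : ℕ) : ℝ) * polyHeight κ BM +
        b' * ((∑ᶠ w, τ w : ℤ) : ℝ) := by exact_mod_cast hRh
    have hN0 : (0 : ℝ) < finrank L M := by exact_mod_cast Module.finrank_pos (R := L) (M := M)
    have h2 : (b' : ℝ) ≤ b := by exact_mod_cast hb'
    have h3 : (b' : ℝ) * ((∑ᶠ w, τ w : ℤ) : ℝ) ≤ finrank L M * (25 * P) := by
      have h5 : b * (finrank L M * (24 * P / b + P / b)) = finrank L M * (25 * P) := by
        field_simp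
        ring
      rw [← h5]
      rcases le_total 0 ((∑ᶠ w, τ w : ℤ) : ℝ) with h6 | h6
      · exact (mul_le_mul_of_nonneg_right h2 h6).trans
          (mul_le_mul_of_nonneg_left hτs hbpos.le)
      · have h7 : (b' : ℝ) * ((∑ᶠ w, τ w : ℤ) : ℝ) ≤ 0 :=
          mul_nonpos_of_nonneg_of_nonpos (Nat.cast_nonneg _) h6
        have h8 : 0 ≤ b * (finrank L M * (24 * P / b + P / b)) := by positivity
        linarith
    have h4 : (polyHeight κ BM : ℝ) = finrank L M * polyHeight κ B := by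
      rw [hBM, polyHeight_am h hB0]
      push_cast
      ring
    rw [h4] at h1
    push_cast at h1
    have h5 : finrank L M * ((polyHeight κ B : ℝ) * S) ≤ finrank L M * (14 * P) :=
      mul_le_mul_of_nonneg_left hαS hN0.le
    linarith

end

end Pool.Agent.Lib.MP_44a246_ntSH
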