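import Mathlib
import Pool.Agent.Lib.MP_44a246_ntSH.AC02
import Pool.Agent.Lib.MP_44a246_ntA.P01b

/-!
# Forms of minimal degree over finite extensions (paper 619, (A4), (A5), the absolute version)
-/

namespace Pool.Agent.Lib.MP_44a246_ntSH

open Pool.Agent.Lib.MP_44a246_nt
open Pool.Agent.Lib.MP_44a246_ntL
open Pool.Agent.Lib.MP_44a246_ntS
open Pool.Agent.Lib.MP_44a246_ntF
open Pool.Agent.Lib.MP_44a246_ntO
open Pool.Agent.Lib.MP_44a246_ntA
open Pool.Agent.Lib.MP_e52354_nt
open WithZero Module

universe u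

section small

variable {κ L : Type*} [Field κ] [IsAlgClosed κ] [CharZero κ] [Field L] [Algebra κ L]
  {ι : Type*} [Fintype ι]

omit [Fintype ι] in
/-- the entries of a family with a unit minor are minors -/
private theorem entry_le_pl {ρ : Type*} [Fintype ρ] [DecidableEq ρ] [Fintype ι]
    (v : Valuation L ℤᵐ⁰) {a : ρ → ι → L} {f : ρ → ι}
    (hf : ∀ i j, a i (f j) = if i = j then 1 else 0) (i : ρ) (k : ι) : v (a i k) ≤ pl v a := by
  have h1 := le_vmax v (fun e : ρ → ι => (Matrix.of fun i j => a i (e j)).det)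
    (Function.update f i k)
  have h2 : (Matrix.of fun i' j' => a i' (Function.update f i k j')).det = a i k := by
    have h3 : (Matrix.of fun i' j' => a i' (Function.update f i k j')) =
        (1 : Matrix ρ ρ L).updateCol i (fun i' => a i' k) := by
      ext i' j'
      rw [Matrix.updateCol_apply, Matrix.of_apply]
      by_cases hj : j' = i
      · rw [if_pos hj, hj, Function.update_self]
      · rw [if_neg hj, Function.update_of_ne hj, hf, Matrix.one_apply]
    rw [h3, ← Matrix.cramer_apply, Matrix.cramer_one]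
    rfl
  rw [h2] at h1
  exact h1

/-- **A vector of small height** in a space: an element of an echelon basis. -/
theorem exists_echelon (h : IsFF κ L) {V : Submodule L (ι → L)} (hV : V ≠ ⊥) :
    ∃ y ∈ V, y ≠ 0 ∧ height κ y ≤ ht κ V := by
  classical
  obtain ⟨w0⟩ := Pool.Agent.Lib.MP_44a246_ntR.exists_place h
  have hpos : 0 < finrank L V := by
    rw [Module.finrank_pos_iff]
    exact Submodule.nontrivial_iff_ne_bot.2 hV
  obtain ⟨hli0, hsp0⟩ := finBasis_val V
  obtain ⟨g0, f, hg0, hR0⟩ := exists_red w0.1 hli0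
  obtain ⟨a, haa⟩ : ∃ a : Fin (finrank L V) → ι → L,
      a = fun i k => ∑ j, g0 i j * (Module.finBasis L V j : ι → L) k := ⟨_, rfl⟩
  have hf : ∀ i j, a i (f j) = if i = j then 1 else 0 := by
    rw [haa]
    exact hR0.piv
  have hli : LinearIndependent L a := by
    rw [haa]
    exact hR0.linearIndependent
  have hmem : ∀ i, a i ∈ V := by
    intro i
    rw [haa]
    have h1 : (fun k => ∑ j, g0 i j * (Module.finBasis L V j : ι → L) k) =
        ∑ j, g0 i j • (Module.finBasis L V j : ι → L) := by
      funext k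
      rw [Finset.sum_apply]
      rfl
    change (fun k => ∑ j, g0 i j * (Module.finBasis L V j : ι → L) k) ∈ V
    rw [h1]
    exact Submodule.sum_mem _ fun j _ => Submodule.smul_mem _ _ (Module.finBasis L V j).2
  have hsp : Submodule.span L (Set.range a) = V := by
    refine Submodule.eq_of_le_of_finrank_eq (Submodule.span_le.2 ?_) ?_
    · rintro _ ⟨i, rfl⟩
      exact hmem i
    · rw [finrank_span_eq_card hli, Fintype.card_fin]
  have hi0 : a ⟨0, hpos⟩ ≠ 0 := hli.ne_zero _
  refine ⟨a ⟨0, hpos⟩, hmem _, hi0, ?_⟩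
  have h1 := ht_span h hli
  rw [hsp] at h1
  rw [h1]
  unfold height
  refine finsum_mono (h.vmax_support hi0) (pl_support h hli) fun w => ?_
  have h2 : vmax w.1 (a ⟨0, hpos⟩) ≤ pl w.1 a := Finset.sup_le fun k _ => entry_le_pl w.1 hf _ k
  exact (log_le_log (by
    intro h0
    exact hi0 ((vmax_eq_zero_iff _).1 h0)) (pl_ne_zero w.1 hli)).2 h2

end small

section

variable {κ : Type*} {K : Type u} [Field κ] [IsAlgClosed κ] [CharZero κ] [Field K] [Algebra κ K]
  {n : ℕ}

/-- there is a form of degree `b` over a finite extension which vanishes at the point `p` and has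
normalised height at most `σ` -/
def FormS (κ : Type*) {K : Type u} [Field κ] [Field K] [Algebra κ K] {n : ℕ} (p : Fin n → K)
    (σ : ℝ) (b : ℕ) : Prop :=
  ∃ (L : Type u) (_ : Field L) (_ : Algebra κ L) (_ : Algebra K L) (_ : IsScalarTower κ K L)
    (_ : FiniteDimensional K L) (B : MvPolynomial (Fin n) L), B.IsHomogeneous b ∧ B ≠ 0 ∧
    MvPolynomial.eval (fun k => algebraMap K L (p k)) B = 0 ∧
    (polyHeight κ B : ℝ) ≤ finrank K L * σ

/-- extension of the field: the form in a larger field -/
theorem form_ext_field (h : IsFF κ K) {p : Fin n → K} {σ : ℝ} {b : ℕ} {L M : Type u}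
    [Field L] [Algebra κ L] [Algebra K L] [IsScalarTower κ K L] [FiniteDimensional K L]
    [Field M] [Algebra κ M] [Algebra K M] [Algebra L M] [IsScalarTower κ K M]
    [IsScalarTower κ L M] [IsScalarTower K L M] [FiniteDimensional K M] [FiniteDimensional L M]
    {B : MvPolynomial (Fin n) L} (hB : B.IsHomogeneous b) (hB0 : B ≠ 0)
    (hBp : MvPolynomial.eval (fun k => algebraMap K L (p k)) B = 0)
    (hBσ : (polyHeight κ B : ℝ) ≤ finrank K L * σ) :
    (B.map (algebraMap L M)).IsHomogeneous b ∧ B.map (algebraMap L M) ≠ 0 ∧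
    MvPolynomial.eval (fun k => algebraMap K M (p k)) (B.map (algebraMap L M)) = 0 ∧
    (polyHeight κ (B.map (algebraMap L M)) : ℝ) ≤ finrank K M * σ := by
  have hL : IsFF κ L := h.of_finite
  refine ⟨hB.map _, fun h0 => hB0 ?_, ?_, ?_⟩
  · exact MvPolynomial.map_injective _ (algebraMap L M).injective (by rw [h0, map_zero])
  · have h1 := eval_amE (L := M) B (fun k => algebraMap K L (p k))
    rw [hBp, map_zero] at h1
    have h2 : (fun k => algebraMap K M (p k)) =
        fun k => algebraMap L M (algebraMap K L (p k)) :=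
      funext fun k => IsScalarTower.algebraMap_apply K L M (p k)
    rw [h2]
    exact h1
  · rw [polyHeight_am hL hB0]
    push_cast
    have h1 : (finrank K M : ℝ) = finrank K L * finrank L M := by
      rw [← Module.finrank_mul_finrank K L M]
      push_cast
      ring
    have h2 : (0 : ℝ) ≤ finrank L M := Nat.cast_nonneg _
    have h3 := mul_le_mul_of_nonneg_left hBσ h2
    rw [h1]
    linarith

/-- the extension may be taken to be Galois -/
theorem FormS.galois (h : IsFF κ K) {p : Fin n → K} {σ : ℝ} {b : ℕ} (hF : FormS κ p σ b) :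
    ∃ (L : Type u) (_ : Field L) (_ : Algebra κ L) (_ : Algebra K L) (_ : IsScalarTower κ K L)
      (_ : FiniteDimensional K L) (_ : IsGalois K L) (B : MvPolynomial (Fin n) L),
      B.IsHomogeneous b ∧ B ≠ 0 ∧ MvPolynomial.eval (fun k => algebraMap K L (p k)) B = 0 ∧
      (polyHeight κ B : ℝ) ≤ finrank K L * σ := by
  have : CharZero K := charZero_of_injective_algebraMap (algebraMap κ K).injective
  obtain ⟨L, fL, aκL, aKL, tL, dL, B, hB, hB0, hBp, hBσ⟩ := hF
  obtain ⟨M, fM, aKM, aLM, tM, dM, gM⟩ := exists_galois_over' (K := K) (L := L)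
  let aκM : Algebra κ M := ((algebraMap K M).comp (algebraMap κ K)).toAlgebra
  have t1 : IsScalarTower κ K M := IsScalarTower.of_algebraMap_eq fun _ => rfl
  have t2 : IsScalarTower κ L M := IsScalarTower.of_algebraMap_eq fun x => by
    rw [IsScalarTower.algebraMap_apply κ K L, ← IsScalarTower.algebraMap_apply K L M]
    rfl
  have d2 : FiniteDimensional L M := FiniteDimensional.right K L M
  obtain ⟨h1, h2, h3, h4⟩ := form_ext_field (M := M) h hB hB0 hBp hBσ
  exact ⟨M, fM, aκM, aKM, t1, dM, gM, _, h1, h2, h3, h4⟩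

omit [IsAlgClosed κ] [CharZero κ] in
theorem isUnit_hom_zero {D : MvPolynomial (Fin n) K} (hD0 : D ≠ 0) (hD : D.IsHomogeneous 0) :
    IsUnit D := by
  have h1 := (MvPolynomial.totalDegree_zero_iff_isHomogeneous _).2 hD
  rw [MvPolynomial.totalDegree_eq_zero_iff_eq_C] at h1
  rw [h1]
  refine IsUnit.map MvPolynomial.C (isUnit_iff_ne_zero.2 fun h2 => ?_)
  rw [h2, map_zero] at h1
  exact hD0 h1

/-- **forms of minimal degree are irreducible**, over all finite extensions -/
theorem FormS.irreducible (h : IsFF κ K) {p : Fin n → K} {σ : ℝ} {b : ℕ}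
    (hmin : ∀ c < b, ¬ FormS κ p σ c) {L : Type u} [Field L] [Algebra κ L] [Algebra K L]
    [IsScalarTower κ K L] [FiniteDimensional K L] {B : MvPolynomial (Fin n) L}
    (hB : B.IsHomogeneous b) (hB0 : B ≠ 0)
    (hBp : MvPolynomial.eval (fun k => algebraMap K L (p k)) B = 0)
    (hBσ : (polyHeight κ B : ℝ) ≤ finrank K L * σ) : Irreducible B := by
  have hL : IsFF κ L := h.of_finite
  refine ⟨?_, ?_⟩
  · intro hu
    have h1 : IsUnit (MvPolynomial.eval (fun k => algebraMap K L (p k)) B) := hu.map _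
    rw [hBp] at h1
    exact not_isUnit_zero h1
  · intro F G hFG
    rw [hFG] at hBp hB0
    have hF0 := left_ne_zero_of_mul hB0
    have hG0 := right_ne_zero_of_mul hB0
    obtain ⟨a, c, hac, hFa, hGc⟩ := hom_of_mul (hFG ▸ hB) hB0
    rw [map_mul, mul_eq_zero] at hBp
    rcases hBp with hBp | hBp
    · right
      have h3 : polyHeight κ F ≤ polyHeight κ B :=
        polyHeight_le_of_dvd hL (hFG ▸ hB0) ⟨G, hFG⟩
      have h1 : ¬ a < b := fun hlt => hmin a hlt ⟨L, inferInstance, inferInstance, inferInstance,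
        inferInstance, inferInstance, F, hFa, hF0, hBp, le_trans (by exact_mod_cast h3) hBσ⟩
      have h2 : c = 0 := by omega
      rw [h2] at hGc
      exact isUnit_hom_zero hG0 hGc
    · left
      have h3 : polyHeight κ G ≤ polyHeight κ B :=
        polyHeight_le_of_dvd hL (hFG ▸ hB0) ⟨F, by rw [hFG, mul_comm]⟩
      have h1 : ¬ c < b := fun hlt => hmin c hlt ⟨L, inferInstance, inferInstance, inferInstance,
        inferInstance, inferInstance, G, hGc, hG0, hBp, le_trans (by exact_mod_cast h3) hBσ⟩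
      have h2 : a = 0 := by omega
      rw [h2] at hFa
      exact isUnit_hom_zero hF0 hFa

omit [IsAlgClosed κ] [CharZero κ] in
/-- the minimal degree -/
theorem FormS.exists_min {p : Fin n → K} {σ : ℝ} {e : ℕ} (hF : FormS κ p σ e) :
    ∃ b, 1 ≤ b ∧ b ≤ e ∧ FormS κ p σ b ∧ ∀ c < b, ¬ FormS κ p σ c := by
  classical
  have hQ : ∃ b, FormS κ p σ b := ⟨e, hF⟩
  refine ⟨Nat.find hQ, ?_, Nat.find_min' hQ hF, Nat.find_spec hQ, fun c hc => Nat.find_min hQ hc⟩
  by_contra hcon
  have h0 : Nat.find hQ = 0 := by omega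
  have h1 := Nat.find_spec hQ
  rw [h0] at h1
  obtain ⟨L, fL, aκL, aKL, tL, dL, B, hB, hB0, hBp, hBσ⟩ := h1
  have h2 := (isUnit_hom_zero hB0 hB).map (MvPolynomial.eval (fun k => algebraMap K L (p k)))
  rw [hBp] at h2
  exact not_isUnit_zero h2

/-- **A form over the base field** of the same degree which vanishes at the point; its height is
bounded by the number of the coefficients. -/
theorem FormS.exists_rational (h : IsFF κ K) {p : Fin n → K} {σ : ℝ} {b : ℕ}
    (hF : FormS κ p σ b) {μ : ℝ} (hμ : σ < μ) (hμ0 : 0 < μ) :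
    ∃ f : MvPolynomial (Fin n) K, f.IsHomogeneous b ∧ f ≠ 0 ∧ MvPolynomial.eval p f = 0 ∧
      (polyHeight κ f : ℝ) ≤ Fintype.card (EX n b) * μ := by
  classical
  obtain ⟨L, fL, aκL, aKL, tL, dL, gL, B, hB, hB0, hBp, hBσ⟩ := hF.galois h
  have hL : IsFF κ L := h.of_finite
  have hN : (0 : ℝ) < finrank K L := by exact_mod_cast Module.finrank_pos (R := K) (M := L)
  -- the hyperplane of the functionals which vanish on `B`
  obtain ⟨l, hl⟩ : ∃ l : EX n b → L, l = fun J => B.coeff J.1 := ⟨_, rfl⟩
  have hl0 : l ≠ 0 := by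
    intro h0
    apply hB0
    rw [← toF_coeff hB, ← hl, h0]
    unfold toF
    simp
  have hlh : height κ l = polyHeight κ B := by
    unfold height
    rw [polyHeight_eq]
    refine finsum_congr fun w => ?_
    congr 1
    apply le_antisymm
    · refine Finset.sup_le fun J _ => ?_
      rw [hl]
      exact le_nrm w.1 B J.1
    · refine nrm_le w.1 fun J => ?_
      by_cases hJ : J.degree = b
      · have h1 := le_vmax w.1 l ⟨J, mem_expo.2 hJ⟩
        rw [hl] at h1
        rw [hl]
        exact h1
      · rw [hB.coeff_eq_zero hJ, map_zero]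
        exact zero_le
  obtain ⟨Q₀, -, hξQ, hmin⟩ := exists_min_descent (L := L) h μ
    (ξ := xm b p) (U := (⊤ : Submodule K (EX n b → K))) Submodule.mem_top
  have h1 := hmin (orth (Submodule.span L {l})) (by rw [bc_top]; exact le_top) (by
    rw [mem_orth_single]
    rw [← hBp, ← pr_xm (fun k => algebraMap K L (p k)) hB, pr_eq_sum_EX]
    refine Finset.sum_congr rfl fun J _ => ?_
    rw [hl, xm_am, mul_comm])
  rw [ht_orth hL, ht_single hL hl0, hlh] at h1
  have h2 : (finrank L (orth (Submodule.span L {l})) : ℝ) = Fintype.card (EX n b) - 1 := by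
    have h3 := finrank_orth (Submodule.span L {l})
    rw [finrank_span_singleton hl0] at h3
    have h4 : ((1 + finrank L (orth (Submodule.span L {l})) : ℕ) : ℝ) = Fintype.card (EX n b) := by
      exact_mod_cast h3
    push_cast at h4
    linarith
  rw [h2] at h1
  have h3 : (ht κ Q₀ : ℝ) + μ * finrank K Q₀ ≤ σ + μ * (Fintype.card (EX n b) - 1) := by
    have h4 : finrank K L * ((ht κ Q₀ : ℝ) + μ * finrank K Q₀) ≤
        finrank K L * (σ + μ * (Fintype.card (EX n b) - 1)) := by
      refine h1.trans ?_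
      have h5 : (finrank K L : ℝ) * (σ + μ * (Fintype.card (EX n b) - 1)) =
        finrank K L * σ + finrank K L * μ * (Fintype.card (EX n b) - 1) := by ring
      rw [h5]
      linarith
    exact le_of_mul_le_mul_left h4 hN
  have hQ0 : (0 : ℝ) ≤ ht κ Q₀ := by exact_mod_cast ht_nonneg h Q₀
  have hfr0 : (0 : ℝ) ≤ finrank K Q₀ := Nat.cast_nonneg _
  have hcard : finrank K Q₀ < Fintype.card (EX n b) := by
    have h5 : μ * (finrank K Q₀ : ℝ) < μ * Fintype.card (EX n b) := by linarith
    exact_mod_cast lt_of_mul_lt_mul_left h5 hμ0.le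
  have hV : orth Q₀ ≠ ⊥ := by
    intro h0
    have h4 := finrank_orth Q₀
    rw [h0, finrank_bot] at h4
    omega
  obtain ⟨y, hy, hy0, hyh⟩ := exists_echelon h hV
  rw [ht_orth h] at hyh
  refine ⟨toF y, toF_hom y, ?_, ?_, ?_⟩
  · intro h0
    apply hy0
    funext J
    rw [← coeff_toF y J, h0, MvPolynomial.coeff_zero, Pi.zero_apply]
  · rw [← pr_xm p (toF_hom y), pr_toF]
    exact hy _ hξQ
  · have h4 : polyHeight κ (toF y) ≤ height κ y := by
      have hf0 : toF y ≠ 0 := by
        intro h0
        apply hy0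
        funext J
        rw [← coeff_toF y J, h0, MvPolynomial.coeff_zero, Pi.zero_apply]
      unfold height
      rw [polyHeight_eq]
      refine finsum_mono (nrm_support h hf0) (h.vmax_support hy0) fun w => ?_
      refine (log_le_log (nrm_ne_zero w.1 hf0) (by
        intro h0
        exact hy0 ((vmax_eq_zero_iff _).1 h0))).2 ?_
      exact nrm_le w.1 fun J => coeff_toF_le w.1 (fun J => le_vmax w.1 y J) J
    have h5 : (polyHeight κ (toF y) : ℝ) ≤ ht κ Q₀ := by exact_mod_cast h4.trans hyh
    have h6 : 0 ≤ μ * (finrank K Q₀ : ℝ) := by positivity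
    linarith

end

end Pool.Agent.Lib.MP_44a246_ntSH
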