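import Mathlib
import Pool.Agent.Lib.MP_44a246_ntC.C06
import Pool.Agent.Lib.MP_44a246_ntSH.AC03
import Pool.Agent.Lib.MP_44a246_ntSH.P5

/-!
# Descent of a plane curve of small height through a point over the base field
(paper 619, (A6), the absolute version)
-/

namespace Pool.Agent.Lib.MP_44a246_ntSH

open Pool.Agent.Lib.MP_44a246_nt
open Pool.Agent.Lib.MP_44a246_ntL
open Pool.Agent.Lib.MP_44a246_ntS
open Pool.Agent.Lib.MP_44a246_ntF
open Pool.Agent.Lib.MP_44a246_ntO
open Pool.Agent.Lib.MP_44a246_ntA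
open Pool.Agent.Lib.MP_44a246_ntZ
open Pool.Agent.Lib.MP_e52354_nt
open WithZero Module

universe u

section conj

variable {κ K L : Type*} [Field κ] [Field K] [Algebra κ K]
  [Field L] [Algebra κ L] [Algebra K L] [IsScalarTower κ K L]

/-- the pulled back place -/
private noncomputable def plc (σ : L ≃ₐ[K] L) (w : Place κ L) : Place κ L :=
  ⟨w.1.comap (σ : L →+* L), by
    constructor
    · intro y
      obtain ⟨x, hx⟩ := w.2.1 y
      exact ⟨σ.symm x, by
        rw [Valuation.comap_apply]
        simpa using hx⟩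
    · intro c hc
      rw [Valuation.comap_apply]
      have h1 : (σ : L →+* L) (algebraMap κ L c) = algebraMap κ L c := by
        rw [IsScalarTower.algebraMap_apply κ K L]
        exact σ.commutes _
      rw [h1]
      exact w.2.2 c hc⟩

private theorem plc_val (σ : L ≃ₐ[K] L) (w : Place κ L) (x : L) :
    (plc σ w).1 x = w.1 (σ x) := rfl

/-- the places are permuted -/
private noncomputable def plcEquiv (σ : L ≃ₐ[K] L) : Place κ L ≃ Place κ L where
  toFun := plc σ
  invFun := plc σ.symm
  left_inv := by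
    intro w
    apply Subtype.ext
    apply Valuation.ext
    intro x
    rw [plc_val, plc_val, AlgEquiv.apply_symm_apply]
  right_inv := by
    intro w
    apply Subtype.ext
    apply Valuation.ext
    intro x
    rw [plc_val, plc_val, AlgEquiv.symm_apply_apply]

/-- the height of a conjugate form -/
theorem polyHeight_conj (σ : L ≃ₐ[K] L) {ι : Type*} (f : MvPolynomial ι L) :
    polyHeight κ (f.map (σ : L →+* L)) = polyHeight κ f := by
  rw [polyHeight_eq, polyHeight_eq]
  have h1 : ∀ w : Place κ L, log (nrm w.1 (f.map (σ : L →+* L))) =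
      log (nrm (plcEquiv (κ := κ) σ w).1 f) := by
    intro w
    have hs : (f.map (σ : L →+* L)).support = f.support := by
      ext I
      rw [MvPolynomial.mem_support_iff, MvPolynomial.mem_support_iff, MvPolynomial.coeff_map, Ne,
        Ne, map_eq_zero_iff _ (σ : L →+* L).injective]
    unfold nrm
    rw [hs]
    have h2 : (f.support.sup fun I => w.1 ((f.map (σ : L →+* L)).coeff I)) =
        f.support.sup fun I => (plcEquiv (κ := κ) σ w).1 (f.coeff I) :=
      Finset.sup_congr rfl fun I _ => by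
        rw [MvPolynomial.coeff_map]
        rfl
    rw [h2]
  rw [finsum_congr h1]
  exact finsum_comp_equiv (f := fun w : Place κ L => log (nrm w.1 f)) (plcEquiv (κ := κ) σ)

end conj

section

variable {κ : Type*} {K : Type u} [Field κ] [IsAlgClosed κ] [CharZero κ] [Field K] [Algebra κ K]

/-- Galois extensions -/
theorem plane_descent_galois (h : IsFF κ K) {y₁ y : K} {L : Type u} [Field L] [Algebra κ L]
    [Algebra K L] [IsScalarTower κ K L] [FiniteDimensional K L] [IsGalois K L] {r : ℕ}
    {R : MvPolynomial (Fin 3) L} (hR : R.IsHomogeneous r) (hR0 : R ≠ 0)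
    (hRp : MvPolynomial.eval ![1, algebraMap K L y₁, algebraMap K L y] R = 0) {σ : ℝ}
    (hRh : (polyHeight κ R : ℝ) ≤ finrank K L * σ) (hsm : 2 * r * σ < height κ ![1, y₁]) :
    ∃ (a : ℕ) (A : MvPolynomial (Fin 3) K), a ≤ r ∧ A ≠ 0 ∧ A.IsHomogeneous a ∧
      MvPolynomial.eval ![1, y₁, y] A = 0 ∧ (polyHeight κ A : ℝ) ≤ σ := by
  classical
  have hL : IsFF κ L := h.of_finite
  have hN : (0 : ℝ) < finrank K L := by exact_mod_cast Module.finrank_pos (R := K) (M := L)
  have hr1 : 1 ≤ r := by
    by_contra hcon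
    have h0 : r = 0 := by omega
    subst h0
    have h1 := (isUnit_hom_zero hR0 hR).map
      (MvPolynomial.eval ![1, algebraMap K L y₁, algebraMap K L y])
    rw [hRp] at h1
    exact not_isUnit_zero h1
  have hhy : height κ ![1, algebraMap K L y₁] = finrank K L * height κ ![1, y₁] := by
    have h1 := hL.height_ext (K := K) (x := ![1, y₁]) (by
      intro h0
      exact one_ne_zero (congrFun h0 0))
    rw [← h1]
    congr 1
    funext i
    fin_cases i
    · simp
    · rfl
  have hdR0 := deh_ne_zero hR hR0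
  have hbound : 2 * (r : ℤ) * polyHeight κ R < height κ ![1, algebraMap K L y₁] := by
    rw [hhy]
    have h1 : 2 * (r : ℝ) * polyHeight κ R ≤ finrank K L * (2 * r * σ) := by
      have h2 := mul_le_mul_of_nonneg_left hRh (by positivity : (0 : ℝ) ≤ 2 * r)
      linarith
    have h2 : (finrank K L : ℝ) * (2 * r * σ) < finrank K L * height κ ![1, y₁] :=
      mul_lt_mul_of_pos_left hsm hN
    have h3 : 2 * (r : ℝ) * polyHeight κ R < finrank K L * height κ ![1, y₁] := h1.trans_lt h2
    exact_mod_cast h3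
  obtain ⟨A₀, c1, c2, c3, c4, c5, -, c7, -⟩ := exists_curve hL hdR0 (deh_box hR)
    (y₁ := algebraMap K L y₁) (y := algebraMap K L y) (by rw [deh_eval]; exact hRp) hr1 (by
      rw [gh_deh hR]
      exact hbound)
  obtain ⟨a, P, -, hP, hPA, hPi⟩ := Pool.Agent.Lib.MP_44a246_ntZ.exists_form c1 c3
  have hP0 : P ≠ 0 := hPi.ne_zero
  have hX : (deh P).natDegree ≠ 0 := by rw [hPA]; exact c4
  have hdvd : P ∣ R := dvd_of_deh_dvd hP hPi hX hR (by rw [hPA]; exact c2)
  have har : a ≤ r := by
    obtain ⟨Q, hQ⟩ := hdvd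
    obtain ⟨a₁, a₂, hs, h1, h2⟩ := hom_of_mul (hQ ▸ hR) (hQ ▸ hR0)
    have h3 : a₁ = a := h1.inj_right hP hP0
    omega
  have hPh : polyHeight κ P ≤ polyHeight κ R := polyHeight_le_of_dvd hL hR0 hdvd
  have hPn : 0 ≤ polyHeight κ P := polyHeight_nonneg hL hP0
  have hRn : 0 ≤ polyHeight κ R := polyHeight_nonneg hL hR0
  -- the conjugates are proportional
  have hconj : ∀ τ : L ≃ₐ[K] L, ∃ c : L, P.map (τ : L →+* L) = MvPolynomial.C c * P := by
    intro τ
    have e1 : (P.map (τ : L →+* L)).IsHomogeneous a := hP.map _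
    have e2 : (deh (P.map (τ : L →+* L))).evalEval (algebraMap K L y₁) (algebraMap K L y) = 0 := by
      rw [deh_eval, MvPolynomial.eval_map]
      have h1 : MvPolynomial.eval ![1, algebraMap K L y₁, algebraMap K L y] P = 0 := by
        rw [← deh_eval, hPA]
        exact c5
      have h2 := MvPolynomial.eval₂_comp (τ : L →+* L)
        ![1, algebraMap K L y₁, algebraMap K L y] P
      rw [h1, map_zero] at h2
      rw [h2]
      congr 1
      funext i
      fin_cases i
      · simp
      · simp
      · simp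
    have e3 : deh P ∣ deh (P.map (τ : L →+* L)) := by
      rw [hPA]
      refine bez hL c1 c4 c5 e2 ?_
      rw [gh_deh e1, polyHeight_conj, ← hPA, gh_deh hP]
      have h1 : ((deh (P.map (τ : L →+* L))).natDegree : ℤ) ≤ r := by
        have := (deh_box e1).1
        exact_mod_cast this.trans har
      have h2 : ((deh P).natDegree : ℤ) ≤ r := by
        have := (deh_box hP).1
        exact_mod_cast this.trans har
      have h3 : (r : ℤ) * polyHeight κ P ≤ r * polyHeight κ R :=
        mul_le_mul_of_nonneg_left hPh (Int.natCast_nonneg _)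
      have h4 := mul_le_mul_of_nonneg_right h1 hPn
      have h5 := mul_le_mul_of_nonneg_right h2 hPn
      refine lt_of_le_of_lt ?_ hbound
      linarith
    obtain ⟨Q, hQ⟩ := dvd_of_deh_dvd hP hPi hX e1 e3
    have hne : P * Q ≠ 0 := by
      rw [← hQ]
      intro h0
      exact hP0 (MvPolynomial.map_injective _ (τ : L →+* L).injective (by rw [h0, map_zero]))
    obtain ⟨a₁, a₂, hs, h1, h2⟩ := hom_of_mul (hQ ▸ e1) hne
    have h3 : a₁ = a := h1.inj_right hP hP0
    have h4 : a₂ = 0 := by omega
    rw [h4] at h2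
    have h5 := (MvPolynomial.totalDegree_zero_iff_isHomogeneous _).2 h2
    rw [MvPolynomial.totalDegree_eq_zero_iff_eq_C] at h5
    exact ⟨_, by rw [hQ, mul_comm, ← h5]⟩
  obtain ⟨I₀, hI₀⟩ := MvPolynomial.ne_zero_iff.1 hP0
  have hfix : ∀ I : Fin 3 →₀ ℕ, ∃ b : K, algebraMap K L b = (P.coeff I₀)⁻¹ * P.coeff I := by
    intro I
    have h1 : ((P.coeff I₀)⁻¹ * P.coeff I : L) ∈ Set.range (algebraMap K L) := by
      rw [IsGalois.mem_range_algebraMap_iff_fixed]
      intro τ
      obtain ⟨c, hc⟩ := hconj τ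
      have h2 : ∀ J, τ (P.coeff J) = c * P.coeff J := by
        intro J
        have h3 := congrArg (MvPolynomial.coeff J) hc
        rw [MvPolynomial.coeff_map, MvPolynomial.coeff_C_mul] at h3
        exact h3
      have hc0 : c ≠ 0 := by
        rintro rfl
        have h3 := h2 I₀
        rw [zero_mul] at h3
        exact hI₀ ((map_eq_zero_iff τ τ.injective).1 h3)
      rw [map_mul, map_inv₀, h2, h2]
      field_simp
    obtain ⟨b, hb⟩ := h1
    exact ⟨b, hb⟩
  choose β hβ using hfix
  obtain ⟨A, hA⟩ : ∃ A : MvPolynomial (Fin 3) K, A = ∑ I ∈ P.support,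
    MvPolynomial.monomial I (β I) := ⟨_, rfl⟩
  have hmap : A.map (algebraMap K L) = MvPolynomial.C (P.coeff I₀)⁻¹ * P := by
    have h1 : MvPolynomial.C (P.coeff I₀)⁻¹ * P = ∑ I ∈ P.support,
        MvPolynomial.C (P.coeff I₀)⁻¹ * MvPolynomial.monomial I (P.coeff I) := by
      rw [← Finset.mul_sum, ← P.as_sum]
    rw [hA, map_sum, h1]
    refine Finset.sum_congr rfl fun I _ => ?_
    rw [MvPolynomial.map_monomial, hβ, MvPolynomial.C_mul_monomial]
  have hCP0 : MvPolynomial.C (P.coeff I₀)⁻¹ * P ≠ 0 :=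
    mul_ne_zero (by rw [Ne, MvPolynomial.C_eq_zero]; exact inv_ne_zero hI₀) hP0
  have hA0 : A ≠ 0 := by
    intro h0
    rw [h0, map_zero] at hmap
    exact hCP0 hmap.symm
  refine ⟨a, A, har, hA0, ?_, ?_, ?_⟩
  · rw [hA]
    refine MvPolynomial.IsHomogeneous.sum _ _ _ fun I hI => ?_
    refine MvPolynomial.isHomogeneous_monomial _ ?_
    have h2 := hP (MvPolynomial.mem_support_iff.1 hI)
    rw [Finsupp.degree_eq_weight_one]
    exact h2
  · have h1 := eval_amE (L := L) A ![1, y₁, y]
    have h2 : (fun k => algebraMap K L ((![1, y₁, y] : Fin 3 → K) k)) =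
        ![1, algebraMap K L y₁, algebraMap K L y] := by
      funext i
      fin_cases i
      · simp
      · rfl
      · rfl
    rw [h2, hmap, map_mul, ← deh_eval (A := P), hPA, c5, mul_zero] at h1
    exact (map_eq_zero_iff _ (algebraMap K L).injective).1 h1.symm
  · have h1 := polyHeight_am (L := L) h hA0
    rw [hmap, polyHeight_smul hL hP0 (inv_ne_zero hI₀)] at h1
    have h2 : (finrank K L : ℝ) * polyHeight κ A ≤ finrank K L * σ := by
      refine le_trans ?_ hRh
      have h3 : (finrank K L : ℤ) * polyHeight κ A ≤ polyHeight κ R := by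
        rw [← h1]
        exact hPh
      exact_mod_cast h3
    exact le_of_mul_le_mul_left h2 hN

/-- **Descent of a plane curve**: if a point over `K` is on a plane curve of small height over a
finite extension, then it is on one over `K`. -/
theorem plane_descent (h : IsFF κ K) {y₁ y : K} {L : Type u} [Field L] [Algebra κ L]
    [Algebra K L] [IsScalarTower κ K L] [FiniteDimensional K L] {r : ℕ}
    {R : MvPolynomial (Fin 3) L} (hR : R.IsHomogeneous r) (hR0 : R ≠ 0)
    (hRp : MvPolynomial.eval (fun k => algebraMap K L ((![1, y₁, y] : Fin 3 → K) k)) R = 0) {σ : ℝ}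
    (hRh : (polyHeight κ R : ℝ) ≤ finrank K L * σ) (hsm : 2 * r * σ < height κ ![1, y₁]) :
    ∃ (a : ℕ) (A : MvPolynomial (Fin 3) K), a ≤ r ∧ A ≠ 0 ∧ A.IsHomogeneous a ∧
      MvPolynomial.eval ![1, y₁, y] A = 0 ∧ (polyHeight κ A : ℝ) ≤ σ := by
  obtain ⟨M, fM, aκM, aKM, tM, dM, gM, B, hB, hB0, hBp, hBσ⟩ := FormS.galois (κ := κ)
    (p := ![1, y₁, y]) (σ := σ) (b := r) h
    ⟨L, inferInstance, inferInstance, inferInstance, inferInstance, inferInstance, R, hR, hR0,
      hRp, hRh⟩
  refine plane_descent_galois (L := M) h hB hB0 ?_ hBσ hsm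
  rw [← hBp]
  congr 2
  funext i
  fin_cases i
  · simp
  · rfl
  · rfl

end

end Pool.Agent.Lib.MP_44a246_ntSH
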