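import Mathlib
import Pool.Agent.Lib.MP_44a246_ntSH.P5
import Pool.Agent.Lib.MP_44a246_ntSH.PR02

/-!
SHARP PAIRS (paper 667), (0.1) for forms in constant linear forms.
-/

namespace Pool.Agent.Lib.MP_44a246_ntSH

open Pool.Agent.Lib.MP_e52354_nt
open Pool.Agent.Lib.MP_44a246_nt
open Pool.Agent.Lib.MP_44a246_ntL
open Pool.Agent.Lib.MP_44a246_ntS
open Pool.Agent.Lib.MP_44a246_ntF
open Pool.Agent.Lib.MP_44a246_ntW
open Pool.Agent.Lib.MP_44a246_ntG
open Pool.Agent.Lib.MP_44a246_ntE
open WithZero Polynomial Module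

section

variable {κ L : Type*} [Field κ] [Field L] [Algebra κ L] {n k : ℕ}

/-- constants have absolute value at most one -/
theorem const_le_one (w : Place κ L) (c : κ) : w.1 (algebraMap κ L c) ≤ 1 := by
  by_cases hc : c = 0
  · rw [hc, map_zero, map_zero]
    exact zero_le
  · exact (w.2.2 c hc).le

/-- a linear form with constant coefficients -/
noncomputable def clin (c : Fin n → κ) : MvPolynomial (Fin n) L :=
  ∑ j, MvPolynomial.C (algebraMap κ L (c j)) * MvPolynomial.X j

theorem clin_hom (c : Fin n → κ) : (clin (L := L) c).IsHomogeneous 1 := by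
  refine MvPolynomial.IsHomogeneous.sum _ _ _ fun j _ => ?_
  have h1 := (MvPolynomial.isHomogeneous_C (Fin n) (algebraMap κ L (c j))).mul
    (MvPolynomial.isHomogeneous_X L j)
  rwa [zero_add] at h1

theorem nV_clin_le (w : Place κ L) (c : Fin n → κ) : nV w.1 n (clin (L := L) c) ≤ 1 := by
  unfold clin
  refine Valuation.map_sum_le _ fun j _ => ?_
  rw [map_mul, nV_apply, nV_apply]
  have h1 : nrm w.1 (MvPolynomial.C (algebraMap κ L (c j)) : MvPolynomial (Fin n) L) ≤ 1 := by
    refine nrm_le w.1 fun I => ?_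
    rw [MvPolynomial.coeff_C]
    split_ifs
    · exact const_le_one w _
    · rw [map_zero]; exact zero_le
  have h2 : nrm w.1 (MvPolynomial.X j : MvPolynomial (Fin n) L) ≤ 1 := by
    refine nrm_le w.1 fun I => ?_
    classical
    rw [MvPolynomial.coeff_X]
    split_ifs
    · rw [map_one]
    · rw [map_zero]; exact zero_le
  exact mul_le_one' h1 h2

/-- the substitution of constant linear forms does not increase the Gauss norm -/
theorem nrm_aeval_clin_le (w : Place κ L) (c : Fin k → Fin n → κ) (f : MvPolynomial (Fin k) L) :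
    nrm w.1 (MvPolynomial.aeval (fun i => clin (L := L) (c i)) f) ≤ nrm w.1 f := by
  rw [← nV_apply, MvPolynomial.aeval_def, MvPolynomial.eval₂_eq']
  refine Valuation.map_sum_le _ fun K _ => ?_
  rw [map_mul, map_prod]
  have h1 : nV w.1 n (algebraMap L (MvPolynomial (Fin n) L) (f.coeff K)) ≤ nrm w.1 f := by
    rw [nV_apply]
    refine nrm_le w.1 fun I => ?_
    rw [MvPolynomial.algebraMap_eq, MvPolynomial.coeff_C]
    split_ifs
    · exact le_nrm w.1 f K
    · rw [map_zero]; exact zero_le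
  have h2 : ∏ i, nV w.1 n (clin (L := L) (c i) ^ K i) ≤ 1 := by
    refine Finset.prod_le_one' fun i _ => ?_
    rw [map_pow]
    exact pow_le_one' (nV_clin_le w (c i)) _
  calc nV w.1 n (algebraMap L (MvPolynomial (Fin n) L) (f.coeff K)) *
      ∏ i, nV w.1 n (clin (L := L) (c i) ^ K i) ≤ nrm w.1 f * 1 := mul_le_mul' h1 h2
    _ = nrm w.1 f := mul_one _

end

section

variable {κ L : Type*} [Field κ] [IsAlgClosed κ] [CharZero κ] [Field L] [CharZero L]
  [Algebra κ L]

/-- **Bezout for forms in constant linear forms** which vanish at the point -/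
theorem bezout4_zero (h : IsFF κ L) {n d₀ b : ℕ} (X : DatG κ (L := L) n d₀) {A : L[X][X]}
    (hA : CrvE X b A) (hpos : 0 < height κ X.x) {k e : ℕ} (c : Fin k → Fin (n + 1) → κ)
    {f : MvPolynomial (Fin k) L} (hf : f.IsHomogeneous e) (hf0 : f ≠ 0)
    (hnd : ¬ A ∣ MvPolynomial.aeval
      (fun i => ∑ j, C (C (algebraMap κ L (c i j))) * X.B A j) f)
    (hz : MvPolynomial.eval (fun i => ∑ j, algebraMap κ L (c i j) * X.x j) f = 0) :
    height κ X.x - (e : ℤ) * gh κ A ≤ A.natDegree * polyHeight κ f := by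
  classical
  obtain ⟨F, hF⟩ : ∃ F : MvPolynomial (Fin (n + 1)) L,
    F = MvPolynomial.aeval (fun i => clin (L := L) (c i)) f := ⟨_, rfl⟩
  have hFh : F.IsHomogeneous e := by
    have h1 := hf.aeval (fun i => clin (L := L) (c i)) (n := 1) fun i => clin_hom (c i)
    rwa [one_mul, ← hF] at h1
  obtain ⟨F', hF'⟩ : ∃ F' : EX (n + 1) e → L, F' = fun K => F.coeff K.1 := ⟨_, rfl⟩
  have hpf : pf F' = F := by rw [hF']; exact pf_coeff hFh
  have hnot : F' ∉ VI A (X.B A) e := by
    rw [mem_VI, hpf, hF, MvPolynomial.comp_aeval_apply]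
    convert hnd using 3
    congr 1
    funext i
    unfold clin
    rw [map_sum]
    refine Finset.sum_congr rfl fun j _ => ?_
    rw [map_mul, MvPolynomial.aeval_X, MvPolynomial.aeval_C]
    rfl
  have hzero : Fval e (ex F') X.x = 0 := by
    have h1 : Fval e (ex F') X.x = Fval e (fun I => F.coeff I) X.x := by
      unfold Fval
      refine Finset.sum_congr rfl fun I hI => ?_
      rw [ex_of_mem _ hI, hF']
    rw [h1, ← eval_eq_Fval' hFh, ← MvPolynomial.coe_aeval_eq_eval, hF]
    change MvPolynomial.aeval X.x _ = 0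
    rw [MvPolynomial.comp_aeval_apply, ← hz, ← MvPolynomial.coe_aeval_eq_eval]
    change _ = MvPolynomial.aeval _ f
    congr 2
    funext i
    unfold clin
    rw [map_sum]
    refine Finset.sum_congr rfl fun j _ => ?_
    rw [map_mul, MvPolynomial.aeval_X, MvPolynomial.aeval_C]
    rfl
  rw [polyHeight_eq]
  refine bezout_ge_zero h X hA hpos hnot hzero ⟨nrm_support h hf0, fun w => ⟨F', ?_, fun K => ?_⟩⟩
  · rw [sub_self]
    exact Submodule.zero_mem _
  · have h1 : w.1 (F' K) ≤ nrm w.1 F := by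
      rw [hF']
      exact le_nrm w.1 F K.1
    rw [exp_log (nrm_ne_zero w.1 hf0)]
    refine h1.trans ?_
    rw [hF]
    exact nrm_aeval_clin_le w c f

end

end Pool.Agent.Lib.MP_44a246_ntSH
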