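import Mathlib
import Pool.Agent.Lib.MP_44a246_ntS.SJ2b
import Pool.Agent.Lib.MP_44a246_ntS.SJ3b
import Pool.Agent.Lib.MP_44a246_ntSH.P4

/-!
SHARP PAIRS (paper 667), (4.4): elimination of the variable `X 0` from two forms in four variables
which vanish on a curve.
-/

namespace Pool.Agent.Lib.MP_44a246_ntSH

open Pool.Agent.Lib.MP_44a246_nt
open Pool.Agent.Lib.MP_44a246_ntL
open Pool.Agent.Lib.MP_44a246_ntS
open Pool.Agent.Lib.MP_e52354_nt
open WithZero Module MvPolynomial

section

variable {L : Type*} [Field L] {n : ℕ} {S : Type*} [CommRing S] [Algebra L S]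

/-- evaluation of the polynomial in `X 0`, in an algebra -/
theorem aeval_fs (P : MvPolynomial (Fin (n + 1)) L) (q : Fin (n + 1) → S) :
    (finSuccEquiv L n P).eval₂ (aeval (fun j : Fin n => q j.succ) : MvPolynomial (Fin n) L →ₐ[L] S).toRingHom
      (q 0) = aeval q P := by
  induction P using MvPolynomial.induction_on with
  | C c =>
    rw [finSuccEquiv_apply, eval₂Hom_C]
    simp [Polynomial.eval₂_C]
  | add P Q hP hQ => rw [map_add, Polynomial.eval₂_add, hP, hQ, map_add]
  | mul_X P j hP =>
    rw [map_mul, Polynomial.eval₂_mul, hP, map_mul, aeval_X]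
    congr 1
    refine Fin.cases ?_ (fun j => ?_) j
    · rw [finSuccEquiv_X_zero, Polynomial.eval₂_X]
    · rw [finSuccEquiv_X_succ, Polynomial.eval₂_C]
      exact aeval_X _ _

/-- the value of the resultant is in the ideal generated by the values of the two forms -/
theorem aeval_resultant {A B : MvPolynomial (Fin (n + 1)) L} {a b' : ℕ} (hA : A.IsHomogeneous a)
    (hB : (finSuccEquiv L n B).natDegree ≤ b') (hb : b' ≠ 0) {q : Fin (n + 1) → S} {r : S}
    (hAq : r ∣ aeval q A) (hBq : r ∣ aeval q B) :
    r ∣ aeval (fun j : Fin n => q j.succ)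
      (Polynomial.resultant (finSuccEquiv L n B) (finSuccEquiv L n A) b' a) := by
  obtain ⟨u, v, -, -, huv⟩ := Polynomial.exists_mul_add_mul_eq_C_resultant
    (finSuccEquiv L n B) (finSuccEquiv L n A) hB (natDegree_fs_le hA) (Or.inl hb)
  have h1 := congrArg (fun P => P.eval₂ (aeval (fun j : Fin n => q j.succ) :
    MvPolynomial (Fin n) L →ₐ[L] S).toRingHom (q 0)) huv
  simp only [Polynomial.eval₂_add, Polynomial.eval₂_mul, aeval_fs, Polynomial.eval₂_C] at h1
  change _ = aeval (fun j : Fin n => q j.succ) _ at h1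
  rw [← h1]
  exact dvd_add (dvd_mul_of_dvd_left hBq _) (dvd_mul_of_dvd_left hAq _)

end

section

variable {L : Type*} [Field L]

/-- the value of a form at a multiple of a point -/
theorem aeval_smul_hom {n r : ℕ} {S : Type*} [CommRing S] [Algebra L S]
    {R : MvPolynomial (Fin n) L} (hR : R.IsHomogeneous r) (c : S) (q : Fin n → S) :
    aeval (fun j => c * q j) R = c ^ r * aeval q R := by
  rw [aeval_def, aeval_def, eval₂_eq', eval₂_eq', Finset.mul_sum]
  refine Finset.sum_congr rfl fun K hK => ?_
  have h1 : K.degree = r := by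
    have h2 := hR (mem_support_iff.1 hK)
    rw [← h2, Finsupp.degree_eq_weight_one]
    rfl
  simp only [mul_pow, Finset.prod_mul_distrib]
  rw [Finset.prod_pow_eq_pow_sum, ← Finsupp.degree_eq_sum, h1]
  ring

/-- a form which vanishes on the curve vanishes after dehomogenisation -/
theorem dvd_deh {A : Polynomial (Polynomial L)} (hA : Irreducible A)
    (hAY : ¬ A ∣ Polynomial.derivative A) {q : Fin 3 → Polynomial (Polynomial L)}
    (hq0 : q 0 = Polynomial.derivative A)
    (hq1 : q 1 = Polynomial.C Polynomial.X * Polynomial.derivative A)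
    (hq2 : q 2 = Polynomial.X * Polynomial.derivative A) {R : MvPolynomial (Fin 3) L} {r : ℕ}
    (hR : R.IsHomogeneous r) (h : A ∣ aeval q R) : A ∣ deh R := by
  have hq : q = fun j => Polynomial.derivative A *
      (![1, Polynomial.C Polynomial.X, Polynomial.X] : Fin 3 → Polynomial (Polynomial L)) j := by
    funext j
    fin_cases j
    · simpa using hq0
    · simp only [Fin.mk_one, Matrix.cons_val_one, Matrix.cons_val_zero]
      rw [hq1]
      ring
    · simp only [Fin.reduceFinMk, Matrix.cons_val]
      rw [hq2]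
      ring
  rw [hq, aeval_smul_hom hR] at h
  rcases hA.prime.dvd_or_dvd h with h1 | h1
  · exact absurd (hA.prime.dvd_of_dvd_pow h1) hAY
  · exact h1

end

section

variable {κ L : Type*} [Field κ] [IsAlgClosed κ] [CharZero κ] [Field L] [Algebra κ L]

/-- **Elimination of the variable `X 0` on a curve.** `B` is an irreducible form of degree `b` and
`f` a form of degree `m ≥ b` which is not divisible by `B`; both vanish on the curve; at every
place `w` there is a multiple of `B` such that the coefficients of `f + g B` are at most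
`exp (τ w)`. Then the height of the curve is at most `m α(B) + b' ∑ τ` for some `b' ≤ b`. -/
theorem res_curve (h : IsFF κ L) {b m : ℕ} {B f : MvPolynomial (Fin 4) L}
    (hB : B.IsHomogeneous b) (hirr : Irreducible B) (hf : f.IsHomogeneous m) (hbm : b ≤ m)
    (hm : 1 ≤ m) (hndvd : ¬ B ∣ f) {A : Polynomial (Polynomial L)} (hA : Irreducible A)
    (hAY : ¬ A ∣ Polynomial.derivative A) {q : Fin 4 → Polynomial (Polynomial L)}
    (hq1 : q 1 = Polynomial.derivative A)
    (hq2 : q 2 = Polynomial.C Polynomial.X * Polynomial.derivative A)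
    (hq3 : q 3 = Polynomial.X * Polynomial.derivative A)
    (hBq : A ∣ aeval q B) (hfq : A ∣ aeval q f) {τ : Place κ L → ℤ}
    (hτ : (Function.support τ).Finite)
    (hloc : ∀ w : Place κ L, ∃ g : MvPolynomial (Fin 4) L, g.IsHomogeneous (m - b) ∧
      nrm w.1 (f + g * B) ≤ exp (τ w)) :
    ∃ b' : ℕ, b' ≤ b ∧ gh κ A ≤ m * polyHeight κ B + b' * ∑ᶠ w, τ w := by
  have hB0 : B ≠ 0 := hirr.ne_zero
  -- a form in three variables which vanishes on the curve
  have key : ∀ (R : MvPolynomial (Fin 3) L) (r : ℕ), R ≠ 0 → R.IsHomogeneous r →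
      A ∣ aeval (fun j : Fin 3 => q j.succ) R → gh κ A ≤ polyHeight κ R := by
    intro R r hR0 hR hAR
    have h1 := dvd_deh hA hAY (q := fun j : Fin 3 => q j.succ) hq1 hq2 hq3 hR hAR
    rw [← gh_deh hR]
    exact gh_le_of_dvd h h1 (deh_ne_zero hR hR0)
  set B' := finSuccEquiv L 3 B with hB'
  rcases Nat.eq_zero_or_pos B'.natDegree with hz | hpos
  · -- the variable does not occur
    have hC := Polynomial.eq_C_of_natDegree_eq_zero hz
    set R := B'.coeff 0 with hR
    have hRh : R.IsHomogeneous b := coeff_fs_hom hB (zero_add b)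
    have hR0 : R ≠ 0 := by
      intro h0
      rw [h0, map_zero] at hC
      exact hB0 ((map_eq_zero_iff _ (finSuccEquiv L 3).injective).1 hC)
    refine ⟨0, Nat.zero_le _, ?_⟩
    have h0 : aeval (fun j : Fin 3 => q j.succ) R = aeval q B := by
      rw [← aeval_fs B q, ← hB', hC, Polynomial.eval₂_C]
      rfl
    have h1 : polyHeight κ R = polyHeight κ B := by
      rw [polyHeight_eq, polyHeight_eq]
      refine finsum_congr fun w => ?_
      rw [← gn_finSucc (A := B), ← hB', hC, gn_C, nV_apply]
    have h2 := polyHeight_nonneg h hB0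
    have h3 : (1 : ℤ) ≤ m := by exact_mod_cast hm
    have h4 := key R b hR0 hRh (by rw [h0]; exact hBq)
    rw [h1] at h4
    rw [Nat.cast_zero, zero_mul, add_zero]
    nlinarith
  · have hle : B'.natDegree ≤ b := natDegree_fs_le hB
    set R := Polynomial.resultant B' (finSuccEquiv L 3 f) B'.natDegree m with hR
    have hR0 : R ≠ 0 := resultant_ne_zero_fs hf hirr hpos.ne' hndvd
    refine ⟨B'.natDegree, hle, ?_⟩
    refine (key R (b * m) hR0 (resultant_hom hf hB hle)
      (aeval_resultant hf le_rfl hpos.ne' hfq hBq)).trans ?_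
    have hw : ∀ w : Place κ L, log (nrm w.1 R) ≤ m * log (nrm w.1 B) + B'.natDegree * τ w := by
      intro w
      obtain ⟨g, hg, hgle⟩ := hloc w
      have h1 : R = Polynomial.resultant B' (finSuccEquiv L 3 (f + g * B)) B'.natDegree m := by
        rw [map_add, map_mul, mul_comm, Polynomial.resultant_add_mul_right _ _ _ _ _ _ le_rfl]
        have := natDegree_fs_le hg
        omega
      have h2 : nrm w.1 R ≤ nrm w.1 B ^ m * exp (τ w) ^ B'.natDegree := by
        rw [← nV_apply, h1]
        refine (resultant_le _ _ _ _ _).trans ?_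
        rw [hB', gn_finSucc, gn_finSucc]
        gcongr
      have h3 := nrm_ne_zero w.1 hR0
      have h4 := nrm_ne_zero w.1 hB0
      have h5 := (log_le_log h3 (mul_ne_zero (pow_ne_zero _ h4)
        (pow_ne_zero _ exp_ne_zero))).2 h2
      rw [log_mul (pow_ne_zero _ h4) (pow_ne_zero _ exp_ne_zero), log_pow, log_pow, log_exp,
        nsmul_eq_mul, nsmul_eq_mul] at h5
      exact h5
    have s1 := nrm_support h hB0
    have s2 : (Function.support fun w : Place κ L => (m : ℤ) * log (nrm w.1 B)).Finite := by
      refine s1.subset fun w hw h0 => hw ?_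
      change log (nrm w.1 B) = 0 at h0
      change (m : ℤ) * log (nrm w.1 B) = 0
      rw [h0, mul_zero]
    have s3 : (Function.support fun w : Place κ L => (B'.natDegree : ℤ) * τ w).Finite := by
      refine hτ.subset fun w hw h0 => hw ?_
      change (B'.natDegree : ℤ) * τ w = 0
      rw [h0, mul_zero]
    rw [polyHeight_eq, polyHeight_eq, mul_finsum, mul_finsum, ← finsum_add_distrib s2 s3]
    exact finsum_mono (nrm_support h hR0) ((s2.union s3).subset (Function.support_add _ _)) hw

end

end Pool.Agent.Lib.MP_44a246_ntSH
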