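import Mathlib
import Pool.Agent.Lib.MP_44a246_ntS.SE1
import Pool.Agent.Lib.MP_44a246_ntSH.EL01
import Pool.Agent.Lib.MP_44a246_ntSH.PC1
import Pool.Agent.Lib.MP_44a246_ntSH.PR01
import Pool.Agent.Lib.MP_44a246_ntSH.PR03

/-!
SHARP PAIRS (paper 667), (4.3) - (4.5): a large space of forms in four variables of degree `m`
which vanish on a curve has height at least `m ^ 2 / 24` times the height of the curve.
-/

namespace Pool.Agent.Lib.MP_44a246_ntSH

open Pool.Agent.Lib.MP_44a246_nt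
open Pool.Agent.Lib.MP_44a246_ntL
open Pool.Agent.Lib.MP_44a246_ntS
open Pool.Agent.Lib.MP_44a246_ntA
open Pool.Agent.Lib.MP_44a246_ntF
open Pool.Agent.Lib.MP_44a246_ntO
open Pool.Agent.Lib.MP_44a246_ntR (genus)
open Pool.Agent.Lib.MP_e52354_nt
open WithZero Module Polynomial

section

variable {L : Type*} [Field L] {n : ℕ}

/-- an irreducible factor which vanishes on the curve -/
theorem exists_factor {A : L[X][X]} (hA : Irreducible A) {q : Fin n → L[X][X]}
    {P : MvPolynomial (Fin n) L} (hP : P ≠ 0) (h : A ∣ MvPolynomial.aeval q P) :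
    ∃ B, Irreducible B ∧ B ∣ P ∧ A ∣ MvPolynomial.aeval q B := by
  obtain ⟨f, hf, u, hu⟩ := WfDvdMonoid.exists_factors P hP
  rw [← hu, map_mul] at h
  rcases hA.prime.dvd_or_dvd h with h1 | h1
  · have h2 : MvPolynomial.aeval q f.prod = (f.map (MvPolynomial.aeval q)).prod :=
      map_multiset_prod _ _
    rw [h2] at h1
    obtain ⟨B, hB, hAB⟩ := hA.prime.exists_mem_multiset_map_dvd h1
    exact ⟨B, hf B hB, (Multiset.dvd_prod hB).trans (by rw [← hu]; exact dvd_mul_right _ _), hAB⟩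
  · exact absurd (isUnit_of_dvd_unit h1 (u.isUnit.map _)) hA.not_isUnit

theorem pf_inj {e : ℕ} {u : EX n e → L} (h : pf u = 0) : u = 0 := by
  funext K
  have h1 := coeff_pf u K.1
  rw [h, MvPolynomial.coeff_zero, ex_coe] at h1
  exact h1.symm

/-- the multiples of a form in a space of forms -/
noncomputable def dvB {m : ℕ} (B : MvPolynomial (Fin n) L) (K : Submodule L (EX n m → L)) :
    Submodule L (EX n m → L) where
  carrier := {u | u ∈ K ∧ B ∣ pf u}
  add_mem' := by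
    rintro a b ⟨h1, h2⟩ ⟨h3, h4⟩
    refine ⟨K.add_mem h1 h3, ?_⟩
    rw [pf_add]
    exact dvd_add h2 h4
  zero_mem' := by
    refine ⟨K.zero_mem, ?_⟩
    rw [pf_zero]
    exact dvd_zero _
  smul_mem' := by
    rintro c a ⟨h1, h2⟩
    refine ⟨K.smul_mem c h1, ?_⟩
    rw [pf_smul]
    exact dvd_mul_of_dvd_right h2 _

theorem mem_dvB {m : ℕ} {B : MvPolynomial (Fin n) L} {K : Submodule L (EX n m → L)}
    {u : EX n m → L} : u ∈ dvB B K ↔ u ∈ K ∧ B ∣ pf u := Iff.rfl

/-- multiplication by a form -/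
noncomputable def mulV (B : MvPolynomial (Fin n) L) (s m : ℕ) :
    (EX n s → L) →ₗ[L] (EX n m → L) where
  toFun g := fun K => (B * pf g).coeff K.1
  map_add' g g' := by
    funext K
    rw [pf_add, mul_add, MvPolynomial.coeff_add]
    rfl
  map_smul' c g := by
    funext K
    rw [pf_smul, mul_left_comm, MvPolynomial.coeff_C_mul]
    rfl

theorem finrank_dvB_le {b m : ℕ} {B : MvPolynomial (Fin n) L} (hB : B.IsHomogeneous b)
    (hB0 : B ≠ 0) (K : Submodule L (EX n m → L)) :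
    finrank L (dvB B K) ≤ Fintype.card (EX n (m - b)) := by
  have h1 : dvB B K ≤ LinearMap.range (mulV B (m - b) m) := by
    rintro u ⟨-, Q, hQ⟩
    by_cases h0 : pf u = 0
    · rw [pf_inj h0]
      exact Submodule.zero_mem _
    obtain ⟨a, e, hs, ha, he⟩ := hom_of_mul (hQ ▸ pf_hom u) (hQ ▸ h0)
    have hab : a = b := ha.inj_right hB hB0
    have hem : e = m - b := by omega
    subst hem
    refine ⟨fun K => Q.coeff K.1, ?_⟩
    funext K
    show (B * pf fun K : EX n (m - b) => Q.coeff K.1).coeff K.1 = u K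
    rw [pf_coeff he, ← hQ, coeff_pf, ex_coe]
  refine (Submodule.finrank_mono h1).trans ((LinearMap.finrank_range_le _).trans (le_of_eq ?_))
  rw [Module.finrank_fintype_fun_eq_card]

end

section

variable {κ L : Type*} [Field κ] [IsAlgClosed κ] [CharZero κ] [Field L] [Algebra κ L]

private theorem card_diff {m b : ℕ} (hb : b ≤ m) :
    6 * Fintype.card (EX 4 (m - b)) + b * m ^ 2 ≤ 6 * Fintype.card (EX 4 m) := by
  rw [card_EX4, card_EX4]
  obtain ⟨e, rfl⟩ := Nat.exists_eq_add_of_le hb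
  have h1 : b + e - b = e := by omega
  rw [h1]
  nlinarith only [Nat.zero_le (b * e), Nat.zero_le (b * b), Nat.zero_le (b * e * e),
    Nat.zero_le (b * b * e), Nat.zero_le (b * b * b)]

/-- **A large space of forms in four variables which vanish on a curve** has height at least
`m ^ 2 / 24` times the height of the curve. -/
theorem elim4 (h : IsFF κ L) {m c bs : ℕ} {A : L[X][X]} (hA : Irreducible A)
    (hAY : ¬ A ∣ derivative A) {q : Fin 4 → L[X][X]} (hq1 : q 1 = derivative A)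
    (hq2 : q 2 = C X * derivative A) (hq3 : q 3 = X * derivative A) (hm : 1 ≤ m)
    {K : Submodule L (EX 4 m → L)} (hK : K ≤ VI A q m)
    (hc : Fintype.card (EX 4 m) ≤ finrank L K + c) (hbs : ∀ e ≤ bs, VI A q e = ⊥)
    (hc1 : 12 * c ≤ (bs + 1) * m ^ 2) (hc2 : 42 * c ≤ m ^ 3) :
    (m : ℤ) ^ 2 * gh κ A ≤ 24 * (ht κ K + Fintype.card (EX 4 m) * (genus κ L + 1)) := by
  classical
  obtain ⟨N, hN⟩ : ∃ N : ℕ, N = Fintype.card (EX 4 m) := ⟨_, rfl⟩
  obtain ⟨r, hr⟩ : ∃ r : ℕ, r = finrank L K := ⟨_, rfl⟩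
  have hN6 : 6 * N = (m + 1) * (m + 2) * (m + 3) := by rw [hN]; exact card_EX4 m
  rw [← hN, ← hr] at hc
  rw [← hN]
  have hm3 : m ^ 3 ≤ (m + 1) * (m + 2) * (m + 3) := by
    have h1 : m ^ 3 = m * m * m := by ring
    rw [h1]
    exact Nat.mul_le_mul (Nat.mul_le_mul (by omega) (by omega)) (by omega)
  have hr7 : m ^ 3 ≤ 7 * r := by omega
  have hm31 : 1 ≤ m ^ 3 := Nat.one_le_pow _ _ hm
  have hr1 : 1 ≤ r := by omega
  have hrN : r ≤ N := by
    rw [hr, hN]
    refine (Submodule.finrank_le K).trans (le_of_eq ?_)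
    rw [Module.finrank_fintype_fun_eq_card]
  have hht : 0 ≤ ht κ K := ht_nonneg h K
  have hg0 : (0 : ℤ) ≤ genus κ L := Int.natCast_nonneg _
  have hNg : (0 : ℤ) ≤ N * (genus κ L + 1) := by (clear * -; positivity)
  -- the trivial case
  rcases le_or_gt (gh κ A) 0 with hα | hα
  · have h1 : (m : ℤ) ^ 2 * gh κ A ≤ 0 := mul_nonpos_of_nonneg_of_nonpos (by positivity) hα
    linarith only [hht, hNg, h1]
  -- a small form
  have hKne : (⊥ : Submodule L (EX 4 m → L)) ≠ K := by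
    intro h0
    rw [← h0, finrank_bot] at hr
    omega
  obtain ⟨v, hvK, hv0, g, ⟨hgf, hg⟩, hle⟩ := rel_vec h bot_le hKne
  rw [← hr, finrank_bot, ht_bot h] at hle
  simp only [Nat.cast_zero, sub_zero] at hle
  have hv0' : v ≠ 0 := fun h0 => hv0 (by rw [h0]; exact Submodule.zero_mem _)
  have hP0 : pf v ≠ 0 := fun h0 => hv0' (pf_inj h0)
  have hαP : polyHeight κ (pf v) ≤ ∑ᶠ w, g w := by
    rw [polyHeight_eq]
    refine finsum_mono (nrm_support h hP0) hgf fun w => ?_
    obtain ⟨u, hu, hug⟩ := hg w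
    have huv : u = v := sub_eq_zero.1 ((Submodule.mem_bot L).1 hu)
    rw [huv] at hug
    have h1 : nrm w.1 (pf v) ≤ exp (g w) := nrm_le w.1 (coeff_pf_le w.1 hug)
    have h2 := (log_le_log (nrm_ne_zero w.1 hP0) exp_ne_zero).2 h1
    rwa [log_exp] at h2
  -- the irreducible factor
  obtain ⟨B, hBi, hBP, hAB⟩ := exists_factor hA hP0 (mem_VI.1 (hK hvK))
  have hαB : polyHeight κ B ≤ ∑ᶠ w, g w := (polyHeight_le_of_dvd h hP0 hBP).trans hαP
  obtain ⟨Q, hQ⟩ := hBP
  obtain ⟨b, e, hbe, hBh, -⟩ := hom_of_mul (hQ ▸ pf_hom v) (hQ ▸ hP0)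
  have hbm : b ≤ m := by omega
  have hbbs : bs < b := by
    by_contra hcon
    have h1 := hbs b (by omega)
    have h2 : (fun I : EX 4 b => B.coeff I.1) ∈ VI A q b := by
      rw [mem_VI, pf_coeff hBh]
      exact hAB
    rw [h1, Submodule.mem_bot] at h2
    have h3 := pf_coeff hBh
    rw [h2, pf_zero] at h3
    exact hBi.ne_zero h3.symm
  have hmz : (1 : ℤ) ≤ m := by exact_mod_cast hm
  have hrz : (1 : ℤ) ≤ r := by exact_mod_cast hr1
  have hrNz : (r : ℤ) ≤ N := by exact_mod_cast hrN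
  have hr7z : (m : ℤ) ^ 3 ≤ 7 * r := by exact_mod_cast hr7
  have hrg : (r : ℤ) * (genus κ L + 1) ≤ N * (genus κ L + 1) :=
    mul_le_mul_of_nonneg_right hrNz (by linarith only [])
  rcases lt_or_ge (gh κ A) (2 * m * ∑ᶠ w, g w) with hsm | hsm
  · -- the form is not small
    have h1 : (m : ℤ) ^ 3 * gh κ A ≤ 7 * r * gh κ A := mul_le_mul_of_nonneg_right hr7z hα.le
    have h2 : 7 * (r : ℤ) * gh κ A ≤ 7 * r * (2 * m * ∑ᶠ w, g w) :=
      mul_le_mul_of_nonneg_left hsm.le (by (clear * - hr1; positivity))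
    have h3 : 7 * (r : ℤ) * (2 * m * ∑ᶠ w, g w) = 14 * m * (r * ∑ᶠ w, g w) := by ring
    have h4 : 14 * (m : ℤ) * (r * ∑ᶠ w, g w) ≤ 14 * m * (ht κ K + N * (genus κ L + 1)) :=
      mul_le_mul_of_nonneg_left (by linarith only [hle, hrg]) (by positivity)
    have h5 : (m : ℤ) * ((m : ℤ) ^ 2 * gh κ A) ≤
        m * (14 * (ht κ K + N * (genus κ L + 1))) := by
      have h6 : (m : ℤ) * ((m : ℤ) ^ 2 * gh κ A) = (m : ℤ) ^ 3 * gh κ A := by ring
      rw [h6]
      linarith only [h1, h2, h4]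
    have h6 := le_of_mul_le_mul_left h5 (by linarith only [hm])
    linarith only [hht, hNg, h6]
  · -- the form is small
    have hKB : dvB B K ≤ K := fun u hu => hu.1
    obtain ⟨s, hs⟩ : ∃ s : ℕ, s = finrank L (dvB B K) := ⟨_, rfl⟩
    have hsr : s ≤ r := by rw [hs, hr]; exact Submodule.finrank_mono hKB
    have hsb : s ≤ Fintype.card (EX 4 (m - b)) := by
      rw [hs]
      exact finrank_dvB_le hBh hBi.ne_zero K
    have hdist : ∀ u ∈ K, u ∉ dvB B K → ∀ g' : Place κ L → ℤ, DistLE κ (dvB B K) u g' →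
        gh κ A ≤ (2 * b : ℕ) * ∑ᶠ w, g' w := by
      rintro u huK huB g' ⟨hg'f, hg'⟩
      have hnd : ¬ B ∣ pf u := fun h0 => huB ⟨huK, h0⟩
      obtain ⟨b', hb', hres⟩ := res_curve h hBh hBi (pf_hom u) hbm hm hnd hA hAY hq1 hq2 hq3 hAB
        (mem_VI.1 (hK huK)) hg'f fun w => by
          obtain ⟨u', hu', hle'⟩ := hg' w
          obtain ⟨Q', hQ'⟩ := hu'.2
          have e1 : pf u' = pf u + pf (u' - u) := by
            rw [← pf_add, add_sub_cancel]
          have hnrm : nrm w.1 (pf u') ≤ exp (g' w) := nrm_le w.1 (coeff_pf_le w.1 hle')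
          by_cases h0 : pf (u' - u) = 0
          · refine ⟨0, MvPolynomial.isHomogeneous_zero _ _ _, ?_⟩
            rw [zero_mul, add_zero]
            rwa [e1, h0, add_zero] at hnrm
          · obtain ⟨a₁, e₁, hs₁, ha₁, he₁⟩ := hom_of_mul (hQ' ▸ pf_hom (u' - u)) (hQ' ▸ h0)
            have hab : a₁ = b := ha₁.inj_right hBh hBi.ne_zero
            have hem : e₁ = m - b := by omega
            refine ⟨Q', hem ▸ he₁, ?_⟩
            rwa [mul_comm Q' B, ← hQ', ← e1]
      have h1 : (m : ℤ) * polyHeight κ B ≤ m * ∑ᶠ w, g w :=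
        mul_le_mul_of_nonneg_left hαB (by linarith only [hm])
      have h2 : gh κ A ≤ 2 * (b' * ∑ᶠ w, g' w) := by linarith only [hsm, hres, h1]
      have h3 : 0 < ∑ᶠ w, g' w := by
        by_contra hcon
        push Not at hcon
        have h4 : (b' : ℤ) * ∑ᶠ w, g' w ≤ 0 :=
          mul_nonpos_of_nonneg_of_nonpos (Int.natCast_nonneg _) hcon
        linarith only [hα, hsm, hres, h1, h4]
      have h4 : (b' : ℤ) * ∑ᶠ w, g' w ≤ b * ∑ᶠ w, g' w :=
        mul_le_mul_of_nonneg_right (by exact_mod_cast hb') h3.le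
      push_cast
      linarith only [hsm, hres, h1, h4]
    have hmain := ht_ge_of_dist h hKB hdist
    rw [← hr, ← hs] at hmain
    have hhs : 0 ≤ ht κ (dvB B K) := ht_nonneg h _
    have hcd := card_diff hbm
    rw [← hN] at hcd
    have hbbs' : (bs + 1) * m ^ 2 ≤ b * m ^ 2 := Nat.mul_le_mul_right _ hbbs
    have hdim : b * m ^ 2 ≤ 12 * (r - s) := by omega
    obtain ⟨t, ht'⟩ : ∃ t : ℕ, r = s + t := ⟨r - s, by omega⟩
    have hts : r - s = t := by omega
    rw [hts] at hdim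
    have htz : (r : ℤ) - s = t := by rw [ht']; push_cast; ring
    rw [htz] at hmain
    have htN : (t : ℤ) ≤ N := by
      have : t ≤ N := by omega
      exact_mod_cast this
    have hb1 : (0 : ℤ) < b := by
      have : 0 < b := by omega
      exact_mod_cast this
    have hdimz : (b : ℤ) * (m : ℤ) ^ 2 ≤ 12 * t := by exact_mod_cast hdim
    have h1 : (b : ℤ) * (m : ℤ) ^ 2 * gh κ A ≤ 12 * t * gh κ A :=
      mul_le_mul_of_nonneg_right hdimz hα.le
    have h2 : (t : ℤ) * (genus κ L + 1) ≤ N * (genus κ L + 1) :=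
      mul_le_mul_of_nonneg_right htN (by linarith only [])
    have h3 : ((2 * b : ℕ) : ℤ) * (ht κ K - ht κ (dvB B K) + t * (genus κ L + 1)) ≤
        (2 * b : ℕ) * (ht κ K + N * (genus κ L + 1)) :=
      mul_le_mul_of_nonneg_left (by linarith only [hhs, h2]) (Int.natCast_nonneg _)
    push_cast at h3 hmain
    have h4 : (b : ℤ) * ((m : ℤ) ^ 2 * gh κ A) ≤ b * (24 * (ht κ K + N * (genus κ L + 1))) := by
      have e1 : (b : ℤ) * ((m : ℤ) ^ 2 * gh κ A) = b * (m : ℤ) ^ 2 * gh κ A := by ring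
      have e2 : (b : ℤ) * (24 * (ht κ K + N * (genus κ L + 1))) =
          12 * (2 * b * (ht κ K + N * (genus κ L + 1))) := by ring
      rw [e1, e2]
      linarith only [h1, h3, hmain]
    exact le_of_mul_le_mul_left h4 hb1

end

end Pool.Agent.Lib.MP_44a246_ntSH
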