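import Mathlib
import Pool.Agent.Lib.MP_44a246_ntSH.EL02
import Pool.Agent.Lib.MP_44a246_ntSH.EL03a
import Pool.Agent.Lib.MP_44a246_ntSH.PR07

/-!
SHARP PAIRS (paper 667), (4.2): no form of small degree in `z' γ, 1, X, Y` vanishes on the curve.
-/

namespace Pool.Agent.Lib.MP_44a246_ntSH

open Pool.Agent.Lib.MP_e52354_nt
open Pool.Agent.Lib.MP_44a246_nt
open Pool.Agent.Lib.MP_44a246_ntL
open Pool.Agent.Lib.MP_44a246_ntS
open Pool.Agent.Lib.MP_44a246_ntF
open Pool.Agent.Lib.MP_44a246_ntW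
open Pool.Agent.Lib.MP_44a246_ntG
open Pool.Agent.Lib.MP_44a246_ntE
open Pool.Agent.Lib.MP_44a246_ntR (genus)
open WithZero Polynomial Module

section

variable {κ L : Type*} [Field κ] [IsAlgClosed κ] [CharZero κ] [Field L] [CharZero L]
  [Algebra κ L]

theorem card_EX4_mono {e e' : ℕ} (h : e ≤ e') :
    Fintype.card (EX 4 e) ≤ Fintype.card (EX 4 e') := by
  have h1 := card_EX4 e
  have h2 := card_EX4 e'
  have h3 : (e + 1) * (e + 2) * (e + 3) ≤ (e' + 1) * (e' + 2) * (e' + 3) :=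
    Nat.mul_le_mul (Nat.mul_le_mul (by omega) (by omega)) (by omega)
  omega

/-- **(4.2).** No form of degree at most `bs` in the four coordinates vanishes on the curve. -/
theorem no_small_form (h : IsFF κ L) {n d₀ b N bs : ℕ} {C₀ : ℝ} (X : DatG κ (L := L) n d₀)
    {A : L[X][X]} (hA : CrvE X b A) (hpos : 0 < height κ X.x) (P : DatP κ (L := L) n)
    (hPx : P.x = X.x) {c : Fin 4 → Fin (n + 1) → κ} (hc0 : c 0 = P.z')
    (hc1 : ∀ j, c 1 j = (P.ξ₀ j : κ)) (hc2 : ∀ j, c 2 j = (P.ξ₁ j : κ)) (hc3 : c 3 = P.z)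
    (hN : Fintype.card (EX 4 bs) ≤ N) (hC₀ : 0 ≤ C₀)
    (hsl : ∀ Q : Submodule L (Fin (n + 1) → L), X.x ∈ Q →
      n * ((height κ X.x : ℝ) - ht κ Q) ≤ C₀ * height κ X.x * ((finrank L Q : ℝ) - 1))
    (hn : 2 * C₀ * N < n) {β : ℤ}
    (hβ : β = N * (bs * gh κ A + genus κ L + 1) + genus κ L + 1)
    (h1 : bs * gh κ A + A.natDegree * β < height κ X.x)
    (h2 : 2 * (N * (2 * β + P.Δ)) ≤ height κ X.x) :
    ∀ e ≤ bs, VI A (B4 (fun i j => algebraMap κ L (c i j)) (X.B A)) e = ⊥ := by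
  classical
  by_contra hcon
  push Not at hcon
  obtain ⟨q, hq⟩ : ∃ q : Fin 4 → L[X][X],
    q = B4 (fun i j => algebraMap κ L (c i j)) (X.B A) := ⟨_, rfl⟩
  rw [← hq] at hcon
  -- the smallest degree
  have hex : ∃ e, e ≤ bs ∧ VI A q e ≠ ⊥ := by
    obtain ⟨e, he, hne⟩ := hcon
    exact ⟨e, he, hne⟩
  obtain ⟨he, hne⟩ := Nat.find_spec hex
  have hmin := fun e' (he' : e' < Nat.find hex) => Nat.find_min hex he'
  obtain ⟨e, hed⟩ : ∃ e, e = Nat.find hex := ⟨_, rfl⟩
  rw [← hed] at he hne hmin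
  have hα : 0 ≤ gh κ A := gh_nonneg h hA.irr.ne_zero
  have hg0 : (0 : ℤ) ≤ genus κ L := Int.natCast_nonneg _
  have hm1 : (1 : ℤ) ≤ A.natDegree := by
    have : 1 ≤ A.natDegree := Nat.one_le_iff_ne_zero.2 hA.deg
    exact_mod_cast this
  have hez : (e : ℤ) ≤ bs := by exact_mod_cast he
  have hcard : (Fintype.card (EX 4 e) : ℤ) ≤ N := by
    exact_mod_cast (card_EX4_mono he).trans hN
  have hbsα : (e : ℤ) * gh κ A ≤ bs * gh κ A := mul_le_mul_of_nonneg_right hez hα
  -- the height of the space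
  have hht : ht κ (VI A q e) ≤ N * (bs * gh κ A + genus κ L + 1) := by
    have k1 := ht_VI4_le h X hA hpos c e
    rw [← hq] at k1
    have k2 : (0 : ℤ) ≤ e * gh κ A + A.natDegree * (genus κ L + 1) := by (clear * - hα hm1; positivity)
    have k3 : ((Fintype.card (EX 4 e) : ℤ) - finrank L (VI A q e)) ≤ N := by
      have : (0 : ℤ) ≤ finrank L (VI A q e) := Int.natCast_nonneg _
      linarith only [hcard]
    have k4 : ((Fintype.card (EX 4 e) : ℤ) - finrank L (VI A q e)) *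
        (e * gh κ A + A.natDegree * (genus κ L + 1)) ≤
        N * (e * gh κ A + A.natDegree * (genus κ L + 1)) := mul_le_mul_of_nonneg_right k3 k2
    have k5 : (e : ℤ) * gh κ A ≤ A.natDegree * (bs * gh κ A) := by
      have k6 : (0 : ℤ) ≤ bs * gh κ A := by positivity
      nlinarith only [hbsα, hm1, k6]
    have k6 : (N : ℤ) * (e * gh κ A + A.natDegree * (genus κ L + 1)) ≤
        A.natDegree * (N * (bs * gh κ A + genus κ L + 1)) := by
      have k7 : (N : ℤ) * (e * gh κ A) ≤ N * (A.natDegree * (bs * gh κ A)) :=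
        mul_le_mul_of_nonneg_left k5 (Int.natCast_nonneg _)
      linarith
    exact le_of_mul_le_mul_left (k1.trans (k4.trans k6)) (by linarith)
  -- a small form
  obtain ⟨f, hf, hf0, g, ⟨hgf, hg⟩, hle⟩ := rel_vec h bot_le (Ne.symm hne)
  have hf0' : f ≠ 0 := fun h0 => hf0 (by rw [h0]; exact Submodule.zero_mem _)
  have hP0 : pf f ≠ 0 := fun h0 => hf0' (pf_inj h0)
  rw [finrank_bot, ht_bot h] at hle
  simp only [Nat.cast_zero, sub_zero] at hle
  obtain ⟨r, hr⟩ : ∃ r : ℕ, r = finrank L (VI A q e) := ⟨_, rfl⟩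
  have hr1 : (1 : ℤ) ≤ r := by
    have : 0 < r := by
      rw [hr]
      exact Submodule.one_le_finrank_iff.2 hne
    exact_mod_cast this
  rw [← hr] at hle
  have hβ0 : 0 ≤ (N : ℤ) * (bs * gh κ A + genus κ L + 1) := by (clear * - hα; positivity)
  have hσ : ∑ᶠ w, g w ≤ β := by
    rcases le_or_gt (∑ᶠ w, g w - (genus κ L + 1)) 0 with h0 | h0
    · rw [hβ]
      linarith only [hβ0, h0]
    · have k1 : ∑ᶠ w, g w - (genus κ L + 1) ≤ r * (∑ᶠ w, g w - (genus κ L + 1)) := by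
        nlinarith only [hr1, h0]
      rw [hβ]
      linarith only [hht, hle, k1]
  have hαP : polyHeight κ (pf f) ≤ β := by
    refine le_trans ?_ hσ
    rw [polyHeight_eq]
    refine finsum_mono (nrm_support h hP0) hgf fun w => ?_
    obtain ⟨u, hu, hug⟩ := hg w
    have huv : u = f := sub_eq_zero.1 ((Submodule.mem_bot L).1 hu)
    rw [huv] at hug
    have k1 : nrm w.1 (pf f) ≤ exp (g w) := nrm_le w.1 (coeff_pf_le w.1 hug)
    have k2 := (log_le_log (nrm_ne_zero w.1 hP0) exp_ne_zero).2 k1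
    rwa [log_exp] at k2
  -- the four coordinates
  have hp4 : (fun i => ∑ j, algebraMap κ L (c i j) * X.x j) = P.p4 := by
    funext i
    fin_cases i
    · show ∑ j, algebraMap κ L (c 0 j) * X.x j = P.p4 0
      rw [hc0, ← hPx]
      rfl
    · show ∑ j, algebraMap κ L (c 1 j) * X.x j = P.p4 1
      have e1 : P.p4 1 = 1 := rfl
      rw [e1, ← P.h0, ← hPx]
      refine Finset.sum_congr rfl fun j _ => ?_
      rw [hc1, map_natCast]
    · show ∑ j, algebraMap κ L (c 2 j) * X.x j = P.p4 2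
      have e1 : P.p4 2 = ∑ j, (P.ξ₁ j : L) * P.x j := rfl
      rw [e1, ← hPx]
      refine Finset.sum_congr rfl fun j _ => ?_
      rw [hc2, map_natCast]
    · show ∑ j, algebraMap κ L (c 3 j) * X.x j = P.p4 3
      rw [hc3, ← hPx]
      rfl
  have hev : MvPolynomial.eval P.p4 (pf f) = 0 := by
    rw [hq] at hf
    have k1 := eval_of_mem_VI4 X hA.toCrvG hf
    rwa [hp4] at k1
  have hβm : β ≤ A.natDegree * β := by
    have : 0 ≤ β := by rw [hβ]; linarith only [hβ0]
    nlinarith only [hβ, hm1, hβ0]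
  have hbs0 : (0 : ℤ) ≤ bs * gh κ A := by (clear * - hα; positivity)
  obtain ⟨Q, hxQ, hQd, hQh⟩ := P.a5 h (pf_hom f) hP0 hev (fun e' he' F hF hF0 hFh hev' => by
    have hnd : ¬ A ∣ MvPolynomial.aeval
        (fun i => ∑ j, C (C (algebraMap κ L (c i j))) * X.B A j) F := by
      intro hdv
      refine hmin e' he' ⟨by omega, ?_⟩
      intro h0
      have k1 : (fun I : EX 4 e' => F.coeff I.1) ∈ VI A q e' := by
        rw [mem_VI, pf_coeff hF, hq]
        exact hdv
      rw [h0, Submodule.mem_bot] at k1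
      have k2 := pf_coeff hF
      rw [k1, pf_zero] at k2
      exact hF0 k2.symm
    have k1 := bezout4_zero h X hA hpos c hF hF0 hnd (by rw [hp4]; exact hev')
    have k2 : (e' : ℤ) * gh κ A ≤ bs * gh κ A := by
      refine mul_le_mul_of_nonneg_right ?_ hα
      have : e' ≤ bs := by omega
      exact_mod_cast this
    have k3 : (A.natDegree : ℤ) * polyHeight κ F ≤ A.natDegree * β :=
      mul_le_mul_of_nonneg_left (hFh.trans hαP) (by linarith only [hm1])
    linarith only [h1, k1, k2, k3]) (by rw [hPx]; linarith)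
  rw [hPx] at hxQ
  have hΔ : 0 ≤ P.Δ := finsum_nonneg fun w => Int.natCast_nonneg _
  have hpol : 0 ≤ polyHeight κ (pf f) := polyHeight_nonneg h hP0
  have k1 : ht κ Q ≤ N * (2 * β + P.Δ) :=
    hQh.trans (mul_le_mul hcard (by linarith) (by linarith only [hΔ, hpol]) (Int.natCast_nonneg _))
  have k2 : 2 * ht κ Q ≤ height κ X.x := by linarith only [h2, k1]
  have k2r : 2 * (ht κ Q : ℝ) ≤ height κ X.x := by exact_mod_cast k2
  have hHr : (0 : ℝ) < height κ X.x := by exact_mod_cast hpos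
  have k3 := hsl Q hxQ
  have k4 : (finrank L Q : ℝ) ≤ N := by
    have k5 : finrank L Q ≤ N := hQd.trans ((card_EX4_mono he).trans hN)
    exact_mod_cast k5
  have k5 : (n : ℝ) * height κ X.x ≤ 2 * (n * ((height κ X.x : ℝ) - ht κ Q)) := by
    have : (0 : ℝ) ≤ n := Nat.cast_nonneg _
    nlinarith only [k2r]
  have k6 : C₀ * height κ X.x * ((finrank L Q : ℝ) - 1) ≤ C₀ * height κ X.x * N :=
    mul_le_mul_of_nonneg_left (by linarith) (by positivity)
  have k7 : (n : ℝ) * height κ X.x ≤ 2 * C₀ * N * height κ X.x := by linarith only [k3, k5, k6]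
  have k8 := le_of_mul_le_mul_right k7 hHr
  linarith only [hn, k8]

end

end Pool.Agent.Lib.MP_44a246_ntSH
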