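import Mathlib
import Pool.Agent.Lib.MP_44a246_ntSH.PR07
import Pool.Agent.Lib.MP_44a246_ntSH.PR04
import Pool.Agent.Lib.MP_44a246_ntSH.EL02

/-!
SHARP PAIRS (paper 667), (4.1) and the end of section 4: the space `K` of the forms in four
variables which vanish on the curve and whose derivations do not move the curve; its height and its
codimension; the height of the curve.
-/

namespace Pool.Agent.Lib.MP_44a246_ntSH

open Pool.Agent.Lib.MP_e52354_nt
open Pool.Agent.Lib.MP_44a246_nt
open Pool.Agent.Lib.MP_44a246_ntL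
open Pool.Agent.Lib.MP_44a246_ntS
open Pool.Agent.Lib.MP_44a246_ntA
open Pool.Agent.Lib.MP_44a246_ntF
open Pool.Agent.Lib.MP_44a246_ntW
open Pool.Agent.Lib.MP_44a246_ntG
open Pool.Agent.Lib.MP_44a246_ntR (genus)
open WithZero Polynomial Module

section algebra

variable {κ L : Type*} [Field κ] [Field L] [Algebra κ L] {k n p : ℕ} {d : Fin p → ℕ}

/-- the matrix of the substitution into the block `j₀` -/
noncomputable def bq (c : Fin k → Fin n → κ) (d : Fin p → ℕ) (j₀ : Fin p) :
    Matrix (Σ j, EX n (d j)) (EX k (d j₀)) κ :=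
  Matrix.of fun s J => if s.1 = j₀ then (lp c J.1).coeff s.2.1 else 0

/-- the substitution into the block `j₀` -/
noncomputable def bsub (L : Type*) [Field L] [Algebra κ L] (c : Fin k → Fin n → κ)
    (d : Fin p → ℕ) (j₀ : Fin p) : (EX k (d j₀) → L) →ₗ[L] ((Σ j, EX n (d j)) → L) :=
  ((bq c d j₀).map (algebraMap κ L)).mulVecLin

theorem bk_bsub (c : Fin k → Fin n → κ) (j₀ : Fin p) (f : EX k (d j₀) → L) :
    bk (bsub L c d j₀ f) j₀ = lsub L c (d j₀) f := by
  funext K
  unfold bk bsub bq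
  rw [lsub_apply, Matrix.mulVecLin_apply, Matrix.mulVec_eq_sum, Finset.sum_apply]
  refine Finset.sum_congr rfl fun J _ => ?_
  simp [mul_comm]

theorem bk_bsub_ne (c : Fin k → Fin n → κ) {j j₀ : Fin p} (h : j ≠ j₀) (f : EX k (d j₀) → L) :
    bk (bsub L c d j₀ f) j = 0 := by
  funext K
  unfold bk bsub bq
  rw [Matrix.mulVecLin_apply, Matrix.mulVec_eq_sum, Finset.sum_apply]
  refine Finset.sum_eq_zero fun J _ => ?_
  simp [h]

theorem bsub_mem_IId (c : Fin k → Fin n → κ) {j₀ : Fin p} {A : L[X][X]} {B : Fin n → L[X][X]}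
    {f : EX k (d j₀) → L} :
    bsub L c d j₀ f ∈ IId A B d ↔
      f ∈ VI A (B4 (fun i j => algebraMap κ L (c i j)) B) (d j₀) := by
  rw [mem_IId, ← lsub_mem_VI]
  constructor
  · intro h
    have h1 := h j₀
    have h2 := bk_bsub (d := d) c j₀ f
    unfold bk at h2
    rwa [h2] at h1
  · intro h j
    by_cases hj : j = j₀
    · subst hj
      have h2 := bk_bsub (d := d) c j f
      unfold bk at h2
      rwa [h2]
    · have h2 := bk_bsub_ne c hj f
      unfold bk at h2
      rw [h2]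
      exact Submodule.zero_mem _

/-- the space `K` -/
noncomputable def KK (c : Fin k → Fin n → κ) (j₀ : Fin p) (A : L[X][X]) (B : Fin n → L[X][X])
    (D : (Σ j, EX n (d j)) → Derivation ℤ L L) : Submodule L (EX k (d j₀) → L) :=
  (ZF A B D ⊓ IId A B d).comap (bsub L c d j₀)

theorem KK_le (c : Fin k → Fin n → κ) (j₀ : Fin p) (A : L[X][X]) (B : Fin n → L[X][X])
    (D : (Σ j, EX n (d j)) → Derivation ℤ L L) :
    KK c j₀ A B D ≤ VI A (B4 (fun i j => algebraMap κ L (c i j)) B) (d j₀) :=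
  fun _ hf => (bsub_mem_IId c).1 hf.2

/-- the codimension of a preimage -/
theorem codim_comap {E F : Type*} [AddCommGroup E] [Module L E] [FiniteDimensional L E]
    [AddCommGroup F] [Module L F] [FiniteDimensional L F] (φ : E →ₗ[L] F) (S : Submodule L F) :
    finrank L E + finrank L S ≤ finrank L (S.comap φ) + finrank L F := by
  have h1 := (S.mkQ.comp φ).finrank_range_add_finrank_ker
  rw [LinearMap.ker_comp, Submodule.ker_mkQ] at h1
  have h2 : finrank L (LinearMap.range (S.mkQ.comp φ)) ≤ finrank L (F ⧸ S) :=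
    Submodule.finrank_le _
  have h3 := Submodule.finrank_quotient_add_finrank S
  omega

theorem KK_codim (c : Fin k → Fin n → κ) (j₀ : Fin p) (A : L[X][X]) (B : Fin n → L[X][X])
    (D : (Σ j, EX n (d j)) → Derivation ℤ L L) {u v : ℕ}
    (hu : Fintype.card (Σ j, EX n (d j)) ≤ finrank L (ZF A B D) + u)
    (hv : Fintype.card (EX k (d j₀)) ≤
      finrank L (VI A (B4 (fun i j => algebraMap κ L (c i j)) B) (d j₀)) + v) :
    Fintype.card (EX k (d j₀)) ≤ finrank L (KK c j₀ A B D) + (u + v) := by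
  have h1 : KK c j₀ A B D = (ZF A B D).comap (bsub L c d j₀) ⊓
      VI A (B4 (fun i j => algebraMap κ L (c i j)) B) (d j₀) := by
    ext f
    constructor
    · exact fun h => ⟨h.1, (bsub_mem_IId c).1 h.2⟩
    · exact fun h => ⟨h.1, (bsub_mem_IId c).2 h.2⟩
  have h2 := Submodule.finrank_sup_add_finrank_inf_eq ((ZF A B D).comap (bsub L c d j₀))
    (VI A (B4 (fun i j => algebraMap κ L (c i j)) B) (d j₀))
  have h3 := Submodule.finrank_le ((ZF A B D).comap (bsub L c d j₀) ⊔
    VI A (B4 (fun i j => algebraMap κ L (c i j)) B) (d j₀))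
  have h4 := codim_comap (bsub L c d j₀) (ZF A B D)
  rw [Module.finrank_fintype_fun_eq_card] at h3
  rw [Module.finrank_fintype_fun_eq_card, Module.finrank_fintype_fun_eq_card] at h4
  rw [← h1] at h2
  omega

end algebra

section heights

variable {κ L : Type*} [Field κ] [IsAlgClosed κ] [CharZero κ] [Field L] [CharZero L]
  [Algebra κ L]

/-- **(4.1).** -/
theorem ht_KK_le (h : IsFF κ L) {n p d₀ b : ℕ} (X : DatG κ (L := L) n d₀) {A : L[X][X]}
    (hA : CrvE X b A) (hpos : 0 < height κ X.x) {d : Fin p → ℕ} {d' : ℕ} (hd : ∀ j, d j ≤ d')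
    {k : ℕ} (c : Fin k → Fin (n + 1) → κ) (j₀ : Fin p)
    (D : (Σ j, EX (n + 1) (d j)) → Derivation ℤ L L) :
    (A.natDegree : ℤ) * ht κ (KK c j₀ A (X.B A) D) ≤
      A.natDegree * ht κ (ZF A (X.B A) D) +
      ((finrank L (ZF A (X.B A) D) : ℤ) -
        finrank L (ZF A (X.B A) D ⊓ IId A (X.B A) d : Submodule L _)) *
      (d' * gh κ A + A.natDegree * (genus κ L + 1)) := by
  have h1 : ht κ (KK c j₀ A (X.B A) D) ≤
      ht κ (ZF A (X.B A) D ⊓ IId A (X.B A) d : Submodule L _) := ht_comap_const_le h _ _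
  have h2 := ht_sup_inf h (ZF A (X.B A) D) (IId A (X.B A) d)
  have h3 := ht_ge_of_dist h (le_sup_right : IId A (X.B A) d ≤ ZF A (X.B A) D ⊔ IId A (X.B A) d)
    (fun v _ hv g hg => bezout_IId h X hA hpos hd hv hg)
  have h4 := Submodule.finrank_sup_add_finrank_inf_eq (ZF A (X.B A) D) (IId A (X.B A) d)
  have h5 : ((finrank L (ZF A (X.B A) D ⊔ IId A (X.B A) d : Submodule L _) : ℤ) -
      finrank L (IId A (X.B A) d)) = (finrank L (ZF A (X.B A) D) : ℤ) -
        finrank L (ZF A (X.B A) D ⊓ IId A (X.B A) d : Submodule L _) := by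
    have : (finrank L (ZF A (X.B A) D ⊔ IId A (X.B A) d : Submodule L _) : ℤ) +
      finrank L (ZF A (X.B A) D ⊓ IId A (X.B A) d : Submodule L _) =
        finrank L (ZF A (X.B A) D) + finrank L (IId A (X.B A) d) := by exact_mod_cast h4
    linarith
  rw [h5] at h3
  have hm : (0 : ℤ) ≤ A.natDegree := Int.natCast_nonneg _
  have h6 := mul_le_mul_of_nonneg_left h1 hm
  have h7 := mul_le_mul_of_nonneg_left h2 hm
  nlinarith [h3, h6, h7]

end heights

end Pool.Agent.Lib.MP_44a246_ntSH
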