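import Mathlib
import Pool.Agent.Lib.MP_44a246_ntSH.PR08
import Pool.Agent.Lib.MP_44a246_ntSH.EL03

/-!
SHARP PAIRS (paper 667), the end of section 4: the height of the plane curve is bounded by the
errors.
-/

namespace Pool.Agent.Lib.MP_44a246_ntSH

open Pool.Agent.Lib.MP_e52354_nt
open Pool.Agent.Lib.MP_44a246_nt
open Pool.Agent.Lib.MP_44a246_ntL
open Pool.Agent.Lib.MP_44a246_ntS
open Pool.Agent.Lib.MP_44a246_ntA
open Pool.Agent.Lib.MP_44a246_ntF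
open Pool.Agent.Lib.MP_44a246_ntW
open Pool.Agent.Lib.MP_44a246_ntG
open Pool.Agent.Lib.MP_44a246_ntR (genus)
open WithZero Polynomial Module

section numerics

/-- the bound for the height of the space `Z` -/
theorem num_ht_ZF {ρ w W e v' m : ℕ} {g γ Δ hV hZ : ℤ} (hρ : 0 < ρ) (hw : w ≤ W * ρ)
    (hm : 0 < m) (hv' : v' ≤ 2 * (e + 1) * m) (hg : 0 ≤ g) (hγ : 0 ≤ γ) (hΔ : 0 ≤ Δ)
    (hV0 : 0 ≤ hV) {u : ℤ} (hu0 : 0 ≤ u) (hu : u ≤ v') {t : ℤ} (ht0 : 0 ≤ t) (htw : t ≤ w)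
    (h1 : (m : ℤ) * hV ≤ u * (((e + 1 : ℕ) : ℤ) * g + m * γ))
    (h2 : (ρ : ℤ) * hZ ≤ t * (2 * hV + ρ * (Δ + γ))) :
    hZ ≤ 4 * W * (e + 1) * ((e + 1) * g + m * γ) + w * (Δ + γ) := by
  have hm' : (0 : ℤ) < m := by exact_mod_cast hm
  have hρ' : (0 : ℤ) < ρ := by exact_mod_cast hρ
  have hw' : (w : ℤ) ≤ W * ρ := by exact_mod_cast hw
  have hv'' : (v' : ℤ) ≤ 2 * (e + 1) * m := by exact_mod_cast hv'
  push_cast at h1
  have e0 : (0 : ℤ) ≤ (e + 1) * g + m * γ := by positivity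
  have h3 : (m : ℤ) * hV ≤ m * (2 * (e + 1) * ((e + 1) * g + m * γ)) := by
    calc (m : ℤ) * hV ≤ u * (((e : ℤ) + 1) * g + m * γ) := h1
      _ ≤ (2 * (e + 1) * m) * (((e : ℤ) + 1) * g + m * γ) :=
          mul_le_mul_of_nonneg_right (hu.trans hv'') e0
      _ = m * (2 * (e + 1) * ((e + 1) * g + m * γ)) := by ring
  have h4 : hV ≤ 2 * (e + 1) * ((e + 1) * g + m * γ) := le_of_mul_le_mul_left h3 hm'
  have h5 : (ρ : ℤ) * hZ ≤ ρ * (4 * W * (e + 1) * ((e + 1) * g + m * γ) + w * (Δ + γ)) := by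
    have h6 : t * (2 * hV) ≤ W * ρ * (2 * (2 * (e + 1) * ((e + 1) * g + m * γ))) := by
      refine mul_le_mul (htw.trans hw') (by linarith) (by linarith) (by positivity)
    have h7 : t * (ρ * (Δ + γ)) ≤ w * (ρ * (Δ + γ)) :=
      mul_le_mul_of_nonneg_right htw (by positivity)
    calc (ρ : ℤ) * hZ ≤ t * (2 * hV + ρ * (Δ + γ)) := h2
      _ = t * (2 * hV) + t * (ρ * (Δ + γ)) := by ring
      _ ≤ W * ρ * (2 * (2 * (e + 1) * ((e + 1) * g + m * γ))) + w * (ρ * (Δ + γ)) :=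
          add_le_add h6 h7
      _ = ρ * (4 * W * (e + 1) * ((e + 1) * g + m * γ) + w * (Δ + γ)) := by ring
  exact le_of_mul_le_mul_left h5 hρ'

/-- the number of the deformations of the curve given by the forms -/
theorem num_r₂ {r₂ m : ℕ} {H d' g s γ Δ hZ : ℤ} (hH : 0 < H) 
    (hsm : 2 * (d' * g + m * (2 * Δ + s + γ)) ≤ H) (hZs : hZ + Δ ≤ H)
    (h : (r₂ : ℤ) * (H - d' * g - m * (2 * Δ + s + γ)) ≤ m * (hZ + Δ + 2 * H)) :
    r₂ ≤ 6 * m := by
  have hr : (0 : ℤ) ≤ r₂ := Int.natCast_nonneg _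
  have hm : (0 : ℤ) ≤ m := Int.natCast_nonneg _
  have h1 : (r₂ : ℤ) * H ≤ r₂ * (2 * (H - d' * g - m * (2 * Δ + s + γ))) :=
    mul_le_mul_of_nonneg_left (by linarith) hr
  have h2 : (m : ℤ) * (hZ + Δ + 2 * H) ≤ m * (3 * H) :=
    mul_le_mul_of_nonneg_left (by linarith) hm
  have h3 : (r₂ : ℤ) * H ≤ (6 * m : ℤ) * H := by linarith
  have h4 := le_of_mul_le_mul_right h3 hH
  exact_mod_cast h4

end numerics

section main

variable {κ L : Type*} [Field κ] [IsAlgClosed κ] [CharZero κ] [Field L] [CharZero L]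
  [Algebra κ L]

/-- **Section 4 of the paper 667**: the height of the plane curve is bounded by the errors. -/
theorem gh_le_errors (h : IsFF κ L) {n p d₀ b : ℕ} (X : DatG κ (L := L) n d₀) {A : L[X][X]}
    (hA : CrvE X b A) (hAY : ¬ A ∣ derivative A) (hpos : 0 < height κ X.x) {d : Fin p → ℕ}
    {a : (Σ j, EX (n + 1) (d j)) → L} {D : (Σ j, EX (n + 1) (d j)) → Derivation ℤ L L}
    (hDa : ∀ s t, D s (a t) = if s = t then 1 else 0)
    {δ : Place κ L → ℕ} (hδ : (Function.support δ).Finite) (hD : ∀ s, PoleBound κ (D s) δ)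
    (ha : ∀ s (w : Place κ L), w.1 (a s) ≤ exp (δ w : ℤ))
    (hLam : ∀ j, bval X.x j a = 0 → bk a j ∈ VI A (X.B A) (d j))
    (S : Finset (Place κ L))
    (hS : ∀ w ∉ S, ∀ j, bval X.x j a ≠ 0 → vmax w.1 X.x ^ d j ≤ w.1 (bval X.x j a))
    (j₀ : Fin p) (hd : ∀ j, d j ≤ d j₀) (hd1 : 1 ≤ d j₀)
    -- the coordinates of the space
    (P : DatP κ (L := L) n) (hPx : P.x = X.x) (hPz : P.z = X.z) (hP0 : P.ξ₀ = X.ξ₀)
    (hP1 : P.ξ₁ = X.ξ₁) {c : Fin 4 → Fin (n + 1) → κ} (hc0 : c 0 = P.z')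
    (hc1 : ∀ j, c 1 j = (P.ξ₀ j : κ)) (hc2 : ∀ j, c 2 j = (P.ξ₁ j : κ)) (hc3 : c 3 = P.z)
    -- the conormal lemma
    {e : ℕ} (hcon : ∀ F : (Σ j, EX (n + 1) (d j)) → L, F ∉ ZF A (X.B A) D →
      ∃ f ∈ VI A (X.B A) e, (fun K => dF D F (f K)) ∉ VI A (X.B A) e)
    -- the codimensions
    {ρ₀ w v v' W : ℕ} (hρ : ρ₀ + finrank L (dvS A (X.B A)) ≤ n + 1) (hρ0 : 0 < ρ₀)
    (hw : Fintype.card (Σ j, EX (n + 1) (d j)) ≤ finrank L (ZF A (X.B A) D) + w)
    (hv : Fintype.card (EX 4 (d j₀)) ≤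
      finrank L (VI A (B4 (fun i j => algebraMap κ L (c i j)) (X.B A)) (d j₀)) + v)
    (hv' : Fintype.card (EX (n + 1) (e + 1)) ≤ finrank L (VI A (X.B A) (e + 1)) + v')
    (hwW : w ≤ W * ρ₀) (hv'm : v' ≤ 2 * (e + 1) * A.natDegree) (hpm : p + 1 ≤ 2 * A.natDegree)
    -- no form of small degree vanishes on the curve
    {N bs : ℕ} {C₀ : ℝ} (hN : Fintype.card (EX 4 bs) ≤ N) (hC₀ : 0 ≤ C₀)
    (hsl : ∀ Q : Submodule L (Fin (n + 1) → L), X.x ∈ Q →
      n * ((height κ X.x : ℝ) - ht κ Q) ≤ C₀ * height κ X.x * ((finrank L Q : ℝ) - 1))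
    (hn : 2 * C₀ * N < n) {β : ℤ}
    (hβ : β = N * (bs * gh κ A + genus κ L + 1) + genus κ L + 1)
    (hβ1 : bs * gh κ A + A.natDegree * β < height κ X.x)
    (hβ2 : 2 * (N * (2 * β + P.Δ)) ≤ height κ X.x)
    -- the numbers
    (hc1' : 12 * (w + v) ≤ (bs + 1) * d j₀ ^ 2) (hc2' : 42 * (w + v) ≤ d j₀ ^ 3)
    (hbig : 48 * (4 * W * (e + 1) ^ 2 + 8 * d j₀) ≤ d j₀ ^ 2)
    (hsm1 : 2 * (d j₀ * gh κ A + A.natDegree * (2 * (∑ᶠ w, (δ w : ℤ)) + S.card +
      (genus κ L + 1))) ≤ height κ X.x)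
    (hsm2 : 4 * W * (e + 1) * ((e + 1) * gh κ A + A.natDegree * (genus κ L + 1)) +
      w * ((∑ᶠ w, (δ w : ℤ)) + (genus κ L + 1)) + (∑ᶠ w, (δ w : ℤ)) ≤ height κ X.x) :
    ((d j₀ : ℕ) : ℤ) ^ 2 * gh κ A ≤
      48 * (4 * W * (e + 1) * A.natDegree + w + 8 * A.natDegree + Fintype.card (EX 4 (d j₀))) *
        ((∑ᶠ w, (δ w : ℤ)) + (genus κ L + 1)) := by
  have hm : 0 < A.natDegree := Nat.pos_of_ne_zero hA.deg
  have hAp : Prime A := hA.irr.prime
  have hg : 0 ≤ gh κ A := gh_nonneg h hA.irr.ne_zero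
  obtain ⟨γ, hγ⟩ : ∃ γ : ℤ, γ = (genus κ L : ℤ) + 1 := ⟨_, rfl⟩
  have hγ0 : 0 ≤ γ := by rw [hγ]; positivity
  obtain ⟨Δ, hΔ⟩ : ∃ Δ : ℤ, Δ = ∑ᶠ w, (δ w : ℤ) := ⟨_, rfl⟩
  have hΔ0 : 0 ≤ Δ := by rw [hΔ]; exact finsum_nonneg fun w => Int.natCast_nonneg _
  -- the height of `ZF`
  have hV := ht_VI_le h X hA hpos (e + 1)
  have hZ := ht_ZF_le h hδ hD hAp hAY hcon hρ
  rw [← hγ] at hV
  rw [add_assoc, ← hγ, ← hΔ] at hZ
  have hZle : ht κ (ZF A (X.B A) D) ≤ 4 * W * (e + 1) * ((e + 1) * gh κ A +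
      A.natDegree * γ) + w * (Δ + γ) := by
    have c1 : finrank L (VI A (X.B A) (e + 1)) ≤ Fintype.card (EX (n + 1) (e + 1)) := by
      have := Submodule.finrank_le (VI A (X.B A) (e + 1))
      rwa [Module.finrank_fintype_fun_eq_card] at this
    have c2 : finrank L (ZF A (X.B A) D) ≤ Fintype.card (Σ j, EX (n + 1) (d j)) := by
      have := Submodule.finrank_le (ZF A (X.B A) D)
      rwa [Module.finrank_fintype_fun_eq_card] at this
    exact num_ht_ZF hρ0 hwW hm hv'm hg hγ0 hΔ0 (ht_nonneg h _) (by omega) (by omega)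
      (by omega) (by omega) hV hZ
  -- the deformations given by the forms
  obtain ⟨r₂, hr1, hr2⟩ := r2_le h X hA hpos hDa hδ hD ha hLam S hS hd
  rw [show (2 * (∑ᶠ w, (δ w : ℤ)) + (S.card : ℤ) + genus κ L + 1) =
    2 * Δ + S.card + γ by rw [hγ, hΔ]; ring, ← hΔ] at hr2
  rw [← hγ, ← hΔ] at hsm1 hsm2
  have hr3 : r₂ ≤ 6 * A.natDegree := num_r₂ hpos hsm1 (by linarith) hr2
  -- the height of `K`
  have hK := ht_KK_le h X hA hpos hd c j₀ D
  rw [← hγ] at hK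
  have hdiff : ((finrank L (ZF A (X.B A) D) : ℤ) -
      finrank L (ZF A (X.B A) D ⊓ IId A (X.B A) d : Submodule L _)) ≤ 8 * A.natDegree := by
    have h1 : finrank L (ZF A (X.B A) D) ≤
      finrank L (ZF A (X.B A) D ⊓ IId A (X.B A) d : Submodule L _) + (8 * A.natDegree) := by
      omega
    have h2 : (finrank L (ZF A (X.B A) D) : ℤ) ≤
      finrank L (ZF A (X.B A) D ⊓ IId A (X.B A) d : Submodule L _) + 8 * A.natDegree := by
      exact_mod_cast h1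
    linarith
  have hm' : (0 : ℤ) < A.natDegree := by exact_mod_cast hm
  have hKle : ht κ (KK c j₀ A (X.B A) D) ≤ ht κ (ZF A (X.B A) D) +
      8 * (d j₀ * gh κ A + A.natDegree * γ) := by
    have h1 := mul_le_mul_of_nonneg_right hdiff
      (show (0 : ℤ) ≤ d j₀ * gh κ A + A.natDegree * γ by (clear * - hd1 hg hm hγ0; positivity))
    have h2 : (A.natDegree : ℤ) * ht κ (KK c j₀ A (X.B A) D) ≤ A.natDegree *
        (ht κ (ZF A (X.B A) D) + 8 * (d j₀ * gh κ A + A.natDegree * γ)) := by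
      calc (A.natDegree : ℤ) * ht κ (KK c j₀ A (X.B A) D) ≤ _ := hK
        _ ≤ A.natDegree * ht κ (ZF A (X.B A) D) +
            (8 * A.natDegree) * (d j₀ * gh κ A + A.natDegree * γ) := add_le_add le_rfl h1
        _ = _ := by ring
    exact le_of_mul_le_mul_left h2 hm'
  -- elimination
  obtain ⟨q, hq⟩ : ∃ q : Fin 4 → L[X][X], q =
      ![B4 (fun i j => algebraMap κ L (c i j)) (X.B A) 0, derivative A,
        C Polynomial.X * derivative A, Polynomial.X * derivative A] := ⟨_, rfl⟩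
  have hnat : ∀ (ξ : Fin (n + 1) → ℕ), ∑ j, C (C (algebraMap κ L ((ξ j : ℕ) : κ))) * X.B A j =
      ∑ j, C (C ((ξ j : ℕ) : L)) * X.B A j := by
    intro ξ
    exact Finset.sum_congr rfl fun j _ => by rw [map_natCast]
  have hVI : ∀ e' : ℕ, VI A (B4 (fun i j => algebraMap κ L (c i j)) (X.B A)) e' =
      VI A q e' := by
    have q0 : q 0 = B4 (fun i j => algebraMap κ L (c i j)) (X.B A) 0 := by rw [hq]; rfl
    have q1 : q 1 = derivative A := by rw [hq]; rfl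
    have q2 : q 2 = C Polynomial.X * derivative A := by rw [hq]; rfl
    have q3 : q 3 = Polynomial.X * derivative A := by rw [hq]; rfl
    refine VI_congr fun j => ?_
    match j with
    | 0 => rw [q0, sub_self]; exact dvd_zero _
    | 1 =>
      rw [q1]
      have h1 := hA.r0
      rw [← hP0] at h1
      have h2 : B4 (fun i j => algebraMap κ L (c i j)) (X.B A) 1 =
          ∑ j, C (C ((P.ξ₀ j : ℕ) : L)) * X.B A j := by
        rw [← hnat]
        unfold B4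
        exact Finset.sum_congr rfl fun j _ => by simp only [hc1]
      rw [h2]
      exact h1
    | 2 =>
      rw [q2]
      have h1 := hA.r1
      rw [← hP1] at h1
      have h2 : B4 (fun i j => algebraMap κ L (c i j)) (X.B A) 2 =
          ∑ j, C (C ((P.ξ₁ j : ℕ) : L)) * X.B A j := by
        rw [← hnat]
        unfold B4
        exact Finset.sum_congr rfl fun j _ => by simp only [hc2]
      rw [h2]
      exact h1
    | 3 =>
      rw [q3]
      have h1 := hA.r2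
      rw [← hPz] at h1
      have h2 : B4 (fun i j => algebraMap κ L (c i j)) (X.B A) 3 =
          ∑ j, C (C (algebraMap κ L (P.z j))) * X.B A j := by
        unfold B4
        exact Finset.sum_congr rfl fun j _ => by simp only [hc3]
      rw [h2]
      exact h1
  have hbs := no_small_form h X hA hpos P hPx hc0 hc1 hc2 hc3 hN hC₀ hsl hn hβ hβ1 hβ2
  have hfin := elim4 h hA.irr hAY (q := q) (by rw [hq]; rfl) (by rw [hq]; rfl) (by rw [hq]; rfl)
    hd1 (K := KK c j₀ A (X.B A) D) ((KK_le c j₀ A (X.B A) D).trans (hVI _).le)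
    (KK_codim c j₀ A (X.B A) D hw hv) (fun e' he' => by rw [← hVI]; exact hbs e' he') hc1' hc2'
  rw [← hγ] at hfin
  rw [← hγ, ← hΔ]
  -- the numbers
  have hbig' : (48 : ℤ) * (4 * W * (e + 1) ^ 2 + 8 * d j₀) ≤ (d j₀ : ℤ) ^ 2 := by
    exact_mod_cast hbig
  have h5 := mul_le_mul_of_nonneg_right hbig' hg
  have h6 : (0 : ℤ) ≤ (4 * W * (e + 1) * A.natDegree + 8 * A.natDegree +
      Fintype.card (EX 4 (d j₀))) * Δ := by (clear * - hm hΔ0; positivity)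
  nlinarith only [hfin, hKle, hZle, h5, h6]

end main

end Pool.Agent.Lib.MP_44a246_ntSH
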