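import Mathlib
import Pool.Agent.Lib.MP_44a246_ntSH.CW10

/-!
The height theorem for generic complete intersections of general type, for all but finitely many
`(n, d)`.
-/

namespace Pool.Agent.Lib.MP_44a246_ntSH

open Pool.Agent.Lib.MP_44a246_nt
open Pool.Agent.Lib.MP_44a246_ntL
open Pool.Agent.Lib.MP_44a246_ntS
open Pool.Agent.Lib.MP_44a246_ntG
open Pool.Agent.Lib.MP_44a246_ntK
open Pool.Agent.Lib.MP_44a246_ntU
open Pool.Agent.Lib.MP_44a246_ntI
open Pool.Agent.Lib.MP_e52354_nt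
open MvPolynomial Module

universe u v w

/-- an ideal of small dimension contains a polynomial in the given variables -/
theorem exists_poly_mem {K : Type*} [Field K] {n k m' : ℕ} (hm : m' < k)
    {e : Fin k → Fin (n + 1)} {a : ℕ} {G : Fin a → MvPolynomial (Fin (n + 1)) K}
    (hG : ringKrullDim (MvPolynomial (Fin (n + 1)) K ⧸ Ideal.span (Set.range G)) ≤
      (m' : WithBot ℕ∞)) :
    ∃ P : MvPolynomial (Fin k) K, P ≠ 0 ∧ rename e P ∈ Ideal.span (Set.range G) := by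
  classical
  by_contra hcon
  push Not at hcon
  let S : Submonoid (MvPolynomial (Fin (n + 1)) K) :=
    (nonZeroDivisors (MvPolynomial (Fin k) K)).map
      (rename e : MvPolynomial (Fin k) K →ₐ[K] _)
  have hS : Disjoint (Ideal.span (Set.range G) : Set (MvPolynomial (Fin (n + 1)) K)) S := by
    rw [Set.disjoint_left]
    rintro Q hQ ⟨P, hP, rfl⟩
    exact hcon P (nonZeroDivisors.ne_zero hP) hQ
  obtain ⟨q, hq, hGq, hSq⟩ := Ideal.exists_le_prime_disjoint _ _ hS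
  let A := MvPolynomial (Fin (n + 1)) K ⧸ q
  let M := FractionRing A
  let γ : Fin (n + 1) → M := fun j => algebraMap A M (Ideal.Quotient.mk q (X j))
  have hγ : ∀ Q : MvPolynomial (Fin (n + 1)) K, aeval γ Q =
      algebraMap A M (Ideal.Quotient.mk q Q) := by
    intro Q
    have h1 : (aeval γ : MvPolynomial (Fin (n + 1)) K →ₐ[K] M) =
        (IsScalarTower.toAlgHom K A M).comp (Ideal.Quotient.mkₐ K q) := by
      refine MvPolynomial.algHom_ext fun j => ?_
      rw [aeval_X]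
      rfl
    rw [h1]
    rfl
  have hind : AlgebraicIndependent K (fun i : Fin k => aeval γ
      (X (e i) : MvPolynomial (Fin (n + 1)) K)) := by
    rw [algebraicIndependent_iff]
    intro P hP
    by_contra hP0
    have h1 : aeval γ (rename e P) = 0 := by
      rw [aeval_rename]
      simp only [aeval_X] at hP
      exact hP
    rw [hγ, map_eq_zero_iff _ (IsFractionRing.injective A M), Ideal.Quotient.eq_zero_iff_mem]
      at h1
    exact Set.disjoint_left.1 hSq h1 ⟨P, mem_nonZeroDivisors_of_ne_zero hP0, rfl⟩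
  have h2 : k ≤ m' := by
    refine card_le_of_dim_genG (γ := γ) (y := fun i => X (e i)) hG (fun f hf => ?_) hind
    rw [hγ, Ideal.Quotient.eq_zero_iff_mem.2 (hGq hf), map_zero]
  omega

/-- dehomogenisation at a point `t` -/
theorem exists_dehom {K : Type*} [Field K] [CharZero K] {R : ℕ} {P : MvPolynomial (Fin (R + 2)) K}
    (hP0 : P ≠ 0) : ∃ t : K, t ≠ 0 ∧
      aeval (Fin.cons (C t) (fun i => C t * X i) : Fin (R + 2) → MvPolynomial (Fin (R + 1)) K) P ≠
        0 := by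
  obtain ⟨u, hu⟩ : ∃ u : Fin (R + 2) → K, MvPolynomial.eval u (P * X 0) ≠ 0 := by
    by_contra hcon
    push Not at hcon
    exact mul_ne_zero hP0 (X_ne_zero _) (MvPolynomial.funext fun u => by rw [hcon u, map_zero])
  rw [map_mul, eval_X] at hu
  have hu0 : u 0 ≠ 0 := right_ne_zero_of_mul hu
  have hu1 : MvPolynomial.eval u P ≠ 0 := left_ne_zero_of_mul hu
  refine ⟨u 0, hu0, fun h => hu1 ?_⟩
  have h1 := congrArg (MvPolynomial.eval (fun i : Fin (R + 1) => u i.succ / u 0)) h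
  rw [map_zero] at h1
  rw [← h1, MvPolynomial.aeval_def, MvPolynomial.eval₂_eq', map_sum, MvPolynomial.eval_eq']
  refine Finset.sum_congr rfl fun I _ => ?_
  rw [map_mul, map_prod]
  congr 1
  · rw [MvPolynomial.algebraMap_eq, eval_C]
  · refine Finset.prod_congr rfl fun i _ => ?_
    rw [map_pow]
    congr 1
    refine Fin.cases ?_ (fun i => ?_) i
    · rw [Fin.cons_zero, eval_C]
    · rw [Fin.cons_succ, map_mul, eval_C, eval_X, mul_div_cancel₀ _ hu0]

/-- Forms which define a set of small dimension do not all vanish on a generic complete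
intersection. -/
theorem exists_not_onP {k K : Type*} [Field k] [Field K] [CharZero K] [Algebra k K]
    {n R p m' : ℕ} (hn : R + 2 + p = n + 1)
    {d : Fin p → ℕ} (hd : ∀ j, 1 ≤ d j) (hm : m' < R + 2)
    {F : Fin p → MvPolynomial (Fin (n + 1)) K} (hF : ∀ j, (F j).IsHomogeneous (d j))
    (ha : AlgebraicIndependent k (fun s : {s : Fin p × (Fin (n + 1) →₀ ℕ) // s ∈ jexpo n d} =>
      (F s.1.1).coeff s.1.2))
    {a : ℕ} {G : Fin a → MvPolynomial (Fin (n + 1)) K}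
    (hG : ringKrullDim (MvPolynomial (Fin (n + 1)) K ⧸ Ideal.span (Set.range G)) ≤
      (m' : WithBot ℕ∞)) :
    ∃ i, ∃ z : Fin (n + 1) → AlgebraicClosure K, z ≠ 0 ∧ (∀ j, aeval z (F j) = 0) ∧
      aeval z (G i) ≠ 0 := by
  classical
  obtain ⟨j, hj⟩ : ∃ j : Fin (R + 1) → Fin (n + 1), ∀ i, (j i).1 = i.1 + 1 :=
    ⟨fun i => ⟨i.1 + 1, by omega⟩, fun _ => rfl⟩
  have hji : Function.Injective j := by
    intro i i' hii
    have h1 := hj i
    rw [hii, hj i'] at h1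
    exact Fin.ext (by omega)
  have hj0 : ∀ i, j i ≠ 0 := by
    intro i h0
    have h1 := hj i
    rw [h0] at h1
    simp at h1
  obtain ⟨e, he⟩ : ∃ e : Fin (R + 2) → Fin (n + 1), e = Fin.cons 0 j := ⟨_, rfl⟩
  obtain ⟨P, hP0, hP⟩ := exists_poly_mem hm (e := e) hG
  obtain ⟨t, ht0, ht⟩ := exists_dehom hP0
  obtain ⟨g, hg⟩ : ∃ g : MvPolynomial (Fin (R + 1)) K, g = aeval (Fin.cons (C t)
    (fun i => C t * X i) : Fin (R + 2) → MvPolynomial (Fin (R + 1)) K) P := ⟨_, rfl⟩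
  rw [← hg] at ht
  obtain ⟨x, hx0, hxF, hxg⟩ := exists_zero_neΩ (Ω := AlgebraicClosure K) hn hd
    (a := fun j I => (F j).coeff I) ha hji hj0 ht
  obtain ⟨s, hs⟩ : ∃ s : AlgebraicClosure K, s = algebraMap K _ t := ⟨_, rfl⟩
  have hs0 : s ≠ 0 := by
    rw [hs]
    exact (map_ne_zero _).2 ht0
  obtain ⟨z, hz⟩ : ∃ z : Fin (n + 1) → AlgebraicClosure K, z = fun i => s * x i := ⟨_, rfl⟩
  have hz0 : z ≠ 0 := by
    intro h
    have h1 := congrFun h 0
    rw [hz] at h1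
    simp only [hx0, mul_one, Pi.zero_apply] at h1
    exact hs0 h1
  have hzF : ∀ j, aeval z (F j) = 0 := by
    intro j
    rw [aeval_eq_Fval (F j) (hF j), hz, Fval_smul, hxF j, mul_zero]
  have hzP : aeval z (rename e P) ≠ 0 := by
    rw [aeval_rename]
    have h2 : (aeval (z ∘ e) : MvPolynomial (Fin (R + 2)) K →ₐ[K] AlgebraicClosure K) =
        (aeval (fun i : Fin (R + 1) => x (j i))).comp
          (aeval (Fin.cons (C t) (fun i => C t * X i) :
            Fin (R + 2) → MvPolynomial (Fin (R + 1)) K)) := by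
      refine MvPolynomial.algHom_ext fun i => ?_
      rw [AlgHom.comp_apply, aeval_X, aeval_X, Function.comp_apply, hz]
      refine Fin.cases ?_ (fun i => ?_) i
      · rw [he, Fin.cons_zero, Fin.cons_zero, MvPolynomial.algHom_C, ← hs]
        show s * x 0 = s
        rw [hx0, mul_one]
      · rw [he, Fin.cons_succ, Fin.cons_succ, map_mul, MvPolynomial.algHom_C, aeval_X, ← hs]
    rw [h2, AlgHom.comp_apply, ← hg]
    exact hxg
  by_contra hcon
  push Not at hcon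
  apply hzP
  have h1 : Ideal.span (Set.range G) ≤
      RingHom.ker (aeval z : MvPolynomial (Fin (n + 1)) K →ₐ[K] _) := by
    rw [Ideal.span_le]
    rintro _ ⟨i, rfl⟩
    exact hcon i z hz0 hzF
  exact h1 hP

/-- the transcendence degree of the field of the coefficients -/
theorem card_le_trdeg_of_indepP {K : Type*} [Field K] [CharZero K] {n p : ℕ} {d : Fin p → ℕ}
    {F : Fin p → MvPolynomial (Fin (n + 1)) K}
    (hgen : AlgebraicIndependent ℚ
      (fun I : {I : Fin p × (Fin (n + 1) →₀ ℕ) // I.2.degree = d I.1} =>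
        (F I.1.1).coeff I.1.2)) :
    (Nat.card {I : Fin p × (Fin (n + 1) →₀ ℕ) // I.2.degree = d I.1} :
      Cardinal) ≤ Algebra.trdeg ℚ (IntermediateField.adjoin ℚ
        (Set.range fun I : {I : Fin p × (Fin (n + 1) →₀ ℕ) //
          I.2.degree = d I.1} => (F I.1.1).coeff I.1.2)) + ((0 : ℕ) : Cardinal) := by
  classical
  set T := {I : Fin p × (Fin (n + 1) →₀ ℕ) // I.2.degree = d I.1} with hT
  have hfin : Finite T := by
    refine Finite.of_injective (β := {s : Fin p × (Fin (n + 1) →₀ ℕ) // s ∈ jexpo n d})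
      (fun I => ⟨I.1, mem_jexpo.2 (mem_expo.2 I.2)⟩) ?_
    intro I J h
    simp only [Subtype.mk.injEq] at h
    exact Subtype.ext h
  set E := IntermediateField.adjoin ℚ (Set.range fun I : T => (F I.1.1).coeff I.1.2) with hE
  have h2 : AlgebraicIndependent ℚ
      (fun I : T => (⟨(F I.1.1).coeff I.1.2, IntermediateField.subset_adjoin ℚ _ ⟨I, rfl⟩⟩ : E)) := by
    refine AlgebraicIndependent.of_comp E.val ?_
    exact hgen
  have h3 := h2.lift_cardinalMk_le_trdeg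
  rw [Nat.cast_zero, add_zero]
  have h4 : Fintype T := Fintype.ofFinite T
  rw [Nat.card_eq_fintype_card]
  simpa using h3

/-- The height theorem for a generic complete intersection: the two cases of the slope theorem. -/
theorem slope_ci {n p S : ℕ} {d : Fin p → ℕ} (hp : 1 ≤ p) (hn : p + 1 ≤ n) (hd1 : ∀ j, 1 ≤ d j)
    (hS : S = ∑ j, d j) (hSn : n + 2 ≤ S)
    (hc : (3 * n + 5 ≤ 2 * S + p ∧ 4 ≤ S ∧ (n + p + 3 ≤ S ∨ 2 * n + 3 ≤ S + p ∨
        3 * n + 6 ≤ 2 * S + p) ∧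
        (p + 6) * (S - 1 + p) + 2 * p * (S - 1) + 1 ≤ (S - 1 + p) ^ 2 + 9 + 5 * p) ∨
      ∃ D, 600 * p ≤ D ∧ (∀ j, D ≤ d j) ∧ n ≤ p * D ∧ n + 300 * p ^ 2 + 1 ≤ S)
    {κ : Type u} {K : Type v} [Field κ] [IsAlgClosed κ] [CharZero κ] [Field K] [CharZero K]
    [Algebra κ K] (htr : Cardinal.aleph0 ≤ Algebra.trdeg ℚ κ) {t : K} (ht : Transcendental κ t)
    (hfin : FiniteDimensional (IntermediateField.adjoin κ {t}) K)
    {F : Fin p → MvPolynomial (Fin (n + 1)) K} (hF : ∀ j, (F j).IsHomogeneous (d j))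
    (hgen : AlgebraicIndependent ℚ
      (fun I : {I : Fin p × (Fin (n + 1) →₀ ℕ) // I.2.degree = d I.1} =>
        (F I.1.1).coeff I.1.2)) :
    ∃ G : MvPolynomial (Fin (n + 1)) K, (∃ e, G.IsHomogeneous e) ∧
      (∃ z : Fin (n + 1) → AlgebraicClosure K, z ≠ 0 ∧ (∀ j, aeval z (F j) = 0) ∧
        aeval z G ≠ 0) ∧
      ∃ C : ℕ, ∀ (L : Type w) [Field L] [Algebra K L] [FiniteDimensional K L] [Algebra κ L]
        [IsScalarTower κ K L] (x : Fin (n + 1) → L), x ≠ 0 → (∀ j, aeval x (F j) = 0) →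
        height κ x ≤ C * ((finrank K L : ℤ) + ramDeg κ L K) ∨ aeval x G = 0 := by
  classical
  have hcard : ∀ A : Finset (Fin p), A.card = p → ∑ j ∈ A, d j = S := by
    intro A hA
    have h1 : A = Finset.univ := by
      rw [← Finset.card_eq_iff_eq_univ, hA, Fintype.card_fin]
    rw [h1, hS]
  have hle : ∀ j, d j ≤ S := by
    intro j
    rw [hS]
    exact Finset.single_le_sum (f := d) (fun _ _ => Nat.zero_le _) (Finset.mem_univ j)
  obtain ⟨D, hD⟩ : ∃ D : ℕ, (D = 0 ∧ 3 * n + 5 ≤ 2 * S + p ∧ 4 ≤ S ∧ (n + p + 3 ≤ S ∨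
      2 * n + 3 ≤ S + p ∨ 3 * n + 6 ≤ 2 * S + p) ∧
      (p + 6) * (S - 1 + p) + 2 * p * (S - 1) + 1 ≤ (S - 1 + p) ^ 2 + 9 + 5 * p) ∨
      (600 * p ≤ D ∧ (∀ j, D ≤ d j) ∧ n ≤ p * D ∧ n + 300 * p ^ 2 + 1 ≤ S) := by
    rcases hc with h | ⟨D, h⟩
    · exact ⟨0, Or.inl ⟨rfl, h⟩⟩
    · exact ⟨D, Or.inr h⟩
  obtain ⟨a, G, hG1, hG2, C, hC⟩ := slope_mainRI.{u, v, w} htr ht (k := ℚ)
    (by rw [trdeg_eq_zero]; exact Cardinal.aleph0_pos) (n := n) (p := p) (r := n) (ρ := p)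
    (σ := 4 * p) (D := D) (c := 0) (s := 1)
    (m := S - 1) (P := 2 * p * (S + 1) + D * S) (Q := 1) (m' := 2 * n - S - p) (d := d)
    (ι := Fin p) (e := d) (f := fun i => X (Sum.inl i))
    (fun _ => isWeightedHomogeneous_X _ _ _) (by
      refine (ringKrullDim_quotient_le _).trans ?_
      rw [dim_mvPolynomial]) (by omega) hp le_rfl (fun A hA => by
      rw [hcard A hA]
      omega) (by
      rcases hD with ⟨h0, h1, h2, h3, h4⟩ | ⟨h1, h2, h3, h4⟩
      · left
        refine ⟨h0, hd1, by omega, by omega, by omega, by omega, fun i => Or.inr (Or.inl ?_)⟩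
        have h5 : 2 * p * (d i + 1) ≤ 2 * p * (S + 1) :=
          Nat.mul_le_mul_left _ (Nat.succ_le_succ (hle i))
        exact h5.trans (Nat.le_add_right _ _)
      · right
        refine ⟨by omega, le_rfl, by omega, by omega, h2, by omega, ?_, ?_, fun i => Or.inr ?_⟩
        · have h5 : 75 * p * (4 * p) = 300 * p ^ 2 := by ring
          rw [h5]
          omega
        · refine Nat.one_le_pow _ _ ?_
          omega
        · have h5 : D * d i ≤ D * S := Nat.mul_le_mul_left _ (hle i)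
          have h6 : D * S ≤ 2 * p * (S + 1) + D * S := Nat.le_add_left _ _
          have h7 : 2 * p * (S + 1) + D * S ≤ 4 * p * (2 * p * (S + 1) + D * S) :=
            Nat.le_mul_of_pos_left _ (by omega)
          exact h5.trans (h6.trans h7)) (fun A hA => by
      rw [hcard A hA]
      omega) F hF (card_le_trdeg_of_indepP hgen)
  obtain ⟨R, hR⟩ : ∃ R, R + 2 + p = n + 1 := ⟨n - 1 - p, by omega⟩
  obtain ⟨i, hi⟩ := exists_not_onP hR hd1 (by omega) hF (algInd_jexpo hgen) hG2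
  refine ⟨G i, hG1 i, hi, C + (2 * p * (S + 1) + D * S) + 1, ?_⟩
  intro L _ _ _ _ _ x hx hFx
  have hcL : CharZero L := charZero_of_injective_algebraMap (algebraMap K L).injective
  have hfr : (1 : ℤ) ≤ finrank K L := by exact_mod_cast Module.finrank_pos (R := K) (M := L)
  have hRam : (0 : ℤ) ≤ ramDeg κ L K := Int.natCast_nonneg _
  obtain ⟨P, hP⟩ : ∃ P : ℕ, P = 2 * p * (S + 1) + D * S := ⟨_, rfl⟩
  rw [← hP]
  rcases hC L x hx (fun j => by
    rw [aeval_X, Sum.elim_inl]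
    exact hFx j) (by
    left
    refine ⟨id, id, ?_⟩
    have h1 : (Matrix.of fun a b : Fin p => aeval (Sum.elim (fun j => aeval x (F j)) x :
        Fin p ⊕ Fin (n + 1) → L) (pderiv (Sum.inl (id b))
          (X (Sum.inl (id a)) : MvPolynomial (Fin p ⊕ Fin (n + 1)) ℚ))) = 1 := by
      ext a b
      rw [Matrix.of_apply, id, id]
      by_cases hab : a = b
      · subst hab
        rw [pderiv_X_self, map_one, Matrix.one_apply_eq]
      · rw [pderiv_X_of_ne (fun h => hab (Sum.inl_injective h)), map_zero,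
          Matrix.one_apply_ne hab]
    rw [h1, Matrix.det_one]
    exact one_ne_zero) with h | h
  · left
    have e1 : (0 : ℤ) ≤ C * (finrank K L : ℤ) := by positivity
    have e2 : (0 : ℤ) ≤ C * (ramDeg κ L K : ℤ) := by positivity
    have e3 : (0 : ℤ) ≤ P * (finrank K L : ℤ) := by positivity
    have e4 : (0 : ℤ) ≤ P * (ramDeg κ L K : ℤ) := by positivity
    have e5 : ((C + P + 1 : ℕ) : ℤ) * ((finrank K L : ℤ) + ramDeg κ L K) =
        C * (finrank K L : ℤ) + C * (ramDeg κ L K : ℤ) + P * (finrank K L : ℤ) +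
          P * (ramDeg κ L K : ℤ) + finrank K L + ramDeg κ L K := by
      push_cast
      ring
    rw [e5]
    rcases h.1 with h1 | h1
    · rw [Nat.cast_one, one_mul] at h1
      linarith
    · rw [Nat.cast_one, one_mul, ← hP] at h1
      linarith
  · exact Or.inr (h.1 i)

/-- **The height theorem for generic complete intersections of general type** of codimension `p`:
all but finitely many `(n, d)`. -/
theorem sharp_finalP (p : ℕ) : ∃ S : Finset (ℕ × (Fin p → ℕ)),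
    (∀ q ∈ S, (2 * ∑ j, q.2 j + p ≤ 3 * q.1 + 5 ∨ ∑ j, q.2 j ≤ p + 7) ∧
      (∑ j, q.2 j ≤ q.1 + 300 * p ^ 2 ∨ ∃ j, q.2 j < 600 * p ∨ p * q.2 j < q.1) ∧
      (p = 1 → ∑ j, q.2 j ≤ q.1 + 300 ∧ (2 * ∑ j, q.2 j ≤ 3 * q.1 + 3 ∨ ∑ j, q.2 j ≤ 6))) ∧
    ∀ (n : ℕ) (d : Fin p → ℕ), p + 1 ≤ n → (∀ j, 2 ≤ d j) → n + 2 ≤ ∑ j, d j → (n, d) ∉ S →
    ∀ (κ : Type u) (K : Type v) [Field κ] [IsAlgClosed κ] [CharZero κ] [Field K] [CharZero K]
      [Algebra κ K] (_ : Cardinal.aleph0 ≤ Algebra.trdeg ℚ κ) (t : K) (_ : Transcendental κ t)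
      (_ : FiniteDimensional (IntermediateField.adjoin κ {t}) K)
      (F : Fin p → MvPolynomial (Fin (n + 1)) K) (_ : ∀ j, (F j).IsHomogeneous (d j))
      (_ : AlgebraicIndependent ℚ
        (fun I : {I : Fin p × (Fin (n + 1) →₀ ℕ) // I.2.degree = d I.1} =>
          (F I.1.1).coeff I.1.2)),
    ∃ G : MvPolynomial (Fin (n + 1)) K, (∃ e, G.IsHomogeneous e) ∧
      (∃ z : Fin (n + 1) → AlgebraicClosure K, z ≠ 0 ∧ (∀ j, aeval z (F j) = 0) ∧
        aeval z G ≠ 0) ∧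
      ∃ C : ℕ, ∀ (L : Type w) [Field L] [Algebra K L] [FiniteDimensional K L] [Algebra κ L]
        [IsScalarTower κ K L] (x : Fin (n + 1) → L), x ≠ 0 → (∀ j, aeval x (F j) = 0) →
        height κ x ≤ C * ((finrank K L : ℤ) + ramDeg κ L K) ∨ aeval x G = 0 := by
  classical
  rcases Nat.eq_zero_or_pos p with hp | hp
  · subst hp
    refine ⟨∅, fun q hq => absurd hq (Finset.notMem_empty _), fun n d _ _ hd => ?_⟩
    rw [Finset.univ_eq_empty, Finset.sum_empty] at hd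
    omega
  obtain ⟨n₀, hmain⟩ := sharp_mainP.{u, v, w} p
  refine ⟨((Finset.range n₀) ×ˢ (Fintype.piFinset fun _ : Fin p =>
      Finset.range (3 * n₀ + 5 + p + 8))).filter
    (fun q => (2 * ∑ j, q.2 j + p ≤ 3 * q.1 + 5 ∨ ∑ j, q.2 j ≤ p + 7) ∧
      (∑ j, q.2 j ≤ q.1 + 300 * p ^ 2 ∨ ∃ j, q.2 j < 600 * p ∨ p * q.2 j < q.1) ∧
      (p = 1 → ∑ j, q.2 j ≤ q.1 + 300 ∧ (2 * ∑ j, q.2 j ≤ 3 * q.1 + 3 ∨ ∑ j, q.2 j ≤ 6))),
    fun q hq => (Finset.mem_filter.1 hq).2, ?_⟩
  intro n d hn hd2 hd hS κ K _ _ _ _ _ _ htr t ht hfin F hF hgen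
  rcases le_or_gt n₀ n with h | h
  · exact hmain n d h hd2 hd κ K htr t ht hfin F hF hgen
  obtain ⟨s, hs⟩ : ∃ s : ℕ, s = ∑ j, d j := ⟨_, rfl⟩
  have hle : ∀ j, d j ≤ s := by
    intro j
    rw [hs]
    exact Finset.single_le_sum (f := d) (fun _ _ => Nat.zero_le _) (Finset.mem_univ j)
  refine slope_ci hp hn (fun j => le_trans (by norm_num) (hd2 j)) hs (by omega) ?_ htr ht hfin hF
    hgen
  by_contra hcon
  rw [not_or] at hcon
  obtain ⟨hI, hII⟩ := hcon
  apply hS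
  -- the quadratic condition
  have hquad : p + 8 ≤ s ∨ (p = 1 ∧ 7 ≤ s) →
      (p + 6) * (s - 1 + p) + 2 * p * (s - 1) + 1 ≤ (s - 1 + p) ^ 2 + 9 + 5 * p := by
    rintro (h1 | ⟨h1, h2⟩)
    · obtain ⟨y, rfl⟩ : ∃ y, s = p + 8 + y := ⟨s - (p + 8), by omega⟩
      rw [show p + 8 + y - 1 = p + 7 + y by omega]
      nlinarith [Nat.zero_le (y * y), Nat.zero_le (p * y), Nat.zero_le (p * p)]
    · subst h1
      obtain ⟨y, rfl⟩ : ∃ y, s = 7 + y := ⟨s - 7, by omega⟩
      rw [show 7 + y - 1 = 6 + y by omega]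
      nlinarith [Nat.zero_le (y * y)]
  have hA : 2 * s + p ≤ 3 * n + 5 ∨ s ≤ p + 7 := by
    by_contra h1
    push Not at h1
    exact hI ⟨by omega, by omega, by omega, hquad (Or.inl (by omega))⟩
  have hB : s ≤ n + 300 * p ^ 2 ∨ ∃ j, d j < 600 * p ∨ p * d j < n := by
    by_contra h1
    push Not at h1
    obtain ⟨h2, h3⟩ := h1
    obtain ⟨j₀, -, hj₀⟩ := Finset.exists_min_image Finset.univ d ⟨(⟨0, hp⟩ : Fin p),
      Finset.mem_univ _⟩
    exact hII ⟨d j₀, (h3 j₀).1, fun j => hj₀ j (Finset.mem_univ j), (h3 j₀).2, by omega⟩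
  have hB1 : p = 1 → s ≤ n + 300 ∧ (2 * s ≤ 3 * n + 3 ∨ s ≤ 6) := by
    intro hp1
    have h2 : 2 * s ≤ 3 * n + 3 ∨ s ≤ 6 := by
      by_contra h1
      push Not at h1
      exact hI ⟨by omega, by omega, by omega, hquad (Or.inr ⟨hp1, by omega⟩)⟩
    refine ⟨?_, h2⟩
    by_contra h1
    push Not at h1
    rcases hB with h3 | ⟨j, h3⟩
    · rw [hp1] at h3
      omega
    · have h4 : d j = s := by
        subst hp1
        rw [hs, Fin.sum_univ_one, Subsingleton.elim j 0]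
      rw [h4, hp1] at h3
      omega
  rw [Finset.mem_filter, Finset.mem_product, Finset.mem_range, Fintype.mem_piFinset]
  refine ⟨⟨h, fun j => ?_⟩, ?_, ?_, ?_⟩
  · show d j ∈ Finset.range _
    rw [Finset.mem_range]
    have := hle j
    omega
  · show 2 * ∑ j, d j + p ≤ 3 * n + 5 ∨ ∑ j, d j ≤ p + 7
    rw [← hs]
    exact hA
  · show ∑ j, d j ≤ n + 300 * p ^ 2 ∨ ∃ j, d j < 600 * p ∨ p * d j < n
    rw [← hs]
    exact hB
  · show p = 1 → ∑ j, d j ≤ n + 300 ∧ (2 * ∑ j, d j ≤ 3 * n + 3 ∨ ∑ j, d j ≤ 6)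
    rw [← hs]
    exact hB1

end Pool.Agent.Lib.MP_44a246_ntSH
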