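import Mathlib

set_option autoImplicit false
set_option linter.unusedSectionVars false

/-!
# Maximal rank lemma, isotropic subspaces, growth of powers of a subspace (paper 619, (2d), E1, E3, E4)
-/

namespace VFSharp

open Module

section maxrank

variable {L U W : Type*} [Field L] [AddCommGroup U] [Module L U] [AddCommGroup W] [Module L W]
  [FiniteDimensional L U] [FiniteDimensional L W]

/-- If `T1 v` is not in the range of `T0`, `T0 v = 0`, then for all but finitely many `s` the map `T0 + s T1`
has larger rank. -/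
theorem finite_rank_le (T0 T1 : U →ₗ[L] W) {v : U} (hv : T0 v = 0) (hT : T1 v ∉ LinearMap.range T0) :
    {s : L | finrank L (LinearMap.range (T0 + s • T1)) ≤ finrank L (LinearMap.range T0)}.Finite := by
  classical
  set r := finrank L (LinearMap.range T0) with hr
  let b := Module.finBasis L (LinearMap.range T0)
  have hw : ∀ i, ∃ w : U, T0 w = (b i : W) := fun i => (b i).2
  choose w hw using hw
  -- the independent family
  let z : Option (Fin r) → W := fun j => j.elim (T1 v) (fun i => (b i : W))
  have hzi : LinearIndependent L z := by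
    have h1 : LinearIndependent L (fun i => (b i : W)) :=
      b.linearIndependent.map' (Submodule.subtype _) (Submodule.ker_subtype _)
    have h2 : Submodule.span L (Set.range fun i => (b i : W)) ≤ LinearMap.range T0 := by
      rw [Submodule.span_le]
      rintro _ ⟨i, rfl⟩
      exact (b i).2
    exact linearIndependent_option.mpr ⟨h1, fun h => hT (h2 h)⟩
  obtain ⟨g, hg⟩ := LinearMap.exists_leftInverse_of_injective
    (Fintype.linearCombination L z) (by
      rw [LinearMap.ker_eq_bot]
      exact linearIndependent_iff_injective_fintypeLinearCombination.mp hzi)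
  have hgz : ∀ j, g (z j) = Pi.single j 1 := by
    intro j
    have := LinearMap.congr_fun hg (Pi.single j 1)
    rw [LinearMap.comp_apply, Fintype.linearCombination_apply_single, one_smul] at this
    exact this
  let y : Option (Fin r) → W := fun j => j.elim 0 (fun i => T1 (w i))
  let P : Polynomial L := Matrix.det (Matrix.of fun j j' : Option (Fin r) =>
    Polynomial.C (g (z j) j') + Polynomial.X * Polynomial.C (g (y j) j'))
  have hP : ∀ s, P.eval s = Matrix.det (Matrix.of fun j j' : Option (Fin r) =>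
      g (z j + s • y j) j') := by
    intro s
    show Polynomial.eval s (Matrix.det _) = _
    rw [← Polynomial.coe_evalRingHom, RingHom.map_det]
    congr 1
    ext j j'
    simp [RingHom.mapMatrix_apply, Matrix.map_apply]
    ring
  have hP0 : P.eval 0 = 1 := by
    rw [hP]
    have : (Matrix.of fun j j' : Option (Fin r) => g (z j + (0 : L) • y j) j') = 1 := by
      ext j j'
      rw [Matrix.of_apply, zero_smul, add_zero, hgz, Matrix.one_apply, Pi.single_apply]
      simp only [eq_comm]
    rw [this, Matrix.det_one]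
  have hPne : P ≠ 0 := by
    intro h
    rw [h, Polynomial.eval_zero] at hP0
    exact zero_ne_one hP0
  refine ((Set.finite_singleton (0 : L)).union (P.rootSet_finite L)).subset ?_
  intro s hs
  by_contra hcon
  rw [Set.mem_union, not_or, Set.mem_singleton_iff, Polynomial.mem_rootSet] at hcon
  have hs0 : s ≠ 0 := hcon.1
  have hsr : P.eval s ≠ 0 := by
    intro h
    exact hcon.2 ⟨hPne, by simpa using h⟩
  have hli : LinearIndependent L (fun j => z j + s • y j) := by
    rw [hP] at hsr
    have h1 := Matrix.linearIndependent_rows_of_det_ne_zero hsr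
    exact LinearIndependent.of_comp g h1
  have hmem : ∀ j, z j + s • y j ∈ LinearMap.range (T0 + s • T1) := by
    intro j
    rcases j with _ | i
    · refine ⟨s⁻¹ • v, ?_⟩
      simp [z, y, hv, smul_smul, hs0]
    · refine ⟨w i, ?_⟩
      simp [z, y, hw]
  have hli2 : LinearIndependent L (fun j => (⟨z j + s • y j, hmem j⟩ : LinearMap.range (T0 + s • T1))) :=
    LinearIndependent.of_comp (Submodule.subtype _) hli
  have hcard := hli2.fintype_card_le_finrank
  rw [Fintype.card_option, Fintype.card_fin] at hcard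
  have hs' : finrank L (LinearMap.range (T0 + s • T1)) ≤ r := hs
  omega

/-- Maximal rank lemma. -/
theorem maxrank (T0 T1 : U →ₗ[L] W) (S : Set L) (hS : S.Infinite)
    (h : ∀ s ∈ S, finrank L (LinearMap.range (T0 + s • T1)) ≤ finrank L (LinearMap.range T0)) :
    ∀ v, T0 v = 0 → T1 v ∈ LinearMap.range T0 := by
  intro v hv
  by_contra hT
  exact hS ((finite_rank_le T0 T1 hv hT).subset h)

end maxrank

section isotropy

variable {k M : Type*} [Field k] [Field M] [Algebra k M] [FiniteDimensional k M]

/-- A subspace which is isotropic for the nondegenerate form `φ (u v)` has at most half the dimension. -/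
theorem isotropic_le (A : Submodule k M) (φ : M →ₗ[k] k) (hφ : φ ≠ 0)
    (h : ∀ a ∈ A, ∀ b ∈ A, φ (a * b) = 0) : 2 * finrank k A ≤ finrank k M := by
  let Ψ : M →ₗ[k] Module.Dual k M := (LinearMap.mul k M).compr₂ φ
  have hΨ : ∀ a b, Ψ a b = φ (a * b) := fun a b => rfl
  have hinj : Function.Injective Ψ := by
    rw [← LinearMap.ker_eq_bot, LinearMap.ker_eq_bot']
    intro a ha
    by_contra ha0
    apply hφ
    ext x
    have h1 := LinearMap.congr_fun ha (a⁻¹ * x)
    rw [hΨ, ← mul_assoc, mul_inv_cancel₀ ha0, one_mul] at h1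
    simpa using h1
  have h1 : A.map Ψ ≤ A.dualAnnihilator := by
    rintro _ ⟨a, ha, rfl⟩
    rw [Submodule.mem_dualAnnihilator]
    intro b hb
    exact h a ha b hb
  have h2 : finrank k (A.map Ψ) = finrank k A :=
    LinearEquiv.finrank_eq (Submodule.equivMapOfInjective Ψ hinj A).symm
  have h3 := Submodule.finrank_mono h1
  have h4 := Subspace.finrank_add_finrank_dualAnnihilator_eq A
  omega

/-- The same for the form `Tr(lam u v)`, `lam ≠ 0`. -/
theorem isotropic_trace_le [Algebra.IsSeparable k M] (A : Submodule k M) {lam : M} (hlam : lam ≠ 0)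
    (h : ∀ a ∈ A, ∀ b ∈ A, Algebra.trace k M (lam * (a * b)) = 0) :
    2 * finrank k A ≤ finrank k M := by
  refine isotropic_le A (Algebra.trace k M ∘ₗ LinearMap.mulLeft k lam) ?_ h
  intro h0
  obtain ⟨x, hx⟩ := Algebra.trace_surjective k M 1
  have h1 := LinearMap.congr_fun h0 (lam⁻¹ * x)
  rw [LinearMap.comp_apply, LinearMap.mulLeft_apply, ← mul_assoc, mul_inv_cancel₀ hlam, one_mul,
    hx, LinearMap.zero_apply] at h1
  exact one_ne_zero h1

end isotropy

section growth

variable {k M : Type*} [Field k] [Field M] [Algebra k M] [FiniteDimensional k M]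

/-- the elements of `A` which `u` maps into `A` -/
def Ku (A : Submodule k M) (u : M) : Submodule k M := A ⊓ A.comap (LinearMap.mulLeft k u)

theorem mem_Ku {A : Submodule k M} {u x : M} : x ∈ Ku A u ↔ x ∈ A ∧ u * x ∈ A := Iff.rfl

theorem two_mul_le (A : Submodule k M) {u c : M} (hc : c ∈ A) (hc0 : c ≠ 0) (hu : u * c ∈ A) :
    2 * finrank k A ≤ finrank k ((A * A : Submodule k M)) + finrank k (Ku A u) := by
  let f : (A × A) →ₗ[k] M := (LinearMap.mulLeft k c ∘ₗ A.subtype).coprod
    (-(LinearMap.mulLeft k (u * c) ∘ₗ A.subtype))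
  have hf : ∀ x : A × A, f x = c * x.1 - (u * c) * x.2 := by
    intro x
    simp [f, sub_eq_add_neg, mul_assoc]
  have hr : LinearMap.range f ≤ A * A := by
    rintro _ ⟨x, rfl⟩
    rw [hf]
    exact Submodule.sub_mem _ (Submodule.mul_mem_mul hc x.1.2) (Submodule.mul_mem_mul hu x.2.2)
  have h1 := LinearMap.finrank_range_add_finrank_ker f
  have h2 := Submodule.finrank_mono hr
  have hker : ∀ x : A × A, x ∈ LinearMap.ker f → (x.1 : M) = u * x.2 := by
    intro x hx
    rw [LinearMap.mem_ker, hf, sub_eq_zero] at hx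
    have : c * (x.1 : M) = c * (u * x.2) := by rw [hx]; ring
    exact mul_left_cancel₀ hc0 this
  let g : LinearMap.ker f →ₗ[k] Ku A u :=
    { toFun := fun x => ⟨(x.1.2 : M), mem_Ku.mpr ⟨x.1.2.2, by
        rw [← hker x.1 x.2]; exact x.1.1.2⟩⟩
      map_add' := fun x y => rfl
      map_smul' := fun a x => rfl }
  have hg : Function.Injective g := by
    intro x y hxy
    have e2 : (x.1.2 : M) = y.1.2 := congrArg (fun z : Ku A u => (z : M)) hxy
    have e1 : (x.1.1 : M) = y.1.1 := by
      rw [hker x.1 x.2, hker y.1 y.2, e2]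
    exact Subtype.ext (Prod.ext (Subtype.ext e1) (Subtype.ext e2))
  have h3 := LinearMap.finrank_le_finrank_of_injective hg
  have h4 : finrank k (A × A) = 2 * finrank k A := by
    rw [Module.finrank_prod]
    ring
  omega

/-- Two large subspaces meet. -/
theorem exists_common (A : Submodule k M) {P Q : Submodule k M} (hP : P ≤ A) (hQ : Q ≤ A)
    (h : finrank k A < finrank k P + finrank k Q) : ∃ x, x ∈ P ∧ x ∈ Q ∧ x ≠ 0 := by
  have h1 := Submodule.finrank_sup_add_finrank_inf_eq P Q
  have h2 := Submodule.finrank_mono (sup_le hP hQ)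
  have h3 : 0 < finrank k (P ⊓ Q : Submodule k M) := by omega
  obtain ⟨x, hx⟩ := Submodule.exists_mem_ne_zero_of_ne_bot (p := P ⊓ Q) (by
    intro h4
    rw [h4, finrank_bot] at h3
    exact lt_irrefl _ h3)
  exact ⟨x, hx.1.1, hx.1.2, hx.2⟩

theorem all_large (A : Submodule k M) (h1 : (1 : M) ∈ A)
    (hgen : IntermediateField.adjoin k (A : Set M) = ⊤)
    (h : 2 * finrank k (A * A : Submodule k M) < 3 * finrank k A) (u : M) :
    finrank k A < 2 * finrank k (Ku A u) := by
  have key : ∀ u c : M, c ∈ A → c ≠ 0 → u * c ∈ A → finrank k A < 2 * finrank k (Ku A u) := by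
    intro u c hc hc0 hu
    have := two_mul_le A hc hc0 hu
    omega
  have hKA : ∀ u, Ku A u ≤ A := fun u => inf_le_left
  let Q : IntermediateField k M :=
    { carrier := {u | ∃ c ∈ A, c ≠ 0 ∧ u * c ∈ A}
      mul_mem' := by
        rintro u v ⟨c, hc, hc0, huc⟩ ⟨e, he, he0, hve⟩
        rcases eq_or_ne v 0 with hv | hv
        · exact ⟨1, h1, one_ne_zero, by rw [hv, mul_zero, zero_mul]; exact A.zero_mem⟩
        · have hv' : v⁻¹ * (v * e) ∈ A := by
            rw [← mul_assoc, inv_mul_cancel₀ hv, one_mul]; exact he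
          have a1 := key u c hc hc0 huc
          have a2 := key v⁻¹ (v * e) hve (mul_ne_zero hv he0) hv'
          obtain ⟨x, hx1, hx2, hx0⟩ := exists_common A (hKA u) (hKA v⁻¹) (by omega)
          refine ⟨v⁻¹ * x, (mem_Ku.mp hx2).2, mul_ne_zero (inv_ne_zero hv) hx0, ?_⟩
          rw [mul_assoc, ← mul_assoc v, mul_inv_cancel₀ hv, one_mul]
          exact (mem_Ku.mp hx1).2
      one_mem' := ⟨1, h1, one_ne_zero, by rw [one_mul]; exact h1⟩
      add_mem' := by
        rintro u v ⟨c, hc, hc0, huc⟩ ⟨e, he, he0, hve⟩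
        have a1 := key u c hc hc0 huc
        have a2 := key v e he he0 hve
        obtain ⟨x, hx1, hx2, hx0⟩ := exists_common A (hKA u) (hKA v) (by omega)
        refine ⟨x, (mem_Ku.mp hx1).1, hx0, ?_⟩
        rw [add_mul]
        exact A.add_mem (mem_Ku.mp hx1).2 (mem_Ku.mp hx2).2
      zero_mem' := ⟨1, h1, one_ne_zero, by rw [zero_mul]; exact A.zero_mem⟩
      algebraMap_mem' := by
        intro a
        refine ⟨1, h1, one_ne_zero, ?_⟩
        rw [← Algebra.smul_def]
        exact A.smul_mem a h1
      inv_mem' := by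
        rintro u ⟨c, hc, hc0, huc⟩
        rcases eq_or_ne u 0 with hu | hu
        · exact ⟨1, h1, one_ne_zero, by rw [hu, inv_zero, zero_mul]; exact A.zero_mem⟩
        · exact ⟨u * c, huc, mul_ne_zero hu hc0, by
            rw [← mul_assoc, inv_mul_cancel₀ hu, one_mul]; exact hc⟩ }
  have hQ : Q = ⊤ := by
    rw [← top_le_iff, ← hgen, IntermediateField.adjoin_le_iff]
    intro a ha
    exact ⟨1, h1, one_ne_zero, by rw [mul_one]; exact ha⟩
  have hu : u ∈ Q := by rw [hQ]; exact IntermediateField.mem_top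
  obtain ⟨c, hc, hc0, huc⟩ := hu
  exact key u c hc hc0 huc

/-- multiplication by `u`, from `A` to `M / A` -/
def Tu (A : Submodule k M) (u : M) : A →ₗ[k] M ⧸ A :=
  A.mkQ ∘ₗ LinearMap.mulLeft k u ∘ₗ A.subtype

theorem Tu_apply (A : Submodule k M) (u : M) (a : A) : Tu A u a = A.mkQ (u * a) := rfl

theorem ker_Tu (A : Submodule k M) (u : M) :
    finrank k (LinearMap.ker (Tu A u)) = finrank k (Ku A u) := by
  have h1 : (LinearMap.ker (Tu A u)).map A.subtype = Ku A u := by
    ext x
    rw [Submodule.mem_map, mem_Ku]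
    constructor
    · rintro ⟨a, ha, rfl⟩
      refine ⟨a.2, ?_⟩
      rw [LinearMap.mem_ker, Tu_apply, Submodule.mkQ_apply, Submodule.Quotient.mk_eq_zero] at ha
      exact ha
    · rintro ⟨hx, hux⟩
      refine ⟨⟨x, hx⟩, ?_, rfl⟩
      rw [LinearMap.mem_ker, Tu_apply, Submodule.mkQ_apply, Submodule.Quotient.mk_eq_zero]
      exact hux
  rw [← h1]
  exact LinearEquiv.finrank_eq (Submodule.equivMapOfInjective A.subtype
    (Submodule.injective_subtype A) _)

/-- Growth lemma (E3 of paper 619). -/
theorem growth [Infinite k] (A : Submodule k M) (h1 : (1 : M) ∈ A)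
    (hgen : IntermediateField.adjoin k (A : Set M) = ⊤) :
    3 * finrank k A ≤ 2 * finrank k (A * A : Submodule k M) ∨ A * A = ⊤ := by
  rw [or_iff_not_imp_left, not_le]
  intro h
  have hall := all_large A h1 hgen h
  have hrk : ∀ u, finrank k (LinearMap.range (Tu A u)) + finrank k (Ku A u) = finrank k A := by
    intro u
    rw [← ker_Tu]
    exact LinearMap.finrank_range_add_finrank_ker _
  obtain ⟨u0, hu0⟩ : ∃ u0, ∀ u, finrank k (LinearMap.range (Tu A u)) ≤
      finrank k (LinearMap.range (Tu A u0)) := by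
    have hb : BddAbove (Set.range fun u => finrank k (LinearMap.range (Tu A u))) := by
      refine ⟨finrank k A, ?_⟩
      rintro _ ⟨u, rfl⟩
      have := hrk u
      simp only
      omega
    obtain ⟨u0, hu0⟩ := Nat.sSup_mem (Set.range_nonempty
      fun u => finrank k (LinearMap.range (Tu A u))) hb
    refine ⟨u0, fun u => ?_⟩
    simp only at hu0
    rw [hu0]
    exact le_csSup hb ⟨u, rfl⟩
  obtain ⟨b, hb, hb0⟩ := Submodule.exists_mem_ne_zero_of_ne_bot (p := Ku A u0) (by
    intro h4
    have := hall u0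
    rw [h4, finrank_bot] at this
    omega)
  have hTb : Tu A u0 ⟨b, (mem_Ku.mp hb).1⟩ = 0 := by
    rw [Tu_apply, Submodule.mkQ_apply, Submodule.Quotient.mk_eq_zero]
    exact (mem_Ku.mp hb).2
  have hmem : ∀ u, Tu A u ⟨b, (mem_Ku.mp hb).1⟩ ∈ LinearMap.range (Tu A u0) := by
    intro u
    refine maxrank (Tu A u0) (Tu A u) Set.univ Set.infinite_univ (fun s _ => ?_) _ hTb
    have : Tu A u0 + s • Tu A u = Tu A (u0 + s • u) := by
      ext a
      rw [LinearMap.add_apply, LinearMap.smul_apply, Tu_apply, Tu_apply, Tu_apply, ← map_smul,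
        ← map_add, add_mul, smul_mul_assoc]
    rw [this]
    exact hu0 _
  have htop : (LinearMap.range (Tu A u0)).comap A.mkQ = ⊤ := by
    rw [eq_top_iff]
    intro w _
    have := hmem (w * b⁻¹)
    rw [Tu_apply] at this
    have e : w * b⁻¹ * b = w := by rw [mul_assoc, inv_mul_cancel₀ hb0, mul_one]
    simp only [e] at this
    exact this
  have hrt : LinearMap.range (Tu A u0) = ⊤ := by
    rw [eq_top_iff]
    intro y _
    obtain ⟨w, rfl⟩ := Submodule.mkQ_surjective A y
    have : w ∈ (LinearMap.range (Tu A u0)).comap A.mkQ := by rw [htop]; trivial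
    exact this
  have hq := Submodule.finrank_quotient_add_finrank A
  have hrt' : finrank k (LinearMap.range (Tu A u0)) = finrank k (M ⧸ A) := by
    rw [hrt, finrank_top]
  have h2 := hrk u0
  have h3 := hall u0
  by_contra hne
  obtain ⟨φ, hφ, hle⟩ := Submodule.exists_le_ker_of_lt_top (A * A) (lt_top_iff_ne_top.mpr hne)
  have h4 := isotropic_le A φ hφ (fun a ha b hb => hle (Submodule.mul_mem_mul ha hb))
  omega

theorem one_mem_pow (A : Submodule k M) (h1 : (1 : M) ∈ A) (n : ℕ) : (1 : M) ∈ A ^ n := by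
  have := Submodule.pow_mem_pow A h1 n
  rwa [one_pow] at this

theorem pow_mono_of_one_mem (A : Submodule k M) (h1 : (1 : M) ∈ A) {m n : ℕ} (h : m ≤ n) :
    A ^ m ≤ A ^ n := by
  obtain ⟨j, rfl⟩ := Nat.exists_eq_add_of_le h
  rw [pow_add]
  intro x hx
  have := Submodule.mul_mem_mul hx (one_mem_pow A h1 j)
  rwa [mul_one] at this

theorem adjoin_pow (A : Submodule k M) (h1 : (1 : M) ∈ A)
    (hgen : IntermediateField.adjoin k (A : Set M) = ⊤) {n : ℕ} (hn : 1 ≤ n) :
    IntermediateField.adjoin k ((A ^ n : Submodule k M) : Set M) = ⊤ := by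
  rw [eq_top_iff, ← hgen]
  apply IntermediateField.adjoin.mono
  have := pow_mono_of_one_mem A h1 hn
  rw [pow_one] at this
  exact this

theorem top_mul_self : (⊤ : Submodule k M) * ⊤ = ⊤ := by
  rw [eq_top_iff]
  intro x _
  have := Submodule.mul_mem_mul (Submodule.mem_top (R := k) (x := x))
    (Submodule.mem_top (R := k) (x := (1 : M)))
  rwa [mul_one] at this

/-- Growth of the powers `A ^ (2 ^ i)` (E4 of paper 619). -/
theorem growth_pow [Infinite k] (A : Submodule k M) (h1 : (1 : M) ∈ A)
    (hgen : IntermediateField.adjoin k (A : Set M) = ⊤) (i : ℕ) :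
    3 ^ i * finrank k A ≤ 2 ^ i * finrank k (A ^ (2 ^ i) : Submodule k M) ∨ A ^ (2 ^ i) = ⊤ := by
  induction i with
  | zero =>
    left
    have e : A ^ (2 ^ 0) = A := by rw [pow_zero, pow_one]
    rw [e]
    simp
  | succ i ih =>
    have e : A ^ (2 ^ (i + 1)) = A ^ (2 ^ i) * A ^ (2 ^ i) := by
      rw [← pow_add]
      congr 1
      ring
    rcases ih with ih | ih
    · rcases growth (A ^ (2 ^ i)) (one_mem_pow A h1 _)
        (adjoin_pow A h1 hgen Nat.one_le_two_pow) with h | h
      · left
        rw [e]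
        calc 3 ^ (i + 1) * finrank k A = 3 * (3 ^ i * finrank k A) := by ring
          _ ≤ 3 * (2 ^ i * finrank k (A ^ (2 ^ i) : Submodule k M)) := Nat.mul_le_mul_left _ ih
          _ = 2 ^ i * (3 * finrank k (A ^ (2 ^ i) : Submodule k M)) := by ring
          _ ≤ 2 ^ i * (2 * finrank k (A ^ (2 ^ i) * A ^ (2 ^ i) : Submodule k M)) :=
            Nat.mul_le_mul_left _ h
          _ = 2 ^ (i + 1) * finrank k (A ^ (2 ^ i) * A ^ (2 ^ i) : Submodule k M) := by ring
      · right
        rw [e, h]
    · right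
      rw [e, ih, top_mul_self]

/-- All powers from `2 ^ i` on are everything, if `1.5 ^ i dim A ≥ [M : k]`. -/
theorem pow_eq_top [Infinite k] (A : Submodule k M) (h1 : (1 : M) ∈ A)
    (hgen : IntermediateField.adjoin k (A : Set M) = ⊤) {i : ℕ}
    (h : 2 ^ i * finrank k M ≤ 3 ^ i * finrank k A) {j : ℕ} (hj : 2 ^ i ≤ j) : A ^ j = ⊤ := by
  have h2 : A ^ (2 ^ i) = ⊤ := by
    rcases growth_pow A h1 hgen i with h3 | h3
    · apply Submodule.eq_top_of_finrank_eq
      have h4 := Submodule.finrank_le (A ^ (2 ^ i) : Submodule k M)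
      have h5 : 2 ^ i * finrank k M ≤ 2 ^ i * finrank k (A ^ (2 ^ i) : Submodule k M) := h.trans h3
      exact le_antisymm h4 (Nat.le_of_mul_le_mul_left h5 (by positivity))
    · exact h3
  rw [eq_top_iff, ← h2]
  exact pow_mono_of_one_mem A h1 hj

/-- The sum of the defects `[M : k] - dim A ^ j`. -/
theorem sum_defect_le [Infinite k] (A : Submodule k M) (h1 : (1 : M) ∈ A)
    (hgen : IntermediateField.adjoin k (A : Set M) = ⊤) {i : ℕ}
    (h : 2 ^ i * finrank k M ≤ 3 ^ i * finrank k A) (N : ℕ) :
    ∑ j ∈ Finset.range N, (finrank k M - finrank k (A ^ j : Submodule k M)) ≤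
      2 ^ i * finrank k M := by
  have h2 : ∀ j ∈ Finset.range N, (finrank k M - finrank k (A ^ j : Submodule k M)) ≤
      if j < 2 ^ i then finrank k M else 0 := by
    intro j _
    split_ifs with hj
    · exact Nat.sub_le _ _
    · rw [pow_eq_top A h1 hgen h (not_lt.mp hj), finrank_top, Nat.sub_self]
  refine (Finset.sum_le_sum h2).trans ?_
  rw [← Finset.sum_filter, Finset.sum_const, smul_eq_mul]
  apply Nat.mul_le_mul_right
  refine (Finset.card_le_card (t := Finset.range (2 ^ i)) ?_).trans (by rw [Finset.card_range])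
  intro j hj
  rw [Finset.mem_range]
  exact (Finset.mem_filter.mp hj).2

end growth

end VFSharp
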