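import Mathlib
import Pool.Agent.Lib.MP_44a246_ntSH.H04
import Pool.Agent.Lib.MP_44a246_ntSH.H05
import Pool.Agent.Lib.MP_44a246_ntSH.H06

/-!
Paper 619: composition of `caseB`, `caseA` and `planeCurve`.
-/

namespace Pool.Agent.Lib.MP_44a246_ntSH

open Pool.Agent.Lib.MP_44a246_nt
open Pool.Agent.Lib.MP_44a246_ntL
open Pool.Agent.Lib.MP_44a246_ntS
open Pool.Agent.Lib.MP_44a246_ntF
open Pool.Agent.Lib.MP_44a246_ntO
open Pool.Agent.Lib.MP_44a246_ntX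
open Pool.Agent.Lib.MP_e52354_nt
open WithZero Module

universe u v

/-- **The plane curve of small height.** If `n M ≤ C₀ H` and `n` is large, then the projection of
the point to the plane lies on a curve of degree at most `C₁ n` and of very small height. -/
theorem plane_of_hyp (C₀ ε : ℝ) (hC : 1000 ≤ C₀) (hε : 0 < ε) : ∃ (n₀ C₁ : ℕ),
    ∀ (n d : ℕ), n₀ ≤ n →
    ∀ (κ : Type u) (L : Type v) [Field κ] [IsAlgClosed κ] [CharZero κ] [Field L] [CharZero L]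
      [Algebra κ L] (_ : IsFF κ L) (X : DatP κ (L := L) n) (M E : ℝ), Hyp κ X.x d C₀ M E →
      (X.Δ : ℝ) ≤ E →
      ∃ (a : ℕ) (A : MvPolynomial (Fin 3) L), a ≤ C₁ * n ∧ A ≠ 0 ∧ A.IsHomogeneous a ∧
        MvPolynomial.eval X.p A = 0 ∧ (C₁ * n * polyHeight κ A : ℝ) ≤ ε * height κ X.x := by
  obtain ⟨θ, n₁, C₁, hθ, h1⟩ := planeCurve.{u, v} C₀ ε hC hε
  obtain ⟨n₂, h2⟩ := caseA.{u, v} C₀ θ hC hθ
  obtain ⟨n₃, h3⟩ := caseB.{u, v} C₀ hC
  refine ⟨max n₁ (max n₂ n₃), C₁, fun n d hn κ L _ _ _ _ _ _ h X M E hyp hΔ => ?_⟩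
  have hA := h3 n d ((le_max_right _ _).trans ((le_max_right _ _).trans hn)) κ L h X.x M E hyp
  obtain ⟨s, W, hs1, hs2, hW, hW2⟩ :=
    h2 n d ((le_max_left _ _).trans ((le_max_right _ _).trans hn)) κ L h X.x M E hyp hA
  exact h1 n d ((le_max_left _ _).trans hn) κ L h X M E hyp hΔ s W hs1 hs2 hW hW2

end Pool.Agent.Lib.MP_44a246_ntSH
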