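import Mathlib
import Pool.Agent.Lib.MP_44a246_ntE.E06

/-!
The dimension of the powers of a linear system, for all exponents.
-/

namespace Pool.Agent.Lib.MP_44a246_ntSH

open Pool.Agent.Lib.MP_44a246_nt Pool.Agent.Lib.MP_44a246_ntL
open Pool.Agent.Lib.MP_44a246_ntR
open Pool.Agent.Lib.MP_44a246_ntE
open WithZero Polynomial Module

variable {κ L : Type*} [Field κ] [IsAlgClosed κ] [CharZero κ] [Field L] [Algebra κ L]
  [Algebra (RatFunc κ) L] [IsScalarTower κ (RatFunc κ) L] [FiniteDimensional (RatFunc κ) L]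

/-- the dimension of the span of the products of `d` elements, for any `d` -/
theorem finrank_pow_ge_all {P : Place κ L →₀ ℤ} (hP : IsPole P) {W : Submodule κ L}
    [FiniteDimensional κ W] (h1 : (1 : L) ∈ W) (hX : tL κ L ∈ W)
    {f : Fin (finrank (RatFunc κ) L) → L} {j : Fin (finrank (RatFunc κ) L) → ℕ}
    (hf : LinearIndependent (RatFunc κ) f) (hfj : ∀ i, f i ∈ W ^ j i) (d : ℕ) :
    finrank (RatFunc κ) L * (d + 1) ≤ finrank κ ↥(W ^ d) + ∑ i, j i := by
  -- the elements `X ^ a * f i`, `a ≤ d - j i`, are independent over `κ` (`gr4_pow_indep`,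
  -- `linearIndependent_smul`, as in `gr4_lower`) and are in `W ^ d`
  classical
  have hW1 : ∀ k, (1 : L) ∈ W ^ k := by
    intro k
    have h2 := Submodule.pow_mem_pow W h1 k
    rwa [one_pow] at h2
  have hmono : ∀ {a b : ℕ}, a ≤ b → W ^ a ≤ W ^ b := by
    intro a b hab x hx
    obtain ⟨c, rfl⟩ := Nat.exists_eq_add_of_le hab
    rw [pow_add, ← mul_one x]
    exact Submodule.mul_mem_mul hx (hW1 c)
  have hfd : FiniteDimensional κ ↥(W ^ d) := by
    have h2 : W.FG := Module.Finite.iff_fg.1 inferInstance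
    exact Module.Finite.iff_fg.2 (h2.pow d)
  have hli : LinearIndependent κ fun p : ℕ × Fin (finrank (RatFunc κ) L) =>
      (RatFunc.X : RatFunc κ) ^ p.1 • f p.2 := linearIndependent_smul gr4_pow_indep hf
  obtain ⟨τ, hτ⟩ : ∃ τ : (Σ i : Fin (finrank (RatFunc κ) L), Fin (d + 1 - j i)) →
      ℕ × Fin (finrank (RatFunc κ) L), ∀ q, τ q = ((q.2 : ℕ), q.1) := ⟨_, fun _ => rfl⟩
  have hτi : Function.Injective τ := by
    rintro ⟨i, a⟩ ⟨i', a'⟩ h
    rw [hτ, hτ, Prod.mk.injEq] at h
    obtain ⟨h2, h3⟩ := h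
    simp only at h2 h3
    subst h3
    rw [Fin.ext h2]
  have hli2 := hli.comp τ hτi
  have hmem : ∀ q : (Σ i : Fin (finrank (RatFunc κ) L), Fin (d + 1 - j i)),
      ((fun p : ℕ × Fin (finrank (RatFunc κ) L) =>
        (RatFunc.X : RatFunc κ) ^ p.1 • f p.2) ∘ τ) q ∈ W ^ d := by
    intro q
    rw [Function.comp_apply, hτ]
    have h2 : (q.2 : ℕ) + j q.1 ≤ d := by
      have h3 := q.2.2
      omega
    refine hmono h2 ?_
    have h3 : (RatFunc.X : RatFunc κ) ^ (q.2 : ℕ) • f q.1 = tL κ L ^ (q.2 : ℕ) * f q.1 := by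
      rw [Algebra.smul_def, map_pow]
      rfl
    simp only
    rw [h3, pow_add]
    exact Submodule.mul_mem_mul (Submodule.pow_mem_pow W hX _) (hfj _)
  have hli3 : LinearIndependent κ fun q => (⟨_, hmem q⟩ : ↥(W ^ d)) := by
    apply LinearIndependent.of_comp (Submodule.subtype _)
    exact hli2
  have h2 := hli3.fintype_card_le_finrank
  rw [Fintype.card_sigma] at h2
  simp only [Fintype.card_fin] at h2
  have h3 : finrank (RatFunc κ) L * (d + 1) ≤ ∑ i, (d + 1 - j i) + ∑ i, j i := by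
    rw [← Finset.sum_add_distrib]
    have h4 : ∀ i ∈ (Finset.univ : Finset (Fin (finrank (RatFunc κ) L))),
        d + 1 ≤ d + 1 - j i + j i := by
      intro i _
      omega
    refine le_trans (le_of_eq ?_) (Finset.sum_le_sum h4)
    rw [Finset.sum_const, Finset.card_univ, Fintype.card_fin, smul_eq_mul]
  omega

end Pool.Agent.Lib.MP_44a246_ntSH
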