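import Mathlib
import Pool.Agent.Lib.MP_44a246_ntE.E06
import Pool.Agent.Lib.MP_44a246_ntE.E08
import Pool.Agent.Lib.MP_44a246_ntR.GR5
import Pool.Agent.Lib.MP_44a246_ntE.E10
import Pool.Agent.Lib.MP_44a246_ntSH.XE06

/-!
Parameters and conditions for a curve in projective space, for forms of all degrees.
-/

namespace Pool.Agent.Lib.MP_44a246_ntSH

open Pool.Agent.Lib.MP_e52354_nt
open Pool.Agent.Lib.MP_44a246_nt
open Pool.Agent.Lib.MP_44a246_ntL
open Pool.Agent.Lib.MP_44a246_ntR
open Pool.Agent.Lib.MP_44a246_ntS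
open Pool.Agent.Lib.MP_44a246_ntE
open WithZero Polynomial Module

variable {κ M : Type*} [Field κ] [IsAlgClosed κ] [CharZero κ] [Field M] [Algebra κ M]

omit [IsAlgClosed κ] [CharZero κ] in
/-- the field generated by `X, Y` over `κ` is generated by `Y` over `κ (X)` -/
private theorem e10_gen [Algebra (RatFunc κ) M] [IsScalarTower κ (RatFunc κ) M] {X Y : M}
    (hX : tL κ M = X) (hgen : IntermediateField.adjoin κ {X, Y} = ⊤) :
    IntermediateField.adjoin (RatFunc κ) {Y} = ⊤ := by
  rw [eq_top_iff]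
  intro x _
  have h1 : x ∈ IntermediateField.adjoin κ {X, Y} := by
    rw [hgen]
    exact IntermediateField.mem_top
  have h2 : IntermediateField.adjoin κ {X, Y} ≤
      (IntermediateField.adjoin (RatFunc κ) {Y}).restrictScalars κ := by
    rw [IntermediateField.adjoin_le_iff]
    rintro y (rfl | hy)
    · change _ ∈ IntermediateField.adjoin (RatFunc κ) {Y}
      rw [← hX]
      exact (IntermediateField.adjoin (RatFunc κ) {Y}).algebraMap_mem _
    · change y ∈ IntermediateField.adjoin (RatFunc κ) {Y}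
      exact IntermediateField.subset_adjoin (RatFunc κ) {Y} hy
  exact h2 h1

omit [IsAlgClosed κ] [CharZero κ] in
/-- the value of an element of the span -/
private theorem e10_vmax (v : Place κ M) {n : ℕ} {γ : Fin (n + 1) → M} {x : M}
    (hx : x ∈ Submodule.span κ (Set.range γ)) : v.1 x ≤ vmax v.1 γ := by
  induction hx using Submodule.span_induction with
  | mem x h =>
    obtain ⟨i, rfl⟩ := h
    exact Finset.le_sup (f := fun i => v.1 (γ i)) (Finset.mem_univ i)
  | zero =>
    rw [map_zero]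
    exact zero_le
  | add x y _ _ hx hy => exact (v.1.map_add x y).trans (max_le hx hy)
  | smul c x _ hx =>
    rw [Algebra.smul_def, map_mul]
    rcases eq_or_ne c 0 with h | h
    · rw [h, map_zero, map_zero, zero_mul]
      exact zero_le
    · rw [v.2.2 c h, one_mul]
      exact hx

omit [IsAlgClosed κ] [CharZero κ] in
/-- products of elements of a Riemann-Roch space -/
private theorem e10_pow_le {P : Place κ M →₀ ℤ} {W : Submodule κ M} (hW : W ≤ rr P) (k : ℕ) :
    W ^ k ≤ rr (k • P) := by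
  induction k with
  | zero =>
    rw [pow_zero, Submodule.one_le]
    intro v
    rw [map_one, zero_nsmul, Finsupp.zero_apply, exp_zero]
  | succ k ih =>
    rw [pow_succ, Submodule.mul_le]
    intro a ha b hb v
    have h1 := ih ha v
    have h2 := hW hb v
    rw [map_mul, succ_nsmul, Finsupp.add_apply, exp_add]
    exact mul_le_mul' h1 h2

/-- **Parameters and conditions.** Let `z = (1, X, Y, ...)` be `R + 3` elements of the span `W` of
the `γ j` which generate `M`, and let `X` have the poles of `γ`; `m = [M : κ (X)]`. -/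
theorem count_all (hM : IsFF κ M) {n R : ℕ} {γ : Fin (n + 1) → M} {z : Fin (R + 3) → M}
    (hz : ∀ l, z l ∈ Submodule.span κ (Set.range γ)) (h0 : z 0 = 1)
    (hX : Transcendental κ (z 1))
    (hmax : ∀ w : Place κ M, vmax w.1 γ ≤ max 1 (w.1 (z 1)))
    (hgen : IntermediateField.adjoin κ {z 1, z 2} = ⊤) {T : Type*} [Fintype T]
    {D₀ : T → Derivation ℤ κ κ} {D : T → Derivation ℤ M M}
    (hD : ∀ t, ∀ u : κ, D t (algebraMap κ M u) = algebraMap κ M (D₀ t u))
    (hDX : ∀ t, D t (z 1) = 0) :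
    ∃ (S : Submodule κ (T → κ)) (m p J s : ℕ), height κ ![1, z 1] = m ∧
      Fintype.card T ≤ finrank κ S + p ∧ (∀ c ∈ S, ∀ l, Dc D c (z l) = 0) ∧
      (∀ d,
        m * (d + 1) ≤ finrank κ ↥(Submodule.span κ (Set.range γ) ^ d) + J) ∧
      ((m = 1 ∧ J = 0 ∧ p = 2 * (R + 1)) ∨
        (2 ≤ m ∧ 2 ≤ s ∧ s ≤ R + 2 ∧
          p ≤ (R + 2 - s) * (s + 1) + (s - 2) * (m + 1) + (m + 2 * J + 1) ∧
          ((2 * s ≤ m ∧ 2 * J = m * (m - 1)) ∨ (m < 2 * s ∧ s ≤ m ∧ J + s + 1 ≤ 2 * m)))) := by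
  -- `with_sep` for `z 1`; `P` from `exists_pole`; `z l ∈ rr P` because
  -- `w (z l) ≤ vmax w γ ≤ max 1 (w X)`; `exists_adapted` and `finrank_pow_ge` for
  -- `W' = span (range z) ≤ span (range γ)` (`Submodule.pow_le_pow_left`, monotonicity of
  -- `finrank`), `exists_kill`, `ramDeg_le_basis` (`W' ^ j ≤ rr (j • P)`)
  classical
  refine with_sep hM hX ?_
  intro iA t1 iR t2 iI t3 fd hXf
  have htower : IsScalarTower κ (RatFunc κ) M := tower_ratFunc
  have htL : tL κ M = z 1 := by rw [tL_eq, hXf]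
  obtain ⟨P, hP⟩ := exists_pole κ M
  have hzP : ∀ l, z l ∈ rr P := by
    intro l v
    have h1 : v.1 (z l) ≤ vmax v.1 γ := e10_vmax v (hz l)
    refine (h1.trans (hmax v)).trans (max_le ?_ ?_)
    · rw [← exp_zero, exp_le_exp]
      exact hP.nonneg v
    · refine le_exp_log.trans ?_
      rw [exp_le_exp, hP v, htL]
      exact le_max_right _ _
  have hgen' := e10_gen htL hgen
  obtain ⟨W, hW⟩ : ∃ W : Submodule κ M, W = Submodule.span κ (Set.range z) := ⟨_, rfl⟩
  have hzW : ∀ l, z l ∈ W := fun l => by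
    rw [hW]
    exact Submodule.subset_span ⟨l, rfl⟩
  have hWP : W ≤ rr P := by
    rw [hW, Submodule.span_le]
    rintro _ ⟨l, rfl⟩
    exact hzP l
  have hWγ : W ≤ Submodule.span κ (Set.range γ) := by
    rw [hW, Submodule.span_le]
    rintro _ ⟨l, rfl⟩
    exact hz l
  have hWf : FiniteDimensional κ W := by
    rw [hW]
    exact FiniteDimensional.span_of_finite _ (Set.finite_range z)
  have h1W : (1 : M) ∈ W := h0 ▸ hzW 0
  have htW : tL κ M ∈ W := by
    rw [htL]
    exact hzW 1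
  obtain ⟨s, hs⟩ : ∃ s, finrank κ W = s + 1 := by
    refine ⟨finrank κ W - 1, ?_⟩
    have h2 : 0 < finrank κ W := by
      rw [Module.finrank_pos_iff_exists_ne_zero]
      refine ⟨⟨1, h1W⟩, fun h => ?_⟩
      exact one_ne_zero (congrArg Subtype.val h)
    omega
  obtain ⟨f, j, hf, hfj, hjm, hcase⟩ := exists_adapted hP h1W htW (hzW 2) hWP hgen' hs
  obtain ⟨S, p, hp1, hp2, hp3⟩ := exists_kill hP h0 hXf.symm hzP hgen' (by rw [← hW, hs]) hD
    (fun t => by rw [hXf]; exact hDX t)
  have hram := ramDeg_le_basis hP hf (fun i => e10_pow_le hWP (j i) (hfj i))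
  have hram' : ramDeg κ M (RatFunc κ) ≤ 2 * ∑ i, j i := by exact_mod_cast hram
  refine ⟨S, finrank (RatFunc κ) M, p, ∑ i, j i, s, ?_, hp1, hp2, ?_, ?_⟩
  · rw [finrank_eq_height κ M, htL]
  · intro d
    have h2 := finrank_pow_ge_all hP h1W htW hf hfj d
    have h3 : FiniteDimensional κ ↥(Submodule.span κ (Set.range γ) ^ d) := by
      have h4 : (Submodule.span κ (Set.range γ)).FG :=
        Submodule.fg_span (Set.finite_range γ)
      exact Module.Finite.iff_fg.2 (h4.pow d)
    have h5 : finrank κ ↥(W ^ d) ≤ finrank κ ↥(Submodule.span κ (Set.range γ) ^ d) :=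
      Submodule.finrank_mono (pow_le_pow_left' hWγ d)
    omega
  · rcases hp3 with ⟨hm, hs1, hp⟩ | ⟨hm, hs1, hs2, hp⟩
    · left
      refine ⟨hm, ?_, hp⟩
      rcases hcase with ⟨h2, h3⟩ | ⟨h2, h3, h4⟩
      · omega
      · omega
    · right
      refine ⟨hm, hs1, hs2, ?_, hcase⟩
      rw [hp]
      omega

end Pool.Agent.Lib.MP_44a246_ntSH
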