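import Mathlib
import Pool.Agent.Lib.MP_44a246_ntSH.XE10
import Pool.Agent.Lib.MP_44a246_ntL.LMain
import Pool.Agent.Lib.MP_44a246_ntU.U12
import Pool.Agent.Lib.MP_44a246_ntD.D19
import Pool.Agent.Lib.MP_44a246_ntD.D20
import Pool.Agent.Lib.MP_44a246_ntK.K10
import Pool.Agent.Lib.MP_44a246_ntK.K12
import Pool.Agent.Lib.MP_44a246_ntK.K22
import Pool.Agent.Lib.MP_44a246_ntC.C16
import Pool.Agent.Lib.MP_44a246_ntC.C17
import Pool.Agent.Lib.MP_44a246_ntE.E09
import Pool.Agent.Lib.MP_44a246_ntE.E10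
import Pool.Agent.Lib.MP_44a246_ntE.E11
import Pool.Agent.Lib.MP_44a246_ntE.E12
import Pool.Agent.Lib.MP_44a246_ntE.E13
import Pool.Agent.Lib.MP_44a246_ntE.E30

/-!
**Step E**: the points of a section `t_j = H_j (x)` of a weighted projective variety on plane
curves of small degree move in few directions. The number of the parameters of the curve is
compared with the number of the conditions.
-/

namespace Pool.Agent.Lib.MP_44a246_ntSH

open Pool.Agent.Lib.MP_44a246_ntE

open Pool.Agent.Lib.MP_44a246_ntK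
open Pool.Agent.Lib.MP_44a246_ntR
open Pool.Agent.Lib.MP_44a246_ntC
open Pool.Agent.Lib.MP_44a246_ntD
open Pool.Agent.Lib.MP_44a246_ntQ
open Pool.Agent.Lib.MP_e52354_nt
open Pool.Agent.Lib.MP_44a246_nt
open Pool.Agent.Lib.MP_44a246_ntL
open Pool.Agent.Lib.MP_44a246_ntS
open Pool.Agent.Lib.MP_44a246_ntG
open Pool.Agent.Lib.MP_44a246_ntU
open WithZero Polynomial Module

universe u

/-- an intermediate field which contains `X` and `Y` -/
private theorem top_of_mem {κ M : Type*} [Field κ] [Field M] [Algebra κ M] [Algebra κ[X] M]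
    [IsScalarTower κ κ[X] M] [Algebra (RatFunc κ) M] [IsScalarTower κ[X] (RatFunc κ) M] {Y : M}
    (hgen : IntermediateField.adjoin (RatFunc κ) {Y} = ⊤) (F : IntermediateField κ M)
    (hX : algebraMap κ[X] M X ∈ F) (hY : Y ∈ F) : F = ⊤ := by
  have h1 : ∀ g : κ[X], algebraMap κ[X] M g ∈ F := by
    intro g
    have h2 : algebraMap κ[X] M g = aeval (algebraMap κ[X] M X) g := by
      rw [aeval_algebraMap_apply, aeval_X_left_apply]
    rw [h2, aeval_eq_sum_range]
    exact sum_mem fun i _ => F.smul_mem (pow_mem hX i)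
  have h2 : ∀ u : RatFunc κ, algebraMap (RatFunc κ) M u ∈ F := by
    intro u
    obtain ⟨a, b, hb, rfl⟩ := IsFractionRing.div_surjective (A := κ[X]) u
    rw [map_div₀, ← IsScalarTower.algebraMap_apply, ← IsScalarTower.algebraMap_apply]
    exact div_mem (h1 a) (h1 b)
  let G : IntermediateField (RatFunc κ) M := { F.toSubfield with algebraMap_mem' := h2 }
  have h3 : G = ⊤ := by
    rw [eq_top_iff, ← hgen, IntermediateField.adjoin_le_iff, Set.singleton_subset_iff]
    exact hY
  rw [eq_top_iff]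
  intro z _
  have h4 : z ∈ G := by
    rw [h3]
    exact IntermediateField.mem_top
  exact h4

/-- **Step E**, for points which need not be generic. -/
theorem no_certW_all {κ : Type u} [Field κ] [IsAlgClosed κ] [CharZero κ] {k : Type*} [Field k]
    [CharZero k] [Algebra k κ] {n m' p r b s ρ : ℕ} {d : Fin p → ℕ} (hr : 2 ≤ r)
    (hd : ∀ B : Finset (Fin p), B.card = ρ → 2 * r + s ≤ (∑ j ∈ B, d j) + m' + ρ)
    (hd1 : ∀ B : Finset (Fin p), B.card = ρ → r + 1 ≤ ∑ j ∈ B, d j)
    (hd2 : ∀ B : Finset (Fin p), B.card = ρ → (ρ + 3) * (2 * b) ≤ (∑ j ∈ B, d j) + ρ)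
    {ι : Type*} {e : ι → ℕ} {f : ι → MvPolynomial (Fin p ⊕ Fin (n + 1)) k}
    (hf : ∀ i, (f i).IsWeightedHomogeneous (wtP (n + 1) d) (e i))
    (hI : ringKrullDim (MvPolynomial (Fin (n + 1)) k ⧸ imI f) ≤ ((r + 1 : ℕ) : ℕ))
    {a : Fin p → (Fin (n + 1) →₀ ℕ) → κ} (δ : Fin m' → Derivation ℤ κ κ)
    (hδk : ∀ i, ∀ u : k, δ i (algebraMap k κ u) = 0)
    (hδa : ∀ i j, ∀ I ∈ expo (Fin (n + 1)) (d j), δ i (a j I) = 0)
    {P : Finset (Fin p × (Fin (n + 1) →₀ ℕ))} (hP : P.card ≤ s)
    (W : Fin p → (Fin (n + 1) →₀ ℕ) → Derivation ℤ κ κ)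
    (hWk : ∀ b I, ∀ u : k, W b I (algebraMap k κ u) = 0)
    (hWa : ∀ b, ∀ I ∈ expo (Fin (n + 1)) (d b), ∀ b', ∀ J ∈ expo (Fin (n + 1)) (d b'),
      (b', J) ∉ P → W b I (a b' J) = if (b, I) = (b', J) then 1 else 0)
    {x : Fin (n + 1) → κ}
    (hx : LinearIndependent κ
      (Fin.cons x (fun i k => δ i (x k)) : Fin (m' + 1) → Fin (n + 1) → κ))
    (hne : JRank ρ f (Sum.elim (fun j => Fval (d j) (a j) x) x : Fin p ⊕ Fin (n + 1) → κ)) :
    ¬ CertW e (aWP d a f) b x := by
  classical
  obtain ⟨R, rfl⟩ : ∃ R, r = R + 2 := ⟨r - 2, by omega⟩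
  rintro ⟨A, Bv, ξ₀, ξ₁, ξ₂, c, y₁, y, hboxA, -, hc, hξ₀, hξ₁, hξ₂, hA, hAY, hB, hF, h0, h1, h2,
    hproj⟩
  set α := (derivative A).evalEval y₁ y with hα
  obtain ⟨g, hirr, hf0, hfdeg, hfA, hfz⟩ := exists_factor hA hAY
  refine with_curve hirr hf0 ?_
  intro M _ _ _ _ _ _ _ _ _ Y hY hgen hfin ht halg
  set φ := algebraMap κ M with hφ
  set X' : M := algebraMap κ[X] M X with hX'
  -- specialisation
  have hspec : ∀ G : κ[X][X], evalEvalRingHom y₁ y G ≠ 0 → ev φ X' Y G ≠ 0 := by
    intro G hG h3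
    rw [hX', ev_aeval, hY] at h3
    obtain ⟨q, rfl⟩ := h3
    apply hG
    rw [map_mul]
    have h4 : evalEvalRingHom y₁ y g = 0 := hfz
    rw [h4, zero_mul]
  have hevA : ∀ G : κ[X][X], A ∣ G → ev φ X' Y G = 0 := by
    intro G hG
    rw [hX', ev_aeval, hY]
    exact hfA.trans hG
  have hAP : ev φ X' Y A = 0 := hevA A dvd_rfl
  have hAYP : ev φ X' Y (derivative A) ≠ 0 := hspec _ hAY
  set ω := ev φ X' Y (derivative A) with hω
  set γ : Fin (n + 1) → M := fun j => ev φ X' Y (Bv j) with hγdef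
  -- the relations between `γ` and the projection
  have hsum : ∀ ξ : Fin (n + 1) → κ, ev φ X' Y (∑ j, C (C (ξ j)) * Bv j) = ∑ j, φ (ξ j) * γ j := by
    intro ξ
    rw [map_sum]
    refine Finset.sum_congr rfl fun j _ => ?_
    rw [map_mul, ev_C_C]
  have r0 : ∑ j, φ (ξ₀ j) * γ j = ω := by
    rw [← hsum, ← sub_eq_zero, hω, ← map_sub]
    exact hevA _ h0
  have r1 : ∑ j, φ (ξ₁ j) * γ j = X' * ω := by
    rw [← hsum, ← sub_eq_zero, hω]
    have h4 : X' * ev φ X' Y (derivative A) = ev φ X' Y (C X * derivative A) := by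
      rw [map_mul, ev_C_X]
    rw [h4, ← map_sub]
    exact hevA _ h1
  have r2 : ∑ j, φ (ξ₂ j) * γ j = Y * ω := by
    rw [← hsum, ← sub_eq_zero, hω]
    have h4 : Y * ev φ X' Y (derivative A) = ev φ X' Y (X * derivative A) := by
      rw [map_mul, ev_X]
    rw [h4, ← map_sub]
    exact hevA _ h2
  have hγ : γ ≠ 0 := by
    intro h3
    apply hAYP
    rw [← r0, h3]
    simp
  -- the structure of an algebra over `k`
  let _ : Algebra k M := ((algebraMap κ M).comp (algebraMap k κ)).toAlgebra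
  have hkM : ∀ u : k, algebraMap k M u = algebraMap κ M (algebraMap k κ u) := fun u => rfl
  have tkM : IsScalarTower k κ M := IsScalarTower.of_algebraMap_eq hkM
  -- `γ` is a zero of all the forms
  have hFo : ∀ o : ι, Fval (e o) (fun I => algebraMap κ M (aWP d a f o I)) γ = 0 := by
    intro o
    have h3 := hevA _ (hF o)
    rw [← h3]
    unfold FB Fval mon
    rw [map_sum]
    refine Finset.sum_congr rfl fun I _ => ?_
    rw [map_mul, ev_C_C, map_prod]
    congr 1
    refine Finset.prod_congr rfl fun j _ => ?_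
    rw [map_pow]
  set η : Fin p → M := fun j => Fval (d j) (fun I => algebraMap κ M (a j I)) γ with hη
  have hfγ : ∀ i, MvPolynomial.aeval (Sum.elim η γ : Fin p ⊕ Fin (n + 1) → M) (f i) = 0 := by
    intro i
    rw [hη, ← Fval_aWP hf a γ i]
    exact hFo i
  -- the rank condition at the generic point of the curve
  have hne' : JRank ρ f (Sum.elim η γ : Fin p ⊕ Fin (n + 1) → M) := by
    set β := α * c with hβ
    have hβ0 : β ≠ 0 := mul_ne_zero hAY hc
    obtain ⟨i, jj, hdet⟩ := hne.smul hf hβ0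
    refine ⟨i, jj, ?_⟩
    set Hb : Fin p → κ[X][X] := fun j => FB (d j) (a j) Bv with hHb
    set N : Matrix (Fin ρ) (Fin ρ) κ[X][X] := Matrix.of fun a b =>
      MvPolynomial.aeval (Sum.elim Hb Bv : Fin p ⊕ Fin (n + 1) → κ[X][X])
        (MvPolynomial.pderiv (Sum.inl (jj b)) (f (i a))) with hN
    have h3 : ∀ (S : Type u) [Field S] [Algebra k S] (ψ : κ[X][X] →+* S)
        (_ : ∀ u : k, ψ (algebraMap k κ[X][X] u) = algebraMap k S u)
        (q : MvPolynomial (Fin p ⊕ Fin (n + 1)) k),
        ψ (MvPolynomial.aeval (Sum.elim Hb Bv : Fin p ⊕ Fin (n + 1) → κ[X][X]) q) =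
          MvPolynomial.aeval (Sum.elim (fun j => ψ (Hb j)) (fun j => ψ (Bv j)) :
          Fin p ⊕ Fin (n + 1) → S) q := by
      intro S _ _ ψ hψ q
      rw [MvPolynomial.aeval_def, MvPolynomial.hom_eval₂, MvPolynomial.aeval_def]
      congr 1
      · exact RingHom.ext hψ
      · funext t
        rcases t with t | t <;> rfl
    have h3' : ∀ (S : Type u) [Field S] [Algebra k S] (ψ : κ[X][X] →+* S)
        (_ : ∀ u : k, ψ (algebraMap k κ[X][X] u) = algebraMap k S u),
        ψ N.det = (Matrix.of fun a b => MvPolynomial.aeval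
          (Sum.elim (fun j => ψ (Hb j)) (fun j => ψ (Bv j)) : Fin p ⊕ Fin (n + 1) → S)
          (MvPolynomial.pderiv (Sum.inl (jj b)) (f (i a)))).det := by
      intro S _ _ ψ hψ
      rw [RingHom.map_det]
      congr 1
      ext a b
      rw [RingHom.mapMatrix_apply, Matrix.map_apply, hN, Matrix.of_apply, Matrix.of_apply,
        h3 S ψ hψ]
    have h4 : evalEvalRingHom y₁ y N.det ≠ 0 := by
      rw [h3' κ (evalEvalRingHom y₁ y) (fun u => by
        rw [IsScalarTower.algebraMap_apply k κ κ[X][X]]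
        show evalEval y₁ y (C (C (algebraMap k κ u))) = _
        rw [evalEval_C, eval_C])]
      have hBv : ∀ l, evalEvalRingHom y₁ y (Bv l) = β * x l := by
        intro l
        show evalEval y₁ y (Bv l) = β * x l
        rw [← hB l, hβ, mul_assoc]
      have h5 : (Sum.elim (fun j => evalEvalRingHom y₁ y (Hb j))
          (fun j => evalEvalRingHom y₁ y (Bv j)) : Fin p ⊕ Fin (n + 1) → κ) =
          Sum.elim (fun j => β ^ d j * (Sum.elim (fun j => Fval (d j) (a j) x) x :
            Fin p ⊕ Fin (n + 1) → κ) (Sum.inl j))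
            (fun l => β * (Sum.elim (fun j => Fval (d j) (a j) x) x :
              Fin p ⊕ Fin (n + 1) → κ) (Sum.inr l)) := by
        funext t
        rcases t with t | t
        · simp only [Sum.elim_inl]
          rw [← Fval_smul, hHb]
          unfold FB Fval mon
          rw [map_sum]
          refine Finset.sum_congr rfl fun I _ => ?_
          rw [map_mul, map_prod]
          congr 1
          · show evalEval y₁ y (C (C (a t I))) = a t I
            rw [evalEval_C, eval_C]
          · refine Finset.prod_congr rfl fun l _ => ?_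
            rw [map_pow, hBv]
        · simp only [Sum.elim_inr]
          exact hBv t
      rw [h5]
      exact hdet
    have h6 := hspec N.det h4
    rw [h3' M (ev φ X' Y) (fun u => by
      rw [IsScalarTower.algebraMap_apply k κ κ[X][X], hkM]
      show ev φ X' Y (C (C (algebraMap k κ u))) = _
      rw [ev_C_C])] at h6
    have h7 : ∀ j, ev φ X' Y (Hb j) = η j := by
      intro j
      rw [hHb, hη]
      unfold FB Fval mon
      rw [map_sum]
      refine Finset.sum_congr rfl fun I _ => ?_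
      rw [map_mul, ev_C_C, map_prod]
      congr 1
      refine Finset.prod_congr rfl fun j _ => ?_
      rw [map_pow]
    have h8 : (Sum.elim (fun j => ev φ X' Y (Hb j)) (fun j => ev φ X' Y (Bv j)) :
        Fin p ⊕ Fin (n + 1) → M) = Sum.elim η γ := by
      funext t
      rcases t with t | t
      · exact h7 t
      · rfl
    rw [h8] at h6
    exact h6
  obtain ⟨l, hl⟩ : ∃ l, γ l ≠ 0 := by
    by_contra hcon
    push Not at hcon
    exact hγ (funext hcon)
  obtain ⟨T, hT, hγT, hDT⟩ := exists_tangent (k := k) (r := R + 2) hl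
    (fun p j hj => card_le_of_dimI hf hI hfγ hl hj)
  have hMff : IsFF κ M := by
    have t : IsScalarTower κ (RatFunc κ) M := by
      refine IsScalarTower.of_algebraMap_eq fun u => ?_
      rw [IsScalarTower.algebraMap_apply κ κ[X] M,
        IsScalarTower.algebraMap_apply κ κ[X] (RatFunc κ),
        ← IsScalarTower.algebraMap_apply κ[X] (RatFunc κ) M]
    exact (sp5b_isFF κ).of_finite
  -- the field of the point
  have hgen' : pointField κ γ = ⊤ := by
    have hmem : ∀ ξ : Fin (n + 1) → κ, (∑ j, φ (ξ j) * γ j) / γ l ∈ pointField κ γ := by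
      intro ξ
      rw [Finset.sum_div]
      refine sum_mem fun j _ => ?_
      rw [mul_div_assoc]
      exact mul_mem ((pointField κ γ).algebraMap_mem _)
        (IntermediateField.subset_adjoin _ _ ⟨j, l, rfl⟩)
    refine top_of_mem hgen _ ?_ ?_
    · have h6 : X' = ((∑ j, φ (ξ₁ j) * γ j) / γ l) / ((∑ j, φ (ξ₀ j) * γ j) / γ l) := by
        rw [r0, r1]
        field_simp
      rw [← hX', h6]
      exact div_mem (hmem ξ₁) (hmem ξ₀)
    · have h6 : Y = ((∑ j, φ (ξ₂ j) * γ j) / γ l) / ((∑ j, φ (ξ₀ j) * γ j) / γ l) := by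
        rw [r0, r2]
        field_simp
      rw [h6]
      exact div_mem (hmem ξ₂) (hmem ξ₀)
  -- generic linear forms
  obtain ⟨u, hω₀, hmax, htr, hgen₂, hinj⟩ := exists_lin_forms hMff hγ hgen' (R := R) hT
  set ω₀ : M := ∑ j, (u 0 j : M) * γ j with hω₀d
  set z : Fin (R + 3) → M := fun i => (∑ j, (u i j : M) * γ j) / ω₀ with hzd
  set γh : Fin (n + 1) → M := fun j => γ j / ω₀ with hγh
  -- the functionals
  set aM : Fin p → (Fin (n + 1) →₀ ℕ) → M := fun j I => algebraMap κ M (a j I) with haM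
  obtain ⟨jj, Λ, cr', hjj, hΛ, hg0, hgder⟩ := exists_jac (a := aM) hf hfγ hne'
  -- the derivations
  set D₀ : ↥(tset d jj P) ⊕ Fin m' → Derivation ℤ κ κ :=
    Sum.elim (fun t => W (jj t.1.1) t.1.2) δ with hD₀
  have hfd : FiniteDimensional (IntermediateField.adjoin κ {z 1}) M := finite_over_adjoin hMff htr
  have halg1 : Algebra.IsAlgebraic (IntermediateField.adjoin κ {z 1}) M := inferInstance
  choose Dh hDhκ hDhX using fun t => exists_der_ext htr halg1 (D₀ t) 0
  have hFκ : ∀ (c : ↥(tset d jj P) ⊕ Fin m' → κ) (u : κ),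
      Dc Dh c (algebraMap κ M u) = algebraMap κ M (Dc D₀ c u) := by
    intro c u
    rw [Dc_apply, Dc_apply, map_sum]
    refine Finset.sum_congr rfl fun t _ => ?_
    rw [hDhκ, map_mul]
    rfl
  have hFk : ∀ (c : ↥(tset d jj P) ⊕ Fin m' → κ) (u : k), Dc Dh c (algebraMap k M u) = 0 := by
    intro c u
    rw [hkM, hFκ, Dc_apply, Finset.sum_eq_zero, map_zero]
    intro t _
    rcases t with t | i
    · rw [hD₀, Sum.elim_inl, hWk, mul_zero]
    · rw [hD₀, Sum.elim_inr, hδk, mul_zero]
  obtain ⟨S, mm, q, J, s', hmm, hq, hSz, hpow, hcase⟩ := count_all hMff (z := z) (γ := γh)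
    (D := Dh) (D₀ := D₀) (by
      intro i
      have h3 : z i = ∑ j, (u i j : κ) • γh j := by
        rw [hzd, hγh]
        simp only
        rw [Finset.sum_div]
        refine Finset.sum_congr rfl fun j _ => ?_
        rw [Algebra.smul_def, map_natCast, mul_div_assoc]
      rw [h3]
      exact Submodule.sum_mem _ fun j _ => Submodule.smul_mem _ _
        (Submodule.subset_span (Set.mem_range_self j)))
    (by rw [hzd]; exact div_self hω₀) htr (by
      intro w
      have h3 : γh = fun j => ω₀⁻¹ * γ j := by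
        funext j
        rw [hγh]
        simp only
        rw [div_eq_mul_inv, mul_comm]
      have hw0 : w.1 ω₀ ≠ 0 := w.1.ne_zero_iff.2 hω₀
      rw [h3, vmax_smul]
      refine (mul_le_mul_right (hmax w) (w.1 ω₀⁻¹)).trans ?_
      rw [mul_max, ← map_mul, ← map_mul, inv_mul_cancel₀ hω₀, map_one]
      refine max_le_max le_rfl (le_of_eq ?_)
      rw [inv_mul_eq_div]) hgen₂ hDhκ hDhX
  -- the derivations of `S` do not move the point
  have hSγ : ∀ c ∈ S, ∀ j, Dc Dh c (γ j / ω₀) = 0 := by
    intro c hc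
    set F := Dc Dh c with hF'
    have h3 : (fun j => F (γ j) - (F ω₀ / ω₀) * γ j) = 0 := by
      refine hinj _ ?_ ?_
      · exact T.sub_mem (hDT F (hFk c)) (T.smul_mem (F ω₀ / ω₀) hγT)
      · intro i
        have h4 : ∑ j, (u i j : M) * γ j = z i * ω₀ := by
          rw [hzd]
          simp only
          rw [div_mul_cancel₀ _ hω₀]
        have h5 : ∑ j, (u i j : M) * F (γ j) = z i * F ω₀ := by
          have h6 : F (∑ j, (u i j : M) * γ j) = ∑ j, (u i j : M) * F (γ j) := by
            rw [map_sum]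
            refine Finset.sum_congr rfl fun j _ => ?_
            rw [Derivation.leibniz, Derivation.map_natCast, smul_zero, add_zero, smul_eq_mul]
          rw [← h6, h4, Derivation.leibniz, hSz c hc i, smul_zero, add_zero, smul_eq_mul]
        have h6 : ∀ j, (u i j : M) * (F (γ j) - (F ω₀ / ω₀) * γ j) =
            (u i j : M) * F (γ j) - (F ω₀ / ω₀) * ((u i j : M) * γ j) := fun j => by ring
        simp only [h6]
        rw [Finset.sum_sub_distrib, ← Finset.mul_sum, h5, h4]
        field_simp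
        ring
    intro j
    have h4 := congrFun h3 j
    have h5 : F (γ j) = (F ω₀ / ω₀) * γ j := sub_eq_zero.1 h4
    have h6 : F (γ j / ω₀ * ω₀) = F (γ j) := by rw [div_mul_cancel₀ _ hω₀]
    rw [Derivation.leibniz, smul_eq_mul, smul_eq_mul, h5] at h6
    have h7 : ω₀ * F (γ j / ω₀) = 0 := by
      have h8 : γ j / ω₀ * F ω₀ = F ω₀ / ω₀ * γ j := by ring
      rw [h8] at h6
      linear_combination h6
    exact (mul_eq_zero.1 h7).resolve_left hω₀
  -- the count
  have hcount := count_forms (v := fun j => (vf A (cX κ) (Bv j)).evalEval y₁ y) (γ := γh) (q := q)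
    δ hδa hP W hWa hx hjj (fun t => rfl) (fun i => rfl) hq (fun c hc h3 b => by
      refine forms_vanish hΛ hg0 (hFκ c) (fun b => ?_) hω₀ (hSγ c hc) h3 b
      exact hgder b (Dc Dh c) (hFk c))
    (fun c hcS h3 => by
      set F := Dc Dh c with hF'
      set δ' := Dc δ (fun i => c (Sum.inr i)) with hδ'
      have hFδ : ∀ u : κ, F (algebraMap κ M u) = algebraMap κ M (δ' u) := by
        intro u
        rw [hF', hFκ, Dc_apply, hδ', Dc_apply, Fintype.sum_sum_type]
        congr 1
        rw [Finset.sum_eq_zero, zero_add]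
        · rfl
        · intro t _
          rw [h3, map_zero, zero_mul]
      refine der_x_mem hA hAY (mul_ne_zero hAY hc) (fun j => by rw [mul_assoc]; exact hB j) h0 h1
        δ' ?_
      intro hli
      have h4 := indep_of_spec (evalEvalRingHom y₁ y) (ev φ X' Y) hspec
        (N := (![Bv, fun j => vf A (cX κ) (Bv j), fun j => vf A (cE δ') (Bv j)] :
          Fin 3 → Fin (n + 1) → κ[X][X])) (by
          convert hli using 1
          funext i
          fin_cases i <;> rfl)
      -- the third vector is a combination of the others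
      have hFγ : ∀ j, F (γ j) = (F ω₀ / ω₀) * γ j := by
        intro j
        have h5 : F (γ j / ω₀ * ω₀) = F (γ j) := by rw [div_mul_cancel₀ _ hω₀]
        rw [Derivation.leibniz, hSγ c hcS j, smul_zero, add_zero, smul_eq_mul] at h5
        rw [← h5]
        ring
      have hFe : ∀ j, ω * F (γ j) = ev φ X' Y (vf A (cE δ') (Bv j)) +
          F X' * ev φ X' Y (vf A (cX κ) (Bv j)) := fun j => ev_vf φ δ' F hFδ hAP (Bv j)
      rw [Fintype.linearIndependent_iff] at h4
      have h5 := h4 ![ω * (F ω₀ / ω₀), - F X', -1] (by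
        rw [Fin.sum_univ_three]
        funext j
        simp only [Matrix.cons_val_zero, Matrix.cons_val_one, Matrix.cons_val, Pi.add_apply,
          Pi.smul_apply, smul_eq_mul, Pi.zero_apply]
        have h6 := hFe j
        rw [hFγ j] at h6
        have h7 : ev φ X' Y (Bv j) = γ j := rfl
        rw [h7]
        linear_combination h6) 2
      simp at h5)
  -- the degree
  have hdeg : mm ≤ 2 * b := by
    obtain ⟨Q, hQ0, hQh, hQ⟩ := hproj (fun i => u (Fin.castLE (by omega) i))
    have h3 := hevA _ hQ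
    have h4 : ev φ X' Y (MvPolynomial.aeval (fun i : Fin 3 => ∑ j,
        C (C ((u (Fin.castLE (by omega) i) j : ℕ) : κ)) * Bv j) Q) =
        MvPolynomial.aeval (fun i => ω₀ * (![1, z 1, z 2] : Fin 3 → M) i) Q := by
      rw [MvPolynomial.aeval_def, MvPolynomial.hom_eval₂, MvPolynomial.aeval_def]
      congr 1
      · ext c
        show ev φ X' Y (C (C c)) = _
        rw [ev_C_C]
      · funext i
        have h5 : ∀ i : Fin (R + 3), ω₀ * z i = ∑ j, (u i j : M) * γ j := by
          intro i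
          rw [hzd]
          simp only
          rw [mul_div_cancel₀ _ hω₀]
        have h6 : ∀ i : Fin (R + 3), ev φ X' Y (∑ j, C (C ((u i j : ℕ) : κ)) * Bv j) =
            ω₀ * z i := by
          intro i
          rw [h5, hsum]
          refine Finset.sum_congr rfl fun j _ => ?_
          rw [map_natCast]
        have h7 : z 0 = 1 := div_self hω₀
        fin_cases i
        · show ev φ X' Y (∑ j, C (C ((u 0 j : ℕ) : κ)) * Bv j) = ω₀ * 1
          rw [h6, h7]
        · exact h6 1
        · exact h6 2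
    rw [h4, Pool.Agent.Lib.MP_44a246_ntU.aeval_eq_Fval hQh, Fval_smul,
      ← Pool.Agent.Lib.MP_44a246_ntU.aeval_eq_Fval hQh] at h3
    have h5 : MvPolynomial.aeval (![1, z 1, z 2] : Fin 3 → M) Q = 0 :=
      (mul_eq_zero.1 h3).resolve_left (pow_ne_zero _ hω₀)
    have h6 := degree_le_form hMff htr hgen₂ hQ0 hQh h5
    rw [hmm] at h6
    exact_mod_cast h6
  -- the inequalities
  have hB1 : (Finset.univ.image jj).card = ρ := by
    rw [Finset.card_image_of_injective _ hjj, Finset.card_univ, Fintype.card_fin]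
  have hB2 : ∑ j ∈ Finset.univ.image jj, d j = ∑ b, d (jj b) :=
    Finset.sum_image fun x _ y _ h => hjj h
  have e1 := hd _ hB1
  have e2 := hd1 _ hB1
  have e3 := hd2 _ hB1
  rw [hB2] at e1 e2 e3
  have e4 : (ρ + 3) * mm ≤ (ρ + 3) * (2 * b) := Nat.mul_le_mul_left _ hdeg
  have h5 := numE (R := R) (ρ := ρ) (σ := ∑ b, d (jj b) + ρ) (τ := m') (c := s) (by omega)
    (by omega) (by omega) hcase
  have h6 : ∀ b, mm * (d (jj b) + 1) ≤
      finrank κ ↥(Submodule.span κ (Set.range γh) ^ d (jj b)) + J := fun b =>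
    hpow _
  have h7 := Finset.sum_le_sum fun b (_ : b ∈ (Finset.univ : Finset (Fin ρ))) => h6 b
  rw [Finset.sum_add_distrib, ← Finset.mul_sum, Finset.sum_add_distrib, Finset.sum_const,
    Finset.sum_const, Finset.card_univ, Fintype.card_fin, smul_eq_mul, smul_eq_mul, mul_one] at h7
  omega

end Pool.Agent.Lib.MP_44a246_ntSH
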