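import Mathlib
import Pool.Agent.Lib.MP_44a246_ntSH.XE10
import Pool.Agent.Lib.MP_44a246_ntL.LMain
import Pool.Agent.Lib.MP_44a246_ntU.U12
import Pool.Agent.Lib.MP_44a246_ntD.D19
import Pool.Agent.Lib.MP_44a246_ntD.D20
import Pool.Agent.Lib.MP_44a246_ntK.K10
import Pool.Agent.Lib.MP_44a246_ntK.K12
import Pool.Agent.Lib.MP_44a246_ntK.K22
import Pool.Agent.Lib.MP_44a246_ntC.C16
import Pool.Agent.Lib.MP_44a246_ntC.C17
import Pool.Agent.Lib.MP_44a246_ntC.C32
import Pool.Agent.Lib.MP_44a246_ntE.E09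
import Pool.Agent.Lib.MP_44a246_ntE.E10
import Pool.Agent.Lib.MP_44a246_ntE.E11
import Pool.Agent.Lib.MP_44a246_ntE.E12
import Pool.Agent.Lib.MP_44a246_ntPC.D0
import Pool.Agent.Lib.MP_44a246_ntPC.E4
import Pool.Agent.Lib.MP_44a246_ntPC.E6
import Pool.Agent.Lib.MP_44a246_ntPC.E7
import Pool.Agent.Lib.MP_44a246_ntPC.E8

/-!
**Step E for pairs**: the points of a section `t_j = H_j (x)` of a weighted projective variety on
plane curves of small degree which meet the boundary in few points move in few directions. The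
number of the parameters of the curve is compared with the number of the conditions.
-/

namespace Pool.Agent.Lib.MP_44a246_ntSH

open Pool.Agent.Lib.MP_44a246_ntPC

open Pool.Agent.Lib.MP_44a246_ntK
open Pool.Agent.Lib.MP_44a246_ntR
open Pool.Agent.Lib.MP_44a246_ntC
open Pool.Agent.Lib.MP_44a246_ntD
open Pool.Agent.Lib.MP_44a246_ntQ
open Pool.Agent.Lib.MP_e52354_nt
open Pool.Agent.Lib.MP_44a246_nt
open Pool.Agent.Lib.MP_44a246_ntL
open Pool.Agent.Lib.MP_44a246_ntS
open Pool.Agent.Lib.MP_44a246_ntG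
open Pool.Agent.Lib.MP_44a246_ntU
open Pool.Agent.Lib.MP_44a246_ntE
open WithZero Polynomial Module

universe u

/-- **Step E for pairs**, for points which need not be generic. -/
theorem no_certWL_all {κ : Type u} [Field κ] [IsAlgClosed κ] [CharZero κ] {k : Type*} [Field k]
    [CharZero k] [Algebra k κ] {n m' p r b s ρ q : ℕ} {d : Fin p → ℕ} (hr : 2 ≤ r) (hq1 : 1 ≤ q)
    (hd : ∀ B : Finset (Fin p), B.card = ρ + q → 2 * r + s + 2 ≤ (∑ j ∈ B, d j) + m' + ρ)
    (hd1 : ∀ B : Finset (Fin p), B.card = ρ + q → r + (ρ + q) + 3 ≤ (∑ j ∈ B, d j) + ρ)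
    (hd2 : ∀ B : Finset (Fin p), B.card = ρ + q →
      (ρ + q + 3) * (2 * b) + 2 ≤ (∑ j ∈ B, d j) + ρ)
    {ι : Type*} {e : ι → ℕ} {f : ι → MvPolynomial (Fin p ⊕ Fin (n + 1)) k}
    (hf : ∀ i, (f i).IsWeightedHomogeneous (wtP (n + 1) d) (e i))
    (hI : ringKrullDim (MvPolynomial (Fin (n + 1)) k ⧸ imI f) ≤ ((r + 1 : ℕ) : ℕ))
    {g : Fin q → MvPolynomial (Fin p ⊕ Fin (n + 1)) k} {El : Fin q → ℕ}
    (hg : ∀ l, (g l).IsWeightedHomogeneous (wtP (n + 1) d) (El l))
    {a : Fin p → (Fin (n + 1) →₀ ℕ) → κ} (δ : Fin m' → Derivation ℤ κ κ)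
    (hδk : ∀ i, ∀ u : k, δ i (algebraMap k κ u) = 0)
    (hδa : ∀ i j, ∀ I ∈ expo (Fin (n + 1)) (d j), δ i (a j I) = 0)
    {P : Finset (Fin p × (Fin (n + 1) →₀ ℕ))} (hP : P.card ≤ s)
    (W : Fin p → (Fin (n + 1) →₀ ℕ) → Derivation ℤ κ κ)
    (hWk : ∀ b I, ∀ u : k, W b I (algebraMap k κ u) = 0)
    (hWa : ∀ b, ∀ I ∈ expo (Fin (n + 1)) (d b), ∀ b', ∀ J ∈ expo (Fin (n + 1)) (d b'),
      (b', J) ∉ P → W b I (a b' J) = if (b, I) = (b', J) then 1 else 0)
    {x : Fin (n + 1) → κ}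
    (hx : LinearIndependent κ
      (Fin.cons x (fun i k => δ i (x k)) : Fin (m' + 1) → Fin (n + 1) → κ))
    (hgx : ∀ l, Fval (El l) (aWP d a g l) x ≠ 0)
    (hne : JRank (ρ + q) (Sum.elim f g)
      (Sum.elim (fun j => Fval (d j) (a j) x) x : Fin p ⊕ Fin (n + 1) → κ)) :
    ¬ CertWL e (aWP d a f) (∑ l, El l) (aWP d a (fun _ : Unit => ∏ l, g l) ()) b x := by
  classical
  obtain ⟨R, rfl⟩ : ∃ R, r = R + 2 := ⟨r - 2, by omega⟩
  rintro ⟨A, Bv, ξ₀, ξ₁, ξ₂, c, y₁, y, hirr, hfew, hboxA, -, hc, hξ₀, hξ₁, hξ₂, hA, hAY, hB, hF,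
    h0, h1, h2, hproj⟩
  set α := (derivative A).evalEval y₁ y with hα
  have hdegA : 0 < A.natDegree := by
    rw [Nat.pos_iff_ne_zero]
    intro h3
    apply hAY
    rw [hα, eq_C_of_natDegree_eq_zero h3, derivative_C]
    simp
  refine with_curve hirr hdegA ?_
  intro M _ _ _ _ _ _ _ _ _ Y hY hgen hfin ht halg
  set φ := algebraMap κ M with hφ
  set X' : M := algebraMap κ[X] M X with hX'
  -- specialisation
  have hevA : ∀ G : κ[X][X], ev φ X' Y G = 0 ↔ A ∣ G := by
    intro G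
    rw [hX', ev_aeval, hY]
  have hspec : ∀ G : κ[X][X], evalEvalRingHom y₁ y G ≠ 0 → ev φ X' Y G ≠ 0 := by
    intro G hG h3
    obtain ⟨q, rfl⟩ := (hevA G).1 h3
    apply hG
    rw [map_mul]
    have h4 : evalEvalRingHom y₁ y A = 0 := hA
    rw [h4, zero_mul]
  have hAP : ev φ X' Y A = 0 := (hevA A).2 dvd_rfl
  have hAYP : ev φ X' Y (derivative A) ≠ 0 := hspec _ hAY
  set ω := ev φ X' Y (derivative A) with hω
  set γ : Fin (n + 1) → M := fun j => ev φ X' Y (Bv j) with hγdef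
  -- the relations between `γ` and the projection
  have hsum : ∀ ξ : Fin (n + 1) → κ, ev φ X' Y (∑ j, C (C (ξ j)) * Bv j) = ∑ j, φ (ξ j) * γ j := by
    intro ξ
    rw [map_sum]
    refine Finset.sum_congr rfl fun j _ => ?_
    rw [map_mul, ev_C_C]
  have r0 : ∑ j, φ (ξ₀ j) * γ j = ω := by
    rw [← hsum, ← sub_eq_zero, hω, ← map_sub]
    exact (hevA _).2 h0
  have r1 : ∑ j, φ (ξ₁ j) * γ j = X' * ω := by
    rw [← hsum, ← sub_eq_zero, hω]
    have h4 : X' * ev φ X' Y (derivative A) = ev φ X' Y (C X * derivative A) := by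
      rw [map_mul, ev_C_X]
    rw [h4, ← map_sub]
    exact (hevA _).2 h1
  have r2 : ∑ j, φ (ξ₂ j) * γ j = Y * ω := by
    rw [← hsum, ← sub_eq_zero, hω]
    have h4 : Y * ev φ X' Y (derivative A) = ev φ X' Y (X * derivative A) := by
      rw [map_mul, ev_X]
    rw [h4, ← map_sub]
    exact (hevA _).2 h2
  have hγ : γ ≠ 0 := by
    intro h3
    apply hAYP
    rw [← r0, h3]
    simp
  -- the structure of an algebra over `k`
  let _ : Algebra k M := ((algebraMap κ M).comp (algebraMap k κ)).toAlgebra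
  have hkM : ∀ u : k, algebraMap k M u = algebraMap κ M (algebraMap k κ u) := fun u => rfl
  have tkM : IsScalarTower k κ M := IsScalarTower.of_algebraMap_eq hkM
  -- `γ` is a zero of all the forms
  have hFo : ∀ o : ι, Fval (e o) (fun I => algebraMap κ M (aWP d a f o I)) γ = 0 := by
    intro o
    have h3 := (hevA _).2 (hF o)
    rw [ev_FB] at h3
    exact h3
  set η : Fin p → M := fun j => Fval (d j) (fun I => algebraMap κ M (a j I)) γ with hη
  have hfγ : ∀ i, MvPolynomial.aeval (Sum.elim η γ : Fin p ⊕ Fin (n + 1) → M) (f i) = 0 := by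
    intro i
    rw [hη, ← Fval_aWP hf a γ i]
    exact hFo i
  -- the rank condition at the generic point of the curve
  have hwt : ∀ i, (Sum.elim f g i).IsWeightedHomogeneous (wtP (n + 1) d) (Sum.elim e El i) := by
    rintro (i | i)
    · exact hf i
    · exact hg i
  have hβ0 : α * c ≠ 0 := mul_ne_zero hAY hc
  have hne' : JRank (ρ + q) (Sum.elim f g) (Sum.elim η γ : Fin p ⊕ Fin (n + 1) → M) :=
    jrank_generic hwt hβ0 (fun l => by rw [mul_assoc]; exact hB l) hspec hne
  obtain ⟨l, hl⟩ : ∃ l, γ l ≠ 0 := by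
    by_contra hcon
    push Not at hcon
    exact hγ (funext hcon)
  obtain ⟨T, hT, hγT, hDT⟩ := exists_tangent (k := k) (r := R + 2) hl
    (fun p j hj => card_le_of_dimI hf hI hfγ hl hj)
  have hMff : IsFF κ M := by
    have t : IsScalarTower κ (RatFunc κ) M := by
      refine IsScalarTower.of_algebraMap_eq fun u => ?_
      rw [IsScalarTower.algebraMap_apply κ κ[X] M,
        IsScalarTower.algebraMap_apply κ κ[X] (RatFunc κ),
        ← IsScalarTower.algebraMap_apply κ[X] (RatFunc κ) M]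
    exact (sp5b_isFF κ).of_finite
  -- the field of the point
  have hgen' : pointField κ γ = ⊤ := by
    have hmem : ∀ ξ : Fin (n + 1) → κ, (∑ j, φ (ξ j) * γ j) / γ l ∈ pointField κ γ := by
      intro ξ
      rw [Finset.sum_div]
      refine sum_mem fun j _ => ?_
      rw [mul_div_assoc]
      exact mul_mem ((pointField κ γ).algebraMap_mem _)
        (IntermediateField.subset_adjoin _ _ ⟨j, l, rfl⟩)
    refine top_of_mem hgen _ ?_ ?_
    · have h6 : X' = ((∑ j, φ (ξ₁ j) * γ j) / γ l) / ((∑ j, φ (ξ₀ j) * γ j) / γ l) := by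
        rw [r0, r1]
        field_simp
      rw [← hX', h6]
      exact div_mem (hmem ξ₁) (hmem ξ₀)
    · have h6 : Y = ((∑ j, φ (ξ₂ j) * γ j) / γ l) / ((∑ j, φ (ξ₀ j) * γ j) / γ l) := by
        rw [r0, r2]
        field_simp
      rw [h6]
      exact div_mem (hmem ξ₂) (hmem ξ₀)
  -- generic linear forms
  obtain ⟨u, hω₀, hmax, htr, hgen₂, hinj⟩ := exists_lin_forms hMff hγ hgen' (R := R) hT
  set ω₀ : M := ∑ j, (u 0 j : M) * γ j with hω₀d
  set z : Fin (R + 3) → M := fun i => (∑ j, (u i j : M) * γ j) / ω₀ with hzd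
  set γh : Fin (n + 1) → M := fun j => γ j / ω₀ with hγh
  have hzspan : ∀ i, z i ∈ Submodule.span κ (Set.range γh) := by
    intro i
    have h3 : z i = ∑ j, (u i j : κ) • γh j := by
      rw [hzd, hγh]
      simp only
      rw [Finset.sum_div]
      refine Finset.sum_congr rfl fun j _ => ?_
      rw [Algebra.smul_def, map_natCast, mul_div_assoc]
    rw [h3]
    exact Submodule.sum_mem _ fun j _ => Submodule.smul_mem _ _
      (Submodule.subset_span (Set.mem_range_self j))
  have hγhmax : ∀ w : Place κ M, vmax w.1 γh ≤ max 1 (w.1 (z 1)) := by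
    intro w
    have h3 : γh = fun j => ω₀⁻¹ * γ j := by
      funext j
      rw [hγh]
      simp only
      rw [div_eq_mul_inv, mul_comm]
    have hw0 : w.1 ω₀ ≠ 0 := w.1.ne_zero_iff.2 hω₀
    rw [h3, vmax_smul]
    refine (mul_le_mul_right (hmax w) (w.1 ω₀⁻¹)).trans ?_
    rw [mul_max, ← map_mul, ← map_mul, inv_mul_cancel₀ hω₀, map_one]
    refine max_le_max le_rfl (le_of_eq ?_)
    rw [inv_mul_eq_div]
  have hz0 : z 0 = 1 := div_self hω₀
  have hωz : ∀ i : Fin (R + 3), ω₀ * z i = ∑ j, (u i j : M) * γ j := by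
    intro i
    rw [hzd]
    simp only
    rw [mul_div_cancel₀ _ hω₀]
  have hz2 : ∀ w : Place κ M, w.1 (z 2) ≤ max 1 (w.1 (z 1)) := by
    intro w
    refine le_trans ?_ (hγhmax w)
    have h3 : z 2 = ∑ j, (u 2 j : M) * γh j := by
      rw [hzd, hγh]
      simp only
      rw [Finset.sum_div]
      refine Finset.sum_congr rfl fun j _ => ?_
      rw [mul_div_assoc]
    rw [h3]
    refine w.1.map_sum_le fun j _ => ?_
    rw [map_mul]
    have h4 : w.1 ((u 2 j : ℕ) : M) ≤ 1 := by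
      rw [← map_natCast (algebraMap κ M)]
      exact place_const_le w _
    exact (mul_le_mul' h4 (le_vmax w.1 γh j)).trans (one_mul _).le
  -- the values of the forms at the normalised point
  set ηh : Fin p → M := fun j => Fval (d j) (fun I => algebraMap κ M (a j I)) γh with hηh
  have hγω : (fun j => ω₀⁻¹ * γ j) = γh := by
    funext j
    rw [hγh]
    simp only
    rw [div_eq_mul_inv, mul_comm]
  have hηω : (fun j => ω₀⁻¹ ^ d j * η j) = ηh := by
    funext j
    rw [hηh, hη]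
    simp only
    rw [← Fval_smul, hγω]
  have hfγh : ∀ i, MvPolynomial.aeval (Sum.elim ηh γh : Fin p ⊕ Fin (n + 1) → M) (f i) = 0 := by
    intro i
    rw [hηh, ← Fval_aWP hf a γh i, ← hγω, Fval_smul, hFo i, mul_zero]
  have hneh : JRank (ρ + q) (Sum.elim f g) (Sum.elim ηh γh : Fin p ⊕ Fin (n + 1) → M) := by
    have h3 := hne'.smul hwt (inv_ne_zero hω₀)
    simp only [Sum.elim_inl, Sum.elim_inr] at h3
    rw [hγω, hηω] at h3
    exact h3
  -- the values of the forms on the boundary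
  set aP : (Fin (n + 1) →₀ ℕ) → κ := aWP d a (fun _ : Unit => ∏ l, g l) () with haP
  have hprod : (∏ l, g l).IsWeightedHomogeneous (wtP (n + 1) d) (∑ l, El l) :=
    MvPolynomial.IsWeightedHomogeneous.prod Finset.univ g El fun l _ => hg l
  have hPx : Fval (∑ l, El l) aP x ≠ 0 := by
    have h3 := Fval_aWP' (e := fun _ : Unit => ∑ l, El l) (f := fun _ : Unit => ∏ l, g l)
      (fun _ => hprod) a x ()
    rw [haP, h3, map_prod]
    refine Finset.prod_ne_zero_iff.2 fun l _ => ?_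
    rw [← Fval_aWP' hg]
    exact hgx l
  obtain ⟨hv, hhv⟩ : ∃ hv : Fin q → M, ∀ l,
      MvPolynomial.aeval (Sum.elim ηh γh : Fin p ⊕ Fin (n + 1) → M) (g l) = hv l :=
    ⟨fun l => MvPolynomial.aeval (Sum.elim ηh γh : Fin p ⊕ Fin (n + 1) → M) (g l), fun l => rfl⟩
  have hFh : Fval (∑ l, El l) (fun I => algebraMap κ M (aP I)) γh = ∏ l, hv l := by
    have h3 := Fval_aWP (e := fun _ : Unit => ∑ l, El l) (f := fun _ : Unit => ∏ l, g l)
      (fun _ => hprod) a γh ()
    rw [haP, h3, map_prod]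
    exact Finset.prod_congr rfl fun l _ => hhv l
  have hf0 : ∏ l, hv l ≠ 0 := by
    rw [← hFh, ← hγω, Fval_smul]
    refine mul_ne_zero (pow_ne_zero _ (inv_ne_zero hω₀)) ?_
    rw [← ev_FB]
    apply hspec
    show (FB (∑ l, El l) aP Bv).evalEval y₁ y ≠ 0
    rw [FB_eval]
    have h4 : (fun j => (Bv j).evalEval y₁ y) = fun j => α * c * x j := by
      funext j
      rw [← hB j]
      ring
    rw [h4, Fval_smul]
    exact mul_ne_zero (pow_ne_zero _ hβ0) hPx
  have hv0 : ∀ l, hv l ≠ 0 := fun l => Finset.prod_ne_zero_iff.1 hf0 l (Finset.mem_univ l)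
  have hvle : ∀ (w : Place κ M), w.1 (z 1) ≤ 1 → ∀ l, w.1 (hv l) ≤ 1 := by
    intro w hw l
    rw [← hhv l, hηh, ← Fval_aWP hg a γh l]
    refine val_Fval_le ((hγhmax w).trans ?_) _ _
    rw [max_eq_left hw]
  -- the functionals
  set aM : Fin p → (Fin (n + 1) →₀ ℕ) → M := fun j I => algebraMap κ M (a j I) with haM
  obtain ⟨jj, Λ, cr', ν, hjj, hΛ, -, hgder⟩ := exists_jacL (a := aM) hf hg hfγh hhv hv0 hneh
  -- the derivations
  set D₀ : ↥(tset d jj P) ⊕ Fin m' → Derivation ℤ κ κ :=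
    Sum.elim (fun t => W (jj t.1.1) t.1.2) δ with hD₀
  have hfd : FiniteDimensional (IntermediateField.adjoin κ {z 1}) M := finite_over_adjoin hMff htr
  have halg1 : Algebra.IsAlgebraic (IntermediateField.adjoin κ {z 1}) M := inferInstance
  choose Dh hDhκ hDhX using fun t => exists_der_ext htr halg1 (D₀ t) 0
  have hFκ : ∀ (c : ↥(tset d jj P) ⊕ Fin m' → κ) (u : κ),
      Dc Dh c (algebraMap κ M u) = algebraMap κ M (Dc D₀ c u) := by
    intro c u
    rw [Dc_apply, Dc_apply, map_sum]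
    refine Finset.sum_congr rfl fun t _ => ?_
    rw [hDhκ, map_mul]
    rfl
  have hFk : ∀ (c : ↥(tset d jj P) ⊕ Fin m' → κ) (u : k), Dc Dh c (algebraMap k M u) = 0 := by
    intro c u
    rw [hkM, hFκ, Dc_apply, Finset.sum_eq_zero, map_zero]
    intro t _
    rcases t with t | i
    · rw [hD₀, Sum.elim_inl, hWk, mul_zero]
    · rw [hD₀, Sum.elim_inr, hδk, mul_zero]
  obtain ⟨S, mm, pp, J, s', hmm, hq, hSz, hpow, hcase⟩ := count_all hMff (z := z) (γ := γh)
    (D := Dh) (D₀ := D₀) hzspan hz0 htr hγhmax hgen₂ hDhκ hDhX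
  -- the derivations of `S` do not move the point
  have hSγ : ∀ c ∈ S, ∀ j, Dc Dh c (γ j / ω₀) = 0 := by
    intro c hc
    set F := Dc Dh c with hF'
    have h3 : (fun j => F (γ j) - (F ω₀ / ω₀) * γ j) = 0 := by
      refine hinj _ ?_ ?_
      · exact T.sub_mem (hDT F (hFk c)) (T.smul_mem (F ω₀ / ω₀) hγT)
      · intro i
        have h4 : ∑ j, (u i j : M) * γ j = z i * ω₀ := by
          rw [hzd]
          simp only
          rw [div_mul_cancel₀ _ hω₀]
        have h5 : ∑ j, (u i j : M) * F (γ j) = z i * F ω₀ := by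
          have h6 : F (∑ j, (u i j : M) * γ j) = ∑ j, (u i j : M) * F (γ j) := by
            rw [map_sum]
            refine Finset.sum_congr rfl fun j _ => ?_
            rw [Derivation.leibniz, Derivation.map_natCast, smul_zero, add_zero, smul_eq_mul]
          rw [← h6, h4, Derivation.leibniz, hSz c hc i, smul_zero, add_zero, smul_eq_mul]
        have h6 : ∀ j, (u i j : M) * (F (γ j) - (F ω₀ / ω₀) * γ j) =
            (u i j : M) * F (γ j) - (F ω₀ / ω₀) * ((u i j : M) * γ j) := fun j => by ring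
        simp only [h6]
        rw [Finset.sum_sub_distrib, ← Finset.mul_sum, h5, h4]
        field_simp
        ring
    intro j
    have h4 := congrFun h3 j
    have h5 : F (γ j) = (F ω₀ / ω₀) * γ j := sub_eq_zero.1 h4
    have h6 : F (γ j / ω₀ * ω₀) = F (γ j) := by rw [div_mul_cancel₀ _ hω₀]
    rw [Derivation.leibniz, smul_eq_mul, smul_eq_mul, h5] at h6
    have h7 : ω₀ * F (γ j / ω₀) = 0 := by
      have h8 : γ j / ω₀ * F ω₀ = F ω₀ / ω₀ * γ j := by ring
      rw [h8] at h6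
      linear_combination h6
    exact (mul_eq_zero.1 h7).resolve_left hω₀
  -- the plane curve
  obtain ⟨PP, QQ, hPirr, hPdeg, hPhom, hPmon, hQhom, hQcoeff, hPdvd, hPder, hQder⟩ :=
    exists_plane hMff htr hgen₂ hγhmax hz2 hmm
  have hmm1 : 1 ≤ mm := by
    rcases hcase with ⟨h3, -⟩ | ⟨h3, -⟩ <;> omega
  -- evaluation of forms at the projection
  set uc : Fin 3 → Fin (n + 1) → ℕ := fun i => u (Fin.castLE (by omega) i) with huc
  have hub : ∀ i, ev φ X' Y (ub uc Bv i) = ω₀ * (![1, z 1, z 2] : Fin 3 → M) i := by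
    intro i
    have h6 : ∀ i : Fin (R + 3), ev φ X' Y (∑ j, C (C ((u i j : ℕ) : κ)) * Bv j) =
        ω₀ * z i := by
      intro i
      rw [hωz, hsum]
      refine Finset.sum_congr rfl fun j _ => ?_
      rw [map_natCast]
    fin_cases i
    · show ev φ X' Y (∑ j, C (C ((u 0 j : ℕ) : κ)) * Bv j) = ω₀ * 1
      rw [h6, hz0]
    · exact h6 1
    · exact h6 2
  have hevhom : ∀ (G : MvPolynomial (Fin 3) κ) (D : ℕ), G.IsHomogeneous D →
      ev φ X' Y (MvPolynomial.aeval (ub uc Bv) G) = ω₀ ^ D * ev φ (z 1) (z 2) (deh G) := by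
    intro G D hG
    have h4 : ev φ X' Y (MvPolynomial.aeval (ub uc Bv) G) =
        MvPolynomial.aeval (fun i => ω₀ * (![1, z 1, z 2] : Fin 3 → M) i) G := by
      rw [MvPolynomial.aeval_def, MvPolynomial.hom_eval₂, MvPolynomial.aeval_def]
      congr 1
      · ext c
        show ev φ X' Y (C (C c)) = _
        rw [ev_C_C]
      · funext i
        exact hub i
    rw [h4, Pool.Agent.Lib.MP_44a246_ntU.aeval_eq_Fval hG, Fval_smul,
      ← Pool.Agent.Lib.MP_44a246_ntU.aeval_eq_Fval hG, hφ, ev_deh]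
  have hderhom : (MvPolynomial.pderiv 2 PP).IsHomogeneous (mm - 1) := hPhom.pderiv
  have hPD : ev φ X' Y (MvPolynomial.aeval (ub uc Bv) (MvPolynomial.pderiv 2 PP)) =
      ω₀ ^ (mm - 1) * ev φ (z 1) (z 2) (derivative (deh PP)) := by
    rw [hevhom _ _ hderhom, deh_pderiv]
  have hprojid : ProjId A Bv uc mm PP QQ := by
    refine ⟨hPirr, hPhom, hPmon, hQhom, hQcoeff, ?_, ?_, ?_⟩
    · rw [← hevA, hevhom _ _ hPhom, (hPdvd _).2 dvd_rfl, mul_zero]
    · intro j
      rw [← hevA, map_sub, map_mul, hevhom _ _ (hQhom j), hPD, hQder j]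
      have h3 : ω₀ ^ mm = ω₀ ^ (mm - 1) * ω₀ := by
        rw [← pow_succ, Nat.sub_add_cancel hmm1]
      have h4 : ω₀ * γh j = ev φ X' Y (Bv j) := by
        rw [hγh]
        simp only
        rw [mul_div_cancel₀ _ hω₀]
      rw [h3, ← h4]
      ring
    · rw [← hevA, hPD]
      exact mul_ne_zero (pow_ne_zero _ hω₀) hPder
  -- the points on the boundary
  have hPcoef : ∃ i k, ((deh PP).coeff i).coeff k = 1 := by
    refine ⟨mm, 0, ?_⟩
    rw [deh_coeff hPhom, if_pos (by omega), ← hPmon]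
    congr 1
    simp
  obtain ⟨S', hS'S, hS'1, hS'2⟩ := kill_logs (x := z 1) (y := z 2) hMff htr hgen₂ hPirr
    (by rw [hPdeg]; omega) hPcoef hPdvd (q := q) (e := ∑ l, El l) (N := 3 * mm) hv0 hvle
    (Φ := FB (∑ l, El l) aP (fun j => deh (QQ j)))
    (by
      rw [ev_FB]
      have h3 : (fun j => ev (algebraMap κ M) (z 1) (z 2) (deh (QQ j))) =
          fun j => ev (algebraMap κ M) (z 1) (z 2) (derivative (deh PP)) * γh j :=
        funext hQder
      rw [h3, Fval_smul, hFh])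
    (fun E hE1 hE2 => hfew uc mm PP QQ hprojid E hE1 hE2)
    (D₀ := D₀) (D := Dh) hDhκ S (fun c hc => ⟨hSz c hc 1, hSz c hc 2⟩)
  -- the count
  have hcount := count_forms (v := fun j => (vf A (cX κ) (Bv j)).evalEval y₁ y) (γ := γh)
    (S := S') (q := pp + 3 * mm + q - 1)
    δ hδa hP W hWa hx hjj (fun t => rfl) (fun i => rfl) (by omega) (fun c hc h3 b => by
      refine forms_vanishL (cr := cr') (ν := ν) hΛ (hFκ c) (fun b => ?_) (hSγ c (hS'S hc))
        (hS'2 c hc) h3 b
      exact hgder b (Dc Dh c) (hFk c))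
    (fun c hcS' h3 => by
      have hcS := hS'S hcS'
      set F := Dc Dh c with hF'
      set δ' := Dc δ (fun i => c (Sum.inr i)) with hδ'
      have hFδ : ∀ u : κ, F (algebraMap κ M u) = algebraMap κ M (δ' u) := by
        intro u
        rw [hF', hFκ, Dc_apply, hδ', Dc_apply, Fintype.sum_sum_type]
        congr 1
        rw [Finset.sum_eq_zero, zero_add]
        · rfl
        · intro t _
          rw [h3, map_zero, zero_mul]
      refine der_x_mem hA hAY (mul_ne_zero hAY hc) (fun j => by rw [mul_assoc]; exact hB j) h0 h1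
        δ' ?_
      intro hli
      have h4 := indep_of_spec (evalEvalRingHom y₁ y) (ev φ X' Y) hspec
        (N := (![Bv, fun j => vf A (cX κ) (Bv j), fun j => vf A (cE δ') (Bv j)] :
          Fin 3 → Fin (n + 1) → κ[X][X])) (by
          convert hli using 1
          funext i
          fin_cases i <;> rfl)
      -- the third vector is a combination of the others
      have hFγ : ∀ j, F (γ j) = (F ω₀ / ω₀) * γ j := by
        intro j
        have h5 : F (γ j / ω₀ * ω₀) = F (γ j) := by rw [div_mul_cancel₀ _ hω₀]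
        rw [Derivation.leibniz, hSγ c hcS j, smul_zero, add_zero, smul_eq_mul] at h5
        rw [← h5]
        ring
      have hFe : ∀ j, ω * F (γ j) = ev φ X' Y (vf A (cE δ') (Bv j)) +
          F X' * ev φ X' Y (vf A (cX κ) (Bv j)) := fun j => ev_vf φ δ' F hFδ hAP (Bv j)
      rw [Fintype.linearIndependent_iff] at h4
      have h5 := h4 ![ω * (F ω₀ / ω₀), - F X', -1] (by
        rw [Fin.sum_univ_three]
        funext j
        simp only [Matrix.cons_val_zero, Matrix.cons_val_one, Matrix.cons_val, Pi.add_apply,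
          Pi.smul_apply, smul_eq_mul, Pi.zero_apply]
        have h6 := hFe j
        rw [hFγ j] at h6
        have h7 : ev φ X' Y (Bv j) = γ j := rfl
        rw [h7]
        linear_combination h6) 2
      simp at h5)
  -- the degree
  have hdeg : mm ≤ 2 * b := by
    obtain ⟨Q, hQ0, hQh, hQ⟩ := hproj uc
    have h3 := (hevA _).2 hQ
    rw [hevhom _ _ hQh, hφ, ev_deh] at h3
    have h5 : MvPolynomial.aeval (![1, z 1, z 2] : Fin 3 → M) Q = 0 :=
      (mul_eq_zero.1 h3).resolve_left (pow_ne_zero _ hω₀)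
    have h6 := degree_le_form hMff htr hgen₂ hQ0 hQh h5
    rw [hmm] at h6
    exact_mod_cast h6
  -- the inequalities
  have hB1 : (Finset.univ.image jj).card = ρ + q := by
    rw [Finset.card_image_of_injective _ hjj, Finset.card_univ, Fintype.card_fin]
  have hB2 : ∑ j ∈ Finset.univ.image jj, d j = ∑ b, d (jj b) :=
    Finset.sum_image fun x _ y _ h => hjj h
  have e1 := hd _ hB1
  have e2 := hd1 _ hB1
  have e3 := hd2 _ hB1
  rw [hB2] at e1 e2 e3
  have e4 : (ρ + q + 3) * mm ≤ (ρ + q + 3) * (2 * b) := Nat.mul_le_mul_left _ hdeg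
  have h5 := numEP (R := R) (ρ := ρ) (q := q) (σ := ∑ b, d (jj b) + ρ) (τ := m') (c := s) hq1 hmm1
    (by omega) (by omega) (by omega) hcase
  have h6 : ∀ b, mm * (d (jj b) + 1) ≤
      finrank κ ↥(Submodule.span κ (Set.range γh) ^ d (jj b)) + J := fun b =>
    hpow _
  have h7 := Finset.sum_le_sum fun b (_ : b ∈ (Finset.univ : Finset (Fin (ρ + q)))) => h6 b
  rw [Finset.sum_add_distrib, ← Finset.mul_sum, Finset.sum_add_distrib, Finset.sum_const,
    Finset.sum_const, Finset.card_univ, Fintype.card_fin, smul_eq_mul, smul_eq_mul, mul_one] at h7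
  have h8 : mm * (∑ b, d (jj b) + ρ + q) = mm * (∑ b, d (jj b) + (ρ + q)) := by ring
  omega

end Pool.Agent.Lib.MP_44a246_ntSH
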