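import Mathlib
import Pool.Agent.Lib.MP_44a246_ntSH.XPG4
import Pool.Agent.Lib.MP_44a246_ntU.U17
import Pool.Agent.Lib.MP_44a246_ntD.D22
import Pool.Agent.Lib.MP_44a246_ntC.C36

/-!
The exceptional set for pairs: the curves of small degree in the variety whose projections meet the
boundary in few points.
-/

namespace Pool.Agent.Lib.MP_44a246_ntSH

open Pool.Agent.Lib.MP_44a246_ntPC

open Pool.Agent.Lib.MP_44a246_ntC
open Pool.Agent.Lib.MP_44a246_ntK
open Pool.Agent.Lib.MP_44a246_ntR
open Pool.Agent.Lib.MP_44a246_ntY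
open Pool.Agent.Lib.MP_44a246_ntD
open Pool.Agent.Lib.MP_44a246_ntQ
open Pool.Agent.Lib.MP_e52354_nt
open Pool.Agent.Lib.MP_44a246_nt
open Pool.Agent.Lib.MP_44a246_ntL
open Pool.Agent.Lib.MP_44a246_ntS
open Pool.Agent.Lib.MP_44a246_ntG
open Pool.Agent.Lib.MP_44a246_ntU
open MvPolynomial

universe v w

/-- **The exceptional set**, for the points over algebraic extensions: it is given by finitely many
forms and its (affine) dimension is at most `m`. -/
theorem exists_excFormsWLA {k : Type*} {K : Type v} [Field k] [CharZero k] [Countable k] [Field K]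
    [CharZero K] [Algebra k K] {n m p r b s ρ q : ℕ} {d : Fin p → ℕ}
    (hr : 2 ≤ r) (hq : 1 ≤ q)
    (hd : ∀ B : Finset (Fin p), B.card = ρ + q → 2 * r + s + 2 ≤ (∑ j ∈ B, d j) + m + ρ)
    (hd1 : ∀ B : Finset (Fin p), B.card = ρ + q → r + (ρ + q) + 3 ≤ (∑ j ∈ B, d j) + ρ)
    (hd2 : ∀ B : Finset (Fin p), B.card = ρ + q →
      ((ρ + q) + 3) * (2 * b) + 2 ≤ (∑ j ∈ B, d j) + ρ)
    {ι : Type*} [Finite ι]
    {e : ι → ℕ} {f : ι → MvPolynomial (Fin p ⊕ Fin (n + 1)) k}
    (hf : ∀ i, (f i).IsWeightedHomogeneous (wtP (n + 1) d) (e i))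
    (hI : ringKrullDim (MvPolynomial (Fin (n + 1)) k ⧸ imI f) ≤ ((r + 1 : ℕ) : ℕ))
    {g : Fin q → MvPolynomial (Fin p ⊕ Fin (n + 1)) k} {El : Fin q → ℕ}
    (hg : ∀ l, (g l).IsWeightedHomogeneous (wtP (n + 1) d) (El l))
    {a : Fin p → (Fin (n + 1) →₀ ℕ) → K}
    {P : Finset (Fin p × (Fin (n + 1) →₀ ℕ))} (hP : P.card ≤ s)
    (ha : AlgebraicIndependent k (fun s : {s // s ∈ jexpo n d ∧ s ∉ P} => a s.1.1 s.1.2)) :
    ∃ (s' : ℕ) (G : Fin s' → MvPolynomial (Fin (n + 1)) K), (∀ i, ∃ E, (G i).IsHomogeneous E) ∧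
      ringKrullDim (MvPolynomial (Fin (n + 1)) K ⧸ Ideal.span (Set.range G)) ≤ ((m : ℕ) : ℕ) ∧
      ∀ (L : Type w) [Field L] [Algebra K L] [Algebra k L]
        [IsScalarTower k K L] (φ : L →ₐ[K] AlgebraicClosure K) (x : Fin (n + 1) → L),
        CertWL e (aWP d (fun j I => algebraMap K (AlgebraicClosure K) (a j I)) f) (∑ l, El l)
          (aWP d (fun j I => algebraMap K (AlgebraicClosure K) (a j I))
            (fun _ : Unit => ∏ l, g l) ()) b (fun j => φ (x j)) →
        (∀ l, Fval (El l) (aWP d (fun j I => algebraMap K L (a j I)) g l) x ≠ 0) →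
        JRank (ρ + q) (Sum.elim f g)
          (Sum.elim (fun i => Fval (d i) (fun I => algebraMap K L (a i I)) x) x :
          Fin p ⊕ Fin (n + 1) → L) →
          ∀ i, aeval x (G i) = 0 := by
  have hex : ∀ (l : Fin (n + 1)) (j : Fin m → Fin (n + 1)),
      ∃ h : MvPolynomial (Fin m) K, h ≠ 0 ∧ ∀ x : Fin (n + 1) → AlgebraicClosure K,
        CertWL e (aWP d (fun j I => algebraMap K (AlgebraicClosure K) (a j I)) f) (∑ l, El l)
          (aWP d (fun j I => algebraMap K (AlgebraicClosure K) (a j I))
            (fun _ : Unit => ∏ l, g l) ()) b x →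
        (∀ l, Fval (El l) (aWP d (fun j I => algebraMap K (AlgebraicClosure K) (a j I)) g l) x ≠
          0) →
          JRank (ρ + q) (Sum.elim f g) (Sum.elim (fun i => Fval (d i)
            (fun I => algebraMap K (AlgebraicClosure K) (a i I)) x) x :
              Fin p ⊕ Fin (n + 1) → AlgebraicClosure K) →
          x l ≠ 0 → MvPolynomial.aeval (fun i => x (j i) / x l) h = 0 :=
    fun l j => exists_excWLA hr hq hd hd1 hd2 hf hI hg hP ha l j
  choose h hh0 hh using hex
  have hex2 : ∀ (l : Fin (n + 1)) (j : Fin m → Fin (n + 1)),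
      ∃ (E : ℕ) (G : MvPolynomial (Fin (n + 1)) K), G.IsHomogeneous E ∧
        ∀ {L : Type v} [Field L] [Algebra K L] (x : Fin (n + 1) → L),
          (x l = 0 → aeval x G = 0) ∧
            (x l ≠ 0 → aeval x G = x l ^ E * aeval (fun i => x (j i) / x l) (h l j)) :=
    fun l j => exists_homogV (h l j) l j
  choose E G hGh hG using hex2
  let eq := Fintype.equivFin (Fin (n + 1) × (Fin m → Fin (n + 1)))
  refine ⟨_, fun i => G (eq.symm i).1 (eq.symm i).2, fun i => ⟨_, hGh _ _⟩, ?_, ?_⟩
  · refine dim_excE hh0 (E := E) (G := G) (fun l j L _ _ x hx => (hG l j x).2 hx) ?_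
    intro l j
    refine Ideal.subset_span ⟨eq (l, j), ?_⟩
    simp only [Equiv.symm_apply_apply]
  · intro L _ _ _ _ φ x hx hxg hxn i
    have hφk : ∀ u : k, φ.toRingHom (algebraMap k L u) = algebraMap k (AlgebraicClosure K) u := by
      intro u
      show φ (algebraMap k L u) = _
      rw [IsScalarTower.algebraMap_apply k K L, φ.commutes,
        ← IsScalarTower.algebraMap_apply k K (AlgebraicClosure K)]
    have h2 : (fun i I => φ.toRingHom (aWP d (fun j I => algebraMap K L (a j I)) g i I)) =
        aWP d (fun j I => algebraMap K (AlgebraicClosure K) (a j I)) g := by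
      funext o I
      rw [map_aWP d _ φ.toRingHom hφk g o I]
      exact congrFun (congrFun (aWP_congr (fun j I _ => φ.commutes _) g) o) I
    have h1g : ∀ l, Fval (El l) (aWP d (fun j I => algebraMap K (AlgebraicClosure K) (a j I)) g l)
        (fun j => φ (x j)) ≠ 0 := by
      intro l
      have h3 := Fval_mapL φ.toRingHom (El l) (aWP d (fun j I => algebraMap K L (a j I)) g l) x
      have h4 : (fun I => φ.toRingHom (aWP d (fun j I => algebraMap K L (a j I)) g l I)) =
          aWP d (fun j I => algebraMap K (AlgebraicClosure K) (a j I)) g l := congrFun h2 l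
      rw [h4] at h3
      intro h5
      apply hxg l
      have h6 : φ.toRingHom (Fval (El l) (aWP d (fun j I => algebraMap K L (a j I)) g l) x) = 0 :=
        h3.trans h5
      exact (map_eq_zero φ.toRingHom).1 h6
    have h1n : JRank (ρ + q) (Sum.elim f g) (Sum.elim (fun i => Fval (d i)
        (fun I => algebraMap K (AlgebraicClosure K) (a i I)) (fun j => φ (x j)))
          (fun j => φ (x j)) : Fin p ⊕ Fin (n + 1) → AlgebraicClosure K) := by
      let φk : L →ₐ[k] AlgebraicClosure K :=
        { φ.toRingHom with commutes' := hφk }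
      have h1 := hxn.map φk
      have h2 : (fun s => φk ((Sum.elim (fun i => Fval (d i)
          (fun I => algebraMap K L (a i I)) x) x : Fin p ⊕ Fin (n + 1) → L) s)) =
          (Sum.elim (fun i => Fval (d i)
            (fun I => algebraMap K (AlgebraicClosure K) (a i I)) (fun j => φ (x j)))
              (fun j => φ (x j)) : Fin p ⊕ Fin (n + 1) → AlgebraicClosure K) := by
        funext s
        rcases s with s | s
        · show φ.toRingHom (Fval (d s) (fun I => algebraMap K L (a s I)) x) = _
          rw [Fval_mapL]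
          simp only [Sum.elim_inl]
          have h5 : (fun I => φ.toRingHom (algebraMap K L (a s I))) =
              fun I => algebraMap K (AlgebraicClosure K) (a s I) :=
            funext fun I => φ.commutes _
          rw [h5]
          rfl
        · rfl
      rw [h2] at h1
      exact h1
    have h3 : ∀ l j, aeval x (G l j) = 0 := by
      intro l j
      have h4 : aeval (fun j => φ (x j)) (G l j) = φ (aeval x (G l j)) := by
        have h5 := congrArg (fun g => g (G l j)) (MvPolynomial.comp_aeval (R := K) (f := x) φ)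
        exact h5.symm
      have h6 : aeval (fun j => φ (x j)) (G l j) = 0 := by
        by_cases hl : φ (x l) = 0
        · exact (hG l j (fun j => φ (x j))).1 hl
        · rw [(hG l j (fun j => φ (x j))).2 hl, hh l j _ hx h1g h1n hl, mul_zero]
      rw [h4] at h6
      exact (map_eq_zero φ).1 h6
    exact h3 _ _

end Pool.Agent.Lib.MP_44a246_ntSH
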